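import Pool.Agent.Lib.MP_fa022d_an.CInv

/-! Arc length as a circle map. -/

open Set Filter Topology Metric BoundedContinuousFunction Complex

noncomputable section
namespace StekIso

/-- primitives on a strip -/
theorem arc_prim {η : ℝ} {h : ℂ → ℂ} (hη : 0 < η) (hd : DifferentiableOn ℂ h (strip η)) :
    ∃ σ : ℂ → ℂ, (∀ z ∈ strip η, HasDerivAt σ (h z) z) ∧
      ∀ x : ℝ, σ x = ∫ t in (0 : ℝ)..x, h t := by
  have c : Continuous fun t : ℝ => h t :=
    hd.continuousOn.comp_continuous continuous_ofReal fun t => by simpa [strip] using hη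
  refine ⟨fun z => wedgeIntegral 0 z h, fun z hz => ?_, fun x => by simp [wedgeIntegral]⟩
  have sub : ball (z.re : ℂ) η ⊆ strip η := fun w hw => by
    have := (abs_im_le_norm (w - z.re)).trans_lt (mem_ball_iff_norm.1 hw)
    simpa [strip] using this
  have hz' : z ∈ ball (z.re : ℂ) η := by
    rw [mem_ball_iff_norm, show z - z.re = z.im * I by rw [sub_eq_iff_eq_add', re_add_im]]
    simpa [strip] using hz
  have a := ((hd.mono sub).isConservativeOn.hasDerivAt_wedgeIntegral (hd.mono sub).continuousOn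
    hz').const_add (∫ t in (0 : ℝ)..z.re, h t)
  refine a.congr_of_eventuallyEq (.of_forall fun w => ?_)
  simp only [wedgeIntegral, zero_re, zero_im, ofReal_zero, zero_mul, add_zero, ofReal_re,
    ofReal_im]
  rw [← add_assoc, intervalIntegral.integral_add_adjacent_intervals (c.intervalIntegrable _ _)
    (c.intervalIntegrable _ _)]

theorem arc_const {η : ℝ} {f : ℂ → ℂ} (hd : ∀ z ∈ strip η, HasDerivAt f 0 z) {s t : ℂ}
    (hs : s ∈ strip η) (ht : t ∈ strip η) : f s = f t := by
  have := (kext_convex η).norm_image_sub_le_of_norm_hasDerivWithin_le (C := 0)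
    (fun z hz => (hd z hz).hasDerivWithinAt) (fun _ _ => by simp) ht hs
  rwa [zero_mul, norm_le_zero_iff, sub_eq_zero] at this

/-- the primitive of a periodic function with mean one and positive real part -/
theorem arc_cmap {η m M : ℝ} {h : ℂ → ℂ} (hη : 0 < η) (hd : DifferentiableOn ℂ h (strip η))
    (hp : ∀ s ∈ strip η, h (s + 2 * Real.pi) = h s) (hr : ∀ x : ℝ, (h x).im = 0)
    (h1 : ∫ t in (0 : ℝ)..2 * Real.pi, h t = 2 * Real.pi) (lo : ∀ s ∈ strip η, m ≤ (h s).re)
    (hi : ∀ s ∈ strip η, ‖h s‖ ≤ M) :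
    ∃ σ : ℂ → ℂ, CMap η m M σ ∧ (∀ z ∈ strip η, HasDerivAt σ (h z) z) ∧
      (∀ x : ℝ, σ x = ∫ t in (0 : ℝ)..x, h t) ∧
      ((∀ s ∈ strip η, h (-s) = h s) → ∀ s ∈ strip η, σ (-s) = -σ s) := by
  obtain ⟨σ, d, e⟩ := arc_prim hη hd
  have z : (0 : ℂ) ∈ strip η := by simpa [strip] using hη
  have s0 : σ 0 = 0 := by simpa using e 0
  refine ⟨σ, ⟨fun s hs => (d s hs).differentiableAt.differentiableWithinAt, fun s hs => ?_,
    fun x => ?_, fun s hs => by rw [(d s hs).deriv]; exact lo s hs,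
    fun s hs => by rw [(d s hs).deriv]; exact hi s hs⟩, d, e, fun ev s hs => ?_⟩
  · have := arc_const (f := fun s => σ (s + 2 * Real.pi) - σ s) (fun w hw => by
      have := ((d (w + 2 * Real.pi) (by simpa [strip] using hw)).comp_add_const w _).sub (d w hw)
      rwa [hp w hw, sub_self] at this) hs z
    have e2 := e (2 * Real.pi)
    rw [h1, ofReal_mul, ofReal_ofNat] at e2
    simp only [zero_add, s0, e2] at this
    linear_combination this
  · rw [e, ← conj_eq_iff_im, ← intervalIntegral.intervalIntegral_conj]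
    exact intervalIntegral.integral_congr fun t _ => conj_eq_iff_im.2 (hr t)
  · have := arc_const (f := fun s => σ (-s) + σ s) (fun w hw => by
      have := ((d (-w) (by simpa [strip] using hw)).comp w (hasDerivAt_neg w)).add (d w hw)
      rwa [ev w hw, mul_neg_one, neg_add_cancel] at this) hs z
    simp only [neg_zero, s0] at this
    linear_combination this

/-- a periodic function that is positive on the line has positive real part on a thin strip -/
theorem arc_pos {η : ℝ} {h : ℂ → ℂ} (hη : 0 < η) (hd : DifferentiableOn ℂ h (strip η))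
    (hp : ∀ s ∈ strip η, h (s + 2 * Real.pi) = h s) (h0 : ∀ x : ℝ, 0 < (h x).re) :
    ∃ η' m M : ℝ, 0 < η' ∧ η' ≤ η ∧ 0 < m ∧ ∀ s ∈ strip η', m ≤ (h s).re ∧ ‖h s‖ ≤ M := by
  have e : strip η = {s | s.im ∈ Ioo (-η) η} := Set.ext fun s => abs_lt (a := s.im)
  have sub : strip (η / 2) ⊆ strip η := fun s hs => lt_of_lt_of_le hs (half_le_self hη.le)
  have ic : ∀ s ∈ strip (η / 2), s.im ∈ Icc (-(η / 2)) (η / 2) := fun s hs =>
    abs_le.1 (le_of_lt hs)
  obtain ⟨M, hM⟩ := four1_bdd (a := -η) (b := η) (c := -(η / 2)) (d := η / 2) (by linarith)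
    (by linarith) (e ▸ hd.continuousOn) fun s hs => hp s (e ▸ hs)
  obtain ⟨L, hL⟩ := four1_bdd (f := deriv h) (a := -η) (b := η) (c := -(η / 2)) (d := η / 2)
    (by linarith) (by linarith) (e ▸ (hd.deriv (isOpen_strip η)).continuousOn) fun s hs => by
      rw [← deriv_comp_add_const]
      refine EventuallyEq.deriv_eq ?_
      filter_upwards [(isOpen_strip η).mem_nhds (e ▸ hs)] with z hz using hp z hz
  have c : Continuous fun t : ℝ => (h t).re := continuous_re.comp
    (hd.continuousOn.comp_continuous continuous_ofReal fun t => by simpa [strip] using hη)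
  have q : Function.Periodic (fun t : ℝ => (h t).re) (2 * Real.pi) := fun t => by
    simp only [ofReal_add, ofReal_mul, ofReal_ofNat]
    rw [hp _ (by simpa [strip] using hη)]
  obtain ⟨x, -, hx⟩ := (isCompact_Icc (a := (0 : ℝ)) (b := 2 * Real.pi)).exists_isMinOn
    ⟨0, le_rfl, Real.two_pi_pos.le⟩ c.continuousOn
  have L0 : 0 ≤ L := (norm_nonneg _).trans (hL 0 (ic 0 (by simpa [strip] using hη)))
  have x0 := h0 x
  refine ⟨min (η / 2) ((h x).re / (2 * (L + 1))), (h x).re / 2, M, by positivity,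
    (min_le_left _ _).trans (half_le_self hη.le), by positivity, fun s hs => ?_⟩
  obtain ⟨s1, s2⟩ := lt_min_iff.1 (show |s.im| < _ from hs)
  refine ⟨?_, hM s (ic s s1)⟩
  have a := (kext_convex (η / 2)).norm_image_sub_le_of_norm_deriv_le
    (fun z hz => hd.differentiableAt ((isOpen_strip η).mem_nhds (sub hz)))
    (fun z hz => hL z (ic z hz)) (kext_real s1 s.re) s1
  obtain ⟨y, hy, ey⟩ := q.exists_mem_Ico₀ Real.two_pi_pos s.re
  have b : (h x).re ≤ (h s.re).re := ey ▸ hx (Ico_subset_Icc_self hy)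
  have n : ‖s - s.re‖ = |s.im| := by
    rw [show s - s.re = s.im * I by rw [sub_eq_iff_eq_add', re_add_im]]
    simp
  have r := (abs_le.1 ((abs_re_le_norm _).trans a)).1
  rw [n, sub_re] at r
  rw [lt_div_iff₀ (by positivity)] at s2
  nlinarith [abs_nonneg s.im]

/-- holomorphic extension of `|exp G|` on the circle of radius `R` -/
def arcH (G : ℂ → ℂ) (R : ℝ) (u : ℂ) : ℂ :=
  exp ((G (R * exp (I * u)) + (starRingEnd ℂ) (G (R * exp (I * (starRingEnd ℂ) u)))) / 2)

theorem arcH_real (G : ℂ → ℂ) (R x : ℝ) :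
    arcH G R x = (‖exp (G (R * exp (I * x)))‖ : ℝ) := by
  rw [arcH, conj_ofReal, add_conj, Complex.norm_exp, ofReal_exp]
  congr 1
  push_cast
  ring

theorem arcH_per (G : ℂ → ℂ) (R : ℝ) (u : ℂ) : arcH G R (u + 2 * Real.pi) = arcH G R u := by
  have a : ∀ w : ℂ, exp (I * (w + 2 * Real.pi)) = exp (I * w) := fun w => by
    simpa using four2_per 1 w
  rw [arcH, arcH, map_add, map_mul, conj_ofReal, map_ofNat, a, a]

theorem arc_mem {H δ : ℝ} (hH : 0 ≤ H) (j : Bool) {u : ℂ} (hu : u ∈ strip δ) :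
    (rad H j : ℂ) * exp (I * u) ∈ ann H δ := by
  obtain ⟨a, b⟩ := abs_lt.1 (show |u.im| < δ from hu)
  have e : ‖(rad H j : ℂ) * exp (I * u)‖ = Real.exp ((if j then 0 else -H) - u.im) := by
    rw [norm_mul, Complex.norm_exp, sub_eq_add_neg, Real.exp_add]
    cases j <;> simp [rad, Complex.norm_exp]
  rw [ann, mem_setOf_eq, e, Real.exp_lt_exp, Real.exp_lt_exp]
  cases j <;> constructor <;> simp <;> linarith

theorem arcH_diff {G : ℂ → ℂ} {H δ : ℝ} (hH : 0 ≤ H) (hG : DifferentiableOn ℂ G (ann H δ))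
    (ho : IsOpen (ann H δ)) (j : Bool) : DifferentiableOn ℂ (arcH G (rad H j)) (strip δ) := by
  have a : ∀ u ∈ strip δ, DifferentiableAt ℂ (fun u => G (rad H j * exp (I * u))) u :=
    fun u hu => (hG.differentiableAt (ho.mem_nhds (arc_mem hH j hu))).comp u (by fun_prop)
  intro u hu
  have b := (a ((starRingEnd ℂ) u) (by simpa [strip] using hu)).conj_conj
  rw [conj_conj] at b
  exact (((a u hu).add b).div_const 2).cexp.differentiableWithinAt

theorem arcH_even {G : ℂ → ℂ} {H δ : ℝ} (hH : 0 ≤ H)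
    (hs : ∀ z ∈ ann H δ, G ((starRingEnd ℂ) z) = (starRingEnd ℂ) (G z)) (j : Bool) {u : ℂ}
    (hu : u ∈ strip δ) : arcH G (rad H j) (-u) = arcH G (rad H j) u := by
  have a := hs _ (arc_mem hH j hu)
  have b := hs _ (arc_mem hH j (u := (starRingEnd ℂ) u) (by simpa [strip] using hu))
  rw [map_mul, ← exp_conj, map_mul, conj_ofReal, conj_I] at a b
  rw [conj_conj] at b
  rw [arcH, arcH, map_neg, mul_neg, mul_neg, ← neg_mul, ← neg_mul, a, b, conj_conj, add_comm]

end StekIso
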