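import Pool.Agent.Lib.MP_fa022d_an.Defs3

open Set Filter Topology Metric BoundedContinuousFunction Complex

noncomputable section
namespace StekIso

theorem isOpen_ann (H δ : ℝ) : IsOpen (ann H δ) := by
  exact (isOpen_lt continuous_const continuous_norm).inter
    (isOpen_lt continuous_norm continuous_const)

theorem top1_cpt (s t : ℝ) : IsCompact {z : ℂ | s ≤ ‖z‖ ∧ ‖z‖ ≤ t} :=
  (isCompact_closedBall (0 : ℂ) t).of_isClosed_subset
    ((isClosed_le continuous_const continuous_norm).inter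
      (isClosed_le continuous_norm continuous_const)) fun _ hz => mem_closedBall_zero_iff.2 hz.2

theorem isCompact_cann (H : ℝ) : IsCompact (cann H) := by
  exact top1_cpt _ _

theorem top1_lin {F0 : ℂ → ℂ} {c0 : ℂ} {δ ε : ℝ} (hδ : 0 < δ) (hε : 0 < ε)
    (hd : DifferentiableOn ℂ F0 (ball c0 δ)) : ∃ ρ > 0, ρ ≤ δ ∧ ∃ κ > 0, ∀ F : ℂ → ℂ,
      DifferentiableOn ℂ F (ball c0 δ) → (∀ z ∈ ball c0 δ, ‖F z - F0 z‖ ≤ κ) →
      ∀ x ∈ ball c0 ρ, ∀ y ∈ ball c0 ρ, ‖F y - F x - deriv F0 c0 * (y - x)‖ ≤ ε * ‖y - x‖ := by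
  have hc : ContinuousAt (deriv F0) c0 :=
    (hd.deriv isOpen_ball).continuousOn.continuousAt (ball_mem_nhds c0 hδ)
  obtain ⟨ρ, hρ, h⟩ := Metric.continuousAt_iff.1 hc (ε / 2) (half_pos hε)
  refine ⟨min ρ (δ / 4), by positivity, (min_le_right _ _).trans (by linarith), ε * δ / 4,
    by positivity, fun F hF hκ x hx y hy => ?_⟩
  have sub : ball c0 (min ρ (δ / 4)) ⊆ ball c0 δ :=
    ball_subset_ball ((min_le_right _ _).trans (by linarith))
  have key : ∀ z ∈ ball c0 (min ρ (δ / 4)), ‖deriv F z - deriv F0 c0‖ ≤ ε := fun z hz => by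
    have s : closedBall z (δ / 2) ⊆ ball c0 δ := closedBall_subset_ball' (by
      have := (mem_ball.1 hz).trans_le (min_le_right _ _)
      linarith)
    have a := norm_deriv_le_of_forall_mem_sphere_norm_le (half_pos hδ)
      ((hF.sub hd).diffContOnCl_ball s) fun w hw => hκ w (s (sphere_subset_closedBall hw))
    rw [deriv_sub (hF.differentiableAt (isOpen_ball.mem_nhds (sub hz)))
      (hd.differentiableAt (isOpen_ball.mem_nhds (sub hz)))] at a
    have b := h ((mem_ball.1 hz).trans_le (min_le_left _ _))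
    rw [dist_eq_norm] at b
    have e : ε * δ / 4 / (δ / 2) = ε / 2 := by field_simp; ring
    have t := norm_add_le (deriv F z - deriv F0 z) (deriv F0 z - deriv F0 c0)
    rw [sub_add_sub_cancel] at t
    linarith
  have m := (convex_ball c0 (min ρ (δ / 4))).norm_image_sub_le_of_norm_hasDerivWithin_le
    (f := fun z => F z - deriv F0 c0 * z) (f' := fun z => deriv F z - deriv F0 c0)
    (fun z hz => ((hF.differentiableAt (isOpen_ball.mem_nhds (sub hz))).hasDerivAt.sub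
      (by simpa using (hasDerivAt_id z).const_mul (deriv F0 c0))).hasDerivWithinAt) key hx hy
  rwa [show F y - deriv F0 c0 * y - (F x - deriv F0 c0 * x) = F y - F x - deriv F0 c0 * (y - x) by
    ring] at m

theorem top1_nc {F : ℂ → ℂ} {b : ℂ} {c : ℝ} (hc : 0 < c)
    (h : ∀ᶠ a in 𝓝 b, c * ‖a - b‖ ≤ ‖F a - F b‖) : ¬∀ᶠ z in 𝓝 b, F z = F b := fun k => by
  obtain ⟨z, ⟨h1, h2⟩, h3⟩ :=
    (((h.and k).filter_mono nhdsWithin_le_nhds).and (self_mem_nhdsWithin (s := {b}ᶜ))).exists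
  rw [h2, sub_self, norm_zero] at h1
  exact (mul_pos hc (norm_pos_iff.2 (sub_ne_zero.2 h3))).not_ge h1

theorem top1_surj {F : ℂ → ℂ} {U : Set ℂ} {b D y : ℂ} {ε r : ℝ} (hr : 0 < r)
    (hF : DifferentiableOn ℂ F U) (hU : closedBall b r ⊆ U) (hε : ε < ‖D‖)
    (h : ∀ z ∈ closedBall b r, ‖F z - F b - D * (z - b)‖ ≤ ε * ‖z - b‖)
    (hy : ‖y - F b‖ < (‖D‖ - ε) * r / 2) : ∃ z ∈ closedBall b r, F z = y := by
  have low : ∀ z ∈ closedBall b r, (‖D‖ - ε) * ‖z - b‖ ≤ ‖F z - F b‖ := fun z hz => by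
    have t := norm_sub_norm_le (D * (z - b)) (F z - F b)
    rw [norm_mul, norm_sub_rev (D * _)] at t
    linarith [h z hz]
  refine (hF.diffContOnCl_ball hU).ball_subset_image_closedBall hr (ε := (‖D‖ - ε) * r)
    (fun z hz => ?_) (not_eventually.1 (top1_nc (sub_pos.2 hε) ?_)) (by rwa [mem_ball, dist_eq_norm])
  · rw [← mem_sphere_iff_norm.1 hz]
    exact low z (sphere_subset_closedBall hz)
  · filter_upwards [closedBall_mem_nhds b hr] using low

theorem top1_mono {H H' δ δ' : ℝ} (h : H + δ ≤ H' + δ') (h' : δ ≤ δ') : ann H δ ⊆ ann H' δ' :=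
  fun _ hz => ⟨(Real.exp_le_exp.2 (by linarith)).trans_lt hz.1, hz.2.trans_le (Real.exp_le_exp.2 h')⟩

theorem top1_cann {H H' δ : ℝ} (h : H' < H + δ) (hδ : 0 < δ) : cann H' ⊆ ann H δ :=
  fun _ hz => ⟨(Real.exp_lt_exp.2 (by linarith)).trans_le hz.1,
    hz.2.trans_lt (Real.one_lt_exp_iff.2 hδ)⟩

/-- uniform local injectivity near the closed annulus -/
theorem loc_inj {F : ℂ → ℂ} {H δ : ℝ} (hδ : 0 < δ) (hd : DifferentiableOn ℂ F (ann H δ))
    (h0 : ∀ z ∈ ann H δ, deriv F z ≠ 0) : ∃ κ > 0, ∃ r > 0, ∃ c > 0, ∀ F' : ℂ → ℂ,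
      DifferentiableOn ℂ F' (ann H (δ / 2)) → (∀ z ∈ ann H (δ / 2), ‖F' z - F z‖ ≤ κ) →
      ∀ a ∈ ann H (δ / 4), ∀ b ∈ ann H (δ / 4), ‖a - b‖ ≤ r → c * ‖a - b‖ ≤ ‖F' a - F' b‖ := by
  have key := (top1_cpt (Real.exp (-H - δ / 4)) (Real.exp (δ / 4))).induction_on
    (p := fun S => ∃ κ > 0, ∃ r > 0, ∃ c > 0, ∀ F' : ℂ → ℂ,
      DifferentiableOn ℂ F' (ann H (δ / 2)) → (∀ z ∈ ann H (δ / 2), ‖F' z - F z‖ ≤ κ) →
      ∀ a ∈ S, ∀ b, ‖a - b‖ ≤ r → c * ‖a - b‖ ≤ ‖F' a - F' b‖)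
    ⟨1, one_pos, 1, one_pos, 1, one_pos, fun _ _ _ _ h => h.elim⟩
    (fun _ _ hst ⟨κ, h1, r, h2, c, h3, h⟩ =>
      ⟨κ, h1, r, h2, c, h3, fun F' d e a ha => h F' d e a (hst ha)⟩) ?_ ?_
  · obtain ⟨κ, h1, r, h2, c, h3, h⟩ := key
    exact ⟨κ, h1, r, h2, c, h3, fun F' d e a ha b _ => h F' d e a ⟨ha.1.le, ha.2.le⟩ b⟩
  · rintro s t ⟨κ, h1, r, h2, c, h3, h⟩ ⟨κ', h1', r', h2', c', h3', h'⟩
    refine ⟨min κ κ', lt_min h1 h1', min r r', lt_min h2 h2', min c c', lt_min h3 h3',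
      fun F' d e a ha b hb => ?_⟩
    rcases ha with ha | ha
    · exact (mul_le_mul_of_nonneg_right (min_le_left _ _) (norm_nonneg _)).trans
        (h F' d (fun z hz => (e z hz).trans (min_le_left _ _)) a ha b (hb.trans (min_le_left _ _)))
    · exact (mul_le_mul_of_nonneg_right (min_le_right _ _) (norm_nonneg _)).trans
        (h' F' d (fun z hz => (e z hz).trans (min_le_right _ _)) a ha b
          (hb.trans (min_le_right _ _)))
  · intro x hx
    have hx' : x ∈ ann H (δ / 2) := ⟨(Real.exp_lt_exp.2 (by linarith)).trans_le hx.1,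
      hx.2.trans_lt (Real.exp_lt_exp.2 (by linarith))⟩
    have sub : ann H (δ / 2) ⊆ ann H δ := top1_mono (by linarith) (by linarith)
    obtain ⟨t, ht, hb⟩ := Metric.isOpen_iff.1 (isOpen_ann H (δ / 2)) x hx'
    have hD : 0 < ‖deriv F x‖ / 2 := half_pos (norm_pos_iff.2 (h0 x (sub hx')))
    obtain ⟨ρ, hρ, -, κ, hκ, h⟩ := top1_lin ht hD (hd.mono (hb.trans sub))
    refine ⟨ball x (ρ / 2), mem_nhdsWithin_of_mem_nhds (ball_mem_nhds x (half_pos hρ)), κ, hκ,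
      ρ / 2, half_pos hρ, _, hD, fun F' d e a ha b hab => ?_⟩
    have hb' : b ∈ ball x ρ := by
      have := dist_triangle_left b x a
      rw [dist_eq_norm a b] at this
      have := mem_ball.1 ha
      exact mem_ball.2 (by linarith)
    have m := h F' (d.mono hb) (fun z hz => e z (hb hz)) b hb' a
      (ball_subset_ball (half_le_self hρ.le) ha)
    have t := norm_sub_norm_le (deriv F x * (a - b)) (F' a - F' b)
    rw [norm_mul, norm_sub_rev (deriv F x * _)] at t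
    linarith

theorem inj_open {F : ℂ → ℂ} {H δ : ℝ} (hδ : 0 < δ) (hd : DifferentiableOn ℂ F (ann H δ))
    (h0 : ∀ z ∈ ann H δ, deriv F z ≠ 0) (hi : InjOn F (cann H)) : ∃ κ > 0, ∀ (F' : ℂ → ℂ) (H' : ℝ),
      |H' - H| ≤ κ → DifferentiableOn ℂ F' (ann H (δ / 2)) →
      (∀ z ∈ ann H (δ / 2), ‖F' z - F z‖ ≤ κ) → InjOn F' (cann H') := by
  obtain ⟨κ, hκ, r, hr, c, hc, h⟩ := loc_inj hδ hd h0
  let T : Set (ℝ × ℂ × ℂ) := {p | |p.1 - H| ≤ δ / 8 ∧ (Real.exp (-p.1) ≤ ‖p.2.1‖ ∧ ‖p.2.1‖ ≤ 1) ∧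
    (Real.exp (-p.1) ≤ ‖p.2.2‖ ∧ ‖p.2.2‖ ≤ 1) ∧ r ≤ ‖p.2.1 - p.2.2‖}
  have hT : IsCompact T := by
    refine ((isCompact_closedBall H (δ / 8)).prod ((isCompact_closedBall (0 : ℂ) 1).prod
      (isCompact_closedBall (0 : ℂ) 1))).of_isClosed_subset ?_ fun p hp =>
        ⟨hp.1, mem_closedBall_zero_iff.2 hp.2.1.2, mem_closedBall_zero_iff.2 hp.2.2.1.2⟩
    have k : ∀ {f g : ℝ × ℂ × ℂ → ℝ}, Continuous f → Continuous g → IsClosed {p | f p ≤ g p} :=
      fun hf hg => isClosed_le hf hg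
    refine (k ?_ ?_).inter (((k ?_ ?_).inter (k ?_ ?_)).inter
      (((k ?_ ?_).inter (k ?_ ?_)).inter (k ?_ ?_))) <;> fun_prop
  have sub : ∀ {x ε : ℝ}, |x - H| ≤ δ / 8 → δ / 4 ≤ ε → cann x ⊆ ann H ε := fun hx hε =>
    top1_cann (by linarith [(abs_le.1 hx).2]) (by linarith)
  have hc' : ContinuousOn (fun p : ℝ × ℂ × ℂ => ‖F p.2.1 - F p.2.2‖ + |p.1 - H|) T :=
    ((hd.continuousOn.comp (by fun_prop) fun p hp => sub hp.1 (by linarith) hp.2.1).sub
      (hd.continuousOn.comp (by fun_prop) fun p hp => sub hp.1 (by linarith) hp.2.2.1)).norm.add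
      (by fun_prop)
  obtain ⟨m, hm, hm'⟩ := hT.exists_forall_le' hc' (a := 0) fun p hp => by
    rcases (abs_nonneg (p.1 - H)).eq_or_lt with e | e
    · have e' : p.1 = H := sub_eq_zero.1 (abs_eq_zero.1 e.symm)
      refine add_pos_of_pos_of_nonneg (norm_pos_iff.2 (sub_ne_zero.2 fun k => ?_)) (abs_nonneg _)
      have := hp.2.2.2
      rw [hi (e' ▸ hp.2.1) (e' ▸ hp.2.2.1) k, sub_self, norm_zero] at this
      exact this.not_gt hr
    · exact add_pos_of_nonneg_of_pos (norm_nonneg _) e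
  refine ⟨min κ (min (δ / 8) (m / 4)), by positivity, fun F' H' hH d e a ha b hb hab => ?_⟩
  have h1 := hH.trans ((min_le_right _ _).trans (min_le_left _ _))
  have h2 := hH.trans ((min_le_right _ _).trans (min_le_right _ _))
  rcases le_total ‖a - b‖ r with k | k
  · have := h F' d (fun z hz => (e z hz).trans (min_le_left _ _)) a (sub h1 le_rfl ha) b
      (sub h1 le_rfl hb) k
    rw [hab, sub_self, norm_zero] at this
    exact sub_eq_zero.1 (norm_le_zero_iff.1 (nonpos_of_mul_nonpos_right this hc))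
  · have t := hm' (H', a, b) ⟨h1, ha, hb, k⟩
    have ea := (e a (sub h1 (by linarith) ha)).trans ((min_le_right _ _).trans (min_le_right _ _))
    have eb := (e b (sub h1 (by linarith) hb)).trans ((min_le_right _ _).trans (min_le_right _ _))
    have u := norm_sub_le (F' b - F b) (F' a - F a)
    rw [show F' b - F b - (F' a - F a) = F a - F b by rw [hab]; ring] at u
    simp only at t
    linarith

theorem ovl_open {F : ℂ → ℂ} {H δ : ℝ} (hδ : 0 < δ) (hd : DifferentiableOn ℂ F (ann H δ))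
    (h0 : ∀ z ∈ ann H δ, deriv F z ≠ 0) (ho : Overlap F H) : ∃ κ > 0, ∀ (F' : ℂ → ℂ) (H' : ℝ),
      |H' - H| ≤ κ → DifferentiableOn ℂ F' (ann H (δ / 2)) →
      (∀ z ∈ ann H (δ / 2), ‖F' z - F z‖ ≤ κ) → Overlap F' H' := by
  obtain ⟨a, ha, b, hb, hab, he⟩ := ho
  have ev : ∀ z ∈ ann H 0, ∀ᶠ x in 𝓝 H, z ∈ ann x 0 := fun z hz =>
    ((by fun_prop : Continuous fun x : ℝ => Real.exp (-x - 0)).continuousAt.eventually_lt
      continuousAt_const hz.1).mono fun x hx => ⟨hx, hz.2⟩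
  obtain ⟨η, hη, h⟩ := Metric.eventually_nhds_iff.1 ((ev a ha).and (ev b hb))
  obtain ⟨ha', hb'⟩ := h (y := H - η / 2) (by
    rw [Real.dist_eq, sub_sub_cancel_left, abs_neg, abs_of_pos (half_pos hη)]
    exact half_lt_self hη)
  obtain ⟨t, ht, hs⟩ := Metric.isOpen_iff.1
    ((isOpen_ann (H - η / 2) 0).inter (isOpen_compl_singleton (x := a))) b ⟨hb', hab.symm⟩
  have s1 : ann (H - η / 2) 0 ⊆ ann H (δ / 2) := top1_mono (by linarith) (by linarith)
  have s2 : ann H (δ / 2) ⊆ ann H δ := top1_mono (by linarith) (by linarith)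
  have s3 : ball b t ⊆ ann H (δ / 2) := fun z hz => s1 (hs hz).1
  have hD : 0 < ‖deriv F b‖ / 2 := half_pos (norm_pos_iff.2 (h0 b (s2 (s1 hb'))))
  obtain ⟨ρ, hρ, hρt, κ, hκ, hl⟩ := top1_lin ht hD (hd.mono (s3.trans s2))
  refine ⟨min κ (min (η / 2) (‖deriv F b‖ / 2 * ρ / 16)), by positivity, fun F' H' hH d e => ?_⟩
  have h1 := hH.trans ((min_le_right _ _).trans (min_le_left _ _))
  have s4 : ann (H - η / 2) 0 ⊆ ann H' 0 := top1_mono (by linarith [(abs_le.1 h1).1]) le_rfl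
  have s5 : closedBall b (ρ / 2) ⊆ ball b ρ := closedBall_subset_ball (half_lt_self hρ)
  have s6 : ball b ρ ⊆ ball b t := ball_subset_ball hρt
  have ea := (e a (s1 ha')).trans ((min_le_right _ _).trans (min_le_right _ _))
  have eb := (e b (s1 hb')).trans ((min_le_right _ _).trans (min_le_right _ _))
  have u := norm_sub_le (F' a - F a) (F' b - F b)
  rw [show F' a - F a - (F' b - F b) = F' a - F' b by rw [he]; ring] at u
  obtain ⟨z, hz, ez⟩ := top1_surj (y := F' a) (half_pos hρ) d ((s5.trans s6).trans s3)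
    (half_lt_self (norm_pos_iff.2 (h0 b (s2 (s1 hb')))))
    (fun z hz => hl F' (d.mono s3) (fun w hw => (e w (s3 hw)).trans (min_le_left _ _)) b
      (mem_ball_self hρ) z (s5 hz)) (by nlinarith [mul_pos hD hρ])
  exact ⟨a, s4 ha', z, s4 (hs (s6 (s5 hz))).1, fun k => (hs (s6 (s5 hz))).2 k.symm, ez.symm⟩

end StekIso
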