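import Pool.Agent.Lib.MP_fa022d_an.Arc
import Pool.Agent.Lib.MP_fa022d_an.Top1

/-! The circle maps of a symmetric flat immersion and their asymmetry. -/

open Set Filter Topology Metric BoundedContinuousFunction Complex

noncomputable section
namespace StekIso

theorem arcb_sq {Q E : ℂ → ℂ} (hQ : AnalyticAt ℂ Q 0) (h : E =ᶠ[𝓝 0] fun u => sin u ^ 2 * Q u) :
    E 0 = 0 ∧ deriv E 0 = 0 ∧ deriv (deriv E) 0 = 2 * Q 0 := by
  have e : deriv E =ᶠ[𝓝 0] fun u => sin u * (2 * cos u * Q u + sin u * deriv Q u) := by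
    refine h.deriv.trans ?_
    filter_upwards [hQ.eventually_analyticAt] with u hu
    rw [(((Complex.hasDerivAt_sin u).fun_pow 2).fun_mul hu.differentiableAt.hasDerivAt).deriv]
    simp
    ring
  have hd := hQ.deriv
  have a : AnalyticAt ℂ (fun u => 2 * cos u * Q u + sin u * deriv Q u) 0 := by fun_prop
  refine ⟨by simpa using h.self_of_nhds, by simpa using e.self_of_nhds, ?_⟩
  rw [e.deriv_eq, ((Complex.hasDerivAt_sin 0).fun_mul a.differentiableAt.hasDerivAt).deriv]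
  simp

theorem arcb_step {η η' : ℝ} {θ φ ψ f : ℂ → ℂ} (hθ : ∀ w ∈ strip η', θ w ∈ strip η ∧
    HasDerivAt θ (φ (θ w)) w) (hψ : AnalyticOnNhd ℂ ψ (strip η))
    (hf : ∀ w ∈ strip η', f w = ψ (θ w)) :
    ∀ w ∈ strip η', deriv f w = deriv ψ (θ w) * φ (θ w) := fun w hw => by
  have e : f =ᶠ[𝓝 w] fun w => ψ (θ w) := by
    filter_upwards [(isOpen_strip η').mem_nhds hw] with z hz using hf z hz
  rw [e.deriv_eq]
  exact ((hψ _ (hθ w hw).1).differentiableAt.hasDerivAt.comp w (hθ w hw).2).deriv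

theorem arcb_d3 {η η' : ℝ} {θ φ : ℂ → ℂ} (hθ : ∀ w ∈ strip η', θ w ∈ strip η ∧
    HasDerivAt θ (φ (θ w)) w) (hφ : AnalyticOnNhd ℂ φ (strip η)) {w : ℂ} (hw : w ∈ strip η') :
    iteratedDeriv 3 θ w =
      (deriv (deriv φ) (θ w) * φ (θ w) + deriv φ (θ w) * deriv φ (θ w)) * φ (θ w) := by
  have a := arcb_step (ψ := φ) (f := deriv θ) hθ hφ fun w hw => (hθ w hw).2.deriv
  have b := arcb_step (ψ := fun u => deriv φ u * φ u) hθ (hφ.deriv.mul hφ) a w hw
  have u := (hθ w hw).1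
  rw [iteratedDeriv_succ, iteratedDeriv_succ, iteratedDeriv_one, b,
    ((hφ.deriv _ u).differentiableAt.hasDerivAt.fun_mul (hφ _ u).differentiableAt.hasDerivAt).deriv]

theorem arcb_pi {η m M : ℝ} {θ : ℂ → ℂ} (hη : 0 < η) (h : CMap η m M θ)
    (o : ∀ s ∈ strip η, θ (-s) = -θ s) : θ 0 = 0 ∧ θ Real.pi = Real.pi := by
  have a := o 0 (by simpa [strip] using hη)
  have b := o Real.pi (by simpa [strip] using hη)
  have c := h.per (-Real.pi) (by simpa [strip] using hη)
  rw [neg_zero] at a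
  rw [b, show -(Real.pi : ℂ) + 2 * Real.pi = Real.pi by ring] at c
  exact ⟨by linear_combination a / 2, by linear_combination c / 2⟩

theorem arcb_ne {η m M : ℝ} {σ k : ℂ → ℂ} (hη : 0 < η) (h : CMap η m M σ)
    (o : ∀ s ∈ strip η, σ (-s) = -σ s) (d : ∀ z ∈ strip η, HasDerivAt σ (k z) z)
    (lt : ∀ x : ℝ, 0 < x → x < Real.pi / 2 → (k (x + Real.pi)).re < (k x).re) {x : ℝ}
    (h0 : 0 < x) (h1 : x < Real.pi) : σ (x + Real.pi) ≠ σ x + Real.pi := by
  have u : ∀ x : ℝ, (x : ℂ) ∈ strip η := fun x => by simpa [strip] using hη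
  have u' : ∀ x : ℝ, (x : ℂ) + Real.pi ∈ strip η := fun x => by simpa [strip] using hη
  have D : ∀ x : ℝ, HasDerivAt (fun x : ℝ => (σ x + Real.pi - σ (x + Real.pi)).re)
      (k x - k (x + Real.pi)).re x := fun x =>
    (((d _ (u x)).add_const _).fun_sub ((d _ (u' x)).comp_add_const _ _)).real_of_complex
  have mono := strictMonoOn_of_deriv_pos (convex_Icc 0 (Real.pi / 2))
    (fun x _ => (D x).continuousAt.continuousWithinAt) fun x hx => by
      rw [interior_Icc] at hx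
      rw [(D x).deriv, sub_re]
      exact sub_pos.2 (lt x hx.1 hx.2)
  obtain ⟨s0, s1⟩ := arcb_pi hη h o
  have pos : ∀ x : ℝ, 0 < x → x ≤ Real.pi / 2 → σ (x + Real.pi) ≠ σ x + Real.pi :=
    fun x a b e => by
      have := mono ⟨le_rfl, by positivity⟩ ⟨a.le, b⟩ a
      simp [e, s0, s1] at this
  rcases le_total x (Real.pi / 2) with c | c
  · exact pos x h0 c
  intro e
  refine pos (Real.pi - x) (by linarith) (by linarith) ?_
  have a := h.per (-x) (by simpa [strip] using hη)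
  have b := h.per (-(x + Real.pi)) (by simpa [strip] using hη)
  rw [o _ (u x)] at a
  rw [o _ (u' x), e] at b
  push_cast
  rw [show Real.pi - x + Real.pi = -(x : ℂ) + 2 * Real.pi by ring, a,
    show Real.pi - x = -((x : ℂ) + Real.pi) + 2 * Real.pi by ring, b]
  ring

theorem arcb_inv {η m M : ℝ} {σ k W : ℂ → ℂ} (hη : 0 < η) (hm : 0 < m) (h : CMap η m M σ)
    (o : ∀ s ∈ strip η, σ (-s) = -σ s) (d : ∀ z ∈ strip η, HasDerivAt σ (k z) z)
    (hW : DifferentiableOn ℂ W (strip η)) (W0 : ∀ x : ℝ, 0 < (W x).re)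
    (eW : ∀ u ∈ strip η, k u ^ 2 - k (u + Real.pi) ^ 2 = W u * (cos u * sin u ^ 2)) :
    ∃ θ : ℂ → ℂ, CMap (m * η) (m / M ^ 2) (1 / m) θ ∧ (∀ s ∈ strip (m * η), θ (-s) = -θ s) ∧
      (∀ w ∈ strip (m * η), deriv θ w = (k (θ w))⁻¹) ∧ deriv θ 0 = deriv θ Real.pi ∧
      iteratedDeriv 3 θ 0 ≠ iteratedDeriv 3 θ Real.pi ∧
      ∀ a : ℝ, 0 < a → a < Real.pi → θ (a + Real.pi) ≠ θ a + Real.pi := by
  obtain ⟨θ, c, R, L⟩ := h.exists_inv hη hm
  have η0 := mul_pos hm hη
  have u : ∀ x : ℝ, (x : ℂ) ∈ strip η := fun x => by simpa [strip] using hη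
  have v : ∀ x : ℝ, (x : ℂ) ∈ strip (m * η) := fun x => by simpa [strip] using η0
  have u' : ∀ z ∈ strip η, z + Real.pi ∈ strip η := fun z hz => by simpa [strip] using hz
  have od : ∀ s ∈ strip (m * η), θ (-s) = -θ s := fun s hs => by
    obtain ⟨a, b, -⟩ := R s hs
    have := L (-θ s) (by simpa [strip] using a)
    rwa [o _ a, b] at this
  have dk : ∀ w ∈ strip (m * η), deriv θ w = (k (θ w))⁻¹ := fun w hw => by
    rw [(R w hw).2.2, (d _ (R w hw).1).deriv]
  have lo : ∀ z ∈ strip η, 0 < (k z).re := fun z hz => by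
    rw [← (d z hz).deriv]; exact hm.trans_le (h.lo z hz)
  have kn : ∀ z ∈ strip η, k z ≠ 0 := fun z hz e => by simpa [e] using lo z hz
  have ka : AnalyticOnNhd ℂ k (strip η) :=
    ((h.diff.analyticOnNhd (isOpen_strip η)).deriv).congr (isOpen_strip η)
      fun z hz => (d z hz).deriv
  have fa : AnalyticOnNhd ℂ (fun z => (k z)⁻¹) (strip η) := ka.inv kn
  obtain ⟨t0, t1⟩ := arcb_pi η0 c od
  have z0 : (0 : ℂ) ∈ strip η := u 0
  have sn : ∀ z ∈ strip η, k z + k (z + Real.pi) ≠ 0 := fun z hz e => by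
    have := add_pos (lo z hz) (lo _ (u' z hz))
    rw [← add_re, e] at this
    simp at this
  have kp : AnalyticAt ℂ (fun z => k (z + Real.pi)) 0 :=
    (ka _ (u' 0 z0)).comp_of_eq (analyticAt_id.add analyticAt_const) rfl
  have k0 := ka 0 z0
  have Wa := hW.analyticAt ((isOpen_strip η).mem_nhds z0)
  obtain ⟨e0, e1, e2⟩ := arcb_sq (E := fun z => (k (z + Real.pi))⁻¹ - (k z)⁻¹)
    (Q := fun z => W z * cos z / ((k z + k (z + Real.pi)) * k z * k (z + Real.pi)))
    (AnalyticAt.div (Wa.mul Complex.analyticAt_cos) (((k0.add kp).mul k0).mul kp)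
      (mul_ne_zero (mul_ne_zero (sn 0 z0) (kn 0 z0)) (kn _ (u' 0 z0)))) (by
      filter_upwards [(isOpen_strip η).mem_nhds z0] with z hz
      have a := sn z hz
      have b := kn z hz
      have c := kn _ (u' z hz)
      field_simp
      linear_combination eW z hz)
  have fp : AnalyticOnNhd ℂ (fun z => (k (z + Real.pi))⁻¹) (strip η) := fun z hz =>
    (fa _ (u' z hz)).comp_of_eq (analyticAt_id.add analyticAt_const) rfl
  have s1 : ∀ z ∈ strip η, deriv (fun z => (k (z + Real.pi))⁻¹ - (k z)⁻¹) z =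
      deriv (fun z => (k z)⁻¹) (z + Real.pi) - deriv (fun z => (k z)⁻¹) z := fun z hz => by
    rw [deriv_fun_sub (fp z hz).differentiableAt (fa z hz).differentiableAt,
      deriv_comp_add_const (fun z => (k z)⁻¹)]
  have s2 : deriv (deriv fun z => (k (z + Real.pi))⁻¹ - (k z)⁻¹) 0 =
      deriv (deriv fun z => (k z)⁻¹) (0 + Real.pi) - deriv (deriv fun z => (k z)⁻¹) 0 := by
    have a : AnalyticAt ℂ (fun z => deriv (fun z => (k z)⁻¹) (z + Real.pi)) 0 :=
      (fa.deriv _ (u' 0 z0)).comp_of_eq (analyticAt_id.add analyticAt_const) rfl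
    rw [EventuallyEq.deriv_eq (eventually_of_mem ((isOpen_strip η).mem_nhds z0) s1),
      deriv_fun_sub a.differentiableAt (fa.deriv 0 z0).differentiableAt,
      deriv_comp_add_const (deriv fun z => (k z)⁻¹)]
  rw [s1 0 z0] at e1
  rw [s2] at e2
  simp only [zero_add] at e0 e1 e2
  rw [sub_eq_zero] at e0 e1
  have D : ∀ w ∈ strip (m * η), θ w ∈ strip η ∧ HasDerivAt θ ((fun z => (k z)⁻¹) (θ w)) w :=
    fun w hw => ⟨(R w hw).1, by have := kext_hd c hw; rwa [dk w hw] at this⟩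
  refine ⟨θ, c, od, dk, ?_, fun e => ?_, fun a a0 a1 e => ?_⟩
  · rw [dk 0 (v 0), dk _ (v _), t0, t1, e0]
  · rw [arcb_d3 D fa (w := 0) (v 0), arcb_d3 D fa (v _), t0, t1, e0, e1] at e
    have i0 := inv_ne_zero (kn 0 z0)
    have e3 := mul_right_cancel₀ i0 (add_right_cancel (mul_right_cancel₀ i0 e))
    rw [e3, sub_self, cos_zero, mul_one] at e2
    have w0 : W 0 ≠ 0 := fun e => by simpa [e] using W0 0
    exact mul_ne_zero two_ne_zero (div_ne_zero w0 (mul_ne_zero (mul_ne_zero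
      (by simpa using sn 0 z0) (kn 0 z0)) (kn _ (u _)))) e2.symm
  · have r : ((θ a).re : ℂ) = θ a := conj_eq_iff_re.1 (conj_eq_iff_im.2 (c.real a))
    have mono : StrictMono fun x : ℝ => (θ x).re := strictMono_of_deriv_pos fun x => by
      rw [(kext_hd c (v x)).real_of_complex.deriv, dk _ (v x), inv_re]
      exact div_pos (lo _ (R _ (v x)).1) (normSq_pos.2 (kn _ (R _ (v x)).1))
    refine arcb_ne hη h o d (fun x x0 x1 => ?_) (x := (θ a).re)
      (by simpa [t0] using mono a0) (by simpa [t1] using mono a1) ?_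
    · have kr : ∀ x : ℝ, (k x).im = 0 := fun x => by
        have a := (d _ (u x)).comp_ofReal
        have b : HasDerivAt (fun y : ℝ => (σ y).im) (k x).im x :=
          imCLM.hasFDerivAt.comp_hasDerivAt x a
        rw [show (fun y : ℝ => (σ y).im) = fun _ => 0 from funext h.real] at b
        exact b.unique (hasDerivAt_const x 0)
      have e := congrArg re (eW x (u x))
      have i2 := kr (x + Real.pi)
      have p2 := lo _ (u (x + Real.pi))
      rw [ofReal_add] at i2 p2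
      rw [← ofReal_cos, ← ofReal_sin, ← ofReal_pow, ← ofReal_mul, re_mul_ofReal, sub_re, sq, sq,
        mul_re, mul_re, kr, i2] at e
      have : 0 < (W x).re * (Real.cos x * Real.sin x ^ 2) := mul_pos (W0 x) (mul_pos
        (Real.cos_pos_of_mem_Ioo ⟨by linarith, x1⟩)
        (pow_pos (Real.sin_pos_of_pos_of_lt_pi x0 (by linarith)) 2))
      nlinarith [lo _ (u x)]
    · have a2 := (R _ (v (a + Real.pi))).2.1
      rw [ofReal_add, e] at a2
      rw [r, a2, (R _ (v a)).2.1]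

theorem lenG_pos {G : ℂ → ℂ} {H δ : ℝ} (hH : 0 ≤ H) (hδ : 0 < δ)
    (hG : DifferentiableOn ℂ G (ann H δ)) (j : Bool) : 0 < lenG G H j := by
  have c : Continuous fun x : ℝ => G (rad H j * exp (I * x)) :=
    hG.continuousOn.comp_continuous (by fun_prop) fun x =>
      arc_mem hH j (by simpa [strip] using hδ)
  have r : 0 < rad H j := by unfold rad; split_ifs; exacts [one_pos, Real.exp_pos _]
  exact mul_pos (by positivity) (intervalIntegral.intervalIntegral_pos_of_pos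
    ((c.cexp.norm.mul continuous_const).intervalIntegrable _ _)
    (fun x => mul_pos (norm_pos_iff.2 (exp_ne_zero _)) r) Real.two_pi_pos)

/-- the inverse of normalised arc length on circle number `j` -/
theorem arc_theta {G W : ℂ → ℂ} {H δ : ℝ} (hH : 0 ≤ H) (hδ : 0 < δ)
    (hG : DifferentiableOn ℂ G (ann H δ))
    (hs : ∀ z ∈ ann H δ, G ((starRingEnd ℂ) z) = (starRingEnd ℂ) (G z)) (j : Bool)
    (hW : DifferentiableOn ℂ W (strip δ)) (W0 : ∀ x : ℝ, 0 < (W x).re)
    (eW : ∀ u ∈ strip δ, arcH G (rad H j) u ^ 2 - arcH G (rad H j) (u + Real.pi) ^ 2 =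
      W u * (cos u * sin u ^ 2)) :
    ∃ (η m M : ℝ) (θ : ℂ → ℂ), 0 < η ∧ 0 < m ∧ CMap η m M θ ∧
      (∀ s ∈ strip η, θ (-s) = -θ s) ∧
      (∀ s : ℝ, ‖exp (G (rad H j * exp (I * θ s)))‖ * rad H j * (deriv θ s).re = lenG G H j) ∧
      deriv θ 0 = deriv θ Real.pi ∧ iteratedDeriv 3 θ 0 ≠ iteratedDeriv 3 θ Real.pi ∧
      ∀ a : ℝ, 0 < a → a < Real.pi → θ (a + Real.pi) ≠ θ a + Real.pi := by
  have l0 := lenG_pos hH hδ hG j
  have r : 0 < rad H j := by unfold rad; split_ifs; exacts [one_pos, Real.exp_pos _]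
  have kd : DifferentiableOn ℂ (fun u => ((rad H j / lenG G H j : ℝ) : ℂ) * arcH G (rad H j) u)
      (strip δ) := (arcH_diff hH hG (isOpen_ann H δ) j).const_mul _
  have kr : ∀ x : ℝ, ((rad H j / lenG G H j : ℝ) : ℂ) * arcH G (rad H j) x =
      ((‖exp (G (rad H j * exp (I * x)))‖ * rad H j / lenG G H j : ℝ) : ℂ) := fun x => by
    rw [arcH_real]; push_cast; ring
  obtain ⟨η, m, M, η0, η1, m0, b⟩ := arc_pos hδ kd (fun s _ => by rw [arcH_per]) fun x => by
    rw [kr, ofReal_re]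
    exact div_pos (mul_pos (norm_pos_iff.2 (exp_ne_zero _)) r) l0
  have sub : strip η ⊆ strip δ := fun s hs => lt_of_lt_of_le hs η1
  obtain ⟨σ, c, d, -, o⟩ := arc_cmap η0 (kd.mono sub) (fun s _ => by rw [arcH_per])
    (fun x => by rw [kr, ofReal_im]) (by
      simp only [kr]
      rw [intervalIntegral.integral_ofReal, intervalIntegral.integral_div]
      have : (∫ x in (0 : ℝ)..2 * Real.pi, ‖exp (G (rad H j * exp (I * x)))‖ * rad H j) =
          2 * Real.pi * lenG G H j := by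
        rw [lenG, ← mul_assoc, mul_one_div_cancel Real.two_pi_pos.ne', one_mul]
      rw [this, mul_div_cancel_right₀ _ l0.ne']
      simp) (fun s hs => (b s hs).1) fun s hs => (b s hs).2
  obtain ⟨θ, ct, ot, dt, a⟩ := arcb_inv (W := fun u => ((rad H j / lenG G H j) ^ 2 : ℝ) * W u)
    η0 m0 c (o fun s h => by rw [arcH_even hH hs j (sub h)]) d ((hW.mono sub).const_mul _)
    (fun x => by rw [re_ofReal_mul]; exact mul_pos (by positivity) (W0 x)) fun u hu => by
      rw [mul_assoc, ← eW u (sub hu)]; push_cast; ring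
  have M0 : 0 < M := by have := kext_one_le η0 c; linarith
  refine ⟨_, _, _, θ, mul_pos m0 η0, by positivity, ct, ot, fun s => ?_, a⟩
  have e : ((θ s).re : ℂ) = θ s := conj_eq_iff_re.1 (conj_eq_iff_im.2 (ct.real s))
  have n := norm_pos_iff.2 (exp_ne_zero (G (rad H j * exp (I * θ s))))
  rw [dt s (by simpa [strip] using mul_pos m0 η0), ← e, kr, ← ofReal_inv, ofReal_re, e]
  field_simp

end StekIso
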