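import Pool.Agent.Lib.MP_fa022d_an.Bs2

/-! The explicit family and the existence of the base. -/

open Set Filter Topology Metric BoundedContinuousFunction Complex

noncomputable section
namespace StekIso

def bsA (ρ t : ℂ) : ℂ := 1 + (1 - 2 * t) * (ρ ^ 2 + ρ ^ 4)
def bsB (ρ t : ℂ) : ℂ := 1 + (1 - 2 * t) * ρ ^ 2
/-- the odd perturbation -/
def bsx (ρ t z : ℂ) : ℂ := bsA ρ t * z - bsB ρ t * z ^ 3 - ρ ^ 4 * z⁻¹ ^ 3 + 2 * t * ρ ^ 4 * z⁻¹
/-- its derivative -/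
def bsy (ρ t z : ℂ) : ℂ :=
  bsA ρ t - 3 * bsB ρ t * z ^ 2 + 3 * ρ ^ 4 * z⁻¹ ^ 4 - 2 * t * ρ ^ 4 * z⁻¹ ^ 2
/-- primitive of `(1 + t z²)² * bsx` -/
def bsg (ρ t z : ℂ) : ℂ :=
  ρ ^ 4 / 2 * z⁻¹ ^ 2 + (bsA ρ t + 3 * t ^ 2 * ρ ^ 4) / 2 * z ^ 2 +
    (2 * t * bsA ρ t - bsB ρ t + 2 * t ^ 3 * ρ ^ 4) / 4 * z ^ 4 +
    (t ^ 2 * bsA ρ t - 2 * t * bsB ρ t) / 6 * z ^ 6 - t ^ 2 * bsB ρ t / 8 * z ^ 8
def bsG (ρ e t z : ℂ) : ℂ := 2 * log (1 + t * z ^ 2) + log (1 + e * bsx ρ t z)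
def bsF (ρ e t z : ℂ) : ℂ := bsf t z + e * bsg ρ t z

theorem bsx_hd (ρ t : ℂ) {z : ℂ} (hz : z ≠ 0) : HasDerivAt (bsx ρ t) (bsy ρ t z) z := by
  have i := hasDerivAt_inv hz
  refine ((((((hasDerivAt_id z).const_mul (bsA ρ t)).sub
    ((hasDerivAt_pow 3 z).const_mul (bsB ρ t))).sub ((i.fun_pow 3).const_mul (ρ ^ 4))).add
    (i.const_mul (2 * t * ρ ^ 4)))).congr_deriv ?_
  rw [bsy]
  push_cast
  field_simp
  ring

theorem bsg_hd (ρ t : ℂ) {z : ℂ} (hz : z ≠ 0) :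
    HasDerivAt (bsg ρ t) ((1 + t * z ^ 2) ^ 2 * bsx ρ t z) z := by
  have i := hasDerivAt_inv hz
  refine (((((((i.fun_pow 2).const_mul (ρ ^ 4 / 2)).add ((hasDerivAt_pow 2 z).const_mul _)).add
    ((hasDerivAt_pow 4 z).const_mul _)).add ((hasDerivAt_pow 6 z).const_mul _)).sub
    ((hasDerivAt_pow 8 z).const_mul _))).congr_deriv ?_
  rw [bsx]
  push_cast
  field_simp
  ring

theorem base_ne {H δ : ℝ} {z : ℂ} (hz : z ∈ bsK H δ) : z ≠ 0 :=
  norm_pos_iff.1 ((Real.exp_pos _).trans_le hz.1)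

theorem base_sq {t : ℝ} (ht : t ∈ Icc (0 : ℝ) (9 / 10)) {z : ℂ} (hz : z ∈ bsK 4 (2 * (1 / 80))) :
    ‖(t : ℂ) * z ^ 2‖ < 1 := by
  have a := Real.add_one_le_exp (-(2 * (1 / 80)))
  have b : Real.exp (2 * (1 / 80)) * Real.exp (-(2 * (1 / 80))) = 1 := by
    rw [← Real.exp_add]; simp
  have c : ‖z‖ ≤ 40 / 39 := by nlinarith [hz.2, Real.exp_pos (2 * (1 / 80))]
  rw [norm_mul, norm_pow, norm_real, Real.norm_of_nonneg ht.1]
  have d : ‖z‖ ^ 2 ≤ (40 / 39) ^ 2 := pow_le_pow_left₀ (norm_nonneg _) c 2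
  nlinarith [ht.1, ht.2]

/-- uniform bounds for the perturbation -/
theorem base_bd (ρ : ℂ) (H δ : ℝ) : ∃ C > 0, ∀ t ∈ Icc (0 : ℝ) (9 / 10), ∀ z ∈ bsK H δ,
    ‖bsx ρ t z‖ ≤ C ∧ ‖bsy ρ t z‖ ≤ C ∧ ‖bsg ρ t z‖ ≤ C ∧
      ∀ w ∈ bsK H δ, ‖bsg ρ t z - bsg ρ t w‖ ≤ C * ‖z - w‖ := by
  have cp := (isCompact_closedBall (0 : ℂ) 1).prod (bsK_cpt H δ)
  have d : ∀ p ∈ closedBall (0 : ℂ) 1 ×ˢ bsK H δ,
      ContDiffAt ℂ 1 (fun p : ℂ × ℂ => (bsx ρ p.1 p.2, bsy ρ p.1 p.2, bsg ρ p.1 p.2)) p :=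
    fun p hp => by
      have := base_ne hp.2
      unfold bsx bsy bsg bsA bsB
      fun_prop (disch := first | assumption | norm_num)
  obtain ⟨C, hC⟩ := cp.exists_bound_of_continuousOn fun p hp =>
    (d p hp).continuousAt.continuousWithinAt
  obtain ⟨L, hL⟩ := LocallyLipschitzOn.exists_lipschitzOnWith_of_compact cp
    (f := fun p : ℂ × ℂ => (bsx ρ p.1 p.2, bsy ρ p.1 p.2, bsg ρ p.1 p.2)) fun p hp => by
      obtain ⟨K, s, hs, h⟩ := (d p hp).exists_lipschitzOnWith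
      exact ⟨K, s, nhdsWithin_le_nhds hs, h⟩
  refine ⟨max 1 (max C L), by positivity, fun t ht z hz => ?_⟩
  have m : (t : ℂ) ∈ closedBall (0 : ℂ) 1 := by
    rw [mem_closedBall_zero_iff, norm_real, Real.norm_of_nonneg ht.1]; linarith [ht.2]
  have a := (hC (t, z) ⟨m, hz⟩).trans ((le_max_left C L).trans (le_max_right 1 _))
  simp only [norm_prod_le_iff] at a
  refine ⟨a.1, a.2.1, a.2.2, fun w hw => ?_⟩
  have b := hL.norm_sub_le (x := (t, z)) (y := (t, w)) ⟨m, hz⟩ ⟨m, hw⟩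
  simp only [Prod.mk_sub_mk, sub_self, norm_prod_le_iff, Prod.norm_mk, norm_zero,
    max_eq_right (norm_nonneg _), max_le_iff] at b
  exact b.2.2.trans (mul_le_mul_of_nonneg_right ((le_max_right C L).trans (le_max_right 1 _))
    (norm_nonneg _))

theorem base_sq2 {G : ℂ → ℂ} {H δ : ℝ} (hH : 0 ≤ H)
    (hs : ∀ z ∈ ann H δ, G ((starRingEnd ℂ) z) = (starRingEnd ℂ) (G z)) (j : Bool) {u : ℂ}
    (hu : u ∈ strip δ) : arcH G (rad H j) u ^ 2 =
      exp (G (rad H j * exp (I * u))) * exp (G (rad H j * (exp (I * u))⁻¹)) := by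
  have b := hs _ (arc_mem hH j (u := (starRingEnd ℂ) u) (by simpa [strip] using hu))
  rw [map_mul, ← exp_conj, map_mul, conj_ofReal, conj_I, conj_conj, neg_mul, Complex.exp_neg] at b
  rw [arcH, ← b, sq, ← Complex.exp_add, add_halves, Complex.exp_add]

theorem base_chi {t : ℝ} (ht : t ∈ Icc (0 : ℝ) (9 / 10)) (j : Bool) : ∃ A : ℝ, 0 < A ∧ ∀ u : ℂ,
    bsx (Real.exp (-4)) t (rad 4 j * exp (I * u)) + bsx (Real.exp (-4)) t (rad 4 j * (exp (I * u))⁻¹)
      = 8 * A * (cos u * sin u ^ 2) := by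
  have r0 := Real.exp_pos (-4)
  have r1 := bs2_rho
  have tr : ∀ u : ℂ, cos u * sin u ^ 2 =
      -((exp (I * u) + (exp (I * u))⁻¹) * (exp (I * u) - (exp (I * u))⁻¹) ^ 2) / 8 := fun u => by
    rw [Complex.cos, Complex.sin, neg_mul, mul_comm u, Complex.exp_neg, div_pow, mul_pow, I_sq]
    ring
  cases j
  · rw [show rad 4 false = Real.exp (-4) from rfl]
    generalize Real.exp (-4) = ρ at r0 r1
    refine ⟨ρ * (1 + ρ ^ 2 + (1 - 2 * t) * ρ ^ 4), mul_pos r0 ?_, fun u => ?_⟩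
    · have : ρ ^ 4 ≤ 1 := pow_le_one₀ r0.le (by linarith)
      nlinarith [ht.2, pow_pos r0 2, pow_pos r0 4]
    · have n := exp_ne_zero (I * u)
      have m := ofReal_ne_zero.2 r0.ne'
      rw [tr, bsx, bsx, bsA, bsB]
      push_cast
      field_simp
      ring
  · rw [show rad 4 true = 1 from rfl]
    generalize Real.exp (-4) = ρ at r0 r1
    refine ⟨1 + (1 - 2 * t) * ρ ^ 2 + ρ ^ 4, ?_, fun u => ?_⟩
    · have : ρ ^ 2 ≤ 1 := pow_le_one₀ r0.le (by linarith)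
      nlinarith [ht.2, pow_pos r0 2, pow_pos r0 4]
    · have n := exp_ne_zero (I * u)
      rw [tr, bsx, bsx, bsA, bsB]
      push_cast
      field_simp
      ring

theorem bsx_neg (ρ t z : ℂ) : bsx ρ t (-z) = -bsx ρ t z := by
  rw [bsx, bsx, inv_neg]; ring

theorem bsx_conj (ρ t : ℝ) (z : ℂ) :
    bsx ρ t ((starRingEnd ℂ) z) = (starRingEnd ℂ) (bsx ρ t z) := by
  simp [bsx, bsA, bsB, map_ofNat]

theorem bsg_conj (ρ t : ℝ) (z : ℂ) :
    bsg ρ t ((starRingEnd ℂ) z) = (starRingEnd ℂ) (bsg ρ t z) := by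
  simp [bsg, bsA, bsB, map_ofNat]

theorem base_touch : ∃ G F, Touch 4 (2 * (1 / 80)) G F := by
  have δ0 : (0 : ℝ) < 2 * (1 / 80) := by norm_num
  obtain ⟨C, C0, hC⟩ := base_bd (Real.exp (-4)) 4 (2 * (1 / 80))
  have T : (9 / 10 : ℝ) ∈ Icc (0 : ℝ) (9 / 10) := ⟨by norm_num, le_rfl⟩
  have p1 : ∀ t ∈ Icc (0 : ℝ) (9 / 10), ∀ z ∈ bsK 4 (2 * (1 / 80)),
      1 + (t : ℂ) * z ^ 2 ∈ slitPlane := fun t ht z hz =>
    mem_slitPlane_of_norm_lt_one (base_sq ht hz)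
  obtain ⟨κ, κ0, hκ⟩ := ovl_open δ0
    (fun z _ => (bsf_hd _ z).differentiableAt.differentiableWithinAt) (fun z hz => by
      rw [(bsf_hd _ z).deriv]
      exact pow_ne_zero 2 (slitPlane_ne_zero (p1 _ T z (ann_bsK _ _ hz)))) bsf_ovl
  obtain ⟨e, e0, e1, e2⟩ : ∃ e : ℝ, 0 < e ∧ e * C ≤ 1 / 20 ∧ e * C ≤ κ :=
    ⟨min (1 / 20) κ / C, by positivity, by rw [div_mul_cancel₀ _ C0.ne']; exact min_le_left _ _,
      by rw [div_mul_cancel₀ _ C0.ne']; exact min_le_right _ _⟩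
  have sm : ∀ {x : ℂ} {y : ℝ}, ‖x‖ ≤ C * y → ‖e * x‖ ≤ e * C * y := fun h => by
    rw [norm_mul, norm_real, Real.norm_of_nonneg e0.le, mul_assoc]
    exact mul_le_mul_of_nonneg_left h e0.le
  have q2 : ∀ t ∈ Icc (0 : ℝ) (9 / 10), ∀ z ∈ bsK 4 (2 * (1 / 80)),
      ‖e * bsx (Real.exp (-4)) t z‖ ≤ 1 / 20 := fun t ht z hz => by
    have := sm (y := 1) (by simpa using (hC t ht z hz).1)
    push_cast at this ⊢
    linarith
  have p2 : ∀ t ∈ Icc (0 : ℝ) (9 / 10), ∀ z ∈ bsK 4 (2 * (1 / 80)),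
      1 + e * bsx (Real.exp (-4)) t z ∈ slitPlane := fun t ht z hz =>
    mem_slitPlane_of_norm_lt_one ((q2 t ht z hz).trans_lt (by norm_num))
  have eG : ∀ t ∈ Icc (0 : ℝ) (9 / 10), ∀ z ∈ bsK 4 (2 * (1 / 80)),
      exp (bsG (Real.exp (-4)) e t z) = (1 + t * z ^ 2) ^ 2 * (1 + e * bsx (Real.exp (-4)) t z) :=
    fun t ht z hz => by
      rw [bsG, Complex.exp_add, two_mul, Complex.exp_add, exp_log (slitPlane_ne_zero (p1 t ht z hz)),
        exp_log (slitPlane_ne_zero (p2 t ht z hz)), ← sq]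
  have dG : ∀ t ∈ Icc (0 : ℝ) (9 / 10), ∀ z ∈ bsK 4 (2 * (1 / 80)),
      HasDerivAt (bsG (Real.exp (-4)) e t) (2 * (t * (2 * z) / (1 + t * z ^ 2)) +
        e * bsy (Real.exp (-4)) t z / (1 + e * bsx (Real.exp (-4)) t z)) z := fun t ht z hz => by
    have a : HasDerivAt (fun z : ℂ => 1 + (t : ℂ) * z ^ 2) (t * (2 * z)) z := by
      simpa using ((hasDerivAt_pow 2 z).const_mul (t : ℂ)).const_add 1
    exact ((a.clog (p1 t ht z hz)).const_mul 2).add
      ((((bsx_hd _ _ (base_ne hz)).const_mul (e : ℂ)).const_add 1).clog (p2 t ht z hz))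
  have pr : ∀ t ∈ Icc (0 : ℝ) (9 / 10), HasPrim (bsG (Real.exp (-4)) e t)
      (bsF (Real.exp (-4)) e t) 4 (2 * (1 / 80)) := fun t ht z hz => by
    rw [eG t ht z (ann_bsK _ _ hz)]
    exact ((bsf_hd t z).add
      ((bsg_hd _ _ (base_ne (ann_bsK _ _ hz))).const_mul (e : ℂ))).congr_deriv (by ring)
  have sub : cann 4 ⊆ bsK 4 (2 * (1 / 80)) := (cann_sub δ0).trans (ann_bsK _ _)
  have lip : ∀ t ∈ Icc (0 : ℝ) (9 / 10), ∀ a ∈ cann 4, ∀ b ∈ cann 4,
      ‖e * bsg (Real.exp (-4)) t a - e * bsg (Real.exp (-4)) t b‖ ≤ 1 / 20 * ‖a - b‖ :=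
    fun t ht a ha b hb => by
      rw [← mul_sub]
      exact (sm ((hC t ht a (sub ha)).2.2.2 b (sub hb))).trans
        (mul_le_mul_of_nonneg_right e1 (norm_nonneg _))
  obtain ⟨t, ht, ni, no, em⟩ := bs2_first (G := fun t : ℝ => bsG (Real.exp (-4)) e t)
    (F := fun t : ℝ => bsF (Real.exp (-4)) e t) δ0 T.1 pr
    (fun p hp => by
      have := base_ne hp.2
      refine ContinuousAt.continuousWithinAt (.add (.mul continuousAt_const
        (.clog (by fun_prop) (p1 _ hp.1 _ hp.2))) (.clog ?_ (p2 _ hp.1 _ hp.2)))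
      unfold bsx bsA bsB
      fun_prop (disch := assumption))
    (fun p hp => by
      have := base_ne hp.2
      refine ContinuousAt.continuousWithinAt ?_
      unfold bsF bsf bsg bsA bsB
      fun_prop (disch := assumption))
    (fun a ha b hb q => by
      have := lip 0 ⟨le_rfl, T.1⟩ a ha b hb
      simp only [bsF, bsf, ofReal_zero] at q this
      rw [show e * bsg (Real.exp (-4)) 0 a - e * bsg (Real.exp (-4)) 0 b = -(a - b) by
        linear_combination q, norm_neg] at this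
      exact sub_eq_zero.1 (norm_le_zero_iff.1 (by linarith)))
    (fun i => by
      have s2 : ann 4 (2 * (1 / 80) / 2) ⊆ ann 4 (2 * (1 / 80)) := ann_mono (by norm_num)
      obtain ⟨a, ha, b, hb, ne, q⟩ := hκ _ 4 (by simpa using κ0.le) ((pr _ T).bs2.1.mono s2)
        fun z hz => by
          rw [bsF, add_sub_cancel_left]
          have := sm (y := 1) ((hC _ T z (ann_bsK _ _ (s2 hz))).2.2.1.trans_eq (mul_one C).symm)
          linarith
      exact ne (i (bs2_sub 4 ha) (bs2_sub 4 hb) q))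
  have df : ∀ t ∈ Icc (0 : ℝ) (9 / 10),
      DifferentiableOn ℂ (bsG (Real.exp (-4)) e t) (ann 4 (2 * (1 / 80))) := fun t ht z hz =>
    (dG t ht z (ann_bsK _ _ hz)).differentiableAt.differentiableWithinAt
  have sy : ∀ z ∈ ann 4 (2 * (1 / 80)), bsG (Real.exp (-4)) e t ((starRingEnd ℂ) z) =
      (starRingEnd ℂ) (bsG (Real.exp (-4)) e t z) := fun z hz => by
    rw [bsG, bsG, map_add, map_mul, map_ofNat,
      ← log_conj _ (slitPlane_arg_ne_pi (p1 t ht z (ann_bsK _ _ hz))),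
      ← log_conj _ (slitPlane_arg_ne_pi (p2 t ht z (ann_bsK _ _ hz))), bsx_conj]
    simp only [map_add, map_mul, map_one, map_pow, conj_ofReal]
  refine ⟨_, _, df t ht, pr t ht, sy, fun j => ?_, fun κ κ0 => ?_, ni, fun a ha b hb ne q => ?_,
    fun z hz s => ?_⟩
  · obtain ⟨A, A0, hA⟩ := base_chi ht j
    refine ⟨fun u => (16 * e * A : ℝ) * ((1 + t * (rad 4 j * exp (I * u)) ^ 2) *
      (1 + t * (rad 4 j * (exp (I * u))⁻¹) ^ 2)) ^ 2, fun u _ => ?_, fun x => ?_, fun u hu => ?_⟩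
    · have := exp_ne_zero (I * u)
      exact DifferentiableAt.differentiableWithinAt (by fun_prop (disch := assumption))
    · have n := slitPlane_ne_zero (p1 t ht _ (ann_bsK _ _
        (arc_mem (by norm_num) j (u := x) (by simp [strip]))))
      have c : 1 + t * (rad 4 j * (exp (I * x))⁻¹) ^ 2 =
          (starRingEnd ℂ) (1 + t * (rad 4 j * exp (I * x)) ^ 2) := by
        simp [← exp_conj, ← Complex.exp_neg]
      beta_reduce
      rw [c, mul_conj, ← ofReal_pow, ← ofReal_mul, ofReal_re]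
      have := normSq_pos.2 n
      positivity
    · have m1 := ann_bsK _ _ (arc_mem (H := 4) (by norm_num) j hu)
      have hu' : -u ∈ strip (2 * (1 / 80)) := by
        show |(-u).im| < _
        rwa [neg_im, abs_neg]
      have hu2 : u + Real.pi ∈ strip (2 * (1 / 80)) := by
        show |(u + Real.pi).im| < _
        rwa [add_im, ofReal_im, add_zero]
      have m2 := ann_bsK _ _ (arc_mem (H := 4) (by norm_num) j hu')
      rw [mul_neg, Complex.exp_neg] at m2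
      have ng : ∀ z ∈ bsK 4 (2 * (1 / 80)), -z ∈ bsK 4 (2 * (1 / 80)) := fun z hz => by
        simpa [bsK] using hz
      have pi : exp (I * (u + Real.pi)) = -exp (I * u) := by
        rw [mul_add, Complex.exp_add, mul_comm I Real.pi, exp_pi_mul_I, mul_neg_one]
      rw [base_sq2 (by norm_num) sy j hu, base_sq2 (by norm_num) sy j hu2,
        pi, inv_neg, mul_neg, mul_neg, eG t ht _ m1, eG t ht _ m2, eG t ht _ (ng _ m1),
        eG t ht _ (ng _ m2), bsx_neg, bsx_neg]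
      have := hA u
      beta_reduce
      rw [ofReal_mul, ofReal_mul, ofReal_ofNat]
      linear_combination 2 * e * ((1 + t * (rad 4 j * exp (I * u)) ^ 2) *
        (1 + t * (rad 4 j * (exp (I * u))⁻¹) ^ 2)) ^ 2 * this
  · obtain ⟨s, hs, a, b⟩ := em κ κ0
    exact ⟨_, _, df s hs, a, pr s hs, b⟩
  · have o := fun a ha b hb ne q => no (overlap_of_interior (a := a) (b := b) (by norm_num) δ0
      (pr t ht).bs2.1 (pr t ht).bs2.2 ha hb ne q)
    exact bs2_pairs ht.1 ht.2 (g := fun z => e * bsg (Real.exp (-4)) t z) (lip t ht)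
      (fun z => by rw [bsg_conj, map_mul, conj_ofReal]) ha hb (fun i => o b hb a i ne.symm q.symm)
      (fun i => o a ha b i ne q) ne q
  · have k := ann_bsK _ _ hz
    have z4 : ‖z‖ ≤ 1 / 4 := by
      refine s.trans ?_
      rw [Real.exp_neg, one_div]
      exact inv_anti₀ (by norm_num) (by linarith [Real.add_one_le_exp 3])
    have a : ‖(t : ℂ) * z ^ 2‖ ≤ 1 / 16 := by
      rw [norm_mul, norm_pow, norm_real, Real.norm_of_nonneg ht.1]
      nlinarith [norm_nonneg z, ht.1, ht.2]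
    have lo : ∀ w : ℂ, ‖w‖ ≤ 1 / 16 → 15 / 16 ≤ ‖1 + w‖ := fun w hw => by
      have := norm_sub_le (1 + w) w
      rw [add_sub_cancel_right, norm_one] at this
      linarith
    have b : ‖4 * (t * z ^ 2) / (1 + t * z ^ 2 : ℂ)‖ ≤ 1 / 3 := by
      have := lo _ a
      rw [norm_div, div_le_iff₀ (by linarith), norm_mul, Complex.norm_ofNat]
      linarith
    have c : ‖z * (e * bsy (Real.exp (-4)) t z) / (1 + e * bsx (Real.exp (-4)) t z)‖ ≤ 1 / 3 := by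
      have := lo _ ((q2 t ht z k).trans (by norm_num))
      have y := sm (y := 1) ((hC t ht z k).2.1.trans_eq (mul_one C).symm)
      rw [norm_div, div_le_iff₀ (by linarith), norm_mul]
      nlinarith [norm_nonneg z, norm_nonneg (e * bsy (Real.exp (-4)) t z)]
    rw [(dG t ht z k).deriv, show z * (2 * (t * (2 * z) / (1 + t * z ^ 2)) +
      e * bsy (Real.exp (-4)) t z / (1 + e * bsx (Real.exp (-4)) t z)) =
      4 * (t * z ^ 2) / (1 + t * z ^ 2) +
        z * (e * bsy (Real.exp (-4)) t z) / (1 + e * bsx (Real.exp (-4)) t z) by ring,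
      add_re, add_re, one_re]
    linarith [(abs_le.1 ((abs_re_le_norm _).trans b)).1, (abs_le.1 ((abs_re_le_norm _).trans c)).1]

theorem exists_base : ∃ B : GeoBase, B.Good := by
  obtain ⟨G, F, h⟩ := base_touch
  exact h.good le_rfl (by norm_num)

end StekIso
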