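import Mathlib

/-! Holomorphic maps between complex Banach spaces: Cauchy bounds, limits, smoothness. -/

namespace Pool.Agent.Lib.MP_fa022d_an

open Set Metric Filter Topology
open scoped ContDiff

variable {E F G : Type*} [NormedAddCommGroup E] [NormedSpace ℂ E] [NormedAddCommGroup F]
  [NormedSpace ℂ F] [NormedAddCommGroup G] [NormedSpace ℂ G]

theorem hol_maps {f : E → F} {c : E} {r C : ℝ} (hr : 0 < r) (hC : ∀ w ∈ ball c r, ‖f w‖ ≤ C) :
    MapsTo f (ball c r) (closedBall (f c) (2 * C)) := fun w hw => by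
  rw [mem_closedBall, dist_eq_norm]
  linarith [norm_sub_le (f w) (f c), hC w hw, hC c (mem_ball_self hr)]

/-- Cauchy bound for the derivative -/
theorem hol_fderiv_le {f : E → F} {c : E} {r C : ℝ} (hr : 0 < r)
    (hf : DifferentiableOn ℂ f (ball c r)) (hC : ∀ w ∈ ball c r, ‖f w‖ ≤ C) :
    ‖fderiv ℂ f c‖ ≤ 2 * C / r :=
  Complex.norm_fderiv_le_div_of_mapsTo_ball hf (hol_maps hr hC) hr

theorem hol_sub_le {f : E → F} {c z : E} {r C : ℝ} (hf : DifferentiableOn ℂ f (ball c r))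
    (hC : ∀ w ∈ ball c r, ‖f w‖ ≤ C) (hz : z ∈ ball c r) : ‖f z - f c‖ ≤ 2 * C / r * ‖z - c‖ := by
  have := Complex.dist_le_div_mul_dist_of_mapsTo_ball hf (hol_maps (pos_of_mem_ball hz) hC) hz
  rwa [dist_eq_norm, dist_eq_norm] at this

/-- second order remainder -/
theorem hol_taylor {f : E → F} {c z : E} {r C : ℝ} (hf : DifferentiableOn ℂ f (ball c r))
    (hC : ∀ w ∈ ball c r, ‖f w‖ ≤ C) (hz : z ∈ ball c r) :
    ‖f z - f c - fderiv ℂ f c (z - c)‖ ≤ 4 * C / r ^ 2 * ‖z - c‖ ^ 2 := by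
  have hr := pos_of_mem_ball hz
  have h0 : 0 ≤ C := (norm_nonneg _).trans (hC c (mem_ball_self hr))
  have hd := (hf.differentiableAt (ball_mem_nhds c hr)).hasFDerivAt
  have key := Complex.dist_le_mul_div_pow_of_mapsTo_ball_of_isLittleO (n := 1) (R₂ := 4 * C)
    (f := fun w => f w - fderiv ℂ f c (w - c)) (c := c) (z := z) (R₁ := r)
    (hf.sub (by fun_prop)) (fun w hw => ?_) ?_ hz
  · rw [dist_eq_norm, dist_eq_norm] at key
    calc _ = ‖f z - fderiv ℂ f c (z - c) - (f c - fderiv ℂ f c (c - c))‖ := by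
          congr 1; simp; abel
      _ ≤ _ := key
      _ = _ := by ring
  · rw [mem_closedBall, dist_eq_norm]
    have h1 := hol_maps hr hC hw
    rw [mem_closedBall, dist_eq_norm] at h1
    have h2 : ‖fderiv ℂ f c (w - c)‖ ≤ 2 * C / r * r :=
      ((fderiv ℂ f c).le_opNorm _).trans (mul_le_mul (hol_fderiv_le hr hf hC)
        (mem_ball_iff_norm.1 hw).le (norm_nonneg _) (by positivity))
    rw [div_mul_cancel₀ _ hr.ne'] at h2
    calc _ = ‖f w - f c - fderiv ℂ f c (w - c)‖ := by congr 1; simp; abel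
      _ ≤ _ := norm_sub_le _ _
      _ ≤ _ := by linarith
  · refine (hd.isLittleO.congr_left fun w => ?_).trans_isBigO ?_
    · simp; abel
    · simpa using (Asymptotics.isBigO_refl (fun w => w - c) (𝓝 c)).norm_right

theorem hol_of_sq {g : E → F} {c : E} {r K : ℝ} (hr : 0 < r) (D : E →L[ℂ] F)
    (h : ∀ z ∈ ball c r, ‖g z - g c - D (z - c)‖ ≤ K * ‖z - c‖ ^ 2) : HasFDerivAt g D c := by
  refine HasFDerivAt.of_isLittleO ?_
  refine (Asymptotics.IsBigO.of_bound K ?_).trans_isLittleO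
    (Asymptotics.isLittleO_pow_sub_sub c (m := 2) (by norm_num))
  filter_upwards [ball_mem_nhds c hr] with z hz
  simpa using h z hz

theorem hol_quot {f : E → F} {c : E} {r C : ℝ} (hf : DifferentiableOn ℂ f (ball c r))
    (hC : ∀ w ∈ ball c r, ‖f w‖ ≤ C) (k : E) {t : ℂ} (ht : t ≠ 0) (h : ‖t • k‖ < r) :
    ‖t⁻¹ • (f (c + t • k) - f c) - fderiv ℂ f c k‖ ≤ 4 * C / r ^ 2 * ‖k‖ ^ 2 * ‖t‖ := by
  have := hol_taylor hf hC (z := c + t • k) (by simpa using h)
  rw [add_sub_cancel_left, map_smul, norm_smul, mul_pow] at this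
  have e : t⁻¹ • (f (c + t • k) - f c) - fderiv ℂ f c k =
      t⁻¹ • (f (c + t • k) - f c - t • fderiv ℂ f c k) := by
    rw [smul_sub t⁻¹ _ (t • _), inv_smul_smul₀ ht]
  have hp : 0 < ‖t‖ := norm_pos_iff.2 ht
  rw [e, norm_smul, norm_inv, inv_mul_le_iff₀ hp]
  exact this.trans_eq (by ring)

theorem hol_small (k : E) {r : ℝ} (hr : 0 < r) : ∀ᶠ t : ℂ in 𝓝[≠] 0, t ≠ 0 ∧ ‖t • k‖ < r := by
  have : Tendsto (fun t : ℂ => ‖t • k‖) (𝓝 0) (𝓝 0) := by
    simpa using (by fun_prop : Continuous fun t : ℂ => ‖t • k‖).tendsto 0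
  exact eventually_mem_nhdsWithin.and ((this.eventually (gt_mem_nhds hr)).filter_mono
    nhdsWithin_le_nhds)

theorem hol_lin (K : ℝ) : Tendsto (fun t : ℂ => K * ‖t‖) (𝓝[≠] 0) (𝓝 0) := by
  have : Tendsto (fun t : ℂ => K * ‖t‖) (𝓝 0) (𝓝 0) := by
    simpa using (by fun_prop : Continuous fun t : ℂ => K * ‖t‖).tendsto 0
  exact this.mono_left nhdsWithin_le_nhds

theorem hol_cauchy [CompleteSpace F] {α : Type*} {l : Filter α} [l.NeBot] {u : α → F}
    (h : ∀ ε > 0, ∃ y, ∀ᶠ a in l, ‖u a - y‖ ≤ ε) : ∃ y, Tendsto u l (𝓝 y) := by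
  refine CompleteSpace.complete (f := map u l) (Metric.cauchy_iff.2 ⟨inferInstance, fun ε hε => ?_⟩)
  obtain ⟨y, hy⟩ := h (ε / 3) (by positivity)
  refine ⟨closedBall y (ε / 3), hy.mono fun a ha => mem_closedBall_iff_norm.2 ha,
    fun x hx z hz => ?_⟩
  linarith [dist_triangle_right x z y, mem_closedBall.1 hx, mem_closedBall.1 hz]

/-- a bounded pointwise limit of holomorphic maps is holomorphic -/
theorem hol_of_tendsto [CompleteSpace F] {α : Type*} {l : Filter α} [l.NeBot] {f : α → E → F}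
    {g : E → F} {c : E} {r C : ℝ} (hr : 0 < r)
    (hf : ∀ᶠ a in l, DifferentiableOn ℂ (f a) (ball c r) ∧ ∀ w ∈ ball c r, ‖f a w‖ ≤ C)
    (hg : ∀ w ∈ ball c r, Tendsto (fun a => f a w) l (𝓝 (g w))) :
    DifferentiableAt ℂ g c ∧
      ∀ k, Tendsto (fun a => fderiv ℂ (f a) c k) l (𝓝 (fderiv ℂ g c k)) := by
  have h1 : ∀ k, ∃ y, Tendsto (fun a => fderiv ℂ (f a) c k) l (𝓝 y) := fun k => by
    refine hol_cauchy fun ε hε => ?_
    obtain ⟨t, ⟨t0, t1⟩, t2⟩ := ((hol_small k hr).and ((hol_lin (4 * C / r ^ 2 * ‖k‖ ^ 2)).eventually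
      (gt_mem_nhds (half_pos hε)))).exists
    have h2 := ((hg (c + t • k) (by simpa using t1)).sub (hg c (mem_ball_self hr))).const_smul t⁻¹
    refine ⟨t⁻¹ • (g (c + t • k) - g c),
      (hf.and (Metric.tendsto_nhds.1 h2 _ (half_pos hε))).mono fun a ⟨ha, hb⟩ => ?_⟩
    have h3 := hol_quot ha.1 ha.2 k t0 t1
    rw [norm_sub_rev] at h3
    rw [dist_eq_norm] at hb
    exact (norm_sub_le_norm_sub_add_norm_sub _ (t⁻¹ • (f a (c + t • k) - f a c)) _).trans
      (by linarith)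
  choose D hD using h1
  let L : E →L[ℂ] F := LinearMap.mkContinuous
    { toFun := D
      map_add' := fun x y => tendsto_nhds_unique (hD _) (by simpa using (hD x).add (hD y))
      map_smul' := fun s x => tendsto_nhds_unique (hD _) (by simpa using (hD x).const_smul s) }
    (2 * C / r) fun k => le_of_tendsto (hD k).norm (hf.mono fun a ha =>
      ((fderiv ℂ (f a) c).le_opNorm k).trans
        (mul_le_mul_of_nonneg_right (hol_fderiv_le hr ha.1 ha.2) (norm_nonneg _)))
  have hL : HasFDerivAt g L c := hol_of_sq hr L fun z hz =>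
    le_of_tendsto (((hg z hz).sub (hg c (mem_ball_self hr))).sub (hD (z - c))).norm
      (hf.mono fun a ha => hol_taylor ha.1 ha.2 hz)
  exact ⟨hL.differentiableAt, fun k => hL.fderiv ▸ hD k⟩

/-- a map whose images under a norming family are holomorphic and bounded is holomorphic -/
theorem hol_of_norming [CompleteSpace F] {ι : Type*} (p : ι → F →L[ℂ] G)
    (hp : ∀ y K, 0 ≤ K → (∀ i, ‖p i y‖ ≤ K) → ‖y‖ ≤ K) {g : E → F} {c : E} {r C : ℝ} (hr : 0 < r)
    (h0 : 0 ≤ C) (hf : ∀ i, DifferentiableOn ℂ (fun w => p i (g w)) (ball c r))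
    (hC : ∀ i, ∀ w ∈ ball c r, ‖p i (g w)‖ ≤ C) : DifferentiableAt ℂ g c := by
  have inj : ∀ y z, (∀ i, p i y = p i z) → y = z := fun y z h =>
    sub_eq_zero.1 (norm_le_zero_iff.1 (hp _ 0 le_rfl fun i => by simp [h i]))
  have q : ∀ i k (t : ℂ), t ≠ 0 → ‖t • k‖ < r → ‖p i (t⁻¹ • (g (c + t • k) - g c)) -
      fderiv ℂ (fun w => p i (g w)) c k‖ ≤ 4 * C / r ^ 2 * ‖k‖ ^ 2 * ‖t‖ := fun i k t h1 h2 => by
    simpa using hol_quot (hf i) (hC i) k h1 h2
  have h1 : ∀ k, ∃ y, Tendsto (fun t : ℂ => t⁻¹ • (g (c + t • k) - g c)) (𝓝[≠] 0) (𝓝 y) :=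
    fun k => by
      refine hol_cauchy fun ε hε => ?_
      have ev := (hol_small k hr).and ((hol_lin (4 * C / r ^ 2 * ‖k‖ ^ 2)).eventually
        (gt_mem_nhds (half_pos hε)))
      obtain ⟨t, ⟨t0, t1⟩, t2⟩ := ev.exists
      refine ⟨t⁻¹ • (g (c + t • k) - g c), ev.mono fun s ⟨⟨s0, s1⟩, s2⟩ => hp _ _ hε.le fun i => ?_⟩
      have h3 := q i k t t0 t1
      have h4 := q i k s s0 s1
      rw [norm_sub_rev] at h3
      rw [map_sub]
      exact (norm_sub_le_norm_sub_add_norm_sub _ (fderiv ℂ (fun w => p i (g w)) c k) _).trans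
        (by linarith)
  choose D hD using h1
  have hp' : ∀ i k, p i (D k) = fderiv ℂ (fun w => p i (g w)) c k := fun i k =>
    tendsto_nhds_unique (((p i).continuous.tendsto _).comp (hD k))
      (tendsto_iff_norm_sub_tendsto_zero.2 (squeeze_zero' (Eventually.of_forall fun _ =>
        norm_nonneg _) ((hol_small k hr).mono fun t ht => q i k t ht.1 ht.2) (hol_lin _)))
  let L : E →L[ℂ] F := LinearMap.mkContinuous
    { toFun := D
      map_add' := fun x y => inj _ _ fun i => by simp [hp']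
      map_smul' := fun s x => inj _ _ fun i => by simp [hp'] }
    (2 * C / r) fun k => hp _ _ (by positivity) fun i => by
      change ‖p i (D k)‖ ≤ _
      rw [hp']
      exact (ContinuousLinearMap.le_opNorm _ k).trans
        (mul_le_mul_of_nonneg_right (hol_fderiv_le hr (hf i) (hC i)) (norm_nonneg _))
  refine (hol_of_sq (K := 4 * C / r ^ 2) hr L fun z hz => hp _ _ (by positivity) fun i => ?_
    ).differentiableAt
  change ‖p i (g z - g c - D (z - c))‖ ≤ _
  rw [map_sub, map_sub, hp']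
  exact hol_taylor (hf i) (hC i) hz

theorem hol_bdd {f : E → F} {U : Set E} (hU : IsOpen U) (hf : DifferentiableOn ℂ f U) {c : E}
    (hc : c ∈ U) : ∃ r > 0, ∃ C, ball c r ⊆ U ∧ ∀ w ∈ ball c r, ‖f w‖ ≤ C := by
  have h := (hf.differentiableAt (hU.mem_nhds hc)).continuousAt.norm.eventually
    (gt_mem_nhds (lt_add_one ‖f c‖))
  obtain ⟨r, hr, H⟩ := Metric.mem_nhds_iff.1 (h.and (hU.mem_nhds hc))
  exact ⟨r, hr, _, fun w hw => (H hw).2, fun w hw => (H hw).1.le⟩

theorem hol_half {c w : E} {r : ℝ} (hw : w ∈ ball c (r / 2)) : ball w (r / 2) ⊆ ball c r :=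
  ball_subset_ball' (by linarith [mem_ball.1 hw])

theorem hol_fderiv_apply [CompleteSpace F] {f : E → F} {U : Set E} (hU : IsOpen U)
    (hf : DifferentiableOn ℂ f U) (k : E) : DifferentiableOn ℂ (fun w => fderiv ℂ f w k) U := by
  intro c hc
  obtain ⟨r, hr, C, h1, h2⟩ := hol_bdd hU hf hc
  have hd := fun w (hw : w ∈ ball c (r / 2)) => hf.mono ((hol_half hw).trans h1)
  refine (hol_of_tendsto (l := 𝓝[≠] (0 : ℂ)) (f := fun t w => t⁻¹ • (f (w + t • k) - f w))
    (C := 2 * C / (r / 2) * ‖k‖) (half_pos hr) ((hol_small k (half_pos hr)).mono fun t ht => ⟨?_, ?_⟩)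
    fun w hw => ?_).1.differentiableWithinAt
  · refine ((hf.comp (by fun_prop) fun w hw => ?_).sub
      (hf.mono ((ball_subset_ball (half_le_self hr.le)).trans h1))).const_smul _
    exact h1 (hol_half hw (by simpa using ht.2))
  · intro w hw
    have := hol_sub_le (hd w hw) (fun u hu => h2 u (hol_half hw hu)) (z := w + t • k)
      (by simpa using ht.2)
    rw [add_sub_cancel_left, norm_smul] at this
    rw [norm_smul, norm_inv, inv_mul_le_iff₀ (norm_pos_iff.2 ht.1)]
    exact this.trans_eq (by ring)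
  · exact tendsto_iff_norm_sub_tendsto_zero.2 (squeeze_zero' (Eventually.of_forall fun _ =>
      norm_nonneg _) ((hol_small k (half_pos hr)).mono fun t ht => hol_quot (hd w hw)
        (fun u hu => h2 u (hol_half hw hu)) k ht.1 ht.2) (hol_lin _))

/-- operator valued maps: pointwise holomorphic and bounded is holomorphic -/
theorem hol_clm [CompleteSpace F] {A : E → G →L[ℂ] F} {c : E} {r C : ℝ} (hr : 0 < r)
    (hf : ∀ k, DifferentiableOn ℂ (fun w => A w k) (ball c r)) (hC : ∀ w ∈ ball c r, ‖A w‖ ≤ C) :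
    DifferentiableAt ℂ A c := by
  have h0 : 0 ≤ C := (norm_nonneg _).trans (hC c (mem_ball_self hr))
  refine hol_of_norming (ι := closedBall (0 : G) 1)
    (fun k => ContinuousLinearMap.apply ℂ F k.1) (fun y K hK h => ?_) hr h0 (fun k => hf k.1)
    fun k w hw => ?_
  · exact ContinuousLinearMap.opNorm_le_of_unit_norm hK fun x hx => h ⟨x, by simp [hx]⟩
  · exact ((A w).le_opNorm k.1).trans ((mul_le_mul (hC w hw) (mem_closedBall_zero_iff.1 k.2)
      (norm_nonneg _) h0).trans_eq (mul_one _))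

theorem hol_fderiv [CompleteSpace F] {f : E → F} {U : Set E} (hU : IsOpen U)
    (hf : DifferentiableOn ℂ f U) : DifferentiableOn ℂ (fderiv ℂ f) U := by
  intro c hc
  obtain ⟨r, hr, C, h1, h2⟩ := hol_bdd hU hf hc
  exact (hol_clm (half_pos hr) (fun k => (hol_fderiv_apply hU hf k).mono
    ((ball_subset_ball (half_le_self hr.le)).trans h1)) fun w hw => hol_fderiv_le (half_pos hr)
      (hf.mono ((hol_half hw).trans h1)) fun u hu => h2 u (hol_half hw hu)).differentiableWithinAt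

/-- holomorphic maps are smooth -/
theorem hol_contDiffOn [CompleteSpace F] {f : E → F} {U : Set E} (hU : IsOpen U)
    (hf : DifferentiableOn ℂ f U) : ContDiffOn ℂ ∞ f U := by
  have h : ∀ m : ℕ, DifferentiableOn ℂ (iteratedFDeriv ℂ m f) U := fun m => by
    induction m with
    | zero =>
      rw [iteratedFDeriv_zero_eq_comp]
      exact (continuousMultilinearCurryFin0 ℂ E F).symm.differentiable.comp_differentiableOn hf
    | succ m ih =>
      rw [iteratedFDeriv_succ_eq_comp_left]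
      exact (LinearIsometryEquiv.differentiable _).comp_differentiableOn (hol_fderiv hU ih)
  exact contDiffOn_of_differentiableOn fun m _ =>
    (h m).congr fun x hx => iteratedFDerivWithin_of_isOpen m hU hx

/-- maps into bounded functions on a discrete type -/
theorem hol_bcf [CompleteSpace F] {ι : Type*} [TopologicalSpace ι]
    {g : E → BoundedContinuousFunction ι F} {c : E} {r C : ℝ} (hr : 0 < r) (h0 : 0 ≤ C)
    (hf : ∀ i, DifferentiableOn ℂ (fun w => g w i) (ball c r))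
    (hC : ∀ i, ∀ w ∈ ball c r, ‖g w i‖ ≤ C) : DifferentiableAt ℂ g c :=
  hol_of_norming (fun i => BoundedContinuousFunction.evalCLM ℂ i)
    (fun _ _ hK h => (BoundedContinuousFunction.norm_le hK).2 h) hr h0 hf hC

/-- maps into `l^∞` -/
theorem hol_lp [CompleteSpace F] {ι : Type*} {g : E → lp (fun _ : ι => F) ⊤} {c : E} {r C : ℝ}
    (hr : 0 < r) (h0 : 0 ≤ C) (hf : ∀ i, DifferentiableOn ℂ (fun w => g w i) (ball c r))
    (hC : ∀ i, ∀ w ∈ ball c r, ‖g w i‖ ≤ C) : DifferentiableAt ℂ g c :=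
  hol_of_norming (fun i => LinearMap.mkContinuous (𝕜 := ℂ) (𝕜₂ := ℂ) (σ := RingHom.id ℂ)
      (E := lp (fun _ : ι => F) ⊤) ⟨⟨fun y => y i, fun _ _ => rfl⟩, fun _ _ => rfl⟩ 1 fun y => by
        simpa using lp.norm_apply_le_norm ENNReal.top_ne_zero y i)
    (fun y _ hK h => lp.norm_le_of_forall_le hK h) hr h0 hf hC

/-- series of holomorphic maps with a summable bound -/
theorem hol_tsum [CompleteSpace F] {ι : Type*} {f : ι → E → F} {u : ι → ℝ} {U : Set E}
    (hU : IsOpen U) (hu : Summable u) (hf : ∀ i, DifferentiableOn ℂ (f i) U)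
    (hb : ∀ i, ∀ w ∈ U, ‖f i w‖ ≤ u i) : DifferentiableOn ℂ (fun w => ∑' i, f i w) U := by
  intro c hc
  obtain ⟨r, hr, h1⟩ := Metric.isOpen_iff.1 hU c hc
  refine (hol_of_tendsto (l := (atTop : Filter (Finset ι))) (f := fun s w => ∑ i ∈ s, f i w)
    (C := ∑' i, u i) hr (Eventually.of_forall fun s => ⟨?_, fun w hw => ?_⟩) fun w hw =>
      (Summable.of_norm_bounded hu fun i => hb i w (h1 hw)).hasSum).1.differentiableWithinAt
  · exact DifferentiableOn.fun_sum fun i _ => (hf i).mono h1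
  · exact (norm_sum_le_of_le s fun i _ => hb i w (h1 hw)).trans (hu.sum_le_tsum s fun i _ =>
      (norm_nonneg _).trans (hb i w (h1 hw)))

end Pool.Agent.Lib.MP_fa022d_an
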