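import Pool.Agent.Lib.MP_fa022d_an.Hol1
import Pool.Agent.Lib.MP_fa022d_an.Hol

open Set Filter Topology Metric BoundedContinuousFunction Complex

noncomputable section
namespace StekIso
variable {E F : Type*} [NormedAddCommGroup E] [NormedSpace ℂ E] [NormedAddCommGroup F]
  [NormedSpace ℂ F] [CompleteSpace F]

open Pool.Agent.Lib.MP_fa022d_an

omit [CompleteSpace F] in
theorem hol2_clm {G : Type*} [NormedAddCommGroup G] [NormedSpace ℂ G] {U : Set E} (hU : IsOpen U)
    {f : E → F} (hf : DifferentiableOn ℂ f U) (L : F →L[ℂ] G) {g : E → G}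
    (e : ∀ x ∈ U, L (f x) = g x) {x : E} (hx : x ∈ U) (w : E) :
    fderiv ℂ g x w = L (fderiv ℂ f x w) := by
  rw [((L.hasFDerivAt.comp x (hf.differentiableAt (hU.mem_nhds hx)).hasFDerivAt).congr_of_eventuallyEq
    (f₁ := g) (by filter_upwards [hU.mem_nhds hx] with y hy using (e y hy).symm)).fderiv]
  rfl

/-- bounded and holomorphic after a norming family of functionals implies holomorphic -/
theorem diffOn_of_norming {κ : Type*} (lam : κ → F →L[ℂ] ℂ) (h1 : ∀ k, ‖lam k‖ ≤ 1)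
    (h2 : ∀ (y : F) (C : ℝ), 0 ≤ C → (∀ k, ‖lam k y‖ ≤ C) → ‖y‖ ≤ C) {U : Set E} (hU : IsOpen U)
    {f : E → F} {M : ℝ} (hM : ∀ x ∈ U, ‖f x‖ ≤ M)
    (hf : ∀ k, DifferentiableOn ℂ (fun x => lam k (f x)) U) : DifferentiableOn ℂ f U := by
  intro x hx
  obtain ⟨r, hr, h⟩ := Metric.isOpen_iff.1 hU x hx
  exact (hol_of_norming lam h2 hr ((norm_nonneg _).trans (hM x hx)) (fun k => (hf k).mono h)
    fun k w hw => ((lam k).le_opNorm _).trans ((mul_le_of_le_one_left (norm_nonneg _) (h1 k)).trans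
      (hM w (h hw)))).differentiableWithinAt

variable {ι κ : Type} [TopologicalSpace ι] [DiscreteTopology ι] [TopologicalSpace κ]
  [DiscreteTopology κ]

theorem diffOn_toB {U : Set E} (hU : IsOpen U) {f : E → ι → ℂ} {C : ℝ}
    (hf : ∀ i, DifferentiableOn ℂ (fun x => f x i) U) (hb : ∀ x ∈ U, ∀ i, ‖f x i‖ ≤ C) :
    DifferentiableOn ℂ (fun x => toB (f x)) U ∧ ∀ x ∈ U, ∀ w i,
      fderiv ℂ (fun x => toB (f x)) x w i = fderiv ℂ (fun x => f x i) x w := by
  have e : ∀ i, ∀ x ∈ U, toB (f x) i = f x i := fun i x hx => toB_apply (hb x hx) i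
  have d : DifferentiableOn ℂ (fun x => toB (f x)) U := fun x hx => by
    obtain ⟨r, hr, h⟩ := Metric.isOpen_iff.1 hU x hx
    exact (hol_bcf hr (abs_nonneg C) (fun i => ((hf i).congr (e i)).mono h) fun i w hw => by
      rw [e i w (h hw)]; exact (hb w (h hw) i).trans (le_abs_self C)).differentiableWithinAt
  exact ⟨d, fun x hx w i =>
    (hol2_clm hU d (BoundedContinuousFunction.evalCLM ℂ i) (e i) hx w).symm⟩

theorem diffOn_matOp {U : Set E} (hU : IsOpen U) {A : E → ι → κ → ℂ} {a : ι → κ → ℝ} {C : ℝ}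
    (hC : 0 ≤ C) (hA : ∀ i k, DifferentiableOn ℂ (fun x => A x i k) U)
    (hb : ∀ x ∈ U, ∀ i k, ‖A x i k‖ ≤ a i k) (ha : ∀ i, Summable (a i) ∧ ∑' k, a i k ≤ C) :
    DifferentiableOn ℂ (fun x => matOp (A x)) U ∧ ∀ x ∈ U, ∀ w (y : κ →ᵇ ℂ) i,
      HasSum (fun k => fderiv ℂ (fun x => A x i k) x w * y k)
        (fderiv ℂ (fun x => matOp (A x)) x w y i) := by
  have rb : ∀ x ∈ U, RowBdd (A x) C := fun x hx i =>
    have s := Summable.of_nonneg_of_le (fun _ => norm_nonneg _) (hb x hx i) (ha i).1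
    ⟨s, (s.tsum_le_tsum (hb x hx i) (ha i).1).trans (ha i).2⟩
  have e : ∀ (y : κ →ᵇ ℂ) i, ∀ x ∈ U, matOp (A x) y i = ∑' k, A x i k * y k :=
    fun y i x hx => matOp_apply hC (rb x hx) y i
  have t := fun (y : κ →ᵇ ℂ) i => diffOn_tsum hU (f := fun k x => A x i k * y k)
    ((ha i).1.mul_right ‖y‖) (fun k => (hA i k).mul_const _) fun k x hx => by
      rw [norm_mul]
      exact mul_le_mul (hb x hx i k) (y.norm_coe_le_norm k) (norm_nonneg _)
        ((norm_nonneg _).trans (hb x hx i k))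
  have d : DifferentiableOn ℂ (fun x => matOp (A x)) U := fun x hx => by
    obtain ⟨r, hr, h⟩ := Metric.isOpen_iff.1 hU x hx
    refine (hol_clm hr (fun y z hz => ?_) fun w hw =>
      norm_matOp_le hC (rb w (h hw))).differentiableWithinAt
    obtain ⟨s, hs, h'⟩ := Metric.isOpen_iff.1 hU z (h hz)
    exact (hol_bcf hs (mul_nonneg hC (norm_nonneg y))
      (fun i => ((t y i).1.congr (e y i)).mono h') fun i w hw => by
        rw [e y i w (h' hw)]; exact (rb w (h' hw)).norm_le y i).differentiableWithinAt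
  refine ⟨d, fun x hx w y i => ?_⟩
  have h1 := hol2_clm hU d ((BoundedContinuousFunction.evalCLM ℂ i).comp
    (ContinuousLinearMap.apply ℂ (ι →ᵇ ℂ) y)) (e y i) hx w
  have h2 := (t y i).2 x hx w
  rw [h1] at h2
  refine h2.congr_fun fun k => ?_
  rw [fderiv_mul_const ((hA i k).differentiableAt (hU.mem_nhds hx))]
  exact mul_comm _ _

theorem diffOn_integral {U : Set E} (hU : IsOpen U) {f : E → ℝ → ℂ} {a b M : ℝ}
    (hf : ∀ s ∈ uIcc a b, DifferentiableOn ℂ (fun x => f x s) U)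
    (hc : ∀ x ∈ U, ContinuousOn (f x) (uIcc a b))
    (hb : ∀ x ∈ U, ∀ s ∈ uIcc a b, ‖f x s‖ ≤ M) :
    DifferentiableOn ℂ (fun x => ∫ s in a..b, f x s) U ∧ ∀ x ∈ U, ∀ w,
      ContinuousOn (fun s => fderiv ℂ (fun x => f x s) x w) (uIcc a b) ∧
      fderiv ℂ (fun x => ∫ s in a..b, f x s) x w = ∫ s in a..b, fderiv ℂ (fun x => f x s) x w := by
  classical
  have : CompactSpace (uIcc a b) := isCompact_iff_compactSpace.1 isCompact_uIcc
  let G : E → C(uIcc a b, ℂ) := fun x =>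
    if h : ContinuousOn (f x) (uIcc a b) then ⟨_, h.restrict⟩ else 0
  have e : ∀ (s : uIcc a b), ∀ x ∈ U, G x s = f x s := fun s x hx => by
    simp only [G, dif_pos (hc x hx)]; rfl
  have d : DifferentiableOn ℂ G U := fun x hx => by
    obtain ⟨r, hr, h⟩ := Metric.isOpen_iff.1 hU x hx
    exact (hol_of_norming (g := G)
      (fun s : uIcc a b => (ContinuousMap.evalCLM ℂ s : C(uIcc a b, ℂ) →L[ℂ] ℂ))
      (fun y K hK H => (ContinuousMap.norm_le y hK).2 H) hr (abs_nonneg M)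
      (fun s => ((hf s s.2).congr (e s)).mono h) fun s w hw =>
        (e s w (h hw) ▸ hb w (h hw) s s.2 : ‖G w s‖ ≤ M).trans (le_abs_self M)).differentiableWithinAt
  let p : ℝ → uIcc a b := projIcc (a ⊓ b) (a ⊔ b) inf_le_sup
  have pc : Continuous p := continuous_projIcc
  have pe : ∀ s (hs : s ∈ uIcc a b), p s = ⟨s, hs⟩ := fun s hs => projIcc_of_mem _ hs
  let J0 : C(uIcc a b, ℂ) →ₗ[ℂ] ℂ :=
    { toFun := fun g => ∫ s in a..b, g (p s)
      map_add' := fun g h => intervalIntegral.integral_add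
        ((g.continuous.comp pc).intervalIntegrable _ _) ((h.continuous.comp pc).intervalIntegrable _ _)
      map_smul' := fun c g => intervalIntegral.integral_smul c fun s => g (p s) }
  let J : C(uIcc a b, ℂ) →L[ℂ] ℂ := J0.mkContinuous
    |b - a| fun g => (intervalIntegral.norm_integral_le_of_norm_le_const fun s _ =>
      g.norm_coe_le_norm (p s)).trans_eq (mul_comm _ _)
  have eJ : ∀ x ∈ U, J (G x) = ∫ s in a..b, f x s := fun x hx =>
    intervalIntegral.integral_congr fun s hs => by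
      show G x (p s) = f x s
      rw [pe s hs, e _ x hx]
  refine ⟨(J.differentiable.comp_differentiableOn d).congr fun x hx => (eJ x hx).symm,
    fun x hx w => ?_⟩
  have e' : ∀ s ∈ uIcc a b, fderiv ℂ (fun x => f x s) x w = fderiv ℂ G x w (p s) := fun s hs => by
    rw [pe s hs]; exact hol2_clm hU d (ContinuousMap.evalCLM ℂ ⟨s, hs⟩) (e ⟨s, hs⟩) hx w
  refine ⟨((fderiv ℂ G x w).continuous.comp pc).continuousOn.congr e', ?_⟩
  rw [hol2_clm hU d J eJ hx w]
  exact intervalIntegral.integral_congr fun s hs => (e' s hs).symm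

end StekIso
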