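import Pool.Agent.Lib.MP_fa022d_an.KExt
import Pool.Agent.Lib.MP_fa022d_an.Hol2

open Set Filter Topology Metric BoundedContinuousFunction Complex

noncomputable section
namespace StekIso

theorem basek_re {η : ℝ} (hη : 0 < η) (s : ℝ) : (s : ℂ) ∈ strip η := by simpa [strip] using hη

theorem basek_ex_neg (η : ℝ) (k : ℤ) : ex η (-k) = ex η k := by simp [ex]

theorem basek_ex_mono {η η' : ℝ} (h : η' ≤ η) (k : ℤ) : ex η k ≤ ex η' k :=
  Real.exp_le_exp.2 (mul_le_mul_of_nonneg_right (neg_le_neg h) (abs_nonneg _))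

theorem basek_sum {η : ℝ} (hη : 0 < η) : Summable (ex η) := by simpa using summable_ex hη 0

theorem basek_gneg (i j : Bool) (H : ℂ) (k : ℤ) : gco i j H (-k) = gco i j H k := by
  simp [gco]

theorem basek_qneg (i j : Bool) (H x : ℂ) : qf i j H (-x) = qf i j H x := by
  have a : fs (gco i j H) (-x) = fs (gco i j H) x := by
    rw [fs, fs, ← (Equiv.neg ℤ).tsum_eq]
    exact tsum_congr fun k => by simp [basek_gneg]
  simp [qf, a, csq, neg_div]

theorem basek_csq (x : ℂ) : csq (-x) = csq x := by simp [csq, neg_div]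

theorem basek_swap (θ : Bool → ℂ → ℂ) (H : ℂ) (i j : Bool) (s t : ℂ) :
    kerF θ H j i t s = kerF θ H i j s t := by
  have a : qf j i H (θ j t - θ i s) = qf i j H (θ i s - θ j t) := by
    rw [← neg_sub, basek_qneg]
    have : gco j i H = gco i j H := funext fun k => by simp only [gco, eq_comm (a := j)]
    simp only [qf, this, eq_comm (a := j)]
  rw [kerF, kerF, QQ, QQ, a, ← neg_sub s t, basek_csq, mul_comm (deriv (θ j) t)]
  simp only [eq_comm (a := j)]

theorem basek_dre {η m M : ℝ} (hη : 0 < η) {θ : ℂ → ℂ} (h : CMap η m M θ) (s : ℝ) :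
    (deriv θ s).im = 0 := by
  have d := ((h.diff.differentiableAt
    ((isOpen_strip η).mem_nhds (basek_re hη s))).hasDerivAt).comp_ofReal
  have d' := imCLM.hasFDerivAt.comp_hasDerivAt s d
  have e : (imCLM ∘ fun y : ℝ => θ y) = fun _ => 0 := funext h.real
  rw [e] at d'
  exact d'.unique (hasDerivAt_const s 0)

theorem basek_conj {η m M : ℝ} (hη : 0 < η) {θ : Bool → ℂ → ℂ} (h : ∀ j, CMap η m M (θ j))
    {H : ℂ} (hH : H.im = 0) (i j : Bool) (s t : ℝ) :
    (starRingEnd ℂ) (kerF θ H i j s t) = kerF θ H i j s t := by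
  have c : ∀ x : ℂ, (starRingEnd ℂ) (csq x) = csq ((starRingEnd ℂ) x) := fun x => by
    simp [csq, ← sin_conj, map_ofNat]
  have e : θ i s - θ j t = (((θ i s).re - (θ j t).re : ℝ) : ℂ) :=
    Complex.ext (by simp) (by simp [(h i).real, (h j).real])
  have f := conj_eq_iff_im.2 (fs_real (c := gco i j H) (fun k => by
    rw [basek_gneg, gco]
    split_ifs <;> simp [← exp_conj, conj_eq_iff_im.2 hH, map_ofNat]) ((θ i s).re - (θ j t).re))
  rw [kerF, QQ, qf, e]
  split_ifs <;> simp only [map_div₀, map_add, map_mul, map_sub, c, f, conj_ofReal, map_ofNat,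
    map_zero, conj_eq_iff_im.2 (basek_dre hη (h i) s), conj_eq_iff_im.2 (basek_dre hη (h j) t)]

theorem basek_fc2_conj {K : ℝ → ℝ → ℂ} (h : ∀ s t, (starRingEnd ℂ) (K s t) = K s t) (a b : ℤ) :
    fc2 K (-a) (-b) = (starRingEnd ℂ) (fc2 K a b) := by
  have e : ∀ s, fc (K s) (-b) = (starRingEnd ℂ) (fc (K s) b) := fun s => by
    have := fc_conj (K s) (-b)
    simpa only [h, neg_neg] using this
  have := fc_conj (fun s => fc (K s) b) (-a)
  simpa only [fc2, e, neg_neg] using this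

/-- decay, inversion and symmetry of the coefficients -/
theorem basek_core {η m M : ℝ} (hη : 0 < η) (hm : 0 < m) (hM : M * η ≤ 1 / 2) :
    ∃ C, ∀ θ : Bool → ℂ → ℂ, (∀ j, CMap η m M (θ j)) → ∀ H : ℂ, 2 ≤ H.re →
      ∀ c : Bool → Bool → ℤ × ℤ → ℂ,
      (∀ i j p, c i j p = fc2 (fun s t => kerF θ H i j s t) p.1 p.2) →
      (∀ i j p, ‖c i j p‖ ≤ C * (ex (η / 2) p.1 * ex (η / 2) p.2)) ∧
      (∀ i j, Summable fun p => ‖c i j p‖) ∧
      (∀ i j, ∀ s ∈ strip (η / 2), ∀ t ∈ strip (η / 2), (i ≠ j ∨ exp (I * s) ≠ exp (I * t)) →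
        fs2 (c i j) s t = kerF θ H i j s t) ∧ ∀ i j a b, c i j (a, b) = c j i (b, a) := by
  obtain ⟨C, h⟩ := kerExt hη hm hM
  refine ⟨C, fun θ hθ H hH c hc => ?_⟩
  have η2 := half_pos hη
  choose K hK e using h θ hθ H hH
  have e' : ∀ i j, c i j = fun p => fc2 (fun s t => K i j s t) p.1 p.2 := fun i j =>
    funext fun p => (hc i j p).trans (fc2_congr
      (fun s t k => (e i j s (basek_re η2 s) t (basek_re η2 t) (.inr k)).symm) _ _)
  have bd : ∀ i j p, ‖c i j p‖ ≤ C * (ex (η / 2) p.1 * ex (η / 2) p.2) := fun i j p => by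
    rw [e']
    exact (hK i j).decay η2 _ _
  have sm : ∀ i j, Summable fun p => ‖c i j p‖ := fun i j =>
    .of_nonneg_of_le (fun _ => norm_nonneg _) (bd i j) (((basek_sum η2).mul_of_nonneg
      (basek_sum η2) (fun k => (ex_pos _ k).le) fun k => (ex_pos _ k).le).mul_left C)
  have ev : ∀ i j, ∀ s ∈ strip (η / 2), ∀ t ∈ strip (η / 2),
      (i ≠ j ∨ exp (I * s) ≠ exp (I * t)) → fs2 (c i j) s t = kerF θ H i j s t :=
    fun i j s hs t ht k => by rw [e', (hK i j).inv η2 hs ht, e i j s hs t ht k]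
  refine ⟨bd, sm, ev, fun i j a b => congrFun (fs2_unique (d := fun p => c j i p.swap) (sm i j)
    (sm j i).prod_symm fun s t k => ?_) (a, b)⟩
  rw [ev i j s (basek_re η2 s) t (basek_re η2 t) (.inr k), ← basek_swap,
    ← ev j i t (basek_re η2 t) s (basek_re η2 s) (.inr k.symm), fs2, fs2,
    ← (Equiv.prodComm ℤ ℤ).tsum_eq]
  exact tsum_congr fun p => by simp [mul_comm]

theorem basek_diff {U : Set ℂ} (hU : IsOpen U) {F : ℂ → ℝ → ℝ → ℂ} {M : ℝ}
    (hd : ∀ s t, DifferentiableOn ℂ (fun H => F H s t) U)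
    (hc : ∀ H ∈ U, Continuous fun p : ℝ × ℝ => F H p.1 p.2)
    (hb : ∀ H ∈ U, ∀ s t, ‖F H s t‖ ≤ M) (a b : ℤ) :
    DifferentiableOn ℂ (fun H => fc2 (F H) a b) U := by
  refine (diffOn_integral (M := M) hU (fun s _ => ?_) (fun H k => ?_) fun H k s _ => ?_).1.const_mul _
  · refine ((diffOn_integral (M := M) hU (fun t _ => (hd s t).mul_const _) (fun H k => ?_)
      fun H k t _ => ?_).1.const_mul _).mul_const _
    · have : Continuous (F H s) := (hc H k).comp (Continuous.prodMk_right s)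
      fun_prop
    · rw [norm_mul, (four1_norm b t).2, mul_one]
      exact hb H k s t
  · have := hc H k
    refine ((continuous_const.mul
      (intervalIntegral.continuous_parametric_intervalIntegral_of_continuous' ?_ _ _)).mul
        (by fun_prop)).continuousOn
    exact this.mul (by fun_prop)
  · rw [norm_mul, (four1_norm a s).2, mul_one]
    exact norm_fc_le (hb H k s) b

theorem basek_gdiff (i j : Bool) (k : ℤ) :
    DifferentiableOn ℂ (fun H => gco i j H k) {H | 2 < H.re} := by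
  have h0 : ∀ H ∈ {H : ℂ | 2 < H.re}, H ≠ 0 := fun H h e => by
    rw [e] at h
    norm_num at h
  by_cases hk : k = 0
  · simp only [gco, hk, if_true]
    split_ifs <;> exact (differentiableOn_const _).div differentiableOn_id h0
  · have h1 : ∀ H ∈ {H : ℂ | 2 < H.re}, 1 - exp (-H) ^ (2 * k.natAbs) ≠ 0 := fun H h e => by
      have : ‖exp (-H) ^ (2 * k.natAbs)‖ < 1 := by
        rw [norm_pow, norm_exp]
        exact pow_lt_one₀ (Real.exp_pos _).le (Real.exp_lt_one_iff.2 (by
          have : 2 < H.re := h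
          rw [neg_re]
          linarith)) (by omega)
      rw [← sub_eq_zero.1 e, norm_one] at this
      exact lt_irrefl _ this
    simp only [gco, hk, if_false]
    split_ifs <;> exact DifferentiableOn.div (by fun_prop) (by fun_prop) h1

theorem basek_hol {η m M : ℝ} (hη : 0 < η) (hm : 0 < m) (hM : M * η ≤ 1 / 2)
    {θ : Bool → ℂ → ℂ} (hθ : ∀ j, CMap η m M (θ j)) (i j : Bool) (a b : ℤ) :
    DifferentiableOn ℂ (fun H => fc2 (fun s t => kerF θ H i j s t) a b) {H | 2 < H.re} := by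
  have η2 := half_pos hη
  have hU : IsOpen {H : ℂ | 2 < H.re} := isOpen_lt continuous_const continuous_re
  obtain ⟨C, h⟩ := kerExt hη hm hM
  obtain ⟨K, hK, e⟩ := h θ hθ 2 (by simp) i j
  obtain ⟨L, -, hL⟩ := fs_ex_bound (η := 2) le_rfl two_pos 1
  obtain ⟨L', -, hL'⟩ := br_pow_ex_le (η := 2) one_lt_two 1
  have im : ∀ s t : ℝ, (θ i s - θ j t).im = 0 := fun s t => by
    rw [sub_im, (hθ i).real, (hθ j).real, sub_zero]
  have cθ : ∀ l, Continuous fun s : ℝ => θ l s := fun l =>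
    (hθ l).diff.continuousOn.comp_continuous continuous_ofReal (basek_re hη)
  have cd : ∀ l, Continuous fun s : ℝ => deriv (θ l) s := fun l =>
    ((hθ l).diff.deriv (isOpen_strip η)).continuousOn.comp_continuous continuous_ofReal
      (basek_re hη)
  have cf : ∀ H : ℂ, 2 ≤ H.re → Continuous fun p : ℝ × ℝ => fs (gco i j H) (θ i p.1 - θ j p.2) :=
    fun H k => (fs_diff (C := 4 * L') one_pos fun n => (norm_gco_le i j k n).trans
      (by linarith [hL' n])).1.continuousOn.comp_continuous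
      (((cθ i).comp continuous_fst).sub ((cθ j).comp continuous_snd))
      fun p => by simp only [strip, mem_ofPred_eq, im, abs_zero, one_pos]
  have bf : ∀ H : ℂ, 2 ≤ H.re → ∀ s t : ℝ, ‖fs (gco i j H) (θ i s - θ j t)‖ ≤ L * 4 :=
    fun H k s t => (hL _ 4 (norm_gco_le i j k) _ (by rw [im, abs_zero])).2
  refine (basek_diff (M := C + M * M * (L * 4 + L * 4) / ‖(2 * Real.pi : ℂ)‖) hU
    (F := fun H s t => K s t + deriv (θ i) s * deriv (θ j) t *
      (fs (gco i j H) (θ i s - θ j t) - fs (gco i j 2) (θ i s - θ j t)) / (2 * Real.pi))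
    (fun s t => ?_) (fun H k => ?_) (fun H k s t => ?_) a b).congr
    fun H _ => fc2_congr (fun s t k => ?_) a b
  · refine ((((diffOn_tsum hU ((summable_ex two_pos 1).mul_left 4)
      (fun n => (basek_gdiff i j n).mul_const _) fun n H k => ?_).1.sub_const _).const_mul
        _).div_const _).const_add _
    have := four2_term (y := 0) (norm_gco_le i j k.le n) (by rw [im s t, abs_zero])
    rwa [sub_zero] at this
  · exact (hK.cont.comp_continuous (by fun_prop : Continuous fun p : ℝ × ℝ => ((p.1 : ℂ), (p.2 : ℂ)))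
      fun p => ⟨basek_re η2 _, basek_re η2 _⟩).add (((((cd i).comp continuous_fst).mul
        ((cd j).comp continuous_snd)).mul ((cf H k.le).sub (cf 2 (by simp)))).div_const _)
  · refine (norm_add_le _ _).trans (add_le_add (hK.bd _ (basek_re η2 s) _ (basek_re η2 t)) ?_)
    have h1 := (hθ i).hi _ (basek_re hη s)
    have h2 := (hθ j).hi _ (basek_re hη t)
    have h3 := (norm_sub_le _ _).trans (add_le_add (bf H k.le s t) (bf 2 (by simp) s t))
    have h4 := (norm_nonneg _).trans h1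
    rw [norm_div, norm_mul, norm_mul]
    gcongr
  · rw [e s (basek_re η2 s) t (basek_re η2 t) (.inr k)]
    simp only [kerF, QQ, qf]
    ring

theorem base_ok (B : Base) : ∃ C0, BaseOK B C0 := by
  obtain ⟨C, h⟩ := basek_core B.η0_pos B.m_pos B.small
  have p := B.η0_pos
  have η2 := half_pos p
  have re : ∀ H ∈ ball (B.H0 : ℂ) 1, 2 < H.re := fun H k => by
    have := (abs_re_le_norm (H - B.H0)).trans_lt (mem_ball_iff_norm.1 k)
    rw [sub_re, ofReal_re] at this
    linarith [B.big, (abs_lt.1 this).1]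
  have k := fun H (k : H ∈ ball (B.H0 : ℂ) 1) =>
    h B.θ B.cm H (re H k).le (S0 B H) fun _ _ _ => rfl
  have st : strip (B.η0 / 3) ⊆ strip (B.η0 / 2) := fun s (hs : |s.im| < _) =>
    show |s.im| < _ by linarith
  have dv : ∀ j (s : ℝ), deriv (B.θ j) (-s) = deriv (B.θ j) s := fun j s => by
    have e : (fun x => B.θ j (-x)) =ᶠ[𝓝 (s : ℂ)] fun x => -B.θ j x :=
      mem_of_superset ((isOpen_strip _).mem_nhds (basek_re p s)) (B.odd j)
    have := e.deriv_eq
    rwa [deriv_comp_neg, deriv.fun_neg, neg_inj] at this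
  have rf : ∀ H ∈ ball (B.H0 : ℂ) 1, ∀ i j a b, S0 B H i j (-a, -b) = S0 B H i j (a, b) :=
    fun H hH i j a b => by
      obtain ⟨-, sm, ev, -⟩ := k H hH
      refine congrFun (fs2_unique (c := fun p => S0 B H i j (-p))
        ((Equiv.neg (ℤ × ℤ)).summable_iff.2 (sm i j)) (sm i j) fun s t n => ?_) (a, b)
      have e : fs2 (fun p => S0 B H i j (-p)) s t = fs2 (S0 B H i j) (-s) (-t) := by
        rw [fs2, fs2, ← (Equiv.neg (ℤ × ℤ)).tsum_eq]
        exact tsum_congr fun p => by simp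
      rw [e, ev i j s (basek_re η2 s) t (basek_re η2 t) (.inr n), ev i j _
        (ofReal_neg s ▸ basek_re η2 (-s)) _ (ofReal_neg t ▸ basek_re η2 (-t))
        (.inr (by rwa [mul_neg, mul_neg, exp_neg, exp_neg, Ne, inv_inj])), kerF, kerF, QQ, QQ,
        dv, dv, B.odd i _ (basek_re p s), B.odd j _ (basek_re p t), neg_sub_neg, neg_sub_neg,
        ← neg_sub (B.θ i s), basek_qneg, ← neg_sub (s : ℂ), basek_csq]
  refine ⟨max 1 C, le_max_left _ _, fun i j q =>
    (basek_hol p B.m_pos B.small B.cm i j q.1 q.2).mono re, fun H hH i j q => ?_,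
    fun H hH => (k H hH).2.2.2, rf, fun H hH hi i j q => ?_,
    fun H hH i j s hs t ht => (k H hH).2.2.1 i j s (st hs) t (st ht)⟩
  · refine ((k H hH).1 i j q).trans (mul_le_mul (le_max_right _ _) (mul_le_mul
      (basek_ex_mono (by linarith) _) (basek_ex_mono (by linarith) _) (ex_pos _ _).le
      (ex_pos _ _).le) (mul_pos (ex_pos _ _) (ex_pos _ _)).le
      (zero_le_one.trans (le_max_left _ _)))
  · exact conj_eq_iff_im.1 ((basek_fc2_conj (basek_conj p B.cm hi i j) q.1 q.2).symm.trans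
      (rf H hH i j q.1 q.2))

/-- the matrix of a pair of real circle maps -/
theorem sfun_ok {η m M : ℝ} (hη : 0 < η) (hm : 0 < m) (hM : M * η ≤ 1 / 2) :
    ∃ C, ∀ θ : Bool → ℂ → ℂ, (∀ j, CMap η m M (θ j)) → ∀ H : ℝ, 2 ≤ H →
      Crude (η / 2) C (Sfun θ H) ∧ BSym (Sfun θ H) ∧ RSym (Sfun θ H) := by
  obtain ⟨C, h⟩ := basek_core hη hm hM
  refine ⟨‖(2 * Real.pi : ℂ)‖ * C, fun θ hθ H hH => ?_⟩
  obtain ⟨bd, -, -, sy⟩ := h θ hθ H hH _ fun _ _ _ => rfl
  refine ⟨fun b c => ?_, fun b c => ?_, fun b c => ?_⟩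
  · rw [Sfun, norm_mul, mul_assoc, ← basek_ex_neg _ c.2]
    exact mul_le_mul_of_nonneg_left (bd b.1 c.1 (b.2, -c.2)) (norm_nonneg _)
  · simp only [Sfun, ng, neg_neg]
    rw [sy b.1 c.1 b.2 (-c.2)]
  · simp only [Sfun, ng, map_mul, conj_ofReal, map_ofNat]
    rw [basek_fc2_conj (basek_conj hη hθ (ofReal_im H) b.1 c.1)]

theorem Crude.rowBdd {η1 C : ℝ} {S : Idx → Idx → ℂ} (h0 : 0 < η1) (h : Crude η1 C S) :
    0 ≤ C ∧ 0 < EE η1 ∧ Summable (fun c : Idx => ex η1 c.2) ∧ RowBdd S (C * EE η1) := by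
  have hC := four2_nonneg (h (true, 0) (true, 0)) (mul_pos (ex_pos _ _) (ex_pos _ _))
  have sm : Summable fun c : Idx => ex η1 c.2 :=
    (summable_prod_of_nonneg fun c => (ex_pos _ _).le).2 ⟨fun _ => basek_sum h0, .of_finite⟩
  have bd : ∀ b c, ‖S b c‖ ≤ C * ex η1 c.2 := fun b c => (h b c).trans
    (mul_le_mul_of_nonneg_left (mul_le_of_le_one_left (ex_pos _ _).le
      ((basek_ex_mono h0.le b.2).trans (by simp [ex]))) hC)
  refine ⟨hC, sm.tsum_pos (fun c => (ex_pos _ _).le) (true, 0) (ex_pos _ _), sm, fun b => ?_⟩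
  have s := Summable.of_nonneg_of_le (fun _ => norm_nonneg _) (bd b) (sm.mul_left C)
  exact ⟨s, (s.tsum_le_tsum (bd b) (sm.mul_left C)).trans tsum_mul_left.le⟩

end StekIso
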