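import Pool.Agent.Lib.MP_fa022d_an.Defs5

/-! The shape attached to a perturbation; interfaces of the last blocks. -/

open Set Filter Topology Metric BoundedContinuousFunction Complex

noncomputable section
namespace StekIso
variable {η : Pos}

theorem ann_sub {H H0 δ : ℝ} (hδ : 0 ≤ δ) (h : |H - H0| ≤ δ) : ann H δ ⊆ ann H0 (2 * δ) := by
  intro z hz
  have := abs_le.1 h
  exact ⟨(Real.exp_le_exp.2 (by linarith)).trans_lt hz.1,
    hz.2.trans_le (Real.exp_le_exp.2 (by linarith))⟩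

theorem ann_mono {H δ δ' : ℝ} (h : δ ≤ δ') : ann H δ ⊆ ann H δ' := fun _ hz =>
  ⟨(Real.exp_le_exp.2 (by linarith)).trans_lt hz.1, hz.2.trans_le (Real.exp_le_exp.2 h)⟩

theorem cann_sub {H δ : ℝ} (hδ : 0 < δ) : cann H ⊆ ann H δ := fun _ hz =>
  ⟨(Real.exp_lt_exp.2 (by linarith)).trans_le hz.1,
    hz.2.trans_lt (Real.one_lt_exp_iff.2 hδ)⟩

/-- small real perturbations -/
def RB (η : Pos) (r : ℝ) : Set (V η) := {v | RealV v ∧ ‖v‖ < r}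
def Hv (B : Base) (lam : ℝ) (v : V η) : ℝ := (Hof B (v, (lam : ℂ))).re
def Gv (B : Base) (lam : ℝ) (v : V η) : ℂ → ℂ := Gser (thOf B v) lam
def Fv (B : Base) (lam : ℝ) (v : V η) : ℂ → ℂ := prim (Gv B lam v)
/-- the outer curve closes -/
def Clo (B : Base) (lam : ℝ) (v : V η) : Prop := Cp (kapV B (v, (lam : ℂ))) = 0
/-- point of the unit circle with parameter `s` -/
def tv (B : Base) (v : V η) (s : ℝ) : ℂ := exp (I * thOf B v true s)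
/-- velocity of `F (tv s)` when `F' = exp G` -/
def vel (B : Base) (G : ℂ → ℂ) (v : V η) (s : ℝ) : ℂ :=
  exp (G (tv B v s)) * (I * tv B v s * deriv (thOf B v true) s)
def rot (B : Base) (lam : ℝ) (v : V η) : ℂ :=
  exp (I * vth (kapV B (v, (lam : ℂ))) 0) / vel B (Gv B lam v) v 0
def Emb (B : Base) (lam : ℝ) (v : V η) : Prop := InjOn (Fv B lam v) (cann (Hv B lam v))
def Ovl (B : Base) (lam : ℝ) (v : V η) : Prop := Overlap (Fv B lam v) (Hv B lam v)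

/-- facts on the shape attached to a real perturbation -/
structure GeoOK (B : GeoBase) (η : Pos) (r δ C : ℝ) : Prop where
  r_pos : 0 < r
  δ_pos : 0 < δ
  δ_le : δ ≤ 1
  C_nonneg : 0 ≤ C
  r_le : r ≤ δK B.toBase η
  small : 12 * η.1 ≤ B.η0
  cm : ∀ v ∈ RB η r, ∀ j, CMap η.1 (B.m / 2) (2 * B.M) (thOf B.toBase v j)
  thlip : ∀ v ∈ RB η r, ∀ v' ∈ RB η r, ∀ j (s : ℝ),
    ‖thOf B.toBase v j s - thOf B.toBase v' j s‖ ≤ C * sn (v - v') ∧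
    ‖deriv (thOf B.toBase v j) s - deriv (thOf B.toBase v' j) s‖ ≤ C * sn (v - v')
  modH : ∀ v ∈ RB η r, ∀ lam : ℝ, |lam - B.lam0| < r →
    Hof B.toBase (v, (lam : ℂ)) = Hv B.toBase lam v ∧ |Hv B.toBase lam v - B.H0| ≤ δ
  dG : ∀ v ∈ RB η r, ∀ lam : ℝ, |lam - B.lam0| < r →
    DifferentiableOn ℂ (Gv B.toBase lam v) (ann B.H0 (2 * δ))
  dF : ∀ v ∈ RB η r, ∀ lam : ℝ, |lam - B.lam0| < r →
    DifferentiableOn ℂ (Fv B.toBase lam v) (ann B.H0 (2 * δ))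
  fits : ∀ v ∈ RB η r, ∀ lam : ℝ, |lam - B.lam0| < r →
    Fits (thOf B.toBase v) lam (Hv B.toBase lam v) (Gv B.toBase lam v) 1
  prim : ∀ v ∈ RB η r, ∀ lam : ℝ, |lam - B.lam0| < r → Clo B.toBase lam v →
    HasPrim (Gv B.toBase lam v) (Fv B.toBase lam v) B.H0 (2 * δ)
  lip : ∀ v ∈ RB η r, ∀ lam : ℝ, |lam - B.lam0| < r → ∀ v' ∈ RB η r, ∀ lam' : ℝ,
    |lam' - B.lam0| < r →
    |Hv B.toBase lam v - Hv B.toBase lam' v'| ≤ C * (sn (v - v') + |lam - lam'|) ∧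
    ∀ z ∈ ann B.H0 (2 * δ),
      ‖Gv B.toBase lam v z - Gv B.toBase lam' v' z‖ ≤ C * (sn (v - v') + |lam - lam'|) ∧
      ‖Fv B.toBase lam v z - Fv B.toBase lam' v' z‖ ≤ C * (sn (v - v') + |lam - lam'|)
  tan : ∀ v ∈ RB η r, ∀ lam : ℝ, |lam - B.lam0| < r → ‖rot B.toBase lam v‖ = 1 ∧ ∀ s : ℝ,
    exp (I * vth (kapV B.toBase (v, (lam : ℂ))) s) =
      rot B.toBase lam v * vel B.toBase (Gv B.toBase lam v) v s
  chord : ∀ v ∈ RB η r, ∀ lam : ℝ, |lam - B.lam0| < r → Clo B.toBase lam v → ∀ p q : ℝ,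
    chord (kapV B.toBase (v, (lam : ℂ))) p q = rot B.toBase lam v *
      (Fv B.toBase lam v (tv B.toBase v p) - Fv B.toBase lam v (tv B.toBase v q))
  gen : ∀ v ∈ RB η r, ∀ lam : ℝ, |lam - B.lam0| < r → ∀ (G : ℂ → ℂ) (H c δ' : ℝ), 0 < H →
    0 < c → 0 < δ' → DifferentiableOn ℂ G (ann H δ') → Fits (thOf B.toBase v) lam H G c →
    H = Hv B.toBase lam v ∧ ∃ a : ℂ, ‖a‖ = 1 ∧
      (∀ s : ℝ, c * exp (I * vth (kapV B.toBase (v, (lam : ℂ))) s) = a * vel B.toBase G v s) ∧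
      c * Cp (kapV B.toBase (v, (lam : ℂ))) = a * I * lc G (-1)
  uniq : ∀ v ∈ RB η r, ∀ lam : ℝ, |lam - B.lam0| < r → ∀ (G F : ℂ → ℂ) (H c δ' : ℝ), 0 < H →
    0 < c → 0 < δ' → DifferentiableOn ℂ G (ann H δ') → HasPrim G F H δ' →
    Fits (thOf B.toBase v) lam H G c → H = Hv B.toBase lam v ∧ Clo B.toBase lam v ∧
      ∃ a b : ℂ, a ≠ 0 ∧ ∃ δ'' > 0, ∀ z ∈ ann H δ'', F z = a * Fv B.toBase lam v z + b

/-- every neighbour of the base comes from a small real perturbation -/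
def FwdOK (B : GeoBase) (η : Pos) : Prop :=
  ∃ C ≥ 0, ∃ κ0 > 0, ∀ κ, 0 ≤ κ → κ ≤ κ0 → ∀ G H, B.Near κ G H → ∃ v : V η, RealV v ∧
    ‖v‖ ≤ C * κ ∧ ∃ lam : ℝ, |lam - B.lam0| ≤ C * κ ∧ |lenG G H true - 1| ≤ C * κ ∧
      0 < lenG G H true ∧ lenG G H false = Real.exp lam * lenG G H true ∧
      Fits (thOf B.toBase v) lam H G (lenG G H true)

/-- shapes that neither embed nor overlap touch at a pair in one open half -/
def TouchOK (B : GeoBase) (η : Pos) (μ r : ℝ) : Prop :=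
  ∀ v ∈ RB η r, ∀ lam : ℝ, |lam - B.lam0| < r → Clo B.toBase lam v → ¬Ovl B.toBase lam v →
    ¬Emb B.toBase lam v → ∃ p q : ℝ, |p - q| ≤ 7 ∧ μ ≤ |Real.sin p| ∧ μ ≤ |Real.sin q| ∧
      0 < Real.sin p * Real.sin q ∧ exp (I * p) ≠ exp (I * q) ∧
      Fv B.toBase lam v (tv B.toBase v p) = Fv B.toBase lam v (tv B.toBase v q)

/-- two real directions that move the closing defect -/
structure Dirs (B : Base) (lam0 : ℝ) (e1 e2 : V η) : Prop where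
  real1 : RealV e1
  real2 : RealV e2
  p1 : fderiv ℂ (fun z : V η × ℂ => Cp (kapV B z)) (0, (lam0 : ℂ)) (e1, 0) = 1
  m1 : fderiv ℂ (fun z : V η × ℂ => Cm (kapV B z)) (0, (lam0 : ℂ)) (e1, 0) = 1
  p2 : fderiv ℂ (fun z : V η × ℂ => Cp (kapV B z)) (0, (lam0 : ℂ)) (e2, 0) = I
  m2 : fderiv ℂ (fun z : V η × ℂ => Cm (kapV B z)) (0, (lam0 : ℂ)) (e2, 0) = -I

/-- packets and their size -/
def WM (B : Base) (η : ℝ) (M : ℕ) : X := Wpk B η (2 * M + 1)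
def tM (η ε : ℝ) (M : ℕ) : ℝ := ε * beta η (2 * M + 1)

/-- the retraction onto closed curves with the fixed high spectrum -/
structure PiOK (B : Base) (η : Pos) (ε lam : ℝ) (x0 : X) (ρ r θ : ℝ) (π : X → X) : Prop where
  ε_pos : 0 < ε
  x0_mem : x0 ∈ reB Idx
  diff : DifferentiableOn ℂ π (ball x0 ρ)
  real : ∀ x ∈ ball x0 ρ, x ∈ reB Idx → π x ∈ reB Idx
  small : ∀ x ∈ ball x0 ρ, ‖toV η ε (π x)‖ < r
  clo : ∀ x ∈ ball x0 ρ, Clo B lam (toV η ε (π x))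
  pn0 : ∀ θ' > 0, ∀ᶠ M : ℕ in atTop, ∀ x ∈ ball x0 ρ,
    pn (toV η ε (fderiv ℂ π x (WM B η.1 M))) ≤ θ' * tM η.1 ε M
  l1 : ∀ᶠ M : ℕ in atTop, ∀ x ∈ ball x0 ρ,
    l1n (toV η ε (fderiv ℂ π x (WM B η.1 M) - WM B η.1 M)) ≤ θ * tM η.1 ε M

/-- embedded and overlapping parameters -/
def Oset (B : Base) (η : Pos) (ε lam : ℝ) (x0 : X) (ρ : ℝ) (π : X → X) : Set X :=
  {x | x ∈ (reB Idx : Set X) ∩ ball x0 ρ ∧ Emb B lam (toV η ε (π x))}
def Nset (B : Base) (η : Pos) (ε lam : ℝ) (x0 : X) (ρ : ℝ) (π : X → X) : Set X :=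
  {x | x ∈ (reB Idx : Set X) ∩ ball x0 ρ ∧ Ovl B lam (toV η ε (π x))}

/-- `WinOK` with two more inequalities -/
structure WinX (B : Base) (η : Pos) (ε lam c cut C K θ : ℝ) : Prop
    extends WinOK B η ε lam c cut C K θ where
  ε_le : ε ≤ 1
  n2 : ∀ j n, cut < wc lam j n →
    nB η.1 ε n * wc lam j n * Real.exp (3 / 4 * η.1 * n) ≤ c * lenf lam j * (ε * beta η.1 n)

/-- the target values -/
structure SigOK (B : Base) (η : Pos) (ε lam c cut K : ℝ) (x0 : X) (sig : Bool → ℕ → Bool → ℝ) :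
    Prop where
  win : ∀ j n s, cut < wc lam j n → |sig j n s - wc lam j n| ≤ c / (4 * wc lam j n)
  ne : ∀ j n, cut < wc lam j n → sig j n true ≠ sig j n false
  root : ∀ j n s, cut < wc lam j n →
    am B η ε lam x0 (sig j n s) j n ^ 2 = ddm B η ε lam x0 (sig j n s) j n
  near : ∀ j n s, cut < wc lam j n → |sig j n s * lenf lam j - n| ≤ 2 * K * nB η.1 ε n

end StekIso
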