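import Pool.Agent.Lib.MP_fa022d_an.ArcB
import Pool.Agent.Lib.MP_fa022d_an.Defs6

/-! Lengths of concentric circles, dilations, the base from a touching immersion. -/

open Set Filter Topology Metric BoundedContinuousFunction Complex

noncomputable section
namespace StekIso

/-- closed annulus -/
def bsK (H δ : ℝ) : Set ℂ := {z | Real.exp (-H - δ) ≤ ‖z‖ ∧ ‖z‖ ≤ Real.exp δ}

theorem bsK_cpt (H δ : ℝ) : IsCompact (bsK H δ) :=
  ((isCompact_closedBall (0 : ℂ) (Real.exp δ)).inter_left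
    (isClosed_le continuous_const continuous_norm)).of_isClosed_subset
    ((isClosed_le continuous_const continuous_norm).inter
      (isClosed_le continuous_norm continuous_const))
    fun _ hz => ⟨hz.1, mem_closedBall_zero_iff.2 hz.2⟩

theorem bsK_sub {H δ δ' : ℝ} (h : δ < δ') : bsK H δ ⊆ ann H δ' := fun _ hz =>
  ⟨(Real.exp_lt_exp.2 (by linarith)).trans_le hz.1, hz.2.trans_lt (Real.exp_lt_exp.2 h)⟩

theorem ann_bsK (H δ : ℝ) : ann H δ ⊆ bsK H δ := fun _ hz => ⟨hz.1.le, hz.2.le⟩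

theorem bs1_norm (H x : ℝ) : ‖(rad H false : ℂ) * exp (I * x)‖ = Real.exp (-H) := by
  simp [rad, Complex.norm_exp]

theorem bs1_pt (H x : ℝ) : (rad H false : ℂ) * exp (I * x) = exp (I * x - H) := by
  rw [sub_eq_add_neg, Complex.exp_add, mul_comm]
  simp [rad]

theorem bs1_int (G : ℂ → ℂ) (H x : ℝ) :
    ‖exp (G (rad H false * exp (I * x)))‖ * rad H false =
      Real.exp (G (exp (I * x - H)) - H).re := by
  rw [bs1_pt, Complex.norm_exp, sub_re, ofReal_re, sub_eq_add_neg (G _).re, Real.exp_add]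
  simp [rad]

theorem bs1_mem {H0 δ H : ℝ} (h1 : -δ < H) (h2 : H < H0 + δ) (x : ℝ) :
    exp (I * x - H) ∈ ann H0 δ := by
  rw [← bs1_pt, ann, mem_setOf_eq, bs1_norm, Real.exp_lt_exp, Real.exp_lt_exp]
  constructor <;> linarith

theorem bs1_cont {G : ℂ → ℂ} {H0 δ : ℝ} (hG : DifferentiableOn ℂ G (ann H0 δ)) :
    ContinuousOn (fun H => lenG G H false) (Ioo (-δ) (H0 + δ)) := by
  rw [continuousOn_iff_continuous_restrict]
  simp only [restrict_def, lenG, bs1_int]
  refine continuous_const.mul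
    (intervalIntegral.continuous_parametric_intervalIntegral_of_continuous' ?_ _ _)
  have : Continuous fun p : Ioo (-δ) (H0 + δ) × ℝ => G (exp (I * p.2 - p.1.1)) :=
    hG.continuousOn.comp_continuous (by fun_prop) fun p => bs1_mem p.1.2.1 p.1.2.2 p.2
  exact Real.continuous_exp.comp (continuous_re.comp (this.sub (by fun_prop)))

/-- the inner length decreases with a definite slope -/
theorem bs1_slope {G : ℂ → ℂ} {H0 δ : ℝ} (hH : 4 ≤ H0) (hδ : 0 < δ)
    (hG : DifferentiableOn ℂ G (ann H0 δ))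
    (h : ∀ z ∈ ann H0 δ, ‖z‖ ≤ Real.exp (-3) → 0 < (1 + z * deriv G z).re) :
    ∃ c > 0, ∃ κ > 0, κ < δ ∧ ∀ H ∈ Icc (H0 - κ) (H0 + κ), ∀ H' ∈ Icc (H0 - κ) (H0 + κ),
      H ≤ H' → c * (H' - H) ≤ lenG G H false - lenG G H' false := by
  have k0 : 0 < min (δ / 2) 1 := by positivity
  have k1 := min_le_left (δ / 2) 1
  have k2 := min_le_right (δ / 2) 1
  generalize min (δ / 2) 1 = κ at k0 k1 k2
  have cp : IsCompact (bsK H0 (δ / 2) ∩ {z | ‖z‖ ≤ Real.exp (-3)}) :=
    (bsK_cpt _ _).inter_right (isClosed_le continuous_norm continuous_const)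
  have sub : bsK H0 (δ / 2) ∩ {z | ‖z‖ ≤ Real.exp (-3)} ⊆ ann H0 δ := fun z hz =>
    bsK_sub (half_lt_self hδ) hz.1
  have mem : ∀ H ∈ Icc (H0 - κ) (H0 + κ), ∀ x : ℝ,
      exp (I * x - H) ∈ bsK H0 (δ / 2) ∩ {z | ‖z‖ ≤ Real.exp (-3)} := fun H hH x => by
    rw [← bs1_pt, bsK, mem_inter_iff, mem_setOf_eq, mem_setOf_eq, bs1_norm, Real.exp_le_exp,
      Real.exp_le_exp, Real.exp_le_exp]
    refine ⟨⟨?_, ?_⟩, ?_⟩ <;> linarith [hH.1, hH.2]
  have c1 := hG.continuousOn.mono sub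
  have c2 := (hG.deriv (isOpen_ann _ _)).continuousOn.mono sub
  obtain ⟨z0, hz0, hm⟩ := cp.exists_isMinOn
    (f := fun z => Real.exp (G z).re * ‖z‖ * (1 + z * deriv G z).re)
    ⟨_, mem H0 ⟨by linarith, by linarith⟩ 0⟩
    (((Real.continuous_exp.comp continuous_re).comp_continuousOn c1).mul
      continuous_norm.continuousOn |>.mul (continuous_re.comp_continuousOn
        (continuousOn_const.add (continuousOn_id.mul c2))))
  have p0 : 0 < Real.exp (G z0).re * ‖z0‖ * (1 + z0 * deriv G z0).re :=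
    mul_pos (mul_pos (Real.exp_pos _) ((Real.exp_pos _).trans_le hz0.1.1)) (h _ (sub hz0) hz0.2)
  refine ⟨_, p0, κ, k0, by linarith, fun H hH H' hH' le => ?_⟩
  set c := Real.exp (G z0).re * ‖z0‖ * (1 + z0 * deriv G z0).re
  have D : ∀ x : ℝ, ∀ y ∈ Icc (H0 - κ) (H0 + κ),
      HasDerivAt (fun y : ℝ => Real.exp (G (exp (I * x - y)) - y).re)
        (Real.exp (G (exp (I * x - y)) - y).re *
          (deriv G (exp (I * x - y)) * (exp (I * x - y) * -1) - 1).re) y := fun x y hy => by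
    have a : HasDerivAt (fun w : ℂ => exp (I * x - w)) (exp (I * x - y) * -1) y :=
      ((hasDerivAt_id (y : ℂ)).const_sub (I * x)).cexp
    have b := (hG.differentiableAt ((isOpen_ann _ _).mem_nhds (sub (mem y hy x)))).hasDerivAt
    exact ((b.comp (y : ℂ) a).fun_sub (hasDerivAt_id (y : ℂ))).real_of_complex.exp
  have pt : ∀ x : ℝ, c * (H' - H) ≤
      Real.exp (G (exp (I * x - H)) - H).re - Real.exp (G (exp (I * x - H')) - H').re := fun x => by
    have := (convex_Icc (H0 - κ) (H0 + κ)).image_sub_le_mul_sub_of_deriv_le (C := -c)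
      (fun y hy => (D x y hy).continuousAt.continuousWithinAt)
      (fun y hy => (D x y (interior_subset hy)).differentiableAt.differentiableWithinAt)
      (fun y hy => by
        have q : c ≤ _ := hm (mem y (interior_subset hy) x)
        have n : ‖exp (I * x - y)‖ = Real.exp (-y) := by rw [← bs1_pt, bs1_norm]
        rw [(D x y (interior_subset hy)).deriv, sub_re, ofReal_re, sub_eq_add_neg, Real.exp_add,
          show deriv G (exp (I * x - y)) * (exp (I * x - y) * -1) - 1 =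
            -(1 + exp (I * x - y) * deriv G (exp (I * x - y))) by ring, neg_re, ← n]
        linarith) H hH H' hH' le
    linarith
  have ci : ∀ y ∈ Icc (H0 - κ) (H0 + κ),
      Continuous fun x : ℝ => Real.exp (G (exp (I * x - y)) - y).re := fun y hy =>
    Real.continuous_exp.comp (continuous_re.comp
      ((c1.comp_continuous (by fun_prop) (mem y hy)).sub continuous_const))
  have := intervalIntegral.integral_mono_on (μ := MeasureTheory.volume) Real.two_pi_pos.le
    (continuous_const.intervalIntegrable 0 _)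
    (((ci H hH).sub (ci H' hH')).intervalIntegrable _ _) fun x _ => pt x
  simp only [lenG, bs1_int]
  rw [← mul_sub, ← intervalIntegral.integral_sub ((ci H hH).intervalIntegrable _ _)
    ((ci H' hH').intervalIntegrable _ _), one_div, ← div_eq_inv_mul, le_div_iff₀ Real.two_pi_pos]
  rwa [intervalIntegral.integral_const, sub_zero, smul_eq_mul, mul_comm] at this

theorem bs1_dil (G : ℂ → ℂ) (τ H : ℝ) (j : Bool) :
    lenG (fun z => G (exp τ * z) + τ) H j = lenG G ((if j then 0 else H) - τ) false := by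
  have e : rad ((if j then 0 else H) - τ) false = Real.exp τ * rad H j := by
    cases j <;> simp [rad, ← Real.exp_add, sub_eq_add_neg]
  simp only [lenG, e, Complex.exp_add, norm_mul, ofReal_mul, ofReal_exp, mul_assoc,
    Complex.norm_exp, ofReal_re]

theorem bs1_out (G : ℂ → ℂ) (H : ℝ) : lenG G H true = lenG G 0 false := by
  simp [lenG, rad]

/-- a small dilation turns a touching into an overlap -/
theorem bs1_ovl {G F : ℂ → ℂ} {H0 δ c k : ℝ} (hH : 4 ≤ H0) (hδ : 0 < δ) (hc : 0 < c) (hk : 0 < k)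
    (hk' : k < 2 * δ) (hG : DifferentiableOn ℂ G (ann H0 (2 * δ))) (hF : HasPrim G F H0 (2 * δ))
    (sl : ∀ H ∈ Icc (H0 - k) (H0 + k), ∀ H' ∈ Icc (H0 - k) (H0 + k),
      H ≤ H' → c * (H' - H) ≤ lenG G H false - lenG G H' false) (h1 : lenG G H0 true = 1)
    {a b : ℂ} (ha : ‖a‖ = 1) (hb : ‖b‖ = 1) (hab : a ≠ b) (he : F a = F b) {κ : ℝ} (hκ : 0 < κ) :
    ∃ G' F' H, DifferentiableOn ℂ G' (ann H0 δ) ∧ (∀ z ∈ ann H0 δ, ‖G' z - G z‖ ≤ κ) ∧
      |H - H0| ≤ κ ∧ HasPrim G' F' H0 δ ∧ Overlap F' H ∧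
      lenG G' H false = lenG G H0 false * lenG G' H true := by
  have ct := bs1_cont hG
  have y0 : 0 < min k (min (κ / 2) 1) := by positivity
  have y1 := min_le_left k (min (κ / 2) 1)
  obtain ⟨y2, y3⟩ := le_min_iff.1 (min_le_right k (min (κ / 2) 1))
  generalize min k (min (κ / 2) 1) = y at y0 y1 y2 y3
  obtain ⟨r, r0, hr⟩ := Metric.uniformContinuousOn_iff.1
    ((bsK_cpt H0 (3 / 2 * δ)).uniformContinuousOn_of_continuous
      (hG.continuousOn.mono (bsK_sub (by linarith)))) (κ / 2) (by positivity)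
  have t1 : Tendsto (fun τ : ℝ => lenG G H0 false * lenG G (0 - τ) false) (𝓝 0)
      (𝓝 (lenG G H0 false)) := by
    have a := (ct.continuousAt (Ioo_mem_nhds (b := H0 + 2 * δ) (by linarith : -(2 * δ) < 0)
      (by linarith))).tendsto.comp
      (Continuous.tendsto' (f := fun τ : ℝ => 0 - τ) (by fun_prop) 0 0 (by simp))
    rw [← bs1_out G H0, h1] at a
    simpa using a.const_mul (lenG G H0 false)
  have t2 : Tendsto (fun τ : ℝ => (Real.exp τ - 1) * Real.exp δ) (𝓝 0) (𝓝 0) :=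
    Continuous.tendsto' (by fun_prop) 0 0 (by simp)
  have m0 : H0 ∈ Icc (H0 - k) (H0 + k) := ⟨by linarith, by linarith⟩
  have s1 := sl _ m0 (H0 + y) ⟨by linarith, by linarith⟩ (by linarith)
  have s2 := sl (H0 - y) ⟨by linarith, by linarith⟩ _ m0 (by linarith)
  have cy := mul_pos hc y0
  have ev := (t1.eventually (Icc_mem_nhds (a := lenG G (H0 + y) false) (b := lenG G (H0 - y) false)
    (by linarith) (by linarith))).and ((t2.eventually (gt_mem_nhds r0)).and
      (gt_mem_nhds (show (0 : ℝ) < min (δ / 2) (min (κ / 2) 1) by positivity)))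
  obtain ⟨τ, ⟨e1, e2, e3⟩, τ0⟩ :=
    ((ev.filter_mono nhdsWithin_le_nhds).and (self_mem_nhdsWithin (s := Ioi (0 : ℝ)))).exists
  have τ0 : 0 < τ := τ0
  simp only [lt_min_iff] at e3
  obtain ⟨H', hH', eH⟩ := intermediate_value_Icc' (by linarith : H0 - y ≤ H0 + y)
    (ct.mono fun x hx => ⟨by linarith [hx.1], by linarith [hx.2]⟩) e1
  have n : ∀ z : ℂ, ‖exp τ * z‖ = Real.exp τ * ‖z‖ := fun z => by
    rw [norm_mul, Complex.norm_exp, ofReal_re]
  have l1 : 1 < Real.exp τ := Real.one_lt_exp_iff.2 τ0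
  have mem : ∀ z ∈ ann H0 δ, exp τ * z ∈ bsK H0 (3 / 2 * δ) := fun z hz => by
    rw [bsK, mem_setOf_eq, n]
    have a : Real.exp (-H0 - 3 / 2 * δ) ≤ Real.exp (-H0 - δ) := Real.exp_le_exp.2 (by linarith)
    have b : Real.exp τ * Real.exp δ ≤ Real.exp (3 / 2 * δ) := by
      rw [← Real.exp_add]; exact Real.exp_le_exp.2 (by linarith)
    constructor <;> nlinarith [hz.1, hz.2, norm_nonneg z]
  have mem' : ∀ z ∈ ann H0 δ, exp τ * z ∈ ann H0 (2 * δ) := fun z hz =>
    bsK_sub (by linarith) (mem z hz)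
  have back : ∀ z : ℂ, exp (τ : ℂ) * (exp (-τ : ℂ) * z) = z := fun z => by
    rw [← mul_assoc, ← Complex.exp_add]; simp
  have int : ∀ z : ℂ, ‖z‖ = 1 → exp (-τ : ℂ) * z ∈ ann (H' + τ) 0 := fun z hz => by
    rw [ann, mem_setOf_eq, norm_mul, hz, mul_one, Complex.norm_exp, neg_re, ofReal_re,
      Real.exp_lt_exp, Real.exp_lt_exp]
    constructor <;> linarith [hH'.1]
  refine ⟨fun z => G (exp τ * z) + τ, fun z => F (exp τ * z), H' + τ,
    (hG.comp (by fun_prop) mem').add_const _, fun z hz => ?_,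
    abs_le.2 ⟨by linarith [hH'.1], by linarith [hH'.2]⟩, fun z hz => ?_,
    ⟨_, int a ha, _, int b hb, fun e => hab (mul_left_cancel₀ (exp_ne_zero _) e),
      by simp only [back, he]⟩, ?_⟩
  · have a := hr _ (mem z hz) z (ann_bsK _ _ (ann_mono (by linarith) hz)) (by
      rw [dist_eq_norm, show exp τ * z - z = (Real.exp τ - 1 : ℝ) * z by push_cast; ring,
        norm_mul, norm_real, Real.norm_of_nonneg (by linarith)]
      exact (mul_le_mul_of_nonneg_left hz.2.le (by linarith)).trans_lt e2)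
    rw [dist_eq_norm] at a
    rw [add_sub_right_comm]
    refine (norm_add_le _ _).trans ?_
    rw [norm_real, Real.norm_of_nonneg τ0.le]
    linarith [e3.2.1]
  · rw [Complex.exp_add]
    have := (hF _ (mem' z hz)).comp z ((hasDerivAt_id z).const_mul (exp (τ : ℂ)))
    rw [mul_one] at this
    exact this
  · rw [bs1_dil, bs1_dil, if_pos rfl, if_neg Bool.false_ne_true, add_sub_cancel_right]
    exact eH

theorem bs1_weak {η η' m m' M M' : ℝ} {θ : ℂ → ℂ} (h : CMap η m M θ) (h1 : η' ≤ η) (h2 : m' ≤ m)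
    (h3 : M ≤ M') : CMap η' m' M' θ :=
  ⟨(h.mono h1).diff, (h.mono h1).per, h.real, fun s hs => h2.trans ((h.mono h1).lo s hs),
    fun s hs => ((h.mono h1).hi s hs).trans h3⟩

theorem bs1_shift (G : ℂ → ℂ) (c H : ℝ) (j : Bool) :
    lenG (fun z => G z + c) H j = Real.exp c * lenG G H j := by
  simp only [lenG, Complex.exp_add, norm_mul, Complex.norm_exp (c : ℂ), ofReal_re,
    mul_right_comm _ (Real.exp c), intervalIntegral.integral_mul_const]
  ring

theorem bs1_arcH (G : ℂ → ℂ) (c R : ℝ) (u : ℂ) :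
    arcH (fun z => G z + c) R u = exp c * arcH G R u := by
  rw [arcH, arcH, ← Complex.exp_add, map_add, conj_ofReal]
  congr 1
  ring

/-- a touching immersion of the annulus -/
structure Touch (H δ : ℝ) (G F : ℂ → ℂ) : Prop where
  diff : DifferentiableOn ℂ G (ann H δ)
  prim : HasPrim G F H δ
  sym : ∀ z ∈ ann H δ, G ((starRingEnd ℂ) z) = (starRingEnd ℂ) (G z)
  asy : ∀ j, ∃ W : ℂ → ℂ, DifferentiableOn ℂ W (strip δ) ∧ (∀ x : ℝ, 0 < (W x).re) ∧
    ∀ u ∈ strip δ, arcH G (rad H j) u ^ 2 - arcH G (rad H j) (u + Real.pi) ^ 2 =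
      W u * (cos u * sin u ^ 2)
  emb : ∀ κ > 0, ∃ G' F', DifferentiableOn ℂ G' (ann H δ) ∧ (∀ z ∈ ann H δ, ‖G' z - G z‖ ≤ κ) ∧
    HasPrim G' F' H δ ∧ InjOn F' (cann H)
  ninj : ¬InjOn F (cann H)
  pairs : ∀ a ∈ cann H, ∀ b ∈ cann H, a ≠ b → F a = F b → ‖a‖ = 1 ∧ ‖b‖ = 1 ∧ 0 < a.im * b.im
  inner : ∀ z ∈ ann H δ, ‖z‖ ≤ Real.exp (-3) → 0 < (1 + z * deriv G z).re

theorem Touch.scale {H δ : ℝ} {G F : ℂ → ℂ} (h : Touch H δ G F) (c : ℝ) :
    Touch H δ (fun z => G z + c) fun z => F z * exp c := by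
  have n := exp_ne_zero (c : ℂ)
  refine ⟨h.diff.add_const _, fun z hz => ?_, fun z hz => ?_, fun j => ?_, fun κ hκ => ?_,
    fun i => h.ninj fun a ha b hb e => i ha hb (by simp only [e]),
    fun a ha b hb ne e => h.pairs a ha b hb ne (mul_right_cancel₀ n e), fun z hz s => ?_⟩
  · rw [Complex.exp_add]; exact (h.prim z hz).mul_const _
  · rw [h.sym z hz, map_add, conj_ofReal]
  · obtain ⟨W, a, b, d⟩ := h.asy j
    refine ⟨fun u => (Real.exp c ^ 2 : ℝ) * W u, a.const_mul _, fun x => ?_, fun u hu => ?_⟩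
    · rw [re_ofReal_mul]; exact mul_pos (by positivity) (b x)
    · rw [bs1_arcH, bs1_arcH, mul_assoc, ← d u hu]; push_cast; ring
  · obtain ⟨G', F', a, b, d, e⟩ := h.emb κ hκ
    refine ⟨fun z => G' z + c, fun z => F' z * exp c, a.add_const _,
      fun z hz => by simpa using b z hz, fun z hz => ?_,
      fun x hx y hy q => e hx hy (mul_right_cancel₀ n q)⟩
    rw [Complex.exp_add]; exact (d z hz).mul_const _
  · rw [deriv_add_const]; exact h.inner z hz s

theorem Touch.base {H δ : ℝ} {G F : ℂ → ℂ} (hH : 4 ≤ H) (hδ : 0 < δ) (h : Touch H (2 * δ) G F)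
    (h1 : lenG G H true = 1) : ∃ B : GeoBase, B.Good := by
  have H0 : 0 ≤ H := by linarith
  have δ2 : 0 < 2 * δ := by linarith
  have sub : ann H δ ⊆ ann H (2 * δ) := ann_mono (by linarith)
  choose W w1 w2 w3 using h.asy
  choose η m M θ η0 m0 cm od ft d1 d3 ne using fun j =>
    arc_theta H0 δ2 h.diff h.sym j (w1 j) (w2 j) (w3 j)
  have M1 := fun j => kext_one_le (η0 j) (cm j)
  have M0 : 0 < max (M false) (M true) := lt_max_of_lt_left (by linarith [M1 false])
  have ηl : ∀ j, min (min (η false) (η true)) (1 / (2 * max (M false) (M true))) ≤ η j := fun j =>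
    (min_le_left _ _).trans (by cases j; exacts [min_le_left _ _, min_le_right _ _])
  obtain ⟨c, c0, k, k0, k1, sl⟩ := bs1_slope hH δ2 h.diff h.inner
  have l0 := lenG_pos H0 δ2 h.diff false
  refine ⟨⟨⟨min (min (η false) (η true)) (1 / (2 * max (M false) (M true))),
    min (m false) (m true), max (M false) (M true), H, θ,
    lt_min (lt_min (η0 _) (η0 _)) (by positivity), lt_min (m0 _) (m0 _), ?_, hH,
    fun j => bs1_weak (cm j) (ηl j) (by cases j; exacts [min_le_left _ _, min_le_right _ _])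
      (by cases j; exacts [le_max_left _ _, le_max_right _ _]),
    fun j s hs => od j s (lt_of_lt_of_le hs (ηl j))⟩, Real.log (lenG G H false), δ, G, F, hδ,
    h.diff.mono sub, fun z hz => h.prim z (sub hz), fun j s => ?_⟩,
    ⟨d1, d3, ne⟩, fun κ hκ => ?_, fun κ hκ => ?_, h.pairs, c, c0, k, k0, fun H' hH' => ?_⟩
  · refine (mul_le_mul_of_nonneg_left (min_le_right _ _) M0.le).trans (le_of_eq ?_)
    field_simp
  · rw [tau, ft, one_mul]
    cases j
    · simp [lenf, Real.exp_log l0]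
    · simp [lenf, h1]
  · obtain ⟨G', F', a, b, d, e⟩ := h.emb κ hκ
    exact ⟨G', F', ⟨a.mono sub, fun z hz => b z (sub hz), by simpa using hκ.le⟩,
      fun z hz => d z (sub hz), e⟩
  · have := h.ninj
    simp only [InjOn, not_forall] at this
    obtain ⟨a, ha, b, hb, e, n⟩ := this
    obtain ⟨a1, b1, -⟩ := h.pairs a ha b hb n e
    obtain ⟨G', F', H', p1, p2, p3, p4, p5, p6⟩ :=
      bs1_ovl hH hδ c0 k0 k1 h.diff h.prim sl h1 a1 b1 n e hκ
    exact ⟨G', F', H', ⟨p1, p2, p3⟩, p4, p5, by rw [p6, Real.exp_log l0]⟩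
  · have a := abs_le.1 hH'
    have m1 : H' ∈ Icc (H - k) (H + k) := ⟨by linarith [a.1], by linarith [a.2]⟩
    have m2 : H ∈ Icc (H - k) (H + k) := ⟨by linarith, by linarith⟩
    show c * |H' - H| ≤ |lenG G H' false - lenG G H false|
    rcases le_total H H' with p | p
    · rw [abs_of_nonneg (sub_nonneg.2 p), abs_sub_comm]
      exact (sl _ m2 _ m1 p).trans (le_abs_self _)
    · rw [abs_sub_comm, abs_of_nonneg (sub_nonneg.2 p)]
      exact (sl _ m1 _ m2 p).trans (le_abs_self _)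

theorem Touch.good {H δ : ℝ} {G F : ℂ → ℂ} (hH : 4 ≤ H) (hδ : 0 < δ)
    (h : Touch H (2 * δ) G F) : ∃ B : GeoBase, B.Good := by
  have l := lenG_pos (by linarith) (by linarith) h.diff true
  refine (h.scale (-Real.log (lenG G H true))).base hH hδ ?_
  rw [bs1_shift, Real.exp_neg, Real.exp_log l, inv_mul_cancel₀ l.ne']

end StekIso
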