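import Pool.Agent.Lib.MP_fa022d_an.Top1

open Set Filter Topology Metric BoundedContinuousFunction Complex

noncomputable section
namespace StekIso

theorem top2_lin {F0 : ℂ → ℂ} {c0 : ℂ} {δ ε : ℝ} (hδ : 0 < δ) (hε : 0 < ε)
    (hd : DifferentiableOn ℂ F0 (ball c0 δ)) : ∃ ρ > 0, ρ ≤ δ ∧ ∃ κ > 0, ∀ F : ℂ → ℂ,
      DifferentiableOn ℂ F (ball c0 δ) → (∀ z ∈ ball c0 δ, ‖F z - F0 z‖ ≤ κ) →
      ∀ x ∈ ball c0 ρ, ∀ y ∈ ball c0 ρ, ‖F y - F x - deriv F0 c0 * (y - x)‖ ≤ ε * ‖y - x‖ := by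
  have hc : ContinuousAt (deriv F0) c0 :=
    (hd.deriv isOpen_ball).continuousOn.continuousAt (ball_mem_nhds c0 hδ)
  obtain ⟨ρ, hρ, h⟩ := Metric.continuousAt_iff.1 hc (ε / 2) (half_pos hε)
  refine ⟨min ρ (δ / 4), by positivity, (min_le_right _ _).trans (by linarith), ε * δ / 4,
    by positivity, fun F hF hκ x hx y hy => ?_⟩
  have sub : ball c0 (min ρ (δ / 4)) ⊆ ball c0 δ :=
    ball_subset_ball ((min_le_right _ _).trans (by linarith))
  have key : ∀ z ∈ ball c0 (min ρ (δ / 4)), ‖deriv F z - deriv F0 c0‖ ≤ ε := fun z hz => by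
    have s : closedBall z (δ / 2) ⊆ ball c0 δ := closedBall_subset_ball' (by
      have := (mem_ball.1 hz).trans_le (min_le_right _ _)
      linarith)
    have a := norm_deriv_le_of_forall_mem_sphere_norm_le (half_pos hδ)
      ((hF.sub hd).diffContOnCl_ball s) fun w hw => hκ w (s (sphere_subset_closedBall hw))
    rw [deriv_sub (hF.differentiableAt (isOpen_ball.mem_nhds (sub hz)))
      (hd.differentiableAt (isOpen_ball.mem_nhds (sub hz)))] at a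
    have b := h ((mem_ball.1 hz).trans_le (min_le_left _ _))
    rw [dist_eq_norm] at b
    have e : ε * δ / 4 / (δ / 2) = ε / 2 := by field_simp; ring
    have t := norm_add_le (deriv F z - deriv F0 z) (deriv F0 z - deriv F0 c0)
    rw [sub_add_sub_cancel] at t
    linarith
  have m := (convex_ball c0 (min ρ (δ / 4))).norm_image_sub_le_of_norm_hasDerivWithin_le
    (f := fun z => F z - deriv F0 c0 * z) (f' := fun z => deriv F z - deriv F0 c0)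
    (fun z hz => ((hF.differentiableAt (isOpen_ball.mem_nhds (sub hz))).hasDerivAt.sub
      (by simpa using (hasDerivAt_id z).const_mul (deriv F0 c0))).hasDerivWithinAt) key hx hy
  rwa [show F y - deriv F0 c0 * y - (F x - deriv F0 c0 * x) = F y - F x - deriv F0 c0 * (y - x) by
    ring] at m

theorem top2_nc {F : ℂ → ℂ} {b : ℂ} {c : ℝ} (hc : 0 < c)
    (h : ∀ᶠ a in 𝓝 b, c * ‖a - b‖ ≤ ‖F a - F b‖) : ¬∀ᶠ z in 𝓝 b, F z = F b := fun k => by
  obtain ⟨z, ⟨h1, h2⟩, h3⟩ :=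
    (((h.and k).filter_mono nhdsWithin_le_nhds).and (self_mem_nhdsWithin (s := {b}ᶜ))).exists
  rw [h2, sub_self, norm_zero] at h1
  exact (mul_pos hc (norm_pos_iff.2 (sub_ne_zero.2 h3))).not_ge h1

theorem top2_surj {F : ℂ → ℂ} {U : Set ℂ} {b D y : ℂ} {ε r : ℝ} (hr : 0 < r)
    (hF : DifferentiableOn ℂ F U) (hU : closedBall b r ⊆ U) (hε : ε < ‖D‖)
    (h : ∀ z ∈ closedBall b r, ‖F z - F b - D * (z - b)‖ ≤ ε * ‖z - b‖)
    (hy : ‖y - F b‖ < (‖D‖ - ε) * r / 2) : ∃ z ∈ closedBall b r, F z = y := by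
  have low : ∀ z ∈ closedBall b r, (‖D‖ - ε) * ‖z - b‖ ≤ ‖F z - F b‖ := fun z hz => by
    have t := norm_sub_norm_le (D * (z - b)) (F z - F b)
    rw [norm_mul, norm_sub_rev (D * _)] at t
    linarith [h z hz]
  refine (hF.diffContOnCl_ball hU).ball_subset_image_closedBall hr (ε := (‖D‖ - ε) * r)
    (fun z hz => ?_) (not_eventually.1 (top2_nc (sub_pos.2 hε) ?_)) (by rwa [mem_ball, dist_eq_norm])
  · rw [← mem_sphere_iff_norm.1 hz]
    exact low z (sphere_subset_closedBall hz)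
  · filter_upwards [closedBall_mem_nhds b hr] using low

theorem top2_sq (c u : ℂ) (τ : ℝ) (hc : ‖c‖ = 1) :
    ‖c + τ * u‖ ^ 2 = 1 + τ * (2 * (u * (starRingEnd ℂ) c).re + τ * ‖u‖ ^ 2) := by
  have h : ‖c‖ ^ 2 = 1 := by rw [hc, one_pow]
  simp only [Complex.sq_norm, normSq_apply, add_re, add_im, mul_re, mul_im, ofReal_re, ofReal_im,
    conj_re, conj_im] at h ⊢
  linear_combination h

/-- a small step against the outward normal has a preimage inside the unit disc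
(`ApproximatesLinearOn` gives the local surjectivity) -/
theorem inward {F0 : ℂ → ℂ} {c0 w0 : ℂ} {δ : ℝ} (hδ : 0 < δ) (hc : ‖c0‖ = 1)
    (hd : DifferentiableOn ℂ F0 (ball c0 δ))
    (hw : (w0 * (starRingEnd ℂ) (c0 * deriv F0 c0)).re < 0) {δ' : ℝ} (hδ' : 0 < δ') :
    ∃ κ > 0, ∀ (F : ℂ → ℂ) (c w : ℂ) (τ : ℝ), DifferentiableOn ℂ F (ball c0 δ) →
      (∀ z ∈ ball c0 δ, ‖F z - F0 z‖ ≤ κ) → ‖c‖ = 1 → ‖c - c0‖ ≤ κ → ‖w - w0‖ ≤ κ → 0 < τ →
      τ ≤ κ → ∃ z, ‖z‖ < 1 ∧ ‖z - c0‖ < δ' ∧ F z = F c + τ * w := by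
  obtain ⟨D, hD⟩ : ∃ D, D = deriv F0 c0 := ⟨_, rfl⟩
  rw [← hD] at hw
  have D0 : D ≠ 0 := fun e => by simp [e] at hw
  have Dp : 0 < ‖D‖ := norm_pos_iff.2 D0
  obtain ⟨m, hm⟩ : ∃ m, m = -(w0 / D * (starRingEnd ℂ) c0).re := ⟨_, rfl⟩
  have mp : 0 < m := by
    have e : w0 * (starRingEnd ℂ) (c0 * D) = (normSq D : ℝ) * (w0 / D * (starRingEnd ℂ) c0) := by
      rw [map_mul, ← mul_conj]
      field_simp
    rw [e, re_ofReal_mul] at hw
    rw [hm, neg_pos]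
    exact neg_of_mul_neg_right hw (normSq_nonneg D)
  obtain ⟨N, hN⟩ : ∃ N, N = ‖w0 / D‖ + 1 := ⟨_, rfl⟩
  have Np : 0 < N := by rw [hN]; positivity
  obtain ⟨ε, εp, ε1, ε2⟩ : ∃ ε > 0, ε ≤ ‖D‖ / 2 ∧ ε * N ≤ ‖D‖ * m / 16 :=
    ⟨min (‖D‖ / 2) (‖D‖ * m / 16 / N), by positivity, min_le_left _ _,
      (le_div_iff₀ Np).1 (min_le_right _ _)⟩
  obtain ⟨ρ, hρ, ρδ, κ0, hκ0, lin⟩ := top2_lin hδ εp hd
  rw [← hD] at lin
  have ev : ∀ᶠ p : ℂ × ℂ × ℝ in 𝓝 (c0, w0, 0),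
      (2 * (p.2.1 / D * (starRingEnd ℂ) p.1).re + p.2.2 * ‖p.2.1 / D‖ ^ 2 < -m ∧
        ‖p.2.1 / D‖ < N) ∧ ‖p.1 - c0‖ + p.2.2 * (N + m / 4) < min ρ δ' ∧ p.2.2 * m < 2 := by
    refine ((ContinuousAt.eventually_lt (by fun_prop) (by fun_prop) ?_).and
      (ContinuousAt.eventually_lt (by fun_prop) (by fun_prop) ?_)).and
      ((ContinuousAt.eventually_lt (by fun_prop) (by fun_prop) ?_).and
      (ContinuousAt.eventually_lt (by fun_prop) (by fun_prop) ?_))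
    · simp only
      linarith
    · simp only
      linarith
    · simpa using ⟨hρ, hδ'⟩
    · simp
  obtain ⟨κ1, hκ1, h1⟩ := Metric.eventually_nhds_iff.1 ev
  refine ⟨min κ0 (κ1 / 2), by positivity, fun F c w τ hF hκ hc1 hcc hww hτ hτκ => ?_⟩
  have k1 : min κ0 (κ1 / 2) < κ1 := (min_le_right _ _).trans_lt (half_lt_self hκ1)
  obtain ⟨⟨a1, a2⟩, a3, a4⟩ := @h1 (c, w, τ) (by
    rw [Prod.dist_eq, Prod.dist_eq, dist_eq_norm, dist_eq_norm, dist_zero_right,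
      Real.norm_of_nonneg hτ.le]
    exact max_lt (hcc.trans_lt k1) (max_lt (hww.trans_lt k1) (hτκ.trans_lt k1)))
  simp only at a1 a2 a3 a4
  have hb : ‖c + τ * (w / D)‖ ≤ 1 - τ * m / 2 := by
    refine (pow_le_pow_iff_left₀ (norm_nonneg _) (by linarith) two_ne_zero).1 ?_
    rw [top2_sq _ _ _ hc1]
    nlinarith [mul_lt_mul_of_pos_left a1 hτ, sq_nonneg (τ * m)]
  have hu : ‖(τ : ℂ) * (w / D)‖ < τ * N := by
    rw [norm_mul, norm_real, Real.norm_of_nonneg hτ.le]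
    exact mul_lt_mul_of_pos_left a2 hτ
  have tm := mul_pos hτ mp
  have near : ∀ z ∈ closedBall (c + τ * (w / D)) (τ * m / 4), ‖z - c0‖ < min ρ δ' := fun z hz => by
    have t := norm_add₃_le (a := z - (c + τ * (w / D))) (b := τ * (w / D)) (c := c - c0)
    rw [show z - (c + τ * (w / D)) + τ * (w / D) + (c - c0) = z - c0 by ring] at t
    linarith [mem_closedBall_iff_norm.1 hz]
  have sub : closedBall (c + τ * (w / D)) (τ * m / 4) ⊆ ball c0 ρ := fun z hz =>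
    mem_ball_iff_norm.2 ((near z hz).trans_le (min_le_left _ _))
  have l := lin F hF fun z hz => (hκ z hz).trans (min_le_left _ _)
  have mb := sub (mem_closedBall_self (by positivity))
  have mc : c ∈ ball c0 ρ := mem_ball_iff_norm.2 (by
    have := min_le_left ρ δ'
    have := mul_pos hτ Np
    linarith)
  obtain ⟨z, hz, e⟩ := top2_surj (y := F c + τ * w) (D := D) (ε := ε) (by positivity) hF
    (sub.trans (ball_subset_ball ρδ)) (by linarith) (fun z hz => l _ mb z (sub hz)) (by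
      have t := l c mc _ mb
      rw [add_sub_cancel_left, show D * (τ * (w / D)) = τ * w by field_simp, sub_sub,
        norm_sub_rev] at t
      nlinarith [mul_lt_mul_of_pos_left hu εp, mul_le_mul_of_nonneg_left ε2 hτ.le,
        mul_le_mul_of_nonneg_left ε1 tm.le])
  refine ⟨z, ?_, (near z hz).trans_le (min_le_right _ _), e⟩
  have t := norm_sub_norm_le z (c + τ * (w / D))
  linarith [mem_closedBall_iff_norm.1 hz]

theorem top2_clos {H : ℝ} (hH : 0 < H) {a : ℂ} (ha : a ∈ cann H) : a ∈ closure (ann H 0) := by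
  have p : 0 < ‖a‖ := (Real.exp_pos _).trans_le ha.1
  have l : Real.exp (-H) < 1 := Real.exp_lt_one_iff.2 (by linarith)
  have h := map_mem_closure (f := fun r : ℝ => (r / ‖a‖) • a) (s := Ioo (Real.exp (-H)) 1)
    (t := ann H 0) (x := ‖a‖) (by fun_prop) (by rw [closure_Ioo l.ne]; exact ha) fun r hr => by
      have r0 : 0 < r := (Real.exp_pos _).trans hr.1
      simp only [ann, mem_ofPred_eq, sub_zero, Real.exp_zero]
      rw [norm_smul, Real.norm_of_nonneg (by positivity), div_mul_cancel₀ _ p.ne']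
      exact hr
  simpa only [div_self p.ne', one_smul] using h

theorem top2_ovl {F : ℂ → ℂ} {H : ℝ} {U : Set ℂ} (hH : 0 < H) (hU : IsOpen U)
    (hd : DifferentiableOn ℂ F U) {a b : ℂ} (aU : a ∈ U) (bU : b ∈ U)
    (hn : ¬∀ᶠ z in 𝓝 b, F z = F b) (ha : a ∈ cann H) (hb : b ∈ ann H 0) (hab : a ≠ b)
    (he : F a = F b) : Overlap F H := by
  have op := (hd.analyticAt (hU.mem_nhds bU)).eventually_constant_or_nhds_le_map_nhds.resolve_left hn
  obtain ⟨A, B, hA, hB, d⟩ := t2_separation_nhds hab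
  have m : F '' (B ∩ ann H 0) ∈ 𝓝 (F a) :=
    he ▸ op (image_mem_map (inter_mem hB ((isOpen_ann H 0).mem_nhds hb)))
  obtain ⟨a', ⟨h1, b', h2, e⟩, h3⟩ := mem_closure_iff_nhds.1 (top2_clos hH ha) _
    (inter_mem hA ((hd.continuousOn.continuousAt (hU.mem_nhds aU)) m))
  exact ⟨a', h3, b', h2.2, fun k => disjoint_left.1 d h1 (k ▸ h2.1), e.symm⟩

theorem top2_mono {H H' δ δ' : ℝ} (h : H + δ ≤ H' + δ') (h' : δ ≤ δ') : ann H δ ⊆ ann H' δ' :=
  fun _ hz => ⟨(Real.exp_le_exp.2 (by linarith)).trans_lt hz.1, hz.2.trans_le (Real.exp_le_exp.2 h')⟩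

theorem top2_cann {H H' δ : ℝ} (h : H' < H + δ) (hδ : 0 < δ) : cann H' ⊆ ann H δ :=
  fun _ hz => ⟨(Real.exp_lt_exp.2 (by linarith)).trans_le hz.1,
    hz.2.trans_lt (Real.one_lt_exp_iff.2 hδ)⟩

theorem top2_one {H : ℝ} (hH : 0 ≤ H) {a : ℂ} (ha : ‖a‖ = 1) : a ∈ cann H :=
  ⟨ha ▸ Real.exp_le_one_iff.2 (by linarith), ha.le⟩

theorem top2_in {H H' : ℝ} (h : H ≤ H') {a z : ℂ} (ha : ‖a‖ = 1) (hz : ‖z‖ < 1)
    (k : ‖z - a‖ < 1 - Real.exp (-H)) : z ∈ ann H' 0 := by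
  have t := norm_sub_norm_le a z
  rw [norm_sub_rev, ha] at t
  have : Real.exp (-H' - 0) ≤ Real.exp (-H) := Real.exp_le_exp.2 (by linarith)
  exact ⟨by linarith, by rwa [Real.exp_zero]⟩

/-- two distinct points of the closed annulus with one image, one of them interior -/
theorem overlap_of_interior {F : ℂ → ℂ} {H δ : ℝ} (hH : 0 < H) (hδ : 0 < δ)
    (hd : DifferentiableOn ℂ F (ann H δ)) (h0 : ∀ z ∈ ann H δ, deriv F z ≠ 0) {a b : ℂ}
    (ha : a ∈ cann H) (hb : b ∈ ann H 0) (hab : a ≠ b) (he : F a = F b) : Overlap F H := by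
  have bU : b ∈ ann H δ := top2_mono (by linarith) hδ.le hb
  refine top2_ovl hH (isOpen_ann H δ) hd (top2_cann (by linarith) hδ ha) bU (fun k => h0 b bU ?_)
    ha hb hab he
  rw [EventuallyEq.deriv_eq (f := fun _ => F b) k, deriv_const]

theorem top2_dir {α β : ℂ} {s : ℝ} (hs : 0 < s) (ha : ‖α‖ = 1) (hb : ‖β‖ = 1) (h : α + β ≠ 0) :
    (-(α + β) * (starRingEnd ℂ) (s * α)).re < 0 := by
  have p := normSq_pos.2 h
  have a : ‖α‖ ^ 2 = 1 := by rw [ha, one_pow]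
  have b : ‖β‖ ^ 2 = 1 := by rw [hb, one_pow]
  simp only [Complex.sq_norm, normSq_apply, add_re, add_im, mul_re, mul_im, ofReal_re, ofReal_im,
    conj_re, conj_im, neg_re, neg_im] at a b p ⊢
  have : 0 < (α.re + β.re) * α.re + (α.im + β.im) * α.im := by nlinarith
  nlinarith [mul_pos hs this]

/-- at a touching pair the outward normals are opposite -/
theorem touch_opp {F : ℂ → ℂ} {H δ : ℝ} (hH : 0 < H) (hδ : 0 < δ)
    (hd : DifferentiableOn ℂ F (ann H δ)) (h0 : ∀ z ∈ ann H δ, deriv F z ≠ 0)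
    (hn : ¬Overlap F H) {a b : ℂ} (ha : ‖a‖ = 1) (hb : ‖b‖ = 1) (hab : a ≠ b) (he : F a = F b) :
    a * deriv F a / ‖deriv F a‖ = -(b * deriv F b / ‖deriv F b‖) := by
  by_contra hne
  have mem : ∀ c : ℂ, ‖c‖ = 1 → c ∈ ann H δ := fun c hc =>
    top2_cann (by linarith) hδ (top2_one hH.le hc)
  have un : ∀ c : ℂ, ‖c‖ = 1 → ‖c * deriv F c / ‖deriv F c‖‖ = 1 := fun c hc => by
    rw [norm_div, norm_mul, hc, one_mul, norm_real, norm_norm,
      div_self (norm_ne_zero_iff.2 (h0 c (mem c hc)))]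
  have l : Real.exp (-H) < 1 := Real.exp_lt_one_iff.2 (by linarith)
  have ab : 0 < ‖a - b‖ := norm_pos_iff.2 (sub_ne_zero.2 hab)
  have step : ∀ c β : ℂ, ‖c‖ = 1 → ‖β‖ = 1 → c * deriv F c / ‖deriv F c‖ + β ≠ 0 →
      ∃ κ > 0, ∀ τ : ℝ, 0 < τ → τ ≤ κ → ∃ z ∈ ann H 0, ‖z - c‖ < ‖a - b‖ / 2 ∧
        F z = F c + τ * -(c * deriv F c / ‖deriv F c‖ + β) := fun c β hc hβ h => by
    obtain ⟨ρ, hρ, s⟩ := Metric.isOpen_iff.1 (isOpen_ann H δ) c (mem c hc)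
    have p := norm_pos_iff.2 (h0 c (mem c hc))
    have w := top2_dir p (un c hc) hβ h
    rw [mul_div_cancel₀ _ (ofReal_ne_zero.2 p.ne')] at w
    obtain ⟨κ, hκ, k⟩ := inward hρ hc (hd.mono s) w
      (δ' := min (‖a - b‖ / 2) (1 - Real.exp (-H))) (lt_min (half_pos ab) (sub_pos.2 l))
    refine ⟨κ, hκ, fun τ h1 h2 => ?_⟩
    obtain ⟨z, z1, z2, e⟩ := k F c _ τ (hd.mono s) (fun z _ => by simpa using hκ.le) hc
      (by simpa using hκ.le) (by rw [sub_self, norm_zero]; exact hκ.le) h1 h2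
    exact ⟨z, top2_in le_rfl hc z1 (z2.trans_le (min_le_right _ _)), z2.trans_le (min_le_left _ _), e⟩
  have ne : a * deriv F a / ‖deriv F a‖ + b * deriv F b / ‖deriv F b‖ ≠ 0 := fun e =>
    hne (eq_neg_of_add_eq_zero_left e)
  obtain ⟨κ, hκ, k⟩ := step a _ ha (un b hb) ne
  obtain ⟨κ', hκ', k'⟩ := step b _ hb (un a ha) (by rwa [add_comm])
  obtain ⟨z, z1, z2, e⟩ := k _ (lt_min hκ hκ') (min_le_left _ _)
  obtain ⟨z', z1', z2', e'⟩ := k' _ (lt_min hκ hκ') (min_le_right _ _)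
  refine hn ⟨z, z1, z', z1', fun h => ?_, by rw [e, e', he, add_comm (a * _ / _)]⟩
  have t := norm_sub_le (z - b) (z - a)
  rw [sub_sub_sub_cancel_left] at t
  rw [← h] at z2'
  linarith

theorem top2_nc' {F : ℂ → ℂ} {U : Set ℂ} {r c : ℝ} (hU : IsOpen U) (hr : 0 < r) (hc : 0 < c)
    (h : ∀ a ∈ U, ∀ b ∈ U, ‖a - b‖ ≤ r → c * ‖a - b‖ ≤ ‖F a - F b‖) {b : ℂ} (hb : b ∈ U) :
    ¬∀ᶠ z in 𝓝 b, F z = F b := by
  refine top2_nc hc ?_
  filter_upwards [hU.mem_nhds hb, closedBall_mem_nhds b hr] with a h1 h2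
  exact h a h1 b hb (mem_closedBall_iff_norm.1 h2)

/-- pushing a touching pair together gives an overlap -/
theorem push_overlap {F0 : ℂ → ℂ} {H δ : ℝ} (hH : 0 < H) (hδ : 0 < δ)
    (hd : DifferentiableOn ℂ F0 (ann H δ)) (h0 : ∀ z ∈ ann H δ, deriv F0 z ≠ 0) {a0 b0 Δ0 : ℂ}
    (ha : ‖a0‖ = 1) (hb : ‖b0‖ = 1) (hab : a0 ≠ b0)
    (hΔ : (Δ0 * (starRingEnd ℂ) (b0 * deriv F0 b0)).re < 0) :
    ∃ κ > 0, ∀ (F : ℂ → ℂ) (H' : ℝ) (a b Δ : ℂ) (τ : ℝ), |H' - H| ≤ κ →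
      DifferentiableOn ℂ F (ann H (δ / 2)) → (∀ z ∈ ann H (δ / 2), ‖F z - F0 z‖ ≤ κ) →
      ‖a‖ = 1 → ‖b‖ = 1 → ‖a - a0‖ ≤ κ → ‖b - b0‖ ≤ κ → ‖Δ - Δ0‖ ≤ κ → 0 < τ → τ ≤ κ →
      F a - F b = τ * Δ → Overlap F H' := by
  obtain ⟨ρ, hρ, s⟩ := Metric.isOpen_iff.1 (isOpen_ann H (δ / 2)) b0
    (top2_cann (by linarith) (half_pos hδ) (top2_one hH.le hb))
  have l : Real.exp (-(H / 2)) < 1 := Real.exp_lt_one_iff.2 (by linarith)
  have ab : 0 < ‖a0 - b0‖ := norm_pos_iff.2 (sub_ne_zero.2 hab)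
  obtain ⟨κ1, hκ1, k⟩ := inward hρ hb (hd.mono (s.trans (top2_mono (by linarith) (by linarith)))) hΔ
    (δ' := min (‖a0 - b0‖ / 2) (1 - Real.exp (-(H / 2)))) (lt_min (half_pos ab) (sub_pos.2 l))
  obtain ⟨κ2, hκ2, r, hr, c, hc, inj⟩ := loc_inj hδ hd h0
  obtain ⟨κ, hκ, e1, e2, e3, e4⟩ : ∃ κ > 0, κ ≤ κ1 ∧ κ ≤ κ2 ∧ κ ≤ H / 2 ∧ κ ≤ ‖a0 - b0‖ / 2 :=
    ⟨min (min κ1 κ2) (min (H / 2) (‖a0 - b0‖ / 2)), by positivity,
      (min_le_left _ _).trans (min_le_left _ _), (min_le_left _ _).trans (min_le_right _ _),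
      (min_le_right _ _).trans (min_le_left _ _), (min_le_right _ _).trans (min_le_right _ _)⟩
  refine ⟨κ, hκ, fun F H' a b Δ τ hH' hF hFκ a1 b1 aa bb ΔΔ t0 t1 e => ?_⟩
  obtain ⟨z, z1, z2, ez⟩ := k F b Δ τ (hF.mono s) (fun z hz => (hFκ z (s hz)).trans e1) b1
    (bb.trans e1) (ΔΔ.trans e1) t0 (t1.trans e1)
  have lo := (abs_le.1 hH').1
  have zi : ∀ H', H / 2 ≤ H' → z ∈ ann H' 0 := fun H' h =>
    top2_in h hb z1 (z2.trans_le (min_le_right _ _))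
  refine top2_ovl (by linarith) (isOpen_ann H (δ / 2)) hF
    (top2_cann (by linarith) (half_pos hδ) (top2_one hH.le a1))
    (top2_mono (by linarith) (by linarith) (zi H (by linarith)))
    (top2_nc' (isOpen_ann H (δ / 4)) hr hc (inj F hF fun w hw => (hFκ w hw).trans e2)
      (top2_mono (by linarith) (by linarith) (zi H (by linarith))))
    (top2_one (by linarith) a1) (zi H' (by linarith)) (fun h => ?_) (by rw [ez, ← e]; ring)
  have t := norm_sub_le (z - b0) (z - a0)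
  rw [sub_sub_sub_cancel_left] at t
  rw [h] at aa
  linarith [z2.trans_le (min_le_left _ _)]

theorem top2_far {F : ℂ → ℂ} {U : Set ℂ} {r c : ℝ} (hc : 0 < c)
    (h : ∀ a ∈ U, ∀ b ∈ U, ‖a - b‖ ≤ r → c * ‖a - b‖ ≤ ‖F a - F b‖) {a b : ℂ} (ha : a ∈ U)
    (hb : b ∈ U) (hab : a ≠ b) (he : F a = F b) : r ≤ ‖a - b‖ := by
  by_contra hn
  have k := h a ha b hb (not_le.1 hn).le
  rw [he, sub_self, norm_zero] at k
  exact (mul_pos hc (norm_pos_iff.2 (sub_ne_zero.2 hab))).not_ge k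

theorem top2_cont {F : ℂ → ℂ} {K : Set ℂ} (h : ContinuousOn F K) :
    ContinuousOn (fun p : ℂ × ℂ => ‖F p.1 - F p.2‖) (K ×ˢ K) :=
  ((h.comp continuousOn_fst fun _ hp => hp.1).sub (h.comp continuousOn_snd fun _ hp => hp.2)).norm

/-- the touching pairs of a neighbour of the base are close to those of the base -/
theorem pairs_near {F0 : ℂ → ℂ} {H δ : ℝ} (hH : 0 < H) (hδ : 0 < δ)
    (hd : DifferentiableOn ℂ F0 (ann H δ)) (h0 : ∀ z ∈ ann H δ, deriv F0 z ≠ 0)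
    (hp : ∀ a ∈ cann H, ∀ b ∈ cann H, a ≠ b → F0 a = F0 b →
      ‖a‖ = 1 ∧ ‖b‖ = 1 ∧ 0 < a.im * b.im) :
    ∃ μ > 0, ∀ δ' > 0, δ' ≤ δ → ∃ κ > 0, ∀ (F : ℂ → ℂ) (H' : ℝ), |H' - H| ≤ κ →
      DifferentiableOn ℂ F (ann H δ') → (∀ z ∈ ann H δ', ‖F z - F0 z‖ ≤ κ) →
      ¬Overlap F H' → ∀ a ∈ cann H', ∀ b ∈ cann H', a ≠ b → F a = F b →
        ‖a‖ = 1 ∧ ‖b‖ = 1 ∧ μ ≤ a.im * b.im := by
  have cl : ∀ r : ℝ, IsClosed {p : ℂ × ℂ | r ≤ ‖p.1 - p.2‖} := fun r =>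
    isClosed_le continuous_const (by fun_prop)
  obtain ⟨μ, hμ, hT⟩ : ∃ μ > 0, ∀ a ∈ cann H, ∀ b ∈ cann H, a ≠ b → F0 a = F0 b →
      μ ≤ a.im * b.im := by
    obtain ⟨κ, hκ, r, hr, c, hc, inj⟩ := loc_inj hδ hd h0
    have i := inj F0 (hd.mono (top2_mono (by linarith) (by linarith)))
      fun z _ => by simpa using hκ.le
    have s4 : cann H ⊆ ann H (δ / 4) := top2_cann (by linarith) (by linarith)
    have kk := (isCompact_cann H).prod (isCompact_cann H)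
    have cp := (kk.of_isClosed_subset ((top2_cont (hd.continuousOn.mono
      (top2_cann (by linarith) hδ))).preimage_isClosed_of_isClosed kk.isClosed
      (isClosed_singleton (x := 0))) inter_subset_left).inter_right (cl r)
    obtain ⟨μ, hμ, k⟩ := cp.exists_forall_le' (f := fun p => p.1.im * p.2.im) (by fun_prop) (a := 0)
      fun p q => (hp _ q.1.1.1 _ q.1.1.2 (fun e => by
        have := q.2
        rw [mem_ofPred_eq, e, sub_self, norm_zero] at this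
        exact hr.not_ge this) (sub_eq_zero.1 (norm_eq_zero.1 q.1.2))).2.2
    exact ⟨μ, hμ, fun a ha b hb hab he => k (a, b) ⟨⟨⟨ha, hb⟩, norm_eq_zero.2 (sub_eq_zero.2 he)⟩,
      top2_far hc i (s4 ha) (s4 hb) hab he⟩⟩
  refine ⟨μ / 2, half_pos hμ, fun δ' hδ' δδ => ?_⟩
  have s0 : ann H δ' ⊆ ann H δ := top2_mono (by linarith) δδ
  obtain ⟨κ1, hκ1, r, hr, c, hc, inj⟩ := loc_inj hδ' (hd.mono s0) fun z hz => h0 z (s0 hz)
  have l : Real.exp (-(H / 2)) < 1 := Real.exp_lt_one_iff.2 (by linarith)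
  have oW : IsOpen {p : ℂ × ℂ | μ / 2 < p.1.im * p.2.im ∧ Real.exp (-(H / 2)) < ‖p.1‖ ∧
      Real.exp (-(H / 2)) < ‖p.2‖} :=
    IsOpen.and (isOpen_lt continuous_const (by fun_prop))
      (IsOpen.and (isOpen_lt continuous_const (by fun_prop)) (isOpen_lt continuous_const (by fun_prop)))
  have cp := (((isCompact_cann (H + δ' / 8)).prod (isCompact_cann (H + δ' / 8))).inter_right
    (cl r)).diff oW
  obtain ⟨γ, hγ, k⟩ := cp.exists_forall_le' (f := fun p => max ‖F0 p.1 - F0 p.2‖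
    (max (Real.exp (-H) - ‖p.1‖) (Real.exp (-H) - ‖p.2‖)))
    (((top2_cont (hd.continuousOn.mono (top2_cann (by linarith) hδ))).mono fun _ q => q.1.1).sup
      (by fun_prop)) (a := 0) fun p q => by
      by_contra hn
      simp only [not_lt, max_le_iff, sub_nonpos, norm_le_zero_iff, sub_eq_zero] at hn
      have ne : p.1 ≠ p.2 := fun e => by
        have := q.1.2
        rw [mem_ofPred_eq, e, sub_self, norm_zero] at this
        exact hr.not_ge this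
      have a : p.1 ∈ cann H := ⟨hn.2.1, q.1.1.1.2⟩
      have b : p.2 ∈ cann H := ⟨hn.2.2, q.1.1.2.2⟩
      obtain ⟨u, v, -⟩ := hp _ a _ b ne hn.1
      exact q.2 ⟨(half_lt_self hμ).trans_le (hT _ a _ b ne hn.1), u ▸ l, v ▸ l⟩
  obtain ⟨κ, hκ, e1, e2, e3, e4⟩ : ∃ κ > 0, κ ≤ κ1 ∧ κ ≤ γ / 4 ∧ κ ≤ H / 2 ∧ κ ≤ δ' / 8 :=
    ⟨min (min κ1 (γ / 4)) (min (H / 2) (δ' / 8)), by positivity,
      (min_le_left _ _).trans (min_le_left _ _), (min_le_left _ _).trans (min_le_right _ _),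
      (min_le_right _ _).trans (min_le_left _ _), (min_le_right _ _).trans (min_le_right _ _)⟩
  refine ⟨κ, hκ, fun F H' hH' hF hFκ hn a ha b hb hab he => ?_⟩
  obtain ⟨lo, hi⟩ := abs_le.1 hH'
  have s2 : ann H (δ' / 2) ⊆ ann H δ' := top2_mono (by linarith) (by linarith)
  have i := inj F (hF.mono s2) fun z hz => (hFκ z (s2 hz)).trans e1
  have s4 : cann H' ⊆ ann H (δ' / 4) := top2_cann (by linarith) (by linarith)
  have s1 : cann H' ⊆ ann H δ' := top2_cann (by linarith) hδ'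
  have s8 : cann H' ⊆ cann (H + δ' / 8) := fun z hz =>
    ⟨(Real.exp_le_exp.2 (by linarith)).trans hz.1, hz.2⟩
  have ex : Real.exp (-H) - Real.exp (-H') < γ := by
    have u : Real.exp (-H') = Real.exp (-H) * Real.exp (H - H') := by
      rw [← Real.exp_add]
      congr 1
      ring
    have v := Real.add_one_le_exp (H - H')
    have w : Real.exp (-H) ≤ 1 := Real.exp_le_one_iff.2 (by linarith)
    have p := Real.exp_pos (-H)
    nlinarith [mul_le_mul_of_nonneg_left v p.le, mul_le_mul_of_nonneg_left hi p.le,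
      mul_le_mul_of_nonneg_left w hκ.le]
  have W : μ / 2 < a.im * b.im ∧ Real.exp (-(H / 2)) < ‖a‖ ∧ Real.exp (-(H / 2)) < ‖b‖ := by
    by_contra hW
    refine (k (a, b) ⟨⟨⟨s8 ha, s8 hb⟩, top2_far hc i (s4 ha) (s4 hb) hab he⟩, hW⟩).not_gt ?_
    have t := norm_sub_le (F b - F0 b) (F a - F0 a)
    rw [show F b - F0 b - (F a - F0 a) = F0 a - F0 b by rw [he]; ring] at t
    exact max_lt (by linarith [hFκ a (s1 ha), hFκ b (s1 hb)])
      (max_lt (by linarith [ha.1]) (by linarith [hb.1]))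
  have fin : ∀ a ∈ cann H', ∀ b ∈ cann H', a ≠ b → F a = F b → Real.exp (-(H / 2)) < ‖b‖ →
      ‖b‖ = 1 := fun a ha b hb hab he h => by
    refine hb.2.eq_or_lt.resolve_right fun q => hn ?_
    exact top2_ovl (by linarith) (isOpen_ann H δ') hF (s1 ha) (s1 hb)
      (top2_nc' (isOpen_ann _ _) hr hc i (s4 hb)) ha
      ⟨(Real.exp_le_exp.2 (by linarith)).trans_lt h, by rwa [Real.exp_zero]⟩ hab he
  exact ⟨fin b hb a ha hab.symm he.symm W.2.1, fin a ha b hb hab he W.2.2, W.1.le⟩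

end StekIso
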