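import Pool.Agent.Lib.MP_fa022d_an.Bs1
import Pool.Agent.Lib.MP_fa022d_an.Top2

/-! The first touching in a family; the odd quintic. -/

open Set Filter Topology Metric BoundedContinuousFunction Complex

noncomputable section
namespace StekIso

theorem bs2_unif {Φ : ℝ → ℂ → ℂ} {T : ℝ} {K : Set ℂ} (hK : IsCompact K)
    (h : ContinuousOn (fun p : ℝ × ℂ => Φ p.1 p.2) (Icc 0 T ×ˢ K)) {κ : ℝ} (hκ : 0 < κ) :
    ∃ τ > 0, ∀ s ∈ Icc 0 T, ∀ t ∈ Icc 0 T, |s - t| < τ → ∀ z ∈ K, ‖Φ s z - Φ t z‖ ≤ κ := by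
  obtain ⟨τ, τ0, hτ⟩ := Metric.uniformContinuousOn_iff.1
    ((isCompact_Icc.prod hK).uniformContinuousOn_of_continuous h) κ hκ
  refine ⟨τ, τ0, fun s hs t ht d z hz => ?_⟩
  have := hτ (s, z) ⟨hs, hz⟩ (t, z) ⟨ht, hz⟩ (by
    rw [Prod.dist_eq, dist_self, Real.dist_eq, max_eq_left (abs_nonneg _)]; exact d)
  rw [dist_eq_norm] at this
  exact this.le

theorem bs2_sub (H : ℝ) : ann H 0 ⊆ cann H := fun z hz =>
  ⟨by simpa using hz.1.le, by simpa using hz.2.le⟩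

theorem HasPrim.bs2 {G F : ℂ → ℂ} {H δ : ℝ} (h : HasPrim G F H δ) :
    DifferentiableOn ℂ F (ann H δ) ∧ ∀ z ∈ ann H δ, deriv F z ≠ 0 :=
  ⟨fun z hz => (h z hz).differentiableAt.differentiableWithinAt,
    fun z hz => by rw [(h z hz).deriv]; exact exp_ne_zero _⟩

theorem bs2_first {G F : ℝ → ℂ → ℂ} {H δ T : ℝ} (hδ : 0 < δ) (hT : 0 ≤ T)
    (hp : ∀ t ∈ Icc 0 T, HasPrim (G t) (F t) H δ)
    (cG : ContinuousOn (fun p : ℝ × ℂ => G p.1 p.2) (Icc 0 T ×ˢ bsK H δ))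
    (cF : ContinuousOn (fun p : ℝ × ℂ => F p.1 p.2) (Icc 0 T ×ˢ bsK H δ))
    (h0 : InjOn (F 0) (cann H)) (h1 : ¬InjOn (F T) (cann H)) :
    ∃ t ∈ Icc 0 T, ¬InjOn (F t) (cann H) ∧ ¬Overlap (F t) H ∧
      ∀ κ > 0, ∃ s ∈ Icc 0 T, (∀ z ∈ ann H δ, ‖G s z - G t z‖ ≤ κ) ∧ InjOn (F s) (cann H) := by
  have sub : ann H (δ / 2) ⊆ ann H δ := ann_mono (half_le_self hδ.le)
  have nc : ¬IsClosed ({t | InjOn (F t) (cann H)} ∩ Icc 0 T) := fun c => by
    refine h1 (c.Icc_subset_of_forall_mem_nhdsWithin h0 (fun x hx => ?_) ⟨hT, le_rfl⟩)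
    have x1 := Ico_subset_Icc_self hx.2
    obtain ⟨κ, κ0, hκ⟩ := inj_open hδ (hp x x1).bs2.1 (hp x x1).bs2.2 hx.1
    obtain ⟨τ, τ0, hτ⟩ := bs2_unif (bsK_cpt H δ) cF κ0
    filter_upwards [Ioo_mem_nhdsGT (show x < min (x + τ) T from lt_min (by linarith) hx.2.2)]
      with s hs
    obtain ⟨a, b⟩ := lt_min_iff.1 hs.2
    have s1 : s ∈ Icc 0 T := ⟨x1.1.trans hs.1.le, b.le⟩
    exact hκ (F s) H (by simpa using κ0.le) ((hp s s1).bs2.1.mono sub) fun z hz =>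
      hτ s s1 x x1 (abs_lt.2 ⟨by linarith [hs.1], by linarith⟩) z (ann_bsK _ _ (sub hz))
  rw [← closure_subset_iff_isClosed, not_subset] at nc
  obtain ⟨t, tc, tn⟩ := nc
  have t1 : t ∈ Icc 0 T := isClosed_Icc.closure_subset (closure_mono inter_subset_right tc)
  have near : ∀ τ > 0, ∃ s ∈ Icc 0 T, |s - t| < τ ∧ InjOn (F s) (cann H) := fun τ τ0 => by
    obtain ⟨s, hs, d⟩ := Metric.mem_closure_iff.1 tc τ τ0
    exact ⟨s, hs.2, by rwa [Real.dist_eq, abs_sub_comm] at d, hs.1⟩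
  refine ⟨t, t1, fun i => tn ⟨i, t1⟩, fun o => ?_, fun κ κ0 => ?_⟩
  · obtain ⟨κ, κ0, hκ⟩ := ovl_open hδ (hp t t1).bs2.1 (hp t t1).bs2.2 o
    obtain ⟨τ, τ0, hτ⟩ := bs2_unif (bsK_cpt H δ) cF κ0
    obtain ⟨s, s1, d, i⟩ := near τ τ0
    obtain ⟨a, ha, b, hb, ne, e⟩ := hκ (F s) H (by simpa using κ0.le) ((hp s s1).bs2.1.mono sub)
      fun z hz => hτ s s1 t t1 d z (ann_bsK _ _ (sub hz))
    exact ne (i (bs2_sub H ha) (bs2_sub H hb) e)
  · obtain ⟨τ, τ0, hτ⟩ := bs2_unif (bsK_cpt H δ) cG κ0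
    obtain ⟨s, s1, d, i⟩ := near τ τ0
    exact ⟨s, s1, fun z hz => hτ s s1 t t1 d z (ann_bsK _ _ hz), i⟩

/-- primitive of `(1 + t z²)²` -/
def bsf (t z : ℂ) : ℂ := z + 2 * t / 3 * z ^ 3 + t ^ 2 / 5 * z ^ 5

theorem bsf_hd (t z : ℂ) : HasDerivAt (bsf t) ((1 + t * z ^ 2) ^ 2) z := by
  refine ((((hasDerivAt_id z).add ((hasDerivAt_pow 3 z).const_mul (2 * t / 3))).add
    ((hasDerivAt_pow 5 z).const_mul (t ^ 2 / 5)))).congr_deriv ?_
  push_cast
  ring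

theorem bs2_rho : Real.exp (-4) ≤ 1 / 16 := by
  have a := pow_le_pow_left₀ (by norm_num) (Real.add_one_le_exp 1) 4
  rw [← Real.exp_nat_mul] at a
  rw [Real.exp_neg, one_div]
  exact inv_anti₀ (by norm_num) (by norm_num at a ⊢; exact a)

theorem bsf_ovl : Overlap (bsf (9 / 10 : ℝ)) 4 := by
  have c : Continuous fun r : ℝ => (bsf (9 / 10 : ℝ) (r * ⟨5 / 13, 12 / 13⟩)).re := by
    unfold bsf; fun_prop
  have e1 : (bsf (9 / 10 : ℝ) ((1 : ℝ) * ⟨5 / 13, 12 / 13⟩)).re < 0 := by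
    norm_num [bsf, pow_succ, mul_re, mul_im]
  have e2 : 0 ≤ (bsf (9 / 10 : ℝ) ((1 / 2 : ℝ) * ⟨5 / 13, 12 / 13⟩)).re := by
    norm_num [bsf, pow_succ, mul_re, mul_im]
  obtain ⟨r, hr, e⟩ := intermediate_value_Icc' (by norm_num : (1 / 2 : ℝ) ≤ 1) c.continuousOn
    ⟨e1.le, e2⟩
  have r1 : r < 1 := lt_of_le_of_ne hr.2 fun q => by rw [q] at e; exact e1.ne e
  have n0 : ‖(⟨5 / 13, 12 / 13⟩ : ℂ)‖ = 1 := by
    rw [Complex.norm_def, normSq_mk]; norm_num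
  have n : ‖(r : ℂ) * ⟨5 / 13, 12 / 13⟩‖ = r := by
    rw [norm_mul, n0, mul_one, norm_real, Real.norm_of_nonneg (by linarith [hr.1])]
  have m : ∀ z : ℂ, ‖z‖ = r → z ∈ ann 4 0 := fun z hz => by
    rw [ann, mem_setOf_eq, hz, sub_zero, Real.exp_zero]
    exact ⟨by linarith [bs2_rho, hr.1], r1⟩
  refine ⟨_, m _ n, -(starRingEnd ℂ) (r * ⟨5 / 13, 12 / 13⟩), m _ (by rw [norm_neg, norm_conj, n]),
    fun q => ?_, ?_⟩
  · have := congrArg re q
    simp at this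
    linarith [hr.1]
  · replace e : (bsf (9 / 10 : ℝ) (r * ⟨5 / 13, 12 / 13⟩)).re = 0 := e
    generalize (r : ℂ) * ⟨5 / 13, 12 / 13⟩ = a at e
    have : bsf (9 / 10 : ℝ) (-(starRingEnd ℂ) a) = -(starRingEnd ℂ) (bsf (9 / 10 : ℝ) a) := by
      simp only [bsf, map_add, map_mul, map_div₀, map_pow, conj_ofReal, map_ofNat]
      ring
    rw [this]
    exact Complex.ext (by rw [neg_re, conj_re, e, neg_zero]) (by simp)

theorem bsf_small {t : ℝ} (h0 : 0 ≤ t) (h1 : t ≤ 1) {a b : ℂ} (ha : ‖a‖ ≤ 1 / 4)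
    (hb : ‖b‖ ≤ 1 / 4) : 1 / 2 * ‖a - b‖ ≤ ‖bsf t a - bsf t b‖ := by
  have := (convex_closedBall (0 : ℂ) (1 / 4)).norm_image_sub_le_of_norm_hasDerivWithin_le
    (f := fun z => bsf t z - z) (C := 1 / 2)
    (fun z _ => ((bsf_hd t z).sub (hasDerivAt_id z)).hasDerivWithinAt) (fun z hz => by
      have z1 := mem_closedBall_zero_iff.1 hz
      have q : ‖(t : ℂ) * z ^ 2‖ ≤ 1 / 16 := by
        rw [norm_mul, norm_pow, norm_real, Real.norm_of_nonneg h0]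
        nlinarith [norm_nonneg z]
      generalize (t : ℂ) * z ^ 2 = w at q
      rw [show (1 + w) ^ 2 - 1 = w * (2 + w) by ring, norm_mul]
      have := norm_add_le 2 w
      rw [Complex.norm_ofNat] at this
      nlinarith [norm_nonneg w, norm_nonneg (2 + w)])
    (mem_closedBall_zero_iff.2 hb) (mem_closedBall_zero_iff.2 ha)
  have q := norm_sub_le (bsf t a - bsf t b) (bsf t a - a - (bsf t b - b))
  rw [show bsf t a - bsf t b - (bsf t a - a - (bsf t b - b)) = a - b by ring] at q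
  linarith

theorem bsf_rest {t r : ℝ} (h0 : 0 ≤ t) (h1 : t ≤ 9 / 10) {z : ℂ} (hz : ‖z‖ = r) (hr : r ≤ 1) :
    ‖bsf t z - z‖ ≤ 0.762 * r := by
  have r0 : 0 ≤ r := hz ▸ norm_nonneg z
  have a : r ^ 3 ≤ r := pow_le_of_le_one r0 hr (by norm_num)
  have b : r ^ 5 ≤ r := pow_le_of_le_one r0 hr (by norm_num)
  rw [bsf, add_assoc, add_sub_cancel_left]
  refine (norm_add_le _ _).trans ?_
  simp only [norm_mul, norm_div, norm_pow, Complex.norm_ofNat, norm_real, Real.norm_of_nonneg h0,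
    hz]
  have c : t ^ 2 ≤ 0.81 := by nlinarith
  have d : t * r ^ 3 ≤ 0.9 * r := mul_le_mul (by linarith) a (by positivity) (by norm_num)
  have e : t ^ 2 * r ^ 5 ≤ 0.81 * r := mul_le_mul c b (by positivity) (by norm_num)
  linarith

theorem bsf_im {t : ℝ} (h0 : 0 ≤ t) (h1 : t ≤ 1) {z : ℂ} (hz : ‖z‖ = 1) :
    ∃ P : ℝ, 1 / 3 ≤ P ∧ (bsf t z).im = z.im * P := by
  have n : z.re * z.re + z.im * z.im = 1 := by rw [← normSq_apply, normSq_eq_norm_sq, hz, one_pow]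
  refine ⟨1 + 2 * t / 3 * (4 * z.re ^ 2 - 1) + t ^ 2 / 5 * (16 * z.re ^ 4 - 12 * z.re ^ 2 + 1),
    ?_, ?_⟩
  · have a : 0 ≤ t * z.re ^ 2 * (1 - t) := by
      have := sub_nonneg.2 h1
      positivity
    have b : 0 ≤ t * z.re ^ 2 := by positivity
    have c : 0 ≤ t ^ 2 * z.re ^ 4 := by positivity
    nlinarith [sq_nonneg t]
  · have e1 : (2 * t / 3 : ℂ) = (2 * t / 3 : ℝ) := by push_cast; ring
    have e2 : (t ^ 2 / 5 : ℂ) = (t ^ 2 / 5 : ℝ) := by push_cast; ring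
    rw [bsf, e1, e2, add_im, add_im, im_ofReal_mul, im_ofReal_mul]
    simp only [pow_succ, pow_zero, one_mul, mul_re, mul_im]
    linear_combination (-(2 * t / 3) * z.im +
      t * t / 5 * z.im * (z.im * z.im - 11 * z.re * z.re + 1)) * n

/-- the pairs of a Lipschitz small symmetric perturbation of the quintic -/
theorem bs2_pairs {t : ℝ} (h0 : 0 ≤ t) (h1 : t ≤ 9 / 10) {g : ℂ → ℂ}
    (hg : ∀ a ∈ cann 4, ∀ b ∈ cann 4, ‖g a - g b‖ ≤ 1 / 20 * ‖a - b‖)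
    (hs : ∀ z, g ((starRingEnd ℂ) z) = (starRingEnd ℂ) (g z)) {a b : ℂ} (ha : a ∈ cann 4)
    (hb : b ∈ cann 4) (ha' : a ∉ ann 4 0) (hb' : b ∉ ann 4 0) (ne : a ≠ b)
    (e : bsf t a + g a = bsf t b + g b) : ‖a‖ = 1 ∧ ‖b‖ = 1 ∧ 0 < a.im * b.im := by
  have ρ := bs2_rho
  have bd : ∀ z ∈ cann 4, z ∉ ann 4 0 → ‖z‖ = 1 ∨ ‖z‖ ≤ 1 / 16 := fun z hz hz' => by
    by_contra c
    push Not at c
    exact hz' ⟨by rw [sub_zero]; linarith [c.2], by simpa using lt_of_le_of_ne hz.2 c.1⟩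
  have d : ‖bsf t a - bsf t b‖ ≤ 1 / 20 * ‖a - b‖ := by
    rw [show bsf t a - bsf t b = -(g a - g b) by linear_combination e, norm_neg]
    exact hg a ha b hb
  have p := norm_pos_iff.2 (sub_ne_zero.2 ne)
  have mix : ∀ a b : ℂ, ‖a‖ = 1 → ‖b‖ ≤ 1 / 16 → 1 / 20 * ‖a - b‖ < ‖bsf t a - bsf t b‖ :=
    fun a b a1 b1 => by
      have u := bsf_rest h0 h1 a1 le_rfl
      have v := bsf_rest h0 h1 (rfl : ‖b‖ = _) (by linarith)
      have w := norm_sub_le a b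
      have x := norm_sub_norm_le a b
      have y := norm_sub_le (bsf t a - bsf t b) (bsf t a - a - (bsf t b - b))
      have z := norm_sub_le (bsf t a - a) (bsf t b - b)
      rw [show bsf t a - bsf t b - (bsf t a - a - (bsf t b - b)) = a - b by ring] at y
      linarith
  rcases bd a ha ha' with a1 | a1 <;> rcases bd b hb hb' with b1 | b1
  · refine ⟨a1, b1, ?_⟩
    have im : ∀ z ∈ cann 4, ‖z‖ = 1 → ∃ P : ℝ, 0 < P ∧ (bsf t z + g z).im = z.im * P :=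
      fun z hz z1 => by
        obtain ⟨P, P1, eP⟩ := bsf_im h0 (by linarith) z1
        have := hg z hz ((starRingEnd ℂ) z) (by simpa [cann] using hz)
        rw [hs, sub_conj, sub_conj, norm_mul, norm_mul, norm_I, norm_real, norm_real, mul_one,
          mul_one, Real.norm_eq_abs, Real.norm_eq_abs, abs_mul, abs_mul, abs_two] at this
        rcases eq_or_ne z.im 0 with z0 | z0
        · refine ⟨1, one_pos, ?_⟩
          rw [z0, abs_zero] at this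
          rw [add_im, eP, z0, abs_nonpos_iff.1 (by linarith : |(g z).im| ≤ 0)]
          simp
        · refine ⟨P + (g z).im / z.im, ?_, by rw [add_im, eP]; field_simp⟩
          have q : |(g z).im / z.im| ≤ 1 / 20 := by
            rw [abs_div, div_le_iff₀ (abs_pos.2 z0)]; linarith
          linarith [(abs_le.1 q).1]
    obtain ⟨P, P0, eP⟩ := im a ha a1
    obtain ⟨Q, Q0, eQ⟩ := im b hb b1
    rw [e, eQ] at eP
    rcases eq_or_ne a.im 0 with z0 | z0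
    · exfalso
      rw [z0, zero_mul] at eP
      have z1 : b.im = 0 := (mul_eq_zero.1 eP).resolve_right Q0.ne'
      have sq : ∀ z : ℂ, ‖z‖ = 1 → z.im = 0 → z ^ 2 = 1 := fun z n i => by
        have := Complex.mul_conj z
        rwa [conj_eq_iff_im.2 i, normSq_eq_norm_sq, n, one_pow, ofReal_one, ← pow_two] at this
      have a2 := sq a a1 z0
      have b2 := sq b b1 z1
      rw [show bsf t a - bsf t b = (1 + 2 * t / 3 + t ^ 2 / 5 : ℝ) * (a - b) by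
        rw [bsf, bsf]
        push_cast
        linear_combination (2 * t / 3 * a + t ^ 2 / 5 * a * (a ^ 2 + 1)) * a2 -
          (2 * t / 3 * b + t ^ 2 / 5 * b * (b ^ 2 + 1)) * b2,
        norm_mul, norm_real, Real.norm_of_nonneg (by positivity)] at d
      nlinarith [sq_nonneg t]
    · have : a.im * b.im * Q = a.im ^ 2 * P := by linear_combination a.im * eP
      exact (mul_pos_iff_of_pos_right Q0).1 (this ▸ by positivity)
  · exact absurd d (not_le.2 (mix a b a1 b1))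
  · rw [norm_sub_rev, norm_sub_rev a] at d
    exact absurd d (not_le.2 (mix b a b1 a1))
  · have := bsf_small h0 (by linarith) (a := a) (b := b) (by linarith) (by linarith)
    linarith

end StekIso
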