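import Pool.Agent.Lib.MP_fa022d_an.KExt

/-! The inverse of a circle map is a circle map on a smaller strip. -/

open Set Filter Topology Metric BoundedContinuousFunction Complex

noncomputable section
namespace StekIso

theorem cinv_inj {η m M : ℝ} {σ : ℂ → ℂ} (hm : 0 < m) (h : CMap η m M σ) :
    InjOn σ (strip η) := fun s hs t ht e => by
  have := (h.lip hs ht).1
  rw [e, sub_self, norm_zero] at this
  exact sub_eq_zero.1 (norm_le_zero_iff.1 (le_of_mul_le_mul_left (by simpa using this) hm))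

theorem cinv_im {η m M : ℝ} {σ : ℂ → ℂ} (h : CMap η m M σ) {s : ℂ} (hs : s ∈ strip η) :
    m * |s.im| ≤ |(σ s).im| := by
  obtain ⟨a, b, -⟩ := h.im_bd hs
  rcases le_total 0 s.im with p | p
  · rw [abs_of_nonneg p]; exact (a p).trans (le_abs_self _)
  · rw [abs_of_nonpos p]; linarith [b p, neg_le_abs (σ s).im]

theorem cinv_ne {η m M : ℝ} {σ : ℂ → ℂ} (hm : 0 < m) (h : CMap η m M σ) {s : ℂ}
    (hs : s ∈ strip η) : deriv σ s ≠ 0 := fun e => by
  have := h.lo s hs
  rw [e, zero_re] at this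
  linarith

theorem cinv_nhds {η m M : ℝ} {σ : ℂ → ℂ} (hm : 0 < m) (h : CMap η m M σ) {s : ℂ}
    (hs : s ∈ strip η) : map σ (𝓝 s) = 𝓝 (σ s) :=
  ((kext_an h hs).hasStrictDerivAt).map_nhds_eq (cinv_ne hm h hs)

/-- the image of the strip contains a strip -/
theorem cinv_surj {η m M : ℝ} {σ : ℂ → ℂ} (hη : 0 < η) (hm : 0 < m) (h : CMap η m M σ) :
    strip (m * η) ⊆ σ '' strip η := by
  have op : IsOpen (σ '' strip η) := isOpen_iff_mem_nhds.2 <| by
    rintro _ ⟨s, hs, rfl⟩
    rw [← cinv_nhds hm h hs]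
    exact image_mem_map ((isOpen_strip η).mem_nhds hs)
  have z : (0 : ℂ) ∈ strip η := by simpa [strip] using hη
  refine (kext_convex _).isPreconnected.subset_of_closure_inter_subset op
    ⟨σ 0, by simpa [strip, show (σ 0).im = 0 by simpa using h.real 0] using mul_pos hm hη,
      0, z, rfl⟩ ?_
  rintro w ⟨hw, hw'⟩
  obtain ⟨y, y1, y2⟩ := exists_between (show |w.im| < m * η from hw')
  have cp : IsCompact (closedBall (0 : ℂ) ((‖w - σ 0‖ + 1) / m) ∩ {s : ℂ | m * |s.im| ≤ y}) :=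
    (isCompact_closedBall _ _).inter_right (isClosed_le (by fun_prop) continuous_const)
  have sub : closedBall (0 : ℂ) ((‖w - σ 0‖ + 1) / m) ∩ {s : ℂ | m * |s.im| ≤ y} ⊆ strip η :=
    fun s hs => lt_of_mul_lt_mul_left (lt_of_le_of_lt hs.2 y2) hm.le
  have cl := (cp.image_of_continuousOn (h.diff.continuousOn.mono sub)).isClosed
  refine image_mono sub (cl.closure_subset ?_)
  have o : IsOpen (ball w 1 ∩ strip y) := isOpen_ball.inter (isOpen_strip y)
  refine closure_mono ?_ (o.inter_closure ⟨⟨mem_ball_self one_pos, y1⟩, hw⟩)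
  rintro _ ⟨⟨a, b⟩, s, hs, rfl⟩
  refine ⟨s, ⟨?_, (cinv_im h hs).trans (le_of_lt b)⟩, rfl⟩
  have c := (h.lip hs z).1
  have d := norm_sub_le_norm_sub_add_norm_sub (σ s) w (σ 0)
  rw [mem_ball_iff_norm] at a
  rw [mem_closedBall_iff_norm, le_div_iff₀ hm]
  linarith

/-- the inverse circle map -/
theorem CMap.exists_inv {η m M : ℝ} {σ : ℂ → ℂ} (hη : 0 < η) (hm : 0 < m) (h : CMap η m M σ) :
    ∃ θ : ℂ → ℂ, CMap (m * η) (m / M ^ 2) (1 / m) θ ∧
      (∀ w ∈ strip (m * η), θ w ∈ strip η ∧ σ (θ w) = w ∧ deriv θ w = (deriv σ (θ w))⁻¹) ∧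
      ∀ s ∈ strip η, θ (σ s) = s := by
  have inj := cinv_inj hm h
  have L : ∀ s ∈ strip η, Function.invFunOn σ (strip η) (σ s) = s := inj.leftInvOn_invFunOn
  have R : ∀ w ∈ strip (m * η), Function.invFunOn σ (strip η) w ∈ strip η ∧
      σ (Function.invFunOn σ (strip η) w) = w := fun w hw =>
    Function.invFunOn_pos (cinv_surj hη hm h hw)
  generalize Function.invFunOn σ (strip η) = θ at L R
  have D : ∀ w ∈ strip (m * η), HasDerivAt θ (deriv σ (θ w))⁻¹ w := fun w hw => by
    obtain ⟨a, b⟩ := R w hw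
    have c : ContinuousAt θ w := by
      rw [ContinuousAt, ← b, ← cinv_nhds hm h a, tendsto_map'_iff, L _ a]
      refine tendsto_id.congr' ?_
      filter_upwards [(isOpen_strip η).mem_nhds a] with s hs using (L s hs).symm
    refine HasDerivAt.of_local_left_inverse c (kext_hd h a) (cinv_ne hm h a) ?_
    filter_upwards [(isOpen_strip _).mem_nhds hw] with y hy using (R y hy).2
  refine ⟨θ, ⟨fun w hw => (D w hw).differentiableAt.differentiableWithinAt, fun w hw => ?_,
    fun x => ?_, fun w hw => ?_, fun w hw => ?_⟩,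
    fun w hw => ⟨(R w hw).1, (R w hw).2, (D w hw).deriv⟩, L⟩
  · obtain ⟨a, b⟩ := R w hw
    have := L _ (show θ w + 2 * Real.pi ∈ strip η by simpa [strip] using a)
    rwa [h.per _ a, b] at this
  · obtain ⟨a, b⟩ := R x (by simpa [strip] using mul_pos hm hη)
    have := cinv_im h a
    rw [b, ofReal_im, abs_zero] at this
    exact abs_nonpos_iff.1 (le_of_mul_le_mul_left (by simpa using this) hm)
  · have a := (R w hw).1
    have p := norm_pos_iff.2 (cinv_ne hm h a)
    rw [(D w hw).deriv, inv_re, normSq_eq_norm_sq]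
    exact div_le_div₀ (hm.le.trans (h.lo _ a)) (h.lo _ a) (by positivity)
      (pow_le_pow_left₀ p.le (h.hi _ a) 2)
  · have a := (R w hw).1
    rw [(D w hw).deriv, norm_inv, one_div]
    exact inv_anti₀ hm ((h.lo _ a).trans (re_le_norm _))

end StekIso
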