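import Pool.Agent.Lib.MP_fa022d_an.KerI

open Set Filter Topology Metric BoundedContinuousFunction Complex

noncomputable section
namespace StekIso

theorem kerj_mono {a b : ℝ} (h : a ≤ b) (k : ℤ) : ex b k ≤ ex a k :=
  Real.exp_le_exp.2 (by nlinarith [abs_nonneg (k : ℝ)])

theorem kerj_le_one {a : ℝ} (h : 0 ≤ a) (k : ℤ) : ex a k ≤ 1 :=
  (kerj_mono h k).trans (by simp [ex])

theorem kerj_neg (a : ℝ) (k : ℤ) : ex a (-k) = ex a k := by simp [ex]

theorem kerj_sum {a : ℝ} (h : 0 < a) : Summable (ex a) := by simpa using summable_ex h 0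

theorem kerj_tri {a b : ℝ} (h : 0 ≤ b) (k l : ℤ) :
    ex (a + b) (-k - l) * ex b k ≤ ex b l * ex a (k + l) := by
  simp only [ex, ← Real.exp_add]
  refine Real.exp_le_exp.2 ?_
  have e1 : |((-k - l : ℤ) : ℝ)| = |(k : ℝ) + l| := by
    rw [← abs_neg]; congr 1; push_cast; ring
  have e2 : |(l : ℝ)| ≤ |(k : ℝ) + l| + |(k : ℝ)| := by
    simpa using abs_sub ((k : ℝ) + l) k
  rw [e1]; push_cast
  nlinarith

theorem kerj_w {η : Pos} (w : A1 η) {a : ℝ} (h : 0 < a) :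
    Summable fun k => ‖w.coeff k‖ * ex a k := by
  refine Summable.of_nonneg_of_le (fun k => mul_nonneg (norm_nonneg _) (ex_pos _ _).le)
    (fun k => mul_le_mul_of_nonneg_right ?_ (ex_pos _ _).le) ((kerj_sum h).mul_left (‖w‖ / 128))
  refine (norm_coeff1_le w k).trans (mul_le_of_le_one_right (by positivity) ?_)
  exact (div_le_self (ex_pos _ _).le (one_le_pow₀ (one_le_br k))).trans (kerj_le_one η.2.le k)

theorem kerj_prod {u e : ℤ → ℝ} (hu : Summable u) (he : Summable e) (u0 : ∀ k, 0 ≤ u k)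
    (e0 : ∀ k, 0 ≤ e k) :
    HasSum (fun p : ℤ × ℤ => u p.2 * e (p.1 + p.2)) ((∑' k, u k) * ∑' k, e k) := by
  have s := hu.mul_of_nonneg he u0 e0
  let E : ℤ × ℤ ≃ ℤ × ℤ :=
    { toFun := fun p => (p.2, p.1 + p.2), invFun := fun p => (p.2 - p.1, p.1),
      left_inv := fun p => by simp, right_inv := fun p => by simp }
  exact E.hasSum_iff.2 (hu.hasSum.mul he.hasSum s)

theorem xi_pair (η : Pos) : ∃ C ≥ 1, ∀ v w : A1 η, ‖v‖ ≤ 1 → ∀ (f : ℤ → ℂ) (D : ℝ),
    (∀ k, ‖f k‖ ≤ D * ex (3 / 4 * η.1) k) →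
    ‖∑' k, xiC v w (-k) * f k‖ ≤ C * D * ∑' k, ‖w.coeff k‖ * ex (3 / 4 * η.1) k := by
  have h0 := η.2
  have he : Summable (ex (1 / 4 * η.1)) := kerj_sum (by positivity)
  have E0 : 0 ≤ ∑' k, ex (1 / 4 * η.1) k := tsum_nonneg fun k => (ex_pos _ _).le
  refine ⟨1 + 2 * ∑' k, ex (1 / 4 * η.1) k, by linarith, fun v w hv f D hf => ?_⟩
  have hD : 0 ≤ D := four2_nonneg (hf 0) (ex_pos _ _)
  obtain ⟨hg, hx, -⟩ := xiC_eq v w hv
  have hu := kerj_w w (a := 3 / 4 * η.1) (by positivity)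
  have u0 : ∀ k, 0 ≤ ‖w.coeff k‖ * ex (3 / 4 * η.1) k :=
    fun k => mul_nonneg (norm_nonneg _) (ex_pos _ _).le
  have hs := (kerj_prod hu he u0 fun k => (ex_pos _ _).le).mul_left (2 * D)
  have h1 := hs.prod_fiberwise fun k => (hs.summable.prod_factor k).hasSum
  refine (tsum_of_norm_bounded h1 fun k => ?_).trans ?_
  · rw [hx, conv, ← tsum_mul_right]
    refine tsum_of_norm_bounded (hs.summable.prod_factor k).hasSum fun h => ?_
    have t := kerj_tri (a := 1 / 4 * η.1) (b := 3 / 4 * η.1) (by positivity) k h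
    rw [show 1 / 4 * η.1 + 3 / 4 * η.1 = η.1 by ring] at t
    rw [norm_mul, norm_mul, mul_assoc]
    calc _ ≤ ‖w.coeff h‖ * (2 * ex η.1 (-k - h) * (D * ex (3 / 4 * η.1) k)) :=
          mul_le_mul_of_nonneg_left (mul_le_mul (hg _) (hf k) (norm_nonneg _)
            (by have := ex_pos η.1 (-k - h); positivity)) (norm_nonneg _)
      _ = 2 * D * ‖w.coeff h‖ * (ex η.1 (-k - h) * ex (3 / 4 * η.1) k) := by ring
      _ ≤ 2 * D * ‖w.coeff h‖ * (ex (3 / 4 * η.1) h * ex (1 / 4 * η.1) (k + h)) :=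
          mul_le_mul_of_nonneg_left t (by positivity)
      _ = _ := by ring
  · have U0 : 0 ≤ ∑' k, ‖w.coeff k‖ * ex (3 / 4 * η.1) k := tsum_nonneg u0
    have := mul_nonneg hD U0
    nlinarith

theorem kerj_ap {a C : ℝ} {S : Idx → Idx → ℂ} (h0 : 0 < a) (h : Crude a C S) {q : Idx → ℂ}
    (hq : Dk a 1 q) (b : Idx) :
    Summable (fun c => S b c * q c) ∧ ‖Sap S q b‖ ≤ C * EE a * ex a b.2 := by
  obtain ⟨hC, -, hs, -⟩ := h.rowBdd h0
  have k : ∀ c, ‖S b c * q c‖ ≤ C * ex a b.2 * ex a c.2 := fun c => by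
    rw [norm_mul]
    have := (hq c).trans ((one_mul _).le.trans (kerj_le_one h0.le c.2))
    exact (mul_le_of_le_one_right (norm_nonneg _) this).trans ((h b c).trans_eq (by ring))
  refine ⟨.of_norm_bounded (hs.mul_left _) k,
    (tsum_of_norm_bounded (hs.hasSum.mul_left _) k).trans_eq ?_⟩
  rw [EE]; ring

theorem kerj_bf {a C : ℝ} {S : Idx → Idx → ℂ} (h0 : 0 < a) (h : Crude a C S) {p q : Idx → ℂ}
    (hp : Dk a 1 p) (hq : Dk a 1 q) :
    Summable (fun b => p (ng b) * Sap S q b) ∧ ‖Bf p (Sap S q)‖ ≤ C * EE a * EE a := by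
  obtain ⟨hC, -, hs, -⟩ := h.rowBdd h0
  have k : ∀ b, ‖p (ng b) * Sap S q b‖ ≤ C * EE a * ex a b.2 := fun b => by
    rw [norm_mul]
    have := (hp (ng b)).trans ((one_mul _).le.trans (kerj_le_one h0.le _))
    exact (mul_le_of_le_one_left (norm_nonneg _) this).trans (kerj_ap h0 h hq b).2
  exact ⟨.of_norm_bounded (hs.mul_left _) k, tsum_of_norm_bounded (hs.hasSum.mul_left _) k⟩

theorem kerj_add {a C C' : ℝ} {S S' T : Idx → Idx → ℂ} (h0 : 0 < a) (h : Crude a C S)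
    (h' : Crude a C' S') (e : ∀ b c, T b c = S b c + S' b c) {p q : Idx → ℂ}
    (hp : Dk a 1 p) (hq : Dk a 1 q) : Bf p (Sap T q) = Bf p (Sap S q) + Bf p (Sap S' q) := by
  have k : ∀ b, Sap T q b = Sap S q b + Sap S' q b := fun b => by
    simp only [Sap, e, add_mul]
    exact (kerj_ap h0 h hq b).1.tsum_add (kerj_ap h0 h' hq b).1
  simp only [Bf, k, mul_add]
  exact (kerj_bf h0 h hp hq).1.tsum_add (kerj_bf h0 h' hp hq).1

theorem kerj_fPQ {a a' C : ℝ} (h0 : 0 < a') (ha : a' < a) (hC : 0 ≤ C) : ∃ D ≥ 0,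
    ∀ (S : Idx → Idx → ℂ) (p q : Idx → ℂ), Crude a C S → Dk a 1 p → Dk a 1 q → ∀ j k,
      ‖fPQ S p q j k‖ ≤ D * ex a' k := by
  obtain ⟨K, K0, hK⟩ := br_pow_ex_le (η := a) (η' := (a + a') / 2) (by linarith) 1
  obtain ⟨L, L0, hL⟩ := conv_ex_bound (η := (a + a') / 2) (η' := a') h0.le (by linarith)
  have E0 : 0 ≤ EE a := tsum_nonneg fun c => (ex_pos _ _).le
  have hb : ∀ k : ℤ, |(k : ℝ)| ≤ br k := fun k => by unfold br; linarith
  refine ⟨2 * (L * K * ((1 + C * EE a) * K)), by positivity, fun S p q hS hp hq j k => ?_⟩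
  have d1 : ∀ p : Idx → ℂ, Dk a 1 p → ∀ k, ‖dS (cp p j) k‖ ≤ K * ex ((a + a') / 2) k := by
    intro p hp k
    refine le_trans ?_ (hK k)
    rw [dS, norm_mul, norm_mul, norm_I, one_mul, norm_intCast, pow_one]
    exact mul_le_mul (hb k) ((hp (j, k)).trans_eq (one_mul _)) (norm_nonneg _) (br_pos k).le
  have d2 : ∀ p : Idx → ℂ, Dk a 1 p → ∀ k,
      ‖cp (Tm S p) j k‖ ≤ (1 + C * EE a) * K * ex ((a + a') / 2) k := by
    intro p hp k
    have t1 : ‖((|k| : ℤ) : ℂ) * p (j, k)‖ ≤ br k * ex a k := by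
      rw [norm_mul, norm_intCast, Int.cast_abs, abs_abs]
      exact mul_le_mul (hb k) ((hp (j, k)).trans_eq (one_mul _)) (norm_nonneg _) (br_pos k).le
    have t2 : ‖Sap S p (j, k)‖ ≤ C * EE a * (br k * ex a k) :=
      (kerj_ap (h0.trans ha) hS hp (j, k)).2.trans (mul_le_mul_of_nonneg_left
        (le_mul_of_one_le_left (ex_pos _ _).le (one_le_br k)) (by positivity))
    have t3 := hK k
    rw [pow_one] at t3
    calc _ ≤ br k * ex a k + C * EE a * (br k * ex a k) :=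
          (norm_add_le _ _).trans (add_le_add t1 t2)
      _ = (1 + C * EE a) * (br k * ex a k) := by ring
      _ ≤ (1 + C * EE a) * (K * ex ((a + a') / 2) k) :=
          mul_le_mul_of_nonneg_left t3 (by positivity)
      _ = _ := by ring
  have m : ∀ k, ex ((a + a') / 2) k ≤ ex a' k := kerj_mono (by linarith)
  have c1 := (hL _ _ _ _ (d1 p hp) (fun k => (d2 q hq k).trans
    (mul_le_mul_of_nonneg_left (m k) (by positivity))) k).2
  have c2 := (hL _ _ _ _ (d2 p hp) (fun k => (d1 q hq k).trans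
    (mul_le_mul_of_nonneg_left (m k) K0.le)) k).2
  refine (norm_add_le _ _).trans ((add_le_add c1 c2).trans_eq ?_)
  ring

theorem kerj_wn {η : Pos} (w : V η) {a : ℝ} (h : 0 < a) :
    wn a w = ∑ j, ∑' k, ‖(w j).coeff k‖ * ex a k := by
  have s : Summable fun b : Idx => ‖(w b.1).coeff b.2‖ * ex a b.2 :=
    (summable_prod_of_nonneg fun b => mul_nonneg (norm_nonneg _) (ex_pos _ _).le).2
      ⟨fun j => kerj_w (w j) h, Summable.of_finite⟩
  rw [wn, s.tsum_prod, tsum_fintype]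

/-- `v` direction: `Smat_comm` and `xi_pair`; `H` direction: Cauchy estimate on the disc of
radius `1/2` with the bound `Smat_row` -/
theorem Smat_ins {B : Base} {C0 : ℝ} (hB : BaseOK B C0) {η : Pos} (hη : 12 * η.1 ≤ B.η0) : ∃ C ≥ 1,
    ∀ z ∈ dom B η (δK B η), ‖z.2 - B.H0‖ ≤ 1 / 2 → ∀ (w : V η × ℂ) (p q : Idx → ℂ),
    Dk (7 / 8 * η.1) 1 p → Dk (7 / 8 * η.1) 1 q →
    ‖Bf p (Sap (dSm B z w) q)‖ ≤ C * (wn (3 / 4 * η.1) w.1 + ‖w.2‖) := by
  have h0 := η.2
  have ha : 0 < 7 / 8 * η.1 := by positivity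
  obtain ⟨C, hC, hcr, -⟩ := Smat_row hB hη
  obtain ⟨X, hX, hxi⟩ := xi_pair η
  obtain ⟨D, hD, hf⟩ := kerj_fPQ (a := 7 / 8 * η.1) (a' := 3 / 4 * η.1) (C := C)
    (by positivity) (by linarith) (by linarith)
  have E0 : 0 ≤ EE (7 / 8 * η.1) := tsum_nonneg fun c => (ex_pos _ _).le
  have c1 : 0 ≤ X * D := by positivity
  have c2 : 0 ≤ 2 * C * EE (7 / 8 * η.1) * EE (7 / 8 * η.1) := by positivity
  refine ⟨1 + X * D + 2 * C * EE (7 / 8 * η.1) * EE (7 / 8 * η.1), by linarith,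
    fun z hz hH w p q hp hq => ?_⟩
  have ho : IsOpen (dom B η (δK B η)) := isOpen_ball.prod isOpen_ball
  obtain ⟨r, r0, hr⟩ := Metric.isOpen_iff.1 ho z hz
  have s1 : Crude (7 / 8 * η.1) (C / r * ‖((w.1, 0) : V η × ℂ)‖) (dSm B z (w.1, 0)) := fun b c => by
    have := cauchy_fderiv r0 ((Smat_diff hB hη b c).mono hr) fun y hy => hcr y (hr hy) b c
    refine (ContinuousLinearMap.le_opNorm _ _).trans
      ((mul_le_mul_of_nonneg_right this (norm_nonneg _)).trans_eq ?_)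
    ring
  have s2 : Crude (7 / 8 * η.1) (2 * C * ‖w.2‖) (dSm B z (0, w.2)) := fun b c => by
    have hm : ∀ H ∈ ball z.2 (1 / 2), (z.1, H) ∈ dom B η (δK B η) := fun H k => ⟨hz.1, by
      rw [mem_ball_iff_norm] at k ⊢
      linarith [norm_sub_le_norm_sub_add_norm_sub H z.2 (B.H0 : ℂ)]⟩
    have hd : DifferentiableOn ℂ (fun H => Smat B (z.1, H) b c) (ball z.2 (1 / 2)) :=
      (Smat_diff hB hη b c).comp ((differentiableOn_const _).prodMk differentiableOn_id) hm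
    have := cauchy_fderiv (by norm_num) hd fun H k => hcr _ (hm H k) b c
    have e : fderiv ℂ (fun H => Smat B (z.1, H) b c) z.2 =
        (fderiv ℂ (fun z => Smat B z b c) z).comp (ContinuousLinearMap.inr ℂ (V η) ℂ) := by
      have g1 : HasFDerivAt (fun z => Smat B z b c) (fderiv ℂ (fun z => Smat B z b c) z)
          ((fun H : ℂ => (z.1, H)) z.2) :=
        ((Smat_diff hB hη b c).differentiableAt (ho.mem_nhds hz)).hasFDerivAt
      exact (g1.comp z.2 (hasFDerivAt_prodMk_right z.1 z.2)).fderiv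
    have e' : dSm B z (0, w.2) b c = fderiv ℂ (fun H => Smat B (z.1, H) b c) z.2 w.2 := by
      rw [e]; rfl
    rw [e']
    refine (ContinuousLinearMap.le_opNorm _ _).trans
      ((mul_le_mul_of_nonneg_right this (norm_nonneg _)).trans_eq ?_)
    ring
  have e : ∀ b c, dSm B z w b c = dSm B z (w.1, 0) b c + dSm B z (0, w.2) b c := fun b c => by
    simp only [dSm, ← map_add, Prod.mk_add_mk, add_zero, zero_add]
  have b2 := (kerj_bf ha s2 hp hq).2
  have b1 : ‖Bf p (Sap (dSm B z (w.1, 0)) q)‖ ≤ X * D * wn (3 / 4 * η.1) w.1 := by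
    rw [Smat_comm hB hη z hz w.1 p q 1 1 hp hq, norm_neg, kerj_wn _ (by positivity), Finset.mul_sum]
    refine norm_sum_le_of_le _ fun j _ => hxi _ _ ?_ _ _ (hf _ p q (hcr z hz) hp hq j)
    have k1 : ‖z.1‖ < δK B η := mem_ball_zero_iff.1 hz.1
    have k2 : δK B η ≤ 1 / K2 η := (min_le_right _ _).trans (min_le_left _ _)
    have k3 : 1 / K2 η ≤ 1 := div_le_one_of_le₀ (one_le_K2 η) (by linarith [one_le_K2 η])
    linarith [norm_le_pi_norm z.1 j]
  have w0 : 0 ≤ wn (3 / 4 * η.1) w.1 :=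
    tsum_nonneg fun b => mul_nonneg (norm_nonneg _) (ex_pos _ _).le
  rw [kerj_add ha s1 s2 e hp hq]
  refine (norm_add_le _ _).trans ((add_le_add b1 b2).trans ?_)
  have := norm_nonneg w.2
  nlinarith [mul_nonneg c1 this, mul_nonneg c2 w0]

end StekIso
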