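import Pool.Agent.Lib.MP_fa022d_an.KerF
import Pool.Agent.Lib.MP_fa022d_an.Hol2
import Pool.Agent.Lib.MP_fa022d_an.KerJ
import Pool.Agent.Lib.MP_fa022d_an.Hol

open Set Filter Topology Metric BoundedContinuousFunction Complex

noncomputable section
namespace StekIso

theorem kerk_re {η : ℝ} (hη : 0 < η) (s : ℝ) : (s : ℂ) ∈ strip η := by simpa [strip] using hη

theorem kerk_cont {η : ℝ} (hη : 0 < η) {f : ℂ → ℂ} (hf : DifferentiableOn ℂ f (strip η)) :
    Continuous fun s : ℝ => f s :=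
  hf.continuousOn.comp_continuous continuous_ofReal (kerk_re hη)

theorem kerk_fc0 (f : ℝ → ℂ) :
    fc f 0 = (1 / (2 * Real.pi) : ℂ) * ∫ s in (0 : ℝ)..2 * Real.pi, f s := by simp [fc]

theorem kerk_per (c : ℤ → ℂ) (s : ℂ) : fs c (s + 2 * Real.pi) = fs c s :=
  tsum_congr fun k => by rw [four2_per]

theorem kerk_dper {η : ℝ} {f : ℂ → ℂ} {c : ℂ}
    (h : ∀ s ∈ strip η, f (s + 2 * Real.pi) = f s + c) :
    ∀ s ∈ strip η, deriv f (s + 2 * Real.pi) = deriv f s := fun s hs => by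
  have e : (fun s => f (s + 2 * Real.pi)) =ᶠ[𝓝 s] fun s => f s + c :=
    eventually_of_mem ((isOpen_strip η).mem_nhds hs) h
  rw [← deriv_comp_add_const, e.deriv_eq, deriv_add_const]

theorem kerk_ex {η : ℝ} (hη : 0 ≤ η) (k : ℤ) : ex η k ≤ 1 :=
  Real.exp_le_one_iff.2 (by nlinarith [abs_nonneg (k : ℝ)])

theorem kerk_co {η : Pos} (w : A1 η) (k : ℤ) :
    br k * ‖w.coeff k‖ ≤ ‖w‖ / 128 * (1 / br k ^ 2) ∧ ‖w.coeff k‖ ≤ ‖w‖ / 128 * ex η.1 k := by
  have h := norm_coeff1_le w k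
  have b := one_le_br k
  have e := kerk_ex η.2.le k
  have e0 := ex_pos η.1 k
  have n : 0 ≤ ‖w‖ / 128 := by positivity
  constructor
  · refine (mul_le_mul_of_nonneg_left h (br_pos k).le).trans ?_
    rw [mul_left_comm]
    refine mul_le_mul_of_nonneg_left ?_ n
    rw [beta, ← mul_div_assoc, div_le_div_iff₀ (by positivity) (by positivity)]
    have : br k ^ 3 ≤ br k ^ 4 := pow_le_pow_right₀ b (by norm_num)
    have : 0 < br k ^ 3 := by positivity
    nlinarith
  · exact h.trans (mul_le_mul_of_nonneg_left (div_le_self e0.le (one_le_pow₀ b)) n)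

theorem kerk_dS (c : ℤ → ℂ) (k : ℤ) : ‖dS c k‖ ≤ br k * ‖c k‖ ∧ ‖c k‖ ≤ br k * ‖c k‖ := by
  have := norm_nonneg (c k)
  refine ⟨?_, le_mul_of_one_le_left this (one_le_br k)⟩
  simp only [dS, norm_mul, norm_I, one_mul, norm_intCast, br]
  nlinarith

theorem kerk_sum {η : Pos} (w : A1 η) {c : ℤ → ℂ} (h : ∀ k, ‖c k‖ ≤ br k * ‖w.coeff k‖) :
    Summable fun k => ‖c k‖ :=
  .of_nonneg_of_le (fun _ => norm_nonneg _) (fun k => (h k).trans (kerk_co w k).1)
    (ev_summ_br.mul_left _)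

theorem kerk_sumw {η : Pos} (w : A1 η) : Summable fun k => ‖w.coeff k‖ * ex (3 / 4 * η.1) k :=
  .of_nonneg_of_le (fun k => mul_nonneg (norm_nonneg _) (ex_pos _ _).le)
    (fun k => mul_le_of_le_one_right (norm_nonneg _) (kerk_ex (by linarith [η.2]) k))
    (kerk_sum w fun k => (kerk_dS _ k).2)

/-- pairing with an analytic function -/
theorem kerk_pair (η : Pos) : ∃ K : ℝ, 0 < K ∧ ∀ (a : ℂ → ℂ) (M : ℝ),
    DifferentiableOn ℂ a (strip η.1) → (∀ s ∈ strip η.1, a (s + 2 * Real.pi) = a s) →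
    (∀ s ∈ strip η.1, ‖a s‖ ≤ M) → ∀ (w : A1 η) (c : ℤ → ℂ),
    (∀ k, ‖c k‖ ≤ br k * ‖w.coeff k‖) →
    ‖fc (fun s => fs c s * a s) 0‖ ≤ K * M * ∑' k, ‖w.coeff k‖ * ex (3 / 4 * η.1) k := by
  obtain ⟨K, K0, hK⟩ := br_pow_ex_le (η := η.1) (η' := 3 / 4 * η.1) (by linarith [η.2]) 1
  refine ⟨K, K0, fun a M ha hp hM w c hc => ?_⟩
  have d := fc_decay η.2 ha hp hM
  have M0 : 0 ≤ M := (norm_nonneg _).trans (hM _ (kerk_re η.2 0))
  have sd : Summable fun k => ‖fc (fun s => a s) k‖ :=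
    .of_nonneg_of_le (fun _ => norm_nonneg _) d
      (((summable_ex η.2 0).congr fun k => by simp).mul_left M)
  have e : ∀ s : ℝ, a s = fs (fc fun s => a s) s := fun s =>
    (fs_fc (kerk_cont η.2 ha) (fun s => by simpa using hp _ (kerk_re η.2 s)) sd s).symm
  rw [show (fun s : ℝ => fs c s * a s) = fun s : ℝ => fs c s * fs (fc fun s => a s) s from
    funext fun s => by rw [← e], fc_mul (kerk_sum w hc) sd, ← tsum_mul_left]
  refine tsum_of_norm_bounded ((kerk_sumw w).mul_left _).hasSum fun k => ?_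
  have d' := d (0 - k)
  rw [show ex η.1 (0 - k) = ex η.1 k by simp [ex]] at d'
  have h1 := hK k
  rw [pow_one] at h1
  calc _ ≤ br k * ‖w.coeff k‖ * (M * ex η.1 k) := by
        rw [norm_mul]
        exact mul_le_mul (hc k) d' (norm_nonneg _) (mul_nonneg (br_pos k).le (norm_nonneg _))
    _ = M * ‖w.coeff k‖ * (br k * ex η.1 k) := by ring
    _ ≤ M * ‖w.coeff k‖ * (K * ex (3 / 4 * η.1) k) :=
        mul_le_mul_of_nonneg_left h1 (mul_nonneg M0 (norm_nonneg _))
    _ = _ := by ring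

/-- evaluation of the derivative -/
theorem kerk_ev {η : Pos} (s : ℝ) : ∃ χ : A1 η →L[ℂ] ℂ, ∀ v, χ v = fs (dS v.coeff) s := by
  have sm : ∀ v : A1 η, Summable fun k : ℤ => dS v.coeff k * exp (I * k * s) := fun v =>
    (four1_sum (kerk_sum v fun k => (kerk_dS _ k).1) s).of_norm
  refine ⟨LinearMap.mkContinuous
    { toFun := fun v => fs (dS v.coeff) s
      map_add' := fun a b => ?_
      map_smul' := fun c a => ?_ } (4 / 128) fun v => ?_, fun _ => rfl⟩
  · rw [fs, fs, fs, ← (sm a).tsum_add (sm b)]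
    exact tsum_congr fun k => by simp only [dS, WAlg.coeff_add]; ring
  · rw [fs, fs, RingHom.id_apply, smul_eq_mul, ← tsum_mul_left]
    exact tsum_congr fun k => by simp only [dS, WAlg.coeff_smul]; ring
  · have := (fs_beta_bound η.2 (norm_coeff1_le v) (s := s) (by simpa using η.2.le)).2.1
    exact this.trans (le_of_eq (by ring))

theorem kerk_fs {η : Pos} (v : A1 η) : DifferentiableOn ℂ (fs v.coeff) (strip η.1) ∧
    DifferentiableOn ℂ (fs (dS v.coeff)) (strip η.1) := by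
  obtain ⟨a, b, -⟩ := fs_diff η.2 fun k => (kerk_co v k).2
  exact ⟨a, (a.deriv (isOpen_strip _)).congr fun s hs => (b s hs).deriv.symm⟩

theorem kerk_log {m : ℝ} (hm : 0 < m) (M : ℝ) :
    ∃ L, 0 ≤ L ∧ ∀ z : ℂ, m ≤ z.re → ‖z‖ ≤ M → ‖log z‖ ≤ L := by
  have c : IsCompact (closedBall (0 : ℂ) M ∩ {z | m ≤ z.re}) :=
    (isCompact_closedBall _ _).inter_right (isClosed_le continuous_const continuous_re)
  obtain ⟨L, hL⟩ := c.exists_bound_of_continuousOn (f := log) fun z hz =>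
    (continuousAt_clog (.inl (hm.trans_le hz.2))).continuousWithinAt
  exact ⟨max L 0, le_max_right _ _, fun z a b =>
    (hL z ⟨by simpa using b, a⟩).trans (le_max_left _ _)⟩

/-- one of the two integrals -/
def kerkH (B : Base) {η : Pos} (j : Bool) (v : V η) : ℂ :=
  fc (fun s => deriv (thOf B v j) s * log (deriv (thOf B v j) s)) 0

theorem kerk_main {B : Base} {η : Pos} (hη : 12 * η.1 ≤ B.η0) (j : Bool) : ∃ C, 0 ≤ C ∧
    DifferentiableOn ℂ (kerkH B j) (ball (0 : V η) (δK B η)) ∧ ∀ v : V η, ‖v‖ < δK B η →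
      ‖kerkH B j v‖ ≤ C ∧ ∀ w, ‖fderiv ℂ (kerkH B j) v w‖ ≤
        C * ∑' k, ‖(w j).coeff k‖ * ex (3 / 4 * η.1) k := by
  obtain ⟨L, L0, hL⟩ := kerk_log (half_pos B.m_pos) (2 * B.M)
  obtain ⟨K, K0, hK⟩ := kerk_pair η
  have η0 := B.η0_pos
  have cm := B.cm j
  have M0 : 0 ≤ B.M := (norm_nonneg _).trans (cm.hi _ (kerk_re η0 0))
  set P := deriv (B.θ j)
  have sub : strip (B.η0 / 6) ⊆ strip B.η0 := fun s (hs : |s.im| < _) =>
    (by linarith : |s.im| < B.η0)
  have dP : DifferentiableOn ℂ P (strip B.η0) := cm.diff.deriv (isOpen_strip _)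
  have dP' : DifferentiableOn ℂ (deriv P) (strip B.η0) := dP.deriv (isOpen_strip _)
  have pP := kerk_dper cm.per
  have pP' := kerk_dper (f := P) (c := 0) fun s hs => by rw [add_zero]; exact pP s hs
  have bP' : ∀ s ∈ strip (B.η0 / 6), ‖deriv P s‖ ≤ B.M / (B.η0 / 2) := fun s hs => by
    have : ball s (B.η0 / 2) ⊆ strip B.η0 := fun y hy => by
      have a : |(y - s).im| < B.η0 / 2 := (abs_im_le_norm _).trans_lt (mem_ball_iff_norm.1 hy)
      have b : |s.im| < B.η0 / 6 := hs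
      have c := abs_add_le (y - s).im s.im
      rw [← add_im, sub_add_cancel] at c
      change |y.im| < B.η0
      linarith
    rw [norm_deriv_eq_norm_fderiv]
    exact cauchy_fderiv (half_pos η0) (dP.mono this) fun y hy => cm.hi y (this hy)
  have T := fun (v : V η) (hv : v ∈ ball (0 : V η) (δK B η)) =>
    thOf_basic hη v (mem_ball_zero_iff.1 hv) j
  have sl : ∀ v ∈ ball (0 : V η) (δK B η), ∀ s ∈ strip η.1, deriv (thOf B v j) s ∈ slitPlane :=
    fun v hv s hs => .inl ((half_pos B.m_pos).trans_le ((T v hv).2 s hs).2.2.1)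
  have bL : ∀ v ∈ ball (0 : V η) (δK B η), ∀ s ∈ strip η.1, ‖log (deriv (thOf B v j) s)‖ ≤ L :=
    fun v hv s hs => hL _ ((T v hv).2 s hs).2.2.1 ((T v hv).2 s hs).2.2.2.1
  have dD : ∀ v ∈ ball (0 : V η) (δK B η), DifferentiableOn ℂ (deriv (thOf B v j)) (strip η.1) :=
    fun v hv => (T v hv).1.deriv (isOpen_strip _)
  have bF : ∀ v ∈ ball (0 : V η) (δK B η), ∀ s : ℝ,
      ‖deriv (thOf B v j) s * log (deriv (thOf B v j) s)‖ ≤ 2 * B.M * L := fun v hv s => by
    rw [norm_mul]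
    exact mul_le_mul ((T v hv).2 s (kerk_re η.2 s)).2.2.2.1 (bL v hv s (kerk_re η.2 s))
      (norm_nonneg _) (by positivity)
  have hF : ∀ s : ℝ, ∀ v ∈ ball (0 : V η) (δK B η), ∃ D : V η →L[ℂ] ℂ,
      HasFDerivAt (fun v : V η => deriv (thOf B v j) s * log (deriv (thOf B v j) s)) D v ∧
      ∀ w, D w = fs (dS (w j).coeff) s *
          (P (s + fs (v j).coeff s) * (log (deriv (thOf B v j) s) + 1)) + fs (w j).coeff s *
          ((1 + fs (dS (v j).coeff) s) * deriv P (s + fs (v j).coeff s) *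
            (log (deriv (thOf B v j) s) + 1)) := fun s v hv => by
    obtain ⟨χ, hχ, -⟩ := exists_ev1 (η := η) (s := s) (by simpa using η.2.le)
    obtain ⟨χ', hχ'⟩ := kerk_ev (η := η) s
    let π : V η →L[ℂ] A1 η := ContinuousLinearMap.proj j
    have t := (T v hv).2 s (kerk_re η.2 s)
    have h1 : HasFDerivAt (fun v : V η => s + χ (v j)) (χ.comp π) v :=
      (χ.comp π).hasFDerivAt.const_add _
    have h3 : HasFDerivAt (fun v : V η => 1 + χ' (v j)) (χ'.comp π) v :=
      (χ'.comp π).hasFDerivAt.const_add _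
    have hP : HasDerivAt P (deriv P (s + χ (v j))) (s + χ (v j)) := by
      rw [hχ]
      exact (dP.differentiableAt ((isOpen_strip _).mem_nhds (sub t.1))).hasDerivAt
    have h4 := ((hP.comp_hasFDerivAt v h1).mul h3).congr_of_eventuallyEq
      (f₁ := fun v : V η => deriv (thOf B v j) s) (by
        filter_upwards [isOpen_ball.mem_nhds hv] with u hu
        rw [((T u hu).2 s (kerk_re η.2 s)).2.1, ← hχ, ← hχ']
        rfl)
    have h5 : HasDerivAt (fun z : ℂ => z * log z) (log (deriv (thOf B v j) s) + 1)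
        (deriv (thOf B v j) s) := by
      have z := sl v hv s (kerk_re η.2 s)
      exact ((hasDerivAt_id' _).mul (hasDerivAt_log z)).congr_deriv
        (by rw [mul_inv_cancel₀ (slitPlane_ne_zero z), one_mul])
    have h6 := h5.comp_hasFDerivAt v h4
    refine ⟨_, h6, fun w => ?_⟩
    simp only [_root_.smul_apply, _root_.add_apply, smul_eq_mul,
      ContinuousLinearMap.comp_apply, Function.comp_apply, π, ContinuousLinearMap.proj_apply, hχ,
      hχ']
    ring
  obtain ⟨d1, d2⟩ := diffOn_integral (U := ball (0 : V η) (δK B η)) isOpen_ball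
    (f := fun v s => deriv (thOf B v j) s * log (deriv (thOf B v j) s)) (a := 0)
    (b := 2 * Real.pi) (M := 2 * B.M * L)
    (fun s _ v hv => (hF s v hv).choose_spec.1.differentiableAt.differentiableWithinAt)
    (fun v hv => (kerk_cont η.2 ((dD v hv).mul ((dD v hv).clog (sl v hv)))).continuousOn)
    fun v hv s _ => bF v hv s
  have eH : kerkH B j = fun v : V η => (1 / (2 * Real.pi) : ℂ) * ∫ s in (0 : ℝ)..2 * Real.pi,
      deriv (thOf B v j) s * log (deriv (thOf B v j) s) := funext fun v => kerk_fc0 _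
  refine ⟨2 * B.M * L + (K * (B.M * (L + 1)) + K * (2 * (B.M / (B.η0 / 2)) * (L + 1))),
    by positivity, eH ▸ d1.const_mul _, fun v hv' => ?_⟩
  have hv := mem_ball_zero_iff.2 hv'
  refine ⟨(norm_fc_le (bF v hv) 0).trans (le_add_of_nonneg_right (by positivity)), fun w => ?_⟩
  have t := (T v hv).2
  have dψ : DifferentiableOn ℂ (fun s => s + fs (v j).coeff s) (strip η.1) :=
    differentiableOn_id.add (kerk_fs _).1
  have dL := ((dD v hv).clog (sl v hv)).add_const 1
  have da := (dP.comp dψ fun s hs => sub (t s hs).1).mul dL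
  have db := (((kerk_fs (v j)).2.const_add 1).mul (dP'.comp dψ fun s hs => sub (t s hs).1)).mul dL
  have pψ : ∀ s : ℂ, s + 2 * Real.pi + fs (v j).coeff (s + 2 * Real.pi) =
      s + fs (v j).coeff s + 2 * Real.pi := fun s => by rw [kerk_per]; ring
  have pD := kerk_dper fun s hs => (t s hs).2.2.2.2
  have bL1 : ∀ s ∈ strip η.1, ‖log (deriv (thOf B v j) s) + 1‖ ≤ L + 1 := fun s hs =>
    (norm_add_le _ _).trans (by rw [norm_one]; linarith [bL v hv s hs])
  have b2 : ∀ s ∈ strip η.1, ‖1 + fs (dS (v j).coeff) s‖ ≤ 2 := fun s hs => by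
    have a := (fs_beta_bound η.2 (norm_coeff1_le (v j)) (s := s) (le_of_lt hs)).2.1
    have b := norm_le_pi_norm v j
    have c : δK B η ≤ 1 / K2 η := (min_le_right _ _).trans (min_le_left _ _)
    have d : 1 / K2 η ≤ 1 := div_le_self zero_le_one (one_le_K2 η)
    exact (norm_add_le _ _).trans (by rw [norm_one]; linarith)
  have A := hK _ (B.M * (L + 1)) da
    (fun s hs => by
      simp only [Pi.mul_apply, Function.comp_apply, pψ, pD s hs, P, pP _ (sub (t s hs).1)])
    (fun s hs => (norm_mul_le _ _).trans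
      (mul_le_mul (cm.hi _ (sub (t s hs).1)) (bL1 s hs) (norm_nonneg _) M0))
    (w j) _ fun k => (kerk_dS _ k).1
  have A' := hK _ (2 * (B.M / (B.η0 / 2)) * (L + 1)) db
    (fun s hs => by
      simp only [Pi.mul_apply, Function.comp_apply, pψ, pD s hs, pP' _ (sub (t s hs).1),
        kerk_per (dS _)])
    (fun s hs => (norm_mul_le _ _).trans (mul_le_mul ((norm_mul_le _ _).trans
      (mul_le_mul (b2 s hs) (bP' _ (t s hs).1) (norm_nonneg _) zero_le_two)) (bL1 s hs)
      (norm_nonneg _) (by positivity)))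
    (w j) _ fun k => (kerk_dS _ k).2
  have S0 : 0 ≤ ∑' k, ‖(w j).coeff k‖ * ex (3 / 4 * η.1) k :=
    tsum_nonneg fun k => mul_nonneg (norm_nonneg _) (ex_pos _ _).le
  have iA := intervalIntegral.integral_add (μ := MeasureTheory.volume)
    ((kerk_cont η.2 ((kerk_fs (w j)).2.mul da)).intervalIntegrable 0 (2 * Real.pi))
    ((kerk_cont η.2 ((kerk_fs (w j)).1.mul db)).intervalIntegrable 0 (2 * Real.pi))
  simp only [Pi.mul_apply, Function.comp_apply] at iA
  rw [eH, fderiv_const_mul (d1.differentiableAt (isOpen_ball.mem_nhds hv)),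
    _root_.smul_apply, (d2 v hv w).2, smul_eq_mul,
    intervalIntegral.integral_congr fun s _ =>
      (congrArg (· w) (hF s v hv).choose_spec.1.fderiv).trans ((hF s v hv).choose_spec.2 w),
    iA, mul_add, ← kerk_fc0, ← kerk_fc0]
  refine (norm_add_le _ _).trans ((add_le_add A A').trans ?_)
  have : 0 ≤ 2 * B.M * L := by positivity
  nlinarith

theorem kerk_real {B : Base} {η : Pos} (hη : 12 * η.1 ≤ B.η0) (j : Bool) (v : V η)
    (hv : ‖v‖ < δK B η) (r : RealV v) : (kerkH B j v).im = 0 := by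
  have cm := thOf_cmap hη v hv r j
  have e : ∀ s : ℝ, (starRingEnd ℂ) (deriv (thOf B v j) s * log (deriv (thOf B v j) s)) =
      deriv (thOf B v j) s * log (deriv (thOf B v j) s) := fun s => by
    have h1 := (cm.diff.differentiableAt
      ((isOpen_strip _).mem_nhds (kerk_re η.2 s))).hasDerivAt.comp_ofReal
    have h2 := imCLM.hasFDerivAt.comp_hasDerivAt s h1
    have h3 : (deriv (thOf B v j) s).im = 0 := h2.unique (by
      have : (imCLM ∘ fun y : ℝ => thOf B v j y) = fun _ => 0 := funext cm.real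
      rw [this]
      exact hasDerivAt_const _ _)
    have h4 := (half_pos B.m_pos).le.trans (cm.lo _ (kerk_re η.2 s))
    rw [← conj_eq_iff_re.1 (conj_eq_iff_im.2 h3), ← ofReal_log h4, ← ofReal_mul, conj_ofReal]
  have := fc_conj (fun s : ℝ => deriv (thOf B v j) s * log (deriv (thOf B v j) s)) 0
  simp only [e, neg_zero] at this
  exact conj_eq_iff_im.1 this.symm

/-- `d (θ' log θ') = (ξ θ')' (log θ' + 1)`, integrate by parts: `-∫ ξ θ''` -/
theorem Hof_ok {B : Base} {η : Pos} (hη : 12 * η.1 ≤ B.η0) : ∃ C ≥ 1,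
    DifferentiableOn ℂ (Hof B) (ball (0 : V η) (δK B η) ×ˢ univ) ∧
    (∀ v : V η, ‖v‖ < δK B η → ∀ lam w,
      ‖fderiv ℂ (Hof B) (v, lam) (w, 0)‖ ≤ C * wn (3 / 4 * η.1) w) ∧
    (∀ v : V η, ‖v‖ < δK B η → ∀ lam, ‖Hof B (v, lam) - Hof B ((0 : V η), lam)‖ ≤ C * ‖v‖) ∧
    ∀ v : V η, ‖v‖ < δK B η → RealV v → ∀ lam : ℝ, (Hof B (v, (lam : ℂ))).im = 0 := by
  obtain ⟨C0, p0, d0, b0⟩ := kerk_main hη false
  obtain ⟨C1, p1, d1, b1⟩ := kerk_main hη true
  have e : Hof B = fun z : V η × ℂ => -z.2 + kerkH B false z.1 - kerkH B true z.1 := rfl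
  have q0 : 0 ≤ |2 * C0 / δK B η| := abs_nonneg _
  have q1 : 0 ≤ |2 * C1 / δK B η| := abs_nonneg _
  refine ⟨1 + C0 + C1 + |2 * C0 / δK B η| + |2 * C1 / δK B η|, by linarith, ?_,
    fun v hv lam w => ?_, fun v hv lam => ?_, fun v hv r lam => ?_⟩
  · exact (differentiableOn_snd.neg.add (d0.comp differentiableOn_fst fun _ h => h.1)).sub
      (d1.comp differentiableOn_fst fun _ h => h.1)
  · have m := isOpen_ball.mem_nhds (mem_ball_zero_iff.2 hv)
    have h := ((hasFDerivAt_snd (𝕜 := ℂ) (p := (v, lam))).neg.add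
      ((d0.differentiableAt m).hasFDerivAt.comp (v, lam) hasFDerivAt_fst)).sub
      ((d1.differentiableAt m).hasFDerivAt.comp (v, lam) hasFDerivAt_fst)
    have h' : fderiv ℂ (Hof B) (v, lam) (w, 0) =
        fderiv ℂ (kerkH B false) v w - fderiv ℂ (kerkH B true) v w := by
      rw [show fderiv ℂ (Hof B) (v, lam) = _ from h.fderiv]
      simp
    have nn : ∀ b : Idx, 0 ≤ ‖(w b.1).coeff b.2‖ * ex (3 / 4 * η.1) b.2 := fun b =>
      mul_nonneg (norm_nonneg _) (ex_pos _ _).le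
    have s : Summable fun b : Idx => ‖(w b.1).coeff b.2‖ * ex (3 / 4 * η.1) b.2 :=
      (summable_prod_of_nonneg nn).2 ⟨fun j => kerk_sumw (w j), .of_finite⟩
    have a0 := (b0 v hv).2 w
    have a1 := (b1 v hv).2 w
    have n0 := tsum_nonneg (L := .unconditional _) fun k => nn (false, k)
    have n1 := tsum_nonneg (L := .unconditional _) fun k => nn (true, k)
    rw [h', wn, s.tsum_prod, tsum_bool]
    refine (norm_sub_le _ _).trans ((add_le_add a0 a1).trans ?_)
    simp only at n0 n1 ⊢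
    nlinarith [mul_nonneg q0 n0, mul_nonneg q0 n1, mul_nonneg q1 n0, mul_nonneg q1 n1,
      mul_nonneg p0 n1, mul_nonneg p1 n0]
  · have a0 := Pool.Agent.Lib.MP_fa022d_an.hol_sub_le d0
      (fun u hu => (b0 u (mem_ball_zero_iff.1 hu)).1)
      (mem_ball_zero_iff.2 hv)
    have a1 := Pool.Agent.Lib.MP_fa022d_an.hol_sub_le d1
      (fun u hu => (b1 u (mem_ball_zero_iff.1 hu)).1)
      (mem_ball_zero_iff.2 hv)
    rw [sub_zero] at a0 a1
    have n := norm_nonneg v
    have c0 := mul_le_mul_of_nonneg_right (le_abs_self (2 * C0 / δK B η)) n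
    have c1 := mul_le_mul_of_nonneg_right (le_abs_self (2 * C1 / δK B η)) n
    rw [show Hof B (v, lam) - Hof B ((0 : V η), lam) = (kerkH B false v - kerkH B false 0) -
      (kerkH B true v - kerkH B true 0) by rw [e]; ring]
    refine (norm_sub_le _ _).trans ?_
    nlinarith [mul_nonneg p0 n, mul_nonneg p1 n]
  · simp [e, kerk_real hη _ v hv r]

end StekIso
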