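import Pool.Agent.Lib.MP_fa022d_an.Defs6
import Pool.Agent.Lib.MP_fa022d_an.KerK

open Set Filter Topology Metric BoundedContinuousFunction Complex

noncomputable section
namespace StekIso

theorem curva_add {f g : ℝ → ℂ} (hf : Continuous f) (hg : Continuous g) (k : ℤ) :
    fc (fun s => -f s + g s) k = -fc f k + fc g k := by
  have e : Continuous fun s : ℝ => exp (-(I * k * s)) := by fun_prop
  simp only [fc, add_mul, neg_mul]
  rw [intervalIntegral.integral_add ((hf.fun_mul e).fun_neg.intervalIntegrable _ _)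
    ((hg.fun_mul e).intervalIntegrable _ _), intervalIntegral.integral_neg]
  ring

theorem curva_der {η : ℝ} (hη : 0 < η) {f : ℂ → ℂ} (hf : DifferentiableOn ℂ f (strip η))
    (hp : ∀ s ∈ strip η, f (s + 2 * Real.pi) = f s) (k : ℤ) :
    fc (fun s => deriv f s) k = dS (fc fun s => f s) k :=
  fc_deriv (f := fun s => f s) (fun s => (hf.differentiableAt ((isOpen_strip _).mem_nhds
    (kerk_re hη s))).hasDerivAt.comp_ofReal) (kerk_cont hη (hf.deriv (isOpen_strip _)))
    (by simpa using hp _ (kerk_re hη 0)) k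

theorem curva_mul {η : ℝ} (hη : 0 < η) {f g : ℂ → ℂ} (hf : DifferentiableOn ℂ f (strip η))
    (hp : ∀ s ∈ strip η, f (s + 2 * Real.pi) = f s) (hg : DifferentiableOn ℂ g (strip η))
    (hq : ∀ s ∈ strip η, g (s + 2 * Real.pi) = g s) (k : ℤ) :
    fc (fun s => f s * g s) k = conv (fc fun s => f s) (fc fun s => g s) k := by
  rw [four3_strip] at hf hp hg hq
  have m : ∀ s : ℝ, (s : ℂ).im ∈ Ioo (-η) η := fun s => by simpa using hη
  have a := fun s : ℝ => fs_fc_strip (neg_neg_of_pos hη) hη hf hp (m s)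
  have b := fun s : ℝ => fs_fc_strip (neg_neg_of_pos hη) hη hg hq (m s)
  rw [← fc_mul (by simpa using (a 0).1) (by simpa using (b 0).1)]
  simp only [fun s => (a s).2, fun s => (b s).2]

/-- the vector field -/
def curvaX {η : Pos} (v w : A1 η) (s : ℂ) : ℂ := fs w.coeff s / (1 + fs (dS v.coeff) s)

theorem curva_ne {η : Pos} {v : A1 η} (hv : ‖v‖ ≤ 1) {s : ℂ} (hs : s ∈ strip η.1) :
    1 + fs (dS v.coeff) s ≠ 0 := fun e => by
  have := (kerf_fs v hs).2
  rw [eq_neg_of_add_eq_zero_right e, norm_neg, norm_one] at this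
  linarith

theorem curva_pt {B : Base} {η : Pos} (hη : 12 * η.1 ≤ B.η0) (j : Bool) (s : ℝ) {v : V η}
    (hv : ‖v‖ < δK B η) : ∃ D : V η →L[ℂ] ℂ,
    HasFDerivAt (fun v : V η => log (deriv (thOf B v j) s)) D v ∧ ∀ w, D w =
      deriv (curvaX (v j) (w j)) s +
        curvaX (v j) (w j) s * deriv (fun s => log (deriv (thOf B v j) s)) s := by
  set P := deriv (B.θ j) with hPd
  have dP : DifferentiableOn ℂ P (strip B.η0) := (B.cm j).diff.deriv (isOpen_strip _)
  obtain ⟨χ, hχ, -⟩ := exists_ev1 (η := η) (s := s) (by simpa using η.2.le)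
  obtain ⟨χ', hχ'⟩ := kerk_ev (η := η) s
  let π : V η →L[ℂ] A1 η := ContinuousLinearMap.proj j
  have hs := kerk_re η.2 s
  have nb := (isOpen_strip η.1).mem_nhds hs
  have t := (thOf_basic hη v hv j).2 s hs
  have sl : deriv (thOf B v j) s ∈ slitPlane := .inl ((half_pos B.m_pos).trans_le t.2.2.1)
  have h1 : HasFDerivAt (fun v : V η => s + χ (v j)) (χ.comp π) v :=
    (χ.comp π).hasFDerivAt.const_add _
  have h3 : HasFDerivAt (fun v : V η => 1 + χ' (v j)) (χ'.comp π) v :=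
    (χ'.comp π).hasFDerivAt.const_add _
  have hP : HasDerivAt P (deriv P (s + fs (v j).coeff s)) (s + fs (v j).coeff s) :=
    (dP.differentiableAt ((isOpen_strip _).mem_nhds (kerf_sub B t.1))).hasDerivAt
  have hP' : HasDerivAt P (deriv P (s + fs (v j).coeff s)) (s + χ (v j)) := by
    rwa [hχ]
  have h4 := ((hP'.comp_hasFDerivAt v h1).mul h3).congr_of_eventuallyEq
    (f₁ := fun v : V η => deriv (thOf B v j) s) (by
      filter_upwards [isOpen_ball.mem_nhds (mem_ball_zero_iff.2 hv)] with u hu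
      rw [((thOf_basic hη u (mem_ball_zero_iff.1 hu) j).2 s hs).2.1, ← hχ, ← hχ']
      rfl)
  have h5 := (hasDerivAt_log sl).comp_hasFDerivAt v h4
  refine ⟨_, h5, fun w => ?_⟩
  have a := fun u : A1 η => (fs_diff η.2 fun k => (kerk_co u k).2).2.1 s hs
  have b := (((kerk_fs (v j)).2.differentiableAt nb).hasDerivAt).const_add 1
  have n1 := curva_ne (kerf_small hv j).2.1 hs
  have c1 : HasDerivAt (curvaX (v j) (w j)) _ s := (a (w j)).div b n1
  have c2 := (((hP.comp (s : ℂ) ((hasDerivAt_id' (s : ℂ)).add (a (v j)))).mul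
    b).congr_of_eventuallyEq (f₁ := deriv (thOf B v j)) (by
      filter_upwards [nb] with y hy
      exact ((thOf_basic hη v hv j).2 y hy).2.1)).clog sl
  have n2 := slitPlane_ne_zero sl
  rw [c1.deriv, c2.deriv]
  rw [t.2.1] at n2 ⊢
  have n3 := left_ne_zero_of_mul n2
  simp only [_root_.smul_apply, _root_.add_apply, smul_eq_mul, curvaX, Pi.add_apply,
    ContinuousLinearMap.comp_apply, Function.comp_apply, π, ContinuousLinearMap.proj_apply, hχ,
    hχ', ← hPd] at n3 ⊢
  field_simp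
  ring

/-- `δ ψ = -ξ' + ξ ψ'` -/
theorem psiC_ok {B : Base} {η : Pos} (hη : 12 * η.1 ≤ B.η0) (Λ : ℝ) : ∃ C ≥ 1, ∀ b : Idx,
    DifferentiableOn ℂ (fun z : V η × ℂ => psiC (thOf B z.1) z.2 b)
      (ball (0 : V η) (δK B η) ×ˢ univ) ∧
    ∀ v : V η, ‖v‖ < δK B η → ∀ lam : ℂ, ‖lam‖ ≤ Λ →
      ‖psiC (thOf B v) lam b‖ ≤ C * ex η.1 b.2 ∧ ∀ w : V η,
      fderiv ℂ (fun z : V η × ℂ => psiC (thOf B z.1) z.2 b) (v, lam) (w, 0) =
        -dS (xiC (v b.1) (w b.1)) b.2 +
          conv (xiC (v b.1) (w b.1)) (dS (cp (psiC (thOf B v) lam) b.1)) b.2 := by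
  obtain ⟨L, L0, hL⟩ := kerk_log (half_pos B.m_pos) (2 * B.M)
  have T := fun (v : V η) (hv : ‖v‖ < δK B η) j => thOf_basic hη v hv j
  have dL : ∀ v : V η, ‖v‖ < δK B η → ∀ j (c : ℂ),
      DifferentiableOn ℂ (fun s => c - log (deriv (thOf B v j) s)) (strip η.1) := fun v hv j c =>
    (((T v hv j).1.deriv (isOpen_strip _)).clog fun s hs =>
      .inl ((half_pos B.m_pos).trans_le ((T v hv j).2 s hs).2.2.1)).const_sub c
  have pL : ∀ v : V η, ‖v‖ < δK B η → ∀ j (c : ℂ), ∀ s ∈ strip η.1,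
      c - log (deriv (thOf B v j) (s + 2 * Real.pi)) = c - log (deriv (thOf B v j) s) :=
    fun v hv j c s hs => by rw [kerk_dper (fun s hs => ((T v hv j).2 s hs).2.2.2.2) s hs]
  have bL : ∀ v : V η, ‖v‖ < δK B η → ∀ (j : Bool) (lam : ℂ), ∀ s ∈ strip η.1,
      ‖(if j then 0 else lam) - log (deriv (thOf B v j) s)‖ ≤ ‖lam‖ + L := fun v hv j lam s hs =>
    (norm_sub_le _ _).trans (add_le_add (by cases j <;> simp)
      (hL _ ((T v hv j).2 s hs).2.2.1 ((T v hv j).2 s hs).2.2.2.1))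
  refine ⟨1 + |Λ| + L, by linarith [abs_nonneg Λ], fun b => ?_⟩
  obtain ⟨j, k⟩ := b
  have hF : ∀ (s : ℝ) (z : V η × ℂ), ‖z.1‖ < δK B η → ∃ D : V η × ℂ →L[ℂ] ℂ,
      HasFDerivAt (fun z : V η × ℂ => ((if j then 0 else z.2) -
        log (deriv (thOf B z.1 j) s)) * exp (-(I * k * s))) D z ∧ ∀ w : V η, D (w, 0) =
      (-deriv (curvaX (z.1 j) (w j)) s + curvaX (z.1 j) (w j) s * deriv (fun s =>
        (if j then 0 else z.2) - log (deriv (thOf B z.1 j) s)) s) * exp (-(I * k * s)) := by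
    intro s z hz
    obtain ⟨D, h1, h2⟩ := curva_pt hη j s hz
    have h3 : HasFDerivAt (fun z : V η × ℂ => if j then (0 : ℂ) else z.2)
        (if j then 0 else ContinuousLinearMap.snd ℂ (V η) ℂ) z := by
      cases j
      exacts [hasFDerivAt_snd, hasFDerivAt_const _ _]
    refine ⟨_, (h3.sub (h1.comp z hasFDerivAt_fst)).mul_const _, fun w => ?_⟩
    rw [deriv_const_sub]
    cases j <;> simp [h2] <;> ring
  have key : ∀ z : V η × ℂ, ‖z.1‖ < δK B η →
      DifferentiableAt ℂ (fun z : V η × ℂ => psiC (thOf B z.1) z.2 (j, k)) z ∧ ∀ w : V η,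
      fderiv ℂ (fun z : V η × ℂ => psiC (thOf B z.1) z.2 (j, k)) z (w, 0) =
        fc (fun s => -deriv (curvaX (z.1 j) (w j)) s + curvaX (z.1 j) (w j) s * deriv (fun s =>
          (if j then 0 else z.2) - log (deriv (thOf B z.1 j) s)) s) k := by
    intro z hz
    have hU : IsOpen (ball (0 : V η) (δK B η) ×ˢ ball (0 : ℂ) (‖z.2‖ + 1)) :=
      isOpen_ball.prod isOpen_ball
    have hm : z ∈ ball (0 : V η) (δK B η) ×ˢ ball (0 : ℂ) (‖z.2‖ + 1) :=
      ⟨mem_ball_zero_iff.2 hz, mem_ball_zero_iff.2 (lt_add_one _)⟩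
    obtain ⟨d1, d2⟩ := diffOn_integral hU (f := fun z s => ((if j then 0 else z.2) -
      log (deriv (thOf B z.1 j) s)) * exp (-(I * k * s))) (a := 0) (b := 2 * Real.pi)
      (M := ‖z.2‖ + 1 + L)
      (fun s _ y hy =>
        (hF s y (mem_ball_zero_iff.1 hy.1)).choose_spec.1.differentiableAt.differentiableWithinAt)
      (fun y hy => ((kerk_cont η.2 (dL y.1 (mem_ball_zero_iff.1 hy.1) j _)).mul
        (by fun_prop)).continuousOn)
      fun y hy s _ => by
        rw [norm_mul, (four1_norm k s).2, mul_one]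
        linarith [bL y.1 (mem_ball_zero_iff.1 hy.1) j y.2 s (kerk_re η.2 s),
          mem_ball_zero_iff.1 hy.2]
    have d3 := d1.differentiableAt (hU.mem_nhds hm)
    refine ⟨d3.const_mul _, fun w => ?_⟩
    simp only [psiC, fc]
    rw [fderiv_const_mul d3, _root_.smul_apply, (d2 z hm (w, 0)).2, smul_eq_mul,
      intervalIntegral.integral_congr fun s _ => (congrArg (· (w, 0))
        (hF s z hz).choose_spec.1.fderiv).trans ((hF s z hz).choose_spec.2 w)]
  refine ⟨fun z hz => (key z (mem_ball_zero_iff.1 hz.1)).1.differentiableWithinAt,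
    fun v hv lam hl => ⟨?_, fun w => ?_⟩⟩
  · refine (fc_decay η.2 (dL v hv j _) (pL v hv j _) (bL v hv j lam) k).trans ?_
    exact mul_le_mul_of_nonneg_right (by linarith [le_abs_self Λ]) (ex_pos _ _).le
  have dX : DifferentiableOn ℂ (curvaX (v j) (w j)) (strip η.1) :=
    (kerk_fs _).1.div ((kerk_fs _).2.const_add 1) fun s hs => curva_ne (kerf_small hv j).2.1 hs
  have pX : ∀ s ∈ strip η.1, curvaX (v j) (w j) (s + 2 * Real.pi) = curvaX (v j) (w j) s :=
    fun s _ => by simp only [curvaX, kerk_per]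
  have dD := (dL v hv j (if j then 0 else lam)).deriv (isOpen_strip _)
  refine ((key (v, lam) hv).2 w).trans ((curva_add (kerk_cont η.2 (dX.deriv (isOpen_strip _)))
    (kerk_cont η.2 (dX.fun_mul dD)) k).trans ?_)
  rw [curva_der η.2 dX pX, curva_mul η.2 dX pX dD
      (kerk_dper (c := 0) fun s hs => by rw [add_zero]; exact pL v hv j _ s hs),
    funext (curva_der η.2 (dL v hv j _) (pL v hv j _))]
  rfl

end StekIso
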