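import Pool.Agent.Lib.MP_fa022d_an.Defs1

open Set Filter Topology Metric BoundedContinuousFunction Complex

noncomputable section
namespace StekIso
variable {E F : Type*} [NormedAddCommGroup E] [NormedSpace ℂ E] [NormedAddCommGroup F]
  [NormedSpace ℂ F] [CompleteSpace F]

omit [CompleteSpace F] in
theorem hol1_line {f : E → F} {x : E} {R M r : ℝ} (hr : 0 < r) (hR : r < R)
    (hf : DifferentiableOn ℂ f (ball x R)) (hM : ∀ y ∈ ball x R, ‖f y‖ ≤ M) {e : E}
    (he : ‖e‖ = 1) : ‖fderiv ℂ f x e‖ ≤ M / r := by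
  have m : ∀ z ∈ closedBall (0 : ℂ) r, x + z • e ∈ ball x R := fun z hz => by
    rw [mem_ball_iff_norm, add_sub_cancel_left, norm_smul, he, mul_one]
    exact (mem_closedBall_zero_iff.1 hz).trans_lt hR
  have d : DifferentiableOn ℂ (fun z : ℂ => f (x + z • e)) (closedBall 0 r) :=
    hf.comp (by fun_prop) m
  have k := Complex.norm_deriv_le_of_forall_mem_sphere_norm_le hr
    (d.mono closure_ball_subset_closedBall).diffContOnCl
    fun z hz => hM _ (m z (sphere_subset_closedBall hz))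
  have h1 : HasDerivAt (fun z : ℂ => x + z • e) e 0 := by
    simpa using ((hasDerivAt_id (0 : ℂ)).smul_const e).const_add x
  have h2 : HasFDerivAt f (fderiv ℂ f x) (x + (0 : ℂ) • e) := by
    rw [zero_smul, add_zero]
    exact (hf.differentiableAt (ball_mem_nhds x (hr.trans hR))).hasFDerivAt
  have h3 : HasDerivAt (fun z : ℂ => f (x + z • e)) (fderiv ℂ f x e) 0 := h2.comp_hasDerivAt 0 h1
  rwa [h3.deriv] at k

/-- Cauchy estimate (restrict to complex lines). -/
theorem cauchy_fderiv {f : E → F} {x : E} {R M : ℝ} (hR : 0 < R)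
    (hf : DifferentiableOn ℂ f (ball x R)) (hM : ∀ y ∈ ball x R, ‖f y‖ ≤ M) :
    ‖fderiv ℂ f x‖ ≤ M / R := by
  have M0 : 0 ≤ M := (norm_nonneg _).trans (hM x (mem_ball_self hR))
  refine ContinuousLinearMap.opNorm_le_of_unit_norm (by positivity) fun e he => ?_
  have t : Tendsto (fun r : ℝ => M / r) (𝓝[<] R) (𝓝 (M / R)) :=
    (tendsto_const_nhds.div tendsto_id hR.ne').mono_left nhdsWithin_le_nhds
  refine ge_of_tendsto t ?_
  filter_upwards [Ioo_mem_nhdsLT hR] with r hr using hol1_line hr.1 hr.2 hf hM he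

omit [NormedSpace ℂ E] in
theorem hol1_sub {x y : E} {R r : ℝ} (h : y ∈ ball x (R - r)) : ball y r ⊆ ball x R :=
  ball_subset_ball' (by linarith [mem_ball.1 h])

/-- The derivative is Lipschitz: apply the Cauchy estimate to `ζ ↦ f (y + ζ e) - f (z + ζ e)`. -/
theorem cauchy_fderiv_lip {f : E → F} {x : E} {R M : ℝ} (hR : 0 < R)
    (hf : DifferentiableOn ℂ f (ball x R)) (hM : ∀ y ∈ ball x R, ‖f y‖ ≤ M) :
    ∀ y ∈ ball x (R / 2), ∀ z ∈ ball x (R / 2),
      ‖fderiv ℂ f y - fderiv ℂ f z‖ ≤ 16 * M / R ^ 2 * ‖y - z‖ := by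
  intro y hy z hz
  have R4 : 0 < R / 4 := by positivity
  have s : ball x (R - R / 4) ⊆ ball x R := ball_subset_ball (by linarith)
  have d : ∀ w ∈ ball x R, DifferentiableAt ℂ f w := fun w hw =>
    hf.differentiableAt (isOpen_ball.mem_nhds hw)
  have b : ∀ w ∈ ball x (R - R / 4), ‖fderiv ℂ f w‖ ≤ M / (R / 4) := fun w hw =>
    cauchy_fderiv R4 (hf.mono (hol1_sub hw)) fun u hu => hM u (hol1_sub hw hu)
  have m : ∀ w ∈ ball x (R / 2), ∀ u ∈ ball (0 : E) (R / 4), w + u ∈ ball x (R - R / 4) :=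
    fun w hw u hu => by
      rw [mem_ball_iff_norm] at hw ⊢
      rw [mem_ball_zero_iff] at hu
      rw [add_sub_right_comm]
      linarith [norm_add_le (w - x) u]
  have q : ∀ w ∈ ball x (R / 2), ∀ u ∈ ball (0 : E) (R / 4),
      HasFDerivAt (fun u => f (w + u)) (fderiv ℂ f (w + u)) u := fun w hw u hu =>
    (hasFDerivAt_comp_add_left w).2 (d _ (s (m w hw u hu))).hasFDerivAt
  have k := cauchy_fderiv (f := fun u => f (y + u) - f (z + u)) (x := 0)
    (M := M / (R / 4) * ‖y - z‖) R4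
    (fun u hu => ((q y hy u hu).sub (q z hz u hu)).differentiableAt.differentiableWithinAt)
    fun u hu => by
      have := (convex_ball x (R - R / 4)).norm_image_sub_le_of_norm_fderiv_le
        (fun w hw => d w (s hw)) b (m z hz u hu) (m y hy u hu)
      rwa [add_sub_add_right_eq_sub] at this
  have e : HasFDerivAt (fun u => f (y + u) - f (z + u)) _ 0 :=
    (q y hy 0 (mem_ball_self R4)).sub (q z hz 0 (mem_ball_self R4))
  rw [e.fderiv, add_zero, add_zero] at k
  refine k.trans (le_of_eq ?_)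
  field_simp
  ring

omit [CompleteSpace F] in
theorem hol1_loc {f : E → F} {U : Set E} (hU : IsOpen U) (hf : DifferentiableOn ℂ f U) {x : E}
    (hx : x ∈ U) : ∃ R M : ℝ, 0 < R ∧ ball x R ⊆ U ∧ ∀ y ∈ ball x R, ‖f y‖ ≤ M := by
  have c := (hf.differentiableAt (hU.mem_nhds hx)).continuousAt.norm
  obtain ⟨R, hR, h⟩ := Metric.mem_nhds_iff.1
    (inter_mem (hU.mem_nhds hx) (c.eventually_le_const (lt_add_one _)))
  exact ⟨R, _, hR, fun y hy => (h hy).1, fun y hy => (h hy).2⟩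

theorem continuousOn_fderiv_hol {f : E → F} {U : Set E} (hU : IsOpen U)
    (hf : DifferentiableOn ℂ f U) : ContinuousOn (fderiv ℂ f) U := by
  intro x hx
  obtain ⟨R, M, hR, s, b⟩ := hol1_loc hU hf hx
  have l := cauchy_fderiv_lip hR (hf.mono s) b
  have : LipschitzOnWith (Real.toNNReal (16 * M / R ^ 2)) (fderiv ℂ f) (ball x (R / 2)) :=
    LipschitzOnWith.of_dist_le' fun y hy z hz => by
      rw [dist_eq_norm, dist_eq_norm]
      exact l y hy z hz
  exact (this.continuousOn.continuousAt (ball_mem_nhds x (half_pos hR))).continuousWithinAt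

theorem diffOn_of_unif {ι : Type*} {l : Filter ι} [l.NeBot] {U : Set E} (hU : IsOpen U)
    {f : ι → E → F} {g : E → F} (hf : ∀ n, DifferentiableOn ℂ (f n) U)
    (h : TendstoUniformlyOn f g l U) :
    DifferentiableOn ℂ g U ∧ ∀ x ∈ U, Tendsto (fun n => fderiv ℂ (f n) x) l (𝓝 (fderiv ℂ g x)) := by
  have key : ∀ x ∈ U, ∃ g', HasFDerivAt g g' x ∧ Tendsto (fun n => fderiv ℂ (f n) x) l (𝓝 g') := by
    intro x hx
    obtain ⟨R, hR, s⟩ := Metric.isOpen_iff.1 hU x hx
    have R2 := half_pos hR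
    have s' : ball x (R - R / 2) ⊆ U := (ball_subset_ball (by linarith)).trans s
    have d : ∀ n, ∀ y ∈ U, DifferentiableAt ℂ (f n) y := fun n y hy =>
      (hf n).differentiableAt (hU.mem_nhds hy)
    have c : UniformCauchySeqOn (fun n => fderiv ℂ (f n)) l (ball x (R - R / 2)) := by
      intro u hu
      obtain ⟨ε, hε, hu⟩ := Metric.mem_uniformity_dist.1 hu
      filter_upwards [h.uniformCauchySeqOn _
        (Metric.dist_mem_uniformity (ε := ε / 2 * (R / 2)) (by positivity))] with m hm y hy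
      refine hu ?_
      have t := (hol1_sub hy).trans s
      have k := cauchy_fderiv (f := f m.1 - f m.2) (x := y) (M := ε / 2 * (R / 2)) R2
        (((hf m.1).sub (hf m.2)).mono t) fun z hz => by
          rw [Pi.sub_apply, ← dist_eq_norm]
          exact le_of_lt (hm z (t hz))
      rw [fderiv_sub (d _ y (s' hy)) (d _ y (s' hy)), mul_div_assoc, div_self R2.ne'] at k
      rw [dist_eq_norm]
      linarith
    have e : ∀ y ∈ ball x (R - R / 2), ∃ g', Tendsto (fun n => fderiv ℂ (f n) y) l (𝓝 g') :=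
      fun y hy => cauchy_map_iff_exists_tendsto.1 (c.cauchy_map hy)
    choose! g' hg using e
    have x0 : x ∈ ball x (R - R / 2) := mem_ball_self (by linarith)
    exact ⟨g' x, hasFDerivAt_of_tendstoUniformlyOn isOpen_ball (c.tendstoUniformlyOn_of_tendsto hg)
      (fun n y hy => (d n y (s' hy)).hasFDerivAt) (fun y hy => h.tendsto_at (s' hy)) x0, hg x x0⟩
  refine ⟨fun x hx => ?_, fun x hx => ?_⟩ <;> obtain ⟨g', a, b⟩ := key x hx
  · exact a.differentiableAt.differentiableWithinAt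
  · rwa [a.fderiv]

theorem diffOn_tsum {ι : Type*} {U : Set E} (hU : IsOpen U) {f : ι → E → F} {u : ι → ℝ}
    (hu : Summable u) (hf : ∀ i, DifferentiableOn ℂ (f i) U) (hb : ∀ i, ∀ x ∈ U, ‖f i x‖ ≤ u i) :
    DifferentiableOn ℂ (fun x => ∑' i, f i x) U ∧ ∀ x ∈ U, ∀ w,
      HasSum (fun i => fderiv ℂ (f i) x w) (fderiv ℂ (fun x => ∑' i, f i x) x w) := by
  obtain ⟨a, b⟩ := diffOn_of_unif hU (fun t => DifferentiableOn.fun_sum fun i _ => hf i)
    (tendstoUniformlyOn_tsum hu hb)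
  refine ⟨a, fun x hx w => ?_⟩
  have k := ((ContinuousLinearMap.apply ℂ F w).continuous.tendsto _).comp (b x hx)
  refine k.congr fun t => ?_
  simp only [Function.comp, ContinuousLinearMap.apply_apply]
  rw [fderiv_fun_sum fun i _ => (hf i).differentiableAt (hU.mem_nhds hx),
    _root_.sum_apply]

/-- difference quotients converge locally uniformly -/
theorem hol1_quot {f : E → F} {U : Set E} (hU : IsOpen U) (hf : DifferentiableOn ℂ f U) (e : E)
    {x : E} (hx : x ∈ U) : ∃ (r : ℝ) (c : ℕ → ℂ), 0 < r ∧ ball x r ⊆ U ∧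
      Tendsto (fun n => ‖c n‖) atTop atTop ∧ (∀ n, ∀ y ∈ ball x r, y + (c n)⁻¹ • e ∈ U) ∧
      TendstoUniformlyOn (fun n y => c n • (f (y + (c n)⁻¹ • e) - f y))
        (fun y => fderiv ℂ f y e) atTop (ball x r) := by
  obtain ⟨R, M, hR, s, b⟩ := hol1_loc hU hf hx
  have M0 : 0 ≤ M := (norm_nonneg _).trans (b x (mem_ball_self hR))
  have l := cauchy_fderiv_lip hR (hf.mono s) b
  obtain ⟨L, hL⟩ : ∃ L, L = 16 * M / R ^ 2 := ⟨_, rfl⟩
  have L0 : 0 ≤ L := by rw [hL]; positivity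
  rw [← hL] at l
  obtain ⟨K, hK⟩ : ∃ K : ℝ, K = (‖e‖ + 1) / (R / 4) := ⟨_, rfl⟩
  have K0 : 0 < K := by rw [hK]; positivity
  have nc : ∀ n : ℕ, ‖((K * (n + 1) : ℝ) : ℂ)‖ = K * (n + 1) := fun n => by
    rw [Complex.norm_real, Real.norm_of_nonneg (by positivity)]
  have t : Tendsto (fun n : ℕ => K * (n + 1)) atTop atTop :=
    (tendsto_atTop_add_const_right _ _ tendsto_natCast_atTop_atTop).const_mul_atTop K0
  have ne : ∀ n : ℕ, ‖((K * (n + 1) : ℝ) : ℂ)⁻¹ • e‖ = (K * (n + 1))⁻¹ * ‖e‖ := fun n => by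
    rw [norm_smul, norm_inv, nc]
  have sm : ∀ n : ℕ, (K * (n + 1))⁻¹ * ‖e‖ ≤ R / 4 := fun n => by
    rw [inv_mul_le_iff₀ (by positivity)]
    have : K * (R / 4) = ‖e‖ + 1 := by rw [hK]; field_simp
    have h0 : (0 : ℝ) ≤ n := n.cast_nonneg
    nlinarith [norm_nonneg e]
  have cb : ∀ n : ℕ, ∀ y ∈ ball x (R / 4),
      closedBall y ((K * (n + 1))⁻¹ * ‖e‖) ⊆ ball x (R / 2) := fun n y hy =>
    closedBall_subset_ball' (by linarith [sm n, mem_ball.1 hy])
  have s2 : ball x (R / 2) ⊆ U := (ball_subset_ball (by linarith)).trans s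
  have m : ∀ n : ℕ, ∀ y : E,
      y + ((K * (n + 1) : ℝ) : ℂ)⁻¹ • e ∈ closedBall y ((K * (n + 1))⁻¹ * ‖e‖) := fun n y => by
    rw [mem_closedBall_iff_norm, add_sub_cancel_left, ne]
  refine ⟨R / 4, fun n => ((K * (n + 1) : ℝ) : ℂ), by positivity,
    (ball_subset_ball (by linarith)).trans s, t.congr fun n => (nc n).symm,
    fun n y hy => s2 (cb n y hy (m n y)), Metric.tendstoUniformlyOn_iff.2 fun ε hε => ?_⟩
  have t2 : Tendsto (fun n : ℕ => L * ((K * (n + 1))⁻¹ * ‖e‖) * ‖e‖) atTop (𝓝 (L * (0 * ‖e‖) * ‖e‖)) :=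
    (((tendsto_inv_atTop_zero.comp t).mul_const _).const_mul _).mul_const _
  rw [zero_mul, mul_zero, zero_mul] at t2
  filter_upwards [t2.eventually_lt_const hε] with n hn y hy
  have y0 : y ∈ closedBall y ((K * (n + 1))⁻¹ * ‖e‖) := mem_closedBall_self (by positivity)
  have k := (convex_closedBall y ((K * (n + 1))⁻¹ * ‖e‖)).norm_image_sub_le_of_norm_fderiv_le'
    (𝕜 := ℂ) (f := f) (φ := fderiv ℂ f y) (C := L * ((K * (n + 1))⁻¹ * ‖e‖))
    (fun z hz => hf.differentiableAt (hU.mem_nhds (s2 (cb n y hy hz))))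
    (fun z hz => (l z (cb n y hy hz) y (cb n y hy y0)).trans
      (mul_le_mul_of_nonneg_left (mem_closedBall_iff_norm.1 hz) L0)) y0 (m n y)
  have c0 : ((K * (n + 1) : ℝ) : ℂ) ≠ 0 := ofReal_ne_zero.2 (by positivity)
  rw [add_sub_cancel_left, ne, map_smul] at k
  rw [dist_comm, dist_eq_norm, ← smul_inv_smul₀ c0 (fderiv ℂ f y e), ← smul_sub, norm_smul, nc]
  refine lt_of_le_of_lt ((mul_le_mul_of_nonneg_left k (by positivity)).trans (le_of_eq ?_)) hn
  field_simp

theorem hol1_dir {f : E → F} {U : Set E} (hU : IsOpen U) (hf : DifferentiableOn ℂ f U) (e : E)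
    {x : E} (hx : x ∈ U) : DifferentiableAt ℂ (fun y => fderiv ℂ f y e) x ∧ ∃ c : ℕ → ℂ,
      Tendsto (fun n => ‖c n‖) atTop atTop ∧
      Tendsto (fun n => c n • (fderiv ℂ f (x + (c n)⁻¹ • e) - fderiv ℂ f x)) atTop
        (𝓝 (fderiv ℂ (fun y => fderiv ℂ f y e) x)) := by
  obtain ⟨r, c, hr, s, t, m, u⟩ := hol1_quot hU hf e hx
  have q : ∀ n, ∀ y ∈ ball x r, HasFDerivAt (fun y => c n • (f (y + (c n)⁻¹ • e) - f y))
      (c n • (fderiv ℂ f (y + (c n)⁻¹ • e) - fderiv ℂ f y)) y := fun n y hy =>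
    (((hasFDerivAt_comp_add_right _).2
      (hf.differentiableAt (hU.mem_nhds (m n y hy))).hasFDerivAt).sub
      (hf.differentiableAt (hU.mem_nhds (s hy))).hasFDerivAt).const_smul (c n)
  obtain ⟨a, b⟩ := diffOn_of_unif isOpen_ball
    (fun n y hy => (q n y hy).differentiableAt.differentiableWithinAt) u
  exact ⟨a.differentiableAt (ball_mem_nhds x hr), c, t,
    (b x (mem_ball_self hr)).congr fun n => (q n x (mem_ball_self hr)).fderiv⟩

/-- directional derivatives are holomorphic (uniform limit of difference quotients) -/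
theorem diffOn_fderiv_apply {f : E → F} {U : Set E} (hU : IsOpen U)
    (hf : DifferentiableOn ℂ f U) (e : E) : DifferentiableOn ℂ (fun x => fderiv ℂ f x e) U :=
  fun _ hx => (hol1_dir hU hf e hx).1.differentiableWithinAt

theorem fderiv_fderiv_symm {f : E → F} {U : Set E} (hU : IsOpen U)
    (hf : DifferentiableOn ℂ f U) {x : E} (hx : x ∈ U) (e w : E) :
    fderiv ℂ (fun y => fderiv ℂ f y e) x w = fderiv ℂ (fun y => fderiv ℂ f y w) x e := by
  obtain ⟨-, c, t, k⟩ := hol1_dir hU hf e hx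
  exact tendsto_nhds_unique (((ContinuousLinearMap.apply ℂ F w).continuous.tendsto _).comp k)
    ((hol1_dir hU hf w hx).1.hasFDerivAt.lim e t)

end StekIso
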