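import Pool.Agent.Lib.MP_fa022d_an.Defs2
import Pool.Agent.Lib.MP_fa022d_an.Hol1

open Set Filter Topology Metric BoundedContinuousFunction Complex

noncomputable section
namespace StekIso
variable {η : Pos}

section
variable {A : Type} [NormedCommRing A] [NormedAlgebra ℂ A] [CompleteSpace A]

theorem ev_exp_tail (z : A) {k : ℕ} (hk : 0 < k) :
    ‖NormedSpace.exp z - ∑ n ∈ Finset.range k, ((n.factorial : ℂ)⁻¹) • z ^ n‖ ≤
      ‖z‖ ^ k * Real.exp ‖z‖ := by
  have h1 := (hasSum_nat_add_iff' k).2 (NormedSpace.exp_series_hasSum_exp' (𝕂 := ℂ) z)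
  have h2 := (NormedSpace.expSeries_div_hasSum_exp ‖z‖).mul_left (‖z‖ ^ k)
  rw [← Real.exp_eq_exp_ℝ] at h2
  refine h1.norm_le_of_bounded h2 fun n => ?_
  rw [norm_smul, norm_inv, Complex.norm_natCast]
  have a : ‖z ^ (n + k)‖ ≤ ‖z‖ ^ (n + k) := norm_pow_le' z (by omega)
  have b : (((n + k).factorial : ℝ))⁻¹ ≤ ((n.factorial : ℝ))⁻¹ :=
    inv_anti₀ (by exact_mod_cast n.factorial_pos)
      (by exact_mod_cast Nat.factorial_le (Nat.le_add_right n k))
  refine (mul_le_mul b a (norm_nonneg _) (by positivity)).trans (le_of_eq ?_)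
  rw [pow_add]; ring

theorem norm_exp_sub_one_le (z : A) : ‖NormedSpace.exp z - 1‖ ≤ ‖z‖ * Real.exp ‖z‖ := by
  simpa using ev_exp_tail z (k := 1) one_pos

theorem norm_exp_sub_one_sub_le (z : A) :
    ‖NormedSpace.exp z - 1 - z‖ ≤ ‖z‖ ^ 2 * Real.exp ‖z‖ := by
  simpa [Finset.sum_range_succ, sub_sub] using ev_exp_tail z (k := 2) two_pos

omit [CompleteSpace A] in
theorem ev_log_term {z : A} (h : ‖z‖ ≤ 1 / 2) (k m : ℕ) :
    ‖((-1) ^ (m + k) / ((m + k : ℕ) + 1) : ℂ) • z ^ (m + k + 1)‖ ≤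
      ‖z‖ ^ (k + 1) / (k + 1) * (1 / 2) ^ m := by
  have e : (((m + k : ℕ) : ℂ) + 1) = ((m + k + 1 : ℕ) : ℂ) := by push_cast; ring
  rw [norm_smul, norm_div, norm_pow, norm_neg, norm_one, one_pow, e, Complex.norm_natCast]
  have a : ‖z ^ (m + k + 1)‖ ≤ (1 / 2) ^ m * ‖z‖ ^ (k + 1) := by
    refine (norm_pow_le' z (by omega)).trans ?_
    rw [add_assoc, pow_add]
    gcongr
  have b : 1 / ((m + k + 1 : ℕ) : ℝ) ≤ 1 / (k + 1) :=
    one_div_le_one_div_of_le (by positivity) (by push_cast; linarith [Nat.cast_nonneg (α := ℝ) m])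
  refine (mul_le_mul b a (norm_nonneg _) (by positivity)).trans (le_of_eq ?_)
  ring

theorem ev_log_sum {z : A} (h : ‖z‖ ≤ 1 / 2) :
    HasSum (fun m : ℕ => ((-1) ^ m / (m + 1) : ℂ) • z ^ (m + 1)) (logA z) := by
  have s : Summable fun m : ℕ => ((-1) ^ m / (m + 1) : ℂ) • z ^ (m + 1) :=
    Summable.of_norm_bounded (summable_geometric_two.mul_left (‖z‖ ^ (0 + 1) / ((0 : ℕ) + 1)))
      fun m => by simpa only [add_zero] using ev_log_term h 0 m
  exact s.hasSum

theorem ev_log_tail {z : A} (h : ‖z‖ ≤ 1 / 2) (k : ℕ) :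
    ‖logA z - ∑ m ∈ Finset.range k, ((-1) ^ m / (m + 1) : ℂ) • z ^ (m + 1)‖ ≤
      ‖z‖ ^ (k + 1) / (k + 1) * 2 := by
  have h0 := ev_log_sum h
  have h1 := (hasSum_nat_add_iff' (G := A) k).2 h0
  have h2 := hasSum_geometric_two.mul_left (‖z‖ ^ (k + 1) / (k + 1))
  refine h1.norm_le_of_bounded h2 fun m => ?_
  exact ev_log_term h k m

theorem norm_logA_le {z : A} (h : ‖z‖ ≤ 1 / 2) : ‖logA z‖ ≤ 2 * ‖z‖ ∧
    ‖logA z - z‖ ≤ ‖z‖ ^ 2 ∧ ‖logA z - z + (1 / 2 : ℂ) • (z * z)‖ ≤ ‖z‖ ^ 3 := by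
  have h0 := ev_log_tail h 0
  have h1 := ev_log_tail h 1
  have h2 := ev_log_tail h 2
  have e : logA z - ∑ m ∈ Finset.range 2, ((-1) ^ m / (m + 1) : ℂ) • z ^ (m + 1) =
      logA z - z + (1 / 2 : ℂ) • (z * z) := by
    simp only [Finset.sum_range_succ, Finset.sum_range_zero, zero_add, pow_succ, pow_zero, one_mul]
    norm_num
    module
  rw [e] at h2
  have p := pow_nonneg (norm_nonneg z) 3
  refine ⟨by simpa [mul_comm] using h0, ?_, ?_⟩
  · norm_num at h1
    exact h1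
  · norm_num at h2 ⊢
    linarith

theorem diffOn_logA : DifferentiableOn ℂ (logA : A → A) (ball 0 (1 / 2)) := by
  refine (diffOn_tsum isOpen_ball summable_geometric_two
    (f := fun (m : ℕ) (z : A) => ((-1) ^ m / (m + 1) : ℂ) • z ^ (m + 1)) (fun m => by fun_prop)
    fun m z hz => ?_).1
  have h := (mem_ball_zero_iff.1 hz).le
  refine (ev_log_term h 0 m).trans (mul_le_of_le_one_left (by positivity) ?_)
  norm_num
  linarith

omit [CompleteSpace A] in
theorem ev_char_pow (χ : A →L[ℂ] ℂ) (h1 : χ 1 = 1) (hm : ∀ a b, χ (a * b) = χ a * χ b) (z : A)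
    (n : ℕ) : χ (z ^ n) = χ z ^ n := by
  induction n with
  | zero => simpa using h1
  | succ n ih => rw [pow_succ, hm, ih, pow_succ]

/-- a character does not increase norms -/
theorem ev_char_le (χ : A →L[ℂ] ℂ) (h1 : χ 1 = 1) (hm : ∀ a b, χ (a * b) = χ a * χ b) (z : A) :
    ‖χ z‖ ≤ ‖z‖ := by
  by_contra n
  have n := not_le.1 n
  have p : 0 < ‖χ z‖ := (norm_nonneg z).trans_lt n
  have q : ‖(χ z)⁻¹ • z‖ < 1 := by
    rw [norm_smul, norm_inv, inv_mul_lt_iff₀ p, mul_one]; exact n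
  obtain ⟨u, hu⟩ := (isUnit_one_sub_of_norm_lt_one q).exists_right_inv
  have e := congrArg χ hu
  rw [hm, h1, map_sub, h1, map_smul, smul_eq_mul, inv_mul_cancel₀ (norm_pos_iff.1 p)] at e
  simp at e

/-- a character maps `logA` to the principal logarithm -/
theorem char_logA (χ : A →L[ℂ] ℂ) (h1 : χ 1 = 1) (hm : ∀ a b, χ (a * b) = χ a * χ b) {z : A}
    (h : ‖z‖ ≤ 1 / 2) : ‖χ z‖ ≤ 1 / 2 ∧ χ (logA z) = log (1 + χ z) := by
  have a : ‖χ z‖ ≤ 1 / 2 := (ev_char_le χ h1 hm z).trans h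
  refine ⟨a, ((ev_log_sum h).mapL χ).unique ?_⟩
  have b := (hasSum_nat_add_iff' 1).2 (hasSum_taylorSeries_log (z := χ z) (by linarith))
  simp only [Finset.range_one, Finset.sum_singleton, Nat.cast_zero, div_zero, sub_zero] at b
  convert! b using 2 with m
  rw [map_smul, ev_char_pow χ h1 hm, smul_eq_mul]
  push_cast
  ring

theorem char_exp (χ : A →L[ℂ] ℂ) (h1 : χ 1 = 1) (hm : ∀ a b, χ (a * b) = χ a * χ b) (z : A) :
    χ (NormedSpace.exp z) = exp (χ z) := by
  refine ((NormedSpace.exp_series_hasSum_exp' (𝕂 := ℂ) z).mapL χ).unique ?_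
  rw [Complex.exp_eq_exp_ℂ]
  convert! NormedSpace.exp_series_hasSum_exp' (𝕂 := ℂ) (χ z) using 2 with m
  rw [map_smul, ev_char_pow χ h1 hm]

end

theorem norm_coeff1_le (v : A1 η) (k : ℤ) : ‖v.coeff k‖ ≤ ‖v‖ / 128 * beta η.1 k := 
  (v.norm_coeff_le k).trans (le_of_eq (by
    show ‖v‖ * (beta η.1 k / 128) = _
    ring))

theorem norm_coeff2_le (z : A2 η) (p : ℤ × ℤ) : ‖z.coeff p‖ ≤ ‖z‖ * W2 η.1 p := 
  (z.norm_coeff_le p).trans (mul_le_mul_of_nonneg_left
    (div_le_self (W2_pos _ _).le (one_le_K2 η)) (norm_nonneg _))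

theorem ev_beta_add (η : ℝ) (a b : ℤ) :
    beta η (|a| + |b|) = ex η a * ex η b / (1 + |(a : ℝ)| + |(b : ℝ)|) ^ 4 := by
  have e : |((|a| + |b| : ℤ) : ℝ)| = |(a : ℝ)| + |(b : ℝ)| := by
    push_cast; exact abs_of_nonneg (by positivity)
  rw [beta, ex, br, e, ex, ex, ← Real.exp_add, mul_add, add_assoc]

theorem W2_le (p : ℤ × ℤ) : W2 η.1 p ≤ beta η.1 p.2 * ex η.1 p.1 ∧
    W2 η.1 p ≤ beta η.1 p.1 * ex η.1 p.2 := by
  have b1 := one_le_br p.1
  have b2 := one_le_br p.2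
  have e1 := ex_pos η.1 p.1
  have e2 := ex_pos η.1 p.2
  obtain ⟨m, hm, h1, h2⟩ : ∃ m : ℝ, W2 η.1 p = ex η.1 p.1 * ex η.1 p.2 / m ∧
      br p.1 ^ 4 ≤ m ∧ br p.2 ^ 4 ≤ m := by
    have a1 := abs_nonneg (p.1 : ℝ)
    have a2 := abs_nonneg (p.2 : ℝ)
    unfold W2
    split_ifs
    · refine ⟨_, ev_beta_add _ _ _, ?_, ?_⟩ <;>
        exact pow_le_pow_left₀ (br_pos _).le (by unfold br; linarith) 4
    · exact ⟨br p.1 ^ 4 * br p.2 ^ 4, by unfold beta; field_simp,
        le_mul_of_one_le_right (by positivity) (one_le_pow₀ b2),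
        le_mul_of_one_le_left (by positivity) (one_le_pow₀ b1)⟩
  rw [hm, beta, beta, div_mul_eq_mul_div, div_mul_eq_mul_div, mul_comm (ex η.1 p.2)]
  constructor <;> gcongr


theorem ev_norm_le {s : ℂ} {y : ℝ} (hs : |s.im| ≤ y) (k : ℤ) :
    ‖exp (I * k * s)‖ ≤ Real.exp (y * |(k : ℝ)|) := by
  rw [norm_exp]
  refine Real.exp_le_exp.2 ((le_abs_self _).trans ?_)
  have e : (I * k * s).re = -(s.im * k) := by simp [mul_comm]
  rw [e, abs_neg, abs_mul]
  gcongr

theorem ev_summ_br : Summable fun k : ℤ => 1 / br k ^ 2 := by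
  have h : Summable fun n : ℕ => 1 / (1 + (n : ℝ)) ^ 2 := by
    simpa [add_comm] using (summable_nat_add_iff 1).2 (Real.summable_one_div_nat_pow.2 one_lt_two)
  exact summable_int_iff_summable_nat_and_neg.2 ⟨by simpa [br] using h, by simpa [br] using h⟩

theorem ev_one {s : ℂ} {y : ℝ} (hs : |s.im| ≤ y) (k : ℤ) :
    ex y k / br k ^ 2 * ‖exp (I * k * s)‖ ≤ 1 / br k ^ 2 := by
  have b := br_pos k
  rw [div_mul_eq_mul_div]
  gcongr
  refine (mul_le_mul_of_nonneg_left (ev_norm_le hs k) (ex_pos _ _).le).trans (le_of_eq ?_)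
  rw [ex, ← Real.exp_add, neg_mul, neg_add_cancel, Real.exp_zero]

/-- a multiplicative function that is summable against the weight gives a character -/
theorem ev_gen {G : Type} [AddCommGroup G] [TopologicalSpace G] [DiscreteTopology G] (ω : Wt G)
    (e : G → ℂ) (e0 : e 0 = 1) (ea : ∀ a b, e (a + b) = e a * e b)
    (hs : Summable fun g => ω.w g * ‖e g‖) : ∃ χ : WAlg ω →L[ℂ] ℂ,
    (∀ v, χ v = ∑' g, v.coeff g * e g) ∧ χ 1 = 1 ∧ ∀ a b, χ (a * b) = χ a * χ b := by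
  classical
  have bd (v : WAlg ω) (g : G) : ‖v.coeff g * e g‖ ≤ ‖v‖ * (ω.w g * ‖e g‖) := by
    rw [norm_mul, ← mul_assoc]
    exact mul_le_mul_of_nonneg_right (v.norm_coeff_le g) (norm_nonneg _)
  have sn (v : WAlg ω) : Summable fun g => ‖v.coeff g * e g‖ :=
    Summable.of_nonneg_of_le (fun _ => norm_nonneg _) (bd v) (hs.mul_left _)
  refine ⟨LinearMap.mkContinuous
    { toFun := fun v => ∑' g, v.coeff g * e g
      map_add' := fun a b => by
        simp only [WAlg.coeff_add, add_mul]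
        exact (sn a).of_norm.tsum_add (sn b).of_norm
      map_smul' := fun c a => by
        simp only [WAlg.coeff_smul, mul_assoc, tsum_mul_left, RingHom.id_apply, smul_eq_mul] }
    (∑' g, ω.w g * ‖e g‖) fun v => ?_, fun _ => rfl, ?_, fun a b => ?_⟩
  · rw [mul_comm]
    exact tsum_of_norm_bounded (hs.hasSum.mul_left _) (bd v)
  · show ∑' g, (1 : WAlg ω).coeff g * e g = 1
    rw [tsum_eq_single 0 fun h hh => by simp [WAlg.coeff_one, hh]]
    simp [WAlg.coeff_one, e0]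
  · show ∑' g, (a * b).coeff g * e g = (∑' g, a.coeff g * e g) * ∑' g, b.coeff g * e g
    let q : G × G ≃ G × G :=
      { toFun := fun p => (p.2, p.1 - p.2), invFun := fun p => (p.1 + p.2, p.1),
        left_inv := fun p => by simp, right_inv := fun p => by simp }
    have h1 := summable_mul_of_summable_norm (sn a) (sn b)
    rw [tsum_mul_tsum_of_summable_norm (sn a) (sn b), ← q.tsum_eq]
    refine Eq.trans (tsum_congr fun g => ?_) (q.summable_iff.2 h1).tsum_prod.symm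
    rw [WAlg.coeff_mul, ← tsum_mul_right]
    refine tsum_congr fun h => ?_
    have : e g = e h * e (g - h) := by rw [← ea, add_sub_cancel]
    show _ = a.coeff h * e h * (b.coeff (g - h) * e (g - h))
    rw [this]; ring

/-- evaluation on the closed strip is a character -/
theorem exists_ev1 {s : ℂ} (hs : |s.im| ≤ η.1) : ∃ χ : A1 η →L[ℂ] ℂ,
    (∀ v, χ v = fs v.coeff s) ∧ χ 1 = 1 ∧ ∀ a b, χ (a * b) = χ a * χ b := by
  refine ev_gen (wt1 η) (fun k => exp (I * k * s)) (by simp) (fun a b => ?_) ?_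
  · rw [← exp_add]; push_cast; ring_nf
  · refine Summable.of_nonneg_of_le (fun k => mul_nonneg ((wt1 η).pos k).le (norm_nonneg _))
      (fun k => ?_) ev_summ_br
    refine le_trans (mul_le_mul_of_nonneg_right ?_ (norm_nonneg _)) (ev_one hs k)
    have b := one_le_br k
    have e := ex_pos η.1 k
    refine (div_le_self (beta_pos _ _).le (by norm_num)).trans ?_
    unfold beta
    gcongr
    norm_num

theorem ev_W2 (η : ℝ) (p : ℤ × ℤ) :
    W2 η p ≤ ex η p.1 / br p.1 ^ 2 * (ex η p.2 / br p.2 ^ 2) := by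
  have b1 := one_le_br p.1
  have b2 := one_le_br p.2
  have e1 := ex_pos η p.1
  have e2 := ex_pos η p.2
  have a1 := abs_nonneg (p.1 : ℝ)
  have a2 := abs_nonneg (p.2 : ℝ)
  unfold W2
  split_ifs
  · rw [ev_beta_add, div_mul_div_comm, (by norm_num : 4 = 2 + 2), pow_add]
    refine div_le_div_of_nonneg_left (by positivity) (by positivity) (mul_le_mul ?_ ?_
      (by positivity) (by positivity)) <;>
        exact pow_le_pow_left₀ (br_pos _).le (by unfold br; linarith) 2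
  · unfold beta
    gcongr <;> norm_num

theorem exists_ev2 {s t : ℂ} (hs : |s.im| ≤ η.1) (ht : |t.im| ≤ η.1) : ∃ χ : A2 η →L[ℂ] ℂ,
    (∀ z, χ z = fs2 z.coeff s t) ∧ χ 1 = 1 ∧ ∀ a b, χ (a * b) = χ a * χ b := by
  refine ev_gen (wt2 η) (fun p => exp (I * p.1 * s) * exp (I * p.2 * t)) (by simp)
    (fun a b => ?_) ?_
  · simp only [← exp_add, Prod.fst_add, Prod.snd_add]; push_cast; ring_nf
  · have p0 (k : ℤ) : 0 ≤ 1 / br k ^ 2 := by positivity
    refine Summable.of_nonneg_of_le (fun k => mul_nonneg ((wt2 η).pos k).le (norm_nonneg _))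
      (fun p => ?_) (ev_summ_br.mul_of_nonneg ev_summ_br p0 p0)
    have e2 := ex_pos η.1 p.2
    refine le_trans ?_ (mul_le_mul (ev_one hs p.1) (ev_one ht p.2) (by positivity) (p0 _))
    rw [mul_mul_mul_comm, ← norm_mul]
    exact mul_le_mul_of_nonneg_right
      ((div_le_self (W2_pos _ _).le (one_le_K2 η)).trans (ev_W2 _ p)) (norm_nonneg _)

theorem dd_one : dd η 1 = 1 := by
  ext p
  rw [coeff_dd, ddc, WAlg.coeff_one, WAlg.coeff_one]
  simp only [Prod.ext_iff, Prod.fst_zero, Prod.snd_zero]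
  split_ifs <;> first | rfl | omega | simp

theorem ev_ddc (c : ℤ → ℂ) {s t : ℂ} {y : ℝ} (hs : |s.im| ≤ y) (ht : |t.im| ≤ y) (p : ℤ × ℤ) :
    ‖ddc c p * (exp (I * p.1 * s) * exp (I * p.2 * t))‖ ≤
      ‖c (p.1 + p.2)‖ * Real.exp (y * |((p.1 + p.2 : ℤ) : ℝ)|) := by
  have k (e : |p.1 + p.2| = |p.1| + |p.2|) : ‖exp (I * p.1 * s) * exp (I * p.2 * t)‖ ≤
      Real.exp (y * |((p.1 + p.2 : ℤ) : ℝ)|) := by
    have e' : |((p.1 + p.2 : ℤ) : ℝ)| = |(p.1 : ℝ)| + |(p.2 : ℝ)| := by exact_mod_cast e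
    rw [e', mul_add, Real.exp_add, norm_mul]
    exact mul_le_mul (ev_norm_le hs _) (ev_norm_le ht _) (norm_nonneg _) (Real.exp_pos _).le
  rw [norm_mul, ddc]
  split_ifs with h h'
  · exact mul_le_mul_of_nonneg_left (k (by simp only [abs_eq_max_neg]; omega)) (norm_nonneg _)
  · rw [norm_neg]
    exact mul_le_mul_of_nonneg_left (k (by simp only [abs_eq_max_neg]; omega)) (norm_nonneg _)
  · rw [norm_zero, zero_mul]; positivity

/-- the divided difference, for any summable sequence -/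
theorem fs2_ddc {c : ℤ → ℂ} {s t : ℂ} {y : ℝ} (hs : |s.im| ≤ y) (ht : |t.im| ≤ y)
    (hc : Summable fun k : ℤ => ‖c k‖ * br k * Real.exp (y * |(k : ℝ)|)) :
    Summable (fun p : ℤ × ℤ => ‖ddc c p * (exp (I * p.1 * s) * exp (I * p.2 * t))‖) ∧
    fs2 (ddc c) s t * (exp (I * s) - exp (I * t)) =
      exp (I * s) * fs c s - exp (I * t) * fs c t := by
  have p0 (k : ℤ) : 0 ≤ ‖c k‖ * Real.exp (y * |(k : ℝ)|) := by positivity
  have S : Summable fun p : ℤ × ℤ => ‖ddc c p * (exp (I * p.1 * s) * exp (I * p.2 * t))‖ := by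
    let q : ℤ × ℤ ≃ ℤ × ℤ :=
      { toFun := fun p => (p.2, p.1 - p.2), invFun := fun p => (p.1 + p.2, p.1),
        left_inv := fun p => by simp, right_inv := fun p => by simp }
    have z (k a : ℤ) (h : a ∉ Finset.Icc (min 0 k) (max 0 k)) :
        ‖ddc c (a, k - a) * (exp (I * a * s) * exp (I * (k - a : ℤ) * t))‖ = 0 := by
      rw [Finset.mem_Icc] at h
      rw [ddc, if_neg (by simp only; omega), if_neg (by simp only; omega), zero_mul, norm_zero]
    refine q.summable_iff.1 ((summable_prod_of_nonneg fun _ => norm_nonneg _).2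
      ⟨fun k => summable_of_ne_finset_zero (z k), ?_⟩)
    refine Summable.of_nonneg_of_le (fun k => tsum_nonneg fun _ => norm_nonneg _) (fun k => ?_) hc
    refine (tsum_eq_sum (z k)).le.trans ((Finset.sum_le_card_nsmul _ _
      (‖c k‖ * Real.exp (y * |(k : ℝ)|)) fun a _ => ?_).trans (le_of_eq ?_))
    · simpa using ev_ddc c hs ht (a, k - a)
    · have e : (((Finset.Icc (min 0 k) (max 0 k)).card : ℕ) : ℤ) = 1 + |k| := by
        rw [Int.card_Icc, abs_eq_max_neg]; omega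
      have e' : (((Finset.Icc (min 0 k) (max 0 k)).card : ℕ) : ℝ) = br k := by
        rw [br]; exact_mod_cast e
      rw [nsmul_eq_mul, e']; ring
  refine ⟨S, ?_⟩
  have T {r : ℂ} (hr : |r.im| ≤ y) : HasSum (fun k : ℤ => c k * exp (I * k * r)) (fs c r) := by
    refine (Summable.of_norm_bounded hc fun k => ?_).hasSum
    rw [norm_mul]
    exact mul_le_mul (le_mul_of_one_le_right (norm_nonneg _) (one_le_br k)) (ev_norm_le hr k)
      (norm_nonneg _) (mul_nonneg (norm_nonneg _) (br_pos k).le)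
  have H : HasSum _ (fs2 (ddc c) s t) := S.of_norm.hasSum
  have h1 := (Equiv.subRight ((1, 0) : ℤ × ℤ)).hasSum_iff.2 (H.mul_right (exp (I * s)))
  have h2 := (Equiv.subRight ((0, 1) : ℤ × ℤ)).hasSum_iff.2 (H.mul_right (exp (I * t)))
  have h3 : HasSum (fun q : ℤ × ℤ => if q.2 = 0 then
      exp (I * s) * (c (q.1 - 1) * exp (I * (q.1 - 1 : ℤ) * s)) else 0) (exp (I * s) * fs c s) := by
    refine ((Function.Injective.hasSum_iff (g := fun k : ℤ => ((k + 1, 0) : ℤ × ℤ))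
      (fun a b e => by simpa using e) fun q hq => if_neg fun e => hq ⟨q.1 - 1, ?_⟩).1 ?_)
    · exact Prod.ext (by simp) e.symm
    · simpa [Function.comp_def] using (T hs).mul_left (exp (I * s))
  have h4 : HasSum (fun q : ℤ × ℤ => if q.1 = 0 then
      exp (I * t) * (c (q.2 - 1) * exp (I * (q.2 - 1 : ℤ) * t)) else 0) (exp (I * t) * fs c t) := by
    refine ((Function.Injective.hasSum_iff (g := fun k : ℤ => ((0, k + 1) : ℤ × ℤ))
      (fun a b e => by simpa using e) fun q hq => if_neg fun e => hq ⟨q.2 - 1, ?_⟩).1 ?_)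
    · exact Prod.ext e.symm (by simp)
    · simpa [Function.comp_def] using (T ht).mul_left (exp (I * t))
  rw [mul_sub]
  refine (h1.sub h2).unique ?_
  convert h3.sub h4 using 2 with q
  obtain ⟨a, b⟩ := q
  have u (r : ℂ) (k : ℤ) : exp (I * k * r) = exp (I * (k - 1 : ℤ) * r) * exp (I * r) := by
    rw [← exp_add]; push_cast; ring_nf
  have v : ddc c (a - 1, b) - ddc c (a, b - 1) =
      (if b = 0 then c (a - 1) else 0) - if a = 0 then c (b - 1) else 0 := by
    have e : a + (b - 1) = a - 1 + b := by ring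
    simp only [ddc, e]
    split_ifs <;> first | omega | simp_all
  simp only [Function.comp_apply, Equiv.subRight_apply, Prod.mk_sub_mk, sub_zero]
  have w : ddc c (a - 1, b) * (exp (I * (a - 1 : ℤ) * s) * exp (I * b * t)) * exp (I * s) -
      ddc c (a, b - 1) * (exp (I * a * s) * exp (I * (b - 1 : ℤ) * t)) * exp (I * t) =
      (ddc c (a - 1, b) - ddc c (a, b - 1)) * (exp (I * a * s) * exp (I * b * t)) := by
    rw [u s a, u t b]; ring
  rw [w, v, sub_mul]
  congr 1 <;> split_ifs with e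
  · rw [u s a, e]; simp; ring
  · simp
  · rw [u t b, e]; simp; ring
  · simp


end StekIso
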