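import Pool.Agent.Lib.MP_fa022d_an.Four2

open Set Filter Topology Metric BoundedContinuousFunction Complex

noncomputable section
namespace StekIso

theorem fc2_congr {K K' : ℝ → ℝ → ℂ}
    (h : ∀ s t : ℝ, exp (I * s) ≠ exp (I * t) → K s t = K' s t) (a b : ℤ) :
    fc2 K a b = fc2 K' a b := by
  have : ∀ s, fc (K s) b = fc (K' s) b := fun s => by
    have c := (countable_range fun n : ℤ => s - n * (2 * Real.pi)).ae_notMem MeasureTheory.volume
    rw [fc, fc, intervalIntegral.integral_congr_ae]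
    filter_upwards [c] with t ht _
    rw [h s t fun e => ht ?_]
    obtain ⟨n, hn⟩ := exp_eq_exp_iff_exists_int.1 e
    refine ⟨n, ofReal_injective (mul_left_cancel₀ I_ne_zero ?_)⟩
    push_cast
    linear_combination hn
  simp only [fc2, this]

theorem four3_split {c : ℤ × ℤ → ℂ} {s t : ℂ}
    (h : Summable fun p : ℤ × ℤ => c p * (exp (I * p.1 * s) * exp (I * p.2 * t))) :
    fs2 c s t = fs (fun b => fs (fun a => c (a, b)) s) t := by
  rw [fs2, ← (Equiv.prodComm ℤ ℤ).tsum_eq, fs]
  refine h.prod_symm.tsum_prod.trans (tsum_congr fun b => ?_)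
  rw [fs, ← tsum_mul_right]
  exact tsum_congr fun a => (mul_assoc _ _ _).symm

theorem fc2_fs2 {c : ℤ × ℤ → ℂ} (hc : Summable fun p => ‖c p‖) {K : ℝ → ℝ → ℂ}
    (h : ∀ s t : ℝ, exp (I * s) ≠ exp (I * t) → K s t = fs2 c s t) (a b : ℤ) :
    fc2 K a b = c (a, b) := by
  have h1 : ∀ b, Summable fun a => ‖c (a, b)‖ := fun b => hc.prod_symm.prod_factor b
  have h2 : ∀ s : ℝ, fc (fun t : ℝ => fs2 c s t) b = fs (fun a => c (a, b)) s := fun s => by
    have e : ∀ t : ℝ, fs2 c s t = fs (fun b => fs (fun a => c (a, b)) s) t := fun t =>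
      four3_split (.of_norm (hc.congr fun p => by
        rw [norm_mul, norm_mul, (four1_norm _ s).1, (four1_norm _ t).1, mul_one, mul_one]))
    simp only [e]
    refine fc_fs (.of_nonneg_of_le (fun _ => norm_nonneg _) (fun b => ?_) hc.prod_symm.prod) b
    refine (norm_tsum_le_tsum_norm (four1_sum (h1 b) s)).trans (le_of_eq (tsum_congr fun a => ?_))
    rw [norm_mul, (four1_norm a s).1, mul_one]
    rfl
  rw [fc2_congr (K' := fun s t => fs2 c s t) h, fc2]
  simp only [h2]
  exact fc_fs (h1 b) a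

theorem fs2_unique {c d : ℤ × ℤ → ℂ} (hc : Summable fun p => ‖c p‖)
    (hd : Summable fun p => ‖d p‖)
    (h : ∀ s t : ℝ, exp (I * s) ≠ exp (I * t) → fs2 c s t = fs2 d s t) : c = d :=
  funext fun p => (fc2_fs2 hc (K := fun s t => fs2 c s t) (fun _ _ _ => rfl) p.1 p.2).symm.trans
    (fc2_fs2 hd h p.1 p.2)

/-- a bounded kernel, holomorphic and periodic in each variable, continuous in both -/
structure BiHol (η M : ℝ) (K : ℂ → ℂ → ℂ) : Prop where
  d1 : ∀ t ∈ strip η, DifferentiableOn ℂ (fun s => K s t) (strip η)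
  d2 : ∀ s ∈ strip η, DifferentiableOn ℂ (K s) (strip η)
  cont : ContinuousOn (fun p : ℂ × ℂ => K p.1 p.2) (strip η ×ˢ strip η)
  p1 : ∀ s ∈ strip η, ∀ t ∈ strip η, K (s + 2 * Real.pi) t = K s t
  p2 : ∀ s ∈ strip η, ∀ t ∈ strip η, K s (t + 2 * Real.pi) = K s t
  bd : ∀ s ∈ strip η, ∀ t ∈ strip η, ‖K s t‖ ≤ M

theorem four3_mul (c : ℂ) (f : ℝ → ℂ) (k : ℤ) : fc (fun s => c * f s) k = c * fc f k := by
  simp only [fc, mul_assoc, intervalIntegral.integral_const_mul]
  ring

theorem four3_swap {G : ℝ → ℝ → ℂ} (hG : Continuous G.uncurry) (a b : ℤ) :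
    fc2 G a b = fc2 (fun t s => G s t) b a := by
  have hG' : Continuous fun p : ℝ × ℝ => G p.1 p.2 := hG
  have := MeasureTheory.intervalIntegral_intervalIntegral_swap (a := 0) (b := 2 * Real.pi) (c := 0)
    (d := 2 * Real.pi) (F := fun s t => G s t * exp (-(I * b * t)) * exp (-(I * a * s)))
    ((ContinuousOn.integrableOn_compact (isCompact_uIcc.prod isCompact_uIcc)
      (Continuous.continuousOn (by unfold Function.uncurry; fun_prop))).mono_set
      (prod_mono uIoc_subset_uIcc uIoc_subset_uIcc))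
  simp only [fc2, fc, mul_assoc (1 / (2 * Real.pi) : ℂ), intervalIntegral.integral_const_mul,
    ← intervalIntegral.integral_mul_const]
  rw [this]
  simp only [mul_right_comm]

theorem four3_cont {G : ℝ → ℝ → ℂ} (hG : Continuous G.uncurry) (b : ℤ) :
    Continuous fun s => fc (G s) b := by
  have hG' : Continuous fun p : ℝ × ℝ => G p.1 p.2 := hG
  exact continuous_const.mul (intervalIntegral.continuous_parametric_intervalIntegral_of_continuous'
    (f := fun s t => G s t * exp (-(I * b * t))) (by unfold Function.uncurry; fun_prop) _ _)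

theorem four3_mem {η y : ℝ} (hy : |y| < η) (s : ℝ) : (s : ℂ) + I * y ∈ strip η := by
  simpa [strip] using hy

theorem four3_mem0 {η : ℝ} (hη : 0 < η) (s : ℝ) : (s : ℂ) ∈ strip η := by simpa [strip] using hη

theorem four3_strip (η : ℝ) : strip η = {s | s.im ∈ Ioo (-η) η} :=
  Set.ext fun s => abs_lt (a := s.im)

theorem BiHol.four3_c {η M : ℝ} {K : ℂ → ℂ → ℂ} (h : BiHol η M K) {u w : ℝ → ℂ}
    (cu : Continuous u) (cw : Continuous w) (hu : ∀ s, u s ∈ strip η) (hw : ∀ s, w s ∈ strip η) :
    Continuous (Function.uncurry fun s t => K (u s) (w t)) :=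
  h.cont.comp_continuous ((cu.comp continuous_fst).prodMk (cw.comp continuous_snd))
    fun p => ⟨hu p.1, hw p.2⟩

theorem BiHol.decay {η M : ℝ} {K : ℂ → ℂ → ℂ} (hη : 0 < η) (h : BiHol η M K) (a b : ℤ) :
    ‖fc2 (fun s t => K s t) a b‖ ≤ M * (ex η a * ex η b) := by
  have key : ∀ y : ℝ, |y| < η →
      ‖fc2 (fun s t => K s t) a b‖ ≤ M * ex η a * Real.exp (b * y) := fun y hy => by
    have e : fc2 (fun s t => K s t) a b =
        (Real.exp (b * y) : ℝ) * fc2 (fun s t => K s (t + I * y)) a b := by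
      rw [fc2, fc2, ← four3_mul]
      congr 1
      funext s
      exact fc_shift (neg_lt_zero.2 hη) hη (abs_lt.1 hy)
        (four3_strip η ▸ h.d2 s (four3_mem0 hη s))
        (fun t ht => h.p2 s (four3_mem0 hη s) t (four3_strip η ▸ ht)) b
    rw [e, four3_swap (h.four3_c continuous_ofReal (by fun_prop) (four3_mem0 hη) (four3_mem hy)),
      norm_mul, Complex.norm_real, Real.norm_of_nonneg (Real.exp_pos _).le, mul_comm]
    exact mul_le_mul_of_nonneg_right (norm_fc_le (fun t => fc_decay hη (h.d1 _ (four3_mem hy t))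
      (fun s hs => h.p1 s hs _ (four3_mem hy t)) (fun s hs => h.bd s hs _ (four3_mem hy t)) a) b)
      (Real.exp_pos _).le
  have c : Continuous fun t : ℝ => M * ex η a * Real.exp (-t * |(b : ℝ)|) := by fun_prop
  rw [← mul_assoc]
  refine ge_of_tendsto ((c.tendsto η).mono_left (nhdsWithin_le_nhds (s := Iio η))) ?_
  filter_upwards [Ioo_mem_nhdsLT hη] with t ht
  rcases le_total 0 (b : ℝ) with h | h
  · rw [abs_of_nonneg h, mul_comm (-t)]
    exact key _ (by rw [abs_neg, abs_of_pos ht.1]; exact ht.2)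
  · rw [abs_of_nonpos h, neg_mul_neg, mul_comm t]
    exact key _ (by rw [abs_of_pos ht.1]; exact ht.2)

theorem four3_ex {η : ℝ} (k : ℤ) (s : ℂ) :
    ex η k * ‖exp (I * k * s)‖ ≤ ex (η - |s.im|) k := by
  rw [norm_exp, ex, ex, ← Real.exp_add]
  refine Real.exp_le_exp.2 ?_
  have : (I * k * s).re = -(k * s.im) := by simp
  have h := neg_le_abs ((k : ℝ) * s.im)
  rw [abs_mul] at h
  rw [this]
  linarith

theorem four3_sum {η : ℝ} (hη : 0 < η) : Summable (ex η) :=
  (summable_ex hη 0).congr fun k => by rw [pow_zero, one_mul]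

theorem BiHol.inv {η M : ℝ} {K : ℂ → ℂ → ℂ} (hη : 0 < η) (h : BiHol η M K) {s t : ℂ}
    (hs : s ∈ strip η) (ht : t ∈ strip η) :
    fs2 (fun p => fc2 (fun s t => K s t) p.1 p.2) s t = K s t := by
  have M0 : 0 ≤ M := (norm_nonneg _).trans (h.bd s hs t ht)
  have x0 : ∀ (r : ℝ) k, 0 ≤ ex r k := fun _ _ => (Real.exp_pos _).le
  have s1 := four3_sum (sub_pos.2 hs)
  have s2 := four3_sum (sub_pos.2 ht)
  rw [four3_split (.of_norm_bounded ((s1.mul_of_nonneg s2 (x0 _) (x0 _)).mul_left M) fun p => ?_)]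
  · have e : ∀ b, fs (fun a => fc2 (fun s t => K s t) a b) s = fc (fun t : ℝ => K s t) b :=
      fun b => by
      have cg := h.four3_c (u := fun x => x + I * s.im) (by fun_prop) continuous_ofReal
        (four3_mem hs) (four3_mem0 hη)
      have e0 : ∀ a, fc2 (fun s t => K s t) a b =
          (Real.exp (a * s.im) : ℝ) * fc2 (fun x t => K (x + I * s.im) t) a b := fun a => by
        rw [four3_swap cg, four3_swap (h.four3_c continuous_ofReal continuous_ofReal
          (four3_mem0 hη) (four3_mem0 hη)), fc2, fc2, ← four3_mul]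
        congr 1
        funext t
        exact fc_shift (f := fun s => K s t) (neg_lt_zero.2 hη) hη (abs_lt.1 hs)
          (four3_strip η ▸ h.d1 t (four3_mem0 hη t))
          (fun s hs => h.p1 s (four3_strip η ▸ hs) t (four3_mem0 hη t)) a
      have e1 : ∀ a : ℤ, fc2 (fun s t => K s t) a b * exp (I * a * s) =
          fc2 (fun x t => K (x + I * s.im) t) a b * exp (I * a * s.re) := fun a => by
        rw [e0, mul_right_comm, mul_comm, ofReal_exp, ← exp_add]
        congr 2
        push_cast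
        linear_combination (-(I * a)) * re_add_im s + (a * s.im : ℂ) * I_mul_I
      have u : Summable fun a => ‖fc2 (fun x t => K (x + I * s.im) t) a b‖ :=
        .of_nonneg_of_le (fun _ => norm_nonneg _) (fun a => by
          have := congrArg norm (e1 a)
          rw [norm_mul, norm_mul, (four1_norm a s.re).1, mul_one] at this
          rw [← this]
          refine (mul_le_mul_of_nonneg_right (h.decay hη a b) (norm_nonneg _)).trans ?_
          rw [mul_comm (ex η a), ← mul_assoc, mul_assoc]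
          exact mul_le_mul_of_nonneg_left (four3_ex a s) (mul_nonneg M0 (x0 _ _)))
          (s1.mul_left (M * ex η b))
      have r := fs_fc (four3_cont cg b) (fun x => by
        refine congrArg (fun f => fc f b) (funext fun t => ?_)
        have := h.p1 _ (four3_mem hs x) t (four3_mem0 hη t)
        rw [← this]
        congr 1
        push_cast
        ring) u s.re
      rw [mul_comm I, re_add_im] at r
      rw [← r]
      simp only [fs, e1, mul_comm I (s.im : ℂ)]
      rfl
    simp only [e]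
    exact (fs_fc_strip (neg_lt_zero.2 hη) hη (four3_strip η ▸ h.d2 s hs)
      (fun t ht => h.p2 s hs t (four3_strip η ▸ ht)) (abs_lt.1 ht)).2
  · rw [norm_mul, norm_mul]
    refine (mul_le_mul_of_nonneg_right (h.decay hη _ _) (by positivity)).trans ?_
    rw [mul_assoc, mul_mul_mul_comm]
    exact mul_le_mul_of_nonneg_left (mul_le_mul (four3_ex _ s) (four3_ex _ t)
      (mul_nonneg (x0 _ _) (norm_nonneg _)) (x0 _ _)) M0

end StekIso
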