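import Pool.Agent.Lib.MP_fa022d_an.Defs4
import Pool.Agent.Lib.MP_fa022d_an.Ev
import Pool.Agent.Lib.MP_fa022d_an.Four3
import Pool.Agent.Lib.MP_fa022d_an.Hol1

open Set Filter Topology Metric BoundedContinuousFunction Complex

noncomputable section
namespace StekIso
variable {η : Pos}

theorem kerB_fd (a : ℤ) (v : A1 η) : ∃ D : A1 η →L[ℂ] A1 η,
    HasFDerivAt (fun v : A1 η => Gel v a) D v ∧
      ∀ w, D w = I • (NormedSpace.exp ((I * a) • v) * w) := by
  by_cases h : a = 0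
  · refine ⟨_, ((hasFDerivAt_id v).const_smul I).congr_of_eventuallyEq
      (.of_forall fun _ => if_pos h), fun w => ?_⟩
    simp [h]
  · have e := (((hasFDerivAt_exp (𝕂 := ℂ) (x := (I * a) • v)).comp v
      ((hasFDerivAt_id v).const_smul (I * a))).sub_const 1).const_smul (a : ℂ)⁻¹
    refine ⟨_, e.congr_of_eventuallyEq (.of_forall fun _ => if_neg h), fun w => ?_⟩
    have a0 : (a : ℂ) ≠ 0 := by exact_mod_cast h
    change (a : ℂ)⁻¹ • (NormedSpace.exp ((I * a) • v) * (I * a) • w) = _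
    rw [mul_smul_comm, smul_smul]
    congr 1
    field_simp

theorem Gel_basic (a : ℤ) : Differentiable ℂ (fun v : A1 η => Gel v a) ∧ ∀ v : A1 η,
    ‖Gel v a‖ ≤ ‖v‖ * Real.exp (|(a : ℝ)| * ‖v‖) ∧
    ‖Gel v a - I • v‖ ≤ |(a : ℝ)| * ‖v‖ ^ 2 * Real.exp (|(a : ℝ)| * ‖v‖) := by
  refine ⟨fun v => (kerB_fd a v).choose_spec.1.differentiableAt, fun v => ?_⟩
  by_cases h : a = 0
  · simp [Gel, h, norm_smul]
  · have a0 : (a : ℂ) ≠ 0 := by exact_mod_cast h
    have a1 : 0 < |(a : ℝ)| := abs_pos.2 (by exact_mod_cast h)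
    have n : ‖(I * a) • v‖ = |(a : ℝ)| * ‖v‖ := by simp [norm_smul]
    have e : I • v = (a : ℂ)⁻¹ • (I * a) • v := by
      rw [smul_smul]; congr 1; field_simp
    have h1 := norm_exp_sub_one_le ((I * a) • v)
    have h2 := norm_exp_sub_one_sub_le ((I * a) • v)
    rw [n] at h1 h2
    rw [Gel, if_neg h, e, ← smul_sub, norm_smul, norm_smul, norm_inv, Complex.norm_intCast,
      inv_mul_le_iff₀ a1, inv_mul_le_iff₀ a1]
    exact ⟨h1.trans (le_of_eq (by ring)), h2.trans (le_of_eq (by ring))⟩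

theorem beta_shift (η : ℝ) (hη : 0 ≤ η) (a k : ℤ) :
    beta η (k - a) ≤ beta η k * (br a ^ 4 * ex (-η) a) := by
  have t : |(k : ℝ)| ≤ |((k - a : ℤ) : ℝ)| + |(a : ℝ)| := by
    have := abs_add_le ((k - a : ℤ) : ℝ) (a : ℝ)
    rwa [show ((k - a : ℤ) : ℝ) + a = k by push_cast; ring] at this
  have e : ex η (k - a) ≤ ex η k * ex (-η) a := by
    rw [ex, ex, ex, ← Real.exp_add]
    exact Real.exp_le_exp.2 (by nlinarith)
  have p := br_pos k
  have q := br_pos (k - a)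
  have b : br k ≤ br a * br (k - a) := by
    unfold br
    nlinarith [abs_nonneg (a : ℝ), abs_nonneg ((k - a : ℤ) : ℝ)]
  have c := pow_le_pow_left₀ p.le b 4
  have x := ex_pos η (k - a)
  rw [beta, beta, div_mul_eq_mul_div, div_le_div_iff₀ (by positivity) (by positivity)]
  refine (mul_le_mul e c (by positivity) (x.le.trans e)).trans (le_of_eq (by ring))

theorem kerB_shift (u : A1 η) (a k : ℤ) : ‖u.coeff (k - a)‖ ≤
    ‖u‖ / 128 * (br a ^ 4 * ex (-η.1) a) * (1 / br k ^ (3 + 1) * ex η.1 k) :=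
  ((norm_coeff1_le u _).trans (mul_le_mul_of_nonneg_left (beta_shift _ η.2.le a k)
    (by positivity))).trans (le_of_eq (by rw [beta]; ring))

theorem kerB_zero {c : ℤ → ℂ} {C y : ℝ} (h : ∀ k, ‖c k‖ ≤ C * (1 / br k ^ 3 * ex y k)) (k : ℤ) :
    ‖c k‖ ≤ C * ex y k := by
  simpa using four2_down (m := 0) (four2_down (m := 1) (four2_down (m := 2) h)) k

theorem kerB_sum {c : ℤ → ℂ} {C y : ℝ} (h : ∀ k, ‖c k‖ ≤ C * ex y k) {s : ℂ} (hs : s ∈ strip y) :
    Summable fun k : ℤ => ‖c k * exp (I * k * s)‖ := by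
  obtain ⟨K, -, hK⟩ := fs_ex_bound (abs_nonneg s.im) hs 0
  exact (hK c C (by simpa using h) s le_rfl).1

theorem kerB_sum0 {c : ℤ → ℂ} {C y : ℝ} (hy : 0 < y) (h : ∀ k, ‖c k‖ ≤ C * ex y k) :
    Summable fun k : ℤ => ‖c k‖ := by
  simpa using kerB_sum h (s := 0) (by simpa [strip] using hy)

theorem kerB_fs (g : ℤ → ℂ) (a : ℤ) (s : ℂ) :
    fs (fun k => g (k - a)) s = exp (I * a * s) * fs g s := by
  rw [fs, fs, ← tsum_mul_left, ← (Equiv.addRight a).tsum_eq]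
  refine tsum_congr fun k => ?_
  rw [Equiv.coe_addRight, add_sub_cancel_right, mul_left_comm, ← Complex.exp_add]
  push_cast; ring_nf

theorem kerB_c0 (v : A1 η) (k : ℤ) : ‖v.coeff k‖ ≤ ‖v‖ / 128 * (1 / br k ^ (3 + 1) * ex η.1 k) :=
  (norm_coeff1_le v k).trans (le_of_eq (by rw [beta]; ring))

theorem kerB_d0 (v : A1 η) : DifferentiableOn ℂ (fs v.coeff) (strip η.1) ∧
    (∀ s ∈ strip η.1, HasDerivAt (fs v.coeff) (fs (dS v.coeff) s) s) ∧
      ∀ s : ℂ, fs v.coeff (s + 2 * Real.pi) = fs v.coeff s :=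
  fs_diff η.2 (kerB_zero (four2_down (kerB_c0 v)))

theorem Eco_diff (a' a : ℤ) : Differentiable ℂ fun v : A1 η => Eco v a' a :=
  (((WAlg.coeffL (a - a')).differentiable.comp (Gel_basic a').1).const_mul _).const_add _

theorem kerB_bd (u : A1 η) {t N : ℝ} (ht : t ≤ η.1 / 2) (hN : 0 ≤ N) (a' a : ℤ)
    (hu : ‖u‖ ≤ N * Real.exp (|(a' : ℝ)| * t)) : ‖a * u.coeff (a - a')‖ ≤
      N * |(a : ℝ)| * beta η.1 a * (br a' ^ 4 * ex (-(3 / 2 * η.1)) a') := by
  have e : Real.exp (|(a' : ℝ)| * t) ≤ ex (-(η.1 / 2)) a' :=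
    Real.exp_le_exp.2 (by nlinarith [abs_nonneg (a' : ℝ)])
  have h : ‖u‖ / 128 ≤ N * ex (-(η.1 / 2)) a' := by
    linarith [mul_le_mul_of_nonneg_left e hN, norm_nonneg u]
  have b := beta_pos η.1 (a - a')
  have x := ex_pos (-(η.1 / 2)) a'
  rw [norm_mul, Complex.norm_intCast, show -(3 / 2 * η.1) = -(η.1 / 2) + -η.1 by ring, ← four2_ex]
  refine (mul_le_mul_of_nonneg_left ((norm_coeff1_le u _).trans (mul_le_mul h
    (beta_shift _ η.2.le a' a) b.le (by positivity))) (abs_nonneg _)).trans (le_of_eq (by ring))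

theorem Eco_bd (v : A1 η) (hv : ‖v‖ ≤ η.1 / 2) (a' a : ℤ) :
    ‖Eco v a' a - (if a = a' then 1 else 0)‖ ≤
      ‖v‖ * |(a : ℝ)| * beta η.1 a * (br a' ^ 4 * ex (-(3 / 2 * η.1)) a') ∧
    ‖Eco v a' a - (if a = a' then 1 else 0) - a * I * v.coeff (a - a')‖ ≤
      ‖v‖ ^ 2 * |(a : ℝ)| * beta η.1 a * (br a' ^ 5 * ex (-(3 / 2 * η.1)) a') := by
  obtain ⟨h1, h2⟩ := (Gel_basic a').2 v
  rw [Eco, add_sub_cancel_left]
  refine ⟨kerB_bd _ hv (norm_nonneg _) a' a h1, ?_⟩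
  have p := br_pos a'
  have h3 := kerB_bd (N := br a' * ‖v‖ ^ 2) _ hv (by positivity) a' a (h2.trans (by
    gcongr
    unfold br; linarith))
  rw [WAlg.coeff_sub, WAlg.coeff_smul, mul_sub, ← mul_assoc] at h3
  exact h3.trans (le_of_eq (by ring))

theorem kerB_eco (v : A1 η) (a' a : ℤ) : Eco v a' a =
    (if a = a' then 1 else 0) + -I * dS (fun k => (Gel v a').coeff (k - a')) a := by
  rw [Eco, dS, ← mul_assoc, ← mul_assoc, neg_mul, I_mul_I, neg_neg, one_mul]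

theorem kerB_exp (v : A1 η) (a : ℤ) {s : ℂ} (hs : |s.im| ≤ η.1) (w : A1 η) :
    fs (NormedSpace.exp ((I * a) • v) * w).coeff s = exp (I * a * fs v.coeff s) * fs w.coeff s ∧
    fs (Gel v a).coeff s =
      if a = 0 then I * fs v.coeff s else (a : ℂ)⁻¹ * (exp (I * a * fs v.coeff s) - 1) := by
  obtain ⟨χ, h, h1, hm⟩ := exists_ev1 hs
  simp only [← h, Gel]
  refine ⟨by rw [hm, char_exp χ h1 hm, map_smul, smul_eq_mul], ?_⟩
  split_ifs
  · rw [map_smul, smul_eq_mul]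
  · rw [map_smul, map_sub, char_exp χ h1 hm, map_smul, h1, smul_eq_mul, smul_eq_mul]

/-- pointwise meaning: `ψ' exp (i a' ψ)` -/
theorem Eco_ev (v : A1 η) (a' : ℤ) {s : ℂ} (hs : s ∈ strip η.1) :
    fs (Eco v a') s = (1 + fs (dS v.coeff) s) * exp (I * a' * (s + fs v.coeff s)) := by
  have b := kerB_shift (Gel v a') a'
  have d := (fs_diff η.2 (kerB_zero (four2_down b))).2.1 s hs
  have dv := (kerB_d0 v).2.1 s hs
  have ev : ∀ᶠ t in 𝓝 s, fs (fun k => (Gel v a').coeff (k - a')) t = exp (I * a' * t) *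
      if a' = 0 then I * fs v.coeff t else (a' : ℂ)⁻¹ * (exp (I * a' * fs v.coeff t) - 1) := by
    filter_upwards [(isOpen_strip η.1).mem_nhds hs] with t ht
    rw [kerB_fs, (kerB_exp v a' (le_of_lt ht) 1).2]
  have e : fs (dS fun k => (Gel v a').coeff (k - a')) s = I * ((1 + fs (dS v.coeff) s) *
      exp (I * a' * (s + fs v.coeff s)) - exp (I * a' * s)) := by
    by_cases h : a' = 0
    · simp only [h, if_true] at ev d ⊢
      rw [d.unique (((four2_hd _ s).mul (dv.const_mul I)).congr_of_eventuallyEq ev)]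
      simp
    · have a0 : (a' : ℂ) ≠ 0 := by exact_mod_cast h
      simp only [h, if_false] at ev
      rw [d.unique (((four2_hd _ s).mul ((((dv.const_mul (I * a')).cexp).sub_const 1).const_mul
        (a' : ℂ)⁻¹)).congr_of_eventuallyEq ev), mul_add (I * a'), Complex.exp_add]
      field_simp
      ring
  have h1 : HasSum (fun a : ℤ => (if a = a' then 1 else 0) * exp (I * a * s)) (exp (I * a' * s)) :=
    (hasSum_ite_eq a' _).congr_fun fun a => by split_ifs with h <;> simp [h]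
  have h2 := (kerB_sum (kerB_zero (four2_dS b)) hs).of_norm.hasSum.mul_left (-I)
  have h3 : fs (Eco v a') s =
      exp (I * a' * s) + -I * fs (dS fun k => (Gel v a').coeff (k - a')) s :=
    ((h1.add h2).congr_fun fun a => by rw [kerB_eco]; ring).tsum_eq
  rw [h3, e, ← mul_assoc, neg_mul, I_mul_I]
  ring

theorem kerB_one (v : A1 η) (hv : ‖v‖ ≤ 1) {s : ℂ} (hs : s ∈ strip η.1) :
    1 / 2 ≤ ‖1 + fs (dS v.coeff) s‖ := by
  have h := (fs_beta_bound η.2 (norm_coeff1_le v) (le_of_lt hs)).2.1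
  have t := norm_sub_le (1 + fs (dS v.coeff) s) (fs (dS v.coeff) s)
  rw [add_sub_cancel_right, norm_one] at t
  linarith

theorem kerB_quot (v : A1 η) (hv : ‖v‖ ≤ 1) {f : ℂ → ℂ} {M : ℝ}
    (hf : DifferentiableOn ℂ f (strip η.1)) (hp : ∀ s, f (s + 2 * Real.pi) = f s)
    (hM : ∀ s ∈ strip η.1, ‖f s‖ ≤ M) :
    (∀ k, ‖fc (fun s => f s / (1 + fs (dS v.coeff) s)) k‖ ≤ 2 * M * ex η.1 k) ∧
    ∀ s : ℝ, fs (fc fun s => f s / (1 + fs (dS v.coeff) s)) s = f s / (1 + fs (dS v.coeff) s) := by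
  obtain ⟨d, -, p⟩ := fs_diff η.2 (kerB_zero (four2_dS (kerB_c0 v)))
  have D : DifferentiableOn ℂ (fun s => f s / (1 + fs (dS v.coeff) s)) (strip η.1) :=
    hf.div (d.const_add 1) fun s hs => norm_pos_iff.1 (by linarith [kerB_one v hv hs])
  have P : ∀ s : ℂ, f (s + 2 * Real.pi) / (1 + fs (dS v.coeff) (s + 2 * Real.pi)) =
      f s / (1 + fs (dS v.coeff) s) := fun s => by rw [hp, p]
  refine ⟨fc_decay (f := fun s => f s / (1 + fs (dS v.coeff) s)) η.2 D (fun s _ => P s)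
    fun s hs => ?_, fun s => ?_⟩
  · have := kerB_one v hv hs
    rw [norm_div, div_le_iff₀ (by linarith)]
    nlinarith [hM s hs, norm_nonneg (f s)]
  · exact (fs_fc_strip (f := fun s => f s / (1 + fs (dS v.coeff) s)) (s := s) (neg_lt_zero.2 η.2)
      η.2 (D.mono fun t ht => abs_lt.2 ht) (fun s _ => P s) (by simpa using η.2)).2

/-- coefficients of `1 / (1 + v')` and the formula for `xiC` -/
theorem xiC_eq (v w : A1 η) (hv : ‖v‖ ≤ 1) :
    (∀ k, ‖fc (ginv v) k‖ ≤ 2 * ex η.1 k) ∧ xiC v w = conv w.coeff (fc (ginv v)) ∧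
    (∀ k, ‖xiC v w k‖ ≤ ‖w‖ * ex η.1 k) ∧
    ∀ s : ℝ, fs (xiC v w) s * (1 + fs (dS v.coeff) s) = fs w.coeff s := by
  obtain ⟨g1, g2⟩ := kerB_quot v hv (f := fun _ => 1) (M := 1) (differentiableOn_const _)
    (fun _ => rfl) fun _ _ => by simp
  obtain ⟨x1, x2⟩ := kerB_quot v hv (kerB_d0 w).1 (kerB_d0 w).2.2 fun s hs =>
    (fs_beta_bound η.2 (norm_coeff1_le w) (le_of_lt hs)).1
  refine ⟨fun k => (g1 k).trans (by rw [mul_one]), funext fun k => ?_, fun k => (x1 k).trans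
    (mul_le_mul_of_nonneg_right (by linarith [norm_nonneg w]) (ex_pos _ _).le), fun s => ?_⟩
  · rw [← fc_mul (d := fc (ginv v)) (kerB_sum0 η.2 (kerB_zero (four2_down (kerB_c0 w))))
      (kerB_sum0 η.2 g1)]
    refine congrArg (fc · k) (funext fun s => ?_)
    rw [show fs (fc (ginv v)) s = _ from g2 s, mul_one_div]
    rfl
  · rw [show fs (xiC v w) s = _ from x2 s]
    exact div_mul_cancel₀ _ (norm_pos_iff.1 (by
      linarith [kerB_one v hv (s := s) (by simpa [strip] using η.2)]))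

/-- derivative of `Eco`: the coefficients of `(ξ E)'` -/
theorem Eco_fderiv (v w : A1 η) (hv : ‖v‖ ≤ 1) (a' a : ℤ) :
    fderiv ℂ (fun v : A1 η => Eco v a' a) v w = I * a * conv (xiC v w) (Eco v a') a := by
  obtain ⟨D, hD, e⟩ := kerB_fd a' v
  have d : HasFDerivAt (fun v : A1 η => Eco v a' a) _ v :=
    ((((WAlg.coeffL (a - a')).hasFDerivAt.comp v hD).const_mul (a : ℂ)).const_add _)
  obtain ⟨-, -, x1, x2⟩ := xiC_eq v w hv
  have s1 : Summable fun k => ‖Eco v a' k‖ := by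
    refine summable_norm_iff.2 (((hasSum_ite_eq a' (1 : ℂ)).summable.add
      ((kerB_sum0 η.2 (kerB_zero (four2_dS (kerB_shift (Gel v a') a')))).of_norm.mul_left
        (-I))).congr fun k => (kerB_eco v a' k).symm)
  have c : conv (xiC v w) (Eco v a') a = (NormedSpace.exp ((I * a') • v) * w).coeff (a - a') := by
    rw [← fc_mul (kerB_sum0 η.2 x1) s1, ← fc_fs (kerB_sum0 η.2 (kerB_zero (four2_down
      (kerB_shift (NormedSpace.exp ((I * a') • v) * w) a')))) a]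
    refine congrArg (fc · a) (funext fun s => ?_)
    have hs : (s : ℂ) ∈ strip η.1 := by simpa [strip] using η.2
    rw [Eco_ev v a' hs, ← mul_assoc, x2, kerB_fs, (kerB_exp v a' (le_of_lt hs) w).1,
      mul_add (I * a'), Complex.exp_add]
    ring
  rw [d.fderiv, c]
  change (a : ℂ) * (D w).coeff (a - a') = _
  rw [e, WAlg.coeff_smul]
  ring

end StekIso
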