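import Pool.Agent.Lib.MP_fa022d_an.Defs6
import Pool.Agent.Lib.MP_fa022d_an.KerB

open Set Filter Topology Metric BoundedContinuousFunction Complex

noncomputable section
namespace StekIso

theorem curvd_gen {a b : ℤ → ℝ} {P G : ℝ} (ha : HasSum a P) (hb : HasSum b G) (a0 : ∀ k, 0 ≤ a k)
    (b0 : ∀ k, 0 ≤ b k) {φ : ℤ → ℤ → ℂ} (h : ∀ k l, ‖φ k l‖ ≤ a l * b (k - l)) :
    Summable (fun k => ‖∑' l, φ k l‖) ∧ ∑' k, ‖∑' l, φ k l‖ ≤ P * G := by
  let e : ℤ × ℤ ≃ ℤ × ℤ :=
    { toFun := fun p => (p.2, p.1 - p.2), invFun := fun p => (p.1 + p.2, p.1),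
      left_inv := fun p => by simp, right_inv := fun p => by simp }
  have s := ha.summable.mul_of_nonneg hb.summable a0 b0
  have t : HasSum (fun p : ℤ × ℤ => a p.2 * b (p.1 - p.2)) (P * G) :=
    e.hasSum_iff.2 (ha.mul hb s)
  have u := t.prod_fiberwise fun k => (t.summable.prod_factor k).hasSum
  have w (k : ℤ) : ‖∑' l, φ k l‖ ≤ ∑' l, a l * b (k - l) :=
    tsum_of_norm_bounded (t.summable.prod_factor k).hasSum (h k)
  have z : Summable fun k => ‖∑' l, φ k l‖ :=
    .of_nonneg_of_le (fun _ => norm_nonneg _) w u.summable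
  exact ⟨z, hasSum_le w z.hasSum u⟩

theorem curvd_br (k l : ℤ) : br l ≤ br k * br (k - l) := by
  have t : |(l : ℝ)| ≤ |(k : ℝ)| + |((k - l : ℤ) : ℝ)| := by
    have := abs_sub (k : ℝ) ((k - l : ℤ) : ℝ)
    rwa [show (k : ℝ) - ((k - l : ℤ) : ℝ) = l by push_cast; ring] at this
  unfold br
  nlinarith [mul_nonneg (abs_nonneg (k : ℝ)) (abs_nonneg ((k - l : ℤ) : ℝ))]

theorem curvd_sg (k : ℤ) : ‖(Int.sign k : ℂ)‖ ≤ 1 := by
  rcases lt_trichotomy k 0 with h | h | h
  · simp [Int.sign_eq_neg_one_of_neg h]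
  · simp [h]
  · simp [Int.sign_eq_one_of_pos h]

theorem curvd_sign (k l : ℤ) :
    ‖(Int.sign k : ℂ) - Int.sign l‖ * br l ≤ 2 * br (k - l) := by
  by_cases h : Int.sign k = Int.sign l
  · rw [h, sub_self, norm_zero, zero_mul]; linarith [br_pos (k - l)]
  · have a : |l| ≤ |k - l| := by
      rcases lt_trichotomy l 0 with p | p | p
      · have : 0 ≤ k := not_lt.1 fun q =>
          h ((Int.sign_eq_neg_one_of_neg q).trans (Int.sign_eq_neg_one_of_neg p).symm)
        rw [abs_of_neg p, abs_of_nonneg (by omega)]; omega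
      · rw [p, abs_zero]; exact abs_nonneg _
      · have : k ≤ 0 := not_lt.1 fun q =>
          h ((Int.sign_eq_one_of_pos q).trans (Int.sign_eq_one_of_pos p).symm)
        rw [abs_of_pos p, abs_of_nonpos (by omega)]; omega
    have b : br l ≤ br (k - l) := by
      unfold br
      have : |(l : ℝ)| ≤ |((k - l : ℤ) : ℝ)| := by exact_mod_cast a
      linarith
    have c := (norm_sub_le _ _).trans (add_le_add (curvd_sg k) (curvd_sg l))
    nlinarith [br_pos l, norm_nonneg ((Int.sign k : ℂ) - Int.sign l)]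

theorem curvd_div {c : ℤ → ℂ} (hc : Summable fun k => ‖c k‖) : Summable fun k => ‖c k‖ / br k :=
  .of_nonneg_of_le (fun k => div_nonneg (norm_nonneg _) (br_pos k).le)
    (fun k => div_le_self (norm_nonneg _) (one_le_br k)) hc

theorem curvd_conv {c d : ℤ → ℂ} (hc : Summable fun k => ‖c k‖) (hd : Summable fun k => ‖d k‖)
    (k : ℤ) : Summable fun h => c h * d (k - h) :=
  .of_norm_bounded (hc.mul_right (∑' n, ‖d n‖)) fun h => by
    rw [norm_mul]
    exact mul_le_mul_of_nonneg_left (hd.le_tsum _ fun _ _ => norm_nonneg _) (norm_nonneg _)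

theorem curvd_weak {c g : ℤ → ℂ} {G : ℝ} (hc : Summable fun k => ‖c k‖)
    (hg : HasSum (fun k => br k * ‖g k‖) G) :
    ∑' k, ‖conv c g k‖ / br k ≤ G * ∑' k, ‖c k‖ / br k ∧
    ∀ s : ℝ, ‖hil (conv c g) s - fs g s * hil c s‖ ≤ 2 * G * ∑' k, ‖c k‖ / br k := by
  have a0 (k : ℤ) : 0 ≤ ‖c k‖ / br k := div_nonneg (norm_nonneg _) (br_pos k).le
  have b0 (k : ℤ) : 0 ≤ br k * ‖g k‖ := mul_nonneg (br_pos k).le (norm_nonneg _)
  have ha := (curvd_div hc).hasSum
  have g1 : Summable fun k => ‖g k‖ := .of_nonneg_of_le (fun _ => norm_nonneg _)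
    (fun k => le_mul_of_one_le_left (norm_nonneg _) (one_le_br k)) hg.summable
  constructor
  · have := (curvd_gen ha hg a0 b0 (φ := fun k l => c l * g (k - l) / (br k : ℝ))
      fun k l => ?_).2
    · rw [mul_comm]
      refine le_trans (le_of_eq (tsum_congr fun k => ?_)) this
      rw [tsum_div_const, norm_div, Complex.norm_real, Real.norm_of_nonneg (br_pos k).le, conv]
    · rw [norm_div, Complex.norm_real, Real.norm_of_nonneg (br_pos k).le, norm_mul,
        div_mul_eq_mul_div, div_le_div_iff₀ (br_pos _) (br_pos _)]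
      nlinarith [mul_le_mul_of_nonneg_left (curvd_br k l)
        (mul_nonneg (norm_nonneg (c l)) (norm_nonneg (g (k - l))))]
  · intro s
    have sg {d : ℤ → ℂ} (hd : Summable fun k => ‖d k‖) :
        Summable fun k : ℤ => ‖-I * Int.sign k * d k‖ :=
      .of_nonneg_of_le (fun _ => norm_nonneg _) (fun k => by
        rw [norm_mul, norm_mul, norm_neg, norm_I, one_mul]
        exact mul_le_of_le_one_left (norm_nonneg _) (curvd_sg k)) hd
    have s0 : Summable fun k => ‖conv c g k‖ :=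
      (fs_conv (four1_sum hc 0) (four1_sum g1 0) (curvd_conv hc g1)).1.congr fun n => by
        rw [norm_mul, (four1_norm n 0).1, mul_one]
    obtain ⟨s1, e1⟩ := fs_conv (four1_sum (sg hc) s) (four1_sum g1 s) (curvd_conv (sg hc) g1)
    obtain ⟨s2, e2⟩ := curvd_gen ha (hg.mul_left 2) a0 (fun k => mul_nonneg zero_le_two (b0 k))
      (φ := fun k l => -I * ((Int.sign k : ℂ) - Int.sign l) * (c l * g (k - l))) fun k l => by
        rw [norm_mul, norm_mul, norm_mul, norm_neg, norm_I, one_mul, div_mul_eq_mul_div,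
          le_div_iff₀ (br_pos _)]
        nlinarith [mul_le_mul_of_nonneg_left (curvd_sign k l)
          (mul_nonneg (norm_nonneg (c l)) (norm_nonneg (g (k - l))))]
    rw [mul_comm (fs g s), hil, hil, ← e1, fs, fs,
      ← (four1_sum (sg s0) s).of_norm.tsum_sub s1.of_norm, mul_comm (2 * G)]
    refine (tsum_of_norm_bounded s2.hasSum fun k => le_of_eq ?_).trans e2
    rw [← sub_mul, norm_mul, (four1_norm k s).1, mul_one, conv, conv, ← tsum_mul_left,
      ← ((curvd_conv hc g1 k).mul_left _).tsum_sub (curvd_conv (sg hc) g1 k)]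
    congr 1
    exact tsum_congr fun l => by ring

theorem curvd_l1 {η : Pos} (w : A1 η) : Summable fun k => ‖w.coeff k‖ :=
  kerB_sum0 η.2 (kerB_zero (four2_down (kerB_c0 w)))

/-- `ξ = w / (1 + v')` has coefficients `conv w g` with `g` exponentially small (`xiC_eq`);
`1 / br (k + l) ≤ br l / br k`; `sign (k + l) ≠ sign k` forces `|k| ≤ |l|`. -/
theorem xi_weak (η : Pos) : ∃ C ≥ 1, ∀ v w : A1 η, ‖v‖ ≤ 1 →
    ∑' k, ‖xiC v w k‖ / br k ≤ C * ∑' k, ‖w.coeff k‖ / br k ∧
    ∀ s : ℝ, ‖hil (xiC v w) s - ginv v s * hil w.coeff s‖ ≤ C * ∑' k, ‖w.coeff k‖ / br k := by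
  obtain ⟨K, hK, a⟩ := four2_K η.2 1
  refine ⟨4 * K + 1, by linarith, fun v w hv => ?_⟩
  obtain ⟨g1, e, -, -⟩ := xiC_eq v w hv
  have b (k : ℤ) : br k * ‖fc (ginv v) k‖ ≤ 2 * (br k ^ 1 * ex η.1 k) := by
    have := mul_le_mul_of_nonneg_left (g1 k) (br_pos k).le
    rw [pow_one]; linarith
  have s : Summable fun k => br k * ‖fc (ginv v) k‖ := .of_nonneg_of_le
    (fun k => mul_nonneg (br_pos k).le (norm_nonneg _)) b (a.mul_left 2).summable
  have hG := hasSum_le b s.hasSum (a.mul_left 2)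
  obtain ⟨h1, h2⟩ := curvd_weak (curvd_l1 w) s.hasSum
  have P : 0 ≤ ∑' k, ‖w.coeff k‖ / br k :=
    tsum_nonneg fun k => div_nonneg (norm_nonneg _) (br_pos k).le
  rw [e]
  refine ⟨h1.trans (mul_le_mul_of_nonneg_right (by linarith) P), fun t => ?_⟩
  have g2 : fs (fc (ginv v)) t = ginv v t := (kerB_quot v hv (f := fun _ => 1) (M := 1)
    (differentiableOn_const _) (fun _ => rfl) fun _ _ => by simp).2 t
  rw [← g2]
  exact (h2 t).trans (mul_le_mul_of_nonneg_right (by linarith) P)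

theorem ginv_real {η : Pos} (v : A1 η) (hv : ‖v‖ ≤ 1)
    (hr : ∀ k, v.coeff (-k) = (starRingEnd ℂ) (v.coeff k)) (s : ℝ) :
    ∃ g ∈ Icc (1 / 2 : ℝ) 2, ginv v s = g := by
  have h := (fs_beta_bound η.2 (norm_coeff1_le v) (s := s) (by simpa using η.2.le)).2.1
  have r : (fs (dS v.coeff) s).im = 0 := fs_real (fun k => by simp [dS, hr]) s
  obtain ⟨x, hx⟩ : ∃ x : ℝ, fs (dS v.coeff) s = x := ⟨_, (ext rfl (by simpa using r))⟩
  rw [hx, Complex.norm_real, Real.norm_eq_abs, abs_le] at h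
  have p : 0 < 1 + x := by linarith [h.1]
  refine ⟨1 / (1 + x), ⟨?_, ?_⟩, by rw [ginv, hx]; push_cast; rfl⟩
  · rw [le_div_iff₀ p]; linarith [h.2]
  · rw [div_le_iff₀ p]; linarith [h.1]

theorem curvd_pn {η : Pos} (w : V η) : Summable fun b : Idx => ‖(w b.1).coeff b.2‖ / br b.2 :=
  (summable_prod_of_nonneg fun b => div_nonneg (norm_nonneg _) (br_pos b.2).le).2
    ⟨fun j => curvd_div (curvd_l1 (w j)), Summable.of_finite⟩

theorem pn_comp {η : Pos} (w : V η) (j : Bool) : ∑' k, ‖(w j).coeff k‖ / br k ≤ pn w := by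
  rw [pn, (curvd_pn w).tsum_prod, tsum_fintype (L := SummationFilter.unconditional Bool)]
  exact Finset.single_le_sum (f := fun j => ∑' k, ‖(w j).coeff k‖ / br k)
    (fun i _ => tsum_nonneg fun k => div_nonneg (norm_nonneg _) (br_pos k).le) (Finset.mem_univ j)

theorem wn_le_pn {η : Pos} {a : ℝ} (ha : 0 < a) : ∃ K ≥ 1, ∀ w : V η, wn a w ≤ K * pn w := by
  obtain ⟨K, hK, h⟩ := br_pow_ex_le ha 1
  refine ⟨K + 1, by linarith, fun w => ?_⟩
  have b (c : Idx) : ‖(w c.1).coeff c.2‖ * ex a c.2 ≤ (K + 1) * (‖(w c.1).coeff c.2‖ / br c.2) := by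
    have := h c.2
    rw [pow_one, show ex 0 c.2 = 1 by simp [ex]] at this
    rw [← mul_div_assoc, le_div_iff₀ (br_pos _)]
    nlinarith [norm_nonneg ((w c.1).coeff c.2)]
  rw [wn, pn, ← tsum_mul_left]
  exact (Summable.of_nonneg_of_le (fun c => mul_nonneg (norm_nonneg _) (ex_pos _ _).le) b
    ((curvd_pn w).mul_left _)).tsum_le_tsum b ((curvd_pn w).mul_left _)

end StekIso
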