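import Pool.Agent.Lib.MP_fa022d_an.CurvA
import Pool.Agent.Lib.MP_fa022d_an.CurvD

open Set Filter Topology Metric BoundedContinuousFunction Complex

noncomputable section
namespace StekIso

theorem curvb_ap {a C M : ℝ} {S : Idx → Idx → ℂ} (h0 : 0 < a) (h : Crude a C S) {q : Idx → ℂ}
    (hq : ∀ c, ‖q c‖ ≤ M) (b : Idx) :
    Summable (fun c => S b c * q c) ∧ ‖Sap S q b‖ ≤ C * EE a * M * ex a b.2 := by
  obtain ⟨hC, -, hs, -⟩ := h.rowBdd h0
  have k : ∀ c, ‖S b c * q c‖ ≤ C * M * ex a b.2 * ex a c.2 := fun c => by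
    rw [norm_mul]
    exact (mul_le_mul (h b c) (hq c) (norm_nonneg _) ((norm_nonneg _).trans (h b c))).trans_eq
      (by ring)
  refine ⟨.of_norm_bounded (hs.mul_left _) k,
    (tsum_of_norm_bounded (hs.hasSum.mul_left _) k).trans_eq ?_⟩
  rw [EE]; ring

theorem curvb_p {a : ℝ} (h0 : 0 < a) : ∃ K > 0, ∀ (C N : ℝ) (S : Idx → Idx → ℂ)
    (ξ : Bool → ℤ → ℂ), Crude a C S → (∀ j, Summable fun k => ‖ξ j k‖) →
    (∀ j, ∑' k, ‖ξ j k‖ / br k ≤ N) → ∀ b, Summable (fun c => S b c * dS (ξ c.1) c.2) ∧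
      ‖Sap S (fun c => dS (ξ c.1) c.2) b‖ ≤ C * K * N * ex a b.2 := by
  obtain ⟨K, K0, hK⟩ := br_pow_ex_le h0 2
  refine ⟨2 * K, by positivity, fun C N S ξ h hs hN b => ?_⟩
  obtain ⟨hC, -⟩ := h.rowBdd h0
  have e0 := ex_pos a b.2
  have s : Summable fun c : Idx => ‖ξ c.1 c.2‖ / br c.2 :=
    (summable_prod_of_nonneg fun c => div_nonneg (norm_nonneg _) (br_pos _).le).2
      ⟨fun j => .of_nonneg_of_le (fun k => div_nonneg (norm_nonneg _) (br_pos _).le)
        (fun k => div_le_self (norm_nonneg _) (one_le_br _)) (hs j), Summable.of_finite⟩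
  have k : ∀ c : Idx, ‖S b c * dS (ξ c.1) c.2‖ ≤
      C * K * ex a b.2 * (‖ξ c.1 c.2‖ / br c.2) := fun c => by
    have h1 := hK c.2
    have h2 : ex 0 c.2 = 1 := by simp [ex]
    have h3 := br_pos c.2
    rw [h2, mul_one] at h1
    rw [norm_mul]
    calc _ ≤ C * (ex a b.2 * ex a c.2) * (br c.2 * ‖ξ c.1 c.2‖) :=
          mul_le_mul (h b c) (kerk_dS _ _).1 (norm_nonneg _) ((norm_nonneg _).trans (h b c))
      _ = C * (br c.2 ^ 2 * ex a c.2) * ex a b.2 * (‖ξ c.1 c.2‖ / br c.2) := by field_simp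
      _ ≤ _ := by gcongr
  refine ⟨.of_norm_bounded (s.mul_left _) k,
    (tsum_of_norm_bounded (s.hasSum.mul_left _) k).trans ?_⟩
  rw [s.tsum_prod, tsum_fintype, Fintype.sum_bool]
  have := mul_le_mul_of_nonneg_left (add_le_add (hN true) (hN false))
    (by positivity : 0 ≤ C * K * ex a b.2)
  linarith

theorem curvb_psi {η m M : ℝ} (hη : 0 < η) (hm : 0 < m) {θ : Bool → ℂ → ℂ}
    (h : ∀ j, CMap η m M (θ j)) {lam : ℂ} (hl : lam.im = 0) (b : Idx) :
    psiC θ lam (ng b) = (starRingEnd ℂ) (psiC θ lam b) := by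
  have := fc_conj (fun s => (if b.1 then 0 else lam) - log (deriv (θ b.1) s)) (-b.2)
  rw [neg_neg] at this
  rw [psiC, psiC, ← this]
  refine congrArg (fc · (-b.2)) (funext fun s => (conj_eq_iff_im.2 ?_).symm)
  have h1 : deriv (θ b.1) s = ((deriv (θ b.1) s).re : ℂ) :=
    Complex.ext rfl (basek_dre hη (h b.1) s)
  have h2 := hm.trans_le ((h b.1).lo s (basek_re hη s))
  show ((if b.1 then 0 else lam) - log (deriv (θ b.1) s)).im = 0
  rw [h1, ← ofReal_log h2.le, sub_im, ofReal_im]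
  split_ifs <;> simp [hl]

theorem curvb_conj {S : Idx → Idx → ℂ} (hs : RSym S) {q : Idx → ℂ}
    (hq : ∀ b, q (ng b) = (starRingEnd ℂ) (q b)) (b : Idx) :
    Tm S q (ng b) = (starRingEnd ℂ) (Tm S q b) := by
  rw [Tm, Tm, map_add, map_mul, Sap, Sap, conj_tsum, ← keriNg.tsum_eq, hq, map_intCast]
  congr 1
  · simp [ng]
  · refine tsum_congr fun c => ?_
    show S (ng b) (ng c) * q (ng c) = _
    rw [hs, hq, map_mul]

theorem curvb_dH {B : Base} {η : Pos} {C : ℝ} (hK : KerOK B η C) {z : V η × ℂ}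
    (hz : z ∈ dom B η (δK B η)) (hH : ‖z.2 - B.H0‖ ≤ 1 / 2) (h : ℂ) :
    Crude (7 / 8 * η.1) (2 * C * ‖h‖) (dSm B z (0, h)) := fun b c => by
  have ho : IsOpen (dom B η (δK B η)) := isOpen_ball.prod isOpen_ball
  have hm : ∀ H ∈ ball z.2 (1 / 2), (z.1, H) ∈ dom B η (δK B η) := fun H k => ⟨hz.1, by
    rw [mem_ball_iff_norm] at k ⊢
    linarith [norm_sub_le_norm_sub_add_norm_sub H z.2 (B.H0 : ℂ)]⟩
  have hd : DifferentiableOn ℂ (fun H => Smat B (z.1, H) b c) (ball z.2 (1 / 2)) :=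
    (hK.diff b c).comp ((differentiableOn_const _).prodMk differentiableOn_id) hm
  have := cauchy_fderiv (by norm_num) hd fun H k => hK.crude _ (hm H k) b c
  have g1 : HasFDerivAt (fun z => Smat B z b c) (fderiv ℂ (fun z => Smat B z b c) z)
      ((fun H : ℂ => (z.1, H)) z.2) :=
    ((hK.diff b c).differentiableAt (ho.mem_nhds hz)).hasFDerivAt
  have e : fderiv ℂ (fun H => Smat B (z.1, H) b c) z.2 = _ :=
    (g1.comp z.2 (hasFDerivAt_prodMk_right z.1 z.2)).fderiv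
  have e' : dSm B z (0, h) b c = fderiv ℂ (fun H => Smat B (z.1, H) b c) z.2 h := by
    rw [e]; rfl
  rw [e']
  refine (ContinuousLinearMap.le_opNorm _ _).trans
    ((mul_le_mul_of_nonneg_right this (norm_nonneg _)).trans_eq ?_)
  ring

theorem curvb_dv {B : Base} {η : Pos} {C : ℝ} (hK : KerOK B η C) {z : V η × ℂ}
    (hz : z ∈ dom B η (δK B η)) (w : V η × ℂ) : ∃ D, Crude (7 / 8 * η.1) D (dSm B z w) := by
  have ho : IsOpen (dom B η (δK B η)) := isOpen_ball.prod isOpen_ball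
  obtain ⟨r, r0, hr⟩ := Metric.isOpen_iff.1 ho z hz
  refine ⟨C / r * ‖w‖, fun b c => ?_⟩
  have := cauchy_fderiv r0 ((hK.diff b c).mono hr) fun y hy => hK.crude y (hr hy) b c
  refine (ContinuousLinearMap.le_opNorm _ _).trans
    ((mul_le_mul_of_nonneg_right this (norm_nonneg _)).trans_eq ?_)
  ring

/-- `δ κ = (ξ κ)' - T ξ' + δ H ∂_H S ψ` (`Smat_comm_ap`, `psiC_ok`); the smoothing part of
`T ξ'` and the `H` term (Cauchy estimate in `H`, `KerOK.Hins`) go into the remainder -/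
theorem kapV_ok {B : Base} {C0 : ℝ} (hB : BaseOK B C0) {η : Pos} (hη : 12 * η.1 ≤ B.η0) {C : ℝ}
    (hK : KerOK B η C) {lam0 : ℝ} (hH : Hof B ((0 : V η), (lam0 : ℂ)) = B.H0) :
    ∃ δ > 0, δ ≤ δK B η ∧ δ ≤ 1 ∧ ∃ C' ≥ 1,
      (∀ z ∈ domC η lam0 δ, ‖Hof B z - B.H0‖ ≤ 1 / 2) ∧
      (∀ k, DifferentiableOn ℂ (fun z => kapV B z k) (domC η lam0 δ)) ∧
      ∀ z ∈ domC η lam0 δ, (∀ k, ‖kapV B z k‖ ≤ C' * ex (3 / 4 * η.1) k) ∧
        (RealV z.1 → z.2.im = 0 → ∀ k, kapV B z (-k) = (starRingEnd ℂ) (kapV B z k)) ∧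
        ∀ (w : V η) (k : ℤ), ‖fderiv ℂ (fun z => kapV B z k) z (w, 0) -
          I * k * (conv (xiC (z.1 true) (w true)) (kapV B z) k -
            |k| * xiC (z.1 true) (w true) k)‖ ≤ C' * pn w * ex (3 / 4 * η.1) k := by
  have h0 := η.2
  have ha : 0 < 7 / 8 * η.1 := by positivity
  have ha' : 0 < 3 / 4 * η.1 := by positivity
  have hC := hK.one_le
  have δ0 : 0 < δK B η := lt_min (half_pos h0) (lt_min (by have := one_le_K2 η; positivity)
    (div_pos B.m_pos (B.m_pos.trans_le (kerf_mM B))))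
  obtain ⟨P, hP, hψ⟩ := psiC_ok hη (|lam0| + 1)
  obtain ⟨X, hX, hxi⟩ := xi_weak η
  obtain ⟨W, hW, hwn⟩ := wn_le_pn (η := η) ha'
  obtain ⟨K, K0, hp⟩ := curvb_p ha
  obtain ⟨K1, K10, hK1⟩ := br_pow_ex_le (show 3 / 4 * η.1 < η.1 by linarith) 1
  have E0 : 0 ≤ EE (7 / 8 * η.1) := tsum_nonneg fun c => (ex_pos _ _).le
  set δ := min (δK B η) (1 / (4 * C)) with hδ
  have δ1 : δ ≤ δK B η := min_le_left _ _
  have δ2 : C * δ ≤ 1 / 4 := (mul_le_mul_of_nonneg_left (min_le_right _ _) (by linarith)).trans_eq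
    (by field_simp)
  have δp : 0 < δ := lt_min δ0 (by positivity)
  have δ3 : δ ≤ 1 / 4 := by nlinarith
  have hv : ∀ z ∈ domC η lam0 δ, ‖z.1‖ < δK B η := fun z hz =>
    (mem_ball_zero_iff.1 hz.1).trans_le δ1
  have hl : ∀ z ∈ domC η lam0 δ, ‖z.2‖ ≤ |lam0| + 1 := fun z hz => by
    have h1 := mem_ball_iff_norm.1 hz.2
    have h2 := norm_sub_norm_le z.2 lam0
    rw [Complex.norm_real, Real.norm_eq_abs] at h2
    linarith
  have inH : ∀ z ∈ domC η lam0 δ, ‖Hof B z - B.H0‖ ≤ 1 / 2 := fun z hz => by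
    have h1 := hK.Hlip z.1 (hv z hz) z.2
    have h2 : Hof B ((0 : V η), z.2) - B.H0 = -(z.2 - lam0) := by
      rw [← hH]; simp only [Hof, Hfun]; ring
    have h3 := mem_ball_iff_norm.1 hz.2
    have h4 := norm_sub_le_norm_sub_add_norm_sub (Hof B z) (Hof B ((0 : V η), z.2)) B.H0
    rw [h2, norm_neg] at h4
    have h5 := mul_le_mul_of_nonneg_left (mem_ball_zero_iff.1 hz.1).le (by linarith : 0 ≤ C)
    linarith
  have hι : ∀ z ∈ domC η lam0 δ, (z.1, Hof B z) ∈ dom B η (δK B η) := fun z hz =>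
    ⟨mem_ball_zero_iff.2 (hv z hz), mem_ball_iff_norm.2 (by linarith [inH z hz])⟩
  have sub : domC η lam0 δ ⊆ ball (0 : V η) (δK B η) ×ˢ univ := fun z hz =>
    ⟨mem_ball_zero_iff.2 (hv z hz), trivial⟩
  have ho : IsOpen (domC η lam0 δ) := isOpen_ball.prod isOpen_ball
  have ho' : IsOpen (dom B η (δK B η)) := isOpen_ball.prod isOpen_ball
  have dψ : ∀ c, DifferentiableOn ℂ (fun z : V η × ℂ => psiC (thOf B z.1) z.2 c)
      (domC η lam0 δ) := fun c => (hψ c).1.mono sub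
  have bψ : ∀ z ∈ domC η lam0 δ, ∀ c, ‖psiC (thOf B z.1) z.2 c‖ ≤ P * ex η.1 c.2 :=
    fun z hz c => ((hψ c).2 z.1 (hv z hz) z.2 (hl z hz)).1
  have bψ' : ∀ z ∈ domC η lam0 δ, ∀ c, ‖psiC (thOf B z.1) z.2 c‖ ≤ P := fun z hz c =>
    (bψ z hz c).trans (mul_le_of_le_one_right (by linarith) (kerk_ex h0.le _))
  have dι : DifferentiableOn ℂ (fun z : V η × ℂ => (z.1, Hof B z)) (domC η lam0 δ) :=
    differentiableOn_fst.prodMk (hK.Hdiff.mono sub)
  have dSι : ∀ b c, DifferentiableOn ℂ (fun z : V η × ℂ => Smat B (z.1, Hof B z) b c)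
      (domC η lam0 δ) := fun b c => (hK.diff b c).comp dι hι
  have main := fun b : Idx => diffOn_tsum ho
    (f := fun c z => Smat B (z.1, Hof B z) b c * psiC (thOf B z.1) z.2 c)
    (u := fun c => C * P * ex (7 / 8 * η.1) c.2)
    ((keri_idx (kerj_sum ha) fun k => (ex_pos _ _).le).mul_left _)
    (fun c => (dSι b c).mul (dψ c)) fun c z hz => by
      rw [norm_mul]
      have h1 := (hK.crude _ (hι z hz) b c).trans (mul_le_mul_of_nonneg_left
        (mul_le_of_le_one_left (ex_pos _ _).le (kerk_ex ha.le _)) (by linarith))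
      exact (mul_le_mul h1 (bψ' z hz c) (norm_nonneg _) ((norm_nonneg _).trans h1)).trans_eq
        (by ring)
  have ek : ∀ k : ℤ, (fun z : V η × ℂ => kapV B z k) = fun z =>
      (|k| : ℤ) * psiC (thOf B z.1) z.2 (true, k) +
        ∑' c, Smat B (z.1, Hof B z) (true, k) c * psiC (thOf B z.1) z.2 c := fun k => rfl
  have c1 : 0 ≤ K1 * P := by positivity
  have c2 : 0 ≤ C * EE (7 / 8 * η.1) * P := by positivity
  have c3 : 0 ≤ C * K * X := by positivity
  have c4 : 0 ≤ 2 * C * (C * W) * EE (7 / 8 * η.1) * P := by positivity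
  refine ⟨δ, δp, δ1, by linarith, 1 + K1 * P + C * EE (7 / 8 * η.1) * P + C * K * X +
    2 * C * (C * W) * EE (7 / 8 * η.1) * P, by linarith, inH, fun k => ?_,
    fun z hz => ⟨fun k => ?_, fun r i k => ?_, fun w k => ?_⟩⟩
  · rw [ek]; exact ((dψ _).const_mul _).add (main _).1
  · have e0 := ex_pos (3 / 4 * η.1) k
    have h1 := (curvb_ap ha (hK.crude _ (hι z hz)) (bψ' z hz) (true, k)).2.trans
      (mul_le_mul_of_nonneg_left (kerj_mono (by linarith : 3 / 4 * η.1 ≤ 7 / 8 * η.1) k) c2)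
    have h2 : ‖((|k| : ℤ) : ℂ) * psiC (thOf B z.1) z.2 (true, k)‖ ≤
        K1 * P * ex (3 / 4 * η.1) k := by
      rw [norm_mul, Complex.norm_intCast, Int.cast_abs, abs_abs]
      have h3 := hK1 k
      rw [pow_one] at h3
      calc _ ≤ br k * (P * ex η.1 k) :=
            mul_le_mul (kerc_abs k) (bψ z hz _) (norm_nonneg _) (br_pos k).le
        _ = P * (br k * ex η.1 k) := by ring
        _ ≤ P * (K1 * ex (3 / 4 * η.1) k) := by gcongr
        _ = _ := by ring
    refine (norm_add_le_of_le h2 h1).trans ?_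
    nlinarith [mul_nonneg c3 e0.le, mul_nonneg c4 e0.le]
  · have e : z.2 = (z.2.re : ℂ) := Complex.ext rfl i
    have h1 : (Hof B z).im = 0 := by
      have := hK.Hreal z.1 (hv z hz) r z.2.re
      rwa [← e] at this
    exact curvb_conj (hK.rsym _ (hι z hz) r h1)
      (curvb_psi h0 (half_pos B.m_pos) (hK.cmap z.1 (hv z hz) r) i) (true, k)
  · set h : ℂ := fderiv ℂ (Hof B) z (w, 0) with hh
    set S := Smat B (z.1, Hof B z) with hS
    set ψ := psiC (thOf B z.1) z.2 with hψ'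
    set p : Idx → ℂ := fun c => dS (xiC (z.1 c.1) (w c.1)) c.2 with hp'
    set r : Idx → ℂ := fun c => conv (xiC (z.1 c.1) (w c.1)) (dS (cp ψ c.1)) c.2 with hr
    have zn := ho.mem_nhds hz
    have f1 : ∀ c, fderiv ℂ (fun z : V η × ℂ => psiC (thOf B z.1) z.2 c) z (w, 0) =
        -p c + r c := fun c => ((hψ c).2 z.1 (hv z hz) z.2 (hl z hz)).2 w
    have f2 : ∀ b c, fderiv ℂ (fun z : V η × ℂ => Smat B (z.1, Hof B z) b c) z (w, 0) =
        dSm B (z.1, Hof B z) (w, 0) b c + dSm B (z.1, Hof B z) (0, h) b c := fun b c => by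
      have g1 := ((hK.diff b c).differentiableAt (ho'.mem_nhds (hι z hz))).hasFDerivAt
      have g2 : HasFDerivAt (fun z : V η × ℂ => (z.1, Hof B z)) _ z := hasFDerivAt_fst.prodMk
        ((hK.Hdiff.mono sub).differentiableAt zn).hasFDerivAt
      have g3 : HasFDerivAt (fun z : V η × ℂ => Smat B (z.1, Hof B z) b c) _ z :=
        HasFDerivAt.comp z (f := fun z : V η × ℂ => (z.1, Hof B z)) g1 g2
      rw [g3.fderiv]
      simp only [dSm, ← map_add, Prod.mk_add_mk, add_zero, zero_add]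
      rfl
    have t := (main (true, k)).2 z hz (w, 0)
    have f3 : ∀ c, fderiv ℂ (fun z : V η × ℂ => Smat B (z.1, Hof B z) (true, k) c *
        psiC (thOf B z.1) z.2 c) z (w, 0) = dSm B (z.1, Hof B z) (w, 0) (true, k) c * ψ c +
          dSm B (z.1, Hof B z) (0, h) (true, k) c * ψ c - S (true, k) c * p c +
            S (true, k) c * r c := fun c => by
      rw [fderiv_fun_mul ((dSι _ c).differentiableAt zn) ((dψ c).differentiableAt zn)]
      simp only [_root_.add_apply, _root_.smul_apply, smul_eq_mul]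
      rw [f1, f2]; ring
    simp only [f3] at t
    obtain ⟨D, hD⟩ := curvb_dv hK (hι z hz) (w, 0)
    have a1 := (curvb_ap ha hD (bψ' z hz) (true, k)).1
    obtain ⟨a2, b2⟩ := curvb_ap ha (curvb_dH hK (hι z hz) (inH z hz) h) (bψ' z hz) (true, k)
    obtain ⟨hE, hξ⟩ := keri_xi (hι z hz) w
    obtain ⟨a3, b3⟩ := hp C (X * pn w) S (fun j => xiC (z.1 j) (w j)) (hK.crude _ (hι z hz))
      (fun j => .of_nonneg_of_le (fun _ => norm_nonneg _) (hξ j) hE)
      (fun j => (hxi _ _ (kerf_small (hv z hz) j).2.1).1.trans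
        (mul_le_mul_of_nonneg_left (pn_comp w j) (by linarith))) (true, k)
    have t1 := t.sub ((a1.hasSum.add a2.hasSum).sub a3.hasSum)
    have t2 := (show _ = fun c => S (true, k) c * r c from
      funext fun c => add_sub_cancel_left _ _) ▸ t1
    have cm := Smat_comm_ap hB hη _ (hι z hz) w ψ P (fun c => (bψ z hz c).trans
      (mul_le_mul_of_nonneg_left (kerj_mono (by linarith) _) (by linarith))) (true, k)
    have fin : fderiv ℂ (fun z => kapV B z k) z (w, 0) -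
        I * k * (conv (xiC (z.1 true) (w true)) (kapV B z) k - |k| * xiC (z.1 true) (w true) k) =
        Sap (dSm B (z.1, Hof B z) (0, h)) ψ (true, k) - Sap S p (true, k) := by
      rw [ek, fderiv_fun_add (((dψ _).const_mul _).differentiableAt zn)
        ((main _).1.differentiableAt zn), fderiv_const_mul ((dψ _).differentiableAt zn)]
      simp only [_root_.add_apply, _root_.smul_apply, smul_eq_mul]
      have u1 : Sap S r (true, k) = _ := t2.tsum_eq
      have u2 : Sap (dSm B (z.1, Hof B z) (w, 0)) ψ (true, k) =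
          I * k * conv (xiC (z.1 true) (w true)) (kapV B z) k -
            ((|k| : ℤ) * r (true, k) + Sap S r (true, k)) := cm
      have u3 : p (true, k) = I * k * xiC (z.1 true) (w true) k := rfl
      rw [f1, u3]
      simp only [Sap] at u1 u2 ⊢
      linear_combination u2 - u1
    have e0 := ex_pos (3 / 4 * η.1) k
    have e1 := (ex_pos (7 / 8 * η.1) k).le
    have m1 := kerj_mono (by linarith : 3 / 4 * η.1 ≤ 7 / 8 * η.1) k
    have w0 : 0 ≤ pn w := tsum_nonneg fun b => div_nonneg (norm_nonneg _) (br_pos _).le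
    have b4 : ‖h‖ ≤ C * W * pn w := (hK.Hins z.1 (hv z hz) z.2 w).trans
      ((mul_le_mul_of_nonneg_left (hwn w) (by linarith)).trans_eq (by ring))
    have b5 : 2 * C * ‖h‖ * EE (7 / 8 * η.1) * P * ex (7 / 8 * η.1) k ≤
        2 * C * (C * W * pn w) * EE (7 / 8 * η.1) * P * ex (3 / 4 * η.1) k := by gcongr
    have b6 : C * K * (X * pn w) * ex (7 / 8 * η.1) k ≤
        C * K * (X * pn w) * ex (3 / 4 * η.1) k :=
      mul_le_mul_of_nonneg_left m1 (by rw [← mul_assoc]; exact mul_nonneg c3 w0)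
    rw [fin]
    refine (norm_sub_le_of_le (b2.trans b5) (b3.trans b6)).trans ?_
    have q := mul_nonneg w0 e0.le
    nlinarith [mul_nonneg c1 q, mul_nonneg c2 q]

end StekIso
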