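import Pool.Agent.Lib.MP_fa022d_an.Four1
import Pool.Agent.Lib.MP_fa022d_an.Hol1

open Set Filter Topology Metric BoundedContinuousFunction Complex

noncomputable section
namespace StekIso

theorem four2_ex (a b : ℝ) (k : ℤ) : ex a k * ex b k = ex (a + b) k := by
  rw [ex, ex, ex, ← Real.exp_add]; congr 1; ring

theorem four2_exp {s : ℂ} {y : ℝ} (hs : |s.im| ≤ y) (k : ℤ) : ‖exp (I * k * s)‖ ≤ ex (-y) k := by
  rw [Complex.norm_exp, ex]
  refine Real.exp_le_exp.2 ?_
  have : (I * k * s).re = -(k * s.im) := by simp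
  rw [this, neg_neg, mul_comm y]
  refine (neg_le_abs _).trans ?_
  rw [abs_mul]
  exact mul_le_mul_of_nonneg_left hs (abs_nonneg _)

theorem four2_term {c : ℂ} {C w η y : ℝ} {k : ℤ} {s : ℂ} (hc : ‖c‖ ≤ C * (w * ex η k))
    (hs : |s.im| ≤ y) : ‖c * exp (I * k * s)‖ ≤ C * (w * ex (η - y) k) := by
  rw [norm_mul, sub_eq_add_neg, ← four2_ex, ← mul_assoc, ← mul_assoc, mul_assoc C]
  exact mul_le_mul hc (four2_exp hs k) (norm_nonneg _) ((norm_nonneg _).trans hc)

theorem four2_nonneg {c : ℂ} {C w : ℝ} (h : ‖c‖ ≤ C * w) (hw : 0 < w) : 0 ≤ C :=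
  nonneg_of_mul_nonneg_left ((norm_nonneg _).trans h) hw

theorem four2_per (k : ℤ) (s : ℂ) : exp (I * k * (s + 2 * Real.pi)) = exp (I * k * s) := by
  rw [mul_add, Complex.exp_add, show I * k * (2 * Real.pi) = k * (2 * Real.pi * I) by ring,
    exp_int_mul_two_pi_mul_I, mul_one]

theorem four2_hd (a : ℂ) (s : ℂ) : HasDerivAt (fun s : ℂ => exp (a * s)) (exp (a * s) * a) s := by
  simpa using ((hasDerivAt_id s).const_mul a).cexp

theorem fs_diff {c : ℤ → ℂ} {η C : ℝ} (hη : 0 < η) (hc : ∀ k, ‖c k‖ ≤ C * ex η k) :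
    DifferentiableOn ℂ (fs c) (strip η) ∧ (∀ s ∈ strip η, HasDerivAt (fs c) (fs (dS c) s) s) ∧
      ∀ s : ℂ, fs c (s + 2 * Real.pi) = fs c s := by
  have _ := hη
  have A : ∀ s ∈ strip η, HasDerivAt (fs c) (fs (dS c) s) s := fun s hs => by
    obtain ⟨y, h1, h2⟩ := exists_between (show |s.im| < η from hs)
    have hu := (summable_ex (sub_pos.2 h2) 0).mul_left C
    have hf : ∀ k : ℤ, DifferentiableOn ℂ (fun s : ℂ => c k * exp (I * k * s)) (strip y) :=
      fun k s _ => ((four2_hd (I * k) s).const_mul (c k)).differentiableAt.differentiableWithinAt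
    have hb : ∀ (k : ℤ) (w : ℂ), w ∈ strip y →
        ‖c k * exp (I * k * w)‖ ≤ C * (br k ^ 0 * ex (η - y) k) := fun k w hw =>
      four2_term (by simpa using hc k) (le_of_lt hw)
    have d := (differentiableOn_tsum_of_summable_norm hu hf (isOpen_strip y) hb).differentiableAt
      ((isOpen_strip y).mem_nhds h1)
    have e := hasSum_deriv_of_summable_norm hu hf (isOpen_strip y) hb h1
    have g : fs (dS c) s = deriv (fun w => ∑' k : ℤ, c k * exp (I * k * w)) s := by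
      rw [← e.tsum_eq, fs]
      refine tsum_congr fun k => ?_
      rw [((four2_hd (I * k) s).const_mul (c k)).deriv, dS]; ring
    rw [g]; exact d.hasDerivAt
  exact ⟨fun s hs => (A s hs).differentiableAt.differentiableWithinAt, A,
    fun s => tsum_congr fun k => by rw [four2_per]⟩

theorem four2_sum : ∃ s ≤ (4 : ℝ), HasSum (fun h : ℤ => 1 / br h ^ 2) s := by
  have a := (hasSum_nat_add_iff' 1).2 hasSum_zeta_two
  have b := (hasSum_nat_add_iff' 2).2 hasSum_zeta_two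
  refine ⟨_, ?_, HasSum.of_nat_of_neg_add_one (a.congr_fun fun n => ?_) (b.congr_fun fun n => ?_)⟩
  · have := pow_le_pow_left₀ Real.pi_pos.le Real.pi_lt_d2.le 2
    simp only [Finset.sum_range_succ, Finset.sum_range_zero]
    norm_num at this ⊢
    linarith
  · simp [br, add_comm]
  · have : |(-((n : ℝ) + 1))| = n + 1 := by rw [abs_neg, abs_of_nonneg (by positivity)]
    simp only [br, Int.cast_neg, Int.cast_add, Int.cast_natCast, Int.cast_one, this]
    push_cast
    ring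

theorem four2_dS {c : ℤ → ℂ} {C η : ℝ} {m : ℕ} (h : ∀ k, ‖c k‖ ≤ C * (1 / br k ^ (m + 1) * ex η k))
    (k : ℤ) : ‖dS c k‖ ≤ C * (1 / br k ^ m * ex η k) := by
  have p := br_pos k
  have e : C * (1 / br k ^ m * ex η k) = br k * (C * (1 / br k ^ (m + 1) * ex η k)) := by
    field_simp
    ring
  rw [dS, norm_mul, norm_mul, norm_I, one_mul, Complex.norm_intCast, e]
  exact mul_le_mul (by unfold br; linarith) (h k) (norm_nonneg _) p.le

theorem four2_down {c : ℤ → ℂ} {C η : ℝ} {m : ℕ}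
    (h : ∀ k, ‖c k‖ ≤ C * (1 / br k ^ (m + 1) * ex η k)) (k : ℤ) :
    ‖c k‖ ≤ C * (1 / br k ^ m * ex η k) := by
  have p := br_pos k
  have q := ex_pos η k
  refine (h k).trans (mul_le_mul_of_nonneg_left (mul_le_mul_of_nonneg_right ?_ q.le)
    (four2_nonneg (h k) (by positivity)))
  exact one_div_le_one_div_of_le (by positivity) (pow_le_pow_right₀ (one_le_br k) m.le_succ)

theorem four2_two {c : ℤ → ℂ} {C η : ℝ} (h : ∀ k, ‖c k‖ ≤ C * (1 / br k ^ 2 * ex η k)) {s : ℂ}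
    (hs : |s.im| ≤ η) : ‖fs c s‖ ≤ 4 * C := by
  obtain ⟨t, ht, a⟩ := four2_sum
  have p := br_pos 0
  have q := ex_pos η 0
  have hC : 0 ≤ C := four2_nonneg (h 0) (by positivity)
  refine (tsum_of_norm_bounded (a.mul_left C) fun k => ?_).trans (by nlinarith)
  simpa [ex] using four2_term (h k) hs

/-- bounds on the closed strip for the weight `beta` (two derivatives are free) -/
theorem fs_beta_bound {c : ℤ → ℂ} {η C : ℝ} (hη : 0 < η) (hc : ∀ k, ‖c k‖ ≤ C * beta η k)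
    {s : ℂ} (hs : |s.im| ≤ η) :
    ‖fs c s‖ ≤ 4 * C ∧ ‖fs (dS c) s‖ ≤ 4 * C ∧ ‖fs (dS (dS c)) s‖ ≤ 4 * C := by
  have _ := hη
  have h : ∀ k, ‖c k‖ ≤ C * (1 / br k ^ (2 + 1 + 1) * ex η k) := fun k =>
    (hc k).trans (le_of_eq (by rw [beta]; ring))
  exact ⟨four2_two (four2_down (four2_down h)) hs, four2_two (four2_down (four2_dS h)) hs,
    four2_two (four2_dS (four2_dS h)) hs⟩

theorem four2_K {η : ℝ} (h : 0 < η) (m : ℕ) : ∃ K : ℝ, 0 < K ∧
    HasSum (fun k : ℤ => br k ^ m * ex η k) K := by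
  have p : ∀ k : ℤ, 0 < br k ^ m * ex η k := fun k => mul_pos (pow_pos (br_pos k) m) (ex_pos η k)
  exact ⟨_, (summable_ex h m).tsum_pos (fun k => (p k).le) 0 (p 0), (summable_ex h m).hasSum⟩

theorem fs_ex_bound {η η' : ℝ} (h0 : 0 ≤ η') (h : η' < η) (m : ℕ) : ∃ K : ℝ, 0 < K ∧
    ∀ (c : ℤ → ℂ) (C : ℝ), (∀ k, ‖c k‖ ≤ C * (br k ^ m * ex η k)) → ∀ s : ℂ, |s.im| ≤ η' →
      Summable (fun k : ℤ => ‖c k * exp (I * k * s)‖) ∧ ‖fs c s‖ ≤ K * C := by
  have _ := h0
  obtain ⟨K, hK, a⟩ := four2_K (sub_pos.2 h) m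
  refine ⟨K, hK, fun c C hc s hs => ⟨.of_nonneg_of_le (fun _ => norm_nonneg _)
    (fun k => four2_term (hc k) hs) (a.mul_left C).summable, ?_⟩⟩
  rw [mul_comm]
  exact tsum_of_norm_bounded (a.mul_left C) fun k => four2_term (hc k) hs

theorem conv_ex_bound {η η' : ℝ} (h0 : 0 ≤ η') (h : η' < η) : ∃ K : ℝ, 0 < K ∧
    ∀ (c d : ℤ → ℂ) (C D : ℝ), (∀ k, ‖c k‖ ≤ C * ex η k) → (∀ k, ‖d k‖ ≤ D * ex η' k) →
      ∀ k, Summable (fun h => ‖c h * d (k - h)‖) ∧ ‖conv c d k‖ ≤ K * C * D * ex η' k := by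
  obtain ⟨K, hK, a⟩ := four2_K (sub_pos.2 h) 0
  refine ⟨K, hK, fun c d C D hc hd k => ?_⟩
  have hC := four2_nonneg (hc 0) (ex_pos _ _)
  have hD := four2_nonneg (hd 0) (ex_pos _ _)
  have b : ∀ g, ‖c g * d (k - g)‖ ≤ C * D * ex η' k * (br g ^ 0 * ex (η - η') g) := fun g => by
    have t : |(k : ℝ)| ≤ |(g : ℝ)| + |((k - g : ℤ) : ℝ)| := by
      have := abs_add_le (g : ℝ) ((k - g : ℤ) : ℝ)
      rwa [show (g : ℝ) + ((k - g : ℤ) : ℝ) = k by push_cast; ring] at this
    have e : ex η g * ex η' (k - g) ≤ ex η' k * ex (η - η') g := by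
      rw [ex, ex, ex, ex, ← Real.exp_add, ← Real.exp_add]
      exact Real.exp_le_exp.2 (by nlinarith)
    rw [norm_mul, pow_zero, one_mul, mul_assoc (C * D)]
    refine (mul_le_mul (hc g) (hd _) (norm_nonneg _) ((norm_nonneg _).trans (hc g))).trans ?_
    rw [mul_mul_mul_comm]
    exact mul_le_mul_of_nonneg_left e (mul_nonneg hC hD)
  refine ⟨.of_nonneg_of_le (fun _ => norm_nonneg _) b (a.mul_left _).summable, ?_⟩
  exact (tsum_of_norm_bounded (a.mul_left _) b).trans (le_of_eq (by ring))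

theorem br_pow_ex_le {η η' : ℝ} (h : η' < η) (m : ℕ) :
    ∃ K : ℝ, 0 < K ∧ ∀ k : ℤ, br k ^ m * ex η k ≤ K * ex η' k := by
  obtain ⟨K, hK, a⟩ := four2_K (sub_pos.2 h) m
  refine ⟨K, hK, fun k => ?_⟩
  rw [show η = η - η' + η' by ring, ← four2_ex, ← mul_assoc]
  exact mul_le_mul_of_nonneg_right (le_hasSum a k fun j _ =>
    (mul_pos (pow_pos (br_pos j) m) (ex_pos _ j)).le) (ex_pos _ _).le

theorem four2_parts {f f' : ℝ → ℂ} (hd : ∀ s, HasDerivAt f (f' s) s) (hc : Continuous f') (a : ℂ)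
    (p q : ℝ) : ∫ s in q..p, f' s * exp (a * s) =
      f p * exp (a * p) - f q * exp (a * q) - a * ∫ s in q..p, f s * exp (a * s) := by
  have c0 : Continuous f := continuous_iff_continuousAt.2 fun s => (hd s).continuousAt
  have c1 : Continuous fun s : ℝ => f' s * exp (a * s) := by fun_prop
  have c2 : Continuous fun s : ℝ => a * (f s * exp (a * s)) := by fun_prop
  have e := intervalIntegral.integral_eq_sub_of_hasDerivAt (a := q) (b := p)
    (f := fun s : ℝ => f s * exp (a * s))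
    (f' := fun s : ℝ => f' s * exp (a * s) + a * (f s * exp (a * s)))
    (fun s _ => ((hd s).mul (four2_hd a s).comp_ofReal).congr_deriv (by ring))
    ((c1.add c2).intervalIntegrable _ _)
  rw [intervalIntegral.integral_add (c1.intervalIntegrable _ _) (c2.intervalIntegrable _ _),
    intervalIntegral.integral_const_mul] at e
  exact eq_sub_of_add_eq e

theorem fc_deriv {f f' : ℝ → ℂ} (hd : ∀ s, HasDerivAt f (f' s) s) (hc : Continuous f')
    (hp : f (2 * Real.pi) = f 0) (k : ℤ) : fc f' k = I * k * fc f k := by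
  have e := four2_parts hd hc (I * (-k : ℤ)) (2 * Real.pi) 0
  have g := four2_per (-k) 0
  have r : ∀ s : ℝ, -(I * k * s) = I * (-k : ℤ) * s := fun s => by push_cast; ring
  rw [zero_add] at g
  rw [hp, ofReal_mul, ofReal_ofNat, g, ofReal_zero, sub_self] at e
  simp only [fc, r]
  rw [e]; push_cast; ring

/-- oscillatory integral of a `C¹` function -/
theorem osc_bound {g g' : ℝ → ℂ} {M : ℝ} (hd : ∀ s, HasDerivAt g (g' s) s) (hc : Continuous g')
    (h0 : ∀ s, ‖g s‖ ≤ M) (h1 : ∀ s, ‖g' s‖ ≤ M) {p q : ℝ} (hpq : |p - q| ≤ 7) (k : ℤ) :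
    ‖∫ s in q..p, g s * exp (I * k * s)‖ ≤ 20 * M / br k := by
  have hM : 0 ≤ M := (norm_nonneg _).trans (h0 0)
  have t : ∀ {u : ℝ → ℂ}, (∀ s, ‖u s‖ ≤ M) → ∀ s : ℝ, ‖u s * exp (I * k * s)‖ ≤ M :=
    fun {u} hu s => by
      rw [norm_mul, Complex.norm_exp]
      simpa using hu s
  have i : ∀ {u : ℝ → ℂ}, (∀ s, ‖u s‖ ≤ M) → ‖∫ s in q..p, u s * exp (I * k * s)‖ ≤ M * 7 :=
    fun {u} hu => (intervalIntegral.norm_integral_le_of_norm_le_const fun s _ => t hu s).trans
      (mul_le_mul_of_nonneg_left hpq hM)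
  have e := four2_parts hd hc (I * k) p q
  have n : ‖I * k * ∫ s in q..p, g s * exp (I * k * s)‖ ≤ M + M + M * 7 := by
    rw [← sub_eq_iff_eq_add'.2 (eq_sub_iff_add_eq.1 e).symm]
    exact (norm_sub_le _ _).trans (add_le_add ((norm_sub_le _ _).trans
      (add_le_add (t h0 p) (t h0 q))) (i h1))
  rw [norm_mul, norm_mul, norm_I, one_mul, Complex.norm_intCast] at n
  rw [le_div_iff₀ (br_pos k), br]
  linarith [i h0]

theorem fs_real {c : ℤ → ℂ} (h : ∀ k, c (-k) = (starRingEnd ℂ) (c k)) (s : ℝ) :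
    (fs c s).im = 0 := by
  rw [← conj_eq_iff_im, fs, conj_tsum, ← (Equiv.neg ℤ).tsum_eq fun k => c k * exp (I * k * s)]
  refine tsum_congr fun k => ?_
  rw [Equiv.neg_apply, h, map_mul, ← exp_conj]
  simp

/-- change of variables along a circle map -/
theorem fc_comp_cmap {η m M : ℝ} {θ : ℂ → ℂ} (hη : 0 < η) (h : CMap η m M θ) {f : ℝ → ℂ}
    (hf : Continuous f) (hp : Function.Periodic f (2 * Real.pi)) :
    fc (fun s => f (θ s).re * deriv θ s) 0 = fc f 0 := by
  have u : ∀ s : ℝ, (s : ℂ) ∈ strip η := fun s => by simpa [strip] using hη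
  have d : ∀ s : ℝ, HasDerivAt θ (deriv θ s) s := fun s =>
    (h.diff.differentiableAt ((isOpen_strip η).mem_nhds (u s))).hasDerivAt
  have r : ∀ s : ℝ, ((deriv θ s).re : ℂ) = deriv θ s := fun s => by
    refine (d s).real_of_complex.ofReal_comp.unique ((d s).comp_ofReal.congr_of_eventuallyEq
      (.of_forall fun t => ?_))
    exact Complex.ext rfl (h.real t).symm
  have c : Continuous fun s : ℝ => (deriv θ s).re := continuous_re.comp
    ((h.diff.deriv (isOpen_strip η)).continuousOn.comp_continuous continuous_ofReal u)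
  have e := intervalIntegral.integral_deriv_smul_comp (a := 0) (b := 2 * Real.pi)
    (fun s _ => (d s).real_of_complex) c.continuousOn hf
  have p : (θ ((2 * Real.pi : ℝ) : ℂ)).re = (θ ((0 : ℝ) : ℂ)).re + 2 * Real.pi := by
    have := congrArg re (h.per _ (u 0))
    simpa using this
  rw [p, hp.intervalIntegral_add_eq _ 0, zero_add] at e
  simp only [fc, Int.cast_zero, mul_zero, zero_mul, neg_zero, Complex.exp_zero, mul_one]
  rw [← e]
  refine congrArg _ (intervalIntegral.integral_congr fun s _ => ?_)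
  simp only [Function.comp, real_smul, r]
  ring

end StekIso
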