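import Pool.Agent.Lib.MP_fa022d_an.Defs6
import Pool.Agent.Lib.MP_fa022d_an.Four2
import Pool.Agent.Lib.MP_fa022d_an.Hol2

open Set Filter Topology Metric BoundedContinuousFunction Complex

noncomputable section
namespace StekIso

/-- integral of `exp (± i vth)` -/
def chordS (e : ℂ) (κ : ℤ → ℂ) (p q : ℝ) : ℂ := ∫ s in q..p, exp (e * I * vth κ s)

theorem curvc_l1 {a C : ℝ} (ha : 0 < a) {c : ℤ → ℂ} (hc : ∀ k, ‖c k‖ ≤ C * ex a k) :
    Summable fun k => ‖c k‖ :=
  Summable.of_nonneg_of_le (fun _ => norm_nonneg _) hc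
    (((summable_ex ha 0).congr fun k => by simp).mul_left C)

theorem curvc_dS {a C : ℝ} {c : ℤ → ℂ} (hc : ∀ k, ‖c k‖ ≤ C * ex a k) (k : ℤ) :
    ‖dS c k‖ ≤ C * (br k ^ 1 * ex a k) := by
  have h1 : ‖(k : ℂ)‖ ≤ br k := by
    rw [Complex.norm_intCast]; unfold br; linarith
  unfold dS
  rw [norm_mul, norm_mul, norm_I, one_mul, pow_one]
  calc _ ≤ br k * (C * ex a k) := mul_le_mul h1 (hc k) (norm_nonneg _) (br_pos k).le
    _ = _ := by ring

theorem curvc_l1d {a C : ℝ} (ha : 0 < a) {c : ℤ → ℂ} (hc : ∀ k, ‖c k‖ ≤ C * ex a k) :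
    Summable fun k => ‖dS c k‖ :=
  Summable.of_nonneg_of_le (fun _ => norm_nonneg _) (curvc_dS hc) ((summable_ex ha 1).mul_left C)

theorem curvc_cont {c : ℤ → ℂ} (hc : Summable fun k => ‖c k‖) :
    Continuous fun s : ℝ => fs c s :=
  continuous_tsum (fun k => by fun_prop) hc fun k s => by
    rw [norm_mul, (four1_norm k s).1, mul_one]

theorem curvc_hd {a C : ℝ} (ha : 0 < a) {c : ℤ → ℂ} (hc : ∀ k, ‖c k‖ ≤ C * ex a k) (s : ℝ) :
    HasDerivAt (fun s : ℝ => fs c s) (fs (dS c) s) s :=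
  ((fs_diff ha hc).2.1 s (by simpa [strip] using ha)).comp_ofReal

theorem curvc_hs {c : ℤ → ℂ} (hc : Summable fun k => ‖c k‖) (s : ℝ) :
    HasSum (fun k : ℤ => c k * exp (I * k * s)) (fs c s) :=
  (four1_sum hc s).of_norm.hasSum

theorem curvc_div {w : ℝ} {x : ℂ} (h : ‖x‖ ≤ w) (k : ℤ) : ‖x / (I * k)‖ ≤ w := by
  by_cases hk : k = 0
  · simpa [hk] using (norm_nonneg _).trans h
  · have h1 : (1 : ℝ) ≤ ‖I * (k : ℂ)‖ := by
      rw [norm_mul, norm_I, one_mul, Complex.norm_intCast]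
      exact_mod_cast Int.one_le_abs hk
    rw [norm_div]
    exact (div_le_self (norm_nonneg _) h1).trans h

/-- a sum of oscillatory integrals -/
theorem curvc_osc {g g' : ℝ → ℂ} {M : ℝ} (hd : ∀ s, HasDerivAt g (g' s) s) (hc : Continuous g')
    (h0 : ∀ s, ‖g s‖ ≤ M) (h1 : ∀ s, ‖g' s‖ ≤ M) {p q : ℝ} (hpq : |p - q| ≤ 7) {c : ℤ → ℂ}
    (hs : Summable fun k => ‖c k‖) :
    ‖∫ s in q..p, g s * fs c s‖ ≤ 20 * M * ∑' k, ‖c k‖ / br k := by
  have hg : Continuous g := continuous_iff_continuousAt.2 fun s => (hd s).continuousAt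
  have h := intervalIntegral.hasSum_integral_of_dominated_convergence (μ := MeasureTheory.volume)
    (a := q) (b := p) (f := fun s : ℝ => g s * fs c s)
    (F := fun (n : ℤ) (s : ℝ) => g s * (c n * exp (I * n * s))) (fun n _ => M * ‖c n‖)
    (fun n => Continuous.aestronglyMeasurable (by fun_prop))
    (fun n => .of_forall fun t _ => by
      rw [norm_mul, norm_mul, (four1_norm n t).1, mul_one]
      exact mul_le_mul_of_nonneg_right (h0 t) (norm_nonneg _))
    (.of_forall fun _ _ => hs.mul_left M) intervalIntegrable_const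
    (.of_forall fun t _ => (curvc_hs hs t).mul_left _)
  have hb : Summable fun k => ‖c k‖ / br k := Summable.of_nonneg_of_le
    (fun k => div_nonneg (norm_nonneg _) (br_pos k).le)
    (fun k => div_le_self (norm_nonneg _) (one_le_br k)) hs
  rw [← h.tsum_eq]
  refine tsum_of_norm_bounded (hb.hasSum.mul_left (20 * M)) fun k => ?_
  have e : (fun s : ℝ => g s * (c k * exp (I * k * s))) =
      fun s : ℝ => c k * (g s * exp (I * k * s)) := funext fun s => by ring
  rw [e, intervalIntegral.integral_const_mul, norm_mul]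
  calc _ ≤ ‖c k‖ * (20 * M / br k) :=
        mul_le_mul_of_nonneg_left (osc_bound hd hc h0 h1 hpq k) (norm_nonneg _)
    _ = _ := by ring

/-- coefficients of the Hilbert transform -/
def curvc_h (ξ : ℤ → ℂ) (k : ℤ) : ℂ := -I * Int.sign k * ξ k

theorem curvc_h_le (ξ : ℤ → ℂ) (k : ℤ) : ‖curvc_h ξ k‖ ≤ ‖ξ k‖ := by
  unfold curvc_h
  rw [norm_mul, norm_mul, norm_neg, norm_I, one_mul]
  refine mul_le_of_le_one_left (norm_nonneg _) ?_
  rcases lt_trichotomy k 0 with h | h | h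
  · simp [Int.sign_eq_neg_one_of_neg h]
  · simp [h]
  · simp [Int.sign_eq_one_of_pos h]

theorem curvc_h_dS (ξ : ℤ → ℂ) (k : ℤ) : dS (curvc_h ξ) k = |k| * ξ k := by
  unfold dS curvc_h
  rcases lt_trichotomy k 0 with h | h | h
  · rw [Int.sign_eq_neg_one_of_neg h, abs_of_neg h]
    push_cast
    linear_combination (k * ξ k) * I_mul_I
  · simp [h]
  · rw [Int.sign_eq_one_of_pos h, abs_of_pos h]
    push_cast
    linear_combination (-(k * ξ k)) * I_mul_I

/-- the variation of the tangent angle -/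
theorem curvc_split {a C D E : ℝ} (ha : 0 < a) {κ ξ δ : ℤ → ℂ} (hκ : ∀ k, ‖κ k‖ ≤ C * ex a k)
    (hξ : ∀ k, ‖ξ k‖ ≤ E * ex a k)
    (hδ : ∀ k : ℤ, ‖δ k - I * k * (conv ξ κ k - |k| * ξ k)‖ ≤ D * ex a k) (s : ℝ) :
    fs (fun k => δ k / (I * k)) s = fs ξ s * fs κ s - conv ξ κ 0 - fs (dS (curvc_h ξ)) s +
      fs (fun k => (δ k - I * k * (conv ξ κ k - |k| * ξ k)) / (I * k)) s := by
  have sκ := curvc_l1 ha hκ
  have sξ := curvc_l1 ha hξ
  have h0 : ∀ k, Summable fun h => ξ h * κ (k - h) := fun k =>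
    Summable.of_norm_bounded (sξ.mul_right (∑' l, ‖κ l‖)) fun h => by
      rw [norm_mul]
      exact mul_le_mul_of_nonneg_left (sκ.le_tsum _ fun _ _ => norm_nonneg _) (norm_nonneg _)
  obtain ⟨c1, c2⟩ := fs_conv (four1_sum sξ s) (four1_sum sκ s) h0
  have t1 : HasSum (fun k : ℤ => conv ξ κ k * exp (I * k * s)) (fs ξ s * fs κ s) :=
    c2 ▸ c1.of_norm.hasSum
  have t2 : HasSum (fun k : ℤ => if k = 0 then conv ξ κ 0 else 0) (conv ξ κ 0) :=
    hasSum_ite_eq 0 _
  have t3 := curvc_hs (curvc_l1d ha fun k => (curvc_h_le ξ k).trans (hξ k)) s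
  have t4 := curvc_hs (curvc_l1 ha fun k => curvc_div (hδ k) k) s
  rw [← (((t1.sub t2).sub t3).add t4).tsum_eq]
  refine tsum_congr fun k => ?_
  rw [curvc_h_dS]
  by_cases hk : k = 0
  · simp [hk]
  · have h1 : (k : ℂ) ≠ 0 := Int.cast_ne_zero.2 hk
    rw [if_neg hk]
    field_simp
    ring

theorem curvc_exp {e v : ℂ} {s w : ℝ} (he : e = 1 ∨ e = -1) (hv : ‖v‖ ≤ w) :
    ‖exp (e * I * (s + v))‖ ≤ Real.exp w := by
  rw [Complex.norm_exp]
  refine Real.exp_le_exp.2 ?_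
  have h := abs_le.1 ((abs_im_le_norm v).trans hv)
  rcases he with rfl | rfl <;> simp <;> linarith [h.1, h.2]

/-- the estimate for fixed sequences -/
theorem curvc_core {a C : ℝ} (ha : 0 < a) (hC : 0 ≤ C) : ∃ K ≥ 1, ∀ (κ : ℤ → ℂ) (e : ℂ),
    (∀ k, ‖κ k‖ ≤ C * ex a k) → (e = 1 ∨ e = -1) → (∀ s : ℝ, ‖exp (e * I * vth κ s)‖ ≤ K) ∧
    ∀ (ξ δ : ℤ → ℂ) (D E : ℝ), (∀ k, ‖ξ k‖ ≤ E * ex a k) →
      (∀ k : ℤ, ‖δ k - I * k * (conv ξ κ k - |k| * ξ k)‖ ≤ D * ex a k) → ∀ p q : ℝ,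
      |p - q| ≤ 7 →
      ‖(∫ s in q..p, exp (e * I * vth κ s) * (e * I * fs (fun k => δ k / (I * k)) s)) + e * I *
        (exp (e * I * vth κ p) * hil ξ p - exp (e * I * vth κ q) * hil ξ q)‖ ≤
        K * (D + ∑' k, ‖ξ k‖ / br k) := by
  obtain ⟨S, hS, hb⟩ := fs_ex_bound (le_refl 0) ha 1
  obtain ⟨K1, hK1, hk1⟩ := br_pow_ex_le ha 1
  have b0 : ∀ {c : ℤ → ℂ} {D : ℝ}, 0 ≤ D → (∀ k, ‖c k‖ ≤ D * ex a k) → ∀ s : ℝ,
      ‖fs c s‖ ≤ S * D := fun {c D} hD hc s =>
    (hb c D (fun k => (hc k).trans (mul_le_mul_of_nonneg_left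
      (le_mul_of_one_le_left (ex_pos a k).le (by simpa using one_le_br k)) hD)) s (by simp)).2
  have b1 : ∀ {c : ℤ → ℂ}, (∀ k, ‖c k‖ ≤ C * ex a k) → ∀ s : ℝ, ‖fs (dS c) s‖ ≤ S * C :=
    fun {c} hc s => (hb _ C (curvc_dS hc) s (by simp)).2
  obtain ⟨G, hG⟩ : ∃ G, G = Real.exp (S * C) := ⟨_, rfl⟩
  obtain ⟨A, hA⟩ : ∃ A, A = 1 + S * C := ⟨_, rfl⟩
  have hSC : 0 ≤ S * C := by positivity
  have hG1 : 1 ≤ G := hG ▸ Real.one_le_exp hSC
  have hA1 : 1 ≤ A := by linarith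
  obtain ⟨M, hM⟩ : ∃ M, M = 2 * G * A ^ 2 := ⟨_, rfl⟩
  have hM0 : 0 ≤ M := by rw [hM]; positivity
  refine ⟨G + 7 * G * S + 7 * G * (C * K1) + 40 * M, by
    have : 0 ≤ 7 * G * S := by positivity
    have : 0 ≤ 7 * G * (C * K1) := by positivity
    linarith, fun κ e hκ he => ?_⟩
  have hne : ‖e * I‖ = 1 := by rcases he with rfl | rfl <;> simp
  have hc : ∀ k : ℤ, ‖κ k / (I * k)‖ ≤ C * ex a k := fun k => curvc_div (hκ k) k
  have hκ' : ∀ k, ‖dS (fun k => κ k / (I * k)) k‖ ≤ C * ex a k := fun k => by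
    unfold dS
    by_cases hk : k = 0
    · simpa [hk] using mul_nonneg hC (ex_pos a 0).le
    · have h1 : I * (k : ℂ) ≠ 0 := mul_ne_zero I_ne_zero (Int.cast_ne_zero.2 hk)
      rw [mul_div_cancel₀ _ h1]; exact hκ k
  obtain ⟨κ', hκe⟩ : ∃ κ', κ' = dS fun k => κ k / (I * k) := ⟨_, rfl⟩
  rw [← hκe] at hκ'
  obtain ⟨g, hg⟩ : ∃ g : ℝ → ℂ, g = fun s => exp (e * I * vth κ s) := ⟨_, rfl⟩
  have hgs : ∀ s, exp (e * I * vth κ s) = g s := fun s => by rw [hg]
  have g0 : ∀ s, ‖g s‖ ≤ G := fun s => by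
    rw [← hgs, hG]; exact curvc_exp he (b0 hC hc s)
  have gd : ∀ s, HasDerivAt g (g s * (e * I * (1 + fs κ' s))) s := fun s => by
    have h1 : HasDerivAt (fun s : ℝ => vth κ s) (1 + fs κ' s) s := by
      rw [hκe]; exact (hasDerivAt_id (s : ℂ)).comp_ofReal.add (curvc_hd ha hc s)
    rw [hg]; exact (h1.const_mul (e * I)).cexp
  have gc : Continuous g := continuous_iff_continuousAt.2 fun s => (gd s).continuousAt
  have cκ' := curvc_cont (curvc_l1 ha hκ')
  have a1 : ∀ {t : ℂ} {d : ℤ → ℂ}, ‖t‖ ≤ 1 → (∀ k, ‖d k‖ ≤ C * ex a k) → ∀ s : ℝ,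
      ‖t + fs d s‖ ≤ A := fun {t d} ht hd s =>
    (norm_add_le _ _).trans (by have := b0 hC hd s; linarith)
  have osc : ∀ {t : ℂ} {d c : ℤ → ℂ}, ‖t‖ ≤ 1 → (∀ k, ‖d k‖ ≤ C * ex a k) →
      (Summable fun k => ‖c k‖) → ∀ {p q : ℝ}, |p - q| ≤ 7 →
      ‖∫ s in q..p, g s * (t + fs d s) * fs c s‖ ≤ 20 * M * ∑' k, ‖c k‖ / br k := by
    intro t d c ht hd hs p q hpq
    have cd := curvc_cont (curvc_l1 ha hd)
    have cd' := curvc_cont (curvc_l1d ha hd)
    have hGA : G * A ≤ G * A ^ 2 := mul_le_mul_of_nonneg_left (by nlinarith) (by linarith)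
    have hGA0 : 0 ≤ G * A := by positivity
    refine curvc_osc (g := fun s => g s * (t + fs d s))
      (g' := fun s => g s * (e * I * (1 + fs κ' s)) * (t + fs d s) + g s * fs (dS d) s)
      (fun s => (gd s).mul ((curvc_hd ha hd s).const_add t)) (by fun_prop) (fun s => ?_)
      (fun s => ?_) hpq hs
    · rw [norm_mul]
      have := mul_le_mul (g0 s) (a1 ht hd s) (norm_nonneg _) (by linarith)
      linarith
    · refine (norm_add_le _ _).trans ?_
      rw [norm_mul, norm_mul, norm_mul, norm_mul (g s), hne, one_mul]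
      have h1 := mul_le_mul (mul_le_mul (g0 s) (a1 (t := 1) (by simp) hκ' s) (norm_nonneg _)
        (by linarith)) (a1 ht hd s) (norm_nonneg _) hGA0
      have h2 : ‖g s‖ * ‖fs (dS d) s‖ ≤ G * A :=
        mul_le_mul (g0 s) ((b1 hd s).trans (by linarith)) (norm_nonneg _) (by linarith)
      nlinarith
  simp only [hgs]
  refine ⟨fun s => (g0 s).trans (by
    have : 0 ≤ 7 * G * S := by positivity
    have : 0 ≤ 7 * G * (C * K1) := by positivity
    linarith), fun ξ δ D E hξ hδ p q hpq => ?_⟩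
  have hD : 0 ≤ D := four2_nonneg (hδ 0) (ex_pos a 0)
  have sξ := curvc_l1 ha hξ
  have hh : ∀ k, ‖curvc_h ξ k‖ ≤ E * ex a k := fun k => (curvc_h_le ξ k).trans (hξ k)
  have sb : Summable fun k => ‖ξ k‖ / br k := Summable.of_nonneg_of_le
    (fun k => div_nonneg (norm_nonneg _) (br_pos k).le)
    (fun k => div_le_self (norm_nonneg _) (one_le_br k)) sξ
  obtain ⟨P, hP⟩ : ∃ P, P = ∑' k, ‖ξ k‖ / br k := ⟨_, rfl⟩
  have hP0 : 0 ≤ P := hP ▸ tsum_nonneg fun k => div_nonneg (norm_nonneg _) (br_pos k).le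
  obtain ⟨r, hr⟩ : ∃ r : ℤ → ℂ,
      r = fun k => (δ k - I * k * (conv ξ κ k - |k| * ξ k)) / (I * k) := ⟨_, rfl⟩
  have hrb : ∀ k, ‖r k‖ ≤ D * ex a k := fun k => by rw [hr]; exact curvc_div (hδ k) k
  have cξ := curvc_cont sξ
  have cκ := curvc_cont (curvc_l1 ha hκ)
  have cr := curvc_cont (curvc_l1 ha hrb)
  have ch := curvc_cont (curvc_l1 ha hh)
  have ch' := curvc_cont (curvc_l1d ha hh)
  have mean : ‖conv ξ κ 0‖ ≤ C * K1 * P := by
    rw [hP]
    refine tsum_of_norm_bounded (sb.hasSum.mul_left (C * K1)) fun h => ?_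
    have h1 : ex a (0 - h) = ex a h := by simp [ex]
    have h2 : ex a h ≤ K1 / br h := by
      rw [le_div_iff₀ (br_pos h)]
      have := hk1 h
      simp only [ex, neg_zero, zero_mul, Real.exp_zero, mul_one, pow_one] at this ⊢
      linarith
    rw [norm_mul]
    calc _ ≤ ‖ξ h‖ * (C * (K1 / br h)) := mul_le_mul_of_nonneg_left
          ((hκ _).trans (mul_le_mul_of_nonneg_left (h1.trans_le h2) hC)) (norm_nonneg _)
      _ = _ := by ring
  have parts := intervalIntegral.integral_mul_deriv_eq_deriv_mul (a := q) (b := p)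
    (fun s _ => gd s) (fun s _ => curvc_hd ha hh s)
    (Continuous.intervalIntegrable (by fun_prop) _ _) (ch'.intervalIntegrable _ _)
  have e1 : (∫ s in q..p, g s * (e * I * fs (fun k => δ k / (I * k)) s)) =
      e * I * ((∫ s in q..p, g s * (0 + fs κ s) * fs ξ s) +
        (∫ s in q..p, g s * (fs r s - conv ξ κ 0)) -
        ∫ s in q..p, g s * fs (dS (curvc_h ξ)) s) := by
    rw [← intervalIntegral.integral_add (Continuous.intervalIntegrable (by fun_prop) _ _)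
      (Continuous.intervalIntegrable (by fun_prop) _ _),
      ← intervalIntegral.integral_sub (Continuous.intervalIntegrable (by fun_prop) _ _)
      (Continuous.intervalIntegrable (by fun_prop) _ _), ← intervalIntegral.integral_const_mul]
    refine intervalIntegral.integral_congr fun s _ => ?_
    simp only [curvc_split ha hκ hξ hδ s, ← hr]
    ring
  have e2 : (∫ s in q..p, g s * (e * I * (1 + fs κ' s)) * fs (curvc_h ξ) s) =
      e * I * ∫ s in q..p, g s * (1 + fs κ' s) * fs (curvc_h ξ) s := by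
    rw [← intervalIntegral.integral_const_mul]
    exact intervalIntegral.integral_congr fun s _ => by ring
  have o1 := osc (t := 0) (by simp) hκ sξ hpq
  have o2 := osc (t := 1) (by simp) hκ' (curvc_l1 ha hh) hpq
  have o2' : ∑' k, ‖curvc_h ξ k‖ / br k ≤ P := by
    rw [hP]
    have := fun k => div_le_div_of_nonneg_right (curvc_h_le ξ k) (br_pos k).le
    exact (Summable.of_nonneg_of_le (fun k => div_nonneg (norm_nonneg _) (br_pos k).le) this
      sb).tsum_le_tsum this sb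
  have o3 : ‖∫ s in q..p, g s * (fs r s - conv ξ κ 0)‖ ≤ G * (S * D + C * K1 * P) * 7 := by
    refine (intervalIntegral.norm_integral_le_of_norm_le_const
      (C := G * (S * D + C * K1 * P)) fun s _ => ?_).trans
      (mul_le_mul_of_nonneg_left hpq (by positivity))
    rw [norm_mul]
    exact mul_le_mul (g0 s) ((norm_sub_le _ _).trans (add_le_add (b0 hD hrb s) mean))
      (norm_nonneg _) (by linarith)
  have e3 : ∀ s : ℝ, hil ξ s = fs (curvc_h ξ) s := fun s => rfl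
  rw [e1, parts, e2, e3, e3, ← hP]
  rw [← hP] at o1
  generalize (∫ s in q..p, g s * (0 + fs κ s) * fs ξ s) = T1 at *
  generalize (∫ s in q..p, g s * (fs r s - conv ξ κ 0)) = T3 at *
  generalize (∫ s in q..p, g s * (1 + fs κ' s) * fs (curvc_h ξ) s) = T2 at *
  have e4 : e * I * (T1 + T3 - (g p * fs (curvc_h ξ) p - g q * fs (curvc_h ξ) q - e * I * T2)) +
      e * I * (g p * fs (curvc_h ξ) p - g q * fs (curvc_h ξ) q) =
      e * I * (T1 + T3 + e * I * T2) := by ring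
  rw [e4, norm_mul, hne, one_mul]
  refine norm_add₃_le.trans ?_
  rw [norm_mul, hne, one_mul]
  have o4 := mul_le_mul_of_nonneg_left o2' (by positivity : 0 ≤ 20 * M)
  have p1 : 0 ≤ G * D := by positivity
  have p2 : 0 ≤ G * P := by positivity
  have p3 : 0 ≤ G * S * P := by positivity
  have p4 : 0 ≤ G * (C * K1) * D := by positivity
  have p5 : 0 ≤ M * D := by positivity
  nlinarith

/-- Variation of a chord.  `δ vth = ξ κ - mean - (hil ξ)' + remainder`; integrate the Hilbert term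
by parts, `vth' = 1 + κ - κ 0`; the other terms are sums of oscillatory integrals (`osc_bound`). -/
theorem chordS_var {a C : ℝ} (ha : 0 < a) (hC : 0 ≤ C) : ∃ K ≥ 1,
    ∀ (Z : Type) [NormedAddCommGroup Z] [NormedSpace ℂ Z] (U : Set Z) (κ : Z → ℤ → ℂ), IsOpen U →
      (∀ k, DifferentiableOn ℂ (fun z => κ z k) U) → (∀ z ∈ U, ∀ k, ‖κ z k‖ ≤ C * ex a k) →
      (∀ s : ℝ, DifferentiableOn ℂ (fun z => vth (κ z) s) U) ∧ ∀ e : ℂ, (e = 1 ∨ e = -1) →
      (∀ p q, DifferentiableOn ℂ (fun z => chordS e (κ z) p q) U) ∧ ∀ z ∈ U,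
        (∀ s : ℝ, ‖exp (e * I * vth (κ z) s)‖ ≤ K) ∧
        exp (e * I * vth (κ z) (2 * Real.pi)) = exp (e * I * vth (κ z) 0) ∧
        ∀ (w : Z) (ξ : ℤ → ℂ) (D E : ℝ), (∀ k, ‖ξ k‖ ≤ E * ex a k) →
          (∀ k : ℤ, ‖fderiv ℂ (fun z => κ z k) z w - I * k * (conv ξ (κ z) k - |k| * ξ k)‖ ≤
            D * ex a k) → ∀ p q : ℝ, |p - q| ≤ 7 →
          ‖fderiv ℂ (fun z => chordS e (κ z) p q) z w + e * I *
            (exp (e * I * vth (κ z) p) * hil ξ p - exp (e * I * vth (κ z) q) * hil ξ q)‖ ≤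
            K * (D + ∑' k, ‖ξ k‖ / br k) := by
  obtain ⟨K, hK, core⟩ := curvc_core ha hC
  refine ⟨K, hK, fun Z _ _ U κ hU hd hκ => ?_⟩
  have sE : Summable fun k => C * ex a k :=
    ((summable_ex ha 0).congr fun k => by simp).mul_left C
  have key : ∀ s : ℝ, DifferentiableOn ℂ (fun z => vth (κ z) s) U ∧ ∀ z ∈ U, ∀ w,
      fderiv ℂ (fun z => vth (κ z) s) z w =
        fs (fun k => fderiv ℂ (fun z => κ z k) z w / (I * k)) s := by
    intro s
    obtain ⟨t1, t2⟩ := diffOn_tsum (f := fun (k : ℤ) z => κ z k / (I * k) * exp (I * k * s)) hU sE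
      (fun k => ((hd k).mul_const (I * (k : ℂ))⁻¹).mul_const _) fun k z hz => by
        rw [norm_mul, (four1_norm k s).1, mul_one]; exact curvc_div (hκ z hz k) k
    refine ⟨t1.const_add _, fun z hz w => ?_⟩
    have h1 : fderiv ℂ (fun z => vth (κ z) s) z =
        fderiv ℂ (fun z => ∑' k : ℤ, κ z k / (I * k) * exp (I * k * s)) z := fderiv_const_add _
    rw [h1, ← (t2 z hz w).tsum_eq]
    refine tsum_congr fun k => ?_
    have h2 := ((hd k).differentiableAt (hU.mem_nhds hz)).hasFDerivAt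
    have h3 := h2.mul_const ((I * k)⁻¹ * exp (I * k * s))
    have h4 : (fun z => κ z k / (I * k) * exp (I * k * s)) =
        fun z => κ z k * ((I * k)⁻¹ * exp (I * k * s)) := funext fun z => by ring
    rw [h4, h3.fderiv]
    simp only [_root_.smul_apply, smul_eq_mul]
    ring
  refine ⟨fun s => (key s).1, fun e he => ?_⟩
  have hint : ∀ p q : ℝ, DifferentiableOn ℂ (fun z => chordS e (κ z) p q) U ∧ ∀ z ∈ U, ∀ w,
      fderiv ℂ (fun z => chordS e (κ z) p q) z w =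
        ∫ s in q..p, fderiv ℂ (fun z => exp (e * I * vth (κ z) s)) z w := by
    intro p q
    obtain ⟨t1, t2⟩ := diffOn_integral (f := fun z (s : ℝ) => exp (e * I * vth (κ z) s))
      (a := q) (b := p) (M := K) hU (fun s _ => ((key s).1.const_mul _).cexp)
      (fun z hz => by
        have := curvc_cont (curvc_l1 ha fun k => curvc_div (hκ z hz k) k)
        unfold vth
        fun_prop)
      (fun z hz s _ => (core (κ z) e (hκ z hz) he).1 s)
    exact ⟨t1, fun z hz w => (t2 z hz w).2⟩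
  refine ⟨fun p q => (hint p q).1, fun z hz => ⟨(core (κ z) e (hκ z hz) he).1, ?_, ?_⟩⟩
  · have h1 := (fs_diff ha fun k => curvc_div (hκ z hz k) k).2.2 0
    unfold vth
    push_cast
    rw [zero_add] at h1
    rw [h1, mul_add, exp_add, zero_add]
    have h2 : exp (e * I * (2 * Real.pi)) = 1 := by
      rcases he with rfl | rfl
      · rw [show 1 * I * (2 * (Real.pi : ℂ)) = 2 * Real.pi * I by ring, exp_two_pi_mul_I]
      · rw [show -1 * I * (2 * (Real.pi : ℂ)) = -(2 * Real.pi * I) by ring, exp_neg,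
          exp_two_pi_mul_I, inv_one]
    rw [h2, one_mul]
  · intro w ξ D E hξ hδ p q hpq
    have h1 : ∀ s : ℝ, fderiv ℂ (fun z => exp (e * I * vth (κ z) s)) z w =
        exp (e * I * vth (κ z) s) *
          (e * I * fs (fun k => fderiv ℂ (fun z => κ z k) z w / (I * k)) s) := fun s => by
      have h2 := ((key s).1.differentiableAt (hU.mem_nhds hz)).hasFDerivAt
      rw [(h2.const_mul (e * I)).cexp.fderiv, ← (key s).2 z hz w]
      simp only [_root_.smul_apply, smul_eq_mul]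
    rw [(hint p q).2 z hz w]
    simp only [h1]
    exact (core (κ z) e (hκ z hz) he).2 ξ _ D E hξ hδ p q hpq

end StekIso
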