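import Pool.Agent.Lib.MP_fa022d_an.CurvB
import Pool.Agent.Lib.MP_fa022d_an.CurvC

open Set Filter Topology Metric BoundedContinuousFunction Complex

noncomputable section
namespace StekIso

theorem curvm_cp (κ : ℤ → ℂ) :
    Cp κ = (1 / (2 * Real.pi) : ℂ) * chordS 1 κ (2 * Real.pi) 0 := by
  simp [Cp, fc, chordS]

theorem curvm_cm (κ : ℤ → ℂ) :
    Cm κ = (1 / (2 * Real.pi) : ℂ) * chordS (-1) κ (2 * Real.pi) 0 := by
  simp [Cm, fc, chordS]

theorem curvm_ch (κ : ℤ → ℂ) (p q : ℝ) : chord κ p q = chordS 1 κ p q := by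
  simp [chord, chordS]

theorem curvm_hil (c : ℤ → ℂ) : hil c (2 * Real.pi) = hil c 0 := by
  unfold hil fs
  refine tsum_congr fun k => ?_
  have := four2_per k 0
  rw [zero_add] at this
  push_cast
  rw [this]

theorem curvm_inv : ‖(1 / (2 * Real.pi) : ℂ)‖ ≤ 1 := by
  have := Real.pi_gt_three
  rw [norm_div, norm_one, norm_mul, Complex.norm_real, Real.norm_eq_abs, abs_of_pos Real.pi_pos,
    Complex.norm_ofNat, div_le_one (by positivity)]
  linarith

theorem curvm_fd {Z : Type} [NormedAddCommGroup Z] [NormedSpace ℂ Z] {f : Z → ℂ} {z : Z}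
    (hf : DifferentiableAt ℂ f z) (w : Z) {D : ℝ} (h : ‖fderiv ℂ f z w‖ ≤ D) :
    ‖fderiv ℂ (fun z => (1 / (2 * Real.pi) : ℂ) * f z) z w‖ ≤ D := by
  rw [fderiv_const_mul hf, _root_.smul_apply, norm_smul]
  exact (mul_le_mul curvm_inv h (norm_nonneg _) zero_le_one).trans (by rw [one_mul])

/-- `Cp`, `Cm` are chords from `0` to `2π` divided by `2π`; their boundary terms cancel -/
theorem curv_ok {B : Base} {C0 : ℝ} (hB : BaseOK B C0) {η : Pos} (hη : 12 * η.1 ≤ B.η0) {C : ℝ}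
    (hK : KerOK B η C) {lam0 : ℝ} (hH : Hof B ((0 : V η), (lam0 : ℂ)) = B.H0) :
    ∃ δ C', CurvOK B η lam0 δ C' := by
  obtain ⟨δ, hδ, hδK, hδ1, C1, hC1, hin, hd, hz⟩ := kapV_ok hB hη hK hH
  have hη0 := η.2
  obtain ⟨K, hK1, hch⟩ := chordS_var (a := 3 / 4 * η.1) (C := C1) (by positivity) (by linarith)
  obtain ⟨C2, hC2, hxi⟩ := xi_weak η
  have hU : IsOpen (domC η lam0 δ) := isOpen_ball.prod isOpen_ball
  obtain ⟨hv, hs⟩ := hch (V η × ℂ) (domC η lam0 δ) (fun z => kapV B z) hU hd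
    fun z h => (hz z h).1
  obtain ⟨dp, sp⟩ := hs 1 (Or.inl rfl)
  obtain ⟨dm, sm⟩ := hs (-1) (Or.inr rfl)
  have n1 : ∀ z ∈ domC η lam0 δ, ‖z.1 true‖ ≤ 1 := fun z h =>
    (norm_le_pi_norm z.1 true).trans ((mem_ball_zero_iff.1 h.1).le.trans hδ1)
  have xb : ∀ z ∈ domC η lam0 δ, ∀ (w : V η) k,
      ‖xiC (z.1 true) (w true) k‖ ≤ ‖w true‖ * ex (3 / 4 * η.1) k := fun z h w k =>
    ((xiC_eq _ _ (n1 z h)).2.2.1 k).trans (mul_le_mul_of_nonneg_left
      (Real.exp_le_exp.2 (by nlinarith [abs_nonneg (k : ℝ)])) (norm_nonneg _))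
  have p0 : ∀ w : V η, 0 ≤ pn w := fun w =>
    tsum_nonneg fun b => div_nonneg (norm_nonneg _) (br_pos _).le
  have xs : ∀ z ∈ domC η lam0 δ, ∀ w : V η,
      ∑' k, ‖xiC (z.1 true) (w true) k‖ / br k ≤ C2 * pn w ∧ ∀ s : ℝ,
      ‖hil (xiC (z.1 true) (w true)) s - ginv (z.1 true) s * hil (w true).coeff s‖ ≤
        C2 * pn w := fun z h w => by
    obtain ⟨a, b⟩ := hxi (z.1 true) (w true) (n1 z h)
    have c := mul_le_mul_of_nonneg_left (pn_comp w true) (by linarith : 0 ≤ C2)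
    exact ⟨a.trans c, fun s => (b s).trans c⟩
  have key : ∀ z ∈ domC η lam0 δ, ∀ w : V η,
      K * (C1 * pn w + ∑' k, ‖xiC (z.1 true) (w true) k‖ / br k) ≤ K * (C1 + C2) * pn w :=
    fun z h w => by
      rw [mul_assoc]
      exact mul_le_mul_of_nonneg_left (by linarith [(xs z h w).1]) (by linarith)
  have big : ∀ w : V η, K * (C1 + C2) * pn w ≤ K * (C1 + 3 * C2) * pn w := fun w =>
    mul_le_mul_of_nonneg_right (mul_le_mul_of_nonneg_left (by linarith) (by linarith)) (p0 w)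
  have KK : K ≤ K * (C1 + 3 * C2) := le_mul_of_one_le_right (by linarith) (by linarith)
  have h7 : |2 * Real.pi - 0| ≤ 7 := by
    rw [sub_zero, abs_of_pos (by positivity)]; linarith [Real.pi_lt_d2]
  refine ⟨δ, K * (C1 + 3 * C2), hδ, hδK, hK1.trans KK, hin, ?_, ?_, fun z h => ⟨?_, ?_⟩,
    fun z h hr hi s => ?_, fun s => (hv s).continuousOn, fun z h w => ⟨?_, ?_⟩, fun p q => ?_,
    fun z h w p q hpq => ?_, fun v hv' hr s => ginv_real v (hv'.le.trans hδ1) hr s⟩
  · simp only [curvm_cp]; exact (dp _ _).const_mul _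
  · simp only [curvm_cm]; exact (dm _ _).const_mul _
  · exact (norm_fc_le (fun s => by simpa using (sp z h).1 s) 0).trans KK
  · exact (norm_fc_le (fun s => by simpa using (sm z h).1 s) 0).trans KK
  · have r := (hz z h).2.1 hr hi
    rw [vth, add_im, ofReal_im, zero_add]
    refine fs_real (fun k => ?_) s
    rw [r]
    simp
  · simp only [curvm_cp]
    refine curvm_fd ((dp _ _).differentiableAt (hU.mem_nhds h)) _ ?_
    have := (sp z h).2.2 (w, 0) _ _ _ (xb z h w) ((hz z h).2.2 w) _ _ h7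
    rw [curvm_hil, (sp z h).2.1, sub_self, mul_zero, add_zero] at this
    exact this.trans ((key z h w).trans (big w))
  · simp only [curvm_cm]
    refine curvm_fd ((dm _ _).differentiableAt (hU.mem_nhds h)) _ ?_
    have := (sm z h).2.2 (w, 0) _ _ _ (xb z h w) ((hz z h).2.2 w) _ _ h7
    rw [curvm_hil, (sm z h).2.1, sub_self, mul_zero, add_zero] at this
    exact this.trans ((key z h w).trans (big w))
  · simp only [curvm_ch]; exact dp p q
  · simp only [curvm_ch]
    have a := ((sp z h).2.2 (w, 0) _ _ _ (xb z h w) ((hz z h).2.2 w) p q hpq).trans (key z h w)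
    have bp := (sp z h).1 p
    have bq := (sp z h).1 q
    have cp := (xs z h w).2 p
    have cq := (xs z h w).2 q
    simp only [one_mul] at a bp bq
    generalize fderiv ℂ (fun z => chordS 1 (kapV B z) p q) z (w, 0) = F at a ⊢
    generalize exp (I * vth (kapV B z) p) = ep at a bp ⊢
    generalize exp (I * vth (kapV B z) q) = eq at a bq ⊢
    generalize hil (xiC (z.1 true) (w true)) p = xp at a cp
    generalize hil (xiC (z.1 true) (w true)) q = xq at a cq
    rw [mul_assoc ep, mul_assoc eq]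
    generalize ginv (z.1 true) p * hil (w true).coeff p = yp at cp ⊢
    generalize ginv (z.1 true) q * hil (w true).coeff q = yq at cq ⊢
    have e : F + I * (ep * yp - eq * yq) =
        (F + I * (ep * xp - eq * xq)) - I * (ep * (xp - yp) - eq * (xq - yq)) := by ring
    have k0 : 0 ≤ K := by linarith
    have t1 : ‖ep * (xp - yp)‖ ≤ K * (C2 * pn w) := by
      rw [norm_mul]; exact mul_le_mul bp cp (norm_nonneg _) k0
    have t2 : ‖eq * (xq - yq)‖ ≤ K * (C2 * pn w) := by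
      rw [norm_mul]; exact mul_le_mul bq cq (norm_nonneg _) k0
    have t3 := norm_sub_le (ep * (xp - yp)) (eq * (xq - yq))
    rw [e]
    refine (norm_sub_le _ _).trans ?_
    rw [norm_mul, norm_I, one_mul]
    linarith

end StekIso
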