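import Pool.Agent.Lib.MP_fa022d_an.KerH
import Pool.Agent.Lib.MP_fa022d_an.BaseK

open Set Filter Topology Metric BoundedContinuousFunction Complex

noncomputable section
namespace StekIso

/-- the matrix of `|D| + S` -/
def keriT (S : Idx → Idx → ℂ) (b c : Idx) : ℂ := (if b = c then (|c.2| : ℤ) else 0) + S b c

theorem keri_idx {f : ℤ → ℝ} (hf : Summable f) (h0 : ∀ k, 0 ≤ f k) :
    Summable fun c : Idx => f c.2 :=
  (summable_prod_of_nonneg fun c => h0 c.2).2 ⟨fun _ => hf, Summable.of_finite⟩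

theorem keri_ex_le {a : ℝ} (h : 0 < a) (k : ℤ) : ex a k ≤ 1 :=
  Real.exp_le_one_iff.2 (by nlinarith [abs_nonneg (k : ℝ)])

theorem keri_Tm (S : Idx → Idx → ℂ) (r : Idx → ℂ) (b : Idx)
    (h : Summable fun c => keriT S b c * r c) : Tm S r b = ∑' c, keriT S b c * r c := by
  have a := hasSum_ite_eq b (((|b.2| : ℤ) : ℂ) * r b)
  have e (c : Idx) : keriT S b c * r c - (if c = b then ((|b.2| : ℤ) : ℂ) * r b else 0) =
      S b c * r c := by
    unfold keriT
    by_cases k : c = b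
    · subst k; simp only [if_true]; ring
    · simp [k, Ne.symm k]
  have s := h.hasSum.sub a
  simp only [e] at s
  rw [Tm, Sap, s.tsum_eq]; ring

theorem keri_bd {a C : ℝ} {S : Idx → Idx → ℂ} (h0 : 0 < a) (hC : 1 ≤ C) (h : Crude a C S)
    (b c : Idx) : ‖keriT S b c‖ ≤ C * br c.2 ∧ ‖keriT S b c‖ ≤ C * br b.2 := by
  have s : ‖S b c‖ ≤ C := (h b c).trans (mul_le_of_le_one_right (by linarith)
    (mul_le_one₀ (keri_ex_le h0 _) (ex_pos _ _).le (keri_ex_le h0 _)))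
  unfold keriT
  by_cases k : b = c
  · subst k
    have : ‖(((if b = b then |b.2| else 0 : ℤ) : ℂ)) + S b b‖ ≤ C * br b.2 := by
      refine (norm_add_le _ _).trans ?_
      rw [if_pos rfl, Complex.norm_intCast, Int.cast_abs, abs_abs, br]
      nlinarith [abs_nonneg (b.2 : ℝ)]
    exact ⟨this, this⟩
  · rw [if_neg k, Int.cast_zero, zero_add]
    constructor <;> nlinarith [one_le_br b.2, one_le_br c.2]

theorem keri_dk {a C : ℝ} {q : Idx → ℂ} (h0 : 0 < a) (h : Dk a C q) :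
    (Summable fun c : Idx => br c.2 * ‖q c‖) ∧ (Summable fun c => ‖q c‖) ∧
      Summable fun c : Idx => ‖I * c.2 * q c‖ := by
  have s : Summable fun c : Idx => br c.2 * ‖q c‖ := by
    refine .of_nonneg_of_le (fun c => mul_nonneg (br_pos _).le (norm_nonneg _)) (fun c => ?_)
      ((keri_idx (summable_ex h0 1) fun k =>
        mul_nonneg (pow_pos (br_pos _) _).le (ex_pos _ _).le).mul_left C)
    have := mul_le_mul_of_nonneg_left (h c) (br_pos c.2).le
    rw [pow_one]; linarith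
  refine ⟨s, .of_nonneg_of_le (fun _ => norm_nonneg _) (fun c => ?_) s,
    .of_nonneg_of_le (fun _ => norm_nonneg _) (fun c => ?_) s⟩
  · exact le_mul_of_one_le_left (norm_nonneg _) (one_le_br _)
  · rw [norm_mul, norm_mul, norm_I, one_mul, Complex.norm_intCast, br]
    nlinarith [norm_nonneg (q c)]

theorem keri_Tsum {a C Cq : ℝ} {S : Idx → Idx → ℂ} {q : Idx → ℂ} (h0 : 0 < a) (h : Crude a C S)
    (hq : Dk a Cq q) : Summable fun b => ‖Tm S q b‖ := by
  obtain ⟨s1, s2, -⟩ := keri_dk h0 hq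
  have hC : 0 ≤ C := four2_nonneg (h (true, 0) (true, 0)) (mul_pos (ex_pos _ _) (ex_pos _ _))
  have e := keri_idx (summable_ex h0 0) fun k =>
    mul_nonneg (pow_pos (br_pos _) _).le (ex_pos _ _).le
  simp only [pow_zero, one_mul] at e
  refine .of_nonneg_of_le (fun _ => norm_nonneg _) (fun b => (norm_add_le _ _).trans ?_)
    (s1.add ((e.mul_left C).mul_right (∑' c, ‖q c‖)))
  refine add_le_add ?_ (tsum_of_norm_bounded (s2.hasSum.mul_left _) fun c => ?_)
  · rw [norm_mul, Complex.norm_intCast, Int.cast_abs, abs_abs, br]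
    nlinarith [norm_nonneg (q b)]
  · rw [norm_mul]
    refine mul_le_mul_of_nonneg_right ((h b c).trans (mul_le_mul_of_nonneg_left ?_ hC))
      (norm_nonneg _)
    exact mul_le_of_le_one_right (ex_pos _ _).le (keri_ex_le h0 _)

theorem keri_ap1 {C : ℝ} {T : ℤ → Idx → ℂ} {ξ : ℤ → ℂ} {q : Idx → ℂ}
    (hT : ∀ a c, ‖T a c‖ ≤ C * br c.2) (hξ : Summable fun h => ‖ξ h‖)
    (hq : Summable fun c : Idx => br c.2 * ‖q c‖) :
    (Summable fun c => (∑' h, ξ h * T h c) * q c) ∧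
      ∑' c, (∑' h, ξ h * T h c) * q c = ∑' h, ξ h * ∑' c, T h c * q c := by
  have hC : 0 ≤ C := four2_nonneg (hT 0 (true, 0)) (br_pos _)
  have F : Summable (Function.uncurry fun (c : Idx) (h : ℤ) => ξ h * (T h c * q c)) := by
    refine .of_norm_bounded ((hq.mul_left C).mul_of_nonneg hξ (fun c => ?_)
      fun _ => norm_nonneg _) fun x => ?_
    · exact mul_nonneg hC (mul_nonneg (br_pos _).le (norm_nonneg _))
    · simp only [Function.uncurry, norm_mul]
      rw [mul_comm, ← mul_assoc C]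
      gcongr
      exact hT _ _
  have e (c : Idx) : (∑' h, ξ h * T h c) * q c = ∑' h, ξ h * (T h c * q c) := by
    rw [← tsum_mul_right]; simp only [mul_assoc]
  simp only [e]
  refine ⟨F.prod, F.tsum_comm.symm.trans (tsum_congr fun h => tsum_mul_left)⟩

/-- shear -/
def keriSh : Idx × ℤ ≃ Idx × ℤ where
  toFun x := ((x.1.1, x.1.2 - x.2), x.2)
  invFun x := ((x.1.1, x.1.2 + x.2), x.2)
  left_inv x := by simp
  right_inv x := by simp

theorem keri_ap2 {M : ℝ} {T u : Idx → ℂ} {ξ : Bool → ℤ → ℂ} {E : ℤ → ℝ} (hT : ∀ a, ‖T a‖ ≤ M)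
    (hE : Summable E) (hξ : ∀ j h, ‖ξ j h‖ ≤ E h) (hu : Summable fun c => ‖u c‖) :
    (Summable fun c : Idx => (∑' a, T (c.1, a) * ξ c.1 (a - c.2)) * u c) ∧
    (Summable fun a : Idx => T a * conv (ξ a.1) (cp u a.1) a.2) ∧
      ∑' c : Idx, (∑' a, T (c.1, a) * ξ c.1 (a - c.2)) * u c =
        ∑' a : Idx, T a * conv (ξ a.1) (cp u a.1) a.2 := by
  have hM : 0 ≤ M := (norm_nonneg _).trans (hT (true, 0))
  have F : Summable fun x : Idx × ℤ => T (x.1.1, x.1.2 + x.2) * (ξ x.1.1 x.2 * u x.1) := by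
    refine .of_norm_bounded ((hu.mul_left M).mul_of_nonneg hE (fun c => ?_)
      fun h => (norm_nonneg _).trans (hξ true h)) fun x => ?_
    · exact mul_nonneg hM (norm_nonneg _)
    · simp only [norm_mul]
      rw [mul_assoc, mul_comm _ (E _)]
      gcongr
      exacts [hT _, hξ _ _]
  have G := keriSh.summable_iff.2 F
  have t := keriSh.tsum_eq fun x : Idx × ℤ => T (x.1.1, x.1.2 + x.2) * (ξ x.1.1 x.2 * u x.1)
  have e (c : Idx) : (∑' a, T (c.1, a) * ξ c.1 (a - c.2)) * u c =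
      ∑' h, T (c.1, c.2 + h) * (ξ c.1 h * u c) := by
    rw [← tsum_mul_right, ← (Equiv.addLeft c.2).tsum_eq]
    simp [mul_assoc]
  have e' (a : Idx) : T a * conv (ξ a.1) (cp u a.1) a.2 =
      ∑' h, T a * (ξ a.1 h * u (a.1, a.2 - h)) := tsum_mul_left.symm
  simp only [keriSh, Equiv.coe_fn_mk, Function.comp_def, sub_add_cancel] at G t
  simp only [e, e']
  exact ⟨F.prod, G.prod, F.tsum_prod.symm.trans (t.symm.trans G.tsum_prod)⟩

/-- exchange -/
def keriEx : Idx × ℤ ≃ Idx × ℤ where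
  toFun x := ((x.1.1, -x.2), -x.1.2)
  invFun x := ((x.1.1, -x.2), -x.1.2)
  left_inv x := by simp
  right_inv x := by simp

/-- opposite frequency as a permutation -/
def keriNg : Idx ≃ Idx where
  toFun := ng
  invFun := ng
  left_inv x := by simp [ng]
  right_inv x := by simp [ng]

theorem keri_tri {u v : Idx → ℂ} {ξ : Bool → ℤ → ℂ} {E : ℤ → ℝ} (hE : Summable E)
    (hξ : ∀ j h, ‖ξ j h‖ ≤ E h) (hu : Summable fun c => ‖u c‖) (hv : Summable fun c => ‖v c‖) :
    (Summable fun b : Idx => u (ng b) * conv (ξ b.1) (cp v b.1) b.2) ∧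
    (Summable fun c : Idx => ξ c.1 (-c.2) * conv (cp u c.1) (cp v c.1) c.2) ∧
      ∑' b : Idx, u (ng b) * conv (ξ b.1) (cp v b.1) b.2 =
        ∑' c : Idx, ξ c.1 (-c.2) * conv (cp u c.1) (cp v c.1) c.2 := by
  have hV (c : Idx) : ‖v c‖ ≤ ∑' c, ‖v c‖ := hv.le_tsum c fun _ _ => norm_nonneg _
  have hu' : Summable fun c => ‖u (ng c)‖ := keriNg.summable_iff.2 hu
  have F : Summable fun x : Idx × ℤ => u (ng x.1) * (ξ x.1.1 x.2 * v (x.1.1, x.1.2 - x.2)) := by
    refine .of_norm_bounded (hu'.mul_of_nonneg (hE.mul_right (∑' c, ‖v c‖))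
      (fun c => norm_nonneg _) fun h => ?_) fun x => ?_
    · exact mul_nonneg ((norm_nonneg _).trans (hξ true h)) (tsum_nonneg fun _ => norm_nonneg _)
    · simp only [norm_mul]
      have := (norm_nonneg _).trans (hξ true x.2)
      gcongr
      exacts [hξ _ _, hV _]
  have G := keriEx.summable_iff.2 F
  have t := keriEx.tsum_eq
    fun x : Idx × ℤ => u (ng x.1) * (ξ x.1.1 x.2 * v (x.1.1, x.1.2 - x.2))
  have e (b : Idx) : u (ng b) * conv (ξ b.1) (cp v b.1) b.2 =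
      ∑' h, u (ng b) * (ξ b.1 h * v (b.1, b.2 - h)) := tsum_mul_left.symm
  have e' (c : Idx) : ξ c.1 (-c.2) * conv (cp u c.1) (cp v c.1) c.2 =
      ∑' l, u (ng (c.1, -l)) * (ξ c.1 (-c.2) * v (c.1, -l - -c.2)) := by
    rw [conv, ← tsum_mul_left]
    refine tsum_congr fun l => ?_
    rw [show -l - -c.2 = c.2 - l by ring]
    simp only [cp, ng, neg_neg]; ring
  simp only [keriEx, Equiv.coe_fn_mk, Function.comp_def] at G t
  simp only [e, e']
  exact ⟨F.prod, G.prod, F.tsum_prod.symm.trans (t.symm.trans G.tsum_prod)⟩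

theorem keri_sym {C : ℝ} {S : Idx → Idx → ℂ} {p r : Idx → ℂ} (hs : BSym S)
    (hT : ∀ b c, ‖keriT S b c‖ ≤ C * br c.2 ∧ ‖keriT S b c‖ ≤ C * br b.2)
    (hp : Summable fun c : Idx => br c.2 * ‖p c‖) (hr : Summable fun c => ‖r c‖) :
    (Summable fun b => p (ng b) * Tm S r b) ∧
      ∑' b, p (ng b) * Tm S r b = ∑' c, Tm S p (ng c) * r c := by
  have hC : 0 ≤ C := four2_nonneg (hT (true, 0) (true, 0)).1 (br_pos _)
  have hp' : Summable fun c : Idx => br c.2 * ‖p (ng c)‖ :=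
    (keriNg.summable_iff.2 hp).congr fun c => by simp [keriNg, ng, br]
  have F : Summable (Function.uncurry fun b c : Idx => p (ng b) * (keriT S b c * r c)) := by
    refine .of_norm_bounded ((hp'.mul_left C).mul_of_nonneg hr (fun c => ?_)
      fun _ => norm_nonneg _) fun x => ?_
    · exact mul_nonneg hC (mul_nonneg (br_pos _).le (norm_nonneg _))
    · simp only [Function.uncurry, norm_mul]
      rw [← mul_assoc, ← mul_assoc C, mul_comm ‖p _‖]
      gcongr
      exact (hT _ _).2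
  have e (b : Idx) : p (ng b) * Tm S r b = ∑' c, p (ng b) * (keriT S b c * r c) := by
    rw [tsum_mul_left, keri_Tm]
    refine .of_norm_bounded (hr.mul_left (C * br b.2)) fun c => ?_
    rw [norm_mul]
    exact mul_le_mul_of_nonneg_right (hT _ _).2 (norm_nonneg _)
  have y (b c : Idx) : keriT S b c = keriT S (ng c) (ng b) := by
    unfold keriT
    rw [hs b c]
    by_cases k : b = c
    · subst k; simp [ng]
    · rw [if_neg k, if_neg fun h : ng c = ng b => k (keriNg.injective h).symm]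
  have e' (c : Idx) : Tm S p (ng c) * r c = ∑' b, p (ng b) * (keriT S b c * r c) := by
    rw [keri_Tm, ← tsum_mul_right, ← keriNg.tsum_eq]
    · refine tsum_congr fun b => ?_
      rw [y b c]
      show keriT S (ng c) (ng b) * p (ng b) * r c = _
      ring
    · refine .of_norm_bounded (hp.mul_left C) fun c => ?_
      rw [norm_mul, ← mul_assoc]
      exact mul_le_mul_of_nonneg_right (hT _ _).1 (norm_nonneg _)
  simp only [e, e']
  exact ⟨F.prod, F.tsum_comm.symm⟩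

theorem keri_xi {B : Base} {η : Pos} {z : V η × ℂ} (hz : z ∈ dom B η (δK B η)) (w : V η) :
    (Summable fun k => ‖w‖ * ex η.1 k) ∧ ∀ j k, ‖xiC (z.1 j) (w j) k‖ ≤ ‖w‖ * ex η.1 k := by
  refine ⟨Summable.mul_left _ (by simpa using summable_ex η.2 0), fun j k => ?_⟩
  have h : ‖z.1‖ < δK B η := mem_ball_zero_iff.1 hz.1
  have h1 : δK B η ≤ 1 := ((min_le_right _ _).trans (min_le_left _ _)).trans
    (div_le_one_of_le₀ (one_le_K2 η) (by linarith [one_le_K2 η]))
  refine ((xiC_eq (z.1 j) (w j) ((norm_le_pi_norm _ j).trans (by linarith))).2.2.1 k).trans ?_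
  exact mul_le_mul_of_nonneg_right (norm_le_pi_norm w j) (ex_pos _ _).le

theorem keri_ap {B : Base} {C0 : ℝ} (hB : BaseOK B C0) {η : Pos} (hη : 12 * η.1 ≤ B.η0) :
    ∀ z ∈ dom B η (δK B η), ∀ (w : V η) (q : Idx → ℂ) (Cq : ℝ), Dk (7 / 8 * η.1) Cq q → ∀ b : Idx,
    Sap (dSm B z (w, 0)) q b =
      dS (conv (xiC (z.1 b.1) (w b.1)) (cp (Tm (Smat B z) q) b.1)) b.2 -
      Tm (Smat B z) (fun c => conv (xiC (z.1 c.1) (w c.1)) (dS (cp q c.1)) c.2) b := by
  intro z hz w q Cq hq b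
  have h0 : 0 < 7 / 8 * η.1 := by linarith [η.2]
  obtain ⟨C, hC, hc, -⟩ := Smat_row hB hη
  have hT := keri_bd h0 hC (hc z hz)
  obtain ⟨hE, hξ⟩ := keri_xi hz w
  obtain ⟨q1, -, q3⟩ := keri_dk h0 hq
  obtain ⟨s1, t1⟩ := keri_ap1 (T := fun h c => keriT (Smat B z) (b.1, b.2 - h) c)
    (ξ := xiC (z.1 b.1) (w b.1)) (fun h c => (hT _ c).1)
    (.of_nonneg_of_le (fun _ => norm_nonneg _) (hξ b.1) hE) q1
  obtain ⟨s2, s3, t2⟩ := keri_ap2 (T := keriT (Smat B z) b) (ξ := fun j => xiC (z.1 j) (w j))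
    (fun c => (hT b c).2) hE hξ q3
  have e (c : Idx) : dSm B z (w, 0) b c * q c =
      I * b.2 * ((∑' h, xiC (z.1 b.1) (w b.1) h * keriT (Smat B z) (b.1, b.2 - h) c) * q c) -
      (∑' a, keriT (Smat B z) b (c.1, a) * xiC (z.1 c.1) (w c.1) (a - c.2)) *
        (I * c.2 * q c) := by
    have k (a : ℤ) : ((if b = (c.1, a) then |b.2| else 0 : ℤ) : ℂ) + Smat B z b (c.1, a) =
        keriT (Smat B z) b (c.1, a) := by
      unfold keriT
      by_cases k : b = (c.1, a)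
      · subst k; rfl
      · rw [if_neg k, if_neg k]
    rw [Smat_fderiv hB hη z hz w b c]
    simp only [k]
    simp only [conv, keriT]
    ring
  rw [Sap]
  simp only [e]
  rw [(s1.mul_left _).tsum_sub s2, tsum_mul_left, t1, t2]
  congr 1
  · rw [dS, conv]
    congr 1
    refine tsum_congr fun h => ?_
    rw [cp, keri_Tm]
    refine .of_norm_bounded (q1.mul_left C) fun c => ?_
    rw [norm_mul, ← mul_assoc]
    exact mul_le_mul_of_nonneg_right (hT _ _).1 (norm_nonneg _)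
  · exact (keri_Tm _ _ _ s3).symm

theorem Smat_comm {B : Base} {C0 : ℝ} (hB : BaseOK B C0) {η : Pos} (hη : 12 * η.1 ≤ B.η0) :
    ∀ z ∈ dom B η (δK B η), ∀ (w : V η) (p q : Idx → ℂ) (Cp Cq : ℝ),
    Dk (7 / 8 * η.1) Cp p → Dk (7 / 8 * η.1) Cq q →
    Bf p (Sap (dSm B z (w, 0)) q) =
      -∑ j, ∑' k, xiC (z.1 j) (w j) (-k) * fPQ (Smat B z) p q j k := by
  intro z hz w p q Cp Cq hp hq
  have h0 : 0 < 7 / 8 * η.1 := by linarith [η.2]
  obtain ⟨C, hC, hc, -⟩ := Smat_row hB hη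
  have hT := keri_bd h0 hC (hc z hz)
  obtain ⟨hE, hξ⟩ := keri_xi hz w
  obtain ⟨-, -, q3⟩ := keri_dk h0 hq
  obtain ⟨p1, -, p3⟩ := keri_dk h0 hp
  obtain ⟨s1, s2, t1⟩ := keri_tri (ξ := fun j => xiC (z.1 j) (w j)) hE hξ p3
    (keri_Tsum h0 (hc z hz) hq)
  obtain ⟨-, s4, t2⟩ := keri_tri (ξ := fun j => xiC (z.1 j) (w j)) hE hξ
    (keri_Tsum h0 (hc z hz) hp) q3
  obtain ⟨-, s5, -⟩ := keri_ap2 (T := fun _ => 1) (M := 1) (ξ := fun j => xiC (z.1 j) (w j))
    (fun _ => by simp) hE hξ q3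
  simp only [one_mul] at s5
  obtain ⟨s6, t3⟩ := keri_sym (Smat_bsym hB hη z hz) hT p1 s5.norm
  have e (b : Idx) : p (ng b) * Sap (dSm B z (w, 0)) q b =
      -(I * (ng b).2 * p (ng b) * conv (xiC (z.1 b.1) (w b.1)) (cp (Tm (Smat B z) q) b.1) b.2) -
      p (ng b) * Tm (Smat B z) (fun c => conv (xiC (z.1 c.1) (w c.1))
        (cp (fun c : Idx => I * c.2 * q c) c.1) c.2) b := by
    rw [keri_ap hB hη z hz w q Cq hq b, dS, mul_sub]
    congr 1
    simp only [ng, Int.cast_neg]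
    ring
  rw [Bf]
  simp only [e]
  rw [s1.neg.tsum_sub s6, tsum_neg, t1, t3, t2, ← neg_add', ← s2.tsum_add s4,
    (s2.add s4).tsum_prod, tsum_fintype]
  congr 1
  refine Finset.sum_congr rfl fun j _ => tsum_congr fun k => ?_
  exact (mul_add _ _ _).symm

/-- the operator form used for the curvature -/
theorem Smat_comm_ap {B : Base} {C0 : ℝ} (hB : BaseOK B C0) {η : Pos} (hη : 12 * η.1 ≤ B.η0) :
    ∀ z ∈ dom B η (δK B η), ∀ (w : V η) (q : Idx → ℂ) (Cq : ℝ), Dk (7 / 8 * η.1) Cq q → ∀ b : Idx,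
    Sap (dSm B z (w, 0)) q b =
      dS (conv (xiC (z.1 b.1) (w b.1)) (cp (Tm (Smat B z) q) b.1)) b.2 -
      Tm (Smat B z) (fun c => conv (xiC (z.1 c.1) (w c.1)) (dS (cp q c.1)) c.2) b := by
  exact keri_ap hB hη

end StekIso
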