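import Pool.Agent.Lib.MP_fa022d_an.KerK
import Pool.Agent.Lib.MP_fa022d_an.KerI
import Pool.Agent.Lib.MP_fa022d_an.BaseK

/-! Sequences in the polynomially weak norm. -/

open Set Filter Topology Metric BoundedContinuousFunction Complex

noncomputable section
namespace StekIso

/-- weak norm of one sequence -/
def cvP (c : ℤ → ℂ) : ℝ := ∑' k, ‖c k‖ / br k
/-- the convolution constant -/
def cvK (η : ℝ) : ℝ := ∑' k, br k ^ 1 * ex η k
/-- coefficients of the Hilbert transform -/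
def cvH (c : ℤ → ℂ) (k : ℤ) : ℂ := -I * Int.sign k * c k

theorem cv_nn (c : ℤ → ℂ) (k : ℤ) : 0 ≤ ‖c k‖ / br k := div_nonneg (norm_nonneg _) (br_pos k).le

theorem cv_P0 (c : ℤ → ℂ) : 0 ≤ cvP c := tsum_nonneg (cv_nn c)

theorem cv_e0 (η : ℝ) (k : ℤ) : 0 ≤ br k ^ 1 * ex η k :=
  (mul_pos (pow_pos (br_pos k) 1) (ex_pos η k)).le

theorem cv_K0 (η : ℝ) : 0 ≤ cvK η := tsum_nonneg (cv_e0 η)

theorem cv_sP {c : ℤ → ℂ} (hc : Summable fun k => ‖c k‖) : Summable fun k => ‖c k‖ / br k :=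
  .of_nonneg_of_le (cv_nn c) (fun k => div_le_self (norm_nonneg _) (one_le_br k)) hc

theorem cv_ex {c : ℤ → ℂ} {D η : ℝ} (h : 0 < η) (hc : ∀ k, ‖c k‖ ≤ D * ex η k) :
    Summable fun k => ‖c k‖ :=
  .of_nonneg_of_le (fun _ => norm_nonneg _) hc ((kerj_sum h).mul_left D)

theorem cv_cv {u e : ℤ → ℝ} (hu : Summable u) (he : Summable e) (u0 : ∀ k, 0 ≤ u k)
    (e0 : ∀ k, 0 ≤ e k) : (∀ k, Summable fun h => u h * e (k - h)) ∧
    HasSum (fun k => ∑' h, u h * e (k - h)) ((∑' k, u k) * ∑' k, e k) := by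
  have s := hu.mul_of_nonneg he u0 e0
  let E : ℤ × ℤ ≃ ℤ × ℤ :=
    { toFun := fun p => (p.2, p.1 - p.2), invFun := fun p => (p.2 + p.1, p.1),
      left_inv := fun p => by simp, right_inv := fun p => by simp }
  have a : HasSum (fun p : ℤ × ℤ => u p.2 * e (p.1 - p.2)) _ :=
    E.hasSum_iff.2 (hu.hasSum.mul he.hasSum s)
  exact ⟨a.summable.prod_factor, a.prod_fiberwise fun k => (a.summable.prod_factor k).hasSum⟩

theorem cv_conv {c d : ℤ → ℂ} {D η : ℝ} (h : 0 < η) (hc : Summable fun k => ‖c k‖)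
    (hd : ∀ k, ‖d k‖ ≤ D * ex η k) :
    (Summable fun k => ‖conv c d k‖) ∧ cvP (conv c d) ≤ D * cvK η * cvP c := by
  have D0 := four2_nonneg (hd 0) (ex_pos _ _)
  obtain ⟨a, b⟩ := cv_cv hc (cv_ex h hd) (fun _ => norm_nonneg _) fun _ => norm_nonneg _
  have s : Summable fun k => ‖conv c d k‖ :=
    .of_nonneg_of_le (fun _ => norm_nonneg _) (fun k => tsum_of_norm_bounded (a k).hasSum
      fun l => (norm_mul _ _).le) b.summable
  obtain ⟨a', b'⟩ := cv_cv (cv_sP hc) (summable_ex h 1) (cv_nn c) (cv_e0 η)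
  refine ⟨s, (hasSum_le (fun k => ?_) (cv_sP s).hasSum (b'.mul_left D)).trans_eq
    (by rw [cvP, cvK]; ring)⟩
  rw [div_le_iff₀ (br_pos k)]
  refine tsum_of_norm_bounded (((a' k).hasSum.mul_left D).mul_right _) fun l => ?_
  have p : br l ≤ br (k - l) * br k := by
    simp only [br, Int.cast_sub]
    have := abs_sub_abs_le_abs_sub (l : ℝ) k
    rw [abs_sub_comm] at this
    nlinarith [mul_nonneg (abs_nonneg ((k : ℝ) - l)) (abs_nonneg (k : ℝ))]
  have q := br_pos l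
  calc _ ≤ ‖c l‖ * (D * ex η (k - l)) := by
        rw [norm_mul]; exact mul_le_mul_of_nonneg_left (hd _) (norm_nonneg _)
    _ = D * (‖c l‖ / br l * ex η (k - l)) * br l := by field_simp
    _ ≤ D * (‖c l‖ / br l * ex η (k - l)) * (br (k - l) * br k) :=
        mul_le_mul_of_nonneg_left p (mul_nonneg D0 (mul_nonneg (cv_nn c l) (ex_pos _ _).le))
    _ = _ := by ring

theorem cv_sg (k : ℤ) : ‖-I * (Int.sign k : ℂ)‖ ≤ 1 := by
  rcases lt_trichotomy k 0 with h | h | h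
  · simp [Int.sign_eq_neg_one_of_neg h]
  · simp [h]
  · simp [Int.sign_eq_one_of_pos h]

theorem cv_Hle (c : ℤ → ℂ) (k : ℤ) : ‖cvH c k‖ ≤ ‖c k‖ := by
  rw [cvH, norm_mul]
  exact mul_le_of_le_one_left (norm_nonneg _) (cv_sg k)

theorem cv_HP {c : ℤ → ℂ} (hc : Summable fun k => ‖c k‖) : cvP (cvH c) ≤ cvP c :=
  (cv_sP (.of_nonneg_of_le (fun _ => norm_nonneg _) (cv_Hle c) hc)).tsum_le_tsum
    (fun k => div_le_div_of_nonneg_right (cv_Hle c k) (br_pos k).le) (cv_sP hc)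

theorem cv_dH (c : ℤ → ℂ) (k : ℤ) : dS (cvH c) k = (|k| : ℤ) * c k := by
  rw [dS, cvH, ← Int.sign_mul_self_eq_abs]
  push_cast
  linear_combination (-(k : ℂ) * Int.sign k * c k) * I_mul_I

/-- the commutator of the Hilbert transform with an analytic multiplier -/
theorem cv_comm {c d : ℤ → ℂ} {D η : ℝ} (h : 0 < η) (hc : Summable fun k => ‖c k‖)
    (hd : ∀ k, ‖d k‖ ≤ D * ex η k) (s : ℝ) :
    ‖fs (cvH (conv c d)) s - fs d s * fs (cvH c) s‖ ≤ 2 * D * cvK η * cvP c := by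
  have D0 := four2_nonneg (hd 0) (ex_pos _ _)
  have sd := cv_ex h hd
  have sH : Summable fun k => ‖cvH c k‖ := .of_nonneg_of_le (fun _ => norm_nonneg _) (cv_Hle c) hc
  have bd : ∀ k, ‖d k‖ ≤ ∑' k, ‖d k‖ := fun k => sd.le_tsum k fun _ _ => norm_nonneg _
  obtain ⟨f1, f2⟩ := fs_conv (four1_sum sH s) (four1_sum sd s) (kerh_cs sH bd)
  have s1 : Summable fun k => ‖cvH (conv c d) k‖ :=
    .of_nonneg_of_le (fun _ => norm_nonneg _) (cv_Hle _) (cv_conv h hc hd).1
  obtain ⟨a', b'⟩ := cv_cv (cv_sP hc) (summable_ex h 1) (cv_nn c) (cv_e0 η)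
  rw [mul_comm (fs d s), ← f2, fs, fs, ← (four1_sum s1 s).of_norm.tsum_sub f1.of_norm]
  refine (tsum_of_norm_bounded (b'.mul_left (2 * D)) fun k => ?_).trans_eq
    (by rw [cvP, cvK]; ring)
  rw [← sub_mul, norm_mul, (four1_norm k s).1, mul_one, cvH, conv, conv, ← tsum_mul_left,
    ← ((kerh_cs hc bd k).mul_left _).tsum_sub (kerh_cs sH bd k)]
  refine tsum_of_norm_bounded ((a' k).hasSum.mul_left _) fun l => ?_
  have n := mul_nonneg (mul_nonneg zero_le_two D0) (mul_nonneg (cv_nn c l) (cv_e0 η (k - l)))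
  by_cases e : Int.sign k = Int.sign l
  · rw [cvH, e, ← mul_assoc, sub_self, norm_zero]
    exact n
  have p : br l ≤ br (k - l) := by
    have : |l| ≤ |k - l| := by
      rcases lt_trichotomy k 0 with a | a | a <;> rcases lt_trichotomy l 0 with b | b | b <;>
        simp_all [Int.sign_eq_neg_one_of_neg, Int.sign_eq_one_of_pos, abs_le, le_abs] <;> omega
    simp only [br]
    exact_mod_cast add_le_add le_rfl this
  have q := br_pos l
  have t : ‖-I * (Int.sign k : ℂ) - -I * (Int.sign l : ℂ)‖ ≤ 2 :=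
    (norm_sub_le _ _).trans (by linarith [cv_sg k, cv_sg l])
  calc _ = ‖-I * (Int.sign k : ℂ) - -I * (Int.sign l : ℂ)‖ * (‖c l‖ * ‖d (k - l)‖) := by
        rw [← norm_mul, ← norm_mul, cvH]; congr 1; ring
    _ ≤ 2 * (‖c l‖ * (D * ex η (k - l))) :=
        mul_le_mul t (mul_le_mul_of_nonneg_left (hd _) (norm_nonneg _)) (by positivity) zero_le_two
    _ = 2 * D * (‖c l‖ / br l * ex η (k - l)) * br l := by field_simp
    _ ≤ 2 * D * (‖c l‖ / br l * ex η (k - l)) * br (k - l) :=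
        mul_le_mul_of_nonneg_left p (mul_nonneg (mul_nonneg zero_le_two D0)
          (mul_nonneg (cv_nn c l) (ex_pos _ _).le))
    _ = _ := by ring

theorem cv_cont {c : ℤ → ℂ} (hc : Summable fun k => ‖c k‖) : Continuous fun s : ℝ => fs c s :=
  continuous_tsum (fun k => by fun_prop) hc fun k s => by
    rw [norm_mul, (four1_norm k s).1, mul_one]

/-- oscillatory integral against a Fourier series -/
theorem cv_osc {g g' : ℝ → ℂ} {M : ℝ} (hd : ∀ s, HasDerivAt g (g' s) s) (hg : Continuous g')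
    (h0 : ∀ s, ‖g s‖ ≤ M) (h1 : ∀ s, ‖g' s‖ ≤ M) {p q : ℝ} (hpq : |p - q| ≤ 7) {c : ℤ → ℂ}
    (hc : Summable fun k => ‖c k‖) : ‖∫ s in q..p, g s * fs c s‖ ≤ 20 * M * cvP c := by
  have c0 : Continuous g := continuous_iff_continuousAt.2 fun s => (hd s).continuousAt
  have h := intervalIntegral.hasSum_integral_of_dominated_convergence (μ := MeasureTheory.volume)
    (a := q) (b := p) (f := fun s : ℝ => g s * fs c s)
    (F := fun (n : ℤ) (s : ℝ) => g s * (c n * exp (I * n * s))) (fun n _ => M * ‖c n‖)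
    (fun n => Continuous.aestronglyMeasurable (by fun_prop))
    (fun n => .of_forall fun t _ => by
      rw [norm_mul, norm_mul, (four1_norm n t).1, mul_one]
      exact mul_le_mul_of_nonneg_right (h0 t) (norm_nonneg _))
    (.of_forall fun _ _ => hc.mul_left M) intervalIntegrable_const
    (.of_forall fun t _ => (four1_sum hc t).of_norm.hasSum.mul_left _)
  rw [← h.tsum_eq]
  refine tsum_of_norm_bounded ((cv_sP hc).hasSum.mul_left _) fun k => ?_
  simp only [mul_left_comm (g _), intervalIntegral.integral_const_mul, norm_mul]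
  exact (mul_le_mul_of_nonneg_left (osc_bound hd hg h0 h1 hpq k) (norm_nonneg _)).trans_eq
    (by ring)

theorem cv_sw {η : Pos} (w : A1 η) : Summable fun k => ‖w.coeff k‖ := cv_ex η.2 (kerf_ex w)

theorem cv_pn {η : Pos} (w : V η) : pn w = cvP (w false).coeff + cvP (w true).coeff := by
  have s : Summable fun b : Idx => ‖(w b.1).coeff b.2‖ / br b.2 :=
    (summable_prod_of_nonneg fun b => cv_nn _ _).2 ⟨fun j => cv_sP (cv_sw (w j)), .of_finite⟩
  rw [pn, s.tsum_prod, tsum_bool]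
  rfl

theorem cv_le {η : Pos} (w : V η) (j : Bool) : cvP (w j).coeff ≤ pn w := by
  rw [cv_pn]
  cases j
  · exact le_add_of_nonneg_right (cv_P0 _)
  · exact le_add_of_nonneg_left (cv_P0 _)

/-- the vector field in the weak norm -/
theorem cv_xi {η : Pos} (v w : A1 η) (hv : ‖v‖ ≤ 1) :
    cvP (xiC v w) ≤ 2 * cvK η.1 * cvP w.coeff := by
  obtain ⟨a, b, -⟩ := xiC_eq v w hv
  rw [b]
  exact (cv_conv η.2 (cv_sw w) a).2

end StekIso
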