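import Pool.Agent.Lib.MP_fa022d_an.Wts0

noncomputable section
namespace StekIso

theorem wts1_sum : ∃ s ≤ (8 : ℝ), HasSum (fun h : ℤ => 1 / br h ^ 4) s := by
  have a := (hasSum_nat_add_iff' 1).2 hasSum_zeta_four
  have b := (hasSum_nat_add_iff' 2).2 hasSum_zeta_four
  refine ⟨_, ?_, HasSum.of_nat_of_neg_add_one (a.congr_fun fun n => ?_) (b.congr_fun fun n => ?_)⟩
  · have := pow_le_pow_left₀ Real.pi_pos.le Real.pi_le_four 4
    simp only [Finset.sum_range_succ, Finset.sum_range_zero]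
    norm_num at this ⊢
    linarith
  · simp [br, add_comm]
  · have : |(-((n : ℝ) + 1))| = n + 1 := by rw [abs_neg, abs_of_nonneg (by positivity)]
    simp only [br, Int.cast_neg, Int.cast_add, Int.cast_natCast, Int.cast_one, this]
    push_cast
    ring

theorem wts1_pt {η : ℝ} (hη : 0 ≤ η) (g h : ℤ) :
    beta η h * beta η (g - h) ≤ 8 * beta η g * (1 / br h ^ 4 + 1 / br (g - h) ^ 4) := by
  have t : |(g : ℝ)| ≤ |(h : ℝ)| + |((g - h : ℤ) : ℝ)| := by
    have := abs_add_le (h : ℝ) ((g - h : ℤ) : ℝ)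
    rwa [show (h : ℝ) + ((g - h : ℤ) : ℝ) = g by push_cast; ring] at this
  have e : ex η h * ex η (g - h) ≤ ex η g := by
    rw [ex, ex, ex, ← Real.exp_add]
    exact Real.exp_le_exp.2 (by nlinarith)
  have c : br g ≤ br h + br (g - h) := by unfold br; linarith
  have p := br_pos h
  have q := br_pos (g - h)
  have r := br_pos g
  have d : br g ^ 4 ≤ 8 * (br h ^ 4 + br (g - h) ^ 4) :=
    (pow_le_pow_left₀ r.le c 4).trans ((add_pow_le p.le q.le 4).trans (by norm_num))
  rw [beta, beta, beta, div_mul_div_comm]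
  refine (div_le_div_of_nonneg_right e (by positivity)).trans ?_
  have x := ex_pos η g
  rw [show 8 * (ex η g / br g ^ 4) * (1 / br h ^ 4 + 1 / br (g - h) ^ 4) =
    ex η g / (br h ^ 4 * br (g - h) ^ 4) * (8 * (br h ^ 4 + br (g - h) ^ 4) / br g ^ 4) by
      field_simp; ring]
  exact le_mul_of_one_le_right (by positivity) ((one_le_div (by positivity)).2 d)

theorem beta_conv {η : ℝ} (hη : 0 ≤ η) (g : ℤ) :
    Summable (fun h => beta η h * beta η (g - h)) ∧
      ∑' h, beta η h * beta η (g - h) ≤ 128 * beta η g := by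
  obtain ⟨s, hs, a⟩ := wts1_sum
  have b : HasSum (fun h : ℤ => 1 / br (g - h) ^ 4) s := ((Equiv.subLeft g).hasSum_iff (f := fun h : ℤ => 1 / br h ^ 4)).2 a
  have c := (a.add b).mul_left (8 * beta η g)
  have d : Summable fun h => beta η h * beta η (g - h) := .of_nonneg_of_le
    (fun h => (mul_pos (beta_pos _ _) (beta_pos _ _)).le) (wts1_pt hη g) c.summable
  refine ⟨d, (hasSum_le (wts1_pt hη g) d.hasSum c).trans ?_⟩
  nlinarith [beta_pos η g]

end StekIso
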