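import Pool.Agent.Lib.MP_fa022d_an.Wts0

noncomputable section
namespace StekIso

/-- the polynomial part of `W2` -/
def wts2R (a b : ℤ) : ℝ := if 0 ≤ a * b then br a + br b - 1 else br a * br b

theorem wts2_eq (η : ℝ) (a b : ℤ) :
    W2 η (a, b) = Real.exp (-η * (|(a : ℝ)| + |(b : ℝ)|)) / wts2R a b ^ 4 := by
  unfold W2 wts2R beta ex br
  split_ifs
  · push_cast
    rw [abs_of_nonneg (a := |(a : ℝ)| + |(b : ℝ)|) (by positivity)]
    congr 2
    ring
  · rw [div_mul_div_comm, ← Real.exp_add, ← mul_pow, ← mul_add]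

theorem wts2_low (a b : ℤ) : br a + br b - 1 ≤ wts2R a b := by
  unfold wts2R
  split_ifs
  · exact le_rfl
  · nlinarith [one_le_br a, one_le_br b]

theorem wts2_br (a c : ℤ) : br (a + c) ≤ br a + br c - 1 := by
  unfold br
  push_cast
  linarith [abs_add_le (a : ℝ) c]

theorem wts2_min (a c : ℤ) : br (a + c) * min (br a) (br c) ≤ 2 * (br a * br c) := by
  have := wts2_br a c
  have := one_le_br a
  have := one_le_br c
  rcases le_total (br a) (br c) with h | h
  · rw [min_eq_left h]; nlinarith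
  · rw [min_eq_right h]; nlinarith

theorem wts2_pay {a b c d : ℤ} (h : (a + c) * (b + d) < 0) {D : ℝ}
    (hD : D = |(a : ℝ)| + |(c : ℝ)| - |((a + c : ℤ) : ℝ)| +
      (|(b : ℝ)| + |(d : ℝ)| - |((b + d : ℤ) : ℝ)|)) (D0 : 0 ≤ D) :
    br a * br b ≤ wts2R a b * (1 + D) := by
  have p := one_le_br a
  have q := one_le_br b
  unfold wts2R
  split_ifs with k
  · have e : |a| ≤ |a| + |c| - |a + c| + (|b| + |d| - |b + d|) ∨
        |b| ≤ |a| + |c| - |a + c| + (|b| + |d| - |b + d|) := by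
      rw [mul_nonneg_iff] at k
      rw [mul_neg_iff] at h
      simp only [abs_eq_max_neg]
      omega
    have e' : br a ≤ 1 + D ∨ br b ≤ 1 + D := by
      rw [hD]
      unfold br
      refine e.imp (fun e => ?_) fun e => ?_ <;> rw [add_le_add_iff_left] <;> exact_mod_cast e
    rcases e' with e' | e' <;> nlinarith
  · nlinarith [mul_pos (br_pos a) (br_pos b)]

theorem wts2_key (a b c d : ℤ) {D : ℝ}
    (hD : D = |(a : ℝ)| + |(c : ℝ)| - |((a + c : ℤ) : ℝ)| +
      (|(b : ℝ)| + |(d : ℝ)| - |((b + d : ℤ) : ℝ)|)) (D0 : 0 ≤ D) :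
    wts2R (a + c) (b + d) ^ 2 * (min (br a) (br c) * min (br b) (br d)) ≤
      (4 * (1 + D) ^ 2 * (wts2R a b * wts2R c d)) ^ 2 := by
  have pa := one_le_br a
  have pb := one_le_br b
  have pc := one_le_br c
  have pd := one_le_br d
  have m1 : 1 ≤ min (br a) (br c) := le_min pa pc
  have m2 : 1 ≤ min (br b) (br d) := le_min pb pd
  have l1 := wts2_low a b
  have l2 := wts2_low c d
  have r1 : 1 ≤ wts2R a b := by linarith
  have r2 : 1 ≤ wts2R c d := by linarith
  by_cases k : 0 ≤ (a + c) * (b + d)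
  · have e : wts2R (a + c) (b + d) ≤ wts2R a b + wts2R c d := by
      rw [wts2R, if_pos k]
      linarith [wts2_br a c, wts2_br b d]
    have e0 : 0 ≤ wts2R (a + c) (b + d) := by
      linarith [wts2_low (a + c) (b + d), one_le_br (a + c), one_le_br (b + d)]
    have n1 : min (br a) (br c) ≤ min (wts2R a b) (wts2R c d) :=
      min_le_min (by linarith) (by linarith)
    have n2 : min (br b) (br d) ≤ min (wts2R a b) (wts2R c d) :=
      min_le_min (by linarith) (by linarith)
    have n3 : wts2R (a + c) (b + d) * min (wts2R a b) (wts2R c d) ≤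
        4 * (1 + D) ^ 2 * (wts2R a b * wts2R c d) := by
      refine le_trans ?_ (mul_le_mul_of_nonneg_right (show 2 ≤ 4 * (1 + D) ^ 2 by nlinarith)
        (by positivity))
      rcases le_total (wts2R a b) (wts2R c d) with h | h
      · rw [min_eq_left h]; nlinarith
      · rw [min_eq_right h]; nlinarith
    refine le_trans ?_ (pow_le_pow_left₀ (by positivity) n3 2)
    rw [mul_pow, sq (min _ _)]
    exact mul_le_mul_of_nonneg_left (mul_le_mul n1 n2 (by positivity) (by positivity)) (sq_nonneg _)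
  · have p1 := wts2_pay (not_le.1 k) hD D0
    have p2 := wts2_pay (a := c) (b := d) (c := a) (d := b) (D := D)
      (by rw [add_comm c, add_comm d]; exact not_le.1 k)
      (by rw [hD, add_comm c, add_comm d]; ring) D0
    have q := mul_le_mul (wts2_min a c) (wts2_min b d) (mul_nonneg (br_pos _).le (by positivity))
      (by positivity)
    have q' := mul_le_mul p1 p2 (by positivity) (by positivity)
    have e0 := mul_pos (br_pos (a + c)) (br_pos (b + d))
    have n3 : br (a + c) * br (b + d) * (min (br a) (br c) * min (br b) (br d)) ≤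
        4 * (1 + D) ^ 2 * (wts2R a b * wts2R c d) := by linarith
    rw [wts2R, if_neg k]
    refine le_trans ?_ (pow_le_pow_left₀ (by positivity) n3 2)
    rw [mul_pow _ (_ * _)]
    exact mul_le_mul_of_nonneg_left
      (le_self_pow₀ (one_le_mul_of_one_le_of_one_le m1 m2) two_ne_zero) (sq_nonneg _)

theorem wts2_inv (a c : ℤ) : 1 / min (br a) (br c) ^ 2 ≤ 1 / br a ^ 2 + 1 / br c ^ 2 := by
  rcases le_total (br a) (br c) with h | h
  · rw [min_eq_left h]; exact le_add_of_nonneg_right (by positivity)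
  · rw [min_eq_right h]; exact le_add_of_nonneg_left (by positivity)

theorem wts2_pt {η : ℝ} (hη : 0 < η) (a b c d : ℤ) :
    W2 η (a, b) * W2 η (c, d) ≤ 256 * (1 + 8 / η) ^ 8 * W2 η (a + c, b + d) *
      ((1 / br a ^ 2 + 1 / br c ^ 2) * (1 / br b ^ 2 + 1 / br d ^ 2)) := by
  obtain ⟨D, hD⟩ : ∃ D, D = |(a : ℝ)| + |(c : ℝ)| - |((a + c : ℤ) : ℝ)| +
      (|(b : ℝ)| + |(d : ℝ)| - |((b + d : ℤ) : ℝ)|) := ⟨_, rfl⟩
  have D0 : 0 ≤ D := by
    rw [hD]
    push_cast
    linarith [abs_add_le (a : ℝ) c, abs_add_le (b : ℝ) d]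
  have R (x y : ℤ) : 0 < wts2R x y := by linarith [wts2_low x y, one_le_br x, one_le_br y]
  have m1 : 0 < min (br a) (br c) := lt_min (br_pos _) (br_pos _)
  have m2 : 0 < min (br b) (br d) := lt_min (br_pos _) (br_pos _)
  have k := pow_le_pow_left₀ (by positivity) (wts2_key a b c d hD D0) 2
  have e : (1 + D) ^ 8 ≤ (1 + 8 / η) ^ 8 * Real.exp (η * D) := by
    rw [show η * D = (8 : ℕ) * (η * D / 8) by push_cast; ring, Real.exp_nat_mul, ← mul_pow]
    refine pow_le_pow_left₀ (by positivity) (le_trans ?_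
      (mul_le_mul_of_nonneg_left (Real.add_one_le_exp _) (by positivity))) 8
    have : (1 + 8 / η) * (η * D / 8 + 1) = 1 + D + (η * D / 8 + 8 / η) := by field_simp; ring
    rw [this]
    exact le_add_of_nonneg_right (by positivity)
  have w := W2_pos η (a + c, b + d)
  refine le_trans ?_ (mul_le_mul_of_nonneg_left (mul_le_mul (wts2_inv a c) (wts2_inv b d)
    (by positivity) (by positivity)) (by positivity))
  have x : Real.exp (-η * (|((a + c : ℤ) : ℝ)| + |((b + d : ℤ) : ℝ)|)) =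
      Real.exp (-η * (|(a : ℝ)| + |(b : ℝ)|)) * Real.exp (-η * (|(c : ℝ)| + |(d : ℝ)|)) *
        Real.exp (η * D) := by
    rw [← Real.exp_add, ← Real.exp_add, hD]
    congr 1
    ring
  rw [wts2_eq, wts2_eq, wts2_eq, x, div_mul_div_comm, div_mul_div_comm,
    ← mul_div_assoc (256 * _), div_mul_div_comm, div_le_div_iff₀ (by have := R a b; have := R c d; positivity)
      (by have := R (a + c) (b + d); positivity)]
  have E : 0 < Real.exp (-η * (|(a : ℝ)| + |(b : ℝ)|)) * Real.exp (-η * (|(c : ℝ)| + |(d : ℝ)|)) := by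
    positivity
  generalize Real.exp (-η * (|(a : ℝ)| + |(b : ℝ)|)) * Real.exp (-η * (|(c : ℝ)| + |(d : ℝ)|)) = F
    at *
  have k2 := mul_le_mul_of_nonneg_left e
    (show 0 ≤ 256 * (wts2R a b ^ 4 * wts2R c d ^ 4) by positivity)
  have k3 : wts2R (a + c) (b + d) ^ 4 * (min (br a) (br c) ^ 2 * min (br b) (br d) ^ 2) ≤
      256 * (wts2R a b ^ 4 * wts2R c d ^ 4) * ((1 + 8 / η) ^ 8 * Real.exp (η * D)) := by
    refine le_trans (le_of_eq (by ring)) (k.trans (le_trans (le_of_eq (by ring)) k2))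
  exact (mul_le_mul_of_nonneg_left k3 E.le).trans_eq (by ring)

theorem wts2_sum : Summable fun k : ℤ => 1 / br k ^ 2 := by
  have := (summable_nat_add_iff 1).2 (Real.summable_one_div_nat_pow.2 one_lt_two)
  refine Summable.of_nat_of_neg (this.congr fun n => ?_) (this.congr fun n => ?_) <;>
    simp [br, add_comm]

theorem W2_conv {η : ℝ} (hη : 0 < η) : ∃ K : ℝ, 1 ≤ K ∧ ∀ g : ℤ × ℤ,
    Summable (fun h => W2 η h * W2 η (g - h)) ∧ ∑' h, W2 η h * W2 η (g - h) ≤ K * W2 η g := by
  obtain ⟨S, hS⟩ := wts2_sum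
  have s (x : ℤ) : HasSum (fun a : ℤ => 1 / br a ^ 2 + 1 / br (x - a) ^ 2) (S + S) :=
    hS.add ((Equiv.subLeft x).hasSum_iff.2 hS)
  refine ⟨1 + 256 * (1 + 8 / η) ^ 8 * ((S + S) * (S + S)),
    le_add_of_nonneg_right (mul_nonneg (by positivity) (mul_self_nonneg _)), fun ⟨x, y⟩ => ?_⟩
  have t := ((s x).mul (s y) ((s x).summable.mul_of_nonneg (s y).summable
    (fun _ => by positivity) fun _ => by positivity)).mul_left (256 * (1 + 8 / η) ^ 8 * W2 η (x, y))
  have p (h : ℤ × ℤ) : W2 η h * W2 η ((x, y) - h) ≤ 256 * (1 + 8 / η) ^ 8 * W2 η (x, y) *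
      ((1 / br h.1 ^ 2 + 1 / br (x - h.1) ^ 2) * (1 / br h.2 ^ 2 + 1 / br (y - h.2) ^ 2)) := by
    have := wts2_pt hη h.1 h.2 (x - h.1) (y - h.2)
    rwa [add_sub_cancel, add_sub_cancel] at this
  have u := t.summable.of_nonneg_of_le (fun h => (mul_pos (W2_pos _ _) (W2_pos _ _)).le) p
  refine ⟨u, (hasSum_le p u.hasSum t).trans ?_⟩
  linarith [W2_pos η (x, y)]

end StekIso
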