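import Pool.Agent.Lib.MP_fa022d_an.WAlg
import Pool.Agent.Lib.MP_fa022d_an.Wts1
import Pool.Agent.Lib.MP_fa022d_an.Wts2

/-! The two algebras, matrices as operators on bounded sequences, Fourier coefficients. -/

open Set Filter Topology BoundedContinuousFunction Complex

noncomputable section
namespace StekIso

/-- normalised weight in one variable -/
def wt1 (η : Pos) : Wt ℤ where
  w k := beta η.1 k / 128
  pos k := by have := beta_pos η.1 k; positivity
  summ g := ((beta_conv η.2.le g).1.div_const (128 * 128)).congr fun h => by ring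
  conv_le g := by
    have h := (beta_conv η.2.le g).2
    have : ∀ h, beta η.1 h / 128 * (beta η.1 (g - h) / 128) =
        beta η.1 h * beta η.1 (g - h) / (128 * 128) := fun h => by ring
    simp only [this, tsum_div_const]; linarith

/-- the convolution constant in two variables -/
def K2 (η : Pos) : ℝ := (W2_conv η.2).choose
theorem one_le_K2 (η : Pos) : 1 ≤ K2 η := (W2_conv η.2).choose_spec.1

/-- normalised weight in two variables -/
def wt2 (η : Pos) : Wt (ℤ × ℤ) where
  w p := W2 η.1 p / K2 η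
  pos p := div_pos (W2_pos _ _) (by linarith [one_le_K2 η])
  summ g := (((W2_conv η.2).choose_spec.2 g).1.div_const (K2 η * K2 η)).congr fun h => by ring
  conv_le g := by
    have h : ∑' h, W2 η.1 h * W2 η.1 (g - h) ≤ K2 η * W2 η.1 g :=
      ((W2_conv η.2).choose_spec.2 g).2
    have hK : 0 < K2 η := by linarith [one_le_K2 η]
    have : ∀ h, W2 η.1 h / K2 η * (W2 η.1 (g - h) / K2 η) =
        W2 η.1 h * W2 η.1 (g - h) / (K2 η * K2 η) := fun h => by ring
    simp only [this, tsum_div_const]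
    rw [div_le_div_iff₀ (by positivity) hK]
    nlinarith

abbrev A1 (η : Pos) := WAlg (wt1 η)
abbrev A2 (η : Pos) := WAlg (wt2 η)
/-- pairs (inner circle = false, outer circle = true) -/
abbrev V (η : Pos) := Bool → A1 η

/-- divided difference on coefficient sequences -/
def ddc (c : ℤ → ℂ) (p : ℤ × ℤ) : ℂ :=
  if 0 ≤ p.1 ∧ 0 ≤ p.2 then c (p.1 + p.2) else if p.1 < 0 ∧ p.2 < 0 then -c (p.1 + p.2) else 0

theorem norm_ddc_le {η : Pos} (v : A1 η) (p : ℤ × ℤ) :
    ‖ddc v.coeff p‖ ≤ (K2 η / 128 * ‖v‖) * (wt2 η).w p := by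
  have hK : 0 < K2 η := by linarith [one_le_K2 η]
  have h1 := v.norm_coeff_le (p.1 + p.2)
  have key : 0 ≤ p.1 * p.2 → |p.1 + p.2| = |p.1| + |p.2| →
      ‖v.coeff (p.1 + p.2)‖ ≤ (K2 η / 128 * ‖v‖) * (wt2 η).w p := fun h0 h2 => by
    have : beta η.1 (|p.1| + |p.2|) = beta η.1 (p.1 + p.2) := by
      rw [← h2]; simp [beta, ex, br]
    simp only [wt2, W2, h0, if_true, this]
    refine h1.trans (le_of_eq ?_)
    show ‖v‖ * (beta η.1 (p.1 + p.2) / 128) =
      K2 η / 128 * ‖v‖ * (beta η.1 (p.1 + p.2) / K2 η)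
    generalize ‖v‖ = t
    field_simp
  unfold ddc
  split_ifs with h h'
  · exact key (mul_nonneg h.1 h.2)
      (by rw [abs_of_nonneg h.1, abs_of_nonneg h.2, abs_of_nonneg (add_nonneg h.1 h.2)])
  · rw [norm_neg]
    exact key (mul_pos_of_neg_of_neg h'.1 h'.2).le
      (by rw [abs_of_neg h'.1, abs_of_neg h'.2, abs_of_neg (add_neg h'.1 h'.2)]; ring)
  · rw [norm_zero]; have := (wt2 η).pos p; positivity

/-- divided difference as a bounded map between the algebras -/
def dd (η : Pos) : A1 η →L[ℂ] A2 η :=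
  LinearMap.mkContinuous
    { toFun := fun v => WAlg.mk (ddc v.coeff) _ (norm_ddc_le v)
      map_add' := fun a b => by
        ext p; simp only [WAlg.coeff_mk, WAlg.coeff_add, ddc]; split_ifs <;> ring
      map_smul' := fun c a => by
        ext p; simp only [WAlg.coeff_mk, WAlg.coeff_smul, ddc, RingHom.id_apply]
        split_ifs <;> ring }
    (K2 η / 128) fun v => WAlg.norm_le_of_coeff _
      (mul_nonneg (by linarith [one_le_K2 η]) (norm_nonneg _)) fun p => by
        simpa using norm_ddc_le v p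

theorem coeff_dd {η : Pos} (v : A1 η) (p : ℤ × ℤ) : (dd η v).coeff p = ddc v.coeff p :=
  WAlg.coeff_mk _ _ (norm_ddc_le v) p

/-- `log (1 + z)` in a Banach algebra -/
def logA {A : Type} [NormedRing A] [NormedAlgebra ℂ A] (z : A) : A :=
  ∑' m : ℕ, ((-1) ^ m / (m + 1) : ℂ) • z ^ (m + 1)

/-- Fourier series in one variable -/
def fs (c : ℤ → ℂ) (s : ℂ) : ℂ := ∑' k : ℤ, c k * exp (I * k * s)
/-- Fourier series in two variables -/
def fs2 (c : ℤ × ℤ → ℂ) (s t : ℂ) : ℂ :=
  ∑' p : ℤ × ℤ, c p * (exp (I * p.1 * s) * exp (I * p.2 * t))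
/-- Fourier coefficient in one variable -/
def fc (f : ℝ → ℂ) (k : ℤ) : ℂ :=
  (1 / (2 * Real.pi) : ℂ) * ∫ s in (0 : ℝ)..2 * Real.pi, f s * exp (-(I * k * s))
/-- Fourier coefficient in two variables -/
def fc2 (K : ℝ → ℝ → ℂ) (a b : ℤ) : ℂ := fc (fun s => fc (K s) b) a
/-- convolution of sequences -/
def conv (c d : ℤ → ℂ) (k : ℤ) : ℂ := ∑' h, c h * d (k - h)
/-- horizontal strip -/
def strip (η : ℝ) : Set ℂ := {s | |s.im| < η}

/-- index set: circle and frequency -/
abbrev Idx := Bool × ℤ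
/-- bounded sequences -/
abbrev X := Idx →ᵇ ℂ
/-- opposite frequency -/
def ng (b : Idx) : Idx := (b.1, -b.2)

/-- rows are absolutely summable with a uniform bound -/
def RowBdd {ι κ : Type} (A : ι → κ → ℂ) (C : ℝ) : Prop :=
  ∀ i, Summable (fun k => ‖A i k‖) ∧ ∑' k, ‖A i k‖ ≤ C

section
variable {ι κ : Type} [TopologicalSpace ι] [DiscreteTopology ι] [TopologicalSpace κ]
  [DiscreteTopology κ]

omit [TopologicalSpace ι] [DiscreteTopology ι] [DiscreteTopology κ] in
theorem RowBdd.summable {A : ι → κ → ℂ} {C : ℝ} (h : RowBdd A C) (x : κ →ᵇ ℂ) (i : ι) :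
    Summable fun k => A i k * x k :=
  Summable.of_norm_bounded ((h i).1.mul_right ‖x‖) fun k => by
    rw [norm_mul]; exact mul_le_mul_of_nonneg_left (x.norm_coe_le_norm k) (norm_nonneg _)

omit [TopologicalSpace ι] [DiscreteTopology ι] [DiscreteTopology κ] in
theorem RowBdd.norm_le {A : ι → κ → ℂ} {C : ℝ} (h : RowBdd A C) (x : κ →ᵇ ℂ) (i : ι) :
    ‖∑' k, A i k * x k‖ ≤ C * ‖x‖ := by
  refine (tsum_of_norm_bounded ((h i).1.mul_right ‖x‖).hasSum fun k => ?_).trans ?_
  · rw [norm_mul]; exact mul_le_mul_of_nonneg_left (x.norm_coe_le_norm k) (norm_nonneg _)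
  · rw [tsum_mul_right]; exact mul_le_mul_of_nonneg_right (h i).2 (norm_nonneg _)

open Classical in
/-- the operator of a matrix with uniformly summable rows (zero otherwise) -/
def matOp (A : ι → κ → ℂ) : (κ →ᵇ ℂ) →L[ℂ] (ι →ᵇ ℂ) :=
  if h : ∃ C, 0 ≤ C ∧ RowBdd A C then
    LinearMap.mkContinuous
      { toFun := fun x => ofNormedAddCommGroupDiscrete (fun i => ∑' k, A i k * x k) _
          (h.choose_spec.2.norm_le x)
        map_add' := fun x y => by
          ext i
          show ∑' k, A i k * (x k + y k) = ∑' k, A i k * x k + ∑' k, A i k * y k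
          simp only [mul_add]
          exact (h.choose_spec.2.summable x i).tsum_add (h.choose_spec.2.summable y i)
        map_smul' := fun c x => by
          ext i
          show ∑' k, A i k * (c * x k) = c * ∑' k, A i k * x k
          rw [← tsum_mul_left]; exact tsum_congr fun k => by ring }
      h.choose fun x => (BoundedContinuousFunction.norm_le
        (mul_nonneg h.choose_spec.1 (norm_nonneg _))).2 (h.choose_spec.2.norm_le x)
  else 0

theorem matOp_apply {A : ι → κ → ℂ} {C : ℝ} (hC : 0 ≤ C) (h : RowBdd A C) (x : κ →ᵇ ℂ) (i : ι) :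
    matOp A x i = ∑' k, A i k * x k := by
  have : ∃ C, 0 ≤ C ∧ RowBdd A C := ⟨C, hC, h⟩
  simp only [matOp, this, dif_pos]; rfl

theorem norm_matOp_le {A : ι → κ → ℂ} {C : ℝ} (hC : 0 ≤ C) (h : RowBdd A C) : ‖matOp A‖ ≤ C :=
  ContinuousLinearMap.opNorm_le_bound _ hC fun x =>
    (BoundedContinuousFunction.norm_le (mul_nonneg hC (norm_nonneg _))).2 fun i => by
      rw [matOp_apply hC h]; exact h.norm_le x i

open Classical in
/-- a function as a bounded sequence (zero if it is unbounded) -/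
def toB (f : ι → ℂ) : ι →ᵇ ℂ :=
  if h : ∃ C, ∀ i, ‖f i‖ ≤ C then ofNormedAddCommGroupDiscrete f _ h.choose_spec else 0

theorem toB_apply {f : ι → ℂ} {C : ℝ} (h : ∀ i, ‖f i‖ ≤ C) (i : ι) : toB f i = f i := by
  have : ∃ C, ∀ i, ‖f i‖ ≤ C := ⟨C, h⟩
  simp only [toB, this, dif_pos]; rfl

/-- real bounded sequences -/
def reB (ι : Type) [TopologicalSpace ι] : Submodule ℝ (ι →ᵇ ℂ) where
  carrier := {x | ∀ i, (x i).im = 0}
  add_mem' := fun {x y} hx hy i => by simp [hx i, hy i]
  zero_mem' := fun i => by simp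
  smul_mem' := fun c x hx i => by simp [hx i]
end

end StekIso
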