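import Mathlib

/-! Planar domains, Steklov spectrum and the compactness convention (plane = complex numbers). -/

open Set Filter Topology
open scoped ContDiff

namespace StekIso

/-- Arc length parametrisation of the boundary of `Ω` by `m` disjoint smooth simple closed
curves; `L i` is the length of the curve number `i`. -/
structure BdryParam (Ω : Set ℂ) (m : ℕ) where
  L : Fin m → ℝ
  γ : Fin m → ℝ → ℂ
  pos : ∀ i, 0 < L i
  smooth : ∀ i, ContDiff ℝ ∞ (γ i)
  unit : ∀ i s, ‖deriv (γ i) s‖ = 1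
  per : ∀ i, Function.Periodic (γ i) (L i)
  inj : ∀ i, InjOn (γ i) (Ico 0 (L i))
  disj : ∀ i j, i ≠ j → Disjoint (range (γ i)) (range (γ j))
  cover : frontier Ω = ⋃ i, range (γ i)

/-- Bounded connected open set whose boundary consists of finitely many smooth embedded closed
curves. -/
def IsPlanarDomain (Ω : Set ℂ) : Prop :=
  IsOpen Ω ∧ IsConnected Ω ∧ Bornology.IsBounded Ω ∧ ∃ m, Nonempty (BdryParam Ω m)

/-- `ν` is the outward unit normal at the boundary point `z`: unit length, orthogonal to the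
velocity of every curve through `z` inside the boundary, and pointing out of `Ω`. -/
def IsOutwardNormal (Ω : Set ℂ) (z ν : ℂ) : Prop :=
  ‖ν‖ = 1 ∧
  (∀ (c : ℝ → ℂ) (w : ℂ), c 0 = z → (∀ t, c t ∈ frontier Ω) → HasDerivAt c w 0 →
    inner ℝ ν w = 0) ∧
  ∀ᶠ t : ℝ in 𝓝[>] 0, z + t • ν ∉ Ω

/-- Real functions, smooth on the closure of `Ω`, harmonic in `Ω`, with normal derivative
`σ u` on the boundary (and set to zero outside the closure). -/
def steklovSpace (Ω : Set ℂ) (σ : ℝ) : Submodule ℝ (ℂ → ℝ) where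
  carrier := {u | ContDiffOn ℝ ∞ u (closure Ω) ∧ InnerProductSpace.HarmonicOnNhd u Ω ∧
    (∀ z ∈ frontier Ω, ∀ ν, IsOutwardNormal Ω z ν →
      HasDerivWithinAt (fun t : ℝ => u (z + t • ν)) (σ * u z) (Iic 0) 0) ∧
    ∀ z, z ∉ closure Ω → u z = 0}
  add_mem' := by
    rintro u v ⟨h1, h2, h3, h4⟩ ⟨k1, k2, k3, k4⟩
    refine ⟨h1.add k1, h2.add k2, fun z hz ν hν => ?_, fun z hz => by simp [h4 z hz, k4 z hz]⟩
    have := (h3 z hz ν hν).add (k3 z hz ν hν)
    have e : σ * (u + v) z = σ * u z + σ * v z := by simp [mul_add]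
    rw [e]; exact this
  zero_mem' := ⟨contDiffOn_const, InnerProductSpace.harmonicOnNhd_const 0,
    fun z _ ν _ => by simpa using hasDerivWithinAt_const (0 : ℝ) (Iic 0) (0 : ℝ), fun _ _ => rfl⟩
  smul_mem' := by
    rintro c u ⟨h1, h2, h3, h4⟩
    refine ⟨h1.const_smul c, h2.const_smul, fun z hz ν hν => ?_, fun z hz => by simp [h4 z hz]⟩
    have := (h3 z hz ν hν).const_mul c
    simpa [mul_left_comm] using this

/-- Same Steklov eigenvalues with the same multiplicities. -/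
def SteklovIsospectral (Ω Ω' : Set ℂ) : Prop :=
  ∀ σ : ℝ, Module.rank ℝ (steklovSpace Ω σ) = Module.rank ℝ (steklovSpace Ω' σ)

/-- A rigid motion of the plane maps one set onto the other. -/
def Congruent (Ω Ω' : Set ℂ) : Prop := ∃ R : ℂ ≃ᵢ ℂ, R '' Ω = Ω'

/-- Every sequence in `𝓕` has a subsequence which, after rigid motions, has arc length
parametrised boundary curves converging with all derivatives (and with their lengths) to the
boundary of a member of `𝓕`. -/
def SmoothCompact (𝓕 : Set (Set ℂ)) : Prop :=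
  ∀ Ω : ℕ → Set ℂ, (∀ n, Ω n ∈ 𝓕) →
    ∃ φ : ℕ → ℕ, StrictMono φ ∧ ∃ R : ℕ → ℂ ≃ᵢ ℂ, ∃ Ω' ∈ 𝓕, ∃ m : ℕ,
      ∃ P : ∀ n, BdryParam (R n '' Ω (φ n)) m, ∃ P' : BdryParam Ω' m, ∀ i,
        Tendsto (fun n => (P n).L i) atTop (𝓝 (P'.L i)) ∧
        ∀ k : ℕ, TendstoLocallyUniformly (fun n => iteratedDeriv k ((P n).γ i))
          (iteratedDeriv k (P'.γ i)) atTop

end StekIso
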