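import Pool.Agent.Lib.MP_fa022d_an.Defs1
import Pool.Agent.Lib.MP_fa022d_an.Stmt

/-! Circle maps, the kernel of the Dirichlet-to-Neumann map, the base data, the matrix `Smat`. -/

open Set Filter Topology BoundedContinuousFunction Complex

noncomputable section
namespace StekIso

/-- an analytic circle map on a strip -/
structure CMap (η m M : ℝ) (θ : ℂ → ℂ) : Prop where
  diff : DifferentiableOn ℂ θ (strip η)
  per : ∀ s ∈ strip η, θ (s + 2 * Real.pi) = θ s + 2 * Real.pi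
  real : ∀ s : ℝ, (θ s).im = 0
  lo : ∀ s ∈ strip η, m ≤ (deriv θ s).re
  hi : ∀ s ∈ strip η, ‖deriv θ s‖ ≤ M

/-- Fourier multiplier of the smooth part of the DN map of the annulus of modulus `H` -/
def gco (i j : Bool) (H : ℂ) (k : ℤ) : ℂ :=
  if k = 0 then (if i = j then 1 / H else -1 / H)
  else if i = j then 2 * |k| * exp (-H) ^ (2 * k.natAbs) / (1 - exp (-H) ^ (2 * k.natAbs))
  else -2 * |k| * exp (-H) ^ k.natAbs / (1 - exp (-H) ^ (2 * k.natAbs))

/-- `1 / (4 sin² (x / 2))` -/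
def csq (x : ℂ) : ℂ := 1 / (4 * sin (x / 2) ^ 2)

/-- `π` times the kernel of the DN map in the conformal angle -/
def qf (i j : Bool) (H x : ℂ) : ℂ := fs (gco i j H) x / 2 - if i = j then csq x else 0

/-- `π` times the kernel of the DN map in the parameter `s` -/
def QQ (θ : Bool → ℂ → ℂ) (H : ℂ) (i j : Bool) (s t : ℂ) : ℂ :=
  deriv (θ i) s * deriv (θ j) t * qf i j H (θ i s - θ j t)

/-- kernel of the smoothing part (off the diagonal) -/
def kerF (θ : Bool → ℂ → ℂ) (H : ℂ) (i j : Bool) (s t : ℂ) : ℂ :=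
  (QQ θ H i j s t + if i = j then csq (s - t) else 0) / Real.pi

/-- matrix of the smoothing part -/
def Sfun (θ : Bool → ℂ → ℂ) (H : ℂ) (b c : Idx) : ℂ :=
  2 * Real.pi * fc2 (fun s t => kerF θ H b.1 c.1 s t) b.2 (-c.2)

/-- base circle maps -/
structure Base where
  η0 : ℝ
  m : ℝ
  M : ℝ
  H0 : ℝ
  θ : Bool → ℂ → ℂ
  η0_pos : 0 < η0
  m_pos : 0 < m
  small : M * η0 ≤ 1 / 2
  big : 4 ≤ H0
  cm : ∀ j, CMap η0 m M (θ j)
  odd : ∀ j, ∀ s ∈ strip η0, θ j (-s) = -θ j s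

/-- the asymmetry conditions that make the limit symbol onto -/
structure Base.Asym (B : Base) : Prop where
  d1 : ∀ j, deriv (B.θ j) 0 = deriv (B.θ j) Real.pi
  d3 : ∀ j, iteratedDeriv 3 (B.θ j) 0 ≠ iteratedDeriv 3 (B.θ j) Real.pi
  ne : ∀ j, ∀ a : ℝ, 0 < a → a < Real.pi → B.θ j (a + Real.pi) ≠ B.θ j a + Real.pi

/-- Fourier coefficients of the base kernel -/
def S0 (B : Base) (H : ℂ) (i j : Bool) (p : ℤ × ℤ) : ℂ :=
  fc2 (fun s t => kerF B.θ H i j s t) p.1 p.2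

variable {η : Pos}

/-- `log` of the divided difference of `exp (i (s + v s))` -/
def Lco (v : A1 η) : A2 η := logA (dd η (NormedSpace.exp (I • v)) - 1)
/-- `(exp (i a v) - 1) / a` -/
def Gel (v : A1 η) (a : ℤ) : A1 η :=
  if a = 0 then I • v else (a : ℂ)⁻¹ • (NormedSpace.exp ((I * a) • v) - 1)
/-- coefficient number `a` of `ψ' exp (i a' ψ)`, `ψ = id + v` -/
def Eco (v : A1 η) (a' a : ℤ) : ℂ := (if a = a' then 1 else 0) + a * (Gel v a').coeff (a - a')
/-- round part of the kernel -/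
def kerR (v : A1 η) (a b : ℤ) : ℂ := (a * b / Real.pi) * (Lco v).coeff (a, b)
/-- pulled back base kernel -/
def kerS (B : Base) (v : V η) (H : ℂ) (i j : Bool) (a b : ℤ) : ℂ :=
  ∑' p : ℤ × ℤ, S0 B H i j p * (Eco (v i) p.1 a * Eco (v j) p.2 b)
/-- the smoothing matrix at the point `(v, H)` -/
def Smat (B : Base) (z : V η × ℂ) (b c : Idx) : ℂ :=
  2 * Real.pi * ((if b.1 = c.1 then kerR (z.1 b.1) b.2 (-c.2) else 0) +
    kerS B z.1 z.2 b.1 c.1 b.2 (-c.2))

/-- the perturbed circle maps -/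
def thOf (B : Base) (v : V η) (j : Bool) (s : ℂ) : ℂ := B.θ j (s + fs (v j).coeff s)
/-- real perturbations -/
def RealV (v : V η) : Prop := ∀ j k, (v j).coeff (-k) = (starRingEnd ℂ) ((v j).coeff k)
/-- the parameter domain -/
def dom (B : Base) (η : Pos) (δ : ℝ) : Set (V η × ℂ) :=
  Metric.ball (0 : V η) δ ×ˢ Metric.ball (B.H0 : ℂ) 1

/-- coefficients of the quadratic form in the diagonal entries -/
def Qc (B : Base) (j : Bool) (p : ℤ × ℤ) : ℂ :=
  (if p.1 = p.2 ∧ 1 ≤ p.1 then (p.1 : ℂ) else 0) + Real.pi * S0 B B.H0 j j (-p.1, p.2)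
/-- the quadratic form -/
def Qform (B : Base) (j : Bool) (c : ℤ → ℂ) (n : ℤ) : ℂ :=
  ∑' p : ℤ × ℤ, Qc B j p * (c (n + p.1) * c (-n - p.2))

/-- coefficients of `δv / (1 + v')` -/
def xiC (v w : A1 η) : ℤ → ℂ :=
  fc fun s => fs w.coeff s / (1 + fs (fun k => I * k * v.coeff k) s)

/-- `S q` -/
def Sap (S : Idx → Idx → ℂ) (q : Idx → ℂ) (b : Idx) : ℂ := ∑' c, S b c * q c
/-- `(|D| + S) q` -/
def Tm (S : Idx → Idx → ℂ) (q : Idx → ℂ) (b : Idx) : ℂ := |b.2| * q b + Sap S q b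
/-- the bilinear pairing (integral of the product) -/
def Bf (p q : Idx → ℂ) : ℂ := ∑' b, p (ng b) * q b
/-- derivative of a sequence -/
def dS (q : ℤ → ℂ) (k : ℤ) : ℂ := I * k * q k
/-- one component -/
def cp (q : Idx → ℂ) (j : Bool) (k : ℤ) : ℂ := q (j, k)
/-- coefficients of `p' (T q) + (T p) q'` on the circle `j` -/
def fPQ (S : Idx → Idx → ℂ) (p q : Idx → ℂ) (j : Bool) (k : ℤ) : ℂ :=
  conv (dS (cp p j)) (cp (Tm S q) j) k + conv (cp (Tm S p) j) (dS (cp q j)) k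

/-- entries decay like `e b * e c` -/
def Crude (η1 C : ℝ) (S : Idx → Idx → ℂ) : Prop :=
  ∀ b c, ‖S b c‖ ≤ C * (ex η1 b.2 * ex η1 c.2)
/-- symmetry for the bilinear pairing -/
def BSym (S : Idx → Idx → ℂ) : Prop := ∀ b c, S b c = S (ng c) (ng b)
/-- the matrix maps real functions to real functions -/
def RSym (S : Idx → Idx → ℂ) : Prop := ∀ b c, S (ng b) (ng c) = (starRingEnd ℂ) (S b c)
/-- a decaying sequence -/
def Dk (η1 C : ℝ) (q : Idx → ℂ) : Prop := ∀ b, ‖q b‖ ≤ C * ex η1 b.2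

/-- lengths divided by `2π` -/
def lenf (lam : ℝ) (j : Bool) : ℝ := if j then 1 else Real.exp lam

/-- eigenspace in bounded sequences -/
def Ker (S : Idx → Idx → ℂ) (ℓ : Bool → ℝ) (σ : ℂ) : Submodule ℂ X where
  carrier := {x | ∀ b, |b.2| * x b + matOp S x b = σ * ℓ b.1 * x b}
  add_mem' := fun {x y} hx hy b => by
    simp only [map_add, coe_add, Pi.add_apply]; linear_combination hx b + hy b
  zero_mem' := fun b => by simp
  smul_mem' := fun c x hx b => by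
    simp only [map_smul, BoundedContinuousFunction.coe_smul, smul_eq_mul]
    linear_combination c * hx b

/-- its part coming from real functions -/
def RKer (S : Idx → Idx → ℂ) (ℓ : Bool → ℝ) (σ : ℝ) : Submodule ℝ X where
  carrier := {x | x ∈ Ker S ℓ σ ∧ ∀ b, x (ng b) = (starRingEnd ℂ) (x b)}
  add_mem' := fun {x y} hx hy => ⟨add_mem hx.1 hy.1, fun b => by simp [hx.2 b, hy.2 b]⟩
  zero_mem' := ⟨zero_mem _, fun b => by simp⟩
  smul_mem' := fun c x hx => ⟨(Ker S ℓ σ).smul_mem (c : ℂ) hx.1, fun b => by simp [hx.2 b]⟩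

/-- unperturbed eigenvalue -/
def dval (ℓ : Bool → ℝ) (b : Idx) : ℝ := |(b.2 : ℝ)| / ℓ b.1
/-- separation of the unperturbed eigenvalues -/
def Sep (ℓ : Bool → ℝ) (c : ℝ) : Prop :=
  ∀ b b' : Idx, ¬(b.1 = b'.1 ∧ |b.2| = |b'.2|) → 1 ≤ dval ℓ b →
    c / dval ℓ b ≤ |dval ℓ b - dval ℓ b'|
/-- the cut between the low block and the windows -/
def cutAt (c : ℝ) (n : ℕ) : ℝ := n + c / (2 * n)

end StekIso
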