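import Pool.Agent.Lib.MP_fa022d_an.Defs2

/-! Flux, curvature, conformal map; Schur reduction; limit symbol; the high equations. -/

open Set Filter Topology BoundedContinuousFunction Complex

noncomputable section
namespace StekIso
variable {η : Pos}

/-! ### flux and curvature -/

/-- modulus forced by the flux condition -/
def Hfun (θ : Bool → ℂ → ℂ) (lam : ℂ) : ℂ :=
  -lam + fc (fun s => deriv (θ false) s * log (deriv (θ false) s)) 0 -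
    fc (fun s => deriv (θ true) s * log (deriv (θ true) s)) 0
/-- coefficients of the boundary values of `log |z F'|` -/
def psiC (θ : Bool → ℂ → ℂ) (lam : ℂ) (b : Idx) : ℂ :=
  fc (fun s => (if b.1 then 0 else lam) - log (deriv (θ b.1) s)) b.2
/-- coefficients of the curvature of the outer curve -/
def kap (S : Idx → Idx → ℂ) (θ : Bool → ℂ → ℂ) (lam : ℂ) (k : ℤ) : ℂ :=
  Tm S (psiC θ lam) (true, k)
/-- tangent angle -/
def vth (κ : ℤ → ℂ) (s : ℝ) : ℂ := s + fs (fun k => κ k / (I * k)) s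
/-- closing defect and its conjugate -/
def Cp (κ : ℤ → ℂ) : ℂ := fc (fun s => exp (I * vth κ s)) 0
def Cm (κ : ℤ → ℂ) : ℂ := fc (fun s => exp (-(I * vth κ s))) 0
/-- chord of the outer curve -/
def chord (κ : ℤ → ℂ) (p q : ℝ) : ℂ := ∫ s in q..p, exp (I * vth κ s)
def Hof (B : Base) (z : V η × ℂ) : ℂ := Hfun (thOf B z.1) z.2
def kapV (B : Base) (z : V η × ℂ) : ℤ → ℂ := kap (Smat B (z.1, Hof B z)) (thOf B z.1) z.2
/-- exponentially weak norm -/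
def wn (η2 : ℝ) (w : V η) : ℝ := ∑' b : Idx, ‖(w b.1).coeff b.2‖ * ex η2 b.2
/-- polynomially weak norm -/
def pn (w : V η) : ℝ := ∑' b : Idx, ‖(w b.1).coeff b.2‖ / br b.2
/-- Hilbert transform -/
def hil (c : ℤ → ℂ) (s : ℝ) : ℂ := fs (fun k => -I * Int.sign k * c k) s
/-- `1 / (1 + v')` -/
def ginv (v : A1 η) (s : ℝ) : ℂ := 1 / (1 + fs (dS v.coeff) s)

/-! ### the conformal map -/

def ann (H δ : ℝ) : Set ℂ := {z | Real.exp (-H - δ) < ‖z‖ ∧ ‖z‖ < Real.exp δ}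
def cann (H : ℝ) : Set ℂ := {z | Real.exp (-H) ≤ ‖z‖ ∧ ‖z‖ ≤ 1}
def rad (H : ℝ) (j : Bool) : ℝ := if j then 1 else Real.exp (-H)
def tau (θ : Bool → ℂ → ℂ) (H : ℝ) (j : Bool) (s : ℝ) : ℂ := rad H j * exp (I * θ j s)
/-- `s` is proportional to arc length for the flat metric `|exp G| |dz|` -/
def Fits (θ : Bool → ℂ → ℂ) (lam H : ℝ) (G : ℂ → ℂ) (c : ℝ) : Prop :=
  ∀ j (s : ℝ), ‖exp (G (tau θ H j s))‖ * rad H j * (deriv (θ j) s).re = c * lenf lam j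
/-- Fourier coefficients in the conformal angle of the boundary values of `log |z F'|` -/
def cth (θ : Bool → ℂ → ℂ) (lam : ℝ) (j : Bool) (k : ℤ) : ℂ :=
  fc (fun s => ((if j then 0 else lam : ℝ) - log (deriv (θ j) s)) * exp (-(I * k * θ j s)) *
    deriv (θ j) s) 0
/-- Laurent coefficients of `log F'` -/
def gcf (θ : Bool → ℂ → ℂ) (lam H : ℝ) (k : ℤ) : ℂ :=
  if k = 0 then cth θ lam true 0
  else if 0 < k then 2 * (cth θ lam true k - (Real.exp (-H) ^ k.natAbs : ℝ) * cth θ lam false k) /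
    (1 - (Real.exp (-H) ^ (2 * k.natAbs) : ℝ))
  else 2 * (Real.exp (-H) ^ k.natAbs : ℝ) *
    (cth θ lam false k - (Real.exp (-H) ^ k.natAbs : ℝ) * cth θ lam true k) /
    (1 - (Real.exp (-H) ^ (2 * k.natAbs) : ℝ))
def Gser (θ : Bool → ℂ → ℂ) (lam : ℝ) (z : ℂ) : ℂ :=
  ∑' k : ℤ, gcf θ lam (Hfun θ lam).re k * z ^ k
/-- Laurent coefficients of `exp G` -/
def lc (G : ℂ → ℂ) (k : ℤ) : ℂ := fc (fun x => exp (G (exp (I * x)))) k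
/-- primitive of `exp G` when the residue `lc G (-1)` vanishes -/
def prim (G : ℂ → ℂ) (z : ℂ) : ℂ := ∑' k : ℤ, lc G k / (k + 1) * z ^ (k + 1)
def HasPrim (G F : ℂ → ℂ) (H δ : ℝ) : Prop := ∀ z ∈ ann H δ, HasDerivAt F (exp (G z)) z
/-- length of the circle number `j` in the metric `|exp G| |dz|`, divided by `2π` -/
def lenG (G : ℂ → ℂ) (H : ℝ) (j : Bool) : ℝ :=
  (1 / (2 * Real.pi)) * ∫ x in (0 : ℝ)..2 * Real.pi, ‖exp (G (rad H j * exp (I * x)))‖ * rad H j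
/-- two interior points with the same image -/
def Overlap (F : ℂ → ℂ) (H : ℝ) : Prop := ∃ a ∈ ann H 0, ∃ b ∈ ann H 0, a ≠ b ∧ F a = F b

/-- the base with its flat immersion -/
structure GeoBase extends Base where
  lam0 : ℝ
  δ0 : ℝ
  G0 : ℂ → ℂ
  F0 : ℂ → ℂ
  δ0_pos : 0 < δ0
  diffG : DifferentiableOn ℂ G0 (ann H0 δ0)
  primF : HasPrim G0 F0 H0 δ0
  fits : Fits θ lam0 H0 G0 1

/-- `(G, F, H)` is a closed neighbour of the base -/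
structure GeoBase.Near (B : GeoBase) (κ : ℝ) (G : ℂ → ℂ) (H : ℝ) : Prop where
  diff : DifferentiableOn ℂ G (ann B.H0 B.δ0)
  close : ∀ z ∈ ann B.H0 B.δ0, ‖G z - B.G0 z‖ ≤ κ
  mod : |H - B.H0| ≤ κ

/-- the facts about the explicit base -/
structure GeoBase.Good (B : GeoBase) : Prop where
  asym : B.toBase.Asym
  emb : ∀ κ > 0, ∃ G F, B.Near κ G B.H0 ∧ HasPrim G F B.H0 B.δ0 ∧ InjOn F (cann B.H0)
  ovl : ∀ κ > 0, ∃ G F H, B.Near κ G H ∧ HasPrim G F B.H0 B.δ0 ∧ Overlap F H ∧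
    lenG G H false = Real.exp B.lam0 * lenG G H true
  pairs : ∀ a ∈ cann B.H0, ∀ b ∈ cann B.H0, a ≠ b → B.F0 a = B.F0 b →
    ‖a‖ = 1 ∧ ‖b‖ = 1 ∧ 0 < a.im * b.im
  slope : ∃ c > 0, ∃ κ > 0, ∀ H, |H - B.H0| ≤ κ →
    c * |H - B.H0| ≤ |lenG B.G0 H false - lenG B.G0 B.H0 false|

/-! ### Schur reduction -/

def inP (j : Bool) (n : ℕ) (b : Idx) : Prop := b.1 = j ∧ |b.2| = n
instance (j : Bool) (n : ℕ) : DecidablePred (inP j n) := fun b => by unfold inP; infer_instance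
def dvs (ℓ : Bool → ℝ) (σ : ℂ) (b : Idx) : ℂ := σ * ℓ b.1 - |b.2|
def Kf (S : Idx → Idx → ℂ) (ℓ : Bool → ℝ) (σ : ℂ) (j : Bool) (n : ℕ) (b c : Idx) : ℂ :=
  if inP j n b then 0 else S b c / dvs ℓ σ b
def bas (c : Idx) : X := toB fun b => if b = c then 1 else 0
/-- quasi-eigenvector -/
def qv (S : Idx → Idx → ℂ) (ℓ : Bool → ℝ) (σ : ℂ) (j : Bool) (n : ℕ) (q : ℤ) : X :=
  Ring.inverse (1 - matOp (Kf S ℓ σ j n) : X →L[ℂ] X) (bas (j, q))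
/-- the reduced matrix -/
def Mm (S : Idx → Idx → ℂ) (ℓ : Bool → ℝ) (σ : ℂ) (j : Bool) (n : ℕ) (p q : ℤ) : ℂ :=
  Sap S (qv S ℓ σ j n q) (j, p)
def EE (η1 : ℝ) : ℝ := ∑' c : Idx, ex η1 c.2
def Div (η1 κ : ℝ) (ℓ : Bool → ℝ) (σ : ℂ) (j : Bool) (n : ℕ) : Prop :=
  ∀ b, ¬inP j n b → ex η1 b.2 ≤ κ * ‖dvs ℓ σ b‖
def RowP (η1 ρ : ℝ) (S : Idx → Idx → ℂ) (j : Bool) (n : ℕ) : Prop :=
  ∀ b c, inP j n c → ‖S b c‖ ≤ ρ * ex η1 b.2 ∧ ‖S c b‖ ≤ ρ * ex η1 b.2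

/-! ### the limit symbol -/

def sg (k : ℤ) : ℂ := (-1) ^ k
def tw (c : ℤ → ℂ) (a : ℤ) : ℂ := sg a * c a
def dlt (a : ℤ) : ℂ := if a = 0 then 1 else 0
def qn (B : Base) (η : ℝ) (j : Bool) (p : ℤ × ℤ) : ℂ :=
  (Real.exp (-η * (p.1 + p.2)) : ℝ) * Qc B j p
def Aseq (B : Base) (η : ℝ) (j : Bool) (a : ℤ) : ℂ := ∑' a', qn B η j (a, a')
def Bseq (B : Base) (η : ℝ) (j : Bool) (a : ℤ) : ℂ := ∑' a', qn B η j (a, a') * sg a'
def Fseq (B : Base) (η : ℝ) (j : Bool) (a : ℤ) : ℂ := tw (Aseq B η j) a - Bseq B η j a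
def X0 (B : Base) (η : ℝ) (j : Bool) : ℤ → ℂ := conv (tw (Bseq B η j)) (Fseq B η j)
def Y0 (B : Base) (η : ℝ) (j : Bool) : ℤ → ℂ := conv (tw (Aseq B η j)) (tw (Fseq B η j))
def What (B : Base) (η : ℝ) (p : ℝ) : ℂ :=
  ∑' a : ℤ, (X0 B η true a + I * Y0 B η true a) * ((Real.exp (η * a) : ℝ) * exp (-(I * a * p)))
/-- correlation -/
def cor (c z : ℤ → ℂ) (n : ℤ) : ℂ := ∑' a, c a * z (n + a)
def dw (η : ℝ) (a : ℤ) : ℝ := if 0 ≤ a then Real.exp (-(3 / 2 * η) * a) else Real.exp (η * a)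
def Dec (η C : ℝ) (c : ℤ → ℂ) : Prop := (∀ a, (c a).im = 0) ∧ ∀ a, ‖c a‖ ≤ C * dw η a
/-- weight of the packet norm -/
def om (η M k : ℝ) : ℝ := Real.exp (-(5 / 4 * η) * max (M - k) 0)
def up (ζ : ℤ → ℂ) (k : ℤ) : ℂ := if Even k then ζ (k / 2) else 0
def evn (z : ℤ → ℂ) (k : ℤ) : ℂ := if Even k then z k else 0
def Ry (Ai ϱ e ζ : ℤ → ℂ) (k : ℤ) : ℂ := 2 * cor ϱ (fun l => up ζ l - evn (cor Ai e) l) k
def Rx (Ai Bs e y : ℤ → ℂ) : ℤ → ℂ := cor Ai fun l => e l - sg l * cor Bs y l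

/-- output of the symbol analysis -/
structure SymOK (B : Base) (η μ Cs c0 : ℝ) (Ai ϱ : Bool → ℤ → ℂ) : Prop where
  one_le : 1 ≤ Cs
  c0_pos : 0 < c0
  qsym : ∀ j a a', qn B η j (a, a') = qn B η j (a', a)
  qbd : ∀ j p, ‖qn B η j p‖ ≤ Cs * (ex (3 / 4 * η) p.1 * ex (3 / 4 * η) p.2)
  dA : ∀ j, Dec η Cs (Aseq B η j)
  dB : ∀ j, Dec η Cs (Bseq B η j)
  dAi : ∀ j, Dec η Cs (Ai j)
  dϱ : ∀ j, Dec η Cs (ϱ j)
  dX : ∀ j, Dec η Cs (X0 B η j)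
  dY : ∀ j, Dec η Cs (Y0 B η j)
  inv : ∀ j, conv (Aseq B η j) (Ai j) = dlt
  bez : ∀ j a, Even a → conv (fun l => dlt l - conv (tw (Ai j)) (Bseq B η j) l) (ϱ j) a = dlt a / 2
  low1 : ∀ p : ℝ, μ ≤ |Real.sin p| → c0 ≤ ‖What B η p‖
  low2 : ∀ p cp cq : ℝ, μ ≤ |Real.sin p| → cp ∈ Icc (1 / 2 : ℝ) 2 → cq ∈ Icc (1 / 2 : ℝ) 2 →
    c0 ≤ ‖cp * What B η p + cq * (starRingEnd ℂ) (What B η (Real.pi - p))‖

end StekIso
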