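import Pool.Agent.Lib.MP_fa022d_an.Defs3

/-! Interfaces between the blocks and the high equations. -/

open Set Filter Topology Metric BoundedContinuousFunction Complex

noncomputable section
namespace StekIso
variable {η : Pos}

/-- facts on the base kernel -/
structure BaseOK (B : Base) (C0 : ℝ) : Prop where
  one_le : 1 ≤ C0
  diff : ∀ i j p, DifferentiableOn ℂ (fun H => S0 B H i j p) (ball (B.H0 : ℂ) 1)
  bd : ∀ H ∈ ball (B.H0 : ℂ) 1, ∀ i j p,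
    ‖S0 B H i j p‖ ≤ C0 * (ex (B.η0 / 3) p.1 * ex (B.η0 / 3) p.2)
  sym : ∀ H ∈ ball (B.H0 : ℂ) 1, ∀ i j a b, S0 B H i j (a, b) = S0 B H j i (b, a)
  refl : ∀ H ∈ ball (B.H0 : ℂ) 1, ∀ i j a b, S0 B H i j (-a, -b) = S0 B H i j (a, b)
  real : ∀ H ∈ ball (B.H0 : ℂ) 1, H.im = 0 → ∀ i j p, (S0 B H i j p).im = 0
  ev : ∀ H ∈ ball (B.H0 : ℂ) 1, ∀ i j, ∀ s ∈ strip (B.η0 / 3), ∀ t ∈ strip (B.η0 / 3),
    (i ≠ j ∨ exp (I * s) ≠ exp (I * t)) → fs2 (S0 B H i j) s t = kerF B.θ H i j s t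

/-- radius of the parameter ball -/
def δK (B : Base) (η : Pos) : ℝ := min (η.1 / 2) (min (1 / K2 η) (B.m / B.M))
/-- derivative of the matrix entries -/
def dSm (B : Base) (z w : V η × ℂ) (b c : Idx) : ℂ := fderiv ℂ (fun z => Smat B z b c) z w
/-- norm that controls the function on the half strip -/
def sn (w : V η) : ℝ := ∑' b : Idx, ‖(w b.1).coeff b.2‖ * ex (-(η.1 / 2)) b.2
/-- sum of the coefficients -/
def l1n (w : V η) : ℝ := ∑' b : Idx, ‖(w b.1).coeff b.2‖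
/-- size of row number `k` -/
def rowS (η t : ℝ) (k : ℤ) : ℝ := t * br k * beta η k + ex (2 * η) k

/-- facts on the matrix `Smat` -/
structure KerOK (B : Base) (η : Pos) (C : ℝ) : Prop where
  one_le : 1 ≤ C
  diff : ∀ b c, DifferentiableOn ℂ (fun z => Smat B z b c) (dom B η (δK B η))
  crude : ∀ z ∈ dom B η (δK B η), Crude (7 / 8 * η.1) C (Smat B z)
  row : ∀ z ∈ dom B η (δK B η), ∀ b c,
    ‖Smat B z b c‖ ≤ C * rowS η.1 ‖z.1‖ c.2 * ex (7 / 8 * η.1) b.2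
  bsym : ∀ z ∈ dom B η (δK B η), BSym (Smat B z)
  rsym : ∀ z ∈ dom B η (δK B η), RealV z.1 → z.2.im = 0 → RSym (Smat B z)
  diag : ∀ z ∈ dom B η (δK B η), ∀ j (n : ℤ), 1 ≤ n →
    ‖Smat B z (j, n) (j, n) - 2 * n ^ 2 * Qform B j (z.1 j).coeff n‖ ≤
      C * (n ^ 2 * beta η.1 n ^ 2 * ‖z.1‖ ^ 2 * (‖z.1‖ + ‖z.2 - B.H0‖) +
        rowS η.1 ‖z.1‖ n * ex (2 * η.1) n)
  off : ∀ z ∈ dom B η (δK B η), ∀ j (n : ℤ), n ≠ 0 →
    ‖Smat B z (j, n) (j, -n) - 2 * I * n * |n| * (z.1 j).coeff (2 * n)‖ ≤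
      C * (n ^ 2 * beta η.1 (2 * n) * ‖z.1‖ ^ 2 + rowS η.1 ‖z.1‖ n * ex (2 * η.1) n)
  cmap : ∀ v : V η, ‖v‖ < δK B η → RealV v → ∀ j, CMap η.1 (B.m / 2) (2 * B.M) (thOf B v j)
  thlip : ∀ v v' : V η, ‖v‖ < δK B η → ‖v'‖ < δK B η → ∀ j, ∀ s ∈ strip (η.1 / 2),
    ‖thOf B v j s - thOf B v' j s‖ ≤ B.M * sn (v - v')
  sfun : ∀ z ∈ dom B η (δK B η), Smat B z = Sfun (thOf B z.1) z.2
  comm : ∀ z ∈ dom B η (δK B η), ∀ (w : V η) (p q : Idx → ℂ) (Cp Cq : ℝ),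
    Dk (7 / 8 * η.1) Cp p → Dk (7 / 8 * η.1) Cq q →
    Bf p (Sap (dSm B z (w, 0)) q) =
      -∑ j, ∑' k, xiC (z.1 j) (w j) (-k) * fPQ (Smat B z) p q j k
  xi : ∀ v w : A1 η, ‖v‖ < δK B η → ∀ (f : ℤ → ℂ) (D : ℝ),
    (∀ k, ‖f k‖ ≤ D * ex (3 / 4 * η.1) k) →
    ‖∑' k, xiC v w (-k) * f k‖ ≤ C * D * ∑' k, ‖w.coeff k‖ * ex (3 / 4 * η.1) k
  ins : ∀ z ∈ dom B η (δK B η), ‖z.2 - B.H0‖ ≤ 1 / 2 → ∀ (w : V η × ℂ) (p q : Idx → ℂ),
    Dk (7 / 8 * η.1) 1 p → Dk (7 / 8 * η.1) 1 q →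
    ‖Bf p (Sap (dSm B z w) q)‖ ≤ C * (wn (3 / 4 * η.1) w.1 + ‖w.2‖)
  Hdiff : DifferentiableOn ℂ (Hof B) (ball (0 : V η) (δK B η) ×ˢ univ)
  Hins : ∀ v : V η, ‖v‖ < δK B η → ∀ lam w,
    ‖fderiv ℂ (Hof B) (v, lam) (w, 0)‖ ≤ C * wn (3 / 4 * η.1) w
  Hlip : ∀ v : V η, ‖v‖ < δK B η → ∀ lam, ‖Hof B (v, lam) - Hof B ((0 : V η), lam)‖ ≤ C * ‖v‖
  Hreal : ∀ v : V η, ‖v‖ < δK B η → RealV v → ∀ lam : ℝ, (Hof B (v, (lam : ℂ))).im = 0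

/-- parameter domain of the curvature functionals -/
def domC (η : Pos) (lam0 δ : ℝ) : Set (V η × ℂ) := ball (0 : V η) δ ×ˢ ball (lam0 : ℂ) δ

/-- facts on the closing defect and on chords -/
structure CurvOK (B : Base) (η : Pos) (lam0 δ C : ℝ) : Prop where
  δ_pos : 0 < δ
  δ_le : δ ≤ δK B η
  one_le : 1 ≤ C
  inH : ∀ z ∈ domC η lam0 δ, ‖Hof B z - B.H0‖ ≤ 1 / 2
  dCp : DifferentiableOn ℂ (fun z => Cp (kapV B z)) (domC η lam0 δ)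
  dCm : DifferentiableOn ℂ (fun z => Cm (kapV B z)) (domC η lam0 δ)
  bCp : ∀ z ∈ domC η lam0 δ, ‖Cp (kapV B z)‖ ≤ C ∧ ‖Cm (kapV B z)‖ ≤ C
  real : ∀ z ∈ domC η lam0 δ, RealV z.1 → z.2.im = 0 → ∀ s, (vth (kapV B z) s).im = 0
  cont : ∀ s : ℝ, ContinuousOn (fun z => vth (kapV B z) s) (domC η lam0 δ)
  ins : ∀ z ∈ domC η lam0 δ, ∀ w : V η,
    ‖fderiv ℂ (fun z => Cp (kapV B z)) z (w, 0)‖ ≤ C * pn w ∧
    ‖fderiv ℂ (fun z => Cm (kapV B z)) z (w, 0)‖ ≤ C * pn w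
  dch : ∀ p q, DifferentiableOn ℂ (fun z => chord (kapV B z) p q) (domC η lam0 δ)
  sens : ∀ z ∈ domC η lam0 δ, ∀ (w : V η) (p q : ℝ), |p - q| ≤ 7 →
    ‖fderiv ℂ (fun z => chord (kapV B z) p q) z (w, 0) +
      I * (exp (I * vth (kapV B z) p) * ginv (z.1 true) p * hil (w true).coeff p -
        exp (I * vth (kapV B z) q) * ginv (z.1 true) q * hil (w true).coeff q)‖ ≤ C * pn w
  gre : ∀ v : A1 η, ‖v‖ < δ → (∀ k, v.coeff (-k) = (starRingEnd ℂ) (v.coeff k)) → ∀ s,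
    ∃ g ∈ Icc (1 / 2 : ℝ) 2, ginv v s = g

/-- basic hypotheses of the Schur reduction -/
structure SH0 (η1 C κ : ℝ) (S : Idx → Idx → ℂ) (ℓ : Bool → ℝ) (σ : ℂ) (j : Bool) (n : ℕ) :
    Prop where
  η_pos : 0 < η1
  one_le : 1 ≤ C
  κ_nonneg : 0 ≤ κ
  crude : Crude η1 C S
  div : Div η1 κ ℓ σ j n
  small : C * EE η1 * κ ≤ 1 / 2
  n_pos : 1 ≤ n

/-- full hypotheses of the Schur reduction -/
structure SH (η1 η2 C κ ρ D Λ : ℝ) (S : Idx → Idx → ℂ) (ℓ : Bool → ℝ) (σ : ℂ) (j : Bool)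
    (n : ℕ) : Prop extends SH0 η1 C κ S ℓ σ j n where
  bsym : BSym S
  ρ_nonneg : 0 ≤ ρ
  row : RowP η1 ρ S j n
  near : ‖σ * ℓ j - n‖ ≤ 1 / 2
  low : ∀ b, ¬inP j n b → 1 ≤ D * ‖dvs ℓ σ b‖
  Dρ : D ^ 2 * ρ ≤ 1
  ρ_le : ρ ≤ ex η2 n
  one_le_Λ : 1 ≤ Λ
  size : ∀ i, ‖σ * ℓ i‖ ≤ Λ * n

/-! ### normalised coordinates and the high equations -/

def uu (x : Idx → ℂ) (j : Bool) (k : ℤ) : ℂ :=
  if 0 < k then x (j, k) + I * x (j, -k) else if k < 0 then x (j, -k) - I * x (j, k) else x (j, 0)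

theorem norm_uu_le (x : X) (j : Bool) (k : ℤ) : ‖uu x j k‖ ≤ 2 * ‖x‖ := by
  have h := x.norm_coe_le_norm
  unfold uu
  split_ifs
  · refine (norm_add_le _ _).trans ?_
    rw [norm_mul, norm_I, one_mul]; linarith [h (j, k), h (j, -k)]
  · refine (norm_sub_le _ _).trans ?_
    rw [norm_mul, norm_I, one_mul]; linarith [h (j, k), h (j, -k)]
  · linarith [h (j, 0), norm_nonneg x]

theorem toV_aux (η : Pos) (ε : ℝ) (x : X) (j : Bool) (k : ℤ) :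
    ‖((ε * beta η.1 k : ℝ) : ℂ) * uu x j k‖ ≤ (256 * |ε| * ‖x‖) * (wt1 η).w k := by
  have hb := beta_pos η.1 k
  rw [norm_mul, Complex.norm_real, Real.norm_eq_abs, abs_mul, abs_of_pos hb]
  calc _ ≤ |ε| * beta η.1 k * (2 * ‖x‖) :=
        mul_le_mul_of_nonneg_left (norm_uu_le x j k) (by positivity)
    _ = _ := by simp only [wt1]; ring

/-- from normalised coordinates to perturbations -/
def toV (η : Pos) (ε : ℝ) : X →L[ℂ] V η :=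
  LinearMap.mkContinuous
    { toFun := fun x j => WAlg.mk (fun k => ((ε * beta η.1 k : ℝ) : ℂ) * uu x j k) _
        (toV_aux η ε x j)
      map_add' := fun x y => by
        funext j; ext k
        simp only [WAlg.coeff_mk, Pi.add_apply, WAlg.coeff_add, uu, coe_add]
        split_ifs <;> ring
      map_smul' := fun c x => by
        funext j; ext k
        simp only [WAlg.coeff_mk, Pi.smul_apply, WAlg.coeff_smul, uu, RingHom.id_apply,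
          BoundedContinuousFunction.coe_smul, smul_eq_mul]
        split_ifs <;> ring }
    (256 * |ε|) fun x => (pi_norm_le_iff_of_nonneg (by positivity)).2 fun j =>
      WAlg.norm_le_of_coeff _ (by positivity) fun k => by simpa using toV_aux η ε x j k

theorem coeff_toV (η : Pos) (ε : ℝ) (x : X) (j : Bool) (k : ℤ) :
    (toV η ε x j).coeff k = ((ε * beta η.1 k : ℝ) : ℂ) * uu x j k :=
  WAlg.coeff_mk _ _ (toV_aux η ε x j) k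

/-- the centre -/
def tail (N0 : ℕ) : X :=
  toB fun b => if (N0 : ℤ) ≤ |b.2| then (if 0 < b.2 then 1 else sg b.2) else 0
/-- kernel packet on the outer circle -/
def Wpk (B : Base) (η : ℝ) (M : ℤ) : X :=
  toB fun b => if b.1 = true ∧ 0 < b.2 then X0 B η true (M - b.2)
    else if b.1 = true ∧ b.2 < 0 then Y0 B η true (M + b.2) else 0
/-- packet norm bound -/
def MB (η M D : ℝ) (w : Idx → ℂ) : Prop := ∀ b, ‖w b‖ ≤ D * om η M |(b.2 : ℝ)|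
def zOf (B : Base) (η : Pos) (ε lam : ℝ) (x : X) : V η × ℂ :=
  (toV η ε x, Hof B (toV η ε x, (lam : ℂ)))
def Sx (B : Base) (η : Pos) (ε lam : ℝ) (x : X) : Idx → Idx → ℂ := Smat B (zOf B η ε lam x)
def Mx (B : Base) (η : Pos) (ε lam : ℝ) (x : X) (σ : ℂ) (j : Bool) (n : ℕ) (p q : ℤ) : ℂ :=
  Mm (Sx B η ε lam x) (lenf lam) σ j n p q
def nA (η ε : ℝ) (n : ℕ) : ℝ := n ^ 2 * ε ^ 2 * beta η n ^ 2
def nB (η ε : ℝ) (n : ℕ) : ℝ := n ^ 2 * ε * beta η (2 * n)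
/-- product of the off-diagonal entries -/
def ddm (B : Base) (η : Pos) (ε lam : ℝ) (x : X) (σ : ℂ) (j : Bool) (n : ℕ) : ℂ :=
  Mx B η ε lam x σ j n n (-n) * Mx B η ε lam x σ j n (-n) n
/-- diagonal entry of the reduced equation -/
def am (B : Base) (η : Pos) (ε lam : ℝ) (x : X) (σ : ℂ) (j : Bool) (n : ℕ) : ℂ :=
  σ * lenf lam j - n - Mx B η ε lam x σ j n n n
/-- rows: circle, kind (`true` = sum, `false` = difference), frequency -/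
abbrev Row (lam cut : ℝ) := {r : Bool × Bool × ℕ // cut < r.2.2 / lenf lam r.1}
/-- position of a row for the packet norm -/
def rpos (r : Bool × Bool × ℕ) : ℝ := if r.2.1 then r.2.2 else 2 * r.2.2
def MBY {lam cut : ℝ} (η M D : ℝ) (g : Row lam cut → ℂ) : Prop :=
  ∀ r, ‖g r‖ ≤ D * om η M (rpos r.1)
/-- the high equations at the fixed values `sig j n true`, `sig j n false`; both vanish iff
`am ^ 2 = ddm` at both values -/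
def phi (B : Base) (η : Pos) (ε lam : ℝ) (sig : Bool → ℕ → Bool → ℝ) (x : X)
    (r : Bool × Bool × ℕ) : ℂ :=
  if r.2.1 then
    (-(am B η ε lam x (sig r.1 r.2.2 true) r.1 r.2.2 +
        am B η ε lam x (sig r.1 r.2.2 false) r.1 r.2.2) +
      (ddm B η ε lam x (sig r.1 r.2.2 true) r.1 r.2.2 -
        ddm B η ε lam x (sig r.1 r.2.2 false) r.1 r.2.2) /
      (am B η ε lam x (sig r.1 r.2.2 true) r.1 r.2.2 -
        am B η ε lam x (sig r.1 r.2.2 false) r.1 r.2.2)) / (8 * nA η.1 ε r.2.2)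
  else (ddm B η ε lam x (sig r.1 r.2.2 true) r.1 r.2.2 -
      am B η ε lam x (sig r.1 r.2.2 true) r.1 r.2.2 ^ 2) / (8 * nB η.1 ε r.2.2 ^ 2)
def Qlim (B : Base) (η : ℝ) (x : Idx → ℂ) (j : Bool) (n : ℕ) : ℂ :=
  ∑' p : ℤ × ℤ, if 1 ≤ n + p.1 ∧ 1 ≤ n + p.2 then
    qn B η j p * (uu x j (n + p.1) * uu x j (-n - p.2)) else 0
def Lmat (B : Base) (η : ℝ) (r : Bool × Bool × ℕ) (b : Idx) : ℂ :=
  if b.1 = r.1 then
    if r.2.1 then (if 0 < b.2 then Aseq B η r.1 (b.2 - r.2.2)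
      else if b.2 < 0 then sg r.2.2 * Bseq B η r.1 (-b.2 - r.2.2) else 0)
    else if |b.2| = 2 * r.2.2 then 1 else 0
  else 0
def Lop (B : Base) (η lam cut : ℝ) : X →L[ℂ] (Row lam cut →ᵇ ℂ) :=
  matOp fun r : Row lam cut => Lmat B η r.1
/-- centre of a window -/
def wc (lam : ℝ) (j : Bool) (n : ℕ) : ℝ := n / lenf lam j
/-- the main part of the high equations -/
def mainL (B : Base) (η : ℝ) (x : Idx → ℂ) (r : Bool × Bool × ℕ) : ℂ :=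
  if r.2.1 then Qlim B η x r.1 r.2.2 / 2
  else (x (r.1, 2 * r.2.2) ^ 2 + x (r.1, -(2 * r.2.2)) ^ 2) / 2

/-- what the Newton step needs to know about the high equations -/
structure PhiOK (B : Base) (η lam cut : ℝ) (x0 : X) (K θ : ℝ) (φ : X → Row lam cut → ℂ) :
    Prop where
  diff : ∀ r, DifferentiableOn ℂ (fun x => φ x r) (ball x0 (1 / 2))
  real : ∀ x ∈ ball x0 (1 / 2), x ∈ reB Idx → ∀ r, (φ x r).im = 0
  zero : ∀ r, φ x0 r = 0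
  close : ∀ r, ∃ k, ∀ x ∈ ball x0 (1 / 2), ‖φ x r - mainL B η x r.1 - k‖ ≤ θ
  row : ∀ r, ∀ x ∈ ball x0 (1 / 2), ∀ w : X, (∀ b : Idx, |(b.2 : ℝ)| < rpos r.1 → w b = 0) →
    ‖fderiv ℂ (fun x => φ x r) x w‖ ≤
      K * ∑' b : Idx, ‖w b‖ * Real.exp (-(3 / 2 * η) * (|(b.2 : ℝ)| - rpos r.1))

/-- the retraction onto the solutions of the high equations -/
structure RetrOK (B : Base) (η : ℝ) (x0 : X) (δ C θ Ncut : ℝ) (π : X → X) : Prop where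
  diff : DifferentiableOn ℂ π (ball x0 δ)
  near : ∀ x ∈ ball x0 δ, ‖π x - x‖ ≤ C * ‖x - x0‖
  real : ∀ x ∈ ball x0 δ, x ∈ reB Idx → π x ∈ reB Idx
  supp : ∀ x ∈ ball x0 δ, ∀ b : Idx, |(b.2 : ℝ)| < Ncut → π x b = x b
  pack : ∀ᶠ M : ℕ in atTop, ∀ x ∈ ball x0 δ, MB η (2 * M + 1) θ
    (fderiv ℂ π x (Wpk B η (2 * M + 1)) - Wpk B η (2 * M + 1))

/-- facts on all windows above the cut -/
structure WinOK (B : Base) (η : Pos) (ε lam c cut C K θ : ℝ) : Prop where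
  ε_pos : 0 < ε
  c_pos : 0 < c
  one_le : 1 ≤ K
  inV : ∀ x ∈ ball (0 : X) 2, ‖toV η ε x‖ < δK B η ∧ ‖(zOf B η ε lam x).2 - B.H0‖ ≤ 1 / 2
  sh : ∀ j n, cut < wc lam j n → ∃ κ D Λ, Λ ≤ K ∧
    ∀ x ∈ ball (0 : X) 2, ∀ H ∈ ball (B.H0 : ℂ) 1,
    ∀ σ ∈ ball (wc lam j n : ℂ) (c / (2 * wc lam j n)),
      SH (7 / 8 * η.1) (3 / 4 * η.1) C κ (K * (ε * n * beta η.1 n)) D Λ
        (Smat B (toV η ε x, H)) (lenf lam) σ j n
  sup : ∀ j n, cut < wc lam j n → ∀ x ∈ ball (0 : X) 2, ∀ H ∈ ball (B.H0 : ℂ) 1,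
    ∀ σ ∈ ball (wc lam j n : ℂ) (c / (2 * wc lam j n)), ∀ p : ℤ, |p| = n →
      ‖Mm (Smat B (toV η ε x, H)) (lenf lam) σ j n p p‖ ≤ K * nA η.1 ε n ∧
      ‖Mm (Smat B (toV η ε x, H)) (lenf lam) σ j n p (-p)‖ ≤ K * nB η.1 ε n
  asy : ∀ j n, cut < wc lam j n → ∀ x ∈ ball (0 : X) 2,
    ∀ σ ∈ ball (wc lam j n : ℂ) (c / (2 * wc lam j n)),
      ‖Mx B η ε lam x σ j n n n - 2 * nA η.1 ε n * Qlim B η.1 x j n‖ ≤ θ * nA η.1 ε n ∧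
      ‖Mx B η ε lam x σ j n n (-n) - 2 * I * nB η.1 ε n * uu x j (2 * n)‖ ≤ θ * nB η.1 ε n ∧
      ‖Mx B η ε lam x σ j n (-n) n + 2 * I * nB η.1 ε n * uu x j (-(2 * n))‖ ≤ θ * nB η.1 ε n
  gap : ∀ x ∈ ball (0 : X) 2, ∀ σ : ℝ, cut ≤ σ →
    (∀ j n, cut < wc lam j n → c / (4 * wc lam j n) < |σ - wc lam j n|) →
    Ker (Sx B η ε lam x) (lenf lam) σ = ⊥
  disj : ∀ j n j' n' (σ : ℝ), cut < wc lam j n → cut < wc lam j' n' →
    |σ - wc lam j n| ≤ c / (4 * wc lam j n) → |σ - wc lam j' n'| ≤ c / (4 * wc lam j' n') →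
    j = j' ∧ n = n'
  n1 : ∀ j n, cut < wc lam j n → 1 ≤ n ∧ nA η.1 ε n ≤ θ * nB η.1 ε n ∧
    nB η.1 ε n * wc lam j n ≤ θ * (c * lenf lam j) ∧
    nB η.1 ε n ^ 2 * wc lam j n * Real.exp (3 / 2 * η.1 * n) ≤ θ * (c * lenf lam j) * nA η.1 ε n

end StekIso
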