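import Pool.Agent.Lib.MP_fa022d_an.Defs4

/-! The low block. -/

open Set Filter Topology Metric BoundedContinuousFunction Complex

noncomputable section
namespace StekIso

/-- `Γ` is a basis of an invariant graph over the finite set `low` of indices below the cut and
`Hm` is the matrix of the restricted operator -/
structure Graph (η1 : ℝ) (S : Idx → Idx → ℂ) (ℓ : Bool → ℝ) {d : ℕ} (low : Fin d → Idx)
    (Γ : Fin d → X) (Hm : Matrix (Fin d) (Fin d) ℂ) : Prop where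
  on_low : ∀ l l', Γ l (low l') = if l = l' then 1 else 0
  decay : ∀ l b, b ∉ range low → ‖Γ l b‖ ≤ ex η1 b.2
  inv : ∀ l b, Tm S (Γ l) b = ℓ b.1 * ∑ l', Γ l' b * Hm l' l

/-- the divisors at the cut are large compared with the matrix -/
structure CutOK (η1 C cut : ℝ) (ℓ : Bool → ℝ) {d : ℕ} (low : Fin d → Idx) : Prop where
  η_pos : 0 < η1
  one_le : 1 ≤ C
  ℓ_pos : ∀ j, 0 < ℓ j
  inj : Function.Injective low
  mem : ∀ b, b ∈ range low ↔ dval ℓ b < cut
  big : ∀ l b, b ∉ range low → 16 * C * (1 + EE η1) * (∑ j, 1 / ℓ j) *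
    (ex η1 (low l).2 + ∑' b : Idx, (range low)ᶜ.indicator (fun b => ex η1 b.2) b) ≤
      dval ℓ b - dval ℓ (low l)
  big' : ∀ b, b ∉ range low →
    16 * C * (1 + EE η1) ^ 2 * (∑ j, 1 / ℓ j) * ex η1 b.2 ≤ dval ℓ b - cut
  tiny : 4 * d * (∑ j, ℓ j) * (∑ j, 1 / ℓ j) *
    ∑' b : Idx, (range low)ᶜ.indicator (fun b => ex η1 b.2) b ≤ 1

end StekIso
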