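import Pool.Agent.Lib.MP_fa022d_an.Defs4
import Pool.Agent.Lib.MP_fa022d_an.Four3

/-! Helpers for the extension of the kernel across the diagonal. -/

open Set Filter Topology Metric BoundedContinuousFunction Complex

noncomputable section
namespace StekIso

theorem kext_convex (η : ℝ) : Convex ℝ (strip η) := by
  have e : strip η = {s : ℂ | -η < s.im} ∩ {s : ℂ | s.im < η} :=
    Set.ext fun s => abs_lt (a := s.im)
  rw [e]
  exact (convex_halfSpace_im_gt _).inter (convex_halfSpace_im_lt _)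

theorem kext_hd {η m M : ℝ} {θ : ℂ → ℂ} (h : CMap η m M θ) {s : ℂ} (hs : s ∈ strip η) :
    HasDerivAt θ (deriv θ s) s :=
  (h.diff.differentiableAt ((isOpen_strip η).mem_nhds hs)).hasDerivAt

theorem kext_an {η m M : ℝ} {θ : ℂ → ℂ} (h : CMap η m M θ) {s : ℂ} (hs : s ∈ strip η) :
    AnalyticAt ℂ θ s :=
  h.diff.analyticAt ((isOpen_strip η).mem_nhds hs)

/-- the divided difference -/
theorem kext_dd {η m M : ℝ} {θ : ℂ → ℂ} (h : CMap η m M θ) {s t : ℂ} (hs : s ∈ strip η)
    (ht : t ∈ strip η) : ∃ D : ℂ, θ s - θ t = D * (s - t) ∧ m ≤ D.re ∧ ‖D‖ ≤ M := by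
  rcases eq_or_ne s t with rfl | hne
  · exact ⟨deriv θ s, by simp, h.lo s hs, h.hi s hs⟩
  have hst : s - t ≠ 0 := sub_ne_zero.2 hne
  refine ⟨(θ s - θ t) / (s - t), (div_mul_cancel₀ _ hst).symm, ?_, ?_⟩
  · have mem : ∀ u ∈ Icc (0 : ℝ) 1, t + (u : ℂ) * (s - t) ∈ strip η := fun u hu => by
      simpa using (kext_convex η).add_smul_sub_mem ht hs hu
    have hd : ∀ u ∈ Icc (0 : ℝ) 1, HasDerivAt (fun u : ℝ => (θ (t + u * (s - t)) / (s - t)).re)
        (deriv θ (t + u * (s - t))).re u := fun u hu => by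
      have a : HasDerivAt (fun w : ℂ => t + w * (s - t)) (s - t) u := by
        simpa using ((hasDerivAt_id (u : ℂ)).mul_const (s - t)).const_add t
      have b := (((kext_hd h (mem u hu)).comp (u : ℂ) a).div_const (s - t)).real_of_complex
      rwa [mul_div_cancel_right₀ _ hst] at b
    obtain ⟨c, hc, e⟩ := exists_hasDerivAt_eq_slope _ _ zero_lt_one
      (fun u hu => (hd u hu).continuousAt.continuousWithinAt)
      (fun u hu => hd u (Ioo_subset_Icc_self hu))
    have := h.lo _ (mem c (Ioo_subset_Icc_self hc))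
    rw [e] at this
    simpa [sub_div] using this
  · rw [norm_div, div_le_iff₀ (norm_pos_iff.2 hst)]
    exact (kext_convex η).norm_image_sub_le_of_norm_deriv_le
      (fun z hz => (kext_hd h hz).differentiableAt) h.hi ht hs

theorem kext_real {η : ℝ} {s : ℂ} (hs : s ∈ strip η) (x : ℝ) : (x : ℂ) ∈ strip η := by
  have : |s.im| < η := hs
  simpa [strip] using (abs_nonneg _).trans_lt this

theorem kext_pow {H : ℂ} (hH : 2 ≤ H.re) (k : ℤ) : ‖exp (-H) ^ k.natAbs‖ ≤ ex 2 k := by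
  rw [norm_pow, Complex.norm_exp, ← Real.exp_nat_mul, ex, Nat.cast_natAbs, Int.cast_abs, neg_re]
  exact Real.exp_le_exp.2 (by nlinarith [abs_nonneg (k : ℝ)])

theorem kext_csq_per (x : ℂ) (n : ℤ) : csq (x + n * (2 * Real.pi)) = csq x := by
  have e : (x + n * (2 * Real.pi)) / 2 = x / 2 + n * Real.pi := by ring
  have s0 : sin (n * Real.pi : ℂ) = 0 := Complex.sin_eq_zero_iff.2 ⟨n, rfl⟩
  have c0 := sin_sq_add_cos_sq (n * Real.pi : ℂ)
  rw [csq, csq, e, Complex.sin_add, s0, mul_zero, add_zero, mul_pow]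
  rw [s0] at c0
  rw [show cos (n * Real.pi : ℂ) ^ 2 = 1 by simpa using c0, mul_one]

theorem kext_csq_swap (x y : ℂ) : csq (x - y) = csq (y - x) := by
  rw [csq, csq, ← neg_sub y x, neg_div, Complex.sin_neg, neg_sq]

theorem kext_sin_ne {x : ℂ} (h : ∀ n : ℤ, x ≠ n * (2 * Real.pi)) : sin (x / 2) ≠ 0 := fun e => by
  obtain ⟨n, hn⟩ := Complex.sin_eq_zero_iff.1 e
  exact h n (by linear_combination 2 * hn)

theorem kext_csq_an {x : ℂ} (h : sin (x / 2) ≠ 0) : AnalyticAt ℂ csq x := by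
  unfold csq
  refine analyticAt_const.div (by fun_prop) ?_
  simpa using h

theorem kext_csq_bd {δ : ℝ} (hδ : 0 < δ) : ∃ C, ∀ x : ℂ, |x.im| ≤ 1 →
    (∀ n : ℤ, δ ≤ ‖x - n * (2 * Real.pi)‖) → ‖csq x‖ ≤ C := by
  have pi0 := Real.pi_pos
  have cp : IsCompact ((Icc (-Real.pi) Real.pi ×ℂ Icc (-1) 1) ∩ {x : ℂ | δ ≤ ‖x‖}) :=
    (isCompact_Icc.reProdIm isCompact_Icc).inter_right
      (isClosed_le continuous_const continuous_norm)
  obtain ⟨C, hC⟩ := cp.exists_bound_of_continuousOn (f := csq) fun x hx => by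
    refine (kext_csq_an (kext_sin_ne fun n hn => ?_)).continuousAt.continuousWithinAt
    have a : |x.re| ≤ Real.pi := abs_le.2 hx.1.1
    have b : x.re = n * (2 * Real.pi) := by simp [hn]
    have c : δ ≤ ‖x‖ := hx.2
    rcases eq_or_ne n 0 with rfl | n0
    · rw [hn] at c
      simp at c
      linarith
    · have k1 : (1 : ℝ) ≤ |(n : ℝ)| := by exact_mod_cast Int.one_le_abs n0
      rw [b, abs_mul, abs_of_pos (by positivity : 0 < 2 * Real.pi)] at a
      nlinarith
  refine ⟨C, fun x h1 h2 => ?_⟩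
  obtain ⟨n, hn, -⟩ := existsUnique_sub_zsmul_mem_Ico Real.two_pi_pos x.re (-Real.pi)
  have e := kext_csq_per (x - n * (2 * Real.pi)) n
  rw [sub_add_cancel] at e
  rw [e]
  rw [zsmul_eq_mul] at hn
  refine hC _ ⟨⟨⟨?_, ?_⟩, ?_⟩, h2 n⟩
  · simpa using hn.1
  · have := hn.2.le
    simp only [sub_re, mul_re, intCast_re, intCast_im, re_ofNat, ofReal_re, im_ofNat, ofReal_im]
    linarith
  · simpa using abs_le.1 h1

theorem kext_add {η : ℝ} {s : ℂ} (hs : s ∈ strip η) (n : ℤ) :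
    s + n * (2 * Real.pi) ∈ strip η := by
  simpa [strip] using hs

theorem kext_per {η m M : ℝ} {θ : ℂ → ℂ} (h : CMap η m M θ) (n : ℤ) {s : ℂ} (hs : s ∈ strip η) :
    θ (s + n * (2 * Real.pi)) = θ s + n * (2 * Real.pi) := by
  induction n using Int.induction_on with
  | zero => simp
  | succ n ih =>
    have := h.per _ (kext_add hs n)
    rw [ih] at this
    push_cast at this ⊢
    rw [add_mul, one_mul, ← add_assoc, this, add_assoc]
  | pred n ih =>
    have := h.per _ (kext_add hs (-n - 1))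
    push_cast at this ih ⊢
    rw [show s + (-n - 1) * (2 * Real.pi) + 2 * Real.pi = s + -n * (2 * Real.pi) by ring,
      ih] at this
    linear_combination -this

theorem kext_dper {η m M : ℝ} {θ : ℂ → ℂ} (h : CMap η m M θ) (n : ℤ) {s : ℂ}
    (hs : s ∈ strip η) : deriv θ (s + n * (2 * Real.pi)) = deriv θ s := by
  rw [← deriv_comp_add_const, ← deriv_add_const (f := θ) (n * (2 * Real.pi) : ℂ)]
  refine EventuallyEq.deriv_eq ?_
  filter_upwards [(isOpen_strip η).mem_nhds hs] with z hz using kext_per h n hz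

theorem kext_exp {s t : ℂ} : exp (I * s) = exp (I * t) ↔ ∃ n : ℤ, s = t + n * (2 * Real.pi) := by
  rw [exp_eq_exp_iff_exists_int]
  refine exists_congr fun n => ⟨fun e => ?_, fun e => by rw [e]; ring⟩
  exact mul_left_cancel₀ I_ne_zero (by linear_combination e)

/-- the kernel off the diagonal -/
def kext_K0 (θ : ℂ → ℂ) (s t : ℂ) : ℂ :=
  csq (s - t) - deriv θ s * deriv θ t * csq (θ s - θ t)

theorem kext_K0_swap (θ : ℂ → ℂ) (s t : ℂ) : kext_K0 θ s t = kext_K0 θ t s := by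
  rw [kext_K0, kext_K0, kext_csq_swap s, kext_csq_swap (θ s), mul_comm (deriv θ s)]

theorem kext_K0_per {η m M : ℝ} {θ : ℂ → ℂ} (h : CMap η m M θ) (n : ℤ) {s : ℂ}
    (hs : s ∈ strip η) (t : ℂ) : kext_K0 θ (s + n * (2 * Real.pi)) t = kext_K0 θ s t := by
  rw [kext_K0, kext_K0, kext_per h n hs, kext_dper h n hs, add_sub_right_comm, kext_csq_per,
    add_sub_right_comm, kext_csq_per]

theorem kext_fac {f : ℂ → ℂ} {t d : ℂ} (hf : AnalyticAt ℂ f t) (h0 : f t = 0)
    (hd : HasDerivAt f d t) : ∃ g, AnalyticAt ℂ g t ∧ g t = d ∧ ∀ z, f z = (z - t) * g z := by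
  obtain ⟨p, hp⟩ := hf
  refine ⟨dslope f t, ⟨_, hp.has_fpower_series_dslope_fslope⟩, by rw [dslope_same, hd.deriv],
    fun z => ?_⟩
  have := sub_smul_dslope f t z
  rw [h0, sub_zero, smul_eq_mul] at this
  exact this.symm

theorem kext_cot {u : ℂ → ℂ} {d z : ℂ} (hu : HasDerivAt u d z) (h : sin (u z / 2) ≠ 0) :
    HasDerivAt (fun w => cos (u w / 2) / (2 * sin (u w / 2))) (-(d * csq (u z))) z := by
  have a := hu.div_const 2
  have b := (a.ccos).div (a.csin.const_mul 2) (mul_ne_zero two_ne_zero h)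
  refine b.congr_deriv ?_
  have := sin_sq_add_cos_sq (u z / 2)
  rw [csq]
  field_simp
  linear_combination -4 * d * this

/-- the singularity on the diagonal is removable -/
theorem kext_diag {η m M : ℝ} {θ : ℂ → ℂ} (hm : 0 < m) (h : CMap η m M θ) {t : ℂ}
    (ht : t ∈ strip η) :
    ∃ F, AnalyticAt ℂ F t ∧ (fun z => kext_K0 θ z t) =ᶠ[𝓝[≠] t] F := by
  have c := kext_an h ht
  have d0 : deriv θ t ≠ 0 := fun e => by
    have := h.lo t ht
    rw [e, zero_re] at this
    linarith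
  obtain ⟨A, hA, A0, eA⟩ := kext_fac (f := fun z => sin ((z - t) / 2)) (t := t) (d := 1 / 2)
    (by fun_prop) (by simp)
    (by simpa using (((hasDerivAt_id t).sub_const t).div_const 2).csin)
  obtain ⟨G, hG, G0, eG⟩ := kext_fac (f := fun z => sin ((θ z - θ t) / 2)) (t := t)
    (d := deriv θ t / 2) (by fun_prop) (by simp)
    (by simpa using (((kext_hd h ht).sub_const (θ t)).div_const 2).csin)
  have hN : AnalyticAt ℂ
      (fun z => deriv θ t * cos ((θ z - θ t) / 2) * A z - cos ((z - t) / 2) * G z) t := by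
    fun_prop
  obtain ⟨N, hN1, -, eN⟩ := kext_fac hN (by simp [A0, G0]; ring) hN.differentiableAt.hasDerivAt
  have An : A t ≠ 0 := by rw [A0]; norm_num
  have Gn : G t ≠ 0 := by rw [G0]; exact div_ne_zero d0 two_ne_zero
  have hP : AnalyticAt ℂ (fun z => N z / (2 * A z * G z)) t :=
    hN1.div (by fun_prop) (mul_ne_zero (mul_ne_zero two_ne_zero An) Gn)
  refine ⟨_, hP.deriv, ?_⟩
  have ev : ∀ᶠ z in 𝓝 t, z ∈ strip η ∧ A z ≠ 0 ∧ G z ≠ 0 :=
    (Filter.Eventually.and ((isOpen_strip η).mem_nhds ht)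
      ((hA.continuousAt.eventually_ne An).and (hG.continuousAt.eventually_ne Gn)))
  filter_upwards [nhdsWithin_le_nhds ev.eventually_nhds, self_mem_nhdsWithin] with z hz hzt
  have zt : z - t ≠ 0 := sub_ne_zero.2 hzt
  obtain ⟨z1, z2, z3⟩ := hz.self_of_nhds
  have D := ((kext_cot ((kext_hd h z1).sub_const (θ t))
    (by rw [eG]; exact mul_ne_zero zt z3)).const_mul (deriv θ t)).sub
    (kext_cot ((hasDerivAt_id z).sub_const t) (by rw [id, eA]; exact mul_ne_zero zt z2))
  refine ((D.congr_of_eventuallyEq ?_).deriv.trans ?_).symm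
  · filter_upwards [hz, eventually_ne_nhds hzt] with w hw hwt
    have wt : w - t ≠ 0 := sub_ne_zero.2 hwt
    have e := eN w
    simp only [Pi.sub_apply, id]
    rw [eG, eA]
    have w2 := hw.2.1
    have w3 := hw.2.2
    field_simp
    linear_combination -e
  · simp only [kext_K0, id]
    ring

/-- regularisation at isolated points -/
def kext_R (f : ℂ → ℂ) (s : ℂ) : ℂ := limUnder (𝓝[≠] 0) fun h => f (s + h)

theorem kext_reg {f F : ℂ → ℂ} {c : ℂ} (hF : AnalyticAt ℂ F c) (h : f =ᶠ[𝓝[≠] c] F) :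
    kext_R f =ᶠ[𝓝 c] F := by
  have h1 : ∀ᶠ z in 𝓝 c, z ≠ c → f z = F z := eventually_nhdsWithin_iff.1 h
  filter_upwards [h1.eventually_nhds, hF.eventually_analyticAt] with s hs ha
  have t : Tendsto (fun x : ℂ => s + x) (𝓝[≠] 0) (𝓝 s) :=
    ((continuous_const.add continuous_id).tendsto' 0 s (by simp)).mono_left nhdsWithin_le_nhds
  refine ((ha.continuousAt.tendsto.comp t).congr' ?_).limUnder_eq
  have ne : ∀ᶠ x in 𝓝[≠] (0 : ℂ), s + x ≠ c := by
    rcases eq_or_ne s c with rfl | n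
    · filter_upwards [self_mem_nhdsWithin] with x hx using by simpa using hx
    · exact t.eventually (eventually_ne_nhds n)
  filter_upwards [t.eventually hs, ne] with x h1 h2 using (h1 h2).symm

theorem kext_R_congr {f g : ℂ → ℂ} {s t : ℂ} (h : ∀ᶠ x in 𝓝 (0 : ℂ), f (s + x) = g (t + x)) :
    kext_R f s = kext_R g t := by
  unfold kext_R limUnder
  rw [map_congr (h.filter_mono nhdsWithin_le_nhds)]

theorem kext_ball {η r : ℝ} {s : ℂ} (h : |s.im| + r < η) : closedBall s r ⊆ strip η :=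
  fun z hz => by
    have a := (abs_im_le_norm (z - s)).trans (mem_closedBall_iff_norm.1 hz)
    have b := abs_add_le (z - s).im s.im
    rw [sub_im, sub_add_cancel] at b
    rw [sub_im] at a
    show |z.im| < η
    linarith

/-- a bounded function that is holomorphic in each variable is continuous -/
theorem kext_bihol {η C : ℝ} {K : ℂ → ℂ → ℂ}
    (d1 : ∀ t ∈ strip η, DifferentiableOn ℂ (fun s => K s t) (strip η))
    (d2 : ∀ s ∈ strip η, DifferentiableOn ℂ (K s) (strip η))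
    (p1 : ∀ s ∈ strip η, ∀ t ∈ strip η, K (s + 2 * Real.pi) t = K s t)
    (p2 : ∀ s ∈ strip η, ∀ t ∈ strip η, K s (t + 2 * Real.pi) = K s t)
    (bd : ∀ s ∈ strip η, ∀ t ∈ strip η, ‖K s t‖ ≤ C) : BiHol η C K := by
  refine ⟨d1, d2, fun p hp => ?_, p1, p2, bd⟩
  obtain ⟨r, r0, hr⟩ := Metric.isOpen_iff.1 (isOpen_strip η) p.1 hp.1
  have f1 : Tendsto (fun q : ℂ × ℂ => q.1) (𝓝[strip η ×ˢ strip η] p) (𝓝 p.1) :=
    continuous_fst.continuousWithinAt
  have f2 : Tendsto (fun q : ℂ × ℂ => K p.1 q.2) (𝓝[strip η ×ˢ strip η] p) (𝓝 (K p.1 p.2)) :=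
    (((d2 _ hp.1).continuousOn.continuousAt ((isOpen_strip η).mem_nhds hp.2)).comp
      continuous_snd.continuousAt).continuousWithinAt
  refine f2.congr_dist (squeeze_zero' (g := fun q => 2 * C / r * dist q.1 p.1)
    (.of_forall fun _ => dist_nonneg) ?_ ?_)
  · filter_upwards [self_mem_nhdsWithin, f1.eventually (ball_mem_nhds _ r0)] with q hq hb
    rw [dist_comm]
    refine dist_le_div_mul_dist_of_mapsTo_ball (f := fun s => K s q.2)
      ((d1 _ hq.2).mono hr) (fun z hz => ?_) hb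
    rw [mem_closedBall, dist_eq_norm, two_mul]
    exact (norm_sub_le _ _).trans (add_le_add (bd _ (hr hz) _ hq.2) (bd _ hp.1 _ hq.2))
  · simpa using (tendsto_iff_dist_tendsto_zero.1 f1).const_mul (2 * C / r)

/-- a circle that stays away from the lattice -/
theorem kext_circ {η : ℝ} (hη : 0 < η) (h1 : η ≤ 1) (x : ℂ) : ∃ r, 0 < r ∧ r < η / 2 ∧
    ∀ y : ℂ, ‖y‖ = r → ∀ n : ℤ, η / 8 ≤ ‖y + x - n * (2 * Real.pi)‖ := by
  by_cases c : ∀ n : ℤ, η / 4 ≤ ‖x - n * (2 * Real.pi)‖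
  · refine ⟨η / 8, by linarith, by linarith, fun y hy n => ?_⟩
    have := norm_sub_le (y + x - n * (2 * Real.pi)) y
    rw [show y + x - n * (2 * Real.pi) - y = x - n * (2 * Real.pi) by ring] at this
    linarith [c n]
  push Not at c
  obtain ⟨k, hk⟩ := c
  refine ⟨3 * η / 8, by linarith, by linarith, fun y hy n => ?_⟩
  rcases eq_or_ne n k with rfl | nk
  · have := norm_sub_le (y + x - n * (2 * Real.pi)) (x - n * (2 * Real.pi))
    rw [show y + x - n * (2 * Real.pi) - (x - n * (2 * Real.pi)) = y by ring] at this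
    linarith
  · have a := norm_sub_le (y + x - n * (2 * Real.pi)) (y + (x - k * (2 * Real.pi)))
    have b := norm_add_le y (x - k * (2 * Real.pi))
    have k1 : (1 : ℝ) ≤ |((k - n : ℤ) : ℝ)| := by
      exact_mod_cast Int.one_le_abs (sub_ne_zero.2 nk.symm)
    rw [show y + x - n * (2 * Real.pi) - (y + (x - k * (2 * Real.pi))) =
      ((k - n : ℤ) : ℂ) * (2 * Real.pi : ℝ) by push_cast; ring, norm_mul, Complex.norm_intCast,
      norm_real, Real.norm_of_nonneg Real.two_pi_pos.le] at a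
    nlinarith [Real.pi_gt_three]

end StekIso
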