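import Pool.Agent.Lib.MP_fa022d_an.Defs4
import Pool.Agent.Lib.MP_fa022d_an.Four3
import Pool.Agent.Lib.MP_fa022d_an.KExta

open Set Filter Topology Metric BoundedContinuousFunction Complex

noncomputable section
namespace StekIso

theorem CMap.lip {η m M : ℝ} {θ : ℂ → ℂ} (h : CMap η m M θ) {s t : ℂ} (hs : s ∈ strip η)
    (ht : t ∈ strip η) : m * ‖s - t‖ ≤ ‖θ s - θ t‖ ∧ ‖θ s - θ t‖ ≤ M * ‖s - t‖ := by
  obtain ⟨D, e, h1, h2⟩ := kext_dd h hs ht
  rw [e, norm_mul]
  exact ⟨mul_le_mul_of_nonneg_right (h1.trans (re_le_norm D)) (norm_nonneg _),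
    mul_le_mul_of_nonneg_right h2 (norm_nonneg _)⟩

theorem CMap.im_bd {η m M : ℝ} {θ : ℂ → ℂ} (h : CMap η m M θ) {s : ℂ} (hs : s ∈ strip η) :
    (0 ≤ s.im → m * s.im ≤ (θ s).im) ∧ (s.im ≤ 0 → (θ s).im ≤ m * s.im) ∧
      |(θ s).im| ≤ M * |s.im| := by
  obtain ⟨D, e, h1, h2⟩ := kext_dd h hs (kext_real hs s.re)
  have e' : (θ s).im = D.re * s.im := by simpa [h.real] using congrArg Complex.im e
  rw [e', abs_mul]
  exact ⟨fun p => mul_le_mul_of_nonneg_right h1 p, fun p => mul_le_mul_of_nonpos_right h1 p,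
    mul_le_mul_of_nonneg_right ((abs_re_le_norm D).trans h2) (abs_nonneg _)⟩

theorem CMap.conj {η m M : ℝ} {θ : ℂ → ℂ} (h : CMap η m M θ) {s : ℂ} (hs : s ∈ strip η) :
    θ ((starRingEnd ℂ) s) = (starRingEnd ℂ) (θ s) := by
  have cm : ∀ z ∈ strip η, (starRingEnd ℂ) z ∈ strip η := fun z hz => by
    simpa [strip] using hz
  have d : DifferentiableOn ℂ (starRingEnd ℂ ∘ θ ∘ starRingEnd ℂ) (strip η) := fun z hz => by
    have := (kext_hd h (cm z hz)).differentiableAt.conj_conj
    rw [conj_conj] at this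
    exact this.differentiableWithinAt
  have t : Tendsto (fun x : ℝ => (x : ℂ)) (𝓝[≠] 0) (𝓝[≠] 0) :=
    continuous_ofReal.continuousWithinAt.tendsto_nhdsWithin (t := {0}ᶜ)
      (fun x hx => by simpa using hx) |>.mono_right (by simp)
  have e := (d.analyticOnNhd (isOpen_strip η)).eqOn_of_preconnected_of_frequently_eq
    (h.diff.analyticOnNhd (isOpen_strip η)) (kext_convex η).isPreconnected
    (by simpa using kext_real hs 0 : (0 : ℂ) ∈ strip η)
    (t.frequently (Frequently.of_forall fun x => by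
      simp only [Function.comp, conj_ofReal]
      exact conj_eq_iff_im.2 (h.real x)))
  rw [← e hs]
  simp

theorem CMap.mono {η η' m M : ℝ} {θ : ℂ → ℂ} (h : CMap η m M θ) (h' : η' ≤ η) :
    CMap η' m M θ := by
  have sub : strip η' ⊆ strip η := fun s hs => lt_of_lt_of_le hs h'
  exact ⟨h.diff.mono sub, fun s hs => h.per s (sub hs), h.real, fun s hs => h.lo s (sub hs),
    fun s hs => h.hi s (sub hs)⟩

theorem norm_gco_le (i j : Bool) {H : ℂ} (hH : 2 ≤ H.re) (k : ℤ) :
    ‖gco i j H k‖ ≤ 4 * (br k ^ 1 * ex 2 k) := by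
  unfold gco
  by_cases hk : k = 0
  · have a : ‖1 / H‖ ≤ 4 := by
      have := re_le_norm H
      rw [norm_div, norm_one, div_le_iff₀ (by linarith)]
      linarith
    have b : 4 * (br k ^ 1 * ex 2 k) = 4 := by simp [hk, br, ex]
    rw [if_pos hk, b]
    split_ifs
    · exact a
    · rwa [neg_div, norm_neg]
  have p := kext_pow hH k
  have q : ex 2 k ≤ 1 / 2 := by
    have k1 : (1 : ℝ) ≤ |(k : ℝ)| := by exact_mod_cast Int.one_le_abs hk
    have := Real.add_one_le_exp (2 * |(k : ℝ)|)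
    rw [ex, neg_mul, Real.exp_neg, one_div]
    exact inv_anti₀ two_pos (by linarith)
  have x0 := ex_pos 2 k
  have p2 : ‖exp (-H) ^ (2 * k.natAbs)‖ ≤ ex 2 k := by
    rw [two_mul, pow_add, norm_mul]
    nlinarith [norm_nonneg (exp (-H) ^ k.natAbs)]
  have d : 1 / 2 ≤ ‖1 - exp (-H) ^ (2 * k.natAbs)‖ := by
    have := norm_sub_norm_le (1 : ℂ) (exp (-H) ^ (2 * k.natAbs))
    rw [norm_one] at this
    linarith
  have key : ∀ a y : ℂ, ‖a‖ = 2 → ‖y‖ ≤ ex 2 k →
      ‖a * |k| * y / (1 - exp (-H) ^ (2 * k.natAbs))‖ ≤ 4 * (br k ^ 1 * ex 2 k) :=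
    fun a y ha hy => by
      have k0 := abs_nonneg (k : ℝ)
      rw [norm_div, div_le_iff₀ (by linarith), norm_mul, norm_mul, ha, Complex.norm_intCast,
        Int.cast_abs, abs_abs, pow_one, br]
      have u : |(k : ℝ)| * ‖y‖ ≤ (1 + |(k : ℝ)|) * ex 2 k :=
        mul_le_mul (by linarith) hy (norm_nonneg _) (by linarith)
      have v : 0 ≤ (1 + |(k : ℝ)|) * ex 2 k := by positivity
      nlinarith
  rw [if_neg hk]
  split_ifs
  · exact key 2 _ (by simp) p2
  · exact key (-2) _ (by simp) p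

theorem kext_far {η m M : ℝ} {θ : ℂ → ℂ} (h : CMap η m M θ) {s t : ℂ} (hs : s ∈ strip η)
    (ht : t ∈ strip η) (n : ℤ) :
    m * ‖s - t - n * (2 * Real.pi)‖ ≤ ‖θ s - θ t - n * (2 * Real.pi)‖ := by
  have := (h.lip hs (kext_add ht n)).1
  rwa [kext_per h n ht, ← sub_sub, ← sub_sub] at this

theorem kext_off {η m M : ℝ} {θ : ℂ → ℂ} (hm : 0 < m) (h : CMap η m M θ) {s t : ℂ}
    (hs : s ∈ strip η) (ht : t ∈ strip η) (hne : exp (I * s) ≠ exp (I * t)) :
    AnalyticAt ℂ (fun z => kext_K0 θ z t) s := by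
  have a : ∀ n : ℤ, s - t ≠ n * (2 * Real.pi) := fun n e =>
    hne (kext_exp.2 ⟨n, by linear_combination e⟩)
  have b : ∀ n : ℤ, θ s - θ t ≠ n * (2 * Real.pi) := fun n e => by
    have := kext_far h hs ht n
    rw [e, sub_self, norm_zero] at this
    exact absurd this (not_le.2 (mul_pos hm (norm_pos_iff.2 (sub_ne_zero.2 (a n)))))
  have c := kext_an h hs
  exact ((kext_csq_an (kext_sin_ne a)).comp_of_eq (analyticAt_id.sub analyticAt_const) rfl).sub
    ((c.deriv.mul analyticAt_const).mul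
      ((kext_csq_an (kext_sin_ne b)).comp_of_eq (c.sub analyticAt_const) rfl))

/-- the extended kernel -/
def kext_K (θ : ℂ → ℂ) (s t : ℂ) : ℂ := kext_R (fun z => kext_K0 θ z t) s

theorem kext_K_per1 {η m M : ℝ} {θ : ℂ → ℂ} (h : CMap η m M θ) (n : ℤ) {s : ℂ}
    (hs : s ∈ strip η) (t : ℂ) : kext_K θ (s + n * (2 * Real.pi)) t = kext_K θ s t := by
  refine kext_R_congr ?_
  have c : Tendsto (fun x : ℂ => s + x) (𝓝 0) (𝓝 s) :=
    (continuous_const.add continuous_id).tendsto' 0 s (by simp)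
  filter_upwards [c.eventually ((isOpen_strip η).mem_nhds hs)] with x hx
  rw [add_right_comm, kext_K0_per h n hx]

theorem kext_K_per2 {η m M : ℝ} {θ : ℂ → ℂ} (h : CMap η m M θ) (n : ℤ) (s : ℂ) {t : ℂ}
    (ht : t ∈ strip η) : kext_K θ s (t + n * (2 * Real.pi)) = kext_K θ s t :=
  kext_R_congr (.of_forall fun x => by rw [kext_K0_swap, kext_K0_per h n ht, kext_K0_swap])

theorem kext_K_off {η m M : ℝ} {θ : ℂ → ℂ} (hm : 0 < m) (h : CMap η m M θ) {s t : ℂ}
    (hs : s ∈ strip η) (ht : t ∈ strip η) (hne : exp (I * s) ≠ exp (I * t)) :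
    kext_K θ s t = kext_K0 θ s t :=
  (kext_reg (kext_off hm h hs ht hne) EventuallyEq.rfl).self_of_nhds

theorem kext_K_swap {η m M : ℝ} {θ : ℂ → ℂ} (hm : 0 < m) (h : CMap η m M θ) {s t : ℂ}
    (hs : s ∈ strip η) (ht : t ∈ strip η) : kext_K θ s t = kext_K θ t s := by
  by_cases e : exp (I * s) = exp (I * t)
  · obtain ⟨n, rfl⟩ := kext_exp.1 e
    rw [kext_K_per1 h n ht, kext_K_per2 h n t ht]
  · rw [kext_K_off hm h hs ht e, kext_K_off hm h ht hs (Ne.symm e), kext_K0_swap]

theorem kext_K_diff {η m M : ℝ} {θ : ℂ → ℂ} (hm : 0 < m) (h : CMap η m M θ) {t : ℂ}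
    (ht : t ∈ strip η) : DifferentiableOn ℂ (fun s => kext_K θ s t) (strip η) := fun s hs => by
  refine DifferentiableAt.differentiableWithinAt ?_
  by_cases e : exp (I * s) = exp (I * t)
  · obtain ⟨n, hn⟩ := kext_exp.1 e
    obtain ⟨F, hF, eF⟩ := kext_diag hm h hs
    have : (fun z => kext_K θ z t) = fun z => kext_K θ z s :=
      funext fun z => by rw [hn, kext_K_per2 h n z ht]
    rw [this]
    exact hF.differentiableAt.congr_of_eventuallyEq (kext_reg hF eF)
  · have a := kext_off hm h hs ht e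
    exact a.differentiableAt.congr_of_eventuallyEq (kext_reg a EventuallyEq.rfl)

theorem kext_one_le {η m M : ℝ} {θ : ℂ → ℂ} (hη : 0 < η) (h : CMap η m M θ) : 1 ≤ M := by
  have z : (0 : ℂ) ∈ strip η := by simpa [strip] using hη
  have a := (h.lip (kext_add z 1) z).2
  rw [kext_per h 1 z, add_sub_cancel_left, add_sub_cancel_left] at a
  exact (le_mul_iff_one_le_left (by simp)).1 a

theorem kext_im {η m M : ℝ} {θ θ' : ℂ → ℂ} (hM : M * η ≤ 1 / 2) (h : CMap η m M θ)
    (h' : CMap η m M θ') {s t : ℂ} (hs : s ∈ strip η) (ht : t ∈ strip η) :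
    |(θ s - θ' t).im| ≤ 1 := by
  have M0 : 0 ≤ M := (norm_nonneg _).trans (h.hi s hs)
  have a := (h.im_bd hs).2.2.trans (mul_le_mul_of_nonneg_left (le_of_lt hs) M0)
  have b := (h'.im_bd ht).2.2.trans (mul_le_mul_of_nonneg_left (le_of_lt ht) M0)
  have := abs_sub (θ s).im (θ' t).im
  rw [sub_im]
  linarith

/-- the disc part extends across the diagonal (removable singularities, maximum principle on
circles of fixed radius) -/
theorem kerExt_disc {η m M : ℝ} (hη : 0 < η) (hm : 0 < m) (hM : M * η ≤ 1 / 2) :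
    ∃ C, ∀ θ : ℂ → ℂ, CMap η m M θ → ∃ K, BiHol (η / 2) C K ∧
      ∀ s ∈ strip (η / 2), ∀ t ∈ strip (η / 2), exp (I * s) ≠ exp (I * t) →
        K s t = csq (s - t) - deriv θ s * deriv θ t * csq (θ s - θ t) := by
  obtain ⟨C1, hC1⟩ := kext_csq_bd (show 0 < η / 8 by positivity)
  obtain ⟨C2, hC2⟩ := kext_csq_bd (show 0 < m * (η / 8) by positivity)
  have sub : strip (η / 2) ⊆ strip η := fun s hs => lt_of_lt_of_le hs (half_le_self hη.le)
  refine ⟨C1 + M * M * C2, fun θ h => ⟨kext_K θ, kext_bihol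
    (fun t ht => (kext_K_diff hm h (sub ht)).mono sub)
    (fun s hs => ((kext_K_diff hm h (sub hs)).mono sub).congr fun t ht =>
      kext_K_swap hm h (sub hs) (sub ht))
    (fun s hs t _ => by simpa using kext_K_per1 h 1 (sub hs) t)
    (fun s _ t ht => by simpa using kext_K_per2 h 1 s (sub ht)) fun s hs t ht => ?_,
    fun s hs t ht e => kext_K_off hm h (sub hs) (sub ht) e⟩⟩
  have M1 := kext_one_le hη h
  have η1 : η ≤ 1 / 2 := by nlinarith
  obtain ⟨r, r0, r1, hr⟩ := kext_circ hη (by linarith) (s - t)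
  have hb : closedBall s r ⊆ strip η := kext_ball (by have : |s.im| < η / 2 := hs; linarith)
  refine norm_le_of_forall_mem_frontier_norm_le (f := fun z => kext_K θ z t)
    (U := ball s r) isBounded_ball
    (((kext_K_diff hm h (sub ht)).mono (closure_ball_subset_closedBall.trans hb)).diffContOnCl)
    (fun z hz => ?_) (subset_closure (mem_ball_self r0))
  have hz' := frontier_ball_subset_sphere hz
  have zs := hb (sphere_subset_closedBall hz')
  have far : ∀ n : ℤ, η / 8 ≤ ‖z - t - n * (2 * Real.pi)‖ := fun n => by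
    simpa using hr (z - s) (mem_sphere_iff_norm.1 hz') n
  have ne : exp (I * z) ≠ exp (I * t) := fun e => by
    obtain ⟨n, hn⟩ := kext_exp.1 e
    have := far n
    rw [hn, add_sub_cancel_left, sub_self, norm_zero] at this
    linarith
  have a := hC1 (z - t) (by
    have a : |z.im| < η := zs
    have b : |t.im| < η := sub ht
    have := abs_sub z.im t.im
    rw [sub_im]
    linarith) far
  have b := hC2 (θ z - θ t) (kext_im hM h h zs (sub ht)) fun n =>
    (mul_le_mul_of_nonneg_left (far n) hm.le).trans (kext_far h zs (sub ht) n)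
  rw [kext_K_off hm h zs (sub ht) ne, kext_K0]
  refine (norm_sub_le _ _).trans (add_le_add a ?_)
  rw [norm_mul, norm_mul]
  exact mul_le_mul (mul_le_mul (h.hi _ zs) (h.hi _ (sub ht)) (norm_nonneg _) (by linarith)) b
    (norm_nonneg _) (by positivity)

theorem kerExt {η m M : ℝ} (hη : 0 < η) (hm : 0 < m) (hM : M * η ≤ 1 / 2) :
    ∃ C, ∀ θ : Bool → ℂ → ℂ, (∀ j, CMap η m M (θ j)) → ∀ H : ℂ, 2 ≤ H.re → ∀ i j,
      ∃ K, BiHol (η / 2) C K ∧ ∀ s ∈ strip (η / 2), ∀ t ∈ strip (η / 2),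
        (i ≠ j ∨ exp (I * s) ≠ exp (I * t)) → K s t = kerF θ H i j s t := by
  obtain ⟨C, hC⟩ := kerExt_disc hη hm hM
  obtain ⟨K1, -, hK1⟩ := fs_ex_bound (η := 2) (η' := 1) zero_le_one one_lt_two 1
  obtain ⟨K2, -, hK2⟩ := br_pow_ex_le (η := 2) (η' := 3 / 2) (by norm_num) 1
  have sub : strip (η / 2) ⊆ strip η := fun s hs => lt_of_lt_of_le hs (half_le_self hη.le)
  refine ⟨(M * M * (K1 * 4) / 2 + C) / Real.pi, fun θ h H hH i j => ?_⟩
  obtain ⟨K, hK, eK⟩ := hC _ (h i)
  obtain ⟨fd, -, fp⟩ := fs_diff (c := gco i j H) (η := 3 / 2) (C := 4 * K2) (by norm_num)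
    fun k => (norm_gco_le i j hH k).trans (by
      rw [mul_assoc]; exact mul_le_mul_of_nonneg_left (hK2 k) (by norm_num))
  have im := fun s (hs : s ∈ strip (η / 2)) t (ht : t ∈ strip (η / 2)) =>
    kext_im hM (h i) (h j) (sub hs) (sub ht)
  have fa : ∀ s ∈ strip (η / 2), ∀ t ∈ strip (η / 2),
      DifferentiableAt ℂ (fs (gco i j H)) (θ i s - θ j t) := fun s hs t ht =>
    fd.differentiableAt ((isOpen_strip _).mem_nhds ((im s hs t ht).trans_lt (by norm_num)))
  have z : (0 : ℂ) ∈ strip (η / 2) := by simpa [strip] using hη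
  have C0 : 0 ≤ C := (norm_nonneg _).trans (hK.bd 0 z 0 z)
  refine ⟨fun s t => (deriv (θ i) s * deriv (θ j) t * (fs (gco i j H) (θ i s - θ j t) / 2) +
    if i = j then K s t else 0) / Real.pi,
    kext_bihol (fun t ht s hs => ?_) (fun s hs t ht => ?_) (fun s hs t ht => ?_)
      (fun s hs t ht => ?_) fun s hs t ht => ?_, fun s hs t ht e => ?_⟩
  · have a := kext_an (h i) (sub hs)
    refine (DifferentiableWithinAt.add (DifferentiableAt.differentiableWithinAt
      ((a.deriv.differentiableAt.mul_const _).mul (((fa s hs t ht).comp s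
        (a.differentiableAt.sub_const _)).div_const 2))) ?_).div_const _
    split_ifs
    · exact hK.d1 t ht s hs
    · exact differentiableWithinAt_const _
  · have a := kext_an (h j) (sub ht)
    refine (DifferentiableWithinAt.add (DifferentiableAt.differentiableWithinAt
      ((a.deriv.differentiableAt.const_mul _).mul (((fa s hs t ht).comp t
        (a.differentiableAt.const_sub _)).div_const 2))) ?_).div_const _
    split_ifs
    · exact hK.d2 s hs t ht
    · exact differentiableWithinAt_const _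
  · have a : deriv (θ i) (s + 2 * Real.pi) = deriv (θ i) s := by
      simpa using kext_dper (h i) 1 (sub hs)
    rw [a, (h i).per s (sub hs), add_sub_right_comm, fp, hK.p1 s hs t ht]
  · have a : deriv (θ j) (t + 2 * Real.pi) = deriv (θ j) t := by
      simpa using kext_dper (h j) 1 (sub ht)
    rw [a, (h j).per t (sub ht), ← sub_sub, ← fp (θ i s - θ j t - 2 * Real.pi), sub_add_cancel,
      hK.p2 s hs t ht]
  · have M0 : 0 ≤ M := (norm_nonneg _).trans ((h i).hi s (sub hs))
    rw [norm_div, norm_real, Real.norm_of_nonneg Real.pi_pos.le]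
    refine div_le_div_of_nonneg_right ((norm_add_le _ _).trans (add_le_add ?_ ?_)) Real.pi_pos.le
    · rw [norm_mul, norm_mul, norm_div, Complex.norm_ofNat, mul_div_assoc]
      exact mul_le_mul (mul_le_mul ((h i).hi _ (sub hs)) ((h j).hi _ (sub ht)) (norm_nonneg _) M0)
        (div_le_div_of_nonneg_right (hK1 _ 4 (norm_gco_le i j hH) _ (im s hs t ht)).2 two_pos.le)
        (by positivity) (by positivity)
    · split_ifs
      · exact hK.bd s hs t ht
      · rwa [norm_zero]
  · beta_reduce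
    rw [kerF, QQ, qf]
    rcases eq_or_ne i j with rfl | ne
    · rw [if_pos rfl, if_pos rfl, if_pos rfl, eK s hs t ht (e.resolve_left fun a => a rfl)]
      ring
    · rw [if_neg ne, if_neg ne, if_neg ne, sub_zero]

end StekIso
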