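import Pool.Agent.Lib.MP_fa022d_an.KerA
import Pool.Agent.Lib.MP_fa022d_an.KerB
import Pool.Agent.Lib.MP_fa022d_an.KExt

open Set Filter Topology Metric BoundedContinuousFunction Complex

noncomputable section
namespace StekIso

theorem kerf_beta (η : ℝ) (k : ℤ) : beta η k ≤ ex η k :=
  div_le_self (ex_pos _ _).le (one_le_pow₀ (one_le_br k))

theorem kerf_ex {η : Pos} (u : A1 η) (k : ℤ) : ‖u.coeff k‖ ≤ ‖u‖ / 128 * ex η.1 k :=
  (norm_coeff1_le u k).trans (mul_le_mul_of_nonneg_left (kerf_beta _ _) (by positivity))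

theorem kerf_mM (B : Base) : B.m ≤ B.M := by
  have h0 : (0 : ℂ) ∈ strip B.η0 := by simpa [strip] using B.η0_pos
  exact ((B.cm true).lo 0 h0).trans ((re_le_norm _).trans ((B.cm true).hi 0 h0))

theorem kerf_small {B : Base} {η : Pos} {v : V η} (hv : ‖v‖ < δK B η) (j : Bool) :
    ‖v j‖ ≤ η.1 / 2 ∧ ‖v j‖ ≤ 1 ∧ B.M * ‖v j‖ ≤ B.m := by
  have h := (norm_le_pi_norm v j).trans hv.le
  have hM : 0 < B.M := B.m_pos.trans_le (kerf_mM B)
  simp only [δK, le_min_iff] at h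
  refine ⟨h.1, h.2.1.trans ?_, ?_⟩
  · exact (div_le_one (by linarith [one_le_K2 η])).2 (one_le_K2 η)
  · have := (le_div_iff₀ hM).1 h.2.2
    linarith

theorem kerf_fs {η : Pos} (u : A1 η) {s : ℂ} (hs : s ∈ strip η.1) :
    ‖fs u.coeff s‖ ≤ ‖u‖ / 32 ∧ ‖fs (dS u.coeff) s‖ ≤ ‖u‖ / 32 := by
  have h := fs_beta_bound η.2 (norm_coeff1_le u) (le_of_lt hs)
  exact ⟨by linarith [h.1], by linarith [h.2.1]⟩

theorem kerf_mem {B : Base} {η : Pos} (hη : 12 * η.1 ≤ B.η0) {v : V η} (hv : ‖v‖ < δK B η)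
    (j : Bool) {s : ℂ} (hs : s ∈ strip η.1) : s + fs (v j).coeff s ∈ strip (B.η0 / 6) := by
  have h1 := (kerf_fs (v j) hs).1
  have h2 := (kerf_small hv j).1
  have h3 := abs_im_le_norm (fs (v j).coeff s)
  have h4 : |s.im| < η.1 := hs
  have h5 := η.2
  show |(s + fs (v j).coeff s).im| < B.η0 / 6
  rw [add_im]
  linarith [abs_add_le s.im (fs (v j).coeff s).im]

theorem kerf_sub (B : Base) {s : ℂ} (hs : s ∈ strip (B.η0 / 6)) : s ∈ strip B.η0 := by
  have h : |s.im| < B.η0 / 6 := hs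
  have := B.η0_pos
  show |s.im| < B.η0
  linarith

theorem kerf_hd {B : Base} {η : Pos} (hη : 12 * η.1 ≤ B.η0) {v : V η} (hv : ‖v‖ < δK B η)
    (j : Bool) {s : ℂ} (hs : s ∈ strip η.1) : HasDerivAt (thOf B v j)
      (deriv (B.θ j) (s + fs (v j).coeff s) * (1 + fs (dS (v j).coeff) s)) s := by
  have h1 := ((B.cm j).diff.differentiableAt
    ((isOpen_strip _).mem_nhds (kerf_sub B (kerf_mem hη hv j hs)))).hasDerivAt
  have h2 := (hasDerivAt_id s).add ((fs_diff η.2 (kerf_ex (v j))).2.1 s hs)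
  exact HasDerivAt.comp (h₂ := B.θ j) (h := fun s => s + fs (v j).coeff s) s h1 h2

/-- pointwise facts on the perturbed circle maps, also for complex perturbations -/
theorem thOf_basic {B : Base} {η : Pos} (hη : 12 * η.1 ≤ B.η0) (v : V η) (hv : ‖v‖ < δK B η)
    (j : Bool) : DifferentiableOn ℂ (thOf B v j) (strip η.1) ∧ ∀ s ∈ strip η.1,
      s + fs (v j).coeff s ∈ strip (B.η0 / 6) ∧
      deriv (thOf B v j) s = deriv (B.θ j) (s + fs (v j).coeff s) * (1 + fs (dS (v j).coeff) s) ∧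
      B.m / 2 ≤ (deriv (thOf B v j) s).re ∧ ‖deriv (thOf B v j) s‖ ≤ 2 * B.M ∧
      thOf B v j (s + 2 * Real.pi) = thOf B v j s + 2 * Real.pi := by
  refine ⟨fun s hs => (kerf_hd hη hv j hs).differentiableAt.differentiableWithinAt,
    fun s hs => ?_⟩
  have hp := kerf_mem hη hv j hs
  have hp' := kerf_sub B hp
  have hd := (kerf_hd hη hv j hs).deriv
  have lo := (B.cm j).lo _ hp'
  have hi := (B.cm j).hi _ hp'
  have hu := (kerf_fs (v j) hs).2
  obtain ⟨-, s1, s2⟩ := kerf_small hv j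
  have hm := B.m_pos
  have hM := kerf_mM B
  have hpr : ‖deriv (B.θ j) (s + fs (v j).coeff s) * fs (dS (v j).coeff) s‖ ≤
      B.M * (‖v j‖ / 32) := by
    rw [norm_mul]; exact mul_le_mul hi hu (norm_nonneg _) (by linarith)
  refine ⟨hp, hd, ?_, ?_, ?_⟩
  · rw [hd, mul_add, mul_one, add_re]
    have := (abs_le.1 ((abs_re_le_norm _).trans hpr)).1
    linarith
  · rw [hd, mul_add, mul_one]
    refine (norm_add_le _ _).trans ?_
    linarith
  · unfold thOf
    rw [(fs_diff η.2 (kerf_ex (v j))).2.2 s, add_right_comm, (B.cm j).per _ hp']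

theorem thOf_cmap {B : Base} {η : Pos} (hη : 12 * η.1 ≤ B.η0) :
    ∀ v : V η, ‖v‖ < δK B η → RealV v → ∀ j, CMap η.1 (B.m / 2) (2 * B.M) (thOf B v j) := by
  intro v hv hr j
  obtain ⟨h1, h2⟩ := thOf_basic hη v hv j
  refine ⟨h1, fun s hs => (h2 s hs).2.2.2.2, fun s => ?_, fun s hs => (h2 s hs).2.2.1,
    fun s hs => (h2 s hs).2.2.2.1⟩
  have h := fs_real (hr j) s
  have e : (s : ℂ) + fs (v j).coeff s = ((s + (fs (v j).coeff s).re : ℝ) : ℂ) :=
    Complex.ext (by simp) (by simp [h])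
  unfold thOf
  rw [e]
  exact (B.cm j).real _

theorem kerf_summ {η : Pos} (u : A1 η) :
    Summable fun k : ℤ => ‖u.coeff k‖ * ex (-(η.1 / 2)) k := by
  have h := (summable_ex (half_pos η.2) 0).mul_left (‖u‖ / 128)
  refine Summable.of_nonneg_of_le (fun k => mul_nonneg (norm_nonneg _) (ex_pos _ _).le)
    (fun k => ?_) h
  refine (mul_le_mul_of_nonneg_right (kerf_ex u k) (ex_pos _ _).le).trans (le_of_eq ?_)
  rw [mul_assoc, four2_ex, pow_zero, one_mul]
  congr 2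
  ring

theorem kerf_sn {η : Pos} (w : V η) (j : Bool) :
    ∑' k : ℤ, ‖(w j).coeff k‖ * ex (-(η.1 / 2)) k ≤ sn w := by
  have nn : ∀ b : Idx, 0 ≤ ‖(w b.1).coeff b.2‖ * ex (-(η.1 / 2)) b.2 := fun b =>
    mul_nonneg (norm_nonneg _) (ex_pos _ _).le
  have hs : Summable fun b : Idx => ‖(w b.1).coeff b.2‖ * ex (-(η.1 / 2)) b.2 :=
    (summable_prod_of_nonneg nn).2 ⟨fun i => kerf_summ (w i), Summable.of_finite⟩
  exact Summable.tsum_le_tsum_of_inj (fun k => (j, k)) (fun a b h => (Prod.ext_iff.1 h).2)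
    (fun b _ => nn b) (fun k => le_rfl) (kerf_summ (w j)) hs

theorem kerf_term {η : Pos} (u : A1 η) {s : ℂ} (hs : s ∈ strip (η.1 / 2)) (k : ℤ) :
    ‖u.coeff k * exp (I * k * s)‖ ≤ ‖u.coeff k‖ * ex (-(η.1 / 2)) k := by
  rw [norm_mul]
  exact mul_le_mul_of_nonneg_left (four2_exp (le_of_lt hs) k) (norm_nonneg _)

theorem thOf_lip {B : Base} {η : Pos} (hη : 12 * η.1 ≤ B.η0) :
    ∀ v v' : V η, ‖v‖ < δK B η → ‖v'‖ < δK B η → ∀ j, ∀ s ∈ strip (η.1 / 2),
      ‖thOf B v j s - thOf B v' j s‖ ≤ B.M * sn (v - v') := by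
  intro v v' hv hv' j s hs
  have hs' : s ∈ strip η.1 := by
    have h : |s.im| < η.1 / 2 := hs
    have := η.2
    show |s.im| < η.1
    linarith
  have h := ((B.cm j).lip (kerf_sub B (kerf_mem hη hv j hs'))
    (kerf_sub B (kerf_mem hη hv' j hs'))).2
  refine h.trans (mul_le_mul_of_nonneg_left ?_ (B.m_pos.le.trans (kerf_mM B)))
  have su : ∀ u : A1 η, Summable fun k : ℤ => u.coeff k * exp (I * k * s) := fun u =>
    Summable.of_norm_bounded (kerf_summ u) (kerf_term u hs)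
  have e : s + fs (v j).coeff s - (s + fs (v' j).coeff s) = fs ((v - v') j).coeff s := by
    rw [add_sub_add_left_eq_sub, fs, fs, fs, ← (su _).tsum_sub (su _)]
    refine tsum_congr fun k => ?_
    rw [Pi.sub_apply, WAlg.coeff_sub]; ring
  rw [e]
  exact (tsum_of_norm_bounded (kerf_summ _).hasSum (kerf_term _ hs)).trans (kerf_sn _ j)

theorem thOf_zero (B : Base) (η : Pos) : thOf B (0 : V η) = B.θ := by
  funext j s
  simp [thOf, fs]

end StekIso
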