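import Pool.Agent.Lib.MP_fa022d_an.Top1
import Pool.Agent.Lib.MP_fa022d_an.Four2

open Set Filter Topology Metric BoundedContinuousFunction Complex

noncomputable section
namespace StekIso

theorem linkc_ud {H : ℝ} (hH : 0 < H) : UniqueDiffOn ℝ (cann H) := by
  intro z hz
  have q0 := Real.exp_pos (-H)
  have q1 : Real.exp (-H) < 1 := Real.exp_lt_one_iff.2 (by linarith)
  have z0 : 0 < ‖z‖ := q0.trans_le hz.1
  obtain ⟨m, hm⟩ : ∃ m : ℝ, m = (1 + Real.exp (-H)) / 2 := ⟨_, rfl⟩
  obtain ⟨c, hc⟩ : ∃ c : ℂ, c = (m / ‖z‖) • z := ⟨_, rfl⟩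
  have c1 : ‖c‖ = m := by
    rw [hc, norm_smul, Real.norm_of_nonneg (by rw [hm]; positivity), div_mul_cancel₀ _ z0.ne']
  have c2 : ‖z - c‖ = |‖z‖ - m| := by
    have : z - c = ((‖z‖ - m) / ‖z‖) • z := by
      rw [hc, sub_div, div_self z0.ne', sub_smul, one_smul]
    rw [this, norm_smul, Real.norm_eq_abs, abs_div, abs_of_pos z0, div_mul_cancel₀ _ z0.ne']
  refine (uniqueDiffOn_convex (convex_closedBall c (1 - m)) ⟨c, mem_interior_iff_mem_nhds.2
    (closedBall_mem_nhds c (by linarith))⟩ z ?_).mono fun w hw => ?_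
  · rw [mem_closedBall_iff_norm, c2, abs_le]
    constructor <;> linarith [hz.1, hz.2]
  · have := abs_le.1 ((abs_norm_sub_norm_le w c).trans (mem_closedBall_iff_norm.1 hw))
    constructor <;> linarith [this.1, this.2]

theorem linkc_norm (s : ℂ) : ‖exp (I * s)‖ = Real.exp (-s.im) := by
  rw [norm_exp]; simp

theorem linkc_pt (x y : ℝ) : exp (I * (x + I * y)) = (Real.exp (-y) : ℝ) * exp (I * x) := by
  rw [ofReal_exp, ← exp_add]
  congr 1
  push_cast
  linear_combination (y : ℂ) * I_mul_I

theorem linkc_mem {H : ℝ} {s : ℂ} (hs : s.im ∈ Icc 0 H) : exp (I * s) ∈ cann H := by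
  constructor <;> rw [linkc_norm]
  · exact Real.exp_le_exp.2 (neg_le_neg hs.2)
  · exact Real.exp_le_one_iff.2 (neg_nonpos.2 hs.1)

theorem linkc_mem' {H δ : ℝ} {s : ℂ} (hs : s.im ∈ Ioo (-δ) (H + δ)) : exp (I * s) ∈ ann H δ := by
  constructor <;> rw [linkc_norm] <;> refine Real.exp_lt_exp.2 ?_ <;> linarith [hs.1, hs.2]

theorem linkc_per (s : ℂ) : exp (I * (s + 2 * Real.pi)) = exp (I * s) := by
  simpa using four2_per 1 s

theorem linkc_shift {f : ℂ → ℂ} {y : ℝ} (hy : 0 ≤ y) (hc : ContinuousOn f {s | s.im ∈ Icc 0 y})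
    (hf : DifferentiableOn ℂ f {s | s.im ∈ Ioo 0 y}) (hp : ∀ s, f (s + 2 * Real.pi) = f s) (k : ℤ) :
    fc (fun s => f s) k = exp (k * y) * fc (fun s => f (s + I * y)) k := by
  have h := integral_boundary_rect_eq_zero_of_continuousOn_of_differentiableOn
    (fun s => f s * exp (-(I * k * s))) 0 ⟨2 * Real.pi, y⟩
    ((hc.mono fun s hs => by simpa [uIcc_of_le hy] using hs.2).mul (by fun_prop))
    ((hf.mono fun s hs => by simpa [hy] using hs.2).mul (by fun_prop))
  have v : (∫ t : ℝ in (0 : ℝ)..y, f (((2 * Real.pi : ℝ) : ℂ) + t * I) *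
      exp (-(I * k * (((2 * Real.pi : ℝ) : ℂ) + t * I)))) =
      ∫ t : ℝ in (0 : ℝ)..y, f (((0 : ℝ) : ℂ) + t * I) * exp (-(I * k * (((0 : ℝ) : ℂ) + t * I))) := by
    refine intervalIntegral.integral_congr fun t _ => ?_
    have e : ((2 * Real.pi : ℝ) : ℂ) + t * I = (((0 : ℝ) : ℂ) + t * I) + 2 * Real.pi := by
      push_cast; ring
    simp only [e]
    rw [four1_per, hp]
  simp only [zero_re, zero_im] at h
  rw [v, add_sub_cancel_right, sub_eq_zero] at h
  simp only [ofReal_zero, zero_mul, add_zero] at h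
  simp only [fc]
  rw [h, mul_left_comm, ← intervalIntegral.integral_const_mul (exp (k * y))]
  congr 1
  refine intervalIntegral.integral_congr fun x _ => ?_
  have e : -(I * k * (x + y * I)) = (k * y : ℂ) + -(I * k * x) := by
    linear_combination (-(k : ℂ) * y) * I_mul_I
  simp only [e]
  rw [exp_add, mul_comm (y : ℂ) I]
  ring

theorem linkc_lin {f g : ℝ → ℂ} (hf : Continuous f) (hg : Continuous g) (a : ℂ) (k : ℤ) :
    fc (fun s => f s + a * g s) k = fc f k + a * fc g k := by
  have e : ∀ s : ℝ, (f s + a * g s) * exp (-(I * k * s)) =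
      f s * exp (-(I * k * s)) + a * (g s * exp (-(I * k * s))) := fun s => by ring
  simp only [fc, e]
  rw [intervalIntegral.integral_add (Continuous.intervalIntegrable (by fun_prop) _ _)
    (Continuous.intervalIntegrable (by fun_prop) _ _), intervalIntegral.integral_const_mul]
  ring

theorem linkc_real (f : ℝ → ℝ) (k : ℤ) :
    (starRingEnd ℂ) (fc (fun s => (f s : ℂ)) (-k)) = fc (fun s => (f s : ℂ)) k := by
  rw [← fc_conj]; simp only [conj_ofReal]

theorem linkc_zg (D : ℂ →L[ℝ] ℝ) (z : ℂ) :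
    z * ((D 1 : ℝ) - I * (D I : ℝ)) = (D z : ℝ) + -I * (D (z * I) : ℝ) := by
  have h : ∀ w : ℂ, D w = w.re * D 1 + w.im * D I := fun w => by
    conv_lhs => rw [show w = w.re • (1 : ℂ) + w.im • I by simp]
    rw [map_add, map_smul, map_smul]; rfl
  rw [h z, h (z * I)]
  apply Complex.ext <;> simp

theorem linkc_alg {H : ℝ} (hH : 0 < H) {k : ℤ} (hk : k ≠ 0) {A B a b : ℂ}
    (h1 : A + k * a = exp (k * H) * (B + k * b))
    (h2 : A - k * a = exp (-(k * H)) * (B - k * b)) :
    A = (((|k| : ℤ) : ℂ) + gco true true H k) * a + gco true false H k * b ∧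
      -B = (((|k| : ℤ) : ℂ) + gco false false H k) * b + gco false true H k * a := by
  have hq : ‖exp (-(H : ℂ)) ^ k.natAbs‖ < 1 := by
    rw [norm_pow, norm_exp]
    exact pow_lt_one₀ (Real.exp_pos _).le (Real.exp_lt_one_iff.2 (by simpa using hH))
      (Int.natAbs_ne_zero.2 hk)
  obtain ⟨q, hqd⟩ : ∃ q, q = exp (-(H : ℂ)) ^ k.natAbs := ⟨_, rfl⟩
  have q0 : q ≠ 0 := hqd ▸ pow_ne_zero _ (exp_ne_zero _)
  have q1 : 1 - q ^ 2 ≠ 0 := fun e => by
    have := congrArg norm (sub_eq_zero.1 e)
    rw [norm_pow, norm_one, hqd] at this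
    nlinarith [norm_nonneg (exp (-(H : ℂ)) ^ k.natAbs)]
  simp only [gco, hk, if_false, if_true, Bool.true_eq_false, Bool.false_eq_true, pow_mul', ← hqd]
  rw [← exp_nat_mul] at hqd
  rcases Int.natAbs_eq k with e | e
  · have e' : (k : ℂ) = k.natAbs := (congrArg Int.cast e).trans (Int.cast_natCast _)
    rw [abs_of_nonneg (by omega)]
    have : exp (-(k * H : ℂ)) = q := by rw [hqd, ← e']; congr 1; ring
    rw [this] at h2
    rw [show exp (k * H : ℂ) = q⁻¹ by rw [← this, exp_neg, inv_inv]] at h1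
    field_simp at h1 ⊢
    exact ⟨by linear_combination -q * h1 + h2, by linear_combination h1 - q * h2⟩
  · have e' : (k : ℂ) = -k.natAbs := by exact_mod_cast e
    rw [abs_of_nonpos (by omega)]
    have : exp (k * H : ℂ) = q := by rw [hqd, e']; congr 1; ring
    rw [exp_neg, this] at h2
    rw [this] at h1
    push_cast
    field_simp at h2 ⊢
    exact ⟨by linear_combination -q * h2 + h1, by linear_combination h2 - q * h1⟩

theorem linkc_bd {H b t : ℝ} (hH : 1 ≤ H) {k : ℤ} (hk : k ≠ 0) (t0 : 0 < t)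
    (h1 : Real.exp (-H - b) < t) (h2 : t < Real.exp b) :
    0 < |(Real.exp (k * H))⁻¹ - Real.exp (k * H)| ∧ (1 + Real.exp (k * H)) * t ^ k ≤
      4 * ex (-b) k * |(Real.exp (k * H))⁻¹ - Real.exp (k * H)| := by
  have key : ∀ F : ℝ, 2 ≤ F → 0 < F - F⁻¹ ∧ 1 + F ≤ 4 * (F - F⁻¹) := fun F hF => by
    have : F⁻¹ ≤ 2⁻¹ := inv_anti₀ two_pos hF
    constructor <;> linarith
  have e : t ^ k = Real.exp (k * Real.log t) := by
    rw [← Real.log_zpow, Real.exp_log (zpow_pos t0 k)]
  have l1 : -H - b < Real.log t := (Real.lt_log_iff_exp_lt t0).2 h1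
  have l2 : Real.log t < b := (Real.log_lt_iff_lt_exp t0).2 h2
  rw [e, ex, neg_neg]
  rcases lt_or_gt_of_ne hk with c | c
  · have c' : (k : ℝ) ≤ -1 := by exact_mod_cast (show k ≤ -1 by omega)
    have a1 := Real.add_one_le_exp (-(k * H))
    rw [Real.exp_neg] at a1
    obtain ⟨a2, a3⟩ := key (Real.exp (k * H))⁻¹ (by nlinarith)
    rw [inv_inv] at a2 a3
    rw [abs_of_pos a2, abs_of_neg (by linarith)]
    have a4 : Real.exp (k * Real.log t) ≤ (Real.exp (k * H))⁻¹ * Real.exp (b * -k) := by
      rw [← Real.exp_neg, ← Real.exp_add]; exact Real.exp_le_exp.2 (by nlinarith)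
    have a5 := mul_inv_cancel₀ (Real.exp_pos (k * H)).ne'
    have a6 := Real.exp_pos (b * -k)
    refine ⟨a2, (mul_le_mul_of_nonneg_left a4 (by positivity)).trans ?_⟩
    rw [← mul_assoc, add_mul, a5]
    nlinarith
  · have c' : (1 : ℝ) ≤ k := by exact_mod_cast (show 1 ≤ k by omega)
    have a1 := Real.add_one_le_exp (k * H)
    obtain ⟨a2, a3⟩ := key (Real.exp (k * H)) (by nlinarith)
    rw [abs_sub_comm, abs_of_pos a2, abs_of_pos (by linarith)]
    have a4 : Real.exp (k * Real.log t) ≤ Real.exp (b * k) := Real.exp_le_exp.2 (by nlinarith)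
    have a6 := Real.exp_pos (b * k)
    refine ⟨a2, (mul_le_mul_of_nonneg_left a4 (by positivity)).trans ?_⟩
    nlinarith

/-- Cauchy data of a function harmonic in the annulus and `C¹` up to the boundary.
`g = U_x - i U_y` is holomorphic inside and continuous on the closed annulus, the circle integrals
of `g z^k` do not depend on the radius, `z g = r U_r - i U_x` on `z = r exp (i x)`; for `k = 0`
integrate the mean of `U` in `r`. -/
theorem harmonic_modes {H : ℝ} (hH : 0 < H) {U : ℂ → ℝ} (hU : ContDiffOn ℝ 1 U (cann H))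
    (hh : InnerProductSpace.HarmonicOnNhd U (ann H 0)) (i : Bool) (k : ℤ) :
    fc (fun x => ((if i then 1 else -1) * fderivWithin ℝ U (cann H) (rad H i * exp (I * x))
        (rad H i * exp (I * x)) : ℝ)) k =
      ∑ j, ((if i = j then (|k| : ℤ) else 0) + gco i j H k) *
        fc (fun x => U (rad H j * exp (I * x))) k := by
  have hu := linkc_ud hH
  obtain ⟨D, hD⟩ : ∃ D, D = fderivWithin ℝ U (cann H) := ⟨_, rfl⟩
  have cD : ContinuousOn D (cann H) := hD ▸ hU.continuousOn_fderivWithin hu le_rfl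
  have dU : ∀ z ∈ cann H, HasFDerivWithinAt U (D z) (cann H) z := fun z hz =>
    hD ▸ (hU.differentiableOn one_ne_zero z hz).hasFDerivWithinAt
  let P : ℝ → ℝ → ℂ := fun y x => exp (I * (x + I * y))
  have mP : ∀ y ∈ Icc 0 H, ∀ x, P y x ∈ cann H := fun y hy x => linkc_mem (by simpa using hy)
  have cP : ∀ y, Continuous (P y) := fun y => by fun_prop
  let F : ℂ → ℂ := fun s => exp (I * s) * ((D (exp (I * s)) 1 : ℝ) - I * (D (exp (I * s)) I : ℝ))
  have cD' : ContinuousOn (fun s => D (exp (I * s))) {s | s.im ∈ Icc 0 H} :=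
    cD.comp (by fun_prop) fun s hs => linkc_mem hs
  have cF : ContinuousOn F {s | s.im ∈ Icc 0 H} :=
    (by fun_prop : ContinuousOn (fun s : ℂ => exp (I * s)) _).mul
      ((continuous_ofReal.comp_continuousOn (cD'.clm_apply continuousOn_const)).sub
        (continuousOn_const.mul
          (continuous_ofReal.comp_continuousOn (cD'.clm_apply continuousOn_const))))
  have dF : DifferentiableOn ℂ F {s | s.im ∈ Ioo 0 H} := fun s hs => by
    have m : exp (I * s) ∈ ann H 0 := linkc_mem' (by simpa using hs)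
    have h1 := HarmonicAt.differentiableAt_complex_partial (hh _ m)
    have h2 : DifferentiableAt ℂ (fun z => ((D z 1 : ℝ) : ℂ) - I * (D z I : ℝ)) (exp (I * s)) := by
      refine h1.congr_of_eventuallyEq ?_
      filter_upwards [(isOpen_ann H 0).eventually_mem m] with z hz
      have : cann H ∈ 𝓝 z := mem_of_superset ((isOpen_ann H 0).mem_nhds hz) fun w hw =>
        ⟨by simpa using hw.1.le, by simpa using hw.2.le⟩
      rw [hD, fderivWithin_of_mem_nhds this]
    have h3 : DifferentiableAt ℂ (fun s : ℂ => exp (I * s)) s := by fun_prop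
    exact (h3.mul (DifferentiableAt.comp (f := fun s : ℂ => exp (I * s)) s h2
      h3)).differentiableWithinAt
  have cR : ∀ y ∈ Icc 0 H, ∀ w : ℂ, Continuous fun x => ((D (P y x) (P y x * w) : ℝ) : ℂ) :=
    fun y hy w => continuous_ofReal.comp
      ((cD.comp_continuous (cP y) (mP y hy)).clm_apply ((cP y).mul continuous_const))
  have eq : ∀ y ∈ Icc 0 H, ∀ k : ℤ, fc (fun x => F (x + I * y)) k =
      fc (fun x => (D (P y x) (P y x) : ℝ)) k + k * fc (fun x => U (P y x)) k := fun y hy k => by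
    have h1 : ∀ x : ℝ, HasDerivAt (fun x => (U (P y x) : ℂ)) (D (P y x) (P y x * I) : ℝ) x :=
      fun x => by
        have : HasDerivAt (P y) (P y x * I) x := by
          simpa using (((hasDerivAt_id (x : ℂ)).add_const (I * y)).const_mul I).cexp.comp_ofReal
        exact ((dU _ (mP y hy x)).comp_hasDerivAt x this (.of_forall (mP y hy))).ofReal_comp
    have h2 := fc_deriv h1 (cR y hy I) (by
      have : P y (2 * Real.pi) = P y 0 := by
        simp only [P]
        rw [← linkc_per (((0 : ℝ) : ℂ) + I * y)]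
        congr 2
        push_cast
        ring
      rw [this]) k
    have h3 := linkc_lin (by simpa using cR y hy 1) (cR y hy I) (-I) k
    simp only [F, linkc_zg]
    rw [h3, h2]
    linear_combination (-(k : ℂ) * fc (fun x => (U (P y x) : ℂ)) k) * I_mul_I
  have h0 : (0 : ℝ) ∈ Icc 0 H := ⟨le_rfl, hH.le⟩
  have hH' : H ∈ Icc 0 H := ⟨hH.le, le_rfl⟩
  have sh : ∀ y ∈ Icc 0 H, ∀ k : ℤ,
      fc (fun x => (D (P 0 x) (P 0 x) : ℝ)) k + k * fc (fun x => U (P 0 x)) k = exp (k * y) *
        (fc (fun x => (D (P y x) (P y x) : ℝ)) k + k * fc (fun x => U (P y x)) k) :=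
    fun y hy k => by
      rw [← eq 0 h0, ← eq y hy, ← linkc_shift hy.1 (cF.mono fun s hs => ⟨hs.1, hs.2.trans hy.2⟩)
        (dF.mono fun s hs => ⟨hs.1, hs.2.trans_le hy.2⟩) (fun s => by simp only [F, linkc_per])]
      simp
  have key : fc (fun x => (D (P 0 x) (P 0 x) : ℝ)) k =
        (((|k| : ℤ) : ℂ) + gco true true H k) * fc (fun x => U (P 0 x)) k +
          gco true false H k * fc (fun x => U (P H x)) k ∧
      -fc (fun x => (D (P H x) (P H x) : ℝ)) k =
        (((|k| : ℤ) : ℂ) + gco false false H k) * fc (fun x => U (P H x)) k +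
          gco false true H k * fc (fun x => U (P 0 x)) k := by
    by_cases hk : k = 0
    · subst hk
      have s0 : ∀ y ∈ Icc 0 H, fc (fun x => (D (P 0 x) (P 0 x) : ℝ)) 0 =
          fc (fun x => (D (P y x) (P y x) : ℝ)) 0 := fun y hy => by simpa using sh y hy 0
      have ftc : ∀ x : ℝ, ∫ y in (0 : ℝ)..H, ((D (P y x) (P y x * -1) : ℝ) : ℂ) =
          U (P H x) - U (P 0 x) := fun x => by
        have cy : Continuous fun y => P y x := by fun_prop
        refine intervalIntegral.integral_eq_sub_of_hasDerivAt_of_le (f := fun y => (U (P y x) : ℂ))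
          hH.le (continuous_ofReal.comp_continuousOn
            (hU.continuousOn.comp cy.continuousOn fun y hy => mP y hy x)) (fun y hy => ?_)
          (ContinuousOn.intervalIntegrable_of_Icc hH.le (continuous_ofReal.comp_continuousOn
            ((cD.comp cy.continuousOn fun y hy => mP y hy x).clm_apply (by fun_prop))))
        have : HasDerivAt (fun y => P y x) (P y x * -1) y := by
          simpa [mul_assoc] using
            ((((hasDerivAt_id (y : ℂ)).const_mul I).const_add (x : ℂ)).const_mul I).cexp.comp_ofReal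
        have ev : ∀ᶠ y' in 𝓝 y, P y' x ∈ cann H := mem_of_superset
          (Ioo_mem_nhds hy.1 hy.2) fun y hy => mP y (Ioo_subset_Icc_self hy) x
        exact ((dU _ (mP y (Ioo_subset_Icc_self hy) x)).comp_hasDerivAt y this ev).ofReal_comp
      have cxy : Continuous fun p : ℝ × ℝ => P p.2 p.1 := by fun_prop
      have sw := MeasureTheory.intervalIntegral_intervalIntegral_swap (a := 0) (b := 2 * Real.pi)
        (c := 0) (d := H) (F := fun x y => ((D (P y x) (P y x * -1) : ℝ) : ℂ))
        ((ContinuousOn.integrableOn_compact (isCompact_uIcc.prod isCompact_uIcc)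
          (continuous_ofReal.comp_continuousOn ((cD.comp cxy.continuousOn fun p hp =>
            mP _ (uIcc_of_le hH.le ▸ hp.2) _).clm_apply (by fun_prop)))).mono_set
              (prod_mono uIoc_subset_uIcc uIoc_subset_uIcc))
      have pi0 : (Real.pi : ℂ) ≠ 0 := ofReal_ne_zero.2 Real.pi_ne_zero
      have f0 : ∀ f : ℝ → ℂ, ∫ x in (0 : ℝ)..2 * Real.pi, f x = 2 * Real.pi * fc f 0 := fun f => by
        simp only [fc]; simp; field_simp
      have cU : ∀ y ∈ Icc 0 H, Continuous fun x => (U (P y x) : ℂ) := fun y hy =>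
        continuous_ofReal.comp (hU.continuousOn.comp_continuous (cP y) (mP y hy))
      simp only [ftc] at sw
      rw [intervalIntegral.integral_sub ((cU H hH').intervalIntegrable _ _)
        ((cU 0 h0).intervalIntegrable _ _), f0, f0, intervalIntegral.integral_congr
          (g := fun _ => -(2 * Real.pi * fc (fun x => (D (P 0 x) (P 0 x) : ℝ)) 0)) (fun y hy => by
            rw [s0 y (uIcc_of_le hH.le ▸ hy), ← f0, ← intervalIntegral.integral_neg]
            simp), intervalIntegral.integral_const] at sw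
      have H0 : (H : ℂ) ≠ 0 := ofReal_ne_zero.2 hH.ne'
      rw [← s0 H hH']
      simp only [gco, if_true, Bool.true_eq_false, Bool.false_eq_true, if_false, abs_zero,
        Int.cast_zero, zero_add, sub_zero, real_smul] at sw ⊢
      field_simp at sw ⊢
      exact ⟨by linear_combination sw, by linear_combination -sw⟩
    · refine linkc_alg hH hk (sh H hH' k) ?_
      have := congrArg (starRingEnd ℂ) (sh H hH' (-k))
      simp only [map_add, map_mul, linkc_real, ← exp_conj, map_intCast, conj_ofReal] at this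
      push_cast at this
      rw [neg_mul (k : ℂ) (H : ℂ)] at this
      linear_combination this
  have r1 : ∀ x : ℝ, (rad H true : ℂ) * exp (I * x) = P 0 x := fun x => by simp [rad, P]
  have r0 : ∀ x : ℝ, (rad H false : ℂ) * exp (I * x) = P H x := fun x => by
    simp only [rad, P, linkc_pt]; rfl
  rw [← hD]
  cases i
  · simp only [Fintype.sum_bool, r1, r0, Bool.false_eq_true, if_false, if_true, Int.cast_zero,
      zero_add]
    rw [add_comm, ← key.2]
    simp [fc]
  · simp only [Fintype.sum_bool, r1, r0, Bool.true_eq_false, if_false, if_true, Int.cast_zero,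
      zero_add, one_mul]
    exact key.1

/-- the Dirichlet problem with exponentially decaying data: `U = Re G + c log ‖z‖` -/
theorem dirichlet {H a : ℝ} (hH : 1 ≤ H) (ha : 0 < a) : ∃ K > 0, ∀ (c : Bool → ℤ → ℂ) (D : ℝ),
    (∀ j k, ‖c j k‖ ≤ D * ex a k) → (∀ j k, c j (-k) = (starRingEnd ℂ) (c j k)) →
    ∃ (G : ℂ → ℂ) (e : ℝ), DifferentiableOn ℂ G (ann H (a / 2)) ∧
      (∀ z ∈ ann H (a / 2), ‖G z‖ ≤ K * D) ∧ ∀ j (x : ℝ),
        (((G (rad H j * exp (I * x))).re + e * Real.log (rad H j) : ℝ) : ℂ) = fs (c j) x := by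
  have H0 : 0 < H := by linarith
  obtain ⟨K, hK, hs⟩ := four2_K (half_pos ha) 0
  simp only [pow_zero, one_mul] at hs
  refine ⟨8 * K, by positivity, fun c D hc hr => ?_⟩
  have D0 : 0 ≤ D := four2_nonneg (hc true 0) (ex_pos _ _)
  let γ : ℤ → ℂ := fun k => if k = 0 then c true 0 else
    2 * (c false k - c true k * exp (k * H)) / (exp (-(k * H)) - exp (k * H))
  have bd : ∀ k, ∀ z ∈ ann H (a / 2), ‖γ k * z ^ k‖ ≤ 8 * D * ex (a / 2) k := fun k z hz => by
    by_cases hk : k = 0
    · have := hc true 0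
      simp only [γ, hk, if_true, zpow_zero, mul_one]
      simp only [ex, Int.cast_zero, abs_zero, mul_zero, Real.exp_zero] at this ⊢
      linarith
    have h1 : ‖γ k‖ ≤ 2 * (D * ex a k * (1 + Real.exp (k * H))) /
        |(Real.exp (k * H))⁻¹ - Real.exp (k * H)| := by
      simp only [γ, hk, if_false]
      rw [norm_div, norm_mul, show exp (k * H : ℂ) = (Real.exp (k * H) : ℝ) by simp, exp_neg,
        show exp (k * H : ℂ) = (Real.exp (k * H) : ℝ) by simp, ← ofReal_inv, ← ofReal_sub,
        norm_real, Real.norm_eq_abs, Complex.norm_two]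
      gcongr
      refine (norm_sub_le _ _).trans ?_
      rw [norm_mul, norm_real, Real.norm_of_nonneg (Real.exp_pos _).le, mul_add, mul_one]
      gcongr <;> exact hc _ _
    have h2 := linkc_bd hH hk ((Real.exp_pos _).trans hz.1) hz.1 hz.2
    rw [norm_mul, norm_zpow]
    refine (mul_le_mul_of_nonneg_right h1 (by positivity)).trans ?_
    rw [div_mul_eq_mul_div, div_le_iff₀ h2.1]
    have e : ex (a / 2) k = ex a k * ex (-(a / 2)) k := by rw [four2_ex]; congr 1; ring
    have := mul_le_mul_of_nonneg_left h2.2 (mul_nonneg D0 (ex_pos a k).le)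
    rw [e]
    linarith
  have ne : ∀ k : ℤ, k ≠ 0 → exp (-(k * H : ℂ)) - exp (k * H) ≠ 0 := fun k hk e => by
    have := congrArg norm (sub_eq_zero.1 e)
    rw [norm_exp, norm_exp, Real.exp_eq_exp] at this
    simp at this
    exact (mul_ne_zero (Int.cast_ne_zero.2 hk) H0.ne') (by linarith)
  have r0 : ∀ j, ((c j 0).re : ℂ) = c j 0 := fun j =>
    conj_eq_iff_re.1 (by simpa using (hr j 0).symm)
  have z0 : ∀ z ∈ ann H (a / 2), z ≠ 0 := fun z hz =>
    norm_pos_iff.1 ((Real.exp_pos _).trans hz.1)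
  refine ⟨fun z => ∑' k, γ k * z ^ k, ((c true 0).re - (c false 0).re) / H,
    differentiableOn_tsum_of_summable_norm (hs.summable.mul_left (8 * D)) (fun k z hz =>
      ((differentiableAt_zpow.2 (.inl (z0 z hz))).const_mul _).differentiableWithinAt)
      (isOpen_ann _ _) bd, fun z hz => ?_, fun j x => ?_⟩
  · exact (tsum_of_norm_bounded (hs.mul_left (8 * D)) fun k => bd k z hz).trans_eq (by ring)
  · obtain ⟨y, hy⟩ : ∃ y : ℝ, y = if j then 0 else H := ⟨_, rfl⟩
    have hr' : rad H j = Real.exp (-y) := by cases j <;> simp [rad, hy]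
    have m : exp (I * (x + I * y)) ∈ ann H (a / 2) := linkc_mem' (by
      cases j <;> constructor <;> simp [hy] <;> linarith)
    have zp : ∀ k : ℤ, exp (I * (x + I * y)) ^ k = exp (-(k * y)) * exp (I * k * x) := fun k => by
      rw [← exp_int_mul, ← exp_add]
      congr 1
      linear_combination (k * y : ℂ) * I_mul_I
    have S := (Summable.of_norm_bounded (hs.summable.mul_left (8 * D)) fun k => bd k _ m).hasSum
    have S2 := (Equiv.neg ℤ).hasSum_iff.2 (hasSum_conj'.2 S)
    have S3 := ((S.add S2).add (hasSum_ite_eq (0 : ℤ)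
      (((2 * (((c true 0).re - (c false 0).re) / H * -y) : ℝ)) : ℂ))).div_const 2
    rw [hr', ← linkc_pt, Real.log_exp, fs]
    refine Eq.trans ?_ (HasSum.tsum_eq (S3.congr_fun fun k => ?_)).symm
    · rw [add_conj]; push_cast; ring
    simp only [Function.comp, Equiv.neg_apply, zp, map_mul, ← exp_conj, map_neg, map_intCast,
      conj_ofReal, conj_I]
    have H1 : (H : ℂ) ≠ 0 := ofReal_ne_zero.2 H0.ne'
    by_cases hk : k = 0
    · subst hk
      simp only [γ, neg_zero, if_true, ← hr]
      push_cast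
      rw [r0, r0]
      cases j <;> simp [hy] <;> field_simp <;> ring
    · have n1 := ne k hk
      have n2 : exp (k * H : ℂ) - exp (-(k * H : ℂ)) ≠ 0 := fun e => n1 (by linear_combination -e)
      simp only [γ, hk, neg_eq_zero, if_false, map_div₀, map_mul, map_sub, ← hr, neg_neg,
        ← exp_conj, map_neg, map_intCast, conj_ofReal, map_ofNat]
      have n3 : exp (k * H : ℂ) * exp (-(k * H : ℂ)) = 1 := by rw [← exp_add]; simp
      push_cast
      simp only [neg_mul, mul_neg, neg_neg]
      cases j <;> simp only [hy, if_true, if_false, Bool.false_eq_true, ofReal_zero, mul_zero,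
        neg_zero, exp_zero] <;> generalize exp (k * H : ℂ) = E at * <;>
        generalize exp (-(k * H : ℂ)) = E' at * <;> field_simp
      all_goals ring1

/-- a holomorphic function with vanishing real part (up to `e log ‖z‖`) on both circles -/
theorem re_zero_const {H δ e : ℝ} (hH : 0 < H) (hδ : 0 < δ) {G : ℂ → ℂ}
    (hG : DifferentiableOn ℂ G (ann H δ))
    (h : ∀ j (x : ℝ), (G (rad H j * exp (I * x))).re + e * Real.log (rad H j) = 0) :
    e = 0 ∧ ∃ t : ℝ, ∀ z ∈ ann H δ, G z = I * t := by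
  have dF : DifferentiableOn ℂ (fun s => G (exp (I * s))) {s | s.im ∈ Ioo (-δ) (H + δ)} :=
    hG.comp (by fun_prop) fun s hs => linkc_mem' hs
  have pF : ∀ s : ℂ, s.im ∈ Ioo (-δ) (H + δ) →
      G (exp (I * (s + 2 * Real.pi))) = G (exp (I * s)) := fun s _ => by rw [linkc_per]
  have n1 := neg_lt_zero.2 hδ
  have n2 := add_pos hH hδ
  have cF : ∀ y ∈ Ioo (-δ) (H + δ), Continuous fun x : ℝ => G (exp (I * (x + I * y))) :=
    fun y hy => hG.continuousOn.comp_continuous (by fun_prop) fun x =>
      linkc_mem' (by simpa using hy)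
  have one : ∀ k : ℤ, fc (fun _ => 1) k = if 0 = k then 1 else 0 := fun k => by
    have := four1_orth 0 k
    have p : (Real.pi : ℂ) ≠ 0 := ofReal_ne_zero.2 Real.pi_ne_zero
    simp only [Int.cast_zero, mul_zero, zero_mul, exp_zero] at this
    rw [fc, this]
    split_ifs
    · field_simp
    · simp
  have re : ∀ y ∈ Ioo (-δ) (H + δ), (∀ x : ℝ, (G (exp (I * (x + I * y)))).re = e * y) → ∀ k : ℤ,
      fc (fun x => G (exp (I * (x + I * y)))) k +
        (starRingEnd ℂ) (fc (fun x => G (exp (I * (x + I * y)))) (-k)) =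
          2 * e * y * if 0 = k then 1 else 0 := fun y hy h k => by
    have a1 := linkc_lin (cF y hy) (continuous_conj.comp (cF y hy)) 1 k
    have a2 := linkc_lin (f := fun _ => 0) (g := fun _ => 1) continuous_const continuous_const
      (2 * e * y) k
    simp only [one_mul, Function.comp_def, add_conj, h] at a1
    rw [← fc_conj, ← one, ← a1]
    simpa [fc, mul_assoc] using a2
  have o1 := re 0 ⟨n1, n2⟩ fun x => by simpa [rad] using h true x
  have o2 := re H ⟨n1.trans hH, by linarith⟩ fun x => by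
    have := h false x
    simp only [rad, Bool.false_eq_true, if_false, Real.log_exp] at this
    rw [linkc_pt]
    linarith
  have sh := fc_shift n1 n2 ⟨n1.trans hH, by linarith⟩ dF pF
  simp only [ofReal_zero, mul_zero, add_zero, zero_mul] at o1
  have z : ∀ k : ℤ, k ≠ 0 → fc (fun x => G (exp (I * x))) k = 0 := fun k hk => by
    have a1 := o1 k
    have a2 := o2 k
    rw [if_neg hk.symm, mul_zero] at a2
    rw [sh k, sh (-k), map_mul, conj_ofReal, eq_neg_of_add_eq_zero_right a2, mul_neg,
      ← sub_eq_add_neg, ← sub_mul, mul_eq_zero] at a1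
    rcases a1 with a1 | a1
    · have := Real.exp_eq_exp.1 (ofReal_injective (sub_eq_zero.1 a1))
      push_cast at this
      exact absurd (by linarith) (mul_ne_zero (Int.cast_ne_zero.2 hk : (k : ℝ) ≠ 0) hH.ne')
    · rw [sh k, a1, mul_zero]
  have b1 := o1 0
  have b2 := o2 0
  have b3 := sh 0
  simp only [neg_zero, if_true, Int.cast_zero, zero_mul, Real.exp_zero, ofReal_one, one_mul,
    mul_one] at b1 b2 b3
  rw [← b3, b1] at b2
  refine ⟨by simpa [hH.ne'] using b2, (fc (fun x => G (exp (I * x))) 0).im, fun w hw => ?_⟩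
  have w0 : 0 < ‖w‖ := (Real.exp_pos _).trans hw.1
  have e1 : exp (I * (-I * log w)) = w := by
    rw [← mul_assoc, mul_neg, I_mul_I, neg_neg, one_mul, exp_log (norm_pos_iff.1 w0)]
  have e2 := (fs_fc_strip n1 n2 dF pF (s := -I * log w) (by
    have l1 := (Real.lt_log_iff_exp_lt w0).2 hw.1
    have l2 := (Real.log_lt_iff_lt_exp w0).2 hw.2
    constructor <;> simp [log_re] <;> linarith)).2
  rw [e1, fs, tsum_eq_single 0 fun k hk => by rw [z k hk, zero_mul]] at e2
  rw [← e2, add_conj] at *
  have b4 : (fc (fun x => G (exp (I * x))) 0).re = 0 := by simpa using b1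
  apply Complex.ext <;> simp [b4]

end StekIso
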