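import Pool.Agent.Lib.MP_fa022d_an.Defs6
import Pool.Agent.Lib.MP_fa022d_an.KerF
import Pool.Agent.Lib.MP_fa022d_an.LinkC

/-! Two real directions that move the closing defect. -/

open Set Filter Topology Metric BoundedContinuousFunction Complex

noncomputable section
namespace StekIso

variable {η : Pos} {r δ C δ1 C1 : ℝ}

theorem dirs_sn (η : Pos) : ∃ K, ∀ w : V η, sn w ≤ K * ‖w‖ := by
  have s : Summable fun b : Idx => ex (η.1 / 2) b.2 :=
    (summable_prod_of_nonneg fun b => (ex_pos _ _).le).2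
      ⟨fun _ => (summable_ex (half_pos η.2) 0).congr fun k => by rw [pow_zero, one_mul],
        Summable.of_finite⟩
  refine ⟨(∑' b : Idx, ex (η.1 / 2) b.2) / 128, fun w => ?_⟩
  have k (b : Idx) : ‖(w b.1).coeff b.2‖ * ex (-(η.1 / 2)) b.2 ≤ ‖w‖ / 128 * ex (η.1 / 2) b.2 := by
    refine (mul_le_mul_of_nonneg_right (kerf_ex _ _) (ex_pos _ _).le).trans ?_
    rw [mul_assoc, four2_ex, show η.1 + -(η.1 / 2) = η.1 / 2 by ring]
    exact mul_le_mul_of_nonneg_right (div_le_div_of_nonneg_right (norm_le_pi_norm w _)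
      (by norm_num)) (ex_pos _ _).le
  refine (Summable.tsum_le_tsum k (.of_nonneg_of_le
    (fun b => mul_nonneg (norm_nonneg _) (ex_pos _ _).le) k (s.mul_left _)) (s.mul_left _)).trans ?_
  rw [tsum_mul_left]
  exact le_of_eq (by ring)

theorem dirs_zero : RealV (0 : V η) := fun j k => by simp

theorem dirs_add {v w : V η} (hv : RealV v) (hw : RealV w) : RealV (v + w) := fun j k => by
  simp only [Pi.add_apply, WAlg.coeff_add, hv j k, hw j k, map_add]

theorem dirs_smul {v : V η} (hv : RealV v) (c : ℝ) : RealV ((c : ℂ) • v) := fun j k => by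
  simp only [Pi.smul_apply, WAlg.coeff_smul, hv j k, map_mul, conj_ofReal]

theorem dirs_base (B : GeoBase) (hG : GeoOK B η r δ C) :
    Cp (kapV B.toBase ((0 : V η), (B.lam0 : ℂ))) = 0 ∧ lc B.G0 (-1) = 0 ∧
      vel B.toBase B.G0 (0 : V η) 0 ≠ 0 := by
  have m : (0 : V η) ∈ RB η r := ⟨dirs_zero, by simpa using hG.r_pos⟩
  have l : |B.lam0 - B.lam0| < r := by simpa using hG.r_pos
  have p : 0 < B.H0 := by linarith [B.big]
  have f : Fits (thOf B.toBase (0 : V η)) B.lam0 B.H0 B.G0 1 := by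
    rw [thOf_zero]
    exact B.fits
  have c : Cp _ = 0 := (hG.uniq 0 m _ l _ _ _ _ _ p one_pos B.δ0_pos B.diffG B.primF f).2.1
  obtain ⟨-, a, a1, a2, a3⟩ := hG.gen 0 m _ l _ _ _ _ p one_pos B.δ0_pos B.diffG f
  have a0 : a ≠ 0 := norm_ne_zero_iff.1 (a1.trans_ne one_ne_zero)
  refine ⟨c, ?_, fun e => ?_⟩
  · rw [c, mul_zero] at a3
    exact (mul_eq_zero.1 a3.symm).resolve_left (mul_ne_zero a0 I_ne_zero)
  · simpa [e] using a2 0

theorem dirs_nhds {B : Base} {lam0 : ℝ} (hC : CurvOK B η lam0 δ1 C1) :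
    domC η lam0 δ1 ∈ 𝓝 ((0 : V η), (lam0 : ℂ)) :=
  prod_mem_nhds (ball_mem_nhds _ hC.δ_pos) (ball_mem_nhds _ hC.δ_pos)

/-- A family of neighbours of the base. -/
theorem dirs_fam (B : GeoBase) (hG : GeoOK B η r δ C) (hC : CurvOK B.toBase η B.lam0 δ1 C1)
    (hF : FwdOK B η) {G : ℝ → ℂ → ℂ} {H : ℝ → ℝ} {K : ℝ} (hK : 0 ≤ K)
    (h : ∀ᶠ t in 𝓝[>] (0 : ℝ), B.Near (K * t) (G t) (H t)) :
    ∃ (v : ℝ → V η) (lam : ℝ → ℝ) (a : ℝ → ℂ), Tendsto lam (𝓝[>] 0) (𝓝 B.lam0) ∧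
      Tendsto a (𝓝[>] 0) (𝓝 (exp (I * vth (kapV B.toBase ((0 : V η), (B.lam0 : ℂ))) 0) /
        vel B.toBase B.G0 (0 : V η) 0)) ∧
      Tendsto (fun t : ℝ => (a t * I * lc (G t) (-1) - fderiv ℂ (fun z : V η × ℂ =>
        Cp (kapV B.toBase z)) (0, (B.lam0 : ℂ)) (v t, ((lam t - B.lam0 : ℝ) : ℂ))) / t)
        (𝓝[>] 0) (𝓝 0) ∧
      ∀ᶠ t in 𝓝[>] (0 : ℝ), RealV (v t) ∧
        lenG (G t) (H t) false = Real.exp (lam t) * lenG (G t) (H t) true := by
  obtain ⟨C0, hC0, κ0, hκ0, F⟩ := hF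
  obtain ⟨b1, -, b3⟩ := dirs_base B hG
  have t0 : Tendsto (fun t : ℝ => K * t) (𝓝[>] 0) (𝓝 0) := by
    simpa using (tendsto_id.const_mul K).mono_left (nhdsWithin_le_nhds (a := (0 : ℝ)))
  have t1 : Tendsto (fun t : ℝ => C0 * (K * t)) (𝓝[>] 0) (𝓝 0) := by simpa using t0.const_mul C0
  obtain ⟨p, hp⟩ := Eventually.choice (l := 𝓝[>] (0 : ℝ)) (r := fun t (p : V η × ℝ) => RealV p.1 ∧
      ‖p.1‖ ≤ C0 * (K * t) ∧ |p.2 - B.lam0| ≤ C0 * (K * t) ∧
      |lenG (G t) (H t) true - 1| ≤ C0 * (K * t) ∧ 0 < lenG (G t) (H t) true ∧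
      lenG (G t) (H t) false = Real.exp p.2 * lenG (G t) (H t) true ∧
      Fits (thOf B.toBase p.1) p.2 (H t) (G t) (lenG (G t) (H t) true)) (by
    filter_upwards [h, t0.eventually (ge_mem_nhds hκ0), self_mem_nhdsWithin] with t a b c
    obtain ⟨v, v1, v2, lam, k⟩ := F _ (mul_nonneg hK (le_of_lt c)) b _ _ a
    exact ⟨(v, lam), v1, v2, k⟩)
  have sq {f : ℝ → ℝ} {y : ℝ} (k : ∀ᶠ t in 𝓝[>] (0 : ℝ), |f t - y| ≤ C0 * (K * t)) :
      Tendsto f (𝓝[>] 0) (𝓝 y) := tendsto_iff_norm_sub_tendsto_zero.2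
    (squeeze_zero' (.of_forall fun _ => norm_nonneg _) k t1)
  have v0 : Tendsto (fun t => ‖(p t).1‖) (𝓝[>] 0) (𝓝 0) :=
    squeeze_zero' (.of_forall fun _ => norm_nonneg _) (hp.mono fun _ k => k.2.1) t1
  have l0 := sq (hp.mono fun _ k => k.2.2.1)
  have n0 := (continuous_ofReal.tendsto _).comp (sq (hp.mono fun _ k => k.2.2.2.1))
  have z0 : Tendsto (fun t => ((p t).1, ((p t).2 : ℂ))) (𝓝[>] 0) (𝓝 (0, (B.lam0 : ℂ))) :=
    (tendsto_zero_iff_norm_tendsto_zero.2 v0).prodMk_nhds ((continuous_ofReal.tendsto _).comp l0)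
  have rb : ∀ᶠ t in 𝓝[>] (0 : ℝ), (p t).1 ∈ RB η r :=
    (hp.and (v0.eventually (gt_mem_nhds hG.r_pos))).mono fun _ k => ⟨k.1.1, k.2⟩
  obtain ⟨a, ha⟩ := Eventually.choice (l := 𝓝[>] (0 : ℝ)) (r := fun t (a : ℂ) =>
      (lenG (G t) (H t) true : ℝ) * exp (I * vth (kapV B.toBase ((p t).1, ((p t).2 : ℂ))) 0) =
        a * vel B.toBase (G t) (p t).1 0 ∧ (lenG (G t) (H t) true : ℝ) *
        Cp (kapV B.toBase ((p t).1, ((p t).2 : ℂ))) = a * I * lc (G t) (-1)) (by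
    filter_upwards [h, hp, rb, t1.eventually (gt_mem_nhds hG.r_pos),
      t0.eventually (ge_mem_nhds (half_pos B.δ0_pos)), t0.eventually (ge_mem_nhds one_pos)]
      with t a b c d e f
    obtain ⟨-, x, -, x1, x2⟩ := hG.gen _ c _ (b.2.2.1.trans_lt d) (G t) (H t) _ (B.δ0 / 2)
      (by linarith [B.big, (abs_le.1 (a.mod.trans f)).1]) b.2.2.2.2.1 (half_pos B.δ0_pos)
      (a.diff.mono ((ann_sub (half_pos B.δ0_pos).le (a.mod.trans e)).trans
        (ann_mono (le_of_eq (by ring))))) b.2.2.2.2.2.2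
    exact ⟨x, x1 0, x2⟩)
  obtain ⟨K1, hK1⟩ := dirs_sn η
  have m : (0 : V η) ∈ RB η r := ⟨dirs_zero, by simpa using hG.r_pos⟩
  have s0 : Tendsto (fun t => C * (K1 * ‖(p t).1‖)) (𝓝[>] 0) (𝓝 0) := by
    simpa using (v0.const_mul K1).const_mul C
  have sl (t) : C * sn ((p t).1 - 0) ≤ C * (K1 * ‖(p t).1‖) :=
    mul_le_mul_of_nonneg_left (by rw [sub_zero]; exact hK1 _) hG.C_nonneg
  have u1 := tendsto_iff_norm_sub_tendsto_zero.2 (squeeze_zero' (.of_forall fun _ => norm_nonneg _)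
    (rb.mono fun t k => (hG.thlip _ k _ m true 0).1.trans (sl t)) s0)
  have u2 := tendsto_iff_norm_sub_tendsto_zero.2 (squeeze_zero' (.of_forall fun _ => norm_nonneg _)
    (rb.mono fun t k => (hG.thlip _ k _ m true 0).2.trans (sl t)) s0)
  have u3 : Tendsto (fun t => tv B.toBase (p t).1 0) (𝓝[>] 0) (𝓝 (tv B.toBase (0 : V η) 0)) :=
    (u1.const_mul I).cexp
  have an : ann B.H0 B.δ0 ∈ 𝓝 (tv B.toBase (0 : V η) 0) := (isOpen_ann _ _).mem_nhds (linkc_mem' (by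
    rw [(hG.cm 0 m true).real]
    constructor <;> linarith [B.δ0_pos, B.big]))
  have u4 := (tendsto_zero_iff_norm_tendsto_zero.2 (squeeze_zero'
    (.of_forall fun _ => norm_nonneg _) ((h.and (u3.eventually an)).mono fun t k =>
      k.1.close _ k.2) t0)).add ((B.diffG.continuousOn.continuousAt an).tendsto.comp u3)
  have u5 : Tendsto (fun t => vel B.toBase (G t) (p t).1 0) (𝓝[>] 0)
      (𝓝 (vel B.toBase B.G0 (0 : V η) 0)) :=
    (Tendsto.cexp (by simpa using u4)).mul ((u3.const_mul I).mul u2)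
  have u6 := ((((hC.cont 0).continuousAt (dirs_nhds hC)).tendsto.comp z0).const_mul I).cexp
  refine ⟨fun t => (p t).1, fun t => (p t).2, fun t => a t / (lenG (G t) (H t) true : ℝ), l0,
    (u6.div u5 b3).congr' ?_, ?_, hp.mono fun _ k => ⟨k.1, k.2.2.2.2.2.1⟩⟩
  · filter_upwards [ha, hp, u5.eventually_ne b3] with t x y z
    have := ofReal_ne_zero.2 y.2.2.2.2.1.ne'
    rw [Pi.div_apply, div_eq_div_iff z this, ← x.1, mul_comm]
    rfl
  · have o := ((hC.dCp.differentiableAt (dirs_nhds hC)).hasFDerivAt.isLittleO.comp_tendsto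
      z0).trans_isBigO (Asymptotics.IsBigO.of_bound (g := fun t : ℝ => (t : ℂ)) (C0 * K) (by
        filter_upwards [hp, self_mem_nhdsWithin] with t x y
        rw [Function.comp_apply, Prod.mk_sub_mk, sub_zero, ← ofReal_sub, Prod.norm_mk, norm_real,
          norm_real, Real.norm_of_nonneg (le_of_lt y), mul_assoc]
        exact max_le x.2.1 x.2.2.1))
    refine o.tendsto_div_nhds_zero.congr' ?_
    filter_upwards [ha, hp] with t x y
    have := ofReal_ne_zero.2 y.2.2.2.2.1.ne'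
    rw [Function.comp_apply, b1, sub_zero, Prod.mk_sub_mk, sub_zero, ← ofReal_sub,
      div_mul_eq_mul_div, div_mul_eq_mul_div, ← x.2, mul_div_cancel_left₀ _ this]

theorem dirs_cont (B : GeoBase) : Continuous fun x : ℝ => exp (B.G0 (exp (I * x))) :=
  (B.diffG.continuousOn.comp_continuous (by fun_prop) fun x => linkc_mem' (by
    rw [ofReal_im]
    constructor <;> linarith [B.δ0_pos, B.big])).cexp

theorem dirs_lc (B : GeoBase) : ∃ k, lc B.G0 k ≠ 0 := by
  by_contra! h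
  have := fs_fc (dirs_cont B) (fun x => by push_cast; rw [linkc_per])
    (summable_zero.congr fun k => by rw [← lc, h, norm_zero]) 0
  rw [show fc (fun x : ℝ => exp (B.G0 (exp (I * x)))) = fun _ => 0 from funext h] at this
  exact exp_ne_zero _ (this.symm.trans (by simp [fs]))

theorem dirs_res (B : GeoBase) {c : ℂ} (hc : ‖c‖ < 1) (k : ℤ) :
    lc (fun z => B.G0 z + log (1 + c * z ^ (-1 - k))) (-1) = lc B.G0 (-1) + c * lc B.G0 k := by
  have e (x : ℝ) : exp (I * x) ^ (-1 - k) = exp (I * (-1 - k : ℤ) * x) := by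
    rw [← exp_int_mul]
    congr 1
    ring
  have f : lc B.G0 k = fc (fun x : ℝ => exp (B.G0 (exp (I * x))) * exp (I * (-1 - k : ℤ) * x))
      (-1) := by
    unfold lc fc
    refine congrArg _ (intervalIntegral.integral_congr fun x _ => ?_)
    beta_reduce
    rw [mul_assoc (exp _), ← exp_add (I * _ * _)]
    congr 2
    push_cast
    ring
  rw [f, lc, lc, ← linkc_lin (dirs_cont B) ((dirs_cont B).fun_mul (by fun_prop))]
  refine congrArg (fc · _) (funext fun x => ?_)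
  rw [exp_add, e, exp_log (slitPlane_ne_zero (mem_slitPlane_of_norm_lt_one (by
    rwa [norm_mul, (four1_norm _ x).1, mul_one])))]
  ring

theorem dirs_onto (B : GeoBase) (hB : B.Good) (hG : GeoOK B η r δ C)
    (hC : CurvOK B.toBase η B.lam0 δ1 C1) (hF : FwdOK B η) (y : ℂ) : ∃ w : V η, RealV w ∧
      fderiv ℂ (fun z : V η × ℂ => Cp (kapV B.toBase z)) (0, (B.lam0 : ℂ)) (w, 0) = y := by
  obtain ⟨-, b2, b3⟩ := dirs_base B hG
  have fam := @dirs_fam η r δ C δ1 C1 B hG hC hF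
  generalize fderiv ℂ (fun z : V η × ℂ => Cp (kapV B.toBase z)) (0, (B.lam0 : ℂ)) = D at fam ⊢
  let P : Submodule ℝ ℂ :=
    { carrier := {y | ∃ w : V η, RealV w ∧ D (w, 0) = y}
      add_mem' := by
        rintro _ _ ⟨v, hv, rfl⟩ ⟨w, hw, rfl⟩
        exact ⟨v + w, dirs_add hv hw, by rw [← map_add, Prod.mk_add_mk, add_zero]⟩
      zero_mem' := ⟨0, dirs_zero, map_zero D⟩
      smul_mem' := by
        rintro c _ ⟨v, hv, rfl⟩
        exact ⟨_, dirs_smul hv c, by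
          rw [real_smul, ← smul_eq_mul, ← map_smul, Prod.smul_mk, smul_zero]⟩ }
  have cl : IsClosed (P : Set ℂ) := P.closed_of_finiteDimensional
  have sp (v : V η) (μ : ℂ) : D (v, μ) = D (v, 0) + μ * D (0, 1) := by
    rw [← smul_eq_mul, ← map_smul, ← map_add]
    simp
  have s1 : D (0, 1) ∈ P := by
    obtain ⟨c, c0, κ, κ0, hs⟩ := hB.slope
    obtain ⟨C0, -, κ1, k1, F⟩ := hF
    obtain ⟨-, -, -, l0, f1, f2, -, f3, -⟩ := F 0 le_rfl k1.le B.G0 B.H0
      ⟨B.diffG, fun _ _ => by simp, by simp⟩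
    rw [mul_zero, abs_nonpos_iff, sub_eq_zero] at f1 f2
    rw [f1, f2, mul_one] at f3
    obtain ⟨v, lam, a, t1, -, t3, t4⟩ := fam (G := fun _ => B.G0) (H := fun t => B.H0 + t)
      zero_le_one (eventually_mem_nhdsWithin.mono fun t k =>
        ⟨B.diffG, fun _ _ => by simpa using le_of_lt k, by simp [abs_of_pos (mem_Ioi.1 k)]⟩)
    have lo : ∀ᶠ t in 𝓝[>] (0 : ℝ), 0 < t ∧ c * t ≤ Real.exp B.lam0 * (2 * |lam t - B.lam0|) := by
      filter_upwards [t4, self_mem_nhdsWithin, nhdsWithin_le_nhds (ge_mem_nhds κ0),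
        (tendsto_iff_norm_sub_tendsto_zero.1 t1).eventually (ge_mem_nhds one_pos)] with t x y z u
      have y : 0 < t := y
      have := hs (B.H0 + t) (by simpa [abs_of_pos y] using z)
      rw [x.2, f3, show lenG B.G0 (B.H0 + t) true = 1 from f2, add_sub_cancel_left, abs_of_pos y,
        show Real.exp (lam t) * 1 - Real.exp B.lam0 =
          Real.exp B.lam0 * (Real.exp (lam t - B.lam0) - 1) by
            rw [mul_sub, ← Real.exp_add]; simp, abs_mul, abs_of_pos (Real.exp_pos _)] at this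
      exact ⟨y, this.trans (mul_le_mul_of_nonneg_left (Real.abs_exp_sub_one_le u)
        (Real.exp_pos _).le)⟩
    refine cl.mem_of_tendsto (b := 𝓝[>] (0 : ℝ)) (f := fun t => (-(lam t - B.lam0)⁻¹) • D (v t, 0))
      (tendsto_iff_norm_sub_tendsto_zero.2 (squeeze_zero' (.of_forall fun _ => norm_nonneg _)
        (lo.mono fun t k => ?_) (by simpa using t3.norm.mul_const (Real.exp B.lam0 * 2 / c))))
      (t4.mono fun t k => P.smul_mem _ ⟨_, k.1, rfl⟩)
    have n : 0 < |lam t - B.lam0| := by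
      have := (mul_pos c0 k.1).trans_le k.2
      by_contra! q
      nlinarith [Real.exp_pos B.lam0]
    have n1 := ofReal_ne_zero.2 (abs_pos.1 n)
    have n2 := ofReal_ne_zero.2 k.1.ne'
    rw [show (-(lam t - B.lam0)⁻¹) • D (v t, 0) - D (0, 1) = (a t * I * lc B.G0 (-1) -
      D (v t, ((lam t - B.lam0 : ℝ) : ℂ))) / t * (t / (lam t - B.lam0 : ℝ)) by
        rw [b2, sp _ (ofReal _), real_smul, ofReal_neg, ofReal_inv]; field_simp; ring, norm_mul,
      norm_div, norm_div, norm_real, norm_real]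
    refine mul_le_mul (le_of_eq (by simp)) ?_ (by positivity) (by positivity)
    rw [Real.norm_of_nonneg k.1.le, Real.norm_eq_abs, div_le_div_iff₀ n c0]
    linarith [k.2]
  obtain ⟨k, hk⟩ := dirs_lc B
  obtain ⟨Z, hZ⟩ := (isCompact_Icc (a := Real.exp (-B.H0 - B.δ0)) (b := Real.exp B.δ0)
    ).exists_bound_of_continuousOn (f := fun x => x ^ (-1 - k)) (continuousOn_id.zpow₀ _
      fun x h => .inl ((Real.exp_pos _).trans_le h.1).ne')
  generalize ha : exp (I * vth (kapV B.toBase ((0 : V η), (B.lam0 : ℂ))) 0) /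
    vel B.toBase B.G0 (0 : V η) 0 = a0 at fam
  have a0n : a0 * I * lc B.G0 k ≠ 0 :=
    mul_ne_zero (mul_ne_zero (ha ▸ div_ne_zero (exp_ne_zero _) b3) I_ne_zero) hk
  obtain ⟨ω, rfl⟩ : ∃ ω, y = a0 * I * lc B.G0 k * ω := ⟨_, (mul_div_cancel₀ y a0n).symm⟩
  have t0 : Tendsto (fun t : ℝ => ‖ω‖ * (|Z| + 1) * t) (𝓝[>] 0) (𝓝 0) := by
    simpa using (tendsto_id.const_mul (‖ω‖ * (|Z| + 1))).mono_left
      (nhdsWithin_le_nhds (a := (0 : ℝ)))
  have sm := (t0.eventually (ge_mem_nhds one_half_pos)).and (eventually_mem_nhdsWithin)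
  obtain ⟨v, lam, a, -, t2, t3, t4⟩ := fam (G := fun t z => B.G0 z + log (1 + t * ω * z ^ (-1 - k)))
    (H := fun _ => B.H0) (K := 3 / 2 * (‖ω‖ * (|Z| + 1))) (by positivity) (sm.mono fun t q => by
      have q0 : 0 < t := q.2
      have bd (z) (hz : z ∈ ann B.H0 B.δ0) : ‖t * ω * z ^ (-1 - k)‖ ≤ ‖ω‖ * (|Z| + 1) * t := by
        rw [norm_mul, norm_mul, norm_real, Real.norm_of_nonneg q0.le, norm_zpow, mul_assoc, mul_comm]
        refine mul_le_mul_of_nonneg_right (mul_le_mul_of_nonneg_left ?_ (norm_nonneg _)) q0.le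
        linarith [(le_abs_self _).trans (hZ _ ⟨hz.1.le, hz.2.le⟩), le_abs_self Z]
      refine ⟨B.diffG.add (DifferentiableOn.clog (.const_add _ (.const_mul
        (differentiableOn_id.zpow (.inl fun z hz => norm_pos_iff.1 ((Real.exp_pos _).trans hz.1)))
          _)) fun z hz => mem_slitPlane_of_norm_lt_one (by linarith [bd z hz, q.1])),
        fun z hz => ?_, by rw [sub_self, abs_zero]; positivity⟩
      rw [add_sub_cancel_left, mul_assoc (3 / 2)]
      exact (norm_log_one_add_half_le_self ((bd z hz).trans q.1)).trans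
        (mul_le_mul_of_nonneg_left (bd z hz) (by norm_num)))
  change a0 * I * lc B.G0 k * ω ∈ (P : Set ℂ)
  refine cl.mem_of_tendsto (b := 𝓝[>] (0 : ℝ))
    (f := fun t : ℝ => t⁻¹ • (D (v t, 0) + (lam t - B.lam0) • D (0, 1))) ?_
    (t4.mono fun t k => P.smul_mem _ (P.add_mem ⟨_, k.1, rfl⟩ (P.smul_mem _ s1)))
  have := (((t2.mul_const I).mul_const (lc B.G0 k)).mul_const ω).sub t3
  rw [sub_zero] at this
  refine this.congr' (sm.mono fun t q => ?_)
  have q0 : 0 < t := q.2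
  have n2 := ofReal_ne_zero.2 q0.ne'
  beta_reduce
  rw [dirs_res B (by
    rw [norm_mul, norm_real, Real.norm_of_nonneg q0.le]
    nlinarith [q.1, mul_nonneg (mul_nonneg (norm_nonneg ω) (abs_nonneg Z)) q0.le]), b2,
    sp _ (ofReal _), real_smul, real_smul, ofReal_inv]
  field_simp
  ring

theorem dirs_conj {B : Base} {lam0 : ℝ} (hC : CurvOK B η lam0 δ1 C1) {w : V η} (hw : RealV w) :
    fderiv ℂ (fun z : V η × ℂ => Cm (kapV B z)) (0, (lam0 : ℂ)) (w, 0) =
      (starRingEnd ℂ) (fderiv ℂ (fun z : V η × ℂ => Cp (kapV B z)) (0, (lam0 : ℂ)) (w, 0)) := by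
  have g : HasDerivAt (fun t : ℝ => (((t : ℂ) • w, (lam0 : ℂ)) : V η × ℂ)) (w, 0) 0 := by
    simpa using ((ofRealCLM.hasDerivAt (x := 0)).smul_const w).prodMk (hasDerivAt_const 0 _)
  have e : ((0 : V η), (lam0 : ℂ)) = (((0 : ℝ) : ℂ) • w, (lam0 : ℂ)) := by simp
  have p := ((hC.dCp.differentiableAt (dirs_nhds hC)).hasFDerivAt.restrictScalars
    ℝ).comp_hasDerivAt_of_eq 0 g e
  have m := ((hC.dCm.differentiableAt (dirs_nhds hC)).hasFDerivAt.restrictScalars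
    ℝ).comp_hasDerivAt_of_eq 0 g e
  refine m.unique (p.star.congr_of_eventuallyEq ?_)
  filter_upwards [g.continuousAt.eventually (e ▸ dirs_nhds hC)] with t k
  have q := hC.real _ k (dirs_smul hw t) (ofReal_im _)
  refine Eq.trans ?_ (fc_conj _ 0)
  refine congrArg (fc · 0) (funext fun s => ?_)
  rw [← exp_conj, map_mul, conj_I, conj_eq_iff_im.2 (q s), neg_mul]

theorem dirs_ex (B : GeoBase) (hB : B.Good) (hG : GeoOK B η r δ C)
    (hC : CurvOK B.toBase η B.lam0 δ1 C1) (hF : FwdOK B η) :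
    ∃ e1 e2 : V η, Dirs B.toBase B.lam0 e1 e2 := by
  obtain ⟨e1, r1, p1⟩ := dirs_onto B hB hG hC hF 1
  obtain ⟨e2, r2, p2⟩ := dirs_onto B hB hG hC hF I
  exact ⟨e1, e2, r1, r2, p1, by rw [dirs_conj hC r1, p1, map_one], p2,
    by rw [dirs_conj hC r2, p2, conj_I]⟩

theorem clo_base {B : GeoBase} {η : Pos} {r δ C : ℝ} (hG : GeoOK B η r δ C) :
    Hv B.toBase B.lam0 (0 : V η) = B.H0 ∧ Clo B.toBase B.lam0 (0 : V η) :=
  ⟨(hG.uniq 0 ⟨dirs_zero, by simpa using hG.r_pos⟩ _ (by simpa using hG.r_pos) _ _ _ _ _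
    (by linarith [B.big]) one_pos B.δ0_pos B.diffG B.primF
    (by rw [thOf_zero]; exact B.fits)).1.symm, (dirs_base B hG).1⟩

theorem exists_dirs {B : GeoBase} (hB : B.Good) {η : Pos} {r δ C δC CC : ℝ}
    (hG : GeoOK B η r δ C) (hC : CurvOK B.toBase η B.lam0 δC CC) (hF : FwdOK B η) :
    ∃ e1 e2 : V η, Dirs B.toBase B.lam0 e1 e2 := dirs_ex B hB hG hC hF

end StekIso
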