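import Pool.Agent.Lib.MP_fa022d_an.Fin1

open Set Filter Topology Metric BoundedContinuousFunction Complex

noncomputable section
namespace StekIso

/-- Sierpinski: the line is not a countable union of two or more disjoint closed sets -/
theorem sierpinski_line {ι : Type} [Countable ι] (A : ι → Set ℝ) (hc : ∀ i, IsClosed (A i))
    (hd : Pairwise fun i j => Disjoint (A i) (A j)) (hu : ⋃ i, A i = univ) :
    ∃ i, A i = univ := by
  let F : Set ℝ := (⋃ i, interior (A i))ᶜ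
  have hF : IsClosed F := (isOpen_iUnion fun _ => isOpen_interior).isClosed_compl
  have key : ∀ (s : Set ℝ) (j : ι) (y : ℝ), IsPreconnected s → y ∈ s → y ∈ interior (A j) →
      (∀ z ∈ s, z ∈ A j → z ∉ F) → s ⊆ interior (A j) := fun s j y hs h1 h2 h3 => by
    refine hs.subset_of_closure_inter_subset isOpen_interior ⟨y, h1, h2⟩ fun z hz => ?_
    have a : z ∈ A j := closure_minimal interior_subset (hc j) hz.1
    obtain ⟨k, hk⟩ := mem_iUnion.1 (not_not.1 (h3 z hz.2 a))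
    by_cases e : k = j
    · exact e ▸ hk
    · exact absurd a (disjoint_left.1 (hd e) (interior_subset hk))
  rcases F.eq_empty_or_nonempty with e | e
  · have n : ∀ z, z ∉ F := fun z => by rw [e]; exact notMem_empty z
    obtain ⟨j, hj⟩ := mem_iUnion.1 (not_not.1 (n 0))
    exact ⟨j, univ_subset_iff.1 ((key univ j 0 isPreconnected_univ trivial hj
      fun z _ _ => n z).trans interior_subset)⟩
  · exfalso
    have := hF.completeSpace_coe
    have := e.to_subtype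
    obtain ⟨i, x, hx⟩ := nonempty_interior_of_iUnion_of_closed
      (f := fun i => ((↑) : F → ℝ) ⁻¹' A i) (fun i => (hc i).preimage continuous_subtype_val)
      (by rw [← preimage_iUnion, hu, preimage_univ])
    obtain ⟨ε, hε, hb⟩ := Metric.mem_nhds_iff.1 (mem_interior_iff_mem_nhds.1 hx)
    have b : ∀ z ∈ ball (x : ℝ) ε, z ∈ F → z ∈ A i := fun z hz h =>
      hb (show (⟨z, h⟩ : F) ∈ ball x ε from hz)
    refine x.2 (mem_iUnion.2 ⟨i, mem_interior_iff_mem_nhds.2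
      (mem_of_superset (ball_mem_nhds _ hε) fun y hy => by_contra fun n => ?_)⟩)
    obtain ⟨j, hj⟩ := mem_iUnion.1 (not_not.1 fun h : y ∈ F => n (b y hy h))
    have ne : j ≠ i := fun e => n (e ▸ interior_subset hj)
    exact x.2 (mem_iUnion.2 ⟨j, key _ j y (convex_ball _ _).isPreconnected hy hj
      (fun z hz a h => disjoint_left.1 (hd ne) a (b z hz h)) (mem_ball_self hε)⟩)

/-- a continuous family of doubly connected domains whose first boundary curve closes up -/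
structure Family where
  Ω : ℝ → Set ℂ
  P : ∀ τ, BdryParam (Ω τ) 2
  L : Fin 2 → ℝ
  hL : ∀ τ i, (P τ).L i = L i
  cont : ∀ i, Continuous fun z : ℝ × ℝ => (P z.1).γ i z.2
  lim : ℝ → ℂ
  tend : ∀ s, Tendsto (fun τ => (P τ).γ 0 s) atTop (𝓝 (lim s))
  p : ℝ
  q : ℝ
  δ : ℝ
  δ_pos : 0 < δ
  far : ∀ k : ℤ, δ < |q - p - k * L 0|
  touch : lim p = lim q
  ne1 : lim (p + δ) ≠ lim p
  ne2 : lim (p - δ) ≠ lim p

theorem fin2_mem {Ω : Set ℂ} {m : ℕ} (P : BdryParam Ω m) (i : Fin m) (s : ℝ) :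
    P.γ i s ∈ frontier Ω := by
  rw [P.cover]; exact mem_iUnion.2 ⟨i, s, rfl⟩

theorem fin2_front (R : ℂ ≃ᵢ ℂ) (Ω : Set ℂ) : R '' frontier Ω = frontier (R '' Ω) :=
  R.toHomeomorph.image_frontier Ω

theorem fin2_no (Φ : Family) {τ : ℕ → ℝ} (hτ : Tendsto τ atTop atTop) (R : ℕ → ℂ ≃ᵢ ℂ) {m : ℕ}
    {Ω : ℕ → Set ℂ} (P : ∀ n, BdryParam (Ω n) m)
    (hR : ∀ n, R n '' frontier (Φ.Ω (τ n)) = frontier (Ω n)) {Ω' : Set ℂ} (P' : BdryParam Ω' m)
    (hL : ∀ i, Tendsto (fun n => (P n).L i) atTop (𝓝 (P'.L i)))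
    (hc : ∀ i, TendstoLocallyUniformly (fun n => (P n).γ i) (P'.γ i) atTop) : False := by
  have t : ∀ a b, Tendsto (fun n => ‖(Φ.P (τ n)).γ 0 a - (Φ.P (τ n)).γ 0 b‖) atTop
      (𝓝 ‖Φ.lim a - Φ.lim b‖) := fun a b => (((Φ.tend a).sub (Φ.tend b)).comp hτ).norm
  obtain ⟨c, c0, c1⟩ := exists_between
    (lt_min (norm_sub_pos_iff.2 Φ.ne1) (norm_sub_pos_iff.2 Φ.ne2))
  refine no_limit (Γ := fun n => frontier (Φ.Ω (τ n))) (fun n => fin2_mem (Φ.P (τ n)) 0 Φ.p)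
    (fun n => fin2_mem (Φ.P (τ n)) 0 Φ.q) (by simpa [Φ.touch] using t Φ.p Φ.q)
    (noShort_of_param (fun n => Φ.P (τ n)) 0 (fun n => Φ.hL _ 0) Φ.δ_pos c0 Φ.far ?_) R
    (fun n => (P n).L) (fun n => (P n).γ) (fun n => (P n).lipschitz) (fun n => (P n).per)
    (fun n => (P n).pos) (fun n => (hR n).trans (P n).cover) P' hL hc
  exact ((t _ _).eventually_const_le (lt_min_iff.1 c1).1).and
    ((t _ _).eventually_const_le (lt_min_iff.1 c1).2)

theorem Family.not_compact (Φ : Family) {𝓕 : Set (Set ℂ)} (h : ∀ τ, Φ.Ω τ ∈ 𝓕) :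
    ¬SmoothCompact 𝓕 := by
  intro H
  obtain ⟨φ, hφ, R, Ω', -, m, P, P', hP⟩ := H (fun n => Φ.Ω n) fun n => h n
  exact fin2_no Φ (τ := fun n => (φ n : ℝ)) (tendsto_natCast_atTop_atTop.comp hφ.tendsto_atTop) R P
    (fun n => fin2_front _ _) P' (fun i => (hP i).1) fun i => by simpa using (hP i).2 0

theorem fin2_pt {u : Ultrafilter ℝ} {R : ℝ → ℂ ≃ᵢ ℂ} {x : ℝ → ℂ} {a b : ℂ} (hx : Tendsto x u (𝓝 a))
    (hy : Tendsto (fun σ => R σ (x σ)) u (𝓝 b)) (z : ℂ) :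
    ∃ w, Tendsto (fun σ => R σ z) u (𝓝 w) := by
  have h : ∀ᶠ σ in u, R σ z ∈ closedBall b (dist z a + 1 + 1) := by
    filter_upwards [hx (closedBall_mem_nhds a one_pos), hy (closedBall_mem_nhds b one_pos)]
      with σ h1 h2
    have e1 := dist_triangle (R σ z) (R σ (x σ)) b
    have e2 := dist_triangle_right z (x σ) a
    have e3 : dist (x σ) a ≤ 1 := h1
    have e4 : dist (R σ (x σ)) b ≤ 1 := h2
    rw [(R σ).dist_eq] at e1
    exact mem_closedBall.2 (by linarith)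
  obtain ⟨w, -, hw⟩ := (isCompact_closedBall b _).ultrafilter_le_nhds (u.map fun σ => R σ z)
    (le_principal_iff.2 h)
  exact ⟨w, hw⟩

theorem fin2_mv {u : Filter ℝ} {R : ℝ → ℂ ≃ᵢ ℂ} {x : ℝ → ℂ} {a b : ℂ} (hx : Tendsto x u (𝓝 a))
    (hy : Tendsto (fun σ => R σ a) u (𝓝 b)) : Tendsto (fun σ => R σ (x σ)) u (𝓝 b) :=
  hy.congr_dist (by simpa [IsometryEquiv.dist_eq] using (tendsto_const_nhds (x := a)).dist hx)

theorem fin2_iso {u : Ultrafilter ℝ} {R : ℝ → ℂ ≃ᵢ ℂ} {x : ℝ → ℂ} {a b : ℂ} (hx : Tendsto x u (𝓝 a))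
    (hy : Tendsto (fun σ => R σ (x σ)) u (𝓝 b)) : ∃ S : ℂ ≃ᵢ ℂ, ∀ z,
      Tendsto (fun σ => R σ z) u (𝓝 (S z)) ∧ Tendsto (fun σ => (R σ).symm z) u (𝓝 (S.symm z)) := by
  choose f hf using fin2_pt hx hy
  choose g hg using fin2_pt (R := fun σ => (R σ).symm) hy (by simpa using hx)
  refine ⟨⟨⟨f, g, fun z => ?_, fun z => ?_⟩, Isometry.of_dist_eq fun z w => ?_⟩,
    fun z => ⟨hf z, hg z⟩⟩
  · exact tendsto_nhds_unique (fin2_mv (R := fun σ => (R σ).symm) (hf z) (hg _))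
      (by simp)
  · exact tendsto_nhds_unique (fin2_mv (hg z) (hf _)) (by simp)
  · exact tendsto_nhds_unique ((hf z).dist (hf w))
      (by simp [IsometryEquiv.dist_eq])

theorem fin2_graph (Φ : Family) : IsClosed {x : ℝ × ℂ | x.2 ∈ frontier (Φ.Ω x.1)} := by
  have e : {x : ℝ × ℂ | x.2 ∈ frontier (Φ.Ω x.1)} = ⋃ i, Prod.fst ''
      {y : (ℝ × ℂ) × Icc 0 (0 + Φ.L i) | (Φ.P y.1.1).γ i y.2 = y.1.2} := by
    ext x
    rw [mem_ofPred_eq, (Φ.P x.1).cover, mem_iUnion, mem_iUnion]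
    refine exists_congr fun i => ?_
    rw [← ((Φ.P x.1).per i).image_Icc ((Φ.P x.1).pos i) 0, Φ.hL]
    exact ⟨fun ⟨s, hs, h⟩ => ⟨(x, ⟨s, hs⟩), h, rfl⟩, fun ⟨y, h, e⟩ => ⟨y.2, y.2.2, e ▸ h⟩⟩
  rw [e]
  exact isClosed_iUnion_of_finite fun i => isClosedMap_fst_of_compactSpace _ (isClosed_eq
    ((Φ.cont i).comp (continuous_fst.fst.prodMk (continuous_subtype_val.comp continuous_snd)))
    continuous_fst.snd)

/-- parameters whose boundary is congruent to the boundary at `t` -/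
def fin2C (Φ : Family) (t : ℝ) : Set ℝ :=
  {τ | ∃ R : ℂ ≃ᵢ ℂ, R '' frontier (Φ.Ω τ) = frontier (Φ.Ω t)}

theorem fin2_closed (Φ : Family) (t : ℝ) : IsClosed (fin2C Φ t) := by
  refine isClosed_of_closure_subset fun τ hτ => ?_
  obtain ⟨u, hu, ht⟩ := mem_closure_iff_ultrafilter.1 hτ
  have : Nonempty (ℂ ≃ᵢ ℂ) := ⟨IsometryEquiv.refl ℂ⟩
  have A : ∀ σ ∈ fin2C Φ t, ∃ R : ℂ ≃ᵢ ℂ, R '' frontier (Φ.Ω σ) = frontier (Φ.Ω t) := fun _ h => h
  choose! R hR using A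
  have K : IsCompact (frontier (Φ.Ω t)) := by
    rw [(Φ.P t).cover]
    exact isCompact_iUnion fun i =>
      ((Φ.P t).per i).compact_of_continuous ((Φ.P t).pos i).ne' ((Φ.P t).smooth i).continuous
  have x : ∀ i s, Tendsto (fun σ => (Φ.P σ).γ i s) u (𝓝 ((Φ.P τ).γ i s)) := fun i s =>
    (((Φ.cont i).comp (Continuous.prodMk_left s)).tendsto τ).mono_left ht
  have y : ∀ i s, ∀ᶠ σ in u, R σ ((Φ.P σ).γ i s) ∈ frontier (Φ.Ω t) := fun i s =>
    mem_of_superset hu fun σ h => hR σ h ▸ mem_image_of_mem _ (fin2_mem _ i s)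
  obtain ⟨b, -, hb⟩ := K.ultrafilter_le_nhds (u.map fun σ => R σ ((Φ.P σ).γ 0 0))
    (le_principal_iff.2 (y 0 0))
  obtain ⟨S, hS⟩ := fin2_iso (x 0 0) hb
  refine ⟨S, Subset.antisymm ?_ fun z hz => ⟨S.symm z, ?_, S.apply_symm_apply z⟩⟩
  · rintro _ ⟨z, hz, rfl⟩
    rw [(Φ.P τ).cover] at hz
    obtain ⟨i, s, rfl⟩ := mem_iUnion.1 hz
    exact isClosed_frontier.mem_of_tendsto (fin2_mv (x i s) (hS _).1) (y i s)
  · refine (fin2_graph Φ).mem_of_tendsto (Tendsto.prodMk_nhds (show Tendsto id _ _ from ht)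
      (hS z).2) (mem_of_superset hu fun σ h => ?_)
    obtain ⟨w, hw, e⟩ := (hR σ h).ge hz
    change (R σ).symm z ∈ frontier (Φ.Ω σ)
    rw [← e, IsometryEquiv.symm_apply_apply]; exact hw

theorem fin2_eq (Φ : Family) {τ t : ℝ} (h : τ ∈ fin2C Φ t) : fin2C Φ τ = fin2C Φ t := by
  obtain ⟨R, hR⟩ := h
  refine Subset.antisymm (fun σ ⟨S, hS⟩ => ⟨S.trans R, ?_⟩) fun σ ⟨S, hS⟩ => ⟨S.trans R.symm, ?_⟩
  · rw [← hR, ← hS, image_image]; rfl
  · rw [← R.injective.image_injective.eq_iff, hR, ← hS, image_image]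
    exact image_congr fun z _ => R.apply_symm_apply _

/-- Work with the coarser relation: a motion maps one frontier onto the other.  Its classes are
closed in `τ` (motions that move a bounded set onto a bounded set have a convergent subsequence),
no class is unbounded above (`no_limit` with constant curves), then `sierpinski_line`. -/
theorem Family.uncountable (Φ : Family) :
    ¬∃ T : Set ℝ, T.Countable ∧ ∀ τ, ∃ t ∈ T, Congruent (Φ.Ω τ) (Φ.Ω t) := by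
  rintro ⟨T, hT, h⟩
  have m : ∀ τ, ∃ t ∈ T, τ ∈ fin2C Φ t := fun τ => by
    obtain ⟨t, ht, R, hR⟩ := h τ
    exact ⟨t, ht, R, by rw [fin2_front, hR]⟩
  have := (hT.image (fin2C Φ)).to_subtype
  obtain ⟨⟨_, t, ht, rfl⟩, e⟩ := sierpinski_line (fun i : fin2C Φ '' T => (i : Set ℝ))
    (by rintro ⟨_, t, -, rfl⟩; exact fin2_closed Φ t)
    (by
      rintro ⟨_, t, ht, rfl⟩ ⟨_, s, hs, rfl⟩ ne
      exact disjoint_left.2 fun τ a b => ne (Subtype.ext ((fin2_eq Φ a).symm.trans (fin2_eq Φ b))))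
    (eq_univ_of_forall fun τ => by
      obtain ⟨t, ht, a⟩ := m τ
      exact mem_iUnion.2 ⟨⟨_, t, ht, rfl⟩, a⟩)
  have A : ∀ n : ℕ, ∃ R : ℂ ≃ᵢ ℂ, R '' frontier (Φ.Ω n) = frontier (Φ.Ω t) := fun n =>
    e.ge (mem_univ (n : ℝ))
  choose R hR using A
  exact fin2_no Φ tendsto_natCast_atTop_atTop R (fun _ => Φ.P t) hR (Φ.P t)
    (fun _ => tendsto_const_nhds) fun i => TendstoUniformly.tendstoLocallyUniformly
      fun v hv => .of_forall fun _ _ => refl_mem_uniformity hv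

end StekIso
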