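import Pool.Agent.Lib.MP_fa022d_an.HiN2
import Pool.Agent.Lib.MP_fa022d_an.Hol1
import Pool.Agent.Lib.MP_fa022d_an.Four2

/-! The derivative of the main part of the high equations. -/

open Set Filter Topology Metric BoundedContinuousFunction Complex

noncomputable section
namespace StekIso
variable {B : Base} {η μ Cs c0 : ℝ} {Ai ϱ : Bool → ℤ → ℂ}

theorem hin3_bd (N0 : ℕ) (b : Idx) :
    ‖(if (N0 : ℤ) ≤ |b.2| then (if 0 < b.2 then 1 else sg b.2) else 0 : ℂ)‖ ≤ 1 := by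
  split_ifs <;> simp [sym1_norm_sg]

theorem tail_apply (N0 : ℕ) (b : Idx) :
    tail N0 b = if (N0 : ℤ) ≤ |b.2| then (if 0 < b.2 then 1 else sg b.2) else 0 :=
  toB_apply (hin3_bd N0) b
theorem norm_tail_le (N0 : ℕ) : ‖tail N0‖ ≤ 1 :=
  (BoundedContinuousFunction.norm_le zero_le_one).2 fun b => by
    rw [tail_apply]; exact hin3_bd N0 b
theorem tail_real (N0 : ℕ) : tail N0 ∈ reB Idx := fun b => by
  rw [tail_apply]
  split_ifs <;> simp [sym1_sg_im]

theorem hin3_sg_add (a b : ℤ) : sg (a + b) = sg a * sg b := zpow_add₀ (by norm_num) a b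

theorem hin3_sg_neg (a : ℤ) : sg (-a) = sg a := by
  rcases Int.even_or_odd a with h | h
  · rw [sym1_sg_even h, sym1_sg_even h.neg]
  · rw [sym1_sg_odd h, sym1_sg_odd h.neg]

theorem hin3_pos (x : Idx → ℂ) (j : Bool) {k : ℤ} (h : 0 < k) :
    uu x j k = x (j, k) + I * x (j, -k) := if_pos h

theorem hin3_neg (x : Idx → ℂ) (j : Bool) {k : ℤ} (h : 0 < k) :
    uu x j (-k) = x (j, k) - I * x (j, -k) := by
  rw [uu, if_neg (by omega), if_pos (by omega), neg_neg]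

theorem hin3_tail (N0 : ℕ) (j : Bool) {k : ℤ} (h : 0 < k) :
    tail N0 (j, k) = (if (N0 : ℤ) ≤ k then 1 else 0) ∧
      tail N0 (j, -k) = if (N0 : ℤ) ≤ k then sg k else 0 := by
  simp only [tail_apply, abs_neg, abs_of_pos h, if_pos h, if_neg (show ¬0 < -k by omega),
    hin3_sg_neg, and_self]

/-- one normalised coordinate as a linear form -/
def hin3U (j : Bool) (k : ℤ) : X →ₗ[ℂ] ℂ where
  toFun x := uu x j k
  map_add' x y := by
    simp only [uu, coe_add, Pi.add_apply]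
    split_ifs <;> ring
  map_smul' c x := by
    simp only [uu, RingHom.id_apply, BoundedContinuousFunction.coe_smul, smul_eq_mul]
    split_ifs <;> ring

theorem hin3_bil {ι : Type} {c : ι → ℂ} {e : ι → ℝ} (he : Summable e) (hc : ∀ p, ‖c p‖ ≤ e p)
    (u v : ι → X →ₗ[ℂ] ℂ) (hu : ∀ p x, ‖u p x‖ ≤ 2 * ‖x‖) (hv : ∀ p x, ‖v p x‖ ≤ 2 * ‖x‖) :
    ∃ Q : X →L[ℂ] X →L[ℂ] ℂ, ∀ x w, HasSum (fun p => c p * (u p x * v p w)) (Q x w) ∧
      ‖Q x w‖ ≤ (4 * ∑' p, e p) * ‖x‖ * ‖w‖ := by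
  have b : ∀ x w p, ‖c p * (u p x * v p w)‖ ≤ e p * (4 * ‖x‖ * ‖w‖) := fun x w p => by
    rw [norm_mul, norm_mul]
    refine mul_le_mul (hc p) ((mul_le_mul (hu p x) (hv p w) (norm_nonneg _)
      (by positivity)).trans_eq (by ring)) (by positivity) ((norm_nonneg _).trans (hc p))
  have s : ∀ x w, Summable fun p => c p * (u p x * v p w) := fun x w =>
    Summable.of_norm_bounded (he.mul_right _) (b x w)
  have n : ∀ x w, ‖∑' p, c p * (u p x * v p w)‖ ≤ (4 * ∑' p, e p) * ‖x‖ * ‖w‖ := fun x w =>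
    (tsum_of_norm_bounded (he.hasSum.mul_right _) (b x w)).trans_eq (by ring)
  refine ⟨LinearMap.mkContinuous₂ (LinearMap.mk₂ ℂ (fun x w => ∑' p, c p * (u p x * v p w))
    (fun x y w => ?_) (fun a x w => ?_) (fun x y w => ?_) fun a x w => ?_) _ n,
    fun x w => ⟨(s x w).hasSum, n x w⟩⟩
  · rw [← (s x w).tsum_add (s y w)]
    exact tsum_congr fun p => by rw [map_add]; ring
  · rw [smul_eq_mul, ← tsum_mul_left]
    exact tsum_congr fun p => by rw [map_smul, smul_eq_mul]; ring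
  · rw [← (s x y).tsum_add (s x w)]
    exact tsum_congr fun p => by rw [map_add]; ring
  · rw [smul_eq_mul, ← tsum_mul_left]
    exact tsum_congr fun p => by rw [map_smul, smul_eq_mul]; ring

theorem hin3_quad (Q : X →L[ℂ] X →L[ℂ] ℂ) (x : X) :
    HasFDerivAt (fun x => Q x x) (Q x + Q.flip x) x := by
  refine (Q.hasFDerivAt_of_bilinear (hasFDerivAt_id x) (hasFDerivAt_id x)).congr_fderiv ?_
  ext w
  simp

theorem hin3_est (Q : X →L[ℂ] X →L[ℂ] ℂ) {C τ : ℝ} (hQ : ∀ x w, ‖Q x w‖ ≤ C * ‖x‖ * ‖w‖)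
    {t w : X} {L : ℂ} (h : ‖Q t w + Q w t - L‖ ≤ τ * ‖w‖) (x : X) :
    ‖fderiv ℂ (fun x => Q x x) x w - L‖ ≤ (2 * C * ‖x - t‖ + τ) * ‖w‖ := by
  have e : fderiv ℂ (fun x => Q x x) x w - L =
      Q (x - t) w + Q w (x - t) + (Q t w + Q w t - L) := by
    rw [(hin3_quad Q x).fderiv]
    simp only [_root_.add_apply, ContinuousLinearMap.flip_apply, map_sub,
      _root_.sub_apply]
    ring
  rw [e]
  refine (norm_add₃_le).trans ?_
  linarith [hQ (x - t) w, hQ w (x - t)]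

/-- the majorant of the coefficients -/
def hin3e (η Cs : ℝ) (p : ℤ × ℤ) : ℝ := Cs * (ex (3 / 4 * η) p.1 * ex (3 / 4 * η) p.2)

theorem hin3_sum (hη : 0 < η) (Cs : ℝ) : Summable (hin3e η Cs) := by
  have s : Summable (ex (3 / 4 * η)) := by
    simpa using summable_ex (η := 3 / 4 * η) (by positivity) 0
  exact (s.mul_of_nonneg s (fun k => (ex_pos _ k).le) fun k => (ex_pos _ k).le).mul_left Cs

theorem hin3_fub {c : ℤ × ℤ → ℂ} {e : ℤ × ℤ → ℝ} (he : Summable e) (hc : ∀ p, ‖c p‖ ≤ e p)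
    {z : ℤ → ℂ} {D : ℝ} (hz : ∀ k, ‖z k‖ ≤ D) (n : ℤ) :
    HasSum (fun p : ℤ × ℤ => c p * z (n + p.1)) (cor (fun a => ∑' a', c (a, a')) z n) := by
  have s : Summable fun p : ℤ × ℤ => c p * z (n + p.1) :=
    Summable.of_norm_bounded (he.mul_right D) fun p => by
      rw [norm_mul]
      exact mul_le_mul (hc p) (hz _) (norm_nonneg _) ((norm_nonneg _).trans (hc p))
  have k := s.hasSum
  rw [s.tsum_prod] at k
  simpa only [cor, tsum_mul_right] using k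

theorem hin3_LA (hη : 0 < η) (hS : SymOK B η μ Cs c0 Ai ϱ) (j : Bool) (n : ℕ) (w : X) :
    HasSum (fun p : ℤ × ℤ => qn B η j p * (if 0 < n + p.1 then
      w (j, n + p.1) + sg (n + p.2) * w (j, -(n + p.1)) else 0)) (Lrow B η (j, true, n) w) := by
  have b : ∀ f : ℤ → ℤ, ∀ k : ℤ, ‖(if 0 < k then w (j, f k) else 0 : ℂ)‖ ≤ ‖w‖ := fun f k => by
    split_ifs
    · exact w.norm_coe_le_norm _
    · simp
  have h1 := hin3_fub (hin3_sum hη Cs) (hS.qbd j) (b fun k => k) n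
  have h2 := hin3_fub (c := fun p => qn B η j p * sg p.2) (hin3_sum hη Cs)
    (fun p => by rw [norm_mul, sym1_norm_sg, mul_one]; exact hS.qbd j p) (b fun k => -k) n
  rw [Lrow_A hη hS j n w.norm_coe_le_norm]
  refine (h1.add (h2.mul_left (sg n))).congr_fun fun p => ?_
  rw [hin3_sg_add]
  split_ifs <;> ring

theorem hin3_two (w : X) (a b : Idx) {s : ℂ} (hs : ‖s‖ = 1) : ‖w a + s * w b‖ ≤ 2 * ‖w‖ := by
  refine (norm_add_le _ _).trans ?_
  rw [norm_mul, hs]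
  linarith [w.norm_coe_le_norm a, w.norm_coe_le_norm b]

theorem hin3_nLA (hη : 0 < η) (hS : SymOK B η μ Cs c0 Ai ϱ) (j : Bool) (n : ℕ) (w : X) :
    ‖Lrow B η (j, true, n) w‖ ≤ (∑' p, hin3e η Cs p) * (2 * ‖w‖) := by
  rw [← (hin3_LA hη hS j n w).tsum_eq]
  refine tsum_of_norm_bounded ((hin3_sum hη Cs).hasSum.mul_right _) fun p => ?_
  rw [norm_mul]
  refine mul_le_mul (hS.qbd j p) ?_ (norm_nonneg _) ((norm_nonneg _).trans (hS.qbd j p))
  split_ifs
  · exact hin3_two w _ _ (sym1_norm_sg _)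
  · simp

theorem hin3_nLB (j : Bool) (n : ℕ) (w : X) : ‖Lrow B η (j, false, n) w‖ ≤ 2 * ‖w‖ := by
  rcases Nat.eq_zero_or_pos n with rfl | h
  · rw [Lrow, tsum_eq_single (j, 0)]
    · have := w.norm_coe_le_norm (j, 0)
      have e : Lmat B η (j, false, 0) (j, 0) = 1 := by simp [Lmat]
      rw [e, one_mul]
      linarith [norm_nonneg w]
    · rintro ⟨i, k⟩ hb
      have e : Lmat B η (j, false, 0) (i, k) = 0 := by
        simp only [Lmat, Bool.false_eq_true, if_false, Nat.cast_zero, mul_zero, abs_eq_zero]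
        split_ifs with h1 h2
        · exact absurd (Prod.ext h1 h2) hb
        · rfl
        · rfl
      rw [e, zero_mul]
  · rw [Lrow_B j h]
    simpa using hin3_two w (j, 2 * n) (j, -(2 * n)) norm_one

theorem hin3_A (hη : 0 < η) (hS : SymOK B η μ Cs c0 Ai ϱ) (j : Bool) (n : ℕ) :
    ∃ Q : X →L[ℂ] X →L[ℂ] ℂ, (∀ x : X, mainL B η x (j, true, n) = Q x x) ∧
      (∀ x w, ‖Q x w‖ ≤ (4 * ∑' p, hin3e η Cs p) * ‖x‖ * ‖w‖) ∧ ∀ N0 : ℕ, 1 ≤ N0 → ∀ w : X,
        ‖Q (tail N0) w + Q w (tail N0) - Lrow B η (j, true, n) w‖ ≤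
          (∑' p : ℤ × ℤ, if n + p.2 < N0 then hin3e η Cs p else 0) * (2 * ‖w‖) := by
  have e0 : ∀ p, 0 ≤ hin3e η Cs p := fun p => (norm_nonneg _).trans (hS.qbd j p)
  obtain ⟨Q, hQ⟩ := hin3_bil (c := fun p : ℤ × ℤ =>
      if 1 ≤ n + p.1 ∧ 1 ≤ n + p.2 then qn B η j p / 2 else 0) (hin3_sum hη Cs)
    (fun p => by
      split_ifs
      · rw [norm_div, Complex.norm_ofNat]
        linarith [show _ ≤ hin3e η Cs p from hS.qbd j p, e0 p]
      · simpa using e0 p)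
    (fun p => hin3U j (n + p.1)) (fun p => hin3U j (-(n + p.2)))
    (fun p x => norm_uu_le x j _) fun p x => norm_uu_le x j _
  refine ⟨Q, fun x => ?_, fun x w => (hQ x w).2, fun N0 h0 w => ?_⟩
  · rw [← (hQ x x).1.tsum_eq, mainL, if_pos rfl, Qlim, ← tsum_div_const]
    refine tsum_congr fun p => ?_
    rw [show -(n + p.2 : ℤ) = -n - p.2 by ring]
    split_ifs
    · exact (mul_div_right_comm _ _ _)
    · simp
  · have h1 := (Equiv.prodComm ℤ ℤ).hasSum_iff.2 (hQ (tail N0) w).1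
    have h := (h1.add (hQ w (tail N0)).1).sub (hin3_LA hη hS j n w)
    rw [← h.tsum_eq]
    have s : Summable fun p : ℤ × ℤ => if n + p.2 < N0 then hin3e η Cs p else 0 :=
      (hin3_sum hη Cs).of_nonneg_of_le (fun p => by split_ifs; exacts [e0 p, le_rfl])
        fun p => by split_ifs; exacts [le_rfl, e0 p]
    refine tsum_of_norm_bounded (s.hasSum.mul_right _) ?_
    rintro ⟨a, a'⟩
    show ‖(if 1 ≤ n + a' ∧ 1 ≤ n + a then qn B η j (a', a) / 2 else 0) *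
        (uu (tail N0) j (n + a') * uu w j (-(n + a))) +
      (if 1 ≤ n + a ∧ 1 ≤ n + a' then qn B η j (a, a') / 2 else 0) *
        (uu w j (n + a) * uu (tail N0) j (-(n + a'))) - qn B η j (a, a') *
      (if 0 < n + a then w (j, n + a) + sg (n + a') * w (j, -(n + a)) else 0)‖ ≤
      (if n + a' < N0 then hin3e η Cs (a, a') else 0) * (2 * ‖w‖)
    by_cases ha : 0 < n + a
    · have b : ‖qn B η j (a, a') * (w (j, n + a) + sg (n + a') * w (j, -(n + a)))‖ ≤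
          hin3e η Cs (a, a') * (2 * ‖w‖) := by
        rw [norm_mul]
        exact mul_le_mul (hS.qbd j _) (hin3_two w _ _ (sym1_norm_sg _)) (norm_nonneg _) (e0 _)
      rw [if_pos ha]
      by_cases ha' : 0 < n + a'
      · rw [if_pos (show 1 ≤ n + a' ∧ 1 ≤ n + a from ⟨ha', ha⟩),
          if_pos (show 1 ≤ n + a ∧ 1 ≤ n + a' from ⟨ha, ha'⟩), hin3_pos _ j ha, hin3_pos _ j ha', hin3_neg _ j ha,
          hin3_neg _ j ha', (hin3_tail N0 j ha').1, (hin3_tail N0 j ha').2, hS.qsym j a' a]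
        by_cases hN : (N0 : ℤ) ≤ n + a'
        · simp only [if_pos hN, if_neg (not_lt.2 hN), zero_mul, norm_le_zero_iff]
          linear_combination (-(qn B η j (a, a') * sg (n + a') * w (j, -(n + a)))) * I_sq
        · simpa only [if_neg hN, if_pos (not_le.1 hN), mul_zero, add_zero, sub_zero, zero_mul,
            zero_sub, norm_neg] using b
      · rw [if_neg (show ¬(1 ≤ n + a' ∧ 1 ≤ n + a) by omega),
          if_neg (show ¬(1 ≤ n + a ∧ 1 ≤ n + a') by omega), if_pos (show n + a' < N0 by omega)]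
        simpa only [add_zero, zero_mul, zero_sub, norm_neg] using b
    · rw [if_neg (show ¬(1 ≤ n + a' ∧ 1 ≤ n + a) by omega),
        if_neg (show ¬(1 ≤ n + a ∧ 1 ≤ n + a') by omega), if_neg ha]
      simp only [zero_mul, mul_zero, add_zero, sub_zero, norm_zero]
      split_ifs
      · exact mul_nonneg (e0 _) (by positivity)
      · simp

theorem hin3_B (j : Bool) (n : ℕ) :
    ∃ Q : X →L[ℂ] X →L[ℂ] ℂ, (∀ x : X, mainL B η x (j, false, n) = Q x x) ∧
      (∀ x w, ‖Q x w‖ ≤ 1 * ‖x‖ * ‖w‖) ∧ ∀ N0 : ℕ, 1 ≤ N0 → N0 ≤ n → ∀ w : X,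
        Q (tail N0) w + Q w (tail N0) = Lrow B η (j, false, n) w := by
  let M : Idx → X →L[ℂ] X →L[ℂ] ℂ := fun a =>
    (ContinuousLinearMap.mul ℂ ℂ).bilinearComp (evalCLM ℂ a) (evalCLM ℂ a)
  have e : ∀ x w : X, ((1 / 2 : ℂ) • (M (j, 2 * n) + M (j, -(2 * n)))) x w =
      1 / 2 * (x (j, 2 * n) * w (j, 2 * n) + x (j, -(2 * n)) * w (j, -(2 * n))) := fun x w => rfl
  refine ⟨(1 / 2 : ℂ) • (M (j, 2 * n) + M (j, -(2 * n))), fun x => ?_, fun x w => ?_,
    fun N0 h0 h1 w => ?_⟩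
  · rw [e, mainL, if_neg Bool.false_ne_true]
    ring
  · have b : ∀ a, ‖x a * w a‖ ≤ ‖x‖ * ‖w‖ := fun a => by
      rw [norm_mul]
      exact mul_le_mul (x.norm_coe_le_norm a) (w.norm_coe_le_norm a) (norm_nonneg _)
        (norm_nonneg _)
    have := norm_add_le (x (j, 2 * n) * w (j, 2 * n)) (x (j, -(2 * n)) * w (j, -(2 * n)))
    rw [e, norm_mul, norm_div, norm_one, Complex.norm_ofNat]
    linarith [b (j, 2 * n), b (j, -(2 * n))]
  · have t := hin3_tail N0 j (k := 2 * n) (by omega)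
    rw [if_pos (by omega), if_pos (by omega), sym1_sg_even (even_two_mul _)] at t
    rw [e, e, t.1, t.2, Lrow_B j (h0.trans h1)]
    ring

theorem hin3_lim (hη : 0 < η) {Cs : ℝ} (hC : 0 ≤ Cs) (N0 : ℕ) :
    Tendsto (fun n : ℕ => ∑' p : ℤ × ℤ, if n + p.2 < N0 then hin3e η Cs p else 0) atTop (𝓝 0) := by
  have e0 : ∀ p, 0 ≤ hin3e η Cs p := fun p =>
    mul_nonneg hC (mul_pos (ex_pos _ _) (ex_pos _ _)).le
  have := tendsto_tsum_of_dominated_convergence (𝓕 := atTop)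
    (f := fun (n : ℕ) (p : ℤ × ℤ) => if n + p.2 < N0 then hin3e η Cs p else 0) (g := fun _ => 0)
    (hin3_sum hη Cs) (fun p => tendsto_const_nhds.congr' ?_) (Eventually.of_forall fun n p => ?_)
  · simpa only [tsum_zero] using this
  · filter_upwards [eventually_ge_atTop (N0 - p.2).toNat] with n hn
    rw [if_neg (by omega)]
  · split_ifs
    · exact (Real.norm_of_nonneg (e0 p)).le
    · simpa using e0 p

/-- `mainL x r = Q x x` for a bounded bilinear form `Q` (`SymOK.qbd`, `norm_uu_le`), so the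
derivative at `x` is `Q w x + Q x w`; at `x = tail N0` use `SymOK.qsym`: the coefficient of
`w (j, n + a)` is `∑ a' with n + a' ≥ N0, qn (a, a')`, which differs from `Aseq a` by the part
`a' < N0 - n`; same for `w (j, -(n + a))` and `sg n * Bseq a`. -/
theorem mainL_fderiv (hη : 0 < η) (hS : SymOK B η μ Cs c0 Ai ϱ) : ∃ C ≥ 1,
    (∀ r, Differentiable ℂ fun x : X => mainL B η x r) ∧
    (∀ r (x : X), ‖mainL B η x r‖ ≤ C * ‖x‖ ^ 2) ∧
    (∀ r (w : X), ‖Lrow B η r w‖ ≤ C * ‖w‖) ∧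
    ∀ τ > 0, ∀ N0 : ℕ, 1 ≤ N0 → ∃ n1 : ℝ, ∀ r : Bool × Bool × ℕ, n1 ≤ r.2.2 → ∀ x w : X,
      ‖fderiv ℂ (fun x : X => mainL B η x r) x w - Lrow B η r w‖ ≤
        (C * ‖x - tail N0‖ + τ) * ‖w‖ := by
  obtain ⟨E, hE⟩ : ∃ E, E = ∑' p, hin3e η Cs p := ⟨_, rfl⟩
  have E0 : 0 ≤ E := hE ▸ tsum_nonneg fun p => (norm_nonneg _).trans (hS.qbd true p)
  have up : ∀ {Q : X →L[ℂ] X →L[ℂ] ℂ} {c : ℝ}, c ≤ 4 * E + 1 → (∀ x w, ‖Q x w‖ ≤ c * ‖x‖ * ‖w‖) →
      ∀ x w, ‖Q x w‖ ≤ (4 * E + 1) * ‖x‖ * ‖w‖ := fun hc h x w => (h x w).trans (by gcongr)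
  have q : ∀ r, ∃ Q : X →L[ℂ] X →L[ℂ] ℂ, (∀ x : X, mainL B η x r = Q x x) ∧
      ∀ x w, ‖Q x w‖ ≤ (4 * E + 1) * ‖x‖ * ‖w‖ := by
    rintro ⟨j, _ | _, n⟩
    · obtain ⟨Q, h1, h2, -⟩ := hin3_B (B := B) (η := η) j n
      exact ⟨Q, h1, up (by linarith) h2⟩
    · obtain ⟨Q, h1, h2, -⟩ := hin3_A hη hS j n
      exact ⟨Q, h1, up (by rw [← hE]; linarith) h2⟩
  refine ⟨2 * (4 * E + 1), by linarith, fun r => ?_, fun r x => ?_, ?_, fun τ hτ N0 h0 => ?_⟩
  · obtain ⟨Q, h1, -⟩ := q r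
    rw [funext h1]
    exact fun x => (hin3_quad Q x).differentiableAt
  · obtain ⟨Q, h1, h2⟩ := q r
    rw [h1]
    nlinarith [h2 x x, mul_nonneg E0 (sq_nonneg ‖x‖), sq_nonneg ‖x‖]
  · rintro ⟨j, _ | _, n⟩ w
    · nlinarith [hin3_nLB (B := B) (η := η) j n w, mul_nonneg E0 (norm_nonneg w)]
    · have := hin3_nLA hη hS j n w
      rw [← hE] at this
      nlinarith [mul_nonneg E0 (norm_nonneg w), norm_nonneg w]
  · obtain ⟨m, hm⟩ := eventually_atTop.1 (((hin3_lim hη (zero_le_one.trans hS.one_le) N0).eventually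
      (ge_mem_nhds (half_pos hτ))).and (eventually_ge_atTop N0))
    refine ⟨m, ?_⟩
    rintro ⟨j, _ | _, n⟩ hn x w
    · obtain ⟨Q, h1, h2, h3⟩ := hin3_B (B := B) (η := η) j n
      rw [funext h1]
      refine hin3_est Q (up (by linarith) h2) ?_ x
      rw [h3 N0 h0 (hm n (Nat.cast_le.1 hn)).2, sub_self, norm_zero]
      positivity
    · obtain ⟨Q, h1, h2, h3⟩ := hin3_A hη hS j n
      rw [funext h1]
      refine hin3_est Q (up (by rw [← hE]; linarith) h2) ((h3 N0 h0 w).trans ?_) x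
      exact (mul_le_mul_of_nonneg_right (hm n (Nat.cast_le.1 hn)).1 (by positivity)).trans_eq
        (by ring)

end StekIso
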