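import Pool.Agent.Lib.MP_fa022d_an.Defs6
import Pool.Agent.Lib.MP_fa022d_an.Four2
import Pool.Agent.Lib.MP_fa022d_an.HiN3

open Set Filter Topology Metric BoundedContinuousFunction Complex

noncomputable section
namespace StekIso

variable {η : Pos}

theorem hia_idx {f : ℤ → ℝ} (hf : Summable f) (h0 : ∀ k, 0 ≤ f k) :
    HasSum (fun c : Idx => f c.2) (2 * ∑' k, f k) := by
  have s : Summable fun c : Idx => f c.2 :=
    (summable_prod_of_nonneg fun c => h0 c.2).2 ⟨fun _ => hf, Summable.of_finite⟩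
  have := s.hasSum
  rwa [s.tsum_prod, tsum_fintype, Fintype.sum_bool, ← two_mul] at this

theorem hia_ex {a : ℝ} (h : 0 < a) : Summable (ex a) := by simpa using summable_ex h 0

theorem hia_beta (a : ℝ) (k : ℤ) : beta a k ≤ ex a k :=
  div_le_self (ex_pos _ _).le (one_le_pow₀ (one_le_br k))

theorem hia_neg (a : ℝ) (k : ℤ) : beta a (-k) = beta a k := by simp [beta, ex, br]

theorem hia_co (w : V η) (j : Bool) (k : ℤ) : ‖(w j).coeff k‖ ≤ ‖w‖ / 128 * beta η.1 k := by
  have h : ‖(w j).coeff k‖ ≤ ‖w j‖ * (beta η.1 k / 128) := (w j).norm_coeff_le k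
  have := mul_le_mul_of_nonneg_right (norm_le_pi_norm w j) (beta_pos η.1 k).le
  linarith

theorem hia_one (η : Pos) (k : ℤ) : 1 ≤ ex (-(η.1 / 2)) k :=
  Real.one_le_exp (by have := η.2; rw [neg_neg]; positivity)

theorem hia_term (w : V η) (b : Idx) :
    ‖(w b.1).coeff b.2‖ * ex (-(η.1 / 2)) b.2 ≤ ‖w‖ * ex (η.1 / 2) b.2 := by
  have h1 := (hia_co w b.1 b.2).trans (mul_le_mul (div_le_self (norm_nonneg _) (by norm_num))
    (hia_beta _ _) (beta_pos _ _).le (norm_nonneg _))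
  refine (mul_le_mul_of_nonneg_right h1 (ex_pos _ _).le).trans_eq ?_
  rw [mul_assoc, four2_ex]; congr 2; ring

theorem hia_s (w : V η) : (Summable fun b : Idx => ‖(w b.1).coeff b.2‖ / br b.2) ∧
    (Summable fun b : Idx => ‖(w b.1).coeff b.2‖) ∧
    Summable fun b : Idx => ‖(w b.1).coeff b.2‖ * ex (-(η.1 / 2)) b.2 := by
  have s3 : Summable fun b : Idx => ‖(w b.1).coeff b.2‖ * ex (-(η.1 / 2)) b.2 :=
    .of_nonneg_of_le (fun b => mul_nonneg (norm_nonneg _) (ex_pos _ _).le) (hia_term w)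
      ((hia_idx (hia_ex (half_pos η.2)) fun k => (ex_pos _ _).le).summable.mul_left _)
  have s2 : Summable fun b : Idx => ‖(w b.1).coeff b.2‖ := .of_nonneg_of_le
    (fun b => norm_nonneg _) (fun b => le_mul_of_one_le_right (norm_nonneg _) (hia_one η _)) s3
  exact ⟨.of_nonneg_of_le (fun b => div_nonneg (norm_nonneg _) (br_pos _).le)
    (fun b => div_le_self (norm_nonneg _) (one_le_br _)) s2, s2, s3⟩

theorem norm_toV_le (η : Pos) (ε : ℝ) (x : X) : ‖toV η ε x‖ ≤ 256 * |ε| * ‖x‖ := by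
  refine (pi_norm_le_iff_of_nonneg (by positivity)).2 fun j =>
    WAlg.norm_le_of_coeff _ (by positivity) fun k => ?_
  rw [coeff_toV]; exact toV_aux η ε x j k

theorem toV_real (η : Pos) (ε : ℝ) {x : X} (hx : x ∈ reB Idx) : RealV (toV η ε x) := by
  intro j k
  have r : ∀ b, (starRingEnd ℂ) (x b) = x b := fun b => conj_eq_iff_im.2 (hx b)
  rw [coeff_toV, coeff_toV, hia_neg, map_mul, conj_ofReal]
  congr 1
  rcases lt_trichotomy k 0 with h | rfl | h
  · simp [uu, h, h.not_gt, r]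
  · simp [uu, r]
  · simp [uu, h, h.not_gt, r, sub_eq_add_neg]

theorem toV_surj {ε : ℝ} (hε : 0 < ε) {v : V η} (hv : RealV v) :
    ∃ x ∈ reB Idx, toV η ε x = v ∧ ‖x‖ ≤ ‖v‖ / (128 * ε) := by
  set f : Idx → ℂ := fun b => (((if 0 ≤ b.2 then ((v b.1).coeff b.2).re
    else ((v b.1).coeff (-b.2)).im) / (ε * beta η.1 b.2) : ℝ) : ℂ) with hf
  have bd : ∀ b, ‖f b‖ ≤ ‖v‖ / (128 * ε) := fun b => by
    have hb := beta_pos η.1 b.2
    rw [hf, Complex.norm_real, norm_div, Real.norm_of_nonneg (by positivity : 0 ≤ ε * _),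
      div_le_iff₀ (by positivity), Real.norm_eq_abs]
    have e : ‖v‖ / (128 * ε) * (ε * beta η.1 b.2) = ‖v‖ / 128 * beta η.1 b.2 := by field_simp
    rw [e]
    split_ifs
    · exact (abs_re_le_norm _).trans (hia_co v _ _)
    · exact (abs_im_le_norm _).trans ((hia_co v _ _).trans_eq (by rw [hia_neg]))
  have tb := toB_apply bd
  refine ⟨toB f, fun b => by rw [tb, hf, ofReal_im], funext fun j => WAlg.ext fun k => ?_,
    (BoundedContinuousFunction.norm_le (by positivity)).2 fun b => by rw [tb]; exact bd b⟩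
  have hb : ((ε * beta η.1 k : ℝ) : ℂ) ≠ 0 := ofReal_ne_zero.2 (mul_pos hε (beta_pos _ _)).ne'
  rw [coeff_toV, show ⇑(toB f) = f from funext tb]
  rcases lt_trichotomy k 0 with h | rfl | h
  · have e : (v j).coeff k = (starRingEnd ℂ) ((v j).coeff (-k)) := by rw [← hv, neg_neg]
    simp only [uu, h, h.not_gt, if_true, if_false, hf, Left.nonneg_neg_iff, h.le, h.not_ge,
      hia_neg, ofReal_div]
    rw [e, ← mul_div_assoc, ← sub_div, mul_div_cancel₀ _ hb]
    apply Complex.ext <;> simp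
  · have e : ((v j).coeff 0).im = 0 := conj_eq_iff_im.1 (hv j 0).symm
    simp only [uu, lt_irrefl, if_false, hf, le_refl, if_true, ofReal_div]
    rw [mul_div_cancel₀ _ hb]
    apply Complex.ext <;> simp [e]
  · simp only [uu, h, if_true, if_false, hf, Left.nonneg_neg_iff, h.le, h.not_ge,
      hia_neg, ofReal_div, neg_neg]
    rw [← mul_div_assoc, ← add_div, mul_div_cancel₀ _ hb]
    apply Complex.ext <;> simp

theorem weak_le (η : Pos) : ∃ K ≥ 1, ∀ w : V η,
    0 ≤ pn w ∧ pn w ≤ l1n w ∧ l1n w ≤ sn w ∧ sn w ≤ K * ‖w‖ := by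
  have h := hia_idx (hia_ex (half_pos η.2)) fun k => (ex_pos _ _).le
  have e0 : 0 ≤ ∑' k, ex (η.1 / 2) k := tsum_nonneg fun k => (ex_pos _ _).le
  refine ⟨1 + 2 * ∑' k, ex (η.1 / 2) k, by linarith, fun w => ?_⟩
  obtain ⟨s1, s2, s3⟩ := hia_s w
  refine ⟨tsum_nonneg fun b => div_nonneg (norm_nonneg _) (br_pos _).le,
    s1.tsum_le_tsum (fun b => div_le_self (norm_nonneg _) (one_le_br _)) s2,
    s2.tsum_le_tsum (fun b => le_mul_of_one_le_right (norm_nonneg _) (hia_one η _)) s3, ?_⟩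
  have := hasSum_le (hia_term w) s3.hasSum (h.mul_left ‖w‖)
  rw [sn]
  linarith [norm_nonneg w]

theorem weak_add (w w' : V η) : pn (w + w') ≤ pn w + pn w' ∧ l1n (w + w') ≤ l1n w + l1n w' ∧
    sn (w + w') ≤ sn w + sn w' := by
  obtain ⟨s1, s2, s3⟩ := hia_s w
  obtain ⟨t1, t2, t3⟩ := hia_s w'
  obtain ⟨u1, u2, u3⟩ := hia_s (w + w')
  have h : ∀ b : Idx, ‖((w + w') b.1).coeff b.2‖ ≤ ‖(w b.1).coeff b.2‖ + ‖(w' b.1).coeff b.2‖ :=
    fun b => by rw [Pi.add_apply, WAlg.coeff_add]; exact norm_add_le _ _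
  refine ⟨hasSum_le (fun b => ?_) u1.hasSum (s1.hasSum.add t1.hasSum),
    hasSum_le h u2.hasSum (s2.hasSum.add t2.hasSum),
    hasSum_le (fun b => ?_) u3.hasSum (s3.hasSum.add t3.hasSum)⟩
  · rw [← add_div]; exact div_le_div_of_nonneg_right (h b) (br_pos _).le
  · rw [← add_mul]; exact mul_le_mul_of_nonneg_right (h b) (ex_pos _ _).le

theorem weak_smul (a : ℂ) (w : V η) : pn (a • w) = ‖a‖ * pn w ∧ l1n (a • w) = ‖a‖ * l1n w ∧
    sn (a • w) = ‖a‖ * sn w := by
  simp only [pn, l1n, sn, Pi.smul_apply, WAlg.coeff_smul, norm_mul, mul_div_assoc, mul_assoc,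
    tsum_mul_left, and_self]

theorem weak_neg (w : V η) : pn (-w) = pn w ∧ l1n (-w) = l1n w ∧ sn (-w) = sn w := by
  simp only [pn, l1n, sn, Pi.neg_apply, WAlg.coeff_neg, norm_neg, and_self]

theorem hil_sub_le (w w' : V η) (j : Bool) (s : ℝ) :
    ‖hil (w j).coeff s - hil (w' j).coeff s‖ ≤ l1n (w - w') := by
  have su : ∀ u : V η, Summable fun k => ‖(u j).coeff k‖ := fun u => (hia_s u).2.1.prod_factor j
  have t : ∀ (c : ℂ) (k : ℤ), ‖-I * Int.sign k * c * exp (I * k * s)‖ ≤ ‖c‖ := fun c k => by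
    rw [norm_mul, (four1_norm k _).1, mul_one, norm_mul, norm_mul, norm_neg, norm_I, one_mul]
    refine mul_le_of_le_one_left (norm_nonneg _) ?_
    rcases lt_trichotomy k 0 with h | rfl | h
    · simp [Int.sign_eq_neg_one_of_neg h]
    · simp
    · simp [Int.sign_eq_one_of_pos h]
  rw [hil, hil, fs, fs, ← (Summable.of_norm_bounded (su w) fun k => t _ k).tsum_sub
    (Summable.of_norm_bounded (su w') fun k => t _ k)]
  refine (tsum_of_norm_bounded (su (w - w')).hasSum fun k => ?_).trans ?_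
  · rw [← sub_mul, ← mul_sub, Pi.sub_apply, WAlg.coeff_sub]; exact t _ k
  · rw [l1n, (hia_s (w - w')).2.1.tsum_prod, tsum_fintype (β := Bool)]
    exact Finset.single_le_sum (f := fun i => ∑' k, ‖((w - w') i).coeff k‖)
      (fun i _ => tsum_nonneg fun k => norm_nonneg _) (Finset.mem_univ j)

theorem hia_uu {a M D : ℝ} {w : Idx → ℂ} (hw : MB a M D w) {j : Bool} {k : ℤ}
    (h0 : 0 ≤ D * om a M |(k : ℝ)|) : ‖uu w j k‖ ≤ 2 * (D * om a M |(k : ℝ)|) := by
  have h1 := hw (j, k)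
  have h2 := hw (j, -k)
  simp only [Int.cast_neg, abs_neg] at h1 h2
  unfold uu
  split_ifs with p q
  · refine (norm_add_le _ _).trans ?_
    rw [norm_mul, norm_I, one_mul]; linarith
  · refine (norm_sub_le _ _).trans ?_
    rw [norm_mul, norm_I, one_mul]; linarith
  · obtain rfl : k = 0 := by omega
    linarith

theorem hia_br (M : ℕ) (k : ℤ) : br M ≤ br k * br (M - |k|) := by
  simp only [br, Int.cast_sub, Int.cast_abs, Int.cast_natCast, Nat.abs_cast]
  nlinarith [abs_nonneg (k : ℝ), abs_nonneg ((M : ℝ) - |(k : ℝ)|), le_abs_self ((M : ℝ) - |(k : ℝ)|)]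

theorem hia_key {a : ℝ} (ha : 0 ≤ a) (M : ℕ) (k : ℤ) : beta a k * om a M |(k : ℝ)| ≤
    beta a M * (br (M - |k|) ^ 4 * ex (a / 4) (M - |k|)) := by
  have h1 : ex a k * om a M |(k : ℝ)| ≤ ex a M * ex (a / 4) (M - |k|) := by
    simp only [ex, om, ← Real.exp_add, Int.cast_sub, Int.cast_abs, Int.cast_natCast, Nat.abs_cast]
    refine Real.exp_le_exp.2 ?_
    rcases le_total 0 ((M : ℝ) - |(k : ℝ)|) with h | h
    · rw [max_eq_left h, abs_of_nonneg h]; linarith
    · rw [max_eq_right h, abs_of_nonpos h]; nlinarith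
  have r0 := br_pos M
  have r1 := br_pos k
  have h2 : 1 / br k ^ 4 ≤ br (M - |k|) ^ 4 / br M ^ 4 := by
    rw [div_le_div_iff₀ (by positivity) (by positivity), one_mul, ← mul_pow, mul_comm]
    exact pow_le_pow_left₀ r0.le (hia_br M k) 4
  calc _ = ex a k * om a M |(k : ℝ)| * (1 / br k ^ 4) := by rw [beta]; ring
    _ ≤ _ := mul_le_mul h1 h2 (by positivity) (mul_pos (ex_pos _ _) (ex_pos _ _)).le
    _ = _ := by rw [beta]; ring

/-- `beta k / beta M ≤ exp (η (M - k)) * br (M - k) ^ 4` and `1 / br k ≤ br (M - k) / br M` -/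
theorem toV_MB (η : Pos) : ∃ K ≥ 1, ∀ (ε D : ℝ) (M : ℕ) (w : X), 0 ≤ ε → 0 ≤ D →
    MB η.1 M D w → l1n (toV η ε w) ≤ K * D * (ε * beta η.1 M) ∧
      pn (toV η ε w) ≤ K * D * (ε * beta η.1 M) / br M := by
  have h4 : 0 < η.1 / 4 := by have := η.2; positivity
  set G : ℤ → ℝ := fun t => br t ^ 5 * ex (η.1 / 4) t with hG
  have G0 : ∀ t, 0 ≤ G t := fun t => mul_nonneg (pow_pos (br_pos _) _).le (ex_pos _ _).le
  have sG : Summable G := summable_ex h4 5
  have e0 : 0 ≤ ∑' t, G t := tsum_nonneg G0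
  refine ⟨1 + 8 * ∑' t, G t, by linarith, fun ε D M w hε hD hw => ?_⟩
  have g1 := (Equiv.subLeft (M : ℤ)).hasSum_iff.2 sG.hasSum
  have g2 := (Equiv.addLeft (M : ℤ)).hasSum_iff.2 sG.hasSum
  have g3 : HasSum (fun k : ℤ => G (M - k) + G (M + k)) _ := g1.add g2
  have g4 := hia_idx g3.summable fun k => add_nonneg (G0 _) (G0 _)
  rw [g3.tsum_eq] at g4
  have g5 : ∀ k : ℤ, G (M - |k|) ≤ G (M - k) + G (M + k) := fun k => by
    rcases abs_choice k with h | h <;> rw [h]
    · exact le_add_of_nonneg_right (G0 _)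
    · rw [sub_neg_eq_add]; exact le_add_of_nonneg_left (G0 _)
  have bM := beta_pos η.1 M
  have c0 : 0 ≤ D * (ε * beta η.1 M) := by positivity
  have k1 : ∀ b : Idx, ‖(toV η ε w b.1).coeff b.2‖ ≤ 2 * (D * (ε * beta η.1 M)) *
      (br (M - |b.2|) ^ 4 * ex (η.1 / 4) (M - |b.2|)) := fun b => by
    have hb := beta_pos η.1 b.2
    rw [coeff_toV, norm_mul, Complex.norm_real, Real.norm_of_nonneg (by positivity)]
    calc _ ≤ ε * beta η.1 b.2 * (2 * (D * om η.1 M |(b.2 : ℝ)|)) :=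
          mul_le_mul_of_nonneg_left (hia_uu hw (mul_nonneg hD (Real.exp_pos _).le)) (by positivity)
      _ = 2 * D * ε * (beta η.1 b.2 * om η.1 M |(b.2 : ℝ)|) := by ring
      _ ≤ 2 * D * ε * _ := mul_le_mul_of_nonneg_left (hia_key η.2.le M b.2) (by positivity)
      _ = _ := by ring
  obtain ⟨s1, s2, -⟩ := hia_s (toV η ε w)
  have r0 := br_pos M
  constructor
  · have := hasSum_le (fun b => (k1 b).trans (mul_le_mul_of_nonneg_left
      ((mul_le_mul_of_nonneg_right (pow_le_pow_right₀ (one_le_br _) (by norm_num : 4 ≤ 5))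
        (ex_pos _ _).le).trans (g5 b.2)) (by positivity))) s2.hasSum (g4.mul_left _)
    rw [l1n]; linarith
  · have := hasSum_le (fun b : Idx => show ‖(toV η ε w b.1).coeff b.2‖ / br b.2 ≤
        2 * (D * (ε * beta η.1 M)) / br M * (G (M - b.2) + G (M + b.2)) from by
      have r1 := br_pos b.2
      have r2 := br_pos (M - |b.2|)
      have r3 := ex_pos (η.1 / 4) (M - |b.2|)
      refine le_trans ?_ (mul_le_mul_of_nonneg_left (g5 b.2) (by positivity))
      rw [div_le_iff₀ r1]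
      refine (k1 b).trans ?_
      have : 1 ≤ br b.2 * br (M - |b.2|) / br M := (one_le_div r0).2 (hia_br M b.2)
      calc _ ≤ _ := le_mul_of_one_le_right (by positivity) this
        _ = _ := by simp only [hG]; ring) s1.hasSum (g4.mul_left _)
    refine this.trans ?_
    rw [div_mul_eq_mul_div]
    exact div_le_div_of_nonneg_right (by linarith) r0.le

theorem toV_tail (η : Pos) {θ : ℝ} (hθ : 0 < θ) : ∃ n : ℕ, ∀ (ε : ℝ) (w : X), 0 ≤ ε →
    (∀ b : Idx, |(b.2 : ℝ)| < n → w b = 0) → sn (toV η ε w) ≤ θ * ε * ‖w‖ := by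
  have h4 : 0 < η.1 / 4 := by have := η.2; positivity
  have h := hia_idx (hia_ex h4) fun k => (ex_pos _ _).le
  set E := 2 * ∑' k, ex (η.1 / 4) k with hE
  have t : Tendsto (fun n : ℕ => 2 * E * Real.exp (-(η.1 / 4 * n))) atTop (𝓝 (2 * E * 0)) :=
    (Real.tendsto_exp_neg_atTop_nhds_zero.comp
      (tendsto_natCast_atTop_atTop.const_mul_atTop h4)).const_mul _
  obtain ⟨n, hn⟩ := (t.eventually (gt_mem_nhds (show _ < θ by rwa [mul_zero]))).exists
  refine ⟨n, fun ε w hε hw => ?_⟩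
  have k : ∀ b : Idx, ‖(toV η ε w b.1).coeff b.2‖ * ex (-(η.1 / 2)) b.2 ≤
      2 * Real.exp (-(η.1 / 4 * n)) * (ε * ‖w‖) * ex (η.1 / 4) b.2 := fun b => by
    have e1 := ex_pos (η.1 / 4) b.2
    have hb := beta_pos η.1 b.2
    rw [coeff_toV]
    rcases lt_or_ge |(b.2 : ℝ)| n with p | p
    · have : uu w b.1 b.2 = 0 := by
        have z1 := hw (b.1, b.2) p
        have z2 := hw (b.1, -b.2) (by simpa using p)
        unfold uu
        split_ifs with q r
        · rw [z1, z2]; simp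
        · rw [z1, z2]; simp
        · have : b.2 = 0 := by omega
          rwa [this] at z1
      rw [this, mul_zero, norm_zero, zero_mul]; positivity
    · have h1 : ex η.1 b.2 * ex (-(η.1 / 2)) b.2 ≤
          Real.exp (-(η.1 / 4 * n)) * ex (η.1 / 4) b.2 := by
        simp only [ex, ← Real.exp_add]
        exact Real.exp_le_exp.2 (by nlinarith)
      have e2 := ex_pos η.1 b.2
      have e3 := ex_pos (-(η.1 / 2)) b.2
      rw [norm_mul, Complex.norm_real, Real.norm_of_nonneg (by positivity)]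
      calc _ ≤ ε * ex η.1 b.2 * (2 * ‖w‖) * ex (-(η.1 / 2)) b.2 := by
            gcongr
            · exact hia_beta _ _
            · exact norm_uu_le _ _ _
        _ = 2 * (ε * ‖w‖) * (ex η.1 b.2 * ex (-(η.1 / 2)) b.2) := by ring
        _ ≤ 2 * (ε * ‖w‖) * _ := mul_le_mul_of_nonneg_left h1 (by positivity)
        _ = _ := by ring
  have := hasSum_le k (hia_s (toV η ε w)).2.2.hasSum (h.mul_left _)
  have q := mul_le_mul_of_nonneg_right hn.le (by positivity : 0 ≤ ε * ‖w‖)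
  rw [sn]; linarith

end StekIso
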