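import Pool.Agent.Lib.MP_fa022d_an.Top3

/-! A harmonic function near the closed annulus with the boundary condition gives a Steklov
function of the image domain. -/

open Set Filter Topology Metric BoundedContinuousFunction Complex

noncomputable section
namespace StekIso

theorem linke_uniq {H : ℝ} (hH : 0 < H) : UniqueDiffOn ℝ (cann H) := fun a ha => by
  have he : Real.exp (-H) < 1 := Real.exp_lt_one_iff.2 (by linarith)
  have he0 := Real.exp_pos (-H)
  set r := Real.exp (-H) with hr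
  have a0 : 0 < ‖a‖ := he0.trans_le ha.1
  set c : ℂ := (((1 + r) / 2 / ‖a‖ : ℝ) : ℂ) * a with hc
  have nc : ‖c‖ = (1 + r) / 2 := by
    rw [hc, norm_mul, Complex.norm_real, Real.norm_of_nonneg (by positivity)]
    field_simp
  have hs : closedBall c ((1 - r) / 2) ⊆ cann H := fun w hw => by
    rw [mem_closedBall, dist_eq_norm] at hw
    have h1 := abs_le.1 ((abs_norm_sub_norm_le w c).trans hw)
    exact ⟨by linarith [h1.1], by linarith [h1.2]⟩
  have hm : a ∈ closedBall c ((1 - r) / 2) := by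
    have e : a - c = (((‖a‖ - (1 + r) / 2) / ‖a‖ : ℝ) : ℂ) * a := by
      have : (‖a‖ : ℂ) ≠ 0 := by exact_mod_cast a0.ne'
      rw [hc]; push_cast; field_simp
    rw [mem_closedBall, dist_eq_norm, e, norm_mul, Complex.norm_real, Real.norm_eq_abs, abs_div,
      abs_of_pos a0, div_mul_cancel₀ _ a0.ne']
    exact abs_le.2 ⟨by linarith [ha.1], by linarith [ha.2]⟩
  refine (uniqueDiffOn_convex (convex_closedBall c _) ?_ a hm).mono hs
  exact ⟨c, ball_subset_interior_closedBall (mem_ball_self (by linarith))⟩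

/-- real part of a holomorphic function plus a logarithm -/
def linkeU (g : ℂ → ℂ) (e : ℝ) (z : ℂ) : ℝ := (g z).re + e * Real.log ‖z‖

theorem linke_harm {g Φ : ℂ → ℂ} (e : ℝ) {w : ℂ} (hΦ : AnalyticAt ℂ Φ w)
    (hg : AnalyticAt ℂ g (Φ w)) (h0 : Φ w ≠ 0) :
    InnerProductSpace.HarmonicAt (fun v => linkeU g e (Φ v)) w :=
  (hg.comp hΦ).harmonicAt_re.add ((hΦ.harmonicAt_log_norm h0).const_smul (c := e))

theorem linke_ne {H δ : ℝ} {z : ℂ} (hz : z ∈ ann H δ) : z ≠ 0 :=
  norm_pos_iff.1 ((Real.exp_pos _).trans hz.1)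

theorem linke_harm1 {g : ℂ → ℂ} (e : ℝ) {H ρ : ℝ} (hg : DifferentiableOn ℂ g (ann H ρ)) {z : ℂ}
    (hz : z ∈ ann H ρ) : InnerProductSpace.HarmonicAt (linkeU g e) z :=
  linke_harm (Φ := fun v => v) e analyticAt_id (hg.analyticAt ((isOpen_ann H ρ).mem_nhds hz))
    (linke_ne hz)

theorem linke_side {ρ : ℝ → ℝ} {d : ℝ} (h : HasDerivAt ρ d 0) (hd : 0 < d) :
    ∀ᶠ t in 𝓝[Iic 0] (0 : ℝ), ρ t ≤ ρ 0 := by
  have h1 := hasDerivAt_iff_tendsto_slope_zero.1 h
  have h2 : ∀ᶠ t in 𝓝[<] (0 : ℝ), 0 < t⁻¹ • (ρ (0 + t) - ρ 0) :=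
    (h1.mono_left (nhdsWithin_mono _ fun t (ht : t < 0) => ht.ne)).eventually (lt_mem_nhds hd)
  rw [← Iio_insert, nhdsWithin_insert, eventually_sup]
  refine ⟨by simp, ?_⟩
  filter_upwards [h2, self_mem_nhdsWithin] with t ht (t0 : t < 0)
  rw [zero_add, smul_eq_mul] at ht
  have := neg_of_mul_pos_right ht (inv_nonpos.2 t0.le)
  linarith

theorem linke_mem {F : ℂ → ℂ} {H δ ρ σ : ℝ} (hH : 0 < H) (hδ : 0 < δ) (hρ : 0 < ρ)
    (hd : DifferentiableOn ℂ F (ann H δ)) (h0 : ∀ z ∈ ann H δ, deriv F z ≠ 0)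
    (hi : InjOn F (cann H)) {g : ℂ → ℂ} {e : ℝ} (hg : DifferentiableOn ℂ g (ann H ρ))
    (hb : ∀ (j : Bool) (a : ℂ), ‖a‖ = rad H j → (if j then 1 else -1) *
      fderiv ℝ (linkeU g e) a a = σ * ‖a * deriv F a‖ * linkeU g e a) :
    ∃ u ∈ steklovSpace (F '' ann H 0) σ, ∀ a ∈ cann H, u (F a) = linkeU g e a := by
  classical
  obtain ⟨d, hd0, hdδ, hinj, hop, Φ, hΦ, hΦF⟩ := top3a_inverse hH hδ hd h0 hi
  obtain ⟨ho, hcl, hfr⟩ := top3a_closure_image hH hδ hd h0 hi
  have he : Real.exp (-H) < 1 := Real.exp_lt_one_iff.2 (by linarith)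
  have he0 := Real.exp_pos (-H)
  have hΦd : DifferentiableOn ℂ Φ (F '' ann H d) := by
    rintro _ ⟨z, hz, rfl⟩
    exact (hΦ z hz).differentiableAt.differentiableWithinAt
  have har : ∀ a ∈ cann H, InnerProductSpace.HarmonicAt (fun v => linkeU g e (Φ v)) (F a) :=
    fun a ha => by
      have h1 := top3a_cann_sub hd0 ha
      refine linke_harm e (hΦd.analyticAt (hop.mem_nhds (mem_image_of_mem F h1))) ?_ ?_
      · rw [hΦF a h1]
        exact hg.analyticAt ((isOpen_ann H ρ).mem_nhds (top3a_cann_sub hρ ha))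
      · rw [hΦF a h1]; exact linke_ne h1
  set u : ℂ → ℝ := (F '' cann H).indicator fun v => linkeU g e (Φ v) with hu
  have hu1 : ∀ w ∈ F '' cann H, u w = linkeU g e (Φ w) := fun w hw => indicator_of_mem hw _
  have hu2 : ∀ a ∈ cann H, u (F a) = linkeU g e a := fun a ha => by
    rw [hu1 _ (mem_image_of_mem F ha), hΦF a (top3a_cann_sub hd0 ha)]
  refine ⟨u, ⟨?_, ?_, ?_, fun z hz => indicator_of_notMem (by rwa [hcl] at hz) _⟩, hu2⟩
  · rw [hcl]
    refine ContDiffOn.congr ?_ hu1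
    rintro _ ⟨a, ha, rfl⟩
    exact (HarmonicAt.analyticAt (har a ha)).contDiffAt.contDiffWithinAt
  · rintro _ ⟨a, ha, rfl⟩
    refine (InnerProductSpace.harmonicAt_congr_nhds ?_).2 (har a (top3a_ann0_sub ha))
    filter_upwards [ho.mem_nhds (mem_image_of_mem F ha)] with w hw
    exact hu1 w (image_mono top3a_ann0_sub hw)
  · intro z hz ν hν
    rw [hfr] at hz
    obtain ⟨a, ha, rfl⟩ := hz
    obtain ⟨j, hj⟩ : ∃ j, ‖a‖ = rad H j := ha.elim (fun h => ⟨true, h⟩) fun h => ⟨false, h⟩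
    have hac : a ∈ cann H := top3_mem hH hj
    have had := top3a_cann_sub hd0 hac
    have hD := h0 a (top3a_cann_sub hδ hac)
    have hN : a * deriv F a ≠ 0 := mul_ne_zero (linke_ne had) hD
    have hNp : 0 < ‖a * deriv F a‖ := norm_pos_iff.2 hN
    have hK : 0 < 2 / ‖deriv F a‖ ^ 2 := by have := norm_pos_iff.2 hD; positivity
    rw [top3b_normal hH hδ hd h0 hi j hj] at hν
    set r : ℝ := if j then 1 else -1 with hr
    have rho := top3b_rho (hΦ a had) (hΦF a had) hD (c := fun t : ℝ => F a + t • ν) (by simp)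
      (top3b_line _ _)
    rw [hν, top3b_inner _ hN, ← hν] at rho
    have z0 : ‖Φ (F a + (0 : ℝ) • ν)‖ ^ 2 = rad H j ^ 2 := by
      rw [zero_smul, add_zero, hΦF a had, hj]
    have near : ∀ᶠ t : ℝ in 𝓝 0, F a + t • ν ∈ F '' ann H d :=
      (top3b_line (F a) ν).continuousAt.eventually
        (hop.mem_nhds (by simpa using mem_image_of_mem F had))
    have hsq : Real.exp (-H) ^ 2 < 1 ^ 2 := by nlinarith
    have side : ∀ᶠ t : ℝ in 𝓝[Iic 0] 0, Real.exp (-H) ^ 2 ≤ ‖Φ (F a + t • ν)‖ ^ 2 ∧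
        ‖Φ (F a + t • ν)‖ ^ 2 ≤ 1 ^ 2 := by
      cases j
      · have k1 := linke_side rho.neg (by
          have := mul_pos hK hNp
          simp only [hr, Bool.false_eq_true, if_false]; linarith)
        have k2 := rho.continuousAt.eventually (gt_mem_nhds (z0.trans_lt hsq))
        filter_upwards [k1, nhdsWithin_le_nhds k2] with t p q
        refine ⟨?_, q.le⟩
        simp only [Pi.neg_apply, z0, neg_le_neg_iff] at p
        exact p
      · have k1 := linke_side rho (by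
          have := mul_pos hK hNp
          simp only [hr, if_true]; linarith)
        have k2 := rho.continuousAt.eventually (lt_mem_nhds (hsq.trans_eq z0.symm))
        filter_upwards [k1, nhdsWithin_le_nhds k2] with t p q
        exact ⟨q.le, p.trans_eq z0⟩
    have ins : ∀ᶠ t : ℝ in 𝓝[Iic 0] 0, F a + t • ν ∈ F '' cann H := by
      filter_upwards [side, nhdsWithin_le_nhds near] with t p q
      obtain ⟨y, hy, e⟩ := q
      rw [← e, hΦF y hy] at p
      exact ⟨y, ⟨le_of_pow_le_pow_left₀ two_ne_zero (norm_nonneg _) p.1,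
        le_of_pow_le_pow_left₀ two_ne_zero zero_le_one p.2⟩, e⟩
    have d1 : HasDerivAt (fun t : ℝ => Φ (F a + t • ν)) ((deriv F a)⁻¹ * ν) 0 :=
      HasDerivAt.comp_of_eq (0 : ℝ) (hΦ a had) (top3b_line _ _) (by simp)
    have d2 : HasFDerivAt (linkeU g e) (fderiv ℝ (linkeU g e) a) a :=
      (HarmonicAt.analyticAt (linke_harm1 e hg (top3a_cann_sub hρ hac))).differentiableAt.hasFDerivAt
    have d3 := d2.comp_hasDerivAt_of_eq (0 : ℝ) d1 (by simp [hΦF a had])
    have e1 : (deriv F a)⁻¹ * ν = (r / ‖a * deriv F a‖) • a := by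
      rw [hν, Complex.real_smul]; push_cast; field_simp
    have e2 : fderiv ℝ (linkeU g e) a ((deriv F a)⁻¹ * ν) = σ * u (F a) := by
      rw [e1, map_smul, smul_eq_mul, hu2 a hac, div_mul_eq_mul_div, hb j a hj]
      field_simp
    rw [e2] at d3
    refine d3.hasDerivWithinAt.congr_of_eventuallyEq ?_ ?_
    · filter_upwards [ins] with t ht
      exact hu1 _ ht
    · exact hu1 _ (by simpa using mem_image_of_mem F hac)

end StekIso
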