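import Pool.Agent.Lib.MP_fa022d_an.LinkD
import Pool.Agent.Lib.MP_fa022d_an.LinkEa

open Set Filter Topology Metric BoundedContinuousFunction Complex

noncomputable section
namespace StekIso

theorem linke_decay {η1 C : ℝ} {S : Idx → Idx → ℂ} (h0 : 0 < η1) (h : Crude η1 C S)
    {ℓ : Bool → ℝ} {σ : ℂ} {x : X} (hx : x ∈ Ker S ℓ σ) : ∃ D, Dk η1 D x := by
  obtain ⟨C0, E0, hs, -⟩ := h.rowBdd h0
  rw [mem_Ker_iff h0 h] at hx
  set R : ℝ := ‖σ * ℓ true‖ + ‖σ * ℓ false‖ + 1 with hR
  refine ⟨C * EE η1 * ‖x‖ + ‖x‖ * Real.exp (η1 * R), fun b => ?_⟩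
  have e0 := ex_pos η1 b.2
  have p1 : 0 ≤ C * EE η1 * ‖x‖ * ex η1 b.2 := by positivity
  have p2 : 0 ≤ ‖x‖ * Real.exp (η1 * R) * ex η1 b.2 := by positivity
  rw [add_mul]
  rcases le_or_gt 1 ‖dvs ℓ σ b‖ with h1 | h1
  · have h2 : ‖Sap S x b‖ ≤ C * EE η1 * ‖x‖ * ex η1 b.2 := by
      refine (tsum_of_norm_bounded (hs.mul_left (C * ‖x‖ * ex η1 b.2)).hasSum fun c => ?_).trans ?_
      · rw [norm_mul]
        calc _ ≤ C * (ex η1 b.2 * ex η1 c.2) * ‖x‖ := mul_le_mul (h b c) (x.norm_coe_le_norm c)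
              (norm_nonneg _) ((norm_nonneg _).trans (h b c))
          _ = _ := by ring
      · rw [tsum_mul_left, EE]; exact le_of_eq (by ring)
    rw [← hx b, norm_mul] at h2
    nlinarith [norm_nonneg (x b)]
  · have h2 : |(b.2 : ℝ)| ≤ R := by
      have h3 : ‖((|b.2| : ℤ) : ℂ)‖ ≤ ‖σ * ℓ b.1‖ + ‖dvs ℓ σ b‖ := by
        have : ((|b.2| : ℤ) : ℂ) = σ * ℓ b.1 - dvs ℓ σ b := by simp [dvs]
        rw [this]; exact norm_sub_le _ _
      rw [Complex.norm_intCast, Int.cast_abs, abs_abs] at h3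
      have h4 : ‖σ * ℓ b.1‖ ≤ ‖σ * ℓ true‖ + ‖σ * ℓ false‖ := by
        cases b.1
        · exact le_add_of_nonneg_left (norm_nonneg _)
        · exact le_add_of_nonneg_right (norm_nonneg _)
      linarith
    have h3 : 1 ≤ Real.exp (η1 * R) * ex η1 b.2 := by
      rw [ex, ← Real.exp_add]
      exact Real.one_le_exp (by nlinarith)
    nlinarith [x.norm_coe_le_norm b, norm_nonneg x]

theorem linke_dper {η m M : ℝ} {θ : ℂ → ℂ} (hη : 0 < η) (h : CMap η m M θ) (s : ℝ) :
    deriv θ ((s + 2 * Real.pi : ℝ) : ℂ) = deriv θ s := by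
  have h1 := (top3_der hη h (s + 2 * Real.pi)).comp_add_const s (2 * Real.pi)
  simp only [top3_per hη h] at h1
  exact h1.unique ((top3_der hη h s).add_const _)

theorem linke_fc_shift (f : ℝ → ℂ) (k : ℤ) :
    fc (fun s => f s * exp (-(I * k * s))) 0 = fc f k := by simp [fc]

theorem linke_afc_conj {η m M : ℝ} {θ : ℂ → ℂ} (hη : 0 < η) (h : CMap η m M θ) {u : ℝ → ℂ}
    (hu : ∀ s, (u s).im = 0) (k : ℤ) : afc θ u (-k) = (starRingEnd ℂ) (afc θ u k) := by
  have := fc_conj (fun s => u s * exp (-(I * k * θ s)) * deriv θ s) 0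
  rw [neg_zero] at this
  rw [afc, afc, ← this]
  refine congrArg (fc · 0) (funext fun s => ?_)
  rw [map_mul, map_mul, conj_eq_iff_im.2 (hu s), conj_eq_iff_im.2 (basek_dre hη h s), ← exp_conj,
    map_neg, map_mul, map_mul, conj_eq_iff_im.2 (h.real s), conj_I, map_intCast]
  simp

/-- an eigenvector decays exponentially; solve the Dirichlet problem and compose with the inverse
of `F`; `dn_of_modes` identifies the normal derivative -/
theorem bco_surj {η m M : ℝ} {θ : Bool → ℂ → ℂ} (hη : 0 < η) (hm : 0 < m) (hM : M * η ≤ 1 / 2)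
    (hθ : ∀ j, CMap η m M (θ j))
    {lam H δ : ℝ} {G F : ℂ → ℂ} (hH : 2 ≤ H) (hδ : 0 < δ) (hF : HasPrim G F H δ)
    (hfit : Fits θ lam H G 1) (hi : InjOn F (cann H)) (σ : ℝ) {x : X} (hx : x ∈ RKer (Sfun θ H) (lenf lam) σ) :
    ∃ u ∈ steklovSpace (F '' ann H 0) σ, bco θ H F u = x := by
  have hH0 : 0 < H := by linarith
  have η2 : 0 < η / 2 := by positivity
  have η4 : 0 < η / 4 := by positivity
  have hd : DifferentiableOn ℂ F (ann H δ) := fun z hz =>
    (hF z hz).differentiableAt.differentiableWithinAt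
  have h0 : ∀ z ∈ ann H δ, deriv F z ≠ 0 := fun z hz => by
    rw [(hF z hz).deriv]; exact exp_ne_zero _
  obtain ⟨C, hC⟩ := sfun_ok hη hm hM
  obtain ⟨hcr, -, -⟩ := hC θ hθ H hH
  obtain ⟨D, hD⟩ := linke_decay η2 hcr hx.1
  have hD' : ∀ j k, ‖cp x j k‖ ≤ D * ex (η / 2) k := fun j k => hD (j, k)
  have hs : ∀ j, Summable fun k => ‖cp x j k‖ := fun j =>
    Summable.of_nonneg_of_le (fun _ => norm_nonneg _) (hD' j) ((basek_sum η2).mul_left D)
  obtain ⟨K, -, hK⟩ := fs_ex_bound η4.le (by linarith : η / 4 < η / 2) 0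
  have sub : strip (η / 4) ⊆ strip (η / 2) := fun s (hs : |s.im| < η / 4) =>
    show |s.im| < η / 2 by linarith
  have exp1 := fun j => afc_expand hη hm η4 (by linarith) (hθ j) (u := fs (cp x j)) (D := K * D)
    ((fs_diff η2 (hD' j)).1.mono sub) (fun s _ => (fs_diff η2 (hD' j)).2.2 s)
    fun s hs => (hK _ D (by simpa using hD' j) s (le_of_lt hs)).2
  set c : Bool → ℤ → ℂ := fun j => afc (θ j) fun s => fs (cp x j) s with hc
  have ure : ∀ j (s : ℝ), (fs (cp x j) s).im = 0 := fun j => fs_real fun k => hx.2 (j, k)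
  have a0 : 0 < m * (η / 4) := by positivity
  obtain ⟨K', -, hK'⟩ := dirichlet (H := H) (by linarith) a0
  obtain ⟨g, e, hg, -, hb⟩ := hK' c (K * D * M) (fun j => (exp1 j).1)
    fun j => linke_afc_conj hη (hθ j) (ure j)
  have cs : ∀ j, Summable fun k => ‖c j k‖ := fun j =>
    Summable.of_nonneg_of_le (fun _ => norm_nonneg _) (exp1 j).1 ((basek_sum a0).mul_left _)
  have nrm : ∀ j (t : ℝ), ‖(rad H j : ℂ) * exp (I * t)‖ = rad H j := fun j t => by
    rw [norm_mul, mul_comm I, norm_exp_ofReal_mul_I, mul_one, Complex.norm_real,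
      Real.norm_of_nonneg (top3_rad_pos H j).le]
  have hb' : ∀ j (t : ℝ), (linkeU g e (rad H j * exp (I * t)) : ℂ) = fs (c j) t := fun j t => by
    rw [linkeU, nrm, hb]
  have tt : ∀ j (s : ℝ), tau θ H j s = rad H j * exp (I * ((θ j s).re : ℝ)) := fun j s => by
    rw [tau, ← top3_re (hθ j)]
  have hval : ∀ j (s : ℝ), (linkeU g e (tau θ H j s) : ℂ) = fs (cp x j) s := fun j s => by
    rw [tt, hb', ← top3_re (hθ j), ← ((exp1 j).2 s).tsum_eq]; rfl
  have an : ∀ z ∈ cann H, AnalyticAt ℝ (linkeU g e) z := fun z hz =>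
    HarmonicAt.analyticAt (linke_harm1 e hg (top3a_cann_sub (half_pos a0) hz))
  set n : Bool → ℝ → ℂ := fun j t => (((if j then 1 else -1) * fderiv ℝ (linkeU g e)
    (rad H j * exp (I * t)) (rad H j * exp (I * t)) : ℝ) : ℂ) with hn
  have nc : ∀ j, Continuous (n j) := fun j => by
    have c1 : Continuous fun t : ℝ => (rad H j : ℂ) * exp (I * t) := by fun_prop
    have c2 : Continuous fun t : ℝ => fderiv ℝ (linkeU g e) (rad H j * exp (I * t)) :=
      continuous_iff_continuousAt.2 fun t => ContinuousAt.comp (g := fderiv ℝ (linkeU g e))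
        (an _ (top3_mem hH0 (nrm j t))).fderiv.continuousAt c1.continuousAt
    exact continuous_ofReal.comp (continuous_const.mul (c2.clm_apply c1))
  have np : ∀ j, Function.Periodic (n j) (2 * Real.pi) := fun j t => by
    have := four2_per 1 t
    simp only [Int.cast_one, mul_one] at this
    simp only [hn, ofReal_add, ofReal_mul (2 : ℝ), ofReal_ofNat, this]
  have nm : ∀ i k, fc (n i) k =
      ∑ j, ((if i = j then (|k| : ℤ) else 0) + gco i j H k) * c j k := fun i k => by
    have := harmonic_modes hH0 (U := linkeU g e)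
      (fun z hz => (an z hz).contDiffAt.contDiffWithinAt)
      (fun z hz => linke_harm1 e hg (top3a_mono (half_pos a0).le hz)) i k
    simp only [hb', fc_fs (cs _)] at this
    rw [← this]
    refine congrArg (fc · k) (funext fun t => ?_)
    have hz := top3_mem hH0 (nrm i t)
    rw [(an _ hz).differentiableAt.fderivWithin (linke_uniq hH0 _ hz)]
  have θc : ∀ j, Continuous fun s : ℝ => (θ j s).re := fun j =>
    continuous_iff_continuousAt.2 fun s => (top3_dre hη (hθ j) s).continuousAt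
  have θd : ∀ j, Continuous fun s : ℝ => deriv (θ j) s := fun j =>
    ((hθ j).diff.deriv (isOpen_strip η)).continuousOn.comp_continuous continuous_ofReal
      (basek_re hη)
  set N : Bool → ℝ → ℂ := fun j s => n j (θ j s).re * deriv (θ j) s with hN
  have Nc : ∀ j, Continuous (N j) := fun j => ((nc j).comp (θc j)).mul (θd j)
  have Np : ∀ j, Function.Periodic (N j) (2 * Real.pi) := fun j s => by
    simp only [hN]
    rw [linke_dper hη (hθ j), top3_per hη (hθ j), ← np j (θ j s).re]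
    simp
  have key := dn_of_modes hη hm hM hθ hH (u := fun j s => fs (cp x j) s) (N := N)
    (fun j => (fs_diff η2 (hD' j)).1.continuousOn.comp_continuous continuous_ofReal (basek_re η2))
    Nc (fun j s => by
      have := (fs_diff η2 (hD' j)).2.2 s
      simpa using this) (fun i k => by
      rw [← nm, ← linke_fc_shift (n i), ← fc_comp_cmap hη (hθ i)
        (f := fun t => n i t * exp (-(I * k * t))) ((nc i).mul (by fun_prop)) fun t => by
          simp only [np i t, ofReal_add, ofReal_mul, ofReal_ofNat, four1_per]]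
      refine congrArg (fc · 0) (funext fun s => ?_)
      rw [← top3_re (hθ i)]
      simp only [hN]; ring)
  simp only [fc_fs (hs _)] at key
  have fN : ∀ j, fc (N j) = fun k => (σ * lenf lam j : ℂ) * cp x j k := fun j => funext fun k => by
    rw [← key (j, k)]
    have := hx.1 (j, k)
    rw [schb_op η2 hcr] at this
    exact this
  have NU : ∀ j (s : ℝ), N j s = σ * lenf lam j * fs (cp x j) s := fun j s => by
    rw [← fs_fc (Nc j) (Np j) (by
      rw [fN]; simpa only [norm_mul] using (hs j).mul_left _) s, fN, fs, fs, ← tsum_mul_left]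
    exact tsum_congr fun k => mul_assoc _ _ _
  obtain ⟨u, hu, hu'⟩ := linke_mem (σ := σ) hH0 hδ (half_pos a0) hd h0 hi (e := e) hg
    fun j a ha => by
      obtain ⟨s, rfl⟩ := top3_tau_surj hη hm hθ j ha
      have h1 := NU j s
      have h2 := hfit j s
      have h3 := hm.trans_le (top3_lo hη (hθ j) s)
      simp only [hN, hn] at h1
      rw [← tt, ← hval, top3_dreal hη (hθ j)] at h1
      rw [norm_mul, ha, (hF _ (top3a_cann_sub hδ (top3_mem hH0 ha))).deriv]
      have h4 : (if j then 1 else -1) * fderiv ℝ (linkeU g e) (tau θ H j s) (tau θ H j s) *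
          (deriv (θ j) s).re = σ * lenf lam j * linkeU g e (tau θ H j s) := by exact_mod_cast h1
      refine mul_right_cancel₀ h3.ne' ?_
      rw [h4, ← one_mul (lenf lam j), ← h2]; ring
  refine ⟨u, hu, BoundedContinuousFunction.ext fun b => ?_⟩
  rw [(bco_mem hη hm hM hθ hH hδ hF hfit hi σ hu).1]
  simp only [hu' _ (top3_mem hH0 (top3_norm_tau hθ _ _)), hval, fc_fs (hs _)]
  rfl

theorem linke_fc_add {f g : ℝ → ℂ} (hf : Continuous f) (hg : Continuous g) (k : ℤ) :
    fc (fun s => f s + g s) k = fc f k + fc g k := by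
  simp only [fc, add_mul]
  rw [intervalIntegral.integral_add (Continuous.intervalIntegrable (by fun_prop) _ _)
    (Continuous.intervalIntegrable (by fun_prop) _ _), mul_add]

theorem link_main {η m M : ℝ} {θ : Bool → ℂ → ℂ} (hη : 0 < η) (hm : 0 < m) (hM : M * η ≤ 1 / 2)
    (hθ : ∀ j, CMap η m M (θ j))
    {lam H δ : ℝ} {G F : ℂ → ℂ} (hH : 2 ≤ H) (hδ : 0 < δ) (hF : HasPrim G F H δ)
    (hfit : Fits θ lam H G 1) (hi : InjOn F (cann H)) (σ : ℝ) :
    Module.rank ℝ (steklovSpace (F '' ann H 0) σ) = Module.rank ℝ (RKer (Sfun θ H) (lenf lam) σ) := by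
  have hH0 : 0 < H := by linarith
  have hd : DifferentiableOn ℂ F (ann H δ) := fun z hz =>
    (hF z hz).differentiableAt.differentiableWithinAt
  have h0 : ∀ z ∈ ann H δ, deriv F z ≠ 0 := fun z hz => by
    rw [(hF z hz).deriv]; exact exp_ne_zero _
  have B := fun u (hu : u ∈ steklovSpace (F '' ann H 0) σ) =>
    bco_mem hη hm hM hθ hH hδ hF hfit hi σ hu
  have ct : ∀ u ∈ steklovSpace (F '' ann H 0) σ, ∀ j,
      Continuous fun s : ℝ => (u (F (tau θ H j s)) : ℂ) := fun u hu j => by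
    have h1 := (top3_smooth hη hθ hH0 hδ hd j 1 0).continuous
    simp only [div_one] at h1
    refine continuous_ofReal.comp (hu.1.continuousOn.comp_continuous h1 fun s => ?_)
    rw [(top3a_closure_image hH0 hδ hd h0 hi).2.1]
    exact mem_image_of_mem F (top3_mem hH0 (top3_norm_tau hθ j s))
  let L : steklovSpace (F '' ann H 0) σ →ₗ[ℝ] RKer (Sfun θ H) (lenf lam) σ :=
    { toFun := fun u => ⟨bco θ H F u, (B u u.2).2⟩
      map_add' := fun u v => Subtype.ext (BoundedContinuousFunction.ext fun b => by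
        show bco θ H F (u + v : steklovSpace _ σ) b = bco θ H F u b + bco θ H F v b
        rw [(B _ (u + v).2).1, (B u u.2).1, (B v v.2).1,
          ← linke_fc_add (ct u u.2 _) (ct v v.2 _)]
        simp)
      map_smul' := fun a u => Subtype.ext (BoundedContinuousFunction.ext fun b => by
        show bco θ H F (a • u : steklovSpace _ σ) b = a • bco θ H F u b
        rw [(B _ (a • u).2).1, (B u u.2).1, Complex.real_smul, ← four3_mul]
        simp) }
  refine (LinearEquiv.ofBijective L ⟨(injective_iff_map_eq_zero L).2 fun u hu => ?_,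
    fun x => ?_⟩).rank_eq
  · exact Subtype.ext (bco_inj hη hm hM hθ hH hδ hF hfit hi σ u.2 (congrArg Subtype.val hu))
  · obtain ⟨u, hu, e⟩ := bco_surj hη hm hM hθ hH hδ hF hfit hi σ x.2
    exact ⟨⟨u, hu⟩, Subtype.ext e⟩

end StekIso
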