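import Pool.Agent.Lib.MP_fa022d_an.SchA

open Set Filter Topology Metric BoundedContinuousFunction Complex

noncomputable section
namespace StekIso
variable {η1 η2 C κ ρ D Λ : ℝ} {S : Idx → Idx → ℂ} {ℓ : Bool → ℝ} {σ : ℂ} {j : Bool} {n : ℕ}

theorem schb_op (h0 : 0 < η1) (h : Crude η1 C S) (x : X) (b : Idx) : matOp S x b = Sap S x b := by
  obtain ⟨a, e, -, r⟩ := h.rowBdd h0
  exact matOp_apply (mul_nonneg a e.le) r x b

theorem mem_Ker_iff (h0 : 0 < η1) (h : Crude η1 C S) (x : X) :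
    x ∈ Ker S ℓ σ ↔ ∀ b, dvs ℓ σ b * x b = Sap S x b := by
  refine forall_congr' fun b => ?_
  rw [schb_op h0 h, dvs]
  exact ⟨fun e => by linear_combination -e, fun e => by linear_combination -e⟩

theorem Ker_eq_bot (h0 : 0 < η1) (h : Crude η1 C S) (hκ : 0 ≤ κ)
    (hd : ∀ b : Idx, ex η1 b.2 ≤ κ * ‖dvs ℓ σ b‖) (hs : C * EE η1 * κ ≤ 1 / 2) :
    Ker S ℓ σ = ⊥ := by
  obtain ⟨-, -, sm, -⟩ := h.rowBdd h0
  refine (Submodule.eq_bot_iff _).2 fun x hx => ?_
  have n := norm_nonneg x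
  have k : ∀ b, ‖x b‖ ≤ ‖x‖ / 2 := fun b => by
    have p := ex_pos η1 b.2
    have a : ‖Sap S x b‖ ≤ C * ex η1 b.2 * ‖x‖ * EE η1 :=
      tsum_of_norm_bounded (sm.hasSum.mul_left (C * ex η1 b.2 * ‖x‖)) fun c => by
        rw [norm_mul]
        exact (mul_le_mul (h b c) (x.norm_coe_le_norm c) (norm_nonneg _)
          ((norm_nonneg _).trans (h b c))).trans_eq (by ring)
    rw [← (mem_Ker_iff h0 h x).1 hx b, norm_mul] at a
    have a1 := mul_le_mul_of_nonneg_right (hd b) (norm_nonneg (x b))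
    have a2 := mul_le_mul_of_nonneg_left a hκ
    have a3 := mul_le_mul_of_nonneg_left hs (mul_nonneg p.le n)
    refine le_of_mul_le_mul_left ?_ p
    nlinarith
  have := (BoundedContinuousFunction.norm_le (by linarith)).2 k
  exact norm_eq_zero.1 (by linarith)

/-- the eigenvalue equation for a combination of the two quasi-eigenvectors -/
theorem schb_two (h : SH0 η1 C κ S ℓ σ j n) (hs : BSym S) (α β : ℂ) :
    α • qv S ℓ σ j n n + β • qv S ℓ σ j n (-n) ∈ Ker S ℓ σ ↔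
      (σ * ℓ j - n - Mm S ℓ σ j n n n) * α = Mm S ℓ σ j n n (-n) * β ∧
      (σ * ℓ j - n - Mm S ℓ σ j n n n) * β = Mm S ℓ σ j n (-n) n * α := by
  have a1 : |(n : ℤ)| = n := abs_of_nonneg (Int.natCast_nonneg n)
  have a2 : |(-n : ℤ)| = n := by rw [abs_neg, a1]
  have ne : (n : ℤ) ≠ -n := by have := h.n_pos; omega
  obtain ⟨-, u1, u2, -⟩ := h.qv_spec a1
  obtain ⟨-, w1, w2, -⟩ := h.qv_spec a2
  have lin : ∀ b, Sap S (α • qv S ℓ σ j n n + β • qv S ℓ σ j n (-n) : X) b =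
      α * Sap S (qv S ℓ σ j n n) b + β * Sap S (qv S ℓ σ j n (-n)) b := fun b => by
    rw [← schb_op h.η_pos h.crude, ← schb_op h.η_pos h.crude, ← schb_op h.η_pos h.crude, map_add,
      map_smul, map_smul]
    rfl
  have val : ∀ b, (α • qv S ℓ σ j n n + β • qv S ℓ σ j n (-n) : X) b =
      α * qv S ℓ σ j n n b + β * qv S ℓ σ j n (-n) b := fun b => rfl
  have sy := h.Mm_symm hs a1 a1
  have e1 : dvs ℓ σ (j, n) * (α • qv S ℓ σ j n n + β • qv S ℓ σ j n (-n) : X) (j, n) =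
      Sap S (α • qv S ℓ σ j n n + β • qv S ℓ σ j n (-n) : X) (j, n) ↔
      (σ * ℓ j - n - Mm S ℓ σ j n n n) * α = Mm S ℓ σ j n n (-n) * β := by
    rw [lin, val, u1 _ ⟨rfl, a1⟩, w1 _ ⟨rfl, a1⟩, if_pos rfl, if_neg (by simpa using ne), dvs, a1,
      Mm, Mm, Int.cast_natCast]
    exact ⟨fun e => by linear_combination e, fun e => by linear_combination e⟩
  have e2 : dvs ℓ σ (j, -n) * (α • qv S ℓ σ j n n + β • qv S ℓ σ j n (-n) : X) (j, -n) =
      Sap S (α • qv S ℓ σ j n n + β • qv S ℓ σ j n (-n) : X) (j, -n) ↔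
      (σ * ℓ j - n - Mm S ℓ σ j n n n) * β = Mm S ℓ σ j n (-n) n * α := by
    rw [lin, val, u1 _ ⟨rfl, a2⟩, w1 _ ⟨rfl, a2⟩, if_pos rfl, if_neg (by simpa using ne.symm), dvs,
      a2, sy, Mm, Mm, Int.cast_natCast]
    exact ⟨fun e => by linear_combination e, fun e => by linear_combination e⟩
  rw [mem_Ker_iff h.η_pos h.crude, ← e1, ← e2]
  refine ⟨fun k => ⟨k _, k _⟩, fun k b => ?_⟩
  by_cases hb : inP j n b
  · obtain ⟨i, m⟩ := b
    obtain ⟨rfl, c⟩ : i = j ∧ |m| = n := hb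
    rcases (abs_eq (Int.natCast_nonneg n)).1 c with rfl | rfl
    exacts [k.1, k.2]
  · rw [lin, val, ← u2 b hb, ← w2 b hb]; ring

open Classical in
theorem SH0.finrank (h : SH0 η1 C κ S ℓ σ j n) (hs : BSym S)
    (hne : Mm S ℓ σ j n n (-n) ≠ 0) : Module.Finite ℂ (Ker S ℓ σ) ∧
    Module.finrank ℂ (Ker S ℓ σ) = if (σ * ℓ j - n - Mm S ℓ σ j n n n) ^ 2 =
      Mm S ℓ σ j n n (-n) * Mm S ℓ σ j n (-n) n then 1 else 0 := by
  have two := schb_two h hs
  have dec : ∀ x ∈ Ker S ℓ σ, ∃ α β : ℂ, x = α • qv S ℓ σ j n n + β • qv S ℓ σ j n (-n) :=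
    fun x hx => ⟨_, _, h.unique x fun b _ => (mem_Ker_iff h.η_pos h.crude x).1 hx b⟩
  have a1 : |(n : ℤ)| = n := abs_of_nonneg (Int.natCast_nonneg n)
  have a2 : |(-n : ℤ)| = n := by rw [abs_neg, a1]
  have ne : (n : ℤ) ≠ -n := by have := h.n_pos; omega
  have u1 := (h.qv_spec a1).2.1 (j, n) ⟨rfl, a1⟩
  have w1 := (h.qv_spec a2).2.1 (j, n) ⟨rfl, a1⟩
  rw [if_pos rfl] at u1
  rw [if_neg (by simpa using ne)] at w1
  generalize σ * ℓ j - n - Mm S ℓ σ j n n n = a at two ⊢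
  generalize Mm S ℓ σ j n n (-n) = p at two hne ⊢
  generalize Mm S ℓ σ j n (-n) n = m at two ⊢
  generalize qv S ℓ σ j n n = u at two dec u1
  generalize qv S ℓ σ j n (-n) = w at two dec w1
  split_ifs with c
  · have e : Ker S ℓ σ = Submodule.span ℂ {p • u + a • w} := by
      refine le_antisymm (fun x hx => ?_) ((Submodule.span_singleton_le_iff_mem _ _).2
        ((two p a).2 ⟨mul_comm _ _, by linear_combination c⟩))
      obtain ⟨α, β, rfl⟩ := dec x hx
      have k := ((two α β).1 hx).1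
      refine Submodule.mem_span_singleton.2 ⟨α / p, ?_⟩
      rw [smul_add, smul_smul, smul_smul, div_mul_cancel₀ _ hne,
        show α / p * a = β by field_simp; linear_combination k]
    have n0 : p • u + a • w ≠ 0 := fun z => hne (by
      have : p * u (j, n) + a * w (j, n) = 0 := DFunLike.congr_fun z (j, (n : ℤ))
      rwa [u1, w1, mul_one, mul_zero, add_zero] at this)
    rw [e]
    exact ⟨inferInstance, finrank_span_singleton n0⟩
  · have e : Ker S ℓ σ = ⊥ := (Submodule.eq_bot_iff _).2 fun x hx => by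
      obtain ⟨α, β, rfl⟩ := dec x hx
      obtain ⟨k1, k2⟩ := (two α β).1 hx
      have z : α = 0 := (mul_eq_zero.1 (show (a ^ 2 - p * m) * α = 0 by
        linear_combination a * k1 + p * k2)).resolve_left (sub_ne_zero.2 c)
      rw [z, mul_zero] at k1
      rw [z, (mul_eq_zero.1 k1.symm).resolve_left hne, zero_smul, zero_smul, add_zero]
    rw [e]
    exact ⟨inferInstance, finrank_bot _ _⟩

theorem schb_ng (b : Idx) : ng (ng b) = b := by simp [ng]

/-- the conjugate sequence -/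
theorem schb_conj (h0 : 0 < η1) (h : Crude η1 C S) (hs : RSym S) (σ : ℝ) {x : X}
    (hx : x ∈ Ker S ℓ σ) : ∃ y ∈ Ker S ℓ σ, ∀ b, y b = (starRingEnd ℂ) (x (ng b)) := by
  have v : ∀ b, toB (fun b => (starRingEnd ℂ) (x (ng b))) b = (starRingEnd ℂ) (x (ng b)) :=
    toB_apply (C := ‖x‖) fun b => by rw [norm_conj]; exact x.norm_coe_le_norm _
  refine ⟨_, (mem_Ker_iff h0 h _).2 fun b => ?_, v⟩
  have e := congrArg (starRingEnd ℂ) ((mem_Ker_iff h0 h x).1 hx (ng b))
  have d : (starRingEnd ℂ) (dvs ℓ σ (ng b)) = dvs ℓ σ b := by simp [dvs, ng]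
  rw [map_mul, d, Sap, ← (Function.Involutive.toPerm ng schb_ng).tsum_eq, conj_tsum] at e
  rw [v, e, Sap]
  refine tsum_congr fun c => ?_
  rw [v, Function.Involutive.coe_toPerm, map_mul, hs, conj_conj]

/-- the real form has the same dimension -/
theorem rank_RKer (h0 : 0 < η1) (h : Crude η1 C S) (hs : RSym S) (σ : ℝ)
    (hf : Module.Finite ℂ (Ker S ℓ σ)) :
    Module.rank ℝ (RKer S ℓ σ) = Module.finrank ℂ (Ker S ℓ σ) := by
  let F : (RKer S ℓ σ × RKer S ℓ σ) →ₗ[ℝ] Ker S ℓ σ :=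
    { toFun := fun u => ⟨u.1.1 + I • u.2.1, add_mem u.1.2.1 (Submodule.smul_mem _ _ u.2.2.1)⟩
      map_add' := fun u v => Subtype.ext (by
        change u.1.1 + v.1.1 + I • (u.2.1 + v.2.1) = u.1.1 + I • u.2.1 + (v.1.1 + I • v.2.1)
        rw [smul_add]; abel)
      map_smul' := fun c u => Subtype.ext (by
        change c • u.1.1 + I • c • u.2.1 = c • (u.1.1 + I • u.2.1)
        rw [smul_add, smul_comm]) }
  have inj : Function.Injective F := (injective_iff_map_eq_zero F).2 fun u e => by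
    have z : ∀ b, u.1.1 b + I * u.2.1 b = 0 := fun b =>
      DFunLike.congr_fun (congrArg Subtype.val e) b
    have z' : ∀ b, u.1.1 b - I * u.2.1 b = 0 := fun b => by
      have := congrArg (starRingEnd ℂ) (z (ng b))
      rw [u.1.2.2, u.2.2.2, map_add, map_mul, conj_conj, conj_conj, conj_I, map_zero] at this
      linear_combination this
    refine Prod.ext (Subtype.ext (BoundedContinuousFunction.ext fun b => ?_))
      (Subtype.ext (BoundedContinuousFunction.ext fun b => ?_))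
    · change u.1.1 b = 0
      linear_combination (z b + z' b) / 2
    · change u.2.1 b = 0
      exact (mul_eq_zero.1 (show I * u.2.1 b = 0 by
        linear_combination (z b - z' b) / 2)).resolve_left I_ne_zero
  have sur : Function.Surjective F := fun x => by
    obtain ⟨y, hy, v⟩ := schb_conj h0 h hs σ x.2
    refine ⟨(⟨(1 / 2 : ℂ) • (x.1 + y), Submodule.smul_mem _ _ (add_mem x.2 hy), fun b => ?_⟩,
      ⟨(-I / 2 : ℂ) • (x.1 - y), Submodule.smul_mem _ _ (sub_mem x.2 hy), fun b => ?_⟩),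
      Subtype.ext (BoundedContinuousFunction.ext fun b => ?_)⟩
    · change 1 / 2 * (x.1 (ng b) + y (ng b)) = (starRingEnd ℂ) (1 / 2 * (x.1 b + y b))
      rw [v, v, schb_ng, map_mul, map_add, conj_conj, map_div₀, map_one, conj_ofNat]; ring
    · change -I / 2 * (x.1 (ng b) - y (ng b)) = (starRingEnd ℂ) (-I / 2 * (x.1 b - y b))
      rw [v, v, schb_ng, map_mul, map_sub, conj_conj, map_div₀, map_neg, conj_I, conj_ofNat]; ring
    · change 1 / 2 * (x.1 b + y b) + I * (-I / 2 * (x.1 b - y b)) = x.1 b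
      linear_combination (-(x.1 b - y b) / 2) * I_mul_I
  have f1 : Module.Finite ℝ (Ker S ℓ σ) := Module.Finite.trans ℂ _
  have f2 : Module.Finite ℝ (RKer S ℓ σ) :=
    Module.Finite.of_injective (F ∘ₗ LinearMap.inl ℝ _ _) (inj.comp LinearMap.inl_injective)
  have e := (LinearEquiv.ofBijective F ⟨inj, sur⟩).finrank_eq
  rw [Module.finrank_prod, ← Module.finrank_mul_finrank ℝ ℂ (Ker S ℓ σ), finrank_real_complex] at e
  rw [← Module.finrank_eq_rank, show Module.finrank ℝ (RKer S ℓ σ) = Module.finrank ℂ (Ker S ℓ σ) by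
    omega]

end StekIso
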