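import Pool.Agent.Lib.MP_fa022d_an.Top3a

/-! The outward unit normal of the image of the annulus. -/

open Set Filter Topology Metric BoundedContinuousFunction Complex

noncomputable section
namespace StekIso

theorem top3b_rho {Φ : ℂ → ℂ} {D p a w : ℂ} (hΦ : HasDerivAt Φ D⁻¹ p) (hΦa : Φ p = a)
    (hD : D ≠ 0) {c : ℝ → ℂ} (hc0 : c 0 = p) (hc : HasDerivAt c w 0) :
    HasDerivAt (fun t => ‖Φ (c t)‖ ^ 2) (2 / ‖D‖ ^ 2 * inner ℝ (a * D) w) 0 := by
  have h1 : HasDerivAt (Φ ∘ c) (D⁻¹ * w) 0 := HasDerivAt.comp_of_eq (0 : ℝ) hΦ hc hc0.symm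
  have h2 := h1.norm_sq
  have h3 : (2 : ℝ) * inner ℝ ((Φ ∘ c) 0) (D⁻¹ * w) = 2 / ‖D‖ ^ 2 * inner ℝ (a * D) w := by
    have hn : (0 : ℝ) < ‖D‖ ^ 2 := by have := norm_pos_iff.2 hD; positivity
    have e : D⁻¹ * w * (starRingEnd ℂ) a =
        ((1 / ‖D‖ ^ 2 : ℝ) : ℂ) * (w * (starRingEnd ℂ) (a * D)) := by
      have : ((‖D‖ : ℝ) : ℂ) ^ 2 = D * (starRingEnd ℂ) D := (Complex.mul_conj' D).symm
      have hD' : (starRingEnd ℂ) D ≠ 0 := by simpa using hD
      push_cast; rw [this, map_mul]; field_simp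
    simp only [Function.comp, hc0, hΦa, Complex.inner]
    rw [e, Complex.re_ofReal_mul]; ring
  rw [h3] at h2
  exact h2

theorem top3b_pos {ρ : ℝ → ℝ} {d : ℝ} (h : HasDerivAt ρ d 0) (hd : 0 < d) :
    ∀ᶠ t in 𝓝[>] (0 : ℝ), ρ 0 < ρ t := by
  filter_upwards [h.tendsto_slope_zero_right.eventually (lt_mem_nhds hd), self_mem_nhdsWithin]
    with t h1 h2
  have h3 : (0 : ℝ) < t := h2
  rw [zero_add, smul_eq_mul] at h1
  have := (mul_pos_iff_of_pos_left (inv_pos.2 h3)).1 h1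
  linarith

theorem top3b_neg {ρ : ℝ → ℝ} {d : ℝ} (h : HasDerivAt ρ d 0) (hd : d < 0) :
    ∀ᶠ t in 𝓝[>] (0 : ℝ), ρ t < ρ 0 := by
  filter_upwards [top3b_pos h.neg (neg_pos.2 hd)] with t ht
  simpa using ht

theorem top3b_line (p ν : ℂ) : HasDerivAt (fun t : ℝ => p + t • ν) ν 0 := by
  simpa using ((hasDerivAt_id (0 : ℝ)).smul_const ν).const_add p

theorem top3b_inner (N : ℂ) (hN : N ≠ 0) (r : ℝ) :
    inner ℝ N ((r : ℂ) * (N / ‖N‖)) = r * ‖N‖ := by
  have hn : ((‖N‖ : ℝ) : ℂ) ≠ 0 := by simpa using hN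
  have : (r : ℂ) * (N / ‖N‖) * (starRingEnd ℂ) N = ((r * ‖N‖ : ℝ) : ℂ) := by
    have h : N * (starRingEnd ℂ) N = ((‖N‖ : ℝ) : ℂ) ^ 2 := Complex.mul_conj' N
    push_cast
    rw [mul_assoc, div_mul_eq_mul_div, h]; field_simp
  rw [Complex.inner, this, Complex.ofReal_re]

theorem top3b_unit {N ν : ℂ} (hN : N ≠ 0) (h1 : ‖ν‖ = 1) (h : inner ℝ ν (N * I) = 0) :
    ν = ((1 : ℝ) : ℂ) * (N / ‖N‖) ∨ ν = ((-1 : ℝ) : ℂ) * (N / ‖N‖) := by
  have hn0 : 0 < ‖N‖ := norm_pos_iff.2 hN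
  have hn : ((‖N‖ : ℝ) : ℂ) ≠ 0 := by simpa using hN
  have h2 : (ν * (starRingEnd ℂ) N).im = 0 := by
    rw [Complex.inner] at h
    simp at h ⊢
    linarith
  set r : ℝ := (ν * (starRingEnd ℂ) N).re with hr
  have h3 : ν * (starRingEnd ℂ) N = (r : ℂ) := Complex.ext (by simp [hr]) (by simpa using h2)
  have h4 : |r| = ‖N‖ := by
    have := congrArg norm h3
    rw [norm_mul, h1, Complex.norm_conj, one_mul, Complex.norm_real, Real.norm_eq_abs] at this
    exact this.symm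
  have h5 : N * (starRingEnd ℂ) N = ((‖N‖ : ℝ) : ℂ) ^ 2 := Complex.mul_conj' N
  have h6 : ν * ((‖N‖ : ℝ) : ℂ) ^ 2 = r * N := by rw [← h5, ← h3]; ring
  rcases (abs_eq hn0.le).1 h4 with h | h
  · left
    rw [h] at h6
    push_cast; field_simp
    exact mul_right_cancel₀ hn (by linear_combination h6)
  · right
    rw [h] at h6
    push_cast at h6 ⊢; field_simp
    exact mul_right_cancel₀ hn (by linear_combination h6)

theorem top3b_normal {F : ℂ → ℂ} {H δ : ℝ} (hH : 0 < H) (hδ : 0 < δ)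
    (hd : DifferentiableOn ℂ F (ann H δ)) (h0 : ∀ z ∈ ann H δ, deriv F z ≠ 0)
    (hi : InjOn F (cann H)) (j : Bool) {a : ℂ} (ha : ‖a‖ = rad H j) (ν : ℂ) :
    IsOutwardNormal (F '' ann H 0) (F a) ν ↔
      ν = (((if j then 1 else -1 : ℝ)) : ℂ) * (a * deriv F a / ‖a * deriv F a‖) := by
  obtain ⟨d, hd0, hdδ, hinj, hop, Φ, hΦ, hΦF⟩ := top3a_inverse hH hδ hd h0 hi
  obtain ⟨-, -, hfr⟩ := top3a_closure_image hH hδ hd h0 hi
  have he : Real.exp (-H) < 1 := Real.exp_lt_one_iff.2 (by linarith)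
  have he0 := Real.exp_pos (-H)
  have hcirc : ∀ z : ℂ, (‖z‖ = 1 ∨ ‖z‖ = Real.exp (-H)) → z ∈ cann H := by
    rintro z (h | h)
    · exact ⟨by rw [h]; exact he.le, h.le⟩
    · exact ⟨h.ge, by rw [h]; exact he.le⟩
  have hrad : ∀ z : ℂ, ‖z‖ = rad H j → (‖z‖ = 1 ∨ ‖z‖ = Real.exp (-H)) := by
    intro z hz
    cases j
    · exact Or.inr (by simpa [rad] using hz)
    · exact Or.inl (by simpa [rad] using hz)
  have hac : a ∈ cann H := hcirc a (hrad a ha)
  have had : a ∈ ann H d := top3a_cann_sub hd0 hac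
  have haδ : a ∈ ann H δ := top3a_cann_sub hδ hac
  have hD : deriv F a ≠ 0 := h0 a haδ
  have ha0 : a ≠ 0 := norm_pos_iff.1 (he0.trans_le hac.1)
  have hN : a * deriv F a ≠ 0 := mul_ne_zero ha0 hD
  have hNp : 0 < ‖a * deriv F a‖ := norm_pos_iff.2 hN
  have hK : 0 < 2 / ‖deriv F a‖ ^ 2 := by have := norm_pos_iff.2 hD; positivity
  have rho : ∀ {c : ℝ → ℂ} {w : ℂ}, c 0 = F a → HasDerivAt c w 0 →
      HasDerivAt (fun t => ‖Φ (c t)‖ ^ 2)
        (2 / ‖deriv F a‖ ^ 2 * inner ℝ (a * deriv F a) w) 0 :=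
    fun h1 h2 => top3b_rho (hΦ a had) (hΦF a had) hD h1 h2
  have lin : ∀ r : ℝ, HasDerivAt
      (fun t : ℝ => ‖Φ (F a + t • ((r : ℂ) * (a * deriv F a / ‖a * deriv F a‖)))‖ ^ 2)
      (2 / ‖deriv F a‖ ^ 2 * (r * ‖a * deriv F a‖)) 0 := fun r => by
    have := rho (c := fun t : ℝ => F a + t • ((r : ℂ) * (a * deriv F a / ‖a * deriv F a‖)))
      (by simp) (top3b_line _ _)
    rwa [top3b_inner _ hN] at this
  have z0 : ∀ v : ℂ, ‖Φ (F a + (0 : ℝ) • v)‖ ^ 2 = rad H j ^ 2 := fun v => by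
    rw [zero_smul, add_zero, hΦF a had, ha]
  constructor
  · rintro ⟨h1, h2, h3⟩
    have hc : HasDerivAt (fun t : ℝ => F (a * exp (t * I))) (a * deriv F a * I) 0 := by
      have e1 : HasDerivAt (fun t : ℝ => a * exp (t * I)) (a * I) 0 := by
        have := (((hasDerivAt_id (0 : ℂ)).mul_const I).cexp.const_mul a).comp_ofReal (z := 0)
        simpa using this
      have e2 := HasDerivAt.comp_of_eq (0 : ℝ) (top3a_strict hd haδ).hasDerivAt e1 (by simp)
      have e3 : a * deriv F a * I = deriv F a * (a * I) := by ring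
      rw [e3]; exact e2
    have h4 := h2 _ _ (by simp) (fun t => by
      rw [hfr]
      exact ⟨_, hrad _ (by rw [norm_mul, Complex.norm_exp_ofReal_mul_I, mul_one, ha]), rfl⟩) hc
    have near : ∀ v : ℂ, ∀ᶠ t : ℝ in 𝓝[>] 0, F a + t • v ∈ F '' ann H d := fun v =>
      nhdsWithin_le_nhds ((top3b_line (F a) v).continuousAt.eventually
        (hop.mem_nhds (by simpa using mem_image_of_mem F had)))
    have inn : ∀ w ∈ F '' ann H d, Real.exp (-H) ^ 2 < ‖Φ w‖ ^ 2 → ‖Φ w‖ ^ 2 < 1 ^ 2 →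
        w ∈ F '' ann H 0 := by
      rintro _ ⟨y, hy, rfl⟩ k1 k2
      rw [hΦF y hy] at k1 k2
      exact ⟨y, top3a_ann0.2 ⟨lt_of_pow_lt_pow_left₀ 2 (norm_nonneg _) k1,
        lt_of_pow_lt_pow_left₀ 2 zero_le_one k2⟩, rfl⟩
    have hsq : Real.exp (-H) ^ 2 < 1 ^ 2 := by nlinarith
    cases j
    · rcases top3b_unit hN h1 h4 with h | h
      · exfalso
        have k1 := top3b_pos (lin 1) (by positivity)
        have k2 := nhdsWithin_le_nhds (s := Ioi 0) ((lin 1).continuousAt.eventually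
          (gt_mem_nhds (a := (1 : ℝ) ^ 2) (by beta_reduce; rw [z0]; simpa [rad] using hsq)))
        obtain ⟨t, ⟨⟨q1, q2⟩, q3⟩, q4⟩ := (((k1.and k2).and h3).and (near ν)).exists
        rw [z0] at q1
        rw [← h] at q1 q2
        exact q3 (inn _ q4 (by simpa [rad] using q1) q2)
      · simpa using h
    · rcases top3b_unit hN h1 h4 with h | h
      · simpa using h
      · exfalso
        have k1 := top3b_neg (lin (-1)) (by nlinarith)
        have k2 := nhdsWithin_le_nhds (s := Ioi 0) ((lin (-1)).continuousAt.eventually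
          (lt_mem_nhds (a := Real.exp (-H) ^ 2) (by beta_reduce; rw [z0]; simpa [rad] using hsq)))
        obtain ⟨t, ⟨⟨q1, q2⟩, q3⟩, q4⟩ := (((k1.and k2).and h3).and (near ν)).exists
        rw [z0] at q1
        rw [← h] at q1 q2
        exact q3 (inn _ q4 q2 (by simpa [rad] using q1))
  · rintro rfl
    have hNc : ((‖a * deriv F a‖ : ℝ) : ℂ) ≠ 0 := by exact_mod_cast hNp.ne'
    refine ⟨?_, fun c w hc0 hc hw => ?_, ?_⟩
    · rw [norm_mul, norm_div, Complex.norm_real, Complex.norm_real, norm_norm, div_self hNp.ne']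
      cases j <;> simp
    · have hin : ∀ t, Φ (c t) ∈ cann H := fun t => by
        obtain ⟨y, hy, hyc⟩ := hfr ▸ hc t
        rw [← hyc, hΦF y (top3a_cann_sub hd0 (hcirc y hy))]
        exact hcirc y hy
      have hz : ‖Φ (c 0)‖ = rad H j := by rw [hc0, hΦF a had, ha]
      have k : 2 / ‖deriv F a‖ ^ 2 * inner ℝ (a * deriv F a) w = 0 := by
        cases j
        · refine IsLocalMin.hasDerivAt_eq_zero (Eventually.of_forall fun t => ?_) (rho hc0 hw)
          show ‖Φ (c 0)‖ ^ 2 ≤ ‖Φ (c t)‖ ^ 2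
          rw [hz]
          exact pow_le_pow_left₀ (by simpa [rad] using he0.le) (by simpa [rad] using (hin t).1) 2
        · refine IsLocalMax.hasDerivAt_eq_zero (Eventually.of_forall fun t => ?_) (rho hc0 hw)
          show ‖Φ (c t)‖ ^ 2 ≤ ‖Φ (c 0)‖ ^ 2
          rw [hz]
          exact pow_le_pow_left₀ (norm_nonneg _) (by simpa [rad] using (hin t).2) 2
      have k2 : inner ℝ (a * deriv F a) w = 0 := (mul_eq_zero.1 k).resolve_left hK.ne'
      have e : (((if j then 1 else -1 : ℝ)) : ℂ) * (a * deriv F a / ‖a * deriv F a‖) =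
          ((if j then 1 else -1 : ℝ) / ‖a * deriv F a‖) • (a * deriv F a) := by
        rw [Complex.real_smul]; push_cast; ring
      rw [e, real_inner_smul_left, k2, mul_zero]
    · have out : ∀ w ∈ F '' ann H 0, Real.exp (-H) ^ 2 < ‖Φ w‖ ^ 2 ∧ ‖Φ w‖ ^ 2 < 1 ^ 2 := by
        rintro _ ⟨y, hy, rfl⟩
        rw [hΦF y (top3a_mono hd0.le hy)]
        have := top3a_ann0.1 hy
        exact ⟨pow_lt_pow_left₀ this.1 he0.le two_ne_zero,
          pow_lt_pow_left₀ this.2 (norm_nonneg _) two_ne_zero⟩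
      cases j
      · filter_upwards [top3b_neg (lin (-1)) (by nlinarith)] with t ht hm
        rw [z0] at ht
        have := (out _ hm).1
        simp only [rad, Bool.false_eq_true, if_false] at ht this
        linarith
      · filter_upwards [top3b_pos (lin 1) (by positivity)] with t ht hm
        rw [z0] at ht
        have := (out _ hm).2
        simp only [rad, if_true] at ht this
        linarith

end StekIso
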