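import Pool.Agent.Lib.MP_fa022d_an.Top2
import Pool.Agent.Lib.MP_fa022d_an.Four2
import Pool.Agent.Lib.MP_fa022d_an.Top3b

open Set Filter Topology Metric BoundedContinuousFunction Complex

noncomputable section
namespace StekIso

theorem closure_image_ann {F : ℂ → ℂ} {H δ : ℝ} (hH : 0 < H) (hδ : 0 < δ)
    (hd : DifferentiableOn ℂ F (ann H δ)) (h0 : ∀ z ∈ ann H δ, deriv F z ≠ 0)
    (hi : InjOn F (cann H)) :
    IsOpen (F '' ann H 0) ∧ closure (F '' ann H 0) = F '' cann H ∧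
      frontier (F '' ann H 0) = F '' {z | ‖z‖ = 1 ∨ ‖z‖ = Real.exp (-H)} :=
  top3a_closure_image hH hδ hd h0 hi

/-- the inverse map extends holomorphically to a neighbourhood of the closed domain -/
theorem exists_inverse {F : ℂ → ℂ} {H δ : ℝ} (hH : 0 < H) (hδ : 0 < δ)
    (hd : DifferentiableOn ℂ F (ann H δ)) (h0 : ∀ z ∈ ann H δ, deriv F z ≠ 0)
    (hi : InjOn F (cann H)) : ∃ δ' > 0, δ' ≤ δ ∧ InjOn F (ann H δ') ∧ IsOpen (F '' ann H δ') ∧
      ∃ Φ : ℂ → ℂ, DifferentiableOn ℂ Φ (F '' ann H δ') ∧ ∀ z ∈ ann H δ', Φ (F z) = z := by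
  obtain ⟨d, h1, h2, h3, h4, Φ, h5, h6⟩ := top3a_inverse hH hδ hd h0 hi
  refine ⟨d, h1, h2, h3, h4, Φ, ?_, h6⟩
  rintro _ ⟨z, hz, rfl⟩
  exact (h5 z hz).differentiableAt.differentiableWithinAt

/-- the outward unit normal of the image domain -/
theorem normal_iff {F : ℂ → ℂ} {H δ : ℝ} (hH : 0 < H) (hδ : 0 < δ)
    (hd : DifferentiableOn ℂ F (ann H δ)) (h0 : ∀ z ∈ ann H δ, deriv F z ≠ 0)
    (hi : InjOn F (cann H)) (j : Bool) {a : ℂ} (ha : ‖a‖ = rad H j) (ν : ℂ) :
    IsOutwardNormal (F '' ann H 0) (F a) ν ↔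
      ν = (if j then 1 else -1) * (a * deriv F a / ‖a * deriv F a‖) := by
  rw [top3b_normal hH hδ hd h0 hi j ha ν]
  cases j <;> simp

/-- circle number `0` is the outer one -/
def jj (i : Fin 2) : Bool := decide (i = 0)

theorem top3_an {η m M : ℝ} {θ : ℂ → ℂ} (hη : 0 < η) (h : CMap η m M θ) (s : ℝ) :
    AnalyticAt ℂ θ s := by
  have ho : IsOpen (strip η) := isOpen_lt (by fun_prop) continuous_const
  exact h.diff.analyticAt (ho.mem_nhds (by simpa [strip] using hη))

theorem top3_der {η m M : ℝ} {θ : ℂ → ℂ} (hη : 0 < η) (h : CMap η m M θ) (s : ℝ) :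
    HasDerivAt (fun t : ℝ => θ t) (deriv θ s) s :=
  (top3_an hη h s).differentiableAt.hasDerivAt.comp_ofReal

theorem top3_re {η m M : ℝ} {θ : ℂ → ℂ} (h : CMap η m M θ) (s : ℝ) :
    θ s = ((θ s).re : ℂ) := Complex.ext (by simp) (by simp [h.real s])

theorem top3_dre {η m M : ℝ} {θ : ℂ → ℂ} (hη : 0 < η) (h : CMap η m M θ) (s : ℝ) :
    HasDerivAt (fun t : ℝ => (θ t).re) (deriv θ s).re s :=
  (top3_an hη h s).differentiableAt.hasDerivAt.real_of_complex

theorem top3_dreal {η m M : ℝ} {θ : ℂ → ℂ} (hη : 0 < η) (h : CMap η m M θ) (s : ℝ) :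
    deriv θ s = ((deriv θ s).re : ℂ) := by
  refine (top3_der hη h s).unique ?_
  have e : (fun t : ℝ => θ t) = fun t : ℝ => (((θ t).re : ℝ) : ℂ) := funext fun t => top3_re h t
  rw [e]
  exact (top3_dre hη h s).ofReal_comp

theorem top3_lo {η m M : ℝ} {θ : ℂ → ℂ} (hη : 0 < η) (h : CMap η m M θ) (s : ℝ) :
    m ≤ (deriv θ s).re := h.lo s (by simpa [strip] using hη)

theorem top3_mono {η m M : ℝ} {θ : ℂ → ℂ} (hη : 0 < η) (hm : 0 < m) (h : CMap η m M θ) :
    StrictMono fun t : ℝ => (θ t).re :=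
  strictMono_of_deriv_pos fun s => by
    rw [(top3_dre hη h s).deriv]; exact hm.trans_le (top3_lo hη h s)

theorem top3_per {η m M : ℝ} {θ : ℂ → ℂ} (hη : 0 < η) (h : CMap η m M θ) (s : ℝ) :
    θ ((s + 2 * Real.pi : ℝ) : ℂ) = θ s + 2 * Real.pi := by
  rw [← h.per s (by simpa [strip] using hη)]; push_cast; rfl

theorem top3_surj {η m M : ℝ} {θ : ℂ → ℂ} (hη : 0 < η) (hm : 0 < m) (h : CMap η m M θ) (x : ℝ) :
    ∃ s : ℝ, (θ s).re = x := by
  have hd : Differentiable ℝ fun t : ℝ => (θ t).re := fun s => (top3_dre hη h s).differentiableAt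
  have hl : ∀ ⦃a b : ℝ⦄, a ≤ b → m * (b - a) ≤ (θ b).re - (θ a).re :=
    mul_sub_le_image_sub_of_le_deriv hd fun s => by
      rw [(top3_dre hη h s).deriv]; exact top3_lo hη h s
  set r : ℝ := |x - (θ (0 : ℝ)).re| / m with hr
  have hr0 : 0 ≤ r := by positivity
  have hmr : m * r = |x - (θ (0 : ℝ)).re| := by rw [hr]; field_simp
  have h1 := hl hr0
  have h2 := hl (neg_nonpos.2 hr0)
  have h3 := le_abs_self (x - (θ (0 : ℝ)).re)
  have h4 := neg_abs_le (x - (θ (0 : ℝ)).re)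
  exact intermediate_value_univ (-r) r hd.continuous ⟨by nlinarith, by nlinarith⟩

theorem top3_rad_pos (H : ℝ) (j : Bool) : 0 < rad H j := by
  cases j <;> simp [rad, Real.exp_pos]

theorem top3_lenf_pos (lam : ℝ) (j : Bool) : 0 < lenf lam j := by
  cases j <;> simp [lenf, Real.exp_pos]

theorem top3_tau {η m M H : ℝ} {θ : Bool → ℂ → ℂ} (hθ : ∀ j, CMap η m M (θ j)) (j : Bool)
    (s : ℝ) : tau θ H j s = rad H j * exp (((θ j s).re : ℝ) * I) := by
  rw [tau, mul_comm I, ← top3_re (hθ j) s]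

theorem top3_norm_tau {η m M H : ℝ} {θ : Bool → ℂ → ℂ} (hθ : ∀ j, CMap η m M (θ j)) (j : Bool)
    (s : ℝ) : ‖tau θ H j s‖ = rad H j := by
  rw [top3_tau hθ, norm_mul, Complex.norm_exp_ofReal_mul_I, mul_one, Complex.norm_real,
    Real.norm_of_nonneg (top3_rad_pos H j).le]

theorem top3_mem {H : ℝ} (hH : 0 < H) {j : Bool} {z : ℂ} (hz : ‖z‖ = rad H j) : z ∈ cann H := by
  have he : Real.exp (-H) < 1 := Real.exp_lt_one_iff.2 (by linarith)
  cases j
  · have : ‖z‖ = Real.exp (-H) := by simpa [rad] using hz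
    exact ⟨this.ge, by rw [this]; exact he.le⟩
  · have : ‖z‖ = 1 := by simpa [rad] using hz
    exact ⟨by rw [this]; exact he.le, this.le⟩

theorem top3_tau_inj {η m M H : ℝ} {θ : Bool → ℂ → ℂ} (hη : 0 < η) (hm : 0 < m)
    (hθ : ∀ j, CMap η m M (θ j)) (j : Bool) {s t : ℝ} (hs : s ∈ Ico 0 (2 * Real.pi))
    (ht : t ∈ Ico 0 (2 * Real.pi)) (h : tau θ H j s = tau θ H j t) : s = t := by
  have hr : ((rad H j : ℝ) : ℂ) ≠ 0 := by exact_mod_cast (top3_rad_pos H j).ne'
  rw [top3_tau hθ, top3_tau hθ] at h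
  obtain ⟨n, hn⟩ := Complex.exp_eq_exp_iff_exists_int.1 (mul_left_cancel₀ hr h)
  have h1 : (θ j s).re = (θ j t).re + n * (2 * Real.pi) := by
    have := congrArg Complex.im hn
    simpa using this
  have mono := top3_mono hη hm (hθ j)
  have p : ∀ u : ℝ, (θ j ((u + 2 * Real.pi : ℝ) : ℂ)).re = (θ j u).re + 2 * Real.pi := fun u => by
    rw [top3_per hη (hθ j)]; simp
  have h2 : (θ j s).re < (θ j t).re + 2 * Real.pi := by
    rw [← p]; exact mono (by linarith [hs.2, ht.1])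
  have h3 : (θ j t).re < (θ j s).re + 2 * Real.pi := by
    rw [← p]; exact mono (by linarith [hs.1, ht.2])
  have hpi := Real.pi_pos
  have h4 : (n : ℝ) < 1 := by nlinarith
  have h5 : (-1 : ℝ) < n := by nlinarith
  have h6 : n = 0 := by
    have a1 : n < 1 := by exact_mod_cast h4
    have a2 : -1 < n := by exact_mod_cast h5
    omega
  subst h6
  exact mono.injective (by simpa using h1)

theorem top3_tau_surj {η m M H : ℝ} {θ : Bool → ℂ → ℂ} (hη : 0 < η) (hm : 0 < m)
    (hθ : ∀ j, CMap η m M (θ j)) (j : Bool) {z : ℂ} (hz : ‖z‖ = rad H j) :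
    ∃ s, tau θ H j s = z := by
  obtain ⟨s, hs⟩ := top3_surj hη hm (hθ j) (arg z)
  exact ⟨s, by rw [top3_tau hθ, hs, ← hz, Complex.norm_mul_exp_arg_mul_I]⟩

theorem top3_conn {H : ℝ} (hH : 0 < H) : IsConnected (ann H 0) := by
  have he : Real.exp (-H) < 1 := Real.exp_lt_one_iff.2 (by linarith)
  have e : ann H 0 = (fun p : ℝ × ℝ => (p.1 : ℂ) * exp (p.2 * I)) ''
      (Ioo (Real.exp (-H)) 1 ×ˢ univ) := by
    ext z
    rw [top3a_ann0]
    constructor
    · intro hz
      exact ⟨(‖z‖, arg z), ⟨hz, trivial⟩, Complex.norm_mul_exp_arg_mul_I z⟩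
    · rintro ⟨p, ⟨hp, -⟩, rfl⟩
      have : ‖(p.1 : ℂ) * exp (p.2 * I)‖ = p.1 := by
        rw [norm_mul, Complex.norm_exp_ofReal_mul_I, mul_one, Complex.norm_real,
          Real.norm_of_nonneg ((Real.exp_pos _).trans hp.1).le]
      simp only [this]
      exact hp
  rw [e]
  exact ((isConnected_Ioo he).prod isConnected_univ).image _ (by fun_prop)

theorem top3_smooth {η m M H δ : ℝ} {θ : Bool → ℂ → ℂ} {F : ℂ → ℂ} (hη : 0 < η)
    (hθ : ∀ j, CMap η m M (θ j)) (hH : 0 < H) (hδ : 0 < δ) (hd : DifferentiableOn ℂ F (ann H δ))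
    (j : Bool) (l : ℝ) (n : WithTop ℕ∞) : ContDiff ℝ n fun t : ℝ => F (tau θ H j (t / l)) := by
  have h1 : ContDiff ℝ n fun s : ℝ => θ j s := contDiff_iff_contDiffAt.2 fun s =>
    (((top3_an hη (hθ j) s).contDiffAt (n := n)).restrict_scalars ℝ).comp s
      ofRealCLM.contDiff.contDiffAt
  have h2 : ContDiff ℝ n (tau θ H j) :=
    contDiff_const.mul (Complex.contDiff_exp.comp (contDiff_const.mul h1))
  have h3 : ContDiff ℝ n fun t : ℝ => tau θ H j (t / l) := h2.comp (contDiff_id.div_const l)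
  refine contDiff_iff_contDiffAt.2 fun t => ?_
  have hz := top3a_cann_sub hδ (top3_mem hH (top3_norm_tau (H := H) hθ j (t / l)))
  exact (((hd.analyticAt ((isOpen_ann H δ).mem_nhds hz)).contDiffAt (n := n)).restrict_scalars
    ℝ).comp t h3.contDiffAt

theorem top3_unit {η m M lam H δ : ℝ} {θ : Bool → ℂ → ℂ} {G F : ℂ → ℂ} (hη : 0 < η)
    (hm : 0 < m) (hθ : ∀ j, CMap η m M (θ j)) (hH : 0 < H) (hδ : 0 < δ) (hF : HasPrim G F H δ)
    (hfit : Fits θ lam H G 1) (j : Bool) (t : ℝ) :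
    ‖deriv (fun t : ℝ => F (tau θ H j (t / lenf lam j))) t‖ = 1 := by
  have hl := top3_lenf_pos lam j
  have hz := top3a_cann_sub hδ (top3_mem hH (top3_norm_tau (H := H) hθ j (t / lenf lam j)))
  have h1 : HasDerivAt (tau θ H j)
      (tau θ H j (t / lenf lam j) * (I * deriv (θ j) (t / lenf lam j : ℝ))) (t / lenf lam j) := by
    have := (((top3_der hη (hθ j) (t / lenf lam j)).const_mul I).cexp).const_mul (rad H j : ℂ)
    rw [← mul_assoc] at this
    exact this
  have h2 := h1.scomp t ((hasDerivAt_id t).div_const (lenf lam j))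
  have h3 := (hF _ hz).comp t h2
  have h4 := hfit j (t / lenf lam j)
  have h5 := hm.trans_le (top3_lo hη (hθ j) (t / lenf lam j))
  have e : (fun t : ℝ => F (tau θ H j (t / lenf lam j))) =
      F ∘ tau θ H j ∘ fun x => id x / lenf lam j := rfl
  rw [e, h3.deriv, norm_mul, norm_smul, norm_mul, norm_mul, top3_norm_tau hθ, Complex.norm_I,
    top3_dreal hη (hθ j), Complex.norm_real, Real.norm_of_nonneg h5.le,
    Real.norm_of_nonneg (by positivity)]
  field_simp
  linarith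

theorem planar_image {η m M lam H δ : ℝ} {θ : Bool → ℂ → ℂ} {G F : ℂ → ℂ} (hη : 0 < η)
    (hm : 0 < m) (hθ : ∀ j, CMap η m M (θ j)) (hH : 0 < H) (hδ : 0 < δ) (hF : HasPrim G F H δ)
    (hfit : Fits θ lam H G 1) (hi : InjOn F (cann H)) :
    IsPlanarDomain (F '' ann H 0) ∧ ∃ P : BdryParam (F '' ann H 0) 2, ∀ i,
      P.L i = 2 * Real.pi * lenf lam (jj i) ∧
      ∀ t, P.γ i t = F (tau θ H (jj i) (t / lenf lam (jj i))) := by
  have hd : DifferentiableOn ℂ F (ann H δ) := fun z hz =>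
    (hF z hz).differentiableAt.differentiableWithinAt
  have h0 : ∀ z ∈ ann H δ, deriv F z ≠ 0 := fun z hz => by
    rw [(hF z hz).deriv]; exact Complex.exp_ne_zero _
  obtain ⟨ho, -, hfr⟩ := top3a_closure_image hH hδ hd h0 hi
  have he : Real.exp (-H) < 1 := Real.exp_lt_one_iff.2 (by linarith)
  have hc : ContinuousOn F (cann H) := hd.continuousOn.mono (top3a_cann_sub hδ)
  have hmem : ∀ j s, tau θ H j s ∈ cann H := fun j s => top3_mem hH (top3_norm_tau hθ j s)
  let P : BdryParam (F '' ann H 0) 2 :=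
    { L := fun i => 2 * Real.pi * lenf lam (jj i)
      γ := fun i t => F (tau θ H (jj i) (t / lenf lam (jj i)))
      pos := fun i => mul_pos Real.two_pi_pos (top3_lenf_pos _ _)
      smooth := fun i => top3_smooth hη hθ hH hδ hd _ _ _
      unit := fun i s => top3_unit hη hm hθ hH hδ hF hfit _ s
      per := fun i t => by
        have hl := top3_lenf_pos lam (jj i)
        have e : (t + 2 * Real.pi * lenf lam (jj i)) / lenf lam (jj i) =
            t / lenf lam (jj i) + 2 * Real.pi := by field_simp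
        show F (tau θ H (jj i) _) = F (tau θ H (jj i) _)
        rw [e, tau, tau, top3_per hη (hθ _), mul_add, Complex.exp_add,
          mul_comm I (2 * (Real.pi : ℂ)), Complex.exp_two_pi_mul_I, mul_one]
      inj := fun i s hs t ht h => by
        have hl := top3_lenf_pos lam (jj i)
        have k : ∀ u ∈ Ico 0 (2 * Real.pi * lenf lam (jj i)),
            u / lenf lam (jj i) ∈ Ico 0 (2 * Real.pi) := fun u hu =>
          ⟨div_nonneg hu.1 hl.le, (div_lt_iff₀ hl).2 hu.2⟩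
        have := top3_tau_inj hη hm hθ (jj i) (k s hs) (k t ht) (hi (hmem _ _) (hmem _ _) h)
        exact (div_left_inj' hl.ne').1 this
      disj := fun i j hij => by
        rw [Set.disjoint_left]
        rintro _ ⟨s, rfl⟩ ⟨t, h⟩
        have h1 := congrArg norm (hi (hmem _ _) (hmem _ _) h)
        rw [top3_norm_tau hθ, top3_norm_tau hθ] at h1
        fin_cases i <;> fin_cases j <;> simp [jj, rad] at h1 hij <;> linarith
      cover := by
        rw [hfr]
        ext w
        simp only [mem_iUnion, mem_range]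
        constructor
        · rintro ⟨z, hz, rfl⟩
          have k : ∀ i, ‖z‖ = rad H (jj i) →
              ∃ i t, F (tau θ H (jj i) (t / lenf lam (jj i))) = F z := fun i h => by
            obtain ⟨s, hs⟩ := top3_tau_surj hη hm hθ (jj i) h
            exact ⟨i, s * lenf lam (jj i), by
              rw [mul_div_cancel_right₀ _ (top3_lenf_pos lam (jj i)).ne', hs]⟩
          rcases hz with h | h
          · exact k 0 (by simpa [jj, rad] using h)
          · exact k 1 (by simpa [jj, rad] using h)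
        · rintro ⟨i, t, rfl⟩
          refine ⟨_, ?_, rfl⟩
          show _ ∨ _
          rw [top3_norm_tau hθ]
          cases jj i <;> simp [rad] }
  refine ⟨⟨ho, (top3_conn hH).image _ (hc.mono top3a_ann0_sub), ?_, 2, ⟨P⟩⟩, P, fun i =>
    ⟨rfl, fun t => rfl⟩⟩
  exact ((isCompact_cann H).image_of_continuousOn hc).isBounded.subset (image_mono top3a_ann0_sub)

end StekIso
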