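import Pool.Agent.Lib.MP_fa022d_an.Defs6
import Pool.Agent.Lib.MP_fa022d_an.HiA
import Pool.Agent.Lib.MP_fa022d_an.Top3
import Pool.Agent.Lib.MP_fa022d_an.Fin2
import Pool.Agent.Lib.MP_fa022d_an.LinkE
import Pool.Agent.Lib.MP_fa022d_an.SchB

open Set Filter Topology Metric BoundedContinuousFunction Complex

noncomputable section
namespace StekIso

/-- the domain of an embedded closed shape -/
def domV (B : Base) {η : Pos} (lam : ℝ) (v : V η) : Set ℂ := Fv B lam v '' ann (Hv B lam v) 0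

section
variable {B : GeoBase} {η : Pos} {r δ C lam : ℝ}

theorem fam_H (hG : GeoOK B η r δ C) (hl : |lam - B.lam0| < r) {v : V η} (hv : v ∈ RB η r) :
    2 ≤ Hv B.toBase lam v := by
  linarith [(abs_le.1 (hG.modH v hv lam hl).2).1, hG.δ_le, B.big]

theorem fam_prim (hG : GeoOK B η r δ C) (hl : |lam - B.lam0| < r) {v : V η} (hv : v ∈ RB η r)
    (hc : Clo B.toBase lam v) :
    HasPrim (Gv B.toBase lam v) (Fv B.toBase lam v) (Hv B.toBase lam v) δ := fun z hz =>
  hG.prim v hv lam hl hc z (ann_sub hG.δ_pos.le (hG.modH v hv lam hl).2 hz)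

theorem fam_mem (hG : GeoOK B η r δ C) (hl : |lam - B.lam0| < r) {v : V η} (hv : v ∈ RB η r)
    (j : Bool) (s : ℝ) : tau (thOf B.toBase v) (Hv B.toBase lam v) j s ∈ ann B.H0 (2 * δ) :=
  ann_sub hG.δ_pos.le (hG.modH v hv lam hl).2 (cann_sub hG.δ_pos
    (top3_mem (by linarith [fam_H hG hl hv]) (top3_norm_tau (hG.cm v hv) j s)))

/-- the boundary curves depend continuously on the perturbation and the parameter -/
theorem fam_tend (hG : GeoOK B η r δ C) (hl : |lam - B.lam0| < r) {α : Type} {l : Filter α}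
    {w : α → V η} {w0 : V η} (hw : ∀ a, w a ∈ RB η r) (h0 : w0 ∈ RB η r) (lw : Tendsto w l (𝓝 w0))
    {s : α → ℝ} {s0 : ℝ} (ls : Tendsto s l (𝓝 s0)) (j : Bool) :
    Tendsto (fun a => Fv B.toBase lam (w a)
      (tau (thOf B.toBase (w a)) (Hv B.toBase lam (w a)) j (s a))) l
      (𝓝 (Fv B.toBase lam w0 (tau (thOf B.toBase w0) (Hv B.toBase lam w0) j s0))) := by
  obtain ⟨K, -, hK⟩ := weak_le η
  have z : Tendsto (fun a => C * sn (w a - w0)) l (𝓝 0) := by
    have k : Tendsto (fun a => K * ‖w a - w0‖) l (𝓝 0) := by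
      simpa using (tendsto_iff_norm_sub_tendsto_zero.1 lw).const_mul K
    simpa using (squeeze_zero (fun a => (hK _).1.trans ((hK _).2.1.trans (hK _).2.2.1))
      (fun a => (hK _).2.2.2) k).const_mul C
  have lip := fun a => hG.lip (w a) (hw a) lam hl w0 h0 lam hl
  simp only [sub_self, abs_zero, add_zero] at lip
  have h1 : Tendsto (fun a => Hv B.toBase lam (w a)) l (𝓝 (Hv B.toBase lam w0)) :=
    tendsto_iff_norm_sub_tendsto_zero.2 (squeeze_zero (fun _ => norm_nonneg _)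
      (fun a => (lip a).1) z)
  have h2 : Tendsto (fun a => thOf B.toBase (w a) j (s a)) l (𝓝 (thOf B.toBase w0 j s0)) :=
    ((top3_der η.2 (hG.cm w0 h0 j) s0).continuousAt.tendsto.comp ls).congr_dist
      (squeeze_zero (fun _ => dist_nonneg) (fun a => by
        rw [dist_comm, dist_eq_norm]
        exact (hG.thlip (w a) (hw a) w0 h0 j (s a)).1) z)
  have h3 : Tendsto (fun a => rad (Hv B.toBase lam (w a)) j) l (𝓝 (rad (Hv B.toBase lam w0) j)) := by
    cases j
    · exact (Real.continuous_exp.tendsto _).comp h1.neg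
    · exact tendsto_const_nhds
  have h4 : Tendsto (fun a => tau (thOf B.toBase (w a)) (Hv B.toBase lam (w a)) j (s a)) l
      (𝓝 (tau (thOf B.toBase w0) (Hv B.toBase lam w0) j s0)) :=
    h3.ofReal.mul (h2.const_mul I).cexp
  have op : IsOpen (ann B.H0 (2 * δ)) := (isOpen_lt continuous_const continuous_norm).inter
    (isOpen_lt continuous_norm continuous_const)
  refine (((hG.dF w0 h0 lam hl).differentiableAt
    (op.mem_nhds (fam_mem hG hl h0 j s0))).continuousAt.tendsto.comp h4).congr_dist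
    (squeeze_zero (fun _ => dist_nonneg) (fun a => ?_) z)
  rw [dist_comm, dist_eq_norm]
  exact ((lip a).2 _ (fam_mem hG hl (hw a) j (s a))).2

end

theorem rank_domV {B : GeoBase} {η : Pos} {r δ C CK lam : ℝ} (hK : KerOK B.toBase η CK)
    (hG : GeoOK B η r δ C) (hl : |lam - B.lam0| < r) {v : V η} (hv : v ∈ RB η r)
    (hH : ‖Hof B.toBase (v, (lam : ℂ)) - B.H0‖ < 1)
    (hc : Clo B.toBase lam v) (he : Emb B.toBase lam v) (σ : ℝ)
    (hf : Module.Finite ℂ (Ker (Smat B.toBase (v, Hof B.toBase (v, (lam : ℂ)))) (lenf lam) σ)) :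
    Module.rank ℝ (steklovSpace (domV B.toBase lam v) σ) =
      Module.finrank ℂ (Ker (Smat B.toBase (v, Hof B.toBase (v, (lam : ℂ)))) (lenf lam) σ) := by
  have hz : (v, Hof B.toBase (v, (lam : ℂ))) ∈ dom B.toBase η (δK B.toBase η) :=
    ⟨mem_ball_zero_iff.2 (hv.2.trans_le hG.r_le), mem_ball_iff_norm.2 hH⟩
  have e := (hG.modH v hv lam hl).1
  have hM : 0 ≤ B.M := (norm_nonneg _).trans ((B.cm true).hi 0 (by simpa [strip] using B.η0_pos))
  rw [← rank_RKer (by linarith [η.2]) (hK.crude _ hz) (hK.rsym _ hz hv.1 (by rw [e]; rfl)) σ hf,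
    hK.sfun _ hz, e]
  exact link_main η.2 (half_pos B.m_pos) (by nlinarith [hG.small, B.small]) (hG.cm v hv)
    (fam_H hG hl hv) hG.δ_pos (fam_prim hG hl hv hc) (hG.fits v hv lam hl) he σ

theorem fam_far (p q : ℝ) (k : ℤ) :
    ‖exp (I * p) - exp (I * q)‖ ≤ |q - p - k * (2 * Real.pi)| := by
  have e : exp (I * p) - exp (I * q) =
      -exp (I * p) * (exp (I * (q - p - k * (2 * Real.pi) : ℝ)) - 1) := by
    have : exp (I * q) = exp (I * p) * exp (I * (q - p - k * (2 * Real.pi) : ℝ)) := by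
      rw [← exp_add, ← mul_one (exp (_ + _)), ← exp_int_mul_two_pi_mul_I k, ← exp_add]
      congr 1
      push_cast
      ring
    rw [this]
    ring
  rw [e, norm_mul, norm_neg, norm_exp_I_mul_ofReal, one_mul]
  exact Real.norm_exp_I_mul_ofReal_sub_one_le

/-- a path of embedded shapes that ends at a touching shape (`planar_image`; reparametrise by a
continuous map `ℝ → Ico 0 τ1` that tends to `τ1`; the limit curve has non-zero velocity) -/
theorem family_of_path {B : GeoBase} {η : Pos} {r δ C lam : ℝ} (hG : GeoOK B η r δ C)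
    (hl : |lam - B.lam0| < r) {v : ℝ → V η} {τ1 : ℝ} (h0 : 0 < τ1)
    (hv : ContinuousOn v (Icc 0 τ1))
    (hr : ∀ τ ∈ Icc 0 τ1, v τ ∈ RB η r ∧ Clo B.toBase lam (v τ))
    (he : ∀ τ ∈ Ico 0 τ1, Emb B.toBase lam (v τ)) {p q : ℝ} (hne : exp (I * p) ≠ exp (I * q))
    (ht : Fv B.toBase lam (v τ1) (tv B.toBase (v τ1) p) =
      Fv B.toBase lam (v τ1) (tv B.toBase (v τ1) q)) :
    ∃ Φ : Family, ∀ τ, IsPlanarDomain (Φ.Ω τ) ∧
      ∃ t ∈ Ico 0 τ1, Φ.Ω τ = domV B.toBase lam (v t) := by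
  let t : ℝ → ℝ := fun τ => τ1 * Real.sigmoid τ
  have t1 : ∀ τ, t τ ∈ Ico 0 τ1 := fun τ => ⟨mul_nonneg h0.le (Real.sigmoid_nonneg τ),
    mul_lt_of_lt_one_right h0 (Real.sigmoid_lt_one τ)⟩
  have t2 := fun τ => hr _ (Ico_subset_Icc_self (t1 τ))
  have m1 : τ1 ∈ Icc 0 τ1 := ⟨h0.le, le_rfl⟩
  have e1 := hr τ1 m1
  have tc : Continuous fun τ => v (t τ) := hv.comp_continuous
    (continuous_const.mul continuous_sigmoid) fun τ => Ico_subset_Icc_self (t1 τ)
  have tl : Tendsto (fun τ => v (t τ)) atTop (𝓝 (v τ1)) := (hv τ1 m1).tendsto.comp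
    (tendsto_nhdsWithin_iff.2 ⟨by simpa using Real.tendsto_sigmoid_atTop.const_mul τ1,
      .of_forall fun τ => Ico_subset_Icc_self (t1 τ)⟩)
  have pl := fun τ => planar_image η.2 (half_pos B.m_pos) (hG.cm _ (t2 τ).1)
    (by linarith [fam_H hG hl (t2 τ).1]) hG.δ_pos (fam_prim hG hl (t2 τ).1 (t2 τ).2)
    (hG.fits _ (t2 τ).1 lam hl) (he _ (t1 τ))
  choose P hP using fun τ => (pl τ).2
  let g : ℝ → ℂ := fun s => Fv B.toBase lam (v τ1)
    (tau (thOf B.toBase (v τ1)) (Hv B.toBase lam (v τ1)) true (s / lenf lam true))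
  have g1 : ∀ s, g s = Fv B.toBase lam (v τ1) (tv B.toBase (v τ1) s) := fun s => by
    simp [g, tau, tv, rad, lenf]
  have g2 : deriv g p ≠ 0 := norm_ne_zero_iff.1 ((top3_unit η.2 (half_pos B.m_pos) (hG.cm _ e1.1)
    (by linarith [fam_H hG hl e1.1]) hG.δ_pos (fam_prim hG hl e1.1 e1.2) (hG.fits _ e1.1 lam hl)
      true p).trans_ne one_ne_zero)
  obtain ⟨ε, ε0, hε⟩ := Metric.eventually_nhds_iff.1 (eventually_nhdsWithin_iff.1
    ((differentiableAt_of_deriv_ne_zero g2).hasDerivAt.eventually_ne (c := g p) g2))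
  have d0 : 0 < ‖exp (I * p) - exp (I * q)‖ := norm_pos_iff.2 (sub_ne_zero.2 hne)
  have k0 := lt_min ε0 d0
  have k1 := min_le_left ε ‖exp (I * p) - exp (I * q)‖
  have k2 := min_le_right ε ‖exp (I * p) - exp (I * q)‖
  refine ⟨⟨fun τ => domV B.toBase lam (v (t τ)), P, fun i => 2 * Real.pi * lenf lam (jj i),
    fun τ i => (hP τ i).1, fun i => ?_, g, fun s => ?_, p, q, _, half_pos k0, fun k => ?_,
    by rw [g1, g1, ht], hε ?_ ?_, hε ?_ ?_⟩, fun τ => ⟨(pl τ).1, _, t1 τ, rfl⟩⟩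
  · simp only [fun τ => (hP τ i).2]
    exact continuous_iff_continuousAt.2 fun z => fam_tend hG hl (fun a : ℝ × ℝ => (t2 a.1).1)
      (t2 z.1).1 ((tc.comp continuous_fst).tendsto z) ((continuous_snd.div_const _).tendsto z) _
  · simp only [fun τ => (hP τ 0).2]
    exact fam_tend hG hl (fun a => (t2 a).1) e1.1 tl tendsto_const_nhds true
  · have := fam_far p q k
    rw [show lenf lam (jj 0) = 1 from rfl, mul_one]
    linarith
  · rw [Real.dist_eq, add_sub_cancel_left, abs_of_pos (half_pos k0)]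
    linarith
  · exact fun h => by linarith [mem_singleton_iff.1 h]
  · rw [Real.dist_eq, sub_sub_cancel_left, abs_neg, abs_of_pos (half_pos k0)]
    linarith
  · exact fun h => by linarith [mem_singleton_iff.1 h]

end StekIso
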