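import Pool.Agent.Lib.MP_fa022d_an.Stmt

open Set Filter Topology Metric BoundedContinuousFunction Complex

noncomputable section
namespace StekIso

/-- every path in `Γ n` from `P n` to `Q n` goes a fixed distance away from `P n` -/
def NoShort (Γ : ℕ → Set ℂ) (P Q : ℕ → ℂ) : Prop :=
  ∃ c > 0, ∀ᶠ n in atTop, ∀ (a b : ℝ) (f : ℝ → ℂ), ContinuousOn f (uIcc a b) →
    MapsTo f (uIcc a b) (Γ n) → f a = P n → f b = Q n → ∃ t ∈ uIcc a b, c ≤ ‖f t - P n‖

theorem fin1_mod {f : ℝ → ℂ} {L : ℝ} (hL : 0 < L) (h : Function.Periodic f L) (a s : ℝ) :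
    ∃ u ∈ Ico a (a + L), f u = f s :=
  ⟨toIcoMod hL a s, toIcoMod_mem_Ico hL a s, h.sub_zsmul_eq _⟩

theorem fin1_inj {Ω : Set ℂ} {m : ℕ} (P : BdryParam Ω m) (i : Fin m) {u w : ℝ}
    (h : P.γ i u = P.γ i w) : ∃ k : ℤ, w - u = k * P.L i := by
  have e : toIcoMod (P.pos i) 0 u = toIcoMod (P.pos i) 0 w :=
    P.inj i (toIcoMod_mem_Ico' _ _) (toIcoMod_mem_Ico' _ _)
      (((P.per i).sub_zsmul_eq _).trans (h.trans ((P.per i).sub_zsmul_eq _).symm))
  obtain ⟨k, hk⟩ := (toIcoMod_eq_toIcoMod _).1 e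
  exact ⟨k, by rw [hk, zsmul_eq_mul]⟩

/-- A connected part of the boundary through `γ p` and `γ q` contains `γ (p + δ)` or
`γ (p - δ)`. -/
theorem fin1_cut {Ω : Set ℂ} {m : ℕ} (P : BdryParam Ω m) (i : Fin m) {p q δ : ℝ} (hδ : 0 < δ)
    (hq : ∀ k : ℤ, δ < |q - p - k * P.L i|) {K : Set ℂ} (hK : IsPreconnected K)
    (hs : K ⊆ frontier Ω) (hp : P.γ i p ∈ K) (hq' : P.γ i q ∈ K) :
    P.γ i (p + δ) ∈ K ∨ P.γ i (p - δ) ∈ K := by
  have hL := P.pos i
  have ct : ∀ j, Continuous (P.γ j) := fun j => (P.smooth j).continuous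
  obtain ⟨q', ⟨h1, h2⟩, e⟩ := fin1_mod hL (P.per i) p q
  obtain ⟨k, hk⟩ := fin1_inj P i e
  have a1 := hq k
  have a2 := hq (k + 1)
  rw [abs_of_nonneg (by linarith)] at a1
  rw [abs_of_nonpos (by push_cast; linarith)] at a2
  push_cast at a2
  obtain ⟨x, hx, ⟨u, hu, rfl⟩, hB⟩ := isPreconnected_closed_iff.1 hK
    (P.γ i '' Icc (p - δ) (p + δ))
    (P.γ i '' Icc (p + δ) (p - δ + P.L i) ∪ ⋃ j ∈ {j | j ≠ i}, range (P.γ j))
    (isCompact_Icc.image (ct i)).isClosed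
    ((isCompact_Icc.image (ct i)).isClosed.union ((toFinite _).isClosed_biUnion fun j _ =>
      ((P.per j).compact_of_continuous (P.pos j).ne' (ct j)).isClosed))
    (fun x hx => by
      obtain ⟨j, s, rfl⟩ := mem_iUnion.1 (P.cover ▸ hs hx)
      by_cases hj : j = i
      · subst hj
        obtain ⟨u, hu, e⟩ := fin1_mod hL (P.per j) (p - δ) s
        rcases le_total u (p + δ) with a | a
        · exact .inl ⟨u, ⟨hu.1, a⟩, e⟩
        · exact .inr (.inl ⟨u, ⟨a, hu.2.le⟩, e⟩)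
      · exact .inr (.inr (mem_biUnion hj ⟨s, rfl⟩)))
    ⟨_, hp, p, ⟨by linarith, by linarith⟩, rfl⟩
    ⟨_, hq', .inl ⟨q', ⟨by linarith, by linarith⟩, e⟩⟩
  rcases hB with ⟨w, hw, e'⟩ | hB
  · obtain ⟨l, hl⟩ := fin1_inj P i e'.symm
    have b1 : (0 : ℝ) ≤ l := nonneg_of_mul_nonneg_left (by linarith [hu.2, hw.1]) hL
    have b2 : (l : ℝ) ≤ 1 := le_of_mul_le_mul_right (by linarith [hu.1, hw.2]) hL
    have b3 : l = 0 ∨ l = 1 := by
      have : 0 ≤ l := by exact_mod_cast b1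
      have : l ≤ 1 := by exact_mod_cast b2
      omega
    rcases b3 with rfl | rfl
    · exact .inl ((show u = p + δ by push_cast at hl; linarith [hu.2, hw.1]) ▸ hx)
    · exact .inr ((show u = p - δ by push_cast at hl; linarith [hu.1, hw.2]) ▸ hx)
  · obtain ⟨j, hj, hB⟩ := mem_iUnion₂.1 hB
    exact ((P.disj j i hj).ne_of_mem hB ⟨u, rfl⟩ rfl).elim

/-- A path inside the boundary that starts on curve `i` stays on it; read through the
parametrisation it must pass `p + δ` or `p - δ` before it reaches `q`. -/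
theorem noShort_of_param {Ω : ℕ → Set ℂ} {m : ℕ} (P : ∀ n, BdryParam (Ω n) m) (i : Fin m)
    {L p q δ c : ℝ} (hL : ∀ n, (P n).L i = L) (hδ : 0 < δ) (hc : 0 < c)
    (hq : ∀ k : ℤ, δ < |q - p - k * L|)
    (h : ∀ᶠ n in atTop, c ≤ ‖(P n).γ i (p + δ) - (P n).γ i p‖ ∧
      c ≤ ‖(P n).γ i (p - δ) - (P n).γ i p‖) :
    NoShort (fun n => frontier (Ω n)) (fun n => (P n).γ i p) (fun n => (P n).γ i q) := by
  refine ⟨c, hc, h.mono fun n hn a b f hf hm ha hb => ?_⟩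
  rcases fin1_cut (P n) i hδ (by rw [hL]; exact hq) (isPreconnected_uIcc.image f hf)
    hm.image_subset ⟨a, left_mem_uIcc, ha⟩ ⟨b, right_mem_uIcc, hb⟩ with ⟨t, ht, e⟩ | ⟨t, ht, e⟩
  · exact ⟨t, ht, e ▸ hn.1⟩
  · exact ⟨t, ht, e ▸ hn.2⟩

/-- Points of the curves converge along an ultrafilter, together with their parameters. -/
theorem fin1_lim (U : Ultrafilter ℕ) (hU : ↑U ≤ (atTop : Filter ℕ)) {m : ℕ} {L : ℕ → Fin m → ℝ}
    {g : ℕ → Fin m → ℝ → ℂ} (hg : ∀ n i, LipschitzWith 1 (g n i))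
    (hper : ∀ n i, Function.Periodic (g n i) (L n i)) (hpos : ∀ n i, 0 < L n i) {L' : Fin m → ℝ}
    {γ : Fin m → ℝ → ℂ} (hL : ∀ i, Tendsto (fun n => L n i) atTop (𝓝 (L' i)))
    (hc : ∀ i s, Tendsto (fun n => g n i s) atTop (𝓝 (γ i s))) {x : ℕ → ℂ}
    (hx : ∀ n, x n ∈ ⋃ i, range (g n i)) : ∃ (i : Fin m) (s : ℝ) (u : ℕ → ℝ),
      Tendsto u U (𝓝 s) ∧ (∀ᶠ n in U, g n i (u n) = x n) ∧ Tendsto x U (𝓝 (γ i s)) := by
  have : ∀ n, ∃ i, ∃ u ∈ Ico 0 (0 + L n i), g n i u = x n := fun n => by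
    obtain ⟨i, s, e⟩ := mem_iUnion.1 (hx n)
    exact ⟨i, e ▸ fin1_mod (hpos n i) (hper n i) 0 s⟩
  choose j u hu e using this
  obtain ⟨i, hi⟩ := (U.map j).eq_pure_of_finite
  have hj : ∀ᶠ n in U, j n = i := by
    have : {i} ∈ U.map j := hi ▸ Ultrafilter.mem_pure.2 rfl
    exact this
  obtain ⟨s, -, hs⟩ := (isCompact_Icc (a := (0 : ℝ)) (b := L' i + 1)).ultrafilter_le_nhds'
    (U.map u) (by
      have := hj.and (((hL i).eventually (gt_mem_nhds (lt_add_one _))).filter_mono hU)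
      refine this.mono fun n hn => ⟨(hu n).1, ?_⟩
      have := (hu n).2
      rw [hn.1] at this
      linarith [hn.2])
  have hs' : Tendsto u U (𝓝 s) := hs
  have e' : ∀ᶠ n in U, g n i (u n) = x n := hj.mono fun n hn => hn ▸ e n
  refine ⟨i, s, u, hs', e', (((hc i s).mono_left hU).congr_dist ?_).congr' e'⟩
  refine squeeze_zero (fun _ => dist_nonneg) (fun n => ?_) (tendsto_iff_dist_tendsto_zero.1 hs')
  simpa [dist_comm] using (hg n i).dist_le_mul s (u n)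

/-- close points without a short arc exclude an embedded limit, even in `C⁰` -/
theorem no_limit {Γ : ℕ → Set ℂ} {P Q : ℕ → ℂ} (hP : ∀ n, P n ∈ Γ n) (hQ : ∀ n, Q n ∈ Γ n)
    (h0 : Tendsto (fun n => ‖P n - Q n‖) atTop (𝓝 0)) (hs : NoShort Γ P Q)
    (R : ℕ → ℂ ≃ᵢ ℂ) {m : ℕ} (L : ℕ → Fin m → ℝ) (g : ℕ → Fin m → ℝ → ℂ)
    (hg : ∀ n i, LipschitzWith 1 (g n i)) (hper : ∀ n i, Function.Periodic (g n i) (L n i))
    (hpos : ∀ n i, 0 < L n i) (hcov : ∀ n, R n '' Γ n = ⋃ i, range (g n i))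
    {Ω' : Set ℂ} (P' : BdryParam Ω' m) (hL : ∀ i, Tendsto (fun n => L n i) atTop (𝓝 (P'.L i)))
    (hconv : ∀ i, TendstoLocallyUniformly (fun n => g n i) (P'.γ i) atTop) : False := by
  obtain ⟨c, hc, hs⟩ := hs
  let U : Ultrafilter ℕ := Ultrafilter.of atTop
  have hU : ↑U ≤ (atTop : Filter ℕ) := Ultrafilter.of_le _
  have pw : ∀ i s, Tendsto (fun n => g n i s) atTop (𝓝 (P'.γ i s)) := fun i s =>
    (hconv i).tendsto_comp (P'.smooth i).continuous.continuousAt tendsto_const_nhds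
  obtain ⟨i, s, u, h1, h2, h3⟩ := fin1_lim U hU hg hper hpos hL pw (x := fun n => R n (P n))
    fun n => hcov n ▸ mem_image_of_mem _ (hP n)
  obtain ⟨j, t, w, k1, k2, k3⟩ := fin1_lim U hU hg hper hpos hL pw (x := fun n => R n (Q n))
    fun n => hcov n ▸ mem_image_of_mem _ (hQ n)
  have e : P'.γ i s = P'.γ j t := tendsto_nhds_unique (h3.congr_dist (by
    simpa only [IsometryEquiv.dist_eq, ← dist_eq_norm] using h0.mono_left hU)) k3
  obtain rfl : i = j := by_contra fun h => (P'.disj i j h).ne_of_mem ⟨s, rfl⟩ ⟨t, rfl⟩ e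
  obtain ⟨k, hk⟩ := fin1_inj P' i e
  have l : Tendsto (fun n => |w n - k * L n i - u n|) U (𝓝 0) := by
    have := ((k1.sub (((hL i).mono_left hU).const_mul (k : ℝ))).sub h1).abs
    rwa [show t - k * P'.L i - s = 0 by linarith, abs_zero] at this
  obtain ⟨n, ⟨a1, a2⟩, a3, a4⟩ := ((h2.and k2).and ((hs.filter_mono hU).and
    (l.eventually (gt_mem_nhds hc)))).exists
  have b : (R n).symm (g n i (u n)) = P n := by rw [a1, IsometryEquiv.symm_apply_apply]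
  obtain ⟨τ, hτ, hd⟩ := a3 (u n) (w n - k * L n i) (fun τ => (R n).symm (g n i τ))
    ((R n).symm.continuous.comp (hg n i).continuous).continuousOn
    (fun τ _ => by
      obtain ⟨z, hz, e⟩ : g n i τ ∈ R n '' Γ n := hcov n ▸ mem_iUnion.2 ⟨i, τ, rfl⟩
      show (R n).symm (g n i τ) ∈ Γ n
      rwa [← e, IsometryEquiv.symm_apply_apply]) b
    (by rw [(hper n i).sub_int_mul_eq, a2, IsometryEquiv.symm_apply_apply])
  rw [← b, ← dist_eq_norm, IsometryEquiv.dist_eq] at hd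
  have d1 := (hg n i).dist_le_mul τ (u n)
  rw [NNReal.coe_one, one_mul, Real.dist_eq] at d1
  linarith [abs_sub_left_of_mem_uIcc hτ]

theorem BdryParam.lipschitz {Ω : Set ℂ} {m : ℕ} (P : BdryParam Ω m) (i : Fin m) :
    LipschitzWith 1 (P.γ i) := by
  exact lipschitzWith_of_nnnorm_deriv_le ((P.smooth i).differentiable (by simp))
    fun s => NNReal.coe_le_coe.1 (P.unit i s).le

end StekIso
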