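import Pool.Agent.Lib.MP_fa022d_an.Defs2

open Set Filter Topology Metric BoundedContinuousFunction Complex

noncomputable section
namespace StekIso

theorem isOpen_strip (η : ℝ) : IsOpen (strip η) :=
  isOpen_lt (continuous_abs.comp continuous_im) continuous_const

theorem four1_per (k : ℤ) (s : ℂ) : exp (-(I * k * (s + 2 * Real.pi))) = exp (-(I * k * s)) := by
  rw [show -(I * k * (s + 2 * Real.pi)) = -(I * k * s) + (-k : ℤ) * (2 * Real.pi * I) by
    push_cast; ring, exp_add, exp_int_mul_two_pi_mul_I, mul_one]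

theorem four1_norm (k : ℤ) (s : ℝ) : ‖exp (I * k * s)‖ = 1 ∧ ‖exp (-(I * k * s))‖ = 1 := by
  constructor <;> rw [norm_exp] <;> simp

/-- contour shift -/
theorem fc_shift {f : ℂ → ℂ} {a b y : ℝ} (ha : a < 0) (hb : 0 < b) (hy : y ∈ Ioo a b)
    (hf : DifferentiableOn ℂ f {s | s.im ∈ Ioo a b})
    (hp : ∀ s : ℂ, s.im ∈ Ioo a b → f (s + 2 * Real.pi) = f s) (k : ℤ) :
    fc (fun s => f s) k = (Real.exp (k * y) : ℝ) * fc (fun s => f (s + I * y)) k := by
  have sub : uIcc 0 y ⊆ Ioo a b := ordConnected_Ioo.uIcc_subset ⟨ha, hb⟩ hy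
  have h := integral_boundary_rect_eq_zero_of_differentiableOn
    (fun s => f s * exp (-(I * k * s))) 0 ⟨2 * Real.pi, y⟩
    ((hf.mono fun s hs => sub hs.2).mul (by fun_prop))
  have v : (∫ t : ℝ in (0 : ℝ)..y, f (((2 * Real.pi : ℝ) : ℂ) + t * I) *
      exp (-(I * k * (((2 * Real.pi : ℝ) : ℂ) + t * I)))) =
      ∫ t : ℝ in (0 : ℝ)..y, f (((0 : ℝ) : ℂ) + t * I) * exp (-(I * k * (((0 : ℝ) : ℂ) + t * I))) := by
    refine intervalIntegral.integral_congr fun t ht => ?_
    have e : ((2 * Real.pi : ℝ) : ℂ) + t * I = (((0 : ℝ) : ℂ) + t * I) + 2 * Real.pi := by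
      push_cast; ring
    simp only [e]
    rw [four1_per, hp _ (by simpa using sub ht)]
  simp only [zero_re, zero_im] at h
  rw [v, add_sub_cancel_right, sub_eq_zero] at h
  simp only [ofReal_zero, zero_mul, add_zero] at h
  simp only [fc]
  rw [h, mul_left_comm, ← intervalIntegral.integral_const_mul ((Real.exp (k * y) : ℝ) : ℂ)]
  congr 1
  refine intervalIntegral.integral_congr fun x _ => ?_
  have e : -(I * k * (x + y * I)) = ((k * y : ℝ) : ℂ) + -(I * k * x) := by
    push_cast
    linear_combination (-(k : ℂ) * y) * I_mul_I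
  simp only [e]
  rw [exp_add, ofReal_exp, mul_comm (y : ℂ) I]
  ring

theorem norm_fc_le {f : ℝ → ℂ} {M : ℝ} (h : ∀ s, ‖f s‖ ≤ M) (k : ℤ) : ‖fc f k‖ ≤ M := by
  have p := Real.pi_pos
  have k1 := intervalIntegral.norm_integral_le_of_norm_le_const (a := 0) (b := 2 * Real.pi)
    (f := fun s : ℝ => f s * exp (-(I * k * s))) (C := M) fun s _ => by
      rw [norm_mul, (four1_norm k s).2, mul_one]
      exact h s
  rw [sub_zero, abs_of_pos (by positivity)] at k1
  have n : ‖(1 / (2 * Real.pi) : ℂ)‖ = 1 / (2 * Real.pi) := by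
    simp [abs_of_pos p]
  rw [fc, norm_mul, n]
  refine (mul_le_mul_of_nonneg_left k1 (by positivity)).trans (le_of_eq ?_)
  field_simp

theorem fc_decay {f : ℂ → ℂ} {η M : ℝ} (hη : 0 < η) (hf : DifferentiableOn ℂ f (strip η))
    (hp : ∀ s ∈ strip η, f (s + 2 * Real.pi) = f s) (hM : ∀ s ∈ strip η, ‖f s‖ ≤ M) (k : ℤ) :
    ‖fc (fun s => f s) k‖ ≤ M * ex η k := by
  have e : strip η = {s | s.im ∈ Ioo (-η) η} := Set.ext fun s => abs_lt (a := s.im)
  have key : ∀ y : ℝ, |y| < η → ‖fc (fun s => f s) k‖ ≤ M * Real.exp (k * y) := fun y hy => by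
    rw [fc_shift (neg_lt_zero.2 hη) hη (abs_lt.1 hy) (e ▸ hf) (fun s hs => hp s (e ▸ hs)) k,
      norm_mul, Complex.norm_real, Real.norm_of_nonneg (Real.exp_pos _).le, mul_comm]
    exact mul_le_mul_of_nonneg_right (norm_fc_le (fun s => hM _ (by simpa [strip] using hy)) k)
      (Real.exp_pos _).le
  have c : Continuous fun t : ℝ => M * Real.exp (-t * |(k : ℝ)|) := by fun_prop
  refine ge_of_tendsto ((c.tendsto η).mono_left (nhdsWithin_le_nhds (s := Iio η))) ?_
  filter_upwards [Ioo_mem_nhdsLT hη] with t ht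
  rcases le_total 0 (k : ℝ) with h | h
  · rw [abs_of_nonneg h, mul_comm (-t)]
    exact key _ (by rw [abs_neg, abs_of_pos ht.1]; exact ht.2)
  · rw [abs_of_nonpos h, neg_mul_neg, mul_comm t]
    exact key _ (by rw [abs_of_pos ht.1]; exact ht.2)

theorem summable_ex {η : ℝ} (hη : 0 < η) (m : ℕ) : Summable fun k : ℤ => br k ^ m * ex η k := by
  have a := ((summable_nat_add_iff 1).2 (Real.summable_pow_mul_exp_neg_nat_mul m hη)).mul_left
    (Real.exp η)
  have b : Summable fun n : ℕ => br n ^ m * ex η n := a.congr fun n => by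
    simp only [br, ex, Int.cast_natCast, Nat.abs_cast]
    rw [mul_left_comm, ← Real.exp_add]
    push_cast
    rw [add_comm (n : ℝ) 1]
    congr 2
    ring
  exact Summable.of_nat_of_neg b (b.congr fun n => by simp [br, ex])

theorem four1_orth (n k : ℤ) :
    (∫ s in (0 : ℝ)..2 * Real.pi, exp (I * n * s) * exp (-(I * k * s))) =
      if n = k then (2 * Real.pi : ℂ) else 0 := by
  have e : ∀ s : ℝ, exp (I * n * s) * exp (-(I * k * s)) = exp ((I * ((n - k : ℤ) : ℂ)) * s) :=
    fun s => by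
      rw [← exp_add]
      push_cast
      congr 1
      ring
  simp only [e]
  split_ifs with h
  · simp [h]
  · rw [integral_exp_mul_complex (mul_ne_zero I_ne_zero (Int.cast_ne_zero.2 (sub_ne_zero.2 h))),
      show I * ((n - k : ℤ) : ℂ) * ((2 * Real.pi : ℝ) : ℂ) = (n - k : ℤ) * (2 * Real.pi * I) by
        push_cast; ring, exp_int_mul_two_pi_mul_I]
    simp

theorem four1_sum {c : ℤ → ℂ} (hc : Summable fun k => ‖c k‖) (s : ℝ) :
    Summable fun k : ℤ => ‖c k * exp (I * k * s)‖ :=
  hc.congr fun k => by rw [norm_mul, (four1_norm k s).1, mul_one]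

theorem fc_fs {c : ℤ → ℂ} (hc : Summable fun k => ‖c k‖) (k : ℤ) :
    fc (fun s => fs c s) k = c k := by
  have h := intervalIntegral.hasSum_integral_of_dominated_convergence (μ := MeasureTheory.volume)
    (a := 0) (b := 2 * Real.pi) (f := fun s : ℝ => fs c s * exp (-(I * k * s)))
    (F := fun (n : ℤ) (s : ℝ) => c n * exp (I * n * s) * exp (-(I * k * s))) (fun n _ => ‖c n‖)
    (fun n => Continuous.aestronglyMeasurable (by fun_prop))
    (fun n => .of_forall fun t _ => by
      rw [norm_mul, norm_mul, (four1_norm n t).1, (four1_norm k t).2, mul_one, mul_one])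
    (.of_forall fun _ _ => hc) intervalIntegrable_const
    (.of_forall fun t _ => (four1_sum hc t).of_norm.hasSum.mul_right _)
  simp only [mul_assoc (c _), intervalIntegral.integral_const_mul, four1_orth] at h
  have p : (Real.pi : ℂ) ≠ 0 := ofReal_ne_zero.2 Real.pi_ne_zero
  rw [fc, h.unique (hasSum_single k fun n hn => by rw [if_neg hn, mul_zero]), if_pos rfl]
  field_simp

theorem fs_fc {f : ℝ → ℂ} (hf : Continuous f) (hp : Function.Periodic f (2 * Real.pi))
    (hs : Summable fun k => ‖fc f k‖) (s : ℝ) : fs (fc f) s = f s := by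
  have : Fact (0 < 2 * Real.pi) := ⟨Real.two_pi_pos⟩
  have p : (Real.pi : ℂ) ≠ 0 := ofReal_ne_zero.2 Real.pi_ne_zero
  let F : C(AddCircle (2 * Real.pi), ℂ) := ⟨hp.lift, hf.quotient_liftOn' _⟩
  have e : ∀ (n : ℤ) (x : ℝ), fourier n (x : AddCircle (2 * Real.pi)) = exp (I * n * x) :=
    fun n x => by
      rw [fourier_coe_apply]
      congr 1
      push_cast
      field_simp
  have c : fourierCoeff F = fc f := funext fun n => by
    rw [fourierCoeff_eq_intervalIntegral _ _ 0, zero_add, fc, real_smul]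
    push_cast
    congr 1
    refine intervalIntegral.integral_congr fun x _ => ?_
    simp only [e]
    rw [smul_eq_mul, mul_comm]
    push_cast
    rw [mul_neg, neg_mul]
    rfl
  have h := has_pointwise_sum_fourier_series_of_summable (f := F) (c ▸ hs.of_norm)
    (s : AddCircle (2 * Real.pi))
  simp only [c, e, smul_eq_mul] at h
  exact h.tsum_eq

theorem four1_bdd {f : ℂ → ℂ} {a b c d : ℝ} (ha : a < c) (hb : d < b)
    (hf : ContinuousOn f {s | s.im ∈ Ioo a b})
    (hp : ∀ s : ℂ, s.im ∈ Ioo a b → f (s + 2 * Real.pi) = f s) :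
    ∃ M, ∀ s : ℂ, s.im ∈ Icc c d → ‖f s‖ ≤ M := by
  have sub : Icc c d ⊆ Ioo a b := Icc_subset_Ioo ha hb
  obtain ⟨M, hM⟩ := ((isCompact_Icc (a := (0 : ℝ)) (b := 2 * Real.pi)).reProdIm
    (isCompact_Icc (a := c) (b := d))).exists_bound_of_continuousOn
    (hf.mono fun s hs => sub hs.2)
  refine ⟨M, fun s hs => ?_⟩
  have q : Function.Periodic (fun x : ℝ => f (x + s.im * I)) (2 * Real.pi) := fun x => by
    simp only
    rw [← hp (x + s.im * I) (by simpa using sub hs)]
    congr 1
    push_cast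
    ring
  obtain ⟨x, hx, e⟩ := q.exists_mem_Ico₀ Real.two_pi_pos s.re
  rw [re_add_im] at e
  rw [e]
  exact hM _ ⟨by simpa using Ico_subset_Icc_self hx, by simpa using hs⟩

theorem fs_fc_strip {f : ℂ → ℂ} {a b : ℝ} (ha : a < 0) (hb : 0 < b)
    (hf : DifferentiableOn ℂ f {s | s.im ∈ Ioo a b})
    (hp : ∀ s : ℂ, s.im ∈ Ioo a b → f (s + 2 * Real.pi) = f s) {s : ℂ} (hs : s.im ∈ Ioo a b) :
    Summable (fun k : ℤ => ‖fc (fun s => f s) k * exp (I * k * s)‖) ∧
      fs (fc fun s => f s) s = f s := by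
  obtain ⟨η, hη, h1, h2⟩ : ∃ η : ℝ, 0 < η ∧ a < s.im - η ∧ s.im + η < b :=
    ⟨min (s.im - a) (b - s.im) / 2, half_pos (lt_min (sub_pos.2 hs.1) (sub_pos.2 hs.2)),
      by linarith [min_le_left (s.im - a) (b - s.im), hs.1],
      by linarith [min_le_right (s.im - a) (b - s.im), hs.2]⟩
  obtain ⟨M, hM⟩ := four1_bdd h1 h2 hf.continuousOn hp
  have m : ∀ z ∈ strip η, (z + I * s.im).im ∈ Icc (s.im - η) (s.im + η) := fun z hz => by
    obtain ⟨z1, z2⟩ := (abs_lt (a := z.im)).1 hz
    have : (z + I * s.im).im = z.im + s.im := by simp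
    rw [this]
    constructor <;> linarith
  have m' : ∀ z ∈ strip η, (z + I * s.im).im ∈ Ioo a b := fun z hz => Icc_subset_Ioo h1 h2 (m z hz)
  have r : ∀ x : ℝ, (x : ℂ) ∈ strip η := fun x => by simpa [strip] using hη
  have d : DifferentiableOn ℂ (fun z => f (z + I * s.im)) (strip η) := hf.comp (by fun_prop) m'
  have q : ∀ z ∈ strip η, f (z + 2 * Real.pi + I * s.im) = f (z + I * s.im) := fun z hz => by
    rw [add_right_comm, hp _ (m' z hz)]
  have u : Summable fun k => ‖fc (fun x : ℝ => f (x + I * s.im)) k‖ :=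
    .of_nonneg_of_le (fun _ => norm_nonneg _)
      (fc_decay (f := fun z => f (z + I * s.im)) hη d q fun z hz => hM _ (m z hz))
      (((summable_ex hη 0).mul_left M).congr fun k => by rw [pow_zero, one_mul])
  have e : ∀ k : ℤ, fc (fun s => f s) k * exp (I * k * s) =
      fc (fun x : ℝ => f (x + I * s.im)) k * exp (I * k * s.re) := fun k => by
    rw [fc_shift ha hb hs hf hp k, mul_right_comm, mul_comm, ofReal_exp, ← exp_add]
    congr 2
    push_cast
    linear_combination (-(I * k)) * re_add_im s + (k * s.im : ℂ) * I_mul_I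
  refine ⟨(four1_sum u s.re).congr fun k => by rw [e], ?_⟩
  have t := fs_fc (f := fun x : ℝ => f (x + I * s.im))
    (d.continuousOn.comp_continuous continuous_ofReal r)
    (fun x => by simpa using q x (r x)) u s.re
  rw [mul_comm I, re_add_im] at t
  rw [← t]
  simp only [fs, e, mul_comm I (s.im : ℂ)]

theorem fs_conv {c d : ℤ → ℂ} {s : ℂ} (hc : Summable fun k : ℤ => ‖c k * exp (I * k * s)‖)
    (hd : Summable fun k : ℤ => ‖d k * exp (I * k * s)‖)
    (h0 : ∀ k, Summable fun h => c h * d (k - h)) :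
    Summable (fun k : ℤ => ‖conv c d k * exp (I * k * s)‖) ∧
      fs (conv c d) s = fs c s * fs d s := by
  let e : ℤ × ℤ ≃ ℤ × ℤ :=
    { toFun := fun p => (p.2, p.1 - p.2), invFun := fun p => (p.1 + p.2, p.1),
      left_inv := fun p => by simp, right_inv := fun p => by simp }
  have a := e.summable_iff.2 (hc.mul_norm hd)
  have t : ∀ k : ℤ, conv c d k * exp (I * k * s) =
      ∑' h : ℤ, c h * exp (I * h * s) * (d (k - h) * exp (I * (k - h : ℤ) * s)) := fun k => by
    rw [conv, ← (h0 k).tsum_mul_right]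
    refine tsum_congr fun h => ?_
    rw [mul_mul_mul_comm, ← exp_add]
    congr 2
    push_cast
    ring
  refine ⟨.of_nonneg_of_le (fun _ => norm_nonneg _) (fun k => ?_) a.prod, ?_⟩
  · rw [t]
    exact norm_tsum_le_tsum_norm (a.prod_factor k)
  · rw [fs, fs, fs, tsum_mul_tsum_of_summable_norm hc hd, ← e.tsum_eq]
    simp only [t]
    exact (Summable.of_norm a).tsum_prod.symm

theorem fc_mul {c d : ℤ → ℂ} (hc : Summable fun k => ‖c k‖) (hd : Summable fun k => ‖d k‖)
    (k : ℤ) : fc (fun s => fs c s * fs d s) k = conv c d k := by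
  have h0 : ∀ k, Summable fun h => c h * d (k - h) := fun k =>
    .of_norm_bounded (hc.mul_right (∑' n, ‖d n‖)) fun h => by
      rw [norm_mul]
      exact mul_le_mul_of_nonneg_left (hd.le_tsum _ fun _ _ => norm_nonneg _) (norm_nonneg _)
  have h := fun s : ℝ => fs_conv (four1_sum hc s) (four1_sum hd s) h0
  simp only [← (h _).2]
  exact fc_fs ((h 0).1.congr fun n => by rw [norm_mul, (four1_norm n 0).1, mul_one]) k

theorem fc_conj (f : ℝ → ℂ) (k : ℤ) :
    fc (fun s => (starRingEnd ℂ) (f s)) k = (starRingEnd ℂ) (fc f (-k)) := by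
  rw [fc, fc, map_mul, ← intervalIntegral.intervalIntegral_conj]
  congr 1
  · simp [map_ofNat]
  · refine intervalIntegral.integral_congr fun s _ => ?_
    simp only [map_mul, ← exp_conj]
    simp

end StekIso
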