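import Pool.Agent.Lib.MP_fa022d_an.Arc
import Pool.Agent.Lib.MP_fa022d_an.Top1

/-! Reparametrisation by arc length, with bounds. -/

open Set Filter Topology Metric BoundedContinuousFunction Complex

noncomputable section
namespace StekIso

theorem fw1_zero (f : ℝ → ℂ) :
    fc f 0 = (1 / (2 * Real.pi) : ℂ) * ∫ s in (0 : ℝ)..2 * Real.pi, f s := by
  simp [fc]

theorem fw1_dreal {η m M : ℝ} {θ : ℂ → ℂ} (hη : 0 < η) (h : CMap η m M θ) (s : ℝ) :
    ((deriv θ s).re : ℂ) = deriv θ s := by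
  have d := kext_hd h (four3_mem0 hη s)
  refine d.real_of_complex.ofReal_comp.unique (d.comp_ofReal.congr_of_eventuallyEq
    (.of_forall fun t => ?_))
  exact Complex.ext rfl (h.real t).symm

/-- a circle map with derivative close to one and value zero at zero is close to the identity -/
theorem fw1_near {η m M t : ℝ} {σ a : ℂ → ℂ} (hη : 0 < η) (h : CMap η m M σ) (h0 : σ 0 = 0)
    (d : ∀ z ∈ strip η, HasDerivAt σ (a z) z) (hb : ∀ z ∈ strip η, ‖a z - 1‖ ≤ t) {u : ℂ}
    (hu : u ∈ strip η) : ‖u - σ u‖ ≤ t * (7 + η) := by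
  have z : (0 : ℂ) ∈ strip η := by simpa [strip] using hη
  have t0 : 0 ≤ t := (norm_nonneg _).trans (hb 0 z)
  have pp : 0 < 2 * Real.pi := by positivity
  obtain ⟨n, hn⟩ : ∃ n : ℤ, |u.re + n * (2 * Real.pi)| ≤ 7 := by
    refine ⟨-toIcoDiv pp 0 u.re, ?_⟩
    have := sub_toIcoDiv_zsmul_mem_Ico pp 0 u.re
    rw [zsmul_eq_mul, zero_add] at this
    rw [abs_le]
    push_cast
    constructor <;> linarith [this.1, this.2, Real.pi_le_four, Real.pi_lt_d2]
  have m := kext_add hu n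
  have e := (kext_convex η).norm_image_sub_le_of_norm_hasDerivWithin_le
    (f := fun z => z - σ z) (f' := fun z => 1 - a z) (C := t)
    (fun z hz => ((hasDerivAt_id z).sub (d z hz)).hasDerivWithinAt)
    (fun z hz => by rw [norm_sub_rev]; exact hb z hz) z m
  simp only [kext_per h n hu, h0, sub_zero, add_sub_add_right_eq_sub] at e
  refine e.trans (mul_le_mul_of_nonneg_left ((norm_le_abs_re_add_abs_im _).trans ?_) t0)
  have a1 : (u + n * (2 * Real.pi)).re = u.re + n * (2 * Real.pi) := by simp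
  have a2 : |(u + n * (2 * Real.pi)).im| < η := m
  rw [a1]; linarith

/-- the inverse of the normalised primitive of a density close to one -/
theorem fw1_inv {η t : ℝ} {p : ℂ → ℂ} (hη : 0 < η) (ht : t ≤ 1 / 5)
    (hd : DifferentiableOn ℂ p (strip η)) (hp : ∀ s ∈ strip η, p (s + 2 * Real.pi) = p s)
    (hr : ∀ x : ℝ, (p x).im = 0) (hb : ∀ s ∈ strip η, ‖p s - 1‖ ≤ t) :
    ∃ μ : ℝ, fc (fun s => p s) 0 = μ ∧ |μ - 1| ≤ t ∧ ∃ c : ℤ → ℂ,
      (∀ k, c (-k) = (starRingEnd ℂ) (c k)) ∧ (∀ k, ‖c k‖ ≤ 3 * t * (7 + η) * ex (η / 2) k) ∧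
      ∀ s : ℝ, ∃ x : ℝ, (s : ℂ) + fs c s = x ∧ p x ≠ 0 ∧
        HasDerivAt (fun z => z + fs c z) (μ / p x) s := by
  have cp : Continuous fun s : ℝ => p s :=
    hd.continuousOn.comp_continuous continuous_ofReal (four3_mem0 hη)
  have t0 : 0 ≤ t := (norm_nonneg _).trans (hb _ (four3_mem0 hη 0))
  have pi0 : (Real.pi : ℂ) ≠ 0 := ofReal_ne_zero.2 Real.pi_ne_zero
  obtain ⟨μ, hμ⟩ : ∃ μ : ℝ, fc (fun s => p s) 0 = μ := by
    have := fc_conj (fun s => p s) 0
    simp only [fun s : ℝ => conj_eq_iff_im.2 (hr s), neg_zero] at this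
    exact ⟨_, (conj_eq_iff_re.1 this.symm).symm⟩
  have hI : ∫ s in (0 : ℝ)..2 * Real.pi, p s = 2 * Real.pi * μ := by
    rw [← hμ, fw1_zero]; field_simp
  have h1 : |μ - 1| ≤ t := by
    have := norm_fc_le (f := fun s : ℝ => p s - 1) (fun s => hb _ (four3_mem0 hη s)) 0
    rw [fw1_zero, intervalIntegral.integral_sub (cp.intervalIntegrable _ _)
      (continuous_const.intervalIntegrable _ _), hI] at this
    have e : (1 / (2 * Real.pi) : ℂ) * (2 * Real.pi * μ - ∫ _ in (0 : ℝ)..2 * Real.pi, (1 : ℂ)) =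
        ((μ - 1 : ℝ) : ℂ) := by
      simp only [intervalIntegral.integral_const, sub_zero, real_smul]
      push_cast; field_simp
    rwa [e, Complex.norm_real, Real.norm_eq_abs] at this
  obtain ⟨l1, l2⟩ := abs_le.1 h1
  have μ0 : 0 < μ := by linarith
  have μc : (μ : ℂ) ≠ 0 := ofReal_ne_zero.2 μ0.ne'
  have ab : ∀ s ∈ strip η, ‖p s / μ - 1‖ ≤ 5 / 2 * t := fun s hs => by
    have e : p s / μ - 1 = ((p s - 1) - ((μ - 1 : ℝ) : ℂ)) / μ := by push_cast; field_simp; ring
    rw [e, norm_div, Complex.norm_real, Real.norm_of_nonneg μ0.le, div_le_iff₀ μ0]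
    refine (norm_sub_le _ _).trans ?_
    rw [Complex.norm_real, Real.norm_eq_abs]
    nlinarith [hb s hs]
  have lo : ∀ s ∈ strip η, 1 / 2 ≤ (p s / μ).re := fun s hs => by
    have := (abs_le.1 ((abs_re_le_norm _).trans (ab s hs))).1
    rw [sub_re, one_re] at this
    linarith
  obtain ⟨σ, hσ, d, e, -⟩ := arc_cmap (h := fun s => p s / μ) (m := 1 / 2) (M := 3 / 2) hη
    (hd.div_const _) (fun s hs => by rw [hp s hs]) (fun x => by simp [div_ofReal_im, hr x])
    (by rw [intervalIntegral.integral_div, hI]; field_simp) lo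
    (fun s hs => by
      have := norm_add_le (p s / μ - 1) 1
      rw [sub_add_cancel, norm_one] at this
      linarith [ab s hs])
  obtain ⟨ψ, hψ, R, -⟩ := hσ.exists_inv hη (by norm_num)
  rw [show 1 / 2 * η = η / 2 by ring] at hψ R
  have η2 : 0 < η / 2 := half_pos hη
  have dw : DifferentiableOn ℂ (fun s => ψ s - s) (strip (η / 2)) :=
    hψ.diff.sub differentiableOn_id
  have pw : ∀ s ∈ strip (η / 2), ψ (s + 2 * Real.pi) - (s + 2 * Real.pi) = ψ s - s :=
    fun s hs => by rw [hψ.per s hs]; ring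
  have inv : ∀ s ∈ strip (η / 2), s + fs (fc fun x : ℝ => ψ x - x) s = ψ s := fun s hs => by
    rw [(fs_fc_strip (f := fun s => ψ s - s) (neg_lt_zero.2 η2) η2 (four3_strip _ ▸ dw)
      (fun s hs => pw s (by rwa [four3_strip])) (by rwa [four3_strip] at hs)).2]
    ring
  refine ⟨μ, hμ, h1, fc fun x : ℝ => ψ x - x, fun k => ?_, fun k => ?_, fun s => ?_⟩
  · have := fc_conj (fun x : ℝ => ψ x - x) (-k)
    rw [neg_neg] at this
    rw [← this]
    congr 1
    funext x
    exact (conj_eq_iff_im.2 (by simp [hψ.real x])).symm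
  · refine fc_decay (f := fun s => ψ s - s) η2 dw pw (fun s hs => ?_) k
    have := fw1_near hη hσ (by simpa using e 0) d ab (R s hs).1
    rw [(R s hs).2.1] at this
    nlinarith
  · have ms := four3_mem0 η2 s
    have x : ψ s = ((ψ s).re : ℝ) := Complex.ext rfl (hψ.real s)
    have n : p (ψ s) ≠ 0 := fun h0 => by
      have := lo _ (R s ms).1
      rw [h0] at this
      norm_num at this
    refine ⟨(ψ s).re, (inv s ms).trans x, x ▸ n, ?_⟩
    rw [← x]
    have := kext_hd hψ ms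
    rw [(R s ms).2.2, (d _ (R s ms).1).deriv, inv_div] at this
    exact this.congr_of_eventuallyEq
      (mem_of_superset ((isOpen_strip _).mem_nhds ms) fun z hz => inv z hz)

/-- radial Lipschitz bound -/
theorem fw1_lip {G : ℂ → ℂ} {H δ : ℝ} (hδ : 0 < δ) (hG : DifferentiableOn ℂ G (ann H δ)) :
    ∃ L ≥ 0, ∀ z ∈ ann H (δ / 4), ∀ d : ℝ, |d| ≤ δ / 4 →
      exp (-d) * z ∈ ann H δ ∧ ‖G (exp (-d) * z) - G z‖ ≤ L * |d| := by
  have sub : {z : ℂ | Real.exp (-H - δ / 2) ≤ ‖z‖ ∧ ‖z‖ ≤ Real.exp (δ / 2)} ⊆ ann H δ :=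
    fun z hz => ⟨(Real.exp_lt_exp.2 (by linarith)).trans_le hz.1,
      hz.2.trans_lt (Real.exp_lt_exp.2 (by linarith))⟩
  obtain ⟨L, hL⟩ := (top1_cpt (Real.exp (-H - δ / 2)) (Real.exp (δ / 2))).exists_bound_of_continuousOn
    ((hG.deriv (isOpen_ann H δ)).continuousOn.mono sub)
  refine ⟨max L 0 * Real.exp (δ / 2), by positivity, fun z hz d hd => ?_⟩
  have mem : ∀ r : ℝ, |r| ≤ δ / 4 → Real.exp (-H - δ / 2) ≤ ‖exp (-r) * z‖ ∧
      ‖exp (-r) * z‖ ≤ Real.exp (δ / 2) := fun r hr => by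
    obtain ⟨a, b⟩ := abs_le.1 hr
    have e : ‖exp (-(r : ℂ))‖ = Real.exp (-r) := by rw [Complex.norm_exp]; simp
    rw [norm_mul, e]
    constructor
    · refine le_trans ?_ (mul_le_mul_of_nonneg_left hz.1.le (Real.exp_pos _).le)
      rw [← Real.exp_add]; exact Real.exp_le_exp.2 (by linarith)
    · refine (mul_le_mul_of_nonneg_left hz.2.le (Real.exp_pos _).le).trans ?_
      rw [← Real.exp_add]; exact Real.exp_le_exp.2 (by linarith)
  refine ⟨sub (mem d hd), ?_⟩
  have D : ∀ r : ℝ, |r| ≤ δ / 4 → HasDerivAt (fun r : ℝ => G (exp (-r) * z))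
      (deriv G (exp (-r) * z) * -(exp (-r) * z)) r := fun r hr => by
    have a := (hG.differentiableAt ((isOpen_ann H δ).mem_nhds (sub (mem r hr)))).hasDerivAt
    have b : HasDerivAt (fun w : ℂ => exp (-w) * z) (-(exp (-r) * z)) r := by
      simpa using ((hasDerivAt_neg (r : ℂ)).cexp).mul_const z
    exact (a.comp (r : ℂ) b).comp_ofReal
  have := (convex_Icc (-(δ / 4)) (δ / 4)).norm_image_sub_le_of_norm_hasDerivWithin_le
    (C := max L 0 * Real.exp (δ / 2)) (x := 0) (y := d)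
    (fun r hr => (D r (abs_le.2 hr)).hasDerivWithinAt)
    (fun r hr => by
      rw [norm_mul, norm_neg]
      exact mul_le_mul ((hL _ (mem r (abs_le.2 hr))).trans (le_max_left _ _))
        (mem r (abs_le.2 hr)).2 (norm_nonneg _) (le_max_right _ _))
    ⟨by linarith, by linarith⟩ (abs_le.1 hd)
  simpa using this

end StekIso
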