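import Pool.Agent.Lib.MP_fa022d_an.Fw1
import Pool.Agent.Lib.MP_fa022d_an.Defs6

/-! The forward map: neighbours of the base come from small real perturbations. -/

open Set Filter Topology Metric BoundedContinuousFunction Complex

noncomputable section
namespace StekIso

theorem fwd_rad (H H0 : ℝ) (j : Bool) :
    rad H j = Real.exp (-(if j then 0 else H - H0)) * rad H0 j := by
  cases j
  · simp only [rad, Bool.false_eq_true, if_false, ← Real.exp_add]; congr 1; ring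
  · simp [rad]

theorem fwd_arcH {D : ℂ → ℂ} {H δ t : ℝ} (hH : 0 ≤ H) (ht : t ≤ 1)
    (hD : ∀ z ∈ ann H δ, ‖D z‖ ≤ t) (j : Bool) {u : ℂ} (hu : u ∈ strip δ) :
    ‖arcH D (rad H j) u - 1‖ ≤ 2 * t := by
  have a := hD _ (arc_mem hH j hu)
  have b := hD _ (arc_mem hH j (u := (starRingEnd ℂ) u) (by simpa [strip] using hu))
  have c : ‖(D (rad H j * exp (I * u)) +
      (starRingEnd ℂ) (D (rad H j * exp (I * (starRingEnd ℂ) u)))) / 2‖ ≤ t := by
    rw [norm_div, Complex.norm_ofNat, div_le_iff₀ two_pos]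
    refine (norm_add_le _ _).trans ?_
    rw [RCLike.norm_conj]; linarith
  exact (Complex.norm_exp_sub_one_le (c.trans ht)).trans (by linarith)

theorem fwd_log {μ t : ℝ} (ht : t ≤ 1 / 2) (h : |μ - 1| ≤ t) : |Real.log μ| ≤ 2 * t := by
  obtain ⟨a, b⟩ := abs_le.1 h
  have μ0 : 0 < μ := by linarith
  have t0 : 0 ≤ t := (abs_nonneg _).trans h
  have c := Real.log_le_sub_one_of_pos μ0
  have d := Real.one_sub_inv_le_log_of_pos μ0
  have e : μ⁻¹ ≤ 1 + 2 * t := by
    rw [inv_le_iff_one_le_mul₀ μ0]; nlinarith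
  rw [abs_le]; constructor <;> linarith

/-- one circle -/
theorem fwd_circ (B : GeoBase) {η L κ H : ℝ} {G : ℂ → ℂ} (hη : 0 < η) (h1 : η ≤ B.η0)
    (h2 : B.M * η ≤ B.δ0 / 4)
    (hL : ∀ z ∈ ann B.H0 (B.δ0 / 4), ∀ d : ℝ, |d| ≤ B.δ0 / 4 →
      exp (-d) * z ∈ ann B.H0 B.δ0 ∧ ‖B.G0 (exp (-d) * z) - B.G0 z‖ ≤ L * |d|)
    (L0 : 0 ≤ L) (k1 : κ ≤ B.δ0 / 4) (k2 : (L + 2) * κ ≤ 1 / 10) (hN : B.Near κ G H)
    (j : Bool) : ∃ μ : ℝ, |μ - 1| ≤ 2 * ((L + 2) * κ) ∧ lenG G H j = μ * lenf B.lam0 j ∧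
      ∃ c : ℤ → ℂ, (∀ k, c (-k) = (starRingEnd ℂ) (c k)) ∧
        (∀ k, ‖c k‖ ≤ 3 * (2 * ((L + 2) * κ)) * (7 + η) * ex (η / 2) k) ∧
        ∀ s : ℝ, ‖exp (G (rad H j * exp (I * B.θ j (s + fs c s))))‖ * rad H j *
          (deriv (fun z => B.θ j (z + fs c z)) s).re = lenG G H j := by
  have H0 : 0 ≤ B.H0 := by linarith [B.big]
  have δ4 : 0 < B.δ0 / 4 := by linarith [B.δ0_pos]
  have cm := (B.cm j).mono h1
  have M1 := kext_one_le hη cm
  obtain ⟨d, hd⟩ : ∃ d : ℝ, d = if j then 0 else H - B.H0 := ⟨_, rfl⟩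
  have dκ : |d| ≤ κ := by
    rw [hd]; split_ifs
    · exact (by simp : |(0 : ℝ)| ≤ |H - B.H0|).trans hN.mod
    · exact hN.mod
  have hR : rad H j = Real.exp (-d) * rad B.H0 j := hd ▸ fwd_rad H B.H0 j
  have hRc : (rad H j : ℂ) = exp (-d) * rad B.H0 j := by rw [hR]; push_cast; rfl
  have sub : ann B.H0 (B.δ0 / 4) ⊆ ann B.H0 B.δ0 := ann_mono (by linarith)
  obtain ⟨D, hD⟩ : ∃ D : ℂ → ℂ, D = fun z => G (exp (-d) * z) - B.G0 z - d := ⟨_, rfl⟩
  have dG : DifferentiableOn ℂ (fun z => G (exp (-d) * z)) (ann B.H0 (B.δ0 / 4)) :=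
    hN.diff.comp (by fun_prop) fun z hz => (hL z hz d (dκ.trans k1)).1
  have dD : DifferentiableOn ℂ D (ann B.H0 (B.δ0 / 4)) :=
    hD ▸ (dG.sub (B.diffG.mono sub)).sub_const _
  have bD : ∀ z ∈ ann B.H0 (B.δ0 / 4), ‖D z‖ ≤ (L + 2) * κ := fun z hz => by
    obtain ⟨a, b⟩ := hL z hz d (dκ.trans k1)
    have e : D z = (G (exp (-d) * z) - B.G0 (exp (-d) * z)) +
        (B.G0 (exp (-d) * z) - B.G0 z) - d := by rw [hD]; ring
    rw [e]
    refine (norm_sub_le _ _).trans ?_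
    have := norm_add_le (G (exp (-d) * z) - B.G0 (exp (-d) * z)) (B.G0 (exp (-d) * z) - B.G0 z)
    rw [Complex.norm_real, Real.norm_eq_abs]
    nlinarith [hN.close _ a, mul_le_mul_of_nonneg_left dκ L0]
  have mθ : ∀ u ∈ strip η, B.θ j u ∈ strip (B.δ0 / 4) := fun u hu =>
    (cm.im_bd hu).2.2.trans_lt ((mul_lt_mul_of_pos_left hu (by linarith)).trans_le h2)
  have θr : ∀ x : ℝ, B.θ j x = ((B.θ j x).re : ℝ) := fun x => Complex.ext rfl (cm.real x)
  have pr : ∀ x : ℝ, arcH D (rad B.H0 j) (B.θ j x) =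
      (‖exp (D (rad B.H0 j * exp (I * B.θ j x)))‖ : ℝ) := fun x => by
    have := arcH_real D (rad B.H0 j) (B.θ j x).re
    rwa [← θr x] at this
  obtain ⟨μ, hμ, μ1, c, c1, c2, c3⟩ := fw1_inv (p := fun u => arcH D (rad B.H0 j) (B.θ j u))
    (t := 2 * ((L + 2) * κ)) hη (by linarith)
    ((arcH_diff H0 dD (isOpen_ann _ _) j).comp cm.diff mθ)
    (fun s hs => by rw [cm.per s hs, arcH_per]) (fun x => by rw [pr x, ofReal_im])
    fun s hs => fwd_arcH H0 (by linarith) bD j (mθ s hs)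
  have key : ∀ x : ℝ, ‖exp (G (rad H j * exp (I * B.θ j x)))‖ * rad H j * (deriv (B.θ j) x).re =
      ‖exp (D (rad B.H0 j * exp (I * B.θ j x)))‖ * lenf B.lam0 j := fun x => by
    have f := B.fits j x
    rw [one_mul, tau] at f
    rw [← f, hRc, hR, hD, mul_assoc (exp (-(d : ℂ)))]
    simp only [Complex.norm_exp, sub_re, ofReal_re, Real.exp_sub, Real.exp_neg]
    field_simp
  have cf : Continuous fun x : ℝ => ‖exp (G (rad H j * exp (I * x)))‖ * rad H j := by
    have := dG.continuousOn.comp_continuous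
      (f := fun x : ℝ => (rad B.H0 j : ℂ) * exp (I * x)) (by fun_prop)
      fun x => arc_mem H0 j (four3_mem0 δ4 x)
    simp only [Function.comp_def, ← mul_assoc, ← hRc] at this
    exact this.cexp.norm.mul continuous_const
  have len : lenG G H j = μ * lenf B.lam0 j := by
    have a := fc_comp_cmap hη cm (continuous_ofReal.comp cf) fun x => by
      have : exp (I * ((x + 2 * Real.pi : ℝ) : ℂ)) = exp (I * x) := by
        simpa using four2_per 1 x
      simp only [Function.comp, this]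
    have b : (fun s : ℝ => (ofReal ∘ fun x : ℝ => ‖exp (G (rad H j * exp (I * x)))‖ * rad H j)
        (B.θ j s).re * deriv (B.θ j) s) =
        fun s : ℝ => (lenf B.lam0 j : ℂ) * arcH D (rad B.H0 j) (B.θ j s) := funext fun s => by
      rw [pr s, ← ofReal_mul, mul_comm (lenf B.lam0 j), ← key s, Function.comp, ← θr s,
        ofReal_mul _ (re _), fw1_dreal hη cm]
    rw [b, four3_mul, hμ, fw1_zero] at a
    simp only [Function.comp, intervalIntegral.integral_ofReal] at a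
    apply ofReal_injective
    rw [lenG, ofReal_mul, ofReal_mul, mul_comm (μ : ℂ), a]
    push_cast; rfl
  refine ⟨μ, μ1, len, c, c1, c2, fun s => ?_⟩
  obtain ⟨x, x1, x2, x3⟩ := c3 s
  have a : HasDerivAt (B.θ j) (deriv (B.θ j) x) (s + fs c s) := by
    rw [x1]; exact kext_hd cm (four3_mem0 hη x)
  have b : deriv (fun z => B.θ j (z + fs c z)) s = _ := (a.comp (s : ℂ) x3).deriv
  simp only [pr x] at b x2
  rw [b, x1, ← ofReal_div, re_mul_ofReal, ← mul_assoc, key x, len]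
  have := ofReal_ne_zero.1 x2
  field_simp

/-- the forward map, explicit form -/
theorem fwd_ok' (B : GeoBase) (η : Pos) {η' : ℝ} (h0 : η.1 < η' / 2) (h1 : η' ≤ B.η0)
    (h2 : B.M * η' ≤ B.δ0 / 4) : FwdOK B η := by
  have hη : 0 < η' := by linarith [η.2]
  obtain ⟨L, L0, hL⟩ := fw1_lip B.δ0_pos B.diffG
  obtain ⟨K, K0, hK⟩ := br_pow_ex_le h0 4
  have L2 : 0 < L + 2 := by linarith
  refine ⟨(L + 2) * (8 + 768 * (7 + η') * K), by positivity,
    min (B.δ0 / 4) (1 / 10 / (L + 2)), lt_min (by linarith [B.δ0_pos]) (by positivity),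
    fun κ κ0 hκ G H hN => ?_⟩
  have k2 : (L + 2) * κ ≤ 1 / 10 := by
    rw [mul_comm]; exact (le_div_iff₀ L2).1 (hκ.trans (min_le_right _ _))
  choose μ μ1 len c c1 c2 c3 using
    fwd_circ B hη h1 h2 hL L0 (hκ.trans (min_le_left _ _)) k2 hN
  obtain ⟨t, ht⟩ : ∃ t, t = (L + 2) * κ := ⟨_, rfl⟩
  have t0 : 0 ≤ t := by rw [ht]; positivity
  have P0 : 0 ≤ 768 * (7 + η') * K * t := by positivity
  have eC : (L + 2) * (8 + 768 * (7 + η') * K) * κ = 8 * t + 768 * (7 + η') * K * t := by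
    rw [ht]; ring
  rw [← ht] at μ1 c2 k2
  have μ0 : ∀ j, 0 < μ j := fun j => by linarith [(abs_le.1 (μ1 j)).1]
  have bd : ∀ j k, ‖c j k‖ ≤ 768 * (7 + η') * K * t * (wt1 η).w k := fun j k => by
    have a : ex (η' / 2) k ≤ K * beta η.1 k := by
      rw [beta, ← mul_div_assoc, le_div_iff₀ (pow_pos (br_pos k) 4), mul_comm]; exact hK k
    refine (c2 j k).trans ((mul_le_mul_of_nonneg_left a (by positivity)).trans (le_of_eq ?_))
    simp only [wt1]; ring
  have l1 : lenG G H true = μ true := by simp [len, lenf]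
  have l0 : lenG G H false =
      Real.exp (B.lam0 + Real.log (μ false) - Real.log (μ true)) * lenG G H true := by
    rw [l1, len, Real.exp_sub, Real.exp_add, Real.exp_log (μ0 _), Real.exp_log (μ0 _)]
    have := (μ0 true).ne'
    simp only [lenf, Bool.false_eq_true, if_false]
    field_simp
  have co : ∀ j, (WAlg.mk (c j) _ (bd j) : A1 η).coeff = c j :=
    fun j => funext fun k => WAlg.coeff_mk _ _ _ k
  rw [eC]
  refine ⟨fun j => WAlg.mk (c j) _ (bd j), fun j k => by simp only [co, c1], ?_,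
    B.lam0 + Real.log (μ false) - Real.log (μ true), ?_, ?_, l1 ▸ μ0 true, l0, fun j s => ?_⟩
  · refine (pi_norm_le_iff_of_nonneg (by positivity)).2 fun j => ?_
    exact (WAlg.norm_le_of_coeff _ P0 fun k => by simpa using bd j k).trans (by linarith)
  · have a := abs_le.1 (fwd_log (by linarith) (μ1 false))
    have b := abs_le.1 (fwd_log (by linarith) (μ1 true))
    rw [abs_le]; constructor <;> linarith [a.1, a.2, b.1, b.2]
  · rw [l1]; linarith [μ1 true]
  · have e : thOf B.toBase (fun j => (WAlg.mk (c j) _ (bd j) : A1 η)) j =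
        fun z => B.θ j (z + fs (c j) z) := funext fun z => by simp only [thOf, co]
    rw [tau, e, c3 j s]
    cases j
    · rw [l0, mul_comm]; rfl
    · simp [lenf]

theorem fwd_ok (B : GeoBase) : ∃ η1 > 0, ∀ η : Pos, η.1 ≤ η1 → FwdOK B η := by
  have M0 : 0 < B.M := by linarith [kext_one_le B.η0_pos (B.cm true)]
  have p : 0 < min B.η0 (B.δ0 / 4 / B.M) :=
    lt_min B.η0_pos (div_pos (by linarith [B.δ0_pos]) M0)
  refine ⟨min B.η0 (B.δ0 / 4 / B.M) / 4, by positivity, fun η h =>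
    fwd_ok' B η (η' := min B.η0 (B.δ0 / 4 / B.M)) (by linarith) (min_le_left _ _) ?_⟩
  rw [mul_comm]; exact (le_div_iff₀ M0).1 (min_le_right _ _)

end StekIso
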