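import Pool.Agent.Lib.MP_fa022d_an.LinkA

open Set Filter Topology Metric BoundedContinuousFunction Complex

noncomputable section
namespace StekIso

theorem linkb_add {f g : ℝ → ℂ} (hf : Continuous f) (hg : Continuous g) (k : ℤ) :
    fc (fun s => f s + g s) k = fc f k + fc g k := by
  simp only [fc, add_mul]
  rw [intervalIntegral.integral_add (Continuous.intervalIntegrable (by fun_prop) _ _)
    (Continuous.intervalIntegrable (by fun_prop) _ _), mul_add]

theorem linkb_congr (s : ℝ) {f g : ℝ → ℂ} (h : ∀ t : ℝ, exp (I * s) ≠ exp (I * t) → f t = g t)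
    (b : ℤ) : fc f b = fc g b := by
  have c := (countable_range fun n : ℤ => s - n * (2 * Real.pi)).ae_notMem MeasureTheory.volume
  rw [fc, fc, intervalIntegral.integral_congr_ae]
  filter_upwards [c] with t ht _
  rw [h t fun e => ht ?_]
  obtain ⟨n, hn⟩ := exp_eq_exp_iff_exists_int.1 e
  refine ⟨n, ofReal_injective (mul_left_cancel₀ I_ne_zero ?_)⟩
  push_cast
  linear_combination hn

theorem linkb_zero (k : ℤ) : fc (fun _ => 0) k = 0 := by simp [fc]

theorem linkb_sh (f : ℝ → ℂ) (k : ℤ) : fc (fun s => f s * exp (I * k * s)) 0 = fc f (-k) := by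
  simp [fc]

theorem linkb_sum {F : ℤ → ℝ → ℂ} {f : ℝ → ℂ} {a : ℤ → ℝ} (ha : Summable a)
    (hF : ∀ k, Continuous (F k)) (hb : ∀ k, ∀ s ∈ uIcc 0 (2 * Real.pi), ‖F k s‖ ≤ a k)
    (h : ∀ s, HasSum (fun k => F k s) (f s)) (n : ℤ) : HasSum (fun k => fc (F k) n) (fc f n) :=
  (intervalIntegral.hasSum_integral_of_dominated_convergence (μ := MeasureTheory.volume)
    (a := 0) (b := 2 * Real.pi) (f := fun s : ℝ => f s * exp (-(I * n * s)))
    (F := fun (k : ℤ) (s : ℝ) => F k s * exp (-(I * n * s))) (fun k _ => a k)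
    (fun k => Continuous.aestronglyMeasurable (by fun_prop))
    (fun k => .of_forall fun t ht => by
      rw [norm_mul, (four1_norm n t).2, mul_one]
      exact hb k t (uIoc_subset_uIcc ht))
    (.of_forall fun _ _ => ha) intervalIntegrable_const
    (.of_forall fun t _ => (h t).mul_right _)).mul_left _

theorem linkb_bdd {u : ℝ → ℂ} (hu : Continuous u) (hp : Function.Periodic u (2 * Real.pi)) :
    ∃ D, ∀ s, ‖u s‖ ≤ D := by
  obtain ⟨D, hD⟩ := (hp.isBounded_of_continuous Real.two_pi_pos.ne' hu).exists_norm_le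
  exact ⟨D, fun s => hD _ ⟨s, rfl⟩⟩

section
variable {η m M : ℝ} {θ : ℂ → ℂ}

theorem linkb_c (hη : 0 < η) (h : CMap η m M θ) :
    (Continuous fun s : ℝ => θ s) ∧ Continuous fun s : ℝ => deriv θ s :=
  ⟨h.diff.continuousOn.comp_continuous continuous_ofReal (four3_mem0 hη),
    (h.diff.deriv (isOpen_strip η)).continuousOn.comp_continuous continuous_ofReal
      (four3_mem0 hη)⟩

theorem linkb_ce (hη : 0 < η) (h : CMap η m M θ) (k : ℤ) :
    Continuous fun s : ℝ => exp (I * k * θ s) := ((linkb_c hη h).1.const_mul _).cexp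

theorem linkb_re (h : CMap η m M θ) (s : ℝ) : ((θ s).re : ℂ) = θ s :=
  Complex.ext rfl (h.real s).symm

theorem linkb_norm (h : CMap η m M θ) (k : ℤ) (s : ℝ) :
    ‖exp (I * k * θ s)‖ = 1 ∧ ‖exp (-(I * k * θ s))‖ = 1 := by
  rw [← linkb_re h]
  exact four1_norm k _

theorem linkb_dper (h : CMap η m M θ) {s : ℂ} (hs : s ∈ strip η) :
    deriv θ (s + 2 * Real.pi) = deriv θ s := by
  rw [← deriv_comp_add_const, ← deriv_add_const (f := θ) (2 * (Real.pi : ℂ))]
  exact EventuallyEq.deriv_eq (mem_of_superset ((isOpen_strip η).mem_nhds hs) h.per)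

theorem linkb_eper (hη : 0 < η) (h : CMap η m M θ) (k : ℤ) :
    (Function.Periodic (fun s : ℝ => exp (I * k * θ s)) (2 * Real.pi)) ∧
      Function.Periodic (fun s : ℝ => deriv θ s) (2 * Real.pi) := by
  refine ⟨fun s => ?_, fun s => ?_⟩ <;> push_cast
  · rw [h.per _ (four3_mem0 hη s), four2_per]
  · exact linkb_dper h (four3_mem0 hη s)

theorem linkb_esum (hη : 0 < η) (h : CMap η m M θ) (k : ℤ) :
    Summable fun a : ℤ => ‖((|a| : ℤ) : ℂ) * fc (fun t => exp (I * k * θ t)) a‖ := by
  have d := fc_decay (f := fun t => exp (I * k * θ t)) (M := ex (-(M * η)) k) hη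
    ((h.diff.const_mul _).cexp) (fun s hs => by simp only [h.per s hs, four2_per])
    fun s hs => four2_exp ((h.im_bd hs).2.2.trans (mul_le_mul_of_nonneg_left (le_of_lt hs)
      ((norm_nonneg _).trans (h.hi s hs)))) k
  refine .of_nonneg_of_le (fun _ => norm_nonneg _) (fun a => ?_)
    ((summable_ex hη 1).mul_left (ex (-(M * η)) k))
  rw [norm_mul, pow_one, mul_left_comm]
  refine mul_le_mul ?_ (d a) (norm_nonneg _) (br_pos a).le
  rw [norm_intCast, Int.cast_abs, abs_abs, br]
  linarith

theorem linkb_gsum (i j : Bool) {H : ℝ} (hH : 2 ≤ H) : Summable fun k => ‖gco i j H k‖ :=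
  .of_nonneg_of_le (fun _ => norm_nonneg _) (norm_gco_le i j (by simpa using hH))
    ((summable_ex two_pos 1).mul_left 4)

theorem linkb_conv (hη : 0 < η) (h : CMap η m M θ) {g : ℤ → ℂ} (hg : Summable fun k => ‖g k‖)
    (y : ℝ) (k : ℤ) : (Continuous fun t : ℝ => fs g (y - θ t)) ∧
      fc (fun t => fs g (y - θ t) * exp (I * k * θ t) * deriv θ t) 0 = g k * exp (I * k * y) := by
  let c (a : ℤ) : ℂ := g (-a) * exp (I * (-a : ℤ) * y)
  have hc : Summable fun a => ‖c a‖ := (Equiv.neg ℤ).summable_iff.2 (four1_sum hg y)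
  have e (x : ℝ) : fs g (y - x) = fs c x := by
    rw [fs, ← (Equiv.neg ℤ).tsum_eq]
    refine tsum_congr fun a => ?_
    simp only [c, Equiv.neg_apply, mul_assoc (g _), ← Complex.exp_add]
    congr 2
    push_cast
    ring
  have e' (t : ℝ) : fs c (θ t) = fs g (y - θ t) := by rw [← linkb_re h t, e]
  have cc : Continuous fun x : ℝ => fs c x := continuous_tsum (by fun_prop) hc fun a x => by
    rw [norm_mul, (four1_norm a x).1, mul_one]
  refine ⟨(cc.comp (continuous_re.comp (linkb_c hη h).1)).congr fun t => ?_, ?_⟩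
  · simp only [Function.comp, linkb_re h, e']
  have := fc_comp_cmap hη h (f := fun x : ℝ => fs c x * exp (I * k * x)) (by fun_prop) fun x => by
    simp only [fs]
    push_cast
    simp only [four2_per]
  rw [linkb_sh, fc_fs hc] at this
  simp only [linkb_re h, e'] at this
  simpa only [c, neg_neg] using this

end

/-- the DN map on one angular frequency placed on circle `j` -/
theorem dn_mode {η m M : ℝ} {θ : Bool → ℂ → ℂ} (hη : 0 < η) (hm : 0 < m) (hM : M * η ≤ 1 / 2)
    (hθ : ∀ j, CMap η m M (θ j)) {H : ℝ} (hH : 2 ≤ H) (j : Bool) (k : ℤ) (b : Idx) :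
    Tm (Sfun θ H) (fun c => if c.1 = j then fc (fun s => exp (I * k * θ j s)) c.2 else 0) b =
      ((if b.1 = j then (|k| : ℤ) else 0) + gco b.1 j H k) *
        fc (fun s => exp (I * k * θ b.1 s) * deriv (θ b.1) s) b.2 := by
  obtain ⟨i, n⟩ := b
  have c₁ := fun j => linkb_ce hη (hθ j) k
  have c₂ := fun j => (linkb_c hη (hθ j)).2
  have p : (Real.pi : ℂ) ≠ 0 := ofReal_ne_zero.2 Real.pi_ne_zero
  let u (l : Bool) (s : ℝ) : ℂ := if l = j then exp (I * k * θ j s) else 0
  have e : (fun c : Idx => if c.1 = j then fc (fun s => exp (I * k * θ j s)) c.2 else 0) =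
      fun c => fc (u c.1) c.2 := funext fun c => by
    by_cases h : c.1 = j <;> simp only [u, h, if_true, if_false, linkb_zero]
  have S := Sap_Sfun hη hm hM hθ hH (u := u) (fun l => by
    by_cases h : l = j <;> simp only [u, h, if_true, if_false]
    exacts [c₁ j, continuous_const]) (fun l => by
    by_cases h : l = j <;> simp only [u, h, if_true, if_false]
    exacts [(linkb_eper hη (hθ j) k).1, fun _ => rfl]) (i, n)
  have r (s : ℝ) : ∑ l, 2 * Real.pi * fc (fun t => kerF θ H i l s t * u l t) 0 =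
      2 * Real.pi * fc (fun t => kerF θ H i j s t * exp (I * k * θ j t)) 0 := by
    rw [Finset.sum_eq_single j (fun l _ h => by simp [u, h, linkb_zero]) (by simp)]
    simp only [u, if_true]
  have g (s : ℝ) := linkb_conv hη (hθ j) (linkb_gsum i j hH) (θ i s).re k
  simp only [linkb_re (hθ i)] at g
  rw [Tm, e, S]
  simp only [r, u]
  by_cases h : i = j
  · subst h
    obtain ⟨C, hC⟩ := kerExt_disc hη hm hM
    obtain ⟨K, hK, hK'⟩ := hC _ (hθ i)
    have h2 := half_pos hη
    have es := linkb_esum hη (hθ i) k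
    have q (s : ℝ) : exp (I * k * θ i s) * deriv (θ i) s * (((|k| : ℤ) : ℂ) + gco i i H k) =
        fs (fun a => |a| * fc (fun t => exp (I * k * θ i t)) a) s +
          2 * Real.pi * fc (fun t => kerF θ H i i s t * exp (I * k * θ i t)) 0 := by
      have cK : Continuous fun t : ℝ => K s t := (hK.four3_c (u := fun _ => s) continuous_const
        continuous_ofReal (fun _ => four3_mem0 h2 s) (four3_mem0 h2)).uncurry_left 0
      rw [← four3_mul, linkb_congr s (g := fun t => deriv (θ i) s *
        (fs (gco i i H) (θ i s - θ i t) * exp (I * k * θ i t) * deriv (θ i) t) +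
          2 * (K s t * exp (I * k * θ i t))) fun t ht => ?_,
        linkb_add ((((g s).1.fun_mul (c₁ i)).fun_mul (c₂ i)).const_mul _)
          ((cK.fun_mul (c₁ i)).const_mul _),
        four3_mul, four3_mul, (g s).2]
      · have := disc_identity hη hm hM (hθ i) hK hK' k s
        linear_combination -this
      · rw [hK' _ (four3_mem0 h2 s) _ (four3_mem0 h2 t) ht]
        simp only [kerF, QQ, qf, if_true]
        field_simp
        ring
    have cs : Continuous fun s : ℝ => fs (fun a => |a| * fc (fun t => exp (I * k * θ i t)) a) s :=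
      continuous_tsum (by fun_prop) es fun a x => by rw [norm_mul, (four1_norm a x).1, mul_one]
    simp only [if_true]
    rw [← fc_fs es n, ← linkb_add cs, ← four3_mul]
    · exact congrArg (fc · n) (funext fun s => by rw [← q, mul_comm])
    · exact ((((c₁ i).mul (c₂ i)).mul_const _).sub cs).congr fun s => sub_eq_of_eq_add' (q s)
  · simp only [if_neg h, linkb_zero, mul_zero, zero_add, Int.cast_zero]
    rw [← four3_mul]
    refine congrArg (fc · n) (funext fun s => ?_)
    rw [← four3_mul, ← mul_assoc, ← (g s).2, mul_comm (fc _ _), ← four3_mul]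
    refine congrArg (fc · 0) (funext fun t => ?_)
    simp only [kerF, QQ, qf, if_neg h]
    field_simp
    ring

/-- angular Fourier coefficients -/
def afc (θ : ℂ → ℂ) (u : ℝ → ℂ) (k : ℤ) : ℂ :=
  fc (fun s => u s * exp (-(I * k * θ s)) * deriv θ s) 0

theorem linkb_inv {η m M : ℝ} (hη : 0 < η) (hm : 0 < m) {θ : ℂ → ℂ} (hθ : CMap η m M θ) :
    ∃ ψ : ℝ → ℝ, Continuous ψ ∧ (∀ s : ℝ, ψ (θ s).re = s) ∧
      ∀ x, ψ (x + 2 * Real.pi) = ψ x + 2 * Real.pi := by
  let τ (s : ℝ) : ℝ := (θ s).re
  have c : Continuous τ := continuous_re.comp (linkb_c hη hθ).1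
  have mono : StrictMono τ := strictMono_of_deriv_pos fun s => by
    rw [((hθ.diff.differentiableAt ((isOpen_strip η).mem_nhds
      (four3_mem0 hη s))).hasDerivAt.real_of_complex).deriv]
    exact hm.trans_le (hθ.lo _ (four3_mem0 hη s))
  have p (s : ℝ) : τ (s + 2 * Real.pi) = τ s + 2 * Real.pi := by
    simpa [τ] using congrArg re (hθ.per _ (four3_mem0 hη s))
  have q : Function.Periodic (fun s => τ s - s) (2 * Real.pi) := fun s => by
    simp only [p]
    ring
  have sj : Function.Surjective τ := fun x => by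
    obtain ⟨n, hn⟩ := exists_nat_gt |x - τ 0|
    have a := q.int_mul n 0
    have b := q.int_mul (-n) 0
    have := Real.two_le_pi
    have := abs_lt.1 hn
    have : (0 : ℝ) ≤ n := n.cast_nonneg
    simp only [zero_add, sub_zero] at a b
    push_cast at a b
    refine intermediate_value_univ (-n * (2 * Real.pi)) (n * (2 * Real.pi)) c ⟨?_, ?_⟩ <;>
      nlinarith
  let e := mono.orderIsoOfSurjective τ sj
  exact ⟨e.symm, e.symm.continuous, e.symm_apply_apply, fun x => e.injective
    ((e.apply_symm_apply _).trans ((p _).trans (congrArg (· + _) (e.apply_symm_apply x))).symm)⟩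

/-- expansion of an analytic function in the angular basis (contour shift) -/
theorem afc_expand {η m M : ℝ} (hη : 0 < η) (hm : 0 < m) {η' : ℝ} (h' : 0 < η') (hle : η' ≤ η)
    {θ : ℂ → ℂ} (hθ : CMap η m M θ) {u : ℂ → ℂ} {D : ℝ} (hu : DifferentiableOn ℂ u (strip η'))
    (hp : ∀ s ∈ strip η', u (s + 2 * Real.pi) = u s) (hD : ∀ s ∈ strip η', ‖u s‖ ≤ D) :
    (∀ k, ‖afc θ (fun s => u s) k‖ ≤ D * M * ex (m * η') k) ∧
    ∀ s : ℝ, HasSum (fun k : ℤ => afc θ (fun s => u s) k * exp (I * k * θ s)) (u s) := by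
  have h := hθ.mono hle
  have D0 : 0 ≤ D := (norm_nonneg _).trans (hD _ (four3_mem0 h' 0))
  have bd (k : ℤ) : ‖afc θ (fun s => u s) k‖ ≤ D * M * ex (m * η') k := by
    have key (y : ℝ) (hy : |y| < η') (sg : ∀ s : ℂ, s ∈ strip η' → s.im = y →
        k * (θ s).im ≤ k * (m * y)) :
        ‖afc θ (fun s => u s) k‖ ≤ D * M * Real.exp (k * (m * y)) := by
      rw [afc, fc_shift (f := fun s => u s * exp (-(I * k * θ s)) * deriv θ s) (neg_lt_zero.2 h')
        h' (abs_lt.1 hy) (four3_strip η' ▸ (hu.mul (h.diff.const_mul _).neg.cexp).mul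
          (h.diff.deriv (isOpen_strip _))) (fun s hs => by
            have hs : s ∈ strip η' := four3_strip η' ▸ hs
            rw [hp s hs, linkb_dper h hs, h.per s hs, four1_per]) 0]
      simp only [Int.cast_zero, zero_mul, Real.exp_zero, ofReal_one, one_mul]
      refine norm_fc_le (fun s => ?_) 0
      have hs := four3_mem hy s
      rw [norm_mul, norm_mul, mul_right_comm D]
      refine mul_le_mul (mul_le_mul (hD _ hs) ?_ (norm_nonneg _) D0) (h.hi _ hs) (norm_nonneg _)
        (by positivity)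
      rw [norm_exp, Real.exp_le_exp]
      simpa using sg _ hs (by simp)
    have c : Continuous fun t : ℝ => D * M * Real.exp (-(m * t) * |(k : ℝ)|) := by fun_prop
    refine ge_of_tendsto ((c.tendsto η').mono_left (nhdsWithin_le_nhds (s := Iio η'))) ?_
    filter_upwards [Ioo_mem_nhdsLT h'] with t ht
    rcases le_total 0 (k : ℝ) with l | l
    · rw [abs_of_nonneg l, mul_comm (-(m * t)), ← mul_neg]
      exact key _ (by rw [abs_neg, abs_of_pos ht.1]; exact ht.2) fun s hs e =>
        mul_le_mul_of_nonneg_left (e ▸ (h.im_bd hs).2.1 (by linarith [ht.1])) l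
    · rw [abs_of_nonpos l, neg_mul_neg, mul_comm (m * t)]
      exact key _ (by rw [abs_of_pos ht.1]; exact ht.2) fun s hs e =>
        mul_le_mul_of_nonpos_left (e ▸ (h.im_bd hs).1 (by linarith [ht.1])) l
  refine ⟨bd, fun s => ?_⟩
  obtain ⟨ψ, c, a, b⟩ := linkb_inv hη hm hθ
  have cf : Continuous fun x : ℝ => u (ψ x) :=
    hu.continuousOn.comp_continuous (continuous_ofReal.comp c) fun x => four3_mem0 h' _
  have pf : Function.Periodic (fun x : ℝ => u (ψ x)) (2 * Real.pi) := fun x => by
    simp only [b]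
    push_cast
    exact hp _ (four3_mem0 h' _)
  have e : fc (fun x : ℝ => u (ψ x)) = afc θ fun s => u s := funext fun k => by
    have := fc_comp_cmap hη hθ (f := fun x : ℝ => u (ψ x) * exp (-(I * k * x)))
      (cf.fun_mul (by fun_prop)) fun x => by
        simp only [pf x]
        push_cast
        rw [four1_per]
    simp only [a, linkb_re hθ] at this
    rw [afc, this]
    simp [fc]
  have sm : Summable fun k => ‖fc (fun x : ℝ => u (ψ x)) k‖ :=
    .of_nonneg_of_le (fun _ => norm_nonneg _) (e ▸ bd)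
      ((four3_sum (mul_pos hm h')).mul_left _)
  have := (four1_sum sm (θ s).re).of_norm.hasSum
  rw [show ∑' k : ℤ, _ = _ from fs_fc cf pf sm (θ s).re] at this
  simpa only [e, a, linkb_re hθ] using this

theorem linkb_gsym (i j : Bool) (H : ℂ) (k : ℤ) : gco i j H (-k) = gco j i H k := by
  simp only [gco, neg_eq_zero, Int.natAbs_neg, abs_neg, @eq_comm _ i j]

theorem linkb_swap {S : Idx → Idx → ℂ} {x y : Idx} (hS : Summable fun c => ‖S x c‖) {α : ℤ → ℂ}
    (hα : Summable fun k => ‖α k‖) {p : ℤ → Idx → ℂ} (hp : ∀ k c, ‖p k c‖ ≤ 1)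
    (h : ∀ c, HasSum (fun k => α k * p k c) (if c = y then 1 else 0)) :
    HasSum (fun k => α k * Tm S (p k) x) (|x.2| * (if x = y then 1 else 0) + S x y) := by
  have G : Summable fun z : Idx × ℤ => S x z.1 * (α z.2 * p z.2 z.1) :=
    .of_norm_bounded (hS.mul_of_nonneg hα (fun _ => norm_nonneg _) fun _ => norm_nonneg _)
      fun z => by
        rw [norm_mul, norm_mul]
        exact mul_le_mul_of_nonneg_left (mul_le_of_le_one_right (norm_nonneg _) (hp _ _))
          (norm_nonneg _)
  have a := (G.hasSum.prod_fiberwise fun c => (h c).mul_left (S x c)).unique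
    (hasSum_single y fun c hc => by rw [if_neg hc, mul_zero])
  rw [if_pos rfl, mul_one, ← (Equiv.prodComm _ _).tsum_eq] at a
  have b := G.prod_symm.hasSum.prod_fiberwise fun k => (G.prod_symm.prod_factor k).hasSum
  refine (a ▸ ((h x).mul_left _).add b).congr_fun fun k => ?_
  rw [Tm, Sap, mul_add, ← tsum_mul_left, mul_left_comm]
  exact congrArg _ (tsum_congr fun c => mul_left_comm _ _ _)

/-- Cauchy data in the angular variable satisfy the matrix equation.  `U j k`, `N j k` are the
angular coefficients of the boundary values and of the normal derivative (density in `s`).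
Test with `exp (-i b s)`, expand it by `afc_expand`, use `BSym` and `dn_mode`. -/
theorem dn_of_modes {η m M : ℝ} {θ : Bool → ℂ → ℂ} (hη : 0 < η) (hm : 0 < m) (hM : M * η ≤ 1 / 2)
    (hθ : ∀ j, CMap η m M (θ j)) {H : ℝ} (hH : 2 ≤ H) {u N : Bool → ℝ → ℂ} (hu : ∀ j, Continuous (u j))
    (hN : ∀ j, Continuous (N j)) (hp : ∀ j, Function.Periodic (u j) (2 * Real.pi))
    (h : ∀ i (k : ℤ), fc (fun s => N i s * exp (-(I * k * θ i s))) 0 =
      ∑ j, ((if i = j then (|k| : ℤ) else 0) + gco i j H k) * afc (θ j) (u j) k) (b : Idx) :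
    Tm (Sfun θ H) (fun c => fc (u c.1) c.2) b = fc (N b.1) b.2 := by
  obtain ⟨i, n⟩ := b
  obtain ⟨C, hC⟩ := sfun_ok hη hm hM
  obtain ⟨cr, bs, -⟩ := hC θ hθ H hH
  have row := fun x => ((cr.rowBdd (half_pos hη)).2.2.2 x).1
  have c₁ := fun j => linkb_ce hη (hθ j)
  have c₂ := fun j => (linkb_c hη (hθ j)).2
  have n₁ := fun j k s => (linkb_norm (hθ j) k s).1
  have n₂ := fun j s => (hθ j).hi _ (four3_mem0 hη s)
  obtain ⟨bd, hs⟩ := afc_expand hη hm hη le_rfl (hθ i) (u := fun s => exp (I * (-n : ℤ) * s))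
    (D := ex (-η) (-n)) (by fun_prop) (fun s _ => four2_per _ s) fun s hs =>
      four2_exp (le_of_lt hs) _
  generalize afc (θ i) (fun s : ℝ => exp (I * (-n : ℤ) * s)) = α at bd hs
  have sα : Summable fun k => ‖α k‖ := .of_nonneg_of_le (fun _ => norm_nonneg _) bd
    ((four3_sum (mul_pos hm hη)).mul_left _)
  let γ (j : Bool) (k : ℤ) : ℂ := (if j = i then (|k| : ℤ) else 0 : ℤ) + gco j i H k
  have sγ (j) : Summable fun k => ‖α k * γ j k‖ := by
    refine .of_nonneg_of_le (fun _ => norm_nonneg _) (fun k => ?_)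
      ((summable_ex (mul_pos hm hη) 1).mul_left (ex (-η) (-n) * M * 5))
    have a : ‖γ j k‖ ≤ 5 * br k := by
      have := norm_gco_le j i (H := H) (by simpa using hH) k
      have e : ex 2 k ≤ 1 := Real.exp_le_one_iff.2 (by nlinarith [abs_nonneg (k : ℝ)])
      have := mul_le_of_le_one_right (br_pos k).le e
      have : ‖((if j = i then (|k| : ℤ) else 0 : ℤ) : ℂ)‖ ≤ br k := by
        rw [norm_intCast, br]
        split_ifs <;> simp <;> positivity
      refine (norm_add_le _ _).trans ?_
      simp only [pow_one] at *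
      linarith
    rw [norm_mul]
    exact (mul_le_mul (bd k) a (norm_nonneg _) ((norm_nonneg _).trans (bd k))).trans_eq (by ring)
  choose D hD using fun j => linkb_bdd (hu j) (hp j)
  obtain ⟨E, hE⟩ := isCompact_uIcc.exists_bound_of_continuousOn
    (hN i).continuousOn (s := uIcc 0 (2 * Real.pi))
  have h1 := linkb_sum (F := fun k s => α k * (N i s * exp (I * k * θ i s)))
    (f := fun s => N i s * exp (I * (-n : ℤ) * s)) (sα.mul_right E)
    (fun k => ((hN i).fun_mul (c₁ i k)).const_mul _) (fun k s l => by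
      rw [norm_mul, norm_mul, n₁, mul_one]
      exact mul_le_mul_of_nonneg_left (hE s l) (norm_nonneg _))
    (fun s => ((hs s).mul_left (N i s)).congr_fun fun k => mul_left_comm _ _ _) 0
  rw [linkb_sh, neg_neg] at h1
  let F (j : Bool) (k : ℤ) (s : ℝ) : ℂ := α k * γ j k * (exp (I * k * θ j s) * deriv (θ j) s)
  have cF (j k) : Continuous (F j k) := ((c₁ j k).fun_mul (c₂ j)).const_mul _
  have bF (j k s) : ‖F j k s‖ ≤ ‖α k * γ j k‖ * M := by
    rw [norm_mul, norm_mul (exp _), n₁, one_mul]
    exact mul_le_mul_of_nonneg_left (n₂ j s) (norm_nonneg _)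
  have sF (j s) : HasSum (fun k => F j k s) (∑' k, F j k s) :=
    (Summable.of_norm_bounded ((sγ j).mul_right M) fun k => bF j k s).hasSum
  let d (j : Bool) (a : ℤ) : ℂ :=
    |a| * (if (j, a) = (i, -n) then 1 else 0) + Sfun θ H (j, a) (i, -n)
  have h2 (j) : fc (fun s => ∑' k, F j k s) = d j := funext fun a => by
    refine ((linkb_sum ((sγ j).mul_right M) (cF j) (fun k s _ => bF j k s) (sF j) a).congr_fun
      fun k => ?_).unique (linkb_swap (row (j, a)) sα (p := fun k c =>
        if c.1 = i then fc (fun s => exp (I * k * θ i s)) c.2 else 0) (fun k c => ?_) ?_)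
    · rw [dn_mode hη hm hM hθ hH, ← mul_assoc, ← four3_mul]
    · split_ifs
      exacts [norm_fc_le (fun s => (n₁ i k s).le) _, by simp]
    · rintro ⟨l, r⟩
      by_cases e : l = i
      · have := linkb_sum sα (fun k => (c₁ i k).const_mul (α k))
          (fun k s _ => by rw [norm_mul, n₁, mul_one]) hs r
        have p : (Real.pi : ℂ) ≠ 0 := ofReal_ne_zero.2 Real.pi_ne_zero
        simp only [four3_mul] at this
        simp only [e, if_true, Prod.mk.injEq, true_and]
        convert this using 1
        rw [fc, four1_orth]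
        by_cases f : r = -n
        · rw [if_pos f, if_pos f.symm]
          field_simp
        · rw [if_neg f, if_neg (Ne.symm f), mul_zero]
      · simp only [e, if_false, Prod.mk.injEq, false_and, mul_zero]
        exact hasSum_zero
  have sw (j a) : Sfun θ H (j, a) (i, -n) = Sfun θ H (i, n) (j, -a) := by
    rw [bs]
    simp only [ng, neg_neg]
  have r₁ (j) : Summable fun a : ℤ => ‖Sfun θ H (i, n) (j, a)‖ := (row (i, n)).prod_factor j
  have sd (j) : Summable fun a => ‖d j a‖ := by
    refine Summable.norm (Summable.add (summable_of_ne_finset_zero (s := {-n}) fun a ha => ?_) ?_)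
    · rw [if_neg fun e => ha (by simpa using congrArg Prod.snd e), mul_zero]
    · simp only [sw]
      exact ((Equiv.neg ℤ).summable_iff.2 (r₁ j)).of_norm
  have h3 (j) (s : ℝ) : fs (d j) s = ∑' k, F j k s := by
    rw [← h2]
    exact fs_fc (continuous_tsum (cF j) ((sγ j).mul_right M) (bF j)) (fun s => tsum_congr fun k =>
      congrArg (α k * γ j k * ·) (congrArg₂ (· * ·) ((linkb_eper hη (hθ j) k).1 s)
        ((linkb_eper hη (hθ j) k).2 s))) (h2 j ▸ sd j) s
  have h4 (j) := linkb_sum (F := fun a s => d j a * (u j s * exp (I * a * s)))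
    (f := fun s => u j s * fs (d j) s) ((sd j).mul_right (D j))
    (fun k => ((hu j).fun_mul (by fun_prop)).const_mul _) (fun k s _ => by
      rw [norm_mul, norm_mul, (four1_norm k s).1, mul_one]
      exact mul_le_mul_of_nonneg_left (hD j s) (norm_nonneg _))
    (fun s => ((four1_sum (sd j) s).of_norm.hasSum.mul_left (u j s)).congr_fun
      fun k => mul_left_comm _ _ _) 0
  have h5 (j) := linkb_sum (F := fun k s => u j s * F j k s) (f := fun s => u j s * fs (d j) s)
    (((sγ j).mul_right M).mul_left (D j)) (fun k => (hu j).fun_mul (cF j k)) (fun k s _ => by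
      rw [norm_mul]
      exact mul_le_mul (hD j s) (bF j k s) (norm_nonneg _) ((norm_nonneg _).trans (hD j s)))
    (fun s => h3 j s ▸ (sF j s).mul_left _) 0
  have h6 : ∑ j, fc (fun s => u j s * fs (d j) s) 0 = fc (N i) n := by
    refine ((hasSum_sum fun j _ => h5 j).congr_fun fun k => ?_).unique h1
    have e (x : ℂ) : exp (-(I * (-k : ℤ) * x)) = exp (I * k * x) := by simp
    have := h i (-k)
    simp only [e, afc, abs_neg, linkb_gsym] at this
    rw [four3_mul, this, Finset.mul_sum]
    refine Finset.sum_congr rfl fun j _ => ?_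
    rw [← mul_assoc, ← four3_mul]
    refine congrArg (fc · 0) (funext fun s => ?_)
    simp only [F, γ, @eq_comm _ i j]
    ring
  have q : Summable fun c : Idx => Sfun θ H (i, n) c * fc (u c.1) c.2 :=
    .of_norm_bounded ((row (i, n)).mul_right (∑ j, |D j|)) fun c => by
      rw [norm_mul]
      exact mul_le_mul_of_nonneg_left ((norm_fc_le (hD c.1) _).trans ((le_abs_self _).trans
        (Finset.single_le_sum (fun j _ => abs_nonneg (D j)) (Finset.mem_univ _)))) (norm_nonneg _)
  have h7 (j) : fc (fun s => u j s * fs (d j) s) 0 = (if j = i then |n| * fc (u i) n else 0) +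
      ∑' a, Sfun θ H (i, n) (j, a) * fc (u j) a := by
    refine ((h4 j).congr_fun fun a => ?_).unique ((hasSum_single (f := fun a : ℤ =>
      |a| * (if (j, a) = (i, -n) then 1 else 0) * fc (u j) (-a)) (-n) fun a ha => ?_).add
        ((Equiv.neg ℤ).hasSum_iff.2 (q.prod_factor j).hasSum)) |>.trans ?_
    · rw [four3_mul, linkb_sh, add_mul, sw]
      rfl
    · rw [if_neg fun e => ha (congrArg Prod.snd e), mul_zero, zero_mul]
    · by_cases e : j = i <;> simp [e]
  rw [← h6, Tm, Sap, q.tsum_prod, tsum_fintype]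
  simp only [h7, Finset.sum_add_distrib, Finset.sum_ite_eq', Finset.mem_univ, if_true]

end StekIso
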