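import Pool.Agent.Lib.MP_fa022d_an.Defs6
import Pool.Agent.Lib.MP_fa022d_an.LinkB
import Pool.Agent.Lib.MP_fa022d_an.LinkC
import Pool.Agent.Lib.MP_fa022d_an.CInv

open Set Filter Topology Metric BoundedContinuousFunction Complex

noncomputable section
namespace StekIso

/-- Laurent coefficients of the solution of the Dirichlet problem -/
def geoa_g (c : Bool → ℤ → ℂ) (H : ℝ) (k : ℤ) : ℂ :=
  if k = 0 then c true 0 else
    2 * (c false k - c true k * exp (k * H)) / (exp (-(k * H)) - exp (k * H))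

/-- the Dirichlet problem with the explicit series -/
theorem geoa_dir {a : ℝ} (ha : 0 < a) : ∃ K > 0, ∀ {H : ℝ}, 1 ≤ H → ∀ (c : Bool → ℤ → ℂ) (D : ℝ),
    (∀ j k, ‖c j k‖ ≤ D * ex a k) → (∀ j k, c j (-k) = (starRingEnd ℂ) (c j k)) →
    DifferentiableOn ℂ (fun z => ∑' k, geoa_g c H k * z ^ k) (ann H (a / 2)) ∧
      (∀ z ∈ ann H (a / 2), ‖∑' k, geoa_g c H k * z ^ k‖ ≤ K * D) ∧ ∀ j (x : ℝ),
        (((∑' k : ℤ, geoa_g c H k * ((rad H j : ℂ) * exp (I * x)) ^ k).re +
          ((c true 0).re - (c false 0).re) / H * Real.log (rad H j) : ℝ) : ℂ) = fs (c j) x := by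
  obtain ⟨K, hK, hs⟩ := four2_K (half_pos ha) 0
  simp only [pow_zero, one_mul] at hs
  refine ⟨8 * K, by positivity, fun {H} hH c D hc hr => ?_⟩
  have H0 : 0 < H := by linarith
  have D0 : 0 ≤ D := four2_nonneg (hc true 0) (ex_pos _ _)
  have bd : ∀ k, ∀ z ∈ ann H (a / 2), ‖geoa_g c H k * z ^ k‖ ≤ 8 * D * ex (a / 2) k :=
    fun k z hz => by
    by_cases hk : k = 0
    · have := hc true 0
      simp only [geoa_g, hk, if_true, zpow_zero, mul_one]
      simp only [ex, Int.cast_zero, abs_zero, mul_zero, Real.exp_zero] at this ⊢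
      linarith
    have h1 : ‖geoa_g c H k‖ ≤ 2 * (D * ex a k * (1 + Real.exp (k * H))) /
        |(Real.exp (k * H))⁻¹ - Real.exp (k * H)| := by
      simp only [geoa_g, hk, if_false]
      rw [norm_div, norm_mul, show exp (k * H : ℂ) = (Real.exp (k * H) : ℝ) by simp, exp_neg,
        show exp (k * H : ℂ) = (Real.exp (k * H) : ℝ) by simp, ← ofReal_inv, ← ofReal_sub,
        norm_real, Real.norm_eq_abs, Complex.norm_two]
      gcongr
      refine (norm_sub_le _ _).trans ?_
      rw [norm_mul, norm_real, Real.norm_of_nonneg (Real.exp_pos _).le, mul_add, mul_one]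
      gcongr <;> exact hc _ _
    have h2 := linkc_bd hH hk ((Real.exp_pos _).trans hz.1) hz.1 hz.2
    rw [norm_mul, norm_zpow]
    refine (mul_le_mul_of_nonneg_right h1 (by positivity)).trans ?_
    rw [div_mul_eq_mul_div, div_le_iff₀ h2.1]
    have e : ex (a / 2) k = ex a k * ex (-(a / 2)) k := by rw [four2_ex]; congr 1; ring
    have := mul_le_mul_of_nonneg_left h2.2 (mul_nonneg D0 (ex_pos a k).le)
    rw [e]
    linarith
  have ne : ∀ k : ℤ, k ≠ 0 → exp (-(k * H : ℂ)) - exp (k * H) ≠ 0 := fun k hk e => by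
    have := congrArg norm (sub_eq_zero.1 e)
    rw [norm_exp, norm_exp, Real.exp_eq_exp] at this
    simp at this
    exact (mul_ne_zero (Int.cast_ne_zero.2 hk) H0.ne') (by linarith)
  have r0 : ∀ j, ((c j 0).re : ℂ) = c j 0 := fun j =>
    conj_eq_iff_re.1 (by simpa using (hr j 0).symm)
  have z0 : ∀ z ∈ ann H (a / 2), z ≠ 0 := fun z hz =>
    norm_pos_iff.1 ((Real.exp_pos _).trans hz.1)
  refine ⟨differentiableOn_tsum_of_summable_norm (hs.summable.mul_left (8 * D)) (fun k z hz =>
      ((differentiableAt_zpow.2 (.inl (z0 z hz))).const_mul _).differentiableWithinAt)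
      (isOpen_ann _ _) bd, fun z hz => ?_, fun j x => ?_⟩
  · exact (tsum_of_norm_bounded (hs.mul_left (8 * D)) fun k => bd k z hz).trans_eq (by ring)
  · obtain ⟨y, hy⟩ : ∃ y : ℝ, y = if j then 0 else H := ⟨_, rfl⟩
    have hr' : rad H j = Real.exp (-y) := by cases j <;> simp [rad, hy]
    have m : exp (I * (x + I * y)) ∈ ann H (a / 2) := linkc_mem' (by
      cases j <;> constructor <;> simp [hy] <;> linarith)
    have zp : ∀ k : ℤ, exp (I * (x + I * y)) ^ k = exp (-(k * y)) * exp (I * k * x) := fun k => by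
      rw [← exp_int_mul, ← exp_add]
      congr 1
      linear_combination (k * y : ℂ) * I_mul_I
    have S := (Summable.of_norm_bounded (hs.summable.mul_left (8 * D)) fun k => bd k _ m).hasSum
    have S2 := (Equiv.neg ℤ).hasSum_iff.2 (hasSum_conj'.2 S)
    have S3 := ((S.add S2).add (hasSum_ite_eq (0 : ℤ)
      (((2 * (((c true 0).re - (c false 0).re) / H * -y) : ℝ)) : ℂ))).div_const 2
    rw [hr', ← linkc_pt, Real.log_exp, fs]
    refine Eq.trans ?_ (HasSum.tsum_eq (S3.congr_fun fun k => ?_)).symm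
    · rw [add_conj]; push_cast; ring
    simp only [Function.comp, Equiv.neg_apply, zp, map_mul, ← exp_conj, map_neg, map_intCast,
      conj_ofReal, conj_I]
    have H1 : (H : ℂ) ≠ 0 := ofReal_ne_zero.2 H0.ne'
    by_cases hk : k = 0
    · subst hk
      simp only [geoa_g, neg_zero, if_true, ← hr]
      push_cast
      rw [r0, r0]
      cases j <;> simp [hy] <;> field_simp <;> ring
    · have n1 := ne k hk
      have n2 : exp (k * H : ℂ) - exp (-(k * H : ℂ)) ≠ 0 := fun e => n1 (by linear_combination -e)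
      simp only [geoa_g, hk, neg_eq_zero, if_false, map_div₀, map_mul, map_sub, ← hr, neg_neg,
        ← exp_conj, map_neg, map_intCast, conj_ofReal, map_ofNat]
      have n3 : exp (k * H : ℂ) * exp (-(k * H : ℂ)) = 1 := by rw [← exp_add]; simp
      push_cast
      simp only [neg_mul, mul_neg, neg_neg]
      cases j <;> simp only [hy, if_true, if_false, Bool.false_eq_true, ofReal_zero, mul_zero,
        neg_zero, exp_zero] <;> generalize exp (k * H : ℂ) = E at * <;>
        generalize exp (-(k * H : ℂ)) = E' at * <;> field_simp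
      all_goals ring1

theorem geoa_gcf (θ : Bool → ℂ → ℂ) (lam : ℝ) {H : ℝ} (hH : 0 < H) (k : ℤ) :
    gcf θ lam H k = geoa_g (cth θ lam) H k := by
  unfold gcf geoa_g
  by_cases hk : k = 0
  · simp only [hk, if_true]
  simp only [hk, if_false]
  obtain ⟨q, hq⟩ : ∃ q : ℝ, q = Real.exp (-H) ^ k.natAbs := ⟨_, rfl⟩
  have q0 : 0 < q := hq ▸ pow_pos (Real.exp_pos _) _
  have q1 : q < 1 := hq ▸ pow_lt_one₀ (Real.exp_pos _).le
    (Real.exp_lt_one_iff.2 (by linarith)) (Int.natAbs_ne_zero.2 hk)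
  have n0 : (q : ℂ) ≠ 0 := ofReal_ne_zero.2 q0.ne'
  have n1 : (1 : ℂ) - q ^ 2 ≠ 0 := by
    have : (1 : ℝ) - q ^ 2 ≠ 0 := by nlinarith
    exact_mod_cast this
  have n2 : (q : ℂ) ^ 2 - 1 ≠ 0 := fun e => n1 (by linear_combination -e)
  rw [pow_mul', ← hq]
  rw [← Real.exp_nat_mul] at hq
  have hq' : (q : ℂ) = exp (k.natAbs * -H) := by rw [hq]; push_cast; rfl
  split_ifs with h
  · have e' : (k : ℂ) = k.natAbs := by
      have : k = k.natAbs := by omega
      exact (congrArg Int.cast this).trans (Int.cast_natCast _)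
    have a1 : exp (-(k * H : ℂ)) = q := by rw [hq', ← e']; congr 1; ring
    have a2 : exp (k * H : ℂ) = (q : ℂ)⁻¹ := by rw [← a1, exp_neg, inv_inv]
    rw [a1, a2]
    push_cast
    field_simp
    ring
  · have e' : (k : ℂ) = -k.natAbs := by
      have : k = -(k.natAbs : ℤ) := by omega
      exact_mod_cast this
    have a1 : exp (k * H : ℂ) = q := by rw [hq', e']; congr 1; ring
    rw [exp_neg, a1]
    push_cast
    field_simp

section
variable {η m M : ℝ} {θ : ℂ → ℂ}

theorem geoa_log (hη : 0 < η) (hm : 0 < m) (h : CMap η m M θ) (s : ℝ) :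
    0 < (deriv θ s).re ∧ ((deriv θ s).re : ℂ) = deriv θ s ∧
      log (deriv θ s) = Real.log (deriv θ s).re := by
  have p : 0 < (deriv θ s).re := hm.trans_le (h.lo _ (four3_mem0 hη s))
  have e : ((deriv θ s).re : ℂ) = deriv θ s := conj_eq_iff_re.1 (conj_eq_iff_im.2 (basek_dre hη h s))
  exact ⟨p, e, by rw [ofReal_log p.le, e]⟩

theorem geoa_dlog (hm : 0 < m) (h : CMap η m M θ) :
    DifferentiableOn ℂ (fun s => log (deriv θ s)) (strip η) :=
  (h.diff.deriv (isOpen_strip η)).clog fun s hs => .inl (hm.trans_le (h.lo s hs))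

theorem geoa_clog (hη : 0 < η) (hm : 0 < m) (h : CMap η m M θ) :
    Continuous fun s : ℝ => log (deriv θ s) :=
  (geoa_dlog hm h).continuousOn.comp_continuous continuous_ofReal (four3_mem0 hη)

theorem geoa_mean (hη : 0 < η) (hm : 0 < m) (h : CMap η m M θ) (a : ℂ) :
    fc (fun s => (a - log (deriv θ s)) * deriv θ s) 0 =
      a - fc (fun s => deriv θ s * log (deriv θ s)) 0 := by
  have o := linka_orth hη h 0
  simp only [Int.cast_zero, mul_zero, zero_mul, exp_zero, one_mul, if_true] at o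
  have c := (linkb_c hη h).2
  have := linkc_lin (c.const_mul a) (c.fun_mul (geoa_clog hη hm h)) (-1) 0
  rw [four3_mul, o] at this
  rw [show (fun s : ℝ => (a - log (deriv θ s)) * deriv θ s) = fun s : ℝ =>
    a * deriv θ s + -1 * (deriv θ s * log (deriv θ s)) from funext fun s => by ring]
  exact this.trans (by ring)

theorem geoa_surj (hη : 0 < η) (hm : 0 < m) (h : CMap η m M θ) (x : ℝ) : ∃ s : ℝ, θ s = x := by
  obtain ⟨s, hs, e⟩ := cinv_surj hη hm h (four3_mem0 (mul_pos hm hη) x)
  have := cinv_im h hs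
  rw [e, ofReal_im, abs_zero] at this
  have z : s.im = 0 := abs_nonpos_iff.1 (nonpos_of_mul_nonpos_right this hm)
  exact ⟨s.re, by rw [← e]; congr 1; exact Complex.ext rfl z.symm⟩

theorem geoa_conj (hη : 0 < η) (h : CMap η m M θ) {u : ℝ → ℂ}
    (hu : ∀ s, (u s).im = 0) (k : ℤ) : afc θ u (-k) = (starRingEnd ℂ) (afc θ u k) := by
  have := fc_conj (fun s => u s * exp (-(I * k * θ s)) * deriv θ s) 0
  rw [neg_zero] at this
  rw [afc, afc, ← this]
  refine congrArg (fc · 0) (funext fun s => ?_)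
  rw [map_mul, map_mul, conj_eq_iff_im.2 (hu s), conj_eq_iff_im.2 (basek_dre hη h s), ← exp_conj,
    map_neg, map_mul, map_mul, conj_eq_iff_im.2 (h.real s), conj_I, map_intCast]
  simp

end

theorem geoa_rad (H : ℝ) (j : Bool) : 0 < rad H j := by
  unfold rad; split_ifs; exacts [one_pos, Real.exp_pos _]

theorem geoa_len (lam : ℝ) (j : Bool) : lenf lam j = Real.exp (if j then 0 else lam) := by
  cases j <;> simp [lenf]

theorem geoa_circ {H δ : ℝ} (hH : 0 < H) (hδ : 0 < δ) (j : Bool) (x : ℝ) :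
    (rad H j : ℂ) * exp (I * x) ∈ ann H δ := by
  obtain ⟨y, hy⟩ : ∃ y : ℝ, y = if j then 0 else H := ⟨_, rfl⟩
  have hr' : rad H j = Real.exp (-y) := by cases j <;> simp [rad, hy]
  rw [hr', ← linkc_pt]
  exact linkc_mem' (by cases j <;> constructor <;> simp [hy] <;> linarith)

/-- `Fits` in logarithmic form -/
theorem geoa_fits {η m M : ℝ} (hη : 0 < η) (hm : 0 < m) {θ : Bool → ℂ → ℂ}
    (hθ : ∀ j, CMap η m M (θ j)) {lam H c : ℝ} {G : ℂ → ℂ} (hc : 0 < c) :
    Fits θ lam H G c ↔ ∀ j (s : ℝ), (G (tau θ H j s)).re + Real.log (rad H j) =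
      Real.log c + (if j then 0 else lam) - Real.log (deriv (θ j) s).re := by
  refine forall_congr' fun j => forall_congr' fun s => ?_
  have p := (geoa_log hη hm (hθ j) s).1
  have r := geoa_rad H j
  rw [norm_exp, geoa_len, ← Real.exp_eq_exp (x := _ + _), Real.exp_sub, Real.exp_add, Real.exp_add,
    Real.exp_log p, Real.exp_log r, Real.exp_log hc, eq_div_iff p.ne']

theorem geoa_H {η m M : ℝ} (hη : 0 < η) (hm : 0 < m) {θ : Bool → ℂ → ℂ}
    (hθ : ∀ j, CMap η m M (θ j)) (lam : ℝ) :
    Hfun θ lam = cth θ lam true 0 - cth θ lam false 0 := by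
  have a := geoa_mean hη hm (hθ true) 0
  have b := geoa_mean hη hm (hθ false) lam
  simp only [cth, Int.cast_zero, mul_zero, zero_mul, neg_zero, exp_zero, mul_one, if_true,
    Bool.false_eq_true, if_false, ofReal_zero]
  rw [a, b, Hfun]
  ring

/-- The Laurent series `Gser` solves the boundary problem.  `cth θ lam j = afc (θ j) (lam_j - log θ')`
decays like `ex (m η)` (`afc_expand`); on the circle `j` the real part of the series has these
angular coefficients. -/
theorem Gser_ok {η m M Λ : ℝ} (hη : 0 < η) (hm : 0 < m) (hM : M * η ≤ 1 / 2) :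
    ∃ C ≥ 0, ∀ (θ : Bool → ℂ → ℂ) (lam : ℝ), (∀ j, CMap η m M (θ j)) → |lam| ≤ Λ →
      2 ≤ (Hfun θ lam).re → (Hfun θ lam).im = 0 ∧
      DifferentiableOn ℂ (Gser θ lam) (ann (Hfun θ lam).re (m * η / 2)) ∧
      (∀ z ∈ ann (Hfun θ lam).re (m * η / 2), ‖Gser θ lam z‖ ≤ C) ∧
      Fits θ lam (Hfun θ lam).re (Gser θ lam) 1 := by
  obtain ⟨K, hK, hd⟩ := geoa_dir (mul_pos hm hη)
  have cp : IsCompact (closedBall (0 : ℂ) M ∩ {z | m ≤ z.re}) :=
    (isCompact_closedBall _ _).inter_right (isClosed_le continuous_const continuous_re)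
  obtain ⟨L, hL⟩ := cp.exists_bound_of_continuousOn (f := log) fun z hz =>
    (continuousAt_clog (.inl (hm.trans_le hz.2))).continuousWithinAt
  refine ⟨|K * ((Λ + L) * M)|, abs_nonneg _, fun θ lam hθ hl hH => ?_⟩
  let u (j : Bool) (s : ℂ) : ℂ := ((if j then 0 else lam : ℝ) : ℂ) - log (deriv (θ j) s)
  have ex' := fun j => afc_expand hη hm hη le_rfl (hθ j) (u := u j) (D := Λ + L)
    ((differentiableOn_const _).sub (geoa_dlog hm (hθ j)))
    (fun s hs => by simp only [u, linkb_dper (hθ j) hs]) fun s hs => by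
      refine (norm_sub_le _ _).trans (add_le_add ?_ (hL _ ⟨by simpa using (hθ j).hi s hs,
        (hθ j).lo s hs⟩))
      rw [norm_real, Real.norm_eq_abs]
      split_ifs
      · exact (abs_zero.trans_le (abs_nonneg _)).trans hl
      · exact hl
  have ur : ∀ j (s : ℝ), u j s =
      (((if j then 0 else lam) - Real.log (deriv (θ j) s).re : ℝ) : ℂ) := fun j s => by
    simp only [u, (geoa_log hη hm (hθ j) s).2.2, ofReal_sub]
  have e : ∀ j, cth θ lam j = afc (θ j) fun s => u j s := fun j => rfl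
  have sym : ∀ j k, cth θ lam j (-k) = (starRingEnd ℂ) (cth θ lam j k) := fun j k => by
    rw [e]
    exact geoa_conj hη (hθ j) (fun s => by rw [ur, ofReal_im]) k
  have i0 : ∀ j, (cth θ lam j 0).im = 0 := fun j =>
    conj_eq_iff_im.1 (by simpa using (sym j 0).symm)
  have hF := geoa_H hη hm hθ lam
  obtain ⟨H, hH'⟩ : ∃ H, H = (Hfun θ lam).re := ⟨_, rfl⟩
  have hG : Gser θ lam = fun z => ∑' k, geoa_g (cth θ lam) H k * z ^ k := funext fun z => by
    simp only [Gser, ← hH', geoa_gcf θ lam (show 0 < H by linarith)]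
  obtain ⟨d1, d2, d3⟩ := hd (H := H) (by linarith) (cth θ lam) ((Λ + L) * M)
    (fun j k => e j ▸ (ex' j).1 k) sym
  have one : ((cth θ lam true 0).re - (cth θ lam false 0).re) / H = 1 := by
    rw [← sub_re, ← hF, ← hH']
    exact div_self (by linarith)
  rw [← hH', hG]
  refine ⟨by rw [hF, sub_im, i0, i0, sub_zero], d1, fun z hz => (d2 z hz).trans (le_abs_self _),
    (geoa_fits hη hm hθ one_pos).2 fun j s => ?_⟩
  have := d3 j (θ j s).re
  rw [one, one_mul, linkb_re (hθ j), fs, e, ((ex' j).2 s).tsum_eq, ur] at this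
  rw [Real.log_one, zero_add]
  exact ofReal_injective this

/-- the flux condition: the mean of `G` over a circle does not depend on the radius -/
theorem Fits.modulus {η m M : ℝ} (hη : 0 < η) (hm : 0 < m) {θ : Bool → ℂ → ℂ}
    (hθ : ∀ j, CMap η m M (θ j)) {lam H c δ : ℝ} {G : ℂ → ℂ} (hH : 0 < H) (hc : 0 < c)
    (hδ : 0 < δ) (hG : DifferentiableOn ℂ G (ann H δ)) (h : Fits θ lam H G c) :
    Hfun θ lam = H ∧ lenG G H true = c ∧ lenG G H false = c * Real.exp lam := by
  have cG : ∀ j, Continuous fun x : ℝ => G (rad H j * exp (I * x)) := fun j =>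
    hG.continuousOn.comp_continuous (by fun_prop) (geoa_circ hH hδ j)
  have pG : ∀ j (x : ℝ), G (rad H j * exp (I * (x + 2 * Real.pi : ℝ))) =
      G (rad H j * exp (I * x)) := fun j x => by
    push_cast
    rw [linkc_per]
  have len : ∀ j, lenG G H j = c * lenf lam j := fun j => by
    have a := fc_comp_cmap hη (hθ j)
      (f := fun x : ℝ => ((‖exp (G (rad H j * exp (I * x)))‖ * rad H j : ℝ) : ℂ))
      (continuous_ofReal.comp ((cG j).cexp.norm.mul continuous_const)) fun x => by
        simp only [pG]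
    have o := linka_orth hη (hθ j) 0
    have b : ∀ s : ℝ, ((‖exp (G (rad H j * exp (I * (θ j s).re)))‖ * rad H j : ℝ) : ℂ) *
        deriv (θ j) s = ((c * lenf lam j : ℝ) : ℂ) * 1 := fun s => by
      rw [mul_one, ← h j s, linkb_re (hθ j), ← (geoa_log hη hm (hθ j) s).2.1, ← ofReal_mul]
      rfl
    simp only [b] at a
    apply ofReal_injective
    have p : (Real.pi : ℂ) ≠ 0 := ofReal_ne_zero.2 Real.pi_ne_zero
    simp only [fc, Int.cast_zero, mul_zero, zero_mul, neg_zero, exp_zero, mul_one,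
      intervalIntegral.integral_const, intervalIntegral.integral_ofReal, sub_zero,
      real_smul] at a
    rw [lenG, ofReal_mul]
    push_cast at a ⊢
    rw [← a]
    field_simp
  refine ⟨?_, by simpa [lenf] using len true, by simpa [lenf] using len false⟩
  have lg := (geoa_fits hη hm hθ hc).1 h
  have mean : ∀ j, fc (fun x : ℝ => G (rad H j * exp (I * x))) 0 +
      (starRingEnd ℂ) (fc (fun x : ℝ => G (rad H j * exp (I * x))) 0) =
      2 * (((Real.log c + (if j then 0 else lam) - Real.log (rad H j) : ℝ) : ℂ) -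
        fc (fun s => deriv (θ j) s * log (deriv (θ j) s)) 0) := fun j => by
    have a1 := linkb_add (cG j) (continuous_conj.comp (cG j)) 0
    simp only [Function.comp_def, add_conj] at a1
    rw [fc_conj, neg_zero] at a1
    have a := fc_comp_cmap hη (hθ j)
      (f := fun x : ℝ => ((2 * (G (rad H j * exp (I * x))).re : ℝ) : ℂ))
      (continuous_ofReal.comp (continuous_const.mul (continuous_re.comp (cG j)))) fun x => by
        simp only [pG]
    rw [← a1, ← a, ← geoa_mean hη hm (hθ j), ← four3_mul]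
    refine congrArg (fc · 0) (funext fun s => ?_)
    have := eq_sub_of_add_eq (lg j s)
    rw [tau] at this
    rw [linkb_re (hθ j), this, (geoa_log hη hm (hθ j) s).2.2]
    push_cast
    ring
  have n1 := neg_lt_zero.2 hδ
  have sh := fc_shift (f := fun s => G (exp (I * s))) n1 (add_pos hH hδ)
    (show H ∈ Ioo (-δ) (H + δ) from ⟨n1.trans hH, by linarith⟩)
    (hG.comp (by fun_prop) fun s hs => linkc_mem' hs) (fun s _ => by simp only [linkc_per]) 0
  simp only [Int.cast_zero, zero_mul, Real.exp_zero, ofReal_one, one_mul, linkc_pt] at sh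
  have m1 := mean true
  have m0 := mean false
  simp only [rad, if_true, Bool.false_eq_true, if_false, ofReal_one, one_mul, Real.log_one,
    Real.log_exp] at m1 m0
  rw [sh, m0] at m1
  push_cast at m1
  rw [Hfun]
  linear_combination (-1 / 2 : ℂ) * m1

/-- uniqueness up to a rotation (`re_zero_const`) -/
theorem Fits.unique {η m M : ℝ} (hη : 0 < η) (hm : 0 < m) {θ : Bool → ℂ → ℂ}
    (hθ : ∀ j, CMap η m M (θ j)) {lam H c δ : ℝ} {G G' : ℂ → ℂ} (hH : 0 < H) (hc : 0 < c)
    (hδ : 0 < δ) (hG : DifferentiableOn ℂ G (ann H δ)) (hG' : DifferentiableOn ℂ G' (ann H δ))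
    (h : Fits θ lam H G c) (h' : Fits θ lam H G' 1) :
    ∃ t : ℝ, ∀ z ∈ ann H δ, G z = G' z + Real.log c + I * t := by
  have l := (geoa_fits hη hm hθ hc).1 h
  have l' := (geoa_fits hη hm hθ one_pos).1 h'
  obtain ⟨-, t, ht⟩ := re_zero_const (e := 0) (G := fun z => G z - G' z - Real.log c) hH hδ
    ((hG.sub hG').sub_const _) fun j x => by
      obtain ⟨s, hs⟩ := geoa_surj hη hm (hθ j) x
      have a := l j s
      have b := l' j s
      rw [tau, hs] at a b
      rw [Real.log_one] at b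
      simp only [sub_re, ofReal_re]
      linarith
  exact ⟨t, fun z hz => by linear_combination ht z hz⟩

end StekIso
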