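import Pool.Agent.Lib.MP_fa022d_an.GeoA

open Set Filter Topology Metric BoundedContinuousFunction Complex

noncomputable section
namespace StekIso

theorem geob_exp {a b : ℂ} {R : ℝ} (ha : a.re ≤ R) (hb : b.re ≤ R) :
    ‖exp a - exp b‖ ≤ Real.exp R * ‖a - b‖ :=
  (convex_halfSpace_re_le R).norm_image_sub_le_of_norm_hasDerivWithin_le (f' := exp)
    (fun x _ => (hasDerivAt_exp x).hasDerivWithinAt)
    (fun x hx => by rw [norm_exp]; exact Real.exp_le_exp.2 hx) hb ha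

theorem geob_rexp {a b R : ℝ} (ha : a ≤ R) (hb : b ≤ R) :
    |Real.exp a - Real.exp b| ≤ Real.exp R * |a - b| := by
  have := geob_exp (a := a) (b := b) ha hb
  rwa [← ofReal_exp, ← ofReal_exp, ← ofReal_sub, ← ofReal_sub, norm_real, norm_real] at this

theorem geob_log {m : ℝ} (hm : 0 < m) (M : ℝ) : ∃ L ≥ 0, ∀ w : ℂ, m ≤ w.re → ‖w‖ ≤ M →
    ‖log w‖ ≤ L ∧ ∀ w' : ℂ, m ≤ w'.re → ‖w'‖ ≤ M →
      ‖log w * w - log w' * w'‖ ≤ (L + 1) * ‖w - w'‖ := by
  have sl : ∀ w ∈ {w : ℂ | m ≤ w.re} ∩ closedBall 0 M, w ∈ slitPlane := fun w hw =>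
    Or.inl (hm.trans_le hw.1)
  obtain ⟨L, hL⟩ := ((isCompact_closedBall (0 : ℂ) M).inter_left
    (isClosed_le continuous_const continuous_re)).exists_bound_of_continuousOn
      (f := log) fun w hw => (continuousAt_clog (sl w hw)).continuousWithinAt
  refine ⟨|L|, abs_nonneg _, fun w a b => ⟨(hL w ⟨a, by simpa⟩).trans (le_abs_self _),
    fun w' a' b' => ?_⟩⟩
  refine ((convex_halfSpace_re_ge m).inter (convex_closedBall 0 M)
    ).norm_image_sub_le_of_norm_hasDerivWithin_le (f := fun w => log w * w)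
    (f' := fun w => log w + 1) (fun x hx => ?_) (fun x hx => ?_) ⟨a', by simpa⟩ ⟨a, by simpa⟩
  · exact (((hasDerivAt_log (sl x hx)).mul (hasDerivAt_id x)).congr_deriv (by
      simp [slitPlane_ne_zero (sl x hx), add_comm])).hasDerivWithinAt
  · exact (norm_add_le _ _).trans (by rw [norm_one]; linarith [hL x hx, le_abs_self L])

/-- the integrand of the angular coefficients -/
def geobF (c : ℝ) (θ : ℂ → ℂ) (k : ℤ) (s : ℂ) : ℂ :=
  (c - log (deriv θ s)) * exp (-(I * k * θ s)) * deriv θ s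

variable {η m M Λ : ℝ}

theorem geob_dlog (hm : 0 < m) {θ : ℂ → ℂ} (h : CMap η m M θ) :
    DifferentiableOn ℂ (fun s => log (deriv θ s)) (strip η) :=
  (h.diff.deriv (isOpen_strip η)).clog fun s hs => Or.inl (hm.trans_le (h.lo s hs))

theorem geob_F (hm : 0 < m) {θ : ℂ → ℂ} (h : CMap η m M θ) (c : ℝ) (k : ℤ) {y : ℝ} (hy : |y| < η) :
    (Continuous fun s : ℝ => geobF c θ k (s + I * y)) ∧
      fc (fun s => geobF c θ k (s + I * y)) 0 = fc (fun s => geobF c θ k s) 0 := by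
  have d : DifferentiableOn ℂ (geobF c θ k) (strip η) :=
    (((geob_dlog hm h).const_sub _).mul (h.diff.const_mul _).neg.cexp).mul
      (h.diff.deriv (isOpen_strip η))
  refine ⟨d.continuousOn.comp_continuous (by fun_prop) fun s => by simpa [strip] using hy,
    linka_shift hy d fun s hs => ?_⟩
  have := linka_eper h (-k) hs
  simp only [Int.cast_neg, mul_neg, neg_mul] at this
  simp only [geobF, linka_dper h hs, this]

theorem geob_bd (hη : 0 < η) (hm : 0 < m) : ∃ C ≥ 0, ∀ (θ : ℂ → ℂ) (c : ℝ), CMap η m M θ →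
    |c| ≤ Λ → ∀ k, ‖fc (fun s => geobF c θ k s) 0‖ ≤ C * ex (m * η) k := by
  obtain ⟨L, L0, hL⟩ := geob_log hm M
  refine ⟨(|Λ| + L) * |M|, by positivity, fun θ c h hc k => ?_⟩
  refine ((afc_expand hη hm hη le_rfl h (u := fun s => c - log (deriv θ s)) (D := |Λ| + L)
    ((geob_dlog hm h).const_sub _) (fun s hs => by rw [linka_dper h hs]) fun s hs => ?_).1 k).trans
    (mul_le_mul_of_nonneg_right (mul_le_mul_of_nonneg_left (le_abs_self _) (by positivity))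
      (ex_pos _ _).le)
  refine (norm_sub_le _ _).trans (add_le_add ?_ (hL _ (h.lo s hs) (h.hi s hs)).1)
  rw [norm_real]; exact hc.trans (le_abs_self _)

theorem geob_dif (hη : 0 < η) (hm : 0 < m) : ∃ C ≥ 0, ∀ (θ θ' : ℂ → ℂ) (c c' κ : ℝ),
    CMap η m M θ → CMap η m M θ' → |c'| ≤ Λ → |c - c'| ≤ κ → (∀ s ∈ strip η, ‖θ s - θ' s‖ ≤ κ) →
    ∀ k, ‖fc (fun s => geobF c θ k s) 0 - fc (fun s => geobF c' θ' k s) 0‖ ≤
      C * κ * ex (m * η / 4) k := by
  obtain ⟨L, L0, hL⟩ := geob_log hm M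
  have mη := mul_pos hm hη
  obtain ⟨K, K0, hK⟩ := br_pow_ex_le (η := m * η / 2) (η' := m * η / 4) (by linarith) 1
  refine ⟨(|M| + (|Λ| + L + 1) / (η / 2) + (|Λ| + L) * |M|) * K, by positivity,
    fun θ θ' c c' κ h h' hc hκ hθ k => ?_⟩
  have κ0 : 0 ≤ κ := (abs_nonneg _).trans hκ
  obtain ⟨y, hy, sg⟩ : ∃ y : ℝ, |y| = η / 2 ∧ ∀ θ, CMap η m M θ → ∀ s ∈ strip η, s.im = y →
      (-(I * k * θ s)).re ≤ -(m * η / 2) * |(k : ℝ)| := by
    rcases le_total 0 (k : ℝ) with g | g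
    · refine ⟨-(η / 2), by rw [abs_neg, abs_of_pos (half_pos hη)], fun θ h s hs e => ?_⟩
      have := mul_le_mul_of_nonneg_left ((h.im_bd hs).2.1 (by linarith)) g
      rw [e] at this
      simp [abs_of_nonneg g]; linarith
    · refine ⟨η / 2, abs_of_pos (half_pos hη), fun θ h s hs e => ?_⟩
      have := mul_le_mul_of_nonpos_left ((h.im_bd hs).1 (by linarith)) g
      rw [e] at this
      simp [abs_of_nonpos g]; linarith
  have hy' : |y| < η := by linarith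
  obtain ⟨c1, e1⟩ := geob_F hm h c k hy'
  obtain ⟨c2, e2⟩ := geob_F hm h' c' k hy'
  rw [← e1, ← e2, sub_eq_add_neg, ← neg_one_mul, ← linkc_lin c1 c2]
  refine norm_fc_le (fun t => ?_) 0
  set s : ℂ := t + I * y with hs
  have i : s.im = y := by simp [hs]
  have ms : s ∈ strip η := by simpa [strip, i] using hy'
  have sub : ball s (η / 2) ⊆ strip η := fun z hz => by
    have a := (abs_im_le_norm (z - s)).trans_lt (mem_ball_iff_norm.1 hz)
    have b := abs_add_le (z - s).im s.im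
    rw [← add_im, sub_add_cancel, i] at b
    show |z.im| < η
    linarith
  have dd : ‖deriv θ s - deriv θ' s‖ ≤ κ / (η / 2) := by
    have nb := (isOpen_strip η).mem_nhds ms
    rw [← deriv_fun_sub (h.diff.differentiableAt nb) (h'.diff.differentiableAt nb),
      norm_deriv_eq_norm_fderiv]
    exact cauchy_fderiv (half_pos hη) ((h.diff.sub h'.diff).mono sub) fun z hz => hθ z (sub hz)
  obtain ⟨l1, -⟩ := hL _ (h'.lo s ms) (h'.hi s ms)
  have l2 := (hL _ (h.lo s ms) (h.hi s ms)).2 _ (h'.lo s ms) (h'.hi s ms)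
  have b1 := (h.hi s ms).trans (le_abs_self M)
  have b2 := (h'.hi s ms).trans (le_abs_self M)
  have x1 : ‖exp (-(I * k * θ s))‖ ≤ ex (m * η / 2) k := by
    rw [norm_exp]; exact Real.exp_le_exp.2 (sg θ h s ms i)
  have x2 : ‖exp (-(I * k * θ s)) - exp (-(I * k * θ' s))‖ ≤ ex (m * η / 2) k * (br k * κ) := by
    refine (geob_exp (sg θ h s ms i) (sg θ' h' s ms i)).trans
      (mul_le_mul_of_nonneg_left ?_ (Real.exp_pos _).le)
    rw [show -(I * k * θ s) - -(I * k * θ' s) = -I * (k * (θ s - θ' s)) by ring, norm_mul, norm_mul,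
      norm_neg, norm_I, one_mul, norm_intCast]
    exact mul_le_mul (by rw [br]; linarith) (hθ s ms) (norm_nonneg _) (br_pos k).le
  have cΛ : ‖(c' : ℂ)‖ ≤ |Λ| := by rw [norm_real]; exact hc.trans (le_abs_self _)
  have cκ : ‖(c - c' : ℂ)‖ ≤ κ := by rw [← ofReal_sub, norm_real]; exact hκ
  have E : geobF c θ k s + -1 * geobF c' θ' k s = ((c - c') * deriv θ s + c' * (deriv θ s -
      deriv θ' s) - (log (deriv θ s) * deriv θ s - log (deriv θ' s) * deriv θ' s)) *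
      exp (-(I * k * θ s)) + (c' - log (deriv θ' s)) * deriv θ' s *
        (exp (-(I * k * θ s)) - exp (-(I * k * θ' s))) := by
    simp only [geobF]; ring
  have q : 0 ≤ κ / (η / 2) := by positivity
  have p1 := (norm_sub_le _ _).trans (add_le_add ((norm_add_le _ _).trans (add_le_add
    (norm_mul_le_of_le cκ b1) (norm_mul_le_of_le cΛ dd)))
    (l2.trans (mul_le_mul_of_nonneg_left dd (by positivity))))
  have p2 := norm_mul_le_of_le ((norm_sub_le _ _).trans (add_le_add cΛ l1)) b2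
  rw [E]
  refine ((norm_add_le _ _).trans (add_le_add (norm_mul_le_of_le p1 x1)
    (norm_mul_le_of_le p2 x2))).trans ?_
  have k1 := hK k
  have k2 : ex (m * η / 2) k ≤ K * ex (m * η / 4) k :=
    (le_mul_of_one_le_left (ex_pos _ _).le (by simpa using one_le_br k)).trans k1
  rw [pow_one] at k1
  calc _ = κ * (|M| + (|Λ| + L + 1) / (η / 2)) * ex (m * η / 2) k +
        κ * ((|Λ| + L) * |M|) * (br k * ex (m * η / 2) k) := by ring
    _ ≤ κ * (|M| + (|Λ| + L + 1) / (η / 2)) * (K * ex (m * η / 4) k) +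
        κ * ((|Λ| + L) * |M|) * (K * ex (m * η / 4) k) := by gcongr
    _ = _ := by ring

theorem geob_H (θ : ℂ → ℂ) :
    fc (fun s => deriv θ s * log (deriv θ s)) 0 = -fc (fun s => geobF 0 θ 0 s) 0 := by
  simp only [fc, geobF, ← mul_neg, ← intervalIntegral.integral_neg]
  congr 2; funext s; simp [mul_comm]

/-- angular coefficients depend on the circle map in a Lipschitz way: shift the contour to
`Im s = ∓ η / 2`, Cauchy estimate for the difference of the derivatives, and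
`‖exp (-i k a) - exp (-i k b)‖ ≤ |k| ‖a - b‖ max ‖exp‖` along the segment -/
theorem cth_lip {η m M Λ : ℝ} (hη : 0 < η) (hm : 0 < m) (hM : M * η ≤ 1 / 2) :
    ∃ C ≥ 0, ∀ (θ θ' : Bool → ℂ → ℂ) (lam lam' κ : ℝ), (∀ j, CMap η m M (θ j)) →
      (∀ j, CMap η m M (θ' j)) → |lam| ≤ Λ → |lam'| ≤ Λ → |lam - lam'| ≤ κ →
      (∀ j, ∀ s ∈ strip η, ‖θ j s - θ' j s‖ ≤ κ) →
      ‖Hfun θ lam - Hfun θ' lam'‖ ≤ C * κ ∧ ∀ j k, ‖cth θ lam j k‖ ≤ C * ex (m * η) k ∧
        ‖cth θ lam j k - cth θ' lam' j k‖ ≤ C * κ * ex (m * η / 4) k := by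
  have _ := hM
  obtain ⟨A, A0, hA⟩ := geob_bd (M := M) (Λ := Λ) hη hm
  obtain ⟨D, D0, hD⟩ := geob_dif (M := M) (Λ := Λ) hη hm
  refine ⟨1 + A + 2 * D, by positivity, fun θ θ' lam lam' κ h h' l l' hκ hθ => ?_⟩
  have κ0 : 0 ≤ κ := (abs_nonneg _).trans hκ
  have Λ0 : |(0 : ℝ)| ≤ Λ := by rw [abs_zero]; exact (abs_nonneg _).trans l
  have z : |(0 : ℝ) - 0| ≤ κ := by simpa using κ0
  refine ⟨?_, fun j k => ⟨(hA _ _ (h j) (by split_ifs <;> assumption) k).trans ?_,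
    (hD _ _ _ _ κ (h j) (h' j) (by split_ifs <;> assumption) (by split_ifs <;> assumption)
      (hθ j) k).trans ?_⟩⟩
  · have a := fun j => hD _ _ 0 0 κ (h j) (h' j) Λ0 z (hθ j) 0
    have b : ‖(lam - lam' : ℂ)‖ ≤ κ := by rw [← ofReal_sub, norm_real]; exact hκ
    have := (norm_sub_le _ _).trans (add_le_add ((norm_sub_le _ _).trans
      (add_le_add (a true) (a false))) b)
    simp only [ex, Int.cast_zero, abs_zero, mul_zero, Real.exp_zero, mul_one] at this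
    simp only [Hfun, geob_H]
    refine (le_of_eq (congrArg _ (by ring))).trans (this.trans ?_)
    nlinarith [mul_nonneg A0 κ0]
  · have := ex_pos (m * η) k
    gcongr; linarith
  · have := ex_pos (m * η / 4) k
    gcongr; linarith

theorem geob_g {a b a' b' : ℂ} {r r' α β γ : ℝ} (r0 : 0 ≤ r) (r1 : r ≤ 1 / 2) (r0' : 0 ≤ r')
    (r1' : r' ≤ 1 / 2) (ha : ‖a - a'‖ ≤ α) (hb : ‖b - b'‖ ≤ α) (ha' : ‖a'‖ ≤ β) (hb' : ‖b'‖ ≤ β)
    (hr : |r - r'| ≤ γ) : ‖2 * (a' - r' * b') / (1 - (r' ^ 2 : ℝ))‖ ≤ 6 * β ∧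
      ‖2 * (a - r * b) / (1 - (r ^ 2 : ℝ)) - 2 * (a' - r' * b') / (1 - (r' ^ 2 : ℝ))‖ ≤
        6 * α + 16 * β * γ := by
  have iv : ∀ r : ℝ, 0 ≤ r → r ≤ 1 / 2 → ‖(1 - (r ^ 2 : ℝ) : ℂ)⁻¹‖ ≤ 2 ∧
      (1 - (r ^ 2 : ℝ) : ℂ) ≠ 0 ∧ ‖(r : ℂ)‖ ≤ 1 / 2 := fun r r0 r1 => by
    have p : 1 / 2 ≤ 1 - r ^ 2 := by nlinarith
    rw [← ofReal_one, ← ofReal_sub, norm_inv, norm_real, norm_real, Real.norm_of_nonneg r0,
      Real.norm_of_nonneg (by linarith)]
    exact ⟨inv_le_of_inv_le₀ two_pos (by linarith), ofReal_ne_zero.2 (by linarith), r1⟩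
  obtain ⟨p1, p2, p3⟩ := iv r r0 r1
  obtain ⟨q1, q2, q3⟩ := iv r' r0' r1'
  have two : ‖(2 : ℂ)‖ ≤ 2 := by simp
  have g : ‖(r - r' : ℂ)‖ ≤ γ := by rw [← ofReal_sub, norm_real]; exact hr
  have u := norm_mul_le_of_le (norm_mul_le_of_le two ((norm_sub_le _ _).trans
    (add_le_add ha' (norm_mul_le_of_le q3 hb')))) q1
  refine ⟨u.trans (by linarith), ?_⟩
  have E : 2 * (a - r * b) / (1 - (r ^ 2 : ℝ)) - 2 * (a' - r' * b') / (1 - (r' ^ 2 : ℝ)) =
      2 * ((a - a') - r * (b - b') - (r - r') * b') * (1 - (r ^ 2 : ℝ) : ℂ)⁻¹ +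
      2 * (a' - r' * b') * (1 - (r' ^ 2 : ℝ) : ℂ)⁻¹ * ((r - r') * (r + r') *
        (1 - (r ^ 2 : ℝ) : ℂ)⁻¹) := by
    push_cast at p2 q2 ⊢
    field_simp
    ring
  rw [E]
  refine ((norm_add_le _ _).trans (add_le_add (norm_mul_le_of_le (norm_mul_le_of_le two
    ((norm_sub_le _ _).trans (add_le_add ((norm_sub_le _ _).trans (add_le_add ha
      (norm_mul_le_of_le p3 hb))) (norm_mul_le_of_le g hb')))) p1)
    (norm_mul_le_of_le u (norm_mul_le_of_le (norm_mul_le_of_le g ((norm_add_le _ _).trans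
      (add_le_add p3 q3))) p1)))).trans (le_of_eq (by ring))

/-- one term of the series -/
theorem geob_term {θ θ' : Bool → ℂ → ℂ} {lam lam' H H' δ α β h : ℝ} {z : ℂ} {k : ℤ} (H2 : 2 ≤ H)
    (H2' : 2 ≤ H') (hz : z ∈ ann H δ) (hz' : z ∈ ann H' δ)
    (ha : ∀ j, ‖cth θ lam j k - cth θ' lam' j k‖ ≤ α) (hb : ∀ j, ‖cth θ' lam' j k‖ ≤ β)
    (hh : |H - H'| ≤ h) : ‖gcf θ' lam' H' k * z ^ k‖ ≤ 6 * β * ex (-δ) k ∧
      ‖gcf θ lam H k * z ^ k - gcf θ' lam' H' k * z ^ k‖ ≤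
        (6 * α + 22 * β * (br k * h)) * ex (-δ) k := by
  have α0 := (norm_nonneg _).trans (ha true)
  have β0 := (norm_nonneg _).trans (hb true)
  have h0 := (abs_nonneg _).trans hh
  have b0 := br_pos k
  have bh := mul_nonneg β0 (mul_nonneg b0.le h0)
  by_cases k0 : k = 0
  · subst k0
    simp only [gcf, if_true, zpow_zero, mul_one, ex, Int.cast_zero, abs_zero, mul_zero,
      Real.exp_zero]
    exact ⟨by linarith [hb true], by linarith [ha true]⟩
  obtain ⟨n, hn⟩ : ∃ n, n = k.natAbs := ⟨_, rfl⟩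
  have n1 : (1 : ℝ) ≤ n := by exact_mod_cast (by omega : 1 ≤ n)
  have kn : |(k : ℝ)| = n := by rw [hn, Nat.cast_natAbs, Int.cast_abs]
  have rr : ∀ H : ℝ, 2 ≤ H → 0 ≤ Real.exp (-H) ^ n ∧ Real.exp (-H) ^ n ≤ 1 / 2 := fun H H2 => by
    refine ⟨by positivity, (pow_le_of_le_one (Real.exp_pos _).le (Real.exp_le_one_iff.2
      (by linarith)) (by omega)).trans ?_⟩
    rw [Real.exp_neg]
    exact inv_le_of_inv_le₀ (by norm_num) (by linarith [Real.add_one_le_exp H])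
  have dr : ∀ R : ℝ, n * -H ≤ R → n * -H' ≤ R →
      |Real.exp (-H) ^ n - Real.exp (-H') ^ n| ≤ Real.exp R * (br k * h) := fun R a b => by
    rw [← Real.exp_nat_mul, ← Real.exp_nat_mul]
    refine (geob_rexp a b).trans (mul_le_mul_of_nonneg_left ?_ (Real.exp_pos _).le)
    rw [← mul_sub, abs_mul, neg_sub_neg, abs_sub_comm, Nat.abs_cast, br, kn]
    exact mul_le_mul (by linarith) hh (abs_nonneg _) (by linarith)
  have d0 := dr 0 (by nlinarith) (by nlinarith)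
  rw [Real.exp_zero, one_mul] at d0
  have xe : ex (-δ) k = Real.exp (n * δ) := by rw [ex, kn]; congr 1; ring
  have x0 := ex_pos (-δ) k
  simp only [gcf, k0, if_false, ← hn, pow_mul']
  split_ifs with kp
  · obtain ⟨g1, g2⟩ := geob_g (rr H H2).1 (rr H H2).2 (rr H' H2').1 (rr H' H2').2 (ha true)
      (ha false) (hb true) (hb false) d0
    have w : ‖z ^ k‖ ≤ ex (-δ) k := by
      rw [xe, show k = n by omega, zpow_natCast, norm_pow, Real.exp_nat_mul]
      exact pow_le_pow_left₀ (norm_nonneg _) hz.2.le n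
    refine ⟨norm_mul_le_of_le g1 w, ?_⟩
    rw [← sub_mul]
    exact (norm_mul_le_of_le g2 w).trans (mul_le_mul_of_nonneg_right (by linarith) x0.le)
  · obtain ⟨g1, g2⟩ := geob_g (rr H H2).1 (rr H H2).2 (rr H' H2').1 (rr H' H2').2 (ha false)
      (ha true) (hb false) (hb true) d0
    have z0 : 0 < ‖z‖ := (Real.exp_pos _).trans hz.1
    obtain ⟨y, hy⟩ : ∃ y, ‖z‖ = Real.exp y := ⟨_, (Real.exp_log z0).symm⟩
    have y1 : -H - δ < y := Real.exp_lt_exp.1 (hy ▸ hz.1)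
    have y2 : -H' - δ < y := Real.exp_lt_exp.1 (hy ▸ hz'.1)
    have zk : ‖z ^ k‖ = Real.exp (n * -y) := by
      rw [show k = -n by omega, zpow_neg, zpow_natCast, norm_inv, norm_pow, hy,
        ← Real.exp_nat_mul, ← Real.exp_neg, mul_neg]
    have w : ∀ H : ℝ, -H - δ < y → ‖((Real.exp (-H) ^ n : ℝ) : ℂ) * z ^ k‖ ≤ ex (-δ) k :=
      fun H y1 => by
        rw [norm_mul, zk, norm_real, Real.norm_of_nonneg (by positivity), ← Real.exp_nat_mul,
          ← Real.exp_add, xe]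
        exact Real.exp_le_exp.2 (by nlinarith)
    have w' : ‖(((Real.exp (-H) ^ n : ℝ) : ℂ) - (Real.exp (-H') ^ n : ℝ)) * z ^ k‖ ≤
        br k * h * ex (-δ) k := by
      rw [norm_mul, zk, ← ofReal_sub, norm_real, xe]
      refine (mul_le_mul_of_nonneg_right (dr (n * (y + δ)) (by nlinarith) (by nlinarith))
        (Real.exp_pos _).le).trans (le_of_eq ?_)
      rw [mul_comm (Real.exp _), mul_assoc _ (Real.exp _), ← Real.exp_add]
      congr 2; ring
    refine ⟨(le_of_eq (congrArg _ (by ring))).trans (norm_mul_le_of_le g1 (w H' y2)), ?_⟩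
    refine ((le_of_eq (congrArg _ (by ring))).trans ((norm_add_le _ _).trans (add_le_add
      (norm_mul_le_of_le g2 (w H y1)) (norm_mul_le_of_le g1 w')))).trans (le_of_eq (by ring))

theorem Gser_lip {η m M Λ : ℝ} (hη : 0 < η) (hm : 0 < m) (hM : M * η ≤ 1 / 2) :
    ∃ C ≥ 0, ∀ (θ θ' : Bool → ℂ → ℂ) (lam lam' κ : ℝ), (∀ j, CMap η m M (θ j)) →
      (∀ j, CMap η m M (θ' j)) → |lam| ≤ Λ → |lam'| ≤ Λ → |lam - lam'| ≤ κ →
      (∀ j, ∀ s ∈ strip η, ‖θ j s - θ' j s‖ ≤ κ) → 2 ≤ (Hfun θ lam).re →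
      2 ≤ (Hfun θ' lam').re → ∀ z ∈ ann (Hfun θ lam).re (m * η / 8),
      z ∈ ann (Hfun θ' lam').re (m * η / 8) → ‖Gser θ lam z - Gser θ' lam' z‖ ≤ C * κ := by
  obtain ⟨C, C0, hC⟩ := cth_lip (Λ := Λ) hη hm hM
  have mη := mul_pos hm hη
  obtain ⟨K, K0, hK⟩ := four2_K (η := m * η / 8) (by linarith) 1
  refine ⟨(6 * C + 22 * C * C) * K, by positivity,
    fun θ θ' lam lam' κ h h' l l' hκ hθ H2 H2' z hz hz' => ?_⟩
  have κ0 : 0 ≤ κ := (abs_nonneg _).trans hκ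
  obtain ⟨a1, a2⟩ := hC θ θ' lam lam' κ h h' l l' hκ hθ
  have a3 := (hC θ' θ' lam' lam' 0 h' h' l' l' (by simp) (by simp)).2
  have mono (k) : ex (m * η) k ≤ ex (m * η / 4) k :=
    Real.exp_le_exp.2 (mul_le_mul_of_nonneg_right (by linarith) (abs_nonneg _))
  have T := fun k => geob_term H2 H2' hz hz' (fun j => (a2 j k).2)
    (fun j => (a3 j k).1.trans (mul_le_mul_of_nonneg_left (mono k) C0))
    ((sub_re _ _ ▸ abs_re_le_norm _ : _ ≤ _).trans a1)
  have xe (k) : ex (m * η / 4) k * ex (-(m * η / 8)) k = ex (m * η / 8) k := by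
    rw [four2_ex]; congr 1; ring
  have b (k) : ex (m * η / 8) k ≤ br k ^ 1 * ex (m * η / 8) k :=
    le_mul_of_one_le_left (ex_pos _ _).le (by simpa using one_le_br k)
  have s1 : Summable fun k : ℤ => gcf θ' lam' (Hfun θ' lam').re k * z ^ k :=
    .of_norm_bounded (hK.summable.mul_left (6 * C)) fun k => (T k).1.trans (by
      calc _ = 6 * C * ex (m * η / 8) k := by rw [← xe]; ring
        _ ≤ _ := mul_le_mul_of_nonneg_left (b k) (by positivity))
  have t (k) := (T k).2.trans (show _ ≤ (6 * C + 22 * C * C) * κ *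
      (br k ^ 1 * ex (m * η / 8) k) by
    calc _ = 6 * C * κ * ex (m * η / 8) k + 22 * C * C * κ * (br k ^ 1 * ex (m * η / 8) k) := by
          rw [← xe]; ring
      _ ≤ 6 * C * κ * (br k ^ 1 * ex (m * η / 8) k) + _ :=
          add_le_add_left (mul_le_mul_of_nonneg_left (b k) (by positivity)) _
      _ = _ := by ring)
  have s2 := Summable.of_norm_bounded (hK.summable.mul_left _) t
  have s3 := s2.add s1
  simp only [sub_add_cancel] at s3
  rw [Gser, Gser, ← s3.tsum_sub s1]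
  exact (tsum_of_norm_bounded (hK.mul_left _) t).trans (le_of_eq (by ring))

end StekIso
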