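import Pool.Agent.Lib.MP_fa022d_an.LinkB
import Pool.Agent.Lib.MP_fa022d_an.LinkC
import Pool.Agent.Lib.MP_fa022d_an.Top3
import Pool.Agent.Lib.MP_fa022d_an.SchB

open Set Filter Topology Metric BoundedContinuousFunction Complex

noncomputable section
namespace StekIso

/-- Fourier coefficients of the boundary values -/
def bco (θ : Bool → ℂ → ℂ) (H : ℝ) (F : ℂ → ℂ) (u : ℂ → ℝ) : X :=
  toB fun b => fc (fun s => u (F (tau θ H b.1 s))) b.2

open InnerProductSpace in
/-- a harmonic function is locally the real part of a holomorphic one -/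
theorem linkd_loc {u : ℂ → ℝ} {w : ℂ} (h : HarmonicAt u w) :
    ∃ g : ℂ → ℂ, AnalyticAt ℂ g w ∧ u =ᶠ[𝓝 w] fun z => (g z).re := by
  obtain ⟨r, hr, k⟩ := Metric.eventually_nhds_iff_ball.1 h.eventually
  obtain ⟨g, a, b⟩ := HarmonicOnNhd.exists_analyticOnNhd_ball_re_eq (f := u) k
  exact ⟨g, a w (mem_ball_self hr), mem_of_superset (ball_mem_nhds w hr) fun z hz => (b hz).symm⟩

open InnerProductSpace in
theorem linkd_harm {u : ℂ → ℝ} {F : ℂ → ℂ} {z : ℂ} (hF : AnalyticAt ℂ F z)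
    (h : HarmonicAt u (F z)) : HarmonicAt (fun z => u (F z)) z := by
  obtain ⟨g, a, b⟩ := linkd_loc h
  exact (harmonicAt_congr_nhds (b.comp_tendsto hF.continuousAt)).2 (a.comp hF).harmonicAt_re

open InnerProductSpace in
/-- maximum principle on the annulus -/
theorem linkd_max {H : ℝ} (hH : 0 < H) {U : ℂ → ℝ} (hc : ContinuousOn U (cann H))
    (hh : HarmonicOnNhd U (ann H 0)) (h0 : ∀ j z, ‖z‖ = rad H j → U z = 0) :
    ∀ z ∈ cann H, U z ≤ 0 := by
  have one : (1 : ℂ) ∈ cann H := top2_one hH.le norm_one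
  obtain ⟨a, ha, hm⟩ := (isCompact_cann H).exists_isMaxOn ⟨1, one⟩ hc
  suffices U a = 0 from fun z hz => this ▸ hm hz
  by_contra hne
  have ia : a ∈ ann H 0 := top3a_ann0.2
    ⟨ha.1.lt_of_ne fun e => hne (h0 false a e.symm), ha.2.lt_of_ne fun e => hne (h0 true a e)⟩
  obtain ⟨g, b, c⟩ := linkd_loc (hh a ia)
  have ca : U a = (g a).re := c.self_of_nhds
  have lm : IsLocalMax (norm ∘ fun z => exp (g z)) a := by
    filter_upwards [c, (isOpen_ann H 0).mem_nhds ia] with z h1 h2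
    rw [Function.comp, Function.comp, norm_exp, norm_exp, ← h1, ← ca]
    exact Real.exp_le_exp.2 (hm (top3a_ann0_sub h2))
  have ev : U =ᶠ[𝓝 a] fun _ => U a := by
    filter_upwards [c, norm_eventually_eq_of_isLocalMax (f := fun z => exp (g z))
      (b.cexp.eventually_analyticAt.mono fun z hz => hz.differentiableAt) lm] with z h1 h2
    rw [norm_exp, norm_exp, ← h1, ← ca] at h2
    exact Real.exp_injective h2
  have e : EqOn U (fun _ => U a) (ann H 0) :=
    AnalyticOnNhd.eqOn_of_preconnected_of_eventuallyEq (𝕜 := ℝ)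
      (fun z hz => HarmonicAt.analyticAt (hh z hz)) analyticOnNhd_const
      (top3_conn hH).isPreconnected ia ev
  exact hne ((e.of_subset_closure hc continuousOn_const top3a_ann0_sub
    (top3a_closure hH).ge one).symm.trans (h0 true 1 norm_one))

theorem linkd_side {ρ : ℝ → ℝ} {d : ℝ} (h : HasDerivAt ρ d 0) (hd : 0 < d) :
    ∀ᶠ t in 𝓝[<] (0 : ℝ), ρ t < ρ 0 := by
  filter_upwards [h.tendsto_slope_zero_left.eventually (lt_mem_nhds hd), self_mem_nhdsWithin]
    with t h1 h2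
  rw [zero_add, smul_eq_mul] at h1
  linarith [neg_of_mul_pos_right h1 (inv_nonpos.2 (le_of_lt h2))]

/-- the derivative along the outward normal, read on the annulus -/
theorem linkd_line {F : ℂ → ℂ} {H δ : ℝ} (hH : 0 < H) (hδ : 0 < δ)
    (hd : DifferentiableOn ℂ F (ann H δ)) (h0 : ∀ z ∈ ann H δ, deriv F z ≠ 0)
    (hi : InjOn F (cann H)) (j : Bool) {a : ℂ} (ha : ‖a‖ = rad H j) {u : ℂ → ℝ}
    (hu : DifferentiableOn ℝ (fun z => u (F z)) (cann H)) {ν : ℂ}
    (hν : IsOutwardNormal (F '' ann H 0) (F a) ν) :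
    HasDerivWithinAt (fun t : ℝ => u (F a + t • ν)) ((if j then 1 else -1) *
      fderivWithin ℝ (fun z => u (F z)) (cann H) a a / ‖a * deriv F a‖) (Iio 0) 0 := by
  obtain ⟨d, d0, -, -, op, Φ, hΦ, e⟩ := top3a_inverse hH hδ hd h0 hi
  have m := top3_mem hH ha
  have md := top3a_cann_sub d0 m
  have D0 := h0 a (top3a_cann_sub hδ m)
  have rp := top3_rad_pos H j
  have N0 : a * deriv F a ≠ 0 := mul_ne_zero (norm_pos_iff.1 (ha ▸ rp)) D0
  have he : Real.exp (-H) < 1 := Real.exp_lt_one_iff.2 (by linarith)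
  rw [top3b_normal hH hδ hd h0 hi j ha] at hν
  have c0 : F a + (0 : ℝ) • ν = F a := by simp
  have ρ := top3b_rho (hΦ a md) (e a md) D0 c0 (top3b_line (F a) ν)
  rw [hν, top3b_inner _ N0, ← hν] at ρ
  have ψ : HasDerivAt (fun t : ℝ => Φ (F a + t • ν)) ((deriv F a)⁻¹ * ν) 0 :=
    HasDerivAt.comp_of_eq (0 : ℝ) (hΦ a md) (top3b_line (F a) ν) c0.symm
  have ψ0 : Φ (F a + (0 : ℝ) • ν) = a := by rw [c0, e a md]
  have cn := ψ.continuousAt.norm
  have pos : 0 < 2 / ‖deriv F a‖ ^ 2 * ‖a * deriv F a‖ := by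
    have := norm_pos_iff.2 D0
    have := norm_pos_iff.2 N0
    positivity
  have ins : ∀ᶠ t in 𝓝[<] (0 : ℝ), Φ (F a + t • ν) ∈ cann H := by
    cases j
    · have ha' : ‖a‖ = Real.exp (-H) := ha
      filter_upwards [linkd_side ρ.neg (by simpa using pos), nhdsWithin_le_nhds
        (cn.eventually_lt_const (show ‖Φ _‖ < 1 by rwa [ψ0, ha']))] with t h1 h2
      rw [Pi.neg_apply, Pi.neg_apply, ψ0, neg_lt_neg_iff, ha'] at h1
      exact ⟨(lt_of_pow_lt_pow_left₀ 2 (norm_nonneg _) h1).le, h2.le⟩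
    · have ha' : ‖a‖ = 1 := ha
      filter_upwards [linkd_side ρ (by simpa using pos), nhdsWithin_le_nhds
        (cn.eventually_const_lt (show Real.exp (-H) < ‖Φ _‖ by rwa [ψ0, ha']))] with t h1 h2
      rw [ψ0, ha'] at h1
      exact ⟨h2.le, (lt_of_pow_lt_pow_left₀ 2 zero_le_one h1).le⟩
  have im : ∀ᶠ t in 𝓝 (0 : ℝ), F a + t • ν ∈ F '' ann H d :=
    (top3b_line (F a) ν).continuousAt.eventually (op.mem_nhds ⟨a, md, c0.symm⟩)
  have k := ((ψ0.symm ▸ (hu a m).hasFDerivWithinAt :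
    HasFDerivWithinAt (fun z => u (F z)) (fderivWithin ℝ (fun z => u (F z)) (cann H) a) (cann H)
      (Φ (F a + (0 : ℝ) • ν))).comp_hasDerivWithinAt (0 : ℝ) ψ.hasDerivWithinAt
      (s := {t | Φ (F a + t • ν) ∈ cann H}) fun _ h => h).mono_of_mem_nhdsWithin ins
  have v : (deriv F a)⁻¹ * ν = ((if j then 1 else -1) / ‖a * deriv F a‖ : ℝ) • a := by
    rw [hν, real_smul]
    push_cast
    field_simp
  rw [v, map_smul, smul_eq_mul, div_mul_eq_mul_div] at k
  have im' : (fun t : ℝ => u (F a + t • ν)) =ᶠ[𝓝 0] fun t => u (F (Φ (F a + t • ν))) :=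
    im.mono fun t ⟨z, hz, q⟩ => by simp only [← q, e z hz]
  exact k.congr_of_eventuallyEq (im'.filter_mono nhdsWithin_le_nhds) im'.self_of_nhds

theorem linkd_circ (H : ℝ) (j : Bool) (x : ℝ) : ‖rad H j * exp (I * x)‖ = rad H j := by
  rw [norm_mul, mul_comm I, norm_exp_ofReal_mul_I, mul_one, norm_real,
    Real.norm_of_nonneg (top3_rad_pos H j).le]

/-- angular coefficients in the parameter `s` -/
theorem linkd_chg {η m M H : ℝ} {θ : Bool → ℂ → ℂ} (hη : 0 < η) (hθ : ∀ j, CMap η m M (θ j))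
    (hH : 0 < H) {w : ℂ → ℂ} (hw : ContinuousOn w (cann H)) (j : Bool) (k : ℤ) :
    fc (fun s => w (tau θ H j s) * exp (-(I * k * θ j s)) * deriv (θ j) s) 0 =
      fc (fun x => w (rad H j * exp (I * x))) k := by
  have c : Continuous fun x : ℝ => w (rad H j * exp (I * x)) :=
    hw.comp_continuous (by fun_prop) fun x => top3_mem hH (linkd_circ H j x)
  have := fc_comp_cmap hη (hθ j) (f := fun x => w (rad H j * exp (I * x)) * exp (-(I * k * x)))
    (c.mul (by fun_prop)) fun x => by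
      have e := four2_per 1 x
      simp only [Int.cast_one, mul_one] at e
      simp only [ofReal_add, ofReal_mul, ofReal_ofNat, four1_per, e]
  simp only [← top3_re (hθ j)] at this
  simpa [fc, tau] using this

theorem linkd_tau {η m M H : ℝ} {θ : Bool → ℂ → ℂ} (hη : 0 < η) (hθ : ∀ j, CMap η m M (θ j))
    (j : Bool) : Continuous (tau θ H j) ∧ Function.Periodic (tau θ H j) (2 * Real.pi) := by
  have c : Continuous fun s : ℝ => θ j s :=
    continuous_iff_continuousAt.2 fun s => (top3_der hη (hθ j) s).continuousAt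
  refine ⟨continuous_const.mul (continuous_const.mul c).cexp, fun s => ?_⟩
  rw [tau, tau, top3_per hη (hθ _), mul_add, Complex.exp_add, mul_comm I (2 * (Real.pi : ℂ)),
    Complex.exp_two_pi_mul_I, mul_one]

theorem linkd_pull {H δ σ : ℝ} {G F : ℂ → ℂ} (hH : 0 < H) (hδ : 0 < δ) (hF : HasPrim G F H δ)
    (hi : InjOn F (cann H)) {u : ℂ → ℝ} (hu : u ∈ steklovSpace (F '' ann H 0) σ) :
    ContDiffOn ℝ 1 (fun z => u (F z)) (cann H) ∧
      InnerProductSpace.HarmonicOnNhd (fun z => u (F z)) (ann H 0) ∧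
      (∀ w, w ∉ F '' cann H → u w = 0) ∧ ContinuousOn (deriv F) (cann H) ∧
      ∀ j a, ‖a‖ = rad H j → (if j then 1 else -1) *
        fderivWithin ℝ (fun z => u (F z)) (cann H) a a = σ * u (F a) * ‖a * deriv F a‖ := by
  have hd : DifferentiableOn ℂ F (ann H δ) := fun z hz =>
    (hF z hz).differentiableAt.differentiableWithinAt
  have h0 : ∀ z ∈ ann H δ, deriv F z ≠ 0 := fun z hz => by
    rw [(hF z hz).deriv]; exact Complex.exp_ne_zero _
  have an : ∀ z ∈ cann H, AnalyticAt ℂ F z := fun z hz =>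
    hd.analyticAt ((isOpen_ann H δ).mem_nhds (top3a_cann_sub hδ hz))
  obtain ⟨-, cl, fr⟩ := closure_image_ann hH hδ hd h0 hi
  obtain ⟨h1, h2, h3, h4⟩ := hu
  rw [cl] at h1 h4
  have c1 : ContDiffOn ℝ 1 (fun z => u (F z)) (cann H) := (h1.of_le (by simp)).comp
    (fun z hz => ((an z hz).contDiffAt.restrict_scalars ℝ).contDiffWithinAt) (mapsTo_image _ _)
  refine ⟨c1, fun z hz => linkd_harm (an z (top3a_ann0_sub hz)) (h2 _ ⟨z, hz, rfl⟩), h4,
    fun z hz => (an z hz).deriv.continuousAt.continuousWithinAt, fun j a ha => ?_⟩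
  have hν := (normal_iff hH hδ hd h0 hi j ha _).2 rfl
  have N0 : ‖a * deriv F a‖ ≠ 0 := norm_ne_zero_iff.2 (mul_ne_zero
    (norm_pos_iff.1 (ha ▸ top3_rad_pos H j)) (h0 a (top3a_cann_sub hδ (top3_mem hH ha))))
  rw [← div_eq_iff N0]
  refine (uniqueDiffWithinAt_Iio 0).eq_deriv _
    (linkd_line hH hδ hd h0 hi j ha (c1.differentiableOn one_ne_zero) hν)
    ((h3 _ (fr ▸ ⟨a, ?_, rfl⟩) _ hν).mono Iio_subset_Iic_self)
  cases j
  exacts [.inr ha, .inl ha]

theorem linkd_smul (c : ℂ) (f : ℝ → ℂ) (k : ℤ) : fc (fun s => c * f s) k = c * fc f k := by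
  simp only [fc, mul_assoc, intervalIntegral.integral_const_mul]
  ring

theorem bco_mem {η m M : ℝ} {θ : Bool → ℂ → ℂ} (hη : 0 < η) (hm : 0 < m) (hM : M * η ≤ 1 / 2)
    (hθ : ∀ j, CMap η m M (θ j))
    {lam H δ : ℝ} {G F : ℂ → ℂ} (hH : 2 ≤ H) (hδ : 0 < δ) (hF : HasPrim G F H δ)
    (hfit : Fits θ lam H G 1) (hi : InjOn F (cann H)) (σ : ℝ) {u : ℂ → ℝ} (hu : u ∈ steklovSpace (F '' ann H 0) σ) :
    (∀ b, bco θ H F u b = fc (fun s => u (F (tau θ H b.1 s))) b.2) ∧
      bco θ H F u ∈ RKer (Sfun θ H) (lenf lam) σ := by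
  have H0 : 0 < H := by linarith
  obtain ⟨h1, h2, -, h4, h5⟩ := linkd_pull H0 hδ hF hi hu
  have mem : ∀ j s, tau θ H j s ∈ cann H := fun j s => top3_mem H0 (top3_norm_tau hθ j s)
  have cU : ContinuousOn (fun z => (u (F z) : ℂ)) (cann H) :=
    continuous_ofReal.comp_continuousOn h1.continuousOn
  have c : ∀ j, Continuous fun s => (u (F (tau θ H j s)) : ℂ) := fun j =>
    cU.comp_continuous (linkd_tau hη hθ j).1 (mem j)
  obtain ⟨C, hC⟩ := (isCompact_cann H).exists_bound_of_continuousOn cU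
  have e : ∀ b, bco θ H F u b = fc (fun s => u (F (tau θ H b.1 s))) b.2 :=
    toB_apply (C := C) fun b => norm_fc_le (fun s => hC _ (mem b.1 s)) b.2
  obtain ⟨D, hD⟩ := sfun_ok hη hm hM
  refine ⟨e, (mem_Ker_iff (half_pos hη) (hD θ hθ H hH).1 _).2 fun b => ?_, fun b => ?_⟩
  · have k := dn_of_modes hη hm hM hθ hH (u := fun j s => u (F (tau θ H j s)))
      (N := fun j s => σ * lenf lam j * u (F (tau θ H j s))) c
      (fun j => continuous_const.mul (c j))
      (fun j s => by simp only [(linkd_tau hη hθ j).2 s]) (fun i k => ?_) b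
    · rw [linkd_smul, Tm, ← e b, ← funext e] at k
      rw [dvs]
      linear_combination -k
    · have q := harmonic_modes H0 h1 h2 i k
      simp only [h5 i _ (linkd_circ H i _)] at q
      simp only [afc, linkd_chg hη hθ H0 cU]
      rw [← q, ← linkd_chg hη hθ H0 (w := fun a => (σ * u (F a) * ‖a * deriv F a‖ : ℝ))
        (continuous_ofReal.comp_continuousOn ((continuousOn_const.mul h1.continuousOn).mul
          (continuousOn_id.mul h4).norm))]
      refine congrArg (fc · 0) (funext fun s => ?_)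
      have f := congrArg ofReal (hfit i s)
      rw [norm_mul, top3_norm_tau hθ, (hF _ (top3a_cann_sub hδ (mem i s))).deriv,
        top3_dreal hη (hθ i)]
      push_cast at f ⊢
      linear_combination -(σ * u (F (tau θ H i s)) * exp (-(I * k * θ i s))) * f
  · have := fc_conj (fun s => (u (F (tau θ H b.1 s)) : ℂ)) (-b.2)
    simpa only [e, ng, conj_ofReal, neg_neg] using this

/-- zero boundary values (maximum principle for the harmonic `u ∘ F`, or Laurent coefficients) -/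
theorem bco_inj {η m M : ℝ} {θ : Bool → ℂ → ℂ} (hη : 0 < η) (hm : 0 < m) (hM : M * η ≤ 1 / 2)
    (hθ : ∀ j, CMap η m M (θ j))
    {lam H δ : ℝ} {G F : ℂ → ℂ} (hH : 2 ≤ H) (hδ : 0 < δ) (hF : HasPrim G F H δ)
    (hfit : Fits θ lam H G 1) (hi : InjOn F (cann H)) (σ : ℝ) {u : ℂ → ℝ} (hu : u ∈ steklovSpace (F '' ann H 0) σ) (h0 : bco θ H F u = 0) : u = 0 := by
  have H0 : 0 < H := by linarith
  obtain ⟨h1, h2, h3, -⟩ := linkd_pull H0 hδ hF hi hu
  have e := (bco_mem hη hm hM hθ hH hδ hF hfit hi σ hu).1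
  have z : ∀ j a, ‖a‖ = rad H j → u (F a) = 0 := fun j a ha => by
    obtain ⟨s, rfl⟩ := top3_tau_surj hη hm hθ j ha
    have k : fc (fun s => (u (F (tau θ H j s)) : ℂ)) = 0 := funext fun k => by
      rw [← e (j, k), h0]
      rfl
    have := fs_fc (f := fun s => (u (F (tau θ H j s)) : ℂ))
      ((continuous_ofReal.comp_continuousOn h1.continuousOn).comp_continuous
        (linkd_tau hη hθ j).1 fun s => top3_mem H0 (top3_norm_tau hθ j s))
      (fun s => by simp only [(linkd_tau hη hθ j).2 s]) (by simp [k, summable_zero]) s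
    simpa [k, fs] using this.symm
  funext w
  by_cases hw : w ∈ F '' cann H
  · obtain ⟨a, ha, rfl⟩ := hw
    exact le_antisymm (linkd_max H0 h1.continuousOn h2 z a ha) (neg_nonpos.1
      (linkd_max H0 h1.continuousOn.neg h2.neg (fun j a k => neg_eq_zero.2 (z j a k)) a ha))
  · exact h3 w hw

end StekIso
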