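import Pool.Agent.Lib.MP_fa022d_an.Defs6
import Pool.Agent.Lib.MP_fa022d_an.LinkB
import Pool.Agent.Lib.MP_fa022d_an.LinkC
import Pool.Agent.Lib.MP_fa022d_an.LinkD
import Pool.Agent.Lib.MP_fa022d_an.BaseK

open Set Filter Topology Metric BoundedContinuousFunction Complex

noncomputable section
namespace StekIso

theorem geoc_ne {H δ : ℝ} {z : ℂ} (hz : z ∈ ann H δ) : z ≠ 0 :=
  norm_pos_iff.1 ((Real.exp_pos _).trans hz.1)

/-- radial derivative of `log ‖z exp (G z)‖` -/
theorem geoc_rad {G : ℂ → ℂ} {a : ℂ} (hG : DifferentiableAt ℂ G a) (ha : a ≠ 0) :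
    ∃ D : ℂ →L[ℝ] ℝ, HasFDerivAt (fun z => Real.log ‖z * exp (G z)‖) D a ∧
      D a = 1 + (a * deriv G a).re := by
  have l : HasDerivAt (fun z => log (z / a)) (a⁻¹ / (a / a)) a :=
    (((hasDerivAt_id a).mul_const a⁻¹).congr_deriv (one_mul _)).clog
      (by simp [ha])
  have d := (reCLM.hasFDerivAt.comp a (hG.hasDerivAt.add l).complexToReal_fderiv).add_const
    (Real.log ‖a‖)
  refine ⟨_, d.congr_of_eventuallyEq ?_, ?_⟩
  · filter_upwards [isOpen_ne.mem_nhds ha] with z hz
    have z0 := norm_ne_zero_iff.2 hz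
    have a0 := norm_ne_zero_iff.2 ha
    simp only [Function.comp_apply, Pi.add_apply, reCLM_apply, add_re, log_re, norm_mul, norm_div,
      norm_exp]
    rw [Real.log_mul z0 (Real.exp_ne_zero _), Real.log_div z0 a0, Real.log_exp]
    ring
  · show ((deriv G a + a⁻¹ / (a / a)) * a).re = _
    rw [div_self ha, div_one, add_mul, inv_mul_cancel₀ ha, add_re, one_re, add_comm, mul_comm]

/-- boundary values -/
theorem geoc_bd {η m M : ℝ} (hη : 0 < η) (hm : 0 < m) {θ : Bool → ℂ → ℂ}
    (hθ : ∀ j, CMap η m M (θ j)) {lam H : ℝ} {G : ℂ → ℂ} (h : Fits θ lam H G 1) (j : Bool) (s : ℝ) :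
    (Real.log ‖tau θ H j s * exp (G (tau θ H j s))‖ : ℂ) =
      (if j then 0 else (lam : ℂ)) - log (deriv (θ j) s) := by
  have p : 0 < (deriv (θ j) s).re := hm.trans_le ((hθ j).lo _ (basek_re hη s))
  have e := h j s
  rw [one_mul, ← eq_div_iff p.ne', mul_comm, ← top3_norm_tau hθ j s, ← norm_mul] at e
  rw [e, top3_dreal hη (hθ j), ← ofReal_log p.le, ofReal_re]
  cases j
  · simp [lenf, Real.log_div (Real.exp_ne_zero _) p.ne']
  · simp [lenf]

/-- The curvature.  `U = Re G + log ‖z‖` is harmonic with boundary values `psiC`; its normal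
derivative on the outer circle is `1 + Re (z G')` (`harmonic_modes`, `dn_of_modes`). -/
theorem kap_eq {η m M : ℝ} (hη : 0 < η) (hm : 0 < m) (hM : M * η ≤ 1 / 2) {θ : Bool → ℂ → ℂ}
    (hθ : ∀ j, CMap η m M (θ j)) {lam H δ : ℝ} {G : ℂ → ℂ} (hH : 2 ≤ H) (hδ : 0 < δ)
    (hG : DifferentiableOn ℂ G (ann H δ)) (h : Fits θ lam H G 1) (k : ℤ) :
    kap (Sfun θ H) θ lam k = fc (fun s => deriv (θ true) s *
      (1 + ((exp (I * θ true s) * deriv G (exp (I * θ true s))).re : ℝ))) k := by
  have H0 : 0 < H := by linarith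
  have an (z) (hz : z ∈ ann H δ) : AnalyticAt ℂ G z := hG.analyticAt ((isOpen_ann H δ).mem_nhds hz)
  have hh (z) (hz : z ∈ ann H δ) :
      InnerProductSpace.HarmonicAt (fun z => Real.log ‖z * exp (G z)‖) z :=
    (analyticAt_id.mul (an z hz).cexp').harmonicAt_log_norm
      (mul_ne_zero (geoc_ne hz) (exp_ne_zero _))
  have h1 : ContDiffOn ℝ 1 (fun z => Real.log ‖z * exp (G z)‖) (cann H) := fun z hz =>
    ((hh z (cann_sub hδ hz)).1.of_le (by norm_num)).contDiffWithinAt
  have h5 (a) (ha : a ∈ cann H) : fderivWithin ℝ (fun z => Real.log ‖z * exp (G z)‖) (cann H) a a =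
      1 + (a * deriv G a).re := by
    obtain ⟨D, d, e⟩ := geoc_rad (an a (cann_sub hδ ha)).differentiableAt (geoc_ne (cann_sub hδ ha))
    rw [d.hasFDerivWithinAt.fderivWithin (linkc_ud H0 a ha), e]
  have mem (j s) : tau θ H j s ∈ cann H := top3_mem H0 (top3_norm_tau hθ j s)
  have cU : ContinuousOn (fun z => (Real.log ‖z * exp (G z)‖ : ℂ)) (cann H) :=
    continuous_ofReal.comp_continuousOn h1.continuousOn
  have cw (i : Bool) : ContinuousOn
      (fun a => (((if i then 1 else -1) * (1 + (a * deriv G a).re) : ℝ) : ℂ)) (cann H) :=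
    continuous_ofReal.comp_continuousOn (continuousOn_const.mul (continuousOn_const.add
      (continuous_re.comp_continuousOn (continuousOn_id.mul fun z hz =>
        (an z (cann_sub hδ hz)).deriv.continuousAt.continuousWithinAt))))
  have q := dn_of_modes hη hm hM hθ hH
    (u := fun j s => Real.log ‖tau θ H j s * exp (G (tau θ H j s))‖)
    (N := fun i s => deriv (θ i) s *
      (((if i then 1 else -1) * (1 + (tau θ H i s * deriv G (tau θ H i s)).re) : ℝ) : ℂ))
    (fun j => cU.comp_continuous (linkd_tau hη hθ j).1 (mem j))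
    (fun j => (linkb_c hη (hθ j)).2.mul ((cw j).comp_continuous (linkd_tau hη hθ j).1 (mem j)))
    (fun j s => by simp only [(linkd_tau hη hθ j).2 s]) (fun i k => ?_) (true, k)
  · simp only [geoc_bd hη hm hθ h] at q
    refine Eq.trans q (congrArg (fc · k) (funext fun s => ?_))
    simp [tau, rad]
  · have q := harmonic_modes H0 h1 (fun z hz => hh z (cann_sub hδ (top3a_ann0_sub hz))) i k
    simp only [h5 _ (top3_mem H0 (linkd_circ H i _))] at q
    simp only [afc, linkd_chg hη hθ H0 cU]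
    rw [← q, ← linkd_chg hη hθ H0 (cw i)]
    exact congrArg (fc · 0) (funext fun s => by ring)

theorem geoc_lin (L : ℂ →L[ℝ] ℝ) {f : ℂ → ℂ} {f' : ℂ} {s : ℝ} (d : HasDerivAt f f' s)
    (h : ∀ t : ℝ, L (f t) = 0) : L f' = 0 :=
  (L.hasFDerivAt.comp_hasDerivAt s d.comp_ofReal).unique (by
    rw [show L ∘ (fun t : ℝ => f t) = fun _ => 0 from funext h]
    exact hasDerivAt_const _ _)

theorem geoc_one {k : ℤ} (hk : k ≠ 0) : fc (fun _ => 1) k = 0 := by
  have := four1_orth 0 k
  rw [if_neg hk.symm] at this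
  simp only [Int.cast_zero, mul_zero, zero_mul, exp_zero] at this
  rw [fc, this, mul_zero]

/-- the unit tangent; both sides have modulus one and the same logarithmic derivative -/
theorem tangent_eq {η m M : ℝ} (hη : 0 < η) (hm : 0 < m) (hM : M * η ≤ 1 / 2) {θ : Bool → ℂ → ℂ}
    (hθ : ∀ j, CMap η m M (θ j)) {lam H δ : ℝ} {G : ℂ → ℂ} (hH : 2 ≤ H) (hδ : 0 < δ)
    (hG : DifferentiableOn ℂ G (ann H δ)) (h : Fits θ lam H G 1) :
    ∃ a : ℂ, ‖a‖ = 1 ∧ (∀ s : ℝ, exp (I * vth (kap (Sfun θ H) θ lam) s) =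
        a * (exp (G (exp (I * θ true s))) * (I * exp (I * θ true s) * deriv (θ true) s))) ∧
      Cp (kap (Sfun θ H) θ lam) = a * I * lc G (-1) ∧
      ∀ F, HasPrim G F H δ → ∀ p q : ℝ, chord (kap (Sfun θ H) θ lam) p q =
        a * (F (exp (I * θ true p)) - F (exp (I * θ true q))) := by
  have H0 : 0 < H := by linarith
  have c := hθ true
  have M0 : 0 < M := (hm.trans_le (c.lo _ (basek_re hη 0))).trans_le
    ((re_le_norm _).trans (c.hi _ (basek_re hη 0)))
  have y0 : 0 < min η (δ / M) := lt_min hη (div_pos hδ M0)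
  have s1 {s : ℂ} (hs : s.im ∈ Ioo (-min η (δ / M)) (min η (δ / M))) : s ∈ strip η :=
    (abs_lt.2 hs).trans_le (min_le_left _ _)
  have s2 {s : ℂ} (hs : s.im ∈ Ioo (-min η (δ / M)) (min η (δ / M))) :
      exp (I * θ true s) ∈ ann H δ := by
    have a := (c.im_bd (s1 hs)).2.2
    have b := (lt_div_iff₀' M0).1 ((abs_lt.2 hs).trans_le (min_le_right _ _))
    have := abs_lt.1 (a.trans_lt b)
    exact linkc_mem' ⟨this.1, by linarith [this.2]⟩
  have r (s : ℝ) : (s : ℂ).im ∈ Ioo (-min η (δ / M)) (min η (δ / M)) := by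
    rw [ofReal_im]; exact ⟨neg_neg_of_pos y0, y0⟩
  generalize min η (δ / M) = y at *
  have an {s : ℂ} (hs : s ∈ strip η) : AnalyticAt ℂ (θ true) s :=
    c.diff.analyticAt ((isOpen_strip η).mem_nhds hs)
  have anG {z : ℂ} (hz : z ∈ ann H δ) : AnalyticAt ℂ G z :=
    hG.analyticAt ((isOpen_ann H δ).mem_nhds hz)
  have sl {s : ℂ} (hs : s ∈ strip η) : deriv (θ true) s ∈ slitPlane :=
    .inl (hm.trans_le (c.lo s hs))
  have dτ {s : ℂ} (hs : s ∈ strip η) : HasDerivAt (fun s => exp (I * θ true s))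
      (exp (I * θ true s) * (I * deriv (θ true) s)) s :=
    ((an hs).differentiableAt.hasDerivAt.const_mul I).cexp
  let Φ (s : ℂ) : ℂ := θ true s - I * (G (exp (I * θ true s)) + log (deriv (θ true) s)) - s
  have aΦ {s : ℂ} (hs : s.im ∈ Ioo (-y) y) : AnalyticAt ℂ Φ s :=
    ((an (s1 hs)).sub (analyticAt_const.mul (((anG (s2 hs)).comp (f := fun s => exp (I * θ true s))
      (analyticAt_const.mul (an (s1 hs))).cexp').add
        ((an (s1 hs)).deriv.clog (sl (s1 hs)))))).sub analyticAt_id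
  have pΦ (s : ℂ) (hs : s.im ∈ Ioo (-y) y) : Φ (s + 2 * Real.pi) = Φ s := by
    simp only [Φ, c.per s (s1 hs), linkc_per, linkb_dper c (s1 hs)]
    ring
  have nτ (s : ℝ) : ‖exp (I * θ true s)‖ = 1 := by simpa using (linkb_norm c 1 s).1
  have re0 (s : ℝ) : (G (exp (I * θ true s)) + log (deriv (θ true) s)).re = 0 := by
    have := congrArg re (geoc_bd hη hm hθ h true s)
    simp only [tau, rad, if_true, ofReal_one, one_mul, norm_mul, nτ, ofReal_re, zero_sub,
      neg_re] at this
    rw [norm_exp, Real.log_exp] at this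
    rw [add_re, this, neg_add_cancel]
  have im0 (s : ℝ) : (Φ s).im = 0 := by
    simp only [Φ, sub_im, c.real, I_mul_im, re0, ofReal_im, sub_zero]
  have dΦ (s : ℝ) : deriv (θ true) s *
      (1 + ((exp (I * θ true s) * deriv G (exp (I * θ true s))).re : ℝ)) = deriv Φ s + 1 := by
    have dL := ((an (s1 (r s))).deriv.clog (sl (s1 (r s)))).differentiableAt.hasDerivAt
    have dA := (anG (s2 (r s))).differentiableAt.hasDerivAt.comp (s : ℂ) (dτ (s1 (r s)))
    have e1 := geoc_lin imCLM dL fun t => by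
      rw [top3_dreal hη c, ← ofReal_log (hm.le.trans (c.lo _ (basek_re hη t))), imCLM_apply,
        ofReal_im]
    have e2 := geoc_lin reCLM (dA.add dL) re0
    have e3 : deriv Φ s = _ := (((an (s1 (r s))).differentiableAt.hasDerivAt.sub
      ((dA.add dL).const_mul I)).sub (hasDerivAt_id _)).deriv
    have e4 := basek_dre hη c s
    rw [e3]
    simp only [imCLM_apply, reCLM_apply] at e1 e2
    refine Complex.ext ?_ ?_
    · simp [e1, e4]
      ring
    · rw [add_im, sub_im, sub_im, I_mul_im, e2]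
      simp [e4]
  have cΦ : Continuous fun s : ℝ => deriv Φ s := continuous_iff_continuousAt.2 fun s =>
    (aΦ (r s)).deriv.continuousAt.comp continuous_ofReal.continuousAt
  have kk (k : ℤ) : kap (Sfun θ H) θ lam k / (I * k) =
      if k = 0 then 0 else fc (fun s => Φ s) k := by
    split_ifs with hk
    · simp [hk]
    · rw [kap_eq hη hm hM hθ hH hδ hG h, funext dΦ, linkb_add cΦ continuous_const, geoc_one hk,
        add_zero, fc_deriv (f := fun s => Φ s)
          (fun s => (aΦ (r s)).differentiableAt.hasDerivAt.comp_ofReal) cΦ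
          (by simpa using pΦ 0 (r 0)),
        mul_div_cancel_left₀ _ (mul_ne_zero I_ne_zero (Int.cast_ne_zero.2 hk))]
  have vt (s : ℝ) : vth (kap (Sfun θ H) θ lam) s = s + Φ s - fc (fun s => Φ s) 0 := by
    obtain ⟨a, b⟩ := fs_fc_strip (neg_neg_of_pos y0) y0
      (fun s hs => (aΦ hs).differentiableAt.differentiableWithinAt) pΦ (r s)
    rw [fs, a.of_norm.tsum_eq_add_tsum_ite 0] at b
    simp only [Int.cast_zero, mul_zero, zero_mul, exp_zero, mul_one] at b
    simp only [vth, fs, kk, ite_mul, zero_mul]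
    linear_combination b
  have f0 : (fc (fun s => Φ s) 0).im = 0 := by
    have := fc_conj (fun s => Φ s) 0
    simp only [conj_eq_iff_im.2 (im0 _), neg_zero] at this
    exact conj_eq_iff_im.1 this.symm
  have tg (s : ℝ) : exp (I * vth (kap (Sfun θ H) θ lam) s) = -I * exp (-(I * fc (fun s => Φ s) 0)) *
      (exp (G (exp (I * θ true s))) * (I * exp (I * θ true s) * deriv (θ true) s)) := by
    rw [vt, show I * (s + Φ s - fc (fun s => Φ s) 0) = -(I * fc (fun s => Φ s) 0) +
      (G (exp (I * θ true s)) + (I * θ true s + log (deriv (θ true) s))) by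
        simp only [Φ]; linear_combination (-G (exp (I * θ true s)) - log (deriv (θ true) s)) * I_mul_I,
      exp_add, exp_add, exp_add, exp_log (slitPlane_ne_zero (sl (s1 (r s))))]
    linear_combination (exp (-(I * fc (fun s => Φ s) 0)) * exp (G (exp (I * θ true s))) *
      exp (I * θ true s) * deriv (θ true) s) * I_mul_I
  refine ⟨_, ?_, tg, ?_, fun F hF p q => ?_⟩
  · rw [norm_mul, norm_neg, norm_I, one_mul, norm_exp]
    simp [f0]
  · have := linkd_chg hη hθ H0 (w := fun z => exp (G z))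
      (fun z hz => (anG (cann_sub hδ hz)).continuousAt.cexp.continuousWithinAt) true (-1)
    simp only [tau, rad, if_true, ofReal_one, one_mul, Int.cast_neg, Int.cast_one, mul_neg, mul_one,
      neg_mul, neg_neg] at this
    rw [Cp, funext tg, lc, ← this, ← linkd_smul (_ * I)]
    exact congrArg (fc · 0) (funext fun s => by ring)
  · rw [chord, funext tg, intervalIntegral.integral_const_mul,
      intervalIntegral.integral_eq_sub_of_hasDerivAt (f := fun s : ℝ => F (exp (I * θ true s)))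
        (fun s _ => (((hF _ (s2 (r s))).comp (s : ℂ) (dτ (s1 (r s)))).comp_ofReal).congr_deriv
          (by ring))]
    have c1 : Continuous fun s : ℝ => exp (I * θ true s) := (continuous_const.mul (linkb_c hη c).1).cexp
    exact ((hG.continuousOn.comp_continuous c1 fun s => s2 (r s)).cexp.mul
      ((continuous_const.mul c1).mul (linkb_c hη c).2)).intervalIntegrable _ _

end StekIso
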