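import Pool.Agent.Lib.MP_fa022d_an.Defs6
import Pool.Agent.Lib.MP_fa022d_an.Top1
import Pool.Agent.Lib.MP_fa022d_an.Four2

open Set Filter Topology Metric BoundedContinuousFunction Complex

noncomputable section
namespace StekIso

theorem geoe_norm (s : ℂ) : ‖exp (I * s)‖ = Real.exp (-s.im) := by
  rw [norm_exp]; simp

theorem geoe_mem {H δ : ℝ} {s : ℂ} (hs : s.im ∈ Ioo (-δ) (H + δ)) : exp (I * s) ∈ ann H δ := by
  constructor <;> rw [geoe_norm, Real.exp_lt_exp] <;> linarith [hs.1, hs.2]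

theorem geoe_ne {H δ : ℝ} {z : ℂ} (hz : z ∈ ann H δ) : z ≠ 0 :=
  norm_pos_iff.1 ((Real.exp_pos _).trans hz.1)

theorem geoe_log {H δ : ℝ} {z : ℂ} (hz : z ∈ ann H δ) :
    -Real.log ‖z‖ ∈ Ioo (-δ) (H + δ) := by
  have p := norm_pos_iff.2 (geoe_ne hz)
  have h1 := (Real.lt_log_iff_exp_lt p).2 hz.1
  have h2 := (Real.log_lt_iff_lt_exp p).2 hz.2
  constructor <;> linarith

theorem geoe_par {z : ℂ} (hz : z ≠ 0) : ∃ s : ℂ, exp (I * s) = z ∧ s.im = -Real.log ‖z‖ :=
  ⟨-I * log z, by rw [← mul_assoc, mul_neg, I_mul_I, neg_neg, one_mul, exp_log hz],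
    by simp [log_re]⟩

theorem geoe_pow {z : ℂ} (hz : z ≠ 0) (k : ℤ) : ‖z ^ k‖ = Real.exp (k * Real.log ‖z‖) := by
  rw [norm_zpow, ← Real.log_zpow, Real.exp_log (zpow_pos (norm_pos_iff.2 hz) k)]

theorem geoe_term (c : ℂ) {z : ℂ} (hz : z ≠ 0) (k : ℤ) :
    ‖c / (k + 1) * z ^ (k + 1)‖ ≤ ‖c‖ * Real.exp (k * Real.log ‖z‖) * ‖z‖ := by
  have h : ‖c / (k + 1)‖ ≤ ‖c‖ := by
    by_cases e : k + 1 = 0
    · have : (k : ℂ) + 1 = 0 := by exact_mod_cast e
      simp [this]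
    · rw [norm_div]
      refine div_le_self (norm_nonneg _) ?_
      have : (1 : ℝ) ≤ |((k + 1 : ℤ) : ℝ)| := by exact_mod_cast Int.one_le_abs e
      rwa [show (k : ℂ) + 1 = ((k + 1 : ℤ) : ℂ) by push_cast; rfl, norm_intCast]
  rw [zpow_add_one₀ hz, norm_mul, norm_mul, geoe_pow hz, mul_assoc]
  exact mul_le_mul_of_nonneg_right h (by positivity)

theorem geoe_diff {H δ : ℝ} {g : ℂ → ℂ} (hg : DifferentiableOn ℂ g (ann H δ)) :
    DifferentiableOn ℂ (fun s => g (exp (I * s))) {s | s.im ∈ Ioo (-δ) (H + δ)} :=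
  hg.comp (f := fun s => exp (I * s)) (by fun_prop) fun _ hs => geoe_mem hs

theorem geoe_per (g : ℂ → ℂ) (s : ℂ) : g (exp (I * (s + 2 * Real.pi))) = g (exp (I * s)) := by
  rw [mul_add, exp_add, mul_comm I (2 * Real.pi : ℂ), exp_two_pi_mul_I, mul_one]

theorem geoe_cont {H δ : ℝ} (hH : 0 < H) (hδ : 0 < δ) {g : ℂ → ℂ}
    (hg : DifferentiableOn ℂ g (ann H δ)) : Continuous fun x : ℝ => g (exp (I * x)) :=
  hg.continuousOn.comp_continuous (by fun_prop) fun x =>
    geoe_mem (by rw [ofReal_im]; constructor <;> linarith)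

theorem geoe_sub {f g : ℝ → ℂ} (hf : Continuous f) (hg : Continuous g) (k : ℤ) :
    fc (fun s => f s - g s) k = fc f k - fc g k := by
  simp only [fc, sub_mul]
  rw [intervalIntegral.integral_sub (Continuous.intervalIntegrable (by fun_prop) _ _)
    (Continuous.intervalIntegrable (by fun_prop) _ _), mul_sub]

/-- Laurent expansion of `exp G` (`fs_fc_strip`, `fc_shift` for `s ↦ exp (G (exp (i s)))`) -/
theorem prim_deriv {H δ : ℝ} (hH : 0 < H) (hδ : 0 < δ) {G : ℂ → ℂ}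
    (hG : DifferentiableOn ℂ G (ann H δ)) :
    ∀ z ∈ ann H δ, HasDerivAt (prim G) (exp (G z) - lc G (-1) / z) z := by
  intro z hz
  have key := fun s hs => fs_fc_strip (f := fun s => exp (G (exp (I * s)))) (a := -δ) (b := H + δ)
    (by linarith) (by linarith) (geoe_diff hG.cexp)
    (fun s _ => geoe_per (fun w => exp (G w)) s) (s := s) hs
  have sm : ∀ y ∈ Ioo (-δ) (H + δ), Summable fun k : ℤ => ‖lc G k‖ * Real.exp (k * -y) :=
    fun y hy => (key (I * y) (by simpa using hy)).1.congr fun k => by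
      rw [norm_mul, norm_exp]
      congr 2
      simp
  have hl := geoe_log hz
  obtain ⟨a, ha, ha'⟩ := exists_between hl.1
  obtain ⟨b, hb, hb'⟩ := exists_between hl.2
  have hU : IsOpen (ann (a + b) (-a)) := isOpen_ann _ _
  have z0 := geoe_ne hz
  have zU : z ∈ ann (a + b) (-a) := by
    obtain ⟨s, rfl, hs⟩ := geoe_par z0
    exact geoe_mem (by rw [hs]; constructor <;> linarith)
  have hu := ((sm a ⟨ha, by linarith⟩).add (sm b ⟨by linarith, hb'⟩)).mul_right (Real.exp (-a))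
  have hF : ∀ k : ℤ, DifferentiableOn ℂ (fun w : ℂ => lc G k / (k + 1) * w ^ (k + 1))
      (ann (a + b) (-a)) := fun k w hw =>
    ((differentiableAt_zpow.2 (Or.inl (geoe_ne hw))).const_mul _).differentiableWithinAt
  have hB : ∀ (k : ℤ) (w : ℂ), w ∈ ann (a + b) (-a) → ‖lc G k / (k + 1) * w ^ (k + 1)‖ ≤
      (‖lc G k‖ * Real.exp (k * -a) + ‖lc G k‖ * Real.exp (k * -b)) * Real.exp (-a) := by
    intro k w hw
    refine (geoe_term _ (geoe_ne hw) k).trans (mul_le_mul ?_ hw.2.le (norm_nonneg _)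
      (by positivity))
    rw [← mul_add]
    refine mul_le_mul_of_nonneg_left ?_ (norm_nonneg _)
    have l := geoe_log hw
    rcases le_total 0 (k : ℝ) with h | h
    · exact le_add_of_le_of_nonneg (Real.exp_le_exp.2 (by nlinarith [l.1])) (Real.exp_pos _).le
    · exact le_add_of_nonneg_of_le (Real.exp_pos _).le (Real.exp_le_exp.2 (by nlinarith [l.2]))
  have d := (differentiableOn_tsum_of_summable_norm hu hF hU hB).differentiableAt (hU.mem_nhds zU)
  have e := hasSum_deriv_of_summable_norm hu hF hU hB zU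
  obtain ⟨s, rfl, hs⟩ := geoe_par z0
  have k1 := key s (hs ▸ hl)
  have k2 : HasSum (fun k : ℤ => lc G k * exp (I * s) ^ k) (exp (G (exp (I * s)))) := by
    have := k1.1.of_norm.hasSum
    rw [show ∑' k : ℤ, _ = _ from k1.2] at this
    exact this.congr_fun fun k => by rw [← exp_int_mul, ← mul_assoc (k : ℂ), mul_comm (k : ℂ)]; rfl
  have k3 := k2.sub (hasSum_ite_eq (-1 : ℤ) (lc G (-1) / exp (I * s)))
  rw [← e.unique (k3.congr_fun fun k => ?_)]
  · exact d.hasDerivAt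
  · rw [((hasDerivAt_zpow (k + 1) _ (Or.inl z0)).const_mul _).deriv]
    split_ifs with h
    · simp [h, div_eq_mul_inv]
    · have : (k : ℂ) + 1 ≠ 0 := by exact_mod_cast (by omega : k + 1 ≠ 0)
      push_cast
      rw [add_sub_cancel_right, sub_zero, ← mul_assoc, div_mul_cancel₀ _ this]

theorem geoe_bd {H δ M : ℝ} (hH : 0 < H) (hδ : 0 < δ) {g : ℂ → ℂ}
    (hg : DifferentiableOn ℂ g (ann H δ)) (hM : ∀ z ∈ ann H δ, ‖g z‖ ≤ M) {z : ℂ}
    (hz : z ∈ ann H (δ / 2)) (k : ℤ) :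
    ‖fc (fun x => g (exp (I * x))) k / (k + 1) * z ^ (k + 1)‖ ≤
      M * Real.exp (δ / 2) * ex (δ / 4) k := by
  have l := geoe_log hz
  obtain ⟨y, hy, e⟩ : ∃ y ∈ Ioo (-δ) (H + δ), k * y + k * Real.log ‖z‖ = -(δ / 4) * |(k : ℝ)| := by
    rcases le_total 0 (k : ℝ) with h | h
    · exact ⟨-Real.log ‖z‖ - δ / 4, ⟨by linarith [l.1], by linarith [l.2]⟩,
        by rw [abs_of_nonneg h]; ring⟩
    · exact ⟨-Real.log ‖z‖ + δ / 4, ⟨by linarith [l.1], by linarith [l.2]⟩,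
        by rw [abs_of_nonpos h]; ring⟩
  have b : ‖fc (fun x : ℝ => g (exp (I * (x + I * y)))) k‖ ≤ M :=
    norm_fc_le (fun x => hM _ (geoe_mem (by simpa using hy))) k
  refine (geoe_term _ (geoe_ne hz) k).trans ?_
  rw [fc_shift (f := fun s => g (exp (I * s))) (by linarith) (by linarith) hy (geoe_diff hg)
    (fun s _ => geoe_per g s) k, norm_mul, norm_real, Real.norm_eq_abs, Real.abs_exp, ex, ← e,
    Real.exp_add]
  have M0 : 0 ≤ M := (norm_nonneg _).trans b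
  calc _ ≤ Real.exp (k * y) * M * Real.exp (k * Real.log ‖z‖) * Real.exp (δ / 2) := by
        gcongr
        exact hz.2.le
    _ = _ := by ring

theorem geoe_exp {a b : ℂ} {D : ℝ} (ha : ‖a‖ ≤ D) (hb : ‖b‖ ≤ D) :
    ‖exp a - exp b‖ ≤ Real.exp D * ‖a - b‖ :=
  (convex_closedBall (0 : ℂ) D).norm_image_sub_le_of_norm_hasDerivWithin_le (f' := exp)
    (fun x _ => (hasDerivAt_exp x).hasDerivWithinAt)
    (fun x hx => (norm_exp_le_exp_norm x).trans (Real.exp_le_exp.2 (mem_closedBall_zero_iff.1 hx)))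
    (mem_closedBall_zero_iff.2 hb) (mem_closedBall_zero_iff.2 ha)

theorem prim_lip {δ D : ℝ} (hδ : 0 < δ) : ∃ C ≥ 0, ∀ (H κ : ℝ) (G G' : ℂ → ℂ), 0 < H →
    DifferentiableOn ℂ G (ann H δ) → DifferentiableOn ℂ G' (ann H δ) →
    (∀ z ∈ ann H δ, ‖G z‖ ≤ D ∧ ‖G' z‖ ≤ D ∧ ‖G z - G' z‖ ≤ κ) →
    ∀ z ∈ ann H (δ / 2), ‖prim G z - prim G' z‖ ≤ C * κ := by
  have s : Summable (ex (δ / 4)) := by
    simpa using summable_ex (η := δ / 4) (by positivity) 0
  refine ⟨Real.exp D * Real.exp (δ / 2) * ∑' k, ex (δ / 4) k,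
    mul_nonneg (by positivity) (tsum_nonneg fun k => (ex_pos _ k).le),
    fun H κ G G' hH hG hG' h z hz => ?_⟩
  have sm : ∀ {G : ℂ → ℂ}, DifferentiableOn ℂ G (ann H δ) → (∀ z ∈ ann H δ, ‖G z‖ ≤ D) →
      Summable fun k : ℤ => lc G k / (k + 1) * z ^ (k + 1) := fun hG h =>
    Summable.of_norm_bounded (s.mul_left _) (geoe_bd hH hδ hG.cexp (fun w hw =>
      (norm_exp_le_exp_norm _).trans (Real.exp_le_exp.2 (h w hw))) hz)
  rw [prim, prim, ← (sm hG fun w hw => (h w hw).1).tsum_sub (sm hG' fun w hw => (h w hw).2.1)]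
  refine (tsum_of_norm_bounded (s.hasSum.mul_left (Real.exp D * κ * Real.exp (δ / 2)))
    fun k => ?_).trans_eq (by ring)
  have := geoe_bd hH hδ (hG.cexp.sub hG'.cexp) (M := Real.exp D * κ) (fun w hw =>
    (geoe_exp (h w hw).1 (h w hw).2.1).trans
      (mul_le_mul_of_nonneg_left (h w hw).2.2 (Real.exp_pos D).le)) hz k
  simp only [Pi.sub_apply] at this
  rwa [geoe_sub (geoe_cont hH hδ hG.cexp) (geoe_cont hH hδ hG'.cexp), sub_div, sub_mul] at this

theorem HasPrim.res {H δ : ℝ} (hH : 0 < H) (hδ : 0 < δ) {G F : ℂ → ℂ} (h : HasPrim G F H δ) :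
    lc G (-1) = 0 := by
  rw [lc, fc]
  refine mul_eq_zero_of_right _ ?_
  by_cases hi : IntervalIntegrable (fun s : ℝ => exp (G (exp (I * s))) *
    exp (-(I * (-1 : ℤ) * s))) MeasureTheory.volume 0 (2 * Real.pi)
  · rw [intervalIntegral.integral_eq_sub_of_hasDerivAt (f := fun s : ℝ => F (exp (I * s)) * -I)
      (fun s _ => ?_) hi]
    · have := geoe_per F 0
      rw [zero_add] at this
      push_cast
      rw [this, sub_self]
    · have m : exp (I * s) ∈ ann H δ := geoe_mem (by rw [ofReal_im]; constructor <;> linarith)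
      refine ((((h _ m).comp (s : ℂ) (four2_hd I s)).mul_const (-I)).comp_ofReal).congr_deriv ?_
      rw [show -(I * (-1 : ℤ) * s) = I * s by push_cast; ring]
      linear_combination (-(exp (G (exp (I * s))) * exp (I * s))) * I_mul_I
  · exact intervalIntegral.integral_undef hi

/-- the annulus is connected -/
theorem ann_const {H δ : ℝ} (hH : 0 < H) (hδ : 0 ≤ δ) {F : ℂ → ℂ}
    (h : ∀ z ∈ ann H δ, HasDerivAt F 0 z) : ∃ b, ∀ z ∈ ann H δ, F z = b := by
  have e : ann H δ = (fun s => exp (I * s)) '' {s | s.im ∈ Ioo (-δ) (H + δ)} := by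
    refine Subset.antisymm (fun z hz => ?_) (image_subset_iff.2 fun s hs => geoe_mem hs)
    obtain ⟨s, h1, h2⟩ := geoe_par (geoe_ne hz)
    exact ⟨s, show s.im ∈ _ from h2 ▸ geoe_log hz, h1⟩
  have c : IsPreconnected (ann H δ) := e ▸ ((convex_halfSpace_im_gt (-δ)).inter
    (convex_halfSpace_im_lt (H + δ))).isPreconnected.image _ (by fun_prop)
  exact (isOpen_ann H δ).exists_is_const_of_deriv_eq_zero c
    (fun z hz => (h z hz).differentiableAt.differentiableWithinAt) fun z hz => (h z hz).deriv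

theorem lc_add_const (G G' : ℂ → ℂ) (a : ℂ) (h : ∀ z, ‖z‖ = 1 → G z = G' z + a) (k : ℤ) :
    lc G k = exp a * lc G' k := by
  have e : ∀ x : ℝ, exp (G (exp (I * x))) = exp a * exp (G' (exp (I * x))) := fun x => by
    rw [h _ (by simp [geoe_norm]), exp_add, mul_comm]
  simp only [lc, fc, e, mul_assoc (exp a), intervalIntegral.integral_const_mul]
  ring

end StekIso
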