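import Pool.Agent.Lib.MP_fa022d_an.GeoB
import Pool.Agent.Lib.MP_fa022d_an.GeoC
import Pool.Agent.Lib.MP_fa022d_an.GeoE
import Pool.Agent.Lib.MP_fa022d_an.KerF
import Pool.Agent.Lib.MP_fa022d_an.KExt

open Set Filter Topology Metric BoundedContinuousFunction Complex

noncomputable section
namespace StekIso

theorem Hof_base (B : GeoBase) (η : Pos) :
    Hof B.toBase ((0 : V η), (B.lam0 : ℂ)) = B.H0 := by
  rw [Hof, thOf_zero]
  exact (Fits.modulus B.η0_pos B.m_pos B.cm (by linarith [B.big]) one_pos B.δ0_pos B.diffG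
    B.fits).1

theorem geomain_cauchy {η κ : ℝ} (hη : 0 < η) {f g : ℂ → ℂ} (hf : DifferentiableOn ℂ f (strip η))
    (hg : DifferentiableOn ℂ g (strip η)) (h : ∀ s ∈ strip η, ‖f s - g s‖ ≤ κ) (s : ℝ) :
    ‖deriv f s - deriv g s‖ ≤ κ / (η / 2) := by
  have sub : closedBall (s : ℂ) (η / 2) ⊆ strip η := fun z hz => by
    have h1 := abs_im_le_norm (z - s)
    rw [mem_closedBall, dist_eq_norm] at hz
    rw [sub_im, ofReal_im, sub_zero] at h1
    show |z.im| < η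
    linarith
  have n := (isOpen_strip η).mem_nhds (four3_mem0 hη s)
  rw [← deriv_sub (hf.differentiableAt n) (hg.differentiableAt n)]
  exact norm_deriv_le_of_forall_mem_sphere_norm_le (half_pos hη)
    (((hf.sub hg).mono sub).mono closure_ball_subset_closedBall).diffContOnCl
    fun z hz => h z (sub (sphere_subset_closedBall hz))

/-- comparison of an arbitrary solution with a normalised one -/
theorem geomain_gen {η m M : ℝ} (hη : 0 < η) (hm : 0 < m) {θ : Bool → ℂ → ℂ}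
    (hθ : ∀ j, CMap η m M (θ j)) {lam H c δ : ℝ} {G G' : ℂ → ℂ} (hH : 0 < H) (hc : 0 < c)
    (hδ : 0 < δ) (hG : DifferentiableOn ℂ G (ann H δ)) (hG' : DifferentiableOn ℂ G' (ann H δ))
    (h : Fits θ lam H G c) (h' : Fits θ lam H G' 1) :
    ∃ u : ℂ, ‖u‖ = 1 ∧ (∀ z ∈ ann H δ, exp (G z) = c * u * exp (G' z)) ∧
      (∀ s : ℝ, exp (G (exp (I * θ true s))) = c * u * exp (G' (exp (I * θ true s)))) ∧
      lc G (-1) = c * u * lc G' (-1) := by
  obtain ⟨t, ht⟩ := Fits.unique hη hm hθ hH hc hδ hG hG' h h'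
  have e : exp (Real.log c + I * t) = c * exp (I * t) := by
    rw [exp_add, ← ofReal_exp, Real.exp_log hc]
  have one : ∀ z : ℂ, ‖z‖ = 1 → z ∈ ann H δ := fun z hz =>
    cann_sub hδ ⟨hz ▸ Real.exp_le_one_iff.2 (by linarith), hz.le⟩
  have k : ∀ z ∈ ann H δ, exp (G z) = c * exp (I * t) * exp (G' z) := fun z hz => by
    rw [ht z hz, add_assoc, exp_add, e, mul_comm]
  refine ⟨exp (I * t), by rw [mul_comm, norm_exp_ofReal_mul_I], k, fun s => k _ (one _ ?_), ?_⟩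
  · simpa using (linkb_norm (hθ true) 1 s).1
  · rw [lc_add_const G G' _ (fun z hz => (ht z (one z hz)).trans (add_assoc _ _ _)), e]

/-- Use the strip `η / 2` for the Lipschitz bounds (`KerOK.thlip`, `CMap.mono`); `δ` is a small
multiple of `B.m * η`, `r` is so small that `|Hv - H0| ≤ δ` (`KerOK.Hlip`, and `Hof` is
`-lam +` a function of `v`); `KerOK.sfun` turns `kapV` into `kap (Sfun ..)`. -/
theorem geo_ok (B : GeoBase) {η : Pos} (hη : 12 * η.1 ≤ B.η0) {C : ℝ}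
    (hK : KerOK B.toBase η C) : ∃ r δ C', GeoOK B η r δ C' := by
  have h0 := η.2
  have hm := B.m_pos
  have hM : 0 < B.M := hm.trans_le (kerf_mM B.toBase)
  have hs : B.M * η.1 ≤ 1 / 24 := by nlinarith [B.small]
  have hms : B.m * η.1 ≤ 1 / 24 := (mul_le_mul_of_nonneg_right (kerf_mM B.toBase) h0.le).trans hs
  have h2 := half_pos h0
  have hm2 := half_pos hm
  have hM2 : 2 * B.M * (η.1 / 2) ≤ 1 / 2 := by linarith
  have hC := hK.one_le
  have big := B.big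
  obtain ⟨C1, -, k1⟩ := Gser_ok (Λ := |B.lam0| + 1) h2 hm2 hM2
  obtain ⟨C2, p2, k2⟩ := Gser_lip (Λ := |B.lam0| + 1) h2 hm2 hM2
  obtain ⟨C3, p3, k3⟩ := cth_lip (Λ := |B.lam0| + 1) h2 hm2 hM2
  obtain ⟨δ, hδ⟩ : ∃ δ : ℝ, B.m / 2 * (η.1 / 2) / 8 = 5 * δ := ⟨B.m / 2 * (η.1 / 2) / 40, by ring⟩
  have d0 : 0 < δ := by nlinarith [mul_pos hm h0]
  have d1 : δ ≤ 1 / 2 := by nlinarith
  obtain ⟨C4, p4, k4⟩ := prim_lip (δ := 4 * δ) (D := C1) (by positivity)
  have dK : 0 < δK B.toBase η := by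
    have := one_le_K2 η
    unfold δK
    positivity
  obtain ⟨r, r0, r1, r2, r3⟩ : ∃ r > 0, r ≤ δK B.toBase η ∧ r ≤ 1 ∧ (C + 1) * r ≤ δ :=
    ⟨min (δK B.toBase η) (min 1 (δ / (C + 1))), by positivity, min_le_left _ _,
      (min_le_right _ _).trans (min_le_left _ _), by
        rw [← le_div_iff₀' (by positivity)]
        exact (min_le_right _ _).trans (min_le_right _ _)⟩
  have nv : ∀ v ∈ RB η r, ‖v‖ < δK B.toBase η := fun v hv => hv.2.trans_le r1
  have cm := fun v (hv : v ∈ RB η r) => hK.cmap v (nv v hv) hv.1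
  have cm2 := fun v (hv : v ∈ RB η r) j => (cm v hv j).mono (half_le_self h0.le)
  have bl : ∀ lam : ℝ, |lam - B.lam0| < r → |lam| ≤ |B.lam0| + 1 := fun lam hl => by
    linarith [abs_sub_abs_le_abs_sub lam B.lam0]
  have nH : ∀ v ∈ RB η r, ∀ lam : ℝ, |lam - B.lam0| < r →
      ‖Hof B.toBase (v, (lam : ℂ)) - B.H0‖ ≤ δ := fun v hv lam hl => by
    have a := hK.Hlip v (nv v hv) lam
    have b : Hof B.toBase ((0 : V η), (lam : ℂ)) - B.H0 = ((B.lam0 - lam : ℝ) : ℂ) := by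
      rw [← Hof_base B η]
      simp only [Hof, Hfun]
      push_cast
      ring
    have c := norm_add_le (Hof B.toBase (v, (lam : ℂ)) - Hof B.toBase ((0 : V η), (lam : ℂ)))
      (Hof B.toBase ((0 : V η), (lam : ℂ)) - B.H0)
    rw [sub_add_sub_cancel, b, norm_real, Real.norm_eq_abs, abs_sub_comm] at c
    nlinarith [hv.2, norm_nonneg v]
  have mH : ∀ v ∈ RB η r, ∀ lam : ℝ, |lam - B.lam0| < r →
      Hof B.toBase (v, (lam : ℂ)) = Hv B.toBase lam v ∧ |Hv B.toBase lam v - B.H0| ≤ δ :=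
    fun v hv lam hl => ⟨Complex.ext rfl (hK.Hreal v (nv v hv) hv.1 lam), by
      have := abs_re_le_norm (Hof B.toBase (v, (lam : ℂ)) - B.H0)
      rw [sub_re, ofReal_re] at this
      exact this.trans (nH v hv lam hl)⟩
  have H2 : ∀ v ∈ RB η r, ∀ lam : ℝ, |lam - B.lam0| < r → 2 ≤ Hv B.toBase lam v :=
    fun v hv lam hl => by linarith [(abs_le.1 (mH v hv lam hl).2).1]
  have s5 : ∀ v ∈ RB η r, ∀ lam : ℝ, |lam - B.lam0| < r →
      ann B.H0 (4 * δ) ⊆ ann (Hv B.toBase lam v) (B.m / 2 * (η.1 / 2) / 8) := fun v hv lam hl =>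
    top1_mono (by linarith [(abs_le.1 (mH v hv lam hl).2).1]) (by linarith)
  have s24 : ann B.H0 (2 * δ) ⊆ ann B.H0 (4 * δ) := ann_mono (by linarith)
  have ok : ∀ v ∈ RB η r, ∀ lam : ℝ, |lam - B.lam0| < r →
      DifferentiableOn ℂ (Gv B.toBase lam v) (ann B.H0 (4 * δ)) ∧
      (∀ z ∈ ann B.H0 (4 * δ), ‖Gv B.toBase lam v z‖ ≤ C1) ∧
      Fits (thOf B.toBase v) lam (Hv B.toBase lam v) (Gv B.toBase lam v) 1 := fun v hv lam hl => by
    obtain ⟨-, a, b, c⟩ := k1 _ lam (cm2 v hv) (bl lam hl) (H2 v hv lam hl)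
    have s := (s5 v hv lam hl).trans (ann_mono (δ' := B.m / 2 * (η.1 / 2) / 2) (by linarith))
    exact ⟨a.mono s, fun z hz => b z (s hz), c⟩
  have pd := fun v (hv : v ∈ RB η r) (lam : ℝ) (hl : |lam - B.lam0| < r) =>
    prim_deriv (H := B.H0) (δ := 2 * δ) (by linarith) (by positivity) ((ok v hv lam hl).1.mono s24)
  have s1 := fun v (hv : v ∈ RB η r) (lam : ℝ) (hl : |lam - B.lam0| < r) =>
    ann_sub d0.le (mH v hv lam hl).2
  have tg : ∀ v ∈ RB η r, ∀ lam : ℝ, |lam - B.lam0| < r → ∃ a : ℂ, ‖a‖ = 1 ∧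
      (∀ s : ℝ, exp (I * vth (kapV B.toBase (v, (lam : ℂ))) s) =
        a * vel B.toBase (Gv B.toBase lam v) v s) ∧
      Cp (kapV B.toBase (v, (lam : ℂ))) = a * I * lc (Gv B.toBase lam v) (-1) ∧
      (∀ F, HasPrim (Gv B.toBase lam v) F (Hv B.toBase lam v) δ → ∀ p q : ℝ,
        chord (kapV B.toBase (v, (lam : ℂ))) p q =
          a * (F (tv B.toBase v p) - F (tv B.toBase v q))) ∧ rot B.toBase lam v = a := by
    intro v hv lam hl
    have e : kapV B.toBase (v, (lam : ℂ)) =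
        kap (Sfun (thOf B.toBase v) (Hv B.toBase lam v)) (thOf B.toBase v) lam := by
      rw [kapV, hK.sfun (v, Hof B.toBase (v, (lam : ℂ))) ⟨mem_ball_zero_iff.2 (nv v hv),
        mem_ball_iff_norm.2 ((nH v hv lam hl).trans_lt (by linarith))⟩, (mH v hv lam hl).1]
    obtain ⟨a, a1, a2, a3, a4⟩ := tangent_eq h2 hm2 hM2 (cm2 v hv) (H2 v hv lam hl) d0
      ((ok v hv lam hl).1.mono ((s1 v hv lam hl).trans s24)) (ok v hv lam hl).2.2
    rw [← e] at a2 a3 a4
    refine ⟨a, a1, a2, a3, a4, ?_⟩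
    have a0 : exp (I * vth (kapV B.toBase (v, (lam : ℂ))) 0) =
      a * vel B.toBase (Gv B.toBase lam v) v 0 := a2 0
    have ne := exp_ne_zero (I * vth (kapV B.toBase (v, (lam : ℂ))) 0)
    rw [rot, a0, mul_div_cancel_right₀ _ (right_ne_zero_of_mul (a0 ▸ ne))]
  have pr : ∀ v ∈ RB η r, ∀ lam : ℝ, |lam - B.lam0| < r → Clo B.toBase lam v →
      HasPrim (Gv B.toBase lam v) (Fv B.toBase lam v) B.H0 (2 * δ) := fun v hv lam hl hc z hz => by
    obtain ⟨a, a1, -, a3, -⟩ := tg v hv lam hl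
    have a0 : a ≠ 0 := fun e => by simp [e] at a1
    have z0 : lc (Gv B.toBase lam v) (-1) = 0 :=
      (mul_eq_zero.1 (a3.symm.trans hc)).resolve_left (mul_ne_zero a0 I_ne_zero)
    have := pd v hv lam hl z hz
    rwa [z0, zero_div, sub_zero] at this
  have gn : ∀ v ∈ RB η r, ∀ lam : ℝ, |lam - B.lam0| < r → ∀ (G : ℂ → ℂ) (H c δ' : ℝ), 0 < H →
      0 < c → 0 < δ' → DifferentiableOn ℂ G (ann H δ') → Fits (thOf B.toBase v) lam H G c →
      H = Hv B.toBase lam v ∧ ∃ u : ℂ, ‖u‖ = 1 ∧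
        (∀ z ∈ ann H (min δ' δ), exp (G z) = c * u * exp (Gv B.toBase lam v z)) ∧
        (∀ s : ℝ, vel B.toBase G v s = c * u * vel B.toBase (Gv B.toBase lam v) v s) ∧
        lc G (-1) = c * u * lc (Gv B.toBase lam v) (-1) := by
    intro v hv lam hl G H c δ' hH hc hd hG hF
    obtain rfl : H = Hv B.toBase lam v :=
      (congrArg re (Fits.modulus h2 hm2 (cm2 v hv) hH hc hd hG hF).1).symm
    obtain ⟨u, u1, u2, u3, u4⟩ := geomain_gen h2 hm2 (cm2 v hv) hH hc (lt_min hd d0)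
      (hG.mono (ann_mono (min_le_left _ _))) ((ok v hv lam hl).1.mono
        (((ann_mono (min_le_right _ _)).trans (s1 v hv lam hl)).trans s24)) hF (ok v hv lam hl).2.2
    refine ⟨rfl, u, u1, u2, fun s => ?_, u4⟩
    simp only [vel, tv, u3 s, mul_assoc]
  have sn0 : ∀ w : V η, 0 ≤ sn w := fun w =>
    tsum_nonneg fun b => mul_nonneg (norm_nonneg _) (ex_pos _ _).le
  obtain ⟨E, e0, e1, e2, e3, e4, e5⟩ : ∃ E ≥ 0, B.M ≤ E ∧ B.M / (η.1 / 2 / 2) ≤ E ∧
      C2 * (B.M + 1) ≤ E ∧ C3 * (B.M + 1) ≤ E ∧ C4 * (C2 * (B.M + 1)) ≤ E := by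
    have a1 : 0 ≤ B.M / (η.1 / 2 / 2) := by positivity
    have a2 : 0 ≤ C2 * (B.M + 1) := by positivity
    have a3 : 0 ≤ C3 * (B.M + 1) := by positivity
    have a4 : 0 ≤ C4 * (C2 * (B.M + 1)) := by positivity
    exact ⟨B.M + B.M / (η.1 / 2 / 2) + C2 * (B.M + 1) + C3 * (B.M + 1) + C4 * (C2 * (B.M + 1)),
      by positivity, by linarith, by linarith, by linarith, by linarith, by linarith⟩
  refine ⟨r, δ, E, r0, d0, by linarith, e0, r1, hη, cm, fun v hv v' hv' j s => ⟨?_, ?_⟩, mH,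
    fun v hv lam hl => (ok v hv lam hl).1.mono s24,
    fun v hv lam hl z hz => (pd v hv lam hl z hz).differentiableAt.differentiableWithinAt,
    fun v hv lam hl => (ok v hv lam hl).2.2, pr, fun v hv lam hl v' hv' lam' hl' => ?_,
    fun v hv lam hl => ?_, fun v hv lam hl hc p q => ?_,
    fun v hv lam hl G H c δ' hH hc hd hG hF => ?_,
    fun v hv lam hl G F H c δ' hH hc hd hG hP hF => ?_⟩
  · exact (hK.thlip v v' (nv v hv) (nv v' hv') j s (four3_mem0 h2 s)).trans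
      (mul_le_mul_of_nonneg_right e1 (sn0 _))
  · refine (geomain_cauchy h2 (cm2 v hv j).diff (cm2 v' hv' j).diff
      (hK.thlip v v' (nv v hv) (nv v' hv') j) s).trans ?_
    rw [← div_mul_eq_mul_div]
    exact mul_le_mul_of_nonneg_right e2 (sn0 _)
  · obtain ⟨t, ht⟩ : ∃ t, t = sn (v - v') + |lam - lam'| := ⟨_, rfl⟩
    have t0 : 0 ≤ t := ht ▸ add_nonneg (sn0 _) (abs_nonneg _)
    have b1 : |lam - lam'| ≤ (B.M + 1) * t := by nlinarith [sn0 (v - v')]
    have b2 : ∀ j, ∀ s ∈ strip (η.1 / 2),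
        ‖thOf B.toBase v j s - thOf B.toBase v' j s‖ ≤ (B.M + 1) * t := fun j s hs =>
      (hK.thlip v v' (nv v hv) (nv v' hv') j s hs).trans (by nlinarith [abs_nonneg (lam - lam')])
    have g : ∀ z ∈ ann B.H0 (4 * δ),
        ‖Gv B.toBase lam v z - Gv B.toBase lam' v' z‖ ≤ C2 * ((B.M + 1) * t) := fun z hz =>
      k2 _ _ lam lam' _ (cm2 v hv) (cm2 v' hv') (bl lam hl) (bl lam' hl') b1 b2 (H2 v hv lam hl)
        (H2 v' hv' lam' hl') z (s5 v hv lam hl hz) (s5 v' hv' lam' hl' hz)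
    rw [← ht]
    refine ⟨?_, fun z hz => ⟨(g z (s24 hz)).trans ?_, ?_⟩⟩
    · have := abs_re_le_norm (Hfun (thOf B.toBase v) lam - Hfun (thOf B.toBase v') lam')
      rw [sub_re] at this
      refine (this.trans (k3 _ _ lam lam' _ (cm2 v hv) (cm2 v' hv') (bl lam hl) (bl lam' hl')
        b1 b2).1).trans ?_
      rw [← mul_assoc]
      exact mul_le_mul_of_nonneg_right e4 t0
    · rw [← mul_assoc]
      exact mul_le_mul_of_nonneg_right e3 t0
    · refine (k4 B.H0 _ _ _ (by linarith) (ok v hv lam hl).1 (ok v' hv' lam' hl').1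
        (fun w hw => ⟨(ok v hv lam hl).2.1 w hw, (ok v' hv' lam' hl').2.1 w hw, g w hw⟩) z
        (ann_mono (by linarith) hz)).trans ?_
      rw [← mul_assoc C2, ← mul_assoc]
      exact mul_le_mul_of_nonneg_right e5 t0
  · obtain ⟨a, a1, a2, -, -, a5⟩ := tg v hv lam hl
    exact a5 ▸ ⟨a1, a2⟩
  · obtain ⟨a, -, -, -, a4, a5⟩ := tg v hv lam hl
    rw [a5]
    exact a4 _ (fun z hz => pr v hv lam hl hc z (s1 v hv lam hl hz)) p q
  · obtain ⟨a, a1, a2, a3, -⟩ := tg v hv lam hl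
    obtain ⟨e, u, u1, -, u3, u4⟩ := gn v hv lam hl G H c δ' hH hc hd hG hF
    have u0 : u ≠ 0 := fun e => by simp [e] at u1
    refine ⟨e, a / u, by rw [norm_div, a1, u1, div_one], fun s => ?_, ?_⟩
    · rw [a2, u3]
      field_simp
    · rw [a3, u4]
      field_simp
  · obtain ⟨a, -, -, a3, -⟩ := tg v hv lam hl
    obtain ⟨e, u, u1, u2, -, u4⟩ := gn v hv lam hl G H c δ' hH hc hd hG hF
    have u0 : (c : ℂ) * u ≠ 0 :=
      mul_ne_zero (ofReal_ne_zero.2 hc.ne') fun e => by simp [e] at u1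
    have cl : Clo B.toBase lam v := by
      rw [Clo, a3, (mul_eq_zero.1 (u4.symm.trans (hP.res hH hd))).resolve_left u0, mul_zero]
    obtain ⟨b, hb⟩ := ann_const (F := fun z => F z - c * u * Fv B.toBase lam v z) hH
      (lt_min hd d0).le fun z hz => by
        have := (hP z (ann_mono (min_le_left _ _) hz)).sub ((pr v hv lam hl cl z
          (s1 v hv lam hl (ann_mono (min_le_right _ _) (e ▸ hz)))).const_mul (c * u))
        rwa [u2 z hz, sub_self] at this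
    exact ⟨e, cl, c * u, b, u0, _, lt_min hd d0, fun z hz => by rw [← hb z hz]; ring⟩

end StekIso
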