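import Pool.Agent.Lib.MP_fa022d_an.Defs6

/-! Definitions for the high windows. -/

open Set Filter Topology Metric BoundedContinuousFunction Complex

noncomputable section
namespace StekIso

/-- the target values with their signs -/
structure SigX (B : Base) (η : Pos) (ε lam c cut K : ℝ) (x0 : X) (sig : Bool → ℕ → Bool → ℝ) :
    Prop extends SigOK B η ε lam c cut K x0 sig where
  pos : ∀ j n, cut < wc lam j n → 2 * nB η.1 ε n ≤ sig j n true * lenf lam j - n
  neg : ∀ j n, cut < wc lam j n → sig j n false * lenf lam j - n ≤ -(2 * nB η.1 ε n)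

/-- weak norm of a direction in normalised coordinates -/
def sg1 (η : ℝ) (w : Idx → ℂ) : ℝ := ∑' b : Idx, ‖w b‖ * (beta η b.2 * ex (3 / 4 * η) b.2)
/-- the sum in `PhiOK.row` -/
def sg2 (η pos : ℝ) (w : Idx → ℂ) : ℝ :=
  ∑' b : Idx, ‖w b‖ * Real.exp (-(3 / 2 * η) * (|(b.2 : ℝ)| - pos))

end StekIso
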