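import Pool.Agent.Lib.MP_fa022d_an.HiQ
import Pool.Agent.Lib.MP_fa022d_an.HiN3
import Pool.Agent.Lib.MP_fa022d_an.SchB

/-! The spectrum above the cut. -/

open Set Filter Topology Metric BoundedContinuousFunction Complex

noncomputable section
namespace StekIso
variable {B : Base} {η : Pos} {ε lam c cut C K θ : ℝ} {sig : Bool → ℕ → Bool → ℝ} {x0 : X}

theorem hie_lt (hW : WinOK B η ε lam c cut C K θ) {j : Bool} {n : ℕ} (h : cut < wc lam j n) {σ : ℝ}
    (hσ : |σ - wc lam j n| ≤ c / (4 * wc lam j n)) : |σ - wc lam j n| < c / (2 * wc lam j n) := by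
  have w := wc_pos hW h
  exact hσ.trans_lt (div_lt_div_of_pos_left hW.c_pos (by positivity) (by linarith))

theorem hie_ball (hW : WinOK B η ε lam c cut C K θ) {j : Bool} {n : ℕ} (h : cut < wc lam j n)
    {σ : ℝ} (hσ : |σ - wc lam j n| ≤ c / (4 * wc lam j n)) :
    (σ : ℂ) ∈ ball (wc lam j n : ℂ) (c / (2 * wc lam j n)) := by
  rw [mem_ball_iff_norm, ← ofReal_sub, norm_real]
  exact hie_lt hW h hσ

theorem hie_H (hW : WinOK B η ε lam c cut C K θ) {x : X} (hx : x ∈ ball (0 : X) 2) :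
    Hof B (toV η ε x, (lam : ℂ)) ∈ ball (B.H0 : ℂ) 1 :=
  mem_ball_iff_norm.2 ((hW.inV x hx).2.trans_lt one_half_lt_one)

theorem hie_sup (hW : WinOK B η ε lam c cut C K θ) (hθ : K * θ ≤ 1 / 16) {j : Bool} {n : ℕ}
    (h : cut < wc lam j n) {x : X} (hx : x ∈ ball (0 : X) 2) {σ : ℂ}
    (hσ : σ ∈ ball (wc lam j n : ℂ) (c / (2 * wc lam j n))) :
    ‖Mx B η ε lam x σ j n n n‖ ≤ nB η.1 ε n / 16 ∧
      ‖Mx B η ε lam x σ j n n (-n)‖ ≤ K * nB η.1 ε n := by
  obtain ⟨a, b⟩ := hW.sup j n h x hx _ (hie_H hW hx) σ hσ n (abs_of_nonneg (Int.natCast_nonneg n))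
  obtain ⟨n1, e, -⟩ := hW.n1 j n h
  have p := nB_pos (η := η.1) hW.ε_pos n1
  have k := hW.one_le
  refine ⟨a.trans ?_, b⟩
  have := mul_le_mul_of_nonneg_left e (by linarith : 0 ≤ K)
  nlinarith

theorem hie_re (hW : WinOK B η ε lam c cut C K θ) (hθ : K * θ ≤ 1 / 16) {j : Bool} {n : ℕ}
    (h : cut < wc lam j n) {x : X} (hx : x ∈ ball (0 : X) 2) {σ : ℝ}
    (hσ : |σ - wc lam j n| ≤ c / (4 * wc lam j n)) :
    |(am B η ε lam x σ j n).re - (σ * lenf lam j - n)| ≤ nB η.1 ε n / 16 := by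
  have e : (am B η ε lam x σ j n).re - (σ * lenf lam j - n) = -(Mx B η ε lam x σ j n n n).re := by
    simp [am]
  rw [e, abs_neg]
  exact (abs_re_le_norm _).trans (hie_sup hW hθ h hx (hie_ball hW h hσ)).1

/-- `am` at the two values differs by at least `4 nB - 2 K nA` -/
theorem am_gap (hW : WinOK B η ε lam c cut C K θ) (hθ : K * θ ≤ 1 / 16)
    (hs : SigX B η ε lam c cut K x0 sig) {j : Bool} {n : ℕ} (h : cut < wc lam j n) {x : X}
    (hx : x ∈ ball (0 : X) 2) : 3 * nB η.1 ε n ≤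
      ‖am B η ε lam x (sig j n true) j n - am B η ε lam x (sig j n false) j n‖ := by
  have a := abs_le.1 (hie_re hW hθ h hx (hs.win j n true h))
  have b := abs_le.1 (hie_re hW hθ h hx (hs.win j n false h))
  have p := nB_pos (η := η.1) hW.ε_pos (hW.n1 j n h).1
  refine le_trans ?_ (re_le_norm _)
  rw [sub_re]
  linarith [hs.pos j n h, hs.neg j n h]

theorem phi_zero (hW : WinOK B η ε lam c cut C K θ) (hθ : K * θ ≤ 1 / 16)
    (hs : SigX B η ε lam c cut K x0 sig) {j : Bool} {n : ℕ} (h : cut < wc lam j n) {x : X}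
    (hx : x ∈ ball (0 : X) 2) :
    (phi B η ε lam sig x (j, true, n) = 0 ∧ phi B η ε lam sig x (j, false, n) = 0) ↔
      ∀ s, am B η ε lam x (sig j n s) j n ^ 2 = ddm B η ε lam x (sig j n s) j n := by
  have p := nB_pos (η := η.1) hW.ε_pos (hW.n1 j n h).1
  have q := nA_pos (η := η.1) hW.ε_pos (hW.n1 j n h).1
  have g := norm_pos_iff.1 (lt_of_lt_of_le (by positivity) (am_gap hW hθ hs h hx))
  have p' : (8 * nB η.1 ε n ^ 2 : ℂ) ≠ 0 := by exact_mod_cast (by positivity : 8 * nB η.1 ε n ^ 2 ≠ 0)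
  have q' : (8 * nA η.1 ε n : ℂ) ≠ 0 := by exact_mod_cast (by positivity : 8 * nA η.1 ε n ≠ 0)
  simp only [phi, if_true, Bool.false_eq_true, if_false, div_eq_zero_iff, p', q', or_false,
    Bool.forall_bool, neg_add_eq_zero, eq_div_iff g]
  exact ⟨fun ⟨a, b⟩ => ⟨by linear_combination -a - b, by linear_combination -b⟩,
    fun ⟨a, b⟩ => ⟨by linear_combination b - a, by linear_combination -b⟩⟩

theorem hie_lip (hK : KerOK B η C) (hW : WinOK B η ε lam c cut C K θ) (hθ : K * θ ≤ 1 / 16)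
    {j : Bool} {n : ℕ} (h : cut < wc lam j n) {x : X} (hx : x ∈ ball (0 : X) 2) {q : ℤ}
    (hq : ∀ σ ∈ ball (wc lam j n : ℂ) (c / (2 * wc lam j n)),
      ‖Mx B η ε lam x σ j n n q‖ ≤ K * nB η.1 ε n) {s t : ℝ}
    (hs : |s - wc lam j n| ≤ c / (4 * wc lam j n)) (ht : |t - wc lam j n| ≤ c / (4 * wc lam j n)) :
    ‖Mx B η ε lam x s j n n q - Mx B η ε lam x t j n n q‖ ≤ lenf lam j / 4 * |s - t| := by
  have w := wc_pos hW h
  have c0 := hW.c_pos
  have e : c / (4 * wc lam j n) = c / (2 * wc lam j n) / 2 := by ring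
  have d : DifferentiableOn ℂ ((fun z : X × ℂ => Mx B η ε lam z.1 z.2 j n n q) ∘ fun σ => (x, σ))
      (ball (wc lam j n : ℂ) (c / (2 * wc lam j n))) :=
    DifferentiableOn.comp (f := fun σ : ℂ => (x, σ)) (Mx_diff hK hW h n q)
      (by fun_prop) fun _ k => mk_mem_prod hx k
  have l := hol_lip (by positivity) d (fun σ k => by simpa only [Function.comp_apply] using hq σ k)
    (a := s) (b := t)
    (by rw [← ofReal_sub, norm_real, ← e]; exact hs) (by rw [← ofReal_sub, norm_real, ← e]; exact ht)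
  simp only [Function.comp_apply] at l
  rw [← ofReal_sub, norm_real] at l
  refine l.trans (mul_le_mul_of_nonneg_right ?_ (abs_nonneg _))
  rw [div_div_eq_mul_div, div_le_iff₀ c0]
  have a := mul_le_mul_of_nonneg_left (hW.n1 j n h).2.2.1 (by linarith [hW.one_le] : 0 ≤ K)
  have b := mul_le_mul_of_nonneg_right hθ (mul_pos c0 (lenf_pos lam j)).le
  nlinarith

theorem hie_inj (hK : KerOK B η C) (hW : WinOK B η ε lam c cut C K θ) (hθ : K * θ ≤ 1 / 16)
    {j : Bool} {n : ℕ} (h : cut < wc lam j n) {x : X} (hx : x ∈ ball (0 : X) 2) {s t : ℝ}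
    (hs : |s - wc lam j n| ≤ c / (4 * wc lam j n)) (ht : |t - wc lam j n| ≤ c / (4 * wc lam j n))
    (e : |(am B η ε lam x s j n).re - (am B η ε lam x t j n).re| =
      |‖Mx B η ε lam x s j n n (-n)‖ - ‖Mx B η ε lam x t j n n (-n)‖|) : s = t := by
  have p := nB_pos (η := η.1) hW.ε_pos (hW.n1 j n h).1
  have l := lenf_pos lam j
  have a := hie_lip hK hW hθ h hx (fun σ k => (hie_sup hW hθ h hx k).1.trans
    (by nlinarith [hW.one_le])) hs ht
  have b := (abs_norm_sub_norm_le _ _).trans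
    (hie_lip hK hW hθ h hx (fun σ k => (hie_sup hW hθ h hx k).2) hs ht)
  have f : lenf lam j * (s - t) = ((am B η ε lam x s j n).re - (am B η ε lam x t j n).re) +
      (Mx B η ε lam x s j n n n - Mx B η ε lam x t j n n n).re := by
    simp [am]; ring
  have g := abs_add_le ((am B η ε lam x s j n).re - (am B η ε lam x t j n).re)
    (Mx B η ε lam x s j n n n - Mx B η ε lam x t j n n n).re
  rw [← f, abs_mul, abs_of_pos l, e] at g
  have k := (abs_re_le_norm _).trans a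
  have z : lenf lam j * |s - t| ≤ 0 := by linarith
  exact sub_eq_zero.1 (abs_nonpos_iff.1 (nonpos_of_mul_nonpos_right z l))

theorem hie_root (hK : KerOK B η C) (hW : WinOK B η ε lam c cut C K θ) {j : Bool} {n : ℕ}
    (h : cut < wc lam j n) {x : X} (hx : x ∈ ball (0 : X) 2) (hr : x ∈ reB Idx) {σ : ℝ}
    (hσ : |σ - wc lam j n| ≤ c / (4 * wc lam j n))
    (e : am B η ε lam x σ j n ^ 2 = ddm B η ε lam x σ j n) :
    |(am B η ε lam x σ j n).re| = ‖Mx B η ε lam x σ j n n (-n)‖ := by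
  obtain ⟨a, b⟩ := Mx_real hK hW h hx hr (hie_lt hW h hσ)
  have i : (am B η ε lam x σ j n).im = 0 := by simp [am, a]
  have r := congrArg re (e.trans b)
  rw [ofReal_re, sq, mul_re, i, mul_zero, sub_zero, ← sq] at r
  rw [(sq_eq_sq_iff_abs_eq_abs _ _).1 r, abs_norm]

theorem hie_ne (hW : WinOK B η ε lam c cut C K θ) (hθ : K * θ ≤ 1 / 16) {N0 : ℕ} {j : Bool} {n : ℕ}
    (h : cut < wc lam j n) (hN : N0 ≤ 2 * n) {x : X} (hx : x ∈ ball (tail N0) (1 / 2))
    (hx' : x ∈ ball (0 : X) 2) (hr : x ∈ reB Idx) {σ : ℂ}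
    (hσ : σ ∈ ball (wc lam j n : ℂ) (c / (2 * wc lam j n))) :
    Mx B η ε lam x σ j n n (-n) ≠ 0 := by
  intro z
  obtain ⟨n1, e, -⟩ := hW.n1 j n h
  have p := nB_pos (η := η.1) hW.ε_pos n1
  have q := nA_pos (η := η.1) hW.ε_pos n1
  have t0 : 0 < θ := (mul_pos_iff_of_pos_right p).1 (q.trans_le e)
  have t1 : θ ≤ 1 / 16 := by nlinarith [hW.one_le]
  have a := (hW.asy j n h x hx' σ hσ).2.1
  have n2 : (0 : ℤ) < 2 * n := by omega
  have u : 1 / 2 ≤ ‖uu x j (2 * n)‖ := by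
    refine le_trans ?_ (re_le_norm _)
    have d := ((abs_re_le_norm _).trans ((x - tail N0).norm_coe_le_norm (j, 2 * n))).trans
      (mem_ball_iff_norm.1 hx).le
    rw [coe_sub, Pi.sub_apply, (hin3_tail N0 j n2).1, if_pos (by omega), sub_re, one_re] at d
    rw [hin3_pos x j n2, add_re, I_mul_re, hr _]
    linarith [(abs_le.1 d).1]
  rw [z, zero_sub, norm_neg, norm_mul, norm_mul, norm_mul, norm_I, norm_real, Complex.norm_two,
    Real.norm_of_nonneg p.le] at a
  nlinarith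

open Classical in
/-- Outside the windows the kernel is trivial, in a window the reduced equation has two roots. -/
theorem high_spec (hK : KerOK B η C) (hW : WinOK B η ε lam c cut C K θ) (hθ : K * θ ≤ 1 / 16)
    {N0 : ℕ} (hN : ∀ j n, cut < wc lam j n → N0 ≤ 2 * n)
    (hs : SigX B η ε lam c cut K (tail N0) sig) {x : X} (hx : x ∈ ball (tail N0) (1 / 2))
    (hr : x ∈ reB Idx) (h0 : ∀ r : Row lam cut, phi B η ε lam sig x r.1 = 0) {σ : ℝ}
    (hσ : cut ≤ σ) : Module.Finite ℂ (Ker (Sx B η ε lam x) (lenf lam) σ) ∧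
      Module.finrank ℂ (Ker (Sx B η ε lam x) (lenf lam) σ) =
        if ∃ j n s, cut < wc lam j n ∧ σ = sig j n s then 1 else 0 := by
  have hx' : x ∈ ball (0 : X) 2 := mem_ball_zero_iff.2 (by
    linarith [norm_sub_norm_le x (tail N0), mem_ball_iff_norm.1 hx, norm_tail_le N0])
  by_cases g : ∀ j n, cut < wc lam j n → c / (4 * wc lam j n) < |σ - wc lam j n|
  · rw [hW.gap x hx' σ hσ g, if_neg, finrank_bot]
    · exact ⟨inferInstance, rfl⟩
    · rintro ⟨j, n, s, h, rfl⟩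
      exact (g j n h).not_ge (hs.win j n s h)
  push Not at g
  obtain ⟨j, n, h, w⟩ := g
  have b := hie_ball hW h w
  obtain ⟨κ, D, Λ, -, S⟩ := hW.sh j n h
  have S := S x hx' _ (hie_H hW hx') σ b
  obtain ⟨f, r⟩ := S.toSH0.finrank S.bsym (hie_ne hW hθ h (hN j n h) hx hx' hr b)
  refine ⟨f, r.trans (if_congr ?_ rfl rfl)⟩
  have z := (phi_zero hW hθ hs h hx').1 ⟨h0 ⟨(j, true, n), h⟩, h0 ⟨(j, false, n), h⟩⟩
  change am B η ε lam x σ j n ^ 2 = ddm B η ε lam x σ j n ↔ _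
  refine ⟨fun e => ?_, ?_⟩
  · have p := nB_pos (η := η.1) hW.ε_pos (hW.n1 j n h).1
    have e0 := hie_root hK hW h hx' hr w e
    have e1 (s) := hie_root hK hW h hx' hr (hs.win j n s h) (z s)
    have a (s) := abs_le.1 (hie_re hW hθ h hx' (hs.win j n s h))
    rcases le_total 0 (am B η ε lam x σ j n).re with k | k
    · refine ⟨j, n, true, h, hie_inj hK hW hθ h hx' w (hs.win j n true h) ?_⟩
      rw [← e0, ← e1, abs_of_nonneg k, abs_of_nonneg (a := re _) (by linarith [a true, hs.pos j n h])]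
    · refine ⟨j, n, false, h, hie_inj hK hW hθ h hx' w (hs.win j n false h) ?_⟩
      rw [← e0, ← e1, abs_of_nonpos k,
        abs_of_nonpos (a := re _) (by linarith [a false, hs.neg j n h]), neg_sub_neg, abs_sub_comm]
  · rintro ⟨j', n', s, h', rfl⟩
    obtain ⟨rfl, rfl⟩ := hW.disj j n j' n' _ h h' w (hs.win j' n' s h')
    exact z s

end StekIso
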