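import Pool.Agent.Lib.MP_fa022d_an.HiE

/-! The high equations satisfy the hypotheses of the Newton step. -/

open Set Filter Topology Metric BoundedContinuousFunction Complex

noncomputable section
namespace StekIso
variable {B : Base} {η : Pos} {ε lam c cut C K θ : ℝ} {sig : Bool → ℕ → Bool → ℝ} {x0 : X}
  {j : Bool} {n : ℕ}

theorem hip_half (hs : SigX B η ε lam c cut K x0 sig) (h : cut < wc lam j n) (s : Bool) :
    ‖((sig j n s : ℝ) : ℂ) - wc lam j n‖ ≤ c / (2 * wc lam j n) / 2 := by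
  rw [← ofReal_sub, norm_real, Real.norm_eq_abs]
  exact (hs.win j n s h).trans (le_of_eq (by ring))

theorem hip_R (hW : WinOK B η ε lam c cut C K θ) (h : cut < wc lam j n) :
    0 < c / (2 * wc lam j n) := by
  have := wc_pos hW h
  have := hW.c_pos
  positivity

theorem hip_mem (hW : WinOK B η ε lam c cut C K θ) (hs : SigX B η ε lam c cut K x0 sig)
    (h : cut < wc lam j n) (s : Bool) :
    ((sig j n s : ℝ) : ℂ) ∈ ball (wc lam j n : ℂ) (c / (2 * wc lam j n)) :=
  mem_ball_iff_norm.2 ((hip_half hs h s).trans_lt (half_lt_self (hip_R hW h)))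

theorem hip_sup (hW : WinOK B η ε lam c cut C K θ) (h : cut < wc lam j n) {x : X}
    (hx : x ∈ ball (0 : X) 2) {σ : ℂ} (hσ : σ ∈ ball (wc lam j n : ℂ) (c / (2 * wc lam j n))) :
    ‖Mx B η ε lam x σ j n n n‖ ≤ K * nA η.1 ε n ∧ ‖Mx B η ε lam x σ j n n (-n)‖ ≤ K * nB η.1 ε n ∧
      ‖Mx B η ε lam x σ j n (-n) n‖ ≤ K * nB η.1 ε n := by
  have m : (zOf B η ε lam x).2 ∈ ball (B.H0 : ℂ) 1 :=
    mem_ball_iff_norm.2 ((hW.inV x hx).2.trans_lt (by norm_num))
  have a := hW.sup j n h x hx _ m σ hσ n (by simp)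
  have b := (hW.sup j n h x hx _ m σ hσ (-n) (by simp)).2
  rw [neg_neg] at b
  exact ⟨a.1, a.2, b⟩

theorem hip_dx (hK : KerOK B η C) (hW : WinOK B η ε lam c cut C K θ) (h : cut < wc lam j n)
    {x : X} (hx : x ∈ ball (0 : X) 2) {σ : ℂ}
    (hσ : σ ∈ ball (wc lam j n : ℂ) (c / (2 * wc lam j n))) (p q : ℤ) :
    DifferentiableAt ℂ (fun x => Mx B η ε lam x σ j n p q) x :=
  DifferentiableAt.comp (g := fun z : X × ℂ => Mx B η ε lam z.1 z.2 j n p q)
    (f := fun x : X => (x, σ)) x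
    ((Mx_diff hK hW h p q).differentiableAt ((isOpen_ball.prod isOpen_ball).mem_nhds ⟨hx, hσ⟩))
    (differentiableAt_id.prodMk (differentiableAt_const _))

theorem hip_slice {F : X × ℂ → ℂ} {U : Set X} {W : Set ℂ} (hU : IsOpen U) (hW : IsOpen W)
    (hF : DifferentiableOn ℂ F (U ×ˢ W)) {x : X} (hx : x ∈ U) (w : X) :
    DifferentiableOn ℂ (fun σ => F (x, σ)) W ∧
      DifferentiableOn ℂ (fun σ => fderiv ℂ (fun x => F (x, σ)) x w) W := by
  have i : DifferentiableOn ℂ (fun σ : ℂ => (x, σ)) W := by fun_prop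
  refine ⟨hF.comp i fun σ hσ => ⟨hx, hσ⟩,
    ((diffOn_fderiv_apply (hU.prod hW) hF (w, 0)).comp i fun σ hσ => ⟨hx, hσ⟩).congr
      fun σ hσ => ?_⟩
  have := ((hF.differentiableAt ((hU.prod hW).mem_nhds
    (show (x, σ) ∈ U ×ˢ W from ⟨hx, hσ⟩))).hasFDerivAt.comp x
    (f := fun x : X => (x, σ)) (hasFDerivAt_prodMk_left (𝕜 := ℂ) x σ)).fderiv
  exact congrArg (fun L : X →L[ℂ] ℂ => L w) this

theorem hip_dsig (hs : SigX B η ε lam c cut K x0 sig) (h : cut < wc lam j n) :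
    ‖((sig j n true : ℝ) : ℂ) - sig j n false‖ * lenf lam j ≤ 4 * K * nB η.1 ε n := by
  have l := lenf_pos lam j
  have a := abs_le.1 (hs.near j n true h)
  have b := abs_le.1 (hs.near j n false h)
  rw [← ofReal_sub, norm_real, Real.norm_eq_abs, ← abs_of_pos l, ← abs_mul, abs_le]
  constructor <;> linarith [a.1, a.2, b.1, b.2]

/-- difference of a holomorphic function of `σ` at the two values -/
theorem hip_diff (hW : WinOK B η ε lam c cut C K θ) (hs : SigX B η ε lam c cut K x0 sig)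
    (h : cut < wc lam j n) {g : ℂ → ℂ} {M : ℝ}
    (hg : DifferentiableOn ℂ g (ball (wc lam j n : ℂ) (c / (2 * wc lam j n))))
    (hM : ∀ σ ∈ ball (wc lam j n : ℂ) (c / (2 * wc lam j n)), ‖g σ‖ ≤ M) :
    ‖g (sig j n true) - g (sig j n false)‖ * (c * lenf lam j) ≤
      16 * K * M * (nB η.1 ε n * wc lam j n) := by
  have R := hip_R hW h
  have w := wc_pos hW h
  have c0 := hW.c_pos
  have l := lenf_pos lam j
  have M0 : 0 ≤ M := (norm_nonneg _).trans (hM _ (mem_ball_self R))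
  have a := hol_lip R hg hM (hip_half hs h true) (hip_half hs h false)
  have e : 2 * M / (c / (2 * wc lam j n)) * c = 4 * M * wc lam j n := by field_simp; ring
  calc _ ≤ 2 * M / (c / (2 * wc lam j n)) * ‖((sig j n true : ℝ) : ℂ) - sig j n false‖ *
        (c * lenf lam j) := by gcongr
    _ = 4 * M * wc lam j n * (‖((sig j n true : ℝ) : ℂ) - sig j n false‖ * lenf lam j) := by
        rw [← e]; ring
    _ ≤ 4 * M * wc lam j n * (4 * K * nB η.1 ε n) :=
        mul_le_mul_of_nonneg_left (hip_dsig hs h) (by positivity)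
    _ = _ := by ring

theorem hip_ddm_diff (hK : KerOK B η C) (hW : WinOK B η ε lam c cut C K θ) (h : cut < wc lam j n) :
    DifferentiableOn ℂ (fun z : X × ℂ => ddm B η ε lam z.1 z.2 j n)
      (ball (0 : X) 2 ×ˢ ball (wc lam j n : ℂ) (c / (2 * wc lam j n))) :=
  (Mx_diff hK hW h _ _).mul (Mx_diff hK hW h _ _)

theorem hip_delta (hK : KerOK B η C) (hW : WinOK B η ε lam c cut C K θ)
    (hs : SigX B η ε lam c cut K x0 sig) (h : cut < wc lam j n) {x : X} (hx : x ∈ ball (0 : X) 2) :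
    ‖ddm B η ε lam x (sig j n true) j n - ddm B η ε lam x (sig j n false) j n‖ ≤
      16 * K ^ 3 * θ * (nA η.1 ε n * nB η.1 ε n) ∧
    ‖ddm B η ε lam x (sig j n true) j n - ddm B η ε lam x (sig j n false) j n‖ ≤
      16 * K ^ 3 * θ * nB η.1 ε n ^ 2 := by
  obtain ⟨n1, -, n3, n4⟩ := hW.n1 j n h
  have b := nB_pos (η := η.1) hW.ε_pos n1
  have K1 := hW.one_le
  have w := wc_pos hW h
  have cl := mul_pos hW.c_pos (lenf_pos lam j)
  have a := hip_diff hW hs h (g := fun σ => ddm B η ε lam x σ j n) (M := (K * nB η.1 ε n) ^ 2)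
    (hip_slice isOpen_ball isOpen_ball (hip_ddm_diff hK hW h) hx 0).1 fun σ hσ => by
      rw [ddm, norm_mul, sq]
      exact mul_le_mul (hip_sup hW h hx hσ).2.1 (hip_sup hW h hx hσ).2.2 (norm_nonneg _)
        (by positivity)
  have n5 : nB η.1 ε n ^ 2 * wc lam j n ≤ θ * (c * lenf lam j) * nA η.1 ε n :=
    (le_mul_of_one_le_right (by positivity)
      (Real.one_le_exp (by have := η.2; positivity))).trans n4
  constructor <;> refine le_of_mul_le_mul_right (a.trans ?_) cl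
  · calc _ = 16 * K ^ 3 * nB η.1 ε n * (nB η.1 ε n ^ 2 * wc lam j n) := by ring
      _ ≤ 16 * K ^ 3 * nB η.1 ε n * (θ * (c * lenf lam j) * nA η.1 ε n) := by gcongr
      _ = _ := by ring
  · calc _ = 16 * K ^ 3 * nB η.1 ε n ^ 2 * (nB η.1 ε n * wc lam j n) := by ring
      _ ≤ 16 * K ^ 3 * nB η.1 ε n ^ 2 * (θ * (c * lenf lam j)) := by gcongr
      _ = _ := by ring

theorem hip_ddm_fderiv (hK : KerOK B η C) (hW : WinOK B η ε lam c cut C K θ)
    (h : cut < wc lam j n) {x : X} (hx : x ∈ ball (0 : X) 2) {σ : ℂ}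
    (hσ : σ ∈ ball (wc lam j n : ℂ) (c / (2 * wc lam j n))) {w : X} {t : ℝ}
    (ht : ∀ p : ℤ, |p| = n → ‖fderiv ℂ (fun x => Mx B η ε lam x σ j n p (-p)) x w‖ ≤ t) :
    ‖fderiv ℂ (fun x => ddm B η ε lam x σ j n) x w‖ ≤ 2 * K * nB η.1 ε n * t := by
  have t1 := ht n (by simp)
  have t2 := ht (-n) (by simp)
  rw [neg_neg] at t2
  obtain ⟨-, s1, s2⟩ := hip_sup hW h hx hσ
  have d := ((hip_dx hK hW h hx hσ n (-n)).hasFDerivAt.mul
    (hip_dx hK hW h hx hσ (-n) n).hasFDerivAt).fderiv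
  have e : fderiv ℂ (fun x => ddm B η ε lam x σ j n) x = _ := d
  rw [e, _root_.add_apply, _root_.smul_apply, _root_.smul_apply, smul_eq_mul, smul_eq_mul]
  refine (norm_add_le _ _).trans ?_
  rw [norm_mul, norm_mul]
  have k0 := (norm_nonneg _).trans s1
  have := mul_le_mul s1 t2 (norm_nonneg _) k0
  have := mul_le_mul s2 t1 (norm_nonneg _) k0
  linarith

theorem hip_A {ap am dp dm : X → ℂ} {x w : X} {A b S K1 K2 : ℝ} (hA : 0 < A) (hb : 0 < b)
    (hS : 0 ≤ S) (hK1 : 0 ≤ K1) (hK2 : 0 ≤ K2) (h1 : DifferentiableAt ℂ ap x)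
    (h2 : DifferentiableAt ℂ am x) (h3 : DifferentiableAt ℂ dp x) (h4 : DifferentiableAt ℂ dm x)
    (g : 3 * b ≤ ‖ap x - am x‖) (a1 : ‖fderiv ℂ ap x w‖ ≤ K1 * A * S)
    (a2 : ‖fderiv ℂ am x w‖ ≤ K1 * A * S) (d0 : ‖dp x - dm x‖ ≤ b ^ 2)
    (d1 : ‖fderiv ℂ dp x w - fderiv ℂ dm x w‖ ≤ K2 * A * b * S) :
    ‖fderiv ℂ (fun x => (-(ap x + am x) + (dp x - dm x) / (ap x - am x)) / (8 * (A : ℂ))) x w‖ ≤
      (K1 + K2) * S := by
  have ne : ap x - am x ≠ 0 := norm_pos_iff.1 (by linarith)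
  have i := (hasDerivAt_inv ne).comp_hasFDerivAt x (h1.hasFDerivAt.sub h2.hasFDerivAt)
  have d := (((h1.hasFDerivAt.add h2.hasFDerivAt).neg.add
    ((h3.hasFDerivAt.sub h4.hasFDerivAt).mul i)).mul_const (8 * (A : ℂ))⁻¹).fderiv
  have e : fderiv ℂ (fun x => (-(ap x + am x) + (dp x - dm x) / (ap x - am x)) / (8 * (A : ℂ))) x w
      = (-(fderiv ℂ ap x w + fderiv ℂ am x w) + ((fderiv ℂ dp x w - fderiv ℂ dm x w) /
        (ap x - am x) - (dp x - dm x) * (fderiv ℂ ap x w - fderiv ℂ am x w) / (ap x - am x) ^ 2)) /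
        (8 * A) := by
    simp only [div_eq_mul_inv]
    refine (congrArg (fun L : X →L[ℂ] ℂ => L w) d).trans ?_
    simp
    ring
  have u1 : ‖(fderiv ℂ dp x w - fderiv ℂ dm x w) / (ap x - am x)‖ ≤ K2 * A * S := by
    rw [norm_div, div_le_iff₀ (by linarith)]
    have : 0 ≤ K2 * A * S := by positivity
    nlinarith
  have u2 : ‖(dp x - dm x) * (fderiv ℂ ap x w - fderiv ℂ am x w) / (ap x - am x) ^ 2‖ ≤
      K1 * A * S := by
    have p : (3 * b) ^ 2 ≤ ‖ap x - am x‖ ^ 2 := by gcongr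
    rw [norm_div, norm_pow, norm_mul, div_le_iff₀ (pow_pos (norm_pos_iff.2 ne) 2)]
    have q := mul_le_mul d0 ((norm_sub_le _ _).trans (add_le_add a1 a2)) (norm_nonneg _)
      (by positivity)
    have : 0 ≤ K1 * A * S := by positivity
    nlinarith [sq_nonneg b]
  rw [e, norm_div, norm_mul, norm_real, Real.norm_of_nonneg hA.le, Complex.norm_ofNat,
    div_le_iff₀ (by positivity)]
  refine (norm_add_le _ _).trans ?_
  rw [norm_neg]
  have v1 := (norm_add_le _ _).trans (add_le_add a1 a2)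
  have v2 := (norm_sub_le _ _).trans (add_le_add u1 u2)
  have : 0 ≤ K1 * A * S := by positivity
  have : 0 ≤ K2 * A * S := by positivity
  nlinarith

theorem hip_B {a d : X → ℂ} {x w : X} {b S K1 K2 K3 : ℝ} (hb : 0 < b)
    (h1 : DifferentiableAt ℂ a x) (h3 : DifferentiableAt ℂ d x) (a0 : ‖a x‖ ≤ K3 * b)
    (a1 : ‖fderiv ℂ a x w‖ ≤ K1 * b * S) (d1 : ‖fderiv ℂ d x w‖ ≤ K2 * b ^ 2 * S) :
    ‖fderiv ℂ (fun x => (d x - a x ^ 2) / (8 * (b : ℂ) ^ 2)) x w‖ ≤ (K2 + 2 * K3 * K1) / 8 * S := by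
  have d' := ((h3.hasFDerivAt.sub (h1.hasFDerivAt.mul h1.hasFDerivAt)).mul_const
    (8 * (b : ℂ) ^ 2)⁻¹).fderiv
  have e : fderiv ℂ (fun x => (d x - a x ^ 2) / (8 * (b : ℂ) ^ 2)) x w =
      (fderiv ℂ d x w - 2 * (a x * fderiv ℂ a x w)) / (8 * (b : ℂ) ^ 2) := by
    simp only [div_eq_mul_inv, sq (a _)]
    refine (congrArg (fun L : X →L[ℂ] ℂ => L w) d').trans ?_
    simp
    ring
  rw [e, norm_div, norm_mul, norm_pow, norm_real, Real.norm_of_nonneg hb.le, Complex.norm_ofNat,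
    div_le_iff₀ (by positivity)]
  refine (norm_sub_le _ _).trans ?_
  rw [norm_mul, norm_mul, Complex.norm_ofNat]
  have := mul_le_mul a0 a1 (norm_nonneg _) ((norm_nonneg _).trans a0)
  nlinarith

theorem hip_am (hK : KerOK B η C) (hW : WinOK B η ε lam c cut C K θ) (h : cut < wc lam j n)
    {x : X} (hx : x ∈ ball (0 : X) 2) {σ : ℂ}
    (hσ : σ ∈ ball (wc lam j n : ℂ) (c / (2 * wc lam j n))) :
    DifferentiableAt ℂ (fun x => am B η ε lam x σ j n) x ∧
      DifferentiableAt ℂ (fun x => ddm B η ε lam x σ j n) x ∧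
      ∀ w, ‖fderiv ℂ (fun x => am B η ε lam x σ j n) x w‖ =
        ‖fderiv ℂ (fun x => Mx B η ε lam x σ j n n n) x w‖ :=
  ⟨(hip_dx hK hW h hx hσ n n).const_sub _,
    (hip_dx hK hW h hx hσ _ _).mul (hip_dx hK hW h hx hσ _ _), fun w => by
      simp only [am, fderiv_const_sub, _root_.neg_apply, norm_neg]⟩

theorem hip_close (hK : KerOK B η C) (hW : WinOK B η ε lam c cut C K θ) (hθ : 0 ≤ θ)
    (hT : 16 * K ^ 3 * θ ≤ 1) (hs : SigX B η ε lam c cut K x0 sig) (h : cut < wc lam j n)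
    (k : Bool) : ∃ k0, ∀ x ∈ ball (0 : X) 2,
      ‖phi B η ε lam sig x (j, k, n) - mainL B η.1 x (j, k, n) - k0‖ ≤ 16 * K ^ 3 * θ := by
  obtain ⟨n1, n2, -, -⟩ := hW.n1 j n h
  have a := nA_pos (η := η.1) hW.ε_pos n1
  have b := nB_pos (η := η.1) hW.ε_pos n1
  have a' : (nA η.1 ε n : ℂ) ≠ 0 := ofReal_ne_zero.2 a.ne'
  have b' : (nB η.1 ε n : ℂ) ≠ 0 := ofReal_ne_zero.2 b.ne'
  have K1 := hW.one_le
  have K2 : K ≤ K ^ 2 := by nlinarith
  have K3 : K ^ 2 ≤ K ^ 3 := by nlinarith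
  have Kθ : K * θ ≤ 1 / 16 := by nlinarith
  cases k
  · refine ⟨-((sig j n true : ℝ) * lenf lam j - n) ^ 2 / (8 * nB η.1 ε n ^ 2), fun x hx => ?_⟩
    obtain ⟨-, e1, e2⟩ := hW.asy j n h x hx _ (hip_mem hW hs h true)
    have m := (hip_sup hW h hx (hip_mem hW hs h true)).1
    have nx : ‖x‖ ≤ 2 := (mem_ball_zero_iff.1 hx).le
    have u1 : ‖uu x j (2 * n)‖ ≤ 4 := by linarith [norm_uu_le x j (2 * n)]
    have u2 : ‖uu x j (-(2 * n))‖ ≤ 4 := by linarith [norm_uu_le x j (-(2 * n))]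
    have hh : ‖((sig j n true : ℝ) * lenf lam j - n : ℂ)‖ ≤ 2 * K * nB η.1 ε n := by
      have := hs.near j n true h
      rw [← Real.norm_eq_abs, ← norm_real] at this
      simpa using this
    have pn : (0 : ℤ) < 2 * n := by omega
    have uv : uu x j (2 * n) * uu x j (-(2 * n)) = x (j, 2 * n) ^ 2 + x (j, -(2 * n)) ^ 2 := by
      rw [uu, uu, if_pos pn, if_neg (by omega), if_pos (by omega), neg_neg]
      linear_combination (-x (j, -(2 * n)) ^ 2) * I_mul_I
    simp only [phi, mainL, am, ddm, Bool.false_eq_true, if_false, ← uv]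
    generalize Mx B η ε lam x (sig j n true) j n n (-n) = P at *
    generalize Mx B η ε lam x (sig j n true) j n (-n) n = Q at *
    generalize Mx B η ε lam x (sig j n true) j n n n = M at *
    generalize ((sig j n true : ℝ) * lenf lam j - n : ℂ) = hq at *
    generalize uu x j (2 * n) = u at *
    generalize uu x j (-(2 * n)) = v at *
    generalize nB η.1 ε n = β at *
    have e : (P * Q - (hq - M) ^ 2) / (8 * β ^ 2) - u * v / 2 - -hq ^ 2 / (8 * β ^ 2) =
        ((P - 2 * I * β * u) * (Q + 2 * I * β * v) + 2 * I * β * u * (Q + 2 * I * β * v) -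
          (P - 2 * I * β * u) * (2 * I * β * v) + M * (2 * hq - M)) / (8 * β ^ 2) := by
      field_simp
      linear_combination (-8 * β ^ 2 * u * v : ℂ) * I_mul_I
    have w1 : ‖2 * I * β * u‖ ≤ 8 * β := by
      simp only [norm_mul, norm_I, norm_real, Real.norm_of_nonneg b.le, Complex.norm_ofNat]
      nlinarith
    have w2 : ‖2 * I * β * v‖ ≤ 8 * β := by
      simp only [norm_mul, norm_I, norm_real, Real.norm_of_nonneg b.le, Complex.norm_ofNat]
      nlinarith
    have m' : ‖M‖ ≤ K * θ * β := by nlinarith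
    have w3 : ‖2 * hq - M‖ ≤ 5 * K * β := by
      refine (norm_sub_le _ _).trans ?_
      rw [norm_mul, Complex.norm_ofNat]
      nlinarith
    have tb : 0 ≤ θ * β := by positivity
    have s1 := (norm_mul_le _ _).trans (mul_le_mul e1 e2 (norm_nonneg _) tb)
    have s2 := (norm_mul_le _ _).trans (mul_le_mul w1 e2 (norm_nonneg _) (by positivity))
    have s3 := (norm_mul_le _ _).trans (mul_le_mul e1 w2 (norm_nonneg _) tb)
    have s4 := (norm_mul_le _ _).trans (mul_le_mul m' w3 (norm_nonneg _) (by positivity))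
    rw [e, norm_div, norm_mul, norm_pow, norm_real, Real.norm_of_nonneg b.le, Complex.norm_ofNat,
      div_le_iff₀ (by positivity)]
    refine (norm_add_le _ _).trans ((add_le_add ((norm_sub_le _ _).trans
      (add_le_add ((norm_add_le _ _).trans (add_le_add s1 s2)) s3)) s4).trans ?_)
    have t1 : θ ≤ 1 := by nlinarith
    have t2 : 0 ≤ θ * β ^ 2 := by positivity
    nlinarith [mul_le_mul_of_nonneg_right t1 t2, mul_le_mul_of_nonneg_right K3 t2,
      mul_le_mul_of_nonneg_right (K1.trans (K2.trans K3)) t2]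
  · refine ⟨-(((sig j n true : ℝ) * lenf lam j - n) + ((sig j n false : ℝ) * lenf lam j - n)) /
      (8 * nA η.1 ε n), fun x hx => ?_⟩
    have e1 := (hW.asy j n h x hx _ (hip_mem hW hs h true)).1
    have e2 := (hW.asy j n h x hx _ (hip_mem hW hs h false)).1
    have g := am_gap hW Kθ hs h hx
    have d := (hip_delta hK hW hs h hx).1
    have q : ‖(ddm B η ε lam x (sig j n true) j n - ddm B η ε lam x (sig j n false) j n) /
        (am B η ε lam x (sig j n true) j n - am B η ε lam x (sig j n false) j n)‖ ≤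
        16 * K ^ 3 * θ * nA η.1 ε n := by
      rw [norm_div, div_le_iff₀ (by linarith)]
      have : 0 ≤ 16 * K ^ 3 * θ * nA η.1 ε n := by positivity
      nlinarith
    simp only [phi, mainL, if_true]
    generalize (ddm B η ε lam x (sig j n true) j n - ddm B η ε lam x (sig j n false) j n) /
      (am B η ε lam x (sig j n true) j n - am B η ε lam x (sig j n false) j n) = T at *
    simp only [am]
    generalize Mx B η ε lam x (sig j n true) j n n n = M at *
    generalize Mx B η ε lam x (sig j n false) j n n n = M' at *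
    generalize ((sig j n true : ℝ) * lenf lam j - n : ℂ) = hq at *
    generalize ((sig j n false : ℝ) * lenf lam j - n : ℂ) = hq' at *
    generalize Qlim B η.1 x j n = Q at *
    generalize nA η.1 ε n = α at *
    have e : (-(hq - M + (hq' - M')) + T) / (8 * α) - Q / 2 - -(hq + hq') / (8 * α) =
        ((M - 2 * α * Q) + (M' - 2 * α * Q) + T) / (8 * α) := by field_simp; ring
    rw [e, norm_div, norm_mul, norm_real, Real.norm_of_nonneg a.le, Complex.norm_ofNat,
      div_le_iff₀ (by positivity)]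
    refine (norm_add_le _ _).trans
      ((add_le_add ((norm_add_le _ _).trans (add_le_add e1 e2)) q).trans ?_)
    have t2 : 0 ≤ θ * α := by positivity
    nlinarith [mul_le_mul_of_nonneg_right (K1.trans (K2.trans K3)) t2]

theorem hip_row (hK : KerOK B η C) (hW : WinX B η ε lam c cut C K θ) (hθ : 0 ≤ θ)
    (hT : 16 * K ^ 3 * θ ≤ 1) (hs : SigX B η ε lam c cut K x0 sig) (h : cut < wc lam j n) {x : X}
    (hx : x ∈ ball (0 : X) 2) {K1 : ℝ} (hK1 : 1 ≤ K1) (w : X)
    (hM : ∀ σ ∈ ball (wc lam j n : ℂ) (c / (2 * wc lam j n)), ∀ p : ℤ, |p| = n →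
      ‖fderiv ℂ (fun x => Mx B η ε lam x σ j n p p) x w‖ ≤
        K1 * (n ^ 2 * ε * beta η.1 n * Real.exp (3 / 4 * η.1 * n)) * (ε * sg1 η.1 w) ∧
      ‖fderiv ℂ (fun x => Mx B η ε lam x σ j n p (-p)) x w‖ ≤
        K1 * (n ^ 2 * Real.exp (3 / 4 * η.1 * (2 * n))) * (ε * sg1 η.1 w))
    (k : Bool) (hw : ∀ b : Idx, |(b.2 : ℝ)| < rpos (j, k, n) → w b = 0) :
    ‖fderiv ℂ (fun x => phi B η ε lam sig x (j, k, n)) x w‖ ≤
      33 * K ^ 2 * K1 * sg2 η.1 (rpos (j, k, n)) w := by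
  have W := hW.toWinOK
  obtain ⟨n1, n2, -, -⟩ := hW.n1 j n h
  have a := nA_pos (η := η.1) hW.ε_pos n1
  have b := nB_pos (η := η.1) hW.ε_pos n1
  have e0 := hW.ε_pos
  have k1 := hW.one_le
  have K2 : K ≤ K ^ 2 := by nlinarith
  have K3 : K ^ 2 ≤ K ^ 3 := by nlinarith
  have Kθ : K * θ ≤ 1 / 16 := by nlinarith
  have S0 : ∀ pos, 0 ≤ sg2 η.1 pos w := fun _ => tsum_nonneg fun _ => by positivity
  have bn := beta_pos η.1 n
  have ee : ∀ m : ℕ, Real.exp (3 / 4 * η.1 * m) * ex (3 / 4 * η.1) m = 1 := fun m => by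
    rw [ex, ← Real.exp_add]; simp
  obtain ⟨p1, p2, p3⟩ := hip_am hK W h hx (hip_mem W hs h true)
  obtain ⟨q1, q2, q3⟩ := hip_am hK W h hx (hip_mem W hs h false)
  cases k
  · have s := sg1_le η.2 (2 * n) w fun b hb => hw b (by simpa [rpos] using hb)
    have e2 := ee (2 * n)
    push_cast at s e2
    have b2 := beta_pos η.1 (2 * n)
    have key : n ^ 2 * Real.exp (3 / 4 * η.1 * (2 * n)) * (ε * sg1 η.1 w) ≤
        nB η.1 ε n * sg2 η.1 (2 * n) w := by
      calc _ ≤ n ^ 2 * Real.exp (3 / 4 * η.1 * (2 * n)) *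
            (ε * (beta η.1 (2 * n) * ex (3 / 4 * η.1) (2 * n) * sg2 η.1 (2 * n) w)) := by gcongr
        _ = n ^ 2 * ε * beta η.1 (2 * n) * (Real.exp (3 / 4 * η.1 * (2 * n)) *
            ex (3 / 4 * η.1) (2 * n)) * sg2 η.1 (2 * n) w := by ring
        _ = _ := by rw [e2, mul_one, nB]
    have le1 : ε * beta η.1 n * Real.exp (3 / 4 * η.1 * n) ≤ Real.exp (3 / 4 * η.1 * (2 * n)) := by
      have h1 : beta η.1 n ≤ 1 := by
        rw [beta, div_le_one (pow_pos (br_pos _) 4)]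
        refine le_trans ?_ (one_le_pow₀ (one_le_br _))
        rw [ex, Real.exp_le_one_iff]
        have := η.2
        nlinarith [abs_nonneg ((n : ℤ) : ℝ)]
      have h2 : Real.exp (3 / 4 * η.1 * n) ≤ Real.exp (3 / 4 * η.1 * (2 * n)) := by
        apply Real.exp_le_exp.2
        have := η.2
        have : (0 : ℝ) ≤ n := n.cast_nonneg
        nlinarith
      calc _ ≤ 1 * 1 * Real.exp (3 / 4 * η.1 * (2 * n)) := by gcongr; exact hW.ε_le
        _ = _ := by ring
    have s1 : 0 ≤ ε * sg1 η.1 w := mul_nonneg e0.le (tsum_nonneg fun b =>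
      mul_nonneg (norm_nonneg _) (mul_pos (beta_pos _ _) (ex_pos _ _)).le)
    have := hip_B (w := w) (S := sg2 η.1 (2 * n) w) (K1 := K1) (K2 := 2 * K * K1) (K3 := 3 * K) b
      p1 p2 (by
        have hh : ‖((sig j n true : ℝ) * lenf lam j - n : ℂ)‖ ≤ 2 * K * nB η.1 ε n := by
          have := hs.near j n true h
          rw [← Real.norm_eq_abs, ← norm_real] at this
          simpa using this
        have m := (hip_sup W h hx (hip_mem W hs h true)).1
        refine (norm_sub_le _ _).trans ?_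
        nlinarith)
      (by
        rw [p3]
        refine (hM _ (hip_mem W hs h true) n (by simp)).1.trans ?_
        calc _ = K1 * (n ^ 2 * (ε * beta η.1 n * Real.exp (3 / 4 * η.1 * n)) * (ε * sg1 η.1 w)) := by
              ring
          _ ≤ K1 * (n ^ 2 * Real.exp (3 / 4 * η.1 * (2 * n)) * (ε * sg1 η.1 w)) := by gcongr
          _ ≤ K1 * (nB η.1 ε n * sg2 η.1 (2 * n) w) := by gcongr
          _ = _ := by ring)
      ((hip_ddm_fderiv hK W h hx (hip_mem W hs h true) (t := K1 * (nB η.1 ε n * sg2 η.1 (2 * n) w))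
        fun p hp => (hM _ (hip_mem W hs h true) p hp).2.trans (by
          rw [mul_assoc]; gcongr)).trans (le_of_eq (by ring)))
    refine this.trans ?_
    simp only [rpos, Bool.false_eq_true, if_false]
    have := S0 (2 * n)
    gcongr
    nlinarith
  · have s := sg1_le η.2 n w fun b hb => hw b (by simpa [rpos] using hb)
    have e1 := ee n
    have key : Real.exp (3 / 4 * η.1 * n) * (ε * sg1 η.1 w) ≤ ε * beta η.1 n * sg2 η.1 n w := by
      calc _ ≤ Real.exp (3 / 4 * η.1 * n) *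
            (ε * (beta η.1 n * ex (3 / 4 * η.1) n * sg2 η.1 n w)) := by gcongr
        _ = ε * beta η.1 n * (Real.exp (3 / 4 * η.1 * n) * ex (3 / 4 * η.1) n) * sg2 η.1 n w := by
            ring
        _ = _ := by rw [e1, mul_one]
    have S := S0 n
    have da : ∀ s, ‖fderiv ℂ (fun x => Mx B η ε lam x (sig j n s) j n n n) x w‖ ≤
        K1 * nA η.1 ε n * sg2 η.1 n w := fun s => by
      refine (hM _ (hip_mem W hs h s) n (by simp)).1.trans ?_
      calc _ = K1 * (n ^ 2 * ε * beta η.1 n) * (Real.exp (3 / 4 * η.1 * n) * (ε * sg1 η.1 w)) := by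
            ring
        _ ≤ K1 * (n ^ 2 * ε * beta η.1 n) * (ε * beta η.1 n * sg2 η.1 n w) := by gcongr
        _ = _ := by rw [nA]; ring
    have dd := hip_diff W hs h (g := fun σ => fderiv ℂ (fun x => ddm B η ε lam x σ j n) x w)
      (hip_slice isOpen_ball isOpen_ball (hip_ddm_diff hK W h) hx w).2 fun σ hσ =>
        hip_ddm_fderiv hK W h hx hσ
          (t := K1 * n ^ 2 * Real.exp (3 / 4 * η.1 * n) * (ε * beta η.1 n * sg2 η.1 n w))
          fun p hp => (hM σ hσ p hp).2.trans (by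
            rw [show 3 / 4 * η.1 * (2 * n) = 3 / 4 * η.1 * n + 3 / 4 * η.1 * n by ring,
              Real.exp_add]
            calc _ = K1 * n ^ 2 * Real.exp (3 / 4 * η.1 * n) *
                  (Real.exp (3 / 4 * η.1 * n) * (ε * sg1 η.1 w)) := by ring
              _ ≤ _ := by gcongr)
    have cl := mul_pos hW.c_pos (lenf_pos lam j)
    have := hip_A (w := w) (K1 := K1) (K2 := 32 * K ^ 2 * K1) a b S (by linarith) (by positivity)
      p1 q1 p2 q2 (am_gap W Kθ hs h hx) (by rw [p3]; exact da true) (by rw [q3]; exact da false)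
      ((hip_delta hK W hs h hx).2.trans (mul_le_of_le_one_left (by positivity) hT))
      (le_of_mul_le_mul_right (dd.trans (by
        calc _ = 32 * K ^ 2 * K1 * nB η.1 ε n * (n ^ 2 * (ε * beta η.1 n) * sg2 η.1 n w) *
              (nB η.1 ε n * wc lam j n * Real.exp (3 / 4 * η.1 * n)) := by ring
          _ ≤ 32 * K ^ 2 * K1 * nB η.1 ε n * (n ^ 2 * (ε * beta η.1 n) * sg2 η.1 n w) *
              (c * lenf lam j * (ε * beta η.1 n)) :=
              mul_le_mul_of_nonneg_left (hW.n2 j n h) (by positivity)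
          _ = _ := by rw [nA]; ring)) cl)
    refine this.trans ?_
    simp only [rpos, if_true]
    gcongr
    nlinarith

theorem phi_ok (hK : KerOK B η C) (K : ℝ) : ∃ K' : ℝ, ∀ θ' > 0, ∃ θ > 0, K * θ ≤ 1 / 16 ∧
    ∀ (ε lam c cut : ℝ) (x0 : X) (sig : Bool → ℕ → Bool → ℝ), WinX B η ε lam c cut C K θ →
      ‖x0‖ ≤ 1 → SigX B η ε lam c cut K x0 sig →
      PhiOK B η.1 lam cut x0 K' θ' fun x r => phi B η ε lam sig x r.1 := by
  obtain ⟨K1, hK1, hM⟩ := Mx_fderiv hK K
  refine ⟨33 * K ^ 2 * K1, fun θ' hθ' => ?_⟩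
  obtain ⟨θ, hθ, t1, t2⟩ : ∃ θ > 0, 16 * (|K| + 1) ^ 3 * θ ≤ 1 ∧ 16 * (|K| + 1) ^ 3 * θ ≤ θ' := by
    refine ⟨min 1 θ' / (16 * (|K| + 1) ^ 3), by positivity, ?_⟩
    rw [mul_div_cancel₀ _ (by positivity)]
    exact ⟨min_le_left _ _, min_le_right _ _⟩
  have k0 : K ≤ |K| + 1 := by linarith [le_abs_self K]
  have k1 : |K| + 1 ≤ (|K| + 1) ^ 3 := le_self_pow₀ (by linarith [abs_nonneg K]) (by norm_num)
  have Kθ : K * θ ≤ 1 / 16 := by nlinarith
  refine ⟨θ, hθ, Kθ, fun ε lam c cut x0 sig hW hx0 hs => ?_⟩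
  have W := hW.toWinOK
  have k3 : 16 * K ^ 3 * θ ≤ 16 * (|K| + 1) ^ 3 * θ := by have := hW.one_le; gcongr
  have sub : ball x0 (1 / 2) ⊆ ball (0 : X) 2 :=
    ball_subset_ball' (by rw [dist_zero_right]; linarith)
  refine ⟨?_, ?_, ?_, ?_, ?_⟩
  · rintro ⟨⟨j, k, n⟩, h⟩ x hx
    obtain ⟨p1, p2, -⟩ := hip_am hK W h (sub hx) (hip_mem W hs h true)
    obtain ⟨q1, q2, -⟩ := hip_am hK W h (sub hx) (hip_mem W hs h false)
    have ne := norm_pos_iff.1 ((mul_pos (by norm_num) (nB_pos hW.ε_pos (hW.n1 j n h).1)).trans_le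
      (am_gap W Kθ hs h (sub hx)))
    refine DifferentiableAt.differentiableWithinAt ?_
    cases k
    · exact (p2.sub (p1.pow 2)).mul_const _
    · exact ((p1.add q1).neg.add ((p2.sub q2).mul ((p1.sub q1).inv ne))).mul_const _
  · rintro x hx hr ⟨⟨j, k, n⟩, h⟩
    have re : ∀ s, ∃ u v : ℝ, am B η ε lam x (sig j n s) j n = u ∧
        ddm B η ε lam x (sig j n s) j n = v := fun s => by
      have m := mem_ball_iff_norm.1 (hip_mem W hs h s)
      rw [← ofReal_sub, norm_real, Real.norm_eq_abs] at m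
      obtain ⟨r1, r2⟩ := Mx_real hK W h (sub hx) hr m
      exact ⟨(am B η ε lam x (sig j n s) j n).re, _, Complex.ext (by simp) (by simp [am, r1]), r2⟩
    obtain ⟨u, v, e1, e2⟩ := re true
    obtain ⟨u', v', e3, e4⟩ := re false
    simp only [phi, e1, e2, e3, e4]
    split_ifs <;> norm_cast
  · rintro ⟨⟨j, k, n⟩, h⟩
    have := (phi_zero W Kθ hs h (sub (mem_ball_self (by norm_num)))).2 fun s => hs.root j n s h
    cases k
    · exact this.2
    · exact this.1
  · rintro ⟨⟨j, k, n⟩, h⟩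
    obtain ⟨k0, hk⟩ := hip_close hK W hθ.le (k3.trans t1) hs h k
    exact ⟨k0, fun x hx => (hk x (sub hx)).trans (k3.trans t2)⟩
  · rintro ⟨⟨j, k, n⟩, h⟩ x hx w hw
    exact hip_row hK hW hθ.le (k3.trans t1) hs h (sub hx) hK1 w
      (fun σ hσ => hM ε lam c cut θ hW j n h x (sub hx) σ hσ w) k hw

end StekIso
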