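import Pool.Agent.Lib.MP_fa022d_an.HiQ
import Pool.Agent.Lib.MP_fa022d_an.HiN3

/-! The target values. -/

open Set Filter Topology Metric BoundedContinuousFunction Complex

noncomputable section
namespace StekIso
variable {B : Base} {η : Pos} {ε lam c cut C K θ : ℝ}

theorem his_uu {N0 n : ℕ} (hn : 1 ≤ n) (h : N0 ≤ 2 * n) (j : Bool) :
    uu (tail N0) j (2 * n) = 1 + I := by
  have a : (0 : ℤ) < 2 * n := by omega
  have b : (N0 : ℤ) ≤ |(2 * n : ℤ)| := by rw [abs_of_pos a]; omega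
  have e : Even (-(2 * n : ℤ)) := (even_two_mul _).neg
  simp only [uu, a, if_true, tail_apply, b, abs_neg, show ¬(0 : ℤ) < -(2 * n) by omega, if_false,
    sg, e.neg_one_zpow, mul_one]

theorem his_root (hK : KerOK B η C) (hW : WinOK B η ε lam c cut C K θ) (hθ : K * θ ≤ 1 / 16)
    {N0 : ℕ} {j : Bool} {n : ℕ} (h : cut < wc lam j n) (hN : N0 ≤ 2 * n) {s : ℝ}
    (hs : s = 1 ∨ s = -1) : ∃ σ : ℝ, |σ - wc lam j n| ≤ c / (4 * wc lam j n) ∧
      am B η ε lam (tail N0) σ j n ^ 2 = ddm B η ε lam (tail N0) σ j n ∧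
      |σ * lenf lam j - n| ≤ 2 * K * nB η.1 ε n ∧
      2 * nB η.1 ε n ≤ s * (σ * lenf lam j - n) := by
  obtain ⟨n1, n2, n3, -⟩ := hW.n1 j n h
  have a0 := nA_pos (η := η.1) hW.ε_pos n1
  have b0 := nB_pos (η := η.1) hW.ε_pos n1
  have l0 := lenf_pos lam j
  have w0 := wc_pos hW h
  have c0 := hW.c_pos
  have K1 := hW.one_le
  have θ0 : 0 < θ := by
    by_contra hn
    nlinarith [not_lt.1 hn]
  have θ1 : θ ≤ 1 / 16 := by nlinarith
  have s1 : |s| = 1 := by rcases hs with e | e <;> simp [e]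
  have s2 : s * s = 1 := by rcases hs with e | e <;> simp [e]
  have x2 : tail N0 ∈ ball (0 : X) 2 :=
    mem_ball_zero_iff.2 ((norm_tail_le N0).trans_lt one_lt_two)
  obtain ⟨w, hw⟩ : ∃ w, w = wc lam j n := ⟨_, rfl⟩
  obtain ⟨l, hl⟩ : ∃ l, l = lenf lam j := ⟨_, rfl⟩
  obtain ⟨b, hb⟩ : ∃ b, b = nB η.1 ε n := ⟨_, rfl⟩
  have wl : w * l = n := by rw [hw, hl, wc]; exact div_mul_cancel₀ _ l0.ne'
  let σ (τ : ℝ) : ℝ := w + s * τ / l
  have hσ : ∀ τ, σ τ * l - n = s * τ := fun τ => by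
    simp only [σ]
    rw [add_mul, wl, div_mul_cancel₀ _ (hl ▸ l0.ne')]
    ring
  have win : ∀ τ ∈ Icc 0 (2 * K * b), |σ τ - wc lam j n| ≤ c / (4 * wc lam j n) := fun τ hτ => by
    rw [← hw, ← hl, ← hb] at n3
    rw [← hw] at w0 ⊢
    rw [← hl] at l0
    simp only [σ]
    rw [add_sub_cancel_left, abs_div, abs_mul, s1, one_mul, abs_of_nonneg hτ.1, abs_of_pos l0,
      div_le_div_iff₀ l0 (by positivity)]
    have h1 : τ * (4 * w) ≤ 2 * K * b * (4 * w) := by gcongr; exact hτ.2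
    have h2 : K * (b * w) ≤ K * (θ * (c * l)) := by gcongr
    have h3 : K * θ * (c * l) ≤ 1 / 16 * (c * l) := by gcongr
    have h4 : 0 < c * l := by positivity
    nlinarith
  have win' : ∀ τ ∈ Icc 0 (2 * K * b), |σ τ - wc lam j n| < c / (2 * wc lam j n) := fun τ hτ =>
    (win τ hτ).trans_lt (div_lt_div_of_pos_left c0 (by positivity) (by linarith))
  have mem : ∀ τ ∈ Icc 0 (2 * K * b),
      (σ τ : ℂ) ∈ ball (wc lam j n : ℂ) (c / (2 * wc lam j n)) := fun τ hτ => by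
    rw [mem_ball_iff_norm, ← ofReal_sub, norm_real]
    exact win' τ hτ
  have cont : ∀ p q : ℤ, ContinuousOn (fun τ => Mx B η ε lam (tail N0) (σ τ) j n p q)
      (Icc 0 (2 * K * b)) := fun p q =>
    (Mx_diff hK hW h p q).continuousOn.comp (f := fun τ : ℝ => (tail N0, (σ τ : ℂ)))
      (by fun_prop) fun τ hτ => ⟨x2, mem τ hτ⟩
  have hH : (zOf B η ε lam (tail N0)).2 ∈ ball (B.H0 : ℂ) 1 :=
    mem_ball_iff_norm.2 ((hW.inV _ x2).2.trans_lt one_half_lt_one)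
  have bd : ∀ τ ∈ Icc 0 (2 * K * b),
      |s * (Mx B η ε lam (tail N0) (σ τ) j n n n).re| ≤ b / 16 ∧
      ‖Mx B η ε lam (tail N0) (σ τ) j n n (-n)‖ ≤ K * b ∧
      5 / 2 * b ≤ ‖Mx B η ε lam (tail N0) (σ τ) j n n (-n)‖ := fun τ hτ => by
    obtain ⟨u1, u2⟩ := hW.sup j n h _ x2 _ hH _ (mem τ hτ) n (abs_of_nonneg (by omega))
    obtain ⟨-, u3, -⟩ := hW.asy j n h _ x2 _ (mem τ hτ)
    rw [his_uu n1 hN, ← hb] at u3
    rw [← hb] at u2 n2 b0
    refine ⟨?_, u2, ?_⟩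
    · rw [abs_mul, s1, one_mul]
      refine (abs_re_le_norm _).trans (le_trans u1 ?_)
      have h2 : K * nA η.1 ε n ≤ K * (θ * b) := by gcongr
      have h3 : K * θ * b ≤ 1 / 16 * b := by gcongr
      linarith
    · have h1 : 7 / 5 ≤ ‖1 + I‖ := by
        refine le_of_sq_le_sq (a := 7 / 5) ?_ (norm_nonneg _)
        rw [Complex.sq_norm, normSq_apply]
        norm_num
      have h2 : ‖2 * I * (b : ℂ) * (1 + I)‖ = 2 * b * ‖1 + I‖ := by
        rw [norm_mul, norm_mul, norm_mul, norm_I, Complex.norm_two, norm_real,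
          Real.norm_of_nonneg b0.le, mul_one]
      have h3 := norm_sub_norm_le (2 * I * (b : ℂ) * (1 + I))
        (Mx B η ε lam (tail N0) (σ τ) j n n (-n))
      rw [norm_sub_rev] at h3
      nlinarith
  have b0' : 0 < b := hb ▸ b0
  have T0 : 0 ≤ 2 * K * b := by positivity
  have iv := intermediate_value_Icc T0 (f := fun τ =>
    τ - s * (Mx B η ε lam (tail N0) (σ τ) j n n n).re - ‖Mx B η ε lam (tail N0) (σ τ) j n n (-n)‖)
    ((continuousOn_id.sub (continuousOn_const.mul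
      (continuous_re.comp_continuousOn (cont n n)))).sub (cont n (-n)).norm)
  obtain ⟨τ, hτ, e⟩ := iv (show (0 : ℝ) ∈ Icc _ _ from by
    obtain ⟨p1, p2, p3⟩ := bd 0 ⟨le_rfl, T0⟩
    obtain ⟨q1, q2, q3⟩ := bd _ ⟨T0, le_rfl⟩
    have := abs_le.1 p1
    have := abs_le.1 q1
    constructor <;> nlinarith)
  obtain ⟨p1, p2, p3⟩ := bd τ hτ
  obtain ⟨r1, r2⟩ := Mx_real hK hW h x2 (tail_real N0) (win' τ hτ)
  refine ⟨σ τ, win τ hτ, ?_, ?_, ?_⟩
  · have e1 : am B η ε lam (tail N0) (σ τ) j n =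
        ((s * ‖Mx B η ε lam (tail N0) (σ τ) j n n (-n)‖ : ℝ) : ℂ) := by
      have e2 : s * ‖Mx B η ε lam (tail N0) (σ τ) j n n (-n)‖ =
          σ τ * l - n - (Mx B η ε lam (tail N0) (σ τ) j n n n).re := by
        rw [hσ]
        simp only at e
        linear_combination (-s) * e - (Mx B η ε lam (tail N0) (σ τ) j n n n).re * s2
      rw [e2, am, hl]
      apply Complex.ext <;> simp [r1]
    rw [e1, r2, ← ofReal_pow, mul_pow, sq s, s2, one_mul]
  · rw [← hl, ← hb, hσ, abs_mul, s1, one_mul, abs_of_nonneg hτ.1]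
    exact hτ.2
  · rw [← hl, ← hb, hσ, ← mul_assoc, s2, one_mul]
    have := abs_le.1 p1
    simp only at e
    linarith

/-- Intermediate value theorem for `σ ↦ (am σ).re - ‖Mx σ n (-n)‖` on `[wc, wc + t]` and for
`(am σ).re + ‖Mx σ n (-n)‖` on `[wc - t, wc]`, `t = 2 K nB / lenf` (`t ≤ c / (4 wc)` by `n1`);
`uu (tail N0) j (2 n) = 1 + I`, so `‖Mx n (-n)‖ ≥ (2 √2 - θ) nB` by `asy`, `≤ K nB` by `sup`;
`‖Mx n n‖ ≤ K nA ≤ K θ nB`; `Mx_real`, `Mx_diff`. -/
theorem exists_sig (hK : KerOK B η C) (hW : WinOK B η ε lam c cut C K θ) (hθ : K * θ ≤ 1 / 16)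
    {N0 : ℕ} (hN : ∀ j n, cut < wc lam j n → N0 ≤ 2 * n) :
    ∃ sig, SigX B η ε lam c cut K (tail N0) sig := by
  have H := fun j n (s : Bool) (h : cut < wc lam j n) => his_root hK hW hθ h (hN j n h)
    (s := if s then 1 else -1) (by cases s <;> simp)
  choose! sig h1 h2 h3 h4 using H
  have pos : ∀ j n, cut < wc lam j n → 2 * nB η.1 ε n ≤ sig j n true * lenf lam j - n :=
    fun j n h => by simpa using h4 j n true h
  have neg : ∀ j n, cut < wc lam j n → sig j n false * lenf lam j - n ≤ -(2 * nB η.1 ε n) :=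
    fun j n h => by
      have := h4 j n false h
      simp only [Bool.false_eq_true, if_false] at this
      linarith
  refine ⟨sig, ⟨h1, fun j n h e => ?_, h2, h3⟩, pos, neg⟩
  have a := pos j n h
  have b := neg j n h
  have := nB_pos (η := η.1) hW.ε_pos (hW.n1 j n h).1
  rw [e] at a
  linarith

end StekIso
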