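import Pool.Agent.Lib.MP_fa022d_an.Defs4
import Pool.Agent.Lib.MP_fa022d_an.BaseK

/-! Asymptotics of the weights and of the quadratic form. -/

open Set Filter Topology Metric BoundedContinuousFunction Complex

noncomputable section
namespace StekIso

theorem hiw1_master {η τ : ℝ} (hη : 0 < η) (hτ : 0 < τ) :
    ∀ᶠ n : ℕ in atTop, 1 ≤ n ∧ 16 ≤ τ * n ∧ br n ^ 7 * ex (η / 4) n ≤ τ := by
  have a : Tendsto (fun n : ℕ => br n ^ 7 * ex (η / 4) n) atTop (𝓝 0) := by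
    have := (summable_ex (η := η / 4) (by positivity) 7).tendsto_cofinite_zero.comp
      (Nat.cast_injective (R := ℤ)).tendsto_cofinite
    rwa [Nat.cofinite_eq_atTop] at this
  filter_upwards [eventually_ge_atTop 1, a.eventually_le_const hτ,
    (tendsto_natCast_atTop_atTop.const_mul_atTop hτ).eventually_ge_atTop 16] with n a b c
  exact ⟨a, c, b⟩

theorem hiw1_alg {n b b2 E β β2 τ : ℝ} (hn : 1 ≤ n) (hb : b = 1 + n) (hb2 : b2 = 1 + 2 * n)
    (hE : 0 < E) (hE1 : E ≤ 1) (hβ : β = E ^ 4 / b ^ 4) (hβ2 : β2 = E ^ 8 / b2 ^ 4)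
    (h1 : 16 ≤ τ * n) (h2 : b ^ 7 * E ≤ τ) :
    E ^ 8 ≤ τ * β ∧ n ^ 3 * β ≤ τ ∧ n * β ≤ τ * E ^ 3 ∧ β ^ 2 ≤ τ * β2 ∧ n ^ 3 * β2 ≤ τ ∧
      n ^ 3 * β2 ^ 2 * (E ^ 6)⁻¹ ≤ τ * β ^ 2 ∧ n ^ 3 * β2 * (E ^ 3)⁻¹ ≤ τ * β := by
  have nb : n ≤ b := by linarith
  have b1 : 1 ≤ b := by linarith
  have n0 : 0 ≤ n := by linarith
  have b0 : 0 < b := by linarith
  have bb : b ≤ b2 := by linarith
  have b20 : 0 < b2 := by linarith
  have k : ∀ i m : ℕ, i ≤ 7 → 1 ≤ m → b ^ i * E ^ m ≤ τ := fun i m hi hm =>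
    (mul_le_mul (pow_le_pow_right₀ b1 hi) (pow_le_of_le_one hE.le hE1 (by omega))
      (by positivity) (by positivity)).trans h2
  have p : 0 < β := by rw [hβ]; positivity
  have p2 : 0 < β2 := by rw [hβ2]; positivity
  have e1 : β * b ^ 4 = E ^ 4 := by rw [hβ]; field_simp
  have e2 : β2 * b2 ^ 4 = E ^ 8 := by rw [hβ2]; field_simp
  have n3 : n ^ 3 ≤ b ^ 3 := by gcongr
  have a1 : β ≤ E ^ 4 := (le_mul_of_one_le_right p.le (one_le_pow₀ b1)).trans_eq e1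
  have a2 : β2 ≤ β * E ^ 4 := by
    refine le_of_mul_le_mul_right ?_ (pow_pos b0 4)
    calc β2 * b ^ 4 ≤ β2 * b2 ^ 4 := by gcongr
      _ = β * E ^ 4 * b ^ 4 := by rw [e2]; linear_combination -E ^ 4 * e1
  have τ0 : 0 < τ := (by positivity : 0 < b ^ 7 * E).trans_le h2
  refine ⟨?_, ?_, ?_, ?_, ?_, ?_, ?_⟩
  · calc E ^ 8 = b ^ 4 * E ^ 4 * β := by linear_combination -E ^ 4 * e1
      _ ≤ τ * β := by gcongr; exact k 4 4 (by omega) (by omega)
  · calc n ^ 3 * β ≤ b ^ 3 * E ^ 4 := by gcongr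
      _ ≤ τ := k 3 4 (by omega) (by omega)
  · calc n * β ≤ b * E ^ 4 := by gcongr
      _ = b ^ 1 * E ^ 1 * E ^ 3 := by ring
      _ ≤ τ * E ^ 3 := by gcongr; exact k 1 1 (by omega) (by omega)
  · refine le_of_mul_le_mul_right ?_ (pow_pos b0 8)
    calc β ^ 2 * b ^ 8 = β2 * b2 ^ 4 := by
          rw [e2]; linear_combination (β * b ^ 4 + E ^ 4) * e1
      _ ≤ β2 * (2 * b) ^ 4 := by gcongr; linarith
      _ = 16 * β2 * b ^ 4 := by ring
      _ ≤ τ * b ^ 4 * β2 * b ^ 4 := by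
          gcongr
          exact h1.trans (mul_le_mul_of_nonneg_left (nb.trans (le_self_pow₀ b1 (by omega))) τ0.le)
      _ = _ := by ring
  · calc n ^ 3 * β2 ≤ b ^ 3 * (E ^ 4 * E ^ 4) := by gcongr; exact a2.trans (by gcongr)
      _ = b ^ 3 * E ^ 8 := by ring
      _ ≤ τ := k 3 8 (by omega) (by omega)
  · calc n ^ 3 * β2 ^ 2 * (E ^ 6)⁻¹ ≤ b ^ 3 * (β * E ^ 4) ^ 2 * (E ^ 6)⁻¹ := by gcongr
      _ = b ^ 3 * E ^ 2 * β ^ 2 := by field_simp
      _ ≤ τ * β ^ 2 := by gcongr; exact k 3 2 (by omega) (by omega)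
  · calc n ^ 3 * β2 * (E ^ 3)⁻¹ ≤ b ^ 3 * (β * E ^ 4) * (E ^ 3)⁻¹ := by gcongr
      _ = b ^ 3 * E ^ 1 * β := by field_simp
      _ ≤ τ * β := by gcongr; exact k 3 1 (by omega) (by omega)

/-- all the inequalities between the weights that hold for large `n` -/
theorem hiw1_num {η τ : ℝ} (hη : 0 < η) (hτ : 0 < τ) : ∀ᶠ n : ℕ in atTop, 1 ≤ n ∧ 1 ≤ τ * n ∧
    ex (2 * η) n ≤ τ * beta η n ∧ n ^ 3 * beta η n ≤ τ ∧ n * beta η n ≤ τ * ex (3 / 4 * η) n ∧
    beta η n ^ 2 ≤ τ * beta η (2 * n) ∧ n ^ 3 * beta η (2 * n) ≤ τ ∧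
    n ^ 3 * beta η (2 * n) ^ 2 * Real.exp (3 / 2 * η * n) ≤ τ * beta η n ^ 2 ∧
    n ^ 3 * beta η (2 * n) * Real.exp (3 / 4 * η * n) ≤ τ * beta η n := by
  filter_upwards [hiw1_master hη hτ] with n ⟨h0, h1, h2⟩
  have n0 : (0 : ℝ) ≤ n := n.cast_nonneg
  have e : ∀ (m : ℕ) (a : ℝ), a = m * (-(η / 4) * n) → Real.exp a = ex (η / 4) n ^ m :=
    fun m a h => by rw [h, Real.exp_nat_mul, ex, Int.cast_natCast, Nat.abs_cast]
  have e' : ∀ (m : ℕ) (a : ℝ), -a = m * (-(η / 4) * n) → Real.exp a = (ex (η / 4) n ^ m)⁻¹ :=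
    fun m a h => by rw [← e m _ h, Real.exp_neg, inv_inv]
  have a2 : |((2 * n : ℤ) : ℝ)| = 2 * n := by
    push_cast
    exact abs_of_nonneg (by positivity)
  have a1 : |((n : ℤ) : ℝ)| = n := by rw [Int.cast_natCast, Nat.abs_cast]
  obtain k := hiw1_alg (n := n) (b := br n) (b2 := br (2 * n)) (E := ex (η / 4) n)
    (β := beta η n) (β2 := beta η (2 * n)) (by exact_mod_cast h0) (by rw [br, a1])
    (by rw [br, a2]) (ex_pos _ _) ((basek_ex_mono (by positivity) _).trans (by simp [ex] : ex 0 n ≤ 1))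
    (by rw [beta, ← e 4 _ (by rw [← a1]; ring_nf : -η * |((n : ℤ) : ℝ)| = _), ex])
    (by rw [beta, ← e 8 _ (by rw [a2]; push_cast; ring : -η * |((2 * n : ℤ) : ℝ)| = _), ex]) h1 h2
  rw [e' 6 (3 / 2 * η * n) (by push_cast; ring), e' 3 (3 / 4 * η * n) (by push_cast; ring),
    show ex (2 * η) n = _ from e 8 _ (by rw [a1]; push_cast; ring),
    show ex (3 / 4 * η) n = _ from e 3 _ (by rw [a1]; push_cast; ring)]
  exact ⟨h0, by linarith, k⟩

/-- ratio of the weights -/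
def hiw1r (η : ℝ) (n : ℕ) (a : ℤ) : ℝ := Real.exp (η * a) * beta η (n + a) / beta η n

theorem hiw1_r_le {η : ℝ} (hη : 0 < η) (n : ℕ) (a : ℤ) :
    0 ≤ hiw1r η n a ∧ hiw1r η n a ≤ br a ^ 4 := by
  have p := beta_pos η n
  have q := beta_pos η (n + a)
  refine ⟨by unfold hiw1r; positivity, (div_le_iff₀ p).2 ?_⟩
  have b : br n ≤ br (n + a) * br a := by
    have := wts2_br (n + a) (-a)
    rw [add_neg_cancel_right, show br (-a) = br a by simp [br]] at this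
    nlinarith [one_le_br (n + a), one_le_br a]
  have e : Real.exp (η * a) * ex η (n + a) ≤ ex η n := by
    rw [ex, ex, ← Real.exp_add, Int.cast_natCast, Nat.abs_cast]
    push_cast
    exact Real.exp_le_exp.2 (by nlinarith [le_abs_self ((n : ℝ) + a)])
  have := br_pos n
  have := br_pos (n + a)
  have := ex_pos η n
  rw [beta, beta, ← mul_div_assoc, ← mul_div_assoc, div_le_div_iff₀ (by positivity) (by positivity)]
  calc _ ≤ ex η n * (br (n + a) * br a) ^ 4 := by gcongr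
    _ = _ := by ring

theorem hiw1_r_lim (η : ℝ) (a : ℤ) : Tendsto (fun n => hiw1r η n a) atTop (𝓝 1) := by
  have t : Tendsto (fun n : ℕ => (1 + (n : ℝ) + a)) atTop atTop :=
    tendsto_atTop_add_const_right _ _ (tendsto_atTop_add_const_left _ _ tendsto_natCast_atTop_atTop)
  have t1 := ((tendsto_const_nhds (x := (1 : ℝ))).sub
    ((tendsto_const_nhds (x := (a : ℝ))).div_atTop t)).pow 4
  rw [sub_zero, one_pow] at t1
  refine t1.congr' ?_
  filter_upwards [t.eventually_ge_atTop 1] with n h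
  have e : Real.exp (η * a) * ex η (n + a) = ex η n := by
    rw [ex, ex, ← Real.exp_add, Int.cast_natCast, Nat.abs_cast]
    push_cast
    rw [abs_of_nonneg (by linarith)]
    ring_nf
  have b : br (n + a) = 1 + n + a := by
    rw [br]
    push_cast
    rw [abs_of_nonneg (by linarith), add_assoc]
  have := ex_pos η n
  have h0 : 1 + (n : ℝ) + a ≠ 0 := by linarith
  rw [hiw1r, beta, beta, ← mul_div_assoc, e, b, br, Int.cast_natCast, Nat.abs_cast]
  field_simp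
  ring

/-- the quadratic form converges to its limit form, uniformly -/
theorem hiw1_Q {B : Base} {η : Pos} {Cs : ℝ} (hq : ∀ j p, ‖qn B η.1 j p‖ ≤
    Cs * (ex (3 / 4 * η.1) p.1 * ex (3 / 4 * η.1) p.2)) : ∃ Q ≥ 0,
    (∀ x ∈ ball (0 : X) 2, ∀ j n, ‖Qlim B η.1 x j n‖ ≤ Q) ∧ ∀ τ > 0, ∀ᶠ n : ℕ in atTop,
      ∀ ε, ∀ x ∈ ball (0 : X) 2, ∀ j, ‖((n : ℤ) : ℂ) ^ 2 * Qform B j (toV η ε x j).coeff n -
        nA η.1 ε n * Qlim B η.1 x j n‖ ≤ τ * nA η.1 ε n := by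
  have η0 := η.2
  have s : ∀ m : ℕ, Summable fun p : ℤ × ℤ => (br p.1 ^ m * ex (3 / 4 * η.1) p.1) *
      (br p.2 ^ m * ex (3 / 4 * η.1) p.2) := fun m => by
    have s := summable_ex (η := 3 / 4 * η.1) (by positivity) m
    have p : 0 ≤ fun k => br k ^ m * ex (3 / 4 * η.1) k := fun k =>
      mul_nonneg (pow_pos (br_pos k) m).le (ex_pos _ k).le
    exact s.mul_of_nonneg s p p
  obtain ⟨e, he⟩ : ∃ e : ℤ × ℤ → ℝ, ∀ p, e p = Cs * (ex (3 / 4 * η.1) p.1 * ex (3 / 4 * η.1) p.2) :=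
    ⟨_, fun _ => rfl⟩
  have se : Summable e := ((s 0).mul_left Cs).congr fun p => by rw [he]; ring
  have e0 : ∀ p, 0 ≤ e p := fun p => (norm_nonneg _).trans ((hq true p).trans_eq (he p).symm)
  have u : ∀ x ∈ ball (0 : X) 2, ∀ j p a b, ‖qn B η.1 j p * (uu x j a * uu x j b)‖ ≤ e p * 16 :=
    fun x hx j p a b => by
      have := mem_ball_zero_iff.1 hx
      have h1 : ‖uu x j a‖ ≤ 4 := (norm_uu_le x j a).trans (by linarith)
      have h2 : ‖uu x j b‖ ≤ 4 := (norm_uu_le x j b).trans (by linarith)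
      rw [norm_mul, norm_mul]
      exact mul_le_mul ((hq j p).trans_eq (he p).symm)
        ((mul_le_mul h1 h2 (norm_nonneg _) (by norm_num)).trans_eq (by norm_num))
        (by positivity) (e0 p)
  obtain ⟨d, hd⟩ : ∃ d : ℕ → ℤ × ℤ → ℝ, ∀ n p, d n p = hiw1r η.1 n p.1 * hiw1r η.1 n p.2 -
      if 1 ≤ n + p.1 ∧ 1 ≤ n + p.2 then 1 else 0 := ⟨_, fun _ _ => rfl⟩
  have db : ∀ n p, ‖e p * 16 * |d n p|‖ ≤ e p * 16 * (br p.1 ^ 4 * br p.2 ^ 4 + 1) := fun n p => by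
    have := e0 p
    rw [Real.norm_of_nonneg (by positivity), hd]
    obtain ⟨a1, a2⟩ := hiw1_r_le η0 n p.1
    obtain ⟨b1, b2⟩ := hiw1_r_le η0 n p.2
    have c1 := mul_le_mul a2 b2 b1 (a1.trans a2)
    have c0 := mul_nonneg a1 b1
    refine mul_le_mul_of_nonneg_left (abs_le.2 ⟨?_, ?_⟩) (by positivity) <;> split_ifs <;> linarith
  have sb : Summable fun p : ℤ × ℤ => e p * 16 * (br p.1 ^ 4 * br p.2 ^ 4 + 1) :=
    (((s 4).mul_left (Cs * 16)).add (se.mul_right 16)).congr fun p => by rw [he]; ring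
  have lim : Tendsto (fun n => ∑' p, e p * 16 * |d n p|) atTop (𝓝 0) := by
    have := tendsto_tsum_of_dominated_convergence (f := fun n p => e p * 16 * |d n p|)
      (g := fun _ => 0) (𝓕 := atTop) sb (fun p => ?_) (.of_forall db)
    · rwa [tsum_zero] at this
    have t := ((((hiw1_r_lim η.1 p.1).mul (hiw1_r_lim η.1 p.2)).sub_const 1).abs).const_mul
      (e p * 16)
    rw [mul_one, sub_self, abs_zero, mul_zero] at t
    refine t.congr' ?_
    filter_upwards [eventually_ge_atTop (p.1.natAbs + p.2.natAbs + 1)] with n h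
    rw [hd, if_pos (by omega)]
  have ql : ∀ x ∈ ball (0 : X) 2, ∀ j (n : ℕ) (p : ℤ × ℤ), ‖if 1 ≤ n + p.1 ∧ 1 ≤ n + p.2 then
      qn B η.1 j p * (uu x j (n + p.1) * uu x j (-n - p.2)) else 0‖ ≤ e p * 16 :=
    fun x hx j n p => by
      split_ifs
      · exact u x hx j p _ _
      · rw [norm_zero]; exact mul_nonneg (e0 p) (by norm_num)
  refine ⟨∑' p, e p * 16, tsum_nonneg fun p => mul_nonneg (e0 p) (by norm_num),
    fun x hx j n => tsum_of_norm_bounded (se.mul_right 16).hasSum (ql x hx j n), fun τ hτ => ?_⟩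
  filter_upwards [lim.eventually_le_const hτ] with n hn ε x hx j
  have a0 : 0 ≤ nA η.1 ε n := by unfold nA; positivity
  have sd : Summable fun p => e p * 16 * |d n p| := .of_norm_bounded sb (db n)
  have bd : ∀ p : ℤ × ℤ, ‖(d n p : ℂ) * (qn B η.1 j p * (uu x j (n + p.1) * uu x j (-n - p.2)))‖ ≤
      e p * 16 * |d n p| := fun p => by
    rw [norm_mul, norm_real, Real.norm_eq_abs, mul_comm]
    exact mul_le_mul_of_nonneg_right (u x hx j p _ _) (abs_nonneg _)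
  have key : ((n : ℤ) : ℂ) ^ 2 * Qform B j (toV η ε x j).coeff n = nA η.1 ε n * (Qlim B η.1 x j n +
      ∑' p : ℤ × ℤ, (d n p : ℂ) * (qn B η.1 j p * (uu x j (n + p.1) * uu x j (-n - p.2)))) := by
    rw [Qlim, ← (Summable.of_norm_bounded (se.mul_right 16) (ql x hx j n)).tsum_add
      (.of_norm_bounded sd bd), Qform, ← tsum_mul_left, ← tsum_mul_left]
    refine tsum_congr fun p => ?_
    have b : beta η.1 (-n - p.2) = beta η.1 (n + p.2) := by
      rw [show -(n : ℤ) - p.2 = -(n + p.2) by ring, beta, beta, basek_ex_neg]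
      simp only [br, Int.cast_neg, abs_neg]
    have r : nA η.1 ε n * (hiw1r η.1 n p.1 * hiw1r η.1 n p.2) * Real.exp (-η.1 * (p.1 + p.2)) =
        n ^ 2 * (ε * beta η.1 (n + p.1) * (ε * beta η.1 (n + p.2))) := by
      have := (beta_pos η.1 n).ne'
      have x1 : Real.exp (η.1 * p.1) * Real.exp (η.1 * p.2) * Real.exp (-η.1 * (p.1 + p.2)) = 1 := by
        rw [← Real.exp_add, ← Real.exp_add, Real.exp_eq_one_iff]; ring
      generalize Real.exp (-η.1 * (p.1 + p.2)) = y at x1 ⊢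
      rw [nA, hiw1r, hiw1r]
      field_simp
      linear_combination (n : ℝ) ^ 2 * ε ^ 2 * beta η.1 (n + p.1) * beta η.1 (n + p.2) * x1
    have r' := congrArg ((↑) : ℝ → ℂ) r
    rw [coeff_toV, coeff_toV, b, hd, qn]
    simp only [ofReal_mul, ofReal_pow, ofReal_natCast, ofReal_sub] at r' ⊢
    rw [Int.cast_natCast]
    split_ifs
    · rw [ofReal_one]
      linear_combination -(Qc B j p * uu x j (n + p.1) * uu x j (-n - p.2)) * r'
    · rw [ofReal_zero]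
      linear_combination -(Qc B j p * uu x j (n + p.1) * uu x j (-n - p.2)) * r'
  rw [key, ← mul_sub, add_sub_cancel_left, norm_mul, norm_real, Real.norm_of_nonneg a0, mul_comm]
  exact mul_le_mul_of_nonneg_right ((tsum_of_norm_bounded sd.hasSum bd).trans hn) a0

end StekIso
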