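import Pool.Agent.Lib.MP_fa022d_an.Defs4

open Set Filter Topology Metric BoundedContinuousFunction Complex

noncomputable section
namespace StekIso

theorem sepf_sq {d e c : ℝ} (hd : 1 ≤ d) (he : 0 ≤ e) (hc : c ≤ 1) (h : 3 * c ≤ |d ^ 2 - e ^ 2|) :
    c / d ≤ |d - e| := by
  rw [div_le_iff₀ (by linarith)]
  by_cases k : 1 ≤ |d - e|
  · nlinarith
  · have e1 : e ≤ 2 * d := by linarith [(abs_lt.1 (not_le.1 k)).1]
    rw [sq_sub_sq, abs_mul, abs_of_nonneg (by linarith : 0 ≤ d + e)] at h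
    nlinarith [abs_nonneg (d - e)]

theorem sepf_int {u v : ℤ} (h : u ≠ 0 ∨ v ≠ 0) : (1 : ℝ) ≤ |2 * (u : ℝ) ^ 2 - (v : ℝ) ^ 2| := by
  have k : 2 * u ^ 2 - v ^ 2 ≠ 0 := fun e => by
    have u0 : u ≠ 0 := fun z => h.elim (fun a => a z) fun a => a (by
      rw [z] at e; simpa using e)
    have u1 : (u : ℝ) ≠ 0 := by exact_mod_cast u0
    have e' : 2 * (u : ℝ) ^ 2 - (v : ℝ) ^ 2 = 0 := by exact_mod_cast e
    refine irrational_sqrt_two ⟨|(v : ℚ) / u|, ?_⟩
    rw [eq_comm, Real.sqrt_eq_iff_eq_sq (by norm_num) (by positivity)]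
    push_cast
    rw [sq_abs]
    field_simp
    linarith
  exact_mod_cast Int.one_le_abs k

theorem sepf_one {k k' : ℤ} (h : |k| ≠ |k'|) : (1 : ℝ) ≤ |(|(k : ℝ)|) - (|(k' : ℝ)|)| := by
  exact_mod_cast Int.one_le_abs (sub_ne_zero.2 h)

theorem exists_sep (a b : ℝ) (hab : a < b) : ∃ lam ∈ Ioo a b, ∃ c > 0, c ≤ 1 / 4 ∧
    c ≤ Real.exp (-lam) / 4 ∧ c ≤ Real.exp lam / 4 ∧ Sep (lenf lam) c := by
  have s2 : 0 < √(2 : ℝ) := by positivity
  obtain ⟨r, r1, r2⟩ := exists_rat_btwn (div_lt_div_of_pos_right (Real.exp_lt_exp.2 hab) s2)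
  rw [div_lt_iff₀ s2] at r1
  rw [lt_div_iff₀ s2] at r2
  have L0 : 0 < (r : ℝ) * √2 := (Real.exp_pos a).trans r1
  have r0 : (0 : ℝ) < r := (mul_pos_iff_of_pos_right s2).1 L0
  have p0 : (0 : ℝ) < r.num := by exact_mod_cast Rat.num_pos.2 (by exact_mod_cast r0)
  have q0 : (0 : ℝ) < r.den := by exact_mod_cast r.den_pos
  obtain ⟨lam, hl⟩ : ∃ lam, Real.exp lam = r * √2 := ⟨_, Real.exp_log L0⟩
  have sq : Real.exp lam ^ 2 = 2 * (r.num : ℝ) ^ 2 / (r.den : ℝ) ^ 2 := by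
    rw [hl, mul_pow, Real.sq_sqrt (by norm_num), Rat.cast_def]
    ring
  have key : ∀ k k' : ℤ, k ≠ 0 ∨ k' ≠ 0 →
      1 / (2 * (r.num : ℝ) ^ 2) ≤ |(|(k : ℝ)| / 1) ^ 2 - (|(k' : ℝ)| / Real.exp lam) ^ 2| := by
    intro k k' h
    have := sepf_int (u := r.num * k) (v := r.den * k') (h.imp
      (mul_ne_zero (by exact_mod_cast p0.ne')) (mul_ne_zero (by exact_mod_cast q0.ne')))
    rw [div_one, div_pow, sq_abs, sq_abs, sq, div_le_iff₀ (by positivity),
      ← abs_of_pos (by positivity : 0 < 2 * (r.num : ℝ) ^ 2), ← abs_mul]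
    refine this.trans_eq (congrArg _ ?_)
    rw [abs_of_pos (by positivity : 0 < 2 * (r.num : ℝ) ^ 2)]
    push_cast
    field_simp
  obtain ⟨c, c0, c1, c2, c3, c4⟩ : ∃ c > 0, c ≤ 1 / 4 ∧ c ≤ Real.exp (-lam) / 4 ∧
      c ≤ Real.exp lam / 4 ∧ c ≤ 1 / (2 * (r.num : ℝ) ^ 2) / 3 :=
    ⟨min (min (1 / 4) (Real.exp (-lam) / 4)) (min (Real.exp lam / 4) (1 / (2 * r.num ^ 2) / 3)),
      by positivity, (min_le_left _ _).trans (min_le_left _ _),
      (min_le_left _ _).trans (min_le_right _ _), (min_le_right _ _).trans (min_le_left _ _),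
      (min_le_right _ _).trans (min_le_right _ _)⟩
  refine ⟨lam, ⟨Real.exp_lt_exp.1 (hl ▸ r1), Real.exp_lt_exp.1 (hl ▸ r2)⟩, c, c0, c1, c2, c3, ?_⟩
  rintro ⟨j, k⟩ ⟨j', k'⟩ h d
  have k0 : k ≠ 0 := fun z => by simp [dval, z] at d; linarith
  have w := div_le_self c0.le d
  have E := Real.exp_pos lam
  cases j <;> cases j' <;> simp only [dval, lenf, Bool.false_eq_true, if_false, if_true] at d w ⊢
  · have := sepf_one (k := k) (k' := k') fun e => h ⟨rfl, e⟩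
    rw [← sub_div, abs_div, abs_of_pos E]
    refine w.trans (c2.trans ?_)
    rw [Real.exp_neg, le_div_iff₀ E]
    field_simp
    linarith
  · exact sepf_sq d (by positivity) (by linarith)
      (by rw [abs_sub_comm]; linarith [key k' k (Or.inr k0)])
  · exact sepf_sq d (by positivity) (by linarith) (by linarith [key k k' (Or.inl k0)])
  · have := sepf_one (k := k) (k' := k') fun e => h ⟨rfl, e⟩
    simp only [div_one] at w ⊢
    linarith

theorem sepf_len (lam : ℝ) : ∃ M, M = Real.exp lam + Real.exp (-lam) ∧ 2 ≤ M ∧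
    ∀ i, 0 < lenf lam i ∧ lenf lam i ≤ M ∧ 1 ≤ M * lenf lam i ∧
      ∀ j, lenf lam i ≤ M * lenf lam j := by
  have a := Real.exp_pos lam
  have b := Real.exp_pos (-lam)
  have e : Real.exp (-lam) * Real.exp lam = 1 := by rw [← Real.exp_add]; simp
  have m : 2 ≤ Real.exp lam + Real.exp (-lam) := by
    linarith [Real.add_one_le_exp lam, Real.add_one_le_exp (-lam)]
  refine ⟨_, rfl, m, fun i => ⟨?_, ?_, ?_, fun j => ?_⟩⟩
  · cases i <;> simp [lenf, a]
  · cases i <;> simp only [lenf, Bool.false_eq_true, if_false, if_true] <;> linarith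
  · cases i <;> simp only [lenf, Bool.false_eq_true, if_false, if_true] <;> nlinarith
  · cases i <;> cases j <;> simp only [lenf, Bool.false_eq_true, if_false, if_true] <;> nlinarith

theorem sepf_wc (lam : ℝ) (j : Bool) (n : ℕ) : dval (lenf lam) (j, n) = wc lam j n := by
  simp [dval, wc]

theorem sepf_wc' (lam : ℝ) (b : Idx) : wc lam b.1 b.2.natAbs = dval (lenf lam) b := by
  simp [dval, wc, Nat.cast_natAbs]

theorem sepf_dvs {ℓ : Bool → ℝ} (σ : ℂ) {b : Idx} (h : 0 < ℓ b.1) :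
    ‖dvs ℓ σ b‖ = ℓ b.1 * ‖σ - (dval ℓ b : ℝ)‖ := by
  have : (ℓ b.1 : ℂ) ≠ 0 := by exact_mod_cast h.ne'
  rw [← Complex.norm_of_nonneg h.le, ← norm_mul, dvs, dval, ← Int.cast_abs]
  congr 1
  rw [Complex.ofReal_div, Complex.ofReal_intCast]
  field_simp

theorem sepf_ex1 {η : ℝ} (h : 0 < η) (k : ℤ) : ex η k ≤ 1 :=
  Real.exp_le_one_iff.2 (by nlinarith [abs_nonneg (k : ℝ)])

theorem sepf_ex {η M D : ℝ} {ℓ : Bool → ℝ} {b : Idx} (h : 0 < η) (l : 0 < ℓ b.1)
    (m : 1 ≤ M * ℓ b.1) (D0 : 0 < D) (hD : D ≤ dval ℓ b) : ex η b.2 * (η * D) ^ 2 ≤ 2 * M ^ 2 := by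
  have M0 : 0 < M := (mul_pos_iff_of_pos_right l).1 (by linarith)
  rw [dval, le_div_iff₀ l] at hD
  have x0 : 0 ≤ η * |(b.2 : ℝ)| := by positivity
  have q := Real.quadratic_le_exp_of_nonneg x0
  have a : η * D ≤ M * (η * |(b.2 : ℝ)|) := by
    have : D ≤ M * |(b.2 : ℝ)| := by nlinarith
    nlinarith
  have a2 := pow_le_pow_left₀ (by positivity) a 2
  rw [ex, neg_mul, Real.exp_neg, inv_mul_le_iff₀ (Real.exp_pos _)]
  nlinarith [sq_nonneg M]

/-- divisors inside a window -/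
theorem sep_div {η1 lam c : ℝ} (h1 : 0 < η1) (hc : 0 < c) (hs : Sep (lenf lam) c) :
    ∃ A > 0, ∃ d0 : ℝ, ∀ j n, d0 ≤ wc lam j n →
      ∀ σ ∈ ball (wc lam j n : ℂ) (c / (2 * wc lam j n)),
        Div η1 (A / n) (lenf lam) σ j n ∧
        (∀ b, ¬inP j n b → 1 ≤ A * n * ‖dvs (lenf lam) σ b‖) ∧
        ‖σ * lenf lam j - n‖ ≤ 1 / 2 ∧
        ∀ i, ‖σ * lenf lam i‖ ≤ 2 * (Real.exp lam + Real.exp (-lam)) * n := by
  obtain ⟨M, eM, M2, hM⟩ := sepf_len lam
  obtain ⟨A, A0, A1, A2, A3⟩ : ∃ A > 0, 2 * M ^ 2 ≤ A * c ∧ 4 * M ≤ A ∧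
      16 * M ^ 4 ≤ A * (η1 ^ 2 * c) := by
    have p1 : 0 < 2 * M ^ 2 / c := by positivity
    have p2 : 0 < 16 * M ^ 4 / (η1 ^ 2 * c) := by positivity
    exact ⟨2 * M ^ 2 / c + 4 * M + 16 * M ^ 4 / (η1 ^ 2 * c), by positivity,
      (div_le_iff₀ hc).1 (by linarith), by linarith, (div_le_iff₀ (by positivity)).1 (by linarith)⟩
  refine ⟨A, A0, 1 + c * M, fun j n hn σ hσ => ?_⟩
  rw [← eM]
  obtain ⟨l0, l1, l2, -⟩ := hM j
  have en : (n : ℝ) = wc lam j n * lenf lam j := (div_mul_cancel₀ _ l0.ne').symm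
  have sp := fun b (h : ¬inP j n b) => hs (j, n) b fun e => h ⟨e.1.symm, by simpa using e.2.symm⟩
  rw [sepf_wc] at sp
  rw [mem_ball, dist_eq_norm] at hσ
  generalize wc lam j n = w at hn hσ en sp
  have cM := mul_pos hc (by linarith : 0 < M)
  have w1 : 1 ≤ w := by linarith
  have w0 : 0 < w := by linarith
  obtain ⟨ρ, hρ, eρ⟩ : ∃ ρ, ρ = c / (2 * w) ∧ 2 * w * ρ = c := ⟨_, rfl, by field_simp⟩
  have ρ0 : 0 < ρ := by rw [hρ]; positivity
  have e2 : c / w = 2 * ρ := by rw [hρ]; field_simp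
  rw [← hρ] at hσ
  have ρ1 : ρ * M ≤ 1 / 2 := le_of_mul_le_mul_left (by nlinarith) w0
  have tr : ∀ d : ℝ, |w - d| - ρ ≤ ‖σ - d‖ := fun d => by
    have := norm_sub_le (σ - d) (σ - w)
    rw [show σ - d - (σ - w) = ((w - d : ℝ) : ℂ) by push_cast; ring, Complex.norm_real,
      Real.norm_eq_abs] at this
    linarith
  have lo : ∀ b, ¬inP j n b → ρ ≤ ‖σ - (dval (lenf lam) b : ℝ)‖ := fun b h => by
    linarith [tr (dval (lenf lam) b), sp b h w1]
  have n0 : (0 : ℝ) < n := by rw [en]; positivity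
  refine ⟨fun b h => ?_, fun b h => ?_, ?_, fun i => ?_⟩
  · obtain ⟨k0, -, k2, -⟩ := hM b.1
    have k3 := (hM j).2.2.2 b.1
    rw [sepf_dvs σ k0, div_mul_eq_mul_div, le_div_iff₀ n0, en]
    have t := lo b h
    by_cases f : dval (lenf lam) b ≤ w / 2
    · have t2 : w / 4 ≤ ‖σ - (dval (lenf lam) b : ℝ)‖ := by
        have := tr (dval (lenf lam) b)
        rw [abs_of_nonneg (by linarith)] at this
        nlinarith
      calc _ ≤ 1 * (w * (M * lenf lam b.1)) := by gcongr; exact sepf_ex1 h1 _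
        _ = 4 * M * (lenf lam b.1 * (w / 4)) := by ring
        _ ≤ _ := by gcongr
    · have x := sepf_ex h1 k0 k2 (half_pos w0) (not_le.1 f).le
      have x0 := (ex_pos η1 b.2).le
      refine le_trans (le_of_mul_le_mul_left ?_ (by positivity : 0 < η1 ^ 2 * w * M))
        (mul_le_mul_of_nonneg_left (mul_le_mul_of_nonneg_left t k0.le) A0.le)
      calc _ = 4 * (ex η1 b.2 * (η1 * (w / 2)) ^ 2) * (M * lenf lam j) := by ring
        _ ≤ 4 * (2 * M ^ 2) * (M * M) := by gcongr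
        _ = 16 * M ^ 4 * 1 / 2 := by ring
        _ ≤ A * (η1 ^ 2 * c) * (M * lenf lam b.1) / 2 := by gcongr
        _ = _ := by rw [← eρ]; ring
  · obtain ⟨k0, -, k2, -⟩ := hM b.1
    rw [sepf_dvs σ k0, en]
    have t := lo b h
    refine le_trans (le_of_mul_le_mul_left ?_ (by positivity : 0 < 2 * M ^ 2))
      (mul_le_mul_of_nonneg_left (mul_le_mul_of_nonneg_left t k0.le) (by positivity))
    calc _ = 2 * M ^ 2 * 1 * 1 := by ring
      _ ≤ A * c * (M * lenf lam j) * (M * lenf lam b.1) := by gcongr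
      _ = _ := by rw [← eρ]; ring
  · rw [show σ * lenf lam j - n = (σ - w) * lenf lam j by
      rw [← Complex.ofReal_natCast, en]; push_cast; ring, norm_mul, Complex.norm_of_nonneg l0.le]
    exact (mul_le_mul hσ.le l1 l0.le ρ0.le).trans ρ1
  · have s : ‖σ‖ ≤ 2 * w := by
      have := norm_add_le (σ - w) w
      rw [sub_add_cancel, Complex.norm_of_nonneg w0.le] at this
      nlinarith
    rw [norm_mul, Complex.norm_of_nonneg (hM i).1.le, en]
    calc _ ≤ 2 * w * (M * lenf lam j) := mul_le_mul s ((hM i).2.2.2 j) (hM i).1.le (by positivity)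
      _ = _ := by ring

theorem sep_cut {lam c : ℝ} (hc : 0 < c) (hs : Sep (lenf lam) c) {N : ℕ} (hN : 1 ≤ N) (b : Idx) :
    c / (2 * N) ≤ |dval (lenf lam) b - cutAt c N| := by
  have N1 : (1 : ℝ) ≤ N := by exact_mod_cast hN
  have p : 0 < c / (2 * N) := by positivity
  have d : dval (lenf lam) (true, N) = N := by simp [dval, lenf]
  by_cases h : true = b.1 ∧ |(N : ℤ)| = |b.2|
  · have e : dval (lenf lam) b = N := by
      rw [← d, dval, dval, ← h.1, ← Int.cast_abs, ← h.2, Int.cast_abs]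
    rw [e, cutAt, sub_add_cancel_left, abs_neg, abs_of_pos p]
  · have s := hs (true, N) b h (d.symm ▸ N1)
    have e : c / N = 2 * (c / (2 * N)) := by field_simp
    have t := abs_add_le (dval (lenf lam) b - cutAt c N) (c / (2 * N))
    rw [d, abs_sub_comm] at s
    rw [abs_of_pos p, show dval (lenf lam) b - cutAt c N + c / (2 * N) = dval (lenf lam) b - N by
      rw [cutAt]; ring] at t
    linarith

/-- divisors outside the windows -/
theorem sep_gap {η1 lam c κ : ℝ} (h1 : 0 < η1) (hc : 0 < c) (hκ : 0 < κ)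
    (hs : Sep (lenf lam) c) : ∃ n0 : ℕ, ∀ N ≥ n0, ∀ σ : ℝ, cutAt c N ≤ σ →
      (∀ j n, cutAt c N < wc lam j n → c / (4 * wc lam j n) < |σ - wc lam j n|) →
      ∀ b : Idx, ex η1 b.2 ≤ κ * ‖dvs (lenf lam) σ b‖ := by
  obtain ⟨M, -, M2, hM⟩ := sepf_len lam
  obtain ⟨n0, hn⟩ := exists_nat_ge (1 + 2 * M / κ + 16 * M ^ 3 / (η1 ^ 2 * κ * c))
  refine ⟨n0, fun N hN σ hσ hw b => ?_⟩
  have N0 : (n0 : ℝ) ≤ N := by exact_mod_cast hN
  have p1 : 0 < 2 * M / κ := by positivity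
  have p2 : 0 < 16 * M ^ 3 / (η1 ^ 2 * κ * c) := by positivity
  have N1 : (1 : ℝ) ≤ N := by linarith
  have N2 : 2 * M ≤ N * κ := (div_le_iff₀ hκ).1 (by linarith)
  have N3 : 16 * M ^ 3 ≤ N * (η1 ^ 2 * κ * c) := (div_le_iff₀ (by positivity)).1 (by linarith)
  obtain ⟨k0, -, k2, -⟩ := hM b.1
  have cu := sep_cut hc hs (by exact_mod_cast N1 : 1 ≤ N) b
  have hb := hw b.1 b.2.natAbs
  have p : 0 < c / (2 * N) := by positivity
  have main : ∀ D : ℝ, N / 2 ≤ D → D ≤ dval (lenf lam) b →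
      ex η1 b.2 ≤ κ * (lenf lam b.1 * (c / (4 * D))) := fun D a a' => by
    have D0 : 0 < D := by linarith
    refine le_of_mul_le_mul_left ?_ (by positivity : 0 < (η1 * D) ^ 2 * M)
    calc _ = ex η1 b.2 * (η1 * D) ^ 2 * M := by ring
      _ ≤ 2 * M ^ 2 * M := mul_le_mul_of_nonneg_right (sepf_ex h1 k0 k2 D0 a') (by linarith)
      _ = 16 * M ^ 3 / 2 * 1 / 4 := by ring
      _ ≤ D * (η1 ^ 2 * κ * c) * (M * lenf lam b.1) / 4 := by
        gcongr
        nlinarith [mul_le_mul_of_nonneg_right a (by positivity : 0 ≤ η1 ^ 2 * κ * c)]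
      _ = _ := by field_simp
  rw [sepf_wc'] at hb
  rw [sepf_dvs _ k0, ← Complex.ofReal_sub, Complex.norm_real, Real.norm_eq_abs]
  by_cases f : cutAt c N < dval (lenf lam) b
  · refine (main _ ?_ le_rfl).trans (by gcongr; exact (hb f).le)
    rw [cutAt] at f
    linarith
  · rw [abs_of_nonpos (by linarith [not_lt.1 f])] at cu
    by_cases g : N / 2 ≤ dval (lenf lam) b
    · refine (main _ le_rfl g).trans ?_
      gcongr
      rw [show 4 * ((N : ℝ) / 2) = 2 * N by ring]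
      exact le_trans (by linarith) (le_abs_self _)
    · have t : N / 2 ≤ |σ - dval (lenf lam) b| := by
        rw [cutAt] at hσ
        exact le_trans (by linarith [not_le.1 g]) (le_abs_self _)
      refine (sepf_ex1 h1 _).trans (le_trans ?_ (by gcongr : κ * (lenf lam b.1 * (N / 2)) ≤ _))
      nlinarith [mul_le_mul_of_nonneg_right N2 k0.le]

theorem sep_disj {lam c : ℝ} (hc : 0 < c) (hs : Sep (lenf lam) c) (j : Bool) (n : ℕ) (j' : Bool)
    (n' : ℕ) (σ : ℝ) (h : 1 ≤ wc lam j n) (h' : 1 ≤ wc lam j' n')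
    (h1 : |σ - wc lam j n| ≤ c / (4 * wc lam j n))
    (h2 : |σ - wc lam j' n'| ≤ c / (4 * wc lam j' n')) : j = j' ∧ n = n' := by
  by_contra k
  have a := hs (j, n) (j', n') (fun e => k ⟨e.1, by simpa using e.2⟩) ((sepf_wc ..).symm ▸ h)
  have b := hs (j', n') (j, n) (fun e => k ⟨e.1.symm, by simpa using e.2.symm⟩)
    ((sepf_wc ..).symm ▸ h')
  rw [sepf_wc, sepf_wc] at a b
  generalize wc lam j n = w at *
  generalize wc lam j' n' = w' at *
  have t := abs_sub_le w σ w'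
  have p : 0 < c / w := by positivity
  have e : c / (4 * w) = c / w / 4 := by field_simp
  have e' : c / (4 * w') = c / w' / 4 := by field_simp
  rw [abs_sub_comm w σ] at t
  rw [abs_sub_comm] at b
  linarith

end StekIso
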