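import Pool.Agent.Lib.MP_fa022d_an.Defs6
import Pool.Agent.Lib.MP_fa022d_an.HiW1
import Pool.Agent.Lib.MP_fa022d_an.SchB
import Pool.Agent.Lib.MP_fa022d_an.SepF

/-! All windows above a large cut satisfy the hypotheses of the Schur reduction. -/

open Set Filter Topology Metric BoundedContinuousFunction Complex

noncomputable section
namespace StekIso
variable {B : Base} {η : Pos} {C : ℝ}

theorem hiw_δK (B : Base) (η : Pos) : 0 < δK B η := by
  have h := basek_re B.η0_pos 0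
  have := (B.m_pos.trans_le ((B.cm true).lo _ h)).trans_le
    ((re_le_norm _).trans ((B.cm true).hi _ h))
  exact lt_min (half_pos η.2) (lt_min (one_div_pos.2 (zero_lt_one.trans_le (one_le_K2 η)))
    (div_pos B.m_pos this))

theorem hiw_toV {ε : ℝ} (hε : 0 < ε) {x : X} (hx : x ∈ ball (0 : X) 2) :
    ‖toV η ε x‖ ≤ 512 * ε := by
  have a : ‖toV η ε‖ ≤ 256 * |ε| := LinearMap.mkContinuous_norm_le _ (by positivity) _
  rw [abs_of_pos hε] at a
  exact ((toV η ε).le_opNorm x).trans ((mul_le_mul a (mem_ball_zero_iff.1 hx).le (norm_nonneg _)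
    (by positivity)).trans_eq (by ring))

theorem hiw_ev {lam c : ℝ} (hc : 0 < c) {P : Bool → ℕ → Prop}
    (h : ∀ j, ∀ᶠ n in atTop, P j n) :
    ∀ᶠ N : ℕ in atTop, ∀ j n, cutAt c N < wc lam j n → P j n := by
  refine eventually_all.2 fun j => ?_
  have p : 0 < lenf lam j := by unfold lenf; split_ifs <;> positivity
  obtain ⟨m, hm⟩ := eventually_atTop.1 (h j)
  filter_upwards [(tendsto_natCast_atTop_atTop.atTop_mul_const p).eventually_ge_atTop (m : ℝ)]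
    with N hN n k
  have a : (N : ℝ) ≤ cutAt c N := le_add_of_nonneg_right (by positivity)
  have := (lt_div_iff₀ p).1 (a.trans_lt k)
  exact hm n (Nat.cast_le.1 (hN.trans this.le))

theorem hiw_even (η t : ℝ) {p : ℤ} {n : ℕ} (h : |p| = n) : rowS η t p = rowS η t n ∧
    ex (2 * η) p = ex (2 * η) n ∧ beta η (2 * p) = beta η (2 * n) ∧ (p : ℝ) ^ 2 = n ^ 2 := by
  rcases (abs_eq (Int.natCast_nonneg n)).1 h with rfl | rfl <;> simp [rowS, br, beta, ex]

/-- one window, all smallness conditions as hypotheses -/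
theorem hiw_core (hK : KerOK B η C) {ε K τ A Λ : ℝ} {ℓ : Bool → ℝ} {σ H : ℂ} {j : Bool} {n : ℕ}
    {x : X} (hx : x ∈ ball (0 : X) 2) (hz : (toV η ε x, H) ∈ dom B η (δK B η)) (hε : 0 < ε)
    (hKC : 1025 * C ≤ K) (hτ : τ ≤ 1) (hA : 0 < A) (hn : 1 ≤ n)
    (d1 : Div (7 / 8 * η.1) (A / n) ℓ σ j n) (d2 : ∀ b, ¬inP j n b → 1 ≤ A * n * ‖dvs ℓ σ b‖)
    (d3 : ‖σ * ℓ j - n‖ ≤ 1 / 2) (d4 : ∀ i, ‖σ * ℓ i‖ ≤ Λ * n) (hΛ : 1 ≤ Λ)
    (h1 : ex (2 * η.1) n ≤ τ * ε * beta η.1 n) (h2 : C * EE (7 / 8 * η.1) * (A / n) ≤ 1 / 2)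
    (h3 : 2 * K ^ 2 * (A / n) * EE (7 / 8 * η.1) ≤ τ)
    (h4 : (A * n) ^ 2 * (K * (ε * n * beta η.1 n)) ≤ 1)
    (h5 : K * (ε * n * beta η.1 n) ≤ ex (3 / 4 * η.1) n) :
    SH (7 / 8 * η.1) (3 / 4 * η.1) C (A / n) (K * (ε * n * beta η.1 n)) (A * n) Λ
      (Smat B (toV η ε x, H)) ℓ σ j n ∧
    ‖Mm (Smat B (toV η ε x, H)) ℓ σ j n n n -
      2 * ((n : ℤ) : ℂ) ^ 2 * Qform B j (toV η ε x j).coeff n‖ ≤
      (C * 512 ^ 2 * (512 * ε + ‖H - B.H0‖) + (1025 * C + 1) * τ) * nA η.1 ε n ∧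
    ∀ p : ℤ, |p| = n → ‖Mm (Smat B (toV η ε x, H)) ℓ σ j n p (-p) -
      2 * I * p * |p| * (toV η ε x j).coeff (2 * p)‖ ≤
      C * 512 ^ 2 * ε * nB η.1 ε n + (1025 * C + 1) * τ * nA η.1 ε n := by
  have η0 := η.2
  have C1 := hK.one_le
  have n1 : (1 : ℝ) ≤ n := by exact_mod_cast hn
  have t := hiw_toV (η := η) hε hx
  have t0 := norm_nonneg (toV η ε x)
  have β0 := beta_pos η.1 n
  have β2 := beta_pos η.1 (2 * n)
  have e0 := ex_pos (2 * η.1) n
  have τ0 : 0 ≤ τ := by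
    by_contra k
    nlinarith [mul_pos (mul_pos (neg_pos.2 (not_le.1 k)) hε) β0]
  have r : rowS η.1 ‖toV η ε x‖ n ≤ 1025 * (ε * n * beta η.1 n) := by
    have b : br n ≤ 2 * n := by rw [br, Int.cast_natCast, Nat.abs_cast]; linarith
    have := br_pos n
    have a1 : ‖toV η ε x‖ * br n * beta η.1 n ≤ 512 * ε * (2 * n) * beta η.1 n := by gcongr
    have a2 : τ * ε * beta η.1 n ≤ n * ε * beta η.1 n := by gcongr; linarith
    rw [rowS]
    linarith
  have tiny : rowS η.1 ‖toV η ε x‖ n * ex (2 * η.1) n ≤ 1025 * τ * nA η.1 ε n :=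
    calc _ ≤ 1025 * (ε * n * beta η.1 n) * (τ * ε * beta η.1 n) := by gcongr
      _ ≤ 1025 * (ε * n * beta η.1 n) * (τ * ε * beta η.1 n) * n :=
        le_mul_of_one_le_right (by positivity) n1
      _ = _ := by rw [nA]; ring
  have row1 : ∀ b c, inP j n c → ‖Smat B (toV η ε x, H) b c‖ ≤
      K * (ε * n * beta η.1 n) * ex (7 / 8 * η.1) b.2 := fun b c k => by
    refine (hK.row _ hz b c).trans (mul_le_mul_of_nonneg_right ?_ (ex_pos _ _).le)
    rw [(hiw_even _ _ k.2).1]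
    calc _ ≤ C * (1025 * (ε * n * beta η.1 n)) := by gcongr
      _ = 1025 * C * (ε * n * beta η.1 n) := by ring
      _ ≤ _ := by gcongr
  have row : RowP (7 / 8 * η.1) (K * (ε * n * beta η.1 n)) (Smat B (toV η ε x, H)) j n :=
    fun b c k => ⟨row1 b c k, by
      rw [hK.bsym _ hz, ← basek_ex_neg _ b.2]
      exact row1 (ng b) (ng c) ⟨k.1, (abs_neg _).trans k.2⟩⟩
  have ρ0 : 0 ≤ K * (ε * n * beta η.1 n) := mul_nonneg (by linarith) (by positivity)
  have s0 : SH0 (7 / 8 * η.1) C (A / n) (Smat B (toV η ε x, H)) ℓ σ j n :=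
    ⟨by positivity, C1, by positivity, hK.crude _ hz, d1, h2, hn⟩
  have a0 : 0 ≤ nA η.1 ε n := by unfold nA; positivity
  have m : ∀ p q : ℤ, |p| = n → |q| = n → ‖Mm (Smat B (toV η ε x, H)) ℓ σ j n p q -
      Smat B (toV η ε x, H) (j, p) (j, q)‖ ≤ τ * nA η.1 ε n := fun p q hp hq =>
    ((s0.bounds ρ0 row hq).2 p hp).trans ((show _ = 2 * K ^ 2 * (A / n) * EE (7 / 8 * η.1) *
      nA η.1 ε n by rw [nA]; ring).trans_le (mul_le_mul_of_nonneg_right h3 a0))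
  have an : |(n : ℤ)| = n := abs_of_nonneg (Int.natCast_nonneg n)
  refine ⟨⟨s0, hK.bsym _ hz, ρ0, row, d3, d2, h4, h5, hΛ, d4⟩, ?_, fun p hp => ?_⟩
  · have a := hK.diag _ hz j n (by exact_mod_cast hn)
    have b : ((n : ℤ) : ℝ) ^ 2 * beta η.1 n ^ 2 * ‖toV η ε x‖ ^ 2 * (‖toV η ε x‖ + ‖H - B.H0‖) ≤
        ((n : ℤ) : ℝ) ^ 2 * beta η.1 n ^ 2 * (512 * ε) ^ 2 * (512 * ε + ‖H - B.H0‖) := by gcongr
    refine (norm_sub_le_norm_sub_add_norm_sub _ _ _).trans ((add_le_add (m n n an an) (a.trans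
      (mul_le_mul_of_nonneg_left (add_le_add b tiny) (by linarith)))).trans_eq ?_)
    rw [nA, Int.cast_natCast]
    ring
  · obtain ⟨e1, e2, e3, e4⟩ := hiw_even η.1 ‖toV η ε x‖ hp
    have a := hK.off _ hz j p (by rintro rfl; simp at hp; omega)
    rw [e1, e2, e3, e4] at a
    have b : (n : ℝ) ^ 2 * beta η.1 (2 * n) * ‖toV η ε x‖ ^ 2 ≤
        (n : ℝ) ^ 2 * beta η.1 (2 * n) * (512 * ε) ^ 2 := by gcongr
    refine (norm_sub_le_norm_sub_add_norm_sub _ _ _).trans ((add_le_add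
      (m p (-p) hp ((abs_neg p).trans hp)) (a.trans
      (mul_le_mul_of_nonneg_left (add_le_add b tiny) (by linarith)))).trans_eq ?_)
    rw [nB]
    ring

theorem hiw_small (L : ℝ) {a : ℝ} (ha : 0 < a) : ∀ᶠ e in 𝓝[>] (0 : ℝ), L * e < a := by
  have : Tendsto (fun e : ℝ => L * e) (𝓝 0) (𝓝 (L * 0)) := (continuous_const_mul L).tendsto 0
  exact (this.eventually_lt_const (by rwa [mul_zero])).filter_mono nhdsWithin_le_nhds

theorem win_ok {μ Cs c0 lam0 : ℝ} {Ai ϱ : Bool → ℤ → ℂ} (hK : KerOK B η C)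
    (hS : SymOK B η.1 μ Cs c0 Ai ϱ) (h0 : Hof B ((0 : V η), (lam0 : ℂ)) = B.H0) :
    ∃ K ≥ 1, ∀ θ > 0, ∃ ε0 > 0, ∀ ε, 0 < ε → ε ≤ ε0 → ∀ lam, |lam - lam0| ≤ ε0 → ∀ c > 0,
      Sep (lenf lam) c → ∃ n0 : ℕ, ∀ N ≥ n0, WinX B η ε lam c (cutAt c N) C K θ := by
  have η0 := η.2
  have η1 : 0 < 7 / 8 * η.1 := by positivity
  have C1 := hK.one_le
  obtain ⟨Q, Q0, hQ, hQ'⟩ := hiw1_Q hS.qbd
  have x0 := Real.exp_pos (|lam0| + 1)
  obtain ⟨K, hK1⟩ : ∃ K, K = C * (2 * 512 ^ 2 + 1025) + 4 * Real.exp (|lam0| + 1) + 2 * Q + 12 :=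
    ⟨_, rfl⟩
  have K1 : 1 ≤ K := by linarith
  refine ⟨K, K1, fun θ θ0 => ?_⟩
  obtain ⟨ε0, ⟨⟨⟨s1, s2⟩, s3⟩, s4⟩, p0⟩ := (((((hiw_small 512 one_pos).and
    (hiw_small 512 (hiw_δK B η))).and (hiw_small (512 * C + 1) one_half_pos)).and
    (hiw_small (C * 512 ^ 2 * (513 + 512 * C)) (half_pos θ0))).and self_mem_nhdsWithin).exists
  replace p0 : 0 < ε0 := p0
  refine ⟨ε0, p0, fun ε ε1 ε2 lam hl c hc hs => ?_⟩
  obtain ⟨τ, τ0, τ1, τ2⟩ : ∃ τ > 0, τ ≤ 1 ∧ (1025 * C + 3) * τ ≤ θ / 2 :=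
    ⟨min 1 (θ / 2 / (1025 * C + 3)), lt_min one_pos (by positivity), min_le_left _ _,
      (le_div_iff₀' (by positivity)).1 (min_le_right _ _)⟩
  have τ3 : τ ≤ θ := by nlinarith
  have hV : ∀ x ∈ ball (0 : X) 2, ‖toV η ε x‖ < δK B η := fun x hx => by
    linarith [hiw_toV (η := η) ε1 hx]
  have VH : ∀ x ∈ ball (0 : X) 2, ‖(zOf B η ε lam x).2 - B.H0‖ ≤ (512 * C + 1) * ε0 :=
    fun x hx => by
      have a := hK.Hlip _ (hV x hx) lam
      have b : ‖Hof B ((0 : V η), (lam : ℂ)) - B.H0‖ ≤ ε0 := by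
        rw [← h0, show Hof B ((0 : V η), (lam : ℂ)) - Hof B ((0 : V η), (lam0 : ℂ)) =
          -((lam - lam0 : ℝ) : ℂ) by simp only [Hof, Hfun]; push_cast; ring, norm_neg, norm_real]
        exact hl
      have d := mul_le_mul_of_nonneg_left ((hiw_toV (η := η) ε1 hx).trans
        (mul_le_mul_of_nonneg_left ε2 (by norm_num))) (zero_le_one.trans C1)
      exact (norm_sub_le_norm_sub_add_norm_sub _ _ _).trans ((add_le_add (a.trans d) b).trans_eq
        (by ring))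
  have VB : ∀ x ∈ ball (0 : X) 2, (zOf B η ε lam x).2 ∈ ball (B.H0 : ℂ) 1 := fun x hx =>
    mem_ball_iff_norm.2 (by linarith [VH x hx])
  have dm : ∀ x ∈ ball (0 : X) 2, ∀ H ∈ ball (B.H0 : ℂ) 1, (toV η ε x, H) ∈ dom B η (δK B η) :=
    fun x hx H hH => ⟨mem_ball_zero_iff.2 (hV x hx), hH⟩
  have E0 := ((hK.crude _ (dm 0 (mem_ball_self two_pos) _ (mem_ball_self one_pos))).rowBdd η1).2.1
  have Λ1 : 1 ≤ 2 * (Real.exp lam + Real.exp (-lam)) := by
    linarith [Real.add_one_le_exp lam, Real.add_one_le_exp (-lam)]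
  have Λ2 : 2 * (Real.exp lam + Real.exp (-lam)) ≤ K := by
    have l := abs_le.1 hl
    have a : Real.exp lam ≤ Real.exp (|lam0| + 1) :=
      Real.exp_le_exp.2 (by linarith [le_abs_self lam0])
    have b : Real.exp (-lam) ≤ Real.exp (|lam0| + 1) :=
      Real.exp_le_exp.2 (by linarith [neg_abs_le lam0])
    linarith
  obtain ⟨A, A0, d0, hA⟩ := sep_div η1 hc hs
  obtain ⟨n1, gap⟩ := sep_gap (κ := 1 / 2 / (C * EE (7 / 8 * η.1))) η1 hc (by positivity) hs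
  have ℓ0 : ∀ j, 0 < lenf lam j := fun j => by unfold lenf; split_ifs <;> positivity
  have num : ∀ j, ∀ᶠ n : ℕ in atTop, (1 ≤ wc lam j n ∧ 1 ≤ n ∧ nA η.1 ε n ≤ τ * nB η.1 ε n ∧
      nB η.1 ε n * wc lam j n ≤ θ * (c * lenf lam j) ∧
      nB η.1 ε n ^ 2 * wc lam j n * Real.exp (3 / 2 * η.1 * n) ≤
        θ * (c * lenf lam j) * nA η.1 ε n ∧
      nB η.1 ε n * wc lam j n * Real.exp (3 / 4 * η.1 * n) ≤ c * lenf lam j * (ε * beta η.1 n)) ∧
      ∀ x ∈ ball (0 : X) 2, ∀ H ∈ ball (B.H0 : ℂ) 1,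
      ∀ σ ∈ ball (wc lam j n : ℂ) (c / (2 * wc lam j n)),
      SH (7 / 8 * η.1) (3 / 4 * η.1) C (A / n) (K * (ε * n * beta η.1 n)) (A * n)
        (2 * (Real.exp lam + Real.exp (-lam))) (Smat B (toV η ε x, H)) (lenf lam) σ j n ∧
      ‖Mm (Smat B (toV η ε x, H)) (lenf lam) σ j n n n - 2 * nA η.1 ε n * Qlim B η.1 x j n‖ ≤
        (C * 512 ^ 2 * (512 * ε + ‖H - B.H0‖) + (1025 * C + 3) * τ) * nA η.1 ε n ∧
      ∀ p : ℤ, |p| = n → ‖Mm (Smat B (toV η ε x, H)) (lenf lam) σ j n p (-p) -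
        2 * I * p * |p| * (toV η ε x j).coeff (2 * p)‖ ≤
        (C * 512 ^ 2 * ε + (1025 * C + 1) * τ) * nB η.1 ε n := fun j => by
    have l := ℓ0 j
    have tw : Tendsto (wc lam j) atTop atTop := tendsto_natCast_atTop_atTop.atTop_div_const l
    filter_upwards [tw.eventually_ge_atTop 1, tw.eventually_ge_atTop d0, hQ' τ τ0,
      hiw1_num η0 τ0, hiw1_num η0 (mul_pos τ0 ε1),
      hiw1_num η0 (show 0 < θ * (c * lenf lam j) * lenf lam j by positivity),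
      hiw1_num η0 (show 0 < c * lenf lam j * lenf lam j by positivity),
      hiw1_num η0 (show 0 < 1 / 2 / (C * EE (7 / 8 * η.1) * A) by positivity),
      hiw1_num η0 (show 0 < τ / (2 * K ^ 2 * A * EE (7 / 8 * η.1)) by positivity),
      hiw1_num η0 (show 0 < 1 / (A ^ 2 * K) by positivity),
      hiw1_num η0 (show 0 < 1 / K by positivity)] with n w1 w2 q ⟨hn, _, _, _, _, u1, _⟩
      ⟨_, _, u2, _⟩ ⟨_, _, _, _, _, _, u3, u4, _⟩ ⟨_, _, _, _, _, _, _, _, u5⟩ ⟨_, u6, _⟩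
      ⟨_, u7, _⟩ ⟨_, _, _, u8, _⟩ ⟨_, _, _, _, u9, _⟩
    have n0 : (0 : ℝ) < n := by exact_mod_cast hn
    have β0 := beta_pos η.1 n
    have β2 := beta_pos η.1 (2 * n)
    have e1 : ε ≤ 1 := by linarith
    have ab : nA η.1 ε n ≤ τ * nB η.1 ε n :=
      calc _ = ε * (n ^ 2 * ε * beta η.1 n ^ 2) := by rw [nA]; ring
        _ ≤ 1 * (n ^ 2 * ε * (τ * beta η.1 (2 * n))) := by gcongr
        _ = _ := by rw [nB]; ring
    have b0 : 0 ≤ nB η.1 ε n := by unfold nB; positivity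
    refine ⟨⟨w1, hn, ab, ?_, ?_, ?_⟩, fun x hx H hH σ hσ => ?_⟩
    · rw [wc, ← mul_div_assoc, div_le_iff₀ l]
      calc _ = ε * (n ^ 3 * beta η.1 (2 * n)) := by rw [nB]; ring
        _ ≤ 1 * _ := mul_le_mul e1 u3 (by positivity) zero_le_one
        _ = _ := one_mul _
    · rw [wc, ← mul_div_assoc, div_mul_eq_mul_div, div_le_iff₀ l]
      calc _ = n ^ 2 * ε ^ 2 * (n ^ 3 * beta η.1 (2 * n) ^ 2 * Real.exp (3 / 2 * η.1 * n)) := by
            rw [nB]; ring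
        _ ≤ n ^ 2 * ε ^ 2 * _ := mul_le_mul_of_nonneg_left u4 (by positivity)
        _ = _ := by rw [nA]; ring
    · rw [wc, ← mul_div_assoc, div_mul_eq_mul_div, div_le_iff₀ l]
      calc _ = ε * (n ^ 3 * beta η.1 (2 * n) * Real.exp (3 / 4 * η.1 * n)) := by rw [nB]; ring
        _ ≤ ε * _ := mul_le_mul_of_nonneg_left u5 ε1.le
        _ = _ := by ring
    obtain ⟨d1, d2, d3, d4⟩ := hA j n w2 σ hσ
    obtain ⟨k1, k2, k3⟩ := hiw_core hK (K := K) hx (dm x hx H hH) ε1 (by linarith) τ1 A0 hn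
      d1 d2 d3 d4 Λ1 u2
      (by
        rw [div_mul_eq_mul_div, le_div_iff₀ (by positivity)] at u6
        rw [← mul_div_assoc, div_le_iff₀ n0]
        linarith)
      (by
        rw [div_mul_eq_mul_div, le_div_iff₀ (by positivity)] at u7
        rw [← mul_div_assoc, div_mul_eq_mul_div, div_le_iff₀ n0]
        linarith)
      (by
        rw [le_div_iff₀ (by positivity)] at u8
        calc _ = ε * (n ^ 3 * beta η.1 n * (A ^ 2 * K)) := by ring
          _ ≤ 1 * 1 := by gcongr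
          _ = 1 := one_mul 1)
      (by
        rw [div_mul_eq_mul_div, le_div_iff₀ (by positivity)] at u9
        calc _ = ε * (n * beta η.1 n * K) := by ring
          _ ≤ 1 * (1 * ex (3 / 4 * η.1) n) := by gcongr
          _ = _ := by ring)
    refine ⟨k1, (norm_sub_le_norm_sub_add_norm_sub _ _ _).trans ((add_le_add k2
      (show _ ≤ 2 * (τ * nA η.1 ε n) from ?_)).trans_eq (by ring)), fun p hp => (k3 p hp).trans ?_⟩
    · rw [mul_assoc, mul_assoc, ← mul_sub, norm_mul, Complex.norm_ofNat]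
      exact mul_le_mul_of_nonneg_left (q ε x hx j) zero_le_two
    · have := mul_le_mul_of_nonneg_left (ab.trans (mul_le_of_le_one_left b0 τ1))
        (show 0 ≤ (1025 * C + 1) * τ by positivity)
      linarith
  obtain ⟨n2, hn2⟩ := eventually_atTop.1 (hiw_ev hc num)
  refine ⟨max n1 n2, fun N hN => ?_⟩
  have k := hn2 N (le_of_max_le_right hN)
  have a0 : ∀ n, 0 ≤ nA η.1 ε n := fun n => by unfold nA; positivity
  have b0 : ∀ n, 0 ≤ nB η.1 ε n := fun n => by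
    have := beta_pos η.1 (2 * n)
    unfold nB
    positivity
  have an : ∀ n : ℕ, |(n : ℤ)| = n := fun n => abs_of_nonneg (Int.natCast_nonneg n)
  have co : ∀ (x : X) j (n : ℕ) (p : ℤ), |p| = n → 2 * I * p * |p| * (toV η ε x j).coeff (2 * p) =
      2 * I * p.sign * nB η.1 ε n * uu x j (2 * p) := fun x j n p hp => by
    have : (p : ℂ) = p.sign * n := by
      conv_lhs => rw [← Int.sign_mul_abs p, hp]
      push_cast
      rfl
    rw [coeff_toV, (hiw_even η.1 0 hp).2.2.1, hp, nB]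
    nth_rewrite 1 [this]
    push_cast
    ring
  refine ⟨⟨ε1, hc, K1, fun x hx => ⟨hV x hx, by linarith [VH x hx]⟩,
    fun j n h => ⟨_, _, _, Λ2, fun x hx H hH σ hσ => ((k j n h).2 x hx H hH σ hσ).1⟩,
    fun j n h x hx H hH σ hσ p hp => ⟨?_, ?_⟩, fun j n h x hx σ hσ => ?_,
    fun x hx σ h1 h2 => Ker_eq_bot η1 (hK.crude _ (dm x hx _ (VB x hx))) (by positivity)
      (gap N (le_of_max_le_left hN) σ h1 h2) (mul_div_cancel₀ _ (by positivity)).le,
    fun j n j' n' σ h h' => sep_disj hc hs j n j' n' σ (k j n h).1.1 (k j' n' h').1.1,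
    fun j n h => ?_⟩, by linarith, fun j n h => (k j n h).1.2.2.2.2.2⟩
  · obtain ⟨k1, k2, -⟩ := (k j n h).2 x hx H hH σ hσ
    have e : Mm (Smat B (toV η ε x, H)) (lenf lam) σ j n p p =
        Mm (Smat B (toV η ε x, H)) (lenf lam) σ j n n n := by
      rcases (abs_eq (Int.natCast_nonneg n)).1 hp with rfl | rfl
      · rfl
      · exact (k1.toSH0.Mm_symm k1.bsym (an n) (an n)).symm
    have a : ‖2 * nA η.1 ε n * Qlim B η.1 x j n‖ ≤ 2 * nA η.1 ε n * Q := by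
      rw [norm_mul, norm_mul, Complex.norm_ofNat, norm_real, Real.norm_of_nonneg (a0 n)]
      exact mul_le_mul_of_nonneg_left (hQ x hx j n) (mul_nonneg zero_le_two (a0 n))
    have b : C * 512 ^ 2 * (512 * ε + ‖H - B.H0‖) ≤ C * 512 ^ 2 * 2 :=
      mul_le_mul_of_nonneg_left (by linarith [mem_ball_iff_norm.1 hH]) (by positivity)
    have d := mul_le_of_le_one_right (show 0 ≤ 1025 * C + 3 by positivity) τ1
    rw [e]
    refine (norm_le_norm_sub_add _ _).trans ((add_le_add k2 a).trans ?_)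
    rw [mul_right_comm 2 _ Q, ← add_mul]
    exact mul_le_mul_of_nonneg_right (by linarith) (a0 n)
  · have k3 := ((k j n h).2 x hx H hH σ hσ).2.2 p hp
    rw [co x j n p hp] at k3
    have a : ‖2 * I * p.sign * nB η.1 ε n * uu x j (2 * p)‖ ≤ 2 * 1 * 1 * nB η.1 ε n * 4 := by
      have u : ‖uu x j (2 * p)‖ ≤ 4 :=
        (norm_uu_le x j _).trans (by linarith [mem_ball_zero_iff.1 hx])
      have s : ‖(p.sign : ℂ)‖ ≤ 1 := by rcases Int.sign_trichotomy p with e | e | e <;> simp [e]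
      have := b0 n
      rw [norm_mul, norm_mul, norm_mul, norm_mul, Complex.norm_ofNat, norm_I, norm_real,
        Real.norm_of_nonneg this]
      gcongr
    have b := mul_le_of_le_one_right (show 0 ≤ C * 512 ^ 2 by positivity) (show ε ≤ 1 by linarith)
    have d := mul_le_of_le_one_right (show 0 ≤ 1025 * C + 1 by positivity) τ1
    refine (norm_le_norm_sub_add _ _).trans ((add_le_add k3 a).trans ?_)
    rw [mul_right_comm _ (nB η.1 ε n) 4, ← add_mul]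
    exact mul_le_mul_of_nonneg_right (by linarith) (b0 n)
  · obtain ⟨-, k2, k3⟩ := (k j n h).2 x hx _ (VB x hx) σ hσ
    have p : (0 : ℤ) < n := by have := (k j n h).1.2.1; omega
    have b : C * 512 ^ 2 * (512 * ε + ‖(zOf B η ε lam x).2 - B.H0‖) ≤
        C * 512 ^ 2 * ((513 + 512 * C) * ε0) :=
      mul_le_mul_of_nonneg_left (by linarith [VH x hx]) (by positivity)
    have b' : C * 512 ^ 2 * ε ≤ C * 512 ^ 2 * ((513 + 512 * C) * ε0) :=
      mul_le_mul_of_nonneg_left (by nlinarith) (by positivity)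
    have t : (C * 512 ^ 2 * ε + (1025 * C + 1) * τ) * nB η.1 ε n ≤ θ * nB η.1 ε n :=
      mul_le_mul_of_nonneg_right (by linarith) (b0 n)
    have k4 := (k3 n (an n)).trans t
    have k5 := (k3 (-n) ((abs_neg _).trans (an n))).trans t
    rw [co x j n _ (an n), Int.sign_eq_one_of_pos p, Int.cast_one, mul_one] at k4
    rw [co x j n _ ((abs_neg _).trans (an n)), Int.sign_neg, Int.sign_eq_one_of_pos p, neg_neg,
      Int.cast_neg, Int.cast_one, mul_neg, mul_one, neg_mul, neg_mul, sub_neg_eq_add,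
      mul_neg] at k5
    exact ⟨k2.trans (mul_le_mul_of_nonneg_right (by linarith) (a0 n)), k4, k5⟩
  · obtain ⟨-, k1, k2, k3, k4, -⟩ := (k j n h).1
    exact ⟨k1, k2.trans (mul_le_mul_of_nonneg_right τ3 (b0 n)), k3, k4⟩

end StekIso
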