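import Pool.Agent.Lib.MP_fa022d_an.HiN
import Pool.Agent.Lib.MP_fa022d_an.HiP
import Pool.Agent.Lib.MP_fa022d_an.HiS
import Pool.Agent.Lib.MP_fa022d_an.HiW

open Set Filter Topology Metric BoundedContinuousFunction Complex

noncomputable section
namespace StekIso

theorem himain_large (lam : ℝ) {c : ℝ} (hc : 0 < c) (T : ℝ) : ∃ n0 : ℕ, ∀ N ≥ n0, ∀ j n,
    cutAt c N < wc lam j n → T ≤ n := by
  obtain ⟨n0, hn0⟩ := exists_nat_ge (|T| / lenf lam true + |T| / lenf lam false)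
  refine ⟨n0, fun N hN j n h => ?_⟩
  have l := lenf_pos lam j
  have h1 : |T| / lenf lam j ≤ n0 := by
    have a := div_nonneg (abs_nonneg T) (lenf_pos lam true).le
    have b := div_nonneg (abs_nonneg T) (lenf_pos lam false).le
    cases j <;> linarith
  have h2 : (n0 : ℝ) ≤ N := by exact_mod_cast hN
  have h3 : 0 ≤ c / (2 * N) := by positivity
  have h4 : |T| / lenf lam j ≤ n / lenf lam j := by
    rw [cutAt, wc] at h; linarith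
  exact (le_abs_self T).trans ((div_le_div_iff_of_pos_right l).1 h4)

/-- the retraction that fixes the spectrum above the cut -/
theorem hi_main {B : Base} {η : Pos} {C μ Cs c0 lam0 : ℝ} {Ai ϱ : Bool → ℤ → ℂ}
    (hK : KerOK B η C) (hS : SymOK B η.1 μ Cs c0 Ai ϱ)
    (h0 : Hof B ((0 : V η), (lam0 : ℂ)) = B.H0) : ∃ C1 ≥ 1, ∀ θ > 0, ∃ δ > 0,
      δ * (C1 + 1) ≤ 1 / 2 ∧ ∃ ε0 > 0, ∀ ε, 0 < ε → ε ≤ ε0 → ∀ lam : ℝ, |lam - lam0| ≤ ε0 →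
      ∀ c > 0, Sep (lenf lam) c → ∀ N0 : ℕ, 1 ≤ N0 → ∀ Nc : ℝ, ∃ n0 : ℕ, ∀ N ≥ n0,
      ∃ π : X → X, RetrOK B η.1 (tail N0) δ C1 θ Nc π ∧ ∀ σ : ℝ, cutAt c N ≤ σ → ∃ m : ℕ,
        ∀ x ∈ ball (tail N0) δ, x ∈ reB Idx →
          Module.Finite ℂ (Ker (Sx B η ε lam (π x)) (lenf lam) σ) ∧
          Module.finrank ℂ (Ker (Sx B η ε lam (π x)) (lenf lam) σ) = m := by
  obtain ⟨K, -, hW⟩ := win_ok hK hS h0
  obtain ⟨K', hP⟩ := phi_ok hK K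
  obtain ⟨C1, hC1, hN⟩ := high_newton η.2 hS
  refine ⟨C1, hC1, fun θ hθ => ?_⟩
  obtain ⟨δ, hδ, hδ', θ', hθ', hN⟩ := hN K' θ hθ
  obtain ⟨θw, hθw, Kθ, hP⟩ := hP θ' hθ'
  obtain ⟨ε0, hε0, hW⟩ := hW θw hθw
  refine ⟨δ, hδ, hδ', ε0, hε0, fun ε hε hε' lam hl c hc hs N0 hN0 Nc => ?_⟩
  obtain ⟨n1, hN⟩ := hN N0 hN0
  obtain ⟨n2, hW⟩ := hW ε hε hε' lam hl c hc hs
  obtain ⟨n3, big⟩ := himain_large lam hc (max (2 * max Nc n1) N0)
  refine ⟨max n2 n3, fun N hN' => ?_⟩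
  have W := hW N (le_of_max_le_left hN')
  have b := big N (le_of_max_le_right hN')
  have b0 : ∀ j n, cutAt c N < wc lam j n → N0 ≤ 2 * n := fun j n h => by
    have : N0 ≤ n := by exact_mod_cast le_of_max_le_right (b j n h)
    omega
  obtain ⟨sig, hsig⟩ := exists_sig hK W.toWinOK Kθ b0
  obtain ⟨π, hπ, z⟩ := hN lam (cutAt c N) (max Nc n1) (le_max_right _ _)
    (fun r => le_of_max_le_left (b _ _ r.2)) _
    (hP ε lam c (cutAt c N) (tail N0) sig W (norm_tail_le N0) hsig)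
  refine ⟨π, ⟨hπ.diff, hπ.near, hπ.real,
    fun x hx b hb => hπ.supp x hx b (hb.trans_le (le_max_left _ _)), hπ.pack⟩, fun σ hσ =>
    ⟨_, fun x hx hr => high_spec hK W.toWinOK Kθ b0 hsig ?_ (hπ.real x hx hr) (z x hx) hσ⟩⟩
  have a := mem_ball_iff_norm.1 hx
  rw [mem_ball_iff_norm, ← sub_add_sub_cancel _ x]
  refine (norm_add_le _ _).trans_lt ?_
  nlinarith [hπ.near x hx]

end StekIso
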