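import Pool.Agent.Lib.MP_fa022d_an.HiN2
import Pool.Agent.Lib.MP_fa022d_an.Four2

/-! From the sup norm to the packet norm. -/

open Set Filter Topology Metric BoundedContinuousFunction Complex

noncomputable section
namespace StekIso
variable {B : Base} {η μ Cs c0 : ℝ} {Ai ϱ : Bool → ℤ → ℂ}

theorem hin4_idx {f : ℤ → ℝ} {s : ℝ} (h : HasSum f s) :
    HasSum (fun b : Idx => f b.2) (s + s) := by
  rw [← (Equiv.boolProdEquivSum ℤ).symm.hasSum_iff]
  exact HasSum.sum h h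

theorem hin4_ex {c : ℝ} (hc : 0 < c) : Summable (ex c) := by
  simpa using summable_ex hc 0

theorem hin4_sg (k : ℤ) : ‖sg k‖ = 1 := by simp [sg]

theorem hin4_dw (hη : 0 < η) (a : ℝ) (k : ℤ) (h : (k : ℝ) = a) :
    dw η k ≤ Real.exp (-η * a) ∧ (0 ≤ a → dw η k ≤ Real.exp (-(3 / 2 * η) * a)) := by
  subst h
  unfold dw
  split_ifs with h
  · have : (0 : ℝ) ≤ k := by exact_mod_cast h
    exact ⟨Real.exp_le_exp.2 (by nlinarith), fun _ => le_rfl⟩
  · have : (k : ℝ) < 0 := by exact_mod_cast not_le.1 h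
    exact ⟨Real.exp_le_exp.2 (by nlinarith), fun h => absurd h (not_le.2 this)⟩

/-- the entries of the limit operator -/
theorem hin4_ent (hη : 0 < η) (hS : SymOK B η μ Cs c0 Ai ϱ) (r : Bool × Bool × ℕ) (b : Idx) :
    ‖Lmat B η r b‖ ≤ Cs * Real.exp (-η * (|(b.2 : ℝ)| - rpos r)) ∧
      (0 ≤ |(b.2 : ℝ)| - rpos r →
        ‖Lmat B η r b‖ ≤ Cs * Real.exp (-(3 / 2 * η) * (|(b.2 : ℝ)| - rpos r))) := by
  have hC : 0 ≤ Cs := zero_le_one.trans hS.one_le
  have z : ∀ t : ℝ, ‖(0 : ℂ)‖ ≤ Cs * Real.exp t := fun t => by rw [norm_zero]; positivity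
  have key : ∀ (x : ℂ) (k : ℤ), (k : ℝ) = |(b.2 : ℝ)| - rpos r → ‖x‖ ≤ Cs * dw η k →
      ‖x‖ ≤ Cs * Real.exp (-η * (|(b.2 : ℝ)| - rpos r)) ∧ (0 ≤ |(b.2 : ℝ)| - rpos r →
        ‖x‖ ≤ Cs * Real.exp (-(3 / 2 * η) * (|(b.2 : ℝ)| - rpos r))) := fun x k hk hx =>
    ⟨hx.trans (mul_le_mul_of_nonneg_left (hin4_dw hη _ k hk).1 hC), fun h =>
      hx.trans (mul_le_mul_of_nonneg_left ((hin4_dw hη _ k hk).2 h) hC)⟩
  unfold Lmat
  split_ifs with h1 h2 h3 h4 h5
  · have : (0 : ℝ) < b.2 := by exact_mod_cast h3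
    refine key _ (b.2 - r.2.2) ?_ ((hS.dA r.1).2 _)
    rw [abs_of_pos this, rpos, if_pos h2]; push_cast; ring
  · have : (b.2 : ℝ) < 0 := by exact_mod_cast h4
    refine key _ (-b.2 - r.2.2) ?_ ?_
    · rw [abs_of_neg this, rpos, if_pos h2]; push_cast; ring
    · rw [norm_mul, hin4_sg, one_mul]; exact (hS.dB r.1).2 _
  · exact ⟨z _, fun _ => z _⟩
  · refine key _ 0 ?_ ?_
    · have : |(b.2 : ℝ)| = 2 * r.2.2 := by exact_mod_cast h5
      rw [this, rpos, if_neg h2]; simp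
    · simpa [dw] using hS.one_le
  · exact ⟨z _, fun _ => z _⟩
  · exact ⟨z _, fun _ => z _⟩

theorem hin4_sum {c : ℝ} (hc : 0 < c) (p : ℝ) (w : X) :
    Summable fun b : Idx => ‖w b‖ * Real.exp (-c * (|(b.2 : ℝ)| - p)) := by
  refine Summable.of_nonneg_of_le (fun b => by positivity) (fun b => ?_)
    ((hin4_idx (hin4_ex hc).hasSum).summable.mul_left (‖w‖ * Real.exp (c * p)))
  rw [mul_assoc, ex, ← Real.exp_add, show c * p + -c * |(b.2 : ℝ)| = -c * (|(b.2 : ℝ)| - p) by ring]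
  exact mul_le_mul_of_nonneg_right (w.norm_coe_le_norm b) (Real.exp_pos _).le

theorem hin4_row (hη : 0 < η) (hS : SymOK B η μ Cs c0 Ai ϱ) (r : Bool × Bool × ℕ) (w : X) :
    Summable fun b : Idx => Lmat B η r b * w b := by
  refine Summable.of_norm_bounded ((hin4_sum hη (rpos r) w).mul_left Cs) fun b => ?_
  rw [norm_mul, mul_comm ‖w b‖, ← mul_assoc]
  exact mul_le_mul_of_nonneg_right (hin4_ent hη hS r b).1 (norm_nonneg _)

/-- the tail of the geometric series, uniformly in the starting point -/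
theorem hin4_tail {c : ℝ} (hc : 0 < c) : ∃ S ≥ (0 : ℝ), ∀ pos : ℝ, ∃ g : Idx → ℝ, HasSum g S ∧
    (∀ b, 0 ≤ g b) ∧ ∀ b : Idx, pos ≤ |(b.2 : ℝ)| → Real.exp (-c * (|(b.2 : ℝ)| - pos)) ≤ g b := by
  obtain ⟨S, hS⟩ := hin4_ex hc
  have S0 : 0 ≤ S := hS.nonneg fun k => (ex_pos _ _).le
  refine ⟨S + S + (S + S), by positivity, fun pos => ?_⟩
  have a : HasSum (fun k : ℤ => ex c (k - ⌈pos⌉)) S := (Equiv.subRight ⌈pos⌉).hasSum_iff.2 hS
  have b : HasSum (fun k : ℤ => ex c (k + ⌈pos⌉)) S := (Equiv.addRight ⌈pos⌉).hasSum_iff.2 hS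
  refine ⟨_, hin4_idx (a.add b), fun b => add_nonneg (ex_pos _ _).le (ex_pos _ _).le,
    fun b hb => ?_⟩
  have h1 : ((⌈pos⌉ : ℤ) : ℝ) ≤ |(b.2 : ℝ)| := by
    have : ⌈pos⌉ ≤ |b.2| := Int.ceil_le.2 (by exact_mod_cast hb)
    exact_mod_cast this
  have h2 := Int.le_ceil pos
  rcases le_total 0 (b.2 : ℝ) with h | h
  · refine le_add_of_le_of_nonneg (Real.exp_le_exp.2 ?_) (ex_pos _ _).le
    rw [abs_of_nonneg h] at h1 ⊢
    push_cast
    rw [abs_of_nonneg (by linarith)]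
    nlinarith
  · refine le_add_of_nonneg_of_le (ex_pos _ _).le (Real.exp_le_exp.2 ?_)
    rw [abs_of_nonpos h] at h1 ⊢
    push_cast
    rw [abs_of_nonpos (by linarith)]
    nlinarith

/-- the limit operator satisfies the same row bound as the high equations -/
theorem Lrow_tail (hη : 0 < η) (hS : SymOK B η μ Cs c0 Ai ϱ) (r : Bool × Bool × ℕ) (w : X)
    (hw : ∀ b : Idx, |(b.2 : ℝ)| < rpos r → w b = 0) :
    ‖Lrow B η r w‖ ≤ Cs * ∑' b : Idx, ‖w b‖ * Real.exp (-(3 / 2 * η) * (|(b.2 : ℝ)| - rpos r)) := by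
  rw [← tsum_mul_left]
  refine tsum_of_norm_bounded
    ((hin4_sum (by positivity : 0 < 3 / 2 * η) (rpos r) w).mul_left Cs).hasSum fun b => ?_
  rcases lt_or_ge |(b.2 : ℝ)| (rpos r) with h | h
  · simp [hw b h]
  · rw [norm_mul, mul_comm ‖w b‖, ← mul_assoc]
    exact mul_le_mul_of_nonneg_right ((hin4_ent hη hS r b).2 (sub_nonneg.2 h)) (norm_nonneg _)

theorem Lrow_add (hη : 0 < η) (hS : SymOK B η μ Cs c0 Ai ϱ) (r : Bool × Bool × ℕ) (w w' : X) :
    Lrow B η r (w + w' : X) = Lrow B η r w + Lrow B η r w' := by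
  unfold Lrow
  rw [← (hin4_row hη hS r w).tsum_add (hin4_row hη hS r w')]
  exact tsum_congr fun b => by simp [mul_add]

/-- Choose `J` with `K * ∑ over |b.2| ≥ pos + J of exp (-(η / 4) (|b.2| - pos)) ≤ θ / 2`
(uniformly in `pos`), then `κ exp (5 / 4 η J) ≤ θ / 2`; split `w` at `|b.2| = pos + J`
(`om_add_le`, `om_mono`). -/
theorem split_bound (hη : 0 < η) {K θ : ℝ} (hK : 0 ≤ K) (hθ : 0 < θ) : ∃ κ > 0,
    ∀ (pos : ℝ) (T : X → ℂ), 0 ≤ pos → (∀ w w' : X, T (w + w') = T w + T w') →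
      (∀ w : X, ‖T w‖ ≤ κ * ‖w‖) →
      (∀ w : X, (∀ b : Idx, |(b.2 : ℝ)| < pos → w b = 0) →
        ‖T w‖ ≤ K * ∑' b : Idx, ‖w b‖ * Real.exp (-(3 / 2 * η) * (|(b.2 : ℝ)| - pos))) →
      ∀ (M D : ℝ) (w : X), 0 ≤ D → MB η M D w → ‖T w‖ ≤ θ * D * om η M pos := by
  obtain ⟨S, S0, hS⟩ := hin4_tail (by positivity : 0 < η / 8)
  obtain ⟨J, hJ⟩ : ∃ J : ℝ, J = 8 / η * (2 * (K * S) / θ) := ⟨_, rfl⟩
  have J0 : 0 ≤ J := by rw [hJ]; positivity
  have hJ2 : K * S * Real.exp (-(η / 8) * J) ≤ θ / 2 := by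
    have e : η / 8 * J = 2 * (K * S) / θ := by rw [hJ]; field_simp
    have h1 := Real.add_one_le_exp (η / 8 * J)
    have h2 : K * S ≤ θ / 2 * Real.exp (η / 8 * J) := by
      have : K * S = θ / 2 * (η / 8 * J) := by rw [e]; field_simp
      rw [this]
      exact mul_le_mul_of_nonneg_left (by linarith) (by positivity)
    rw [neg_mul, Real.exp_neg, ← div_eq_mul_inv, div_le_iff₀ (Real.exp_pos _)]
    exact h2
  refine ⟨θ / 2 / Real.exp (5 / 4 * η * J), by positivity,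
    fun pos T _ hadd hsup htail M D w hD hw => ?_⟩
  obtain ⟨g, hg, g0, hgb⟩ := hS pos
  have o := om_pos η M pos
  obtain ⟨w1, hw1⟩ : ∃ w1 : X, ∀ b : Idx, w1 b = if |(b.2 : ℝ)| < pos + J then w b else 0 :=
    ⟨toB fun b : Idx => if |(b.2 : ℝ)| < pos + J then w b else 0, toB_apply (C := ‖w‖) fun b => by
      split_ifs
      · exact w.norm_coe_le_norm b
      · simp⟩
  have n1 : ‖w1‖ ≤ D * (om η M pos * Real.exp (5 / 4 * η * J)) := by
    refine (BoundedContinuousFunction.norm_le (by positivity)).2 fun b => ?_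
    rw [hw1]
    split_ifs with h
    · refine (hw b).trans (mul_le_mul_of_nonneg_left ((om_mono hη.le M h.le).trans ?_) hD)
      simpa only [max_eq_left J0] using om_add_le hη.le M pos J
    · rw [norm_zero]; positivity
  have t1 : ‖T w1‖ ≤ θ / 2 * D * om η M pos := by
    refine (hsup w1).trans ((mul_le_mul_of_nonneg_left n1 (by positivity)).trans (le_of_eq ?_))
    field_simp
  have hw2 : ∀ b : Idx, (w - w1) b = if |(b.2 : ℝ)| < pos + J then 0 else w b := fun b => by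
    rw [BoundedContinuousFunction.sub_apply, hw1]
    split_ifs <;> simp
  have t2 : ‖T (w - w1)‖ ≤ θ / 2 * D * om η M pos := by
    refine (htail _ fun b hb => by rw [hw2, if_pos (by linarith)]).trans ?_
    have h3 : ∑' b : Idx, ‖(w - w1) b‖ * Real.exp (-(3 / 2 * η) * (|(b.2 : ℝ)| - pos)) ≤
        D * om η M pos * Real.exp (-(η / 8) * J) * S := by
      refine hasSum_le (fun b => ?_) (hin4_sum (by positivity) pos (w - w1)).hasSum
        (hg.mul_left (D * om η M pos * Real.exp (-(η / 8) * J)))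
      have := g0 b
      rw [hw2]
      split_ifs with h
      · rw [norm_zero, zero_mul]; positivity
      · have h := not_lt.1 h
        have h4 := om_add_le hη.le M pos (|(b.2 : ℝ)| - pos)
        rw [add_sub_cancel, max_eq_left (by linarith)] at h4
        calc _ ≤ D * (om η M pos * Real.exp (5 / 4 * η * (|(b.2 : ℝ)| - pos))) *
              Real.exp (-(3 / 2 * η) * (|(b.2 : ℝ)| - pos)) :=
              mul_le_mul_of_nonneg_right ((hw b).trans (mul_le_mul_of_nonneg_left h4 hD))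
                (Real.exp_pos _).le
          _ = D * om η M pos * (Real.exp (-(η / 8) * (|(b.2 : ℝ)| - pos)) *
              Real.exp (-(η / 8) * (|(b.2 : ℝ)| - pos))) := by
              rw [← mul_assoc, mul_assoc, ← Real.exp_add, ← Real.exp_add]
              congr 2; ring
          _ ≤ D * om η M pos * (Real.exp (-(η / 8) * J) * g b) :=
              mul_le_mul_of_nonneg_left (mul_le_mul (Real.exp_le_exp.2 (by nlinarith))
                (hgb b (by linarith)) (Real.exp_pos _).le (Real.exp_pos _).le) (by positivity)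
          _ = _ := by ring
    calc _ ≤ K * (D * om η M pos * Real.exp (-(η / 8) * J) * S) := mul_le_mul_of_nonneg_left h3 hK
      _ = K * S * Real.exp (-(η / 8) * J) * (D * om η M pos) := by ring
      _ ≤ θ / 2 * (D * om η M pos) := mul_le_mul_of_nonneg_right hJ2 (by positivity)
      _ = _ := by ring
  have e := hadd w1 (w - w1)
  rw [add_sub_cancel] at e
  rw [e]
  refine (norm_add_le _ _).trans ?_
  linarith

end StekIso
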