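import Pool.Agent.Lib.MP_fa022d_an.Hol1
import Pool.Agent.Lib.MP_fa022d_an.Hol

open Set Filter Topology Metric BoundedContinuousFunction Complex

noncomputable section
namespace StekIso
variable {E F : Type*} [NormedAddCommGroup E] [NormedSpace ℂ E] [NormedAddCommGroup F]
  [NormedSpace ℂ F] [CompleteSpace F]

/-- fixed point with a holomorphic parameter (iterate from `0`, uniform limit) -/
theorem fix_param {Θ : E × F → F} {U : Set E} (hU : IsOpen U) {R R' : ℝ} (hR : 0 ≤ R)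
    (hR' : R < R') (hd : DifferentiableOn ℂ Θ (U ×ˢ ball 0 R'))
    (maps : ∀ x ∈ U, ∀ y ∈ closedBall (0 : F) R, Θ (x, y) ∈ closedBall (0 : F) R)
    (lip : ∀ x ∈ U, ∀ y ∈ closedBall (0 : F) R, ∀ y' ∈ closedBall (0 : F) R,
      ‖Θ (x, y) - Θ (x, y')‖ ≤ 1 / 2 * ‖y - y'‖) :
    ∃ g : E → F, DifferentiableOn ℂ g U ∧ ∀ x ∈ U, g x ∈ closedBall (0 : F) R ∧
      Θ (x, g x) = g x ∧ (∀ y ∈ closedBall (0 : F) R, Θ (x, y) = y → y = g x) ∧
      ∀ T : Set F, IsClosed T → 0 ∈ T → (∀ y ∈ T ∩ closedBall (0 : F) R, Θ (x, y) ∈ T) →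
        g x ∈ T := by
  let u : ℕ → E → F := fun n x => (fun y => Θ (x, y))^[n] 0
  have us : ∀ n x, u (n + 1) x = Θ (x, u n x) := fun n x => Function.iterate_succ_apply' _ _ _
  have um : ∀ x ∈ U, ∀ n, u n x ∈ closedBall (0 : F) R := fun x hx n => by
    induction n with
    | zero => exact mem_closedBall_self hR
    | succ n ih => rw [us]; exact maps x hx _ ih
  have ud : ∀ n, DifferentiableOn ℂ (u n) U := fun n => by
    induction n with
    | zero => exact differentiableOn_const (0 : F)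
    | succ n ih =>
      exact (hd.comp (differentiableOn_id.prodMk ih) fun x hx =>
        ⟨hx, closedBall_subset_ball hR' (um x hx n)⟩).congr fun x _ => us n x
  have uc : ∀ x ∈ U, ∀ n, dist (u n x) (u (n + 1) x) ≤ 2 * R / 2 / 2 ^ n := fun x hx n => by
    induction n with
    | zero => simpa [u, dist_comm] using um x hx 1
    | succ n ih =>
      rw [dist_eq_norm] at ih ⊢
      rw [us (n + 1), us n]
      refine (lip x hx _ (um x hx n) _ (us n x ▸ um x hx (n + 1))).trans ?_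
      rw [← us, pow_succ]
      linarith [show 2 * R / 2 / (2 ^ n * 2) = 1 / 2 * (2 * R / 2 / 2 ^ n) by ring]
  have ut : ∀ x ∈ U, Tendsto (fun n => u n x) atTop (𝓝 (limUnder atTop fun n => u n x)) :=
    fun x hx => (cauchySeq_of_le_geometric_two (uc x hx)).tendsto_limUnder
  refine ⟨fun x => limUnder atTop fun n => u n x, fun x hx => ?_, fun x hx => ?_⟩
  · obtain ⟨r, hr, h⟩ := Metric.isOpen_iff.1 hU x hx
    exact (Pool.Agent.Lib.MP_fa022d_an.hol_of_tendsto (C := R) hr (.of_forall fun n =>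
      ⟨(ud n).mono h, fun w hw => mem_closedBall_zero_iff.1 (um w (h hw) n)⟩)
      fun w hw => ut w (h hw)).1.differentiableWithinAt
  have t := ut x hx
  beta_reduce
  generalize (limUnder atTop fun n => u n x) = g at t ⊢
  have gm : g ∈ closedBall (0 : F) R := isClosed_closedBall.mem_of_tendsto t (.of_forall (um x hx))
  have gf : Θ (x, g) = g := by
    refine tendsto_nhds_unique (f := fun n => u (n + 1) x) ?_ (t.comp (tendsto_add_atTop_nat 1))
    refine tendsto_iff_norm_sub_tendsto_zero.2 (squeeze_zero (fun _ => norm_nonneg _)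
      (fun n => us n x ▸ lip x hx _ (um x hx n) _ gm) ?_)
    simpa only [mul_zero] using (tendsto_iff_norm_sub_tendsto_zero.1 t).const_mul (1 / 2)
  refine ⟨gm, gf, fun y hy e => ?_, fun T hT h0 h1 => hT.mem_of_tendsto t (.of_forall fun n => ?_)⟩
  · have := lip x hx y hy g gm
    rw [e, gf] at this
    exact sub_eq_zero.1 (norm_le_zero_iff.1 (by linarith))
  · induction n with
    | zero => exact h0
    | succ n ih => rw [us]; exact h1 _ ⟨ih, um x hx n⟩

/-- retraction onto the zero set along an approximate right inverse;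
use `fix_param` with `Θ (x, g) = g - Φ (x + R g)` on the ball of radius `2 L`. -/
theorem retract {Φ : E → F} {x0 : E} {ρ ρ' L : ℝ} (R : F →L[ℂ] E) (ER : Submodule ℝ E)
    (FR : Submodule ℝ F) (hFR : IsClosed (FR : Set F)) (hL : 0 ≤ L)
    (hd : DifferentiableOn ℂ Φ (ball x0 ρ))
    (hR : ∀ x ∈ ball x0 ρ, ‖(fderiv ℂ Φ x).comp R - ContinuousLinearMap.id ℂ F‖ ≤ 1 / 2)
    (hb : ∀ x ∈ ball x0 ρ', ‖Φ x‖ ≤ L) (hρ : ρ' + 2 * ‖R‖ * L < ρ)
    (reΦ : ∀ x ∈ ball x0 ρ, x ∈ ER → Φ x ∈ FR) (reR : ∀ y ∈ FR, R y ∈ ER) :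
    ∃ g : E → F, DifferentiableOn ℂ g (ball x0 ρ') ∧ ∀ x ∈ ball x0 ρ',
      ‖g x‖ ≤ 2 * ‖Φ x‖ ∧ Φ (x + R (g x)) = 0 ∧ (x ∈ ER → g x ∈ FR) ∧
      ∀ w, fderiv ℂ Φ (x + R (g x)) (w + R (fderiv ℂ g x w)) = 0 := by
  have hp : 0 < ‖R‖ + 1 := by positivity
  obtain ⟨δ, hδ, hδ'⟩ : ∃ δ > 0, ρ' + ‖R‖ * (2 * L + δ) ≤ ρ := by
    refine ⟨(ρ - ρ' - 2 * ‖R‖ * L) / (‖R‖ + 1), div_pos (by linarith) hp, ?_⟩
    have : ‖R‖ * ((ρ - ρ' - 2 * ‖R‖ * L) / (‖R‖ + 1)) ≤ ρ - ρ' - 2 * ‖R‖ * L := by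
      rw [← mul_div_assoc, div_le_iff₀ hp]; nlinarith
    linarith
  have hm : ∀ x ∈ ball x0 ρ', ∀ y ∈ ball (0 : F) (2 * L + δ), x + R y ∈ ball x0 ρ :=
    fun x hx y hy => by
      rw [mem_ball_iff_norm] at hx ⊢
      have h1 := (R.le_opNorm y).trans
        (mul_le_mul_of_nonneg_left (mem_ball_zero_iff.1 hy).le (norm_nonneg _))
      rw [add_sub_right_comm]
      linarith [norm_add_le (x - x0) (R y)]
  have sb : closedBall (0 : F) (2 * L) ⊆ ball 0 (2 * L + δ) := closedBall_subset_ball (by linarith)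
  have dΦ := fun x (hx : x ∈ ball x0 ρ) => (hd.differentiableAt (isOpen_ball.mem_nhds hx)).hasFDerivAt
  have lip : ∀ x ∈ ball x0 ρ', ∀ y ∈ closedBall (0 : F) (2 * L), ∀ y' ∈ closedBall (0 : F) (2 * L),
      ‖(y - Φ (x + R y)) - (y' - Φ (x + R y'))‖ ≤ 1 / 2 * ‖y - y'‖ := fun x hx y hy y' hy' =>
    (convex_closedBall (0 : F) (2 * L)).norm_image_sub_le_of_norm_hasFDerivWithin_le (𝕜 := ℂ)
      (f := fun y => y - Φ (x + R y))
      (f' := fun y => ContinuousLinearMap.id ℂ F - (fderiv ℂ Φ (x + R y)).comp R)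
      (fun z hz => ((hasFDerivAt_id z).sub ((dΦ _ (hm x hx z (sb hz))).comp z
        (R.hasFDerivAt.const_add x))).hasFDerivWithinAt)
      (fun z hz => by rw [norm_sub_rev]; exact hR _ (hm x hx z (sb hz))) hy' hy
  have z0 : (0 : F) ∈ closedBall (0 : F) (2 * L) := mem_closedBall_self (by linarith)
  have l0 : ∀ x ∈ ball x0 ρ', ∀ y ∈ closedBall (0 : F) (2 * L),
      ‖y - Φ (x + R y)‖ ≤ 1 / 2 * ‖y‖ + ‖Φ x‖ := fun x hx y hy => by
    have := lip x hx y hy 0 z0
    simp only [map_zero, add_zero, zero_sub, sub_neg_eq_add, sub_zero] at this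
    linarith [norm_le_add_norm_add (y - Φ (x + R y)) (Φ x)]
  obtain ⟨g, g1, g2⟩ := fix_param (Θ := fun p : E × F => p.2 - Φ (p.1 + R p.2)) (U := ball x0 ρ')
    isOpen_ball (by linarith : 0 ≤ 2 * L) (by linarith : 2 * L < 2 * L + δ)
    (differentiableOn_snd.sub (hd.comp (by fun_prop) fun p hp => hm _ hp.1 _ hp.2))
    (fun x hx y hy => mem_closedBall_zero_iff.2 ((l0 x hx y hy).trans (by
      linarith [mem_closedBall_zero_iff.1 hy, hb x hx]))) lip
  have hz : ∀ x ∈ ball x0 ρ', Φ (x + R (g x)) = 0 := fun x hx => sub_eq_self.1 (g2 x hx).2.1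
  refine ⟨g, g1, fun x hx => ⟨?_, hz x hx, fun hr => (g2 x hx).2.2.2 _ hFR FR.zero_mem
    fun y hy => FR.sub_mem hy.1 (reΦ _ (hm x hx y (sb hy.2)) (ER.add_mem hr (reR y hy.1))),
    fun w => ?_⟩⟩
  · have := l0 x hx _ (g2 x hx).1
    rw [hz x hx, sub_zero] at this
    linarith
  · have h1 := (dΦ _ (hm x hx _ (sb (g2 x hx).1))).comp x ((hasFDerivAt_id x).add
      (R.hasFDerivAt.comp x (g1.differentiableAt (isOpen_ball.mem_nhds hx)).hasFDerivAt))
    have h2 := h1.unique ((hasFDerivAt_const (0 : F) x).congr_of_eventuallyEq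
      (by filter_upwards [isOpen_ball.mem_nhds hx] with y hy using hz y hy))
    exact DFunLike.congr_fun h2 w

/-- Neumann series keeps a weighted bound -/
theorem neumann_weight {ι : Type} [TopologicalSpace ι] (A : (ι →ᵇ ℂ) →L[ℂ] (ι →ᵇ ℂ))
    (hA : ‖A - ContinuousLinearMap.id ℂ _‖ ≤ 1 / 2) (ω : ι → ℝ) (hω : ∀ i, 0 ≤ ω i)
    (h : ∀ (D : ℝ) (y : ι →ᵇ ℂ), 0 ≤ D → (∀ i, ‖y i‖ ≤ D * ω i) →
      ∀ i, ‖(A y - y) i‖ ≤ D / 2 * ω i)
    {z f : ι →ᵇ ℂ} {D : ℝ} (hD : 0 ≤ D) (hz : A z = f) (hf : ∀ i, ‖f i‖ ≤ D * ω i) :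
    ∀ i, ‖z i‖ ≤ 2 * D * ω i := by
  let u : ℕ → ι →ᵇ ℂ := fun n => (fun y => f - (A y - y))^[n] 0
  have us : ∀ n, u (n + 1) = f - (A (u n) - u n) := fun n => Function.iterate_succ_apply' _ _ _
  have h1 : ∀ n i, ‖u n i‖ ≤ 2 * D * ω i := fun n => by
    induction n with
    | zero => intro i; simpa [u] using mul_nonneg (by linarith) (hω i)
    | succ n ih =>
      intro i
      rw [us]
      refine (norm_sub_le (f i) ((A (u n) - u n) i)).trans ?_
      linarith [hf i, h (2 * D) (u n) (by linarith) ih i]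
  have h2 : ∀ n, ‖u n - z‖ ≤ ‖z‖ * (1 / 2) ^ n := fun n => by
    induction n with
    | zero => simp [u]
    | succ n ih =>
      have e : u (n + 1) - z = -((A - ContinuousLinearMap.id ℂ (ι →ᵇ ℂ)) (u n - z)) := by
        rw [us, ← hz]; simp only [ContinuousLinearMap.sub_apply, ContinuousLinearMap.id_apply, map_sub]
        abel
      rw [e, norm_neg, pow_succ]
      refine (ContinuousLinearMap.le_opNorm _ _).trans
        ((mul_le_mul hA ih (norm_nonneg _) (by norm_num)).trans_eq (by ring))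
  have h3 : Tendsto u atTop (𝓝 z) := tendsto_iff_norm_sub_tendsto_zero.2
    (squeeze_zero (fun _ => norm_nonneg _) h2 (by
      simpa using (tendsto_pow_atTop_nhds_zero_of_lt_one (r := (1 / 2 : ℝ)) (by norm_num)
        (by norm_num)).const_mul ‖z‖))
  exact fun i => le_of_tendsto' (((BoundedContinuousFunction.evalCLM ℂ i).continuous.tendsto z).comp
    h3).norm fun n => h1 n i

theorem isClosed_reB (ι : Type) [TopologicalSpace ι] : IsClosed (reB ι : Set (ι →ᵇ ℂ)) := by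
  have : (reB ι : Set (ι →ᵇ ℂ)) = ⋂ i, {x | (x i).im = 0} := by ext x; simp only [mem_iInter]; rfl
  rw [this]
  exact isClosed_iInter fun i => isClosed_eq (continuous_im.comp
    (BoundedContinuousFunction.evalCLM ℂ i).continuous) continuous_const

end StekIso
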