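import Pool.Agent.Lib.MP_fa022d_an.Defs4
import Pool.Agent.Lib.MP_fa022d_an.Four2

/-! Kernel packets: size, Hilbert transform, and a lower bound along a subsequence. -/

open Set Filter Topology Metric BoundedContinuousFunction Complex

noncomputable section
namespace StekIso

theorem pack_dw {η : ℝ} (hη : 0 < η) (M k : ℤ) : dw η (M - k) ≤ om η M k ∧ om η M k ≤ 1 := by
  have h0 : (0 : ℝ) ≤ max ((M : ℝ) - k) 0 := le_max_right _ _
  refine ⟨?_, Real.exp_le_one_iff.2 (by nlinarith)⟩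
  unfold dw om
  split_ifs with h
  · have h' : (0 : ℝ) ≤ (M : ℝ) - k := by exact_mod_cast h
    rw [max_eq_left h', Int.cast_sub]
    exact Real.exp_le_exp.2 (by nlinarith)
  · have h' : (M : ℝ) - k ≤ 0 := by exact_mod_cast (not_le.1 h).le
    rw [max_eq_right h', Int.cast_sub]
    exact Real.exp_le_exp.2 (by nlinarith)

section
variable {B : Base} {η μ Cs c0 : ℝ} {Ai ϱ : Bool → ℤ → ℂ}

theorem pack_bd (hη : 0 < η) (hS : SymOK B η μ Cs c0 Ai ϱ) (M : ℤ) (b : Idx) :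
    ‖if b.1 = true ∧ 0 < b.2 then X0 B η true (M - b.2)
      else if b.1 = true ∧ b.2 < 0 then Y0 B η true (M + b.2) else 0‖ ≤
        Cs * om η M |(b.2 : ℝ)| := by
  have hC : 0 ≤ Cs := zero_le_one.trans hS.one_le
  split_ifs with h h'
  · rw [abs_of_pos (by exact_mod_cast h.2)]
    exact ((hS.dX true).2 _).trans (mul_le_mul_of_nonneg_left (pack_dw hη M b.2).1 hC)
  · have := (pack_dw hη M (-b.2)).1
    rw [sub_neg_eq_add, Int.cast_neg] at this
    rw [abs_of_neg (by exact_mod_cast h'.2)]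
    exact ((hS.dY true).2 _).trans (mul_le_mul_of_nonneg_left this hC)
  · rw [norm_zero]
    exact mul_nonneg hC (Real.exp_pos _).le

theorem pack_val (hη : 0 < η) (hS : SymOK B η μ Cs c0 Ai ϱ) (M : ℤ) (b : Idx) :
    Wpk B η M b = if b.1 = true ∧ 0 < b.2 then X0 B η true (M - b.2)
      else if b.1 = true ∧ b.2 < 0 then Y0 B η true (M + b.2) else 0 :=
  toB_apply (C := Cs) (fun b => (pack_bd hη hS M b).trans (mul_le_of_le_one_right
    (zero_le_one.trans hS.one_le) (by exact_mod_cast (pack_dw hη M |b.2|).2))) b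

theorem pack_uu (hη : 0 < η) (hS : SymOK B η μ Cs c0 Ai ϱ) (M : ℤ) {k : ℤ} (hk : 0 < k) :
    uu (Wpk B η M) true k = X0 B η true (M - k) + I * Y0 B η true (M - k) ∧
    uu (Wpk B η M) true (-k) =
      (starRingEnd ℂ) (X0 B η true (M - k) + I * Y0 B η true (M - k)) := by
  have h1 : Wpk B η M (true, k) = X0 B η true (M - k) := by simp [pack_val hη hS, hk]
  have h2 : Wpk B η M (true, -k) = Y0 B η true (M - k) := by
    simp [pack_val hη hS, hk, hk.le, sub_eq_add_neg]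
  refine ⟨by rw [uu, if_pos hk, h1, h2], ?_⟩
  rw [uu, if_neg (by omega), if_pos (by omega), neg_neg, h1, h2, map_add, map_mul, conj_I,
    conj_eq_iff_im.2 ((hS.dX true).1 _), conj_eq_iff_im.2 ((hS.dY true).1 _)]
  ring

end

theorem Wpk_mem {B : Base} {η μ Cs c0 : ℝ} {Ai ϱ : Bool → ℤ → ℂ} (hη : 0 < η)
    (hS : SymOK B η μ Cs c0 Ai ϱ) (M : ℤ) : Wpk B η M ∈ reB Idx ∧ MB η M Cs (Wpk B η M) := by
  refine ⟨fun b => ?_, fun b => by rw [pack_val hη hS]; exact pack_bd hη hS M b⟩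
  rw [pack_val hη hS]
  split_ifs
  exacts [(hS.dX true).1 _, (hS.dY true).1 _, rfl]

/-- the ratio of the polynomial parts of the weights -/
def packR (M : ℕ) (a : ℤ) : ℝ := if a < M then (br M / br (M - a)) ^ 4 else 0

theorem packR_le (M : ℕ) (a : ℤ) : 0 ≤ packR M a ∧ packR M a ≤ br a ^ 4 := by
  have h1 := br_pos (M - a)
  have h2 := br_pos M
  unfold packR
  split_ifs
  · refine ⟨by positivity, pow_le_pow_left₀ (by positivity) ((div_le_iff₀ h1).2 ?_) 4⟩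
    have := wts2_br a (M - a)
    rw [add_sub_cancel] at this
    nlinarith [one_le_br a, one_le_br (M - a)]
  · exact ⟨le_rfl, (pow_pos (br_pos a) 4).le⟩

theorem packR_lim (a : ℤ) : Tendsto (fun M : ℕ => packR M a) atTop (𝓝 1) := by
  have h : Tendsto (fun M : ℕ => (1 + (a : ℝ) / ((M : ℝ) + (1 - a))) ^ 4) atTop
      (𝓝 ((1 + 0) ^ 4)) := (tendsto_const_nhds.add (tendsto_const_nhds.div_atTop
        (tendsto_atTop_add_const_right _ _ tendsto_natCast_atTop_atTop))).pow 4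
  rw [add_zero, one_pow] at h
  refine h.congr' ((eventually_gt_atTop a.toNat).mono fun M hM => ?_)
  have k : a < M := by omega
  have k' : (0 : ℝ) < (M : ℝ) - a := sub_pos.2 (by exact_mod_cast k)
  have k2 : (M : ℝ) + (1 - a) ≠ 0 := by linarith
  simp only [packR, if_pos k, br, Int.cast_sub, Int.cast_natCast, abs_of_pos k', Nat.abs_cast]
  congr 1
  rw [show 1 + ((M : ℝ) - a) = M + (1 - a) by ring]
  field_simp
  ring

theorem pack_beta (η : ℝ) (M : ℕ) {a : ℤ} (h : a < M) :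
    beta η (M - a) = beta η M * (Real.exp (η * a) * packR M a) := by
  have k' : (0 : ℝ) < (M : ℝ) - a := sub_pos.2 (by exact_mod_cast h)
  have h1 := br_pos (M - a)
  have h2 := br_pos M
  have e : ex η (M - a) = ex η M * Real.exp (η * a) := by
    simp only [ex, Int.cast_sub, Int.cast_natCast, abs_of_pos k', Nat.abs_cast, ← Real.exp_add]
    congr 1
    ring
  rw [beta, beta, packR, if_pos h, e]
  field_simp

theorem pack_ex {η : ℝ} (hη : 0 < η) (a : ℤ) : dw η a * Real.exp (η * a) ≤ ex (η / 2) a := by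
  unfold dw ex
  split_ifs with h
  · have h' : (0 : ℝ) ≤ a := by exact_mod_cast h
    rw [← Real.exp_add, abs_of_nonneg h']
    exact Real.exp_le_exp.2 (by nlinarith)
  · have h' : (a : ℝ) ≤ 0 := by exact_mod_cast (not_le.1 h).le
    rw [← Real.exp_add, abs_of_nonpos h']
    exact Real.exp_le_exp.2 (by nlinarith)

/-- the Hilbert transform of a packet, up to `o (beta M)` -/
theorem hil_Wpk {B : Base} {η : Pos} {μ Cs c0 : ℝ} {Ai ϱ : Bool → ℤ → ℂ}
    (hS : SymOK B η.1 μ Cs c0 Ai ϱ) {θ : ℝ} (hθ : 0 < θ) : ∀ᶠ M : ℕ in atTop, ∀ ε p : ℝ, 0 < ε →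
      ‖hil (toV η ε (Wpk B η.1 M) true).coeff p -
        (2 * ε * beta η.1 M * (-I * What B η.1 p * exp (I * M * p)).re : ℝ)‖ ≤
          θ * (ε * beta η.1 M) := by
  obtain ⟨Z, hZ⟩ : ∃ Z : ℤ → ℂ, ∀ a, Z a = X0 B η.1 true a + I * Y0 B η.1 true a := ⟨_, fun _ => rfl⟩
  have hC : 0 ≤ Cs := zero_le_one.trans hS.one_le
  obtain ⟨K, -, hK⟩ := four2_K (half_pos η.2) 4
  have one : ∀ a, 1 ≤ br a ^ 4 := fun a => one_le_pow₀ (one_le_br a)
  have bd : ∀ (a : ℤ) (r : ℝ), |r| ≤ br a ^ 4 → ‖Z a‖ * Real.exp (η.1 * a) * |r| ≤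
      2 * Cs * (br a ^ 4 * ex (η.1 / 2) a) := fun a r hr => by
    have h1 : ‖Z a‖ ≤ 2 * Cs * dw η.1 a := by
      rw [hZ]
      refine (norm_add_le _ _).trans ?_
      rw [norm_mul, norm_I, one_mul]
      linarith [(hS.dX true).2 a, (hS.dY true).2 a]
    calc _ ≤ 2 * Cs * ex (η.1 / 2) a * br a ^ 4 :=
          mul_le_mul ((mul_le_mul_of_nonneg_right h1 (Real.exp_pos _).le).trans (by
            rw [mul_assoc]
            exact mul_le_mul_of_nonneg_left (pack_ex η.2 a) (by positivity))) hr (abs_nonneg _)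
            (mul_nonneg (by positivity) (ex_pos _ _).le)
      _ = _ := by ring
  have r1 : ∀ (M : ℕ) a, |packR M a - 1| ≤ br a ^ 4 := fun M a =>
    abs_le.2 ⟨by linarith [(packR_le M a).1, one a], by linarith [(packR_le M a).2]⟩
  have sm := hK.summable.mul_left (2 * Cs)
  have lim := tendsto_tsum_of_dominated_convergence (𝓕 := atTop) (g := fun _ : ℤ => (0 : ℝ))
    (f := fun (M : ℕ) a => ‖Z a‖ * Real.exp (η.1 * a) * |packR M a - 1|) sm (fun a => by
      simpa using (((packR_lim a).sub_const 1).abs).const_mul (‖Z a‖ * Real.exp (η.1 * a)))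
    (.of_forall fun M a => by
      rw [Real.norm_of_nonneg (by positivity)]
      exact bd a _ (r1 M a))
  rw [tsum_zero] at lim
  filter_upwards [lim.eventually (gt_mem_nhds (half_pos hθ))] with M hM ε p hε
  obtain ⟨u, hu⟩ : ∃ u : ℤ → ℂ, ∀ a, u a = Z a * ((Real.exp (η.1 * a) : ℝ) * exp (-(I * a * p))) :=
    ⟨_, fun _ => rfl⟩
  have nu : ∀ (a : ℤ) (r : ℝ), ‖u a * r‖ = ‖Z a‖ * Real.exp (η.1 * a) * |r| := fun a r => by
    rw [hu, norm_mul, norm_mul, norm_mul, norm_real, norm_real, Real.norm_eq_abs, Real.norm_eq_abs,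
      Real.abs_exp, show -(I * a * p) = I * (-(a * p) : ℝ) by push_cast; ring,
      norm_exp_I_mul_ofReal, mul_one]
  have su : ∀ r : ℤ → ℝ, (∀ a, |r a| ≤ br a ^ 4) → Summable fun a => u a * r a := fun r h =>
    .of_norm_bounded sm fun a => (nu a _).trans_le (bd a _ (h a))
  have s1 : HasSum u (What B η.1 p) := by
    have := (su (fun _ => 1) fun a => by simpa using one a).hasSum
    simp only [ofReal_one, mul_one] at this
    simpa only [What, ← hZ, ← hu] using this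
  have s2 := (su _ (r1 M)).hasSum
  obtain ⟨D, hD⟩ : ∃ D, D = ∑' a, u a * (packR M a - 1 : ℝ) := ⟨_, rfl⟩
  rw [← hD] at s2
  have nD : ‖D‖ ≤ θ / 2 := by
    rw [hD]
    refine (tsum_of_norm_bounded (Summable.of_nonneg_of_le (fun a => by positivity)
      (fun a => bd a _ (r1 M a)) sm).hasSum fun a => (nu a _).le).trans hM.le
  obtain ⟨T, hT⟩ : ∃ T : ℤ → ℂ, ∀ k, T k = if 0 < k then
    -I * ((ε * beta η.1 k : ℝ) * Z (M - k)) * exp (I * k * p) else 0 := ⟨_, fun _ => rfl⟩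
  obtain ⟨κ, hκ⟩ : ∃ κ : ℂ, κ = (ε * beta η.1 M : ℝ) * (-I * exp (I * M * p)) := ⟨_, rfl⟩
  have s3 : HasSum T (κ * (What B η.1 p + D)) := by
    rw [← (Equiv.subLeft (M : ℤ)).hasSum_iff]
    refine (funext fun a => ?_ : (fun a => κ * (u a + u a * (packR M a - 1 : ℝ))) =
      T ∘ Equiv.subLeft (M : ℤ)) ▸ (s1.add s2).mul_left κ
    symm
    simp only [Function.comp, Equiv.subLeft_apply, hT, sub_pos, sub_sub_cancel]
    split_ifs with h
    · rw [pack_beta η.1 M h, hκ, hu, show I * ((M - a : ℤ) : ℂ) * p = I * M * p + -(I * a * p) by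
        push_cast; ring, exp_add]
      push_cast
      ring
    · simp [packR, h]
  have s4 : HasSum (fun k => (starRingEnd ℂ) (T (-k))) ((starRingEnd ℂ) (κ * (What B η.1 p + D))) :=
    hasSum_conj'.2 ((Equiv.neg ℤ).hasSum_iff.2 s3)
  have e : hil (toV η ε (Wpk B η.1 M) true).coeff p =
      (2 * (κ * (What B η.1 p + D)).re : ℝ) := by
    rw [← add_conj, ← (s3.add s4).tsum_eq]
    refine tsum_congr fun k => ?_
    beta_reduce
    rw [coeff_toV, hT, hT]
    rcases lt_trichotomy 0 k with h | rfl | h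
    · rw [if_pos h, if_neg (by omega), (pack_uu η.2 hS M h).1, ← hZ, Int.sign_eq_one_of_pos h]
      simp
    · simp
    · obtain ⟨l, rfl⟩ : ∃ l, k = -l := ⟨-k, (neg_neg k).symm⟩
      have hl : 0 < l := by omega
      have b : beta η.1 (-l) = beta η.1 l := by simp [beta, ex, br]
      rw [if_neg (by omega), neg_neg, if_pos hl, (pack_uu η.2 hS M hl).2, ← hZ,
        Int.sign_eq_neg_one_of_neg h, b]
      simp only [map_mul, map_neg, conj_I, conj_ofReal, ← exp_conj, map_intCast]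
      push_cast
      ring_nf
  have pos : 0 < ε * beta η.1 M := mul_pos hε (beta_pos _ _)
  have nκ : ‖κ‖ = ε * beta η.1 M := by
    rw [hκ, norm_mul, norm_mul, norm_neg, norm_I, norm_real, Real.norm_of_nonneg pos.le,
      show I * M * p = I * (M * p : ℝ) by push_cast; ring, norm_exp_I_mul_ofReal, mul_one, mul_one]
  have e2 : (κ * What B η.1 p).re = ε * beta η.1 M * (-I * What B η.1 p * exp (I * M * p)).re := by
    rw [← re_ofReal_mul, hκ]
    congr 1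
    ring
  rw [e, ← ofReal_sub, norm_real, mul_add, add_re, e2, show ∀ a b c d : ℝ,
    2 * (a * b * c + d) - 2 * a * b * c = 2 * d from fun _ _ _ _ => by ring, Real.norm_eq_abs, abs_mul,
    abs_two]
  have := (abs_re_le_norm (κ * D)).trans ((norm_mul _ _).le.trans
    (mul_le_mul_of_nonneg_left nD (norm_nonneg κ)))
  rw [nκ] at this
  linarith

/-- sequences with bounded sums over intervals -/
def PackBs (f : ℕ → ℂ) : Prop := ∃ K : ℝ, ∀ N0 N : ℕ, ‖∑ m ∈ Finset.range N, f (N0 + m)‖ ≤ K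

theorem PackBs.add {f g : ℕ → ℂ} (h : PackBs f) (k : PackBs g) : PackBs fun m => f m + g m := by
  obtain ⟨K, h⟩ := h
  obtain ⟨L, k⟩ := k
  exact ⟨K + L, fun N0 N => by
    rw [Finset.sum_add_distrib]
    exact (norm_add_le _ _).trans (add_le_add (h _ _) (k _ _))⟩

theorem pack_geo (c : ℂ) {w : ℂ} (h : ‖w‖ = 1) (k : w ^ 2 ≠ 1) :
    PackBs fun m => c * w ^ (2 * m + 1) := by
  refine ⟨‖c‖ * (2 / ‖w ^ 2 - 1‖), fun N0 N => ?_⟩
  have e : ∀ m, c * w ^ (2 * (N0 + m) + 1) = c * w ^ (2 * N0 + 1) * (w ^ 2) ^ m := fun m => by ring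
  simp only [e]
  rw [← Finset.mul_sum, geom_sum_eq k, norm_mul, norm_mul, norm_pow, h, one_pow, mul_one, norm_div]
  gcongr
  refine (norm_sub_le _ _).trans ?_
  simp [h, one_add_one_eq_two]

theorem pack_ces {h : ℕ → ℂ} {c : ℝ} (hh : ∀ᶠ M in atTop, ‖h M‖ ≤ c) {L : ℂ} {f : ℕ → ℂ}
    (k : PackBs f) (e : ∀ m, h m = L + f m) : ‖L‖ ≤ c := by
  obtain ⟨K, k⟩ := k
  obtain ⟨N0, hN⟩ := eventually_atTop.1 hh
  by_contra lt
  obtain ⟨N, hK⟩ := exists_nat_gt (K / (‖L‖ - c))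
  rw [div_lt_iff₀ (by linarith)] at hK
  have h1 : (N : ℂ) * L =
      ∑ m ∈ Finset.range N, h (N0 + m) - ∑ m ∈ Finset.range N, f (N0 + m) := by
    simp [e, Finset.sum_add_distrib]
  have h2 : ‖∑ m ∈ Finset.range N, h (N0 + m)‖ ≤ N * c := by
    simpa using norm_sum_le_of_le (Finset.range N) fun m _ => hN (N0 + m) (Nat.le_add_right _ _)
  have h3 := (congrArg norm h1).le.trans (norm_sub_le _ _)
  rw [norm_mul, norm_natCast] at h3
  linarith [k N0 N]

theorem pack_core {x y A A' : ℂ} (hx : ‖x‖ = 1) (hy : ‖y‖ = 1) {cp cq c : ℝ}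
    (h1 : (x⁻¹ * x⁻¹) ^ 2 ≠ 1) (h2 : (y * x⁻¹) ^ 2 ≠ 1) (H : ∀ᶠ M : ℕ in atTop,
      |cp * (A * x ^ (2 * M + 1)).re + cq * (A' * y ^ (2 * M + 1)).re| < c) :
    ((y⁻¹ * x⁻¹) ^ 2 ≠ 1 → ‖cp * A‖ ≤ 2 * c) ∧
      (y⁻¹ * x⁻¹ = -1 → ‖cp * A - cq * (starRingEnd ℂ) A'‖ ≤ 2 * c) := by
  have x0 : x ≠ 0 := fun e => by simp [e] at hx
  have hh : ∀ᶠ M : ℕ in atTop, ‖((2 * (cp * (A * x ^ (2 * M + 1)).re +
      cq * (A' * y ^ (2 * M + 1)).re) : ℝ) : ℂ) * x⁻¹ ^ (2 * M + 1)‖ ≤ 2 * c := H.mono fun M h => by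
    rw [norm_mul, norm_pow, norm_inv, hx, inv_one, one_pow, mul_one, norm_real, Real.norm_eq_abs,
      abs_mul, abs_two]
    linarith
  have e : ∀ m : ℕ, ((2 * (cp * (A * x ^ m).re + cq * (A' * y ^ m).re) : ℝ) : ℂ) * x⁻¹ ^ m =
      cp * A + (cp * (starRingEnd ℂ) A * (x⁻¹ * x⁻¹) ^ m + cq * A' * (y * x⁻¹) ^ m +
        cq * (starRingEnd ℂ) A' * (y⁻¹ * x⁻¹) ^ m) := fun m => by
    have a1 := add_conj (A * x ^ m)
    have a2 := add_conj (A' * y ^ m)
    have a3 : x ^ m * x⁻¹ ^ m = 1 := by rw [← mul_pow, mul_inv_cancel₀ x0, one_pow]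
    rw [map_mul, map_pow, ← inv_eq_conj hx] at a1
    rw [map_mul, map_pow, ← inv_eq_conj hy] at a2
    simp only [mul_pow]
    push_cast at a1 a2 ⊢
    linear_combination (-cp * x⁻¹ ^ m) * a1 - (cq * x⁻¹ ^ m) * a2 + cp * A * a3
  have b := (pack_geo (cp * (starRingEnd ℂ) A) (by simp [hx]) h1).add
    (pack_geo (cq * A') (by simp [hx, hy]) h2)
  refine ⟨fun h3 => pack_ces hh (b.add (pack_geo _ (by simp [hx, hy]) h3)) fun m => e _,
    fun h3 => pack_ces hh b fun m => ?_⟩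
  rw [e, h3, (odd_two_mul_add_one m).neg_one_pow]
  ring

theorem pack_What (B : Base) (η : ℝ) {p q : ℝ} (h : exp (I * p) = exp (I * q)) :
    What B η p = What B η q := tsum_congr fun a => by
  have e : ∀ s : ℝ, exp (-(I * a * s)) = exp (I * s) ^ (-a) := fun s => by
    rw [← exp_int_mul]
    congr 1
    push_cast
    ring
  rw [e, e, h]

theorem pack_half {B : Base} {η μ Cs c0 : ℝ} {Ai ϱ : Bool → ℤ → ℂ}
    (hS : SymOK B η μ Cs c0 Ai ϱ) {p q cp cq : ℝ} (hp : μ ≤ |Real.sin p|)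
    (hcp : cp ∈ Icc (1 / 2 : ℝ) 2) (hcq : cq ∈ Icc (1 / 2 : ℝ) 2)
    (h1 : ((exp (I * p))⁻¹ * (exp (I * p))⁻¹) ^ 2 ≠ 1)
    (h2 : (exp (I * q) * (exp (I * p))⁻¹) ^ 2 ≠ 1) (h3 : (exp (I * q))⁻¹ * (exp (I * p))⁻¹ ≠ 1) :
    ¬ ∀ᶠ M : ℕ in atTop, |cp * (-I * What B η p * exp (I * p) ^ (2 * M + 1)).re +
      cq * (-I * What B η q * exp (I * q) ^ (2 * M + 1)).re| < c0 / 8 := fun H => by
  obtain ⟨k1, k2⟩ := pack_core (norm_exp_I_mul_ofReal p) (norm_exp_I_mul_ofReal q) h1 h2 H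
  have c := hS.c0_pos
  by_cases h : (exp (I * q))⁻¹ * (exp (I * p))⁻¹ = -1
  · have e : exp (I * q) = exp (I * (Real.pi - p : ℝ)) := by
      rw [show I * (Real.pi - p : ℝ) = -(I * p) + Real.pi * I by push_cast; ring, exp_add_pi_mul_I,
        exp_neg]
      have := exp_ne_zero (I * q)
      field_simp at h ⊢
      linear_combination h
    have l := hS.low2 p cp cq hp hcp hcq
    have k := k2 h
    rw [pack_What B η e, show cp * (-I * What B η p) -
      cq * (starRingEnd ℂ) (-I * What B η (Real.pi - p)) =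
        -I * (cp * What B η p + cq * (starRingEnd ℂ) (What B η (Real.pi - p))) by
      simp only [map_mul, map_neg, conj_I]; ring, norm_mul, norm_neg, norm_I, one_mul] at k
    linarith
  · have k := k1 (sq_ne_one_iff.2 ⟨h3, h⟩)
    have l := hS.low1 p hp
    rw [norm_mul, norm_mul, norm_neg, norm_I, one_mul, norm_real,
      Real.norm_of_nonneg (by linarith [hcp.1])] at k
    nlinarith [hcp.1]

theorem pack_ne {x y : ℂ} (hx : ‖x‖ = 1) (h : 0 < x.im * y.im) (hne : x ≠ y) :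
    (y * x⁻¹) ^ 2 ≠ 1 ∧ y⁻¹ * x⁻¹ ≠ 1 ∧ x ^ 2 ≠ 1 := by
  have x0 : x ≠ 0 := fun e => by simp [e] at hx
  refine ⟨sq_ne_one_iff.2 ⟨fun e => hne ((mul_inv_eq_one₀ x0).1 e).symm, fun e => ?_⟩, fun e => ?_,
    sq_ne_one_iff.2 ⟨fun e => by simp [e] at h, fun e => by simp [e] at h⟩⟩
  · rw [(mul_inv_eq_iff_eq_mul₀ x0).1 e] at h
    simp only [neg_mul, one_mul, neg_im] at h
    nlinarith [sq_nonneg x.im]
  · rw [← inv_inv y, (mul_inv_eq_one₀ x0).1 e, inv_eq_conj hx, conj_im] at h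
    nlinarith [sq_nonneg x.im]

/-- Cesaro means of `g M * exp (-i (2M+1) p)`; if `4p` is a multiple of `2π` use `q` -/
theorem packet_limsup {B : Base} {η μ Cs c0 : ℝ} {Ai ϱ : Bool → ℤ → ℂ}
    (hS : SymOK B η μ Cs c0 Ai ϱ) {p q cp cq : ℝ} (hp : μ ≤ |Real.sin p|) (hq : μ ≤ |Real.sin q|)
    (hpq : 0 < Real.sin p * Real.sin q) (hne : exp (I * p) ≠ exp (I * q))
    (hcp : cp ∈ Icc (1 / 2 : ℝ) 2) (hcq : cq ∈ Icc (1 / 2 : ℝ) 2) :
    ∃ᶠ M : ℕ in atTop, c0 / 8 ≤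
      |cp * (-I * What B η p * exp (I * (2 * M + 1 : ℕ) * p)).re +
        cq * (-I * What B η q * exp (I * (2 * M + 1 : ℕ) * q)).re| := by
  have e : ∀ (n : ℕ) (s : ℝ), exp (I * n * s) = exp (I * s) ^ n := fun n s => by
    rw [← exp_nat_mul]
    congr 1
    ring
  have im : ∀ s : ℝ, (exp (I * s)).im = Real.sin s := fun s => by
    rw [mul_comm, exp_ofReal_mul_I_im]
  rw [← im, ← im] at hpq
  obtain ⟨a1, a2, a3⟩ := pack_ne (norm_exp_I_mul_ofReal p) hpq hne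
  obtain ⟨b1, b2, b3⟩ := pack_ne (norm_exp_I_mul_ofReal q) (by rwa [mul_comm]) hne.symm
  simp only [Filter.Frequently, not_le, e]
  by_cases h : ((exp (I * p))⁻¹ * (exp (I * p))⁻¹) ^ 2 = 1
  · simp only [add_comm (cp * _)]
    refine pack_half hS hq hcq hcp (fun k => a1 ?_) b1 b2
    have s : ∀ {x : ℂ}, (x⁻¹ * x⁻¹) ^ 2 = 1 → x ^ 2 ≠ 1 → x ^ 2 = -1 := fun {x} u v => by
      rw [← sq, inv_pow, inv_pow, inv_eq_one] at u
      exact (sq_eq_one_iff.1 u).resolve_left v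
    rw [mul_pow, inv_pow, s h a3, s k b3]
    simp
  · exact pack_half hS hp hcp hcq h a1 a2

end StekIso
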