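import Pool.Agent.Lib.MP_fa022d_an.Defs4
import Pool.Agent.Lib.MP_fa022d_an.Hol2
import Pool.Agent.Lib.MP_fa022d_an.Hol3
import Pool.Agent.Lib.MP_fa022d_an.Four2
import Pool.Agent.Lib.MP_fa022d_an.HiN3
import Pool.Agent.Lib.MP_fa022d_an.HiN4
import Pool.Agent.Lib.MP_fa022d_an.Pack

open Set Filter Topology Metric BoundedContinuousFunction Complex

noncomputable section
namespace StekIso

theorem hin_rpos (r : Bool × Bool × ℕ) : 0 ≤ rpos r := by
  unfold rpos; split_ifs <;> positivity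

theorem hin_closed (ι : Type) [TopologicalSpace ι] : IsClosed (reB ι : Set (ι →ᵇ ℂ)) := by
  have : (reB ι : Set (ι →ᵇ ℂ)) = ⋂ i, {x | (x i).im = 0} := by
    ext x; simp only [mem_iInter]; rfl
  rw [this]
  exact isClosed_iInter fun i => isClosed_eq (continuous_im.comp (continuous_eval_const i))
    continuous_const

/-- the abstract Newton step -/
theorem hin_core {B : Base} {η lam cut Ncut CR τ C θ1 Cs ρ δ Cb θ : ℝ} {x0 : X}
    {φ : X → Row lam cut → ℂ} {R : (Row lam cut →ᵇ ℂ) →L[ℂ] X} (hR : RinvOK B η lam cut Ncut CR τ R)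
    (hCR : 0 ≤ CR) (hC : 0 ≤ C) (hCs : 0 ≤ Cs) (hτ : 0 ≤ τ) (hθ1 : 0 ≤ θ1) (hδ : 0 < δ)
    (hδρ : δ * (2 * CR * C + 1) < ρ) (h1 : θ1 * CR + τ ≤ 1 / 2) (h2 : CR * (2 * (θ1 * Cs + τ)) ≤ θ)
    (diff : ∀ r, DifferentiableOn ℂ (fun x => φ x r) (ball x0 ρ))
    (bd : ∀ x ∈ ball x0 ρ, ∀ r, ‖φ x r‖ ≤ Cb)
    (real : ∀ x ∈ ball x0 ρ, x ∈ reB Idx → ∀ r, (φ x r).im = 0) (zero : ∀ r, φ x0 r = 0)
    (dbd : ∀ x ∈ ball x0 ρ, ∀ r w, ‖fderiv ℂ (fun x => φ x r) x w‖ ≤ C * ‖w‖)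
    (spl : ∀ x ∈ ball x0 ρ, ∀ (r : Row lam cut) (M D : ℝ) (w : X), 0 ≤ D → MB η M D w →
      ‖fderiv ℂ (fun x => φ x r) x w - Lrow B η r.1 w‖ ≤ θ1 * D * om η M (rpos r.1))
    (hW : ∀ M : ℕ, MB η (2 * M + 1) Cs (Wpk B η (2 * M + 1)) ∧ ∀ r : Row lam cut,
      ‖Lrow B η r.1 (Wpk B η (2 * M + 1))‖ ≤ τ * om η (2 * M + 1) (rpos r.1)) :
    ∃ π : X → X, RetrOK B η x0 δ (2 * CR * C) θ Ncut π ∧ ∀ x ∈ ball x0 δ, ∀ r, φ (π x) r = 0 := by
  have hρ : δ < ρ := by nlinarith [mul_nonneg (mul_nonneg hCR hC) hδ.le]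
  have sub : ball x0 δ ⊆ ball x0 ρ := ball_subset_ball hρ.le
  obtain ⟨d1, d2⟩ := diffOn_toB isOpen_ball diff bd
  set Φ : X → (Row lam cut →ᵇ ℂ) := fun x => toB (φ x) with hΦ
  have ap : ∀ x ∈ ball x0 ρ, ∀ r, Φ x r = φ x r := fun x hx r => toB_apply (bd x hx) r
  have om0 : ∀ r : Row lam cut, om η 0 (rpos r.1) = 1 := fun r => om_zero η (hin_rpos _)
  have nR : ‖R‖ ≤ CR := ContinuousLinearMap.opNorm_le_bound _ hCR fun g =>
    (BoundedContinuousFunction.norm_le (mul_nonneg hCR (norm_nonneg _))).2 fun b => by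
      have := hR.bd 0 ‖g‖ g (norm_nonneg _)
        (fun r => by rw [om0, mul_one]; exact g.norm_coe_le_norm r) b
      rwa [om_zero η (abs_nonneg _), mul_one] at this
  have half : ∀ x ∈ ball x0 ρ, ∀ (M D : ℝ) (y : Row lam cut →ᵇ ℂ), 0 ≤ D → MBY η M D y → ∀ r,
      ‖((fderiv ℂ Φ x).comp R y - y) r‖ ≤ D / 2 * om η M (rpos r.1) := fun x hx M D y hD hy r => by
    have a := spl x hx r M (CR * D) (R y) (mul_nonneg hCR hD) (hR.bd M D y hD hy)
    have b := hR.inv M D y hD hy r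
    have e : ((fderiv ℂ Φ x).comp R y - y) r =
        (fderiv ℂ (fun x => φ x r) x (R y) - Lrow B η r.1 (R y)) + (Lrow B η r.1 (R y) - y r) := by
      rw [← d2 x hx]; simp
    rw [e]
    refine (norm_add_le _ _).trans ((add_le_add a b).trans ?_)
    have := mul_nonneg hD (om_pos η M (rpos r.1)).le
    nlinarith
  have hA : ∀ x ∈ ball x0 ρ, ‖(fderiv ℂ Φ x).comp R - ContinuousLinearMap.id ℂ _‖ ≤ 1 / 2 :=
    fun x hx => ContinuousLinearMap.opNorm_le_bound _ (by norm_num) fun y =>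
      (BoundedContinuousFunction.norm_le (by positivity)).2 fun r => by
        have := half x hx 0 ‖y‖ y (norm_nonneg _)
          (fun r => by rw [om0, mul_one]; exact y.norm_coe_le_norm r) r
        rw [om0] at this
        exact this.trans (le_of_eq (by ring))
  have lip : ∀ x ∈ ball x0 ρ, ‖Φ x‖ ≤ C * ‖x - x0‖ := fun x hx => by
    have m : x0 ∈ ball x0 ρ := mem_ball_self (hδ.trans hρ)
    have := (convex_ball x0 ρ).norm_image_sub_le_of_norm_fderiv_le (𝕜 := ℂ) (C := C)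
      (fun y hy => d1.differentiableAt (isOpen_ball.mem_nhds hy))
      (fun y hy => ContinuousLinearMap.opNorm_le_bound _ hC fun w =>
        (BoundedContinuousFunction.norm_le (mul_nonneg hC (norm_nonneg _))).2 fun r => by
          rw [d2 y hy]; exact dbd y hy r w) m hx
    have z : Φ x0 = 0 := by ext r; rw [ap x0 m, zero]; rfl
    rwa [z, sub_zero] at this
  obtain ⟨g, g1, g2⟩ := retract (Φ := Φ) (x0 := x0) (ρ := ρ) (ρ' := δ) (L := C * δ) R (reB Idx)
    (reB _) (hin_closed _) (mul_nonneg hC hδ.le) d1 hA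
    (fun x hx => (lip x (sub hx)).trans
      (mul_le_mul_of_nonneg_left (mem_ball_iff_norm.1 hx).le hC))
    (by nlinarith [mul_le_mul_of_nonneg_right nR (mul_nonneg hC hδ.le)])
    (fun x hx h r => by rw [ap x hx]; exact real x hx h r) hR.real
  have near : ∀ x ∈ ball x0 δ, ‖R (g x)‖ ≤ 2 * CR * C * ‖x - x0‖ := fun x hx => by
    calc _ ≤ CR * ‖g x‖ := R.le_of_opNorm_le nR _
      _ ≤ CR * (2 * (C * ‖x - x0‖)) := by
        gcongr; linarith [(g2 x hx).1, lip x (sub hx)]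
      _ = _ := by ring
  have inb : ∀ x ∈ ball x0 δ, x + R (g x) ∈ ball x0 ρ := fun x hx => by
    have := mem_ball_iff_norm.1 hx
    rw [mem_ball_iff_norm, add_sub_right_comm]
    refine (norm_add_le _ _).trans_lt ?_
    nlinarith [near x hx, mul_nonneg hCR hC]
  refine ⟨fun x => x + R (g x), ⟨differentiableOn_id.add (R.differentiable.comp_differentiableOn g1),
    fun x hx => by simpa using near x hx,
    fun x hx h => add_mem h (hR.real _ ((g2 x hx).2.2.1 h)),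
    fun x _ b hb => by simp [hR.supp _ b hb], Eventually.of_forall fun M x hx => ?_⟩,
    fun x hx r => by rw [← ap _ (inb x hx), (g2 x hx).2.1]; rfl⟩
  have dg := (g1.differentiableAt (isOpen_ball.mem_nhds hx)).hasFDerivAt
  have dπ : HasFDerivAt (fun x => x + R (g x)) _ x :=
    (hasFDerivAt_id x).add (R.hasFDerivAt.comp x dg)
  set W := Wpk B η (2 * M + 1) with hWd
  have e : fderiv ℂ (fun x => x + R (g x)) x W - W = R (fderiv ℂ g x W) := by
    rw [dπ.fderiv]; simp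
  have k := (g2 x hx).2.2.2 W
  rw [map_add, add_comm, ← eq_neg_iff_add_eq_zero] at k
  have D0 : 0 ≤ θ1 * Cs + τ := by positivity
  have nw := neumann_weight ((fderiv ℂ Φ (x + R (g x))).comp R) (hA _ (inb x hx))
    (fun r => om η (2 * M + 1) (rpos r.1)) (fun r => (om_pos _ _ _).le)
    (fun D y hD hy => half _ (inb x hx) _ D y hD hy) D0 k fun r => by
      have a := spl _ (inb x hx) r _ Cs W hCs (hW M).1
      have b := (hW M).2 r
      rw [BoundedContinuousFunction.neg_apply, norm_neg, d2 _ (inb x hx),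
        ← sub_add_cancel (fderiv ℂ (fun x => φ x r) (x + R (g x)) W) (Lrow B η r.1 W), add_mul]
      exact (norm_add_le _ _).trans (add_le_add a b)
  intro b
  have := hR.bd _ _ _ (by positivity) nw b
  change ‖(fderiv ℂ (fun x => x + R (g x)) x W - W) b‖ ≤ _
  rw [e]
  exact this.trans (mul_le_mul_of_nonneg_right h2 (om_pos _ _ _).le)

/-- Newton step for the high equations: right inverse `Rx`, `Ry` cut to `|k| ≥ Ncut`,
`retract`, `neumann_weight`; split `w` at `rpos + J` for the packet norm. -/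
theorem high_newton {B : Base} {η μ Cs c0 : ℝ} {Ai ϱ : Bool → ℤ → ℂ} (hη : 0 < η)
    (hS : SymOK B η μ Cs c0 Ai ϱ) : ∃ C1 ≥ 1, ∀ K : ℝ, ∀ θ > 0, ∃ δ > 0, δ * (C1 + 1) ≤ 1 / 2 ∧
      ∃ θ' > 0, ∀ N0 : ℕ, 1 ≤ N0 → ∃ n1 : ℝ, ∀ lam cut Ncut : ℝ, n1 ≤ Ncut →
        (∀ r : Row lam cut, 2 * Ncut ≤ r.1.2.2) → ∀ φ : X → Row lam cut → ℂ,
        PhiOK B η lam cut (tail N0) K θ' φ → ∃ π : X → X, RetrOK B η (tail N0) δ C1 θ Ncut π ∧
          ∀ x ∈ ball (tail N0) δ, ∀ r, φ (π x) r = 0 := by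
  obtain ⟨CR, hCR, hR⟩ := exists_rinv hη hS
  obtain ⟨C, hC, m1, m2, m3, m4⟩ := mainL_fderiv hη hS
  have hCs := hS.one_le
  refine ⟨2 * CR * (C + 1), by nlinarith, fun K θ hθ => ?_⟩
  obtain ⟨τ, hτ, t1, t2⟩ : ∃ τ > 0, τ ≤ 1 / 4 ∧ CR * τ ≤ θ / 4 :=
    ⟨min (1 / 4) (θ / 4 / CR), by positivity, min_le_left _ _, by
      rw [← le_div_iff₀' (by linarith)]; exact min_le_right _ _⟩
  obtain ⟨θ1, hθ1, s1, s2⟩ : ∃ θ1 > 0, θ1 * CR ≤ 1 / 4 ∧ θ1 * (CR * Cs) ≤ θ / 4 :=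
    ⟨min (1 / 4 / CR) (θ / 4 / (CR * Cs)), by positivity, by
      rw [← le_div_iff₀ (by linarith)]; exact min_le_left _ _, by
      rw [← le_div_iff₀ (by positivity)]; exact min_le_right _ _⟩
  obtain ⟨κ', hκ', sp⟩ := split_bound hη (K := |K| + Cs) (by positivity) hθ1
  obtain ⟨κ, hκ, k1, k2⟩ : ∃ κ > 0, κ ≤ κ' ∧ κ ≤ 1 :=
    ⟨min κ' 1, by positivity, min_le_left _ _, min_le_right _ _⟩
  obtain ⟨ρ, hρ, r1, r2⟩ : ∃ ρ > 0, ρ ≤ 1 / 4 ∧ C * ρ ≤ κ / 3 :=
    ⟨min (1 / 4) (κ / 3 / C), by positivity, min_le_left _ _, by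
      rw [← le_div_iff₀' (by linarith)]; exact min_le_right _ _⟩
  have p : 0 < 2 * CR * (C + 1) + 1 := by positivity
  have eδ : ρ / 2 / (2 * CR * (C + 1) + 1) * (2 * CR * (C + 1) + 1) = ρ / 2 := by field_simp
  refine ⟨ρ / 2 / (2 * CR * (C + 1) + 1), by positivity, by linarith, κ / 12, by positivity,
    fun N0 hN0 => ?_⟩
  obtain ⟨n1, hn1⟩ := hR τ hτ
  obtain ⟨n2, hn2⟩ := m4 (κ / 3) (by positivity) N0 hN0
  obtain ⟨n3, hn3⟩ := pack_defect hη hS hτ
  refine ⟨max (max n1 0) (max n2 n3), fun lam cut Ncut hN hrow φ hφ => ?_⟩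
  simp only [max_le_iff] at hN
  obtain ⟨⟨a1, a0⟩, a2, a3⟩ := hN
  obtain ⟨R, hR⟩ := hn1 lam cut Ncut a1 hrow
  have sub : ball (tail N0) ρ ⊆ ball (tail N0) (1 / 2) := ball_subset_ball (by linarith)
  have sup : ∀ x ∈ ball (tail N0) ρ, ∀ (r : Row lam cut) (w : X),
      ‖fderiv ℂ (fun x => φ x r) x w - Lrow B η r.1 w‖ ≤ κ * ‖w‖ := fun x hx r w => by
    obtain ⟨k, hk⟩ := hφ.close r
    have s : ball x (1 / 4) ⊆ ball (tail N0) (1 / 2) :=
      ball_subset_ball' (by linarith [mem_ball.1 hx])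
    have c := cauchy_fderiv (f := fun x => φ x r - mainL B η x r.1 - k) (x := x) (R := 1 / 4)
      (by norm_num) ((((hφ.diff r).mono s).sub (m1 r.1).differentiableOn).sub_const k)
      fun y hy => hk y (s hy)
    have d := (((hφ.diff r).differentiableAt (isOpen_ball.mem_nhds (sub hx))).hasFDerivAt.sub
      (m1 r.1 x).hasFDerivAt).sub_const k
    have e : fderiv ℂ (fun x => φ x r - mainL B η x r.1 - k) x = _ := d.fderiv
    rw [e] at c
    have c' := ContinuousLinearMap.le_of_opNorm_le _ c w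
    have b := hn2 r.1 (by linarith [hrow r]) x w
    rw [_root_.sub_apply] at c'
    rw [← sub_add_sub_cancel _ (fderiv ℂ (fun x : X => mainL B η x r.1) x w)]
    refine (norm_add_le _ _).trans ((add_le_add c' b).trans ?_)
    rw [← add_mul]
    gcongr
    have := mul_le_mul_of_nonneg_left (mem_ball_iff_norm.1 hx).le (by linarith : 0 ≤ C)
    linarith
  refine hin_core (θ1 := θ1) (Cs := Cs) (ρ := ρ) (Cb := 1 + 5 * C) hR (by linarith) (by linarith)
    (by linarith) hτ.le hθ1.le (by positivity) (by linarith) (by linarith) (by nlinarith)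
    (fun r => (hφ.diff r).mono sub) (fun x hx r => ?_) (fun x hx => hφ.real x (sub hx)) hφ.zero
    (fun x hx r w => ?_) (fun x hx r => sp _ _ (hin_rpos _) (fun w w' => ?_)
      (fun w => (sup x hx r w).trans (by gcongr)) fun w hw => ?_) fun M => ⟨?_, fun r => ?_⟩
  · obtain ⟨k, hk⟩ := hφ.close r
    have b1 := hk x (sub hx)
    have b2 := hk _ (mem_ball_self (by norm_num))
    have n0 := norm_tail_le N0
    have nx : ‖x‖ ≤ 2 := by
      linarith [norm_sub_norm_le x (tail N0), mem_ball_iff_norm.1 hx]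
    have b3 : ‖mainL B η x r.1‖ ≤ C * 2 ^ 2 := (m2 r.1 x).trans (by gcongr)
    have b4 : ‖mainL B η (tail N0) r.1‖ ≤ C * 1 ^ 2 := (m2 r.1 _).trans (by gcongr)
    have e : φ x r = (φ x r - mainL B η x r.1 - k) - (φ (tail N0) r - mainL B η (tail N0) r.1 - k) +
        (mainL B η x r.1 - mainL B η (tail N0) r.1) := by rw [hφ.zero]; ring
    rw [e]
    refine (norm_add_le _ _).trans ?_
    linarith [norm_sub_le (φ x r - mainL B η x r.1 - k)
      (φ (tail N0) r - mainL B η (tail N0) r.1 - k),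
      norm_sub_le (mainL B η x r.1) (mainL B η (tail N0) r.1)]
  · rw [← sub_add_cancel (fderiv ℂ (fun x => φ x r) x w) (Lrow B η r.1 w)]
    refine (norm_add_le _ _).trans ((add_le_add (sup x hx r w) (m3 r.1 w)).trans ?_)
    nlinarith [norm_nonneg w]
  · rw [map_add, Lrow_add hη hS]; ring
  · have s0 : 0 ≤ ∑' b : Idx, ‖w b‖ * Real.exp (-(3 / 2 * η) * (|(b.2 : ℝ)| - rpos r.1)) :=
      tsum_nonneg fun b => by positivity
    rw [add_mul]
    exact (norm_sub_le _ _).trans (add_le_add ((hφ.row r x (sub hx) w hw).trans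
      (mul_le_mul_of_nonneg_right (le_abs_self K) s0)) (Lrow_tail hη hS r.1 w hw))
  · simpa using (Wpk_mem hη hS (2 * M + 1)).2
  · simpa using hn3 r.1 (by linarith [hrow r]) (2 * M + 1) ⟨M, rfl⟩

end StekIso
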