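import Pool.Agent.Lib.MP_fa022d_an.Defs4

/-! Definitions for the Newton step. -/

open Set Filter Topology Metric BoundedContinuousFunction Complex

noncomputable section
namespace StekIso

/-- packet norm bound for sequences on all integers -/
def ZB (η M D : ℝ) (z : ℤ → ℂ) : Prop := ∀ k : ℤ, ‖z k‖ ≤ D * om η M k
/-- the constant of a correlation in the packet norm -/
def Lam (η : ℝ) : ℝ := ∑' a : ℤ, dw η a * Real.exp (5 / 4 * η * max (a : ℝ) 0)
/-- one row of the limit operator -/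
def Lrow (B : Base) (η : ℝ) (r : Bool × Bool × ℕ) (w : Idx → ℂ) : ℂ := ∑' b, Lmat B η r b * w b

/-- an approximate right inverse of the limit operator -/
structure RinvOK (B : Base) (η lam cut Ncut CR τ : ℝ) (R : (Row lam cut →ᵇ ℂ) →L[ℂ] X) :
    Prop where
  bd : ∀ (M D : ℝ) (g : Row lam cut →ᵇ ℂ), 0 ≤ D → MBY η M D g → MB η M (CR * D) (R g)
  real : ∀ g ∈ reB (Row lam cut), R g ∈ reB Idx
  supp : ∀ g (b : Idx), |(b.2 : ℝ)| < Ncut → R g b = 0
  inv : ∀ (M D : ℝ) (g : Row lam cut →ᵇ ℂ), 0 ≤ D → MBY η M D g →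
    MBY η M (τ * D) fun r : Row lam cut => Lrow B η r.1 (R g) - g r

end StekIso
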