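import Pool.Agent.Lib.MP_fa022d_an.Defs3
import Pool.Agent.Lib.MP_fa022d_an.Four1

/-! Sequences whose Fourier series converges on a horizontal strip; division. -/

open Set Filter Topology Metric Complex

noncomputable section
namespace StekIso

/-- the Fourier series converges absolutely on the strip `a < im s < b` -/
def Hs (a b : ℝ) (c : ℤ → ℂ) : Prop :=
  ∀ y ∈ Ioo a b, Summable fun k : ℤ => ‖c k‖ * Real.exp (-(k * y))

/-- real sequences -/
def Rl (c : ℤ → ℂ) : Prop := ∀ k, (c k).im = 0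

theorem sym1_norm_exp (k : ℤ) (s : ℂ) : ‖exp (I * k * s)‖ = Real.exp (-(k * s.im)) := by
  rw [norm_exp]; congr 1; simp

theorem sym1_norm_term (c : ℤ → ℂ) (k : ℤ) (s : ℂ) :
    ‖c k * exp (I * k * s)‖ = ‖c k‖ * Real.exp (-(k * s.im)) := by
  rw [norm_mul, sym1_norm_exp]

variable {a b : ℝ} {c d : ℤ → ℂ}

theorem Hs.norm_summable (h : Hs a b c) {s : ℂ} (hs : s.im ∈ Ioo a b) :
    Summable fun k : ℤ => ‖c k * exp (I * k * s)‖ := by
  simpa only [sym1_norm_term] using h _ hs

theorem Hs.summable (h : Hs a b c) {s : ℂ} (hs : s.im ∈ Ioo a b) :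
    Summable fun k : ℤ => c k * exp (I * k * s) := (h.norm_summable hs).of_norm

theorem Hs.l1 (h : Hs a b c) (ha : a < 0) (hb : 0 < b) : Summable fun k => ‖c k‖ := by
  simpa using h 0 ⟨ha, hb⟩

theorem Hs.of_norm (h : ∀ y ∈ Ioo a b, Summable fun k : ℤ => ‖c k * exp (I * k * (I * y))‖) :
    Hs a b c := fun y hy => by
  simpa only [sym1_norm_term, mul_im, I_re, I_im, ofReal_re, ofReal_im, mul_zero, one_mul,
    zero_add, zero_mul] using h y hy

theorem Hs.add (hc : Hs a b c) (hd : Hs a b d) : Hs a b fun k => c k + d k := fun y hy => by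
  refine Summable.of_nonneg_of_le (fun k => by positivity) (fun k => ?_) ((hc y hy).add (hd y hy))
  rw [← add_mul]; gcongr; exact norm_add_le _ _

theorem Hs.sub (hc : Hs a b c) (hd : Hs a b d) : Hs a b fun k => c k - d k := fun y hy => by
  refine Summable.of_nonneg_of_le (fun k => by positivity) (fun k => ?_) ((hc y hy).add (hd y hy))
  rw [← add_mul]; gcongr; exact norm_sub_le _ _

theorem sym1_norm_sg (k : ℤ) : ‖sg k‖ = 1 := by simp [sg]

theorem sym1_sg_even {k : ℤ} (h : Even k) : sg k = 1 := h.neg_one_zpow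
theorem sym1_sg_odd {k : ℤ} (h : Odd k) : sg k = -1 := h.neg_one_zpow

theorem sym1_sg_im (k : ℤ) : (sg k).im = 0 := by
  rcases Int.even_or_odd k with h | h
  · simp [sym1_sg_even h]
  · simp [sym1_sg_odd h]

theorem sym1_sg_exp (k : ℤ) : exp (I * k * Real.pi) = sg k := by
  rw [show I * k * Real.pi = k * (Real.pi * I) by ring, exp_int_mul, exp_pi_mul_I]; rfl

theorem Hs.tw (hc : Hs a b c) : Hs a b (tw c) := fun y hy => by
  simpa only [StekIso.tw, norm_mul, sym1_norm_sg, one_mul] using hc y hy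

theorem sym1_Hs_dlt : Hs a b dlt := fun y _ =>
  summable_of_ne_finset_zero (s := {0}) fun k hk => by
    have : k ≠ 0 := by simpa using hk
    simp [dlt, this]

theorem sym1_conv_summable (hc : Summable fun k => ‖c k‖) (hd : Summable fun k => ‖d k‖) (k : ℤ) :
    Summable fun h => c h * d (k - h) := by
  refine Summable.of_norm_bounded (hc.mul_right (∑' k, ‖d k‖)) fun h => ?_
  rw [norm_mul]; gcongr
  exact hd.le_tsum _ fun _ _ => norm_nonneg _

theorem Hs.conv (ha : a < 0) (hb : 0 < b) (hc : Hs a b c) (hd : Hs a b d) : Hs a b (conv c d) :=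
  Hs.of_norm fun y hy => (fs_conv (hc.norm_summable (by simpa using hy))
    (hd.norm_summable (by simpa using hy)) (sym1_conv_summable (hc.l1 ha hb) (hd.l1 ha hb))).1

theorem sym1_fs_conv (ha : a < 0) (hb : 0 < b) (hc : Hs a b c) (hd : Hs a b d) {s : ℂ}
    (hs : s.im ∈ Ioo a b) : fs (conv c d) s = fs c s * fs d s :=
  (fs_conv (hc.norm_summable hs) (hd.norm_summable hs)
    (sym1_conv_summable (hc.l1 ha hb) (hd.l1 ha hb))).2

theorem sym1_fs_add (hc : Hs a b c) (hd : Hs a b d) {s : ℂ} (hs : s.im ∈ Ioo a b) :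
    fs (fun k => c k + d k) s = fs c s + fs d s := by
  simp only [fs, add_mul]; exact (hc.summable hs).tsum_add (hd.summable hs)

theorem sym1_fs_sub (hc : Hs a b c) (hd : Hs a b d) {s : ℂ} (hs : s.im ∈ Ioo a b) :
    fs (fun k => c k - d k) s = fs c s - fs d s := by
  simp only [fs, sub_mul]; exact (hc.summable hs).tsum_sub (hd.summable hs)

theorem sym1_fs_tw (c : ℤ → ℂ) (s : ℂ) : fs (tw c) s = fs c (s + Real.pi) := by
  refine tsum_congr fun k => ?_
  rw [mul_add, exp_add, sym1_sg_exp, tw]; ring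

theorem sym1_fs_per (c : ℤ → ℂ) (s : ℂ) : fs c (s + 2 * Real.pi) = fs c s := by
  refine tsum_congr fun k => ?_
  rw [mul_add, exp_add, show I * k * (2 * Real.pi) = k * (2 * Real.pi * I) by ring,
    exp_int_mul_two_pi_mul_I, mul_one]

theorem sym1_fs_dlt (s : ℂ) : fs dlt s = 1 := by
  rw [fs, tsum_eq_single 0]
  · simp [dlt]
  · intro k hk; simp [dlt, hk]

theorem sym1_ext (hc : Summable fun k => ‖c k‖) (hd : Summable fun k => ‖d k‖)
    (h : ∀ s : ℝ, fs c s = fs d s) : c = d := by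
  funext k
  rw [← fc_fs hc k, ← fc_fs hd k]; simp only [h]

theorem sym1_isOpen (a b : ℝ) : IsOpen {s : ℂ | s.im ∈ Ioo a b} :=
  isOpen_Ioo.preimage continuous_im

theorem Hs.diff (hc : Hs a b c) : DifferentiableOn ℂ (fs c) {s | s.im ∈ Ioo a b} := by
  intro s hs
  obtain ⟨y1, h1, h1'⟩ := exists_between hs.1
  obtain ⟨y2, h2, h2'⟩ := exists_between hs.2
  have hu := (hc y1 ⟨h1, h1'.trans hs.2⟩).add (hc y2 ⟨hs.1.trans h2, h2'⟩)
  have := differentiableOn_tsum_of_summable_norm (U := {s : ℂ | s.im ∈ Ioo y1 y2})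
    (F := fun (k : ℤ) (s : ℂ) => c k * exp (I * k * s)) hu
    (fun k => by fun_prop) (sym1_isOpen _ _) (fun k w hw => by
      rw [sym1_norm_term, ← mul_add]
      gcongr
      rcases le_total (0 : ℝ) k with hk | hk
      · have : Real.exp (-(k * w.im)) ≤ Real.exp (-(k * y1)) := by
          apply Real.exp_le_exp.2; nlinarith [hw.1]
        linarith [Real.exp_pos (-(k * y2))]
      · have : Real.exp (-(k * w.im)) ≤ Real.exp (-(k * y2)) := by
          apply Real.exp_le_exp.2; nlinarith [hw.2]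
        linarith [Real.exp_pos (-(k * y1))])
  exact (this.differentiableAt ((sym1_isOpen _ _).mem_nhds ⟨h1', h2⟩)).differentiableWithinAt

theorem Rl.conj (h : Rl c) (k : ℤ) : (starRingEnd ℂ) (c k) = c k := conj_eq_iff_im.2 (h k)

theorem Rl.of_conj (h : ∀ k, (starRingEnd ℂ) (c k) = c k) : Rl c := fun k => conj_eq_iff_im.1 (h k)

theorem Rl.add (hc : Rl c) (hd : Rl d) : Rl fun k => c k + d k := fun k => by simp [hc k, hd k]
theorem Rl.sub (hc : Rl c) (hd : Rl d) : Rl fun k => c k - d k := fun k => by simp [hc k, hd k]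
theorem Rl.tw (hc : Rl c) : Rl (tw c) := fun k => by simp [StekIso.tw, hc k, sym1_sg_im]
theorem sym1_Rl_dlt : Rl dlt := fun k => by unfold dlt; split_ifs <;> simp

theorem sym1_conj_conv (c d : ℤ → ℂ) (k : ℤ) : (starRingEnd ℂ) (conv c d k) =
    conv (fun k => (starRingEnd ℂ) (c k)) (fun k => (starRingEnd ℂ) (d k)) k := by
  simp only [conv, conj_tsum, map_mul]

theorem Rl.conv (hc : Rl c) (hd : Rl d) : Rl (conv c d) := Rl.of_conj fun k => by
  simp only [sym1_conj_conv, hc.conj, hd.conj]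

/-- division by a symbol without zeros on the strip -/
theorem sym1_div (ha : a < 0) (hb : 0 < b) {n : ℤ → ℂ} (hn : Hs a b n) (hd : Hs a b d)
    (rn : Rl n) (rd : Rl d) (h0 : ∀ s : ℂ, s.im ∈ Ioo a b → fs d s ≠ 0) :
    ∃ c, Hs a b c ∧ Rl c ∧ ∀ s : ℂ, s.im ∈ Ioo a b → fs c s = fs n s / fs d s := by
  have hg : DifferentiableOn ℂ (fun s => fs n s / fs d s) {s | s.im ∈ Ioo a b} :=
    hn.diff.div hd.diff h0
  have key := fun (s : ℂ) (hs : s.im ∈ Ioo a b) => fs_fc_strip ha hb hg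
    (fun s _ => by simp only [sym1_fs_per]) hs
  set c := fc fun s : ℝ => fs n s / fs d s with hc
  have hcs : Hs a b c := Hs.of_norm fun y hy => (key _ (by simpa using hy)).1
  have hr : ∀ s : ℝ, (s : ℂ).im ∈ Ioo a b := fun s => by simpa using And.intro ha hb
  refine ⟨c, hcs, ?_, fun s hs => (key s hs).2⟩
  have e1 : conv d c = n := sym1_ext ((hd.conv ha hb hcs).l1 ha hb) (hn.l1 ha hb) fun s => by
    rw [sym1_fs_conv ha hb hd hcs (hr s), (key _ (hr s)).2]
    field_simp [h0 _ (hr s)]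
  have hcs' : Hs a b fun k => (starRingEnd ℂ) (c k) := fun y hy => by simpa using hcs y hy
  have e2 : conv d (fun k => (starRingEnd ℂ) (c k)) = n := by
    funext k
    have := sym1_conj_conv d c k
    simp only [rd.conj, e1, rn.conj] at this
    exact this.symm
  have e3 : (fun k => (starRingEnd ℂ) (c k)) = c :=
    sym1_ext (hcs'.l1 ha hb) (hcs.l1 ha hb) fun s => by
      have h1 := sym1_fs_conv ha hb hd hcs' (hr s)
      have h2 := sym1_fs_conv ha hb hd hcs (hr s)
      rw [e2] at h1; rw [e1] at h2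
      exact mul_left_cancel₀ (h0 _ (hr s)) (h1.symm.trans h2)
  exact Rl.of_conj fun k => congrFun e3 k

theorem sym1_dw_pos (η : ℝ) (k : ℤ) : 0 < dw η k := by
  unfold dw; split_ifs <;> exact Real.exp_pos _

theorem sym1_dec {η : ℝ} (h1 : a < -(3 / 2 * η)) (h2 : η < b) (hη : 0 < η) (hc : Hs a b c)
    (rc : Rl c) : ∃ C, ∀ C' ≥ C, Dec η C' c := by
  have s1 := hc (-(3 / 2 * η)) ⟨h1, by linarith⟩
  have s2 := hc η ⟨by linarith, h2⟩
  refine ⟨∑' k : ℤ, ‖c k‖ * Real.exp (-(k * -(3 / 2 * η))) + ∑' k : ℤ, ‖c k‖ * Real.exp (-(k * η)),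
    fun C' hC' => ⟨rc, fun k => ?_⟩⟩
  have t1 := s1.le_tsum k fun _ _ => by positivity
  have t2 := s2.le_tsum k fun _ _ => by positivity
  have p1 : 0 ≤ ∑' k : ℤ, ‖c k‖ * Real.exp (-(k * -(3 / 2 * η))) :=
    tsum_nonneg fun _ => by positivity
  have p2 : 0 ≤ ∑' k : ℤ, ‖c k‖ * Real.exp (-(k * η)) := tsum_nonneg fun _ => by positivity
  rw [← div_le_iff₀ (sym1_dw_pos η k)]
  unfold dw
  split_ifs with hk
  · rw [div_eq_mul_inv, ← Real.exp_neg, show -(-(3 / 2 * η) * k) = -(k * -(3 / 2 * η)) by ring]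
    linarith
  · rw [div_eq_mul_inv, ← Real.exp_neg, mul_comm η]
    linarith

end StekIso
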