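import Pool.Agent.Lib.MP_fa022d_an.HiN0
import Pool.Agent.Lib.MP_fa022d_an.Sym1

/-! Correlations in the packet norm; the algebra of the right inverse and of the packets. -/

open Set Filter Topology Metric BoundedContinuousFunction Complex

noncomputable section
namespace StekIso

theorem om_pos (η M k : ℝ) : 0 < om η M k := Real.exp_pos _
theorem om_le_one {η : ℝ} (hη : 0 ≤ η) (M k : ℝ) : om η M k ≤ 1 :=
  Real.exp_le_one_iff.2 (by nlinarith [mul_nonneg hη (le_max_right (M - k) 0)])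
theorem om_mono {η : ℝ} (hη : 0 ≤ η) (M : ℝ) {k k' : ℝ} (h : k ≤ k') : om η M k ≤ om η M k' :=
  Real.exp_le_exp.2 (by
    nlinarith [mul_le_mul_of_nonneg_left (max_le_max_right 0 (sub_le_sub_left h M)) hη])
theorem om_add_le {η : ℝ} (hη : 0 ≤ η) (M k a : ℝ) :
    om η M (k + a) ≤ om η M k * Real.exp (5 / 4 * η * max a 0) := by
  have : max (M - k) 0 ≤ max (M - (k + a)) 0 + max a 0 :=
    max_le (by linarith [le_max_left (M - (k + a)) 0, le_max_left a 0]) (by positivity)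
  rw [om, om, ← Real.exp_add, Real.exp_le_exp]
  nlinarith [mul_le_mul_of_nonneg_left this hη]
theorem om_zero (η : ℝ) {k : ℝ} (hk : 0 ≤ k) : om η 0 k = 1 := by
  rw [om, max_eq_right (by linarith), mul_zero, Real.exp_zero]

theorem hin1_sum {η y : ℝ} (hy : y ∈ Ioo (-(3 / 2 * η)) η) :
    Summable fun k : ℤ => dw η k * Real.exp (-(k * y)) := by
  refine Summable.of_nat_of_neg
    ((Real.summable_exp_nat_mul_iff.2 (show -(3 / 2 * η) - y < 0 by linarith [hy.1])).congr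
      fun n => ?_)
    ((Real.summable_exp_nat_mul_iff.2 (show y - η < 0 by linarith [hy.2])).congr fun n => ?_)
  · rw [dw, if_pos (Int.natCast_nonneg n), ← Real.exp_add]
    congr 1
    push_cast
    ring
  · rcases n.eq_zero_or_pos with rfl | h
    · simp [dw]
    rw [dw, if_neg (by omega), ← Real.exp_add]
    congr 1
    push_cast
    ring

theorem hin1_dw {η : ℝ} (hη : 0 < η) : Summable (dw η) := by
  simpa using hin1_sum (η := η) (y := 0) ⟨by linarith, hη⟩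

theorem Lam_summable {η : ℝ} (hη : 0 < η) :
    Summable fun a : ℤ => dw η a * Real.exp (5 / 4 * η * max (a : ℝ) 0) := by
  refine ((hin1_sum (η := η) (y := -(5 / 4 * η)) ⟨by linarith, by linarith⟩).add
    (hin1_dw hη)).of_nonneg_of_le (fun a => (mul_pos (sym1_dw_pos η a) (Real.exp_pos _)).le)
    fun a => ?_
  have p := sym1_dw_pos η a
  rcases le_total (a : ℝ) 0 with h | h
  · rw [max_eq_right h, mul_zero, Real.exp_zero, mul_one]
    exact le_add_of_nonneg_left (by positivity)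
  · rw [max_eq_left h, mul_neg, neg_neg, mul_comm (a : ℝ)]
    exact le_add_of_nonneg_right p.le
theorem one_le_Lam {η : ℝ} (hη : 0 < η) : 1 ≤ Lam η :=
  le_trans (by simp [dw]) ((Lam_summable hη).le_tsum 0 fun a _ =>
    (mul_pos (sym1_dw_pos η a) (Real.exp_pos _)).le)
theorem dw_summable {η : ℝ} (hη : 0 < η) : Summable (dw η) ∧ ∑' a, dw η a ≤ Lam η :=
  ⟨hin1_dw hη, (hin1_dw hη).tsum_le_tsum (fun a => le_mul_of_one_le_right (sym1_dw_pos η a).le
    (Real.one_le_exp (by positivity))) (Lam_summable hη)⟩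
theorem Dec.hs {η C : ℝ} {c : ℤ → ℂ} (h : Dec η C c) : Hs (-(3 / 2 * η)) η c := fun y hy =>
  ((hin1_sum hy).mul_left C).of_nonneg_of_le (fun k => by positivity) fun k => by
    rw [← mul_assoc]
    exact mul_le_mul_of_nonneg_right (h.2 k) (Real.exp_pos _).le

theorem cor_ZB {η C M D : ℝ} (hη : 0 < η) {c z : ℤ → ℂ} (hc : Dec η C c) (hD : 0 ≤ D)
    (hz : ZB η M D z) : (∀ n, Summable fun a => c a * z (n + a)) ∧
      ZB η M (C * Lam η * D) (cor c z) := by
  have b (n a : ℤ) : ‖c a * z (n + a)‖ ≤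
      C * D * om η M n * (dw η a * Real.exp (5 / 4 * η * max (a : ℝ) 0)) := by
    have := (hz (n + a)).trans (mul_le_mul_of_nonneg_left
      ((congrArg _ (Int.cast_add n a)).trans_le (om_add_le hη.le M n a)) hD)
    rw [norm_mul]
    exact (mul_le_mul (hc.2 a) this (norm_nonneg _) ((norm_nonneg _).trans (hc.2 a))).trans_eq
      (by ring)
  exact ⟨fun n => ((Lam_summable hη).mul_left _).of_norm_bounded (b n), fun n =>
    (tsum_of_norm_bounded ((Lam_summable hη).hasSum.mul_left _) (b n)).trans_eq (by rw [Lam]; ring)⟩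

theorem hin1_le {c z : ℤ → ℂ} {D : ℝ} (hz : ∀ k, ‖z k‖ ≤ D) (n a : ℤ) :
    ‖c a * z (n + a)‖ ≤ ‖c a‖ * D := by
  rw [norm_mul]
  exact mul_le_mul_of_nonneg_left (hz _) (norm_nonneg _)

theorem hin1_cs {c z : ℤ → ℂ} {D : ℝ} (hc : Summable fun k => ‖c k‖) (hz : ∀ k, ‖z k‖ ≤ D) (n : ℤ) :
    Summable fun a => c a * z (n + a) := (hc.mul_right D).of_norm_bounded (hin1_le hz n)

theorem hin1_bd {c z : ℤ → ℂ} {D : ℝ} (hc : Summable fun k => ‖c k‖) (hz : ∀ k, ‖z k‖ ≤ D) (n : ℤ) :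
    ‖cor c z n‖ ≤ (∑' k, ‖c k‖) * D := tsum_of_norm_bounded (hc.hasSum.mul_right D) (hin1_le hz n)

theorem hin1_dlt (z : ℤ → ℂ) (n : ℤ) : cor dlt z n = z n := by
  rw [cor, tsum_eq_single 0 fun a h => by rw [dlt, if_neg h, zero_mul]]
  simp [dlt]

/-- Fubini -/
theorem cor_cor {c d z : ℤ → ℂ} {D : ℝ} (hc : Summable fun k => ‖c k‖)
    (hd : Summable fun k => ‖d k‖) (hz : ∀ k, ‖z k‖ ≤ D) (n : ℤ) :
    cor c (cor d z) n = cor (conv c d) z n := by
  have s : Summable (Function.uncurry fun a k : ℤ => c a * d (k - a) * z (n + k)) := by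
    refine (Equiv.prodShear (Equiv.refl ℤ) Equiv.addLeft).summable_iff.1
      (((hc.mul_of_nonneg hd (fun _ => norm_nonneg _) fun _ => norm_nonneg _).mul_right
        D).of_norm_bounded fun p => ?_)
    change ‖c p.1 * d (p.1 + p.2 - p.1) * z (n + (p.1 + p.2))‖ ≤ _
    rw [add_sub_cancel_left, norm_mul, norm_mul]
    exact mul_le_mul_of_nonneg_left (hz _) (by positivity)
  simp only [cor, conv, ← tsum_mul_left, ← tsum_mul_right]
  rw [s.tsum_comm]
  refine tsum_congr fun a => Eq.trans ?_ ((Equiv.addLeft a).tsum_eq _)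
  simp only [Equiv.coe_addLeft, add_sub_cancel_left, mul_assoc, add_assoc]

theorem hin1_w {c e y : ℤ → ℂ} {D E : ℝ} (hc : Summable fun k => ‖c k‖) (he : ∀ k, ‖e k‖ ≤ D)
    (hy : ∀ k, ‖y k‖ ≤ E) (l : ℤ) : ‖e l - sg l * cor c y l‖ ≤ D + (∑' k, ‖c k‖) * E :=
  (norm_sub_le _ _).trans (add_le_add (he l)
    (by rw [norm_mul, sym1_norm_sg, one_mul]; exact hin1_bd hc hy l))

variable {B : Base} {η μ Cs c0 : ℝ} {Ai ϱ : Bool → ℤ → ℂ}

/-- `cor_cor` and `SymOK.inv` -/
theorem rinv_A (hη : 0 < η) (hS : SymOK B η μ Cs c0 Ai ϱ) (j : Bool) {e y : ℤ → ℂ} {D : ℝ}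
    (he : ∀ k, ‖e k‖ ≤ D) (hy : ∀ k, ‖y k‖ ≤ D) (n : ℤ) :
    cor (Aseq B η j) (Rx (Ai j) (Bseq B η j) e y) n + sg n * cor (Bseq B η j) y n = e n := by
  have h : -(3 / 2 * η) < 0 := by linarith
  rw [Rx, cor_cor ((hS.dA j).hs.l1 h hη) ((hS.dAi j).hs.l1 h hη)
    (hin1_w ((hS.dB j).hs.l1 h hη) he hy), hS.inv, hin1_dlt, sub_add_cancel]

/-- at an even index `cor Ai (sg * z) = cor (tw Ai) z`; then `cor_cor` twice and `SymOK.bez`
(the sequence `up ζ - evn ..` vanishes at odd indices) -/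
theorem rinv_B (hη : 0 < η) (hS : SymOK B η μ Cs c0 Ai ϱ) (j : Bool) {e ζ : ℤ → ℂ} {D : ℝ}
    (he : ∀ k, ‖e k‖ ≤ D) (hζ : ∀ k, ‖ζ k‖ ≤ D) (n : ℤ) :
    Rx (Ai j) (Bseq B η j) e (Ry (Ai j) (ϱ j) e ζ) (2 * n) + Ry (Ai j) (ϱ j) e ζ (2 * n) = ζ n := by
  have h : -(3 / 2 * η) < 0 := by linarith
  have a := (hS.dAi j).hs
  have b := (hS.dB j).hs
  have r := (hS.dϱ j).hs.l1 h hη
  have bz := hS.bez j
  generalize Ai j = A at *
  generalize Bseq B η j = Q at *
  generalize ϱ j = P at *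
  have D0 := (norm_nonneg _).trans (he 0)
  obtain ⟨g, hg⟩ : ∃ g, g = fun l => up ζ l - evn (cor A e) l := ⟨_, rfl⟩
  have g1 (l : ℤ) : ‖g l‖ ≤ D + (∑' k, ‖A k‖) * D := by
    simp only [hg, up, evn]
    split_ifs
    · exact (norm_sub_le _ _).trans (add_le_add (hζ _) (hin1_bd (a.l1 h hη) he l))
    · rw [sub_zero, norm_zero]
      positivity
  have e1 : Ry A P e ζ = cor P fun l => 2 * g l := funext fun k => by
    simp only [Ry, hg, cor, ← tsum_mul_left, mul_left_comm]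
  have g2 (l : ℤ) : ‖2 * g l‖ ≤ 2 * (D + (∑' k, ‖A k‖) * D) := by
    rw [norm_mul, Complex.norm_ofNat]
    linarith [g1 l]
  have y1 := hin1_bd r g2
  have t := a.tw.conv h hη b
  have e2 := cor_cor ((sym1_Hs_dlt.sub t).l1 h hη) r g2 (2 * n)
  have e3 : cor (conv (fun l => dlt l - conv (tw A) Q l) P) (fun l => 2 * g l) (2 * n) =
      g (2 * n) := by
    refine Eq.trans (tsum_congr fun k => ?_) (hin1_dlt g _)
    rcases Int.even_or_odd k with o | o
    · rw [bz k o]; ring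
    · have := Int.not_even_iff_odd.2 ((even_two_mul n).add_odd o)
      simp only [hg, up, evn, if_neg this, sub_zero, mul_zero]
  rw [e1]
  generalize (cor P fun l => 2 * g l) = y at *
  have e4 : cor (fun l => dlt l - conv (tw A) Q l) y (2 * n) =
      y (2 * n) - cor (tw A) (cor Q y) (2 * n) := by
    rw [cor_cor (a.tw.l1 h hη) (b.l1 h hη) y1, ← hin1_dlt y (2 * n), cor, cor, cor,
      ← (hin1_cs ((sym1_Hs_dlt (a := -1) (b := 1)).l1 (by norm_num) one_pos) y1 _).tsum_sub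
        (hin1_cs (t.l1 h hη) y1 _)]
    simp only [sub_mul]
  have e5 : Rx A Q e y (2 * n) = cor A e (2 * n) - cor (tw A) (cor Q y) (2 * n) := by
    rw [Rx, cor, cor, cor, ← (hin1_cs (a.l1 h hη) he _).tsum_sub
      (hin1_cs (a.tw.l1 h hη) (hin1_bd (b.l1 h hη) y1) _)]
    refine tsum_congr fun k => ?_
    rw [tw, sg, sg, zpow_add₀ (by norm_num), (even_two_mul n).neg_one_zpow]
    ring
  have e6 : g (2 * n) = ζ n - cor A e (2 * n) := by
    simp only [hg, up, evn, if_pos (even_two_mul n), Int.mul_ediv_cancel_left _ two_ne_zero]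
  linear_combination e5 - e4 + e2 + e3 + e6

theorem hin1_pi (c : ℤ → ℂ) (s : ℂ) : fs c (s + Real.pi + Real.pi) = fs c s := by
  rw [add_assoc, ← two_mul, sym1_fs_per]

/-- compare Fourier series: `sym1_ext`, `sym1_fs_conv`, `sym1_fs_tw`, `sym1_fs_per` -/
theorem pack_A (hη : 0 < η) (hS : SymOK B η μ Cs c0 Ai ϱ) (j : Bool) :
    conv (Aseq B η j) (X0 B η j) = tw (conv (Bseq B η j) (Y0 B η j)) := by
  have h : -(3 / 2 * η) < 0 := by linarith
  have a := (hS.dA j).hs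
  have b := (hS.dB j).hs
  have f : Hs _ _ (Fseq B η j) := a.tw.sub b
  refine sym1_ext ((a.conv h hη (hS.dX j).hs).l1 h hη) ((b.conv h hη (hS.dY j).hs).tw.l1 h hη)
    fun s => ?_
  have m : (s : ℂ).im ∈ Ioo (-(3 / 2 * η)) η := by simpa using hη
  have m' : ((s : ℂ) + Real.pi).im ∈ Ioo (-(3 / 2 * η)) η := by simpa using hη
  rw [sym1_fs_tw, sym1_fs_conv h hη a (hS.dX j).hs m, sym1_fs_conv h hη b (hS.dY j).hs m', X0, Y0,
    sym1_fs_conv h hη b.tw f m, sym1_fs_conv h hη a.tw f.tw m']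
  simp only [sym1_fs_tw, hin1_pi]
  ring

/-- the sequence `X0 + Y0` equals its twist (compare Fourier series) -/
theorem pack_B (hη : 0 < η) (hS : SymOK B η μ Cs c0 Ai ϱ) (j : Bool) {a : ℤ} (ha : Odd a) :
    X0 B η j a + Y0 B η j a = 0 := by
  have h : -(3 / 2 * η) < 0 := by linarith
  have p := (hS.dA j).hs
  have b := (hS.dB j).hs
  have f : Hs _ _ (Fseq B η j) := p.tw.sub b
  have u := (hS.dX j).hs.add (hS.dY j).hs
  have F (s : ℂ) (m : s.im = 0) :
      fs (Fseq B η j) s = fs (Aseq B η j) (s + Real.pi) - fs (Bseq B η j) s :=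
    (sym1_fs_sub p.tw b (by simpa [m] using hη)).trans (by rw [sym1_fs_tw])
  have G (s : ℂ) (m : s.im = 0) : fs (fun k => X0 B η j k + Y0 B η j k) s =
      fs (Aseq B η j) s * fs (Aseq B η j) (s + Real.pi) -
        fs (Bseq B η j) s * fs (Bseq B η j) (s + Real.pi) := by
    have m' : s.im ∈ Ioo (-(3 / 2 * η)) η := by simpa [m] using hη
    rw [sym1_fs_add (hS.dX j).hs (hS.dY j).hs m', X0, Y0, sym1_fs_conv h hη b.tw f m',
      sym1_fs_conv h hη p.tw f.tw m']
    simp only [sym1_fs_tw]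
    rw [F s m, F _ (by simpa using m), hin1_pi]
    ring
  have := congrFun (sym1_ext (u.l1 h hη) (u.tw.l1 h hη) fun s => by
    rw [sym1_fs_tw, G _ (ofReal_im s), G _ (by simp), hin1_pi, hin1_pi]
    ring) a
  rw [tw, sym1_sg_odd ha] at this
  linear_combination this / 2

end StekIso
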