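import Pool.Agent.Lib.MP_fa022d_an.HiN2a

/-! The approximate right inverse as an operator; the defect of the packets. -/

open Set Filter Topology Metric BoundedContinuousFunction Complex

noncomputable section
namespace StekIso
variable {B : Base} {η μ Cs c0 : ℝ} {Ai ϱ : Bool → ℤ → ℂ}

/-- rows of the limit operator written out -/
theorem Lrow_A (hη : 0 < η) (hS : SymOK B η μ Cs c0 Ai ϱ) (j : Bool) (n : ℕ) {w : Idx → ℂ}
    {D : ℝ} (hw : ∀ b, ‖w b‖ ≤ D) : Lrow B η (j, true, n) w =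
      cor (Aseq B η j) (fun k => if 0 < k then w (j, k) else 0) n +
        sg n * cor (Bseq B η j) (fun k => if 0 < k then w (j, -k) else 0) n := by
  have hD : 0 ≤ D := (norm_nonneg _).trans (hw (j, 0))
  have hz1 : ∀ k : ℤ, ‖(if 0 < k then w (j, k) else 0)‖ ≤ D := fun k => by
    split_ifs
    · exact hw _
    · simpa using hD
  have hz2 : ∀ k : ℤ, ‖(if 0 < k then w (j, -k) else 0)‖ ≤ D := fun k => by
    split_ifs
    · exact hw _
    · simpa using hD
  have s1 := (hin2_sum hη (hS.dA j) hz1 n).hasSum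
  have s2 := (hin2_sum hη (hS.dB j) hz2 n).hasSum.mul_left (sg n)
  have i1 : Function.Injective fun a : ℤ => ((j, n + a) : Idx) := fun a a' h => by simpa using h
  have i2 : Function.Injective fun a : ℤ => ((j, -(n + a)) : Idx) := fun a a' h => by
    simpa using h
  have t1 : HasSum (fun b : Idx => if b.1 = j ∧ 0 < b.2 then Aseq B η j (b.2 - n) * w b else 0)
      (cor (Aseq B η j) (fun k => if 0 < k then w (j, k) else 0) n) := by
    rw [← i1.hasSum_iff]
    · refine (congrArg (HasSum · _) (funext fun a => ?_)).mpr s1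
      simp only [Function.comp_apply, true_and, add_sub_cancel_left]
      split_ifs <;> simp
    · rintro ⟨j', k⟩ hb
      rw [if_neg]
      rintro ⟨h1, -⟩
      exact hb ⟨k - n, by simp only [Prod.mk.injEq]; exact ⟨h1.symm, by ring⟩⟩
  have t2 : HasSum (fun b : Idx => if b.1 = j ∧ b.2 < 0 then
      sg n * Bseq B η j (-b.2 - n) * w b else 0)
      (sg n * cor (Bseq B η j) (fun k => if 0 < k then w (j, -k) else 0) n) := by
    rw [← i2.hasSum_iff]
    · refine (congrArg (HasSum · _) (funext fun a => ?_)).mpr s2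
      simp only [Function.comp_apply, true_and, neg_neg, add_sub_cancel_left, neg_lt_zero]
      split_ifs <;> simp [mul_assoc]
    · rintro ⟨j', k⟩ hb
      rw [if_neg]
      rintro ⟨h1, -⟩
      exact hb ⟨-k - n, by simp only [Prod.mk.injEq]; exact ⟨h1.symm, by ring⟩⟩
  rw [← (t1.add t2).tsum_eq]
  refine tsum_congr ?_
  rintro ⟨j', k⟩
  simp only [Lmat]
  by_cases hj : j' = j
  · subst hj
    rcases lt_trichotomy k 0 with h | h | h
    · simp [h, not_lt.2 h.le]
    · simp [h]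
    · simp [h, not_lt.2 h.le]
  · simp [hj]

theorem Lrow_B (j : Bool) {n : ℕ} (hn : 1 ≤ n) (w : Idx → ℂ) :
    Lrow B η (j, false, n) w = w (j, 2 * n) + w (j, -(2 * n)) := by
  have hne : ((j, 2 * (n : ℤ)) : Idx) ≠ (j, -(2 * (n : ℤ))) := by
    simp only [ne_eq, Prod.mk.injEq, true_and]; omega
  unfold Lrow
  rw [tsum_eq_sum (s := {(j, 2 * (n : ℤ)), (j, -(2 * (n : ℤ)))}), Finset.sum_pair hne]
  · have h1 : |2 * (n : ℤ)| = 2 * n := abs_of_nonneg (by positivity)
    simp [Lmat, h1]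
  · rintro ⟨j', k⟩ hb
    simp only [Finset.mem_insert, Finset.mem_singleton, Prod.mk.injEq, not_or, not_and] at hb
    simp only [Lmat]
    by_cases hj : j' = j
    · have h1 := hb.1 hj
      have h2 := hb.2 hj
      have h3 : ¬ |k| = 2 * (n : ℤ) := by
        intro h
        rcases abs_cases k with h4 | h4 <;> omega
      simp [h3]
    · simp [hj]

open Classical in
/-- extension by zero of the data of one kind of rows -/
def hin2_ext {lam cut : ℝ} (g : Row lam cut → ℂ) (j t : Bool) (n : ℤ) : ℂ :=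
  if h : 0 ≤ n ∧ cut < (n.toNat : ℝ) / lenf lam j then g ⟨(j, t, n.toNat), h.2⟩ else 0

theorem hin2_ext_row {lam cut : ℝ} (g : Row lam cut → ℂ) (j t : Bool) (n : ℕ)
    (h : cut < (n : ℝ) / lenf lam j) : hin2_ext g j t n = g ⟨(j, t, n), h⟩ := by
  unfold hin2_ext
  rw [dif_pos ⟨Int.natCast_nonneg n, by simpa using h⟩]
  simp

theorem hin2_ext_e {lam cut M D : ℝ} {g : Row lam cut → ℂ} (hD : 0 ≤ D) (hg : MBY η M D g)
    (j : Bool) : ZB η M D (hin2_ext g j true) := by
  intro k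
  unfold hin2_ext
  split_ifs with h
  · have h1 := hg ⟨(j, true, k.toNat), h.2⟩
    have h2 : ((k.toNat : ℕ) : ℝ) = k := by exact_mod_cast Int.toNat_of_nonneg h.1
    simpa only [rpos, if_true, h2] using h1
  · rw [norm_zero]; have := om_pos η M k; positivity

theorem hin2_ext_z {lam cut M D : ℝ} {g : Row lam cut → ℂ} (hD : 0 ≤ D) (hg : MBY η M D g)
    (j : Bool) : ZB η M D (up (hin2_ext g j false)) := by
  intro k
  have hom := om_pos η M k
  unfold up hin2_ext
  split_ifs with he h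
  · have h1 := hg ⟨(j, false, (k / 2).toNat), h.2⟩
    have h2 : 2 * (((k / 2).toNat : ℕ) : ℝ) = k := by
      have h3 : 2 * (((k / 2).toNat : ℕ) : ℤ) = k := by
        rw [Int.toNat_of_nonneg h.1]; exact Int.two_mul_ediv_two_of_even he
      exact_mod_cast h3
    simpa only [rpos, Bool.false_eq_true, if_false, h2] using h1
  · rw [norm_zero]; positivity
  · rw [norm_zero]; positivity

theorem hin2_ext_add {lam cut : ℝ} (g g' : Row lam cut →ᵇ ℂ) (j t : Bool) :
    hin2_ext (⇑(g + g')) j t = fun l => hin2_ext g j t l + hin2_ext g' j t l := by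
  funext l
  unfold hin2_ext
  split_ifs <;> simp

theorem hin2_ext_smul {lam cut : ℝ} (c : ℂ) (g : Row lam cut →ᵇ ℂ) (j t : Bool) :
    hin2_ext (⇑(c • g)) j t = fun l => c * hin2_ext g j t l := by
  funext l
  unfold hin2_ext
  split_ifs <;> simp

theorem hin2_ext_im {lam cut : ℝ} {g : Row lam cut → ℂ} (hg : ∀ r, (g r).im = 0) (j t : Bool)
    (l : ℤ) : (hin2_ext g j t l).im = 0 := by
  unfold hin2_ext
  split_ifs
  · exact hg _
  · simp

/-- the negative frequencies of the right inverse -/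
def hin2_y {lam cut : ℝ} (Ai ϱ : Bool → ℤ → ℂ) (g : Row lam cut → ℂ) (j : Bool) : ℤ → ℂ :=
  Ry (Ai j) (ϱ j) (hin2_ext g j true) (hin2_ext g j false)

/-- the positive frequencies of the right inverse -/
def hin2_x {lam cut : ℝ} (B : Base) (η : ℝ) (Ai ϱ : Bool → ℤ → ℂ) (g : Row lam cut → ℂ)
    (j : Bool) : ℤ → ℂ :=
  Rx (Ai j) (Bseq B η j) (hin2_ext g j true) (hin2_y Ai ϱ g j)

/-- the right inverse as a function -/
def hin2_R {lam cut : ℝ} (B : Base) (η : ℝ) (Ai ϱ : Bool → ℤ → ℂ) (Ncut : ℝ)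
    (g : Row lam cut → ℂ) (b : Idx) : ℂ :=
  if Ncut ≤ b.2 then hin2_x B η Ai ϱ g b.1 b.2
  else if Ncut ≤ ((-b.2 : ℤ) : ℝ) then hin2_y Ai ϱ g b.1 (-b.2) else 0

theorem hin2_y_ZB (hη : 0 < η) (hS : SymOK B η μ Cs c0 Ai ϱ) {lam cut M D : ℝ}
    {g : Row lam cut → ℂ} (hD : 0 ≤ D) (hg : MBY η M D g) (j : Bool) :
    ZB η M (4 * (Cs * Lam η) ^ 2 * D) (hin2_y Ai ϱ g j) :=
  hin2_Ry_ZB hη hS.one_le (hS.dAi j) (hS.dϱ j) hD (hin2_ext_e hD hg j) (hin2_ext_z hD hg j)

theorem hin2_y_ZB' (hη : 0 < η) (hS : SymOK B η μ Cs c0 Ai ϱ) {lam cut M D : ℝ}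
    {g : Row lam cut → ℂ} (hD : 0 ≤ D) (hg : MBY η M D g) (j : Bool) :
    ZB η M (5 * (Cs * Lam η) ^ 4 * D) (hin2_y Ai ϱ g j) := by
  refine hin2_ZB_mono (mul_le_mul_of_nonneg_right ?_ hD) (hin2_y_ZB hη hS hD hg j)
  have hL : 1 ≤ Cs * Lam η := one_le_mul_of_one_le_of_one_le hS.one_le (one_le_Lam hη)
  have h1 : (Cs * Lam η) ^ 2 ≤ (Cs * Lam η) ^ 4 := pow_le_pow_right₀ hL (by norm_num)
  have h2 : 0 ≤ (Cs * Lam η) ^ 4 := by positivity
  linarith

theorem hin2_x_ZB (hη : 0 < η) (hS : SymOK B η μ Cs c0 Ai ϱ) {lam cut M D : ℝ}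
    {g : Row lam cut → ℂ} (hD : 0 ≤ D) (hg : MBY η M D g) (j : Bool) :
    ZB η M (5 * (Cs * Lam η) ^ 4 * D) (hin2_x B η Ai ϱ g j) :=
  hin2_Rx_ZB hη hS.one_le (hS.dAi j) (hS.dB j) hD (hin2_ext_e hD hg j) (hin2_y_ZB hη hS hD hg j)

theorem hin2_R_MB (hη : 0 < η) (hS : SymOK B η μ Cs c0 Ai ϱ) {lam cut Ncut M D : ℝ}
    (hN : 1 ≤ Ncut) {g : Row lam cut → ℂ} (hD : 0 ≤ D) (hg : MBY η M D g) :
    MB η M (5 * (Cs * Lam η) ^ 4 * D) (hin2_R B η Ai ϱ Ncut g) := by
  intro b
  unfold hin2_R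
  split_ifs with h h'
  · rw [abs_of_nonneg (by linarith)]
    exact hin2_x_ZB hη hS hD hg b.1 b.2
  · have h1 := hin2_y_ZB' hη hS hD hg b.1 (-b.2)
    push_cast at h' h1
    rw [abs_of_nonpos (by linarith)]
    exact h1
  · rw [norm_zero]; have := om_pos η M |(b.2 : ℝ)|; positivity

theorem hin2_sup {lam cut : ℝ} (η : ℝ) (g : Row lam cut →ᵇ ℂ) : MBY η 0 ‖g‖ g := by
  intro r
  rw [om_zero η (by unfold rpos; split_ifs <;> positivity), mul_one]
  exact g.norm_coe_le_norm r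

theorem hin2_R_bd (hη : 0 < η) (hS : SymOK B η μ Cs c0 Ai ϱ) {lam cut Ncut : ℝ}
    (hN : 1 ≤ Ncut) (g : Row lam cut →ᵇ ℂ) (b : Idx) :
    ‖hin2_R B η Ai ϱ Ncut g b‖ ≤ 5 * (Cs * Lam η) ^ 4 * ‖g‖ := by
  have h := hin2_R_MB hη hS hN (norm_nonneg g) (hin2_sup η g) b
  rwa [om_zero η (abs_nonneg _), mul_one] at h

theorem hin2_y_add (hη : 0 < η) (hS : SymOK B η μ Cs c0 Ai ϱ) {lam cut : ℝ}
    (g g' : Row lam cut →ᵇ ℂ) (j : Bool) :
    hin2_y Ai ϱ (⇑(g + g')) j = fun l => hin2_y Ai ϱ g j l + hin2_y Ai ϱ g' j l := by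
  funext l
  unfold hin2_y
  rw [hin2_ext_add, hin2_ext_add]
  exact hin2_Ry_add hη (hS.dAi j) (hS.dϱ j) (norm_nonneg g) (norm_nonneg g')
    (hin2_ext_e (norm_nonneg g) (hin2_sup η g) j) (hin2_ext_z (norm_nonneg g) (hin2_sup η g) j)
    (hin2_ext_e (norm_nonneg g') (hin2_sup η g') j)
    (hin2_ext_z (norm_nonneg g') (hin2_sup η g') j) l

theorem hin2_x_add (hη : 0 < η) (hS : SymOK B η μ Cs c0 Ai ϱ) {lam cut : ℝ}
    (g g' : Row lam cut →ᵇ ℂ) (j : Bool) (l : ℤ) :
    hin2_x B η Ai ϱ (⇑(g + g')) j l = hin2_x B η Ai ϱ g j l + hin2_x B η Ai ϱ g' j l := by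
  unfold hin2_x
  rw [hin2_ext_add, hin2_y_add hη hS]
  exact hin2_Rx_add hη (hS.dAi j) (hS.dB j) (norm_nonneg g) (norm_nonneg g') (by positivity)
    (by positivity) (hin2_ext_e (norm_nonneg g) (hin2_sup η g) j)
    (hin2_y_ZB hη hS (norm_nonneg g) (hin2_sup η g) j)
    (hin2_ext_e (norm_nonneg g') (hin2_sup η g') j)
    (hin2_y_ZB hη hS (norm_nonneg g') (hin2_sup η g') j) l

theorem hin2_y_smul {lam cut : ℝ} (c : ℂ) (g : Row lam cut →ᵇ ℂ) (j : Bool) :
    hin2_y Ai ϱ (⇑(c • g)) j = fun l => c * hin2_y Ai ϱ g j l := by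
  funext l
  unfold hin2_y
  rw [hin2_ext_smul, hin2_ext_smul, hin2_Ry_smul]

theorem hin2_x_smul {lam cut : ℝ} (c : ℂ) (g : Row lam cut →ᵇ ℂ) (j : Bool) (l : ℤ) :
    hin2_x B η Ai ϱ (⇑(c • g)) j l = c * hin2_x B η Ai ϱ g j l := by
  unfold hin2_x
  rw [hin2_ext_smul, hin2_y_smul, hin2_Rx_smul]

/-- the right inverse as an operator -/
def hin2_op (hη : 0 < η) (hS : SymOK B η μ Cs c0 Ai ϱ) (lam cut : ℝ) {Ncut : ℝ}
    (hN : 1 ≤ Ncut) : (Row lam cut →ᵇ ℂ) →L[ℂ] X :=
  LinearMap.mkContinuous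
    { toFun := fun g => ofNormedAddCommGroupDiscrete (hin2_R B η Ai ϱ Ncut g) _
        (hin2_R_bd hη hS hN g)
      map_add' := fun g g' => by
        ext b
        show hin2_R B η Ai ϱ Ncut (⇑(g + g')) b =
          hin2_R B η Ai ϱ Ncut g b + hin2_R B η Ai ϱ Ncut g' b
        unfold hin2_R
        rw [hin2_x_add hη hS, hin2_y_add hη hS]
        split_ifs <;> simp
      map_smul' := fun c g => by
        ext b
        show hin2_R B η Ai ϱ Ncut (⇑(c • g)) b = c * hin2_R B η Ai ϱ Ncut g b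
        unfold hin2_R
        rw [hin2_x_smul, hin2_y_smul]
        split_ifs <;> simp }
    (5 * (Cs * Lam η) ^ 4) fun g => (BoundedContinuousFunction.norm_le (by positivity)).2
      (hin2_R_bd hη hS hN g)

theorem hin2_op_coe (hη : 0 < η) (hS : SymOK B η μ Cs c0 Ai ϱ) (lam cut : ℝ) {Ncut : ℝ}
    (hN : 1 ≤ Ncut) (g : Row lam cut →ᵇ ℂ) :
    ⇑(hin2_op hη hS lam cut hN g) = hin2_R B η Ai ϱ Ncut g := rfl

/-- cutting off the low indices changes a row by a small amount -/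
theorem hin2_cut (hη : 0 < η) (hS : SymOK B η μ Cs c0 Ai ϱ) (j : Bool) {M D N : ℝ} (hD : 0 ≤ D)
    (hN : 0 < N) {x y x' y' : ℤ → ℂ} (hx : ZB η M D x) (hy : ZB η M D y) (n : ℤ)
    (hx' : ∀ k, x' k = x k ∨ x' k = 0) (hy' : ∀ k, y' k = y k ∨ y' k = 0)
    (h0 : ∀ a : ℤ, -N < a → x' (n + a) = x (n + a) ∧ y' (n + a) = y (n + a)) :
    ‖cor (Aseq B η j) x' n + sg n * cor (Bseq B η j) y' n -
      (cor (Aseq B η j) x n + sg n * cor (Bseq B η j) y n)‖ ≤
      2 * Cs * Lam (η / 2) * Real.exp (-(η / 2) * N) * D * om η M n := by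
  have aux : ∀ {c z z' : ℤ → ℂ}, Dec η Cs c → ZB η M D z → (∀ k, z' k = z k ∨ z' k = 0) →
      (∀ a : ℤ, -N < a → z' (n + a) = z (n + a)) → ‖cor c z' n - cor c z n‖ ≤
        Cs * Lam (η / 2) * Real.exp (-(η / 2) * N) * D * om η M n := by
    intro c z z' hc hz hz' h1
    have h2 : ZB η M D fun k => z' k - z k := fun k => by
      rcases hz' k with h | h
      · simp only [h, sub_self, norm_zero]; have := om_pos η M k; positivity
      · simp only [h, zero_sub, norm_neg]; exact hz k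
    have h3 : cor c z' n = cor c z n + cor c (fun k => z' k - z k) n := by
      rw [← hin2_cor_add hη hc (hin2_ZB_bd hη hD hz) (hin2_ZB_bd hη hD h2)]
      simp
    rw [h3, add_sub_cancel_left]
    exact hin2_tail hη hc hD h2 hN n fun a ha => by simp only [h1 a ha, sub_self]
  have h1 := aux (hS.dA j) hx hx' fun a ha => (h0 a ha).1
  have h2 := aux (hS.dB j) hy hy' fun a ha => (h0 a ha).2
  have h3 : cor (Aseq B η j) x' n + sg n * cor (Bseq B η j) y' n -
      (cor (Aseq B η j) x n + sg n * cor (Bseq B η j) y n) =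
      (cor (Aseq B η j) x' n - cor (Aseq B η j) x n) +
        sg n * (cor (Bseq B η j) y' n - cor (Bseq B η j) y n) := by ring
  rw [h3]
  refine (norm_add_le _ _).trans ?_
  rw [norm_mul, sym1_norm_sg, one_mul]
  linarith

/-- Extend `g` by zero to `e j n` (rows `(j, true, n)`) and `ζ j n` (rows `(j, false, n)`), put
`y = Ry (Ai j) (ϱ j) e ζ`, `x = Rx (Ai j) (Bseq B η j) e y`, `R g (j, k) = x k`, `R g (j, -k) = y k`
for `k ≥ Ncut`, zero else (`n1 ≥ 1`).  Linearity: either `LinearMap.mkContinuous` with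
`cor_ZB` (`M = 0` gives the sup norm, `om_zero`) or compose small operators.  The defect in row
`(j, true, n)` is the part `k < Ncut ≤ n / 2` of the two sums: `dw η (k - n) = exp (η (k - n))`,
`om η M k ≤ om η M n`; rows `(j, false, n)` have no defect. -/
theorem exists_rinv (hη : 0 < η) (hS : SymOK B η μ Cs c0 Ai ϱ) : ∃ CR ≥ 1, ∀ τ > 0, ∃ n1 : ℝ,
    ∀ lam cut Ncut : ℝ, n1 ≤ Ncut → (∀ r : Row lam cut, 2 * Ncut ≤ r.1.2.2) →
      ∃ R : (Row lam cut →ᵇ ℂ) →L[ℂ] X, RinvOK B η lam cut Ncut CR τ R := by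
  have hL : 1 ≤ Cs * Lam η := one_le_mul_of_one_le_of_one_le hS.one_le (one_le_Lam hη)
  have hL4 : 1 ≤ (Cs * Lam η) ^ 4 := one_le_pow₀ hL
  refine ⟨5 * (Cs * Lam η) ^ 4, by linarith, fun τ hτ => ?_⟩
  obtain ⟨n1, hn1, hK⟩ := hin2_n1 (K := 2 * Cs * Lam (η / 2) * (5 * (Cs * Lam η) ^ 4)) hη hτ
  refine ⟨n1, fun lam cut Ncut hN hrow => ?_⟩
  have hN1 : 1 ≤ Ncut := hn1.trans hN
  refine ⟨hin2_op hη hS lam cut hN1, ⟨?_, ?_, ?_, ?_⟩⟩
  · intro M D g hD hg
    rw [hin2_op_coe]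
    exact hin2_R_MB hη hS hN1 hD hg
  · intro g hg b
    rw [hin2_op_coe]
    have hy : ∀ j k, (hin2_y Ai ϱ g j k).im = 0 := fun j k =>
      hin2_Ry_im (hS.dAi j).1 (hS.dϱ j).1 (hin2_ext_im hg j true) (hin2_ext_im hg j false) k
    unfold hin2_R
    split_ifs
    · exact hin2_Rx_im (hS.dAi _).1 (hS.dB _).1 (hin2_ext_im hg _ true) (hy _) _
    · exact hy _ _
    · simp
  · intro g b hb
    rw [hin2_op_coe]
    unfold hin2_R
    rw [abs_lt] at hb
    rw [if_neg (by linarith [hb.2]), if_neg (by push_cast; linarith [hb.1])]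
  · rintro M D g hD hg ⟨⟨j, t, n⟩, hr⟩
    have hn : 2 * Ncut ≤ n := hrow ⟨(j, t, n), hr⟩
    have hD' : 0 ≤ 5 * (Cs * Lam η) ^ 4 * D := by positivity
    have he := hin2_ZB_bd hη hD (hin2_ext_e hD hg j)
    have hx := hin2_x_ZB hη hS hD hg j
    have hy := hin2_y_ZB' hη hS hD hg j
    show ‖Lrow B η (j, t, n) (hin2_op hη hS lam cut hN1 g) - g ⟨(j, t, n), hr⟩‖ ≤
      τ * D * om η M (rpos (j, t, n))
    rw [hin2_op_coe, ← hin2_ext_row g j t n hr]
    cases t
    · have hn1' : 1 ≤ n := by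
        have : (1 : ℝ) ≤ n := by linarith
        exact_mod_cast this
      have hζ : ∀ k, ‖hin2_ext g j false k‖ ≤ D := fun k => by
        have h1 := hin2_ZB_bd hη hD (hin2_ext_z hD hg j) (2 * k)
        simpa [up] using h1
      have h2 : Ncut ≤ ((2 * (n : ℤ) : ℤ) : ℝ) := by push_cast; linarith
      have h3 : ¬ Ncut ≤ ((-(2 * (n : ℤ)) : ℤ) : ℝ) := by push_cast; linarith
      rw [Lrow_B j hn1']
      simp only [hin2_R, neg_neg, if_pos h2, if_neg h3]
      rw [hin2_x, hin2_y, rinv_B hη hS j he hζ n, sub_self, norm_zero]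
      have := om_pos η M (rpos (j, false, n))
      positivity
    · rw [Lrow_A hη hS j n (hin2_R_bd hη hS hN1 g),
        ← rinv_A hη hS j (he := fun k => (he k).trans (le_mul_of_one_le_left hD
          (by linarith : 1 ≤ 5 * (Cs * Lam η) ^ 4))) (hin2_ZB_bd hη hD' hy) n]
      refine (hin2_cut hη hS j hD' (by linarith : 0 < Ncut) hx hy n ?_ ?_ ?_).trans ?_
      · intro k
        by_cases h : 0 < k
        · have h' : ¬ Ncut ≤ ((-k : ℤ) : ℝ) := by
            have : (0 : ℝ) < k := by exact_mod_cast h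
            push_cast; linarith
          simp only [hin2_R, if_pos h, if_neg h']
          split_ifs <;> simp
        · simp [h]
      · intro k
        by_cases h : 0 < k
        · have h' : ¬ Ncut ≤ ((-k : ℤ) : ℝ) := by
            have : (0 : ℝ) < k := by exact_mod_cast h
            push_cast; linarith
          simp only [hin2_R, if_pos h, if_neg h', neg_neg]
          split_ifs <;> simp
        · simp [h]
      · intro a ha
        have h1 : Ncut ≤ (((n : ℤ) + a : ℤ) : ℝ) := by push_cast; linarith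
        have h2 : 0 < (n : ℤ) + a := by
          have : (0 : ℝ) < (((n : ℤ) + a : ℤ) : ℝ) := by linarith
          exact_mod_cast this
        have h3 : ¬ Ncut ≤ ((-((n : ℤ) + a) : ℤ) : ℝ) := by
          rw [Int.cast_neg]; linarith
        simp only [hin2_R, if_pos h1, if_pos h2, if_neg h3, neg_neg, and_self]
      · have h1 := mul_le_mul_of_nonneg_right (hK Ncut hN) (mul_nonneg hD (om_pos η M n).le)
        simp only [rpos, if_true, Int.cast_natCast]
        linarith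

/-- `pack_A`, `pack_B`; the defect is the part `k ≤ 0` of the sums -/
theorem pack_defect (hη : 0 < η) (hS : SymOK B η μ Cs c0 Ai ϱ) {τ : ℝ} (hτ : 0 < τ) :
    ∃ n1 : ℝ, ∀ r : Bool × Bool × ℕ, n1 ≤ r.2.2 → ∀ M : ℤ, Odd M →
      ‖Lrow B η r (Wpk B η M)‖ ≤ τ * om η M (rpos r) := by
  obtain ⟨n1, hn1, hK⟩ := hin2_n1 (K := 2 * Cs * Lam (η / 2) * Cs) hη hτ
  have hC : 0 ≤ Cs := zero_le_one.trans hS.one_le
  refine ⟨n1, ?_⟩
  rintro ⟨j, t, n⟩ hn M hM
  have hn' : n1 ≤ n := hn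
  have hx : ZB η M Cs fun k => X0 B η true (M - k) := fun k =>
    ((hS.dX true).2 _).trans (mul_le_mul_of_nonneg_left (hin2_dw_om hη M k) hC)
  have hy : ZB η M Cs fun k => Y0 B η true (M - k) := fun k =>
    ((hS.dY true).2 _).trans (mul_le_mul_of_nonneg_left (hin2_dw_om hη M k) hC)
  have hb : ∀ b : Idx, ‖(if b.1 = true ∧ 0 < b.2 then X0 B η true (M - b.2)
      else if b.1 = true ∧ b.2 < 0 then Y0 B η true (M + b.2) else 0)‖ ≤ Cs := fun b => by
    split_ifs
    · exact hin2_ZB_bd hη hC hx b.2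
    · simpa using hin2_ZB_bd hη hC hy (-b.2)
    · simpa using hC
  have hW : ∀ b : Idx, Wpk B η M b = if b.1 = true ∧ 0 < b.2 then X0 B η true (M - b.2)
      else if b.1 = true ∧ b.2 < 0 then Y0 B η true (M + b.2) else 0 := toB_apply hb
  have hpos : 0 ≤ τ * om η M (rpos (j, t, n)) := (mul_pos hτ (om_pos _ _ _)).le
  have hn1' : 1 ≤ n := by
    have : (1 : ℝ) ≤ n := by linarith
    exact_mod_cast this
  cases t
  · rw [Lrow_B j hn1', hW, hW]
    cases j
    · simpa using hpos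
    · have h1 : 0 < 2 * (n : ℤ) := by omega
      have h2 : ¬ 0 < -(2 * (n : ℤ)) := by omega
      have h3 : -(2 * (n : ℤ)) < 0 := by omega
      simp only [true_and, if_pos h1, if_neg h2, if_pos h3]
      rw [← sub_eq_add_neg, pack_B hη hS true (hM.sub_even (even_two_mul _)), norm_zero]
      exact hpos
  · rw [Lrow_A hη hS j n (Wpk B η M).norm_coe_le_norm]
    cases j
    · simpa [hW, cor] using hpos
    · have h0 : cor (Aseq B η true) (fun k => X0 B η true (M - k)) n +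
          sg n * cor (Bseq B η true) (fun k => Y0 B η true (M - k)) n = 0 := by
        have h1 := congrFun (pack_A hη hS true) (M - n)
        have h2 : sg (M - n) = -sg n := by
          rcases Int.even_or_odd (n : ℤ) with h | h
          · rw [sym1_sg_even h, sym1_sg_odd (hM.sub_even h)]
          · rw [sym1_sg_odd h, sym1_sg_even (hM.sub_odd h), neg_neg]
        simp only [tw, conv, h2, sub_sub] at h1
        simp only [cor]
        rw [h1]; ring
      have h5 : ∀ u : ℂ, u = u - (cor (Aseq B η true) (fun k => X0 B η true (M - k)) n +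
          sg n * cor (Bseq B η true) (fun k => Y0 B η true (M - k)) n) := fun u => by
        rw [h0, sub_zero]
      rw [h5 (_ + _)]
      refine (hin2_cut hη hS true hC (by linarith : (0 : ℝ) < n) hx hy n ?_ ?_ ?_).trans ?_
      · intro k
        by_cases h : 0 < k <;> simp [h, hW]
      · intro k
        by_cases h : 0 < k
        · left
          simp [h, hW, not_lt.2 h.le, sub_eq_add_neg]
        · simp [h]
      · intro a ha
        have h2 : 0 < (n : ℤ) + a := by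
          have : (0 : ℝ) < (((n : ℤ) + a : ℤ) : ℝ) := by push_cast; linarith
          exact_mod_cast this
        have h3 : ¬ 0 < -((n : ℤ) + a) := by omega
        have h4 : -((n : ℤ) + a) < 0 := by omega
        simp only [hW, true_and, if_pos h2, if_neg h3, if_pos h4, ← sub_eq_add_neg]
      · have h1 := mul_le_mul_of_nonneg_right (hK n hn') (om_pos η M n).le
        simp only [rpos, if_true, Int.cast_natCast]
        linarith

end StekIso
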