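import Pool.Agent.Lib.MP_fa022d_an.HiN1

/-! Helpers for the right inverse: linearity, reality and tails of correlations. -/

open Set Filter Topology Metric BoundedContinuousFunction Complex

noncomputable section
namespace StekIso

theorem hin2_dw_pos (η : ℝ) (a : ℤ) : 0 < dw η a := by
  unfold dw; split_ifs <;> exact Real.exp_pos _

theorem hin2_C {η C : ℝ} {c : ℤ → ℂ} (hc : Dec η C c) : 0 ≤ C := by
  have h := (norm_nonneg _).trans (hc.2 0)
  exact nonneg_of_mul_nonneg_left h (hin2_dw_pos η 0)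

theorem hin2_nsum {η C : ℝ} (hη : 0 < η) {c : ℤ → ℂ} (hc : Dec η C c) :
    Summable fun a => ‖c a‖ :=
  Summable.of_nonneg_of_le (fun _ => norm_nonneg _) hc.2 ((dw_summable hη).1.mul_left C)

theorem hin2_sum {η C D : ℝ} (hη : 0 < η) {c z : ℤ → ℂ} (hc : Dec η C c) (hz : ∀ k, ‖z k‖ ≤ D)
    (n : ℤ) : Summable fun a => c a * z (n + a) :=
  Summable.of_norm_bounded ((hin2_nsum hη hc).mul_right D) fun a => by
    rw [norm_mul]; exact mul_le_mul_of_nonneg_left (hz _) (norm_nonneg _)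

theorem hin2_ZB_bd {η M D : ℝ} (hη : 0 < η) (hD : 0 ≤ D) {z : ℤ → ℂ} (hz : ZB η M D z) (k : ℤ) :
    ‖z k‖ ≤ D :=
  (hz k).trans (mul_le_of_le_one_right hD (om_le_one hη.le M k))

theorem hin2_ZB_mono {η M D D' : ℝ} (h : D ≤ D') {z : ℤ → ℂ} (hz : ZB η M D z) : ZB η M D' z :=
  fun k => (hz k).trans (mul_le_mul_of_nonneg_right h (om_pos η M k).le)

theorem hin2_cor_add {η C D D' : ℝ} (hη : 0 < η) {c z z' : ℤ → ℂ} (hc : Dec η C c)
    (hz : ∀ k, ‖z k‖ ≤ D) (hz' : ∀ k, ‖z' k‖ ≤ D') (n : ℤ) :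
    cor c (fun l => z l + z' l) n = cor c z n + cor c z' n := by
  unfold cor
  rw [← (hin2_sum hη hc hz n).tsum_add (hin2_sum hη hc hz' n)]
  exact tsum_congr fun a => by ring

theorem hin2_cor_smul (c z : ℤ → ℂ) (t : ℂ) (n : ℤ) :
    cor c (fun l => t * z l) n = t * cor c z n := by
  unfold cor
  rw [← tsum_mul_left]
  exact tsum_congr fun a => by ring

theorem hin2_cor_im {c z : ℤ → ℂ} (hc : ∀ a, (c a).im = 0) (hz : ∀ k, (z k).im = 0) (n : ℤ) :
    (cor c z n).im = 0 := by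
  have h : ∀ a, c a * z (n + a) = ((c a * z (n + a)).re : ℂ) := fun a =>
    Complex.ext (by simp) (by simp [hc, hz])
  rw [cor, tsum_congr h, ← ofReal_tsum, ofReal_im]

theorem hin2_dw_om {η : ℝ} (hη : 0 < η) (M k : ℤ) : dw η (M - k) ≤ om η M k := by
  unfold dw om
  split_ifs with h
  · have h' : (0 : ℝ) ≤ (M : ℝ) - k := by exact_mod_cast h
    rw [max_eq_left h']
    refine Real.exp_le_exp.2 ?_
    push_cast
    nlinarith
  · have h' : (M : ℝ) - k ≤ 0 := by exact_mod_cast (not_le.1 h).le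
    rw [max_eq_right h']
    refine Real.exp_le_exp.2 ?_
    push_cast
    nlinarith

/-- the part of a correlation far to the left -/
theorem hin2_tail {η C M D N : ℝ} (hη : 0 < η) {c z : ℤ → ℂ} (hc : Dec η C c) (hD : 0 ≤ D)
    (hz : ZB η M D z) (hN : 0 < N) (n : ℤ) (h0 : ∀ a : ℤ, -N < a → z (n + a) = 0) :
    ‖cor c z n‖ ≤ C * Lam (η / 2) * Real.exp (-(η / 2) * N) * D * om η M n := by
  have hC := hin2_C hc
  have h2 : 0 < η / 2 := by linarith
  have hom := om_pos η M n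
  have hE := Real.exp_pos (-(η / 2) * N)
  have key : ∀ a, ‖c a * z (n + a)‖ ≤
      (C * Real.exp (-(η / 2) * N) * D * om η M n) * dw (η / 2) a := by
    intro a
    by_cases ha : -N < a
    · rw [h0 a ha, mul_zero, norm_zero]
      have := hin2_dw_pos (η / 2) a
      positivity
    · have ha' : (a : ℝ) ≤ -N := not_lt.1 ha
      have ha0 : ¬ (0 : ℤ) ≤ a := by
        intro h
        have : (0 : ℝ) ≤ a := by exact_mod_cast h
        linarith
      have h1 : dw η a ≤ Real.exp (-(η / 2) * N) * dw (η / 2) a := by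
        unfold dw
        rw [if_neg ha0, if_neg ha0, ← Real.exp_add]
        refine Real.exp_le_exp.2 ?_
        nlinarith
      have h3 : ‖z (n + a)‖ ≤ D * om η M n := by
        refine (hz _).trans (mul_le_mul_of_nonneg_left (om_mono hη.le M ?_) hD)
        push_cast
        linarith
      rw [norm_mul]
      calc ‖c a‖ * ‖z (n + a)‖ ≤ (C * (Real.exp (-(η / 2) * N) * dw (η / 2) a)) * (D * om η M n) :=
            mul_le_mul ((hc.2 a).trans (mul_le_mul_of_nonneg_left h1 hC)) h3 (norm_nonneg _)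
              (by have := hin2_dw_pos (η / 2) a; positivity)
        _ = _ := by ring
  refine (tsum_of_norm_bounded ((dw_summable h2).1.mul_left _).hasSum key).trans ?_
  rw [tsum_mul_left]
  calc _ ≤ (C * Real.exp (-(η / 2) * N) * D * om η M n) * Lam (η / 2) :=
        mul_le_mul_of_nonneg_left (dw_summable h2).2 (by positivity)
    _ = _ := by ring

theorem hin2_n1 {η K τ : ℝ} (hη : 0 < η) (hτ : 0 < τ) :
    ∃ n1 : ℝ, 1 ≤ n1 ∧ ∀ N, n1 ≤ N → K * Real.exp (-(η / 2) * N) ≤ τ := by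
  refine ⟨max 1 (2 * K / (η * τ)), le_max_left _ _, fun N hN => ?_⟩
  have h1 : 2 * K / (η * τ) ≤ N := (le_max_right _ _).trans hN
  rw [div_le_iff₀ (by positivity)] at h1
  have h2 := Real.add_one_le_exp (η / 2 * N)
  have h3 : Real.exp (η / 2 * N) * Real.exp (-(η / 2) * N) = 1 := by
    rw [← Real.exp_add]; simp
  have h4 : K ≤ τ * Real.exp (η / 2 * N) := by nlinarith
  calc K * Real.exp (-(η / 2) * N) ≤ τ * Real.exp (η / 2 * N) * Real.exp (-(η / 2) * N) :=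
        mul_le_mul_of_nonneg_right h4 (Real.exp_pos _).le
    _ = τ := by rw [mul_assoc, h3, mul_one]

/-! ### the two formulas of the right inverse -/

theorem hin2_in_ZB {η Cs M D : ℝ} (hη : 0 < η) {Ai e ζ : ℤ → ℂ} (hA : Dec η Cs Ai) (hD : 0 ≤ D)
    (he : ZB η M D e) (hζ : ZB η M D (up ζ)) :
    ZB η M (D + Cs * Lam η * D) fun l => up ζ l - evn (cor Ai e) l := by
  intro k
  have h1 := (cor_ZB hη hA hD he).2 k
  have h2 : ‖evn (cor Ai e) k‖ ≤ Cs * Lam η * D * om η M k := by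
    unfold evn
    split_ifs
    · exact h1
    · rw [norm_zero]; exact (norm_nonneg _).trans h1
  refine (norm_sub_le _ _).trans ?_
  have := hζ k
  linarith

theorem hin2_Ry_ZB {η Cs M D : ℝ} (hη : 0 < η) (hC : 1 ≤ Cs) {Ai ϱ e ζ : ℤ → ℂ}
    (hA : Dec η Cs Ai) (hϱ : Dec η Cs ϱ) (hD : 0 ≤ D) (he : ZB η M D e)
    (hζ : ZB η M D (up ζ)) : ZB η M (4 * (Cs * Lam η) ^ 2 * D) (Ry Ai ϱ e ζ) := by
  have hL : 1 ≤ Cs * Lam η := one_le_mul_of_one_le_of_one_le hC (one_le_Lam hη)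
  intro k
  have h1 := (cor_ZB hη hϱ (by positivity) (hin2_in_ZB hη hA hD he hζ)).2 k
  unfold Ry
  rw [norm_mul, Complex.norm_ofNat]
  have hom := om_pos η M k
  generalize Cs * Lam η = L at *
  have h2 : L * (D + L * D) ≤ 2 * L ^ 2 * D := by nlinarith [mul_nonneg hD (sub_nonneg.2 hL)]
  have := mul_le_mul_of_nonneg_right h2 hom.le
  linarith

theorem hin2_in2_ZB {η Cs M D D' : ℝ} (hη : 0 < η) {Bs e y : ℤ → ℂ} (hB : Dec η Cs Bs)
    (hD' : 0 ≤ D') (he : ZB η M D e) (hy : ZB η M D' y) :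
    ZB η M (D + Cs * Lam η * D') fun l => e l - sg l * cor Bs y l := by
  intro k
  have h1 := (cor_ZB hη hB hD' hy).2 k
  refine (norm_sub_le _ _).trans ?_
  rw [norm_mul, sym1_norm_sg, one_mul]
  have := he k
  linarith

theorem hin2_Rx_ZB {η Cs M D : ℝ} (hη : 0 < η) (hC : 1 ≤ Cs) {Ai Bs e y : ℤ → ℂ}
    (hA : Dec η Cs Ai) (hB : Dec η Cs Bs) (hD : 0 ≤ D) (he : ZB η M D e)
    (hy : ZB η M (4 * (Cs * Lam η) ^ 2 * D) y) :
    ZB η M (5 * (Cs * Lam η) ^ 4 * D) (Rx Ai Bs e y) := by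
  have hL : 1 ≤ Cs * Lam η := one_le_mul_of_one_le_of_one_le hC (one_le_Lam hη)
  have h1 := (cor_ZB hη hA (by positivity) (hin2_in2_ZB hη hB (by positivity) he hy)).2
  refine hin2_ZB_mono ?_ h1
  generalize Cs * Lam η = L at *
  have h3 : 1 ≤ L ^ 3 := one_le_pow₀ hL
  have h4 : L * D * 1 ≤ L * D * L ^ 3 := mul_le_mul_of_nonneg_left h3 (by positivity)
  nlinarith

theorem hin2_Ry_add {η Cs D D' : ℝ} (hη : 0 < η) {Ai ϱ e ζ e' ζ' : ℤ → ℂ}
    (hA : Dec η Cs Ai) (hϱ : Dec η Cs ϱ) (hD : 0 ≤ D) (hD' : 0 ≤ D') (he : ZB η 0 D e)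
    (hζ : ZB η 0 D (up ζ)) (he' : ZB η 0 D' e') (hζ' : ZB η 0 D' (up ζ')) (k : ℤ) :
    Ry Ai ϱ (fun l => e l + e' l) (fun l => ζ l + ζ' l) k = Ry Ai ϱ e ζ k + Ry Ai ϱ e' ζ' k := by
  have hL : 0 ≤ Cs * Lam η := mul_nonneg (hin2_C hA) (zero_le_one.trans (one_le_Lam hη))
  have h : (fun l => up (fun l => ζ l + ζ' l) l - evn (cor Ai fun l => e l + e' l) l) =
      fun l => (up ζ l - evn (cor Ai e) l) + (up ζ' l - evn (cor Ai e') l) := by
    funext l
    simp only [up, evn, hin2_cor_add hη hA (hin2_ZB_bd hη hD he) (hin2_ZB_bd hη hD' he')]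
    split_ifs <;> ring
  unfold Ry
  rw [h, hin2_cor_add hη hϱ (hin2_ZB_bd hη (by positivity) (hin2_in_ZB hη hA hD he hζ))
    (hin2_ZB_bd hη (by positivity) (hin2_in_ZB hη hA hD' he' hζ'))]
  ring

theorem hin2_Ry_smul (Ai ϱ e ζ : ℤ → ℂ) (t : ℂ) (k : ℤ) :
    Ry Ai ϱ (fun l => t * e l) (fun l => t * ζ l) k = t * Ry Ai ϱ e ζ k := by
  have h : (fun l => up (fun l => t * ζ l) l - evn (cor Ai fun l => t * e l) l) =
      fun l => t * (up ζ l - evn (cor Ai e) l) := by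
    funext l
    simp only [up, evn, hin2_cor_smul]
    split_ifs <;> ring
  unfold Ry
  rw [h, hin2_cor_smul]
  ring

theorem hin2_Rx_add {η Cs D D' E E' : ℝ} (hη : 0 < η) {Ai Bs e y e' y' : ℤ → ℂ}
    (hA : Dec η Cs Ai) (hB : Dec η Cs Bs) (hD : 0 ≤ D) (hD' : 0 ≤ D') (hE : 0 ≤ E) (hE' : 0 ≤ E')
    (he : ZB η 0 D e) (hy : ZB η 0 E y) (he' : ZB η 0 D' e') (hy' : ZB η 0 E' y') (k : ℤ) :
    Rx Ai Bs (fun l => e l + e' l) (fun l => y l + y' l) k = Rx Ai Bs e y k + Rx Ai Bs e' y' k := by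
  have hL : 0 ≤ Cs * Lam η := mul_nonneg (hin2_C hA) (zero_le_one.trans (one_le_Lam hη))
  have h : (fun l => (e l + e' l) - sg l * cor Bs (fun l => y l + y' l) l) =
      fun l => (e l - sg l * cor Bs y l) + (e' l - sg l * cor Bs y' l) := by
    funext l
    rw [hin2_cor_add hη hB (hin2_ZB_bd hη hE hy) (hin2_ZB_bd hη hE' hy')]
    ring
  unfold Rx
  rw [h, hin2_cor_add hη hA (hin2_ZB_bd hη (by positivity) (hin2_in2_ZB hη hB hE he hy))
    (hin2_ZB_bd hη (by positivity) (hin2_in2_ZB hη hB hE' he' hy'))]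

theorem hin2_Rx_smul (Ai Bs e y : ℤ → ℂ) (t : ℂ) (k : ℤ) :
    Rx Ai Bs (fun l => t * e l) (fun l => t * y l) k = t * Rx Ai Bs e y k := by
  have h : (fun l => t * e l - sg l * cor Bs (fun l => t * y l) l) =
      fun l => t * (e l - sg l * cor Bs y l) := by
    funext l
    rw [hin2_cor_smul]
    ring
  unfold Rx
  rw [h, hin2_cor_smul]

theorem hin2_Ry_im {Ai ϱ e ζ : ℤ → ℂ} (hA : ∀ a, (Ai a).im = 0) (hϱ : ∀ a, (ϱ a).im = 0)
    (he : ∀ a, (e a).im = 0) (hζ : ∀ a, (ζ a).im = 0) (k : ℤ) : (Ry Ai ϱ e ζ k).im = 0 := by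
  have h : (cor ϱ (fun l => up ζ l - evn (cor Ai e) l) k).im = 0 := by
    refine hin2_cor_im hϱ (fun l => ?_) k
    simp only [up, evn]
    split_ifs
    · simp [hζ, hin2_cor_im hA he]
    · simp
  simp [Ry, h]

theorem hin2_Rx_im {Ai Bs e y : ℤ → ℂ} (hA : ∀ a, (Ai a).im = 0) (hB : ∀ a, (Bs a).im = 0)
    (he : ∀ a, (e a).im = 0) (hy : ∀ a, (y a).im = 0) (k : ℤ) : (Rx Ai Bs e y k).im = 0 := by
  refine hin2_cor_im hA (fun l => ?_) k
  simp [he, hin2_cor_im hB hy, sym1_sg_im]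

end StekIso
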