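import Pool.Agent.Lib.MP_fa022d_an.SchA
import Pool.Agent.Lib.MP_fa022d_an.Hol2

open Set Filter Topology Metric BoundedContinuousFunction Complex

noncomputable section
namespace StekIso
variable {Z : Type} [NormedAddCommGroup Z] [NormedSpace ℂ Z] {U : Set Z}
  {η1 C κ : ℝ} {S : Z → Idx → Idx → ℂ} {ℓ : Bool → ℝ} {j : Bool} {n : ℕ}

theorem schc_inv : Function.Involutive ng := fun b => by simp [ng]

theorem schc_ex {η : ℝ} (h : 0 < η) (k : ℤ) : ex η k ≤ 1 := by
  rw [ex, Real.exp_le_one_iff]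
  nlinarith [abs_nonneg (k : ℝ)]

/-- the pairing is symmetric -/
theorem schc_sym {S : Idx → Idx → ℂ} (h0 : 0 < η1) (h : Crude η1 C S) (hs : BSym S) (u y : X) :
    ∃ T, HasSum (fun b => u (ng b) * Sap S y b) T ∧ HasSum (fun b => Sap S u (ng b) * y b) T := by
  obtain ⟨c0, -, se, rb⟩ := h.rowBdd h0
  have hF : Summable fun a : Idx × Idx => u (ng a.1) * (S a.1 a.2 * y a.2) := by
    refine Summable.of_norm_bounded (((se.mul_of_nonneg se (fun _ => (ex_pos _ _).le)
      fun _ => (ex_pos _ _).le).mul_left C).mul_right ‖y‖ |>.mul_left ‖u‖) fun a => ?_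
    rw [norm_mul, norm_mul]
    exact mul_le_mul (u.norm_coe_le_norm _) (mul_le_mul (h _ _) (y.norm_coe_le_norm _)
      (norm_nonneg _) ((norm_nonneg _).trans (h _ _))) (by positivity) (norm_nonneg _)
  refine ⟨_, hF.hasSum.prod_fiberwise fun b => (rb.summable y b).hasSum.mul_left _,
    ((Equiv.prodComm Idx Idx).hasSum_iff.2 hF.hasSum).prod_fiberwise fun c => ?_⟩
  have := (schc_inv.toPerm.hasSum_iff.2 (rb.summable u (ng c)).hasSum).mul_right (y c)
  refine (congrArg (fun f => HasSum f _) (funext fun b => ?_)).mp this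
  simp only [Function.comp_apply, Equiv.prodComm_apply, Prod.swap_prod_mk,
    Function.Involutive.coe_toPerm, ← hs b c]
  ring

theorem schc_op (hU : IsOpen U) {σ : Z → ℂ} (hS : ∀ b c, DifferentiableOn ℂ (fun z => S z b c) U)
    (h : ∀ z ∈ U, SH0 η1 C κ (S z) ℓ (σ z) j n) {z : Z} (hz : z ∈ U) :
    DifferentiableOn ℂ (fun z => matOp (S z)) U ∧ ∀ x ∈ U, ∀ w (y : X) i,
      HasSum (fun k => fderiv ℂ (fun x => S x i k) x w * y k)
        (fderiv ℂ (fun x => matOp (S x)) x w y i) := by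
  obtain ⟨c0, e0, se, -⟩ := (h z hz).crude.rowBdd (h z hz).η_pos
  refine diffOn_matOp (a := fun _ c => C * ex η1 c.2) (C := C * EE η1) hU (by positivity) hS
    (fun x hx b c => ((h x hx).crude b c).trans (mul_le_mul_of_nonneg_left
      (mul_le_of_le_one_left (ex_pos _ _).le (schc_ex (h z hz).η_pos _)) c0))
    fun _ => ⟨se.mul_left _, by rw [tsum_mul_left, EE]⟩

theorem schc_ap {S : Idx → Idx → ℂ} {σ : ℂ} (h : SH0 η1 C κ S ℓ σ j n) (y : X) (b : Idx) :
    Sap S y b = matOp S y b := by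
  obtain ⟨c0, e0, -, rb⟩ := h.crude.rowBdd h.η_pos
  exact (matOp_apply (by positivity) rb y b).symm

theorem qv_diff (hU : IsOpen U) {σ : Z → ℂ} (hσ : DifferentiableOn ℂ σ U)
    (hS : ∀ b c, DifferentiableOn ℂ (fun z => S z b c) U)
    (h : ∀ z ∈ U, SH0 η1 C κ (S z) ℓ (σ z) j n) (q : ℤ) :
    DifferentiableOn ℂ (fun z => qv (S z) ℓ (σ z) j n q) U := by
  intro z hz
  obtain ⟨c0, e0, se, -⟩ := (h z hz).crude.rowBdd (h z hz).η_pos
  have k0 := (h z hz).κ_nonneg
  have d := (diffOn_matOp (A := fun z => Kf (S z) ℓ (σ z) j n) (a := fun _ c => C * κ * ex η1 c.2)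
    (C := C * κ * EE η1) hU (by positivity) (fun b c => ?_) (fun x hx b c => ?_)
    fun _ => ⟨se.mul_left _, by rw [tsum_mul_left, EE]⟩).1
  · exact (((differentiableOn_const 1).sub d).inverse fun x hx => isUnit_one_sub_of_norm_lt_one
      ((norm_matOp_le (by norm_num) (h x hx).norm_K).trans_lt (by norm_num))).clm_apply
        (differentiableOn_const _) z hz
  · by_cases p : inP j n b
    · simp only [Kf, if_pos p]
      exact differentiableOn_const _
    · simp only [Kf, if_neg p, div_eq_mul_inv]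
      exact (hS b c).mul (((hσ.mul_const _).sub_const _).inv fun x hx => (h x hx).dvs_ne p)
  · have := ex_pos η1 c.2
    by_cases p : inP j n b
    · simp only [Kf, if_pos p, norm_zero]
      positivity
    · simp only [Kf, if_neg p]
      rw [norm_div, div_le_iff₀ (norm_pos_iff.2 ((h x hx).dvs_ne p))]
      refine ((h x hx).crude b c).trans ?_
      calc _ ≤ C * (κ * ‖dvs ℓ (σ x) b‖ * ex η1 c.2) := by gcongr; exact (h x hx).div b p
        _ = _ := by ring

theorem Mm_diff (hU : IsOpen U) {σ : Z → ℂ} (hσ : DifferentiableOn ℂ σ U)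
    (hS : ∀ b c, DifferentiableOn ℂ (fun z => S z b c) U)
    (h : ∀ z ∈ U, SH0 η1 C κ (S z) ℓ (σ z) j n) (p q : ℤ) :
    DifferentiableOn ℂ (fun z => Mm (S z) ℓ (σ z) j n p q) U := fun z hz =>
  ((evalCLM ℂ ((j, p) : Idx)).differentiable.comp_differentiableOn
    ((schc_op hU hS h hz).1.clm_apply (qv_diff hU hσ hS h q))).congr
      (fun x hx => schc_ap (h x hx) _ _) z hz

/-- first variation; e.g. from the identity
`Mm S' p q - Mm S p q = Bf (qv S (-p)) (Sap (S' - S) (qv S' q))` -/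
theorem Mm_fderiv (hU : IsOpen U) {σ : ℂ}
    (hS : ∀ b c, DifferentiableOn ℂ (fun z => S z b c) U)
    (h : ∀ z ∈ U, SH0 η1 C κ (S z) ℓ σ j n) (hs : ∀ z ∈ U, BSym (S z)) {p q : ℤ} (hp : |p| = n)
    (hq : |q| = n) {z : Z} (hz : z ∈ U) (w : Z) :
    fderiv ℂ (fun z => Mm (S z) ℓ σ j n p q) z w = Bf (qv (S z) ℓ σ j n (-p))
      (Sap (fun b c => fderiv ℂ (fun z => S z b c) z w) (qv (S z) ℓ σ j n q)) := by
  have N := hU.mem_nhds hz
  obtain ⟨dA, sA⟩ := schc_op (σ := fun _ => σ) hU hS h hz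
  have dA := (dA.differentiableAt N).hasFDerivAt
  have dx := ((qv_diff (σ := fun _ => σ) hU (differentiableOn_const _) hS h q).differentiableAt
    N).hasFDerivAt
  have hg (b) : Sap (fun b c => fderiv ℂ (fun z => S z b c) z w) (qv (S z) ℓ σ j n q) b = _ :=
    (sA z hz w _ b).tsum_eq
  generalize fderiv ℂ (fun z => matOp (S z)) z = A' at dA hg
  generalize fderiv ℂ (fun z => qv (S z) ℓ σ j n q) z = x' at dx
  let ev : Idx → X →L[ℂ] ℂ := fun b => evalCLM ℂ b
  have d1 (b : Idx) : HasFDerivAt (fun z => qv (S z) ℓ σ j n q b) ((ev b).comp x') z :=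
    (ev b).hasFDerivAt.comp z dx
  have d2 (b : Idx) := ((ev b).hasFDerivAt.comp z (dA.clm_apply dx)).congr_of_eventuallyEq
    (f₁ := fun z => Sap (S z) (qv (S z) ℓ σ j n q) b)
    (mem_of_superset N fun x hx => schc_ap (h x hx) _ _)
  have d3 (b : Idx) : fderiv ℂ (fun z => Sap (S z) (qv (S z) ℓ σ j n q) b) z w =
      Sap (S z) (x' w) b + A' w (qv (S z) ℓ σ j n q) b := by
    rw [(d2 b).fderiv, schc_ap (h z hz)]
    simp [ev]
  have y0 (b) (k : inP j n b) : x' w b = 0 := by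
    have := (d1 b).unique ((hasFDerivAt_const _ z).congr_of_eventuallyEq
      (mem_of_superset N fun x hx => ((h x hx).qv_spec hq).2.1 b k))
    simpa [ev] using congrArg (fun L : Z →L[ℂ] ℂ => L w) this
  have y1 (b) (k : ¬inP j n b) :
      dvs ℓ σ b * x' w b = Sap (S z) (x' w) b + A' w (qv (S z) ℓ σ j n q) b := by
    rw [← d3, ← Filter.EventuallyEq.fderiv_eq (mem_of_superset N fun x hx =>
      ((h x hx).qv_spec hq).2.2.1 b k), ((d1 b).const_mul _).fderiv]
    simp [ev]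
  obtain ⟨-, u1, u2, -⟩ := (h z hz).qv_spec (q := -p) (by rwa [abs_neg])
  obtain ⟨T, t1, t2⟩ := schc_sym (h z hz).η_pos (h z hz).crude (hs z hz) (qv (S z) ℓ σ j n (-p))
    (x' w)
  have t := ((hasSum_ite_eq ((j, p) : Idx) (Sap (S z) (x' w) (j, p) +
    A' w (qv (S z) ℓ σ j n q) (j, p))).add t2).sub t1
  rw [add_sub_cancel_right] at t
  refine (d3 _).trans (t.tsum_eq.symm.trans (tsum_congr fun b => ?_))
  rw [hg]
  have i : inP j n (ng b) ↔ inP j n b := by simp [inP, ng]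
  by_cases k : inP j n b
  · rw [u1 _ (i.2 k), y0 b k]
    by_cases e : b = (j, p)
    · simp [e, ng]
    · rw [if_neg e, if_neg fun e' : ng b = (j, -p) => e (schc_inv.injective e')]
      simp
  · rw [if_neg fun e => k (by rw [e]; exact ⟨rfl, hp⟩), ← u2 _ (mt i.1 k),
      show dvs ℓ σ (ng b) = dvs ℓ σ b by simp [dvs, ng]]
    linear_combination qv (S z) ℓ σ j n (-p) (ng b) * y1 b k

end StekIso
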