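import Pool.Agent.Lib.MP_fa022d_an.SchA
import Pool.Agent.Lib.MP_fa022d_an.Four2

open Set Filter Topology Metric BoundedContinuousFunction Complex

noncomputable section
namespace StekIso

theorem schd_comm (c d : ℤ → ℂ) (k : ℤ) : conv c d k = conv d c k := by
  rw [conv, conv, ← (Equiv.subLeft k).tsum_eq]
  exact tsum_congr fun h => by simp [mul_comm]

theorem schd_conv {u v : ℤ → ℂ} {k : ℤ} (a c : ℤ) (α γ : ℂ)
    (h : Summable fun h => ‖u h * v (k - h)‖) :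
    conv (fun h => (if h = a then α else 0) + u h) (fun h => (if h = c then γ else 0) + v h) k =
      α * (if k - a = c then γ else 0) + α * v (k - a) + u (k - c) * γ + conv u v k := by
  refine HasSum.tsum_eq ?_
  have := ((hasSum_ite_eq a (α * (if k - a = c then γ else 0) + α * v (k - a))).add
    (hasSum_ite_eq (k - c) (u (k - c) * γ))).add h.of_norm.hasSum
  refine this.congr_fun fun x => ?_
  have e : k - x = c ↔ x = k - c := by omega
  by_cases h1 : x = a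
  · subst h1
    by_cases h2 : x = k - c
    · simp only [e, ← h2, if_true]; ring
    · simp only [e, h2, if_true, if_false]; ring
  · by_cases h2 : x = k - c
    · simp only [e, ← h2, h1, if_true, if_false]; ring
    · simp only [e, h2, h1, if_false]; ring

theorem schd_mono {a b : ℝ} (h : a ≤ b) (k : ℤ) : ex b k ≤ ex a k :=
  Real.exp_le_exp.2 (by nlinarith [abs_nonneg (k : ℝ)])

theorem schd_shift {η : ℝ} (h : 0 ≤ η) {a : ℤ} {n : ℕ} (ha : |a| = n) (k : ℤ) :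
    ex η (k - a) ≤ Real.exp (η * n) * ex η k := by
  rw [ex, ex, ← Real.exp_add]
  refine Real.exp_le_exp.2 ?_
  have e : |(a : ℝ)| = n := by exact_mod_cast ha
  have := abs_add_le ((k : ℝ) - a) a
  rw [sub_add_cancel, e] at this
  push_cast
  nlinarith

variable {η1 η2 C κ ρ D Λ : ℝ} {S : Idx → Idx → ℂ} {ℓ : Bool → ℝ} {σ : ℂ} {j : Bool} {n : ℕ}

theorem schd_rho (h2 : 0 < η2) (h : SH η1 η2 C κ ρ D Λ S ℓ σ j n) :
    ρ ≤ 1 ∧ 0 ≤ D ∧ D * ρ ≤ 1 := by
  have a : ρ ≤ 1 := h.ρ_le.trans (Real.exp_le_one_iff.2 (by nlinarith [abs_nonneg ((n : ℤ) : ℝ)]))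
  have b := h.low (!j, 0) fun k => by simpa using k.1
  have c : 0 ≤ D := nonneg_of_mul_nonneg_left (zero_le_one.trans b)
    (lt_of_le_of_ne (norm_nonneg _) fun k => by rw [← k] at b; linarith)
  refine ⟨a, c, ?_⟩
  by_contra k
  have := h.Dρ
  have := h.ρ_nonneg
  nlinarith [not_le.1 k]

/-- the splitting of a quasi-eigenvector on one circle -/
theorem schd_split (h12 : η2 < η1) (h : SH η1 η2 C κ ρ D Λ S ℓ σ j n) (hD : 0 ≤ D) {q : ℤ}
    (hq : |q| = n) (i : Bool) : ∃ y m : ℤ → ℂ,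
    (dS (cp (qv S ℓ σ j n q) i) = fun h => (if h = q then (if i = j then I * q else 0) else 0) +
      dS y h) ∧
    (cp (Tm S (qv S ℓ σ j n q)) i = fun h => (if h = q then (if i = j then (n : ℂ) else 0) else 0) +
      (σ * ℓ i * y h + m h)) ∧
    (∀ h, ‖y h‖ ≤ 2 * ρ * D * ex η1 h) ∧ (∀ h, ‖m h‖ ≤ 2 * ρ * ex η2 h) ∧
    (i = j → ∀ h : ℤ, (‖σ * ℓ i - |h|‖ + 2 * |(h : ℝ)|) * ‖y h‖ ≤ 8 * ρ * (br h ^ 1 * ex η1 h)) := by
  obtain ⟨-, s1, s2, -⟩ := h.toSH0.qv_spec hq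
  obtain ⟨b1, b2⟩ := h.toSH0.bounds h.ρ_nonneg h.row hq
  have ρ0 := h.ρ_nonneg
  have nq : ∀ x, ¬inP j n (i, x) → ∀ α : ℂ, (if x = q then (if i = j then α else 0) else 0) = 0 :=
    fun x hx α => by
      split_ifs with a b
      · exact (hx ⟨b, a ▸ hq⟩).elim
      all_goals rfl
  refine ⟨fun x => if inP j n (i, x) then 0 else qv S ℓ σ j n q (i, x),
    fun x => if inP j n (i, x) then Mm S ℓ σ j n x q else 0, funext fun x => ?_, funext fun x => ?_,
    fun x => ?_, fun x => ?_, fun e x => ?_⟩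
  · by_cases k : inP j n (i, x)
    · have e : i = j := k.1
      simp only [dS, cp, s1 _ k, if_pos k]
      simp only [e, Prod.mk.injEq, true_and, if_true]
      split_ifs with a
      · rw [a]; ring
      · ring
    · simp only [dS, cp, if_neg k, nq x k, zero_add]
  · by_cases k : inP j n (i, x)
    · have e : i = j := k.1
      have e' : |x| = n := k.2
      simp only [Tm, cp, s1 _ k, if_pos k, Mm]
      simp only [e, e', Prod.mk.injEq, true_and, if_true]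
      split_ifs <;> push_cast <;> ring
    · simp only [Tm, cp, if_neg k, nq x k, ← s2 _ k, dvs]; ring
  · have := ex_pos η1 x
    dsimp only
    split_ifs with k
    · rw [norm_zero]; positivity
    · have a := h.low _ k
      have b := mul_le_mul_of_nonneg_left (b1 _ k).1 hD
      nlinarith [norm_nonneg (qv S ℓ σ j n q (i, x))]
  · have p := ex_pos η2 x
    dsimp only
    split_ifs with k
    · have e' : |x| = n := k.2
      have a := b2 x e'
      have b := (h.row (j, x) (j, q) ⟨rfl, hq⟩).1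
      have c := schd_mono h12.le x
      have d : ρ ≤ ex η2 x := h.ρ_le.trans_eq (by
        simp only [ex, ← Int.cast_abs, e', abs_of_nonneg (Int.natCast_nonneg n)])
      have f : 0 ≤ EE η1 := tsum_nonneg fun c => (ex_pos _ _).le
      have g : EE η1 * κ ≤ 1 / 2 := by
        nlinarith [h.small, h.one_le, mul_nonneg f h.κ_nonneg]
      have := norm_add_le (Mm S ℓ σ j n x q - S (j, x) (j, q)) (S (j, x) (j, q))
      rw [sub_add_cancel] at this
      have u : 2 * ρ ^ 2 * κ * EE η1 ≤ ρ * ex η2 x := by nlinarith [sq_nonneg ρ]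
      nlinarith
    · rw [norm_zero]; positivity
  · have p := ex_pos η1 x
    have p' := br_pos x
    dsimp only
    split_ifs with k
    · rw [norm_zero, mul_zero]; positivity
    · have a : ‖σ * ℓ i - |x|‖ * ‖qv S ℓ σ j n q (i, x)‖ ≤ 2 * ρ * ex η1 x := (b1 _ k).1
      have b : 1 / 2 ≤ ‖σ * ℓ i - |x|‖ := by
        have c := norm_sub_le (σ * ℓ i - |x|) (σ * ℓ j - n)
        have d : (1 : ℝ) ≤ ‖((n - |x| : ℤ) : ℂ)‖ := by
          rw [Complex.norm_intCast]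
          exact_mod_cast Int.one_le_abs (sub_ne_zero.2 fun z => k ⟨e, z.symm⟩)
        rw [show σ * ℓ i - |x| - (σ * ℓ j - n) = ((n - |x| : ℤ) : ℂ) by rw [e]; push_cast; ring] at c
        linarith [h.near]
      have c := mul_le_mul_of_nonneg_right b (norm_nonneg (qv S ℓ σ j n q (i, x)))
      have d := abs_nonneg (x : ℝ)
      have f := mul_le_mul_of_nonneg_left (c.trans a) d
      have g := mul_nonneg ρ0 p.le
      simp only [br, pow_one]
      nlinarith [mul_nonneg d g]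

theorem schd_cv (h2 : 0 < η2) (h12 : η2 < η1) : ∃ K ≥ 0, ∀ (ρ D L : ℝ) (l : ℂ) (y y' m' : ℤ → ℂ),
    0 ≤ ρ → 0 ≤ D → D * ρ ≤ 1 → D ^ 2 * ρ ≤ 1 → 1 ≤ L → ‖l‖ ≤ L →
    (∀ x, ‖y x‖ ≤ 2 * ρ * D * ex η1 x) → (∀ x, ‖y' x‖ ≤ 2 * ρ * D * ex η1 x) →
    (∀ x, ‖m' x‖ ≤ 2 * ρ * ex η2 x) → ∀ k,
      Summable (fun x => ‖dS y x * (l * y' (k - x) + m' (k - x))‖) ∧
      ‖conv (dS y) (fun x => l * y' x + m' x) k‖ ≤ K * (L * ρ * ex η2 k) := by
  obtain ⟨K1, p1, k1⟩ := br_pow_ex_le (show (η1 + η2) / 2 < η1 by linarith) 1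
  obtain ⟨K2, p2, k2⟩ := conv_ex_bound h2.le (show η2 < (η1 + η2) / 2 by linarith)
  refine ⟨8 * K1 * K2, by positivity, fun ρ D L l y y' m' ρ0 D0 a1 a2 L1 hl hy hy' hm k => ?_⟩
  have dy : ∀ x, ‖dS y x‖ ≤ 2 * ρ * D * K1 * ex ((η1 + η2) / 2) x := fun x => by
    have u : |(x : ℝ)| ≤ br x ^ 1 := by simp [br]
    rw [dS, norm_mul, norm_mul, norm_I, one_mul, Complex.norm_intCast]
    calc _ ≤ br x ^ 1 * (2 * ρ * D * ex η1 x) :=
          mul_le_mul u (hy x) (norm_nonneg _) ((abs_nonneg _).trans u)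
      _ = 2 * ρ * D * (br x ^ 1 * ex η1 x) := by ring
      _ ≤ _ := by rw [mul_assoc _ K1]; exact mul_le_mul_of_nonneg_left (k1 x) (by positivity)
  obtain ⟨s, t⟩ := k2 (dS y) (fun x => l * y' x + m' x) _ (L * (2 * ρ * D) + 2 * ρ) dy (fun x => by
    refine (norm_add_le _ _).trans ?_
    rw [norm_mul, add_mul, mul_assoc L]
    exact add_le_add (mul_le_mul hl ((hy' x).trans (mul_le_mul_of_nonneg_left
      (schd_mono h12.le x) (by positivity))) (norm_nonneg _) (by positivity)) (hm x)) k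
  refine ⟨s, t.trans ?_⟩
  have u : D ^ 2 * ρ * L + D * ρ ≤ 2 * L := by nlinarith
  have pk := ex_pos η2 k
  calc _ = 4 * K1 * K2 * ρ * ex η2 k * (D ^ 2 * ρ * L + D * ρ) := by ring
    _ ≤ 4 * K1 * K2 * ρ * ex η2 k * (2 * L) := mul_le_mul_of_nonneg_left u (by positivity)
    _ = _ := by ring

theorem schd_cr (h12 : η2 < η1) : ∃ K ≥ 0, ∀ (ρ : ℝ) (l : ℂ) (n : ℕ) (a x : ℤ) (y m : ℤ → ℂ),
    0 ≤ ρ → |a| = n → ‖m x‖ ≤ 2 * ρ * ex η2 x →
    (‖l - |x|‖ + 2 * |(x : ℝ)|) * ‖y x‖ ≤ 8 * ρ * (br x ^ 1 * ex η1 x) →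
    ‖I * a * (l * y x + m x) + dS y x * n‖ ≤ K * (n * ρ * ex η2 x) := by
  obtain ⟨K1, p1, k1⟩ := br_pow_ex_le h12 1
  refine ⟨2 + 8 * K1, by positivity, fun ρ l n a x y m ρ0 ha hm hy => ?_⟩
  have na : ‖(a : ℂ)‖ = n := by rw [Complex.norm_intCast]; exact_mod_cast ha
  have nx : ‖((|x| : ℤ) : ℂ)‖ = |(x : ℝ)| := by rw [Complex.norm_intCast]; simp
  have u : ‖I * a * (l * y x + m x) + dS y x * n‖ ≤
      n * ((‖l - |x|‖ + 2 * |(x : ℝ)|) * ‖y x‖ + ‖m x‖) := by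
    rw [show I * a * (l * y x + m x) + dS y x * n = I * (a * (l - |x|) * y x +
      a * (|x| : ℤ) * y x + n * x * y x + a * m x) by rw [dS]; ring, norm_mul, norm_I, one_mul]
    refine (norm_add_le_of_le (norm_add₃_le) le_rfl).trans (le_of_eq ?_)
    simp only [norm_mul, na, nx, Complex.norm_natCast]
    rw [Complex.norm_intCast]
    ring
  have v : (‖l - |x|‖ + 2 * |(x : ℝ)|) * ‖y x‖ + ‖m x‖ ≤ (2 + 8 * K1) * ρ * ex η2 x := by
    have := mul_le_mul_of_nonneg_left (k1 x) ρ0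
    linarith
  exact u.trans ((mul_le_mul_of_nonneg_left v n.cast_nonneg).trans_eq (by ring))

theorem schd_main (h2 : 0 < η2) (h12 : η2 < η1) : ∃ K ≥ 0,
    ∀ (C κ ρ D Λ : ℝ) (S : Idx → Idx → ℂ) (ℓ : Bool → ℝ) (σ : ℂ) (j : Bool) (n : ℕ),
      SH η1 η2 C κ ρ D Λ S ℓ σ j n → ∀ a c : ℤ, |a| = n → |c| = n → ∀ i k,
      ‖fPQ S (qv S ℓ σ j n a) (qv S ℓ σ j n c) i k -
        (if i = j ∧ k = a + c then I * n * (a + c) else 0)‖ ≤
        K * Λ * n * ρ * Real.exp (η2 * n) * ex η2 k := by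
  obtain ⟨K1, p1, cr⟩ := schd_cr h12
  obtain ⟨K2, p2, cv⟩ := schd_cv h2 h12
  refine ⟨2 * K1 + 2 * K2, by positivity, fun C κ ρ D Λ S ℓ σ j n h a c ha hc i k => ?_⟩
  obtain ⟨ρ1, D0, Dρ⟩ := schd_rho h2 h
  have ρ0 := h.ρ_nonneg
  have n1 : (1 : ℝ) ≤ n := by exact_mod_cast h.n_pos
  have Λ1 := h.one_le_Λ
  have E1 : 1 ≤ Real.exp (η2 * n) := Real.one_le_exp (by positivity)
  have pk := ex_pos η2 k
  have L1 : 1 ≤ Λ * n := one_le_mul_of_one_le_of_one_le Λ1 n1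
  obtain ⟨R, hR⟩ : ∃ R, R = Λ * n * ρ * Real.exp (η2 * n) * ex η2 k := ⟨_, rfl⟩
  have r1 : Λ * n * ρ * ex η2 k ≤ R := hR ▸ mul_le_mul_of_nonneg_right
    (le_mul_of_one_le_right (by positivity) E1) pk.le
  have cr' : ∀ (a : ℤ) (y m : ℤ → ℂ), |a| = n → (∀ x, ‖m x‖ ≤ 2 * ρ * ex η2 x) →
      (i = j → ∀ x : ℤ, (‖σ * ℓ i - |x|‖ + 2 * |(x : ℝ)|) * ‖y x‖ ≤
        8 * ρ * (br x ^ 1 * ex η1 x)) →
      ‖(if i = j then I * a else 0) * (σ * ℓ i * y (k - a) + m (k - a)) +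
        dS y (k - a) * (if i = j then (n : ℂ) else 0)‖ ≤ K1 * R := fun a y m ha hm hy => by
    split_ifs with e
    · refine (cr ρ _ n a _ y m ρ0 ha (hm _) (hy e _)).trans (mul_le_mul_of_nonneg_left ?_ p1)
      calc _ ≤ n * ρ * (Real.exp (η2 * n) * ex η2 k) :=
            mul_le_mul_of_nonneg_left (schd_shift h2.le ha k) (by positivity)
        _ ≤ Λ * (n * ρ * (Real.exp (η2 * n) * ex η2 k)) := le_mul_of_one_le_left (by positivity) Λ1
        _ = _ := by rw [hR]; ring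
    · rw [zero_mul, mul_zero, add_zero, norm_zero, hR]; positivity
  obtain ⟨y, m, e1, e2, hy, hm, hx⟩ := schd_split h12 h D0 ha i
  obtain ⟨y', m', e1', e2', hy', hm', hx'⟩ := schd_split h12 h D0 hc i
  obtain ⟨s, t⟩ := cv ρ D _ _ y y' m' ρ0 D0 Dρ h.Dρ L1 (h.size i) hy hy' hm' k
  obtain ⟨s', t'⟩ := cv ρ D _ _ y' y m ρ0 D0 Dρ h.Dρ L1 (h.size i) hy' hy hm k
  have r2 := mul_le_mul_of_nonneg_left r1 p2
  have z := norm_add_le_of_le (norm_add_le_of_le (cr' a y' m' ha hm' hx') (cr' c y m hc hm hx))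
    (norm_add_le_of_le (t.trans r2) (t'.trans r2))
  rw [fPQ, schd_comm (cp (Tm S _) i), e1, e2, e1', e2',
    schd_conv (v := fun x => σ * ℓ i * y' x + m' x) a c _ _ s,
    schd_conv (v := fun x => σ * ℓ i * y x + m x) c a _ _ s']
  refine le_trans (le_of_eq (congrArg _ ?_)) (z.trans (le_of_eq (by rw [hR]; ring)))
  have f1 : k - a = c ↔ k = a + c := by omega
  have f2 : k - c = a ↔ k = a + c := by omega
  simp only [f1, f2]
  simp only [ite_and]
  split_ifs <;> ring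

/-- Write `X_q = e_q + y`, `T X_q = n e_q + σ ℓ y + (column of Mm)`.  In the diagonal case the
main terms cancel; a cross term is `I n (b ∓ σ ℓ) y_b` and `‖b ∓ σ ℓ‖ ≤ ‖dvs b‖ (1 + 4 |b|)`. -/
theorem fPQ_bound {η1 η2 : ℝ} (h2 : 0 < η2) (h12 : η2 < η1) : ∃ K ≥ 1,
    ∀ (C κ ρ D Λ : ℝ) (S : Idx → Idx → ℂ) (ℓ : Bool → ℝ) (σ : ℂ) (j : Bool) (n : ℕ),
      SH η1 η2 C κ ρ D Λ S ℓ σ j n → ∀ p : ℤ, |p| = n → ∀ i k,
      ‖fPQ S (qv S ℓ σ j n (-p)) (qv S ℓ σ j n p) i k‖ ≤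
        K * Λ * n * ρ * Real.exp (η2 * n) * ex η2 k ∧
      ‖fPQ S (qv S ℓ σ j n (-p)) (qv S ℓ σ j n (-p)) i k‖ ≤
        K * Λ * n ^ 2 * Real.exp (η2 * (2 * n)) * ex η2 k := by
  obtain ⟨K, K0, hK⟩ := schd_main h2 h12
  refine ⟨K + 2, by linarith, fun C κ ρ D Λ S ℓ σ j n h p hp i k => ?_⟩
  have hp' : |(-p)| = n := by rwa [abs_neg]
  have ρ0 := h.ρ_nonneg
  have ρ1 := (schd_rho h2 h).1
  have n1 : (1 : ℝ) ≤ n := by exact_mod_cast h.n_pos
  have Λ1 := h.one_le_Λ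
  have pk := ex_pos η2 k
  constructor
  · have := hK C κ ρ D Λ S ℓ σ j n h (-p) p hp' hp i k
    simp only [Int.cast_neg, neg_add_cancel, mul_zero, ite_self, sub_zero] at this
    refine this.trans ?_
    gcongr
    linarith
  have a := hK C κ ρ D Λ S ℓ σ j n h (-p) (-p) hp' hp' i k
  have b : K * Λ * n * ρ * Real.exp (η2 * n) * ex η2 k ≤
      K * Λ * n ^ 2 * Real.exp (η2 * (2 * n)) * ex η2 k := by
    rw [pow_two, ← mul_assoc (K * Λ)]
    gcongr
    · linarith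
    · linarith
  have c : ‖(if i = j ∧ k = -p + -p then I * n * ((-p : ℤ) + (-p : ℤ)) else 0 : ℂ)‖ ≤
      2 * Λ * n ^ 2 * Real.exp (η2 * (2 * n)) * ex η2 k := by
    split_ifs with e
    · have e1 : |(p : ℝ)| = n := by exact_mod_cast hp
      have e2 : Real.exp (η2 * (2 * n)) * ex η2 k = 1 := by
        rw [ex, ← Real.exp_add, e.2]
        push_cast
        rw [← two_mul, abs_mul, abs_neg, e1, abs_two]
        simp
      rw [mul_assoc (2 * Λ * _), e2, ← two_mul, norm_mul, norm_mul, norm_mul, norm_I,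
        Complex.norm_natCast, Complex.norm_intCast, Complex.norm_two, Int.cast_neg, abs_neg, e1]
      nlinarith [sq_nonneg (n : ℝ)]
    · rw [norm_zero]; positivity
  have := norm_add_le_of_le (a.trans b) c
  rw [sub_add_cancel] at this
  linarith

end StekIso
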