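import Pool.Agent.Lib.MP_fa022d_an.HiD
import Pool.Agent.Lib.MP_fa022d_an.SchC
import Pool.Agent.Lib.MP_fa022d_an.SchD
import Pool.Agent.Lib.MP_fa022d_an.Four2

/-! Holomorphy, reality and first variation of the reduced matrix. -/

open Set Filter Topology Metric BoundedContinuousFunction Complex

noncomputable section
namespace StekIso
variable {B : Base} {η : Pos} {ε lam c cut C K θ : ℝ}

theorem nA_pos {η ε : ℝ} (hε : 0 < ε) {n : ℕ} (hn : 1 ≤ n) : 0 < nA η ε n := by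
  have := beta_pos η n
  have : (0 : ℝ) < n := by exact_mod_cast hn
  unfold nA; positivity
theorem nB_pos {η ε : ℝ} (hε : 0 < ε) {n : ℕ} (hn : 1 ≤ n) : 0 < nB η ε n := by
  have := beta_pos η (2 * n)
  have : (0 : ℝ) < n := by exact_mod_cast hn
  unfold nB; positivity
theorem lenf_pos (lam : ℝ) (j : Bool) : 0 < lenf lam j := by
  unfold lenf; split_ifs
  exacts [one_pos, Real.exp_pos _]
theorem wc_pos (hW : WinOK B η ε lam c cut C K θ) {j : Bool} {n : ℕ} (h : cut < wc lam j n) :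
    0 < wc lam j n := by
  have : (0 : ℝ) < n := by exact_mod_cast (hW.n1 j n h).1
  exact div_pos this (lenf_pos lam j)

theorem zOf_mem (hW : WinOK B η ε lam c cut C K θ) {x : X} (hx : x ∈ ball (0 : X) 2) :
    zOf B η ε lam x ∈ dom B η (δK B η) := by
  obtain ⟨a, b⟩ := hW.inV x hx
  exact ⟨mem_ball_zero_iff.2 a, mem_ball_iff_norm.2 (by linarith)⟩

theorem hiq_beta_neg (η : ℝ) (k : ℤ) : beta η (-k) = beta η k := by simp [beta, ex, br]

theorem hiq_ex_neg (η : ℝ) (k : ℤ) : ex η (-k) = ex η k := by simp [ex]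

theorem hiq_beta_le {η : ℝ} (h : 0 < η) (k : ℤ) : beta η k ≤ 1 :=
  (div_le_one (pow_pos (br_pos k) 4)).2 ((schc_ex h k).trans (one_le_pow₀ (one_le_br k)))

theorem toV_real' {x : X} (hx : x ∈ reB Idx) : RealV (toV η ε x) := by
  intro j k
  have r : ∀ b, (starRingEnd ℂ) (x b) = x b := fun b => conj_eq_iff_im.2 (hx b)
  rw [coeff_toV, coeff_toV, hiq_beta_neg, map_mul, conj_ofReal]
  congr 1
  unfold uu
  rcases lt_trichotomy k 0 with h | rfl | h
  · rw [if_pos (by omega), if_neg (by omega), if_pos h]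
    simp [r]
  · simp [r]
  · rw [if_neg (by omega), if_pos (by omega), if_pos h]
    simp [r, sub_eq_add_neg]

theorem Sx_rsym (hK : KerOK B η C) (hW : WinOK B η ε lam c cut C K θ) {x : X}
    (hx : x ∈ ball (0 : X) 2) (hr : x ∈ reB Idx) : RSym (Sx B η ε lam x) := by
  exact hK.rsym _ (zOf_mem hW hx) (toV_real' hr) (hK.Hreal _ (hW.inV x hx).1 (toV_real' hr) lam)

theorem hiq_H (hK : KerOK B η C) (hW : WinOK B η ε lam c cut C K θ) :
    DifferentiableOn ℂ (fun x : X => Hof B (toV η ε x, (lam : ℂ))) (ball 0 2) :=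
  hK.Hdiff.comp ((toV η ε).differentiableOn.prodMk (differentiableOn_const _)) fun x hx =>
    ⟨mem_ball_zero_iff.2 (hW.inV x hx).1, mem_univ _⟩

theorem hiq_zOf (hK : KerOK B η C) (hW : WinOK B η ε lam c cut C K θ) :
    DifferentiableOn ℂ (zOf B η ε lam) (ball 0 2) :=
  (toV η ε).differentiableOn.prodMk (hiq_H hK hW)

/-- `Mm_diff` on `X × ℂ` with `S z = Sx .. z.1` and `σ z = z.2` (`KerOK.diff`, `KerOK.Hdiff`) -/
theorem Mx_diff (hK : KerOK B η C) (hW : WinOK B η ε lam c cut C K θ) {j : Bool} {n : ℕ}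
    (h : cut < wc lam j n) (p q : ℤ) :
    DifferentiableOn ℂ (fun z : X × ℂ => Mx B η ε lam z.1 z.2 j n p q)
      (ball (0 : X) 2 ×ˢ ball (wc lam j n : ℂ) (c / (2 * wc lam j n))) := by
  obtain ⟨κ, D, Λ, -, sh⟩ := hW.sh j n h
  refine Mm_diff (S := fun z : X × ℂ => Sx B η ε lam z.1) (σ := fun z => z.2)
    (isOpen_ball.prod isOpen_ball) differentiableOn_snd (fun b c' => ?_)
    (fun z hz => (sh z.1 hz.1 _ (zOf_mem hW hz.1).2 z.2 hz.2).toSH0) p q
  exact (hK.diff b c').comp ((hiq_zOf hK hW).comp differentiableOn_fst fun z hz => hz.1)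
    fun z hz => zOf_mem hW hz.1

/-- `SH0.Mm_symm`, `SH0.Mm_conj` -/
theorem Mx_real (hK : KerOK B η C) (hW : WinOK B η ε lam c cut C K θ) {j : Bool} {n : ℕ}
    (h : cut < wc lam j n) {x : X} (hx : x ∈ ball (0 : X) 2) (hr : x ∈ reB Idx) {σ : ℝ}
    (hσ : |σ - wc lam j n| < c / (2 * wc lam j n)) :
    (Mx B η ε lam x σ j n n n).im = 0 ∧
      ddm B η ε lam x σ j n = ((‖Mx B η ε lam x σ j n n (-n)‖ ^ 2 : ℝ) : ℂ) := by
  obtain ⟨κ, D, Λ, -, sh⟩ := hW.sh j n h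
  have m : (σ : ℂ) ∈ ball (wc lam j n : ℂ) (c / (2 * wc lam j n)) := by
    rw [mem_ball_iff_norm, ← ofReal_sub, norm_real]; exact hσ
  have s := sh x hx _ (zOf_mem hW hx).2 σ m
  have r := Sx_rsym hK hW hx hr
  have a : |(n : ℤ)| = n := abs_of_nonneg (Int.natCast_nonneg n)
  have a' : |-(n : ℤ)| = n := by rw [abs_neg, a]
  have e1 := s.toSH0.Mm_symm s.bsym a a
  have e2 := s.toSH0.Mm_conj r (ofReal_im σ) a a
  have e3 := s.toSH0.Mm_conj r (ofReal_im σ) a a'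
  rw [neg_neg] at e3
  refine ⟨conj_eq_iff_im.1 (e2.symm.trans e1.symm), ?_⟩
  rw [ofReal_pow, ← mul_conj']
  exact congrArg _ e3

/-- one variable: Cauchy estimate and mean value inequality -/
theorem hol_lip {g : ℂ → ℂ} {z : ℂ} {R M : ℝ} (hR : 0 < R) (hg : DifferentiableOn ℂ g (ball z R))
    (hM : ∀ s ∈ ball z R, ‖g s‖ ≤ M) {a b : ℂ} (ha : ‖a - z‖ ≤ R / 2) (hb : ‖b - z‖ ≤ R / 2) :
    ‖g a - g b‖ ≤ 2 * M / R * ‖a - b‖ := by
  have sb : ∀ s ∈ closedBall z (R / 2), ball s (R / 2) ⊆ ball z R := fun s hs y hy => by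
    rw [mem_ball] at hy ⊢
    linarith [dist_triangle y s z, mem_closedBall.1 hs]
  have := (convex_closedBall z (R / 2)).norm_image_sub_le_of_norm_fderiv_le (𝕜 := ℂ) (f := g)
    (C := M / (R / 2)) (fun s hs => hg.differentiableAt (isOpen_ball.mem_nhds
      (sb s hs (mem_ball_self (by positivity)))))
    (fun s hs => cauchy_fderiv (by positivity) (hg.mono (sb s hs)) fun y hy => hM y (sb s hs hy))
    (mem_closedBall_iff_norm.2 hb) (mem_closedBall_iff_norm.2 ha)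
  refine this.trans_eq ?_
  field_simp

theorem hiq_ex_sum {a : ℝ} (h : 0 < a) : Summable fun b : Idx => ex a b.2 :=
  (Crude.rowBdd (C := 0) (S := fun _ _ => 0) h fun _ _ => by simp).2.2.1

theorem hiq_sum {η : ℝ} (h : 0 < η) (w : X) :
    Summable fun b : Idx => ‖w b‖ * (beta η b.2 * ex (3 / 4 * η) b.2) :=
  Summable.of_nonneg_of_le
    (fun b => mul_nonneg (norm_nonneg _) (mul_pos (beta_pos _ _) (ex_pos _ _)).le)
    (fun b => mul_le_mul (w.norm_coe_le_norm b)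
      (mul_le_of_le_one_left (ex_pos _ _).le (hiq_beta_le h _))
      (mul_pos (beta_pos _ _) (ex_pos _ _)).le (norm_nonneg _))
    ((hiq_ex_sum (a := 3 / 4 * η) (by positivity)).mul_left ‖w‖)

theorem hiq_uu (w : Idx → ℂ) (j : Bool) (k : ℤ) : ‖uu w j k‖ ≤ ‖w (j, k)‖ + ‖w (j, -k)‖ := by
  unfold uu
  split_ifs with h h'
  · refine (norm_add_le _ _).trans ?_
    rw [norm_mul, norm_I, one_mul]
  · refine (norm_sub_le _ _).trans ?_
    rw [norm_mul, norm_I, one_mul, add_comm]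
  · obtain rfl : k = 0 := by omega
    exact le_add_of_nonneg_right (norm_nonneg _)

theorem wn_toV (hε : 0 ≤ ε) (w : X) : wn (3 / 4 * η.1) (toV η ε w) ≤ 2 * ε * sg1 η.1 w := by
  have h0 := η.2
  have s := hiq_sum h0 w
  have s' : Summable fun b : Idx => ‖w (ng b)‖ * (beta η.1 (ng b).2 * ex (3 / 4 * η.1) (ng b).2) :=
    (schc_inv.toPerm ng).summable_iff.2 s
  have e : ∑' b : Idx, ‖w (ng b)‖ * (beta η.1 (ng b).2 * ex (3 / 4 * η.1) (ng b).2) = sg1 η.1 w :=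
    (schc_inv.toPerm ng).tsum_eq fun b => ‖w b‖ * (beta η.1 b.2 * ex (3 / 4 * η.1) b.2)
  have t := ((s.hasSum.add s'.hasSum).mul_left ε)
  rw [e] at t
  have k : ∀ b : Idx, ‖(toV η ε w b.1).coeff b.2‖ * ex (3 / 4 * η.1) b.2 ≤
      ε * (‖w b‖ * (beta η.1 b.2 * ex (3 / 4 * η.1) b.2) +
        ‖w (ng b)‖ * (beta η.1 (ng b).2 * ex (3 / 4 * η.1) (ng b).2)) := fun ⟨j, k⟩ => by
    have hb := beta_pos η.1 k
    have he := ex_pos (3 / 4 * η.1) k
    simp only [ng, hiq_beta_neg, hiq_ex_neg]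
    rw [coeff_toV, norm_mul, norm_real, Real.norm_of_nonneg (by positivity)]
    calc _ ≤ ε * beta η.1 k * (‖w (j, k)‖ + ‖w (j, -k)‖) * ex (3 / 4 * η.1) k := by
          gcongr; exact hiq_uu w j k
      _ = _ := by ring
  refine (Real.tsum_le_of_sum_le (fun b => mul_nonneg (norm_nonneg _) (ex_pos _ _).le) fun F =>
    (Finset.sum_le_sum fun b _ => k b).trans (sum_le_hasSum F (fun b _ =>
      (mul_nonneg (norm_nonneg _) (ex_pos _ _).le).trans (k b)) t)).trans_eq ?_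
  unfold sg1; ring

/-- `beta k ≤ beta m * exp (-η (|k| - m))` for `|k| ≥ m` -/
theorem sg1_le {η : ℝ} (hη : 0 < η) (m : ℕ) (w : X) (hw : ∀ b : Idx, |(b.2 : ℝ)| < m → w b = 0) :
    sg1 η w ≤ beta η m * ex (3 / 4 * η) m * sg2 η m w := by
  have e : ∀ b : Idx, Real.exp (-(3 / 2 * η) * (|(b.2 : ℝ)| - m)) =
      Real.exp (3 / 2 * η * m) * ex (3 / 2 * η) b.2 := fun b => by
    rw [ex, ← Real.exp_add]; congr 1; ring
  have s : Summable fun b : Idx => ‖w b‖ * Real.exp (-(3 / 2 * η) * (|(b.2 : ℝ)| - m)) := by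
    refine Summable.of_nonneg_of_le (fun b => by positivity) (fun b => ?_)
      (((hiq_ex_sum (a := 3 / 2 * η) (by positivity)).mul_left (Real.exp (3 / 2 * η * m))).mul_left
        ‖w‖)
    rw [e]
    have := ex_pos (3 / 2 * η) b.2
    exact mul_le_mul_of_nonneg_right (w.norm_coe_le_norm b) (by positivity)
  rw [sg1, sg2, ← tsum_mul_left]
  refine (hiq_sum hη w).tsum_le_tsum (fun b => ?_) (s.mul_left _)
  rcases lt_or_ge |(b.2 : ℝ)| m with h | h
  · simp [hw b h]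
  rw [mul_left_comm (beta η m * ex (3 / 4 * η) m)]
  refine mul_le_mul_of_nonneg_left ?_ (norm_nonneg (w b))
  have am : |((m : ℤ) : ℝ)| = m := by simp
  have b1 : br (m : ℤ) ^ 4 ≤ br b.2 ^ 4 :=
    pow_le_pow_left₀ (br_pos _).le (by unfold br; linarith) 4
  have b2 : ex η b.2 * ex (3 / 4 * η) b.2 ≤ ex η m * ex (3 / 4 * η) m *
      Real.exp (-(3 / 2 * η) * (|(b.2 : ℝ)| - m)) := by
    simp only [ex, ← Real.exp_add, am]
    exact Real.exp_le_exp.2 (by nlinarith)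
  have p1 := pow_pos (br_pos (m : ℤ)) 4
  have p2 := mul_pos (ex_pos η b.2) (ex_pos (3 / 4 * η) b.2)
  calc _ = ex η b.2 * ex (3 / 4 * η) b.2 / br b.2 ^ 4 := by unfold beta; ring
    _ ≤ ex η m * ex (3 / 4 * η) m * Real.exp (-(3 / 2 * η) * (|(b.2 : ℝ)| - m)) / br (m : ℤ) ^ 4 :=
      div_le_div₀ (p2.le.trans b2) b2 p1 b1
    _ = _ := by unfold beta; ring

theorem hiq_wn (w : V η) : wn (3 / 4 * η.1) w = ∑ j, ∑' k, ‖(w j).coeff k‖ * ex (3 / 4 * η.1) k := by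
  have h0 := η.2
  have s : Summable fun b : Idx => ‖(w b.1).coeff b.2‖ * ex (3 / 4 * η.1) b.2 := by
    refine Summable.of_nonneg_of_le (fun b => mul_nonneg (norm_nonneg _) (ex_pos _ _).le)
      (fun b => mul_le_mul_of_nonneg_right ?_ (ex_pos _ _).le)
      ((hiq_ex_sum (a := 3 / 4 * η.1) (by positivity)).mul_left ‖w‖)
    refine ((w b.1).norm_coeff_le b.2).trans ((mul_le_of_le_one_right (norm_nonneg _) ?_).trans
      (norm_le_pi_norm w b.1))
    have := hiq_beta_le h0 b.2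
    change beta η.1 b.2 / 128 ≤ 1
    linarith
  rw [wn, s.tsum_prod, tsum_fintype]

theorem hiq_main (hK : KerOK B η C) (hW : WinOK B η ε lam c cut C K θ) {j : Bool} {n : ℕ}
    (h : cut < wc lam j n) {x : X} (hx : x ∈ ball (0 : X) 2) {σ : ℂ}
    (hσ : σ ∈ ball (wc lam j n : ℂ) (c / (2 * wc lam j n))) (w : X) {p q : ℤ} (hp : |p| = n)
    (hq : |q| = n) {a m : ℝ}
    (ha : ∀ i k, ‖fPQ (Sx B η ε lam x) (qv (Sx B η ε lam x) (lenf lam) σ j n (-p))
      (qv (Sx B η ε lam x) (lenf lam) σ j n q) i k‖ ≤ a * ex (3 / 4 * η.1) k)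
    (hm : ∀ H ∈ ball (B.H0 : ℂ) 1, ‖Mm (Smat B (toV η ε x, H)) (lenf lam) σ j n p q‖ ≤ m) :
    ‖fderiv ℂ (fun x => Mx B η ε lam x σ j n p q) x w‖ ≤
      C * (a + 2 * m) * wn (3 / 4 * η.1) (toV η ε w) := by
  obtain ⟨κ, D, Λ, -, sh⟩ := hW.sh j n h
  let L : X × ℂ →L[ℂ] V η × ℂ := (toV η ε).prodMap (ContinuousLinearMap.id ℂ ℂ)
  let U : Set (X × ℂ) := ball (0 : X) 2 ×ˢ ball (B.H0 : ℂ) 1
  have hU : IsOpen U := isOpen_ball.prod isOpen_ball
  have ho : IsOpen (dom B η (δK B η)) := isOpen_ball.prod isOpen_ball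
  have mL : ∀ z ∈ U, L z ∈ dom B η (δK B η) := fun z hz =>
    ⟨(mem_ball_zero_iff (a := toV η ε z.1)).2 (hW.inV z.1 hz.1).1, hz.2⟩
  have dS : ∀ b c', DifferentiableOn ℂ (fun z => Smat B (L z) b c') U := fun b c' =>
    (hK.diff b c').comp L.differentiableOn mL
  have s0 : ∀ z ∈ U, SH0 (7 / 8 * η.1) C κ (Smat B (L z)) (lenf lam) σ j n := fun z hz =>
    (sh z.1 hz.1 z.2 hz.2 σ hσ).toSH0
  let F : X × ℂ → ℂ := fun z => Mm (Smat B (L z)) (lenf lam) σ j n p q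
  have dF : DifferentiableOn ℂ F U :=
    Mm_diff (σ := fun _ => σ) hU (differentiableOn_const _) dS s0 p q
  let g : X → ℂ := fun x => Hof B (toV η ε x, (lam : ℂ))
  have z0 : (x, g x) ∈ U := ⟨hx, (zOf_mem hW hx).2⟩
  have dg : HasFDerivAt g (fderiv ℂ g x) x :=
    ((hiq_H hK hW).differentiableAt (isOpen_ball.mem_nhds hx)).hasFDerivAt
  have F1 := (dF.differentiableAt (hU.mem_nhds z0)).hasFDerivAt
  have e : fderiv ℂ (fun x => Mx B η ε lam x σ j n p q) x w =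
      fderiv ℂ F (x, g x) (w, 0) + fderiv ℂ F (x, g x) (0, fderiv ℂ g x w) := by
    rw [← map_add, Prod.mk_add_mk, add_zero, zero_add]
    exact congrArg (· w) (HasFDerivAt.comp (f := fun x => (x, g x)) x F1
      ((hasFDerivAt_id x).prodMk dg)).fderiv
  have v0 := (hW.inV x hx).1
  have b1 : ‖fderiv ℂ F (x, g x) (w, 0)‖ ≤ C * a * wn (3 / 4 * η.1) (toV η ε w) := by
    rw [Mm_fderiv hU dS s0 (fun z hz => hK.bsym _ (mL z hz)) hp hq z0]
    have e1 : (fun b c' => fderiv ℂ (fun z => Smat B (L z) b c') (x, g x) (w, 0)) =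
        dSm B (L (x, g x)) (toV η ε w, 0) := by
      funext b c'
      exact congrArg (· (w, 0)) (((hK.diff b c').differentiableAt
        (ho.mem_nhds (mL _ z0))).hasFDerivAt.comp (x, g x) L.hasFDerivAt).fderiv
    obtain ⟨-, -, -, Cp, dp⟩ := (s0 _ z0).qv_spec (q := -p) (by rw [abs_neg, hp])
    obtain ⟨-, -, -, Cq, dq⟩ := (s0 _ z0).qv_spec hq
    rw [e1, hK.comm _ (mL _ z0) _ _ _ Cp Cq dp dq, norm_neg, hiq_wn, Finset.mul_sum]
    exact norm_sum_le_of_le _ fun i _ =>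
      hK.xi _ _ ((norm_le_pi_norm (toV η ε x) i).trans_lt v0) _ _ (ha i)
  have b2 : ‖fderiv ℂ g x w‖ ≤ C * wn (3 / 4 * η.1) (toV η ε w) := by
    refine le_of_eq_of_le (congrArg norm ?_) (hK.Hins _ v0 (lam : ℂ) (toV η ε w))
    have m : (toV η ε x, (lam : ℂ)) ∈ ball (0 : V η) (δK B η) ×ˢ (univ : Set ℂ) :=
      ⟨mem_ball_zero_iff.2 v0, mem_univ _⟩
    exact congrArg (· w) (HasFDerivAt.comp (f := fun x => (toV η ε x, (lam : ℂ))) x
      (hK.Hdiff.differentiableAt ((isOpen_ball.prod isOpen_univ).mem_nhds m)).hasFDerivAt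
      ((toV η ε).hasFDerivAt.prodMk (hasFDerivAt_const (lam : ℂ) x))).fderiv
  have sb : ball (g x) (1 / 2) ⊆ ball (B.H0 : ℂ) 1 := fun H k => by
    have : ‖g x - B.H0‖ ≤ 1 / 2 := (hW.inV x hx).2
    rw [mem_ball_iff_norm] at k ⊢
    linarith [norm_sub_le_norm_sub_add_norm_sub H (g x) (B.H0 : ℂ)]
  have b3 : ‖fderiv ℂ (fun H => F (x, H)) (g x)‖ ≤ m / (1 / 2) :=
    cauchy_fderiv (by norm_num) (dF.comp ((differentiableOn_const _).prodMk differentiableOn_id)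
      fun H k => ⟨hx, sb k⟩) fun H k => hm H (sb k)
  have e2 : fderiv ℂ F (x, g x) (0, fderiv ℂ g x w) =
      fderiv ℂ (fun H => F (x, H)) (g x) (fderiv ℂ g x w) :=
    (congrArg (· (fderiv ℂ g x w)) (HasFDerivAt.comp (f := fun H => (x, H)) (g x) F1
      (hasFDerivAt_prodMk_right x (g x))).fderiv).symm
  rw [e, e2]
  refine (norm_add_le _ _).trans ((add_le_add b1 ((ContinuousLinearMap.le_opNorm _ _).trans
    (mul_le_mul b3 b2 (norm_nonneg _) ((norm_nonneg _).trans b3)))).trans_eq ?_)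
  ring

/-- Work on `X × ℂ` with `S (x, H) = Smat B (toV η ε x, H)` on `ball 0 2 ×ˢ ball H0 1`.  Chain rule:
the direction is `(w, 0) + (0, dH)`.  First part: `Mm_fderiv`, `KerOK.comm` (decay from
`SH0.qv_spec`), `fPQ_bound`, `KerOK.xi`, `wn_toV` (the sum over the two circles is `wn`).  Second
part: `cauchy_fderiv` in `H` on the ball of radius `1/2` with `WinOK.sup`, and `KerOK.Hins`;
`nA ≤ n² ε beta n` and `nB ≤ n²` because `ε ≤ 1`, `beta ≤ 1`. -/
theorem Mx_fderiv (hK : KerOK B η C) (K : ℝ) : ∃ K1 ≥ 1, ∀ ε lam c cut θ : ℝ,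
    WinX B η ε lam c cut C K θ → ∀ j n, cut < wc lam j n → ∀ x ∈ ball (0 : X) 2,
    ∀ σ ∈ ball (wc lam j n : ℂ) (c / (2 * wc lam j n)), ∀ (w : X) (p : ℤ), |p| = n →
      ‖fderiv ℂ (fun x => Mx B η ε lam x σ j n p p) x w‖ ≤
        K1 * (n ^ 2 * ε * beta η.1 n * Real.exp (3 / 4 * η.1 * n)) * (ε * sg1 η.1 w) ∧
      ‖fderiv ℂ (fun x => Mx B η ε lam x σ j n p (-p)) x w‖ ≤
        K1 * (n ^ 2 * Real.exp (3 / 4 * η.1 * (2 * n))) * (ε * sg1 η.1 w) := by
  have h0 := η.2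
  have C1 := hK.one_le
  obtain ⟨Kf, K1, hf⟩ := fPQ_bound (η1 := 7 / 8 * η.1) (η2 := 3 / 4 * η.1) (by positivity)
    (by linarith)
  have q1 : 0 ≤ 2 * C * Kf * K ^ 2 := by positivity
  have q2 : 0 ≤ 4 * C * K ^ 2 := by positivity
  refine ⟨1 + 2 * C * Kf * K ^ 2 + 4 * C * K ^ 2, by linarith,
    fun ε lam c cut θ hX j n h x hx σ hσ w p hp => ?_⟩
  have hW := hX.toWinOK
  have e0 := hW.ε_pos
  have e1 := hX.ε_le
  have k1 := hW.one_le
  obtain ⟨κ, D, Λ, hΛ, sh⟩ := hW.sh j n h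
  have s := sh x hx _ (zOf_mem hW hx).2 σ hσ
  have p' : |-p| = n := by rw [abs_neg, hp]
  have f := hf _ _ _ _ _ _ _ _ _ _ s p hp
  have b0 := beta_pos η.1 n
  have b1 := hiq_beta_le h0 n
  have b2 := beta_pos η.1 (2 * n)
  have b3 := hiq_beta_le h0 (2 * n)
  have wn1 := wn_toV (η := η) e0.le w
  have g0 : 0 ≤ ε * sg1 η.1 w := mul_nonneg e0.le (tsum_nonneg fun b =>
    mul_nonneg (norm_nonneg _) (mul_pos (beta_pos _ _) (ex_pos _ _)).le)
  have fin : ∀ {t a m N : ℝ}, t ≤ C * (a + 2 * m) * wn (3 / 4 * η.1) (toV η ε w) → 0 ≤ a → 0 ≤ m →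
      0 ≤ N → a ≤ Kf * K ^ 2 * N → m ≤ K ^ 2 * N →
      t ≤ (1 + 2 * C * Kf * K ^ 2 + 4 * C * K ^ 2) * N * (ε * sg1 η.1 w) :=
    fun {t a m N} ht a0 m0 N0 ha hm => by
      calc t ≤ C * (Kf * K ^ 2 * N + 2 * (K ^ 2 * N)) * (2 * ε * sg1 η.1 w) := by
            refine ht.trans ((mul_le_mul_of_nonneg_left wn1 (by positivity)).trans ?_)
            refine mul_le_mul_of_nonneg_right ?_ (by linarith)
            gcongr
        _ = (2 * C * Kf * K ^ 2 + 4 * C * K ^ 2) * N * (ε * sg1 η.1 w) := by ring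
        _ ≤ _ := by gcongr; linarith
  have KK : K ≤ K ^ 2 := by nlinarith
  have L0 : 0 ≤ Λ := by linarith [s.one_le_Λ]
  have x1 : 1 ≤ Real.exp (3 / 4 * η.1 * n) := Real.one_le_exp (by positivity)
  have x2 : 1 ≤ Real.exp (3 / 4 * η.1 * (2 * n)) := Real.one_le_exp (by positivity)
  constructor
  · refine fin (hiq_main hK hW h hx hσ w hp hp (fun i k => (f i k).1)
      fun H hH => (hW.sup j n h x hx H hH σ hσ p hp).1) (by positivity)
      (mul_nonneg (by linarith) (nA_pos e0 s.n_pos).le) (by positivity) ?_ ?_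
    · calc _ ≤ Kf * K * n * (K * (ε * n * beta η.1 n)) * Real.exp (3 / 4 * η.1 * n) := by gcongr
        _ = _ := by ring
    · refine mul_le_mul KK ?_ (nA_pos e0 s.n_pos).le (by positivity)
      calc _ = n ^ 2 * ε * beta η.1 n * (ε * beta η.1 n) := by unfold nA; ring
        _ ≤ _ := by gcongr; nlinarith
  · refine fin (hiq_main hK hW h hx hσ w hp p' (fun i k => (f i k).2)
      fun H hH => (hW.sup j n h x hx H hH σ hσ p hp).2) (by positivity)
      (mul_nonneg (by linarith) (nB_pos e0 s.n_pos).le) (by positivity) ?_ ?_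
    · calc _ ≤ Kf * K ^ 2 * n ^ 2 * Real.exp (3 / 4 * η.1 * (2 * n)) := by
            gcongr; linarith
        _ = _ := by ring
    · refine mul_le_mul KK ?_ (nB_pos e0 s.n_pos).le (by positivity)
      calc _ = n ^ 2 * (ε * beta η.1 (2 * n)) := by unfold nB; ring
        _ ≤ _ := by gcongr; nlinarith

end StekIso
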