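import Pool.Agent.Lib.MP_fa022d_an.Defs4
import Pool.Agent.Lib.MP_fa022d_an.Ev
import Pool.Agent.Lib.MP_fa022d_an.Four3

open Set Filter Topology Metric BoundedContinuousFunction Complex

noncomputable section
namespace StekIso
variable {η : Pos}

theorem kera_dd (x : A1 η) : ‖dd η x‖ ≤ K2 η / 128 * ‖x‖ :=
  WAlg.norm_le_of_coeff _ (mul_nonneg (by linarith [one_le_K2 η]) (norm_nonneg _)) fun p => by
    rw [coeff_dd]; exact norm_ddc_le x p

theorem kera_z (v : A1 η) :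
    dd η (NormedSpace.exp (I • v)) - 1 = dd η (NormedSpace.exp (I • v) - 1) := by
  rw [map_sub, dd_one]

theorem kera_base {v : A1 η} (hv : ‖v‖ < 1 / K2 η) :
    ‖dd η (NormedSpace.exp (I • v)) - 1‖ ≤ 1 / 4 ∧
    ‖dd η (NormedSpace.exp (I • v)) - 1‖ ≤ K2 η * ‖v‖ ∧ ‖dd η (I • v)‖ ≤ K2 η * ‖v‖ ∧
    ‖dd η (NormedSpace.exp (I • v)) - 1 - dd η (I • v)‖ ≤ K2 η * ‖v‖ ^ 2 := by
  have K1 := one_le_K2 η
  have v0 := norm_nonneg v
  have kv : K2 η * ‖v‖ < 1 := by
    rw [lt_div_iff₀ (by linarith)] at hv; linarith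
  have v1 : ‖v‖ ≤ 1 := by nlinarith
  have nI : ‖I • v‖ = ‖v‖ := by rw [norm_smul, norm_I, one_mul]
  have e3 : Real.exp ‖v‖ ≤ 3 :=
    (Real.exp_le_exp.2 v1).trans (by linarith [Real.exp_one_lt_d9])
  have a := norm_exp_sub_one_le (I • v)
  have b := norm_exp_sub_one_sub_le (I • v)
  rw [nI] at a b
  have a' : ‖NormedSpace.exp (I • v) - 1‖ ≤ ‖v‖ * 3 := a.trans (by gcongr)
  have b' : ‖NormedSpace.exp (I • v) - 1 - I • v‖ ≤ ‖v‖ ^ 2 * 3 := b.trans (by gcongr)
  have c : ‖dd η (NormedSpace.exp (I • v) - 1)‖ ≤ K2 η / 128 * (‖v‖ * 3) :=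
    (kera_dd _).trans (by gcongr)
  have d : ‖dd η (NormedSpace.exp (I • v) - 1 - I • v)‖ ≤ K2 η / 128 * (‖v‖ ^ 2 * 3) :=
    (kera_dd _).trans (by gcongr)
  have e := kera_dd (I • v)
  have k0 : 0 ≤ K2 η * ‖v‖ := by positivity
  have k2 : 0 ≤ K2 η * ‖v‖ ^ 2 := by positivity
  rw [nI] at e
  rw [kera_z, ← map_sub]
  exact ⟨by linarith, by linarith, by linarith, by linarith⟩

theorem Lco_basic (η : Pos) : ∃ C ≥ 1, DifferentiableOn ℂ (Lco : A1 η → A2 η) (ball 0 (1 / K2 η)) ∧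
    ∀ v : A1 η, ‖v‖ < 1 / K2 η → ‖dd η (NormedSpace.exp (I • v)) - 1‖ ≤ 1 / 4 ∧
      ‖Lco v‖ ≤ C * ‖v‖ := by
  have K1 := one_le_K2 η
  refine ⟨2 * K2 η, by linarith, ?_, fun v hv => ?_⟩
  · have h : Differentiable ℂ fun v : A1 η => dd η (NormedSpace.exp (I • v)) - 1 := fun v =>
      (((dd η).differentiableAt).comp v
        (((NormedSpace.exp_analytic (𝕂 := ℂ) (I • v)).differentiableAt).comp v
          (differentiableAt_id.const_smul I))).sub_const 1
    exact diffOn_logA.comp h.differentiableOn fun v hv => mem_ball_zero_iff.2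
      ((kera_base (mem_ball_zero_iff.1 hv)).1.trans_lt (by norm_num))
  · obtain ⟨a, b, -, -⟩ := kera_base hv
    refine ⟨a, (norm_logA_le (a.trans (by norm_num))).1.trans ?_⟩
    linarith

theorem kera_beta (r : ℝ) {a b : ℤ} (h : |a| = |b|) : beta r a = beta r b := by
  have : |(a : ℝ)| = |(b : ℝ)| := by exact_mod_cast h
  simp only [beta, ex, br, this]

/-- same signs: linear term `ddc (I v)` -/
theorem Lco_off (η : Pos) : ∃ C ≥ 1, ∀ v : A1 η, ‖v‖ < 1 / K2 η → ∀ n : ℤ, n ≠ 0 →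
    ‖(Lco v).coeff (n, n) - I * Int.sign n * v.coeff (2 * n)‖ ≤
      C * ‖v‖ ^ 2 * beta η.1 (2 * n) := by
  have K1 := one_le_K2 η
  refine ⟨2 * K2 η ^ 2, by nlinarith, fun v hv n hn => ?_⟩
  obtain ⟨a, b, -, d⟩ := kera_base hv
  have l := (norm_logA_le (a.trans (by norm_num))).2.1
  have e : (dd η (I • v)).coeff (n, n) = I * Int.sign n * v.coeff (2 * n) := by
    rw [coeff_dd, ddc, WAlg.coeff_smul, two_mul]
    rcases lt_or_gt_of_ne hn with h | h
    · rw [if_neg (by simp only; omega), if_pos ⟨h, h⟩, Int.sign_eq_neg_one_of_neg h]; simp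
    · rw [if_pos ⟨h.le, h.le⟩, Int.sign_eq_one_of_pos h]; simp
  have w : W2 η.1 (n, n) = beta η.1 (2 * n) := by
    rw [W2, if_pos (mul_self_nonneg n)]
    exact kera_beta _ (by simp only [abs_eq_max_neg]; omega)
  rw [← e, ← WAlg.coeff_sub, ← w]
  refine (norm_coeff2_le _ _).trans (mul_le_mul_of_nonneg_right ?_ (W2_pos _ _).le)
  unfold Lco
  generalize dd η (NormedSpace.exp (I • v)) - 1 = z at *
  have t := norm_sub_le_norm_sub_add_norm_sub (logA z) z (dd η (I • v))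
  have p : ‖z‖ ^ 2 ≤ (K2 η * ‖v‖) ^ 2 := by gcongr
  have q : K2 η * ‖v‖ ^ 2 ≤ K2 η ^ 2 * ‖v‖ ^ 2 := by gcongr; nlinarith
  rw [mul_pow] at p
  linarith

theorem kera_ind (l u : ℤ) (X : ℂ) : HasSum (fun a : ℤ => if l ≤ a ∧ a ≤ u then X else 0)
    ((if l ≤ u then (u + 1 - l : ℂ) else 0) * X) := by
  have h := hasSum_sum_of_ne_finset_zero (L := SummationFilter.unconditional ℤ)
    (f := fun a : ℤ => if l ≤ a ∧ a ≤ u then X else 0)
    (s := Finset.Icc l u) fun a ha => if_neg (by simpa using ha)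
  convert h using 1
  rw [Finset.sum_congr rfl fun a ha => if_pos (Finset.mem_Icc.1 ha), Finset.sum_const,
    nsmul_eq_mul]
  congr 1
  split_ifs with e
  · have : (((Finset.Icc l u).card : ℕ) : ℤ) = u + 1 - l := by rw [Int.card_Icc]; omega
    exact_mod_cast this.symm
  · rw [Finset.Icc_eq_empty e]; simp

theorem kera_sq (v : A1 η) {n : ℤ} (hn : 1 ≤ n) :
    (dd η (I • v) * dd η (I • v)).coeff (n, -n) =
      2 * ∑' a : ℤ, (if 1 ≤ a then (a : ℂ) else 0) * (v.coeff (n + a) * v.coeff (-n - a)) := by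
  let q : ℤ × ℤ ≃ ℤ × ℤ :=
    { toFun := fun p => (p.2, p.1 - p.2), invFun := fun p => (p.1 + p.2, p.1),
      left_inv := fun p => by simp, right_inv := fun p => by simp }
  let g : ℤ → ℂ := fun k =>
    (if n + 1 ≤ k then (k - n : ℂ) else 0) * (v.coeff k * v.coeff (-k))
  have h0 := q.hasSum_iff.2 (WAlg.summable_conv (dd η (I • v)) (dd η (I • v)) (n, -n)).hasSum
  rw [← WAlg.coeff_mul] at h0
  have h1 : HasSum (fun k => g k + g (-k)) _ := h0.prod_fiberwise fun k => by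
    convert (kera_ind (n + 1) k (v.coeff k * v.coeff (-k))).add
      (kera_ind (k + n) (-1) (v.coeff k * v.coeff (-k))) using 1
    · funext a
      have e1 : a + (k - a) = k := by ring
      have e2 : n - a + (-n - (k - a)) = -k := by ring
      simp only [q, Function.comp_apply, Equiv.coe_fn_mk, coeff_dd, ddc, WAlg.coeff_smul,
        Prod.mk_sub_mk, e1, e2]
      split_ifs <;> first | omega | (ring_nf; done) | (ring_nf; simp)
    · simp only [g, neg_neg]
      split_ifs <;> first | omega | (push_cast; ring)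
  have h2 : Summable g := (h1.summable.indicator {k | 0 ≤ k}).congr fun k => by
    simp only [Set.indicator, Set.mem_ofPred_eq, g]
    split_ifs <;> first | omega | simp
  have h3 := h2.hasSum.add ((Equiv.neg ℤ).hasSum_iff.2 h2.hasSum)
  rw [h1.unique h3, ← two_mul, ← (Equiv.addLeft n).tsum_eq]
  congr 1
  refine tsum_congr fun a => ?_
  have e : -(n + a) = -n - a := by ring
  simp only [g, Equiv.coe_addLeft, e]
  split_ifs <;> first | omega | (push_cast; ring)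

/-- opposite signs: `z = dd (exp (I v)) - 1` has no such entries, `-(z * z) / 2` gives the sum -/
theorem Lco_diag (η : Pos) : ∃ C ≥ 1, ∀ v : A1 η, ‖v‖ < 1 / K2 η → ∀ n : ℤ, 1 ≤ n →
    ‖(Lco v).coeff (n, -n) +
      ∑' a : ℤ, (if 1 ≤ a then (a : ℂ) else 0) * (v.coeff (n + a) * v.coeff (-n - a))‖ ≤
      C * ‖v‖ ^ 3 * beta η.1 n ^ 2 := by
  have K1 := one_le_K2 η
  refine ⟨2 * K2 η ^ 3, by linarith [one_le_pow₀ (n := 3) K1], fun v hv n hn => ?_⟩
  obtain ⟨a, b, c, d⟩ := kera_base hv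
  have l := (norm_logA_le (a.trans (by norm_num))).2.2
  have z0 : (dd η (NormedSpace.exp (I • v)) - 1).coeff (n, -n) = 0 := by
    rw [kera_z, coeff_dd, ddc, if_neg (by simp only; omega), if_neg (by simp only; omega)]
  have w : W2 η.1 (n, -n) = beta η.1 n ^ 2 := by
    rw [W2, if_neg (by simp only; nlinarith), sq]
    exact congrArg _ (kera_beta _ (abs_neg n))
  have s := kera_sq v hn
  unfold Lco
  generalize dd η (NormedSpace.exp (I • v)) - 1 = z at *
  generalize dd η (I • v) = y at *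
  have e : (logA z).coeff (n, -n) +
      ∑' a : ℤ, (if 1 ≤ a then (a : ℂ) else 0) * (v.coeff (n + a) * v.coeff (-n - a)) =
      (logA z - z + (1 / 2 : ℂ) • (y * y)).coeff (n, -n) := by
    rw [WAlg.coeff_add, WAlg.coeff_sub, WAlg.coeff_smul, s, z0]; ring
  rw [e, ← w]
  refine (norm_coeff2_le _ _).trans (mul_le_mul_of_nonneg_right ?_ (W2_pos _ _).le)
  have f : logA z - z + (1 / 2 : ℂ) • (y * y) =
      logA z - z + (1 / 2 : ℂ) • (z * z) - (1 / 2 : ℂ) • ((z - y) * (z + y)) := by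
    have : (z - y) * (z + y) = z * z - y * y := by ring
    rw [this, smul_sub]; abel
  have m : ‖(z - y) * (z + y)‖ ≤ K2 η * ‖v‖ ^ 2 * (K2 η * ‖v‖ + K2 η * ‖v‖) :=
    (norm_mul_le _ _).trans (mul_le_mul d ((norm_add_le _ _).trans (add_le_add b c))
      (norm_nonneg _) (by positivity))
  have p : ‖z‖ ^ 3 ≤ (K2 η * ‖v‖) ^ 3 := by gcongr
  have q : K2 η ^ 2 * ‖v‖ ^ 3 ≤ K2 η ^ 3 * ‖v‖ ^ 3 := by gcongr; norm_num
  have h : ‖(1 / 2 : ℂ)‖ = 1 / 2 := by norm_num
  rw [f]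
  refine (norm_sub_le _ _).trans ?_
  rw [norm_smul, h]
  rw [mul_pow] at p
  linarith

theorem kera_pow {z : A2 η} (h : ∀ a b, z.coeff (a, b) = z.coeff (b, a)) (m : ℕ) (a b : ℤ) :
    (z ^ (m + 1)).coeff (a, b) = (z ^ (m + 1)).coeff (b, a) := by
  induction m generalizing a b with
  | zero => simpa using h a b
  | succ m ih =>
    rw [pow_succ, WAlg.coeff_mul, WAlg.coeff_mul, ← (Equiv.prodComm ℤ ℤ).tsum_eq]
    refine tsum_congr fun p => ?_
    obtain ⟨c, d⟩ := p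
    simp only [Equiv.prodComm_apply, Prod.swap_prod_mk, Prod.mk_sub_mk]
    rw [ih, h]

theorem Lco_symm (v : A1 η) (hv : ‖v‖ < 1 / K2 η) (a b : ℤ) :
    (Lco v).coeff (a, b) = (Lco v).coeff (b, a) := by
  have s := ev_log_sum ((kera_base hv).1.trans (by norm_num))
  have h (a b : ℤ) : (dd η (NormedSpace.exp (I • v)) - 1).coeff (a, b) =
      (dd η (NormedSpace.exp (I • v)) - 1).coeff (b, a) := by
    simp only [kera_z, coeff_dd, ddc, add_comm a b, and_comm]
  refine (s.mapL (WAlg.coeffL (a, b))).unique ?_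
  convert s.mapL (WAlg.coeffL (b, a)) using 2 with m
  · simp only [WAlg.coeffL_apply, WAlg.coeff_smul, kera_pow h m a b]
  · rfl

/-- pointwise meaning on the closed strip -/
theorem Lco_ev (v : A1 η) (hv : ‖v‖ < 1 / K2 η) {s t : ℂ} (hs : |s.im| ≤ η.1)
    (ht : |t.im| ≤ η.1) : ∃ Q : ℂ, ‖Q - 1‖ ≤ 1 / 2 ∧ fs2 (Lco v).coeff s t = log Q ∧
      Q = fs2 (ddc (NormedSpace.exp (I • v)).coeff) s t ∧
      Q * (exp (I * s) - exp (I * t)) =
        exp (I * (s + fs v.coeff s)) - exp (I * (t + fs v.coeff t)) := by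
  obtain ⟨χ, c0, c1, cm⟩ := exists_ev2 hs ht
  obtain ⟨a, b⟩ := char_logA χ c1 cm ((kera_base hv).1.trans (by norm_num))
  rw [map_sub, c1] at a b
  have e : χ (dd η (NormedSpace.exp (I • v))) =
      fs2 (ddc (NormedSpace.exp (I • v)).coeff) s t := by
    rw [c0]; congr 1; exact funext (coeff_dd _)
  have f {r : ℂ} (hr : |r.im| ≤ η.1) : exp (I * r) * fs (NormedSpace.exp (I • v)).coeff r =
      exp (I * (r + fs v.coeff r)) := by
    obtain ⟨ψ, d0, d1, dm⟩ := exists_ev1 hr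
    rw [← d0, ← d0, char_exp ψ d1 dm, map_smul, smul_eq_mul, ← exp_add, mul_add]
  refine ⟨_, a, by rw [← c0, Lco, b, add_sub_cancel], e, ?_⟩
  rw [e, ← f hs, ← f ht]
  refine (fs2_ddc hs ht ?_).2
  generalize NormedSpace.exp (I • v) = x
  refine Summable.of_nonneg_of_le
    (fun k => mul_nonneg (mul_nonneg (norm_nonneg _) (br_pos k).le) (Real.exp_pos _).le)
    (fun k => ?_) (ev_summ_br.mul_left (‖x‖ / 128))
  have b1 := one_le_br k
  have u : ex η.1 k * Real.exp (η.1 * |(k : ℝ)|) = 1 := by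
    rw [ex, ← Real.exp_add, neg_mul, neg_add_cancel, Real.exp_zero]
  calc _ ≤ ‖x‖ / 128 * beta η.1 k * br k * Real.exp (η.1 * |(k : ℝ)|) := by
        gcongr; exact norm_coeff1_le x k
    _ = ‖x‖ / 128 * (ex η.1 k * Real.exp (η.1 * |(k : ℝ)|) / br k ^ 3) := by
        rw [beta]; field_simp
    _ ≤ _ := by rw [u]; gcongr; norm_num

end StekIso
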