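import Pool.Agent.Lib.MP_fa022d_an.KerA
import Pool.Agent.Lib.MP_fa022d_an.KerB

open Set Filter Topology Metric BoundedContinuousFunction Complex

noncomputable section
namespace StekIso

theorem kerc_ex {x y : ℝ} (h : x ≤ y) (k : ℤ) : ex y k ≤ ex x k :=
  Real.exp_le_exp.2 (by nlinarith [abs_nonneg (k : ℝ)])

theorem kerc_mul (x y : ℝ) (k : ℤ) : ex x k * ex y k = ex (x + y) k := by
  rw [ex, ex, ex, ← Real.exp_add]; congr 1; ring

theorem kerc_abs (k : ℤ) : |(k : ℝ)| ≤ br k := by unfold br; linarith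

theorem kerc_neg (η t : ℝ) (k : ℤ) : rowS η t (-k) = rowS η t k := by
  simp [rowS, beta, ex, br]

theorem kerc_dom {B : Base} {η : Pos} {z : V η × ℂ} (h : z ∈ dom B η (δK B η)) :
    ‖z.1‖ ≤ η.1 / 2 ∧ ‖z.1‖ < 1 / K2 η ∧ ‖z.1‖ ≤ 1 ∧ z.2 ∈ ball (B.H0 : ℂ) 1 := by
  have a : ‖z.1‖ < δK B η := mem_ball_zero_iff.1 h.1
  have b := a.trans_le ((min_le_right _ _).trans (min_le_left _ _))
  have k := one_le_K2 η
  exact ⟨a.le.trans (min_le_left _ _), b, b.le.trans ((div_le_one (by linarith)).2 k), h.2⟩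

theorem kerc_row_pos (η : ℝ) {t : ℝ} (ht : 0 ≤ t) (k : ℤ) : 0 < rowS η t k := by
  have := br_pos k
  have := beta_pos η k
  have := ex_pos (2 * η) k
  unfold rowS; positivity

theorem kerc_row_le {η t : ℝ} (hη : 0 ≤ η) (h1 : t ≤ 1) (k : ℤ) :
    rowS η t k ≤ 2 * ex (7 / 8 * η) k := by
  have b := one_le_br k
  have e := ex_pos η k
  have a : br k * beta η k ≤ ex η k := by
    rw [beta, mul_div_assoc', div_le_iff₀ (by positivity), mul_comm]
    exact mul_le_mul_of_nonneg_left (le_self_pow₀ b (by norm_num)) e.le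
  have c := kerc_ex (show 7 / 8 * η ≤ η by linarith) k
  have d := kerc_ex (show 7 / 8 * η ≤ 2 * η by linarith) k
  have p : 0 ≤ br k * beta η k := (mul_pos (br_pos k) (beta_pos η k)).le
  have := mul_le_of_le_one_left p h1
  rw [rowS, mul_assoc]; linarith

/-- majorant of `ex (4 η) a' * ‖Eco v a' a‖` for `‖v‖ ≤ t` -/
def kercM (η t : ℝ) (a a' : ℤ) : ℝ := (if a' = a then ex (4 * η) a else 0) +
  t * br a * beta η a * (br a' ^ 4 * ex (5 / 2 * η) a')

theorem kerc_M0 (η : ℝ) {t : ℝ} (ht : 0 ≤ t) (a a' : ℤ) : 0 ≤ kercM η t a a' := by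
  have := br_pos a
  have := br_pos a'
  have := beta_pos η a
  have := ex_pos (4 * η) a
  have := ex_pos (5 / 2 * η) a'
  unfold kercM; split_ifs <;> positivity

theorem kerc_Eco {η : Pos} {v : A1 η} {t : ℝ} (hv : ‖v‖ ≤ η.1 / 2) (ht : ‖v‖ ≤ t) (a a' : ℤ) :
    ex (4 * η.1) a' * ‖Eco v a' a‖ ≤ kercM η.1 t a a' := by
  have h := (Eco_bd v hv a' a).1
  have e := ex_pos (4 * η.1) a'
  have q : ex (4 * η.1) a' * ex (-(3 / 2 * η.1)) a' = ex (5 / 2 * η.1) a' := by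
    rw [kerc_mul]; congr 1; ring
  have p : 0 ≤ beta η.1 a * (br a' ^ 4 * ex (-(3 / 2 * η.1)) a') :=
    (mul_pos (beta_pos _ _) (mul_pos (pow_pos (br_pos _) _) (ex_pos _ _))).le
  have k : ‖Eco v a' a‖ ≤ (if a = a' then 1 else 0) +
      t * br a * (beta η.1 a * (br a' ^ 4 * ex (-(3 / 2 * η.1)) a')) := by
    refine (norm_le_insert' _ (if a = a' then 1 else 0 : ℂ)).trans (add_le_add ?_ (h.trans ?_))
    · split_ifs <;> simp
    · rw [mul_assoc (_ * _)]
      exact mul_le_mul_of_nonneg_right (mul_le_mul ht (kerc_abs a) (abs_nonneg _)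
        ((norm_nonneg _).trans ht)) p
  refine (mul_le_mul_of_nonneg_left k e.le).trans (le_of_eq ?_)
  rw [kercM, ← q]
  rcases eq_or_ne a a' with rfl | n
  · simp only [if_true]; ring
  · rw [if_neg n, if_neg n.symm]; ring

theorem kerc_sum {η : ℝ} (hη : 0 < η) : ∃ G ≥ 1, ∀ t ≥ 0, ∀ a,
    Summable (kercM η t a) ∧ ∑' a', kercM η t a a' ≤ G * rowS η t a := by
  have s := summable_ex (show 0 < 5 / 2 * η by positivity) 4
  refine ⟨max 1 (∑' k, br k ^ 4 * ex (5 / 2 * η) k), le_max_left _ _, fun t ht a => ?_⟩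
  have h := (hasSum_ite_eq a (ex (4 * η) a)).add (s.hasSum.mul_left (t * br a * beta η a))
  refine ⟨h.summable, h.tsum_eq.trans_le ?_⟩
  have p : 0 ≤ t * br a * beta η a := mul_nonneg (mul_nonneg ht (br_pos a).le) (beta_pos η a).le
  have b := mul_le_mul_of_nonneg_left (le_max_right 1 (∑' k, br k ^ 4 * ex (5 / 2 * η) k)) p
  have c := le_mul_of_one_le_left (ex_pos (2 * η) a).le
    (le_max_left 1 (∑' k, br k ^ 4 * ex (5 / 2 * η) k))
  have d := kerc_ex (show 2 * η ≤ 4 * η by linarith) a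
  rw [rowS]; linarith

theorem kerc_term {B : Base} {C0 : ℝ} (hB : BaseOK B C0) {η : Pos} (hη : 12 * η.1 ≤ B.η0)
    {z : V η × ℂ} (h : z ∈ dom B η (δK B η)) {t : ℝ} (ht : ‖z.1‖ ≤ t) (i j : Bool) (a b : ℤ)
    (p : ℤ × ℤ) : ‖S0 B z.2 i j p * (Eco (z.1 i) p.1 a * Eco (z.1 j) p.2 b)‖ ≤
      C0 * (kercM η.1 t a p.1 * kercM η.1 t b p.2) := by
  obtain ⟨h1, -, -, h4⟩ := kerc_dom h
  have n := norm_le_pi_norm z.1
  have c : 0 ≤ C0 := by linarith [hB.one_le]
  have e (k : ℤ) := kerc_ex (show 4 * η.1 ≤ B.η0 / 3 by linarith) k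
  have s := (hB.bd _ h4 i j p).trans (mul_le_mul_of_nonneg_left
    (mul_le_mul (e p.1) (e p.2) (ex_pos _ _).le (ex_pos _ _).le) c)
  rw [norm_mul, norm_mul]
  refine (mul_le_mul_of_nonneg_right s (by positivity)).trans ?_
  rw [mul_assoc, mul_mul_mul_comm]
  exact mul_le_mul_of_nonneg_left (mul_le_mul (kerc_Eco ((n i).trans h1) ((n i).trans ht) a p.1)
    (kerc_Eco ((n j).trans h1) ((n j).trans ht) b p.2) (mul_nonneg (ex_pos _ _).le (norm_nonneg _))
    (kerc_M0 _ ((norm_nonneg _).trans ht) _ _)) c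

theorem kerc_prod {η t : ℝ} (hη : 0 < η) (ht : 0 ≤ t) (a b : ℤ) :
    HasSum (fun p : ℤ × ℤ => kercM η t a p.1 * kercM η t b p.2)
      ((∑' k, kercM η t a k) * ∑' k, kercM η t b k) := by
  obtain ⟨G, -, h⟩ := kerc_sum hη
  have a1 := (h t ht a).1
  have b1 := (h t ht b).1
  exact a1.hasSum.mul b1.hasSum (a1.mul_of_nonneg b1 (kerc_M0 η ht a) (kerc_M0 η ht b))

theorem kerc_S {B : Base} {C0 : ℝ} (hB : BaseOK B C0) {η : Pos} (hη : 12 * η.1 ≤ B.η0) :
    ∃ C ≥ 0, ∀ z ∈ dom B η (δK B η), ∀ i j a b,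
      ‖kerS B z.1 z.2 i j a b‖ ≤ C * (rowS η.1 ‖z.1‖ a * rowS η.1 ‖z.1‖ b) := by
  obtain ⟨G, g, h⟩ := kerc_sum η.2
  have c : 0 ≤ C0 := by linarith [hB.one_le]
  refine ⟨C0 * (G * G), by positivity, fun z hz i j a b => ?_⟩
  have n := norm_nonneg z.1
  refine (tsum_of_norm_bounded ((kerc_prod η.2 n a b).mul_left C0)
    (kerc_term hB hη hz le_rfl i j a b)).trans ?_
  rw [mul_assoc, mul_mul_mul_comm]
  have := kerc_row_pos η.1 n a
  exact mul_le_mul_of_nonneg_left (mul_le_mul (h _ n a).2 (h _ n b).2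
    (tsum_nonneg (kerc_M0 _ n b)) (by positivity)) c

theorem kerc_R (η : Pos) : ∃ C ≥ 0, ∀ v : A1 η, ‖v‖ < 1 / K2 η → ∀ t, ‖v‖ ≤ t → ∀ a b,
    ‖kerR v a b‖ ≤ C * (rowS η.1 t b * ex (7 / 8 * η.1) a) := by
  obtain ⟨C, c, -, h⟩ := Lco_basic η
  obtain ⟨K, k, l⟩ := br_pow_ex_le (show 7 / 8 * η.1 < η.1 by linarith [η.2]) 1
  refine ⟨C * K, by positivity, fun v hv t ht a b => ?_⟩
  have t0 := (norm_nonneg _).trans ht
  have p : ‖(a * b / Real.pi : ℂ)‖ ≤ br a * br b := by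
    rw [norm_div, norm_mul, norm_intCast, norm_intCast, norm_real, Real.norm_of_nonneg Real.pi_pos.le]
    exact (div_le_self (by positivity) (by linarith [Real.two_le_pi])).trans
      (mul_le_mul (kerc_abs a) (kerc_abs b) (abs_nonneg _) (br_pos a).le)
  have q : ‖(Lco v).coeff (a, b)‖ ≤ C * t * (beta η.1 b * ex η.1 a) :=
    (norm_coeff2_le _ _).trans (mul_le_mul ((h v hv).2.trans (by gcongr)) (W2_le (a, b)).1
      (W2_pos _ _).le (by positivity))
  have r := l a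
  rw [pow_one] at r
  have b0 := br_pos b
  have a0 := br_pos a
  have b1 := beta_pos η.1 b
  have e := ex_pos (7 / 8 * η.1) a
  have u : t * br b * beta η.1 b ≤ rowS η.1 t b := le_add_of_nonneg_right (ex_pos _ _).le
  rw [kerR, norm_mul]
  calc _ ≤ br a * br b * (C * t * (beta η.1 b * ex η.1 a)) :=
        mul_le_mul p q (norm_nonneg _) (by positivity)
    _ = C * (t * br b * beta η.1 b) * (br a * ex η.1 a) := by ring
    _ ≤ C * rowS η.1 t b * (K * ex (7 / 8 * η.1) a) := by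
        have := kerc_row_pos η.1 t0 b
        have := ex_pos η.1 a
        gcongr
    _ = _ := by ring

theorem Smat_diff {B : Base} {C0 : ℝ} (hB : BaseOK B C0) {η : Pos} (hη : 12 * η.1 ≤ B.η0) (b c : Idx) :
    DifferentiableOn ℂ (fun z => Smat B z b c) (dom B η (δK B η)) := by
  have pj (j : Bool) : Differentiable ℂ fun z : V η × ℂ => z.1 j := by fun_prop
  obtain ⟨C, -, d, -⟩ := Lco_basic η
  refine (DifferentiableOn.add ?_ (diffOn_tsum (isOpen_ball.prod isOpen_ball)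
    ((kerc_prod η.2 zero_le_one b.2 (-c.2)).mul_left C0).summable (fun p => ?_)
    fun p z hz => kerc_term hB hη hz (kerc_dom hz).2.2.1 b.1 c.1 b.2 (-c.2) p).1).const_mul _
  · split_ifs
    · exact ((WAlg.coeffL (b.2, -c.2)).differentiable.comp_differentiableOn
        (d.comp (pj b.1).differentiableOn fun z hz => mem_ball_zero_iff.2
          ((norm_le_pi_norm z.1 b.1).trans_lt (kerc_dom hz).2.1))).const_mul _
    · exact differentiableOn_const _
  · exact ((hB.diff b.1 c.1 p).comp differentiableOn_snd fun z hz => hz.2).mul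
      (((Eco_diff p.1 b.2).comp (pj b.1)).mul
        ((Eco_diff p.2 (-c.2)).comp (pj c.1))).differentiableOn

theorem Smat_row {B : Base} {C0 : ℝ} (hB : BaseOK B C0) {η : Pos} (hη : 12 * η.1 ≤ B.η0) : ∃ C ≥ 1,
    (∀ z ∈ dom B η (δK B η), Crude (7 / 8 * η.1) C (Smat B z)) ∧
    ∀ z ∈ dom B η (δK B η), ∀ b c,
      ‖Smat B z b c‖ ≤ C * rowS η.1 ‖z.1‖ c.2 * ex (7 / 8 * η.1) b.2 := by
  obtain ⟨S, s0, s⟩ := kerc_S hB hη
  obtain ⟨R, r0, r⟩ := kerc_R η
  have key : ∀ z ∈ dom B η (δK B η), ∀ b c, ‖Smat B z b c‖ ≤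
      8 * (R + 2 * S) * (rowS η.1 ‖z.1‖ c.2 * ex (7 / 8 * η.1) b.2) := fun z hz b c => by
    obtain ⟨-, h2, h3, -⟩ := kerc_dom hz
    have n := norm_le_pi_norm z.1 b.1
    have p := kerc_row_pos η.1 (norm_nonneg z.1) c.2
    have e := ex_pos (7 / 8 * η.1) b.2
    have u := r _ (n.trans_lt h2) _ n b.2 (-c.2)
    have v := s z hz b.1 c.1 b.2 (-c.2)
    rw [kerc_neg] at u v
    have w := mul_le_mul_of_nonneg_left (mul_le_mul_of_nonneg_right
      (kerc_row_le η.2.le h3 b.2) p.le) s0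
    have x : ‖if b.1 = c.1 then kerR (z.1 b.1) b.2 (-c.2) else 0‖ ≤
        R * (rowS η.1 ‖z.1‖ c.2 * ex (7 / 8 * η.1) b.2) := by
      split_ifs
      · exact u
      · rw [norm_zero]; positivity
    have y : ‖(2 * Real.pi : ℂ)‖ ≤ 8 := by
      rw [norm_mul, norm_real, Real.norm_of_nonneg Real.pi_pos.le, Complex.norm_two]
      linarith [Real.pi_le_four]
    rw [Smat, norm_mul, mul_assoc]
    exact mul_le_mul y ((norm_add_le _ _).trans (by linarith)) (norm_nonneg _) (by norm_num)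
  have q : 0 ≤ 8 * (R + 2 * S) := by positivity
  refine ⟨2 * (8 * (R + 2 * S)) + 1, by linarith, fun z hz b c => (key z hz b c).trans ?_,
    fun z hz b c => (key z hz b c).trans ?_⟩
  · have e := ex_pos (7 / 8 * η.1) b.2
    have := mul_pos e (ex_pos (7 / 8 * η.1) c.2)
    have := mul_le_mul_of_nonneg_left (mul_le_mul_of_nonneg_right
      (kerc_row_le η.2.le (kerc_dom hz).2.2.1 c.2) e.le) q
    linarith
  · rw [mul_assoc (_ + _)]
    exact mul_le_mul_of_nonneg_right (by linarith)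
      (mul_pos (kerc_row_pos _ (norm_nonneg _) _) (ex_pos _ _)).le

theorem Smat_bsym {B : Base} {C0 : ℝ} (hB : BaseOK B C0) {η : Pos} (hη : 12 * η.1 ≤ B.η0) :
    ∀ z ∈ dom B η (δK B η), BSym (Smat B z) := by
  rintro z hz ⟨i, a⟩ ⟨j, b⟩
  obtain ⟨-, h2, -, h4⟩ := kerc_dom hz
  simp only [Smat, ng, neg_neg]
  congr 2
  · rcases eq_or_ne i j with rfl | n
    · rw [if_pos rfl, if_pos rfl, kerR, kerR, Lco_symm _ ((norm_le_pi_norm z.1 i).trans_lt h2),
        mul_comm (a : ℂ)]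
    · rw [if_neg n, if_neg n.symm]
  · rw [kerS, kerS, ← (Equiv.prodComm ℤ ℤ).tsum_eq]
    refine tsum_congr fun p => ?_
    rw [mul_comm (Eco (z.1 j) _ _), hB.sym _ h4 j i p.1 p.2]
    rfl

end StekIso
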