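import Pool.Agent.Lib.MP_fa022d_an.KerA
import Pool.Agent.Lib.MP_fa022d_an.KerB

open Set Filter Topology Metric BoundedContinuousFunction Complex

noncomputable section
namespace StekIso

theorem kerd_alg {S S' d1 d2 E1 E2 L1 L2 : ℂ} {s r1 r2 x y t h : ℝ} (t1 : t ≤ 1)
    (x0 : 0 ≤ x) (y0 : 0 ≤ y) (t0 : 0 ≤ t) (p1 : 0 ≤ r1) (p2 : 0 ≤ r2)
    (hS : ‖S‖ ≤ s) (hS0 : ‖S'‖ ≤ s) (hS' : ‖S - S'‖ ≤ 2 * s * h)
    (a1 : ‖d1‖ ≤ x * r1) (a2 : ‖d2‖ ≤ x * r2) (b1 : ‖E1 - d1‖ ≤ y * r1) (b2 : ‖E2 - d2‖ ≤ y * r2)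
    (c1 : ‖E1 - d1 - L1‖ ≤ t * y * r1) (c2 : ‖E2 - d2 - L2‖ ≤ t * y * r2) :
    ‖S' * (L1 * L2)‖ ≤ 4 * y ^ 2 * (s * (r1 * r2)) ∧
      ‖S * (E1 * E2) - S' * (L1 * L2)‖ ≤
        8 * (y ^ 2 * (t + h) + (y + x) * x) * (s * (r1 * r2)) := by
  have s0 := (norm_nonneg _).trans hS
  have m : ∀ {a b : ℂ} {u v : ℝ}, ‖a‖ ≤ u → ‖b‖ ≤ v → ‖a * b‖ ≤ u * v := fun ha hb => by
    rw [norm_mul]
    exact mul_le_mul ha hb (norm_nonneg _) ((norm_nonneg _).trans ha)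
  have l : ∀ {E d L : ℂ} {r : ℝ}, 0 ≤ r → ‖E - d‖ ≤ y * r → ‖E - d - L‖ ≤ t * y * r →
      ‖L‖ ≤ 2 * y * r := fun {E d L r} hr a b => by
    have := norm_sub_le (E - d) (E - d - L)
    rw [sub_sub_cancel] at this
    nlinarith [mul_nonneg y0 hr]
  have l1 := l p1 b1 c1
  have l2 := l p2 b2 c2
  refine ⟨(m hS0 (m l1 l2)).trans (le_of_eq (by ring)), ?_⟩
  have e : S * (E1 * E2) - S' * (L1 * L2) = S * (d1 * d2) + S * (d1 * (E2 - d2)) +
      S * ((E1 - d1) * d2) + S * ((E1 - d1 - L1) * (E2 - d2)) + S * (L1 * (E2 - d2 - L2)) +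
      (S - S') * (L1 * L2) := by ring
  rw [e]
  refine (norm_add_le_of_le (norm_add_le_of_le (norm_add_le_of_le (norm_add_le_of_le
    (norm_add_le_of_le (m hS (m a1 a2)) (m hS (m a1 b2))) (m hS (m b1 a2))) (m hS (m c1 b2)))
    (m hS (m l1 c2))) (m hS' (m l1 l2))).trans ?_
  have q : 0 ≤ s * (r1 * r2) := by positivity
  have q1 : 0 ≤ x * x * (s * (r1 * r2)) := by positivity
  have q2 : 0 ≤ x * y * (s * (r1 * r2)) := by positivity
  have q3 : 0 ≤ t * y ^ 2 * (s * (r1 * r2)) := by positivity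
  nlinarith

theorem kerd_ex {a b : ℝ} (h : a ≤ b) (k : ℤ) : ex b k ≤ ex a k :=
  Real.exp_le_exp.2 (mul_le_mul_of_nonneg_right (neg_le_neg h) (abs_nonneg _))

theorem kerd_add (a b : ℝ) (k : ℤ) : ex a k * ex b k = ex (a + b) k := by
  rw [ex, ex, ex, ← Real.exp_add]
  congr 1
  ring

theorem kerd_eco {η : Pos} {v : A1 η} {t : ℝ} (hv : ‖v‖ ≤ t) (ht : t ≤ η.1 / 2) {a n : ℤ}
    (e : |(a : ℝ)| = |(n : ℝ)|) (a' : ℤ) :
    ‖(if a = a' then 1 else 0 : ℂ)‖ ≤ ex (2 * η.1) n * (br a' ^ 5 * ex (-(2 * η.1)) a') ∧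
    ‖Eco v a' a - (if a = a' then 1 else 0)‖ ≤
      t * |(n : ℝ)| * beta η.1 n * (br a' ^ 5 * ex (-(2 * η.1)) a') ∧
    ‖Eco v a' a - (if a = a' then 1 else 0) - a * I * v.coeff (a - a')‖ ≤
      t * (t * |(n : ℝ)| * beta η.1 n) * (br a' ^ 5 * ex (-(2 * η.1)) a') := by
  obtain ⟨b1, b2⟩ := Eco_bd v (hv.trans ht) a' a
  have eb : beta η.1 a = beta η.1 n := by simp only [beta, ex, br, e]
  have u : ex (-(3 / 2 * η.1)) a' ≤ ex (-(2 * η.1)) a' := kerd_ex (by linarith [η.2]) a'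
  have v0 := norm_nonneg v
  have t0 := v0.trans hv
  have := beta_pos η.1 n
  have := ex_pos (-(3 / 2 * η.1)) a'
  have := br_pos a'
  rw [e, eb] at b1 b2
  refine ⟨?_, b1.trans ?_, b2.trans ?_⟩
  · split_ifs with k
    · subst k
      have : ex (2 * η.1) n = ex (2 * η.1) a := by simp only [ex, e]
      rw [this, mul_left_comm, kerd_add, add_neg_cancel, norm_one, ex, neg_zero, zero_mul,
        Real.exp_zero, mul_one]
      exact one_le_pow₀ (one_le_br a)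
    · have := ex_pos (2 * η.1) n
      have := ex_pos (-(2 * η.1)) a'
      rw [norm_zero]
      positivity
  · have : br a' ^ 4 ≤ br a' ^ 5 := pow_le_pow_right₀ (one_le_br a') (by norm_num)
    gcongr
  · rw [← mul_assoc t, ← mul_assoc t, ← sq]
    gcongr

theorem kerd_summ {η : Pos} (v : A1 η) {n : ℤ} (hn : 1 ≤ n) : Summable fun a : ℤ =>
    (if 1 ≤ a then (a : ℂ) else 0) * (v.coeff (n + a) * v.coeff (-n - a)) := by
  refine .of_norm_bounded (ev_summ_br.mul_left (‖v‖ / 128 * (‖v‖ / 128))) fun a => ?_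
  have p := br_pos a
  have K : 0 ≤ ‖v‖ / 128 := by positivity
  split_ifs with h
  · have b : ∀ k : ℤ, beta η.1 k ≤ 1 / br k ^ 4 := fun k =>
      div_le_div_of_nonneg_right (Real.exp_le_one_iff.2
        (mul_nonpos_of_nonpos_of_nonneg (neg_nonpos.2 η.2.le) (abs_nonneg _)))
        (pow_pos (br_pos k) 4).le
    have h1 : (1 : ℝ) ≤ a := by exact_mod_cast h
    have h2 : (1 : ℝ) ≤ n := by exact_mod_cast hn
    have c1 : ‖(a : ℂ)‖ ≤ br a := by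
      rw [Complex.norm_intCast, br]
      linarith
    have c2 : br a ≤ br (n + a) := by
      simp only [br]
      push_cast
      rw [abs_of_pos (by linarith), abs_of_pos (by linarith)]
      linarith
    have c3 : ‖v.coeff (n + a)‖ ≤ ‖v‖ / 128 * (1 / br a ^ 3) :=
      (norm_coeff1_le v _).trans (mul_le_mul_of_nonneg_left ((b _).trans
        (one_div_le_one_div_of_le (pow_pos p 3) ((pow_le_pow_right₀ (one_le_br a)
          (by norm_num)).trans (pow_le_pow_left₀ p.le c2 4)))) K)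
    have c4 : ‖v.coeff (-n - a)‖ ≤ ‖v‖ / 128 * 1 :=
      (norm_coeff1_le v _).trans (mul_le_mul_of_nonneg_left ((b _).trans
        ((div_le_one (pow_pos (br_pos _) 4)).2 (one_le_pow₀ (one_le_br _)))) K)
    rw [norm_mul, norm_mul]
    refine (mul_le_mul c1 (mul_le_mul c3 c4 (norm_nonneg _) (by positivity)) (by positivity)
      p.le).trans (le_of_eq ?_)
    field_simp
  · rw [zero_mul, norm_zero]
    positivity

theorem kerd_Q (B : Base) (j : Bool) {c : ℤ → ℂ} {n : ℤ}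
    (h1 : Summable fun a : ℤ => (if 1 ≤ a then (a : ℂ) else 0) * (c (n + a) * c (-n - a)))
    (h2 : Summable fun p : ℤ × ℤ => S0 B B.H0 j j p * (c (n - p.1) * c (-n - p.2))) :
    Qform B j c n = ∑' a : ℤ, (if 1 ≤ a then (a : ℂ) else 0) * (c (n + a) * c (-n - a)) +
      Real.pi * ∑' p : ℤ × ℤ, S0 B B.H0 j j p * (c (n - p.1) * c (-n - p.2)) := by
  have i : Function.Injective fun a : ℤ => (a, a) := fun a b h => congrArg Prod.fst h
  have k1 := (i.hasSum_iff (f := fun p : ℤ × ℤ =>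
    (if p.1 = p.2 ∧ 1 ≤ p.1 then (p.1 : ℂ) else 0) * (c (n + p.1) * c (-n - p.2)))
    fun p hp => by rw [if_neg fun k => hp ⟨p.1, Prod.ext rfl k.1⟩, zero_mul]).1
    (h1.hasSum.congr_fun fun a => by simp only [Function.comp, true_and])
  have k2 := (((Equiv.neg ℤ).prodCongr (Equiv.refl ℤ)).hasSum_iff.2 h2.hasSum).mul_left
    (Real.pi : ℂ)
  refine ((k1.add k2).congr_fun fun p => ?_).tsum_eq
  simp only [Qc, Function.comp, Equiv.prodCongr_apply, Prod.map, Equiv.neg_apply, Equiv.refl_apply,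
    sub_neg_eq_add]
  ring

theorem Smat_diag {B : Base} {C0 : ℝ} (hB : BaseOK B C0) {η : Pos} (hη : 12 * η.1 ≤ B.η0) : ∃ C ≥ 1,
    ∀ z ∈ dom B η (δK B η), ∀ j (n : ℤ), 1 ≤ n →
    ‖Smat B z (j, n) (j, n) - 2 * n ^ 2 * Qform B j (z.1 j).coeff n‖ ≤
      C * (n ^ 2 * beta η.1 n ^ 2 * ‖z.1‖ ^ 2 * (‖z.1‖ + ‖z.2 - B.H0‖) +
        rowS η.1 ‖z.1‖ n * ex (2 * η.1) n) := by
  obtain ⟨C1, C11, hL⟩ := Lco_diag η
  have C00 : 0 ≤ C0 := zero_le_one.trans hB.one_le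
  have sw : Summable fun k : ℤ => br k ^ 5 * ex (2 * η.1) k := summable_ex (by linarith [η.2]) 5
  have w0 : ∀ k : ℤ, 0 ≤ br k ^ 5 * ex (2 * η.1) k := fun k =>
    (mul_pos (pow_pos (br_pos k) 5) (ex_pos _ k)).le
  have sp := sw.mul_of_nonneg sw w0 w0
  obtain ⟨W, hW⟩ : ∃ W, W = ∑' p : ℤ × ℤ,
      br p.1 ^ 5 * ex (2 * η.1) p.1 * (br p.2 ^ 5 * ex (2 * η.1) p.2) := ⟨_, rfl⟩
  have W0 : 0 ≤ W := hW ▸ tsum_nonneg fun p => mul_nonneg (w0 _) (w0 _)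
  refine ⟨2 * C1 + 64 * C0 * W, by nlinarith [mul_nonneg C00 W0], fun z hz j n hn => ?_⟩
  have z1 : ‖z.1‖ < δK B η := mem_ball_zero_iff.1 hz.1
  have hv : ‖z.1 j‖ ≤ ‖z.1‖ := norm_le_pi_norm z.1 j
  have t1 : ‖z.1‖ ≤ η.1 / 2 := z1.le.trans (min_le_left _ _)
  have t2 : ‖z.1‖ < 1 / K2 η := z1.trans_le ((min_le_right _ _).trans (min_le_left _ _))
  have t3 : ‖z.1‖ ≤ 1 := t2.le.trans ((div_le_one (by linarith [one_le_K2 η])).2 (one_le_K2 η))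
  have n1 : (1 : ℝ) ≤ n := by exact_mod_cast hn
  have n0 : (n : ℂ) ≠ 0 := Int.cast_ne_zero.2 (by omega)
  have b0 := beta_pos η.1 n
  have x0 := ex_pos (2 * η.1) n
  have t0 := norm_nonneg z.1
  have h0 := norm_nonneg (z.2 - B.H0)
  obtain ⟨y, hy⟩ : ∃ y, y = ‖z.1‖ * |(n : ℝ)| * beta η.1 n := ⟨_, rfl⟩
  have y0 : 0 ≤ y := by rw [hy]; positivity
  have c0 : (B.H0 : ℂ) ∈ ball (B.H0 : ℂ) 1 := mem_ball_self one_pos
  have key : ∀ p : ℤ × ℤ,
      ‖S0 B B.H0 j j p * (n * I * (z.1 j).coeff (n - p.1) *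
        ((-n : ℤ) * I * (z.1 j).coeff (-n - p.2)))‖ ≤ 4 * y ^ 2 * C0 *
        (br p.1 ^ 5 * ex (2 * η.1) p.1 * (br p.2 ^ 5 * ex (2 * η.1) p.2)) ∧
      ‖S0 B z.2 j j p * (Eco (z.1 j) p.1 n * Eco (z.1 j) p.2 (-n)) -
        S0 B B.H0 j j p * (n * I * (z.1 j).coeff (n - p.1) *
        ((-n : ℤ) * I * (z.1 j).coeff (-n - p.2)))‖ ≤
        8 * (y ^ 2 * (‖z.1‖ + ‖z.2 - B.H0‖) + (y + ex (2 * η.1) n) * ex (2 * η.1) n) * C0 *
        (br p.1 ^ 5 * ex (2 * η.1) p.1 * (br p.2 ^ 5 * ex (2 * η.1) p.2)) := fun p => by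
    obtain ⟨a1, b1, c1⟩ := kerd_eco hv t1 (a := n) (n := n) rfl p.1
    obtain ⟨a2, b2, c2⟩ := kerd_eco hv t1 (a := -n) (n := n) (by rw [Int.cast_neg, abs_neg]) p.2
    have bd : ∀ H ∈ ball (B.H0 : ℂ) 1,
        ‖S0 B H j j p‖ ≤ C0 * (ex (4 * η.1) p.1 * ex (4 * η.1) p.2) := fun H hH =>
      (hB.bd H hH j j p).trans (mul_le_mul_of_nonneg_left (mul_le_mul
        (kerd_ex (by linarith) _) (kerd_ex (by linarith) _) (ex_pos _ _).le (ex_pos _ _).le) C00)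
    have lip := Complex.dist_le_div_mul_dist_of_mapsTo_ball (hB.diff j j p)
      (R₂ := 2 * (C0 * (ex (4 * η.1) p.1 * ex (4 * η.1) p.2))) (fun H hH => by
        rw [mem_closedBall_iff_norm]
        linarith [norm_sub_le (S0 B H j j p) (S0 B B.H0 j j p), bd H hH, bd _ c0]) hz.2
    rw [div_one, dist_eq_norm, dist_eq_norm] at lip
    rw [← hy] at b1 b2 c1 c2
    have r : ∀ k : ℤ, 0 ≤ br k ^ 5 * ex (-(2 * η.1)) k := fun k =>
      (mul_pos (pow_pos (br_pos k) 5) (ex_pos _ k)).le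
    have k := kerd_alg t3 x0.le y0 t0 (r _) (r _) (bd _ hz.2) (bd _ c0) lip a1 a2 b1 b2 c1 c2
    have e : ∀ k : ℤ, ex (2 * η.1) k = ex (4 * η.1) k * ex (-(2 * η.1)) k := fun k => by
      rw [kerd_add]
      congr 1
      ring
    rw [e p.1, e p.2]
    exact ⟨k.1.trans (le_of_eq (by ring)), k.2.trans (le_of_eq (by ring))⟩
  have e1 : ∀ p : ℤ × ℤ, S0 B B.H0 j j p * (n * I * (z.1 j).coeff (n - p.1) *
      ((-n : ℤ) * I * (z.1 j).coeff (-n - p.2))) = n ^ 2 *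
      (S0 B B.H0 j j p * ((z.1 j).coeff (n - p.1) * (z.1 j).coeff (-n - p.2))) := fun p => by
    push_cast
    linear_combination (-(S0 B B.H0 j j p * n ^ 2 * (z.1 j).coeff (n - p.1) *
      (z.1 j).coeff (-n - p.2))) * I_mul_I
  simp only [e1] at key
  have s1 := Summable.of_norm_bounded (sp.mul_left _) fun p => (key p).1
  have s2 := Summable.of_norm_bounded (sp.mul_left _) fun p => (key p).2
  have s3 := (s2.add s1).congr fun p => sub_add_cancel _ _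
  have s4 := (summable_mul_left_iff (pow_ne_zero 2 n0)).1 s1
  have d := tsum_of_norm_bounded (sp.mul_left _).hasSum fun p => (key p).2
  rw [s3.tsum_sub s1, tsum_mul_left, tsum_mul_left, ← hW] at d
  have l := hL (z.1 j) (hv.trans_lt t2) n hn
  have p0 : (Real.pi : ℂ) ≠ 0 := ofReal_ne_zero.2 Real.pi_ne_zero
  have e2 : ∀ L A K G : ℂ, 2 * Real.pi * ((n * (-n : ℤ) / Real.pi) * L + K) -
      2 * n ^ 2 * (A + Real.pi * G) = -(2 * n ^ 2) * (L + A) + 2 * Real.pi * (K - n ^ 2 * G) :=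
    fun L A K G => by
      push_cast
      field_simp
      ring
  rw [kerd_Q B j (kerd_summ _ hn) s4, Smat, if_pos rfl, kerR, kerS, e2]
  have m1 : ‖(-(2 * n ^ 2) : ℂ)‖ = 2 * n ^ 2 := by simp
  have m2 : ‖(2 * Real.pi : ℂ)‖ ≤ 8 := by
    have := Real.pi_le_four
    simp only [norm_mul, Complex.norm_ofNat, Complex.norm_real,
      Real.norm_of_nonneg Real.pi_pos.le]
    linarith
  have l' : C1 * ‖z.1 j‖ ^ 3 * beta η.1 n ^ 2 ≤ C1 * ‖z.1‖ ^ 3 * beta η.1 n ^ 2 := by gcongr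
  have ry : (y + ex (2 * η.1) n) * ex (2 * η.1) n ≤ rowS η.1 ‖z.1‖ n * ex (2 * η.1) n := by
    rw [hy, rowS, br]
    gcongr
    linarith
  have r0 : 0 ≤ (y + ex (2 * η.1) n) * ex (2 * η.1) n := by positivity
  have ey : y ^ 2 = n ^ 2 * beta η.1 n ^ 2 * ‖z.1‖ ^ 2 := by
    rw [hy, mul_pow, mul_pow, sq_abs]
    ring
  refine (norm_add_le _ _).trans ?_
  rw [norm_mul, norm_mul, m1, ← ey]
  refine (add_le_add (mul_le_mul_of_nonneg_left (l.trans l') (by positivity))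
    (mul_le_mul m2 d (norm_nonneg _) (by norm_num))).trans ?_
  have f1 : 2 * (n : ℝ) ^ 2 * (C1 * ‖z.1‖ ^ 3 * beta η.1 n ^ 2) = 2 * C1 * (y ^ 2 * ‖z.1‖) := by
    rw [ey]
    ring
  have f2 : 0 ≤ C1 * (y ^ 2 * ‖z.2 - B.H0‖) := by positivity
  have f3 := mul_nonneg (zero_le_one.trans C11) (r0.trans ry)
  have f4 := mul_le_mul_of_nonneg_left ry (mul_nonneg C00 W0)
  rw [f1]
  nlinarith

end StekIso
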