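import Pool.Agent.Lib.MP_fa022d_an.KerA
import Pool.Agent.Lib.MP_fa022d_an.KerB

open Set Filter Topology Metric BoundedContinuousFunction Complex

noncomputable section
namespace StekIso

theorem kere_mono {a b : ℝ} (h : a ≤ b) (k : ℤ) : ex b k ≤ ex a k :=
  Real.exp_le_exp.2 (mul_le_mul_of_nonneg_right (neg_le_neg h) (abs_nonneg _))

theorem kere_beta (η : ℝ) (n : ℤ) : beta η n ^ 2 ≤ beta η (2 * n) := by
  have e : ex η (2 * n) = ex η n ^ 2 := by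
    rw [ex, ex, sq, ← Real.exp_add]
    push_cast
    rw [abs_mul, abs_two]
    congr 1
    ring
  have b : br (2 * n) ≤ br n ^ 2 := by
    unfold br
    push_cast
    rw [abs_mul, abs_two]
    nlinarith [abs_nonneg (n : ℝ)]
  have p := br_pos (2 * n)
  rw [beta, beta, e, div_pow, ← pow_mul, mul_comm 4 2, pow_mul]
  gcongr

/-- size of the pulled back kernel -/
theorem kere_S {B : Base} {C0 : ℝ} (hB : BaseOK B C0) {η : Pos} (hη : 12 * η.1 ≤ B.η0) :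
    ∃ K > 0, ∀ z ∈ dom B η (δK B η), ∀ i j (a b : ℤ), ‖kerS B z.1 z.2 i j a b‖ ≤
      C0 * ((ex (4 * η.1) a + ‖z.1‖ * |(a : ℝ)| * beta η.1 a * K) *
        (ex (4 * η.1) b + ‖z.1‖ * |(b : ℝ)| * beta η.1 b * K)) := by
  obtain ⟨K, hK, hs⟩ := four2_K (η := 4 * η.1 + -(3 / 2 * η.1)) (by linarith [η.2]) 4
  refine ⟨K, hK, fun z hz i j a b => ?_⟩
  have hv : ‖z.1‖ ≤ η.1 / 2 := (mem_ball_zero_iff.1 hz.1).le.trans (min_le_left _ _)
  let g (a a' : ℤ) : ℝ := (if a' = a then ex (4 * η.1) a else 0) +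
    ‖z.1‖ * |(a : ℝ)| * beta η.1 a * (br a' ^ 4 * ex (4 * η.1 + -(3 / 2 * η.1)) a')
  have sg (a : ℤ) : HasSum (g a) (ex (4 * η.1) a + ‖z.1‖ * |(a : ℝ)| * beta η.1 a * K) :=
    (hasSum_ite_eq a _).add (hs.mul_left _)
  have bd (i) (a a' : ℤ) : ex (B.η0 / 3) a' * ‖Eco (z.1 i) a' a‖ ≤ g a a' := by
    have t := norm_le_pi_norm z.1 i
    have h := (Eco_bd (z.1 i) (t.trans hv) a' a).1
    have p := beta_pos η.1 a
    have q := br_pos a'
    have r := ex_pos (-(3 / 2 * η.1)) a'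
    have k : ‖Eco (z.1 i) a' a‖ ≤ (if a' = a then 1 else 0) +
        ‖z.1‖ * |(a : ℝ)| * beta η.1 a * (br a' ^ 4 * ex (-(3 / 2 * η.1)) a') := by
      refine (norm_le_insert' _ (if a = a' then 1 else 0)).trans (add_le_add (le_of_eq ?_)
        (h.trans (by gcongr)))
      by_cases e : a = a'
      · simp [e]
      · simp [e, Ne.symm e]
    refine (mul_le_mul (kere_mono (a := 4 * η.1) (by linarith) a') k (norm_nonneg _)
      (ex_pos _ _).le).trans (le_of_eq ?_)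
    simp only [g, ← four2_ex]
    split_ifs with e
    · rw [e]; ring
    · ring
  have g0 (a a' : ℤ) : 0 ≤ g a a' :=
    (mul_nonneg (ex_pos _ _).le (norm_nonneg _)).trans (bd i a a')
  refine tsum_of_norm_bounded (((sg a).mul (sg b)
    ((sg a).summable.mul_of_nonneg (sg b).summable (g0 a) (g0 b))).mul_left C0) fun p => ?_
  have c0 : 0 ≤ C0 := zero_le_one.trans hB.one_le
  rw [norm_mul, norm_mul]
  calc _ ≤ C0 * (ex (B.η0 / 3) p.1 * ex (B.η0 / 3) p.2) *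
        (‖Eco (z.1 i) p.1 a‖ * ‖Eco (z.1 j) p.2 b‖) :=
      mul_le_mul_of_nonneg_right (hB.bd _ hz.2 i j p) (by positivity)
    _ = C0 * ((ex (B.η0 / 3) p.1 * ‖Eco (z.1 i) p.1 a‖) *
        (ex (B.η0 / 3) p.2 * ‖Eco (z.1 j) p.2 b‖)) := by ring
    _ ≤ _ := mul_le_mul_of_nonneg_left (mul_le_mul (bd i a p.1) (bd j b p.2)
      (mul_nonneg (ex_pos _ _).le (norm_nonneg _)) (g0 _ _)) c0

theorem Smat_off {B : Base} {C0 : ℝ} (hB : BaseOK B C0) {η : Pos} (hη : 12 * η.1 ≤ B.η0) : ∃ C ≥ 1,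
    ∀ z ∈ dom B η (δK B η), ∀ j (n : ℤ), n ≠ 0 →
    ‖Smat B z (j, n) (j, -n) - 2 * I * n * |n| * (z.1 j).coeff (2 * n)‖ ≤
      C * (n ^ 2 * beta η.1 (2 * n) * ‖z.1‖ ^ 2 + rowS η.1 ‖z.1‖ n * ex (2 * η.1) n) := by
  obtain ⟨K, hK, hS⟩ := kere_S hB hη
  obtain ⟨C, hC, hL⟩ := Lco_off η
  have c0 : 0 ≤ C0 := zero_le_one.trans hB.one_le
  have pi := Real.pi_pos
  have D0 : 0 ≤ 2 * Real.pi * C0 * (1 + K) ^ 2 := by positivity
  refine ⟨2 * C + 2 * Real.pi * C0 * (1 + K) ^ 2, by linarith, fun z hz j n hn => ?_⟩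
  have t := norm_le_pi_norm z.1 j
  have l := hL (z.1 j) (t.trans_lt ((mem_ball_zero_iff.1 hz.1).trans_le
    ((min_le_right _ _).trans (min_le_left _ _)))) n hn
  have s := hS z hz j j n n
  have e : Smat B z (j, n) (j, -n) - 2 * I * n * |n| * (z.1 j).coeff (2 * n) =
      2 * n ^ 2 * ((Lco (z.1 j)).coeff (n, n) - I * Int.sign n * (z.1 j).coeff (2 * n)) +
        2 * Real.pi * kerS B z.1 z.2 j j n n := by
    have : (Real.pi : ℂ) ≠ 0 := ofReal_ne_zero.2 pi.ne'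
    simp only [Smat, kerR, neg_neg, if_true, ← Int.sign_mul_self_eq_abs n]
    push_cast
    field_simp
    ring
  rw [e]
  refine (norm_add_le _ _).trans ?_
  rw [norm_mul, norm_mul, norm_mul, norm_mul, norm_pow, Complex.norm_intCast, sq_abs,
    Complex.norm_real, Complex.norm_two, Real.norm_of_nonneg pi.le]
  have b1 := beta_pos η.1 n
  have b2 := beta_pos η.1 (2 * n)
  have x2 := ex_pos (2 * η.1) n
  have x4 := ex_pos (4 * η.1) n
  have x1 : ex (2 * η.1) n ≤ 1 := (kere_mono (a := 0) (by linarith [η.2]) n).trans (by simp [ex])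
  have xe : ex (4 * η.1) n = ex (2 * η.1) n * ex (2 * η.1) n := by
    rw [four2_ex]; congr 1; ring
  have a1 : 2 * (n : ℝ) ^ 2 * ‖(Lco (z.1 j)).coeff (n, n) - I * Int.sign n * (z.1 j).coeff (2 * n)‖ ≤
      2 * C * (n ^ 2 * beta η.1 (2 * n) * ‖z.1‖ ^ 2) :=
    calc _ ≤ 2 * (n : ℝ) ^ 2 * (C * ‖z.1‖ ^ 2 * beta η.1 (2 * n)) :=
        mul_le_mul_of_nonneg_left (l.trans (by gcongr)) (by positivity)
      _ = _ := by ring
  have u2 : (‖z.1‖ * |(n : ℝ)| * beta η.1 n) ^ 2 ≤ n ^ 2 * beta η.1 (2 * n) * ‖z.1‖ ^ 2 :=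
    calc _ = (n : ℝ) ^ 2 * beta η.1 n ^ 2 * ‖z.1‖ ^ 2 := by rw [mul_pow, mul_pow, sq_abs]; ring
      _ ≤ _ := by gcongr; exact kere_beta _ _
  have u1 : ‖z.1‖ * |(n : ℝ)| * beta η.1 n ≤ ‖z.1‖ * br n * beta η.1 n := by
    gcongr
    exact le_add_of_nonneg_left zero_le_one
  have u0 : 0 ≤ ‖z.1‖ * |(n : ℝ)| * beta η.1 n := by positivity
  have P0 : 0 ≤ (n : ℝ) ^ 2 * beta η.1 (2 * n) * ‖z.1‖ ^ 2 := by positivity
  rw [xe] at s
  rw [rowS]
  generalize ‖z.1‖ * |(n : ℝ)| * beta η.1 n = u at *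
  generalize ‖z.1‖ * br n * beta η.1 n = w at *
  generalize (n : ℝ) ^ 2 * beta η.1 (2 * n) * ‖z.1‖ ^ 2 = P at *
  generalize ex (2 * η.1) n = x at *
  have w0 : 0 ≤ w := u0.trans u1
  have a2 : (x * x + u * K) * (x * x + u * K) ≤ (1 + K) ^ 2 * (P + (w + x) * x) := by
    have h1 : x * x * (x * x) ≤ x * x := mul_le_of_le_one_right (by positivity) (by nlinarith)
    have h2 : x * x * u ≤ w * x := by
      rw [mul_comm]
      exact mul_le_mul u1 (mul_le_of_le_one_left x2.le x1) (by positivity) w0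
    have h3 := mul_le_mul_of_nonneg_left h2 hK.le
    have h4 := mul_le_mul_of_nonneg_left u2 (sq_nonneg K)
    have h5 : 0 ≤ w * x := by positivity
    have h6 : 0 ≤ x * x := by positivity
    nlinarith [mul_nonneg hK.le P0, mul_nonneg hK.le h6, mul_nonneg (sq_nonneg K) h5,
      mul_nonneg (sq_nonneg K) h6]
  have a3 := mul_le_mul_of_nonneg_left (s.trans (mul_le_mul_of_nonneg_left a2 c0))
    (show 0 ≤ 2 * Real.pi by positivity)
  have a4 : 0 ≤ 2 * C * ((w + x) * x) := by positivity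
  linarith

end StekIso
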