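import Pool.Agent.Lib.MP_fa022d_an.KerF
import Pool.Agent.Lib.MP_fa022d_an.KerC
import Pool.Agent.Lib.MP_fa022d_an.BaseK

open Set Filter Topology Metric BoundedContinuousFunction Complex

noncomputable section
namespace StekIso

theorem kerg_hd {ι : Type} {d : ι → ℂ} {k : ι → ℤ} (h0 : Summable fun i => ‖d i‖)
    (h1 : Summable fun i => ‖I * k i * d i‖) (s : ℝ) :
    HasDerivAt (fun s : ℝ => ∑' i, d i * exp (I * k i * s))
      (∑' i, I * k i * d i * exp (I * k i * s)) s := by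
  refine hasDerivAt_tsum (g := fun i (s : ℝ) => d i * exp (I * k i * s))
    (g' := fun i (s : ℝ) => I * k i * d i * exp (I * k i * s)) (y₀ := s) h1 (fun i y => ?_)
    (fun i y => ?_) (.of_norm_bounded h0 fun i => ?_) s
  · exact (((four2_hd (I * k i) y).comp_ofReal).const_mul (d i)).congr_deriv (by ring)
  · rw [norm_mul, (four1_norm _ _).1, mul_one]
  · rw [norm_mul, (four1_norm _ _).1, mul_one]

theorem kerg_d1 {c : ℤ × ℤ → ℂ} (h0 : Summable fun p => ‖c p‖)
    (h1 : Summable fun p : ℤ × ℤ => ‖I * p.1 * c p‖) (s t : ℝ) :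
    HasDerivAt (fun s : ℝ => fs2 c s t) (fs2 (fun p => I * p.1 * c p) s t) s := by
  have := kerg_hd (d := fun p : ℤ × ℤ => c p * exp (I * p.2 * t)) (k := Prod.fst)
    (by simpa only [norm_mul (c _), (four1_norm _ _).1, mul_one] using h0)
    (by simpa only [← mul_assoc, norm_mul (_ * c _), (four1_norm _ _).1, mul_one] using h1) s
  convert this using 1
  · funext s
    exact tsum_congr fun p => by ring
  · exact tsum_congr fun p => by ring

theorem kerg_d2 {c : ℤ × ℤ → ℂ} (h0 : Summable fun p => ‖c p‖)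
    (h1 : Summable fun p : ℤ × ℤ => ‖I * p.2 * c p‖) (s t : ℝ) :
    HasDerivAt (fun t : ℝ => fs2 c s t) (fs2 (fun p => I * p.2 * c p) s t) t := by
  have := kerg_hd (d := fun p : ℤ × ℤ => c p * exp (I * p.1 * s)) (k := Prod.snd)
    (by simpa only [norm_mul (c _), (four1_norm _ _).1, mul_one] using h0)
    (by simpa only [← mul_assoc, norm_mul (_ * c _), (four1_norm _ _).1, mul_one] using h1) t
  convert this using 1
  · funext s
    exact tsum_congr fun p => by ring
  · exact tsum_congr fun p => by ring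

theorem kerg_csq (x y : ℂ) :
    csq (x - y) = -(exp (I * x) * exp (I * y)) / (exp (I * x) - exp (I * y)) ^ 2 := by
  have e1 : exp (I * x) = exp (I * x / 2) ^ 2 := by rw [← Complex.exp_nat_mul]; congr 1; push_cast; ring
  have e2 : exp (I * y) = exp (I * y / 2) ^ 2 := by rw [← Complex.exp_nat_mul]; congr 1; push_cast; ring
  have e3 : exp ((x - y) / 2 * I) = exp (I * x / 2) / exp (I * y / 2) := by
    rw [← Complex.exp_sub]; congr 1; ring
  have e4 : exp (-((x - y) / 2) * I) = exp (I * y / 2) / exp (I * x / 2) := by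
    rw [← Complex.exp_sub]; congr 1; ring
  have n1 := Complex.exp_ne_zero (I * x / 2)
  have n2 := Complex.exp_ne_zero (I * y / 2)
  have e5 : 4 * sin ((x - y) / 2) ^ 2 =
      -(exp (I * x) - exp (I * y)) ^ 2 / (exp (I * x) * exp (I * y)) := by
    rw [Complex.sin, e3, e4, e1, e2, div_pow, mul_pow, I_sq]
    field_simp
    ring
  rw [csq, e5, one_div_div, div_neg, neg_div]

theorem kerg_sum {η : Pos} (z : A2 η) :
    Summable fun p : ℤ × ℤ => br p.1 * br p.2 * ‖z.coeff p‖ := by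
  have e := ex_pos η.1
  have b := br_pos
  refine .of_nonneg_of_le (fun p => by have := b p.1; have := b p.2; positivity) (fun p => ?_)
    (((summable_ex η.2 1).mul_of_nonneg (summable_ex η.2 1)
      (fun k => (mul_pos (pow_pos (b k) 1) (e k)).le)
      fun k => (mul_pos (pow_pos (b k) 1) (e k)).le).mul_left ‖z‖)
  have h := (norm_coeff2_le z p).trans (mul_le_mul_of_nonneg_left ((W2_le p).1.trans
    (mul_le_mul_of_nonneg_right (kerf_beta η.1 p.2) (e p.1).le)) (norm_nonneg z))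
  calc _ ≤ br p.1 * br p.2 * (‖z‖ * (ex η.1 p.2 * ex η.1 p.1)) :=
        mul_le_mul_of_nonneg_left h (mul_pos (b _) (b _)).le
    _ = _ := by ring

theorem kerg_mem {η : Pos} (s : ℝ) : |(s : ℂ).im| ≤ η.1 := by simpa using η.2.le

theorem kerg_Q {η : Pos} (v : A1 η) (hv : ‖v‖ < 1 / K2 η) (s t : ℝ) :
    exp (fs2 (Lco v).coeff s t) * (exp (I * s) - exp (I * t)) =
      exp (I * (s + fs v.coeff s)) - exp (I * (t + fs v.coeff t)) := by
  obtain ⟨Q, h1, h2, -, h3⟩ := Lco_ev v hv (kerg_mem s) (kerg_mem t)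
  rw [h2, exp_log, h3]
  rintro rfl
  norm_num at h1

theorem kerg_ne {η : Pos} (v : A1 η) (hv : ‖v‖ < 1 / K2 η) {s t : ℝ}
    (hst : exp (I * s) ≠ exp (I * t)) :
    exp (I * (s + fs v.coeff s)) ≠ exp (I * (t + fs v.coeff t)) :=
  sub_ne_zero.1 (kerg_Q v hv s t ▸ mul_ne_zero (exp_ne_zero _) (sub_ne_zero.2 hst))

theorem kerg_psi {η : Pos} (v : A1 η) (s : ℝ) :
    HasDerivAt (fun s : ℝ => exp (I * (s + fs v.coeff s)))
      (exp (I * (s + fs v.coeff s)) * (I * (1 + fs (dS v.coeff) s))) s :=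
  (((hasDerivAt_id (s : ℂ)).add ((fs_diff η.2 (kerf_ex v)).2.1 _
    (four3_mem0 η.2 s))).const_mul I).cexp.comp_ofReal

theorem kerg_e (s : ℝ) : HasDerivAt (fun s : ℝ => exp (I * s)) (exp (I * s) * I) s :=
  (four2_hd I s).comp_ofReal

/-- the round part is `-(1/π) ∂s ∂t log Q` -/
theorem kerR_ev {η : Pos} (v : A1 η) (hv : ‖v‖ < 1 / K2 η) (s t : ℝ)
    (hst : exp (I * s) ≠ exp (I * t)) :
    fs2 (fun p => kerR v p.1 p.2) s t = (csq (s - t) - (1 + fs (dS v.coeff) s) *
      (1 + fs (dS v.coeff) t) * csq (s + fs v.coeff s - (t + fs v.coeff t))) / Real.pi := by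
  have S := kerg_sum (Lco v)
  have n (k : ℤ) : ‖I * k‖ ≤ br k := by
    rw [norm_mul, norm_I, one_mul, Complex.norm_intCast]; exact kerc_abs k
  have b := one_le_br
  have s0 : Summable fun p => ‖(Lco v).coeff p‖ :=
    S.of_nonneg_of_le (fun _ => norm_nonneg _) fun p => le_mul_of_one_le_left (norm_nonneg _)
      (one_le_mul_of_one_le_of_one_le (b _) (b _))
  have s1 : Summable fun p : ℤ × ℤ => ‖I * p.2 * (Lco v).coeff p‖ :=
    S.of_nonneg_of_le (fun _ => norm_nonneg _) fun p => by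
      rw [norm_mul]
      exact mul_le_mul_of_nonneg_right ((n _).trans
        (le_mul_of_one_le_left (br_pos _).le (b _))) (norm_nonneg _)
  have s2 : Summable fun p : ℤ × ℤ => ‖I * p.1 * (I * p.2 * (Lco v).coeff p)‖ :=
    S.of_nonneg_of_le (fun _ => norm_nonneg _) fun p => by
      rw [← mul_assoc, norm_mul, norm_mul]
      exact mul_le_mul_of_nonneg_right (mul_le_mul (n _) (n _) (norm_nonneg _) (br_pos _).le)
        (norm_nonneg _)
  have first : ∀ s : ℝ, exp (I * s) ≠ exp (I * t) →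
      fs2 (fun p => I * p.2 * (Lco v).coeff p) s t =
        exp (I * t) * I / (exp (I * s) - exp (I * t)) -
          exp (I * (t + fs v.coeff t)) * (I * (1 + fs (dS v.coeff) t)) /
            (exp (I * (s + fs v.coeff s)) - exp (I * (t + fs v.coeff t))) := fun s h => by
    have d1 := (kerg_d2 s0 s1 s t).cexp.mul ((kerg_e t).const_sub (exp (I * s)))
    have d2 := (kerg_psi v t).const_sub (exp (I * (s + fs v.coeff s)))
    have e := d1.unique (d2.congr_of_eventuallyEq (.of_forall fun y => kerg_Q v hv s y))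
    have n1 := sub_ne_zero.2 h
    have n2 := exp_ne_zero (fs2 (Lco v).coeff s t)
    rw [← kerg_Q v hv s t]
    field_simp
    linear_combination e
  have ev : ∀ᶠ y : ℝ in 𝓝 s, exp (I * y) ≠ exp (I * t) :=
    (kerg_e s).continuousAt.eventually_ne hst
  have n1 := sub_ne_zero.2 hst
  have n2 := sub_ne_zero.2 (kerg_ne v hv hst)
  have d := ((hasDerivAt_const s (exp (I * t) * I)).fun_div
    ((kerg_e s).sub_const (exp (I * t))) n1).fun_sub
    ((hasDerivAt_const s (exp (I * (t + fs v.coeff t)) * (I * (1 + fs (dS v.coeff) t)))).fun_div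
      ((kerg_psi v s).sub_const (exp (I * (t + fs v.coeff t)))) n2)
  have e := (kerg_d1 s1 s2 s t).unique (d.congr_of_eventuallyEq (ev.mono first))
  have k : fs2 (fun p => kerR v p.1 p.2) s t =
      -fs2 (fun p : ℤ × ℤ => I * p.1 * (I * p.2 * (Lco v).coeff p)) s t / Real.pi := by
    rw [fs2, fs2, ← tsum_neg, ← tsum_div_const]
    refine tsum_congr fun p => ?_
    rw [kerR]
    linear_combination (p.1 * p.2 * (Lco v).coeff p * (exp (I * p.1 * s) * exp (I * p.2 * t)) /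
      Real.pi) * I_sq
  rw [k, e, kerg_csq, kerg_csq]
  congr 1
  field_simp
  ring_nf
  simp only [I_sq]
  ring

theorem kerg_R {η : Pos} (v : A1 η) :
    Summable fun p : ℤ × ℤ => ‖kerR v p.1 p.2‖ := by
  refine ((kerg_sum (Lco v)).div_const Real.pi).of_nonneg_of_le (fun _ => norm_nonneg _) fun p => ?_
  rw [kerR, norm_mul, norm_div, norm_mul, Complex.norm_intCast, Complex.norm_intCast, norm_real,
    Real.norm_of_nonneg Real.pi_pos.le, div_mul_eq_mul_div]
  have := kerc_abs p.1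
  have := kerc_abs p.2
  have := br_pos p.1
  have := Real.pi_pos
  gcongr

theorem kerg_M {η : ℝ} (hη : 0 < η) : Summable fun q : ℤ × ℤ => kercM η 1 q.1 q.2 := by
  obtain ⟨G, h1, h⟩ := kerc_sum hη
  refine (summable_prod_of_nonneg fun q => kerc_M0 η zero_le_one _ _).2
    ⟨fun a => (h 1 zero_le_one a).1, .of_nonneg_of_le
      (fun a => tsum_nonneg fun _ => kerc_M0 η zero_le_one _ _) (fun a => ?_)
      (((four3_sum (show 0 < 7 / 8 * η by positivity)).mul_left 2).mul_left G)⟩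
  exact (h 1 zero_le_one a).2.trans
    (mul_le_mul_of_nonneg_left (kerc_row_le hη.le le_rfl a) (by linarith))

theorem kerg_E {η : Pos} {v : A1 η} (hv : ‖v‖ ≤ η.1 / 2) (h1 : ‖v‖ ≤ 1) (a' : ℤ) (s : ℝ) :
    Summable fun a : ℤ => ‖Eco v a' a * exp (I * a * s)‖ := by
  refine four1_sum ((summable_mul_left_iff (ex_pos (4 * η.1) a').ne').1 ?_) s
  exact ((kerg_M η.2).prod_symm.prod_factor a').of_nonneg_of_le
    (fun a => mul_nonneg (ex_pos _ _).le (norm_nonneg _)) fun a => kerc_Eco hv h1 a a'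

theorem kerg_S {B : Base} {C0 : ℝ} (hB : BaseOK B C0) {η : Pos} (hη : 12 * η.1 ≤ B.η0)
    {z : V η × ℂ} (hz : z ∈ dom B η (δK B η)) (i j : Bool) :
    (Summable fun p : ℤ × ℤ => ‖kerS B z.1 z.2 i j p.1 p.2‖) ∧ ∀ s t : ℝ,
      fs2 (fun p => kerS B z.1 z.2 i j p.1 p.2) s t =
        (1 + fs (dS (z.1 i).coeff) s) * (1 + fs (dS (z.1 j).coeff) t) *
          fs2 (S0 B z.2 i j) (s + fs (z.1 i).coeff s) (t + fs (z.1 j).coeff t) := by
  obtain ⟨h1, -, h3, -⟩ := kerc_dom hz
  have M := (((kerg_M η.2).mul_of_nonneg (kerg_M η.2) (fun q => kerc_M0 _ zero_le_one _ _)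
    fun q => kerc_M0 _ zero_le_one _ _).mul_left C0).comp_injective
      (Equiv.prodProdProdComm ℤ ℤ ℤ ℤ).injective
  have N : Summable fun q : (ℤ × ℤ) × ℤ × ℤ =>
      ‖S0 B z.2 i j q.2 * (Eco (z.1 i) q.2.1 q.1.1 * Eco (z.1 j) q.2.2 q.1.2)‖ :=
    M.of_nonneg_of_le (fun _ => norm_nonneg _) fun q => kerc_term hB hη hz h3 i j _ _ q.2
  refine ⟨N.prod.of_nonneg_of_le (fun _ => norm_nonneg _) fun p =>
    norm_tsum_le_tsum_norm (N.prod_factor p), fun s t => ?_⟩
  have N' : Summable (Function.uncurry fun q p : ℤ × ℤ =>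
      S0 B z.2 i j p * (Eco (z.1 i) p.1 q.1 * Eco (z.1 j) p.2 q.2) *
        (exp (I * q.1 * s) * exp (I * q.2 * t))) := .of_norm_bounded N fun q => by
    rw [Function.uncurry, norm_mul, norm_mul (exp _), (four1_norm _ _).1, (four1_norm _ _).1,
      mul_one, mul_one]
  have n (k : Bool) := norm_le_pi_norm z.1 k
  simp only [fs2, kerS, ← tsum_mul_right]
  rw [← N'.tsum_comm, ← tsum_mul_left]
  refine tsum_congr fun p => ?_
  have e := tsum_mul_tsum_of_summable_norm (kerg_E ((n i).trans h1) ((n i).trans h3) p.1 s)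
    (kerg_E ((n j).trans h1) ((n j).trans h3) p.2 t)
  have e1 := Eco_ev (z.1 i) p.1 (four3_mem0 η.2 s)
  have e2 := Eco_ev (z.1 j) p.2 (four3_mem0 η.2 t)
  rw [fs] at e1 e2
  rw [e1, e2] at e
  calc _ = S0 B z.2 i j p * ∑' q : ℤ × ℤ, Eco (z.1 i) p.1 q.1 * exp (I * q.1 * s) *
        (Eco (z.1 j) p.2 q.2 * exp (I * q.2 * t)) := by
        rw [← tsum_mul_left]
        exact tsum_congr fun q => by ring
    _ = _ := by rw [← e]; ring

theorem Smat_sfun {B : Base} {C0 : ℝ} (hB : BaseOK B C0) {η : Pos} (hη : 12 * η.1 ≤ B.η0) :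
    ∀ z ∈ dom B η (δK B η), Smat B z = Sfun (thOf B z.1) z.2 := by
  intro z hz
  funext ⟨i, a⟩ ⟨j, b⟩
  obtain ⟨h1, h2, h3, h4⟩ := kerc_dom hz
  have hv : ‖z.1‖ < δK B η := mem_ball_zero_iff.1 hz.1
  have hi := (norm_le_pi_norm z.1 i).trans_lt h2
  have sR := kerg_R (z.1 i)
  obtain ⟨sS, eS⟩ := kerg_S hB hη hz i j
  have sI : Summable fun p : ℤ × ℤ => ‖if i = j then kerR (z.1 i) p.1 p.2 else 0‖ := by
    split_ifs
    · exact sR
    · simp
  have n (s t : ℝ) (p : ℤ × ℤ) (c : ℂ) :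
      ‖c * (exp (I * p.1 * s) * exp (I * p.2 * t))‖ = ‖c‖ := by
    rw [norm_mul, norm_mul, (four1_norm _ _).1, (four1_norm _ _).1, mul_one, mul_one]
  have := fc2_fs2 (c := fun p => (if i = j then kerR (z.1 i) p.1 p.2 else 0) +
      kerS B z.1 z.2 i j p.1 p.2) (K := fun s t => kerF (thOf B z.1) z.2 i j s t)
    ((sI.add sS).of_nonneg_of_le (fun _ => norm_nonneg _) fun p => norm_add_le _ _)
    (fun s t hst => ?_) a (-b)
  · exact congrArg (2 * (Real.pi : ℂ) * ·) this.symm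
  have ms := four3_mem0 η.2 s
  have mt := four3_mem0 η.2 t
  have up : ∀ {x : ℂ}, x ∈ strip (B.η0 / 6) → x ∈ strip (B.η0 / 3) := fun h =>
    lt_trans (b := B.η0 / 6) h (by linarith [B.η0_pos])
  have ev := hB.ev _ h4 i j _ (up (kerf_mem hη hv i ms)) _ (up (kerf_mem hη hv j mt))
    ((ne_or_eq i j).imp_right fun e : i = j => e ▸ kerg_ne _ hi hst)
  have sp : fs2 (fun p => (if i = j then kerR (z.1 i) p.1 p.2 else 0) +
      kerS B z.1 z.2 i j p.1 p.2) s t =
      fs2 (fun p => if i = j then kerR (z.1 i) p.1 p.2 else 0) s t +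
        fs2 (fun p => kerS B z.1 z.2 i j p.1 p.2) s t := by
    rw [fs2, fs2, fs2, ← Summable.tsum_add (.of_norm (by simpa only [n] using sI))
      (.of_norm (by simpa only [n] using sS))]
    exact tsum_congr fun p => add_mul _ _ _
  rw [sp, eS, ev, kerF, kerF, QQ, QQ, (kerf_hd hη hv i ms).deriv, (kerf_hd hη hv j mt).deriv]
  simp only [thOf]
  split_ifs with e
  · subst e
    rw [kerR_ev _ hi s t hst]
    ring
  · simp only [fs2, zero_mul, tsum_zero]
    ring

theorem Smat_rsym {B : Base} {C0 : ℝ} (hB : BaseOK B C0) {η : Pos} (hη : 12 * η.1 ≤ B.η0) :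
    ∀ z ∈ dom B η (δK B η), RealV z.1 → z.2.im = 0 → RSym (Smat B z) := by
  intro z hz hr hi
  have m := B.m_pos
  have mM := kerf_mM B
  obtain ⟨C, h⟩ := sfun_ok η.2 (half_pos m) (M := 2 * B.M) (by nlinarith [B.small, η.2])
  have e : z.2 = (z.2.re : ℂ) := Complex.ext rfl (by simpa using hi)
  have h2 : 2 ≤ z.2.re := by
    have := (abs_re_le_norm (z.2 - B.H0)).trans_lt (mem_ball_iff_norm.1 hz.2)
    rw [sub_re, ofReal_re, abs_lt] at this
    linarith [B.big]
  rw [Smat_sfun hB hη z hz, e]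
  exact (h _ (thOf_cmap hη z.1 (mem_ball_zero_iff.1 hz.1) hr) _ h2).2.2

end StekIso
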