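import Pool.Agent.Lib.MP_fa022d_an.KerA
import Pool.Agent.Lib.MP_fa022d_an.KerB

/-! Convolutions in one of two variables; the derivative of the logarithm. -/

open Set Filter Topology Metric BoundedContinuousFunction Complex

noncomputable section
namespace StekIso

theorem kerh_gen {f : ℤ → ℂ} {g : ℤ × ℤ → ℂ} (hf : Summable fun k => ‖f k‖)
    (hg : Summable fun p => ‖g p‖) :
    (Summable fun p : ℤ × ℤ => ‖conv f (fun c => g (c, p.2)) p.1‖) ∧
      ∑' p : ℤ × ℤ, conv f (fun c => g (c, p.2)) p.1 = (∑' k, f k) * ∑' p, g p := by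
  let e : (ℤ × ℤ) × ℤ ≃ ℤ × ℤ × ℤ :=
    ⟨fun x => (x.2, x.1.1 - x.2, x.1.2), fun y => ((y.1 + y.2.1, y.2.2), y.1),
      fun x => by simp, fun y => by simp⟩
  have S := e.summable_iff.2 (hf.mul_norm hg)
  refine ⟨Summable.of_nonneg_of_le (fun _ => norm_nonneg _)
    (fun p => norm_tsum_le_tsum_norm (S.prod_factor p)) S.prod, ?_⟩
  rw [tsum_mul_tsum_of_summable_norm hf hg, ← e.tsum_eq]
  exact (Summable.of_norm (f := fun x => f (e x).1 * g (e x).2) S).tsum_prod.symm

theorem kerh_e2 (p : ℤ × ℤ) (s t : ℝ) : ‖exp (I * p.1 * s) * exp (I * p.2 * t)‖ = 1 := by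
  rw [norm_mul, (four1_norm _ _).1, (four1_norm _ _).1, mul_one]

theorem kerh_s2 {m : ℤ × ℤ → ℂ} (hm : Summable fun p => ‖m p‖) (s t : ℝ) :
    Summable fun p : ℤ × ℤ => ‖m p * (exp (I * p.1 * s) * exp (I * p.2 * t))‖ := by
  simpa only [norm_mul (m _), kerh_e2, mul_one] using hm

theorem kerh_fs2 {ξ : ℤ → ℂ} {m : ℤ × ℤ → ℂ} (hξ : Summable fun k => ‖ξ k‖)
    (hm : Summable fun p => ‖m p‖) (s t : ℝ) :
    fs2 (fun p => conv ξ (fun c => m (c, p.2)) p.1) s t = fs ξ s * fs2 m s t := by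
  rw [fs, fs2, fs2, ← (kerh_gen (four1_sum hξ s) (kerh_s2 hm s t)).2]
  refine tsum_congr fun p => ?_
  rw [conv, conv, ← tsum_mul_right]
  refine tsum_congr fun h => ?_
  have : exp (I * p.1 * s) = exp (I * h * s) * exp (I * (p.1 - h : ℤ) * s) := by
    rw [← exp_add]; congr 1; push_cast; ring
  rw [this]; ring

theorem kerh_swap (m : ℤ × ℤ → ℂ) (s t : ℂ) : fs2 (fun p => m p.swap) s t = fs2 m t s := by
  rw [fs2, fs2, ← (Equiv.prodComm ℤ ℤ).tsum_eq]
  exact tsum_congr fun p => by simp [mul_comm]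

theorem kerh_add {m m' : ℤ × ℤ → ℂ} (hm : Summable fun p => ‖m p‖) (hm' : Summable fun p => ‖m' p‖)
    (s t : ℝ) : fs2 (fun p => m p + m' p) s t = fs2 m s t + fs2 m' s t := by
  simp only [fs2, add_mul]
  exact (kerh_s2 hm s t).of_norm.tsum_add (kerh_s2 hm' s t).of_norm

theorem kerh_der {m : ℤ × ℤ → ℂ} (hm : Summable fun p => ‖m p‖)
    (hm' : Summable fun p : ℤ × ℤ => ‖I * p.1 * m p‖) (s t : ℝ) :
    HasDerivAt (fun s : ℝ => fs2 m s t) (fs2 (fun p => I * p.1 * m p) s t) s := by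
  refine hasDerivAt_tsum (g' := fun (p : ℤ × ℤ) (s : ℝ) => I * p.1 * m p *
    (exp (I * p.1 * s) * exp (I * p.2 * t))) hm' (fun p y => ?_) (fun p y => ?_)
    (kerh_s2 hm s t).of_norm s
  · exact (((four2_hd (I * p.1) y).comp_ofReal.mul_const (exp (I * p.2 * t))).const_mul
      (m p)).congr_deriv (by ring)
  · rw [norm_mul, kerh_e2, mul_one]

theorem kerh_ex {η : ℝ} (hη : 0 < η) : Summable (ex η) := by simpa using summable_ex hη 0

theorem kerh_ex2 {η : ℝ} (hη : 0 < η) : Summable fun p : ℤ × ℤ => ex η p.1 * ex η p.2 :=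
  (kerh_ex hη).mul_of_nonneg (kerh_ex hη) (fun _ => (ex_pos _ _).le) fun _ => (ex_pos _ _).le

theorem kerh_le (k : ℤ) : ‖(k : ℂ)‖ ≤ br k := by
  rw [norm_intCast, br]; linarith

theorem kerh_ex1 {η : ℝ} (hη : 0 ≤ η) (k : ℤ) : ex η k ≤ 1 :=
  Real.exp_le_one_iff.2 (by have := abs_nonneg (k : ℝ); nlinarith)

variable {η : Pos}

theorem kerh_A2 (z : A2 η) (p : ℤ × ℤ) {x : ℂ} (h : ‖x‖ ≤ br p.1 * br p.2) :
    ‖x * z.coeff p‖ ≤ ‖z‖ * (ex η.1 p.1 * ex η.1 p.2) := by
  have a := one_le_br p.1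
  have b := one_le_br p.2
  have c := ex_pos η.1 p.1
  have d := ex_pos η.1 p.2
  rw [norm_mul]
  calc _ ≤ br p.1 ^ 2 * br p.2 ^ 2 *
        (‖z‖ * (ex η.1 p.1 / br p.1 ^ 2 * (ex η.1 p.2 / br p.2 ^ 2))) :=
        mul_le_mul (h.trans (by rw [← mul_pow]; nlinarith [one_le_mul_of_one_le_of_one_le a b]))
          ((norm_coeff2_le z p).trans (mul_le_mul_of_nonneg_left (ev_W2 _ p) (norm_nonneg _)))
          (norm_nonneg _) (by positivity)
    _ = _ := by field_simp

theorem kerh_sA (z : A2 η) : (Summable fun p => ‖z.coeff p‖) ∧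
    Summable fun p : ℤ × ℤ => ‖I * p.1 * z.coeff p‖ := by
  refine ⟨.of_nonneg_of_le (fun _ => norm_nonneg _) (fun p => ?_) ((kerh_ex2 η.2).mul_left ‖z‖),
    .of_nonneg_of_le (fun _ => norm_nonneg _) (fun p => kerh_A2 z p ?_)
      ((kerh_ex2 η.2).mul_left ‖z‖)⟩
  · simpa using kerh_A2 z p (x := 1) (by
      simpa using one_le_mul_of_one_le_of_one_le (one_le_br _) (one_le_br _))
  · rw [norm_mul, norm_I, one_mul]
    exact (kerh_le _).trans (le_mul_of_one_le_right (br_pos _).le (one_le_br _))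

theorem kerh_one {v : A1 η} (hv : ‖v‖ < 1 / K2 η) : ‖v‖ ≤ 1 :=
  hv.le.trans (div_le_one_of_le₀ (one_le_K2 η) (by linarith [one_le_K2 η]))

theorem kerh_xi (v w : A1 η) (hv : ‖v‖ ≤ 1) : Summable fun k => ‖xiC v w k‖ :=
  .of_nonneg_of_le (fun _ => norm_nonneg _) (xiC_eq v w hv).2.2.1 ((kerh_ex η.2).mul_left _)

theorem kerh_ev (v : A1 η) (hv : ‖v‖ < 1 / K2 η) (s t : ℝ) :
    exp (fs2 (Lco v).coeff s t) * (exp (I * s) - exp (I * t)) =
      exp (I * (s + fs v.coeff s)) - exp (I * (t + fs v.coeff t)) := by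
  obtain ⟨Q, h1, h2, -, h3⟩ := Lco_ev v hv (s := s) (t := t) (by simpa using η.2.le)
    (by simpa using η.2.le)
  rw [h2, exp_log (fun e => by norm_num [e] at h1), h3]

/-- the derivative of the identity in the first variable -/
theorem kerh_ds (v : A1 η) (hv : ‖v‖ < 1 / K2 η) (s t : ℝ) :
    exp (fs2 (Lco v).coeff s t) * fs2 (fun p => I * p.1 * (Lco v).coeff p) s t *
      (exp (I * s) - exp (I * t)) + exp (fs2 (Lco v).coeff s t) * (exp (I * s) * I) =
      exp (I * (s + fs v.coeff s)) * (I * (1 + fs (dS v.coeff) s)) := by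
  have h1 := (kerh_der (kerh_sA (Lco v)).1 (kerh_sA (Lco v)).2 s t).cexp.mul
    ((four2_hd I s).comp_ofReal.sub_const (exp (I * t)))
  have b (k) : ‖v.coeff k‖ ≤ ‖v‖ / 128 * ex η.1 k := (norm_coeff1_le v k).trans
    (mul_le_mul_of_nonneg_left (div_le_self (ex_pos _ _).le (one_le_pow₀ (one_le_br k)))
      (by positivity))
  have h2 := ((((hasDerivAt_id (s : ℂ)).add ((fs_diff η.2 b).2.1 s (by
    simpa [strip] using η.2))).const_mul I).cexp.comp_ofReal).sub_const
      (exp (I * (t + fs v.coeff t)))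
  exact h1.unique (h2.congr_of_eventuallyEq (.of_forall fun y => kerh_ev v hv y t))

/-- derivative of the logarithm: both sides have the same values off the diagonal -/
theorem kerh_log (v w : A1 η) (hv : ‖v‖ < 1 / K2 η) (a b : ℤ) :
    fderiv ℂ (fun v : A1 η => (Lco v).coeff (a, b)) v w =
      conv (xiC v w) (fun c => I * c * (Lco v).coeff (c, b)) a +
      conv (xiC v w) (fun c => I * c * (Lco v).coeff (a, c)) b + I * ddc (xiC v w) (a, b) := by
  obtain ⟨-, -, hd, -⟩ := Lco_basic η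
  have nb : ball (0 : A1 η) (1 / K2 η) ∈ 𝓝 v := isOpen_ball.mem_nhds (by simpa using hv)
  have hL := (hd.differentiableAt nb).hasFDerivAt
  have e : fderiv ℂ (fun v : A1 η => (Lco v).coeff (a, b)) v w =
      (fderiv ℂ Lco v w).coeff (a, b) := by
    rw [show (fun v : A1 η => (Lco v).coeff (a, b)) = WAlg.coeffL (a, b) ∘ Lco from rfl,
      ((WAlg.coeffL (a, b)).hasFDerivAt.comp v hL).fderiv]
    rfl
  have sξ := kerh_xi v w (kerh_one hv)
  obtain ⟨-, -, bξ, eξ⟩ := xiC_eq v w (kerh_one hv)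
  have s1 := (kerh_gen sξ (kerh_sA (Lco v)).2).1
  have s2 := (Equiv.prodComm ℤ ℤ).summable_iff.2 s1
  have dd (s t : ℝ) := fs2_ddc (c := xiC v w) (s := s) (t := t) (y := 0) (by simp) (by simp)
    (.of_nonneg_of_le (fun k => by have := br_pos k; positivity) (fun k => by
      have := mul_le_mul_of_nonneg_right (bξ k) (br_pos k).le
      simp only [zero_mul, Real.exp_zero, mul_one, pow_one]; linarith)
      ((summable_ex η.2 1).mul_left ‖w‖))
  have s3 : Summable fun p => ‖I * ddc (xiC v w) p‖ := by simpa using (dd 0 0).1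
  have s12 := Summable.of_nonneg_of_le (fun _ => norm_nonneg _) (fun p => norm_add_le _ _)
    (s1.add s2)
  have key := fs2_unique (kerh_sA (fderiv ℂ Lco v w)).1 (Summable.of_nonneg_of_le
    (fun _ => norm_nonneg _) (fun p => norm_add_le _ _) (s12.add s3)) fun s t ne => by
      obtain ⟨χ, x, -⟩ := exists_ev2 (η := η) (s := s) (t := t) (by simpa using η.2.le)
        (by simpa using η.2.le)
      obtain ⟨χs, xs, -⟩ := exists_ev1 (η := η) (s := s) (by simpa using η.2.le)
      obtain ⟨χt, xt, -⟩ := exists_ev1 (η := η) (s := t) (by simpa using η.2.le)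
      have h1 := (χ.hasFDerivAt.comp v hL).cexp.mul_const (exp (I * s) - exp (I * t))
      have h2 := ((χs.hasFDerivAt (x := v)).const_add (s : ℂ)).const_mul I |>.cexp |>.sub
        (((χt.hasFDerivAt (x := v)).const_add (t : ℂ)).const_mul I).cexp
      have h3 := DFunLike.congr_fun (h1.unique (h2.congr_of_eventuallyEq
        (mem_of_superset nb fun u hu => by
          simpa [x, xs, xt] using kerh_ev u (by simpa using hu) s t))) w
      simp only [ContinuousLinearMap.smul_apply, ContinuousLinearMap.sub_apply,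
        ContinuousLinearMap.comp_apply, Function.comp, smul_eq_mul, x, xs, xt] at h3
      have sy : fs2 (Lco v).coeff t s = fs2 (Lco v).coeff s t := by
        rw [← kerh_swap]; congr 1; funext p; exact Lco_symm v hv _ _
      have a1 := kerh_ds v hv s t
      have a2 := kerh_ds v hv t s
      have a3 : fs2 (fun p => I * ddc (xiC v w) p) s t = I * fs2 (ddc (xiC v w)) s t := by
        simp only [fs2, mul_assoc I (ddc _ _), tsum_mul_left]
      have a4 := kerh_swap (fun p => conv (xiC v w)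
        (fun c => I * c * (Lco v).coeff (c, p.2)) p.1) s t
      rw [kerh_add s12 s3, kerh_add s1 s2, a3]
      erw [a4]
      rw [kerh_fs2 sξ (kerh_sA (Lco v)).2, kerh_fs2 sξ (kerh_sA (Lco v)).2]
      rw [sy] at a2
      refine mul_left_cancel₀ (mul_ne_zero (exp_ne_zero (fs2 (Lco v).coeff s t))
        (sub_ne_zero.2 ne)) ?_
      linear_combination h3 - fs (xiC v w) s * a1 + fs (xiC v w) t * a2 -
        I * exp (fs2 (Lco v).coeff s t) * (dd s t).2 -
        I * exp (I * (s + fs v.coeff s)) * eξ s + I * exp (I * (t + fs v.coeff t)) * eξ t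
  rw [e, key]
  simp only [Equiv.prodComm_apply, Prod.swap, Lco_symm v hv a]

end StekIso
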