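import Pool.Agent.Lib.MP_fa022d_an.KerC
import Pool.Agent.Lib.MP_fa022d_an.Hol2
import Pool.Agent.Lib.MP_fa022d_an.KerHa

open Set Filter Topology Metric BoundedContinuousFunction Complex

noncomputable section
namespace StekIso

/-- derivative of the logarithm: both sides have the same values off the diagonal -/
theorem Lco_fderiv {η : Pos} (v w : A1 η) (hv : ‖v‖ < 1 / K2 η) (a b : ℤ) :
    fderiv ℂ (fun v : A1 η => (Lco v).coeff (a, b)) v w =
      conv (xiC v w) (fun c => I * c * (Lco v).coeff (c, b)) a +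
      conv (xiC v w) (fun c => I * c * (Lco v).coeff (a, c)) b + I * ddc (xiC v w) (a, b) :=
  kerh_log v w hv a b

theorem kerh_cs {ξ f : ℤ → ℂ} (hξ : Summable fun k => ‖ξ k‖) {M : ℝ} (hf : ∀ k, ‖f k‖ ≤ M)
    (a : ℤ) : Summable fun h => ξ h * f (a - h) :=
  .of_norm_bounded (hξ.mul_right M) fun h => by
    rw [norm_mul]; exact mul_le_mul_of_nonneg_left (hf _) (norm_nonneg _)

theorem kerh_sw {ξ : ℤ → ℂ} (hξ : Summable fun k => ‖ξ k‖) {F : ℤ × ℤ → ℤ → ℂ} {T : ℤ × ℤ → ℝ}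
    (hT : Summable T) (hF : ∀ p c, ‖F p c‖ ≤ T p) (a : ℤ) :
    HasSum (fun p => conv ξ (F p) a) (conv ξ (fun c => ∑' p, F p c) a) := by
  have S : Summable fun x : (ℤ × ℤ) × ℤ => ξ x.2 * F x.1 (a - x.2) :=
    .of_norm_bounded (hT.mul_of_nonneg hξ (fun p => (norm_nonneg _).trans (hF p 0))
      fun _ => norm_nonneg _) fun x => by
        rw [norm_mul, mul_comm]; exact mul_le_mul_of_nonneg_right (hF _ _) (norm_nonneg _)
  have e : conv ξ (fun c => ∑' p, F p c) a = ∑' p, conv ξ (F p) a := by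
    simp only [conv, ← tsum_mul_left]
    exact Summable.tsum_comm (f := fun p h => ξ h * F p (a - h)) S
  exact e ▸ S.prod.hasSum

theorem kerh_cm (ξ f : ℤ → ℂ) (x y : ℂ) (a : ℤ) :
    conv ξ (fun c => x * (f c * y)) a = x * (conv ξ f a * y) := by
  simp only [conv, ← tsum_mul_right, ← tsum_mul_left]
  exact tsum_congr fun h => by ring

variable {η : Pos}

/-- a bound for the entries of `Eco` -/
def kerhG (η : Pos) (a : ℤ) : ℝ := (1 + η.1) * (br a ^ 4 * ex (-(3 / 2 * η.1)) a)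

theorem kerh_Eco (v : A1 η) (hv : ‖v‖ ≤ η.1 / 2) (a' a : ℤ) : ‖Eco v a' a‖ ≤ kerhG η a' := by
  have h := (Eco_bd v hv a' a).1
  have p := η.2
  have x : 1 ≤ br a' ^ 4 * ex (-(3 / 2 * η.1)) a' :=
    one_le_mul_of_one_le_of_one_le (one_le_pow₀ (one_le_br _)) (Real.one_le_exp (by
      rw [neg_neg]; positivity))
  have y : |(a : ℝ)| * beta η.1 a ≤ 1 := by
    have b := one_le_br a
    have c : br a ≤ br a ^ 4 := le_self_pow₀ b (by norm_num)
    rw [beta, ← mul_div_assoc, div_le_one (by positivity)]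
    have := kerh_ex1 p.le a
    have d : |(a : ℝ)| ≤ br a := by rw [br]; linarith
    nlinarith [abs_nonneg (a : ℝ)]
  have z : ‖(if a = a' then 1 else 0 : ℂ)‖ ≤ 1 := by split_ifs <;> simp
  have u : ‖v‖ * |(a : ℝ)| * beta η.1 a ≤ η.1 := by
    rw [mul_assoc]; nlinarith [norm_nonneg v]
  have := norm_le_norm_add_norm_sub' (Eco v a' a) (if a = a' then 1 else 0)
  rw [kerhG]
  nlinarith [mul_le_mul_of_nonneg_right u (zero_le_one.trans x)]

theorem kerh_T {B : Base} {C0 : ℝ} (hB : BaseOK B C0) (hη : 12 * η.1 ≤ B.η0) :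
    ∃ T : ℤ × ℤ → ℝ, Summable T ∧ ∀ H ∈ ball (B.H0 : ℂ) 1, ∀ u : V η, ‖u‖ ≤ η.1 / 2 →
      ∀ i j p a b, ‖S0 B H i j p * (Eco (u i) p.1 a * Eco (u j) p.2 b)‖ ≤ T p := by
  have p := η.2
  have s : Summable fun k => ex (B.η0 / 3) k * kerhG η k :=
    ((summable_ex (η := B.η0 / 3 + -(3 / 2 * η.1)) (by linarith) 4).mul_left (1 + η.1)).congr
      fun k => by rw [← four2_ex, kerhG]; ring
  have g (k) : 0 ≤ kerhG η k := by
    have := br_pos k; have := ex_pos (-(3 / 2 * η.1)) k; rw [kerhG]; positivity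
  have n (k) : 0 ≤ ex (B.η0 / 3) k * kerhG η k := mul_nonneg (ex_pos _ _).le (g k)
  refine ⟨_, (s.mul_of_nonneg s n n).mul_left C0, fun H hH u hu i j q a b => ?_⟩
  have h := hB.bd H hH i j q
  rw [norm_mul, norm_mul]
  calc _ ≤ C0 * (ex (B.η0 / 3) q.1 * ex (B.η0 / 3) q.2) * (kerhG η q.1 * kerhG η q.2) :=
        mul_le_mul h (mul_le_mul (kerh_Eco _ ((norm_le_pi_norm u i).trans hu) _ _)
          (kerh_Eco _ ((norm_le_pi_norm u j).trans hu) _ _) (norm_nonneg _) (g _))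
          (by positivity) ((norm_nonneg _).trans h)
    _ = _ := by ring

theorem kerh_dS {B : Base} {C0 : ℝ} (hB : BaseOK B C0) (hη : 12 * η.1 ≤ B.η0) {H : ℂ}
    (hH : H ∈ ball (B.H0 : ℂ) 1) {v : V η} (hv : ‖v‖ < η.1 / 2) (h1 : ‖v‖ ≤ 1) (i j : Bool) :
    (∃ M, ∀ a b, ‖kerS B v H i j a b‖ ≤ M) ∧ ∀ a b,
      DifferentiableAt ℂ (fun u : V η => kerS B u H i j a b) v ∧ ∀ w : V η,
      fderiv ℂ (fun u : V η => kerS B u H i j a b) v w =
        I * a * conv (xiC (v i) (w i)) (fun c => kerS B v H i j c b) a +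
        I * b * conv (xiC (v j) (w j)) (fun c => kerS B v H i j a c) b := by
  obtain ⟨T, sT, hT⟩ := kerh_T hB hη
  refine ⟨⟨_, fun a b => tsum_of_norm_bounded sT.hasSum fun p => hT H hH v hv.le i j p a b⟩,
    fun a b => ?_⟩
  have d (u : V η) (k : Bool) (x y : ℤ) : HasFDerivAt (fun u : V η => Eco (u k) x y)
      (fderiv ℂ (fun v : A1 η => Eco v x y) (u k) ∘L ContinuousLinearMap.proj k) u :=
    HasFDerivAt.comp u (g := fun v : A1 η => Eco v x y) (Eco_diff x y (u k)).hasFDerivAt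
      (ContinuousLinearMap.proj (R := ℂ) (φ := fun _ => A1 η) k).hasFDerivAt
  have D (u : V η) (p : ℤ × ℤ) := ((d u i p.1 a).mul (d u j p.2 b)).const_mul (S0 B H i j p)
  obtain ⟨k1, k2⟩ := diffOn_tsum (U := ball (0 : V η) (η.1 / 2)) isOpen_ball sT
    (fun p u _ => (D u p).differentiableAt.differentiableWithinAt)
    fun p u hu => hT H hH u (mem_ball_zero_iff.1 hu).le i j p a b
  have m : v ∈ ball (0 : V η) (η.1 / 2) := mem_ball_zero_iff.2 hv
  refine ⟨k1.differentiableAt (isOpen_ball.mem_nhds m), fun w => (k2 v m w).unique ?_⟩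
  have n (k) : ‖v k‖ ≤ 1 := (norm_le_pi_norm v k).trans h1
  have s1 := (kerh_sw (kerh_xi (v i) (w i) (n i)) sT
    (fun p c => hT H hH v hv.le i j p c b) a).mul_left (I * a)
  have s2 := (kerh_sw (kerh_xi (v j) (w j) (n j)) sT
    (fun p c => hT H hH v hv.le i j p a c) b).mul_left (I * b)
  refine (s1.add s2).congr_fun fun p => ?_
  rw [(D v p).fderiv]
  simp only [ContinuousLinearMap.smul_apply, ContinuousLinearMap.add_apply,
    ContinuousLinearMap.comp_apply, ContinuousLinearMap.proj_apply, smul_eq_mul,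
    Eco_fderiv _ _ (n _), kerh_cm, mul_comm (Eco (v i) p.1 a)]
  ring

theorem kerh_R (v : A1 η) (a b : ℤ) : ‖kerR v a b‖ ≤ ‖Lco v‖ := by
  refine (kerh_A2 (Lco v) (a, b) ?_).trans (mul_le_of_le_one_right (norm_nonneg _)
    (mul_le_one₀ (kerh_ex1 η.2.le _) (ex_pos _ _).le (kerh_ex1 η.2.le _)))
  rw [norm_div, norm_mul, norm_real, Real.norm_of_nonneg Real.pi_pos.le]
  exact (div_le_self (by positivity) (by linarith [Real.pi_gt_three])).trans
    (mul_le_mul (kerh_le a) (kerh_le b) (norm_nonneg _) (br_pos _).le)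

theorem kerh_dR {v : V η} (hv : ‖v‖ < 1 / K2 η) (i : Bool) (a b : ℤ) :
    DifferentiableAt ℂ (fun u : V η => kerR (u i) a b) v ∧ ∀ w : V η,
      fderiv ℂ (fun u : V η => kerR (u i) a b) v w =
        I * a * conv (xiC (v i) (w i)) (fun c => kerR (v i) c b) a +
        I * b * conv (xiC (v i) (w i)) (fun c => kerR (v i) a c) b +
        I * (a * b / Real.pi) * ddc (xiC (v i) (w i)) (a, b) := by
  have n : ‖v i‖ < 1 / K2 η := (norm_le_pi_norm v i).trans_lt hv
  obtain ⟨-, -, hd, -⟩ := Lco_basic η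
  have hL : DifferentiableAt ℂ (fun v : A1 η => (Lco v).coeff (a, b)) (v i) :=
    (WAlg.coeffL (a, b)).differentiableAt.comp (v i)
      (hd.differentiableAt (isOpen_ball.mem_nhds (mem_ball_zero_iff.2 n)))
  have D := (hL.hasFDerivAt.comp v (ContinuousLinearMap.proj (R := ℂ) (φ := fun _ => A1 η)
    i).hasFDerivAt).const_mul (a * b / Real.pi : ℂ)
  refine ⟨D.differentiableAt, fun w => (DFunLike.congr_fun D.fderiv w).trans ?_⟩
  simp only [ContinuousLinearMap.smul_apply, ContinuousLinearMap.comp_apply,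
    ContinuousLinearMap.proj_apply, smul_eq_mul, Lco_fderiv _ _ n, mul_add, conv, kerR,
    ← tsum_mul_left]
  congr 1
  · congr 1 <;> exact tsum_congr fun h => by ring
  · ring

theorem kerh_dd (ξ : ℤ → ℂ) (a n : ℤ) : 2 * (a * (-n : ℤ)) * ddc ξ (a, -n) =
    (a * (|n| : ℤ) - n * (|a| : ℤ)) * ξ (a - n) := by
  unfold ddc
  rcases le_or_gt 0 a with h | h <;> rcases le_or_gt n 0 with k | k
  · rw [if_pos ⟨h, by omega⟩, abs_of_nonneg h, abs_of_nonpos k, sub_eq_add_neg a]; push_cast; ring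
  · rw [if_neg (by omega), if_neg (by omega), abs_of_nonneg h, abs_of_pos k]; ring
  · rw [if_neg (by omega), if_neg (by omega), abs_of_neg h, abs_of_nonpos k]; push_cast; ring
  · rw [if_neg (by omega), if_pos ⟨h, by omega⟩, abs_of_neg h, abs_of_pos k, sub_eq_add_neg a]
    push_cast; ring

theorem kerh_delta {ξ f : ℤ → ℂ} (hξ : Summable fun k => ‖ξ k‖) {M : ℝ} (hf : ∀ k, ‖f k‖ ≤ M)
    (x y : ℂ) (n a : ℤ) :
    conv ξ (fun c => (if c = n then x else 0) + y * f c) a = x * ξ (a - n) + y * conv ξ f a := by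
  have h1 : HasSum (fun h => ξ h * if a - h = n then x else 0) (x * ξ (a - n)) := by
    convert hasSum_single (a - n) fun h k => ?_ using 1
    · simp [mul_comm]
    · rw [if_neg (by omega), mul_zero]
  exact (tsum_congr fun h => by ring).trans (h1.add ((kerh_cs hξ hf a).hasSum.mul_left y)).tsum_eq

theorem kerh_cadd {ξ f g : ℤ → ℂ} (hξ : Summable fun k => ‖ξ k‖) {M N : ℝ} (hf : ∀ k, ‖f k‖ ≤ M)
    (hg : ∀ k, ‖g k‖ ≤ N) (a : ℤ) : conv ξ (fun c => f c + g c) a = conv ξ f a + conv ξ g a := by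
  simp only [conv, mul_add]
  exact (kerh_cs hξ hf a).tsum_add (kerh_cs hξ hg a)

theorem kerh_re (ξ f : ℤ → ℂ) (n : ℤ) :
    ∑' a : ℤ, f a * ξ (a - n) = conv ξ (fun c => f (-c)) (-n) := by
  rw [conv, ← (Equiv.addRight n).tsum_eq]
  exact tsum_congr fun h => by simp [mul_comm, add_comm]

/-- the commutator formula for the entries -/
theorem Smat_fderiv {B : Base} {C0 : ℝ} (hB : BaseOK B C0) {η : Pos} (hη : 12 * η.1 ≤ B.η0) :
    ∀ z ∈ dom B η (δK B η), ∀ (w : V η) (b c : Idx), dSm B z (w, 0) b c =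
      I * b.2 * conv (xiC (z.1 b.1) (w b.1))
        (fun a => (if (b.1, a) = c then (|c.2| : ℤ) else 0) + Smat B z (b.1, a) c) b.2 -
      I * c.2 * ∑' a : ℤ, ((if b = (c.1, a) then (|b.2| : ℤ) else 0) + Smat B z b (c.1, a)) *
        xiC (z.1 c.1) (w c.1) (a - c.2) := by
  rintro ⟨v, H⟩ hz w ⟨i, a⟩ ⟨j, n⟩
  have hv : ‖v‖ < δK B η := mem_ball_zero_iff.1 hz.1
  have h2 : ‖v‖ < 1 / K2 η := hv.trans_le ((min_le_right _ _).trans (min_le_left _ _))
  have h1 : ‖v‖ ≤ 1 := h2.le.trans (div_le_one_of_le₀ (one_le_K2 η) (by linarith [one_le_K2 η]))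
  obtain ⟨⟨M, hM⟩, dS⟩ := kerh_dS hB hη (H := H) hz.2 (hv.trans_le (min_le_left _ _)) h1 i j
  have ξ (k) := kerh_xi (v k) (w k) ((norm_le_pi_norm v k).trans h1)
  have e : dSm B (v, H) (w, 0) (i, a) (j, n) =
      fderiv ℂ (fun u : V η => Smat B (u, H) (i, a) (j, n)) v w := by
    have := HasFDerivAt.comp v (f := fun u : V η => (u, H)) ((Smat_diff hB hη (i, a)
      (j, n)).differentiableAt ((isOpen_ball.prod isOpen_ball).mem_nhds hz)).hasFDerivAt
      (hasFDerivAt_prodMk_left v H)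
    exact (DFunLike.congr_fun this.fderiv w).symm
  rw [e, kerh_re]
  by_cases h : i = j
  · subst h
    obtain ⟨r1, r2⟩ := kerh_dR h2 i a (-n)
    have b1 := fun c => (norm_add_le _ _).trans (add_le_add (kerh_R (v i) c (-n)) (hM c (-n)))
    have b2 := fun c => (norm_add_le _ _).trans (add_le_add (kerh_R (v i) a c) (hM a c))
    have c1 := kerh_delta (ξ i) b1 (|n| : ℤ) (2 * Real.pi) n a
    have c2 := kerh_delta (ξ i) b2 (|a| : ℤ) (2 * Real.pi) (-a) (-n)
    rw [kerh_cadd (ξ i) (fun c => kerh_R (v i) c (-n)) (fun c => hM c (-n))] at c1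
    rw [kerh_cadd (ξ i) (kerh_R (v i) a) (hM a)] at c2
    have q : ∀ c : ℤ, a = -c ↔ c = -a := fun c => by omega
    simp only [Smat, if_true, Prod.mk.injEq, true_and, neg_neg, apply_ite ((↑) : ℤ → ℂ),
      Int.cast_zero, q]
    rw [c1, c2, fderiv_const_mul (r1.fun_add (dS a (-n)).1), ContinuousLinearMap.smul_apply,
      fderiv_fun_add r1 (dS a (-n)).1, ContinuousLinearMap.add_apply, r2, (dS a (-n)).2]
    have k := kerh_dd (xiC (v i) (w i)) a n
    have p : (Real.pi : ℂ) * (Real.pi : ℂ)⁻¹ = 1 := mul_inv_cancel₀ (ofReal_ne_zero.2 Real.pi_ne_zero)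
    rw [show -n - -a = a - n by ring, smul_eq_mul, div_eq_mul_inv]
    push_cast at k ⊢
    linear_combination I * k - 2 * I * a * n * ddc (xiC (v i) (w i)) (a, -n) * p
  · simp only [Smat, h, if_false, Prod.mk.injEq, false_and, neg_neg, Int.cast_zero, zero_add]
    rw [fderiv_const_mul (dS a (-n)).1, ContinuousLinearMap.smul_apply, (dS a (-n)).2]
    simp only [conv, mul_left_comm _ (2 * Real.pi : ℂ), tsum_mul_left, smul_eq_mul]
    push_cast
    ring

end StekIso
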