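import Pool.Agent.Lib.MP_fa022d_an.KerK
import Pool.Agent.Lib.MP_fa022d_an.KerG
import Pool.Agent.Lib.MP_fa022d_an.KerD
import Pool.Agent.Lib.MP_fa022d_an.KerE

open Set Filter Topology Metric BoundedContinuousFunction Complex

noncomputable section
namespace StekIso

theorem kermain_up {a c C x : ℝ} (h : a ≤ c * x) (hc : c ≤ C) (hx : 0 ≤ x) : a ≤ C * x :=
  h.trans (mul_le_mul_of_nonneg_right hc hx)

theorem kermain_ex (η : ℝ) (k : ℤ) : 0 ≤ ex η k := (Real.exp_pos _).le

theorem kermain_row (η : ℝ) {t : ℝ} (ht : 0 ≤ t) (k : ℤ) : 0 ≤ rowS η t k :=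
  add_nonneg (mul_nonneg (mul_nonneg ht (by unfold br; positivity)) (beta_pos η k).le)
    (kermain_ex _ k)

theorem kermain_wn {η : Pos} (a : ℝ) (w : V η) : 0 ≤ wn a w :=
  tsum_nonneg fun b => mul_nonneg (norm_nonneg _) (kermain_ex a b.2)

theorem kermain_one (B : Base) (η : Pos) : δK B η ≤ 1 :=
  (min_le_right _ _).trans ((min_le_left _ _).trans
    ((div_le_one (lt_of_lt_of_le one_pos (one_le_K2 η))).2 (one_le_K2 η)))

theorem ker_ok {B : Base} {C0 : ℝ} (hB : BaseOK B C0) {η : Pos} (hη : 12 * η.1 ≤ B.η0) :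
    ∃ C, KerOK B η C := by
  obtain ⟨C1, g1, cr, rw'⟩ := Smat_row hB hη
  obtain ⟨C2, g2, dg⟩ := Smat_diag hB hη
  obtain ⟨C3, g3, of⟩ := Smat_off hB hη
  obtain ⟨C4, g4, xi⟩ := xi_pair η
  obtain ⟨C5, g5, ins⟩ := Smat_ins hB hη
  obtain ⟨C6, g6, h1, h2, h3, h4⟩ := Hof_ok hη
  refine ⟨C1 + C2 + C3 + C4 + C5 + C6, by linarith, Smat_diff hB hη, fun z hz b c => ?_,
    fun z hz b c => ?_, Smat_bsym hB hη, Smat_rsym hB hη, fun z hz j n hn => ?_,
    fun z hz j n hn => ?_, thOf_cmap hη, thOf_lip hη, Smat_sfun hB hη, Smat_comm hB hη,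
    fun v w hv f D hf => ?_, fun z hz hH w p q hp hq => ?_, h1, fun v hv lam w => ?_,
    fun v hv lam => ?_, h4⟩
  · exact kermain_up (cr z hz b c) (by linarith) (mul_nonneg (kermain_ex _ _) (kermain_ex _ _))
  · have h := rw' z hz b c
    rw [mul_assoc] at h ⊢
    exact kermain_up h (by linarith)
      (mul_nonneg (kermain_row _ (norm_nonneg _) _) (kermain_ex _ _))
  · exact kermain_up (dg z hz j n hn) (by linarith) (add_nonneg (by positivity)
      (mul_nonneg (kermain_row _ (norm_nonneg _) _) (kermain_ex _ _)))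
  · exact kermain_up (of z hz j n hn) (by linarith)
      (add_nonneg (mul_nonneg (mul_nonneg (sq_nonneg _) (beta_pos _ _).le) (sq_nonneg _))
        (mul_nonneg (kermain_row _ (norm_nonneg _) _) (kermain_ex _ _)))
  · have h := xi v w (hv.le.trans (kermain_one B η)) f D hf
    have hD : 0 ≤ D := nonneg_of_mul_nonneg_left ((norm_nonneg _).trans (hf 0)) (Real.exp_pos _)
    rw [mul_assoc] at h ⊢
    exact kermain_up h (by linarith) (mul_nonneg hD
      (tsum_nonneg fun k => mul_nonneg (norm_nonneg _) (kermain_ex _ k)))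
  · exact kermain_up (ins z hz hH w p q hp hq) (by linarith)
      (add_nonneg (kermain_wn _ _) (norm_nonneg _))
  · exact kermain_up (h2 v hv lam w) (by linarith) (kermain_wn _ _)
  · exact kermain_up (h3 v hv lam) (by linarith) (norm_nonneg _)

end StekIso
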