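import Pool.Agent.Lib.MP_fa022d_an.Stmt

/-! The compactness convention, without a clause on the lengths. -/

open Filter

namespace StekIso

/-- Every sequence in `𝓕` has a subsequence which, after rigid motions, has arc length
parametrised boundary curves converging with all derivatives to the boundary of a member of `𝓕`. -/
def CinfCompact (𝓕 : Set (Set ℂ)) : Prop :=
  ∀ Ω : ℕ → Set ℂ, (∀ n, Ω n ∈ 𝓕) →
    ∃ φ : ℕ → ℕ, StrictMono φ ∧ ∃ R : ℕ → ℂ ≃ᵢ ℂ, ∃ Ω' ∈ 𝓕, ∃ m : ℕ,
      ∃ P : ∀ n, BdryParam (R n '' Ω (φ n)) m, ∃ P' : BdryParam Ω' m, ∀ (i : Fin m) (k : ℕ),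
        TendstoLocallyUniformly (fun n => iteratedDeriv k ((P n).γ i))
          (iteratedDeriv k (P'.γ i)) atTop

end StekIso
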