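import Pool.Agent.Lib.MP_fa022d_an.Fin2
import Pool.Agent.Lib.MP_fa022d_an.Stmt2

/-! The lengths of simple closed curves of bounded length converge under `C¹` convergence to a
simple closed curve. -/

open Set Filter Topology Metric Complex MeasureTheory
open scoped ComplexConjugate

noncomputable section
namespace StekIso

theorem len_mono {g : ℝ → ℂ} (hg : Differentiable ℝ g) {w : ℂ} (hw : ‖w‖ = 1) {a b x y : ℝ}
    (h : ∀ s ∈ Icc a b, ‖deriv g s - w‖ ≤ 1 / 2) (hx : x ∈ Icc a b) (hy : y ∈ Icc a b)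
    (hxy : x ≤ y) : (y - x) / 2 ≤ (conj w * g y).re - (conj w * g x).re := by
  have k := (convex_Icc a b).norm_image_sub_le_of_norm_hasDerivWithin_le
    (f := fun s : ℝ => g s - s * w) (f' := fun s => deriv g s - w)
    (fun s _ => ((hg s).hasDerivAt.sub (by
      simpa using (ofRealCLM.hasDerivAt (x := s)).mul_const w)).hasDerivWithinAt) h hx hy
  have e : conj w * w = 1 := by rw [conj_mul', hw]; simp
  have l := (neg_abs_le _).trans' (neg_le_neg (abs_re_le_norm
    (conj w * (g y - y * w - (g x - x * w)))))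
  rw [norm_mul, norm_conj, hw, one_mul, show conj w * (g y - y * w - (g x - x * w)) =
    conj w * g y - conj w * g x - (y - x : ℝ) by push_cast; linear_combination (x - y : ℂ) * e] at l
  rw [Real.norm_of_nonneg (sub_nonneg.2 hxy)] at k
  simp only [sub_re, ofReal_re] at l
  linarith

theorem len_unif {f : ℝ → ℂ} (hf : Continuous f) (a b : ℝ) {c : ℝ} (hc : 0 < c) :
    ∃ δ > 0, ∀ s ∈ Icc a b, ∀ t ∈ Icc a b, |s - t| < δ → ‖f s - f t‖ ≤ c := by
  obtain ⟨δ, h0, h⟩ := Metric.uniformContinuousOn_iff.1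
    (isCompact_Icc.uniformContinuousOn_of_continuous (hf.continuousOn (s := Icc a b))) c hc
  exact ⟨δ, h0, fun s hs t ht k => (dist_eq_norm _ _).ge.trans (h s hs t ht k).le⟩

theorem len_arc {p : ℝ → ℂ} (hp : Differentiable ℝ p) {w : ℂ} (hw : ‖w‖ = 1) {a b : ℝ} (hab : a ≤ b)
    (h : ∀ s ∈ Icc a b, ‖deriv p s - w‖ ≤ 1 / 2) :
    ENNReal.ofReal ((b - a) / 2) ≤ Measure.hausdorffMeasure 1 (p '' Icc a b) := by
  have l : LipschitzWith 1 fun z : ℂ => (conj w * z).re := .of_dist_le_mul fun x y => by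
    rw [Real.dist_eq, ← sub_re, ← mul_sub, dist_eq_norm]
    refine (abs_re_le_norm _).trans_eq ?_
    rw [norm_mul, norm_conj, hw, NNReal.coe_one]
  have k := l.hausdorffMeasure_image_le zero_le_one (p '' Icc a b)
  rw [hausdorffMeasure_real, image_image, ENNReal.coe_one, ENNReal.one_rpow, one_mul] at k
  refine le_trans ?_ ((measure_mono (intermediate_value_Icc hab
    (l.continuous.comp hp.continuous).continuousOn)).trans k)
  rw [Real.volume_Icc]
  exact ENNReal.ofReal_le_ofReal (len_mono hp hw h (left_mem_Icc.2 hab) (right_mem_Icc.2 hab) hab)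

/-- a boundary that is covered by curves of given lengths has bounded length -/
theorem len_le {Ω : Set ℂ} {m : ℕ} (P : BdryParam Ω m) (i : Fin m) {ι : Type} [Fintype ι]
    {q : ι → ℝ → ℂ} {L : ι → ℝ} (hq : ∀ j, LipschitzWith 1 (q j)) (h0 : ∀ j, 0 ≤ L j)
    (cov : frontier Ω ⊆ ⋃ j, q j '' Icc 0 (L j)) : P.L i ≤ 4 * ∑ j, L j := by
  have hL := P.pos i
  have df : Differentiable ℝ (P.γ i) := (P.smooth i).differentiable (by simp)
  obtain ⟨δ, δ0, hδ⟩ := len_unif ((P.smooth i).continuous_deriv (by simp)) 0 (P.L i) one_half_pos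
  obtain ⟨N, hN⟩ := exists_nat_gt (P.L i / δ)
  have N0 : (0 : ℝ) < N := (div_pos hL δ0).trans hN
  obtain ⟨d, hd⟩ : ∃ d, d = P.L i / N := ⟨_, rfl⟩
  have d0 : 0 < d := hd ▸ div_pos hL N0
  have d1 : N * d = P.L i := by rw [hd]; field_simp
  have d2 : d < δ := by rw [hd, div_lt_iff₀ N0]; rwa [div_lt_iff₀ δ0, mul_comm] at hN
  have sub : ∀ r ∈ Finset.range N, Icc (r * d) (r * d + d / 2) ⊆ Ico 0 (P.L i) := fun r hr s hs => by
    have : (r : ℝ) + 1 ≤ N := by exact_mod_cast Finset.mem_range.1 hr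
    have := mul_le_mul_of_nonneg_right this d0.le
    exact ⟨le_trans (by positivity) hs.1, by linarith [hs.2]⟩
  have key : ∑ r ∈ Finset.range N, ENNReal.ofReal (d / 4) ≤ ∑ j, ENNReal.ofReal (L j) := by
    calc _ ≤ ∑ r ∈ Finset.range N,
          Measure.hausdorffMeasure 1 (P.γ i '' Icc (r * d) (r * d + d / 2)) := by
          refine Finset.sum_le_sum fun r hr => le_trans (ENNReal.ofReal_le_ofReal (by linarith))
            (len_arc df (P.unit i (r * d)) (by linarith) fun s hs => hδ s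
              (Ico_subset_Icc_self (sub r hr hs)) _
              (Ico_subset_Icc_self (sub r hr (left_mem_Icc.2 (by linarith)))) ?_)
          rw [abs_of_nonneg (sub_nonneg.2 hs.1)]
          linarith [hs.2]
      _ = Measure.hausdorffMeasure 1
          (⋃ r ∈ Finset.range N, P.γ i '' Icc (r * d) (r * d + d / 2)) := by
          refine (measure_biUnion_finset (fun r hr r' hr' ne => ?_)
            fun r _ => (isCompact_Icc.image df.continuous).measurableSet).symm
          refine Disjoint.image (disjoint_left.2 fun s h1 h2 => ne ?_) (P.inj i) (sub r hr)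
            (sub r' hr')
          have a : (r : ℝ) < r' + 1 := lt_of_mul_lt_mul_right (by linarith [h1.1, h2.2]) d0.le
          have b : (r' : ℝ) < r + 1 := lt_of_mul_lt_mul_right (by linarith [h2.1, h1.2]) d0.le
          norm_cast at a b
          omega
      _ ≤ Measure.hausdorffMeasure 1 (⋃ j, q j '' Icc 0 (L j)) := by
          refine measure_mono (Subset.trans (iUnion₂_subset fun r _ => ?_) cov)
          rintro _ ⟨s, -, rfl⟩
          exact fin2_mem P i s
      _ ≤ _ := by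
          refine (measure_iUnion_fintype_le _ _).trans (Finset.sum_le_sum fun j _ => ?_)
          simpa [hausdorffMeasure_real] using
            (hq j).hausdorffMeasure_image_le zero_le_one (Icc 0 (L j))
  rw [← ENNReal.ofReal_sum_of_nonneg fun _ _ => by positivity,
    ← ENNReal.ofReal_sum_of_nonneg fun j _ => h0 j,
    ENNReal.ofReal_le_ofReal_iff (Finset.sum_nonneg fun j _ => h0 j), Finset.sum_const,
    Finset.card_range, nsmul_eq_mul] at key
  linarith

/-- the universal chord theorem -/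
theorem len_chord {h : ℝ → ℝ} {L : ℝ} (hL : 0 < L) {k : ℕ}
    (hc : ContinuousOn h (Icc 0 ((k + 1) * L))) (e : h ((k + 1) * L) = h 0) :
    ∃ t ∈ Icc 0 (k * L), h (t + L) = h t := by
  have c : ContinuousOn (fun t => h (t + L) - h t) (Icc 0 (k * L)) :=
    (hc.comp (by fun_prop) fun t ht => ⟨by linarith [ht.1], by linarith [ht.2]⟩).sub
      (hc.mono (Icc_subset_Icc_right (by linarith)))
  have s : ∑ j ∈ Finset.range (k + 1), (h (j * L + L) - h (j * L)) = 0 := by
    have := Finset.sum_range_sub (fun j : ℕ => h (j * L)) (k + 1)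
    simp only [Nat.cast_add, Nat.cast_one, Nat.cast_zero, zero_mul, e, sub_self] at this
    simpa only [add_mul, one_mul] using this
  have m : ∀ j ∈ Finset.range (k + 1), (j : ℝ) * L ∈ Icc 0 (k * L) := fun j hj =>
    ⟨by positivity, mul_le_mul_of_nonneg_right
      (by exact_mod_cast Nat.lt_succ_iff.1 (Finset.mem_range.1 hj)) hL.le⟩
  obtain ⟨a, ha, a1⟩ := Finset.exists_le_of_sum_le (s := Finset.range (k + 1)) (by simp)
    (f := fun j : ℕ => h (j * L + L) - h (j * L)) (g := fun _ => 0) (by simp only [s]; simp)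
  obtain ⟨b, hb, b1⟩ := Finset.exists_le_of_sum_le (s := Finset.range (k + 1)) (by simp)
    (g := fun j : ℕ => h (j * L + L) - h (j * L)) (f := fun _ => 0) (by simp only [s]; simp)
  obtain ⟨t, ht, z⟩ := isPreconnected_Icc.intermediate_value (m a ha) (m b hb) c ⟨a1, b1⟩
  exact ⟨t, ht, sub_eq_zero.1 z⟩

/-- a simple closed curve is not `C¹` close to a multiple of a closed curve -/
theorem len_one {g γ : ℝ → ℂ} {Lg L ε : ℝ} {k : ℕ} (hg : Differentiable ℝ g)
    (pg : Function.Periodic g Lg) (L0 : 0 < Lg) (ig : ∀ u w, g u = g w → ∃ j : ℤ, w - u = j * Lg)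
    (cγ : Continuous γ) (cγ' : Continuous (deriv γ)) (pγ : Function.Periodic γ L)
    (uγ : ∀ t, ‖deriv γ t‖ = 1) (hε : 0 < ε) (hL : 4 * ε < L) (hk : |Lg - k * L| ≤ ε)
    (A : ∀ t ∈ Icc 0 (k * L), ∀ s ∈ Icc (t - 2 * ε) (t + 2 * ε), ‖deriv g s - deriv γ t‖ ≤ 1 / 2)
    (B : ∀ t ∈ Icc 0 (k * L), ‖g t - γ t‖ ≤ ε / 2) : k = 1 := by
  obtain ⟨k1, k2⟩ := abs_le.1 hk
  have M := fun t ht x y => len_mono (x := x) (y := y) hg (uγ t) (A t ht)
  rcases k with _ | _ | k
  · have := M 0 (by simp) 0 Lg ⟨by linarith, by linarith⟩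
      ⟨by linarith, by push_cast at k2; linarith⟩ L0.le
    rw [← pg.eq] at this
    linarith
  · rfl
  exfalso
  have T0 : 0 ≤ (k : ℝ) * L := mul_nonneg k.cast_nonneg (by linarith)
  obtain ⟨T, hT⟩ : ∃ T, T = ((k + 1 + 1 : ℕ) : ℝ) * L := ⟨_, rfl⟩
  rw [← hT] at A B M k1 k2
  have T1 : T = k * L + 2 * L := by rw [hT]; push_cast; ring
  have ex : ∀ t ∈ Icc 0 T, ∃ s ∈ Icc (t - ε) (t + ε),
      (conj (deriv γ t) * g s).re = (conj (deriv γ t) * γ t).re := fun t ht => by
    have b := abs_le.1 ((abs_re_le_norm (conj (deriv γ t) * (g t - γ t))).trans (c := ε / 2)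
      (by rw [norm_mul, norm_conj, uγ, one_mul]; exact B t ht))
    rw [mul_sub, sub_re] at b
    have a1 := M t ht (t - ε) t ⟨by linarith, by linarith⟩ ⟨by linarith, by linarith⟩ (by linarith)
    have a2 := M t ht t (t + ε) ⟨by linarith, by linarith⟩ ⟨by linarith, by linarith⟩ (by linarith)
    exact intermediate_value_Icc (by linarith) (f := fun s => (conj (deriv γ t) * g s).re)
      (continuous_re.comp (continuous_const.mul hg.continuous)).continuousOn
      ⟨by linarith, by linarith⟩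
  choose! σ s1 s2 using ex
  have U : ∀ t ∈ Icc 0 T, ∀ s ∈ Icc (t - 2 * ε) (t + 2 * ε),
      |σ t - s| ≤ 2 * |(conj (deriv γ t) * (γ t - g s)).re| := fun t ht s hs => by
    have m : σ t ∈ Icc (t - 2 * ε) (t + 2 * ε) :=
      ⟨by linarith [(s1 t ht).1], by linarith [(s1 t ht).2]⟩
    rw [mul_sub, sub_re, ← s2 t ht]
    rcases le_total s (σ t) with c | c
    · have := M t ht _ _ hs m c
      rw [abs_of_nonneg (by linarith), abs_of_nonneg (by linarith)]; linarith
    · have := M t ht _ _ m hs c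
      rw [abs_of_nonpos (by linarith), abs_of_nonpos (by linarith)]; linarith
  have cσ : ContinuousOn σ (Icc 0 T) := fun t ht => by
    have c : Continuous fun u => 2 * |(conj (deriv γ u) * (γ u - g (σ t))).re| := by fun_prop
    have z := c.tendsto' t 0 (by rw [mul_sub, sub_re, s2 t ht]; simp)
    refine tendsto_iff_norm_sub_tendsto_zero.2 (squeeze_zero' (.of_forall fun _ => norm_nonneg _)
      ?_ (z.mono_left nhdsWithin_le_nhds))
    filter_upwards [self_mem_nhdsWithin,
      nhdsWithin_le_nhds (Icc_mem_nhds (sub_lt_self t hε) (lt_add_of_pos_right t hε))] with u hu v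
    exact U u hu _ ⟨by linarith [(s1 t ht).1, v.2], by linarith [(s1 t ht).2, v.1]⟩
  have pd : Function.Periodic (deriv γ) L := fun t => by
    rw [← deriv_comp_add_const, pγ.funext]
  have m0 : (0 : ℝ) ∈ Icc 0 T := ⟨le_rfl, by linarith⟩
  have mT : T ∈ Icc 0 T := ⟨by linarith, le_rfl⟩
  have e1 : γ T = γ 0 := hT ▸ pγ.nat_mul_eq _
  have e2 : deriv γ T = deriv γ 0 := hT ▸ pd.nat_mul_eq _
  have e3 : σ T = σ 0 + Lg := by
    have := U T mT (σ 0 + Lg) ⟨by linarith [(s1 0 m0).1], by linarith [(s1 0 m0).2]⟩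
    rw [e1, e2, pg, mul_sub, sub_re, s2 0 m0, sub_self, abs_zero, mul_zero] at this
    exact sub_eq_zero.1 (abs_nonpos_iff.1 this)
  obtain ⟨t, ht, e⟩ := len_chord (h := fun t => (conj (deriv γ t) * (g (σ t) - γ t)).im)
    (k := k + 1) (L := L) (by linarith) (by
      rw [show ((k + 1 : ℕ) + 1 : ℝ) * L = T by rw [hT]; push_cast; ring]
      exact continuous_im.comp_continuousOn ((continuous_conj.comp cγ').continuousOn.mul
        ((hg.continuous.comp_continuousOn cσ).sub cγ.continuousOn))) (by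
      rw [show ((k + 1 : ℕ) + 1 : ℝ) * L = T by rw [hT]; push_cast; ring]
      simp only [e1, e2, e3, pg _])
  push_cast at ht
  have m1 : t ∈ Icc 0 T := ⟨ht.1, by linarith [ht.2]⟩
  have m2 : t + L ∈ Icc 0 T := ⟨by linarith [ht.1], by linarith [ht.2]⟩
  have r := s2 _ m2
  simp only [pγ t, pd t, mul_sub, sub_im, sub_left_inj] at e r
  have n0 : conj (deriv γ t) ≠ 0 := norm_ne_zero_iff.1 (by rw [norm_conj, uγ]; exact one_ne_zero)
  obtain ⟨j, hj⟩ := ig _ _ (mul_left_cancel₀ n0 (Complex.ext (r.trans (s2 t m1).symm) e)).symm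
  have j0 : (0 : ℝ) < j := lt_of_mul_lt_mul_right (by linarith [(s1 _ m1).2, (s1 _ m2).1]) L0.le
  have j1 : (j : ℝ) < 1 := lt_of_mul_lt_mul_right (by linarith [(s1 _ m1).1, (s1 _ m2).2]) L0.le
  norm_cast at j0 j1
  omega

/-- bounded lengths converge -/
theorem len_tendsto {Ω : ℕ → Set ℂ} {m : ℕ} (P : ∀ n, BdryParam (Ω n) m) {Ω' : Set ℂ}
    (P' : BdryParam Ω' m) (i : Fin m) {C : ℝ} (hC : ∀ n, (P n).L i ≤ C)
    (h0 : TendstoLocallyUniformly (fun n => (P n).γ i) (P'.γ i) atTop)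
    (h1 : TendstoLocallyUniformly (fun n => deriv ((P n).γ i)) (deriv (P'.γ i)) atTop) :
    Tendsto (fun n => (P n).L i) atTop (𝓝 (P'.L i)) := by
  have c0 := (P'.smooth i).continuous
  have c1 := (P'.smooth i).continuous_deriv (by simp)
  refine (isCompact_Icc (a := 0) (b := C)).tendsto_nhds_of_unique_mapClusterPt
    (.of_forall fun n => ⟨((P n).pos i).le, hC n⟩) fun L hL cl => ?_
  obtain ⟨φ, hφ, lφ⟩ := cl.tendsto_subseq
  have pw : ∀ s, Tendsto (fun n => (P (φ n)).γ i s) atTop (𝓝 (P'.γ i s)) := fun s =>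
    (h0.tendsto_comp c0.continuousAt tendsto_const_nhds).comp hφ.tendsto_atTop
  have e : P'.γ i 0 = P'.γ i L := tendsto_nhds_unique (pw 0) ((pw L).congr_dist
    (squeeze_zero (fun _ => dist_nonneg) (fun n => by
      rw [← ((P (φ n)).per i).eq]
      simpa [dist_comm] using ((P (φ n)).lipschitz i).dist_le_mul L ((P (φ n)).L i))
      (tendsto_iff_dist_tendsto_zero.1 lφ)))
  obtain ⟨k, hk⟩ := fin1_inj P' i e
  have L' := P'.pos i
  have k0 : (0 : ℝ) ≤ k := nonneg_of_mul_nonneg_left (by linarith [hL.1]) L'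
  lift k to ℕ using (by exact_mod_cast k0)
  rw [sub_zero, Int.cast_natCast] at hk
  obtain ⟨δ, δ0, hδ⟩ := len_unif c1 (-1) (L + 1) (c := 1 / 4) (by norm_num)
  obtain ⟨ε, ε0, ε1⟩ := exists_between (lt_min (lt_min δ0 L') one_pos)
  simp only [lt_min_iff] at ε1
  have u := fun (F : ℕ → ℝ → ℂ) f (h : TendstoLocallyUniformly F f atTop) =>
    Metric.tendstoUniformlyOn_iff.1 ((tendstoLocallyUniformlyOn_iff_tendstoUniformlyOn_of_compact
      (isCompact_Icc (a := -1) (b := L + 1))).1 h.tendstoLocallyUniformlyOn)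
  have u0 := u _ _ h0 (ε / 4 / 2) (by positivity)
  have u1 := u _ _ h1 (1 / 4) (by positivity)
  obtain ⟨n, a, a0, a1⟩ := ((cl.frequently (closedBall_mem_nhds L (ε := ε / 4)
    (by positivity))).and_eventually (u0.and u1)).exists
  have := len_one (k := k) (ε := ε / 4) (((P n).smooth i).differentiable (by simp)) ((P n).per i)
    ((P n).pos i) (fun u w => fin1_inj (P n) i) c0 c1 (P'.per i) (P'.unit i) (by positivity)
    (by linarith) (hk ▸ a) (fun t ht s hs => ?_) fun t ht => ?_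
  · rw [hk, this, Nat.cast_one, one_mul]
  · rw [← hk] at ht
    have m : s ∈ Icc (-1) (L + 1) := ⟨by linarith [ht.1, hs.1], by linarith [ht.2, hs.2]⟩
    have b1 := a1 s m
    have b2 := hδ s m t ⟨by linarith [ht.1], by linarith [ht.2]⟩
      (abs_lt.2 ⟨by linarith [hs.1], by linarith [hs.2]⟩)
    rw [dist_comm, dist_eq_norm] at b1
    linarith [norm_sub_le_norm_sub_add_norm_sub (deriv ((P n).γ i) s) (deriv (P'.γ i) s)
      (deriv (P'.γ i) t)]
  · rw [← hk] at ht
    have := a0 t ⟨by linarith [ht.1], by linarith [ht.2]⟩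
    rw [dist_comm, dist_eq_norm] at this
    exact this.le

theorem Family.not_cinf (Φ : Family) {𝓕 : Set (Set ℂ)} (h : ∀ τ, Φ.Ω τ ∈ 𝓕) :
    ¬CinfCompact 𝓕 := by
  intro H
  obtain ⟨φ, hφ, R, Ω', -, m, P, P', hP⟩ := H (fun n => Φ.Ω n) fun n => h n
  have h0 := fun i => hP i 0
  have h1 := fun i => hP i 1
  simp only [iteratedDeriv_zero, iteratedDeriv_one] at h0 h1
  refine fin2_no Φ (τ := fun n => (φ n : ℝ)) (tendsto_natCast_atTop_atTop.comp hφ.tendsto_atTop) R P
    (fun n => fin2_front _ _) P' (fun i => len_tendsto P P' i (C := 4 * ∑ j, Φ.L j)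
      (fun n => len_le (P n) i (q := fun j s => R n ((Φ.P (φ n)).γ j s)) (fun j => ?_)
        (fun j => (Φ.hL 0 j ▸ (Φ.P 0).pos j).le) ?_) (h0 i) (h1 i)) h0
  · simpa [Function.comp_def] using (R n).isometry.lipschitz.comp ((Φ.P (φ n)).lipschitz j)
  · rw [← fin2_front, (Φ.P (φ n)).cover]
    rintro _ ⟨_, hz, rfl⟩
    obtain ⟨j, s, rfl⟩ := mem_iUnion.1 hz
    obtain ⟨u, hu, e⟩ := fin1_mod ((Φ.P (φ n)).pos j) ((Φ.P (φ n)).per j) 0 s
    rw [zero_add, Φ.hL] at hu
    exact mem_iUnion.2 ⟨j, u, Ico_subset_Icc_self hu, congrArg (R n) e⟩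

end StekIso
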