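import Pool.Agent.Lib.MP_fa022d_an.BaseK

open Set Filter Topology Metric BoundedContinuousFunction Complex

noncomputable section
namespace StekIso

/-- For `Im x > 0`: `-csq x = ∑ m ≥ 1, m exp (i m x)`. -/
theorem csq_hasSum {x : ℂ} (hx : 0 < x.im) :
    HasSum (fun m : ℕ => (m : ℂ) * exp (I * m * x)) (-csq x) := by
  have q : ‖exp (I * x)‖ < 1 := by
    rw [norm_exp]; exact Real.exp_lt_one_iff.2 (by simpa using hx)
  have q1 : 1 - exp (I * x) ≠ 0 := fun e => by simp [← sub_eq_zero.1 e] at q
  have w : exp (x / 2 * I) ≠ 0 := exp_ne_zero _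
  have e : exp (I * x) = exp (x / 2 * I) ^ 2 := by rw [← exp_nat_mul]; congr 1; push_cast; ring
  have s : 4 * sin (x / 2) ^ 2 * exp (I * x) = -(1 - exp (I * x)) ^ 2 := by
    rw [sin, neg_mul, exp_neg, e]
    field_simp
    linear_combination (4 * (1 - exp (x * I / 2) ^ 2) ^ 2) * I_sq
  have s0 : 4 * sin (x / 2) ^ 2 ≠ 0 := fun z =>
    q1 (by simpa [z] using s)
  have e2 : -csq x = exp (I * x) / (1 - exp (I * x)) ^ 2 := by
    rw [csq, ← neg_div, div_eq_div_iff s0 (pow_ne_zero 2 q1)]
    linear_combination -s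
  have e3 : ∀ m : ℕ, exp (I * m * x) = exp (I * x) ^ m := fun m => by
    rw [← exp_nat_mul]; congr 1; ring
  simp only [e2, e3]
  exact hasSum_coe_mul_geometric_of_norm_lt_one q

theorem linka_congr {ι : Type} {f g : ι → ℂ} {a : ℂ} (h : HasSum f a) (e : ∀ n, g n = f n) :
    HasSum g a := (funext e : g = f) ▸ h

/-- term by term computation of a coefficient -/
theorem linka_sum {ι : Type} [Countable ι] {F : ι → ℝ → ℂ} {f g : ℝ → ℂ} {c : ι → ℝ}
    (hc : Summable c) (hF : ∀ n, Continuous (F n)) (hg : Continuous g)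
    (hb : ∀ n t, ‖F n t‖ ≤ c n) (h : ∀ t, HasSum (fun n => F n t) (f t)) :
    HasSum (fun n => fc (fun t => F n t * g t) 0) (fc (fun t => f t * g t) 0) := by
  simp only [fc, Int.cast_zero, mul_zero, zero_mul, neg_zero, exp_zero, mul_one]
  refine (intervalIntegral.hasSum_integral_of_dominated_convergence
    (F := fun n t => F n t * g t) (fun n t => c n * ‖g t‖)
    (fun n => ((hF n).mul hg).aestronglyMeasurable) (fun n => .of_forall fun t _ => ?_)
    (.of_forall fun t _ => hc.mul_right _) ?_ (.of_forall fun t _ => (h t).mul_right _)).mul_left _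
  · rw [norm_mul]; exact mul_le_mul_of_nonneg_right (hb n t) (norm_nonneg _)
  · simp only [tsum_mul_right]
    exact (continuous_const.mul hg.norm).intervalIntegrable _ _

theorem linka_add {f g : ℝ → ℂ} (hf : Continuous f) (hg : Continuous g) (k : ℤ) :
    fc (fun s => f s + g s) k = fc f k + fc g k := by
  simp only [fc, add_mul]
  rw [intervalIntegral.integral_add (Continuous.intervalIntegrable (by fun_prop) _ _)
    (Continuous.intervalIntegrable (by fun_prop) _ _), mul_add]

theorem linka_csq {φ g : ℝ → ℂ} {δ : ℝ} (hδ : 0 < δ) (hφ : Continuous φ) (hg : Continuous g)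
    (h : ∀ t, δ ≤ (φ t).im) : Continuous (fun t => -csq (φ t) * g t) ∧
      HasSum (fun m : ℕ => m * fc (fun t => exp (I * m * φ t) * g t) 0)
        (fc (fun t => -csq (φ t) * g t) 0) := by
  refine ⟨(Continuous.div continuous_const (by fun_prop) fun t e => ?_).neg.mul hg, ?_⟩
  · obtain ⟨k, z⟩ := sin_eq_zero_iff.1 (by simpa using e : sin (φ t / 2) = 0)
    have := congrArg im z
    simp at this
    linarith [h t]
  · have q : ‖Real.exp (-δ)‖ < 1 := by
      rw [Real.norm_eq_abs, Real.abs_exp]; exact Real.exp_lt_one_iff.2 (by linarith)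
    have := linka_sum (F := fun (m : ℕ) t => m * exp (I * m * φ t))
      (hasSum_coe_mul_geometric_of_norm_lt_one q).summable (fun n => by fun_prop) hg
      (fun n t => by
        rw [norm_mul, norm_natCast, norm_exp, ← Real.exp_nat_mul]
        refine mul_le_mul_of_nonneg_left (Real.exp_le_exp.2 ?_) n.cast_nonneg
        simpa using mul_le_mul_of_nonneg_left (h t) n.cast_nonneg)
      fun t => csq_hasSum (hδ.trans_le (h t))
    simpa only [mul_assoc, four3_mul] using this

theorem linka_shift {f : ℂ → ℂ} {η y : ℝ} (hy : |y| < η) (hf : DifferentiableOn ℂ f (strip η))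
    (hp : ∀ s ∈ strip η, f (s + 2 * Real.pi) = f s) :
    fc (fun s => f (s + I * y)) 0 = fc (fun s => f s) 0 := by
  have h := (abs_nonneg y).trans_lt hy
  rw [fc_shift (neg_lt_zero.2 h) h (abs_lt.1 hy) (four3_strip η ▸ hf)
    (fun t ht => hp t (four3_strip η ▸ ht)) 0]
  simp

theorem linka_mod (f : ℝ → ℂ) (a : ℤ) :
    fc (fun t => exp (-(I * a * t)) * f t) 0 = fc f a := by
  simp only [fc, Int.cast_zero, mul_zero, zero_mul, neg_zero, exp_zero, mul_one, mul_comm (f _)]

section
variable {η m M : ℝ} {θ : ℂ → ℂ}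

theorem linka_dper (h : CMap η m M θ) {s : ℂ} (hs : s ∈ strip η) :
    deriv θ (s + 2 * Real.pi) = deriv θ s := by
  rw [← deriv_comp_add_const, ← deriv_add_const (f := θ) (2 * Real.pi : ℂ)]
  exact EventuallyEq.deriv_eq (mem_of_superset ((isOpen_strip η).mem_nhds hs) h.per)

theorem linka_eper (h : CMap η m M θ) (k : ℤ) {s : ℂ} (hs : s ∈ strip η) :
    exp (I * k * θ (s + 2 * Real.pi)) = exp (I * k * θ s) := by rw [h.per s hs, four2_per]

theorem linka_orth (hη : 0 < η) (h : CMap η m M θ) (n : ℤ) :
    fc (fun t => exp (I * n * θ t) * deriv θ t) 0 = if n = 0 then 1 else 0 := by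
  have e : ∀ t : ℝ, (((θ t).re : ℝ) : ℂ) = θ t := fun t => Complex.ext rfl (by simp [h.real t])
  have := fc_comp_cmap hη h (f := fun x : ℝ => exp (I * n * x)) (by fun_prop) fun x => by
    simpa using four2_per n x
  simp only [e] at this
  rw [this, fc, four1_orth]
  split_ifs
  · exact one_div_mul_cancel (by simp)
  · simp

theorem linka_side {C : ℝ} (hη : 0 < η) (hm : 0 < m)
    (hθ : CMap η m M θ) {K : ℂ → ℂ → ℂ} (hK : BiHol (η / 2) C K)
    (hK' : ∀ s ∈ strip (η / 2), ∀ t ∈ strip (η / 2), exp (I * s) ≠ exp (I * t) →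
      K s t = csq (s - t) - deriv θ s * deriv θ t * csq (θ s - θ t)) (k : ℤ) (s : ℝ) {ε : ℤ}
    (hε : ε = 1 ∨ ε = -1) : ∃ X, HasSum (fun n : ℕ => (n : ℂ) *
      (exp (I * (-(ε * n) : ℤ) * s) * fc (fun t => exp (I * k * θ t)) (-(ε * n)))) X ∧
      fc (fun t => K s t * exp (I * k * θ t)) 0 = -X + deriv θ s *
        (k.natAbs * (exp (I * k * θ s) * if ε * k.natAbs + k = 0 then 1 else 0)) := by
  have y1 : |ε * (η / 4)| < η / 2 := by
    rcases hε with rfl | rfl <;> simp [abs_lt] <;> constructor <;> linarith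
  have y2 : |ε * (η / 4)| < η := by linarith
  have ev : ∀ x : ℂ, csq (ε * x) = csq (-x) := fun x => by
    rcases hε with rfl | rfl <;> simp [basek_csq]
  set y : ℝ := ε * (η / 4) with hy
  have m2 := four3_mem y2
  have l : Continuous fun t : ℝ => (t : ℂ) + I * y := by fun_prop
  have dd := hθ.diff.deriv (isOpen_strip η)
  have c1 : Continuous fun t : ℝ => θ (t + I * y) := hθ.diff.continuousOn.comp_continuous l m2
  have c2 : Continuous fun t : ℝ => deriv θ (t + I * y) := dd.continuousOn.comp_continuous l m2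
  have du : ∀ n : ℤ, DifferentiableOn ℂ (fun t => exp (I * n * θ t)) (strip η) := fun n =>
    (hθ.diff.const_mul _).cexp
  obtain ⟨a1, a2⟩ := linka_csq (φ := fun t : ℝ => ε * (t + I * y - s))
    (g := fun t => exp (I * k * θ (t + I * y))) (δ := η / 4) (by linarith) (by fun_prop)
    (c1.const_mul _).cexp fun t => by rcases hε with rfl | rfl <;> simp [hy]
  obtain ⟨b1, b2⟩ := linka_csq (φ := fun t : ℝ => ε * (θ (t + I * y) - θ s))
    (g := fun t => deriv θ (t + I * y) * exp (I * k * θ (t + I * y))) (δ := m * (η / 4))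
    (by positivity) ((c1.sub continuous_const).const_mul _) (c2.mul (c1.const_mul _).cexp)
    fun t => by
      obtain ⟨p, q, -⟩ := hθ.im_bd (m2 t)
      rcases hε with rfl | rfl
      · simpa [hθ.real s, hy] using p (by simp [hy]; positivity)
      · have := q (by simp [hy]; positivity)
        simp [hθ.real s, hy] at this ⊢
        linarith
  refine ⟨_, linka_congr a2 fun n => by
    congr 1
    rw [← linka_mod, ← four3_mul, ← linka_shift y2
      (f := fun t => exp (I * (-(ε * n) : ℤ) * s) * (exp (-(I * (-(ε * n) : ℤ) * t)) *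
        exp (I * k * θ t))) ((DifferentiableOn.mul (by fun_prop) (du k)).const_mul _)
      fun t ht => by rw [four1_per, linka_eper hθ k ht]]
    congr 1
    funext t
    rw [← mul_assoc, ← exp_add]
    congr 2
    push_cast
    ring, ?_⟩
  have b3 : ∀ n : ℕ, fc (fun t : ℝ => exp (I * n * (ε * (θ (t + I * y) - θ s))) *
      (deriv θ (t + I * y) * exp (I * k * θ (t + I * y)))) 0 =
      exp (I * k * θ s) * if ε * n + k = 0 then 1 else 0 := fun n => by
    have := linka_shift y2 (f := fun t => exp (I * (ε * n + k : ℤ) * θ t) * deriv θ t)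
      ((du _).mul dd) fun t ht => by rw [linka_eper hθ _ ht, linka_dper hθ ht]
    rw [linka_orth hη hθ] at this
    rw [show (exp (I * k * θ s) * if ε * n + k = 0 then 1 else 0) =
      exp (-(I * ε * n * θ s)) * if ε * n + k = 0 then 1 else 0 by
        split_ifs with z
        · rw [show k = -(ε * n) by omega]; congr 2; push_cast; ring
        · simp, ← this, ← four3_mul]
    congr 1
    funext t
    rw [mul_comm (deriv θ _), ← mul_assoc, ← exp_add, ← mul_assoc (exp _), ← exp_add]
    congr 2
    push_cast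
    ring
  simp only [b3] at b2
  rw [← b2.unique (hasSum_single k.natAbs fun n hn => by
      rw [if_neg (by rcases hε with rfl | rfl <;> omega)]; simp),
    ← linka_shift y1 (f := fun t => K s t * exp (I * k * θ t))
      ((hK.d2 s (four3_mem0 (half_pos hη) s)).mul ((du k).mono fun t (ht : _ < _) =>
        ht.trans (half_lt_self hη)))
      (fun t ht => by
        rw [hK.p2 s (four3_mem0 (half_pos hη) s) t ht,
          linka_eper hθ k (lt_trans ht (half_lt_self hη))]),
    ← four3_mul, ← neg_one_mul, ← four3_mul,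
    ← linka_add (a1.const_mul _) (b1.const_mul _)]
  congr 1
  funext t
  rw [hK' s (four3_mem0 (half_pos hη) s) _ (four3_mem y1 t) fun e => ?_, ev, ev, neg_sub, neg_sub]
  · ring
  · have := congrArg norm e
    rw [norm_exp, norm_exp, Real.exp_eq_exp] at this
    rcases hε with rfl | rfl <;> simp [hy] at this <;> linarith
end

/-- the disc identity: integrate over the lines `Im t = ± y`, where both singular kernels are
series; the difference `K` is holomorphic and moves back to the real line -/
theorem disc_identity {η m M C : ℝ} {θ : ℂ → ℂ} (hη : 0 < η) (hm : 0 < m) (hM : M * η ≤ 1 / 2)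
    (hθ : CMap η m M θ) {K : ℂ → ℂ → ℂ} (hK : BiHol (η / 2) C K)
    (hK' : ∀ s ∈ strip (η / 2), ∀ t ∈ strip (η / 2), exp (I * s) ≠ exp (I * t) →
      K s t = csq (s - t) - deriv θ s * deriv θ t * csq (θ s - θ t)) (k : ℤ) (s : ℝ) :
    fs (fun a => |a| * fc (fun t => exp (I * k * θ t)) a) s +
      2 * fc (fun t => K s t * exp (I * k * θ t)) 0 = |k| * exp (I * k * θ s) * deriv θ s := by
  obtain ⟨X, a, b⟩ := linka_side hη hm hθ hK hK' k s (.inr rfl)
  obtain ⟨Y, c, d⟩ := linka_side hη hm hθ hK hK' k s (.inl rfl)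
  have e := HasSum.of_nat_of_neg
    (f := fun a : ℤ => (|a| : ℤ) * fc (fun t => exp (I * k * θ t)) a * exp (I * a * s))
    (linka_congr a fun n => by simp; ring) (linka_congr c fun n => by simp; ring)
  rw [fs, e.tsum_eq, two_mul]
  nth_rewrite 1 [b]
  rw [d]
  obtain ⟨n, rfl | rfl⟩ := k.eq_nat_or_neg
  all_goals
    rcases n.eq_zero_or_pos with rfl | z
    · simp
      ring
    · simp [z.ne']
      ring

theorem linka_pars {c : ℤ → ℂ} (hc : Summable fun k => ‖c k‖) {u : ℝ → ℂ} (hu : Continuous u) :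
    HasSum (fun n => c (-n) * fc u n) (fc (fun t => fs c t * u t) 0) := by
  have := linka_sum (F := fun n (t : ℝ) => c n * exp (I * n * t)) hc (fun n => by fun_prop) hu
    (fun n t => by rw [norm_mul, (four1_norm n t).1, mul_one])
    fun t => (four1_sum hc t).of_norm.hasSum
  exact linka_congr ((Equiv.neg ℤ).hasSum_iff.2 this) fun n => by
    simp [← linka_mod u n, mul_assoc, four3_mul]

/-- the matrix acts as the integral operator -/
theorem Sap_Sfun {η m M : ℝ} {θ : Bool → ℂ → ℂ} (hη : 0 < η) (hm : 0 < m) (hM : M * η ≤ 1 / 2)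
    (hθ : ∀ j, CMap η m M (θ j)) {H : ℝ} (hH : 2 ≤ H) {u : Bool → ℝ → ℂ} (hu : ∀ j, Continuous (u j))
    (hp : ∀ j, Function.Periodic (u j) (2 * Real.pi)) (b : Idx) :
    Sap (Sfun θ H) (fun c => fc (u c.1) c.2) b =
      fc (fun s => ∑ j, 2 * Real.pi * fc (fun t => kerF θ H b.1 j s t * u j t) 0) b.2 := by
  obtain ⟨C, h⟩ := kerExt hη hm hM
  have η2 := half_pos hη
  have r := four3_mem0 η2
  choose K hK e using h θ hθ H (by simpa using hH) b.1
  have e' : ∀ j (s t : ℝ), exp (I * s) ≠ exp (I * t) → kerF θ H b.1 j s t = K j s t :=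
    fun j s t k => (e j s (r s) t (r t) (.inr k)).symm
  have c := fun j => (hK j).four3_c continuous_ofReal continuous_ofReal r r
  have c' : ∀ j, Continuous (Function.uncurry fun s t : ℝ => K j s t * u j t) := fun j =>
    (c j).mul ((hu j).comp continuous_snd)
  have p : ∀ j (s : ℝ), fc (fun t => kerF θ H b.1 j s t * u j t) 0 =
      fc (fun t => K j s t * u j t) 0 := fun j s => by
    have z := (countable_range fun n : ℤ => s - n * (2 * Real.pi)).ae_notMem MeasureTheory.volume
    rw [fc, fc, intervalIntegral.integral_congr_ae]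
    filter_upwards [z] with t ht _
    rw [e' j s t fun e => ht ?_]
    obtain ⟨n, hn⟩ := exp_eq_exp_iff_exists_int.1 e
    refine ⟨n, ofReal_injective (mul_left_cancel₀ I_ne_zero ?_)⟩
    push_cast
    linear_combination hn
  have q : ∀ j, HasSum (fun n => Sfun θ H b (j, n) * fc (u j) n)
      (fc (fun s => 2 * Real.pi * fc (fun t => K j s t * u j t) 0) b.2) := fun j => by
    have sw : ∀ n, fc (fun t => fc (fun s => K j s t) b.2) n = fc2 (fun s t => K j s t) b.2 n :=
      fun n => (four3_swap (c j) _ _).symm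
    have sm : Summable fun n => ‖fc (fun t => fc (fun s => K j s t) b.2) n‖ :=
      .of_nonneg_of_le (fun _ => norm_nonneg _) (fun n => sw n ▸ (hK j).decay η2 b.2 n)
        (((four3_sum η2).mul_left _).mul_left _)
    have := (linka_pars sm (hu j)).mul_left (2 * Real.pi : ℂ)
    simp only [fs_fc (four3_cont (G := fun t s => K j s t) ((c j).comp continuous_swap) b.2)
      (fun t => by
        congr 1
        funext s
        simpa using (hK j).p2 s (r s) t (r t)) sm, sw] at this
    rw [four3_mul, show fc (fun s => fc (fun t => K j s t * u j t) 0) b.2 =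
      fc (fun t => fc (fun s => K j s t) b.2 * u j t) 0 from (four3_swap (c' j) b.2 0).trans
        (congrArg (fc · 0) (funext fun t => by
          rw [mul_comm, ← four3_mul]; simp only [mul_comm (u j t)]))]
    exact linka_congr this fun n => by rw [Sfun, fc2_congr (e' j), mul_assoc]
  simp only [p, Fintype.sum_bool]
  rw [linka_add ((four3_cont (c' _) 0).const_mul _) ((four3_cont (c' _) 0).const_mul _), add_comm]
  exact ((Equiv.boolProdEquivSum ℤ).symm.hasSum_iff.1 (HasSum.sum (f := (fun c : Idx =>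
    Sfun θ H b c * fc (u c.1) c.2) ∘ (Equiv.boolProdEquivSum ℤ).symm) (q false) (q true))).tsum_eq

end StekIso
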