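import Pool.Agent.Lib.MP_fa022d_an.Defs5
import Pool.Agent.Lib.MP_fa022d_an.SepF
import Pool.Agent.Lib.MP_fa022d_an.Four1

open Set Filter Topology Metric BoundedContinuousFunction Complex

noncomputable section
namespace StekIso

theorem lowa_sum {η : ℝ} (h : 0 < η) : Summable fun c : Idx => ex η c.2 :=
  (summable_prod_of_nonneg fun c => (ex_pos η c.2).le).2
    ⟨fun _ => by simpa using summable_ex h 0, .of_finite⟩

/-- the indices below the cut -/
theorem lowa_enum {ℓ : Bool → ℝ} {M t : ℝ} (h0 : ∀ j, 0 < ℓ j) (h1 : ∀ j, ℓ j ≤ M) (ht : 0 ≤ t) :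
    ∃ (d : ℕ) (low : Fin d → Idx), Function.Injective low ∧ (∀ b, b ∈ range low ↔ dval ℓ b < t) ∧
      (d : ℝ) ≤ 4 * (M * t) + 6 := by
  classical
  have M0 : 0 ≤ M * t := mul_nonneg ((h0 true).le.trans (h1 true)) ht
  let L : ℕ := ⌈M * t⌉₊
  let s : Finset Idx := (Finset.univ ×ˢ Finset.Icc (-L : ℤ) L).filter fun b => dval ℓ b < t
  refine ⟨s.card, fun l => s.equivFin.symm l,
    Subtype.val_injective.comp s.equivFin.symm.injective, fun b => ⟨?_, fun h => ?_⟩, ?_⟩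
  · rintro ⟨l, rfl⟩
    exact (Finset.mem_filter.1 (s.equivFin.symm l).2).2
  · refine ⟨s.equivFin ⟨b, Finset.mem_filter.2 ⟨Finset.mem_product.2 ⟨Finset.mem_univ _,
      Finset.mem_Icc.2 (abs_le.1 ?_)⟩, h⟩⟩, by simp⟩
    rw [dval, div_lt_iff₀ (h0 _)] at h
    have : |(b.2 : ℝ)| ≤ L := by
      nlinarith [Nat.le_ceil (M * t), mul_le_mul_of_nonneg_left (h1 b.1) ht]
    exact_mod_cast this
  · have a : s.card ≤ 2 * (2 * L + 1) := (Finset.card_filter_le _ _).trans_eq (by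
      rw [Finset.card_product, Int.card_Icc, Finset.card_univ, Fintype.card_bool]
      omega)
    have b : (s.card : ℝ) ≤ 2 * (2 * L + 1) := by exact_mod_cast a
    linarith [Nat.ceil_lt_add_one M0]

/-- the tail above the cut -/
theorem lowa_tail {η M D : ℝ} {ℓ : Bool → ℝ} {s : Set Idx} (h : 0 < η) (l : ∀ j, 0 < ℓ j)
    (m : ∀ j, 1 ≤ M * ℓ j) (D0 : 0 < D) (hD : ∀ b ∉ s, D ≤ dval ℓ b) :
    (∑' b : Idx, sᶜ.indicator (fun b => ex η b.2) b) * D ^ 2 ≤ 8 * M ^ 2 / η ^ 2 * EE (η / 2) := by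
  rw [← le_div_iff₀ (by positivity), ← div_mul_eq_mul_div, EE, ← tsum_mul_left]
  refine ((lowa_sum h).indicator _).tsum_le_tsum (fun b => ?_)
    ((lowa_sum (half_pos h)).mul_left _)
  have p := ex_pos (η / 2) b.2
  by_cases k : b ∈ s
  · rw [indicator_of_notMem (not_not.2 k)]
    positivity
  · have x := sepf_ex (half_pos h) (l b.1) (m b.1) D0 (hD b k)
    rw [indicator_of_mem k, show ex η b.2 = ex (η / 2) b.2 * ex (η / 2) b.2 by
      rw [ex, ex, ← Real.exp_add]; congr 1; ring]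
    refine mul_le_mul_of_nonneg_right ?_ p.le
    rw [le_div_iff₀ (by positivity), le_div_iff₀ (by positivity)]
    linarith

theorem lowa_small {K x A c N : ℝ} (hK : 0 ≤ K) (hc : 0 < c) (hN : 0 < N) (hx : x * N ^ 2 ≤ A)
    (h : 2 * K * A / c ≤ N) : K * x ≤ c / (2 * N) := by
  rw [div_le_iff₀ hc] at h
  rw [le_div_iff₀ (by positivity)]
  refine le_of_mul_le_mul_right ?_ hN
  nlinarith [mul_le_mul_of_nonneg_left hx hK]

theorem cut_ok {η1 C lam c : ℝ} (h1 : 0 < η1) (hC : 1 ≤ C) (hc : 0 < c) (hs : Sep (lenf lam) c) :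
    ∃ n0 : ℕ, ∀ N ≥ n0, ∃ (d : ℕ) (low : Fin d → Idx), CutOK η1 C (cutAt c N) (lenf lam) low := by
  obtain ⟨M, -, M2, hM⟩ := sepf_len lam
  have E : 0 ≤ EE η1 := tsum_nonneg fun _ => (ex_pos _ _).le
  have E2 : 0 ≤ EE (η1 / 2) := tsum_nonneg fun _ => (ex_pos _ _).le
  have R : 0 ≤ ∑ j, 1 / lenf lam j := Finset.sum_nonneg fun j _ => (one_div_pos.2 (hM j).1).le
  have R' : 0 ≤ ∑ j, lenf lam j := Finset.sum_nonneg fun j _ => (hM j).1.le
  obtain ⟨K, hK, K0⟩ : ∃ K, K = 16 * C * (1 + EE η1) * ∑ j, 1 / lenf lam j ∧ 0 ≤ K :=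
    ⟨_, rfl, by positivity⟩
  obtain ⟨K', hK', K1⟩ : ∃ K, K = 16 * C * (1 + EE η1) ^ 2 * ∑ j, 1 / lenf lam j ∧ 0 ≤ K :=
    ⟨_, rfl, by positivity⟩
  obtain ⟨Q, hQ, Q0⟩ : ∃ Q, Q = 4 * (∑ j, lenf lam j) * ∑ j, 1 / lenf lam j ∧ 0 ≤ Q :=
    ⟨_, rfl, by positivity⟩
  obtain ⟨A, hA, A0⟩ : ∃ A, A = 8 * M ^ 2 / η1 ^ 2 ∧ 0 ≤ A := ⟨_, rfl, by positivity⟩
  obtain ⟨B, hB, B0⟩ : ∃ B, B = A * EE (η1 / 2) ∧ 0 ≤ B := ⟨_, rfl, by positivity⟩
  have p1 : 0 ≤ 2 * K * A / c := by positivity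
  have p2 : 0 ≤ 2 * K * B / c := by positivity
  have p3 : 0 ≤ 2 * K' * A / c := by positivity
  have p4 : 0 ≤ Q * (8 * M + 6) * B := by positivity
  obtain ⟨n0, hn⟩ := exists_nat_ge
    (1 + c + 4 * K + 2 * K * A / c + 2 * K * B / c + 2 * K' * A / c + Q * (8 * M + 6) * B)
  refine ⟨n0, fun N hN => ?_⟩
  have N0 : (n0 : ℝ) ≤ N := by exact_mod_cast hN
  have N1 : (1 : ℝ) ≤ N := by linarith
  have p : 0 < c / (2 * N) := by positivity
  have p' : c / (2 * N) ≤ N / 2 := by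
    rw [div_le_div_iff₀ (by positivity) two_pos]
    nlinarith
  have cu := sep_cut hc hs (by exact_mod_cast N1 : 1 ≤ N)
  have ec : cutAt c N = N + c / (2 * N) := rfl
  obtain ⟨d, low, i, m, hd⟩ := lowa_enum (fun j => (hM j).1) (fun j => (hM j).2.1)
    (by linarith : 0 ≤ cutAt c N)
  have hi : ∀ b ∉ range low, cutAt c N + c / (2 * N) ≤ dval (lenf lam) b := fun b k => by
    have := cu b
    rw [abs_of_nonneg (by linarith [not_lt.1 (mt (m b).2 k)])] at this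
    linarith
  have T := lowa_tail h1 (fun j => (hM j).1) (fun j => (hM j).2.2.1) (by linarith : (0 : ℝ) < N)
    fun b k => by linarith [hi b k]
  rw [← hA, ← hB] at T
  have X : ∀ b : Idx, N / 2 ≤ dval (lenf lam) b → ex η1 b.2 * N ^ 2 ≤ A := fun b k => by
    have := sepf_ex h1 (hM b.1).1 (hM b.1).2.2.1 (by linarith : (0 : ℝ) < N / 2) k
    rw [hA, le_div_iff₀ (by positivity)]
    linarith
  refine ⟨d, low, h1, hC, fun j => (hM j).1, i, m, fun l b k => ?_, fun b k => ?_, ?_⟩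
  · have t := lowa_small K0 hc (by linarith) T (by linarith)
    have u := hi b k
    have v := cu (low l)
    rw [abs_of_neg (by linarith [(m _).1 (mem_range_self l)])] at v
    rw [← hK, mul_add]
    by_cases f : N / 2 ≤ dval (lenf lam) (low l)
    · linarith [lowa_small K0 hc (by linarith) (X _ f) (by linarith)]
    · linarith [mul_le_of_le_one_right K0 (sepf_ex1 h1 (low l).2)]
  · rw [← hK']
    linarith [lowa_small K1 hc (by linarith) (X b (by linarith [hi b k])) (by linarith), hi b k]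
  · have T0 : 0 ≤ ∑' b : Idx, (range low)ᶜ.indicator (fun b => ex η1 b.2) b :=
      tsum_nonneg fun b => indicator_nonneg (fun _ _ => (ex_pos _ _).le) b
    generalize ∑' b : Idx, (range low)ᶜ.indicator (fun b => ex η1 b.2) b = t at T T0
    have d1 : (d : ℝ) ≤ (8 * M + 6) * N := by nlinarith
    refine le_of_mul_le_mul_right ?_ (by positivity : (0 : ℝ) < N ^ 2)
    calc _ = Q * d * (t * N ^ 2) := by rw [hQ]; ring
      _ ≤ Q * ((8 * M + 6) * N) * B := by gcongr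
      _ = Q * (8 * M + 6) * B * N := by ring
      _ ≤ N * N := by gcongr; linarith
      _ = _ := by ring

end StekIso
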