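import Pool.Agent.Lib.MP_fa022d_an.Defs5
import Pool.Agent.Lib.MP_fa022d_an.BaseK
import Pool.Agent.Lib.MP_fa022d_an.Hol2
import Pool.Agent.Lib.MP_fa022d_an.Hol3

open Set Filter Topology Metric BoundedContinuousFunction Complex

noncomputable section
namespace StekIso

theorem lowb_ex_le {η : ℝ} (h : 0 < η) (k : ℤ) : ex η k ≤ 1 :=
  Real.exp_le_one_iff.2 (by nlinarith [abs_nonneg (k : ℝ)])

/-- the weight off the low set -/
def lowbI (η1 : ℝ) {d : ℕ} (low : Fin d → Idx) : Idx → ℝ :=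
  (range low)ᶜ.indicator fun b => ex η1 b.2

theorem lowb_I_nonneg (η1 : ℝ) {d : ℕ} (low : Fin d → Idx) (b : Idx) : 0 ≤ lowbI η1 low b :=
  indicator_nonneg (fun _ _ => (ex_pos _ _).le) b

theorem lowb_sap {η1 C a ρ : ℝ} {d : ℕ} {low : Fin d → Idx} {S : Idx → Idx → ℂ} (h0 : 0 < η1)
    (hc : Crude η1 C S) (hρ : 0 ≤ ρ) {q : Idx → ℂ} {c0 : Idx}
    (hq : ∀ c, ‖q c‖ ≤ (if c = c0 then a else 0) + ρ * lowbI η1 low c) (b : Idx) :
    Summable (fun c => S b c * q c) ∧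
      ‖Sap S q b‖ ≤ C * ex η1 b.2 * (a * ex η1 c0.2 + ρ * ∑' c, lowbI η1 low c) := by
  obtain ⟨hC, -, hs, -⟩ := hc.rowBdd h0
  have s1 : HasSum (fun c : Idx => if c = c0 then a * ex η1 c0.2 else 0) (a * ex η1 c0.2) :=
    hasSum_ite_eq c0 _
  have s2 : Summable (lowbI η1 low) := hs.indicator _
  have s3 := (s1.add (s2.hasSum.mul_left ρ)).mul_left (C * ex η1 b.2)
  have k : ∀ c, ‖S b c * q c‖ ≤
      C * ex η1 b.2 * ((if c = c0 then a * ex η1 c0.2 else 0) + ρ * lowbI η1 low c) := fun c => by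
    have e1 := ex_pos η1 b.2
    have e2 := ex_pos η1 c.2
    have e3 := mul_nonneg hρ (lowb_I_nonneg η1 low c)
    have e4 : ex η1 c.2 * ‖q c‖ ≤ (if c = c0 then a * ex η1 c0.2 else 0) + ρ * lowbI η1 low c := by
      refine (mul_le_mul_of_nonneg_left (hq c) e2.le).trans ?_
      rw [mul_add]
      refine add_le_add (le_of_eq ?_) (mul_le_of_le_one_left e3 (lowb_ex_le h0 _))
      split_ifs with h
      · rw [h, mul_comm]
      · exact mul_zero _
    calc _ = ‖S b c‖ * ‖q c‖ := norm_mul _ _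
      _ ≤ C * (ex η1 b.2 * ex η1 c.2) * ‖q c‖ := mul_le_mul_of_nonneg_right (hc b c) (norm_nonneg _)
      _ = C * ex η1 b.2 * (ex η1 c.2 * ‖q c‖) := by ring
      _ ≤ _ := mul_le_mul_of_nonneg_left e4 (by positivity)
  exact ⟨Summable.of_norm_bounded s3.summable k, tsum_of_norm_bounded s3 k⟩

theorem lowb_diff {W : Type} [NormedAddCommGroup W] [NormedSpace ℂ W] {V : Set W} (hV : IsOpen V)
    {η1 C : ℝ} (h0 : 0 < η1) {S : W → Idx → Idx → ℂ}
    (hS : ∀ b c, DifferentiableOn ℂ (fun z => S z b c) V) (hc : ∀ z ∈ V, Crude η1 C (S z))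
    {q : W → Idx → ℂ} (hq : ∀ c, DifferentiableOn ℂ (fun z => q z c) V)
    (hb : ∀ z ∈ V, ∀ c, ‖q z c‖ ≤ 2) (b : Idx) :
    DifferentiableOn ℂ (fun z => Sap (S z) (q z) b) V := by
  rcases V.eq_empty_or_nonempty with rfl | ⟨z0, hz0⟩
  · exact differentiableOn_empty
  obtain ⟨-, -, hs, -⟩ := (hc z0 hz0).rowBdd h0
  refine (diffOn_tsum hV (u := fun c : Idx => C * (ex η1 b.2 * ex η1 c.2) * 2)
    (((hs.mul_left _).mul_left _).mul_right _) (fun c => (hS b c).mul (hq c)) fun c z hz => ?_).1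
  exact (norm_mul_le _ _).trans
    (mul_le_mul (hc z hz b c) (hb z hz c) (norm_nonneg _) ((norm_nonneg _).trans (hc z hz b c)))

theorem lowb_div {W : Type} [NormedAddCommGroup W] [NormedSpace ℂ W] {V : Set W} {f : W → ℂ}
    (h : DifferentiableOn ℂ f V) (c : ℂ) : DifferentiableOn ℂ (fun w => f w / c) V := by
  simpa only [div_eq_mul_inv] using h.mul_const c⁻¹

open Classical in
/-- the graph attached to the unknown `g` -/
def lowbG (η1 : ℝ) {d : ℕ} (low : Fin d → Idx) (g : Fin d × Idx → ℂ) (l : Fin d) (b : Idx) : ℂ :=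
  if b ∈ range low then (if b = low l then 1 else 0) else ex η1 b.2 * g (l, b)

open Classical in
/-- the fixed point map -/
def lowbT (η1 : ℝ) (ℓ : Bool → ℝ) {d : ℕ} (low : Fin d → Idx) (S : Idx → Idx → ℂ)
    (g : Fin d × Idx → ℂ) (i : Fin d × Idx) : ℂ :=
  if i.2 ∈ range low then 0 else
    (-(Sap S (lowbG η1 low g i.1) i.2 / ℓ i.2.1) + ∑ l', lowbG η1 low g l' i.2 *
      Sap S (lowbG η1 low g i.1) (low l') / ℓ (low l').1) /
      (((dval ℓ i.2 - dval ℓ (low i.1)) * ex η1 i.2.2 : ℝ) : ℂ)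

section
variable {η1 C cut : ℝ} {ℓ : Bool → ℝ} {d : ℕ} {low : Fin d → Idx} {S : Idx → Idx → ℂ}
  {g g' : Fin d × Idx → ℂ}

theorem lowb_off {ρ : ℝ} (hg : ∀ i, ‖g i‖ ≤ ρ) (l : Fin d) {b : Idx} (hb : b ∉ range low) :
    ‖lowbG η1 low g l b‖ ≤ ρ * ex η1 b.2 := by
  rw [lowbG, if_neg hb, norm_mul, Complex.norm_real, Real.norm_of_nonneg (ex_pos _ _).le, mul_comm]
  exact mul_le_mul_of_nonneg_right (hg _) (ex_pos _ _).le

theorem lowb_G_le (hg : ∀ i, ‖g i‖ ≤ 2) (l : Fin d) (c : Idx) :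
    ‖lowbG η1 low g l c‖ ≤ (if c = low l then 1 else 0) + 2 * lowbI η1 low c := by
  by_cases hb : c ∈ range low
  · rw [lowbG, if_pos hb, lowbI, indicator_of_notMem (by simpa using hb)]
    split_ifs <;> simp
  · rw [lowbI, indicator_of_mem (show c ∈ (range low)ᶜ from hb), if_neg fun h => hb ⟨l, h.symm⟩,
      zero_add]
    exact lowb_off hg l hb

theorem lowb_G_two (h0 : 0 < η1) (hg : ∀ i, ‖g i‖ ≤ 2) (l : Fin d) (c : Idx) :
    ‖lowbG η1 low g l c‖ ≤ 2 := by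
  by_cases hb : c ∈ range low
  · rw [lowbG, if_pos hb]
    split_ifs <;> simp
  · linarith [lowb_off (η1 := η1) hg l hb, lowb_ex_le h0 c.2]

theorem lowb_G_sub {n : ℝ} (hn : ∀ i, ‖g i - g' i‖ ≤ n) (l : Fin d) (c : Idx) :
    ‖lowbG η1 low g l c - lowbG η1 low g' l c‖ ≤
      (if c = low l then 0 else 0) + n * lowbI η1 low c := by
  rw [ite_self, zero_add]
  by_cases hb : c ∈ range low
  · rw [lowbG, lowbG, if_pos hb, if_pos hb, lowbI, indicator_of_notMem (by simpa using hb)]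
    simp
  · rw [lowbI, indicator_of_mem (show c ∈ (range low)ᶜ from hb), lowbG, lowbG, if_neg hb,
      if_neg hb, ← mul_sub, norm_mul, Complex.norm_real, Real.norm_of_nonneg (ex_pos _ _).le,
      mul_comm]
    exact mul_le_mul_of_nonneg_right (hn _) (ex_pos _ _).le

theorem lowb_A (h0 : 0 < η1) (hc : Crude η1 C S) (hg : ∀ i, ‖g i‖ ≤ 2) (l : Fin d) (b : Idx) :
    ‖Sap S (lowbG η1 low g l) b‖ ≤
      2 * (C * ex η1 b.2 * (ex η1 (low l).2 + ∑' c, lowbI η1 low c)) := by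
  have hC := (hc.rowBdd h0).1
  have e1 := ex_pos η1 b.2
  have e2 := ex_pos η1 (low l).2
  refine (lowb_sap h0 hc zero_le_two (lowb_G_le hg l) b).2.trans ?_
  have : 0 ≤ C * ex η1 b.2 * ex η1 (low l).2 := by positivity
  linarith

theorem lowb_dA (h0 : 0 < η1) (hc : Crude η1 C S) (hg : ∀ i, ‖g i‖ ≤ 2) (hg' : ∀ i, ‖g' i‖ ≤ 2)
    {n : ℝ} (n0 : 0 ≤ n) (hn : ∀ i, ‖g i - g' i‖ ≤ n) (l : Fin d) (b : Idx) :
    ‖Sap S (lowbG η1 low g l) b - Sap S (lowbG η1 low g' l) b‖ ≤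
      n * (C * ex η1 b.2 * (ex η1 (low l).2 + ∑' c, lowbI η1 low c)) := by
  have hC := (hc.rowBdd h0).1
  have e1 := ex_pos η1 b.2
  have e2 := ex_pos η1 (low l).2
  have e : Sap S (lowbG η1 low g l) b - Sap S (lowbG η1 low g' l) b =
      Sap S (fun c => lowbG η1 low g l c - lowbG η1 low g' l c) b := by
    simp only [Sap, mul_sub]
    exact ((lowb_sap h0 hc zero_le_two (lowb_G_le hg l) b).1.tsum_sub
      (lowb_sap h0 hc zero_le_two (lowb_G_le hg' l) b).1).symm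
  rw [e]
  refine (lowb_sap h0 hc n0 (lowb_G_sub hn l) b).2.trans ?_
  have : 0 ≤ n * (C * ex η1 b.2 * ex η1 (low l).2) := by positivity
  linarith

/-- the common estimate for the numerator divided by the divisor -/
theorem lowb_quot (h : CutOK η1 C cut ℓ low) (hc : Crude η1 C S) {l : Fin d} {b : Idx}
    (hb : b ∉ range low) {x : ℂ} {y : Fin d → ℂ} {n : ℝ} (n0 : 0 ≤ n)
    (hx : ‖x‖ ≤ n * (C * ex η1 b.2 * (ex η1 (low l).2 + ∑' c, lowbI η1 low c)))
    (hy : ∀ l', ‖y l'‖ ≤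
      n * ex η1 b.2 * (C * ex η1 (low l').2 * (ex η1 (low l).2 + ∑' c, lowbI η1 low c))) :
    ‖(-(x / ℓ b.1) + ∑ l', y l' / ℓ (low l').1) /
      (((dval ℓ b - dval ℓ (low l)) * ex η1 b.2 : ℝ) : ℂ)‖ ≤ n / 16 := by
  obtain ⟨hC, hE, hs, -⟩ := hc.rowBdd h.η_pos
  have big : 16 * C * (1 + EE η1) * (∑ j, 1 / ℓ j) * (ex η1 (low l).2 + ∑' c, lowbI η1 low c) ≤
    dval ℓ b - dval ℓ (low l) := h.big l b hb
  have C1 := h.one_le
  have e1 := ex_pos η1 b.2
  have σ0 : 0 < ex η1 (low l).2 + ∑' c, lowbI η1 low c :=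
    add_pos_of_pos_of_nonneg (ex_pos _ _) (tsum_nonneg (lowb_I_nonneg η1 low))
  have l1 : ∀ j, 1 / ℓ j ≤ ∑ j, 1 / ℓ j := fun j =>
    Finset.single_le_sum (f := fun j => 1 / ℓ j) (fun i _ => (one_div_pos.2 (h.ℓ_pos i)).le)
      (Finset.mem_univ j)
  have l0 : 0 < ∑ j, 1 / ℓ j := (one_div_pos.2 (h.ℓ_pos true)).trans_le (l1 true)
  have sE : ∑ l', ex η1 (low l').2 ≤ EE η1 := by
    have := hs.sum_le_tsum (Finset.univ.map ⟨low, h.inj⟩) fun i _ => (ex_pos η1 i.2).le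
    rwa [Finset.sum_map] at this
  generalize ex η1 (low l).2 + ∑' c, lowbI η1 low c = σ at *
  generalize ∑ j, 1 / ℓ j = lam at *
  have dv : ∀ (u : ℂ) (j : Bool), ‖u / ℓ j‖ ≤ ‖u‖ * lam := fun u j => by
    rw [norm_div, Complex.norm_real, Real.norm_of_nonneg (h.ℓ_pos j).le, div_eq_mul_one_div]
    exact mul_le_mul_of_nonneg_left (l1 j) (norm_nonneg _)
  have D0 : 0 < dval ℓ b - dval ℓ (low l) := lt_of_lt_of_le (by positivity) big
  have k1 : ‖x / ℓ b.1‖ ≤ n * (C * ex η1 b.2 * σ) * lam :=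
    (dv x _).trans (mul_le_mul_of_nonneg_right hx l0.le)
  have k2 : ‖∑ l', y l' / ℓ (low l').1‖ ≤ n * (C * ex η1 b.2 * σ) * lam * EE η1 := by
    refine (norm_sum_le _ _).trans ((Finset.sum_le_sum
      (g := fun l' => n * (C * ex η1 b.2 * σ) * lam * ex η1 (low l').2) fun l' _ => ?_).trans ?_)
    · refine (dv _ _).trans ((mul_le_mul_of_nonneg_right (hy l') l0.le).trans (le_of_eq ?_))
      ring
    · rw [← Finset.mul_sum]
      exact mul_le_mul_of_nonneg_left sE (by positivity)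
  rw [norm_div, Complex.norm_real, Real.norm_of_nonneg (by positivity), div_le_iff₀ (by positivity)]
  refine (norm_add_le _ _).trans ?_
  rw [norm_neg]
  have k3 := mul_le_mul_of_nonneg_left big (show 0 ≤ n / 16 * ex η1 b.2 by positivity)
  nlinarith

theorem lowb_T_le (h : CutOK η1 C cut ℓ low) (hc : Crude η1 C S) (hg : ∀ i, ‖g i‖ ≤ 2)
    (i : Fin d × Idx) : ‖lowbT η1 ℓ low S g i‖ ≤ 1 := by
  rw [lowbT]
  split_ifs with hb
  · simp
  have hC := (hc.rowBdd h.η_pos).1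
  have σ0 : 0 < ex η1 (low i.1).2 + ∑' c, lowbI η1 low c :=
    add_pos_of_pos_of_nonneg (ex_pos _ _) (tsum_nonneg (lowb_I_nonneg η1 low))
  refine (lowb_quot h hc hb (n := 4) (by norm_num) ?_ fun l' => ?_).trans (by norm_num)
  · have e1 := ex_pos η1 i.2.2
    have : 0 ≤ C * ex η1 i.2.2 * (ex η1 (low i.1).2 + ∑' c, lowbI η1 low c) := by positivity
    linarith [lowb_A (low := low) h.η_pos hc hg i.1 i.2]
  · rw [norm_mul]
    refine (mul_le_mul (lowb_off hg l' hb) (lowb_A h.η_pos hc hg i.1 (low l')) (norm_nonneg _)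
      (by have := ex_pos η1 i.2.2; positivity)).trans (le_of_eq ?_)
    ring

theorem lowb_T_lip (h : CutOK η1 C cut ℓ low) (hc : Crude η1 C S) (hg : ∀ i, ‖g i‖ ≤ 2)
    (hg' : ∀ i, ‖g' i‖ ≤ 2) {n : ℝ} (n0 : 0 ≤ n) (hn : ∀ i, ‖g i - g' i‖ ≤ n)
    (i : Fin d × Idx) : ‖lowbT η1 ℓ low S g i - lowbT η1 ℓ low S g' i‖ ≤ 1 / 2 * n := by
  rw [lowbT, lowbT]
  split_ifs with hb
  · simpa using n0
  have hC := (hc.rowBdd h.η_pos).1
  have e1 := ex_pos η1 i.2.2
  have σ0 : 0 < ex η1 (low i.1).2 + ∑' c, lowbI η1 low c :=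
    add_pos_of_pos_of_nonneg (ex_pos _ _) (tsum_nonneg (lowb_I_nonneg η1 low))
  have key := lowb_quot h hc hb (l := i.1) (n := 4 * n)
    (x := Sap S (lowbG η1 low g i.1) i.2 - Sap S (lowbG η1 low g' i.1) i.2)
    (y := fun l' => lowbG η1 low g l' i.2 * Sap S (lowbG η1 low g i.1) (low l') -
      lowbG η1 low g' l' i.2 * Sap S (lowbG η1 low g' i.1) (low l')) (by positivity) (by
      have : 0 ≤ n * (C * ex η1 i.2.2 * (ex η1 (low i.1).2 + ∑' c, lowbI η1 low c)) := by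
        positivity
      linarith [lowb_dA (low := low) h.η_pos hc hg hg' n0 hn i.1 i.2]) fun l' => by
      have a1 := lowb_G_sub (η1 := η1) (low := low) hn l' i.2
      rw [ite_self, zero_add, lowbI, indicator_of_mem (show i.2 ∈ (range low)ᶜ from hb)] at a1
      have a2 := mul_le_mul a1 (lowb_A (low := low) h.η_pos hc hg i.1 (low l')) (norm_nonneg _)
        (by positivity)
      have a3 := mul_le_mul (lowb_off (η1 := η1) hg' l' hb)
        (lowb_dA (low := low) h.η_pos hc hg hg' n0 hn i.1 (low l')) (norm_nonneg _) (by positivity)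
      rw [← norm_mul] at a2 a3
      have e : ∀ p p' q q' : ℂ, p * q - p' * q' = (p - p') * q + p' * (q - q') := fun _ _ _ _ => by
        ring
      rw [e]
      refine (norm_add_le _ _).trans ((add_le_add a2 a3).trans (le_of_eq ?_))
      ring
  rw [← sub_div]
  refine (le_of_eq ?_).trans (key.trans (by linarith))
  simp only [sub_div, Finset.sum_sub_distrib]
  refine congrArg norm ?_
  ring

theorem lowb_graph (h : CutOK η1 C cut ℓ low) (hc : Crude η1 C S) (hg : ∀ i, ‖g i‖ ≤ 1)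
    (fix : ∀ i, lowbT η1 ℓ low S g i = g i) :
    Graph η1 S ℓ low (fun l => toB (lowbG η1 low g l)) fun l' l =>
      (|(low l').2| * (if l = l' then 1 else 0) + Sap S (lowbG η1 low g l) (low l')) /
        ℓ (low l').1 := by
  have hg2 : ∀ i, ‖g i‖ ≤ 2 := fun i => (hg i).trans one_le_two
  have e : ∀ l, ⇑(toB (lowbG η1 low g l)) = lowbG η1 low g l := fun l =>
    funext (toB_apply (lowb_G_two h.η_pos hg2 l))
  have on : ∀ l l', lowbG η1 low g l (low l') = if l = l' then 1 else 0 := fun l l' => by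
    rw [lowbG, if_pos (mem_range_self l')]
    exact if_congr (h.inj.eq_iff.trans eq_comm) rfl rfl
  have l0 : ∀ j, ((ℓ j : ℝ) : ℂ) ≠ 0 := fun j => by exact_mod_cast (h.ℓ_pos j).ne'
  refine ⟨fun l l' => by rw [e, on], fun l b hb => by
    rw [e]; simpa using lowb_off (η1 := η1) hg l hb, fun l b => ?_⟩
  simp only [e, Tm]
  by_cases hb : b ∈ range low
  · obtain ⟨m, rfl⟩ := hb
    simp only [on, ite_mul, one_mul, zero_mul, Finset.sum_ite_eq', Finset.mem_univ, if_true]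
    rw [mul_div_cancel₀ _ (l0 _)]
  · have f := fix (l, b)
    rw [lowbT, if_neg hb] at f
    have hE := (hc.rowBdd h.η_pos).2.1
    have C1 := h.one_le
    have D0 : 0 < dval ℓ b - dval ℓ (low l) := by
      refine lt_of_lt_of_le ?_ (h.big l b hb)
      have s1 : 0 < ∑ j, 1 / ℓ j := Finset.sum_pos (fun j _ => one_div_pos.2 (h.ℓ_pos j))
        Finset.univ_nonempty
      have σ0 : 0 < ex η1 (low l).2 + ∑' c, lowbI η1 low c :=
        add_pos_of_pos_of_nonneg (ex_pos _ _) (tsum_nonneg (lowb_I_nonneg η1 low))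
      exact mul_pos (by positivity) σ0
    rw [div_eq_iff (by exact_mod_cast (mul_pos D0 (ex_pos η1 b.2)).ne')] at f
    have G : lowbG η1 low g l b = ex η1 b.2 * g (l, b) := if_neg hb
    simp only [add_div, mul_add, Finset.sum_add_distrib, mul_ite, mul_one, mul_zero, ite_div,
      zero_div, Finset.sum_ite_eq, Finset.mem_univ, if_true, ← mul_div_assoc]
    simp only [dval] at f
    push_cast at f ⊢
    have f' := congrArg (fun t => (ℓ b.1 : ℂ) * t) f
    simp only [mul_add, mul_neg, mul_div_cancel₀ _ (l0 b.1)] at f'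
    have q : (ℓ b.1 : ℂ) * (((|(b.2 : ℝ)| : ℝ) : ℂ) / ℓ b.1) = ((|(b.2 : ℝ)| : ℝ) : ℂ) :=
      mul_div_cancel₀ _ (l0 b.1)
    have cs : ∀ k : ℤ, ((|k| : ℤ) : ℂ) = ((|(k : ℝ)| : ℝ) : ℂ) := fun k => by
      rw [← Int.cast_abs, Complex.ofReal_intCast]
    rw [cs, cs, G]
    linear_combination (-1 : ℂ) * f' - (ex η1 b.2 * g (l, b)) * q

end

/-- Riccati equation.  Unknown `g (l, b) = Γ l b / ex η1 b` for `b` off the low set, in the unit
ball of bounded functions on `Fin d × Idx`;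
`Hm l' l = (|low l'| δ + Sap S (Γ l) (low l')) / ℓ`, and off the low set
`(dval b - dval (low l)) Γ l b = -(Sap S (Γ l) b) / ℓ b + ∑ l', Γ l' b * Sap S (Γ l) (low l') / ℓ`.
Use `fix_param`. -/
theorem riccati {Z : Type} [NormedAddCommGroup Z] [NormedSpace ℂ Z] {U : Set Z} (hU : IsOpen U)
    {η1 C cut : ℝ} {ℓ : Bool → ℝ} {d : ℕ} {low : Fin d → Idx} (h : CutOK η1 C cut ℓ low)
    {S : Z → Idx → Idx → ℂ} (hS : ∀ b c, DifferentiableOn ℂ (fun z => S z b c) U)
    (hc : ∀ z ∈ U, Crude η1 C (S z)) :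
    ∃ (Γ : Z → Fin d → X) (Hm : Z → Matrix (Fin d) (Fin d) ℂ) (Cb : ℝ),
      (∀ l, DifferentiableOn ℂ (fun z => Γ z l) U) ∧
      (∀ l l', DifferentiableOn ℂ (fun z => Hm z l l') U) ∧
      ∀ z ∈ U, Graph η1 (S z) ℓ low (Γ z) (Hm z) ∧ ∀ l l', ‖Hm z l l'‖ ≤ Cb := by
  have h0 := h.η_pos
  have nb : ∀ {y : Fin d × Idx →ᵇ ℂ} {r : ℝ}, ‖y‖ ≤ r → ∀ i, ‖y i‖ ≤ r := fun hy i =>
    (BoundedContinuousFunction.norm_coe_le_norm _ i).trans hy
  have dG : ∀ {W : Type} [NormedAddCommGroup W] [NormedSpace ℂ W] {V : Set W}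
      {y : W → Fin d × Idx →ᵇ ℂ}, DifferentiableOn ℂ y V → ∀ l c,
      DifferentiableOn ℂ (fun w => lowbG η1 low (y w) l c) V := by
    intro W _ _ V y hy l c
    unfold lowbG
    split_ifs
    · exact differentiableOn_const _
    · exact differentiableOn_const _
    · exact ((BoundedContinuousFunction.evalCLM ℂ (l, c)).differentiable.comp_differentiableOn
        hy).const_mul _
  have b2 : ∀ p ∈ U ×ˢ ball (0 : Fin d × Idx →ᵇ ℂ) 2, ∀ i, ‖p.2 i‖ ≤ 2 := fun p hp =>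
    nb (mem_ball_zero_iff.1 hp.2).le
  have c2 : ∀ {y : Fin d × Idx →ᵇ ℂ}, y ∈ closedBall (0 : Fin d × Idx →ᵇ ℂ) 1 →
      ∀ i, ‖y i‖ ≤ 2 := fun hy => nb ((mem_closedBall_zero_iff.1 hy).trans one_le_two)
  have oV : IsOpen (U ×ˢ ball (0 : Fin d × Idx →ᵇ ℂ) 2) := hU.prod isOpen_ball
  have dA : ∀ l b, DifferentiableOn ℂ (fun p : Z × (Fin d × Idx →ᵇ ℂ) =>
      Sap (S p.1) (lowbG η1 low p.2 l) b) (U ×ˢ ball 0 2) := fun l b =>
    lowb_diff oV h0 (fun b c => (hS b c).comp differentiableOn_fst fun _ hp => hp.1)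
      (fun p hp => hc _ hp.1) (dG differentiableOn_snd l)
      (fun p hp => lowb_G_two h0 (b2 p hp) l) b
  obtain ⟨g, hg, hfix⟩ := fix_param (Θ := fun p : Z × (Fin d × Idx →ᵇ ℂ) =>
    toB (lowbT η1 ℓ low (S p.1) p.2)) hU zero_le_one one_lt_two
    (diffOn_toB oV (fun i => by
      unfold lowbT
      split_ifs
      · exact differentiableOn_const _
      · exact lowb_div ((lowb_div (dA _ _) _).neg.add (DifferentiableOn.fun_sum fun l' _ =>
          lowb_div ((dG differentiableOn_snd l' _).mul (dA _ _)) _)) _)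
      fun p hp => lowb_T_le h (hc _ hp.1) (b2 p hp)).1
    (fun z hz y hy => mem_closedBall_zero_iff.2
      ((BoundedContinuousFunction.norm_le zero_le_one).2 fun i => by
        rw [toB_apply (lowb_T_le h (hc z hz) (c2 hy))]
        exact lowb_T_le h (hc z hz) (c2 hy) i))
    fun z hz y hy y' hy' => (BoundedContinuousFunction.norm_le (by positivity)).2 fun i => by
      rw [BoundedContinuousFunction.sub_apply, toB_apply (lowb_T_le h (hc z hz) (c2 hy)),
        toB_apply (lowb_T_le h (hc z hz) (c2 hy'))]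
      exact lowb_T_lip h (hc z hz) (c2 hy) (c2 hy') (norm_nonneg _) (nb (y := y - y') le_rfl) i
  have g2 : ∀ z ∈ U, ∀ l c, ‖lowbG η1 low (g z) l c‖ ≤ 2 := fun z hz l =>
    lowb_G_two h0 (c2 (hfix z hz).1) l
  obtain ⟨Cb, hCb⟩ := Finite.bddAbove_range fun p : Fin d × Fin d =>
    (‖((|(low p.1).2| : ℤ) : ℂ)‖ + 2 * (C * ex η1 (low p.1).2 *
      (ex η1 (low p.2).2 + ∑' c, lowbI η1 low c))) / ℓ (low p.1).1
  refine ⟨fun z l => toB (lowbG η1 low (g z) l), fun z l' l =>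
    (|(low l').2| * (if l = l' then 1 else 0) + Sap (S z) (lowbG η1 low (g z) l) (low l')) /
      ℓ (low l').1, Cb, fun l => (diffOn_toB hU (dG hg l) fun z hz => g2 z hz l).1,
    fun l' l => lowb_div ((lowb_diff hU h0 hS hc (dG hg l) (fun z hz => g2 z hz l) _).const_add _) _,
    fun z hz => ⟨lowb_graph h (hc z hz) (nb (mem_closedBall_zero_iff.1 (hfix z hz).1)) fun i => ?_,
      fun l' l => le_trans ?_ (hCb ⟨(l', l), rfl⟩)⟩⟩
  · rw [← toB_apply (lowb_T_le h (hc z hz) (c2 (hfix z hz).1)) i]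
    exact congrArg (fun y : Fin d × Idx →ᵇ ℂ => y i) (hfix z hz).2.1
  · rw [norm_div, Complex.norm_real, Real.norm_of_nonneg (h.ℓ_pos _).le]
    refine div_le_div_of_nonneg_right ((norm_add_le _ _).trans (add_le_add ?_
      (lowb_A h0 (hc z hz) (c2 (hfix z hz).1) l (low l')))) (h.ℓ_pos _).le
    split_ifs <;> simp

end StekIso
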