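import Pool.Agent.Lib.MP_fa022d_an.Defs5
import Pool.Agent.Lib.MP_fa022d_an.SchB

open Set Filter Topology Metric BoundedContinuousFunction Complex

noncomputable section
namespace StekIso
variable {η1 C cut : ℝ} {ℓ : Bool → ℝ} {d : ℕ} {low : Fin d → Idx} {S : Idx → Idx → ℂ}
  {Γ : Fin d → X} {Hm : Matrix (Fin d) (Fin d) ℂ}

/-- the vector of the graph with given low coordinates -/
def lowc_E (Γ : Fin d → X) : (Fin d → ℂ) →ₗ[ℂ] X := Fintype.linearCombination ℂ Γ

theorem lowc_app (Γ : Fin d → X) (u : Fin d → ℂ) (b : Idx) :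
    lowc_E Γ u b = ∑ l, u l * Γ l b := by
  rw [lowc_E, Fintype.linearCombination_apply, BoundedContinuousFunction.sum_apply]
  rfl

theorem lowc_low (hG : Graph η1 S ℓ low Γ Hm) (u : Fin d → ℂ) (l : Fin d) :
    lowc_E Γ u (low l) = u l := by
  simp [lowc_app, hG.on_low]

theorem lowc_eq (h0 : 0 < η1) (hc : Crude η1 C S) (hG : Graph η1 S ℓ low Γ Hm) (σ : ℂ)
    (u : Fin d → ℂ) (b : Idx) : Sap S (lowc_E Γ u) b - dvs ℓ σ b * lowc_E Γ u b =
      ℓ b.1 * lowc_E Γ (Matrix.toLin' Hm u - σ • u) b := by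
  have a : Sap S (lowc_E Γ u) b = ∑ l, u l * Sap S (Γ l) b := by
    rw [← schb_op h0 hc, lowc_E, Fintype.linearCombination_apply, map_sum,
      BoundedContinuousFunction.sum_apply]
    exact Finset.sum_congr rfl fun l _ => by rw [map_smul, ← schb_op h0 hc]; rfl
  have t1 : ∑ l, u l * Tm S (Γ l) b = |b.2| * lowc_E Γ u b + Sap S (lowc_E Γ u) b := by
    rw [a, lowc_app, Finset.mul_sum, ← Finset.sum_add_distrib]
    exact Finset.sum_congr rfl fun l _ => by rw [Tm]; ring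
  have t2 : ∑ l, u l * Tm S (Γ l) b = ℓ b.1 * lowc_E Γ (Matrix.toLin' Hm u) b := by
    simp only [hG.inv, lowc_app, Matrix.toLin'_apply, Matrix.mulVec, dotProduct, Finset.mul_sum,
      Finset.sum_mul]
    rw [Finset.sum_comm]
    exact Finset.sum_congr rfl fun l _ => Finset.sum_congr rfl fun l' _ => by ring
  rw [map_sub, map_smul, dvs]
  change _ = ℓ b.1 * (lowc_E Γ (Matrix.toLin' Hm u) b - σ * lowc_E Γ u b)
  linear_combination t2 - t1

theorem lowc_sap (h0 : 0 < η1) (hc : Crude η1 C S) (x : X) (b : Idx) :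
    ‖Sap S x b‖ ≤ C * ex η1 b.2 * ‖x‖ * EE η1 :=
  tsum_of_norm_bounded ((hc.rowBdd h0).2.2.1.hasSum.mul_left (C * ex η1 b.2 * ‖x‖)) fun c => by
    rw [norm_mul]
    exact (mul_le_mul (hc b c) (x.norm_coe_le_norm c) (norm_nonneg _)
      ((norm_nonneg _).trans (hc b c))).trans_eq (by ring)

/-- a vector that vanishes on the low set and solves the equation up to the graph is zero -/
theorem lowc_zero (h : CutOK η1 C cut ℓ low) (hc : Crude η1 C S) (hG : Graph η1 S ℓ low Γ Hm)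
    {σ : ℝ} (hσ : σ < cut) {z : X} {r : Fin d → ℂ} (hz : ∀ l, z (low l) = 0)
    (e : ∀ b, dvs ℓ σ b * z b = Sap S z b + ℓ b.1 * lowc_E Γ r b) : z = 0 ∧ r = 0 := by
  obtain ⟨hC, hE, sm, -⟩ := hc.rowBdd h.η_pos
  have n := norm_nonneg z
  have hL : ∀ j, 1 ≤ (∑ j, 1 / ℓ j) * ℓ j := fun j => (div_le_iff₀ (h.ℓ_pos j)).1
    (Finset.single_le_sum (f := fun j => 1 / ℓ j) (fun i _ => (one_div_pos.2 (h.ℓ_pos i)).le)
      (Finset.mem_univ j))
  have pL : 0 < ∑ j, 1 / ℓ j :=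
    Finset.sum_pos (fun i _ => one_div_pos.2 (h.ℓ_pos i)) Finset.univ_nonempty
  have big := h.big'
  generalize ∑ j, 1 / ℓ j = L at hL pL big
  have nl : ∀ j, ‖(ℓ j : ℂ)‖ = ℓ j := fun j => by
    rw [norm_real, Real.norm_of_nonneg (h.ℓ_pos j).le]
  have r1 : ∀ l, ‖r l‖ ≤ L * C * ‖z‖ * EE η1 * ex η1 (low l).2 := fun l => by
    have a := lowc_sap h.η_pos hc z (low l)
    have k := e (low l)
    rw [hz, mul_zero, lowc_low hG] at k
    rw [eq_neg_of_add_eq_zero_left k.symm, norm_neg, norm_mul, nl] at a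
    have a1 := mul_le_mul_of_nonneg_right (hL (low l).1) (norm_nonneg (r l))
    have a2 := mul_le_mul_of_nonneg_left a pL.le
    linarith
  have r2 : ∑ l, ‖r l‖ ≤ L * C * ‖z‖ * EE η1 * EE η1 := by
    refine (Finset.sum_le_sum fun l _ => r1 l).trans ?_
    rw [← Finset.mul_sum]
    refine mul_le_mul_of_nonneg_left ?_ (by positivity)
    have := sm.sum_le_tsum (Finset.univ.map ⟨low, h.inj⟩) fun c _ => (ex_pos η1 c.2).le
    rwa [Finset.sum_map] at this
  have k : ∀ b, ‖z b‖ ≤ ‖z‖ / 2 := fun b => by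
    by_cases hb : b ∈ range low
    · obtain ⟨l, rfl⟩ := hb
      rw [hz, norm_zero]
      positivity
    have p := ex_pos η1 b.2
    have pl := h.ℓ_pos b.1
    have a := lowc_sap h.η_pos hc z b
    have a1 : ‖lowc_E Γ r b‖ ≤ L * C * ‖z‖ * EE η1 * EE η1 * ex η1 b.2 := by
      rw [lowc_app]
      refine (norm_sum_le _ _).trans (le_trans ?_ (mul_le_mul_of_nonneg_right r2 p.le))
      rw [Finset.sum_mul]
      exact Finset.sum_le_sum fun l _ => by
        rw [norm_mul]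
        exact mul_le_mul_of_nonneg_left (hG.decay l b hb) (norm_nonneg _)
    have g := big b hb
    have pC := zero_lt_one.trans_le h.one_le
    have pg : 0 < 16 * C * (1 + EE η1) ^ 2 * L * ex η1 b.2 := by positivity
    have a2 : ‖dvs ℓ σ b‖ = ℓ b.1 * (dval ℓ b - σ) := by
      have : dvs ℓ σ b = -((ℓ b.1 * (dval ℓ b - σ) : ℝ) : ℂ) := by
        rw [dvs, dval, mul_sub, mul_div_cancel₀ _ pl.ne', ← Int.cast_abs, ofReal_sub, ofReal_mul,
          ofReal_intCast]
        ring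
      rw [this, norm_neg, norm_real, Real.norm_of_nonneg (mul_nonneg pl.le (by linarith))]
    have a3 := (congrArg norm (e b)).le.trans (norm_add_le _ _)
    rw [norm_mul, norm_mul, nl, a2] at a3
    have a4 := mul_le_mul_of_nonneg_left a1 pl.le
    have a5 := mul_le_mul_of_nonneg_right (hL b.1)
      (show 0 ≤ C * ex η1 b.2 * ‖z‖ * EE η1 by positivity)
    have a6 := mul_le_mul_of_nonneg_left (mul_le_mul_of_nonneg_right
      (show 16 * C * (1 + EE η1) ^ 2 * L * ex η1 b.2 ≤ dval ℓ b - σ by linarith)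
      (norm_nonneg (z b))) pl.le
    have a7 : 0 ≤ ℓ b.1 * C * L * ex η1 b.2 * ‖z‖ * (8 + 15 * EE η1 + 7 * EE η1 ^ 2) := by
      positivity
    refine le_of_mul_le_mul_left ?_ (mul_pos pl pg)
    linarith
  have z0 : ‖z‖ = 0 := by
    have := (BoundedContinuousFunction.norm_le (by positivity)).2 k
    linarith
  refine ⟨norm_eq_zero.1 z0, funext fun l => norm_le_zero_iff.1 ((r1 l).trans_eq ?_)⟩
  rw [z0]
  ring

/-- eigenvectors below the cut lie in the graph: `z = x - ∑ x (low l) Γ l` vanishes on the low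
set and `‖z‖ ≤ ‖z‖ / 2` -/
theorem Graph.ker_equiv (h : CutOK η1 C cut ℓ low) (hc : Crude η1 C S)
    (hG : Graph η1 S ℓ low Γ Hm) {σ : ℝ} (hσ : σ < cut) :
    Nonempty (Ker S ℓ σ ≃ₗ[ℂ] Module.End.eigenspace (Matrix.toLin' Hm) σ) := by
  have q := lowc_eq h.η_pos hc hG σ
  let F : Module.End.eigenspace (Matrix.toLin' Hm) σ →ₗ[ℂ] Ker S ℓ σ :=
    (lowc_E Γ).restrict fun u hu => (mem_Ker_iff h.η_pos hc _).2 fun b => by
      have := q u b
      rw [Module.End.mem_eigenspace_iff.1 hu, sub_self, map_zero] at this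
      exact (sub_eq_zero.1 (this.trans (mul_zero _))).symm
  refine ⟨(LinearEquiv.ofBijective F ⟨fun u v e => Subtype.ext (funext fun l => ?_),
    fun x => ?_⟩).symm⟩
  · rw [← lowc_low hG u.1, ← lowc_low hG v.1]
    exact DFunLike.congr_fun (congrArg Subtype.val e) (low l)
  · obtain ⟨k1, k2⟩ := lowc_zero h hc hG hσ (z := x.1 - lowc_E Γ fun l => x.1 (low l))
      (r := Matrix.toLin' Hm (fun l => x.1 (low l)) - (σ : ℂ) • fun l => x.1 (low l))
      (fun l => sub_eq_zero.2 (lowc_low hG (fun l => x.1 (low l)) l).symm) fun b => by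
        rw [← q, ← schb_op h.η_pos hc, map_sub]
        change _ * (_ - _) = matOp S x.1 b - matOp S _ b + _
        rw [schb_op h.η_pos hc, schb_op h.η_pos hc, ← (mem_Ker_iff h.η_pos hc _).1 x.2 b]
        ring
    exact ⟨⟨_, Module.End.mem_eigenspace_iff.2 (sub_eq_zero.1 k2)⟩,
      Subtype.ext (sub_eq_zero.1 k1).symm⟩

/-- the weighted form on the graph -/
def lowc_Q (ℓ : Bool → ℝ) (Γ : Fin d → X) (u v : Fin d → ℂ) : ℂ :=
  ∑' b : Idx, ℓ b.1 * ((starRingEnd ℂ) (lowc_E Γ u b) * lowc_E Γ v b)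

theorem lowc_sum (h0 : 0 < η1) (hc : Crude η1 C S) (hG : Graph η1 S ℓ low Γ Hm)
    (u v : Fin d → ℂ) :
    Summable fun b : Idx => ℓ b.1 * ((starRingEnd ℂ) (lowc_E Γ u b) * lowc_E Γ v b) := by
  refine .of_norm_bounded_eventually ((hc.rowBdd h0).2.2.1.mul_left
    ((∑ j, ‖(ℓ j : ℂ)‖) * (‖lowc_E Γ u‖ * ∑ l, ‖v l‖))) ?_
  filter_upwards [(finite_range low).compl_mem_cofinite] with b hb
  have a : ‖lowc_E Γ v b‖ ≤ (∑ l, ‖v l‖) * ex η1 b.2 := by
    rw [lowc_app, Finset.sum_mul]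
    exact (norm_sum_le _ _).trans (Finset.sum_le_sum fun l _ => by
      rw [norm_mul]
      exact mul_le_mul_of_nonneg_left (hG.decay l b hb) (norm_nonneg _))
  have a1 := (lowc_E Γ u).norm_coe_le_norm b
  have a2 := Finset.single_le_sum (f := fun j => ‖(ℓ j : ℂ)‖) (fun i _ => norm_nonneg _)
    (Finset.mem_univ b.1)
  rw [norm_mul, norm_mul, norm_conj, mul_assoc, mul_assoc]
  gcongr

theorem lowc_pos (h : CutOK η1 C cut ℓ low) (hc : Crude η1 C S) (hG : Graph η1 S ℓ low Γ Hm)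
    {v : Fin d → ℂ} (e : lowc_Q ℓ Γ v v = 0) : v = 0 := by
  have s := lowc_sum h.η_pos hc hG v v
  have r : ∀ b : Idx, ℓ b.1 * ((starRingEnd ℂ) (lowc_E Γ v b) * lowc_E Γ v b) =
      ((ℓ b.1 * ‖lowc_E Γ v b‖ ^ 2 : ℝ) : ℂ) := fun b => by
    rw [conj_mul']
    push_cast
    rfl
  simp only [lowc_Q, r] at s e
  rw [← ofReal_tsum, ofReal_eq_zero] at e
  by_contra n
  obtain ⟨l, hl⟩ := Function.ne_iff.1 n
  refine ((summable_ofReal.1 s).tsum_pos (fun b => mul_nonneg (h.ℓ_pos _).le (sq_nonneg _))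
    (low l) (mul_pos (h.ℓ_pos _) (pow_pos ?_ 2))).ne' e
  rw [lowc_low hG]
  exact norm_pos_iff.2 hl

theorem lowc_sym (h0 : 0 < η1) (hc : Crude η1 C S) (hb : BSym S) (hr : RSym S)
    (hG : Graph η1 S ℓ low Γ Hm) (σ : ℝ) (u v : Fin d → ℂ) :
    lowc_Q ℓ Γ u (Matrix.toLin' Hm v - (σ : ℂ) • v) =
      lowc_Q ℓ Γ (Matrix.toLin' Hm u - (σ : ℂ) • u) v := by
  have sm := (hc.rowBdd h0).2.2.1
  have q1 := lowc_eq h0 hc hG σ u
  have q2 := lowc_eq h0 hc hG σ v
  rw [← sub_eq_zero, lowc_Q, lowc_Q,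
    ← (lowc_sum h0 hc hG _ _).tsum_sub (lowc_sum h0 hc hG _ _)]
  generalize lowc_E Γ (Matrix.toLin' Hm u - (σ : ℂ) • u) = x' at q1 ⊢
  generalize lowc_E Γ (Matrix.toLin' Hm v - (σ : ℂ) • v) = y' at q2 ⊢
  generalize lowc_E Γ u = x at q1 ⊢
  generalize lowc_E Γ v = y at q2 ⊢
  have s : Summable fun p : Idx × Idx => (starRingEnd ℂ) (x p.1) * (S p.1 p.2 * y p.2) :=
    .of_norm_bounded ((sm.mul_of_nonneg sm (fun _ => (ex_pos _ _).le)
      fun _ => (ex_pos _ _).le).mul_left (‖x‖ * ‖y‖ * C)) fun p => by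
      rw [norm_mul, norm_mul, norm_conj]
      exact (mul_le_mul (x.norm_coe_le_norm _) (mul_le_mul (hc p.1 p.2) (y.norm_coe_le_norm _)
        (norm_nonneg _) ((norm_nonneg _).trans (hc p.1 p.2))) (by positivity)
        (norm_nonneg _)).trans_eq (by ring)
  have e : ∀ b : Idx, ℓ b.1 * ((starRingEnd ℂ) (x b) * y' b) -
      ℓ b.1 * ((starRingEnd ℂ) (x' b) * y b) =
      ∑' c, (starRingEnd ℂ) (x b) * (S b c * y c) - ∑' c, (starRingEnd ℂ) (x c) * (S c b * y b) :=
    fun b => by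
      have a := congrArg (starRingEnd ℂ) (q1 b)
      have d : (starRingEnd ℂ) (dvs ℓ σ b) = dvs ℓ σ b := by simp [dvs]
      have t : ∑' c, (starRingEnd ℂ) (x c) * (S c b * y b) =
          (starRingEnd ℂ) (Sap S x b) * y b := by
        rw [Sap, conj_tsum, ← tsum_mul_right]
        exact tsum_congr fun c => by rw [map_mul, ← hr, ← hb]; ring
      rw [map_sub, map_mul, map_mul, d, conj_ofReal] at a
      rw [t, tsum_mul_left]
      change _ = _ * Sap S y b - _
      linear_combination y b * a - (starRingEnd ℂ) (x b) * q2 b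
  exact ((tsum_congr e).trans (s.prod.tsum_sub s.prod_symm.prod)).trans (sub_eq_zero.2
    (Summable.tsum_comm (f := fun b c => (starRingEnd ℂ) (x b) * (S b c * y c)) s).symm)

/-- `Hm` is symmetric for the positive definite form `∑' b, ℓ b * x b * conj (y b)` on the graph,
so it is diagonalisable with real eigenvalues -/
theorem Graph.mult (h : CutOK η1 C cut ℓ low) (hc : Crude η1 C S) (hb : BSym S) (hr : RSym S)
    (hG : Graph η1 S ℓ low Γ Hm) (σ : ℝ) :
    Module.finrank ℂ (Module.End.eigenspace (Matrix.toLin' Hm) σ) =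
      Hm.charpoly.rootMultiplicity (σ : ℂ) ∧ (Hm.charpoly.eval (σ : ℂ)).im = 0 := by
  have sy := lowc_sym h.η_pos hc hb hr hG
  have m1 : ∀ (a : ℂ) u v, lowc_Q ℓ Γ u (a • v) = a * lowc_Q ℓ Γ u v := fun a u v => by
    rw [lowc_Q, lowc_Q, map_smul, ← tsum_mul_left]
    exact tsum_congr fun b => by
      change _ * (_ * (a * lowc_E Γ v b)) = _
      ring
  have m2 : ∀ (a : ℂ) u v, lowc_Q ℓ Γ (a • u) v = (starRingEnd ℂ) a * lowc_Q ℓ Γ u v :=
    fun a u v => by
      rw [lowc_Q, lowc_Q, map_smul, ← tsum_mul_left]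
      exact tsum_congr fun b => by
        change _ * ((starRingEnd ℂ) (a * lowc_E Γ u b) * _) = _
        rw [map_mul]
        ring
  constructor
  · rw [← Matrix.charpoly_toLin', ← LinearMap.finrank_maxGenEigenspace_eq]
    have k : ∀ (k : ℕ) v, ((Matrix.toLin' Hm - (σ : ℂ) • 1) ^ k) v = 0 →
        Matrix.toLin' Hm v - (σ : ℂ) • v = 0 := fun k => by
      induction k with
      | zero => exact fun v e => by rw [show v = 0 from e, map_zero, smul_zero, sub_zero]
      | succ k ih =>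
        refine fun v e => lowc_pos h hc hG ?_
        rw [pow_succ, Module.End.mul_apply] at e
        rw [sy, show Matrix.toLin' Hm (Matrix.toLin' Hm v - (σ : ℂ) • v) -
          (σ : ℂ) • (Matrix.toLin' Hm v - (σ : ℂ) • v) = (0 : ℂ) • v from
          (ih _ e).trans (zero_smul ℂ v).symm, m2, map_zero, zero_mul]
    have : Module.End.eigenspace (Matrix.toLin' Hm) σ =
        Module.End.maxGenEigenspace (Matrix.toLin' Hm) σ :=
      le_antisymm (Module.End.genEigenspace_le_maximal _ _ 1) fun v hv => by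
        obtain ⟨n, e⟩ := (Module.End.mem_maxGenEigenspace _ _ _).1 hv
        exact Module.End.mem_eigenspace_iff.2 (sub_eq_zero.1 (k n v e))
    rw [this]
  · rw [(IsAlgClosed.splits _).eval_eq_prod_roots_of_monic Hm.charpoly_monic]
    refine Multiset.prod_induction (fun z : ℂ => z.im = 0) _
      (fun a b ha hb => by rw [mul_im, ha, hb]; ring) one_im fun z hz => ?_
    obtain ⟨μ, hμ, rfl⟩ := Multiset.mem_map.1 hz
    obtain ⟨v, hv⟩ := ((Module.End.hasEigenvalue_iff_isRoot_charpoly (Matrix.toLin' Hm) μ).2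
      (Matrix.charpoly_toLin' Hm ▸ Polynomial.isRoot_of_mem_roots hμ)).exists_hasEigenvector
    have e := sy σ v v
    rw [hv.apply_eq_smul, ← sub_smul, m1, m2] at e
    have := conj_eq_iff_im.1
      (mul_right_cancel₀ (fun z => hv.2 (lowc_pos h hc hG z)) e).symm
    rw [← neg_sub, neg_im, this, neg_zero]

end StekIso
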