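import Pool.Agent.Lib.MP_fa022d_an.Defs5
import Pool.Agent.Lib.MP_fa022d_an.BaseK
import Pool.Agent.Lib.MP_fa022d_an.Hol2

open Set Filter Topology Metric BoundedContinuousFunction Complex

noncomputable section
namespace StekIso

/-- the determinant on arrays -/
def lowd_dt {d : ℕ} (M : Fin d → Fin d → ℂ) : ℂ := (Matrix.of M).det

theorem lowd_diff {d : ℕ} : Differentiable ℂ (lowd_dt (d := d)) := by
  have e : lowd_dt (d := d) = fun M => ∑ σ : Equiv.Perm (Fin d),
      ((Equiv.Perm.sign σ : ℤ) : ℂ) * ∏ i, M (σ i) i := funext fun M => Matrix.det_apply' _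
  rw [e]
  exact (ContDiff.sum fun σ _ => contDiff_const.mul
    (contDiff_prod fun i _ => by fun_prop)).differentiable one_ne_zero

theorem lowd_bd (d : ℕ) (R : ℝ) : ∃ M ≥ 0, ∀ B : Fin d → Fin d → ℂ, ‖B‖ ≤ R →
    ‖fderiv ℂ lowd_dt B‖ ≤ M := by
  obtain ⟨M, hM⟩ := IsCompact.exists_bound_of_continuousOn
    (isCompact_closedBall (0 : Fin d → Fin d → ℂ) (R + 1)) lowd_diff.continuous.continuousOn
  refine ⟨max M 0, le_max_right _ _, fun B hB => ?_⟩
  refine (cauchy_fderiv one_pos lowd_diff.differentiableOn fun y hy => hM y ?_).trans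
    ((div_one M).trans_le (le_max_left _ _))
  have := norm_le_norm_add_norm_sub' y B
  rw [mem_ball_iff_norm] at hy
  exact mem_closedBall_zero_iff.2 (by linarith)

theorem lowd_fin {Z : Type} [NormedAddCommGroup Z] [NormedSpace ℂ Z] {d : ℕ} {z : Z}
    {G B E : Z → Fin d → Fin d → ℂ} {P : Z → ℂ} (hG : DifferentiableAt ℂ G z)
    (hB : DifferentiableAt ℂ B z) (hE : DifferentiableAt ℂ E z) (hP : DifferentiableAt ℂ P z)
    (h0 : E z = 0) (h1 : ∀ᶠ y in 𝓝 z, lowd_dt (G y) * P y = lowd_dt (B y - E y))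
    (h2 : ∀ y, lowd_dt (B y) = P z * lowd_dt (G y)) (w : Z) :
    lowd_dt (G z) * fderiv ℂ P z w = -fderiv ℂ lowd_dt (B z) (fderiv ℂ E z w) := by
  have a := ((lowd_diff _).hasFDerivAt.comp z hG.hasFDerivAt).mul (hP.hasFDerivAt.sub_const (P z))
  have D := (lowd_diff (B z)).hasFDerivAt
  have D' : HasFDerivAt lowd_dt (fderiv ℂ lowd_dt (B z)) (B z - E z) := by rwa [h0, sub_zero]
  have b := (D'.comp z (hB.hasFDerivAt.sub hE.hasFDerivAt)).sub (D.comp z hB.hasFDerivAt)
  have c := DFunLike.congr_fun (a.unique (b.congr_of_eventuallyEq (h1.mono fun y hy => by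
    show lowd_dt (G y) * (P y - P z) = lowd_dt (B y - E y) - lowd_dt (B y)
    rw [mul_sub, hy, h2, mul_comm]))) w
  simpa using c

section
variable {η1 C cut : ℝ} {ℓ : Bool → ℝ} {d : ℕ} {low : Fin d → Idx} {S S' : Idx → Idx → ℂ}
  {Γ Γ' : Fin d → X} {H H' : Matrix (Fin d) (Fin d) ℂ}

theorem lowd_one (h : 0 < η1) (k : ℤ) : ex η1 k ≤ 1 := (basek_ex_mono h.le k).trans (by simp [ex])

theorem lowd_ng (b : Idx) : ng (ng b) = b := by simp [ng]

theorem lowd_ex (b : Idx) : ex η1 (ng b).2 = ex η1 b.2 := basek_ex_neg _ _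

theorem lowd_mem (h : CutOK η1 C cut ℓ low) (b : Idx) : ng b ∈ range low ↔ b ∈ range low := by
  rw [h.mem, h.mem]; simp [dval, ng]

theorem lowd_le (h : 0 < η1) (g : Graph η1 S ℓ low Γ H) (l b) : ‖Γ l b‖ ≤ 1 := by
  by_cases k : b ∈ range low
  · obtain ⟨m, rfl⟩ := k
    rw [g.on_low]; split_ifs <;> simp
  · exact (g.decay l b k).trans (lowd_one h _)

variable (η1 low) in
/-- the decay constant of the graph -/
def lowd_K : ℝ := 1 + ∑ l, (ex η1 (low l).2)⁻¹

theorem lowd_K1 : 1 ≤ lowd_K η1 low :=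
  le_add_of_nonneg_right (Finset.sum_nonneg fun _ _ => (inv_pos.2 (ex_pos _ _)).le)

theorem lowd_dk (h : 0 < η1) (g : Graph η1 S ℓ low Γ H) (l) : Dk η1 (lowd_K η1 low) (Γ l) := by
  intro b
  by_cases k : b ∈ range low
  · obtain ⟨m, rfl⟩ := k
    have := Finset.single_le_sum (f := fun l => (ex η1 (low l).2)⁻¹)
      (fun _ _ => (inv_pos.2 (ex_pos _ _)).le) (Finset.mem_univ m)
    refine (lowd_le h g _ _).trans ?_
    rw [← inv_mul_cancel₀ (ex_pos η1 (low m).2).ne']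
    exact mul_le_mul_of_nonneg_right (by rw [lowd_K]; linarith) (ex_pos _ _).le
  · exact (g.decay l b k).trans (le_mul_of_one_le_left (ex_pos _ _).le lowd_K1)

theorem lowd_l (h : CutOK η1 C cut ℓ low) (j : Bool) : ‖(ℓ j : ℂ)‖ ≤ ∑ j, ℓ j := by
  rw [Complex.norm_real, Real.norm_eq_abs, abs_of_pos (h.ℓ_pos j)]
  exact Finset.single_le_sum (fun j _ => (h.ℓ_pos j).le) (Finset.mem_univ j)

theorem lowd_term (h : CutOK η1 C cut ℓ low) (g : Graph η1 S ℓ low Γ H)
    (g' : Graph η1 S' ℓ low Γ' H') (l m b) : ‖Γ l (ng b) * (ℓ b.1 * Γ' m b)‖ ≤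
      lowd_K η1 low * ex η1 b.2 * ∑ j, ℓ j := by
  rw [norm_mul, norm_mul, ← lowd_ex]
  exact mul_le_mul (lowd_dk h.η_pos g l _) ((mul_le_of_le_one_right (norm_nonneg _)
    (lowd_le h.η_pos g' m b)).trans (lowd_l h _)) (by positivity)
    (mul_pos (one_pos.trans_le lowd_K1) (ex_pos _ _)).le

variable (ℓ low) in
/-- the main part of the Gram matrix -/
def lowd_G (l m : Fin d) : ℂ := if low l = ng (low m) then ℓ (low m).1 else 0

theorem lowd_close (h : CutOK η1 C cut ℓ low) (hc : Crude η1 C S) (g : Graph η1 S ℓ low Γ H) :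
    ‖(fun l m => ∑' b, Γ l (ng b) * (ℓ b.1 * Γ m b)) - lowd_G ℓ low‖ ≤ (∑ j, ℓ j) *
      ∑' b : Idx, (range low)ᶜ.indicator (fun b => ex η1 b.2) b := by
  have sm := (hc.rowBdd h.η_pos).2.2.1
  have s0 : 0 ≤ ∑ j, ℓ j := Finset.sum_nonneg fun j _ => (h.ℓ_pos j).le
  have p : 0 ≤ (∑ j, ℓ j) * ∑' b : Idx, (range low)ᶜ.indicator (fun b => ex η1 b.2) b :=
    mul_nonneg s0 (tsum_nonneg (indicator_nonneg fun _ _ => (ex_pos _ _).le))
  refine (pi_norm_le_iff_of_nonneg p).2 fun l => (pi_norm_le_iff_of_nonneg p).2 fun m => ?_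
  have a := Summable.of_norm_bounded ((sm.mul_left _).mul_right _) (lowd_term h g g l m)
  have e := (a.hasSum.sub (hasSum_ite_eq (low m) (lowd_G ℓ low l m))).tsum_eq
  simp only [Pi.sub_apply]
  rw [← e]
  refine tsum_of_norm_bounded ((sm.indicator _).hasSum.mul_left _) fun b => ?_
  by_cases k : b ∈ range low
  · obtain ⟨n, e'⟩ := (lowd_mem h b).2 k
    obtain ⟨n', rfl⟩ := k
    rw [indicator_of_notMem (by simp), mul_zero, norm_le_zero_iff, ← e', g.on_low, g.on_low]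
    by_cases c : n' = m
    · subst c
      simp [lowd_G, ← e', h.inj.eq_iff]
    · simp [h.inj.eq_iff, c, Ne.symm c]
  · rw [indicator_of_mem k, if_neg fun e => k ⟨m, e.symm⟩, sub_zero, norm_mul, norm_mul]
    exact (mul_le_of_le_one_left (by positivity) (lowd_le h.η_pos g _ _)).trans
      (mul_le_mul (lowd_l h _) (g.decay m b k) (norm_nonneg _) s0)

theorem lowd_ne (h : CutOK η1 C cut ℓ low) {M : Fin d → Fin d → ℂ}
    (hM : ‖M - lowd_G ℓ low‖ ≤ (∑ j, ℓ j) *
      ∑' b : Idx, (range low)ᶜ.indicator (fun b => ex η1 b.2) b) : lowd_dt M ≠ 0 := fun e => by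
  obtain ⟨v, v0, hv⟩ := Matrix.exists_mulVec_eq_zero_iff.2 e
  have t := h.tiny
  have p := norm_pos_iff.2 v0
  generalize ∑' b : Idx, (range low)ᶜ.indicator (fun b => ex η1 b.2) b = τ at hM t
  suffices ‖v‖ ≤ ‖v‖ / 4 by linarith
  refine (pi_norm_le_iff_of_nonneg (by positivity)).2 fun m => ?_
  obtain ⟨l, hl⟩ := (lowd_mem h _).2 (mem_range_self m)
  have a : ∑ n, M l n * v n = 0 := congrFun hv l
  have b : ∑ n, lowd_G ℓ low l n * v n = ℓ (low m).1 * v m := by
    rw [Finset.sum_eq_single m (fun n _ c => ?_) (by simp), lowd_G, if_pos hl]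
    rw [lowd_G, if_neg, zero_mul]
    exact fun k => c (h.inj (by rw [← lowd_ng (low n), ← k, hl, lowd_ng]))
  have c : ‖(ℓ (low m).1 : ℂ) * v m‖ ≤ d * ((∑ j, ℓ j) * τ * ‖v‖) := by
    rw [← b, ← norm_neg, ← zero_sub, ← a, ← Finset.sum_sub_distrib]
    refine (norm_sum_le_of_le _ (n := fun _ => (∑ j, ℓ j) * τ * ‖v‖) fun n _ => ?_).trans
      (by simp)
    rw [← sub_mul, norm_mul]
    exact mul_le_mul (((norm_le_pi_norm _ n).trans (norm_le_pi_norm (M - lowd_G ℓ low) l)).trans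
      hM) (norm_le_pi_norm v n) (norm_nonneg _) ((norm_nonneg _).trans hM)
  have q := h.ℓ_pos (low m).1
  rw [norm_mul, Complex.norm_real, Real.norm_eq_abs, abs_of_pos q] at c
  have r : 1 / ℓ (low m).1 ≤ ∑ j, 1 / ℓ j := Finset.single_le_sum (f := fun j => 1 / ℓ j)
    (fun j _ => (one_div_pos.2 (h.ℓ_pos j)).le) (Finset.mem_univ _)
  have u := mul_le_mul r c (by positivity) ((one_div_pos.2 q).le.trans r)
  rw [← mul_assoc, one_div_mul_cancel q.ne', one_mul] at u
  nlinarith [mul_le_mul_of_nonneg_right t p.le]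

theorem lowd_sap (h : 0 < η1) (hc : Crude η1 C S) (p : Idx → ℂ) {K : ℝ} (hp : Dk η1 K p) (q : X) :
    Summable fun b => p (ng b) * Sap S q b := by
  obtain ⟨-, -, sm, r⟩ := hc.rowBdd h
  refine .of_norm_bounded ((sm.mul_left K).mul_right (C * EE η1 * ‖q‖)) fun b => ?_
  rw [norm_mul, ← lowd_ex]
  exact mul_le_mul (hp _) (r.norm_le q b) (norm_nonneg _) ((norm_nonneg _).trans (hp _))

theorem lowd_sym (h : 0 < η1) (hc : Crude η1 C S) (hb : BSym S) (p q : X) :
    HasSum (fun b => q b * Sap S p (ng b)) (∑' b, p (ng b) * Sap S q b) := by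
  obtain ⟨c0, -, sm, -⟩ := hc.rowBdd h
  have F : Summable (Function.uncurry fun b c : Idx => q b * (S (ng b) c * p c)) := by
    refine .of_norm_bounded (((sm.mul_of_nonneg sm (fun _ => (ex_pos _ _).le)
      fun _ => (ex_pos _ _).le).mul_left C).mul_right ‖p‖ |>.mul_left ‖q‖) fun x => ?_
    simp only [Function.uncurry, norm_mul, ← lowd_ex x.1]
    exact mul_le_mul (q.norm_coe_le_norm _) (mul_le_mul (hc _ _) (p.norm_coe_le_norm _)
      (norm_nonneg _) ((norm_nonneg _).trans (hc _ _))) (by positivity) (norm_nonneg _)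
  have a : HasSum (fun b => ∑' c, q b * (S (ng b) c * p c))
    (∑' b, ∑' c, q b * (S (ng b) c * p c)) := F.prod.hasSum
  rw [← F.tsum_comm, ← (Function.Involutive.toPerm ng lowd_ng).tsum_eq] at a
  have e : ∑' b, p (ng b) * Sap S q b = ∑' c, ∑' b, q b * (S (ng b) (ng c) * p (ng c)) :=
    tsum_congr fun c => by
      rw [Sap, ← tsum_mul_left]
      exact tsum_congr fun b => by rw [← hb c b]; ring
  rw [e]
  simp only [Sap, ← tsum_mul_left]
  exact a

theorem lowd_two (h : CutOK η1 C cut ℓ low) (hc : Crude η1 C S) (hc' : Crude η1 C S')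
    (hb : BSym S) (g : Graph η1 S ℓ low Γ H) (g' : Graph η1 S' ℓ low Γ' H') (l l') :
    ∑ m, (∑' b, Γ l (ng b) * (ℓ b.1 * Γ' m b)) * H' m l' -
      ∑ m, H m l * ∑' b, Γ m (ng b) * (ℓ b.1 * Γ' l' b) =
    ∑' b, Γ l (ng b) * ∑' c, (S' b c - S b c) * Γ' l' c := by
  obtain ⟨-, -, sm, r⟩ := hc.rowBdd h.η_pos
  have r' := (hc'.rowBdd h.η_pos).2.2.2
  have a := fun l m =>
    (Summable.of_norm_bounded ((sm.mul_left _).mul_right _) (lowd_term h g g' l m)).hasSum
  have h1 := (hasSum_sum fun m (_ : m ∈ Finset.univ) => (a l m).mul_right (H' m l')).sub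
    (hasSum_sum fun m (_ : m ∈ Finset.univ) => (a m l').mul_left (H m l))
  have s' := lowd_sap h.η_pos hc' _ (lowd_dk h.η_pos g l) (Γ' l')
  have h2 := s'.hasSum.sub (lowd_sym h.η_pos hc hb (Γ l) (Γ' l'))
  refine (h1.unique (h2.congr_fun fun b => ?_)).trans ?_
  · have e1 := g'.inv l' b
    have e2 := g.inv l (ng b)
    have e3 : ∑ m, Γ l (ng b) * (ℓ b.1 * Γ' m b) * H' m l' =
        Γ l (ng b) * (ℓ b.1 * ∑ m, Γ' m b * H' m l') := by
      simp only [Finset.mul_sum, mul_assoc]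
    have e4 : ∑ m, H m l * (Γ m (ng b) * (ℓ b.1 * Γ' l' b)) =
        Γ' l' b * (ℓ b.1 * ∑ m, Γ m (ng b) * H m l) := by
      simp only [Finset.mul_sum]
      exact Finset.sum_congr rfl fun m _ => by ring
    simp only [Tm, ng, abs_neg] at e1 e2 e3 e4 ⊢
    rw [e3, e4, ← e1, ← e2]
    ring
  · rw [← s'.tsum_sub (lowd_sap h.η_pos hc _ (lowd_dk h.η_pos g l) (Γ' l'))]
    refine tsum_congr fun b => ?_
    simp only [sub_mul]
    rw [(r'.summable _ b).tsum_sub (r.summable _ b), mul_sub]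
    rfl
end

theorem lowd_ev {Z : Type} [NormedAddCommGroup Z] [NormedSpace ℂ Z] {U : Set Z} {q : Z → X}
    (hq : DifferentiableOn ℂ q U) (c : Idx) : DifferentiableOn ℂ (fun y => q y c) U :=
  (BoundedContinuousFunction.evalCLM ℂ c : X →L[ℂ] ℂ).differentiable.comp_differentiableOn hq

theorem lowd_E {Z : Type} [NormedAddCommGroup Z] [NormedSpace ℂ Z] {U : Set Z}
    (hU : IsOpen U) {η1 C K : ℝ} (h : 0 < η1) {S : Z → Idx → Idx → ℂ}
    (hS : ∀ b c, DifferentiableOn ℂ (fun z => S z b c) U) (hc : ∀ z ∈ U, Crude η1 C (S z))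
    {q : Z → X} (hq : DifferentiableOn ℂ q U) (q1 : ∀ z ∈ U, ∀ b, ‖q z b‖ ≤ 1) {p : Idx → ℂ}
    (hp : Dk η1 K p) {z : Z} (hz : z ∈ U) :
    DifferentiableOn ℂ (fun y => ∑' b, p (ng b) * ∑' c, (S y b c - S z b c) * q y c) U ∧
      ∀ w, fderiv ℂ (fun y => ∑' b, p (ng b) * ∑' c, (S y b c - S z b c) * q y c) z w =
        Bf p (Sap (fun b c => fderiv ℂ (fun z => S z b c) z w) (q z)) := by
  obtain ⟨c0, -, sm, -⟩ := (hc z hz).rowBdd h
  have dq := lowd_ev hq
  have b0 : ∀ y ∈ U, ∀ b c, ‖S y b c‖ ≤ C * ex η1 c.2 := fun y hy b c => (hc y hy b c).trans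
    (mul_le_mul_of_nonneg_left (mul_le_of_le_one_left (ex_pos _ _).le (lowd_one h _)) c0)
  have b1 : ∀ b c, ∀ y ∈ U, ‖(S y b c - S z b c) * q y c‖ ≤ 2 * C * ex η1 c.2 :=
    fun b c y hy => by
      rw [norm_mul]
      refine (mul_le_of_le_one_right (norm_nonneg _) (q1 y hy c)).trans
        ((norm_sub_le _ _).trans ?_)
      linarith [b0 y hy b c, b0 z hz b c]
  have F := fun b => diffOn_tsum hU (sm.mul_left (2 * C))
    (fun c => ((hS b c).sub_const (S z b c)).mul (dq c)) (b1 b)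
  have G := diffOn_tsum hU ((sm.mul_left K).mul_right (2 * C * EE η1))
    (fun b => (F b).1.const_mul (p (ng b))) fun b y hy => by
      rw [norm_mul, ← lowd_ex]
      exact mul_le_mul (hp _) (tsum_of_norm_bounded (sm.hasSum.mul_left _) fun c => b1 b c y hy)
        (norm_nonneg _) ((norm_nonneg _).trans (hp _))
  refine ⟨G.1, fun w => (G.2 z hz w).tsum_eq.symm.trans (tsum_congr fun b => ?_)⟩
  rw [fderiv_const_mul ((F b).1.differentiableAt (hU.mem_nhds hz)),
    _root_.smul_apply, smul_eq_mul]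
  refine congrArg (p (ng b) * ·) (((F b).2 z hz w).tsum_eq.symm.trans (tsum_congr fun c => ?_))
  rw [((((hS b c).differentiableAt (hU.mem_nhds hz)).hasFDerivAt.sub_const (S z b c)).mul
    ((dq c).differentiableAt (hU.mem_nhds hz)).hasFDerivAt).fderiv]
  simp [mul_comm]

/-- With `Gr l l' = Bf (Γ l) (ℓ Γ l')` (invertible by `CutOK.tiny`, inverse bounded):
`d Hm = Gr⁻¹ Bf (Γ l) (dS Γ l') + Hm Z - Z Hm`, `Z = Gr⁻¹ Bf (Γ l) (ℓ dΓ l')`; the characteristic
polynomial is invariant under conjugation, so the commutator does not count. -/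
theorem charpoly_insens {Z : Type} [NormedAddCommGroup Z] [NormedSpace ℂ Z] {U : Set Z}
    (hU : IsOpen U) {η1 C cut Cb : ℝ} {ℓ : Bool → ℝ} {d : ℕ} {low : Fin d → Idx}
    (h : CutOK η1 C cut ℓ low) {S : Z → Idx → Idx → ℂ}
    (hS : ∀ b c, DifferentiableOn ℂ (fun z => S z b c) U) (hc : ∀ z ∈ U, Crude η1 C (S z))
    (hb : ∀ z ∈ U, BSym (S z)) {Γ : Z → Fin d → X} {Hm : Z → Matrix (Fin d) (Fin d) ℂ}
    (hΓ : ∀ l, DifferentiableOn ℂ (fun z => Γ z l) U)
    (hH : ∀ l l', DifferentiableOn ℂ (fun z => Hm z l l') U)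
    (hG : ∀ z ∈ U, Graph η1 (S z) ℓ low (Γ z) (Hm z) ∧ ∀ l l', ‖Hm z l l'‖ ≤ Cb) (lam : ℂ) :
    DifferentiableOn ℂ (fun z => (Hm z).charpoly.eval lam) U ∧ ∃ C' ≥ 0, ∀ z ∈ U, ∀ (w : Z) (D : ℝ),
      (∀ p q, Dk η1 1 p → Dk η1 1 q →
        ‖Bf p (Sap (fun b c => fderiv ℂ (fun z => S z b c) z w) q)‖ ≤ D) →
      ‖fderiv ℂ (fun z => (Hm z).charpoly.eval lam) z w‖ ≤ C' * D := by
  have hP : DifferentiableOn ℂ (fun z => (Hm z).charpoly.eval lam) U := by
    simp only [Matrix.eval_charpoly]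
    exact lowd_diff.comp_differentiableOn (f := fun z l l' => Matrix.scalar (Fin d) lam l l' -
      Hm z l l') (differentiableOn_pi.2 fun l => differentiableOn_pi.2 fun l' =>
        (hH l l').const_sub _)
  obtain ⟨τ, hτ⟩ : ∃ τ, τ = (∑ j, ℓ j) *
    ∑' b : Idx, (range low)ᶜ.indicator (fun b => ex η1 b.2) b := ⟨_, rfl⟩
  obtain ⟨c, c0, hc0⟩ := (isCompact_closedBall (lowd_G ℓ low) τ).exists_forall_le'
    lowd_diff.continuous.norm.continuousOn fun M hM =>
      norm_pos_iff.2 (lowd_ne h (hτ ▸ mem_closedBall_iff_norm.1 hM))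
  obtain ⟨M, M0, hM⟩ := lowd_bd d (d * ((‖lam‖ + |Cb|) * (‖lowd_G ℓ low‖ + |τ|)))
  have K0 : 0 < lowd_K η1 low := one_pos.trans_le lowd_K1
  refine ⟨hP, M * lowd_K η1 low ^ 2 / c, by positivity, fun z hz w D hD => ?_⟩
  have n := hU.mem_nhds hz
  have g := (hG z hz).1
  have sm := ((hc z hz).rowBdd h.η_pos).2.2.1
  let G : Z → Fin d → Fin d → ℂ := fun y l m => ∑' b, Γ z l (ng b) * (ℓ b.1 * Γ y m b)
  let A : Matrix (Fin d) (Fin d) ℂ := (Matrix.scalar (Fin d) lam - Hm z).transpose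
  have dG : ∀ l m, DifferentiableAt ℂ (fun y => G y l m) z := fun l m =>
    (diffOn_tsum hU ((sm.mul_left _).mul_right _)
      (fun b => ((lowd_ev (hΓ m) b).const_mul _).const_mul _)
      fun b y hy => lowd_term h g (hG y hy).1 l m b).1.differentiableAt n
  have dE := fun l l' => lowd_E hU h.η_pos hS hc (hΓ l')
    (fun y hy => lowd_le h.η_pos (hG y hy).1 l') (lowd_dk h.η_pos g l) hz
  have dE' := differentiableAt_pi.2 fun l => differentiableAt_pi.2 fun l' =>
    (dE l l').1.differentiableAt n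
  have key := lowd_fin (G := G) (B := fun y l m => ∑ k, A l k * G y k m)
    (differentiableAt_pi.2 fun l => differentiableAt_pi.2 (dG l))
    (differentiableAt_pi.2 fun l => differentiableAt_pi.2 fun m =>
      DifferentiableAt.fun_sum fun k _ => (dG k m).const_mul _) dE' (hP.differentiableAt n)
    (by ext l l'; simp) (mem_of_superset n fun y hy => ?_) (fun y => ?_) w
  · have cl := hτ ▸ lowd_close h (hc z hz) g
    have D0 : 0 ≤ D := (norm_nonneg _).trans (hD 0 0 (fun _ => by simpa using (ex_pos _ _).le)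
      fun _ => by simpa using (ex_pos _ _).le)
    have e1 : ‖fderiv ℂ (fun y l l' => ∑' b, Γ z l (ng b) *
        ∑' c, (S y b c - S z b c) * Γ y l' c) z w‖ ≤ lowd_K η1 low ^ 2 * D := by
      refine (pi_norm_le_iff_of_nonneg (by positivity)).2 fun l =>
        (pi_norm_le_iff_of_nonneg (by positivity)).2 fun l' => ?_
      rw [fderiv_pi (differentiableAt_pi.1 dE'), ContinuousLinearMap.pi_apply,
        fderiv_pi (differentiableAt_pi.1 (differentiableAt_pi.1 dE' l)),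
        ContinuousLinearMap.pi_apply, (dE l l').2]
      have K1 : (lowd_K η1 low : ℂ) ≠ 0 := by exact_mod_cast K0.ne'
      have k : ∀ l, Dk η1 1 fun b => Γ z l b / lowd_K η1 low := fun l b => by
        rw [norm_div, Complex.norm_real, Real.norm_eq_abs, abs_of_pos K0, div_le_iff₀' K0, one_mul]
        exact lowd_dk h.η_pos g l b
      have := mul_le_mul_of_nonneg_left (hD _ _ (k l) (k l')) (sq_nonneg (lowd_K η1 low))
      refine le_trans (le_of_eq ?_) this
      rw [← abs_of_pos (pow_pos K0 2), ← Real.norm_eq_abs, ← Complex.norm_real, ← norm_mul, Bf, Bf,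
        ← tsum_mul_left]
      refine congrArg _ (tsum_congr fun b => ?_)
      simp only [Sap, ← mul_div_assoc, tsum_div_const]
      push_cast
      field_simp
    have e2 : ‖fun l m => ∑ k, A l k * G z k m‖ ≤
        d * ((‖lam‖ + |Cb|) * (‖lowd_G ℓ low‖ + |τ|)) := by
      refine (pi_norm_le_iff_of_nonneg (by positivity)).2 fun l =>
        (pi_norm_le_iff_of_nonneg (by positivity)).2 fun m => (norm_sum_le_of_le _
          (n := fun _ => (‖lam‖ + |Cb|) * (‖lowd_G ℓ low‖ + |τ|)) fun k _ => ?_).trans (by simp)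
      rw [norm_mul]
      refine mul_le_mul ((norm_sub_le _ _).trans (add_le_add ?_ (((hG z hz).2 k l).trans
        (le_abs_self _)))) (((norm_le_pi_norm _ m).trans (norm_le_pi_norm (G z) k)).trans
          ((norm_le_norm_add_norm_sub' _ _).trans (add_le_add le_rfl (cl.trans (le_abs_self _)))))
        (norm_nonneg _) (by positivity)
      rw [Matrix.scalar_apply, Matrix.diagonal_apply]
      split_ifs <;> simp
    have e3 := mul_le_mul_of_nonneg_right (hc0 _ (mem_closedBall_iff_norm.2 cl))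
      (norm_nonneg (fderiv ℂ (fun z => (Hm z).charpoly.eval lam) z w))
    rw [← norm_mul, key, norm_neg] at e3
    have e4 := e3.trans ((ContinuousLinearMap.le_opNorm _ _).trans
      (mul_le_mul (hM _ e2) e1 (norm_nonneg _) M0))
    rw [div_mul_eq_mul_div, le_div_iff₀' c0, mul_assoc]
    exact e4
  · show _ = _
    rw [Matrix.eval_charpoly, lowd_dt, ← Matrix.det_mul, lowd_dt]
    refine congrArg _ (Matrix.ext fun l l' => ?_)
    have t := lowd_two h (hc z hz) (hc y hy) (hb z hz) g (hG y hy).1 l l'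
    simp only [Matrix.mul_apply, Matrix.of_apply, Pi.sub_apply, A, Matrix.transpose_apply,
      Matrix.sub_apply, Matrix.scalar_apply, Matrix.diagonal_apply, mul_sub, sub_mul,
      Finset.sum_sub_distrib, mul_ite, ite_mul, mul_zero, zero_mul, Finset.sum_ite_eq',
      Finset.mem_univ, if_true, G]
    simp only [sub_mul] at t
    linear_combination -t
  · rw [Matrix.eval_charpoly, ← Matrix.det_transpose, lowd_dt, lowd_dt, ← Matrix.det_mul]
    rfl

end StekIso
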