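import Pool.Agent.Lib.MP_fa022d_an.LowA
import Pool.Agent.Lib.MP_fa022d_an.LowB
import Pool.Agent.Lib.MP_fa022d_an.LowC
import Pool.Agent.Lib.MP_fa022d_an.LowD

open Set Filter Topology Metric BoundedContinuousFunction Complex

noncomputable section
namespace StekIso

/-- finitely many insensitive functions determine the spectrum below the cut
(`ψ i` = value of the characteristic polynomial at `i`, `i ≤ d`) -/
theorem low_main {η1 C lam c : ℝ} (h1 : 0 < η1) (hC : 1 ≤ C) (hc : 0 < c)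
    (hs : Sep (lenf lam) c) : ∃ n0 : ℕ, ∀ N ≥ n0, ∀ (U : Set X) (S : X → Idx → Idx → ℂ),
      IsOpen U → (∀ b c, DifferentiableOn ℂ (fun z => S z b c) U) →
      (∀ z ∈ U, Crude η1 C (S z)) → (∀ z ∈ U, BSym (S z)) →
      ∃ (d : ℕ) (ψ : Fin d → X → ℂ) (C' : ℝ), 0 ≤ C' ∧ (∀ i, DifferentiableOn ℂ (ψ i) U) ∧
        (∀ i, ∀ z ∈ U, ∀ (w : X) (D : ℝ), (∀ p q, Dk η1 1 p → Dk η1 1 q →
          ‖Bf p (Sap (fun b c => fderiv ℂ (fun z => S z b c) z w) q)‖ ≤ D) →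
          ‖fderiv ℂ (ψ i) z w‖ ≤ C' * D) ∧
        (∀ z ∈ U, RSym (S z) → (∀ i, (ψ i z).im = 0) ∧
          ∀ σ : ℝ, σ < cutAt c N → Module.Finite ℂ (Ker (S z) (lenf lam) σ)) ∧
        ∀ z ∈ U, ∀ z' ∈ U, RSym (S z) → RSym (S z') → (∀ i, ψ i z = ψ i z') →
          ∀ σ : ℝ, σ < cutAt c N → Module.finrank ℂ (Ker (S z) (lenf lam) σ) =
            Module.finrank ℂ (Ker (S z') (lenf lam) σ) := by
  obtain ⟨n0, hn⟩ := cut_ok h1 hC hc hs
  refine ⟨n0, fun N hN U S hU hS hcr hb => ?_⟩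
  obtain ⟨d, low, h⟩ := hn N hN
  obtain ⟨Γ, Hm, Cb, hΓ, hH, hG⟩ := riccati hU h hS hcr
  have key := fun i : Fin (d + 1) =>
    charpoly_insens hU h hS hcr hb hΓ hH hG (((i : ℕ) : ℝ) : ℂ)
  choose K K0 hK using fun i => (key i).2
  refine ⟨d + 1, fun i z => (Hm z).charpoly.eval (((i : ℕ) : ℝ) : ℂ), ∑ i, K i,
    Finset.sum_nonneg fun i _ => K0 i, fun i => (key i).1, fun i z hz w D hD => ?_,
    fun z hz hr => ⟨fun i => ((hG z hz).1.mult h (hcr z hz) (hb z hz) hr _).2, fun σ hσ => ?_⟩,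
    fun z hz z' hz' hr hr' e σ hσ => ?_⟩
  · have z0 : Dk η1 1 0 := fun b => by simpa using (ex_pos η1 b.2).le
    exact (hK i z hz w D hD).trans (mul_le_mul_of_nonneg_right
      (Finset.single_le_sum (fun i _ => K0 i) (Finset.mem_univ i))
      ((norm_nonneg _).trans (hD 0 0 z0 z0)))
  · obtain ⟨e⟩ := (hG z hz).1.ker_equiv h (hcr z hz) hσ
    exact Module.Finite.equiv e.symm
  · obtain ⟨e1⟩ := (hG z hz).1.ker_equiv h (hcr z hz) hσ
    obtain ⟨e2⟩ := (hG z' hz').1.ker_equiv h (hcr z' hz') hσ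
    have dg : ∀ A : Matrix (Fin d) (Fin d) ℂ,
        A.charpoly.degree < (Finset.univ : Finset (Fin (d + 1))).card := fun A => by
      rw [Matrix.charpoly_degree_eq_dim, Finset.card_univ, Fintype.card_fin, Fintype.card_fin]
      exact_mod_cast Nat.lt_succ_self d
    have q : (Hm z).charpoly = (Hm z').charpoly :=
      Polynomial.eq_of_degrees_lt_of_eval_index_eq Finset.univ
        (v := fun i : Fin (d + 1) => (((i : ℕ) : ℝ) : ℂ))
        (fun i _ j _ k => Fin.ext (Nat.cast_injective (Complex.ofReal_injective k))) (dg _) (dg _) fun i _ => e i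
    rw [e1.finrank_eq, e2.finrank_eq, ((hG z hz).1.mult h (hcr z hz) (hb z hz) hr σ).1,
      ((hG z' hz').1.mult h (hcr z' hz') (hb z' hz') hr' σ).1, q]

end StekIso
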