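import Pool.Agent.Lib.MP_fa022d_an.Defs6
import Pool.Agent.Lib.MP_fa022d_an.Four1
import Pool.Agent.Lib.MP_fa022d_an.Ev
import Pool.Agent.Lib.MP_fa022d_an.HiN1

/-! Weak norms of perturbations given in normalised coordinates. -/

open Set Filter Topology Metric BoundedContinuousFunction Complex

noncomputable section
namespace StekIso
variable {η : Pos}

/-- weighted sum of the coefficients -/
def gn (ω : ℤ → ℝ) (w : V η) : ℝ := ∑' b : Idx, ‖(w b.1).coeff b.2‖ * ω b.2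
/-- admissible weights -/
def Wok (η : Pos) (ω : ℤ → ℝ) : Prop := ∀ k, 0 ≤ ω k ∧ ω k ≤ ex (-(η.1 / 2)) k

theorem pi1_pn (w : V η) : pn w = gn (fun k => 1 / br k) w :=
  tsum_congr fun b => by ring
theorem pi1_sn (w : V η) : sn w = gn (ex (-(η.1 / 2))) w := rfl
theorem pi1_l1 (w : V η) : l1n w = gn (fun _ => 1) w := tsum_congr fun b => by ring

theorem pi1_one_le (η : Pos) (k : ℤ) : 1 ≤ ex (-(η.1 / 2)) k :=
  Real.one_le_exp (by have := η.2; have := abs_nonneg (k : ℝ); nlinarith)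
theorem wok_sn (η : Pos) : Wok η (ex (-(η.1 / 2))) := fun k => ⟨(ex_pos _ k).le, le_rfl⟩
theorem wok_l1 (η : Pos) : Wok η fun _ => 1 := fun k => ⟨zero_le_one, pi1_one_le η k⟩
theorem wok_pn (η : Pos) : Wok η fun k => 1 / br k := fun k =>
  ⟨(one_div_pos.2 (br_pos k)).le, ((div_le_one (br_pos k)).2 (one_le_br k)).trans (pi1_one_le η k)⟩

theorem pi1_idx {f : ℤ → ℝ} (hf : Summable f) (h0 : ∀ k, 0 ≤ f k) :
    Summable fun c : Idx => f c.2 :=
  (summable_prod_of_nonneg fun c => h0 c.2).2 ⟨fun _ => hf, Summable.of_finite⟩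

theorem pi1_ex (η : Pos) : Summable fun c : Idx => ex (η.1 / 2) c.2 :=
  pi1_idx (by simpa using summable_ex (half_pos η.2) 0) fun k => (ex_pos _ k).le

theorem pi1_bw {ω : ℤ → ℝ} (h : Wok η ω) (k : ℤ) : beta η.1 k * ω k ≤ ex (η.1 / 2) k := by
  have h1 : beta η.1 k ≤ ex η.1 k :=
    div_le_self (ex_pos _ _).le (one_le_pow₀ (one_le_br k))
  calc _ ≤ ex η.1 k * ex (-(η.1 / 2)) k := mul_le_mul h1 (h k).2 (h k).1 (ex_pos _ _).le
    _ = _ := by simp only [ex, ← Real.exp_add]; congr 1; ring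

theorem pi1_co (w : V η) (b : Idx) : ‖(w b.1).coeff b.2‖ ≤ ‖w‖ * beta η.1 b.2 :=
  (norm_coeff1_le _ _).trans (mul_le_mul_of_nonneg_right
    ((div_le_self (norm_nonneg _) (by norm_num)).trans (norm_le_pi_norm w b.1)) (beta_pos _ _).le)

theorem pi1_term {ω : ℤ → ℝ} (h : Wok η ω) (w : V η) (b : Idx) :
    ‖(w b.1).coeff b.2‖ * ω b.2 ≤ ‖w‖ * ex (η.1 / 2) b.2 :=
  (mul_le_mul_of_nonneg_right (pi1_co w b) (h _).1).trans (by
    rw [mul_assoc]; exact mul_le_mul_of_nonneg_left (pi1_bw h _) (norm_nonneg _))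

theorem gn_summ {ω : ℤ → ℝ} (h : Wok η ω) (w : V η) :
    Summable fun b : Idx => ‖(w b.1).coeff b.2‖ * ω b.2 :=
  ((pi1_ex η).mul_left ‖w‖).of_nonneg_of_le (fun _ => mul_nonneg (norm_nonneg _) (h _).1)
    (pi1_term h w)

theorem gn_nonneg {ω : ℤ → ℝ} (h : Wok η ω) (w : V η) : 0 ≤ gn ω w :=
  tsum_nonneg fun _ => mul_nonneg (norm_nonneg _) (h _).1

theorem gn_add {ω : ℤ → ℝ} (h : Wok η ω) (v w : V η) : gn ω (v + w) ≤ gn ω v + gn ω w := by
  unfold gn
  rw [← (gn_summ h v).tsum_add (gn_summ h w)]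
  refine (gn_summ h _).tsum_le_tsum (fun b => ?_) ((gn_summ h v).add (gn_summ h w))
  rw [← add_mul]
  refine mul_le_mul_of_nonneg_right ?_ (h _).1
  rw [Pi.add_apply, WAlg.coeff_add]; exact norm_add_le _ _

/-- the constant of the trivial bound -/
def gK (η : Pos) : ℝ := ∑' c : Idx, ex (η.1 / 2) c.2

theorem gK_nonneg (η : Pos) : 0 ≤ gK η := tsum_nonneg fun _ => (ex_pos _ _).le

theorem gn_le {ω : ℤ → ℝ} (h : Wok η ω) (w : V η) : gn ω w ≤ gK η * ‖w‖ := by
  unfold gn gK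
  rw [mul_comm, ← tsum_mul_left]
  exact (gn_summ h w).tsum_le_tsum (pi1_term h w) ((pi1_ex η).mul_left _)

theorem pi1_norm_toV {ε : ℝ} (hε : 0 ≤ ε) (x : X) : ‖toV η ε x‖ ≤ 256 * ε * ‖x‖ :=
  (pi_norm_le_iff_of_nonneg (by positivity)).2 fun j =>
    WAlg.norm_le_of_coeff _ (by positivity) fun k => by
      rw [coeff_toV]; simpa only [abs_of_nonneg hε] using toV_aux η ε x j k

theorem gn_toV {ω : ℤ → ℝ} (h : Wok η ω) {ε : ℝ} (hε : 0 ≤ ε) (x : X) :
    gn ω (toV η ε x) ≤ 256 * gK η * ε * ‖x‖ :=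
  (gn_le h _).trans ((mul_le_mul_of_nonneg_left (pi1_norm_toV hε x) (gK_nonneg η)).trans
    (le_of_eq (by ring)))

theorem pi1_uu {x : Idx → ℂ} {a : ℝ → ℝ} (hx : ∀ b, ‖x b‖ ≤ a |(b.2 : ℝ)|) (j : Bool) (k : ℤ) :
    ‖uu x j k‖ ≤ 2 * a |(k : ℝ)| := by
  have h1 := hx (j, k)
  have h2 := hx (j, -k)
  simp only [Int.cast_neg, abs_neg] at h1 h2
  unfold uu
  split_ifs with p q
  · refine (norm_add_le _ _).trans ?_
    rw [norm_mul, norm_I, one_mul]; linarith
  · refine (norm_sub_le _ _).trans ?_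
    rw [norm_mul, norm_I, one_mul]; linarith
  · obtain rfl : k = 0 := by omega
    linarith [norm_nonneg (x (j, 0))]

/-- the general bound for `toV` -/
theorem gn_toV_gen {ω : ℤ → ℝ} (h : Wok η ω) {ε : ℝ} (hε : 0 ≤ ε) {x : X} {a : ℝ → ℝ}
    (hx : ∀ b, ‖x b‖ ≤ a |(b.2 : ℝ)|) {g : Idx → ℝ} {S : ℝ} (hg : HasSum g S)
    (hb : ∀ b : Idx, beta η.1 b.2 * ω b.2 * a |(b.2 : ℝ)| ≤ g b) :
    gn ω (toV η ε x) ≤ 2 * ε * S := by
  refine hasSum_le (fun b => ?_) (gn_summ h _).hasSum (hg.mul_left _)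
  have hβ := beta_pos η.1 b.2
  rw [coeff_toV, norm_mul, Complex.norm_real, Real.norm_eq_abs, abs_of_nonneg (by positivity)]
  calc _ ≤ ε * beta η.1 b.2 * (2 * a |(b.2 : ℝ)|) * ω b.2 :=
        mul_le_mul_of_nonneg_right (mul_le_mul_of_nonneg_left (pi1_uu hx _ _) (by positivity))
          (h _).1
    _ = 2 * ε * (beta η.1 b.2 * ω b.2 * a |(b.2 : ℝ)|) := by ring
    _ ≤ _ := mul_le_mul_of_nonneg_left (hb b) (by positivity)

/-- sequences supported at high frequencies are small in every weak norm -/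
theorem gn_tail (η : Pos) {τ : ℝ} (hτ : 0 < τ) : ∃ n0 : ℕ, ∀ ω, Wok η ω → ∀ ε : ℝ, 0 ≤ ε →
    ∀ x : X, (∀ b : Idx, |(b.2 : ℝ)| < n0 → x b = 0) → gn ω (toV η ε x) ≤ τ * ε * ‖x‖ := by
  have T : Tendsto (fun n : ℕ => ∑' b : Idx, if |(b.2 : ℝ)| < n then 0 else ex (η.1 / 2) b.2)
      atTop (𝓝 (∑' _ : Idx, 0)) := by
    refine tendsto_tsum_of_dominated_convergence (pi1_ex η) (fun b => ?_)
      (Eventually.of_forall fun n b => ?_)
    · refine tendsto_const_nhds.congr' ?_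
      filter_upwards [tendsto_natCast_atTop_atTop.eventually_gt_atTop |(b.2 : ℝ)|] with n hn
      rw [if_pos hn]
    · split_ifs
      · rw [norm_zero]; exact (ex_pos _ _).le
      · rw [Real.norm_of_nonneg (ex_pos _ _).le]
  rw [tsum_zero] at T
  obtain ⟨n, hn⟩ := (T.eventually (gt_mem_nhds (half_pos hτ))).exists
  refine ⟨n, fun ω h ε hε x hx => ?_⟩
  have s : Summable fun b : Idx => if |(b.2 : ℝ)| < n then 0 else ex (η.1 / 2) b.2 :=
    (pi1_ex η).of_nonneg_of_le (fun b => by split_ifs; exacts [le_rfl, (ex_pos _ _).le])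
      fun b => by split_ifs; exacts [(ex_pos _ _).le, le_rfl]
  refine (gn_toV_gen h hε (a := fun t => if t < n then 0 else ‖x‖) (fun b => ?_)
    (s.hasSum.mul_right ‖x‖) fun b => ?_).trans ?_
  · split_ifs with p
    · rw [hx b p, norm_zero]
    · exact x.norm_coe_le_norm b
  · split_ifs
    · simp
    · exact mul_le_mul_of_nonneg_right (pi1_bw h _) (norm_nonneg _)
  · have := mul_le_mul_of_nonneg_right hn.le (mul_nonneg hε (norm_nonneg x))
    nlinarith

theorem pi1_br (M k : ℤ) : br M ≤ br k * br (M - |k|) := by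
  unfold br
  have h1 : |(M : ℝ)| ≤ |(k : ℝ)| + |((M - |k| : ℤ) : ℝ)| := by
    push_cast
    have := abs_add_le |(k : ℝ)| ((M : ℝ) - |(k : ℝ)|)
    rwa [add_sub_cancel, abs_abs] at this
  nlinarith [abs_nonneg (k : ℝ), abs_nonneg ((M - |k| : ℤ) : ℝ)]

/-- the weight against the packet weight -/
theorem pi1_om {η : ℝ} (hη : 0 < η) {M : ℤ} (hM : 0 ≤ M) (k : ℤ) :
    beta η k * om η M |(k : ℝ)| ≤ beta η M * (br (M - |k|) ^ 4 * ex (η / 4) (M - |k|)) := by
  have hb := pi1_br M k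
  have p1 := br_pos k
  have p2 := br_pos M
  have p3 := br_pos (M - |k|)
  have e : ex η k * om η M |(k : ℝ)| ≤ ex η M * ex (η / 4) (M - |k|) := by
    simp only [ex, om, ← Real.exp_add]
    refine Real.exp_le_exp.2 ?_
    push_cast
    rw [abs_of_nonneg (show (0 : ℝ) ≤ M by exact_mod_cast hM)]
    rcases le_total ((M : ℝ) - |(k : ℝ)|) 0 with h | h
    · rw [max_eq_right h, abs_of_nonpos h]; nlinarith
    · rw [max_eq_left h, abs_of_nonneg h]; nlinarith
  have q : 1 / br k ^ 4 ≤ br (M - |k|) ^ 4 / br M ^ 4 := by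
    rw [div_le_div_iff₀ (by positivity) (by positivity), one_mul, ← mul_pow, mul_comm]
    exact pow_le_pow_left₀ p2.le hb 4
  calc _ = ex η k * om η M |(k : ℝ)| * (1 / br k ^ 4) := by unfold beta; ring
    _ ≤ ex η M * ex (η / 4) (M - |k|) * (br (M - |k|) ^ 4 / br M ^ 4) :=
        mul_le_mul e q (by positivity) (mul_pos (ex_pos _ _) (ex_pos _ _)).le
    _ = _ := by unfold beta; ring

theorem pi1_sum {g : ℤ → ℝ} (hg : Summable g) (h0 : ∀ k, 0 ≤ g k) :
    ∃ S ≥ (0 : ℝ), ∀ M : ℤ, ∃ f : Idx → ℝ, HasSum f S ∧ ∀ b : Idx, g (M - |b.2|) ≤ f b := by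
  refine ⟨4 * ∑' k, g k, mul_nonneg (by norm_num) (tsum_nonneg h0), fun M => ?_⟩
  have s1 : HasSum (fun k => g (M - k)) (∑' k, g k) :=
    (Equiv.subLeft M).hasSum_iff.2 hg.hasSum
  have s2 : HasSum (fun k => g (M + k)) (∑' k, g k) :=
    (Equiv.addLeft M).hasSum_iff.2 hg.hasSum
  have s := s1.add s2
  refine ⟨fun b => g (M - b.2) + g (M + b.2), ?_, fun b => ?_⟩
  · have t := pi1_idx s.summable fun k => add_nonneg (h0 _) (h0 _)
    have u := t.hasSum.prod_fiberwise (g := fun _ => ∑' k, g k + ∑' k, g k) fun _ => s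
    have w := u.unique (hasSum_fintype _)
    convert t.hasSum using 1
    rw [w]; simp; ring
  · rcases abs_choice b.2 with h | h <;> rw [h]
    · linarith [h0 (M + b.2)]
    · rw [sub_neg_eq_add]; linarith [h0 (M - b.2)]

/-- packets in the sum norm and in the polynomially weak norm -/
theorem gn_pack (η : Pos) : ∃ K ≥ 1, ∀ M : ℤ, 0 ≤ M → ∀ ε D : ℝ, 0 ≤ ε → 0 ≤ D → ∀ w : X,
    MB η.1 M D w → l1n (toV η ε w) ≤ K * D * (ε * beta η.1 M) ∧
      pn (toV η ε w) ≤ K * D * (ε * beta η.1 M) / br M := by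
  have hq : 0 < η.1 / 4 := by linarith [η.2]
  obtain ⟨S, S0, hS⟩ := pi1_sum (summable_ex hq 5)
    fun k => (mul_pos (pow_pos (br_pos k) 5) (ex_pos _ k)).le
  refine ⟨2 * S + 1, by linarith, fun M hM ε D hε hD w hw => ?_⟩
  obtain ⟨f, hf, hb⟩ := hS M
  have hβ := beta_pos η.1 M
  have pM := br_pos M
  have k (b : Idx) := pi1_om η.2 hM b.2
  have nn : 0 ≤ D * (ε * beta η.1 M) := by positivity
  constructor
  · rw [pi1_l1]
    refine (gn_toV_gen (wok_l1 η) hε (a := fun t => D * om η.1 M t) hw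
      (hf.mul_left (D * beta η.1 M)) fun b => ?_).trans (by nlinarith)
    have p := one_le_br (M - |b.2|)
    have e := ex_pos (η.1 / 4) (M - |b.2|)
    have : br (M - |b.2|) ^ 4 * ex (η.1 / 4) (M - |b.2|) ≤ f b :=
      (mul_le_mul_of_nonneg_right (pow_le_pow_right₀ p (by norm_num)) e.le).trans (hb b)
    calc _ = D * (beta η.1 b.2 * om η.1 M |(b.2 : ℝ)|) := by ring
      _ ≤ D * (beta η.1 M * f b) :=
        mul_le_mul_of_nonneg_left ((k b).trans (mul_le_mul_of_nonneg_left this hβ.le)) hD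
      _ = _ := by ring
  · rw [pi1_pn]
    refine (gn_toV_gen (wok_pn η) hε (a := fun t => D * om η.1 M t) hw
      (hf.mul_left (D * beta η.1 M / br M)) fun b => ?_).trans ?_
    · have p := br_pos (M - |b.2|)
      have p1 := br_pos b.2
      have e := ex_pos (η.1 / 4) (M - |b.2|)
      have q : 1 / br b.2 ≤ br (M - |b.2|) / br M := by
        rw [div_le_div_iff₀ p1 pM, one_mul, mul_comm]; exact pi1_br M b.2
      calc _ = D * (beta η.1 b.2 * om η.1 M |(b.2 : ℝ)| * (1 / br b.2)) := by ring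
        _ ≤ D * (beta η.1 M * (br (M - |b.2|) ^ 4 * ex (η.1 / 4) (M - |b.2|)) *
            (br (M - |b.2|) / br M)) :=
          mul_le_mul_of_nonneg_left (mul_le_mul (k b) q (by positivity) (by positivity)) hD
        _ = D * beta η.1 M / br M * (br (M - |b.2|) ^ 5 * ex (η.1 / 4) (M - |b.2|)) := by ring
        _ ≤ _ := mul_le_mul_of_nonneg_left (hb b) (by positivity)
    · rw [le_div_iff₀ pM]
      have : 2 * ε * (D * beta η.1 M / br M * S) * br M = 2 * S * (D * (ε * beta η.1 M)) := by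
        field_simp
      rw [this]; nlinarith

theorem pi1_real {ε : ℝ} {x : X} (hx : x ∈ reB Idx) : RealV (toV η ε x) := fun j k => by
  have r (b : Idx) : (starRingEnd ℂ) (x b) = x b := Complex.conj_eq_iff_im.2 (hx b)
  have hb : beta η.1 (-k) = beta η.1 k := by simp [beta, ex, br]
  rw [coeff_toV, coeff_toV, hb, map_mul, Complex.conj_ofReal]
  congr 1
  unfold uu
  rcases lt_trichotomy k 0 with h | rfl | h
  · rw [if_pos (by omega), if_neg (by omega), if_pos h]; simp [r]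
  · simp [r]
  · rw [if_neg (by omega), if_pos (by omega), if_pos h]; simp [r, sub_eq_add_neg]

/-- normalised coordinates of a real perturbation -/
theorem pi1_from {e : V η} (he : RealV e) :
    ∃ E ∈ reB Idx, ∀ ε : ℝ, toV η ε E = (ε : ℂ) • e := by
  have hb (k : ℤ) : beta η.1 (-k) = beta η.1 k := by simp [beta, ex, br]
  set f : Idx → ℂ := fun b =>
    if b.2 < 0 then (((e b.1).coeff (-b.2)).im / beta η.1 b.2 : ℝ)
    else (((e b.1).coeff b.2).re / beta η.1 b.2 : ℝ) with hf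
  have bd (b : Idx) : ‖f b‖ ≤ ‖e‖ := by
    have hβ := beta_pos η.1 b.2
    simp only [hf]
    split_ifs
    · rw [Complex.norm_real, norm_div, Real.norm_of_nonneg hβ.le, div_le_iff₀ hβ, ← hb]
      exact (Complex.abs_im_le_norm _).trans (pi1_co e (b.1, -b.2))
    · rw [Complex.norm_real, norm_div, Real.norm_of_nonneg hβ.le, div_le_iff₀ hβ]
      exact (Complex.abs_re_le_norm _).trans (pi1_co e b)
  refine ⟨toB f, fun b => ?_, fun ε => ?_⟩
  · rw [toB_apply bd]; simp only [hf]; split_ifs <;> exact Complex.ofReal_im _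
  · funext j; ext k
    have hβ : (beta η.1 k : ℂ) ≠ 0 := by exact_mod_cast (beta_pos η.1 k).ne'
    rw [coeff_toV, Pi.smul_apply, WAlg.coeff_smul]
    unfold uu
    simp only [toB_apply bd]
    simp only [hf]
    rcases lt_trichotomy k 0 with h | rfl | h
    · rw [if_neg (by omega), if_pos h, if_neg (by omega), if_pos h, hb, he j k]
      conv_rhs => rw [← Complex.re_add_im ((e j).coeff k)]
      simp only [Complex.conj_re, Complex.conj_im]
      push_cast; field_simp; ring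
    · have := he j 0
      rw [neg_zero] at this
      have h0 := Complex.conj_eq_iff_re.1 this.symm
      simp only [lt_irrefl, if_false]
      push_cast; rw [h0]; field_simp
    · rw [if_pos h, if_neg (by omega), if_pos (by omega), hb, neg_neg]
      conv_rhs => rw [← Complex.re_add_im ((e j).coeff k)]
      push_cast; field_simp

end StekIso
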