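import Pool.Agent.Lib.MP_fa022d_an.Soft

/-! The exit curve for holomorphic insensitive functions. -/

namespace Pool.Agent.Lib.MP_fa022d_an

open Set Metric Filter Topology
open scoped ContDiff

variable {X E : Type*} [NormedAddCommGroup X] [NormedSpace ℝ X] [NormedAddCommGroup E]
  [NormedSpace ℂ E]

/-- holomorphic on `U`, real on the real points `i B`, insensitive to the directions `V M` -/
structure Ins (i : X →L[ℝ] E) (U : Set E) (B : Set X) (V : ℕ → X) (φ : E → ℂ) : Prop where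
  hol : DifferentiableOn ℂ φ U
  re : ∀ x ∈ B, (φ (i x)).im = 0
  ins : ∀ z ∈ U, ∃ r > 0, ball z r ⊆ U ∧ ∀ ε > 0, ∀ᶠ M in atTop, ∀ w ∈ ball z r,
    ‖fderiv ℂ φ w (i (V M))‖ ≤ ε

variable {i : X →L[ℝ] E} {U : Set E} {B : Set X} {V : ℕ → X} {φ χ : E → ℂ}

theorem softC_two : (2 : WithTop ℕ∞) ≤ ∞ := ENat.LEInfty.out

theorem Ins.of_unif (hU : IsOpen U) (h1 : DifferentiableOn ℂ φ U) (h2 : ∀ x ∈ B, (φ (i x)).im = 0)
    (h3 : ∀ ε > 0, ∀ᶠ M in atTop, ∀ w ∈ U, ‖fderiv ℂ φ w (i (V M))‖ ≤ ε) : Ins i U B V φ :=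
  ⟨h1, h2, fun z hz => let ⟨r, hr, h⟩ := Metric.isOpen_iff.1 hU z hz
    ⟨r, hr, h, fun ε hε => (h3 ε hε).mono fun _ H w hw => H w (h hw)⟩⟩

theorem softC_fd (hU : IsOpen U) (hB : IsOpen B) (hi : MapsTo i B U) (h : DifferentiableOn ℂ φ U)
    (p : ℂ →L[ℝ] ℝ) {f : X → ℝ} (hf : ∀ x ∈ B, f x = p (φ (i x))) {x : X} (hx : x ∈ B) (e : X) :
    fderiv ℝ f x e = p (fderiv ℂ φ (i x) (i e)) := by
  have h1 := (h.differentiableAt (hU.mem_nhds (hi hx))).hasFDerivAt.restrictScalars ℝ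
  have h2 := (p.hasFDerivAt.comp x (h1.comp x i.hasFDerivAt)).congr_of_eventuallyEq
    (f₁ := f) (by filter_upwards [hB.mem_nhds hx] with y hy using hf y hy)
  rw [h2.fderiv]; rfl

theorem Ins.dir (h : Ins i U B V φ) (hU : IsOpen U) (hB : IsOpen B) (hi : MapsTo i B U) (e : X) :
    Ins i U B V fun w => fderiv ℂ φ w (i e) := by
  refine ⟨hol_fderiv_apply hU h.hol _, fun x hx => ?_, fun z hz => ?_⟩
  · have := softC_fd hU hB hi h.hol Complex.imCLM (f := fun _ => 0)
      (fun y hy => (h.re y hy).symm) hx e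
    simpa using this.symm
  · obtain ⟨r, hr, h1, h2⟩ := h.ins z hz
    refine ⟨r / 2, half_pos hr, (ball_subset_ball (half_le_self hr.le)).trans h1, fun ε hε => ?_⟩
    have hp : 0 < ‖i e‖ + 1 := by positivity
    filter_upwards [h2 (ε * r / 4 / (‖i e‖ + 1)) (by positivity)] with M hM w hw
    have wU := h1 (ball_subset_ball (half_le_self hr.le) hw)
    have hd := ((hol_fderiv hU h.hol).differentiableAt (hU.mem_nhds wU)).hasFDerivAt
    have sy := ((hol_contDiffOn hU h.hol).contDiffAt (hU.mem_nhds wU)).isSymmSndFDerivAt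
      (by simpa using softC_two)
    have e1 : ∀ k u, fderiv ℂ (fun w => fderiv ℂ φ w k) w u = fderiv ℂ (fderiv ℂ φ) w u k :=
      fun k u => by rw [(hd.clm_apply (hasFDerivAt_const k w)).fderiv]; simp
    rw [e1, sy, ← e1]
    have := hol_fderiv_le (half_pos hr) ((hol_fderiv_apply hU h.hol (i (V M))).mono
      ((hol_half hw).trans h1)) fun u hu => hM u (hol_half hw hu)
    refine (ContinuousLinearMap.le_opNorm _ _).trans ((mul_le_mul this (lt_add_one _).le
      (norm_nonneg _) (by positivity)).trans_eq ?_)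
    field_simp
    norm_num

theorem Ins.const (hU : IsOpen U) (c : ℝ) : Ins i U B V fun _ => (c : ℂ) :=
  Ins.of_unif hU (differentiableOn_const _) (fun _ _ => rfl) fun ε hε =>
    Eventually.of_forall fun _ _ _ => by simpa using hε.le

theorem Ins.add (h : Ins i U B V φ) (k : Ins i U B V χ) (hU : IsOpen U) :
    Ins i U B V fun w => φ w + χ w := by
  refine ⟨h.hol.add k.hol, fun x hx => by simp [h.re x hx, k.re x hx], fun z hz => ?_⟩
  obtain ⟨r, hr, h1, h2⟩ := h.ins z hz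
  obtain ⟨s, hs, -, k2⟩ := k.ins z hz
  have s1 := ball_subset_ball (x := z) (min_le_left r s)
  refine ⟨min r s, lt_min hr hs, s1.trans h1, fun ε hε => ?_⟩
  filter_upwards [h2 _ (half_pos hε), k2 _ (half_pos hε)] with M a b w hw
  have wU := hU.mem_nhds (h1 (s1 hw))
  rw [fderiv_fun_add (h.hol.differentiableAt wU) (k.hol.differentiableAt wU)]
  exact (norm_add_le _ _).trans ((add_le_add (a w (s1 hw))
    (b w (ball_subset_ball (min_le_right r s) hw))).trans_eq (add_halves ε))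

theorem Ins.mul (h : Ins i U B V φ) (k : Ins i U B V χ) (hU : IsOpen U) :
    Ins i U B V fun w => φ w * χ w := by
  refine ⟨h.hol.mul k.hol, fun x hx => by simp [h.re x hx, k.re x hx], fun z hz => ?_⟩
  obtain ⟨r, hr, h1, h2⟩ := h.ins z hz
  obtain ⟨s, hs, -, k2⟩ := k.ins z hz
  obtain ⟨ρ, hρ, C, -, hC⟩ := hol_bdd hU (h.hol.prodMk k.hol) hz
  have C0 : 0 < |C| + 1 := by positivity
  have s0 := ball_subset_ball (x := z) (min_le_left (min r s) ρ)
  have s1 := s0.trans (ball_subset_ball (min_le_left r s))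
  refine ⟨_, lt_min (lt_min hr hs) hρ, s1.trans h1, fun ε hε => ?_⟩
  have e0 : 0 < ε / 2 / (|C| + 1) := by positivity
  filter_upwards [h2 _ e0, k2 _ e0] with M a b w hw
  have wU := hU.mem_nhds (h1 (s1 hw))
  have c0 := (hC w (ball_subset_ball (min_le_right _ _) hw)).trans
    ((le_abs_self C).trans (lt_add_one _).le)
  rw [fderiv_fun_mul (h.hol.differentiableAt wU) (k.hol.differentiableAt wU)]
  have b1 := mul_le_mul ((norm_fst_le _).trans c0)
    (b w (ball_subset_ball (min_le_right r s) (s0 hw))) (norm_nonneg _) C0.le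
  have b2 := mul_le_mul ((norm_snd_le _).trans c0) (a w (s1 hw)) (norm_nonneg _) C0.le
  rw [mul_div_cancel₀ _ C0.ne'] at b1 b2
  exact (norm_add_le _ _).trans ((add_le_add ((norm_smul_le _ _).trans b1)
    ((norm_smul_le _ _).trans b2)).trans_eq (add_halves ε))

theorem softC_iter (hU : IsOpen U) (a k : E) (m : ℕ) : ∀ φ : E → ℂ, DifferentiableOn ℂ φ U →
    ∀ t : ℂ, a + t • k ∈ U → iteratedDeriv m (fun s : ℂ => φ (a + s • k)) t =
      (fun g w => fderiv ℂ g w k)^[m] φ (a + t • k) := by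
  induction m with
  | zero => intro φ _ t _; rfl
  | succ m ih =>
    intro φ h t ht
    rw [iteratedDeriv_succ', Function.iterate_succ_apply, ← ih _ (hol_fderiv_apply hU h k) t ht]
    refine Filter.EventuallyEq.iteratedDeriv_eq m ?_
    have : ContinuousAt (fun s : ℂ => a + s • k) t := by fun_prop
    filter_upwards [this.eventually (hU.mem_nhds ht)] with s hs
    have h1 : HasDerivAt (fun s : ℂ => a + s • k) k s := by
      simpa using ((hasDerivAt_id s).smul_const k).const_add a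
    exact ((h.differentiableAt (hU.mem_nhds hs)).hasFDerivAt.comp_hasDerivAt s h1).deriv

theorem softC_cls (hU : IsOpen U) (hB : IsOpen B) (hc : Convex ℝ B) (hi : MapsTo i B U) :
    Cls B V {f | ∃ φ, Ins i U B V φ ∧ ∀ x ∈ B, f x = (φ (i x)).re} where
  smooth := fun f ⟨φ, h, hf⟩ => ((Complex.reCLM.contDiff.comp_contDiffOn
    ((((hol_contDiffOn hU h.hol).restrict_scalars ℝ).of_le softC_two).comp
      i.contDiff.contDiffOn hi)).congr hf)
  dir := fun f ⟨φ, h, hf⟩ e =>
    ⟨_, h.dir hU hB hi e, fun x hx => softC_fd hU hB hi h.hol Complex.reCLM hf hx e⟩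
  const := fun c => ⟨_, Ins.const hU c, fun _ _ => rfl⟩
  add := fun f ⟨φ, h, hf⟩ g ⟨χ, k, hg⟩ =>
    ⟨_, h.add k hU, fun x hx => by simp [hf x hx, hg x hx]⟩
  mul := fun f ⟨φ, h, hf⟩ g ⟨χ, k, hg⟩ =>
    ⟨_, h.mul k hU, fun x hx => by simp [hf x hx, hg x hx, h.re x hx]⟩
  ins := fun f ⟨φ, h, hf⟩ x hx => by
    obtain ⟨r, hr, -, h2⟩ := h.ins _ (hi hx)
    refine Metric.tendsto_nhds.2 fun ε hε => (h2 _ (half_pos hε)).mono fun M hM => ?_
    rw [softC_fd hU hB hi h.hol Complex.reCLM hf hx, dist_zero_right]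
    exact ((Complex.abs_re_le_norm _).trans (hM _ (mem_ball_self hr))).trans_lt (half_lt_self hε)
  ident := fun f ⟨φ, h, hf⟩ q hq x hx hne => by
    by_contra k
    push Not at k
    have it : ∀ m, Ins i U B V ((fun g w => fderiv ℂ g w (i (x - q)))^[m] φ) ∧ ∀ y ∈ B,
        (fun g y => fderiv ℝ g y (x - q))^[m] f y =
          ((fun g w => fderiv ℂ g w (i (x - q)))^[m] φ (i y)).re := fun m => by
      induction m with
      | zero => exact ⟨h, hf⟩
      | succ m ih =>
        rw [Function.iterate_succ_apply', Function.iterate_succ_apply']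
        exact ⟨ih.1.dir hU hB hi _, fun y hy => softC_fd hU hB hi ih.1.hol Complex.reCLM ih.2 hy _⟩
    have hT : IsOpen {t : ℂ | i q + t • i (x - q) ∈ U} := hU.preimage (by fun_prop)
    have an : AnalyticOnNhd ℂ (fun t : ℂ => φ (i q + t • i (x - q))) _ :=
      (h.hol.comp (f := fun t : ℂ => i q + t • i (x - q)) (by fun_prop)
        fun t ht => ht).analyticOnNhd hT
    have seg : (fun t : ℝ => (t : ℂ)) '' Icc 0 1 ⊆ {t : ℂ | i q + t • i (x - q) ∈ U} := by
      rintro _ ⟨t, ht, rfl⟩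
      have := hi (hc.add_smul_sub_mem hq hx ht)
      rwa [map_add, map_smul, ← Complex.coe_smul] at this
    have z0 : (0 : ℂ) ∈ (fun t : ℝ => (t : ℂ)) '' Icc 0 1 := ⟨0, by simp, rfl⟩
    have e0 : ∀ᶠ t in 𝓝 (0 : ℂ), φ (i q + t • i (x - q)) = 0 := by
      refine analyticOrderAt_eq_top.1 (ENat.eq_top_iff_forall_ge.2 fun n => ?_)
      refine (natCast_le_analyticOrderAt_iff_iteratedDeriv_eq_zero (an 0 (seg z0))).2 fun m _ => ?_
      rw [softC_iter hU _ _ m φ h.hol 0 (seg z0), zero_smul, add_zero]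
      exact Complex.ext (((it m).2 q hq).symm.trans (k m)) ((it m).1.re q hq)
    have := (an.mono seg).eqOn_zero_of_preconnected_of_eventuallyEq_zero
      (isPreconnected_Icc.image _ Complex.continuous_ofReal.continuousOn) z0 e0 ⟨1, by simp, rfl⟩
    simp only [Complex.ofReal_one, one_smul, map_sub, add_sub_cancel, Pi.zero_apply] at this
    exact hne (by rw [hf x hx, this]; rfl)

/-- the exit curve: all insensitive functions `ψ j` stay constant until the curve leaves `O` -/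
theorem soft_exit [CompleteSpace X] {O : Set X} (hU : IsOpen U) (hB : IsOpen B) (hc : Convex ℝ B)
    (hi : MapsTo i B U) (hO : IsOpen O) (h1 : (B ∩ O).Nonempty) (h2 : (B ∩ interior Oᶜ).Nonempty)
    (hP : ∀ p ∈ B ∩ frontier O, Push O V p) {ι : Type*} [Finite ι] {ψ : ι → E → ℂ}
    (hψ : ∀ j, Ins i U B V (ψ j)) :
    ∃ T x y, Exit O B T x y ∧ ∀ j, ∀ t ∈ Icc 0 T, ψ j (i (x t)) = ψ j (i (x 0)) := by
  obtain ⟨T, x, y, hE, h⟩ := (softC_cls (V := V) hU hB hc hi).exit hO hB
    (soft_front hO hc.isPreconnected h1 h2) hP (ψ := fun j x => (ψ j (i x)).re)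
    fun j => ⟨_, hψ j, fun _ _ => rfl⟩
  exact ⟨T, x, y, hE, fun j t ht => Complex.ext (h j t ht) (((hψ j).re _ (hE.mem t ht)).trans
    ((hψ j).re _ (hE.mem 0 ⟨le_rfl, hE.pos.le⟩)).symm)⟩

end Pool.Agent.Lib.MP_fa022d_an
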