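import Pool.Agent.Lib.MP_fa022d_an.Hol3
import Pool.Agent.Lib.MP_fa022d_an.SoftC

open Set Filter Topology Metric BoundedContinuousFunction Complex

noncomputable section
namespace StekIso
variable {E : Type*} [NormedAddCommGroup E] [NormedSpace ℂ E] [CompleteSpace E]

/-- the derivative along `W M` is `o (t M)` uniformly on `U` -/
def Insens (W : ℕ → E) (t : ℕ → ℝ) (U : Set E) (φ : E → ℂ) : Prop :=
  ∀ ε > 0, ∀ᶠ M in atTop, ∀ x ∈ U, ‖fderiv ℂ φ x (W M)‖ ≤ ε * t M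

/-- the data of the soft argument: `O` good open set, `N` robustly bad open set -/
structure SoftData (ER : Submodule ℝ E) (x0 : E) (ρ : ℝ) (O N : Set E) (W : ℕ → E)
    (t : ℕ → ℝ) : Prop where
  x0_mem : x0 ∈ ER
  O_sub : O ⊆ (ER : Set E) ∩ ball x0 ρ
  N_sub : N ⊆ (ER : Set E) ∩ ball x0 ρ
  O_open : ∀ x ∈ O, ∀ᶠ y in 𝓝 x, y ∈ ER → y ∈ O
  N_open : ∀ x ∈ N, ∀ᶠ y in 𝓝 x, y ∈ ER → y ∈ N
  disj : Disjoint O N
  O_ne : O.Nonempty
  N_ne : N.Nonempty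
  W_mem : ∀ M, W M ∈ ER
  t_pos : ∀ M, 0 < t M
  push : ∀ p ∈ (ER : Set E) ∩ ball x0 ρ, p ∈ closure O → p ∉ O → ∃ ℓ : E →L[ℝ] ℝ,
    (∃ c > 0, ∃ᶠ M in atTop, c * t M ≤ |ℓ (W M)|) ∧
    ∀ (c : ℝ → E) (v : E), c 0 = p → (∀ᶠ τ in 𝓝 0, c τ ∈ ER) → HasDerivAt c v 0 → 0 < ℓ v →
      ∀ᶠ τ in 𝓝[>] 0, c τ ∈ N

theorem Insens.fderiv_apply {W : ℕ → E} {t : ℕ → ℝ} {U : Set E} (hU : IsOpen U) {φ : E → ℂ}
    (hφ : DifferentiableOn ℂ φ U) (h : Insens W t U φ) {x : E} (hx : x ∈ U) :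
    ∃ r > 0, ball x r ⊆ U ∧ ∀ e, Insens W t (ball x r) fun y => fderiv ℂ φ y e := by
  obtain ⟨r, hr, h1⟩ := Metric.isOpen_iff.1 hU x hx
  refine ⟨r / 2, half_pos hr, (ball_subset_ball (half_le_self hr.le)).trans h1, fun e ε hε => ?_⟩
  have hp : 0 < ‖e‖ + 1 := by positivity
  filter_upwards [h (ε * r / 4 / (‖e‖ + 1)) (by positivity)] with M hM w hw
  have s := (Pool.Agent.Lib.MP_fa022d_an.hol_half hw).trans h1
  rw [fderiv_fderiv_symm hU hφ (s (mem_ball_self (half_pos hr)))]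
  have := Pool.Agent.Lib.MP_fa022d_an.hol_fderiv_le (half_pos hr)
    ((diffOn_fderiv_apply hU hφ (W M)).mono s) fun u hu => hM u (s hu)
  refine (ContinuousLinearMap.le_opNorm _ _).trans ((mul_le_mul this (lt_add_one _).le
    (norm_nonneg _) ((norm_nonneg _).trans this)).trans_eq ?_)
  field_simp
  norm_num

end StekIso
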