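import Pool.Agent.Lib.MP_fa022d_an.Defs6
import Pool.Agent.Lib.MP_fa022d_an.LowMain
import Pool.Agent.Lib.MP_fa022d_an.CurvD
import Pool.Agent.Lib.MP_fa022d_an.Soft1
import Pool.Agent.Lib.MP_fa022d_an.Pi1

open Set Filter Topology Metric BoundedContinuousFunction Complex

noncomputable section
namespace StekIso

/-- `low_main` for `S x = Sx (π x)`; chain rule, `KerOK.ins`, `KerOK.Hins`, `wn_le_pn` -/
theorem low_psi {B : Base} {η : Pos} {C lam0 δC CC lam c : ℝ} (hK : KerOK B η C)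
    (hC : CurvOK B η lam0 δC CC) (hl : |lam - lam0| < δC) (hc : 0 < c) (hs : Sep (lenf lam) c) :
    ∃ n0 : ℕ, ∀ N ≥ n0, ∀ (ε ρ r θ : ℝ) (x0 : X) (π : X → X), r ≤ δC →
      PiOK B η ε lam x0 ρ r θ π → ∃ (d : ℕ) (ψ : Fin d → X → ℂ),
        (∀ i, DifferentiableOn ℂ (ψ i) (ball x0 ρ)) ∧
        (∀ i, ∀ x ∈ (reB Idx : Set X) ∩ ball x0 ρ, (ψ i x).im = 0) ∧
        (∀ i, Insens (WM B η.1) (tM η.1 ε) (ball x0 ρ) (ψ i)) ∧
        ∀ x ∈ (reB Idx : Set X) ∩ ball x0 ρ, ∀ x' ∈ (reB Idx : Set X) ∩ ball x0 ρ,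
          (∀ i, ψ i x = ψ i x') → ∀ σ : ℝ, σ < cutAt c N →
          Module.Finite ℂ (Ker (Sx B η ε lam (π x)) (lenf lam) σ) ∧
          Module.finrank ℂ (Ker (Sx B η ε lam (π x)) (lenf lam) σ) =
            Module.finrank ℂ (Ker (Sx B η ε lam (π x')) (lenf lam) σ) := by
  have η0 := η.2
  have C1 := hK.one_le
  obtain ⟨n0, h0⟩ := low_main (η1 := 7 / 8 * η.1) (by linarith) C1 hc hs
  obtain ⟨K, K1, hw⟩ := wn_le_pn (η := η) (a := 3 / 4 * η.1) (by linarith)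
  refine ⟨n0, fun N hN ε ρ r θ x0 π hr P => ?_⟩
  have s1 : ∀ x ∈ ball x0 ρ, ‖toV η ε (π x)‖ < δC := fun x hx => (P.small x hx).trans_le hr
  have s2 : ∀ x ∈ ball x0 ρ, ‖toV η ε (π x)‖ < δK B η := fun x hx => (s1 x hx).trans_le hC.δ_le
  have s3 : ∀ x ∈ ball x0 ρ, ‖(zOf B η ε lam (π x)).2 - B.H0‖ ≤ 1 / 2 := fun x hx =>
    hC.inH (toV η ε (π x), (lam : ℂ)) ⟨mem_ball_zero_iff.2 (s1 x hx), by
      rwa [mem_ball_iff_norm, ← ofReal_sub, norm_real, Real.norm_eq_abs]⟩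
  have s4 : ∀ x ∈ ball x0 ρ, zOf B η ε lam (π x) ∈ dom B η (δK B η) := fun x hx =>
    ⟨mem_ball_zero_iff.2 (s2 x hx), mem_ball_iff_norm.2 ((s3 x hx).trans_lt (by norm_num))⟩
  have od : IsOpen (dom B η (δK B η)) := isOpen_ball.prod isOpen_ball
  have dz : ∀ x ∈ ball x0 ρ, ∃ D : X →L[ℂ] V η × ℂ,
      HasFDerivAt (fun x => zOf B η ε lam (π x)) D x ∧ ∀ w, D w = (toV η ε (fderiv ℂ π x w),
        fderiv ℂ (Hof B) (toV η ε (π x), (lam : ℂ)) (toV η ε (fderiv ℂ π x w), 0)) := fun x hx => by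
    have h1 := (toV η ε).hasFDerivAt.comp x
      (P.diff.differentiableAt (isOpen_ball.mem_nhds hx)).hasFDerivAt
    have h2 := (hK.Hdiff.differentiableAt ((isOpen_ball.prod isOpen_univ).mem_nhds
      (show (toV η ε (π x), (lam : ℂ)) ∈ _ from ⟨mem_ball_zero_iff.2 (s2 x hx), trivial⟩))).hasFDerivAt
    have h3 := h1.prodMk (h2.comp x (h1.prodMk (hasFDerivAt_const (lam : ℂ) x)))
    exact ⟨_, h3, fun w => rfl⟩
  have dS : ∀ b c, ∀ x ∈ ball x0 ρ, HasFDerivAt (fun x => Sx B η ε lam (π x) b c)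
      ((fderiv ℂ (fun z => Smat B z b c) (zOf B η ε lam (π x))).comp
        (fderiv ℂ (fun x => zOf B η ε lam (π x)) x)) x := fun b c x hx => by
    have := ((hK.diff b c).differentiableAt (od.mem_nhds (s4 x hx))).hasFDerivAt.comp x
      (dz x hx).choose_spec.1.differentiableAt.hasFDerivAt
    exact this
  have rs : ∀ x ∈ (reB Idx : Set X) ∩ ball x0 ρ, RSym (Sx B η ε lam (π x)) := fun x hx =>
    hK.rsym _ (s4 x hx.2) (pi1_real (P.real x hx.2 hx.1))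
      (hK.Hreal _ (s2 x hx.2) (pi1_real (P.real x hx.2 hx.1)) lam)
  obtain ⟨d, ψ, C', p, a1, a2, a3, a4⟩ := h0 N hN (ball x0 ρ) (fun x => Sx B η ε lam (π x))
    isOpen_ball (fun b c x hx => (dS b c x hx).differentiableAt.differentiableWithinAt)
    (fun x hx => hK.crude _ (s4 x hx)) fun x hx => hK.bsym _ (s4 x hx)
  refine ⟨d, ψ, a1, fun i x hx => (a3 x hx.2 (rs x hx)).1 i, fun i θ' hθ => ?_,
    fun x hx x' hx' e σ hσ => ⟨(a3 x hx.2 (rs x hx)).2 σ hσ,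
      a4 x hx.2 x' hx'.2 (rs x hx) (rs x' hx') e σ hσ⟩⟩
  have A0 : 0 < (C' + 1) * (C * (1 + C) * K) := by positivity
  filter_upwards [P.pn0 (θ' / ((C' + 1) * (C * (1 + C) * K))) (by positivity)] with M hM x hx
  have t0 : 0 ≤ tM η.1 ε M := (mul_pos P.ε_pos (beta_pos _ _)).le
  set w := toV η ε (fderiv ℂ π x (WM B η.1 M)) with hw'
  have b1 : wn (3 / 4 * η.1) w ≤ K * (θ' / ((C' + 1) * (C * (1 + C) * K)) * tM η.1 ε M) :=
    (hw w).trans (mul_le_mul_of_nonneg_left (hM x hx) (by linarith))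
  refine (a2 i x hx _ (C * ((1 + C) * wn (3 / 4 * η.1) w)) fun p q hp hq => ?_).trans ?_
  · have e : (fun b c => fderiv ℂ (fun z => Sx B η ε lam (π z) b c) x (WM B η.1 M)) =
        dSm B (zOf B η ε lam (π x)) (w, fderiv ℂ (Hof B) (toV η ε (π x), (lam : ℂ)) (w, 0)) := by
      funext b c
      rw [(dS b c x hx).fderiv, ContinuousLinearMap.comp_apply, (dz x hx).choose_spec.1.fderiv,
        (dz x hx).choose_spec.2]
      rfl
    rw [e]
    refine (hK.ins _ (s4 x hx) (s3 x hx) _ p q hp hq).trans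
      (mul_le_mul_of_nonneg_left ?_ (by linarith))
    linarith [hK.Hins _ (s2 x hx) lam w]
  · calc _ ≤ C' * (C * ((1 + C) *
          (K * (θ' / ((C' + 1) * (C * (1 + C) * K)) * tM η.1 ε M)))) := by gcongr
      _ = C' / (C' + 1) * (θ' * tM η.1 ε M) := by field_simp
      _ ≤ θ' * tM η.1 ε M :=
        mul_le_of_le_one_left (by positivity) ((div_le_one (by linarith)).2 (by linarith))

end StekIso
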