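import Pool.Agent.Lib.MP_fa022d_an.Defs6

open Set Filter Topology Metric BoundedContinuousFunction Complex

noncomputable section
namespace StekIso

/-- closed neighbours of the base are the shapes of small real perturbations -/
theorem pm_core {B : GeoBase} {η : Pos} {r δ C : ℝ} (hG : GeoOK B η r δ C) (hF : FwdOK B η) {κ : ℝ}
    (hκ : 0 < κ) : ∃ κ' > 0, ∀ G F H, B.Near κ' G H → HasPrim G F B.H0 B.δ0 →
      ∃ v ∈ RB η κ, ∃ lam : ℝ, |lam - B.lam0| < κ ∧ 0 < lenG G H true ∧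
        lenG G H false = Real.exp lam * lenG G H true ∧ H = Hv B.toBase lam v ∧
        Clo B.toBase lam v ∧ ∃ a b : ℂ, a ≠ 0 ∧ ∀ z ∈ cann H, F z = a * Fv B.toBase lam v z + b := by
  obtain ⟨K, hK, κ0, h0, h⟩ := hF
  have m0 : 0 < min κ r := lt_min hκ hG.r_pos
  have d0 := half_pos B.δ0_pos
  have p : 0 < min (min κ0 (min κ r / (K + 1))) (min (B.δ0 / 2) 1) := by positivity
  refine ⟨_, p, fun G F H hN hP => ?_⟩
  obtain ⟨v, hv, nv, lam, hl, -, l0, l1, fit⟩ :=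
    h _ p.le ((min_le_left _ _).trans (min_le_left _ _)) G H hN
  have s : K * min (min κ0 (min κ r / (K + 1))) (min (B.δ0 / 2) 1) < min κ r := by
    have := (le_div_iff₀' (by positivity : 0 < K + 1)).1
      ((min_le_left _ (min (B.δ0 / 2) 1)).trans (min_le_right κ0 (min κ r / (K + 1))))
    linarith
  have sub : ann H (B.δ0 / 2) ⊆ ann B.H0 B.δ0 := by
    have := ann_sub d0.le (hN.mod.trans ((min_le_right _ _).trans (min_le_left _ _)))
    rwa [mul_div_cancel₀ _ two_ne_zero] at this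
  have H0 : 0 < H := by
    have := abs_le.1 (hN.mod.trans ((min_le_right _ _).trans (min_le_right _ _)))
    linarith [B.big]
  obtain ⟨e, c, a, b, a0, δ', d, k⟩ := hG.uniq v ⟨hv, (nv.trans_lt s).trans_le (min_le_right _ _)⟩ lam
    ((hl.trans_lt s).trans_le (min_le_right _ _)) G F H _ _ H0 l0 d0 (hN.diff.mono sub)
    (fun z hz => hP z (sub hz)) fit
  exact ⟨v, ⟨hv, (nv.trans_lt s).trans_le (min_le_left _ _)⟩, lam,
    (hl.trans_lt s).trans_le (min_le_left _ _), l0, l1, e, c, a, b, a0, fun z hz => k z (cann_sub d hz)⟩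

/-- `Good.ovl`, `FwdOK`, `GeoOK.uniq` -/
theorem exists_minus {B : GeoBase} (hB : B.Good) {η : Pos} {r δ C : ℝ} (hG : GeoOK B η r δ C)
    (hF : FwdOK B η) {κ : ℝ} (hκ : 0 < κ) :
    ∃ v ∈ RB η κ, Clo B.toBase B.lam0 v ∧ Ovl B.toBase B.lam0 v := by
  obtain ⟨κ', p, h⟩ := pm_core hG hF hκ
  obtain ⟨G, F, H, hN, hP, ⟨x, hx, y, hy, ne, e⟩, l⟩ := hB.ovl κ' p
  obtain ⟨v, hv, lam, -, l0, l1, rfl, c, a, b, a0, k⟩ := h G F H hN hP
  obtain rfl : lam = B.lam0 := Real.exp_injective (mul_right_cancel₀ l0.ne' (l1.symm.trans l))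
  have sub {H : ℝ} {z : ℂ} (hz : z ∈ ann H 0) : z ∈ cann H :=
    ⟨by simpa using hz.1.le, by simpa using hz.2.le⟩
  refine ⟨v, hv, c, x, hx, y, hy, ne, mul_left_cancel₀ a0 (add_right_cancel (b := b) ?_)⟩
  rw [← k x (sub hx), ← k y (sub hy), e]

/-- `Good.emb`, `FwdOK`, `GeoOK.uniq` -/
theorem exists_plus {B : GeoBase} (hB : B.Good) {η : Pos} {r δ C : ℝ} (hG : GeoOK B η r δ C)
    (hF : FwdOK B η) {κ : ℝ} (hκ : 0 < κ) : ∃ v ∈ RB η κ, ∃ lam : ℝ, |lam - B.lam0| < κ ∧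
      Clo B.toBase lam v ∧ Emb B.toBase lam v := by
  obtain ⟨κ', p, h⟩ := pm_core hG hF hκ
  obtain ⟨G, F, hN, hP, i⟩ := hB.emb κ' p
  obtain ⟨v, hv, lam, hl, -, -, e, c, a, b, -, k⟩ := h G F _ hN hP
  refine ⟨v, hv, lam, hl, c, ?_⟩
  rw [Emb, ← e]
  exact fun x hx y hy o => i hx hy (by rw [k x hx, k y hy, o])

end StekIso
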