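import Pool.Agent.Lib.MP_fa022d_an.Pi2
import Pool.Agent.Lib.MP_fa022d_an.Hol2

/-! The closing equation after the first retraction. -/

open Set Filter Topology Metric BoundedContinuousFunction Complex

noncomputable section
namespace StekIso
variable {η : Pos} {B : Base} {lam0 δC C δ C1 θ Nc ε lam : ℝ} {x0 : X} {π1 : X → X}

theorem pi3_d (hR : RetrOK B η.1 x0 δ C1 θ Nc π1) (hC1 : 0 ≤ C1) {x : X}
    (hx : x ∈ ball x0 (δ / 2)) (w : X) : ‖fderiv ℂ π1 x w - w‖ ≤ 2 * C1 * ‖w‖ ∧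
      ∀ b : Idx, |(b.2 : ℝ)| < Nc → (fderiv ℂ π1 x w - w) b = 0 := by
  have hδ : 0 < δ / 2 := pos_of_mem_ball hx
  have sub := Pool.Agent.Lib.MP_fa022d_an.hol_half hx
  have hd : DifferentiableOn ℂ (fun y => π1 y - y) (ball x (δ / 2)) :=
    (hR.diff.mono sub).sub differentiableOn_id
  have e : fderiv ℂ (fun y => π1 y - y) x w = fderiv ℂ π1 x w - w := by
    have := ((hR.diff.mono sub).differentiableAt (ball_mem_nhds x hδ)).hasFDerivAt.sub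
      (hasFDerivAt_id x)
    exact congrArg (fun L : X →L[ℂ] X => L w) this.fderiv
  rw [← e]
  refine ⟨(ContinuousLinearMap.le_opNorm _ _).trans
    (mul_le_mul_of_nonneg_right ?_ (norm_nonneg _)), fun b hb => ?_⟩
  · refine (cauchy_fderiv hδ hd (M := C1 * δ) fun y hy => (hR.near y (sub hy)).trans
      (mul_le_mul_of_nonneg_left (mem_ball_iff_norm.1 (sub hy)).le hC1)).trans (le_of_eq ?_)
    have : δ ≠ 0 := by linarith
    field_simp
  · have := hol2_clm isOpen_ball hd (evalCLM ℂ b) (g := fun _ => 0)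
      (fun y hy => by
        show π1 y b - y b = 0
        rw [hR.supp y (sub hy) b hb, sub_self]) (mem_ball_self hδ) w
    simpa using this.symm

theorem pi3_norm (hR : RetrOK B η.1 x0 δ C1 θ Nc π1) (hC1 : 0 ≤ C1) {x : X} {ρ : ℝ} (hρ : ρ ≤ δ)
    (hx : x ∈ ball x0 ρ) : ‖π1 x - x‖ ≤ C1 * ρ ∧ ‖π1 x - x0‖ ≤ ρ * (C1 + 1) := by
  have h1 := (mem_ball_iff_norm.1 hx).le
  have h2 := (hR.near x (ball_subset_ball hρ hx)).trans (mul_le_mul_of_nonneg_left h1 hC1)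
  refine ⟨h2, ?_⟩
  have := norm_add_le (π1 x - x) (x - x0)
  rw [sub_add_sub_cancel] at this
  linarith

/-- the normalised closing defect -/
def PhiP (B : Base) (η : Pos) (ε lam : ℝ) (π1 : X → X) (x : X) : ℂ × ℂ :=
  (ε : ℂ)⁻¹ • Psi B (toV η ε (π1 x), (lam : ℂ))

theorem pi3_fd (hC : CurvOK B η lam0 δC C) (hR : RetrOK B η.1 x0 δ C1 θ Nc π1) {x : X}
    (hx : x ∈ ball x0 δ) (hz : (toV η ε (π1 x), (lam : ℂ)) ∈ domC η lam0 δC) :
    DifferentiableAt ℂ (PhiP B η ε lam π1) x ∧ ∀ w, fderiv ℂ (PhiP B η ε lam π1) x w =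
      (ε : ℂ)⁻¹ • fderiv ℂ (Psi B) (toV η ε (π1 x), (lam : ℂ))
        (toV η ε (fderiv ℂ π1 x w), 0) := by
  have a := (hR.diff.differentiableAt (isOpen_ball.mem_nhds hx)).hasFDerivAt
  have b := ((toV η ε).hasFDerivAt.comp x a).prodMk (hasFDerivAt_const (lam : ℂ) x)
  have c := ((Psi_diff hC).differentiableAt (pi2_open.mem_nhds hz)).hasFDerivAt
  have d : HasFDerivAt (PhiP B η ε lam π1) _ x :=
    (HasFDerivAt.comp (𝕜 := ℂ) x c b).const_smul (ε : ℂ)⁻¹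
  exact ⟨d.differentiableAt, fun w => by rw [d.fderiv]; rfl⟩

theorem pi3_smul (hε : 0 < ε) (p : ℂ × ℂ) : ‖(ε : ℂ)⁻¹ • p‖ = ‖p‖ / ε := by
  rw [norm_smul, norm_inv, Complex.norm_real, Real.norm_of_nonneg hε.le, mul_comm, div_eq_mul_inv]

/-- the two directions -/
def RP (E1 E2 : X) : (ℂ × ℂ) →L[ℂ] X :=
  (ContinuousLinearMap.fst ℂ ℂ ℂ).smulRight E1 + (ContinuousLinearMap.snd ℂ ℂ ℂ).smulRight E2

theorem RP_apply (E1 E2 : X) (p : ℂ × ℂ) : RP E1 E2 p = p.1 • E1 + p.2 • E2 := rfl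

theorem RP_real {E1 E2 : X} (h1 : E1 ∈ reB Idx) (h2 : E2 ∈ reB Idx) :
    ∀ p ∈ reP, RP E1 E2 p ∈ reB Idx := fun p hp b => by
  simp [RP_apply, h1 b, h2 b, hp.1, hp.2]

/-- the two directions give an approximate right inverse -/
theorem pi3_inv (hC : CurvOK B η lam0 δC C) {e1 e2 : V η} (hD : Dirs B lam0 e1 e2) {E1 E2 : X}
    (h1 : toV η ε E1 = (ε : ℂ) • e1) (h2 : toV η ε E2 = (ε : ℂ) • e2) (hε : 0 < ε)
    (hR : RetrOK B η.1 x0 δ C1 θ Nc π1) (hC1 : 0 ≤ C1) {x : X} (hx : x ∈ ball x0 (δ / 2)) {s τ : ℝ}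
    (hz : ‖((toV η ε (π1 x), (lam : ℂ)) : V η × ℂ) - (0, (lam0 : ℂ))‖ ≤ s) (hs : s < δC / 2)
    (hs' : 16 * C / δC ^ 2 * s * (‖e1‖ + ‖e2‖) ≤ 1 / 4) (hτ : 0 ≤ τ)
    (ht : ∀ u : X, (∀ b : Idx, |(b.2 : ℝ)| < Nc → u b = 0) → pn (toV η ε u) ≤ τ * ε * ‖u‖)
    (hτ' : C * τ * (2 * C1) * ‖RP E1 E2‖ ≤ 1 / 4) :
    ‖(fderiv ℂ (PhiP B η ε lam π1) x).comp (RP E1 E2) - ContinuousLinearMap.id ℂ _‖ ≤ 1 / 2 := by
  have hδ : 0 < δ / 2 := pos_of_mem_ball hx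
  have C0 : 0 ≤ C := zero_le_one.trans hC.one_le
  have hm : (toV η ε (π1 x), (lam : ℂ)) ∈ domC η lam0 δC := by
    rw [pi2_dom, mem_ball_iff_norm]; linarith [hC.δ_pos]
  have fd := (pi3_fd hC hR (ball_subset_ball (by linarith) hx) hm).2
  refine ContinuousLinearMap.opNorm_le_bound _ (by norm_num) fun p => ?_
  obtain ⟨u1, u2⟩ := pi3_d hR hC1 hx (RP E1 E2 p)
  set u := fderiv ℂ π1 x (RP E1 E2 p) - RP E1 E2 p with hu
  set z : V η × ℂ := (toV η ε (π1 x), (lam : ℂ))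
  set e : V η := p.1 • e1 + p.2 • e2 with he
  have hε' : (ε : ℂ) ≠ 0 := by exact_mod_cast hε.ne'
  have k : ((toV η ε (fderiv ℂ π1 x (RP E1 E2 p)), 0) : V η × ℂ) =
      (ε : ℂ) • (e, 0) + (toV η ε u, 0) := by
    rw [hu, he, map_sub, RP_apply, map_add (toV η ε), map_smul, map_smul, h1, h2]
    refine Prod.ext ?_ (by simp)
    simp only [Prod.fst_add, Prod.smul_fst, smul_add, smul_comm (ε : ℂ)]
    abel
  have q : ((fderiv ℂ (PhiP B η ε lam π1) x).comp (RP E1 E2) -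
      ContinuousLinearMap.id ℂ (ℂ × ℂ)) p =
      (fderiv ℂ (Psi B) z - fderiv ℂ (Psi B) ((0 : V η), (lam0 : ℂ))) (e, 0) +
        (ε : ℂ)⁻¹ • fderiv ℂ (Psi B) z (toV η ε u, 0) := by
    show fderiv ℂ (PhiP B η ε lam π1) x (RP E1 E2 p) - p =
      fderiv ℂ (Psi B) z (e, 0) - fderiv ℂ (Psi B) ((0 : V η), (lam0 : ℂ)) (e, 0) + _
    rw [fd, k, map_add, map_smul, smul_add, inv_smul_smul₀ hε', he, Psi_dirs hC hD]
    abel
  have n1 : ‖((e, 0) : V η × ℂ)‖ ≤ (‖e1‖ + ‖e2‖) * ‖p‖ := by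
    rw [Prod.norm_def, norm_zero, max_eq_left (norm_nonneg _), he]
    refine (norm_add_le _ _).trans ?_
    rw [norm_smul, norm_smul]
    nlinarith [norm_fst_le p, norm_snd_le p, norm_nonneg e1, norm_nonneg e2]
  have hδC := hC.δ_pos
  have n2 : ‖fderiv ℂ (Psi B) z - fderiv ℂ (Psi B) ((0 : V η), (lam0 : ℂ))‖ ≤
      16 * C / δC ^ 2 * s :=
    (Psi_dlip hC (hz.trans_lt hs)).trans (mul_le_mul_of_nonneg_left hz (by positivity))
  have n3 := (ContinuousLinearMap.le_opNorm _ ((e, 0) : V η × ℂ)).trans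
    (mul_le_mul n2 n1 (norm_nonneg _) ((norm_nonneg _).trans n2))
  have n4 : ‖(ε : ℂ)⁻¹ • fderiv ℂ (Psi B) z (toV η ε u, 0)‖ ≤
      C * τ * (2 * C1) * ‖RP E1 E2‖ * ‖p‖ := by
    rw [pi3_smul hε, div_le_iff₀ hε]
    have a1 := u1.trans (mul_le_mul_of_nonneg_left ((RP E1 E2).le_opNorm p) (by positivity))
    calc _ ≤ C * (τ * ε * ‖u‖) :=
          (Psi_ins hC hm _).trans (mul_le_mul_of_nonneg_left (ht u u2) C0)
      _ ≤ C * (τ * ε * (2 * C1 * (‖RP E1 E2‖ * ‖p‖))) := by gcongr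
      _ = _ := by ring
  rw [q]
  refine (norm_add_le _ _).trans ?_
  have a := mul_le_mul_of_nonneg_right hs' (norm_nonneg p)
  have b := mul_le_mul_of_nonneg_right hτ' (norm_nonneg p)
  nlinarith

theorem pi3_half {F : Type} [NormedAddCommGroup F] [NormedSpace ℂ F] {D : X →L[ℂ] F}
    {R : F →L[ℂ] X} (h : ‖D.comp R - ContinuousLinearMap.id ℂ F‖ ≤ 1 / 2) {w : X} {p : F}
    (e : D (w + R p) = 0) : ‖p‖ ≤ 2 * ‖D w‖ := by
  have a := ((D.comp R - ContinuousLinearMap.id ℂ F).le_opNorm p).trans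
    (mul_le_mul_of_nonneg_right h (norm_nonneg p))
  have b : p = -D w - (D.comp R - ContinuousLinearMap.id ℂ F) p := by
    show p = -D w - (D (R p) - p)
    rw [map_add] at e
    rw [eq_neg_of_add_eq_zero_right e]; abel
  have c := norm_sub_le (-D w) ((D.comp R - ContinuousLinearMap.id ℂ F) p)
  rw [← b, norm_neg] at c
  linarith

theorem pi3_ev (Q : ℝ) {t : ℝ} (ht : 0 < t) :
    ∀ᶠ M : ℕ in atTop, Q / br (2 * M + 1) ≤ t := by
  filter_upwards [tendsto_natCast_atTop_atTop.eventually_ge_atTop (Q / t)] with M hM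
  rw [div_le_iff₀ (br_pos _)]
  rw [div_le_iff₀ ht] at hM
  have : (M : ℝ) ≤ br (2 * M + 1) := by
    unfold br; push_cast
    rw [abs_of_nonneg (by positivity)]
    linarith [Nat.cast_nonneg (α := ℝ) M]
  nlinarith

end StekIso
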