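import Pool.Agent.Lib.MP_fa022d_an.Defs6
import Pool.Agent.Lib.MP_fa022d_an.HiA
import Pool.Agent.Lib.MP_fa022d_an.Pack
import Pool.Agent.Lib.MP_fa022d_an.Hol3
import Pool.Agent.Lib.MP_fa022d_an.HiN3
import Pool.Agent.Lib.MP_fa022d_an.Pi3

open Set Filter Topology Metric BoundedContinuousFunction Complex

noncomputable section
namespace StekIso

/-- the packets after both retractions -/
theorem pi_pack {B : Base} {η : Pos} {lam0 δC C μ Cs c0 δ C1 θ Nc ε lam ρ K : ℝ} {x0 : X}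
    {π1 : X → X} {Ai ϱ : Bool → ℤ → ℂ} (hC : CurvOK B η lam0 δC C)
    (hS : SymOK B η.1 μ Cs c0 Ai ϱ) (hR : RetrOK B η.1 x0 δ C1 θ Nc π1) (hC1 : 0 ≤ C1)
    (hε : 0 < ε) (hθ : 0 < θ) (hK : 0 ≤ K) (R : (ℂ × ℂ) →L[ℂ] X) {g : X → ℂ × ℂ}
    (hp : ∀ M : ℤ, 0 ≤ M → ∀ ε D : ℝ, 0 ≤ ε → 0 ≤ D → ∀ w : X, MB η.1 M D w →
      l1n (toV η ε w) ≤ K * D * (ε * beta η.1 M) ∧
        pn (toV η ε w) ≤ K * D * (ε * beta η.1 M) / br M)
    (hg : DifferentiableOn ℂ g (ball x0 ρ))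
    (hm : ∀ x ∈ ball x0 δ, (toV η ε (π1 x), (lam : ℂ)) ∈ domC η lam0 δC)
    (hy : ∀ x ∈ ball x0 ρ, x + R (g x) ∈ ball x0 (δ / 2))
    (hd : ∀ x ∈ ball x0 ρ, ∀ w,
      ‖fderiv ℂ g x w‖ ≤ 2 * ‖fderiv ℂ (PhiP B η ε lam π1) (x + R (g x)) w‖) {t : ℝ}
    (ht : 0 < t) : ∀ᶠ M : ℕ in atTop, ∀ x ∈ ball x0 ρ,
      pn (toV η ε (fderiv ℂ (fun x => π1 (x + R (g x))) x (WM B η.1 M))) ≤ t * tM η.1 ε M ∧
      l1n (toV η ε (fderiv ℂ (fun x => π1 (x + R (g x))) x (WM B η.1 M) - WM B η.1 M)) ≤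
        (K * θ + t) * tM η.1 ε M := by
  have C0 : 0 ≤ C := zero_le_one.trans hC.one_le
  have S0 : 0 ≤ Cs := zero_le_one.trans hS.one_le
  have G0 := gK_nonneg η
  filter_upwards [hR.pack, pi3_ev (K * (θ + Cs)) (half_pos ht),
    pi3_ev (256 * gK η * ((2 * C1 + 1) * ‖R‖ * (2 * C * (K * (θ + Cs))))) (half_pos ht)]
    with M h1 h2 h3 x hx
  have y2 := hy x hx
  have hδ : 0 < δ / 2 := pos_of_mem_ball y2
  have y1 : x + R (g x) ∈ ball x0 δ := ball_subset_ball (by linarith) y2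
  set y := x + R (g x) with hy'
  set W := WM B η.1 M with hW
  have a := (hR.diff.differentiableAt (isOpen_ball.mem_nhds y1)).hasFDerivAt
  have b := (hasFDerivAt_id x).add (R.hasFDerivAt.comp x
    (hg.differentiableAt (isOpen_ball.mem_nhds hx)).hasFDerivAt)
  have e : fderiv ℂ (fun x => π1 (x + R (g x))) x W =
      fderiv ℂ π1 y W + fderiv ℂ π1 y (R (fderiv ℂ g x W)) := by
    have c : HasFDerivAt (fun x => π1 (x + R (g x))) _ x := HasFDerivAt.comp (𝕜 := ℂ) x a b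
    rw [c.fderiv, ← map_add]; rfl
  have m1 : MB η.1 ((2 * M + 1 : ℤ) : ℝ) θ (fderiv ℂ π1 y W - W : X) := by
    push_cast; exact h1 y y1
  have m2 : MB η.1 ((2 * M + 1 : ℤ) : ℝ) (θ + Cs) (fderiv ℂ π1 y W) := fun b => by
    have u := m1 b
    have v := (Wpk_mem η.2 hS (2 * M + 1)).2 b
    have w := norm_add_le (fderiv ℂ π1 y W b - W b) (W b)
    rw [sub_add_cancel] at w
    rw [add_mul]
    exact w.trans (add_le_add u v)
  have M0 : (0 : ℤ) ≤ 2 * M + 1 := by positivity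
  have p1 := (hp _ M0 ε _ hε.le hθ.le _ m1).1
  have p2 := (hp _ M0 ε _ hε.le (by positivity) _ m2).2
  have hβ := beta_pos η.1 (2 * M + 1)
  have hb := br_pos (2 * M + 1)
  unfold tM
  set β := beta η.1 (2 * M + 1)
  set q := br (2 * M + 1)
  have p3 : ‖fderiv ℂ g x W‖ ≤ 2 * C * (K * (θ + Cs)) * β / q := by
    refine (hd x hx W).trans ?_
    rw [(pi3_fd hC hR y1 (hm y y1)).2, pi3_smul hε]
    have := (Psi_ins hC (hm y y1) _).trans (mul_le_mul_of_nonneg_left p2 C0)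
    calc _ ≤ 2 * (C * (K * (θ + Cs) * (ε * β) / q) / ε) := by gcongr
      _ = _ := by field_simp
  have p4 : ‖fderiv ℂ π1 y (R (fderiv ℂ g x W))‖ ≤
      (2 * C1 + 1) * ‖R‖ * (2 * C * (K * (θ + Cs)) * β / q) := by
    have u := (pi3_d hR hC1 y2 (R (fderiv ℂ g x W))).1
    have v := norm_add_le (fderiv ℂ π1 y (R (fderiv ℂ g x W)) - R (fderiv ℂ g x W))
      (R (fderiv ℂ g x W))
    rw [sub_add_cancel] at v
    have w := (R.le_opNorm _).trans (mul_le_mul_of_nonneg_left p3 (norm_nonneg R))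
    calc _ ≤ (2 * C1 + 1) * ‖R (fderiv ℂ g x W)‖ := by linarith
      _ ≤ (2 * C1 + 1) * (‖R‖ * (2 * C * (K * (θ + Cs)) * β / q)) := by gcongr
      _ = _ := by ring
  have p5 (ω : ℤ → ℝ) (h : Wok η ω) :
      gn ω (toV η ε (fderiv ℂ π1 y (R (fderiv ℂ g x W)))) ≤ t / 2 * (ε * β) := by
    calc _ ≤ 256 * gK η * ε * ((2 * C1 + 1) * ‖R‖ * (2 * C * (K * (θ + Cs)) * β / q)) :=
          (gn_toV h hε.le _).trans (mul_le_mul_of_nonneg_left p4 (by positivity))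
      _ = 256 * gK η * ((2 * C1 + 1) * ‖R‖ * (2 * C * (K * (θ + Cs)))) / q * (ε * β) := by ring
      _ ≤ _ := mul_le_mul_of_nonneg_right h3 (by positivity)
  have p6 : K * (θ + Cs) * (ε * β) / q ≤ t / 2 * (ε * β) := by
    rw [mul_div_right_comm]; exact mul_le_mul_of_nonneg_right h2 (by positivity)
  have nn : 0 ≤ t / 2 * (ε * β) := by positivity
  constructor
  · rw [e, map_add, pi1_pn]
    rw [pi1_pn] at p2
    linarith [gn_add (wok_pn η) (toV η ε (fderiv ℂ π1 y W))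
      (toV η ε (fderiv ℂ π1 y (R (fderiv ℂ g x W)))), p5 _ (wok_pn η)]
  · rw [e, add_sub_right_comm, map_add, pi1_l1]
    rw [pi1_l1] at p1
    linarith [gn_add (wok_l1 η) (toV η ε (fderiv ℂ π1 y W - W))
      (toV η ε (fderiv ℂ π1 y (R (fderiv ℂ g x W)))), p5 _ (wok_l1 η)]

theorem pi_le {a b c : ℝ} (hb : 0 ≤ b) (hc : 0 < c) (h : a ≤ c / (b + 1)) (ha : 0 ≤ a) :
    b * a ≤ c := by
  rw [le_div_iff₀ (by linarith)] at h
  nlinarith

/-- Close the curve: `retract` for `PhiP` along `RP` on the ball of radius `δ / 2`. -/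
theorem pi_main {B : Base} {η : Pos} {lam0 δC CC μ Cs c0 : ℝ} {Ai ϱ : Bool → ℤ → ℂ}
    (hC : CurvOK B η lam0 δC CC) (hS : SymOK B η.1 μ Cs c0 Ai ϱ) {e1 e2 : V η}
    (hD : Dirs B lam0 e1 e2) (h0 : Clo B lam0 (0 : V η)) : ∃ K ≥ 1, ∃ A ≥ 1,
      ∀ C1 δ θ r : ℝ, 1 ≤ C1 → 0 < δ → δ * (C1 + 1) ≤ 1 / 2 → 0 < θ → 0 < r →
      ∃ ρ > 0, ∃ ε1 > 0, ∀ ε, 0 < ε → ε ≤ ε1 → ∃ κ > 0, κ ≤ δC / 2 ∧ ∀ lam : ℝ,
      |lam - lam0| ≤ κ → ∀ ω > 0, ∃ N0 : ℕ, 1 ≤ N0 ∧ ∃ Nc : ℝ, ∀ π1 : X → X,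
      RetrOK B η.1 (tail N0) δ C1 θ Nc π1 → ∃ π2 : X → X,
        (∀ x ∈ ball (tail N0) ρ, π2 x ∈ ball (tail N0) δ ∧ (x ∈ reB Idx → π2 x ∈ reB Idx)) ∧
        PiOK B η ε lam (tail N0) ρ r (K * θ) (fun x => π1 (π2 x)) ∧
        ∀ x ∈ ball (tail N0) ρ, x ∈ reB Idx → ∀ lam' : ℝ, |lam' - lam0| ≤ κ →
          Clo B lam' (toV η ε (x - tail N0)) →
          sn (toV η ε (π1 (π2 x)) - toV η ε (x - tail N0)) ≤ ω + A * |lam - lam'| := by
  obtain ⟨E1, r1, t1⟩ := pi1_from hD.real1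
  obtain ⟨E2, r2, t2⟩ := pi1_from hD.real2
  obtain ⟨K, K1, hp⟩ := gn_pack η
  have C0 : 0 ≤ CC := zero_le_one.trans hC.one_le
  have G0 := gK_nonneg η
  have hδC := hC.δ_pos
  set R := RP E1 E2 with hRd
  have R0 := norm_nonneg R
  refine ⟨K + 1, by linarith, 512 * gK η * ‖R‖ * (4 * CC / δC) + 1,
    le_add_of_nonneg_left (by positivity), fun C1 δ θ r hC1 hδ hδ1 hθ hr => ?_⟩
  have c1 : 0 ≤ C1 := by linarith
  obtain ⟨L0, hL0⟩ : ∃ L0, L0 = CC * (256 * gK η * (C1 + 1) + 1) + 4 * CC / δC := ⟨_, rfl⟩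
  have L00 : 0 ≤ L0 := by rw [hL0]; positivity
  obtain ⟨ρ, hρ, hρ1⟩ : ∃ ρ > 0, ρ + 2 * ‖R‖ * (L0 * ρ) ≤ δ / 4 :=
    ⟨δ / 4 / (1 + 2 * ‖R‖ * L0), by positivity, le_of_eq (by field_simp)⟩
  have hρ2 : ρ ≤ δ / 4 := by nlinarith [mul_nonneg R0 (mul_nonneg L00 hρ.le)]
  obtain ⟨s, hs, hs1, hs2⟩ : ∃ s > 0, s ≤ δC / 8 ∧
      16 * CC / δC ^ 2 * s * (‖e1‖ + ‖e2‖) ≤ 1 / 4 := by
    refine ⟨min (δC / 8) (1 / 4 / (16 * CC / δC ^ 2 * (‖e1‖ + ‖e2‖) + 1)), by positivity,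
      min_le_left _ _, ?_⟩
    rw [mul_right_comm]
    exact pi_le (by positivity) (by norm_num) (min_le_right _ _) (by positivity)
  refine ⟨ρ, hρ, min 1 (min (s / 384) (r / 400)), by positivity, fun ε hε hε1 => ?_⟩
  have ε1 : ε ≤ 1 := hε1.trans (min_le_left _ _)
  have ε2 : ε ≤ s / 384 := hε1.trans ((min_le_right _ _).trans (min_le_left _ _))
  have ε3 : ε ≤ r / 400 := hε1.trans ((min_le_right _ _).trans (min_le_right _ _))
  refine ⟨min s (ρ * ε), by positivity, (min_le_left _ _).trans (by linarith),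
    fun lam hl ω hω => ?_⟩
  have l1 := hl.trans (min_le_left _ _)
  have l2 := hl.trans (min_le_right _ _)
  obtain ⟨τ, hτ, τ1, τ2, τ3⟩ : ∃ τ > 0, τ ≤ ρ ∧ CC * τ * (2 * C1) * ‖R‖ ≤ 1 / 4 ∧
      (2 + 1024 * gK η * ‖R‖ * CC) * τ ≤ ω := by
    refine ⟨min ρ (min (1 / 4 / (CC * (2 * C1) * ‖R‖ + 1)) (ω / (2 + 1024 * gK η * ‖R‖ * CC + 1))),
      by positivity, min_le_left _ _, ?_, pi_le (by positivity) hω
        ((min_le_right _ _).trans (min_le_right _ _)) (by positivity)⟩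
    refine le_trans (le_of_eq ?_) (pi_le (b := CC * (2 * C1) * ‖R‖) (by positivity) (by norm_num)
      ((min_le_right ρ _).trans (min_le_left _ (ω / (2 + 1024 * gK η * ‖R‖ * CC + 1))))
      (by positivity))
    ring
  obtain ⟨n, hn⟩ := gn_tail η hτ
  refine ⟨n + 1, Nat.le_add_left 1 n, n, fun π1 hR => ?_⟩
  set x0 := tail (n + 1) with hx0
  have x1 : ‖x0‖ ≤ 1 := norm_tail_le _
  have x2 (w : ℤ → ℝ) (h : Wok η w) : gn w (toV η ε x0) ≤ τ * ε := by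
    refine (hn w h ε hε.le x0 fun b hb => ?_).trans (mul_le_of_le_one_right (by positivity) x1)
    have : |b.2| < (n : ℤ) := by exact_mod_cast hb
    rw [hx0, tail_apply, if_neg (by push_cast; omega)]
  have x3 (w : ℤ → ℝ) (h : Wok η w) (x : X) (hx : x ∈ ball x0 δ) :
      gn w (toV η ε (π1 x - x)) ≤ τ * ε := by
    refine (hn w h ε hε.le _ fun b hb => ?_).trans (mul_le_of_le_one_right (by positivity) ?_)
    · show π1 x b - x b = 0
      rw [hR.supp x hx b hb, sub_self]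
    · nlinarith [(pi3_norm hR c1 le_rfl hx).1]
  have v1 (x : X) (hx : x ∈ ball x0 δ) : ‖toV η ε (π1 x)‖ ≤ 384 * ε := by
    have a := norm_add_le (π1 x - x0) x0
    rw [sub_add_cancel] at a
    have b : ‖π1 x‖ ≤ 3 / 2 := by linarith [(pi3_norm hR c1 le_rfl hx).2]
    nlinarith [pi1_norm_toV (η := η) hε.le (π1 x)]
  have nz (v : V η) (t : ℝ) (hv : ‖v‖ ≤ 384 * ε) (ht : |t - lam0| ≤ s) :
      ‖((v, (t : ℂ)) : V η × ℂ) - (0, (lam0 : ℂ))‖ ≤ s := by
    rw [Prod.mk_sub_mk, Prod.norm_def, ← Complex.ofReal_sub, Complex.norm_real, Real.norm_eq_abs,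
      sub_zero]
    exact max_le (by linarith) ht
  have mz (v : V η) (t : ℝ) (hv : ‖v‖ ≤ 384 * ε) (ht : |t - lam0| ≤ s) :
      (v, (t : ℂ)) ∈ domC η lam0 δC := by
    rw [pi2_dom, mem_ball_iff_norm]; linarith [nz v t hv ht]
  have hm (x : X) (hx : x ∈ ball x0 δ) := mz _ lam (v1 x hx) l1
  have sub : ball x0 (δ / 2) ⊆ ball x0 δ := ball_subset_ball (by linarith)
  have subρ : ball x0 ρ ⊆ ball x0 δ := ball_subset_ball (by linarith)
  have inv (x : X) (hx : x ∈ ball x0 (δ / 2)) := pi3_inv hC hD (t1 ε) (t2 ε) hε hR c1 hx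
    (nz _ lam (v1 x (sub hx)) l1) (by linarith) hs2 hτ.le
    (fun u hu => by rw [pi1_pn]; exact hn _ (wok_pn η) ε hε.le u hu) τ2
  have hb (x : X) (hx : x ∈ ball x0 ρ) : ‖PhiP B η ε lam π1 x‖ ≤ L0 * ρ := by
    have z0 : ‖(0 : V η)‖ ≤ 384 * ε := by rw [norm_zero]; positivity
    have a := Psi_lip hC (hm x (subρ hx)) (mz 0 lam z0 l1)
    have b := Psi_lam hC (v := 0) (by rw [norm_zero]; positivity) (lam := lam) (lam' := lam0)
      (by rw [sub_self, abs_zero]; positivity) (by linarith)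
    rw [Psi_zero hC (pi2_mem0 hC) (fun j k => by simp) h0, sub_zero] at b
    have c := gn_add (wok_pn η) (toV η ε (π1 x - x0)) (toV η ε x0)
    rw [← map_add, sub_add_cancel] at c
    have d := (gn_toV (wok_pn η) hε.le (π1 x - x0)).trans (mul_le_mul_of_nonneg_left
      (pi3_norm hR c1 (by linarith) hx).2 (by positivity))
    rw [sub_zero, pi1_pn] at a
    have e := norm_add_le (Psi B (toV η ε (π1 x), (lam : ℂ)) - Psi B ((0 : V η), (lam : ℂ)))
      (Psi B ((0 : V η), (lam : ℂ)))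
    rw [sub_add_cancel] at e
    have f : gn (fun k => 1 / br k) (toV η ε (π1 x)) ≤
        (256 * gK η * (C1 + 1) + 1) * (ρ * ε) := by
      have := mul_le_mul_of_nonneg_right τ1 hε.le
      linarith [x2 _ (wok_pn η)]
    rw [PhiP, pi3_smul hε, div_le_iff₀ hε, hL0]
    have g1 := mul_le_mul_of_nonneg_left f C0
    have g2 := mul_le_mul_of_nonneg_left l2 (show 0 ≤ 4 * CC / δC by positivity)
    linarith
  obtain ⟨g, hg, H⟩ := retract (Φ := PhiP B η ε lam π1) (x0 := x0) (ρ := δ / 2) (ρ' := ρ) R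
    (reB Idx) reP reP_closed (by positivity)
    (fun x hx => (pi3_fd hC hR (sub hx) (hm x (sub hx))).1.differentiableWithinAt) inv hb
    (by linarith) (fun x hx hr => by
      have := reP.smul_mem ε⁻¹ (Psi_real hC (hm x (sub hx)) (pi1_real (hR.real x (sub hx) hr)))
      rwa [PhiP, ← Complex.ofReal_inv, Complex.coe_smul]) (RP_real r1 r2)
  have hy (x : X) (hx : x ∈ ball x0 ρ) : x + R (g x) ∈ ball x0 (δ / 2) := by
    rw [mem_ball_iff_norm, add_sub_right_comm]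
    have a := (R.le_opNorm (g x)).trans (mul_le_mul_of_nonneg_left
      ((H x hx).1.trans (mul_le_mul_of_nonneg_left (hb x hx) zero_le_two)) R0)
    linarith [norm_add_le (x - x0) (R (g x)), mem_ball_iff_norm.1 hx]
  have re (x : X) (hx : x ∈ ball x0 ρ) (hr : x ∈ reB Idx) : x + R (g x) ∈ reB Idx :=
    add_mem hr (RP_real r1 r2 _ ((H x hx).2.2.1 hr))
  have pk {t : ℝ} (ht : 0 < t) := pi_pack hC hS hR c1 hε hθ (by linarith) R hp hg hm hy
    (fun x hx w => pi3_half (inv _ (hy x hx)) ((H x hx).2.2.2 w)) ht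
  refine ⟨fun x => x + R (g x), fun x hx => ⟨sub (hy x hx), re x hx⟩,
    ⟨hε, tail_real _, ?_, fun x hx hr => hR.real _ (sub (hy x hx)) (re x hx hr),
      fun x hx => (v1 _ (sub (hy x hx))).trans_lt (by linarith), fun x hx => Psi_clo ?_,
      fun t ht => (pk ht).mono fun M h x hx => (h x hx).1,
      (pk hθ).mono fun M h x hx => (h x hx).2.trans (le_of_eq (by ring))⟩,
    fun x hx hr lam' hl' hc => ?_⟩
  · exact hR.diff.comp (differentiableOn_id.add (R.differentiable.comp_differentiableOn hg))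
      fun x hx => sub (hy x hx)
  · exact (smul_eq_zero.1 (H x hx).2.1).resolve_left (inv_ne_zero (by exact_mod_cast hε.ne'))
  · have l3 := hl'.trans (min_le_left _ _)
    have w1 : ‖toV η ε (x - x0)‖ ≤ 384 * ε := by
      have a := mem_ball_iff_norm.1 hx
      have b : ‖x - x0‖ ≤ 1 := by nlinarith
      nlinarith [pi1_norm_toV (η := η) hε.le (x - x0)]
    have a := Psi_lip hC (hm x (subρ hx)) (mz _ lam w1 l1)
    have b := Psi_lam hC (v := toV η ε (x - x0)) (by linarith) (lam := lam) (lam' := lam')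
      (by linarith) (by
        have := abs_sub_le lam lam0 lam'
        rw [abs_sub_comm lam0] at this
        linarith)
    rw [Psi_zero hC (mz _ lam' w1 l3) (pi1_real (sub_mem hr (tail_real _))) hc, sub_zero] at b
    have c := gn_add (wok_pn η) (toV η ε (π1 x - x)) (toV η ε x0)
    rw [← map_add] at c
    rw [← map_sub, show π1 x - (x - x0) = π1 x - x + x0 by abel, pi1_pn] at a
    have e := norm_add_le (Psi B (toV η ε (π1 x), (lam : ℂ)) - Psi B (toV η ε (x - x0), (lam : ℂ)))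
      (Psi B (toV η ε (x - x0), (lam : ℂ)))
    rw [sub_add_cancel] at e
    have τε : τ * ε ≤ τ := mul_le_of_le_one_right hτ.le ε1
    have f : ‖Psi B (toV η ε (π1 x), (lam : ℂ))‖ ≤ CC * (2 * τ) + 4 * CC / δC * |lam - lam'| := by
      have := mul_le_mul_of_nonneg_left (show gn (fun k => 1 / br k) (toV η ε (π1 x - x + x0)) ≤
        2 * τ by linarith [x2 _ (wok_pn η), x3 _ (wok_pn η) x (subρ hx)]) C0
      linarith
    have g1 : ‖g x‖ * ε ≤ 2 * (CC * (2 * τ) + 4 * CC / δC * |lam - lam'|) := by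
      have := (H x hx).1
      rw [PhiP, pi3_smul hε, ← mul_div_assoc, le_div_iff₀ hε] at this
      linarith
    have g2 : gn (ex (-(η.1 / 2))) (toV η ε (R (g x))) ≤
        256 * gK η * ‖R‖ * (2 * (CC * (2 * τ) + 4 * CC / δC * |lam - lam'|)) :=
      calc _ ≤ 256 * gK η * ε * (‖R‖ * ‖g x‖) := (gn_toV (wok_sn η) hε.le _).trans
            (mul_le_mul_of_nonneg_left (R.le_opNorm _) (by positivity))
        _ = 256 * gK η * ‖R‖ * (‖g x‖ * ε) := by ring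
        _ ≤ _ := mul_le_mul_of_nonneg_left g1 (by positivity)
    show sn (toV η ε (π1 (x + R (g x))) - toV η ε (x - x0)) ≤ _
    rw [← map_sub, show π1 (x + R (g x)) - (x - x0) =
      π1 (x + R (g x)) - (x + R (g x)) + x0 + R (g x) by abel, map_add, map_add, pi1_sn]
    have s1 := gn_add (wok_sn η) (toV η ε (π1 (x + R (g x)) - (x + R (g x))) + toV η ε x0)
      (toV η ε (R (g x)))
    have s2 := gn_add (wok_sn η) (toV η ε (π1 (x + R (g x)) - (x + R (g x)))) (toV η ε x0)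
    linarith [x2 _ (wok_sn η), x3 _ (wok_sn η) _ (sub (hy x hx)), abs_nonneg (lam - lam')]

end StekIso
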