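import Pool.Agent.Lib.MP_fa022d_an.Soft1

open Set Filter Topology Metric BoundedContinuousFunction Complex

noncomputable section
namespace StekIso
variable {E : Type*} [NormedAddCommGroup E] [NormedSpace ℂ E] [CompleteSpace E]

open Pool.Agent.Lib.MP_fa022d_an

omit [CompleteSpace E] in
theorem soft3_open {ER : Submodule ℝ E} {O : Set E} (h : ∀ x ∈ O, ∀ᶠ y in 𝓝 x, y ∈ ER → y ∈ O) :
    IsOpen (ER.subtypeL ⁻¹' O) := isOpen_iff_mem_nhds.2 fun x hx =>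
  ((ER.subtypeL.continuous.tendsto x).eventually (h _ hx)).mono fun y hy => hy y.2

/-- a curve in one fibre of `ψ` that leaves `O` -/
theorem soft_main' {ER : Submodule ℝ E} {x0 : E} {ρ : ℝ} {O N : Set E} {W : ℕ → E} {t : ℕ → ℝ}
    (hcl : IsClosed (ER : Set E)) (h : SoftData ER x0 ρ O N W t) {d : ℕ} {ψ : Fin d → E → ℂ}
    (hψ : ∀ j, DifferentiableOn ℂ (ψ j) (ball x0 ρ))
    (hre : ∀ j, ∀ x ∈ (ER : Set E) ∩ ball x0 ρ, (ψ j x).im = 0)
    (hins : ∀ j, Insens W t (ball x0 ρ) (ψ j)) :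
    ∃ (c : ℝ → E) (τ1 : ℝ), 0 < τ1 ∧ ContinuousOn c (Icc 0 τ1) ∧ (∀ τ ∈ Ico 0 τ1, c τ ∈ O) ∧
      c τ1 ∈ (ER : Set E) ∩ ball x0 ρ ∧ c τ1 ∉ O ∧ ∀ τ ∈ Icc 0 τ1, ∀ j, ψ j (c τ) = ψ j (c 0) := by
  have := hcl.completeSpace_coe
  have hO := soft3_open h.O_open
  have hN : ER.subtypeL ⁻¹' N ⊆ interior (ER.subtypeL ⁻¹' O)ᶜ :=
    interior_maximal (fun x hx k => h.disj.notMem_of_mem_left k hx) (soft3_open h.N_open)
  let V : ℕ → ER := fun M => (t M)⁻¹ • ⟨W M, h.W_mem M⟩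
  have hV : ∀ M, ER.subtypeL (V M) = (t M)⁻¹ • W M := fun M => rfl
  obtain ⟨T, x, y, hE, hc⟩ := soft_exit (i := ER.subtypeL) (U := ball x0 ρ)
    (B := ER.subtypeL ⁻¹' ball x0 ρ) (V := V) (ψ := ψ) isOpen_ball
    (isOpen_ball.preimage ER.subtypeL.continuous)
    ((convex_ball x0 ρ).linear_preimage ER.subtypeL.toLinearMap) (fun _ hx => hx) hO
    (let ⟨z, hz⟩ := h.O_ne; ⟨⟨z, (h.O_sub hz).1⟩, (h.O_sub hz).2, hz⟩)
    (let ⟨z, hz⟩ := h.N_ne; ⟨⟨z, (h.N_sub hz).1⟩, (h.N_sub hz).2, hN hz⟩)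
    (fun p hp => by
      obtain ⟨l, ⟨c, hc, h1⟩, h2⟩ := h.push p.1 ⟨p.2, hp.1⟩
        (closure_mono (image_preimage_subset _ _)
          (mem_closure_image ER.subtypeL.continuous.continuousAt hp.2.1))
        (by have := hp.2.2; rwa [hO.interior_eq] at this)
      refine ⟨l.comp ER.subtypeL, c, hc, h1.mono fun M hM => ?_, fun g Y g0 gd hl => ?_⟩
      · rw [ContinuousLinearMap.comp_apply, hV, map_smul, smul_eq_mul, abs_mul, abs_inv,
          abs_of_pos (h.t_pos M), le_inv_mul_iff₀ (h.t_pos M), mul_comm]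
        exact hM
      · exact (h2 (fun τ => (g τ).1) Y.1 (congrArg Subtype.val g0) (.of_forall fun τ => (g τ).2)
          (ER.subtypeL.hasFDerivAt.comp_hasDerivAt 0 gd) hl).mono fun τ hτ => hN hτ)
    fun j => Ins.of_unif isOpen_ball (hψ j) (fun x hx => hre j _ ⟨x.2, hx⟩) fun ε hε =>
      (hins j ε hε).mono fun M hM w hw => by
        rw [hV, ← Complex.coe_smul, map_smul, norm_smul, Complex.norm_real, norm_inv,
          Real.norm_of_nonneg (h.t_pos M).le, inv_mul_le_iff₀ (h.t_pos M), mul_comm]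
        exact hM w hw
  refine ⟨fun τ => (x τ).1, T, hE.pos, fun τ hτ => (continuous_subtype_val.continuousAt.comp
    (hE.der τ hτ).continuousAt).continuousWithinAt, hE.ins,
    ⟨(x T).2, hE.mem T ⟨hE.pos.le, le_rfl⟩⟩, ?_, fun τ hτ j => hc j τ hτ⟩
  have := hE.out.2
  rwa [hO.interior_eq] at this

end StekIso
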