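import Pool.Agent.Lib.MP_fa022d_an.Sym3

/-! The symbols near the real line. -/

open Set Filter Topology Metric Complex

noncomputable section
namespace StekIso
variable {B : Base} {C0 : ℝ}

theorem sym4_strip {G : ℂ → ℂ → ℂ} (hper : ∀ s t, G (s + 2 * Real.pi) t = G s t)
    (hc : ∀ x : ℝ, ContinuousAt (fun z : ℂ × ℂ => G z.1 z.2) (x, 0)) (h0 : ∀ x : ℝ, G x 0 ≠ 0) :
    ∃ ε > 0, ∀ s t : ℂ, |s.im| ≤ ε → ‖t‖ ≤ ε → G s t ≠ 0 := by
  have key : ∀ᶠ q : ℝ × ℂ in 𝓝 (0, 0), ∀ x ∈ Icc (0 : ℝ) (2 * Real.pi),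
      G (x + I * q.1) q.2 ≠ 0 := by
    refine isCompact_Icc.eventually_forall_of_forall_eventually
      (P := fun (q : ℝ × ℂ) (x : ℝ) => G (x + I * q.1) q.2 ≠ 0) fun x _ => ?_
    have c : Continuous fun z : (ℝ × ℂ) × ℝ => ((z.2 + I * z.1.1 : ℂ), z.1.2) := by fun_prop
    exact ((hc x).tendsto.comp (c.tendsto' ((0, 0), x) (x, 0) (by simp))).eventually_ne (h0 x)
  obtain ⟨ε, hε, h⟩ := Metric.eventually_nhds_iff.1 key
  refine ⟨ε / 2, by linarith, fun s t hs ht => ?_⟩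
  have per : Function.Periodic (fun x : ℝ => G (x + I * s.im) t) (2 * Real.pi) := fun x => by
    simp only [ofReal_add, ofReal_mul, ofReal_ofNat]
    rw [add_right_comm, hper]
  obtain ⟨y, hy, e⟩ := per.exists_mem_Ico₀ Real.two_pi_pos s.re
  have : s = s.re + I * s.im := by rw [mul_comm, re_add_im]
  rw [this, e]
  refine h (y := (s.im, t)) ?_ y (Ico_subset_Icc_self hy)
  rw [Prod.dist_eq, dist_zero_right, dist_zero_right, Real.norm_eq_abs]
  exact max_lt (by linarith) (by linarith)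

theorem sym4_SS {α : Type*} [TopologicalSpace α] (hB : BaseOK B C0) (j : Bool) {f g : α → ℂ}
    {x : α} (hf : ContinuousAt f x) (hg : ContinuousAt g x) (h1 : (f x).im = 0)
    (h2 : (g x).im = 0) : ContinuousAt (fun z => SS B j (f z) (g z)) x :=
  ContinuousAt.comp (f := fun z => (f z, g z)) (g := fun z : ℂ × ℂ => SS B j z.1 z.2)
    (sym2_contAt hB j h1 h2) (hf.prodMk hg)

theorem sym4_FF {α : Type*} [TopologicalSpace α] (hB : BaseOK B C0) (j : Bool) {f g : α → ℂ}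
    {x : α} (hf : ContinuousAt f x) (hg : ContinuousAt g x) (h1 : (f x).im = 0)
    (h2 : (g x).im = 0) : ContinuousAt (fun z => FF B j (f z) (g z)) x :=
  (sym4_SS hB j (hf.add continuousAt_const) hg (by simp [h1]) h2).sub
    (sym4_SS hB j hf (hg.sub continuousAt_const) h1 (by simp [h2]))

theorem sym4_KK {α : Type*} [TopologicalSpace α] (hB : BaseOK B C0) (j : Bool) {f g : α → ℂ}
    {x : α} (hf : ContinuousAt f x) (hg : ContinuousAt g x) (h1 : (f x).im = 0)
    (h2 : (g x).im = 0) (h : sin ((f x - g x) / 2) ≠ 0) :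
    ContinuousAt (fun z => KK B j (f z) (g z)) x := by
  refine (sym4_SS hB j hf hg h1 h2).sub ?_
  unfold csq
  refine continuousAt_const.div (by fun_prop) ?_
  exact mul_ne_zero (by norm_num) (pow_ne_zero _ h)

theorem sym4_A (hB : BaseOK B C0) (j : Bool) : ∃ ε > 0, ∀ s t : ℂ, |s.im| ≤ ε → ‖t‖ ≤ ε →
    0 < (s - t).im → KK B j s t ≠ 0 := by
  obtain ⟨ε, hε, h⟩ := sym4_strip (G := fun s t => 1 - 4 * sin ((s - t) / 2) ^ 2 * SS B j s t)
    (fun s t => by
      rw [sym2_per1, show (s + 2 * Real.pi - t) / 2 = (s - t) / 2 + Real.pi by ring, sin_add_pi,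
        neg_sq])
    (fun x => continuousAt_const.sub ((by fun_prop : ContinuousAt
      (fun z : ℂ × ℂ => 4 * sin ((z.1 - z.2) / 2) ^ 2) _).mul
      (sym2_contAt hB j (by simp) (by simp)))) (sym3_J hB j)
  refine ⟨ε, hε, fun s t hs ht hst e => h s t hs ht ?_⟩
  have := (sym2_csq hst).2
  rw [KK, sub_eq_zero] at e
  simp only [e, csq]
  field_simp
  ring

theorem sym4_D (hB : BaseOK B C0) (hA : B.Asym) (j : Bool) : ∃ ε > 0, ∀ s t : ℂ, |s.im| ≤ ε →
    ‖t‖ ≤ ε → FF B j s t ^ 2 + FF B j (s + Real.pi) t ^ 2 ≠ 0 := by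
  refine sym4_strip (G := fun s t => FF B j s t ^ 2 + FF B j (s + Real.pi) t ^ 2)
    (fun s t => by rw [sym3_FF_per, add_right_comm, sym3_FF_per]) (fun x => ?_) fun x e => ?_
  · exact ((sym4_FF hB j continuousAt_fst continuousAt_snd (by simp) (by simp)).pow 2).add
      ((sym4_FF hB j (continuousAt_fst.add continuousAt_const) continuousAt_snd (by simp)
        (by simp)).pow 2)
  · have r1 := sym3_FF_real hB j x
    have r2 := sym3_FF_real hB j (x + Real.pi)
    rw [ofReal_add] at r2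
    have := congrArg Complex.re e
    simp only [sq, add_re, mul_re, r1, r2, mul_zero, sub_zero, zero_re] at this
    have z := (mul_self_add_mul_self_eq_zero).1 this
    rcases sym3_F hB hA j x with h | h
    · exact h (Complex.ext z.1 r1)
    · exact h (Complex.ext z.2 r2)

/-- the generating function of the packet -/
def Wf (B : Base) (p t : ℂ) : ℂ :=
  KK B true (-p + Real.pi) (t - Real.pi) * FF B true (-p) t +
    I * (KK B true (-p + Real.pi) t * FF B true (-p + Real.pi) t)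

theorem sym4_sin {p : ℝ} (hp : Real.sin p ≠ 0) :
    Real.sin ((-p + Real.pi - (0 - Real.pi)) / 2) ≠ 0 ∧ Real.sin ((-p + Real.pi - 0) / 2) ≠ 0 := by
  have e : Real.sin p = 2 * Real.sin (p / 2) * Real.cos (p / 2) := by
    rw [← Real.sin_two_mul]; congr 1; ring
  rw [show (-p + Real.pi - (0 - Real.pi)) / 2 = Real.pi - p / 2 by ring, Real.sin_pi_sub,
    show (-p + Real.pi - 0) / 2 = Real.pi / 2 - p / 2 by ring, Real.sin_pi_div_two_sub]
  constructor <;> intro h <;> simp [e, h] at hp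

theorem sym4_Wf_cont {α : Type*} [TopologicalSpace α] (hB : BaseOK B C0) {f : α → ℝ} {g : α → ℂ}
    {x : α} (hf : ContinuousAt f x) (hg : ContinuousAt g x) (h1 : Real.sin (f x) ≠ 0)
    (h2 : g x = 0) : ContinuousAt (fun z => Wf B (f z) (g z)) x := by
  obtain ⟨s1, s2⟩ := sym4_sin h1
  have c1 : ContinuousAt (fun z => -(f z : ℂ)) x := (continuous_ofReal.continuousAt.comp hf).neg
  have c2 : ContinuousAt (fun z => -(f z : ℂ) + Real.pi) x := c1.add continuousAt_const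
  have c3 : ContinuousAt (fun z => g z - Real.pi) x := hg.sub continuousAt_const
  refine ((sym4_KK hB true c2 c3 (by simp) (by simp [h2]) ?_).mul
    (sym4_FF hB true c1 hg (by simp) (by simp [h2]))).add (continuousAt_const.mul
    ((sym4_KK hB true c2 hg (by simp) (by simp [h2]) ?_).mul
      (sym4_FF hB true c2 hg (by simp) (by simp [h2]))))
  · rw [h2]; exact_mod_cast s1
  · rw [h2]; exact_mod_cast s2

theorem sym4_Wf_form (hB : BaseOK B C0) {p : ℝ} (hp : Real.sin p ≠ 0) : ∃ k k' : ℝ, k < 0 ∧ k' < 0 ∧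
    Wf B p 0 = k * FF B true p 0 + I * (k' * FF B true (p + Real.pi) 0) := by
  obtain ⟨s1, s2⟩ := sym4_sin hp
  obtain ⟨k, hk, e⟩ := sym3_KK_neg hB true s1
  obtain ⟨k', hk', e'⟩ := sym3_KK_neg hB true s2
  push_cast at e e'
  refine ⟨k, k', hk, hk', ?_⟩
  rw [Wf, e, e', sym3_FF_even hB, ← sym3_FF_even hB true (p + Real.pi),
    ← sym3_FF_per B true (-(p + Real.pi))]
  congr 4; ring

theorem sym4_Wf_ne (hB : BaseOK B C0) (hA : B.Asym) {p cp cq : ℝ} (hp : Real.sin p ≠ 0)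
    (hcp : 0 < cp) (hcq : 0 ≤ cq) :
    cp * Wf B p 0 + cq * (starRingEnd ℂ) (Wf B (Real.pi - p : ℝ) 0) ≠ 0 := by
  obtain ⟨k1, k2, n1, n2, e1⟩ := sym4_Wf_form hB hp
  obtain ⟨k3, k4, n3, n4, e2⟩ := sym4_Wf_form hB (p := Real.pi - p) (by rwa [Real.sin_pi_sub])
  have f1 : FF B true (Real.pi - p : ℝ) 0 = FF B true (p + Real.pi) 0 := by
    rw [← sym3_FF_even hB, ← sym3_FF_per]; congr 1; push_cast; ring
  have f2 : FF B true ((Real.pi - p : ℝ) + Real.pi) 0 = FF B true p 0 := by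
    rw [← sym3_FF_even hB, ← sym3_FF_per]; congr 1; push_cast; ring
  have r1 := sym3_FF_real hB true p
  have r2 := sym3_FF_real hB true (p + Real.pi)
  rw [ofReal_add] at r2
  have o := sym3_F hB hA true p
  rw [e1, e2, f1, f2]
  generalize FF B true p 0 = u at *
  generalize FF B true (p + Real.pi) 0 = v at *
  intro e
  have a := congrArg Complex.re e
  have b := congrArg Complex.im e
  simp [r1, r2] at a b
  have p1 := mul_pos hcp (neg_pos.2 n1)
  have p2 := mul_pos hcp (neg_pos.2 n2)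
  have p3 := mul_nonneg hcq (neg_pos.2 n3).le
  have p4 := mul_nonneg hcq (neg_pos.2 n4).le
  have a' : cp * -k1 * (u.re * u.re) + cq * -k3 * (u.re * v.re) = 0 := by
    linear_combination (-u.re) * a
  have b' : cp * -k2 * (v.re * v.re) - cq * -k4 * (u.re * v.re) = 0 := by
    linear_combination (-v.re) * b
  have z : u.re = 0 ∧ v.re = 0 := by
    rcases le_total 0 (u.re * v.re) with h | h
    · have hu : u.re = 0 := by
        have := mul_nonneg p3 h
        have := mul_self_nonneg u.re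
        exact mul_self_eq_zero.1 (by nlinarith)
      rw [hu] at b'
      exact ⟨hu, mul_self_eq_zero.1 (by nlinarith [mul_self_nonneg v.re])⟩
    · have hv : v.re = 0 := by
        have := mul_nonneg p4 (neg_nonneg.2 h)
        have := mul_self_nonneg v.re
        exact mul_self_eq_zero.1 (by nlinarith)
      rw [hv] at a'
      exact ⟨mul_self_eq_zero.1 (by nlinarith [mul_self_nonneg u.re]), hv⟩
  rcases o with h | h
  · exact h (Complex.ext z.1 r1)
  · exact h (Complex.ext z.2 r2)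

/-- the compact set of parameters -/
def KW (μ : ℝ) : Set (ℝ × ℝ × ℝ) :=
  (Icc 0 (2 * Real.pi) ∩ {p | μ ≤ |Real.sin p|}) ×ˢ Icc (1 / 2) 2 ×ˢ Icc 0 2

theorem sym4_KW (μ : ℝ) : IsCompact (KW μ) :=
  (isCompact_Icc.inter_right (isClosed_le continuous_const (by fun_prop))).prod
    (isCompact_Icc.prod isCompact_Icc)

theorem sym4_W (hB : BaseOK B C0) (hA : B.Asym) {μ : ℝ} (hμ : 0 < μ) : ∃ ε > 0, ∀ t : ℂ,
    ‖t‖ ≤ ε → ∀ y ∈ KW μ,
      y.2.1 * Wf B y.1 t + y.2.2 * (starRingEnd ℂ) (Wf B (Real.pi - y.1 : ℝ) t) ≠ 0 := by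
  have key : ∀ᶠ t : ℂ in 𝓝 0, ∀ y ∈ KW μ,
      y.2.1 * Wf B y.1 t + y.2.2 * (starRingEnd ℂ) (Wf B (Real.pi - y.1 : ℝ) t) ≠ 0 := by
    refine (sym4_KW μ).eventually_forall_of_forall_eventually
      (P := fun (t : ℂ) (y : ℝ × ℝ × ℝ) =>
        y.2.1 * Wf B y.1 t + y.2.2 * (starRingEnd ℂ) (Wf B (Real.pi - y.1 : ℝ) t) ≠ 0)
      fun y hy => ?_
    have s : Real.sin y.1 ≠ 0 := abs_pos.1 (hμ.trans_le hy.1.2)
    have c1 := sym4_Wf_cont hB (x := ((0 : ℂ), y)) (f := fun z : ℂ × ℝ × ℝ × ℝ => z.2.1)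
      (g := fun z => z.1) continuousAt_snd.fst continuousAt_fst s rfl
    have c2 := sym4_Wf_cont hB (x := ((0 : ℂ), y))
      (f := fun z : ℂ × ℝ × ℝ × ℝ => Real.pi - z.2.1) (g := fun z => z.1)
      (continuousAt_const.sub continuousAt_snd.fst) continuousAt_fst
      (by show Real.sin (Real.pi - y.1) ≠ 0; rwa [Real.sin_pi_sub]) rfl
    have c : ContinuousAt (fun z : ℂ × ℝ × ℝ × ℝ => z.2.2.1 * Wf B z.2.1 z.1 +
        z.2.2.2 * (starRingEnd ℂ) (Wf B (Real.pi - z.2.1 : ℝ) z.1)) (0, y) :=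
      ((by fun_prop : ContinuousAt (fun z : ℂ × ℝ × ℝ × ℝ => (z.2.2.1 : ℂ)) _).mul c1).add
        ((by fun_prop : ContinuousAt (fun z : ℂ × ℝ × ℝ × ℝ => (z.2.2.2 : ℂ)) _).mul
          (continuous_conj.continuousAt.comp c2))
    exact c.eventually_ne (sym4_Wf_ne hB hA s (by linarith [hy.2.1.1]) hy.2.2.1)
  obtain ⟨ε, hε, h⟩ := Metric.eventually_nhds_iff.1 key
  exact ⟨ε / 2, by linarith, fun t ht => h (by rw [dist_zero_right]; linarith)⟩

end StekIso
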