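import Pool.Agent.Lib.MP_fa022d_an.Defs4
import Pool.Agent.Lib.MP_fa022d_an.Four3
import Pool.Agent.Lib.MP_fa022d_an.Sym4

open Set Filter Topology Metric BoundedContinuousFunction Complex

noncomputable section
namespace StekIso
variable {B : Base} {C0 : ℝ}

/-- the sequences and their symbols -/
structure SymF (B : Base) (η : ℝ) (j : Bool) : Prop where
  hA : Hs (-(7 / 4 * η)) (5 / 4 * η) (Aseq B η j)
  hB : Hs (-(7 / 4 * η)) (5 / 4 * η) (Bseq B η j)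
  hF : Hs (-(7 / 4 * η)) (5 / 4 * η) (Fseq B η j)
  rA : Rl (Aseq B η j)
  rB : Rl (Bseq B η j)
  rF : Rl (Fseq B η j)
  eA : ∀ φ : ℂ, φ.im ∈ Ioo (-(7 / 4 * η)) (5 / 4 * η) →
    fs (Aseq B η j) φ = KK B j (φ + I * η) (-(I * η))
  eB : ∀ φ : ℂ, φ.im ∈ Ioo (-(7 / 4 * η)) (5 / 4 * η) →
    fs (Bseq B η j) φ = KK B j (φ + I * η) (-(I * η) - Real.pi)
  eF : ∀ φ : ℂ, φ.im ∈ Ioo (-(7 / 4 * η)) (5 / 4 * η) →
    fs (Fseq B η j) φ = FF B j (φ + I * η) (-(I * η))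

theorem symmain_F (hB : BaseOK B C0) {η : ℝ} (hη : 0 < η) (h : η ≤ B.η0 / 12) (j : Bool) :
    SymF B η j := by
  obtain ⟨a1, a2⟩ := sym2_C hB j hη h 0
  obtain ⟨b1, b2⟩ := sym2_C hB j hη h Real.pi
  rw [← sym2_A] at a1 a2
  rw [← sym2_B] at b1 b2
  have eA : ∀ φ : ℂ, φ.im ∈ Ioo (-(7 / 4 * η)) (5 / 4 * η) →
      fs (Aseq B η j) φ = KK B j (φ + I * η) (-(I * η)) := fun φ hφ => by
    rw [a2 φ hφ]; congr 1; simp
  have eB : ∀ φ : ℂ, φ.im ∈ Ioo (-(7 / 4 * η)) (5 / 4 * η) →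
      fs (Bseq B η j) φ = KK B j (φ + I * η) (-(I * η) - Real.pi) := fun φ hφ => by
    rw [b2 φ hφ]; congr 1; ring
  refine ⟨a1, b1, a1.tw.sub b1, sym2_rA hB η j, sym2_rB hB η j,
    (sym2_rA hB η j).tw.sub (sym2_rB hB η j), eA, eB, fun φ hφ => ?_⟩
  have := sym1_fs_sub a1.tw b1 hφ
  rw [sym1_fs_tw, eA _ (by simpa using hφ), eB φ hφ] at this
  rw [sym3_FF_KK, add_right_comm]
  exact this

theorem symmain_What {η : ℝ} (hη : 0 < η) (F : SymF B η true) (p : ℝ) :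
    What B η p = fs (X0 B η true) (-p - I * η) + I * fs (Y0 B η true) (-p - I * η) ∧
      What B η p = Wf B p (-(I * η)) := by
  have ha : -(7 / 4 * η) < 0 := by linarith
  have hb : 0 < 5 / 4 * η := by linarith
  have m : (-p - I * η : ℂ).im ∈ Ioo (-(7 / 4 * η)) (5 / 4 * η) := by
    simp only [sub_im, neg_im, ofReal_im, mul_im, I_re, I_im, ofReal_re]
    constructor <;> linarith
  have m' : (-p - I * η + Real.pi : ℂ).im ∈ Ioo (-(7 / 4 * η)) (5 / 4 * η) := by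
    rwa [add_im, ofReal_im, add_zero]
  have hX : Hs _ _ (X0 B η true) := F.hB.tw.conv ha hb F.hF
  have hY : Hs _ _ (Y0 B η true) := F.hA.tw.conv ha hb F.hF.tw
  have e : What B η p = fs (X0 B η true) (-p - I * η) + I * fs (Y0 B η true) (-p - I * η) := by
    rw [fs, fs, ← tsum_mul_left, ← (hX.summable m).tsum_add ((hY.summable m).mul_left I), What]
    refine tsum_congr fun a => ?_
    have : ((Real.exp (η * a) : ℝ) : ℂ) * exp (-(I * a * p)) = exp (I * a * (-p - I * η)) := by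
      rw [ofReal_exp, ← exp_add]; congr 1; push_cast
      linear_combination (η * a : ℂ) * I_mul_I
    rw [this]; ring
  refine ⟨e, ?_⟩
  rw [e, X0, Y0, sym1_fs_conv ha hb F.hB.tw F.hF m, sym1_fs_conv ha hb F.hA.tw F.hF.tw m,
    sym1_fs_tw, sym1_fs_tw, sym1_fs_tw, F.eB _ m', F.eA _ m', F.eF _ m', F.eF _ m, Wf,
    show (-p - I * η + Real.pi + I * η : ℂ) = -p + Real.pi by ring,
    show (-p - I * η + I * η : ℂ) = -p by ring]

theorem symmain_low {η μ : ℝ} (hη : 0 < η) (F : SymF B η true)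
    (h : ∀ y ∈ KW μ, y.2.1 * Wf B y.1 (-(I * η)) +
      y.2.2 * (starRingEnd ℂ) (Wf B (Real.pi - y.1 : ℝ) (-(I * η))) ≠ 0) :
    ∃ c0 > 0, ∀ p cp cq : ℝ, μ ≤ |Real.sin p| → cp ∈ Icc (1 / 2 : ℝ) 2 → cq ∈ Icc (0 : ℝ) 2 →
      c0 ≤ ‖cp * What B η p + cq * (starRingEnd ℂ) (What B η (Real.pi - p))‖ := by
  have ha : -(7 / 4 * η) < 0 := by linarith
  have hb : 0 < 5 / 4 * η := by linarith
  have cf : ∀ c, Hs (-(7 / 4 * η)) (5 / 4 * η) c → Continuous fun p : ℝ => fs c (-p - I * η) :=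
    fun c hc => hc.diff.continuousOn.comp_continuous (by fun_prop) fun p => by
      show (-p - I * η : ℂ).im ∈ Ioo _ _
      simp only [sub_im, neg_im, ofReal_im, mul_im, I_re, I_im, ofReal_re]
      constructor <;> linarith
  have cW : Continuous (What B η) := by
    rw [funext fun p => (symmain_What hη F p).1]
    exact (cf _ (F.hB.tw.conv ha hb F.hF)).add
      (continuous_const.mul (cf _ (F.hA.tw.conv ha hb F.hF.tw)))
  have per : Function.Periodic (What B η) (2 * Real.pi) := fun p => by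
    rw [(symmain_What hη F _).1, (symmain_What hη F p).1, ← sym1_fs_per, ← sym1_fs_per (Y0 _ _ _)]
    congr 2
    · push_cast; ring
    · congr 1; push_cast; ring
  have c : Continuous fun y : ℝ × ℝ × ℝ =>
      ‖y.2.1 * What B η y.1 + y.2.2 * (starRingEnd ℂ) (What B η (Real.pi - y.1))‖ :=
    (((by fun_prop : Continuous fun y : ℝ × ℝ × ℝ => (y.2.1 : ℂ)).mul (cW.comp continuous_fst)).add
      ((by fun_prop : Continuous fun y : ℝ × ℝ × ℝ => (y.2.2 : ℂ)).mul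
        (continuous_conj.comp (cW.comp (continuous_const.sub continuous_fst))))).norm
  obtain ⟨c0, hc0, hc⟩ := (sym4_KW μ).exists_forall_le' c.continuousOn (a := 0) fun y hy => by
    rw [(symmain_What hη F _).2, (symmain_What hη F _).2]
    exact norm_pos_iff.2 (h y hy)
  refine ⟨c0, hc0, fun p cp cq hp hcp hcq => ?_⟩
  have pp : Function.Periodic (fun p : ℝ => (Real.sin p, What B η p, What B η (Real.pi - p)))
      (2 * Real.pi) := fun p => by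
    simp only [Real.sin_add_two_pi, per p]
    rw [← per (Real.pi - (p + 2 * Real.pi))]
    congr 3; ring
  obtain ⟨y, hy, e⟩ := pp.exists_mem_Ico₀ Real.two_pi_pos p
  simp only [Prod.mk.injEq] at e
  rw [e.2.1, e.2.2]
  exact hc (y, cp, cq) ⟨⟨Ico_subset_Icc_self hy, by rw [e.1] at hp; exact hp⟩, hcp, hcq⟩

theorem symmain_inv {η : ℝ} (hη : 0 < η) {j : Bool} (F : SymF B η j)
    (h1 : ∀ φ : ℂ, φ.im ∈ Ioo (-(7 / 4 * η)) (5 / 4 * η) → fs (Aseq B η j) φ ≠ 0)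
    (h2 : ∀ φ : ℂ, φ.im ∈ Ioo (-(7 / 4 * η)) (5 / 4 * η) →
      fs (Fseq B η j) φ ^ 2 + fs (Fseq B η j) (φ + Real.pi) ^ 2 ≠ 0) :
    ∃ Ai ϱ : ℤ → ℂ, Hs (-(7 / 4 * η)) (5 / 4 * η) Ai ∧ Rl Ai ∧ Hs (-(7 / 4 * η)) (5 / 4 * η) ϱ ∧
      Rl ϱ ∧ conv (Aseq B η j) Ai = dlt ∧ ∀ a, Even a →
        conv (fun l => dlt l - conv (tw Ai) (Bseq B η j) l) ϱ a = dlt a / 2 := by
  have ha : -(7 / 4 * η) < 0 := by linarith
  have hb : 0 < 5 / 4 * η := by linarith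
  have hr : ∀ s : ℝ, (s : ℂ).im ∈ Ioo (-(7 / 4 * η)) (5 / 4 * η) := fun s => by
    rw [ofReal_im]; exact ⟨ha, hb⟩
  have hp : ∀ s : ℂ, s.im ∈ Ioo (-(7 / 4 * η)) (5 / 4 * η) →
      (s + Real.pi : ℂ).im ∈ Ioo (-(7 / 4 * η)) (5 / 4 * η) := fun s hs => by
    rwa [add_im, ofReal_im, add_zero]
  obtain ⟨Ai, i1, i2, i3⟩ := sym1_div ha hb sym1_Hs_dlt F.hA sym1_Rl_dlt F.rA h1
  have d1 := F.hF.conv ha hb F.hF
  have d2 := F.hF.tw.conv ha hb F.hF.tw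
  have eD : ∀ φ : ℂ, φ.im ∈ Ioo (-(7 / 4 * η)) (5 / 4 * η) →
      fs (fun k => conv (Fseq B η j) (Fseq B η j) k + conv (tw (Fseq B η j)) (tw (Fseq B η j)) k) φ
        = fs (Fseq B η j) φ ^ 2 + fs (Fseq B η j) (φ + Real.pi) ^ 2 := fun φ hφ => by
    rw [sym1_fs_add d1 d2 hφ, sym1_fs_conv ha hb F.hF F.hF hφ,
      sym1_fs_conv ha hb F.hF.tw F.hF.tw hφ, sym1_fs_tw]; ring
  obtain ⟨ϱ, p1, p2, p3⟩ := sym1_div ha hb (F.hA.tw.conv ha hb F.hF) (d1.add d2)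
    (F.rA.tw.conv F.rF) ((F.rF.conv F.rF).add (F.rF.tw.conv F.rF.tw))
    fun s hs => by rw [eD s hs]; exact h2 s hs
  refine ⟨Ai, ϱ, i1, i2, p1, p2, ?_, ?_⟩
  · refine sym1_ext ((F.hA.conv ha hb i1).l1 ha hb) (sym1_Hs_dlt.l1 ha hb) fun s => ?_
    rw [sym1_fs_conv ha hb F.hA i1 (hr s), i3 _ (hr s)]
    field_simp [h1 _ (hr s)]
  · have u : Hs (-(7 / 4 * η)) (5 / 4 * η) fun l => dlt l - conv (tw Ai) (Bseq B η j) l :=
      sym1_Hs_dlt.sub (i1.tw.conv ha hb F.hB)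
    have w := u.conv ha hb p1
    have ew : ∀ φ : ℂ, φ.im ∈ Ioo (-(7 / 4 * η)) (5 / 4 * η) →
        fs (conv (fun l => dlt l - conv (tw Ai) (Bseq B η j) l) ϱ) φ = fs (Fseq B η j) φ ^ 2 /
          (fs (Fseq B η j) φ ^ 2 + fs (Fseq B η j) (φ + Real.pi) ^ 2) := fun φ hφ => by
      have f : fs (Fseq B η j) φ = fs (tw (Aseq B η j)) φ - fs (Bseq B η j) φ :=
        sym1_fs_sub F.hA.tw F.hB hφ
      rw [sym1_fs_tw] at f
      rw [sym1_fs_conv ha hb u p1 hφ, sym1_fs_sub sym1_Hs_dlt (i1.tw.conv ha hb F.hB) hφ,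
        sym1_fs_conv ha hb i1.tw F.hB hφ, sym1_fs_tw, i3 _ (hp φ hφ), p3 φ hφ, eD φ hφ,
        sym1_fs_conv ha hb F.hA.tw F.hF hφ, sym1_fs_tw, sym1_fs_dlt, sym1_fs_dlt]
      have n1 := h1 _ (hp φ hφ)
      have n2 := h2 φ hφ
      field_simp
      linear_combination (-fs (Fseq B η j) φ) * f
    have := sym1_ext ((w.add w.tw).l1 ha hb) ((sym1_Hs_dlt (a := -1) (b := 1)).l1 (by norm_num)
      one_pos) fun s => by
      rw [sym1_fs_add w w.tw (hr s), sym1_fs_tw, ew _ (hr s), ew _ (hp _ (hr s)), sym1_fs_dlt,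
        show (s + Real.pi + Real.pi : ℂ) = s + 2 * Real.pi by ring, sym1_fs_per]
      have n2 := h2 _ (hr s)
      rw [add_comm (fs (Fseq B η j) (s + Real.pi) ^ 2), ← add_div, div_self n2]
    intro a hev
    have := congrFun this a
    simp only [tw, sym1_sg_even hev] at this
    linear_combination this / 2

/-- page section 3 -/
theorem sym_main {B : Base} {C0 : ℝ} (hB : BaseOK B C0) (hA : B.Asym) {μ : ℝ} (hμ : 0 < μ) :
    ∃ η1 > 0, ∀ η : ℝ, 0 < η → η ≤ η1 → ∃ Cs c0 Ai ϱ, SymOK B η μ Cs c0 Ai ϱ := by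
  choose εA hεA hA' using sym4_A hB
  choose εD hεD hD' using sym4_D hB hA
  obtain ⟨εW, hεW, hW⟩ := sym4_W hB hA hμ
  have h0 := B.η0_pos
  have ev : ∀ ε > 0, ∀ᶠ η : ℝ in 𝓝 0, 3 * η ≤ ε := fun ε hε =>
    ((continuous_const.mul continuous_id).tendsto' 0 0 (by simp)).eventually_le_const hε
  have : ∀ᶠ η : ℝ in 𝓝 0, (∀ j, 3 * η ≤ εA j) ∧ (∀ j, 3 * η ≤ εD j) ∧ 3 * η ≤ εW ∧
      3 * η ≤ B.η0 / 4 := (eventually_all.2 fun j => ev _ (hεA j)).and
    ((eventually_all.2 fun j => ev _ (hεD j)).and ((ev _ hεW).and (ev _ (by linarith))))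
  obtain ⟨η1, hη1, hh⟩ := Metric.eventually_nhds_iff.1 this
  refine ⟨η1 / 2, by linarith, fun η hη hle => ?_⟩
  obtain ⟨b1, b2, b3, b4⟩ := hh (y := η) (by
    rw [dist_zero_right, Real.norm_eq_abs, abs_of_pos hη]; linarith)
  have hη' : η ≤ B.η0 / 12 := by linarith
  have F := symmain_F hB hη hη'
  have ha : -(7 / 4 * η) < 0 := by linarith
  have hb : 0 < 5 / 4 * η := by linarith
  have nt : ‖-(I * η : ℂ)‖ = η := by simp [abs_of_pos hη]
  have ns : ∀ φ : ℂ, φ.im ∈ Ioo (-(7 / 4 * η)) (5 / 4 * η) → |(φ + I * η).im| ≤ 3 * η :=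
    fun φ hφ => by
      simp only [add_im, mul_im, I_re, I_im, ofReal_re, ofReal_im]
      rw [abs_le]; constructor <;> linarith [hφ.1, hφ.2]
  have key := fun j => symmain_inv hη (F j) (fun φ hφ => by
    rw [(F j).eA φ hφ]
    refine hA' j _ _ ((ns φ hφ).trans (b1 j)) (by rw [nt]; linarith [b1 j]) ?_
    simp only [sub_im, neg_im, add_im, mul_im, I_re, I_im, ofReal_re, ofReal_im]
    linarith [hφ.1]) fun φ hφ => by
    rw [(F j).eF φ hφ, (F j).eF _ (by rwa [add_im, ofReal_im, add_zero]), add_right_comm]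
    exact hD' j _ _ ((ns φ hφ).trans (b2 j)) (by rw [nt]; linarith [b2 j])
  choose Ai ϱ k1 k2 k3 k4 k5 k6 using key
  obtain ⟨c0, hc0, low⟩ := symmain_low hη (F true) (hW _ (by rw [nt]; linarith))
  have dec : ∀ c, Hs (-(7 / 4 * η)) (5 / 4 * η) c → Rl c → ∀ᶠ C in atTop, Dec η C c :=
    fun c h r => eventually_atTop.2 (sym1_dec (by linarith) (by linarith) hη h r)
  have all : ∀ᶠ C in atTop, (1 ≤ C ∧ 2 / η + Real.pi * C0 ≤ C) ∧ ∀ j, Dec η C (Aseq B η j) ∧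
      Dec η C (Bseq B η j) ∧ Dec η C (Ai j) ∧ Dec η C (ϱ j) ∧ Dec η C (X0 B η j) ∧
      Dec η C (Y0 B η j) :=
    ((eventually_ge_atTop _).and (eventually_ge_atTop _)).and (eventually_all.2 fun j =>
      (dec _ (F j).hA (F j).rA).and ((dec _ (F j).hB (F j).rB).and ((dec _ (k1 j) (k2 j)).and
      ((dec _ (k3 j) (k4 j)).and
      ((dec _ ((F j).hB.tw.conv ha hb (F j).hF) ((F j).rB.tw.conv (F j).rF)).and
      (dec _ ((F j).hA.tw.conv ha hb (F j).hF.tw) ((F j).rA.tw.conv (F j).rF.tw)))))))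
  obtain ⟨Cs, ⟨c1, c2⟩, d⟩ := all.exists
  refine ⟨Cs, c0, Ai, ϱ, c1, hc0, sym2_qsym hB η, fun j p => (sym2_qbd hB hη hη' j p).trans ?_,
    fun j => (d j).1, fun j => (d j).2.1, fun j => (d j).2.2.1, fun j => (d j).2.2.2.1,
    fun j => (d j).2.2.2.2.1, fun j => (d j).2.2.2.2.2, k5, k6, fun p hp => ?_,
    fun p cp cq hp h1 h2 => low p cp cq hp h1 ⟨by linarith [h2.1], h2.2⟩⟩
  · exact mul_le_mul_of_nonneg_right c2 (mul_pos (ex_pos _ _) (ex_pos _ _)).le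
  · simpa using low p 1 0 hp (by norm_num) (by norm_num)

end StekIso
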