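import Pool.Agent.Lib.MP_fa022d_an.Defs2

/-! The diagonal value of the smooth kernel (a Schwarzian derivative). -/

open Set Filter Topology Complex

noncomputable section
namespace StekIso

theorem symd_core {φ : ℂ → ℂ} (ha : AnalyticAt ℂ φ 0) (h0 : φ 0 = 0)
    (h2 : iteratedDeriv 2 φ 0 = 0) (hm : deriv φ 0 ≠ 0) :
    Tendsto (fun s => 1 / (4 * s ^ 2) - deriv φ s ^ 2 * (1 / (4 * φ s ^ 2))) (𝓝[≠] 0)
      (𝓝 (-(iteratedDeriv 3 φ 0 / (6 * deriv φ 0)))) ∧ Tendsto φ (𝓝[≠] 0) (𝓝[≠] 0) := by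
  obtain ⟨F, hF, e1⟩ := ha.exists_eventuallyEq_sum_add_pow_mul 4
  obtain ⟨G, hG, e2⟩ := ha.deriv.exists_eventuallyEq_sum_add_pow_mul 3
  simp only [← iteratedDeriv_succ'] at e2
  simp only [Finset.sum_range_succ, Finset.sum_range_zero, iteratedDeriv_zero, iteratedDeriv_one,
    zero_add, Nat.reduceAdd, h0, h2, smul_eq_mul, Nat.factorial] at e1 e2
  generalize iteratedDeriv 3 φ 0 = c at e1 e2 ⊢
  generalize deriv φ 0 = m at e1 e2 hm ⊢
  have cF := hF.continuousAt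
  have cG := hG.continuousAt
  have n1 : ∀ᶠ s in 𝓝 (0 : ℂ), m + s ^ 2 * (c / 6 + s * F s) ≠ 0 :=
    ContinuousAt.eventually_ne (g := fun s : ℂ => m + s ^ 2 * (c / 6 + s * F s)) (by fun_prop)
      (by simpa using hm)
  have e3 : ∀ᶠ s in 𝓝 (0 : ℂ), φ s = s * (m + s ^ 2 * (c / 6 + s * F s)) :=
    e1.mono fun s hs => by rw [hs]; push_cast; ring
  have e4 : ∀ᶠ s in 𝓝 (0 : ℂ), deriv φ s = m + s ^ 2 * (c / 2 + s * G s) :=
    e2.mono fun s hs => by rw [hs]; push_cast; ring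
  have ev := (eventually_mem_nhdsWithin (a := (0 : ℂ)) (s := {0}ᶜ)).and
    ((n1.and (e3.and e4)).filter_mono nhdsWithin_le_nhds)
  constructor
  · have ct : ContinuousAt (fun s : ℂ => ((c / 6 + s * F s) - (c / 2 + s * G s)) *
        (2 * m + s ^ 2 * ((c / 6 + s * F s) + (c / 2 + s * G s))) /
        (4 * (m + s ^ 2 * (c / 6 + s * F s)) ^ 2)) 0 :=
      ContinuousAt.div (by fun_prop) (by fun_prop) (by simpa using hm)
    have := ct.tendsto.mono_left (nhdsWithin_le_nhds (s := {0}ᶜ))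
    refine Tendsto.congr' (ev.mono fun s ⟨s0, a, b, d⟩ => ?_) (by
      convert this using 2
      simp only [zero_mul, add_zero, ne_eq, OfNat.ofNat_ne_zero, not_false_eq_true, zero_pow]
      field_simp
      ring)
    have s0 : s ≠ 0 := s0
    simp only [b, d]
    generalize c / 6 + s * F s = P at a ⊢
    generalize c / 2 + s * G s = Q
    obtain ⟨A, rfl⟩ : ∃ A, m = A - s ^ 2 * P := ⟨m + s ^ 2 * P, by ring⟩
    rw [sub_add_cancel] at a ⊢
    field_simp
    ring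
  · refine tendsto_nhdsWithin_iff.2 ⟨?_, ev.mono fun s ⟨s0, a, b, _⟩ => ?_⟩
    · simpa only [h0] using ha.continuousAt.tendsto.mono_left nhdsWithin_le_nhds
    · exact b ▸ mul_ne_zero s0 a

theorem symd_sin : Tendsto (fun s : ℂ => csq (2 * s) - 1 / (4 * s ^ 2)) (𝓝[≠] 0) (𝓝 (1 / 12)) := by
  have d3 : iteratedDeriv 3 sin (0 : ℂ) = -1 := by
    simpa using congrFun (Complex.iteratedDeriv_odd_sin 1) 0
  have d2 : iteratedDeriv 2 sin (0 : ℂ) = 0 := by
    simpa using congrFun (Complex.iteratedDeriv_even_sin 1) 0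
  obtain ⟨k1, k2⟩ := symd_core (φ := sin) Complex.analyticAt_sin sin_zero d2 (by simp)
  rw [d3] at k1
  have := k1.const_sub (1 / 4)
  refine Tendsto.congr' ((tendsto_nhdsWithin_iff.1 k2).2.mono fun s hs => ?_) (by
    convert this using 2; simp; norm_num)
  have hs : sin s ≠ 0 := hs
  simp only [csq, Complex.deriv_sin, mul_div_cancel_left₀ s (two_ne_zero), cos_sq']
  field_simp
  ring

/-- Hint: `AnalyticAt.exists_eventuallyEq_sum_add_pow_mul` gives
`φ s = m s + c s ^ 3 + s ^ 4 F s`, `deriv φ s = m + 3 c s ^ 2 + s ^ 3 G s` (`c = φ'''(0) / 6`,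
the even terms vanish by oddness) and `sin x = x - x ^ 3 / 6 + x ^ 4 E x`; first show
`csq (2 x) - 1 / (4 x ^ 2) → 1 / 12`, then `1 / (4 s ^ 2) - φ' ^ 2 / (4 φ ^ 2) → - c / m`. -/
theorem symd_diag {φ : ℂ → ℂ} (ha : AnalyticAt ℂ φ 0) (hodd : ∀ᶠ s in 𝓝 (0 : ℂ), φ (-s) = -φ s)
    (hm : deriv φ 0 ≠ 0) :
    Tendsto (fun s => csq (2 * s) - deriv φ s ^ 2 * csq (2 * φ s)) (𝓝[≠] 0)
      (𝓝 ((1 - deriv φ 0 ^ 2) / 12 - iteratedDeriv 3 φ 0 / (6 * deriv φ 0))) := by
  have h0 : φ 0 = 0 := by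
    have := hodd.self_of_nhds
    rw [neg_zero] at this
    linear_combination this / 2
  have h2 : iteratedDeriv 2 φ 0 = 0 := by
    have e := Filter.EventuallyEq.iteratedDeriv_eq 2 (f := fun s => φ (-s)) (g := fun s => -φ s) hodd
    rw [iteratedDeriv_comp_neg, iteratedDeriv_fun_neg, neg_zero] at e
    simp only [even_two, Even.neg_pow, one_pow, one_smul] at e
    linear_combination e / 2
  obtain ⟨k1, k2⟩ := symd_core ha h0 h2 hm
  have d : Tendsto (deriv φ) (𝓝[≠] 0) (𝓝 (deriv φ 0)) :=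
    ha.deriv.continuousAt.tendsto.mono_left nhdsWithin_le_nhds
  have := (symd_sin.add k1).sub ((d.pow 2).mul (symd_sin.comp k2))
  convert this using 2
  · simp only [Function.comp]; ring
  · ring

end StekIso
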