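import Pool.Agent.Lib.MP_fa022d_an.Defs2

/-! Sign and monotonicity of the kernel of the DN map on one circle. -/

open Set Filter Topology Complex

noncomputable section
namespace StekIso

/-- the real multiplier -/
def symq_g (H : ℝ) (k : ℤ) : ℝ :=
  if k = 0 then 1 / H
  else 2 * |k| * Real.exp (-H) ^ (2 * k.natAbs) / (1 - Real.exp (-H) ^ (2 * k.natAbs))

theorem symq_gco (H : ℝ) (j : Bool) (k : ℤ) : gco j j H k = (symq_g H k : ℂ) := by
  unfold gco symq_g
  rw [if_pos rfl, if_pos rfl]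
  split_ifs
  · simp
  · simp only [ofReal_div, ofReal_mul, ofReal_sub, ofReal_pow, ofReal_exp, ofReal_neg, ofReal_one,
      ofReal_ofNat, ofReal_intCast]

theorem symq_g_neg (H : ℝ) (k : ℤ) : symq_g H (-k) = symq_g H k := by
  simp [symq_g]

/-- the majorant -/
def symq_b (k : ℤ) : ℝ := 3 * ((1 / 125 : ℝ) ^ k.natAbs - if k = 0 then 1 else 0)

theorem symq_b_sum : HasSum symq_b (3 / 62) := by
  have g : HasSum (fun n : ℕ => (1 / 125 : ℝ) ^ n) (1 - 1 / 125)⁻¹ :=
    hasSum_geometric_of_lt_one (by norm_num) (by norm_num)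
  have u : HasSum (fun k : ℤ => (1 / 125 : ℝ) ^ k.natAbs)
      ((1 - 1 / 125)⁻¹ + 1 / 125 * (1 - 1 / 125)⁻¹) := by
    refine HasSum.of_nat_of_neg_add_one (by simpa using g) ?_
    have e : (fun n : ℕ => (1 / 125 : ℝ) ^ (-((n : ℤ) + 1)).natAbs) =
        fun n => 1 / 125 * (1 / 125) ^ n := funext fun n => by
      rw [← pow_succ', Int.natAbs_neg]
      rfl
    rw [e]
    exact g.mul_left (1 / 125)
  rw [show (3 / 62 : ℝ) = 3 * ((1 - 1 / 125)⁻¹ + 1 / 125 * (1 - 1 / 125)⁻¹ - 1) by norm_num]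
  exact (u.sub (hasSum_ite_eq (0 : ℤ) (1 : ℝ))).mul_left 3

theorem symq_g_bd {H : ℝ} (hH : 4 ≤ H) (k : ℤ) :
    0 ≤ symq_g H k ∧ (k : ℝ) ^ 2 * symq_g H k ≤ symq_b k ∧
      symq_g H k ≤ symq_b k + if k = 0 then 1 / 4 else 0 := by
  by_cases hk : k = 0
  · subst hk
    have : 1 / H ≤ 1 / 4 := one_div_le_one_div_of_le (by norm_num) hH
    refine ⟨?_, ?_, ?_⟩ <;> simp [symq_g, symq_b]
    · linarith
    · simpa using this
  have r0 : 0 < Real.exp (-H) ^ 2 := by positivity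
  have r1 : Real.exp (-H) ^ 2 ≤ 1 / 1000 := by
    have e : (2.7 : ℝ) ≤ Real.exp 1 := by linarith [Real.exp_one_gt_d9]
    have a : (1000 : ℝ) ≤ Real.exp 1 ^ 8 :=
      le_trans (by norm_num) (pow_le_pow_left₀ (by norm_num) e 8)
    rw [← Real.exp_nat_mul] at a ⊢
    rw [le_div_iff₀ (by norm_num)]
    calc _ ≤ Real.exp ((2 : ℕ) * -H) * Real.exp ((8 : ℕ) * 1) := by gcongr
      _ ≤ 1 := by rw [← Real.exp_add, Real.exp_le_one_iff]; push_cast; linarith
  simp only [symq_g, symq_b, if_neg hk, pow_mul, sub_zero, add_zero]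
  generalize Real.exp (-H) ^ 2 = r at r0 r1
  have n1 : 1 ≤ k.natAbs := Int.natAbs_pos.2 hk
  have e : ((|k| : ℤ) : ℝ) = k.natAbs := by simp
  have e2 : (k : ℝ) ^ 2 = (k.natAbs : ℝ) ^ 2 := by simp
  rw [e, e2]
  generalize k.natAbs = n at n1
  have n1' : (1 : ℝ) ≤ n := by exact_mod_cast n1
  have p0 : 0 < r ^ n := by positivity
  have p1 : r ^ n ≤ 1 / 1000 := (pow_le_of_le_one r0.le (by linarith) (by omega)).trans r1
  have d : 0 < 1 - r ^ n := by linarith
  have g0 : 0 ≤ 2 * (n : ℝ) * r ^ n / (1 - r ^ n) := by positivity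
  have g1 : 2 * (n : ℝ) * r ^ n / (1 - r ^ n) ≤ 3 * n * r ^ n := by
    rw [div_le_iff₀ d]
    have : 0 ≤ (n : ℝ) * r ^ n := by positivity
    nlinarith
  have n2 : (n : ℝ) ≤ 2 ^ n := by exact_mod_cast Nat.lt_two_pow_self.le
  have g2 : (n : ℝ) ^ 2 * (2 * (n : ℝ) * r ^ n / (1 - r ^ n)) ≤ 3 * (1 / 125) ^ n :=
    calc _ ≤ (n : ℝ) ^ 2 * (3 * n * r ^ n) := by gcongr
      _ = 3 * ((n : ℝ) ^ 3 * r ^ n) := by ring
      _ ≤ 3 * ((2 ^ n) ^ 3 * (1 / 1000) ^ n) := by gcongr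
      _ = 3 * (1 / 125) ^ n := by
        rw [← pow_mul, mul_comm n 3, pow_mul, ← mul_pow]; norm_num
  exact ⟨g0, g2, le_trans (le_mul_of_one_le_left g0 (one_le_pow₀ n1')) g2⟩

theorem symq_c_sum : HasSum (fun k : ℤ => symq_b k + if k = 0 then 1 / 4 else 0)
    (3 / 62 + 1 / 4) := symq_b_sum.add (hasSum_ite_eq (0 : ℤ) (1 / 4 : ℝ))

theorem symq_g_sum {H : ℝ} (hH : 4 ≤ H) : Summable (symq_g H) :=
  .of_nonneg_of_le (fun k => (symq_g_bd hH k).1) (fun k => (symq_g_bd hH k).2.2)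
    symq_c_sum.summable

theorem symq_norm {H : ℝ} (hH : 4 ≤ H) (j : Bool) (k : ℤ) : ‖gco j j H k‖ = symq_g H k := by
  rw [symq_gco, Complex.norm_real, Real.norm_of_nonneg (symq_g_bd hH k).1]

theorem symq_term {H : ℝ} (hH : 4 ≤ H) (j : Bool) (k : ℤ) (x : ℝ) :
    ‖gco j j H k * exp (I * k * x)‖ = symq_g H k := by
  rw [norm_mul, symq_norm hH, show I * k * x = ((k * x : ℝ) : ℂ) * I by push_cast; ring,
    norm_exp_ofReal_mul_I, mul_one]

/-- the multiplier is summable: `‖gco j j H k‖ ≤ 3 |k| exp (-8 |k|)` for `k ≠ 0` -/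
theorem symq_summable {H : ℝ} (hH : 4 ≤ H) (j : Bool) :
    Summable fun k : ℤ => ‖gco j j H k‖ := by
  simpa only [symq_norm hH] using symq_g_sum hH

/-- the smooth part is continuous on the real line -/
theorem symq_cont {H : ℝ} (hH : 4 ≤ H) (j : Bool) :
    Continuous fun x : ℝ => fs (gco j j H) x := by
  exact continuous_tsum (fun k => by fun_prop) (symq_g_sum hH) fun k x => (symq_term hH j k x).le

theorem symq_fs_even (H : ℝ) (j : Bool) (x : ℂ) : fs (gco j j H) (-x) = fs (gco j j H) x := by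
  unfold fs
  rw [← (Equiv.neg ℤ).tsum_eq]
  refine tsum_congr fun k => ?_
  simp only [Equiv.neg_apply, symq_gco, symq_g_neg]
  congr 2
  push_cast; ring

theorem symq_csq (x : ℝ) : csq x = ((1 / (4 * Real.sin (x / 2) ^ 2) : ℝ) : ℂ) := by
  unfold csq; push_cast; rfl

theorem symq_qf (H : ℝ) (j : Bool) (x : ℂ) : qf j j H x = fs (gco j j H) x / 2 - csq x := by
  simp [qf]

/-- `gco j j H` is real and even, so the series is a real cosine series -/
theorem symq_real {H : ℝ} (hH : 4 ≤ H) (j : Bool) (x : ℝ) : (qf j j H x).im = 0 := by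
  have _ := hH
  have : (starRingEnd ℂ) (fs (gco j j H) x) = fs (gco j j H) x := by
    conv_rhs => rw [← symq_fs_even H j x]
    unfold fs
    rw [Complex.conj_tsum]
    refine tsum_congr fun k => ?_
    rw [map_mul, symq_gco, conj_ofReal, ← exp_conj]
    simp
  have := conj_eq_iff_im.1 this
  rw [symq_qf, symq_csq, sub_im, ofReal_im, div_ofNat_im, this]
  simp

theorem symq_even (H : ℝ) (j : Bool) (x : ℝ) : qf j j H (-x) = qf j j H x := by
  rw [symq_qf, symq_qf, symq_fs_even]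
  simp [csq, neg_div]

theorem symq_per (H : ℝ) (j : Bool) (x : ℝ) : qf j j H (x + 2 * Real.pi) = qf j j H x := by
  rw [symq_qf, symq_qf]
  congr 1
  · congr 1
    refine tsum_congr fun k => ?_
    rw [show I * k * (x + 2 * Real.pi) = I * k * x + k * (2 * Real.pi * I) by ring, exp_add,
      exp_int_mul_two_pi_mul_I, mul_one]
  · unfold csq
    rw [show ((x : ℂ) + 2 * Real.pi) / 2 = x / 2 + Real.pi by ring, sin_add_pi, neg_sq]

/-- the smooth part has modulus at most `1/8 + 1/100 < 1/4 ≤ csq` -/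
theorem symq_small {H : ℝ} (hH : 4 ≤ H) (j : Bool) (x : ℝ) :
    ‖fs (gco j j H) x / 2‖ ≤ 1 / 5 := by
  have : ‖fs (gco j j H) x‖ ≤ 3 / 62 + 1 / 4 := tsum_of_norm_bounded symq_c_sum fun k =>
    (symq_term hH j k x).le.trans (symq_g_bd hH k).2.2
  rw [norm_div, Complex.norm_ofNat]
  linarith

theorem symq_neg {H : ℝ} (hH : 4 ≤ H) (j : Bool) {x : ℝ} (hx : Real.sin (x / 2) ≠ 0) :
    (qf j j H x).re < 0 := by
  have a := (re_le_norm _).trans (symq_small hH j x)
  have b : 1 / 4 ≤ 1 / (4 * Real.sin (x / 2) ^ 2) :=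
    one_div_le_one_div_of_le (by positivity) (by linarith [Real.sin_sq_le_one (x / 2)])
  rw [symq_qf, symq_csq, sub_re, ofReal_re]
  linarith

theorem symq_sin_nat (t : ℝ) : ∀ n : ℕ, |Real.sin (n * t)| ≤ n * |Real.sin t|
  | 0 => by simp
  | n + 1 => by
    have := symq_sin_nat t n
    push_cast
    rw [add_mul, one_mul, Real.sin_add]
    refine (abs_add_le _ _).trans ?_
    rw [abs_mul, abs_mul]
    nlinarith [Real.abs_cos_le_one t, Real.abs_cos_le_one (n * t), abs_nonneg (Real.sin t),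
      abs_nonneg (Real.sin (n * t))]

theorem symq_sin_int (t : ℝ) (k : ℤ) : |Real.sin (k * t)| ≤ |(k : ℝ)| * |Real.sin t| := by
  obtain ⟨n, rfl | rfl⟩ := k.eq_nat_or_neg <;> simpa using symq_sin_nat t n

theorem symq_cos (x y : ℝ) (k : ℤ) :
    |Real.cos (k * x) - Real.cos (k * y)| ≤ (k : ℝ) ^ 2 * |Real.cos x - Real.cos y| := by
  rw [Real.cos_sub_cos, Real.cos_sub_cos, abs_mul, abs_mul, abs_mul, abs_mul,
    show (k * x + k * y) / 2 = k * ((x + y) / 2) by ring,
    show (k * x - k * y) / 2 = k * ((x - y) / 2) by ring, ← sq_abs (k : ℝ)]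
  calc _ ≤ |(-2 : ℝ)| * (|(k : ℝ)| * |Real.sin ((x + y) / 2)|) *
        (|(k : ℝ)| * |Real.sin ((x - y) / 2)|) := by gcongr <;> exact symq_sin_int _ _
    _ = _ := by ring

theorem symq_re {H : ℝ} (hH : 4 ≤ H) (j : Bool) (x : ℝ) :
    HasSum (fun k : ℤ => symq_g H k * Real.cos (k * x)) (fs (gco j j H) x).re := by
  have s : Summable fun k : ℤ => gco j j H k * exp (I * k * x) :=
    .of_norm (by simpa only [symq_term hH] using symq_g_sum hH)
  convert hasSum_re s.hasSum using 2 with k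
  rw [symq_gco, re_ofReal_mul, show I * k * x = ((k * x : ℝ) : ℂ) * I by push_cast; ring,
    exp_ofReal_mul_I_re]
  rfl

/-- Hint, no derivative: `csq x = 1 / (2 (1 - cos x))`, so `csq x - csq y ≥ (cos x - cos y) / 8`
for `0 < x < y ≤ π`; and `|cos (k x) - cos (k y)| ≤ k ^ 2 |cos x - cos y|` (product formula and
`|sin (k t)| ≤ k |sin t|`), with `∑ k ^ 2 ‖gco k‖ ≤ 1 / 10`. -/
theorem symq_mono {H : ℝ} (hH : 4 ≤ H) (j : Bool) :
    StrictMonoOn (fun x : ℝ => (qf j j H x).re) (Ioc 0 Real.pi) := by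
  intro x hx y hy h
  have d : Real.cos y < Real.cos x := Real.cos_lt_cos_of_nonneg_of_le_pi hx.1.le hy.2 h
  have x1 : Real.cos x < 1 := by
    simpa using Real.cos_lt_cos_of_nonneg_of_le_pi le_rfl hx.2 hx.1
  have y1 := Real.neg_one_le_cos y
  have c : ∀ z : ℝ, 4 * Real.sin (z / 2) ^ 2 = 2 * (1 - Real.cos z) := fun z => by
    rw [Real.sin_sq_eq_half_sub, mul_div_cancel₀ _ two_ne_zero]; ring
  have a : (fs (gco j j H) x).re - (fs (gco j j H) y).re ≤ 3 / 62 * (Real.cos x - Real.cos y) := by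
    refine hasSum_le (fun k => ?_) ((symq_re hH j x).sub (symq_re hH j y))
      (symq_b_sum.mul_right _)
    have b := (le_abs_self _).trans (symq_cos x y k)
    rw [abs_of_pos (sub_pos.2 d)] at b
    obtain ⟨g0, g1, -⟩ := symq_g_bd hH k
    calc _ = symq_g H k * (Real.cos (k * x) - Real.cos (k * y)) := by ring
      _ ≤ symq_g H k * ((k : ℝ) ^ 2 * (Real.cos x - Real.cos y)) := by gcongr
      _ = (k : ℝ) ^ 2 * symq_g H k * (Real.cos x - Real.cos y) := by ring
      _ ≤ _ := by gcongr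
  have b : (Real.cos x - Real.cos y) / 8 ≤
      1 / (2 * (1 - Real.cos x)) - 1 / (2 * (1 - Real.cos y)) := by
    have p : 0 < 1 - Real.cos x := by linarith
    have q : 0 < 1 - Real.cos y := by linarith
    rw [div_sub_div _ _ (by positivity) (by positivity),
      div_le_div_iff₀ (by norm_num) (by positivity)]
    have : (1 - Real.cos x) * (1 - Real.cos y) ≤ 4 := by nlinarith
    nlinarith
  simp only [symq_qf, symq_csq, sub_re, ofReal_re, div_ofNat_re, c]
  linarith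

end StekIso
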