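import Pool.Agent.Lib.MP_fa022d_an.Sym2
import Pool.Agent.Lib.MP_fa022d_an.SymQ
import Pool.Agent.Lib.MP_fa022d_an.SymD

/-! The symbols on the real line. -/

open Set Filter Topology Metric Complex

noncomputable section
namespace StekIso
variable {B : Base} {C0 : ℝ}

theorem sym3_mem {y : ℝ} (hy : 0 < y) (s : ℝ) : (s : ℂ) ∈ strip y := by simpa [strip] using hy

theorem sym3_dat (B : Base) (j : Bool) {s : ℂ} (hs : s ∈ strip B.η0) :
    HasDerivAt (B.θ j) (deriv (B.θ j) s) s :=
  ((B.cm j).diff.differentiableAt ((isOpen_strip _).mem_nhds hs)).hasDerivAt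

/-- the real circle map -/
def thr (B : Base) (j : Bool) (s : ℝ) : ℝ := (B.θ j s).re
def dthr (B : Base) (j : Bool) (s : ℝ) : ℝ := (deriv (B.θ j) s).re

theorem sym3_th (B : Base) (j : Bool) (s : ℝ) : B.θ j s = thr B j s :=
  Complex.ext (by simp [thr]) (by simp [(B.cm j).real s])

theorem sym3_hasDeriv (B : Base) (j : Bool) (s : ℝ) : HasDerivAt (thr B j) (dthr B j s) s :=
  (sym3_dat B j (sym3_mem B.η0_pos s)).real_of_complex

theorem sym3_dth (B : Base) (j : Bool) (s : ℝ) : deriv (B.θ j) s = dthr B j s := by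
  have h1 := (sym3_dat B j (sym3_mem B.η0_pos s)).comp_ofReal
  have h2 := (sym3_hasDeriv B j s).ofReal_comp
  simp only [sym3_th] at h1
  exact h1.unique h2

theorem sym3_dpos (B : Base) (j : Bool) (s : ℝ) : 0 < dthr B j s :=
  B.m_pos.trans_le ((B.cm j).lo _ (sym3_mem B.η0_pos s))

theorem sym3_mono (B : Base) (j : Bool) : StrictMono (thr B j) :=
  strictMono_of_deriv_pos fun s => by rw [(sym3_hasDeriv B j s).deriv]; exact sym3_dpos B j s

theorem sym3_odd (B : Base) (j : Bool) (s : ℝ) : thr B j (-s) = -thr B j s := by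
  simp only [thr, ofReal_neg, B.odd j _ (sym3_mem B.η0_pos s), neg_re]

theorem sym3_per (B : Base) (j : Bool) (s : ℝ) :
    thr B j (s + 2 * Real.pi) = thr B j s + 2 * Real.pi := by
  have := (B.cm j).per _ (sym3_mem B.η0_pos s)
  simp only [thr]
  push_cast
  rw [this]; simp

theorem sym3_zero (B : Base) (j : Bool) : thr B j 0 = 0 := by
  have := sym3_odd B j 0
  rw [neg_zero] at this; linarith

theorem sym3_pi (B : Base) (j : Bool) : thr B j Real.pi = Real.pi := by
  have h1 := sym3_odd B j Real.pi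
  have h2 := sym3_per B j (-Real.pi)
  rw [show -Real.pi + 2 * Real.pi = Real.pi by ring] at h2
  linarith

theorem sym3_int (B : Base) (j : Bool) (k : ℤ) (s : ℝ) :
    thr B j (s + k * (2 * Real.pi)) = thr B j s + k * (2 * Real.pi) := by
  have : Function.Periodic (fun s => thr B j s - s) (2 * Real.pi) := fun s => by
    simp only [sym3_per]; ring
  have := this.int_mul k s
  linarith

theorem sym3_dper (B : Base) (j : Bool) (s : ℝ) : dthr B j (s + 2 * Real.pi) = dthr B j s := by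
  have h1 := (sym3_hasDeriv B j (s + 2 * Real.pi)).comp_add_const s (2 * Real.pi)
  simp only [sym3_per] at h1
  exact h1.unique ((sym3_hasDeriv B j s).add_const _)

theorem sym3_exp_ne {s t : ℝ} (h : Real.sin ((s - t) / 2) ≠ 0) : exp (I * s) ≠ exp (I * t) := by
  intro e
  obtain ⟨k, hk⟩ := exp_eq_exp_iff_exists_int.1 e
  have := congrArg Complex.im hk
  simp at this
  exact h (Real.sin_eq_zero_iff.2 ⟨k, by linarith⟩)

theorem sym3_sin_ne (B : Base) (j : Bool) {s t : ℝ} (h : Real.sin ((s - t) / 2) ≠ 0) :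
    Real.sin ((thr B j s - thr B j t) / 2) ≠ 0 := by
  intro e
  obtain ⟨k, hk⟩ := Real.sin_eq_zero_iff.1 e
  have h1 : thr B j s = thr B j (t + k * (2 * Real.pi)) := by rw [sym3_int]; linarith
  have h2 := (sym3_mono B j).injective h1
  exact h (Real.sin_eq_zero_iff.2 ⟨k, by linarith⟩)

/-- the real kernel -/
def qr (B : Base) (j : Bool) (x : ℝ) : ℝ := (qf j j B.H0 x).re

theorem sym3_q (B : Base) (j : Bool) (x : ℝ) : qf j j B.H0 x = qr B j x :=
  Complex.ext (by simp [qr]) (by simp [symq_real B.big j x])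

theorem sym3_KK_eq (hB : BaseOK B C0) (j : Bool) {s t : ℂ} (hs : s ∈ strip (B.η0 / 3))
    (ht : t ∈ strip (B.η0 / 3)) (h : exp (I * s) ≠ exp (I * t)) :
    KK B j s t = QQ B.θ B.H0 j j s t := by
  have hp : (Real.pi : ℂ) ≠ 0 := ofReal_ne_zero.2 Real.pi_ne_zero
  rw [KK, SS, hB.ev _ (sym2_H0 B) j j s hs t ht (Or.inr h), kerF]
  simp only [if_true]
  field_simp
  ring

theorem sym3_KK (hB : BaseOK B C0) (j : Bool) {s t : ℝ} (h : Real.sin ((s - t) / 2) ≠ 0) :
    KK B j s t = (dthr B j s * dthr B j t * qr B j (thr B j s - thr B j t) : ℝ) := by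
  have h0 : 0 < B.η0 / 3 := by linarith [B.η0_pos]
  rw [sym3_KK_eq hB j (sym3_mem h0 s) (sym3_mem h0 t) (sym3_exp_ne h), QQ, sym3_dth, sym3_dth,
    sym3_th, sym3_th, ← ofReal_sub, sym3_q]
  push_cast; ring

theorem sym3_KK_neg (hB : BaseOK B C0) (j : Bool) {s t : ℝ} (h : Real.sin ((s - t) / 2) ≠ 0) :
    ∃ k : ℝ, k < 0 ∧ KK B j s t = k :=
  ⟨_, mul_neg_of_pos_of_neg (mul_pos (sym3_dpos B j s) (sym3_dpos B j t))
    (symq_neg B.big j (sym3_sin_ne B j h)), sym3_KK hB j h⟩

theorem sym3_J (hB : BaseOK B C0) (j : Bool) (s : ℝ) :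
    1 - 4 * sin ((s - 0 : ℂ) / 2) ^ 2 * SS B j s 0 ≠ 0 := by
  by_cases h : Real.sin ((s - 0) / 2) = 0
  · have : sin ((s - 0 : ℂ) / 2) = 0 := by exact_mod_cast h
    rw [this]; simp
  · obtain ⟨k, hk, e⟩ := sym3_KK_neg hB j h
    have h1 : sin ((s - 0 : ℂ) / 2) ≠ 0 := by exact_mod_cast h
    have h2 : (k : ℂ) ≠ 0 := ofReal_ne_zero.2 hk.ne
    rw [KK, csq, ofReal_zero] at e
    have : 1 - 4 * sin ((s - 0 : ℂ) / 2) ^ 2 * SS B j s 0 = -4 * sin ((s - 0 : ℂ) / 2) ^ 2 * k := by
      rw [← e]; field_simp; ring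
    rw [this]
    exact mul_ne_zero (mul_ne_zero (by norm_num) (pow_ne_zero _ h1)) h2

theorem sym3_FF_KK (B : Base) (j : Bool) (s t : ℂ) :
    FF B j s t = KK B j (s + Real.pi) t - KK B j s (t - Real.pi) := by
  rw [FF, KK, KK, show s + Real.pi - t = s - (t - Real.pi) by ring]; ring

theorem sym3_FF_per (B : Base) (j : Bool) (s t : ℂ) : FF B j (s + 2 * Real.pi) t = FF B j s t := by
  rw [FF, FF, sym2_per1, add_right_comm, sym2_per1]

theorem sym3_FF_real (hB : BaseOK B C0) (j : Bool) (s : ℝ) : (FF B j s 0).im = 0 := by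
  have h1 := sym2_real hB j (s + Real.pi) 0
  have h2 := sym2_real hB j s (0 - Real.pi)
  push_cast at h1 h2
  rw [FF, sub_im, h1, h2, sub_zero]

theorem sym3_FF_even (hB : BaseOK B C0) (j : Bool) (s : ℂ) : FF B j (-s) 0 = FF B j s 0 := by
  rw [FF, FF, ← sym2_even hB j (-s + Real.pi), ← sym2_even hB j (-s), ← sym2_per1,
    ← sym2_per2 B j s (0 - Real.pi)]
  congr 2 <;> ring

/-- the value on the diagonal at a centre of symmetry -/
theorem sym3_diag (hB : BaseOK B C0) (j : Bool) (a : ℝ)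
    (hodd : ∀ s ∈ strip B.η0, B.θ j (a + -s) - a = -(B.θ j (a + s) - a)) :
    SS B j a a = deriv (B.θ j) a ^ 2 * (fs (gco j j B.H0) 0 / 2) +
      ((1 - deriv (B.θ j) a ^ 2) / 12 - iteratedDeriv 3 (B.θ j) a / (6 * deriv (B.θ j) a)) := by
  have h0 := B.η0_pos
  have hst : ∀ s ∈ strip B.η0, a + s ∈ strip B.η0 := fun s hs => by simpa [strip] using hs
  have hn : ∀ s ∈ strip B.η0, -s ∈ strip B.η0 := fun s hs => by simpa [strip] using hs
  have h0m : (0 : ℂ) ∈ strip B.η0 := sym3_mem h0 0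
  have nh : strip B.η0 ∈ 𝓝 (0 : ℂ) := (isOpen_strip _).mem_nhds h0m
  set φ : ℂ → ℂ := fun s => B.θ j (a + s) - a with hφ
  have dφ : ∀ s ∈ strip B.η0, HasDerivAt φ (deriv (B.θ j) (a + s)) s := fun s hs =>
    (HasDerivAt.comp_const_add (a : ℂ) s (sym3_dat B j (hst s hs))).sub_const _
  have an : AnalyticAt ℂ φ 0 := DifferentiableOn.analyticAt
    (fun s hs => (dφ s hs).differentiableAt.differentiableWithinAt) nh
  have d0 : deriv φ 0 = deriv (B.θ j) a := by simpa using (dφ 0 h0m).deriv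
  have d3 : iteratedDeriv 3 φ 0 = iteratedDeriv 3 (B.θ j) a := by
    have e : φ = fun s => -a + (fun s => B.θ j (a + s)) s := by funext s; simp only [hφ]; ring
    rw [e, iteratedDeriv_const_add (by norm_num), iteratedDeriv_comp_const_add]; simp
  have ne : deriv φ 0 ≠ 0 := by rw [d0, sym3_dth]; exact ofReal_ne_zero.2 (sym3_dpos B j a).ne'
  have lim := symd_diag an (mem_of_superset nh fun s hs => hodd s hs) ne
  rw [d0, d3] at lim
  have tR : Tendsto (fun s : ℝ => (s : ℂ)) (𝓝[≠] 0) (𝓝[≠] 0) :=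
    tendsto_nhdsWithin_iff.2 ⟨(continuous_ofReal.tendsto' 0 0 rfl).mono_left nhdsWithin_le_nhds,
      mem_of_superset self_mem_nhdsWithin fun s hs => by simpa using hs⟩
  have ev : ∀ s : ℝ, deriv (B.θ j) (a + -s) = deriv (B.θ j) (a + s) := fun s => by
    have m := sym3_mem h0 s
    have h1 := (dφ _ (hn _ m)).comp (s : ℂ) (hasDerivAt_neg (s : ℂ))
    have h2 := (dφ _ m).neg
    have : (φ ∘ Neg.neg) =ᶠ[𝓝 (s : ℂ)] -φ :=
      mem_of_superset ((isOpen_strip _).mem_nhds m) fun u hu => hodd u hu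
    have := (h1.congr_of_eventuallyEq this.symm).unique h2
    linear_combination -this
  have cθ : Continuous (thr B j) := continuous_iff_continuousAt.2 fun s =>
    (sym3_hasDeriv B j s).continuousAt
  have t1 : Tendsto (fun s : ℝ => SS B j (a + s) (a + -s)) (𝓝[≠] 0) (𝓝 (SS B j a a)) := by
    have c : Continuous fun s : ℝ => ((a + s : ℂ), (a + -s : ℂ)) := by fun_prop
    exact ((sym2_contAt hB j (z := (a, a)) (by simp) (by simp)).tendsto.comp
      (c.tendsto' 0 _ (by simp))).mono_left nhdsWithin_le_nhds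
  have t2 : Tendsto (fun s : ℝ => deriv φ s) (𝓝[≠] 0) (𝓝 (deriv (B.θ j) a)) := by
    rw [← d0]
    exact an.deriv.continuousAt.tendsto.comp (tR.mono_right nhdsWithin_le_nhds)
  have t3 : Tendsto (fun s : ℝ => fs (gco j j B.H0) (2 * (thr B j (a + s) - a) : ℝ)) (𝓝[≠] 0)
      (𝓝 (fs (gco j j B.H0) 0)) := by
    have z : thr B j a = a := by
      have := hodd 0 h0m
      simp only [neg_zero, add_zero, sym3_th] at this
      have : (thr B j a : ℂ) = a := by linear_combination this / 2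
      exact_mod_cast this
    have c : Continuous fun s : ℝ => 2 * (thr B j (a + s) - a) := by fun_prop
    exact (((symq_cont B.big j).comp c).tendsto' 0 _ (by simp [z])).mono_left nhdsWithin_le_nhds
  refine tendsto_nhds_unique t1 ((((t2.pow 2).mul (t3.div_const 2)).add (lim.comp tR)).congr' ?_)
  have h3 : 0 < B.η0 / 3 := by linarith
  have sm : ∀ᶠ s : ℝ in 𝓝[≠] 0, Real.sin ((a + s - (a + -s)) / 2) ≠ 0 := by
    have : ∀ᶠ s : ℝ in 𝓝 0, |s| < Real.pi := (continuous_abs.tendsto' 0 0 abs_zero).eventually_lt_const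
      Real.pi_pos
    filter_upwards [self_mem_nhdsWithin, nhdsWithin_le_nhds this] with s hs hs'
    rw [show (a + s - (a + -s)) / 2 = s by ring]
    rw [abs_lt] at hs'
    exact fun e => hs ((Real.sin_eq_zero_iff_of_lt_of_lt hs'.1 hs'.2).1 e)
  filter_upwards [sm] with s hs
  have k := sym3_KK_eq hB j (sym3_mem h3 (a + s)) (sym3_mem h3 (a + -s)) (sym3_exp_ne hs)
  have o := hodd s (sym3_mem h0 s)
  have e1 : B.θ j (a + s) - B.θ j (a + -s) = 2 * φ s := by simp only [hφ]; linear_combination -o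
  have e2 : ((2 * (thr B j (a + s) - a) : ℝ) : ℂ) = 2 * φ s := by
    have := sym3_th B j (a + s)
    push_cast at this ⊢
    simp only [hφ, this]
  push_cast at k
  rw [KK, QQ, ev, e1, qf, show (a + s - (a + -s) : ℂ) = 2 * s by ring] at k
  simp only [Function.comp, e2, (dφ _ (sym3_mem h0 s)).deriv, if_true] at k ⊢
  linear_combination -k

theorem sym3_F_pi (hB : BaseOK B C0) (hA : B.Asym) (j : Bool) : FF B j Real.pi 0 ≠ 0 := by
  have h1 := sym3_diag hB j 0 fun s hs => by simpa using B.odd j s hs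
  have h2 := sym3_diag hB j Real.pi fun s hs => by
    have m : -(Real.pi + s) ∈ strip B.η0 := by simpa [strip] using hs
    have p := (B.cm j).per _ m
    have o := B.odd j (Real.pi + s) (by simpa [strip] using hs)
    rw [show -(Real.pi + s) + 2 * (Real.pi : ℂ) = Real.pi + -s by ring] at p
    linear_combination p + o
  have e : FF B j Real.pi 0 = SS B j 0 0 - SS B j Real.pi Real.pi := by
    rw [FF, ← sym2_per1 B j 0 0, ← sym2_per2 B j Real.pi (0 - Real.pi)]
    congr 2 <;> ring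
  have ne : deriv (B.θ j) Real.pi ≠ 0 := by
    rw [sym3_dth]; exact ofReal_ne_zero.2 (sym3_dpos B j _).ne'
  rw [ofReal_zero, hA.d1 j] at h1
  rw [e, h1, h2]
  intro h
  apply hA.d3 j
  field_simp at h
  linear_combination -h / 24

theorem sym3_F_mid (hB : BaseOK B C0) (hA : B.Asym) (j : Bool) {s : ℝ} (h0 : 0 < s)
    (h1 : s < Real.pi) : FF B j s 0 ≠ 0 ∨ FF B j (s + Real.pi) 0 ≠ 0 := by
  have pi := Real.pi_pos
  by_contra! h
  obtain ⟨f1, f2⟩ := h
  have sp : ∀ x : ℝ, 0 < x → x < 2 * Real.pi → Real.sin (x / 2) ≠ 0 := fun x a b =>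
    (Real.sin_pos_of_pos_of_lt_pi (by linarith) (by linarith)).ne'
  have k1 := sym3_KK hB j (s := s + Real.pi) (t := 0) (sp _ (by linarith) (by linarith))
  have k2 := sym3_KK hB j (s := s) (t := 0 - Real.pi) (sp _ (by linarith) (by linarith))
  have k3 := sym3_KK hB j (s := s) (t := 0) (sp _ (by linarith) (by linarith))
  have k4 := sym3_KK hB j (s := s + Real.pi) (t := Real.pi) (sp _ (by linarith) (by linarith))
  have e3 : KK B j (s + Real.pi + Real.pi) 0 = KK B j s 0 := by
    rw [KK, KK, show (s + Real.pi + Real.pi : ℂ) = s + 2 * Real.pi by ring, sym2_per1, csq, csq,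
      show (s + 2 * Real.pi - 0 : ℂ) / 2 = (s - 0) / 2 + Real.pi by ring, sin_add_pi, neg_sq]
  have e4 : KK B j (s + Real.pi) (0 - Real.pi) = KK B j (s + Real.pi) Real.pi := by
    rw [KK, KK, ← sym2_per2, show (0 - Real.pi + 2 * Real.pi : ℂ) = Real.pi by ring, csq, csq,
      show (s + Real.pi - (0 - Real.pi) : ℂ) / 2 = (s + Real.pi - Real.pi) / 2 + Real.pi by ring,
      sin_add_pi, neg_sq]
  rw [ofReal_add, ofReal_zero] at k1
  rw [ofReal_sub, ofReal_zero] at k2
  rw [ofReal_zero] at k3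
  rw [ofReal_add] at k4
  rw [sym3_FF_KK, k1, k2, sub_eq_zero, ofReal_inj] at f1
  rw [sym3_FF_KK, e3, e4, k3, k4, sub_eq_zero, ofReal_inj] at f2
  have dm : dthr B j Real.pi = dthr B j 0 := by
    have := hA.d1 j
    rw [← ofReal_zero, sym3_dth, sym3_dth] at this
    exact (ofReal_inj.1 this).symm
  have dm' : dthr B j (0 - Real.pi) = dthr B j 0 := by
    rw [← sym3_dper, ← dm]; congr 1; ring
  have tm : thr B j (0 - Real.pi) = -Real.pi := by rw [zero_sub, sym3_odd, sym3_pi]
  rw [dm', tm, sym3_zero] at f1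
  rw [dm, sym3_pi, sym3_zero] at f2
  set x := thr B j s with hx
  set y := thr B j (s + Real.pi) - Real.pi with hy
  have x0 : 0 < x := by rw [← sym3_zero B j]; exact sym3_mono B j h0
  have x1 : x < Real.pi := by rw [← sym3_pi B j]; exact sym3_mono B j h1
  have y0 : 0 < y := by
    have := sym3_mono B j (show Real.pi < s + Real.pi by linarith)
    rw [sym3_pi] at this; linarith
  have y1 : y < Real.pi := by
    have := sym3_mono B j (show s + Real.pi < 0 + 2 * Real.pi by linarith)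
    rw [sym3_per, sym3_zero] at this; linarith
  have ne : x ≠ y := fun e => hA.ne j s h0 h1 (by
    rw [← ofReal_add, sym3_th, sym3_th, ← ofReal_add, ofReal_inj]; linarith)
  have rf : ∀ u : ℝ, qr B j (u + Real.pi) = qr B j (Real.pi - u) := fun u => by
    have a := symq_even B.H0 j (u + Real.pi)
    have b := symq_per B.H0 j (-(u + Real.pi))
    simp only [qr]
    push_cast at a b ⊢
    rw [← a, ← b]; congr 2; ring
  rw [show thr B j (s + Real.pi) - 0 = y + Real.pi by rw [hy]; ring,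
    show x - -Real.pi = x + Real.pi by ring, rf, rf] at f1
  rw [sub_zero] at f2
  have neg : ∀ u : ℝ, 0 < u → u < Real.pi → qr B j u < 0 := fun u a b =>
    symq_neg B.big j (sp u a (by linarith))
  have mono : ∀ u v : ℝ, 0 < u → u < v → v < Real.pi → qr B j u < qr B j v := fun u v a b c =>
    symq_mono B.big j ⟨a, by linarith⟩ ⟨by linarith, c.le⟩ b
  have pa := sym3_dpos B j s
  have pb := sym3_dpos B j (s + Real.pi)
  have pm := sym3_dpos B j 0
  have g1 : dthr B j (s + Real.pi) * qr B j (Real.pi - y) = dthr B j s * qr B j (Real.pi - x) :=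
    mul_left_cancel₀ pm.ne' (by linarith)
  have g2 : dthr B j s * qr B j x = dthr B j (s + Real.pi) * qr B j y :=
    mul_left_cancel₀ pm.ne' (by linarith)
  have n1 := neg x x0 x1
  have n2 := neg y y0 y1
  have n3 := neg (Real.pi - x) (by linarith) (by linarith)
  have n4 := neg (Real.pi - y) (by linarith) (by linarith)
  rcases lt_or_gt_of_ne ne with l | l
  · have m1 := mono x y x0 l y1
    have m2 := mono (Real.pi - y) (Real.pi - x) (by linarith) (by linarith) (by linarith)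
    have : dthr B j s < dthr B j (s + Real.pi) := by nlinarith
    nlinarith
  · have m1 := mono y x y0 l x1
    have m2 := mono (Real.pi - x) (Real.pi - y) (by linarith) (by linarith) (by linarith)
    have : dthr B j (s + Real.pi) < dthr B j s := by nlinarith
    nlinarith

theorem sym3_F (hB : BaseOK B C0) (hA : B.Asym) (j : Bool) (s : ℝ) :
    FF B j s 0 ≠ 0 ∨ FF B j (s + Real.pi) 0 ≠ 0 := by
  have per : Function.Periodic (fun s : ℝ => FF B j s 0 ≠ 0 ∨ FF B j (s + Real.pi) 0 ≠ 0)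
      Real.pi := fun s => by
    simp only [ofReal_add]
    rw [show (s + Real.pi + Real.pi : ℂ) = s + 2 * Real.pi by ring, sym3_FF_per, or_comm]
  obtain ⟨y, hy, e⟩ := per.exists_mem_Ico₀ Real.pi_pos s
  rw [e]
  rcases hy.1.eq_or_lt with rfl | h
  · right; simpa using sym3_F_pi hB hA j
  · exact sym3_F_mid hB hA j h hy.2

end StekIso
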