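import Pool.Agent.Lib.MP_fa022d_an.Defs6
import Pool.Agent.Lib.MP_fa022d_an.Top2
import Pool.Agent.Lib.MP_fa022d_an.Top3
import Pool.Agent.Lib.MP_fa022d_an.KerF
import Pool.Agent.Lib.MP_fa022d_an.Sym3

/-! Touching pairs of the neighbours of the base; embedding and overlap are open conditions. -/

open Set Filter Topology Metric BoundedContinuousFunction Complex

noncomputable section
namespace StekIso

theorem touch_sn (η : Pos) : ∃ K > 0, ∀ w : V η, 0 ≤ sn w ∧ sn w ≤ K * ‖w‖ := by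
  have hs : Summable fun b : Idx => ex (η.1 / 2) b.2 :=
    (summable_prod_of_nonneg fun b => (ex_pos _ _).le).2
      ⟨fun _ => by simpa using summable_ex (half_pos η.2) 0, Summable.of_finite⟩
  have nn : ∀ (w : V η) (b : Idx), 0 ≤ ‖(w b.1).coeff b.2‖ * ex (-(η.1 / 2)) b.2 := fun w b =>
    mul_nonneg (norm_nonneg _) (ex_pos _ _).le
  refine ⟨_, hs.tsum_pos (fun b => (ex_pos _ _).le) (true, 0) (ex_pos _ _),
    fun w => ⟨tsum_nonneg (nn w), ?_⟩⟩
  rw [← tsum_mul_right]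
  have le : ∀ b : Idx, ‖(w b.1).coeff b.2‖ * ex (-(η.1 / 2)) b.2 ≤ ex (η.1 / 2) b.2 * ‖w‖ := by
    intro b
    refine (mul_le_mul_of_nonneg_right (kerf_ex (w b.1) b.2) (ex_pos _ _).le).trans ?_
    rw [mul_assoc, four2_ex, show η.1 + -(η.1 / 2) = η.1 / 2 by ring, mul_comm]
    exact mul_le_mul_of_nonneg_left (by linarith [norm_le_pi_norm w b.1, norm_nonneg (w b.1)])
      (ex_pos _ _).le
  exact (Summable.of_nonneg_of_le (nn w) le (hs.mul_right _)).tsum_le_tsum le (hs.mul_right _)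

theorem touch_zero {η : Pos} {r : ℝ} (h : 0 < r) : (0 : V η) ∈ RB η r :=
  ⟨fun j k => by simp, by simpa using h⟩

theorem touch_per {η m M : ℝ} {θ : ℂ → ℂ} (hη : 0 < η) (h : CMap η m M θ) :
    Function.Periodic (fun s : ℝ => exp (I * θ s)) (2 * Real.pi) := fun s => by
  simp only
  rw [top3_per hη h, mul_add, exp_add, show I * (2 * Real.pi) = 2 * Real.pi * I by ring,
    exp_two_pi_mul_I, mul_one]

theorem touch_angle {η m M : ℝ} {θ : ℂ → ℂ} (hη : 0 < η) (hm : 0 < m) (h : CMap η m M θ) {a : ℂ}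
    (ha : ‖a‖ = 1) : ∃ p ∈ Icc (-Real.pi) Real.pi, exp (I * θ p) = a := by
  obtain ⟨s, hs⟩ := top3_surj hη hm h (arg a)
  obtain ⟨p, hp, e⟩ := (touch_per hη h).exists_mem_Ioc Real.two_pi_pos s (-Real.pi)
  refine ⟨p, ⟨hp.1.le, by linarith [hp.2]⟩, e.symm.trans ?_⟩
  have := norm_mul_exp_arg_mul_I a
  rw [ha, ofReal_one, one_mul] at this
  rw [top3_re h s, hs, mul_comm, this]

theorem touch_up (B : Base) (j : Bool) {p : ℝ} (h : p ∈ Icc 0 Real.pi) :
    0 ≤ Real.sin (thr B j p) ∧ Real.sin (thr B j p) ≤ 2 * B.M * Real.sin p := by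
  have mo := (sym3_mono B j).monotone
  have h0 : 0 ≤ thr B j p := (sym3_zero B j).ge.trans (mo h.1)
  have h1 : thr B j p ≤ Real.pi := (mo h.2).trans (sym3_pi B j).le
  have lip : ∀ s t : ℝ, t ≤ s → thr B j s - thr B j t ≤ B.M * (s - t) := fun s t k => by
    have := ((B.cm j).lip (sym3_mem B.η0_pos s) (sym3_mem B.η0_pos t)).2
    rw [sym3_th, sym3_th, ← ofReal_sub, ← ofReal_sub, norm_real, norm_real, Real.norm_eq_abs,
      Real.norm_eq_abs, abs_of_nonneg (sub_nonneg.2 k)] at this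
    exact (le_abs_self _).trans this
  have M0 : 0 ≤ B.M := B.m_pos.le.trans (kerf_mM B)
  have key : ∀ x : ℝ, 0 ≤ x → x ≤ Real.pi / 2 → x ≤ 2 * Real.sin x := fun x a b => by
    have c := Real.mul_le_sin a b
    have d : 1 / 2 ≤ 2 / Real.pi := by
      rw [div_le_div_iff₀ two_pos Real.pi_pos]
      linarith [Real.pi_le_four]
    nlinarith
  refine ⟨Real.sin_nonneg_of_nonneg_of_le_pi h0 h1, ?_⟩
  rcases le_total p (Real.pi / 2) with k | k
  · have a := lip p 0 h.1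
    rw [sym3_zero] at a
    nlinarith [Real.sin_le h0, mul_le_mul_of_nonneg_left (key p h.1 k) M0]
  · have a := lip Real.pi p h.2
    have b := Real.sin_le (sub_nonneg.2 h1)
    have c := key (Real.pi - p) (sub_nonneg.2 h.2) (by linarith)
    rw [sym3_pi] at a
    rw [Real.sin_pi_sub] at b c
    nlinarith [mul_le_mul_of_nonneg_left c M0]

theorem touch_sin (B : Base) (j : Bool) {p t : ℝ} (h : p ∈ Icc (-Real.pi) Real.pi) (ht : 0 < t) :
    (t ≤ Real.sin (thr B j p) → t ≤ 2 * B.M * Real.sin p) ∧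
      (Real.sin (thr B j p) ≤ -t → 2 * B.M * Real.sin p ≤ -t) := by
  rcases le_total 0 p with k | k
  · obtain ⟨a, b⟩ := touch_up B j ⟨k, h.2⟩
    exact ⟨fun c => c.trans b, fun c => by linarith⟩
  · obtain ⟨a, b⟩ := touch_up B j (p := -p) ⟨neg_nonneg.2 k, by linarith [h.1]⟩
    rw [sym3_odd, Real.sin_neg] at a b
    rw [Real.sin_neg] at b
    exact ⟨fun c => by linarith, fun c => by linarith⟩

variable {B : GeoBase} {η : Pos} {r δ C : ℝ}

/-- the shape of the zero perturbation is the base up to a similarity -/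
theorem GeoOK.touch_base (h : GeoOK B η r δ C) : B.H0 = Hv B.toBase B.lam0 (0 : V η) ∧
    Clo B.toBase B.lam0 (0 : V η) ∧ ∃ a b : ℂ, a ≠ 0 ∧ ∃ δ'' > 0, ∀ z ∈ ann B.H0 δ'',
      B.F0 z = a * Fv B.toBase B.lam0 (0 : V η) z + b :=
  h.uniq 0 (touch_zero h.r_pos) B.lam0 (by simpa using h.r_pos) B.G0 B.F0 B.H0 1 B.δ0
    (by linarith [B.big]) one_pos B.δ0_pos B.diffG B.primF (by rw [thOf_zero]; exact B.fits)

theorem touch_prim {G F : ℂ → ℂ} {H δ : ℝ} (h : HasPrim G F H δ) :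
    DifferentiableOn ℂ F (ann H δ) ∧ ∀ z ∈ ann H δ, deriv F z ≠ 0 :=
  ⟨fun z hz => (h z hz).differentiableAt.differentiableWithinAt, fun z hz => by
    rw [(h z hz).deriv]; exact exp_ne_zero _⟩

theorem touch_ok (hB : B.Good) : ∃ μ > 0, ∀ (η : Pos) (r δ C : ℝ), GeoOK B η r δ C →
    ∃ r1 > 0, r1 ≤ r ∧ TouchOK B η μ r1 := by
  have H0 : 0 < B.H0 := by linarith [B.big]
  have M0 : 0 < B.M := B.m_pos.trans_le (kerf_mM B.toBase)
  obtain ⟨μ, hμ, hp⟩ := pairs_near H0 B.δ0_pos (touch_prim B.primF).1 (touch_prim B.primF).2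
    hB.pairs
  refine ⟨μ / (4 * B.M), by positivity, fun η r δ C h => ?_⟩
  obtain ⟨e0, -, a, b, a0, δ2, hδ2, e1⟩ := h.touch_base
  obtain ⟨K, hK, hsn⟩ := touch_sn η
  have hδ := h.δ_pos
  have hC := h.C_nonneg
  have hδ0 := B.δ0_pos
  obtain ⟨κ, hκ, hq⟩ := hp (min B.δ0 (min δ2 (2 * δ))) (by positivity) (min_le_left _ _)
  have s1 : ann B.H0 (min B.δ0 (min δ2 (2 * δ))) ⊆ ann B.H0 δ2 :=
    ann_mono ((min_le_right _ _).trans (min_le_left _ _))
  have s2 : ann B.H0 (min B.δ0 (min δ2 (2 * δ))) ⊆ ann B.H0 (2 * δ) :=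
    ann_mono ((min_le_right _ _).trans (min_le_right _ _))
  obtain ⟨t, t0, t1, t2, t3⟩ : ∃ t > 0, t ≤ κ ∧ ‖a‖ * t ≤ κ ∧ t ≤ μ / 2 := by
    refine ⟨min (μ / 2) (κ / (‖a‖ + 1)), by positivity, ?_, ?_, min_le_left _ _⟩
    · exact (min_le_right _ _).trans (div_le_self hκ.le (by linarith [norm_nonneg a]))
    · have := (le_div_iff₀ (by positivity)).1 (min_le_right (μ / 2) (κ / (‖a‖ + 1)))
      have : 0 < min (μ / 2) (κ / (‖a‖ + 1)) := by positivity
      nlinarith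
  refine ⟨min r (t / ((C + 1) * (K + 1))), lt_min h.r_pos (by positivity), min_le_left _ _,
    fun v hv lam hl hc no ne => ?_⟩
  have hv' : v ∈ RB η r := ⟨hv.1, hv.2.trans_le (min_le_left _ _)⟩
  have hl' : |lam - B.lam0| < r := hl.trans_le (min_le_left _ _)
  have sm : C * (sn (v - 0) + |lam - B.lam0|) ≤ t := by
    have b1 := hv.2.le.trans (min_le_right _ _)
    have b2 := hl.le.trans (min_le_right _ _)
    have b3 : sn (v - 0) + |lam - B.lam0| ≤ (K + 1) * (t / ((C + 1) * (K + 1))) := by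
      rw [sub_zero]
      nlinarith [(hsn v).2, mul_le_mul_of_nonneg_left b1 hK.le]
    calc _ ≤ (C + 1) * ((K + 1) * (t / ((C + 1) * (K + 1)))) :=
          mul_le_mul (by linarith) b3 (add_nonneg (hsn _).1 (abs_nonneg _)) (by linarith)
      _ = t := by field_simp
  obtain ⟨l1, l2⟩ := h.lip v hv' lam hl' 0 (touch_zero h.r_pos) B.lam0 (by simpa using h.r_pos)
  simp only [Emb, InjOn, not_forall] at ne
  obtain ⟨x, hx, y, hy, exy, nxy⟩ := ne
  obtain ⟨x1, y1, xy⟩ := hq (fun z => a * Fv B.toBase lam v z + b) (Hv B.toBase lam v)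
    (by rw [e0]; linarith)
    ((((h.dF v hv' lam hl').mono s2).const_mul a).add_const b)
    (fun z hz => by
      rw [e1 z (s1 hz), add_sub_add_right_eq_sub, ← mul_sub, norm_mul]
      exact (mul_le_mul_of_nonneg_left ((l2 z (s2 hz)).2.trans sm) (norm_nonneg _)).trans t2)
    (fun ⟨c, hc, d, hd, n, e⟩ => no ⟨c, hc, d, hd, n, mul_left_cancel₀ a0 (add_right_cancel e)⟩)
    x hx y hy nxy (by simp only [exy])
  have cm := h.cm v hv' true
  obtain ⟨p, hp, ep⟩ := touch_angle η.2 (half_pos B.m_pos) cm x1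
  obtain ⟨q, hq, eq⟩ := touch_angle η.2 (half_pos B.m_pos) cm y1
  have cl : ∀ s : ℝ, |(exp (I * thOf B.toBase v true s)).im - Real.sin (thr B.toBase true s)| ≤
      μ / 2 := fun s => by
    have := (h.thlip v hv' 0 (touch_zero h.r_pos) true s).1
    rw [thOf_zero, top3_re cm s, sym3_th, ← ofReal_sub, norm_real, Real.norm_eq_abs] at this
    rw [top3_re cm s, mul_comm, exp_ofReal_mul_I_im]
    refine (Real.abs_sin_sub_sin_le _ _).trans (this.trans ?_)
    nlinarith [mul_nonneg hC (abs_nonneg (lam - B.lam0))]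
  have cp := abs_le.1 (ep ▸ cl p)
  have cq := abs_le.1 (eq ▸ cl q)
  have bx := abs_le.1 ((abs_im_le_norm x).trans x1.le)
  have by' := abs_le.1 ((abs_im_le_norm y).trans y1.le)
  obtain ⟨p1, p2⟩ := touch_sin B.toBase true hp (half_pos hμ)
  obtain ⟨q1, q2⟩ := touch_sin B.toBase true hq (half_pos hμ)
  have m0 : 0 < μ / (4 * B.M) := by positivity
  have up : ∀ u : ℝ, μ / 2 ≤ 2 * B.M * u → μ / (4 * B.M) ≤ u := fun u k => by
    rw [div_le_iff₀ (by positivity)]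
    linarith
  have sg : (μ / (4 * B.M) ≤ Real.sin p ∧ μ / (4 * B.M) ≤ Real.sin q) ∨
      (μ / (4 * B.M) ≤ -Real.sin p ∧ μ / (4 * B.M) ≤ -Real.sin q) := by
    rcases pos_and_pos_or_neg_and_neg_of_mul_pos (hμ.trans_le xy) with ⟨u, w⟩ | ⟨u, w⟩
    · exact .inl ⟨up _ (p1 (by nlinarith)), up _ (q1 (by nlinarith))⟩
    · exact .inr ⟨up _ (by linarith [p2 (by nlinarith)]), up _ (by linarith [q2 (by nlinarith)])⟩
  refine ⟨p, q, abs_le.2 ⟨by linarith [hp.1, hq.2, Real.pi_lt_d2],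
    by linarith [hp.2, hq.1, Real.pi_lt_d2]⟩, ?_, ?_, ?_, fun e => nxy ?_, ?_⟩
  · exact sg.elim (fun k => k.1.trans (le_abs_self _)) fun k => k.1.trans (neg_le_abs _)
  · exact sg.elim (fun k => k.2.trans (le_abs_self _)) fun k => k.2.trans (neg_le_abs _)
  · exact sg.elim (fun k => mul_pos (m0.trans_le k.1) (m0.trans_le k.2)) fun k =>
      mul_pos_of_neg_of_neg (by linarith [k.1]) (by linarith [k.2])
  · obtain ⟨n, hn⟩ := exp_eq_exp_iff_exists_int.1 e
    have : p = q + n * (2 * Real.pi) := by simpa using congrArg im hn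
    rw [← ep, ← eq, this]
    exact (touch_per η.2 cm).int_mul n q
  · simp only [tv, ep, eq, exy]

/-- embedding and overlap survive small changes of a closed shape -/
theorem GeoOK.touch_open (h : GeoOK B η r δ C) {v : V η} (hv : v ∈ RB η r) {lam : ℝ}
    (hl : |lam - B.lam0| < r) (hc : Clo B.toBase lam v) : ∃ κ > 0, ∀ v' ∈ RB η r, ∀ lam' : ℝ,
      |lam' - B.lam0| < r → sn (v' - v) + |lam' - lam| ≤ κ →
      (Emb B.toBase lam v → Emb B.toBase lam' v') ∧ (Ovl B.toBase lam v → Ovl B.toBase lam' v') := by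
  have s1 := ann_sub h.δ_pos.le (h.modH v hv lam hl).2
  have s2 := (ann_mono (H := Hv B.toBase lam v) (half_le_self h.δ_pos.le)).trans s1
  obtain ⟨d1, d2⟩ := touch_prim (h.prim v hv lam hl hc)
  have hC := h.C_nonneg
  have key : ∀ P : (ℂ → ℂ) → ℝ → Prop, (P (Fv B.toBase lam v) (Hv B.toBase lam v) → ∃ κ > 0,
      ∀ (F' : ℂ → ℂ) (H' : ℝ), |H' - Hv B.toBase lam v| ≤ κ →
      DifferentiableOn ℂ F' (ann (Hv B.toBase lam v) (δ / 2)) →
      (∀ z ∈ ann (Hv B.toBase lam v) (δ / 2), ‖F' z - Fv B.toBase lam v z‖ ≤ κ) → P F' H') →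
      ∃ κ > 0, ∀ v' ∈ RB η r, ∀ lam' : ℝ, |lam' - B.lam0| < r → sn (v' - v) + |lam' - lam| ≤ κ →
        P (Fv B.toBase lam v) (Hv B.toBase lam v) →
        P (Fv B.toBase lam' v') (Hv B.toBase lam' v') := fun P k => by
    by_cases p : P (Fv B.toBase lam v) (Hv B.toBase lam v)
    · obtain ⟨κ, hκ, k⟩ := k p
      refine ⟨κ / (C + 1), by positivity, fun v' hv' lam' hl' sm _ => ?_⟩
      obtain ⟨l1, l2⟩ := h.lip v' hv' lam' hl' v hv lam hl
      have : C * (sn (v' - v) + |lam' - lam|) ≤ κ :=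
        (mul_le_mul_of_nonneg_left sm hC).trans (by
          rw [← mul_div_assoc, div_le_iff₀ (by positivity)]
          nlinarith)
      exact k _ _ (l1.trans this) ((h.dF v' hv' lam' hl').mono s2)
        fun z hz => (l2 z (s2 hz)).2.trans this
    · exact ⟨1, one_pos, fun _ _ _ _ _ q => absurd q p⟩
  obtain ⟨κ1, p1, k1⟩ := key (fun F H => InjOn F (cann H))
    (inj_open h.δ_pos (d1.mono s1) fun z hz => d2 z (s1 hz))
  obtain ⟨κ2, p2, k2⟩ := key Overlap (ovl_open h.δ_pos (d1.mono s1) fun z hz => d2 z (s1 hz))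
  exact ⟨min κ1 κ2, lt_min p1 p2, fun v' hv' lam' hl' sm =>
    ⟨k1 v' hv' lam' hl' (sm.trans (min_le_left _ _)),
      k2 v' hv' lam' hl' (sm.trans (min_le_right _ _))⟩⟩

theorem emb_open (hG : GeoOK B η r δ C) {v : V η} (hv : v ∈ RB η r) {lam : ℝ}
    (hl : |lam - B.lam0| < r) (hc : Clo B.toBase lam v) (he : Emb B.toBase lam v) :
    ∃ k > 0, ∀ v' ∈ RB η r, ∀ lam' : ℝ, |lam' - B.lam0| < r → sn (v' - v) + |lam' - lam| ≤ k →
      Emb B.toBase lam' v' :=
  let ⟨k, hk, h⟩ := hG.touch_open hv hl hc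
  ⟨k, hk, fun v' a lam' b c => (h v' a lam' b c).1 he⟩

theorem ovl_openV (hG : GeoOK B η r δ C) {v : V η} (hv : v ∈ RB η r) {lam : ℝ}
    (hl : |lam - B.lam0| < r) (hc : Clo B.toBase lam v) (he : Ovl B.toBase lam v) :
    ∃ k > 0, ∀ v' ∈ RB η r, ∀ lam' : ℝ, |lam' - B.lam0| < r → sn (v' - v) + |lam' - lam| ≤ k →
      Ovl B.toBase lam' v' :=
  let ⟨k, hk, h⟩ := hG.touch_open hv hl hc
  ⟨k, hk, fun v' a lam' b c => (h v' a lam' b c).2 he⟩

end StekIso
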