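import Pool.Agent.Lib.MP_fa022d_an.Base
import Pool.Agent.Lib.MP_fa022d_an.Touch
import Pool.Agent.Lib.MP_fa022d_an.Fwd
import Pool.Agent.Lib.MP_fa022d_an.GeoMain
import Pool.Agent.Lib.MP_fa022d_an.CurvMain
import Pool.Agent.Lib.MP_fa022d_an.KerMain
import Pool.Agent.Lib.MP_fa022d_an.SymMain
import Pool.Agent.Lib.MP_fa022d_an.HiMain
import Pool.Agent.Lib.MP_fa022d_an.Dirs
import Pool.Agent.Lib.MP_fa022d_an.Pi
import Pool.Agent.Lib.MP_fa022d_an.SoftD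
import Pool.Agent.Lib.MP_fa022d_an.LowPsi
import Pool.Agent.Lib.MP_fa022d_an.Fam
import Pool.Agent.Lib.MP_fa022d_an.PM
import Pool.Agent.Lib.MP_fa022d_an.Soft3

open Set Filter Topology Metric BoundedContinuousFunction Complex

noncomputable section
namespace StekIso

theorem RB.mono {η : Pos} {r r' : ℝ} (h : r ≤ r') {v : V η} (hv : v ∈ RB η r) : v ∈ RB η r' :=
  ⟨hv.1, hv.2.trans_le h⟩

theorem TouchOK.mono {B : GeoBase} {η : Pos} {μ r r' : ℝ} (h : TouchOK B η μ r) (h' : r' ≤ r) :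
    TouchOK B η μ r' := fun v hv lam hl => h v (RB.mono h' hv) lam (hl.trans_le h')

/-- from the soft data to the family of domains -/
theorem family_of_soft {B : GeoBase} {η : Pos} {r δ C CK δC CC μ ε lam ρ r' θ cut : ℝ}
    (hK : KerOK B.toBase η CK) (hG : GeoOK B η r δ C) (hC : CurvOK B.toBase η B.lam0 δC CC)
    (hT : TouchOK B η μ r') (h1 : r' ≤ r) (h2 : r' ≤ δC) (hl : |lam - B.lam0| < r') {x0 : X}
    {π : X → X} (hP : PiOK B.toBase η ε lam x0 ρ r' θ π)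
    (hs : SoftData (reB Idx) x0 ρ (Oset B.toBase η ε lam x0 ρ π) (Nset B.toBase η ε lam x0 ρ π)
      (WM B.toBase η.1) (tM η.1 ε)) {d : ℕ} {ψ : Fin d → X → ℂ}
    (d1 : ∀ i, DifferentiableOn ℂ (ψ i) (ball x0 ρ))
    (d2 : ∀ i, ∀ x ∈ (reB Idx : Set X) ∩ ball x0 ρ, (ψ i x).im = 0)
    (d3 : ∀ i, Insens (WM B.toBase η.1) (tM η.1 ε) (ball x0 ρ) (ψ i))
    (low : ∀ x ∈ (reB Idx : Set X) ∩ ball x0 ρ, ∀ x' ∈ (reB Idx : Set X) ∩ ball x0 ρ,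
      (∀ i, ψ i x = ψ i x') → ∀ σ : ℝ, σ < cut →
      Module.Finite ℂ (Ker (Sx B.toBase η ε lam (π x)) (lenf lam) σ) ∧
      Module.finrank ℂ (Ker (Sx B.toBase η ε lam (π x)) (lenf lam) σ) =
        Module.finrank ℂ (Ker (Sx B.toBase η ε lam (π x')) (lenf lam) σ))
    (high : ∀ σ : ℝ, cut ≤ σ → ∃ m : ℕ, ∀ x ∈ ball x0 ρ, x ∈ reB Idx →
      Module.Finite ℂ (Ker (Sx B.toBase η ε lam (π x)) (lenf lam) σ) ∧
      Module.finrank ℂ (Ker (Sx B.toBase η ε lam (π x)) (lenf lam) σ) = m) :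
    ∃ Φ : Family, (∀ τ, IsPlanarDomain (Φ.Ω τ)) ∧ ∀ τ τ', SteklovIsospectral (Φ.Ω τ) (Φ.Ω τ') := by
  obtain ⟨c, τ1, h0, hc, hO, hend, hout, hψ⟩ := soft_main' (isClosed_reB Idx) hs d1 d2 d3
  have hmem : ∀ τ ∈ Icc 0 τ1, c τ ∈ (reB Idx : Set X) ∩ ball x0 ρ := fun τ hτ => by
    rcases hτ.2.lt_or_eq with h | h
    · exact (hO τ ⟨hτ.1, h⟩).1
    · rw [h]; exact hend
  have hRB : ∀ x ∈ (reB Idx : Set X) ∩ ball x0 ρ, toV η ε (π x) ∈ RB η r' := fun x hx =>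
    ⟨toV_real η ε (hP.real x hx.2 hx.1), hP.small x hx.2⟩
  have hnN : c τ1 ∉ Nset B.toBase η ε lam x0 ρ π := fun hN => by
    have t1 : Tendsto c (𝓝[Ico 0 τ1] τ1) (𝓝 (c τ1)) :=
      (hc τ1 ⟨h0.le, le_rfl⟩).mono Ico_subset_Icc_self
    have : (𝓝[Ico 0 τ1] τ1).NeBot := right_nhdsWithin_Ico_neBot h0
    obtain ⟨τ, k1, k2⟩ := ((t1.eventually (hs.N_open _ hN)).and self_mem_nhdsWithin).exists
    exact hs.disj.notMem_of_mem_left (hO τ k2) (k1 (hO τ k2).1.1)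
  obtain ⟨p, q, -, -, -, -, hne, ht⟩ := hT _ (hRB _ hend) lam hl (hP.clo _ hend.2)
    (fun h => hnN ⟨hend, h⟩) (fun h => hout ⟨hend, h⟩)
  obtain ⟨Φ, hΦ⟩ := family_of_path hG (hl.trans_le h1) (v := fun τ => toV η ε (π (c τ))) h0
    ((toV η ε).continuous.comp_continuousOn
      (hP.diff.continuousOn.comp hc fun τ hτ => (hmem τ hτ).2))
    (fun τ hτ => ⟨RB.mono h1 (hRB _ (hmem τ hτ)), hP.clo _ (hmem τ hτ).2⟩)
    (fun τ hτ => (hO τ hτ).2) hne ht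
  refine ⟨Φ, fun τ => (hΦ τ).1, fun τ τ' σ => ?_⟩
  obtain ⟨t, ht1, e⟩ := (hΦ τ).2
  obtain ⟨t', ht2, e'⟩ := (hΦ τ').2
  have m1 := hmem t (Ico_subset_Icc_self ht1)
  have m2 := hmem t' (Ico_subset_Icc_self ht2)
  have hψ' : ∀ i, ψ i (c t) = ψ i (c t') := fun i =>
    (hψ t (Ico_subset_Icc_self ht1) i).trans (hψ t' (Ico_subset_Icc_self ht2) i).symm
  have key : ∀ t ∈ Ico 0 τ1,
      Module.Finite ℂ (Ker (Sx B.toBase η ε lam (π (c t))) (lenf lam) σ) →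
      Module.rank ℝ (steklovSpace (domV B.toBase lam (toV η ε (π (c t)))) σ) =
        Module.finrank ℂ (Ker (Sx B.toBase η ε lam (π (c t))) (lenf lam) σ) := fun t ht hf => by
    have m := hmem t (Ico_subset_Icc_self ht)
    refine rank_domV hK hG (hl.trans_le h1) (RB.mono h1 (hRB _ m)) ?_ (hP.clo _ m.2) (hO t ht).2 σ hf
    refine (hC.inH (_, _) ⟨mem_ball_zero_iff.2 ((hP.small _ m.2).trans_le h2), ?_⟩).trans_lt
      (by norm_num)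
    rw [mem_ball_iff_norm, ← ofReal_sub, norm_real]
    exact hl.trans_le h2
  rw [e, e']
  rcases lt_or_ge σ cut with h | h
  · rw [key t ht1 (low _ m1 _ m2 hψ' σ h).1, key t' ht2 (low _ m2 _ m2 (fun _ => rfl) σ h).1,
      (low _ m1 _ m2 hψ' σ h).2]
  · obtain ⟨m, hm⟩ := high σ h
    rw [key t ht1 (hm _ m1.2 m1.1).1, key t' ht2 (hm _ m2.2 m2.1).1, (hm _ m1.2 m1.1).2,
      (hm _ m2.2 m2.1).2]

/-- a closed shape near the base has a parameter in the ball -/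
theorem param_of {η : Pos} {ε ρ : ℝ} (hε : 0 < ε) {v : V η} (hv : v ∈ RB η (128 * ε * ρ))
    (N0 : ℕ) : ∃ x ∈ (reB Idx : Set X) ∩ ball (tail N0) ρ, toV η ε (x - tail N0) = v := by
  obtain ⟨y, h1, h2, h3⟩ := toV_surj hε hv.1
  refine ⟨tail N0 + y, ⟨add_mem (tail_real N0) h1, ?_⟩, by rw [add_sub_cancel_left, h2]⟩
  rw [mem_ball_iff_norm, add_sub_cancel_left]
  refine h3.trans_lt ?_
  rw [div_lt_iff₀ (by positivity)]
  linarith [hv.2]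

theorem exists_family :
    ∃ Φ : Family, (∀ τ, IsPlanarDomain (Φ.Ω τ)) ∧ ∀ τ τ', SteklovIsospectral (Φ.Ω τ) (Φ.Ω τ') := by
  obtain ⟨B, hB⟩ := exists_base
  obtain ⟨C0, hB0⟩ := base_ok B.toBase
  obtain ⟨μ, hμ, hT⟩ := touch_ok hB
  obtain ⟨η1, h1, hS⟩ := sym_main hB0 hB.asym hμ
  obtain ⟨η2, h2, hF⟩ := fwd_ok B
  have h3 := B.η0_pos
  let η : Pos := ⟨min η1 (min η2 (B.η0 / 12)), by positivity⟩
  have hη : 12 * η.1 ≤ B.η0 := by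
    have : η.1 ≤ B.η0 / 12 := (min_le_right _ _).trans (min_le_right _ _)
    linarith
  obtain ⟨Cs, c0, Ai, ϱ, hS⟩ := hS η.1 η.2 (min_le_left _ _)
  replace hF := hF η ((min_le_right _ _).trans (min_le_left _ _))
  obtain ⟨CK, hK⟩ := ker_ok hB0 hη
  have hH := Hof_base B η
  obtain ⟨δC, CC, hC⟩ := curv_ok hB0 hη hK hH
  obtain ⟨r, δ, C, hG⟩ := geo_ok B hη hK
  obtain ⟨r1, hr1, hr1', hT⟩ := hT η r δ C hG
  obtain ⟨e1, e2, hD⟩ := exists_dirs hB hG hC hF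
  obtain ⟨K, hK1, A, hA, hPi⟩ := pi_main hC hS hD (clo_base hG).2
  obtain ⟨C1, hC1, hHi⟩ := hi_main hK hS hH
  have hc0 := hS.c0_pos
  have hδC := hC.δ_pos
  obtain ⟨δ1, hδ1, hδ1', ε0, hε0, hHi⟩ := hHi (c0 / 64 / K) (by positivity)
  obtain ⟨r', hr', k1, k2⟩ : ∃ r' > 0, r' ≤ r1 ∧ r' ≤ δC :=
    ⟨min r1 δC, by positivity, min_le_left _ _, min_le_right _ _⟩
  obtain ⟨ρ, hρ, ε1, hε1, hPi⟩ := hPi C1 δ1 (c0 / 64 / K) r' hC1 hδ1 hδ1' (by positivity) hr'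
  obtain ⟨ε, hε, k3, k4⟩ : ∃ ε > 0, ε ≤ ε0 ∧ ε ≤ ε1 :=
    ⟨min ε0 ε1, by positivity, min_le_left _ _, min_le_right _ _⟩
  obtain ⟨κ, hκ, -, hPi⟩ := hPi ε hε k4
  have k5 : r' ≤ r := k1.trans hr1'
  -- the overlapping and the embedded neighbour
  obtain ⟨a, ha, a1, a2⟩ : ∃ a > 0, a ≤ 128 * ε * ρ ∧ a ≤ r :=
    ⟨min (128 * ε * ρ) r, lt_min (by positivity) hG.r_pos, min_le_left _ _, min_le_right _ _⟩
  obtain ⟨vm, m1, m2, m3⟩ := exists_minus hB hG hF ha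
  obtain ⟨km, hkm, m4⟩ := ovl_openV hG (RB.mono a2 m1) (by simpa using hG.r_pos) m2 m3
  obtain ⟨b, hb, b1, b2, b3, b4, b5⟩ : ∃ b > 0, b ≤ a ∧ 2 * b ≤ κ ∧ 2 * b ≤ ε0 ∧ 2 * b ≤ r' ∧
      (A + 1) * (2 * b) ≤ km / 2 := by
    refine ⟨min a (min (κ / 2) (min (ε0 / 2) (min (r' / 2) (km / (4 * (A + 1)))))), by positivity,
      min_le_left _ _, ?_⟩
    set b := min a (min (κ / 2) (min (ε0 / 2) (min (r' / 2) (km / (4 * (A + 1)))))) with hb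
    have h : b ≤ b := le_rfl
    rw [hb, le_min_iff, le_min_iff, le_min_iff, le_min_iff, ← hb,
      le_div_iff₀ (show (0 : ℝ) < 4 * (A + 1) by positivity)] at h
    exact ⟨by linarith, by linarith, by linarith, by linarith⟩
  obtain ⟨vp, p1, lp, p2, p3, p4⟩ := exists_plus hB hG hF hb
  obtain ⟨kp, hkp, p5⟩ := emb_open hG (RB.mono (b1.trans a2) p1) (p2.trans_le (b1.trans a2)) p3 p4
  obtain ⟨k, hk, q1, q2⟩ : ∃ k > 0, k ≤ b ∧ (A + 1) * k ≤ kp / 2 := by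
    refine ⟨min b (kp / (2 * (A + 1))), by positivity, min_le_left _ _, ?_⟩
    have := (le_div_iff₀ (show (0 : ℝ) < 2 * (A + 1) by positivity)).1
      (min_le_right b (kp / (2 * (A + 1))))
    linarith
  obtain ⟨lam, l1, c, hc, -, -, -, hsep⟩ := exists_sep (lp - k) (lp + k) (by linarith)
  have l2 : |lam - lp| < k := abs_lt.2 ⟨by linarith [l1.1], by linarith [l1.2]⟩
  have l3 : |lam - B.lam0| < 2 * b := by
    have := abs_sub_le lam lp B.lam0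
    linarith
  obtain ⟨N0, hN0, Nc, hPi⟩ := hPi lam (by linarith) (min km kp / 2) (by positivity)
  obtain ⟨n0, hHi⟩ := hHi ε hε k3 lam (by linarith) c hc hsep N0 hN0 Nc
  obtain ⟨n1, hL⟩ := low_psi hK hC (show |lam - B.lam0| < δC by linarith) hc hsep
  obtain ⟨π1, hR, hhi⟩ := hHi (max n0 n1) (le_max_left _ _)
  obtain ⟨π2, s1, hP, s2⟩ := hPi π1 hR
  obtain ⟨d, ψ, d1, d2, d3, d4⟩ := hL (max n0 n1) (le_max_right _ _) ε ρ r' _ _ _ k2 hP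
  have hl : |lam - B.lam0| < r' := by linarith
  have hRB : ∀ x ∈ (reB Idx : Set X) ∩ ball (tail N0) ρ, toV η ε (π1 (π2 x)) ∈ RB η r :=
    fun x hx => ⟨toV_real η ε (hP.real x hx.2 hx.1), (hP.small x hx.2).trans_le k5⟩
  have o1 := min_le_left km kp
  have o2 := min_le_right km kp
  refine family_of_soft hK hG hC (hT.mono k1) k5 k2 hl hP
    (soft_data hG hC hS (hT.mono k1) k5 k2 hl hP (le_of_eq (by field_simp)) ?_ ?_) d1 d2 d3 d4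
    fun σ hσ => (hhi σ hσ).imp fun m hm x hx hx' => hm _ (s1 x hx).1 ((s1 x hx).2 hx')
  · obtain ⟨x, hx, e⟩ := param_of hε (RB.mono (b1.trans a1) p1) N0
    refine ⟨x, hx, p5 _ (hRB x hx) lam (hl.trans_le k5) ?_⟩
    have := s2 x hx.2 hx.1 lp (by linarith) (e ▸ p3)
    rw [e] at this
    nlinarith [abs_nonneg (lam - lp)]
  · obtain ⟨x, hx, e⟩ := param_of hε (RB.mono a1 m1) N0
    refine ⟨x, hx, m4 _ (hRB x hx) lam (hl.trans_le k5) ?_⟩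
    have := s2 x hx.2 hx.1 B.lam0 (by simpa using hκ.le) (e ▸ m2)
    rw [e] at this
    nlinarith [abs_nonneg (lam - B.lam0)]

theorem main : ∃ (Ω : ℝ → Set ℂ) (P : ∀ τ, BdryParam (Ω τ) 2),
    (∀ τ, IsPlanarDomain (Ω τ)) ∧
    (∀ i, Continuous fun z : ℝ × ℝ => (P z.1).γ i z.2) ∧
    (∀ τ τ', SteklovIsospectral (Ω τ) (Ω τ')) ∧
    (¬∃ T : Set ℝ, T.Countable ∧ ∀ τ, ∃ t ∈ T, Congruent (Ω τ) (Ω t)) ∧
    ¬SmoothCompact {Ω' | IsPlanarDomain Ω' ∧ SteklovIsospectral Ω' (Ω 0)} := by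
  obtain ⟨Φ, h1, h2⟩ := exists_family
  exact ⟨Φ.Ω, Φ.P, h1, Φ.cont, h2, Φ.uncountable, Φ.not_compact fun τ => ⟨h1 τ, h2 τ 0⟩⟩

end StekIso
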