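import Pool.Agent.Lib.MP_fa022d_an.Pi1
import Pool.Agent.Lib.MP_fa022d_an.Hol
import Pool.Agent.Lib.MP_fa022d_an.Hol3

/-! The closing defect in real coordinates. -/

open Set Filter Topology Metric BoundedContinuousFunction Complex

noncomputable section
namespace StekIso
variable {η : Pos} {B : Base} {lam0 δ C : ℝ}

/-- from a number and its conjugate to real and imaginary part -/
def piL : (ℂ × ℂ) →L[ℂ] (ℂ × ℂ) :=
  ((1 / 2 : ℂ) • (ContinuousLinearMap.fst ℂ ℂ ℂ + ContinuousLinearMap.snd ℂ ℂ ℂ)).prod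
    ((-I / 2 : ℂ) • (ContinuousLinearMap.fst ℂ ℂ ℂ - ContinuousLinearMap.snd ℂ ℂ ℂ))

theorem piL_apply (a b : ℂ) : piL (a, b) = (1 / 2 * (a + b), -I / 2 * (a - b)) := rfl

theorem piL_le (a b : ℂ) : ‖piL (a, b)‖ ≤ (‖a‖ + ‖b‖) / 2 := by
  rw [piL_apply, Prod.norm_def]
  refine max_le ?_ ?_
  · simp only [norm_mul, norm_div, norm_one, Complex.norm_ofNat]
    linarith [norm_add_le a b]
  · simp only [norm_mul, norm_div, norm_neg, norm_I, Complex.norm_ofNat]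
    linarith [norm_sub_le a b]

/-- the closing defect -/
def Psi (B : Base) (z : V η × ℂ) : ℂ × ℂ := piL (Cp (kapV B z), Cm (kapV B z))

/-- real pairs -/
def reP : Submodule ℝ (ℂ × ℂ) where
  carrier := {p | p.1.im = 0 ∧ p.2.im = 0}
  add_mem' := fun {x y} hx hy => by simp [hx.1, hx.2, hy.1, hy.2]
  zero_mem' := by simp
  smul_mem' := fun c x hx => by simp [hx.1, hx.2]

theorem reP_closed : IsClosed (reP : Set (ℂ × ℂ)) :=
  (isClosed_eq (by fun_prop) continuous_const).inter (isClosed_eq (by fun_prop) continuous_const)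

theorem pi2_dom (η : Pos) (lam0 δ : ℝ) : domC η lam0 δ = ball ((0 : V η), (lam0 : ℂ)) δ :=
  ball_prod_same _ _ _

theorem pi2_open : IsOpen (domC η lam0 δ) := by rw [pi2_dom]; exact isOpen_ball

theorem Psi_diff (h : CurvOK B η lam0 δ C) : DifferentiableOn ℂ (Psi B) (domC η lam0 δ) :=
  piL.differentiable.comp_differentiableOn (h.dCp.prodMk h.dCm)

theorem Psi_le (B : Base) (z : V η × ℂ) :
    ‖Psi B z‖ ≤ (‖Cp (kapV B z)‖ + ‖Cm (kapV B z)‖) / 2 := piL_le _ _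

theorem Psi_bd (h : CurvOK B η lam0 δ C) : ∀ z ∈ domC η lam0 δ, ‖Psi B z‖ ≤ C := fun z hz =>
  (Psi_le B z).trans (by linarith [(h.bCp z hz).1, (h.bCp z hz).2])

theorem Psi_fderiv (h : CurvOK B η lam0 δ C) {z : V η × ℂ} (hz : z ∈ domC η lam0 δ)
    (w : V η × ℂ) : fderiv ℂ (Psi B) z w =
      piL (fderiv ℂ (fun z => Cp (kapV B z)) z w, fderiv ℂ (fun z => Cm (kapV B z)) z w) := by
  have h1 := (h.dCp.differentiableAt (pi2_open.mem_nhds hz)).hasFDerivAt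
  have h2 := (h.dCm.differentiableAt (pi2_open.mem_nhds hz)).hasFDerivAt
  have : HasFDerivAt (Psi B) _ z := piL.hasFDerivAt.comp z (h1.prodMk h2)
  rw [this.fderiv]; rfl

theorem Psi_ins (h : CurvOK B η lam0 δ C) {z : V η × ℂ} (hz : z ∈ domC η lam0 δ) (w : V η) :
    ‖fderiv ℂ (Psi B) z (w, 0)‖ ≤ C * pn w := by
  rw [Psi_fderiv h hz]
  exact (piL_le _ _).trans (by linarith [(h.ins z hz w).1, (h.ins z hz w).2])

theorem pi2_mem0 (h : CurvOK B η lam0 δ C) : ((0 : V η), (lam0 : ℂ)) ∈ domC η lam0 δ := by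
  rw [pi2_dom]; exact mem_ball_self h.δ_pos

theorem Psi_dirs (h : CurvOK B η lam0 δ C) {e1 e2 : V η} (hD : Dirs B lam0 e1 e2) (a b : ℂ) :
    fderiv ℂ (Psi B) ((0 : V η), (lam0 : ℂ)) (a • e1 + b • e2, 0) = (a, b) := by
  have e : ((a • e1 + b • e2, 0) : V η × ℂ) = a • (e1, 0) + b • (e2, 0) := by simp
  rw [Psi_fderiv h (pi2_mem0 h), e]
  simp only [map_add, map_smul, hD.p1, hD.m1, hD.p2, hD.m2, piL_apply, smul_eq_mul]
  refine Prod.ext (by simp only []; ring) ?_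
  simp only []
  linear_combination (-b) * I_mul_I

theorem pi2_conj {κ : ℤ → ℂ} (h : ∀ s, (vth κ s).im = 0) : Cm κ = (starRingEnd ℂ) (Cp κ) := by
  unfold Cm Cp fc
  rw [map_mul, ← intervalIntegral.intervalIntegral_conj]
  congr 1
  · simp [map_ofNat]
  · refine intervalIntegral.integral_congr fun s _ => ?_
    simp [← Complex.exp_conj, Complex.conj_eq_iff_im.2 (h s)]

theorem Psi_real (h : CurvOK B η lam0 δ C) {v : V η} {lam : ℝ}
    (hz : (v, (lam : ℂ)) ∈ domC η lam0 δ) (hv : RealV v) : Psi B (v, (lam : ℂ)) ∈ reP := by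
  rw [Psi, pi2_conj (h.real _ hz hv (Complex.ofReal_im lam)), piL_apply]
  constructor
  · simp
  · simp

theorem Psi_clo {v : V η} {lam : ℝ} (h : Psi B (v, (lam : ℂ)) = 0) : Clo B lam v := by
  rw [Psi, piL_apply, Prod.mk_eq_zero] at h
  unfold Clo
  linear_combination h.1 + I * h.2 + (Cp (kapV B (v, (lam : ℂ))) - Cm (kapV B (v, (lam : ℂ)))) / 2 *
    I_mul_I

theorem Psi_zero (h : CurvOK B η lam0 δ C) {v : V η} {lam : ℝ}
    (hz : (v, (lam : ℂ)) ∈ domC η lam0 δ) (hv : RealV v) (h0 : Clo B lam v) :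
    Psi B (v, (lam : ℂ)) = 0 := by
  rw [Psi, pi2_conj (h.real _ hz hv (Complex.ofReal_im lam)), h0, map_zero]
  exact map_zero piL

/-- Lipschitz bound in the weak norm -/
theorem Psi_lip (h : CurvOK B η lam0 δ C) {v v' : V η} {l : ℂ} (hz : (v, l) ∈ domC η lam0 δ)
    (hz' : (v', l) ∈ domC η lam0 δ) : ‖Psi B (v, l) - Psi B (v', l)‖ ≤ C * pn (v - v') := by
  have cv : Convex ℝ (domC η lam0 δ) := by rw [pi2_dom]; exact convex_ball _ _
  have m (t : ℝ) (ht : t ∈ Icc (0 : ℝ) 1) :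
      (v', l) + (t : ℂ) • ((v - v', 0) : V η × ℂ) ∈ domC η lam0 δ := by
    have := cv.add_smul_sub_mem hz' hz ht
    simpa using this
  have d (t : ℝ) (ht : t ∈ Icc (0 : ℝ) 1) :
      HasDerivAt (fun t : ℝ => Psi B ((v', l) + (t : ℂ) • ((v - v', 0) : V η × ℂ)))
        (fderiv ℂ (Psi B) ((v', l) + (t : ℂ) • ((v - v', 0) : V η × ℂ)) (v - v', 0)) t := by
    have a : HasDerivAt (fun s : ℂ => (v', l) + s • ((v - v', 0) : V η × ℂ)) (v - v', 0) t := by
      simpa using ((hasDerivAt_id (t : ℂ)).smul_const ((v - v', 0) : V η × ℂ)).const_add (v', l)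
    have b := ((Psi_diff h).differentiableAt (pi2_open.mem_nhds (m t ht))).hasFDerivAt
    have c := HasFDerivAt.comp_hasDerivAt (𝕜 := ℂ) (t : ℂ) b a
    have r : HasDerivAt (fun s : ℝ => (s : ℂ)) 1 t := Complex.ofRealCLM.hasDerivAt
    have u := c.scomp t r
    rw [one_smul] at u
    exact u
  have := norm_image_sub_le_of_norm_deriv_le_segment_01'
    (fun t ht => (d t ht).hasDerivWithinAt) fun t ht => Psi_ins h (m t (Ico_subset_Icc_self ht)) _
  simpa using this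

theorem Psi_lam (h : CurvOK B η lam0 δ C) {v : V η} (hv : ‖v‖ ≤ δ / 2) {lam lam' : ℝ}
    (hl' : |lam' - lam0| ≤ δ / 2) (hl : |lam - lam'| < δ / 2) :
    ‖Psi B (v, (lam : ℂ)) - Psi B (v, (lam' : ℂ))‖ ≤ 4 * C / δ * |lam - lam'| := by
  have n (a b : V η) (s t : ℝ) :
      ‖((a, (s : ℂ)) : V η × ℂ) - (b, (t : ℂ))‖ = max ‖a - b‖ |s - t| := by
    rw [Prod.mk_sub_mk, Prod.norm_def, ← Complex.ofReal_sub, Complex.norm_real, Real.norm_eq_abs]
  have sub : ball ((v, (lam' : ℂ)) : V η × ℂ) (δ / 2) ⊆ domC η lam0 δ := by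
    rw [pi2_dom]
    refine ball_subset_ball' ?_
    rw [dist_eq_norm, n, sub_zero]
    linarith [max_le hv hl']
  have n1 : ‖((v, (lam : ℂ)) : V η × ℂ) - (v, (lam' : ℂ))‖ = |lam - lam'| := by
    rw [n, sub_self, norm_zero, max_eq_right (abs_nonneg _)]
  have := Pool.Agent.Lib.MP_fa022d_an.hol_sub_le ((Psi_diff h).mono sub)
    (fun w hw => Psi_bd h w (sub hw)) (z := (v, (lam : ℂ)))
    (by rw [mem_ball_iff_norm, n1]; exact hl)
  rw [n1] at this
  exact this.trans (le_of_eq (by ring))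

theorem Psi_dlip (h : CurvOK B η lam0 δ C) {z : V η × ℂ}
    (hz : ‖z - ((0 : V η), (lam0 : ℂ))‖ < δ / 2) :
    ‖fderiv ℂ (Psi B) z - fderiv ℂ (Psi B) ((0 : V η), (lam0 : ℂ))‖ ≤
      16 * C / δ ^ 2 * ‖z - ((0 : V η), (lam0 : ℂ))‖ :=
  cauchy_fderiv_lip h.δ_pos (pi2_dom η lam0 δ ▸ Psi_diff h) (pi2_dom η lam0 δ ▸ Psi_bd h) z
    (mem_ball_iff_norm.2 hz) _ (mem_ball_self (half_pos h.δ_pos))

end StekIso
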