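import Pool.Agent.Lib.MP_fa022d_an.Defs6
import Pool.Agent.Lib.MP_fa022d_an.Top3
import Pool.Agent.Lib.MP_fa022d_an.KExt
import Pool.Agent.Lib.MP_fa022d_an.Ev

/-! Pushing a touching pair into an overlap, at the level of the perturbation. -/

open Set Filter Topology Metric BoundedContinuousFunction Complex

noncomputable section
namespace StekIso
variable {η : Pos} {B : GeoBase} {r δ C δ1 C1 lam : ℝ}

theorem pu1_co (v : A1 η) (k : ℤ) : ‖v.coeff k‖ ≤ ‖v‖ * ex η.1 k := by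
  refine (norm_coeff1_le v k).trans (mul_le_mul (by linarith [norm_nonneg v])
    (div_le_self (ex_pos _ _).le (one_le_pow₀ (one_le_br k))) (beta_pos _ _).le (norm_nonneg _))

theorem pu1_sum {a : ℝ} (ha : 0 < a) : Summable fun b : Idx => ex a b.2 :=
  (summable_prod_of_nonneg fun b => (ex_pos a b.2).le).2 ⟨fun _ => four3_sum ha, .of_finite⟩

theorem pu1_sn (η : Pos) : ∃ K, ∀ w : V η, ‖sn w‖ ≤ ‖w‖ * K :=
  ⟨_, fun w => tsum_of_norm_bounded ((pu1_sum (half_pos η.2)).hasSum.mul_left ‖w‖) fun b => by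
    rw [Real.norm_of_nonneg (mul_nonneg (norm_nonneg _) (ex_pos _ _).le)]
    refine (mul_le_mul_of_nonneg_right ((pu1_co _ _).trans (mul_le_mul_of_nonneg_right
      (norm_le_pi_norm w b.1) (ex_pos _ _).le)) (ex_pos _ _).le).trans (le_of_eq ?_)
    rw [mul_assoc, four2_ex]
    congr 2
    ring⟩

theorem pu1_td {ι : Type} {l : Filter ι} {v : ι → V η} {v0 : V η} (h : Tendsto v l (𝓝 v0))
    (C : ℝ) : Tendsto (fun i => C * sn (v i - v0)) l (𝓝 0) := by
  obtain ⟨K, hK⟩ := pu1_sn η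
  have a := (tendsto_iff_norm_sub_tendsto_zero.1 h).mul_const K
  rw [zero_mul] at a
  simpa using (squeeze_zero_norm (fun i => hK (v i - v0)) a).const_mul C

theorem pu1_l1s (v : A1 η) : Summable fun k => ‖v.coeff k‖ :=
  .of_nonneg_of_le (fun _ => norm_nonneg _) (pu1_co v) ((four3_sum η.2).mul_left _)

theorem pu1_hil (w w' : V η) (s : ℝ) :
    ‖hil (w true).coeff s - hil (w' true).coeff s‖ ≤ l1n (w - w') := by
  have t : ∀ (c : ℂ) (k : ℤ), ‖-I * Int.sign k * c * exp (I * k * s)‖ ≤ ‖c‖ := fun c k => by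
    rw [norm_mul, (four1_norm k s).1, mul_one, norm_mul, norm_mul, norm_neg, norm_I, one_mul]
    refine mul_le_of_le_one_left (norm_nonneg _) ?_
    rcases lt_trichotomy k 0 with h | h | h
    · simp [Int.sign_eq_neg_one_of_neg h]
    · simp [h]
    · simp [Int.sign_eq_one_of_pos h]
  have u : ∀ v : A1 η, Summable fun k : ℤ => -I * Int.sign k * v.coeff k * exp (I * k * s) :=
    fun v => .of_norm_bounded (pu1_l1s v) fun k => t _ k
  rw [hil, hil, fs, fs, ← (u _).tsum_sub (u _)]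
  refine (tsum_of_norm_bounded (pu1_l1s ((w - w') true)).hasSum fun k => ?_).trans ?_
  · refine le_of_eq_of_le ?_ (t _ k)
    rw [Pi.sub_apply, WAlg.coeff_sub]
    congr 1
    ring
  · exact Summable.tsum_le_tsum_of_inj (fun k => ((true, k) : Idx))
      (fun a b h => (Prod.ext_iff.1 h).2) (fun b _ => norm_nonneg _) (fun k => le_rfl)
      (pu1_l1s _) ((summable_prod_of_nonneg fun b => norm_nonneg _).2
        ⟨fun i => pu1_l1s ((w - w') i), .of_finite⟩)

theorem pu1_norm (hG : GeoOK B η r δ C) {v : V η} (hv : v ∈ RB η r) (s : ℝ) :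
    ‖tv B.toBase v s‖ = 1 := by
  rw [tv, Complex.norm_exp]
  simp [(hG.cm v hv true).real s]

theorem pu1_mem (hG : GeoOK B η r δ C) {z : ℂ} (hz : ‖z‖ = 1) : z ∈ ann B.H0 (2 * δ) :=
  cann_sub (by linarith [hG.δ_pos]) (top2_one (by linarith [B.big]) hz)

theorem pu1_ne (hG : GeoOK B η r δ C) {v : V η} (hv : v ∈ RB η r) {p q : ℝ}
    (h : exp (I * p) ≠ exp (I * q)) : tv B.toBase v p ≠ tv B.toBase v q := fun e => by
  obtain ⟨n, hn⟩ := kext_exp.1 e
  have := kext_far (hG.cm v hv true) (four3_mem0 η.2 p) (four3_mem0 η.2 q) n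
  rw [hn, add_sub_cancel_left, sub_self, norm_zero] at this
  have m := half_pos B.m_pos
  have z : (p : ℂ) - q - n * (2 * Real.pi) = 0 :=
    norm_le_zero_iff.1 (le_of_mul_le_mul_left (by rwa [mul_zero]) m)
  exact h (kext_exp.2 ⟨n, by linear_combination z⟩)

theorem pu1_tan (hG : GeoOK B η r δ C) {v : V η} (hv : v ∈ RB η r) (hl : |lam - B.lam0| < r)
    (hc : Clo B.toBase lam v) (s : ℝ) :
    exp (I * vth (kapV B.toBase (v, (lam : ℂ))) s) = rot B.toBase lam v * I *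
      (tv B.toBase v s * deriv (Fv B.toBase lam v) (tv B.toBase v s) /
        ‖deriv (Fv B.toBase lam v) (tv B.toBase v s)‖) := by
  have f := hG.fits v hv lam hl true s
  have e : tau (thOf B.toBase v) (Hv B.toBase lam v) true s = tv B.toBase v s := by
    simp [tau, rad, tv]
  rw [e] at f
  simp only [rad, lenf, if_true, mul_one] at f
  rw [(hG.tan v hv lam hl).2 s, vel,
    (hG.prim v hv lam hl hc _ (pu1_mem hG (pu1_norm hG hv s))).deriv,
    top3_dreal η.2 (hG.cm v hv true), eq_one_div_of_mul_eq_one_right f]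
  push_cast
  ring

theorem pu1_H (hG : GeoOK B η r δ C) {v : V η} (hv : v ∈ RB η r) (hl : |lam - B.lam0| < r) :
    0 < Hv B.toBase lam v ∧ ann (Hv B.toBase lam v) δ ⊆ ann B.H0 (2 * δ) := by
  have h := (hG.modH v hv lam hl).2
  exact ⟨by linarith [(abs_le.1 h).1, B.big, hG.δ_le], ann_sub hG.δ_pos.le h⟩

theorem pu1_d0 (hG : GeoOK B η r δ C) {v : V η} (hv : v ∈ RB η r) (hl : |lam - B.lam0| < r)
    (hc : Clo B.toBase lam v) : ∀ z ∈ ann B.H0 (2 * δ), deriv (Fv B.toBase lam v) z ≠ 0 :=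
  fun z hz => by rw [(hG.prim v hv lam hl hc z hz).deriv]; exact exp_ne_zero _

/-- opposite tangents at a touching pair -/
theorem pu1_opp (hG : GeoOK B η r δ C) {v : V η} (hv : v ∈ RB η r) (hl : |lam - B.lam0| < r)
    (hc : Clo B.toBase lam v) (hn : ¬Ovl B.toBase lam v) {p q : ℝ}
    (h : exp (I * p) ≠ exp (I * q))
    (he : Fv B.toBase lam v (tv B.toBase v p) = Fv B.toBase lam v (tv B.toBase v q)) :
    exp (I * vth (kapV B.toBase (v, (lam : ℂ))) p) =
      -exp (I * vth (kapV B.toBase (v, (lam : ℂ))) q) := by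
  obtain ⟨a, b⟩ := pu1_H hG hv hl
  rw [pu1_tan hG hv hl hc, pu1_tan hG hv hl hc, touch_opp a hG.δ_pos ((hG.dF v hv lam hl).mono b)
    (fun z hz => pu1_d0 hG hv hl hc z (b hz)) hn (pu1_norm hG hv p) (pu1_norm hG hv q)
    (pu1_ne hG hv h) he, mul_neg]

theorem pu1_dom {lam0 : ℝ} {v : V η} (hv : ‖v‖ < δ1) (hl : |lam - lam0| < δ1) :
    domC η lam0 δ1 ∈ 𝓝 (v, (lam : ℂ)) := by
  refine (isOpen_ball.prod isOpen_ball).mem_nhds ⟨mem_ball_zero_iff.2 hv, ?_⟩
  rw [mem_ball_iff_norm, ← ofReal_sub, Complex.norm_real]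
  exact hl

section
variable {ι : Type} {l : Filter ι} {v : ι → V η} {v0 : V η}

theorem pu1_th (hG : GeoOK B η r δ C) (h0 : v0 ∈ RB η r) (h : Tendsto v l (𝓝 v0))
    (hv : ∀ᶠ i in l, v i ∈ RB η r) (s : ℝ) :
    Tendsto (fun i => tv B.toBase (v i) s) l (𝓝 (tv B.toBase v0 s)) ∧
      Tendsto (fun i => deriv (thOf B.toBase (v i) true) s) l
        (𝓝 (deriv (thOf B.toBase v0 true) s)) :=
  ⟨((tendsto_sub_nhds_zero_iff.1 (squeeze_zero_norm'
      (hv.mono fun _ hi => (hG.thlip _ hi _ h0 true s).1) (pu1_td h C))).const_mul I).cexp,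
    tendsto_sub_nhds_zero_iff.1 (squeeze_zero_norm'
      (hv.mono fun _ hi => (hG.thlip _ hi _ h0 true s).2) (pu1_td h C))⟩

theorem pu1_rot (hG : GeoOK B η r δ C) (hC : CurvOK B.toBase η B.lam0 δ1 C1) (hr : ‖v0‖ < δ1)
    (hl' : |lam - B.lam0| < δ1) (hl : |lam - B.lam0| < r) (h0 : v0 ∈ RB η r)
    (h : Tendsto v l (𝓝 v0))
    (hv : ∀ᶠ i in l, v i ∈ RB η r) :
    Tendsto (fun i => rot B.toBase lam (v i)) l (𝓝 (rot B.toBase lam v0)) := by
  obtain ⟨a, b⟩ := pu1_th hG h0 h hv 0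
  have c := ((hC.cont 0).continuousAt (pu1_dom hr hl')).tendsto.comp
    (h.prodMk_nhds tendsto_const_nhds)
  have d := ((hG.dG v0 h0 lam hl).continuousOn.continuousAt ((isOpen_ann _ _).mem_nhds
    (pu1_mem hG (pu1_norm hG h0 0)))).tendsto.comp a
  have e : Tendsto (fun i => Gv B.toBase lam (v i) (tv B.toBase (v i) 0) -
      Gv B.toBase lam v0 (tv B.toBase (v i) 0)) l (𝓝 0) :=
    squeeze_zero_norm' (hv.mono fun i hi => by
      simpa using ((hG.lip _ hi lam hl _ h0 lam hl).2 _ (pu1_mem hG (pu1_norm hG hi 0))).1)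
      (pu1_td h C)
  have f := e.add d
  simp only [Function.comp, sub_add_cancel, zero_add] at f
  refine (c.const_mul I).cexp.div (f.cexp.mul ((a.const_mul I).mul b)) fun z => ?_
  have := (hG.tan v0 h0 lam hl).1
  rw [rot, z, div_zero, norm_zero] at this
  exact zero_ne_one this

/-- a chord that opens to the inner side gives an overlap -/
theorem pu1_push (hG : GeoOK B η r δ C) (hC : CurvOK B.toBase η B.lam0 δ1 C1) (hr : ‖v0‖ < δ1)
    (hl' : |lam - B.lam0| < δ1) (hl : |lam - B.lam0| < r) (h0 : v0 ∈ RB η r)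
    (c0 : Clo B.toBase lam v0)
    (h : Tendsto v l (𝓝 v0)) (hv : ∀ᶠ i in l, v i ∈ RB η r)
    (hc : ∀ᶠ i in l, Clo B.toBase lam (v i)) {p q : ℝ} (hne : exp (I * p) ≠ exp (I * q))
    {τ : ι → ℝ} (τ0 : Tendsto τ l (𝓝[>] 0)) {D : ℂ}
    (hD : Tendsto (fun i => chord (kapV B.toBase (v i, (lam : ℂ))) p q / τ i) l (𝓝 D))
    (pos : 0 < (D * (starRingEnd ℂ) (exp (I * vth (kapV B.toBase (v0, (lam : ℂ))) q))).im) :
    ∀ᶠ i in l, Ovl B.toBase lam (v i) := by
  obtain ⟨a, b⟩ := pu1_H hG h0 hl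
  have r1 := (hG.tan v0 h0 lam hl).1
  have r0 : rot B.toBase lam v0 ≠ 0 := fun z => by rw [z, norm_zero] at r1; exact zero_ne_one r1
  have neg : (D / rot B.toBase lam v0 * (starRingEnd ℂ) (tv B.toBase v0 q *
      deriv (Fv B.toBase lam v0) (tv B.toBase v0 q))).re < 0 := by
    have n := norm_pos_iff.2 (pu1_d0 hG h0 hl c0 _ (pu1_mem hG (pu1_norm hG h0 q)))
    rw [pu1_tan hG h0 hl c0, map_mul, map_mul, map_div₀, conj_ofReal, conj_I,
      ← inv_eq_conj r1] at pos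
    generalize (starRingEnd ℂ) (tv B.toBase v0 q *
      deriv (Fv B.toBase lam v0) (tv B.toBase v0 q)) = w at pos ⊢
    generalize ‖deriv (Fv B.toBase lam v0) (tv B.toBase v0 q)‖ = t at pos n
    rw [show D * ((rot B.toBase lam v0)⁻¹ * -I * (w / t)) =
      -(D / rot B.toBase lam v0 * w * I) / t by ring, div_ofReal_im, neg_im, mul_I_im] at pos
    have := (div_pos_iff_of_pos_right n).1 pos
    linarith
  obtain ⟨κ, κ0, hκ⟩ := push_overlap a hG.δ_pos ((hG.dF v0 h0 lam hl).mono b)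
    (fun z hz => pu1_d0 hG h0 hl c0 z (b hz)) (pu1_norm hG h0 p) (pu1_norm hG h0 q)
    (pu1_ne hG h0 hne) neg
  have b2 := (ann_mono (half_le_self hG.δ_pos.le)).trans b
  have ev : ∀ {f : ι → ℂ} {z : ℂ}, Tendsto f l (𝓝 z) → ∀ᶠ i in l, ‖f i - z‖ ≤ κ := fun hf =>
    (tendsto_iff_norm_sub_tendsto_zero.1 hf).eventually (eventually_le_nhds κ0)
  filter_upwards [hv, hc, (pu1_td h C).eventually (eventually_le_nhds κ0),
    ev (pu1_th hG h0 h hv p).1, ev (pu1_th hG h0 h hv q).1,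
    ev (hD.div (pu1_rot hG hC hr hl' hl h0 h hv) r0), τ0.eventually self_mem_nhdsWithin,
    (τ0.mono_right nhdsWithin_le_nhds).eventually (eventually_le_nhds κ0)]
    with i i1 i2 i3 i4 i5 i6 i7 i8
  have L := hG.lip _ i1 lam hl _ h0 lam hl
  simp only [sub_self, abs_zero, add_zero] at L
  refine hκ _ _ _ _ _ _ (L.1.trans i3) ((hG.dF _ i1 lam hl).mono b2)
    (fun z hz => (L.2 z (b2 hz)).2.trans i3) (pu1_norm hG i1 p) (pu1_norm hG i1 q) i4 i5 i6 i7 i8 ?_
  have r1 := (hG.tan _ i1 lam hl).1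
  have r0 : rot B.toBase lam (v i) ≠ 0 := fun z => by
    rw [z, norm_zero] at r1; exact zero_ne_one r1
  have t0 : (τ i : ℂ) ≠ 0 := ofReal_ne_zero.2 (ne_of_gt i7)
  simp only [Pi.div_apply, hG.chord _ i1 lam hl i2]
  field_simp

end

end StekIso
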