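import Pool.Agent.Lib.MP_fa022d_an.Defs6
import Pool.Agent.Lib.MP_fa022d_an.HiA
import Pool.Agent.Lib.MP_fa022d_an.Pack
import Pool.Agent.Lib.MP_fa022d_an.Top2
import Pool.Agent.Lib.MP_fa022d_an.Soft1
import Pool.Agent.Lib.MP_fa022d_an.GeoA

open Set Filter Topology Metric BoundedContinuousFunction Complex

noncomputable section
namespace StekIso

section
variable {B : GeoBase} {η : Pos} {r δ C lam : ℝ}

theorem push_norm (hG : GeoOK B η r δ C) {v : V η} (hv : v ∈ RB η r) (s : ℝ) :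
    ‖tv B.toBase v s‖ = 1 := by
  rw [tv, Complex.norm_exp]
  simp [(hG.cm v hv true).real s]

theorem push_H (hG : GeoOK B η r δ C) (hl : |lam - B.lam0| < r) {v : V η} (hv : v ∈ RB η r) :
    0 < Hv B.toBase lam v ∧ ann (Hv B.toBase lam v) δ ⊆ ann B.H0 (2 * δ) := by
  have h := (hG.modH v hv lam hl).2
  refine ⟨?_, ann_sub hG.δ_pos.le h⟩
  have := abs_le.1 h
  linarith [B.big, hG.δ_le]

theorem push_mem (hG : GeoOK B η r δ C) {a : ℂ} (ha : ‖a‖ = 1) : a ∈ ann B.H0 (2 * δ) :=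
  cann_sub (by linarith [hG.δ_pos]) (top2_one (by linarith [B.big]) ha)

theorem push_vel (hG : GeoOK B η r δ C) (hl : |lam - B.lam0| < r) {v : V η} (hv : v ∈ RB η r)
    (s : ℝ) : vel B.toBase (Gv B.toBase lam v) v s =
      I * (tv B.toBase v s * exp (Gv B.toBase lam v (tv B.toBase v s)) /
        ‖exp (Gv B.toBase lam v (tv B.toBase v s))‖) := by
  have h1 := hG.fits v hv lam hl true s
  obtain ⟨-, h2, -⟩ := geoa_log η.2 (half_pos B.m_pos) (hG.cm v hv true) s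
  simp only [tau, rad, lenf, if_true, ofReal_one, one_mul, mul_one] at h1
  have h3 : ((‖exp (Gv B.toBase lam v (tv B.toBase v s))‖ : ℝ) : ℂ) *
      deriv (thOf B.toBase v true) s = 1 := by
    rw [← h2, ← ofReal_mul]; exact_mod_cast h1
  have h4 : ((‖exp (Gv B.toBase lam v (tv B.toBase v s))‖ : ℝ) : ℂ) ≠ 0 :=
    left_ne_zero_of_mul_eq_one h3
  unfold vel
  rw [eq_inv_of_mul_eq_one_right h3]
  field_simp

theorem push_ne (hG : GeoOK B η r δ C) {v : V η} (hv : v ∈ RB η r) {p q : ℝ}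
    (hne : exp (I * p) ≠ exp (I * q)) : tv B.toBase v p ≠ tv B.toBase v q := by
  intro h
  obtain ⟨n, hn⟩ := exp_eq_exp_iff_exists_int.1 h
  have h1 := kext_far (hG.cm v hv true) (four3_mem0 η.2 p) (four3_mem0 η.2 q) n
  have h2 : thOf B.toBase v true p - thOf B.toBase v true q - n * (2 * Real.pi) = 0 := by
    refine mul_left_cancel₀ I_ne_zero ?_
    linear_combination hn
  rw [h2, norm_zero] at h1
  have h3 : (p : ℂ) - q - n * (2 * Real.pi) = 0 := norm_le_zero_iff.1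
    (nonpos_of_mul_nonpos_right h1 (half_pos B.m_pos))
  exact hne (exp_eq_exp_iff_exists_int.2 ⟨n, by linear_combination I * h3⟩)

theorem push_deriv (hG : GeoOK B η r δ C) (hl : |lam - B.lam0| < r) {v : V η} (hv : v ∈ RB η r)
    (hc : Clo B.toBase lam v) {z : ℂ} (hz : z ∈ ann B.H0 (2 * δ)) :
    deriv (Fv B.toBase lam v) z = exp (Gv B.toBase lam v z) :=
  (hG.prim v hv lam hl hc z hz).deriv

theorem push_sn (v0 : V η) (c : ℝ) : Tendsto (fun v : V η => c * sn (v - v0)) (𝓝 v0) (𝓝 0) := by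
  obtain ⟨K, -, hK⟩ := weak_le η
  have h1 : Tendsto (fun v : V η => K * ‖v - v0‖) (𝓝 v0) (𝓝 0) := by
    have : Continuous fun v : V η => K * ‖v - v0‖ := by fun_prop
    simpa using this.tendsto v0
  have h2 : Tendsto (fun v : V η => sn (v - v0)) (𝓝 v0) (𝓝 0) :=
    squeeze_zero (fun v => (hK _).1.trans ((hK _).2.1.trans (hK _).2.2.1))
      (fun v => (hK _).2.2.2) h1
  simpa using h2.const_mul c

theorem push_cw {f : V η → ℂ} {s : Set (V η)} {v0 : V η} {c : ℝ}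
    (h : ∀ v ∈ s, ‖f v - f v0‖ ≤ c * sn (v - v0)) : ContinuousWithinAt f s v0 :=
  tendsto_iff_norm_sub_tendsto_zero.2 (squeeze_zero' (.of_forall fun _ => norm_nonneg _)
    (eventually_mem_nhdsWithin.mono h) ((push_sn v0 c).mono_left nhdsWithin_le_nhds))

theorem push_tv (hG : GeoOK B η r δ C) (s : ℝ) :
    ContinuousOn (fun v => tv B.toBase v s) (RB η r) := fun v0 h0 =>
  ((push_cw fun v hv => (hG.thlip v hv v0 h0 true s).1).const_mul I).cexp

theorem push_velc (hG : GeoOK B η r δ C) (hl : |lam - B.lam0| < r) (s : ℝ) :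
    ContinuousOn (fun v => vel B.toBase (Gv B.toBase lam v) v s) (RB η r) := by
  intro v0 h0
  have h1 := push_tv hG s v0 h0
  have h2 : ContinuousWithinAt (fun v => deriv (thOf B.toBase v true) s) (RB η r) v0 :=
    push_cw fun v hv => (hG.thlip v hv v0 h0 true s).2
  have h3 : ContinuousWithinAt (fun v => Gv B.toBase lam v0 (tv B.toBase v s)) (RB η r) v0 :=
    ContinuousAt.comp_continuousWithinAt (f := fun v => tv B.toBase v s)
      ((hG.dG v0 h0 lam hl).differentiableAt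
        ((isOpen_ann _ _).mem_nhds (push_mem hG (push_norm hG h0 s)))).continuousAt h1
  have h4 : ContinuousWithinAt (fun v => Gv B.toBase lam v (tv B.toBase v s) -
      Gv B.toBase lam v0 (tv B.toBase v s)) (RB η r) v0 :=
    push_cw (c := C) fun v hv => by
      simpa using ((hG.lip v hv lam hl v0 h0 lam hl).2 _ (push_mem hG (push_norm hG hv s))).1
  have h5 : ContinuousWithinAt (fun v => Gv B.toBase lam v (tv B.toBase v s)) (RB η r) v0 :=
    (h4.add h3).congr (fun v _ => by simp) (by simp)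
  exact h5.cexp.mul ((h1.const_mul I).mul h2)

theorem push_RB {r r' : ℝ} {v : V η} (h : v ∈ RB η (min r r')) : v ∈ RB η r ∧ ‖v‖ < r' :=
  ⟨⟨h.1, h.2.trans_le (min_le_left _ _)⟩, h.2.trans_le (min_le_right _ _)⟩

theorem push_dom {lam0 δC : ℝ} {v : V η} (h : ‖v‖ < δC) (hl : |lam - lam0| < δC) :
    (v, (lam : ℂ)) ∈ domC η lam0 δC :=
  ⟨mem_ball_zero_iff.2 h, by
    rw [mem_ball_iff_norm, ← ofReal_sub, Complex.norm_real]; exact hl⟩

theorem push_open (lam0 δC : ℝ) : IsOpen (domC η lam0 δC) := isOpen_ball.prod isOpen_ball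

end

theorem rot_cont {B : GeoBase} {η : Pos} {r δ C δC CC lam : ℝ} (hG : GeoOK B η r δ C)
    (hC : CurvOK B.toBase η B.lam0 δC CC) (hl : |lam - B.lam0| < r) (hl' : |lam - B.lam0| < δC) :
    ContinuousOn (rot B.toBase lam) (RB η (min r δC)) := by
  refine ContinuousOn.div₀ (f := fun v => exp (I * vth (kapV B.toBase (v, (lam : ℂ))) 0))
    (g := fun v => vel B.toBase (Gv B.toBase lam v) v 0) ?_
    ((push_velc hG hl 0).mono fun v hv => (push_RB hv).1) fun v hv h0 => ?_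
  · have h1 : ContinuousOn (fun v : V η => vth (kapV B.toBase (v, (lam : ℂ))) 0)
        (RB η (min r δC)) :=
      (hC.cont 0).comp (f := fun v : V η => (v, (lam : ℂ))) (by fun_prop)
        fun v hv => push_dom (push_RB hv).2 hl'
    exact (h1.const_mul I).cexp
  · have h1 := (hG.tan v (push_RB hv).1 lam hl).1
    rw [rot, h0, div_zero, norm_zero] at h1
    exact zero_ne_one h1

/-- A curve of closed shapes through a touching one overlaps when the chord moves inwards: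
`push_overlap` with `Δ = conj (rot) * chord / τ`, and
`rot * b * F' b * θ' = -i exp (i vth q)`. -/
theorem push_v {B : GeoBase} {η : Pos} {r δ C δC CC lam : ℝ} (hG : GeoOK B η r δ C)
    (hC : CurvOK B.toBase η B.lam0 δC CC) (hl : |lam - B.lam0| < r) (hl' : |lam - B.lam0| < δC)
    {v : ℝ → V η} {w : V η} (hv : ∀ᶠ τ in 𝓝 (0 : ℝ), v τ ∈ RB η (min r δC) ∧ Clo B.toBase lam (v τ))
    (hd : HasDerivAt v w 0) {p q : ℝ} (hne : exp (I * p) ≠ exp (I * q))
    (ht : Fv B.toBase lam (v 0) (tv B.toBase (v 0) p) = Fv B.toBase lam (v 0) (tv B.toBase (v 0) q))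
    (hw : 0 < (fderiv ℂ (fun z : V η × ℂ => chord (kapV B.toBase z) p q) (v 0, (lam : ℂ)) (w, 0) *
      exp (-(I * vth (kapV B.toBase (v 0, (lam : ℂ))) q))).im) :
    ∀ᶠ τ in 𝓝[>] (0 : ℝ), Ovl B.toBase lam (v τ) := by
  obtain ⟨h0, hc0⟩ := hv.self_of_nhds
  obtain ⟨r0, n0⟩ := push_RB h0
  obtain ⟨H0, sub0⟩ := push_H hG hl r0
  obtain ⟨ρ1, tan0⟩ := hG.tan _ r0 lam hl
  obtain ⟨c', hc'⟩ : ∃ c', c' = fderiv ℂ (fun z : V η × ℂ => chord (kapV B.toBase z) p q)
    (v 0, (lam : ℂ)) (w, 0) := ⟨_, rfl⟩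
  rw [← hc'] at hw
  have hb := push_norm hG r0 q
  have hΔ : ((starRingEnd ℂ) (rot B.toBase lam (v 0)) * c' * (starRingEnd ℂ)
      (tv B.toBase (v 0) q * deriv (Fv B.toBase lam (v 0)) (tv B.toBase (v 0) q))).re < 0 := by
    rw [push_deriv hG hl r0 hc0 (push_mem hG hb)]
    have e1 := tan0 q
    rw [push_vel hG hl r0] at e1
    have hN : 0 < ‖exp (Gv B.toBase lam (v 0) (tv B.toBase (v 0) q))‖ :=
      norm_pos_iff.2 (exp_ne_zero _)
    have e2 : ‖exp (I * vth (kapV B.toBase (v 0, (lam : ℂ))) q)‖ = 1 := by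
      rw [e1, norm_mul, norm_mul, norm_div, norm_mul, ρ1, hb, norm_I, Complex.norm_real, norm_norm]
      field_simp
    rw [exp_neg, Complex.inv_eq_conj e2, e1] at hw
    generalize ‖exp (Gv B.toBase lam (v 0) (tv B.toBase (v 0) q))‖ = N at *
    generalize tv B.toBase (v 0) q * exp (Gv B.toBase lam (v 0) (tv B.toBase (v 0) q)) = u at *
    generalize rot B.toBase lam (v 0) = ρ at *
    have hN' : (N : ℂ) ≠ 0 := ofReal_ne_zero.2 hN.ne'
    have e3 : (starRingEnd ℂ) ρ * c' * (starRingEnd ℂ) u =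
        N * (I * (c' * (starRingEnd ℂ) (ρ * (I * (u / N))))) := by
      simp only [map_mul, map_div₀, conj_I, conj_ofReal]
      field_simp
      linear_combination ((starRingEnd ℂ) ρ * c' * (starRingEnd ℂ) u) * I_mul_I
    rw [e3, re_ofReal_mul, I_mul_re]
    nlinarith
  obtain ⟨κ, hκ, key⟩ := push_overlap H0 hG.δ_pos ((hG.dF _ r0 lam hl).mono sub0)
    (fun z hz => by rw [push_deriv hG hl r0 hc0 (sub0 hz)]; exact exp_ne_zero _)
    (push_norm hG r0 p) hb (push_ne hG r0 hne) hΔ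
  have tv0 : Tendsto v (𝓝[>] 0) (𝓝 (v 0)) := hd.continuousAt.tendsto.mono_left nhdsWithin_le_nhds
  have hv' := hv.filter_mono (nhdsWithin_le_nhds (s := Ioi (0 : ℝ)))
  have tv1 : Tendsto v (𝓝[>] 0) (𝓝[RB η (min r δC)] (v 0)) :=
    tendsto_nhdsWithin_iff.2 ⟨tv0, hv'.mono fun _ h => h.1⟩
  have tv2 : Tendsto v (𝓝[>] 0) (𝓝[RB η r] (v 0)) :=
    tv1.mono_right (nhdsWithin_mono _ fun _ h => (push_RB h).1)
  have near : ∀ {f : ℝ → ℂ} {a : ℂ}, Tendsto f (𝓝[>] 0) (𝓝 a) →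
      ∀ᶠ τ in 𝓝[>] (0 : ℝ), ‖f τ - a‖ ≤ κ := fun {f a} h =>
    (tendsto_iff_norm_sub_tendsto_zero.1 h).eventually (eventually_le_nhds hκ)
  have dch : HasDerivAt (fun τ : ℝ => chord (kapV B.toBase (v τ, (lam : ℂ))) p q) c' 0 := by
    have h1 := ((hC.dch p q).differentiableAt ((push_open _ _).mem_nhds
      (push_dom n0 hl'))).hasFDerivAt.restrictScalars ℝ
    have h2 : HasDerivAt (fun τ : ℝ => (v τ, (lam : ℂ))) (w, 0) 0 :=
      hd.prodMk (hasDerivAt_const _ _)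
    rw [hc']
    exact HasFDerivAt.comp_hasDerivAt (f := fun τ : ℝ => (v τ, (lam : ℂ))) 0 h1 h2
  have ch0 : chord (kapV B.toBase (v 0, (lam : ℂ))) p q = 0 := by
    rw [hG.chord _ r0 lam hl hc0, ht, sub_self, mul_zero]
  have t1 : Tendsto (fun τ : ℝ => τ⁻¹ • chord (kapV B.toBase (v τ, (lam : ℂ))) p q) (𝓝[>] 0)
      (𝓝 c') := by
    simpa only [zero_add, ch0, sub_zero] using dch.tendsto_slope_zero_right
  have t2 : Tendsto (fun τ => (starRingEnd ℂ) (rot B.toBase lam (v τ))) (𝓝[>] 0)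
      (𝓝 ((starRingEnd ℂ) (rot B.toBase lam (v 0)))) :=
    (continuous_conj.tendsto _).comp ((rot_cont hG hC hl hl' _ h0).tendsto.comp tv1)
  filter_upwards [hv', near (t2.mul t1), near ((push_tv hG p _ r0).tendsto.comp tv2),
    near ((push_tv hG q _ r0).tendsto.comp tv2),
    ((push_sn (v 0) C).comp tv0).eventually (eventually_le_nhds hκ), self_mem_nhdsWithin,
    (eventually_le_nhds hκ).filter_mono nhdsWithin_le_nhds] with τ a1 a2 a3 a4 a5 a6 a7
  obtain ⟨r1, -⟩ := push_RB a1.1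
  obtain ⟨l1, l2⟩ := hG.lip _ r1 lam hl _ r0 lam hl
  simp only [sub_self, abs_zero, add_zero] at l1 l2
  have sub1 := (ann_mono (half_le_self hG.δ_pos.le)).trans sub0
  have τ0 : (0 : ℝ) < τ := a6
  refine key _ _ _ _ _ τ (l1.trans a5) ((hG.dF _ r1 lam hl).mono sub1)
    (fun z hz => (l2 z (sub1 hz)).2.trans a5) (push_norm hG r1 p) (push_norm hG r1 q) a3 a4 a2
    τ0 a7 ?_
  have hρ := (hG.tan _ r1 lam hl).1
  have hρ0 : rot B.toBase lam (v τ) ≠ 0 := fun h => by simp [h] at hρ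
  have τ1 : (τ : ℂ) ≠ 0 := ofReal_ne_zero.2 τ0.ne'
  rw [hG.chord _ r1 lam hl a1.2, ← Complex.inv_eq_conj hρ, real_smul, ofReal_inv]
  field_simp

/-- at a touching pair the tangents are opposite (`touch_opp`) -/
theorem tan_opp {B : GeoBase} {η : Pos} {r δ C lam : ℝ} (hG : GeoOK B η r δ C)
    (hl : |lam - B.lam0| < r) {v : V η} (hv : v ∈ RB η r) (hc : Clo B.toBase lam v)
    (hn : ¬Ovl B.toBase lam v) {p q : ℝ} (hne : exp (I * p) ≠ exp (I * q))
    (ht : Fv B.toBase lam v (tv B.toBase v p) = Fv B.toBase lam v (tv B.toBase v q)) :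
    exp (I * vth (kapV B.toBase (v, (lam : ℂ))) p) =
      -exp (I * vth (kapV B.toBase (v, (lam : ℂ))) q) := by
  obtain ⟨H0, sub0⟩ := push_H hG hl hv
  have ha := push_norm hG hv p
  have hb := push_norm hG hv q
  have h := touch_opp H0 hG.δ_pos ((hG.dF _ hv lam hl).mono sub0)
    (fun z hz => by rw [push_deriv hG hl hv hc (sub0 hz)]; exact exp_ne_zero _) hn ha hb
    (push_ne hG hv hne) ht
  rw [push_deriv hG hl hv hc (push_mem hG ha), push_deriv hG hl hv hc (push_mem hG hb)] at h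
  rw [(hG.tan v hv lam hl).2, (hG.tan v hv lam hl).2, push_vel hG hl hv, push_vel hG hl hv, h]
  ring

/-- the packets move the chord (`CurvOK.sens`, `gre`, `hil_sub_le`, `hil_Wpk`, `packet_limsup`) -/
theorem push_size {B : Base} {η : Pos} {lam0 δC CC μ Cs c0 ε lam ρ r θ : ℝ} {Ai ϱ : Bool → ℤ → ℂ}
    (hC : CurvOK B η lam0 δC CC) (hS : SymOK B η.1 μ Cs c0 Ai ϱ) (hl' : |lam - lam0| < δC)
    {x0 : X} {π : X → X} (hP : PiOK B η ε lam x0 ρ r θ π) (hr : r ≤ δC) (hθ : θ ≤ c0 / 64)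
    {x : X} (hx : x ∈ ball x0 ρ) (hx' : x ∈ reB Idx) {p q : ℝ} (hpq : |p - q| ≤ 7)
    (hp : μ ≤ |Real.sin p|) (hq : μ ≤ |Real.sin q|) (hs : 0 < Real.sin p * Real.sin q)
    (hne : exp (I * p) ≠ exp (I * q))
    (ho : exp (I * vth (kapV B (toV η ε (π x), (lam : ℂ))) p) =
      -exp (I * vth (kapV B (toV η ε (π x), (lam : ℂ))) q)) :
    ∃ᶠ M : ℕ in atTop, c0 / 16 * tM η.1 ε M ≤
      |(fderiv ℂ (fun z : V η × ℂ => chord (kapV B z) p q) (toV η ε (π x), (lam : ℂ))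
          (toV η ε (fderiv ℂ π x (WM B η.1 M)), 0) *
        exp (-(I * vth (kapV B (toV η ε (π x), (lam : ℂ))) q))).im| := by
  have c0p := hS.c0_pos
  have CC0 : 0 < CC := zero_lt_one.trans_le hC.one_le
  obtain ⟨v, hv⟩ : ∃ v, v = toV η ε (π x) := ⟨_, rfl⟩
  have vn : ‖v‖ < δC := hv ▸ (hP.small x hx).trans_le hr
  have vr : RealV v := hv ▸ toV_real η ε (hP.real x hx hx')
  rw [← hv] at ho ⊢
  have hz := push_dom vn hl'
  obtain ⟨gp, gp1, gp2⟩ := hC.gre (v true) ((norm_le_pi_norm v true).trans_lt vn) (vr true) p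
  obtain ⟨gq, gq1, gq2⟩ := hC.gre (v true) ((norm_le_pi_norm v true).trans_lt vn) (vr true) q
  have hE : ‖exp (I * vth (kapV B (v, (lam : ℂ))) q)‖ = 1 := by
    rw [Complex.norm_exp]
    simp [hC.real _ hz vr (ofReal_im lam) q]
  have t2 : Tendsto (fun M : ℕ => 2 * M + 1) atTop atTop :=
    tendsto_atTop_mono (fun M => by simp only [id]; omega) tendsto_id
  refine ((packet_limsup hS hp hq hs hne gp1 gq1).and_eventually
    ((hP.pn0 (c0 / 16 / CC) (by positivity)).and (hP.l1.and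
      (t2.eventually (hil_Wpk hS (θ := c0 / 64) (by positivity)))))).mono ?_
  rintro M ⟨a1, a2, a3, a4⟩
  have a2 := a2 x hx
  have a3 := a3 x hx
  have b1 := a4 ε p hP.ε_pos
  have b2 := a4 ε q hP.ε_pos
  have e0 : ((2 * M + 1 : ℕ) : ℤ) = 2 * M + 1 := by push_cast; rfl
  rw [e0] at b1 b2
  have e1 : ε * beta η.1 (2 * M + 1) = tM η.1 ε M := rfl
  have e2 : Wpk B η.1 (2 * M + 1) = WM B η.1 M := rfl
  rw [mul_assoc 2 ε, e1, e2] at b1 b2
  have tp : 0 < tM η.1 ε M := mul_pos hP.ε_pos (beta_pos _ _)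
  rw [map_sub] at a3
  have d1 := (hil_sub_le _ _ true p).trans a3
  have d2 := (hil_sub_le _ _ true q).trans a3
  have s1 := hC.sens _ hz (toV η ε (fderiv ℂ π x (WM B η.1 M))) p q hpq
  simp only [gp2, gq2, ho] at s1
  have s2 := s1.trans (mul_le_mul_of_nonneg_left a2 CC0.le)
  rw [show CC * (c0 / 16 / CC * tM η.1 ε M) = c0 / 16 * tM η.1 ε M by field_simp] at s2
  rw [exp_neg]
  generalize exp (I * vth (kapV B (v, (lam : ℂ))) q) = E at *
  generalize fderiv ℂ (fun z : V η × ℂ => chord (kapV B z) p q) (v, (lam : ℂ))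
    (toV η ε (fderiv ℂ π x (WM B η.1 M)), 0) = D at *
  generalize hil (toV η ε (fderiv ℂ π x (WM B η.1 M)) true).coeff p = hp1 at *
  generalize hil (toV η ε (fderiv ℂ π x (WM B η.1 M)) true).coeff q = hq1 at *
  generalize hil (toV η ε (WM B η.1 M) true).coeff p = hp2 at *
  generalize hil (toV η ε (WM B η.1 M) true).coeff q = hq2 at *
  generalize (-I * What B η.1 p * exp (I * (2 * M + 1 : ℕ) * p)).re = Xp at *
  generalize (-I * What B η.1 q * exp (I * (2 * M + 1 : ℕ) * q)).re = Xq at *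
  generalize tM η.1 ε M = t at *
  have E0 : E ≠ 0 := fun h => by simp [h] at hE
  have s3 : ‖D * E⁻¹ - I * (gp * hp1 + gq * hq1)‖ ≤ c0 / 16 * t := by
    have : D * E⁻¹ - I * (gp * hp1 + gq * hq1) =
        (D + I * (-E * gp * hp1 - E * gq * hq1)) * E⁻¹ := by
      field_simp
      ring
    rw [this, norm_mul, norm_inv, hE, inv_one, mul_one]
    exact s2
  have s4 := abs_le.1 ((abs_im_le_norm _).trans s3)
  have f1 := abs_le.1 ((abs_re_le_norm _).trans b1)
  have f2 := abs_le.1 ((abs_re_le_norm _).trans b2)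
  have f3 := abs_le.1 ((abs_re_le_norm _).trans d1)
  have f4 := abs_le.1 ((abs_re_le_norm _).trans d2)
  simp only [sub_im, sub_re, I_mul_im, add_re, re_ofReal_mul, ofReal_re] at s4 f1 f2 f3 f4
  have θt : θ * t ≤ c0 / 64 * t := mul_le_mul_of_nonneg_right hθ tp.le
  have g1 : |gp * (hp1.re - 2 * t * Xp)| ≤ 2 * (c0 / 32 * t) := by
    rw [abs_mul, abs_of_nonneg (by linarith [gp1.1] : 0 ≤ gp)]
    exact mul_le_mul gp1.2 (abs_le.2 ⟨by linarith [f1.1, f3.1], by linarith [f1.2, f3.2]⟩)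
      (abs_nonneg _) zero_le_two
  have g2 : |gq * (hq1.re - 2 * t * Xq)| ≤ 2 * (c0 / 32 * t) := by
    rw [abs_mul, abs_of_nonneg (by linarith [gq1.1] : 0 ≤ gq)]
    exact mul_le_mul gq1.2 (abs_le.2 ⟨by linarith [f2.1, f4.1], by linarith [f2.2, f4.2]⟩)
      (abs_nonneg _) zero_le_two
  have g1 := abs_le.1 g1
  have g2 := abs_le.1 g2
  rcases le_abs.1 a1 with h | h
  · have := mul_le_mul_of_nonneg_left h tp.le
    refine le_abs.2 (.inl ?_)
    nlinarith [s4.1, g1.1, g2.1]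
  · have := mul_le_mul_of_nonneg_left h tp.le
    refine le_abs.2 (.inr ?_)
    nlinarith [s4.2, g1.2, g2.2]

end StekIso
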