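import Pool.Agent.Lib.MP_fa022d_an.Pu1

open Set Filter Topology Metric BoundedContinuousFunction Complex

noncomputable section
namespace StekIso

theorem rot_cont {B : GeoBase} {η : Pos} {r δ C δC CC lam : ℝ} (hG : GeoOK B η r δ C)
    (hC : CurvOK B.toBase η B.lam0 δC CC) (hl : |lam - B.lam0| < r) (hl' : |lam - B.lam0| < δC) :
    ContinuousOn (rot B.toBase lam) (RB η (min r δC)) := by
  intro v hv
  exact pu1_rot (v := fun x => x) hG hC (hv.2.trans_le (min_le_right _ _)) hl' hl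
    ⟨hv.1, hv.2.trans_le (min_le_left _ _)⟩ nhdsWithin_le_nhds
    (eventually_mem_nhdsWithin.mono fun x hx => ⟨hx.1, hx.2.trans_le (min_le_left _ _)⟩)

/-- A curve of closed shapes through a touching one overlaps when the chord moves inwards:
`push_overlap` with `Δ = conj (rot) * chord / τ`, and
`rot * b * F' b * θ' = -i exp (i vth q)`. -/
theorem push_v {B : GeoBase} {η : Pos} {r δ C δC CC lam : ℝ} (hG : GeoOK B η r δ C)
    (hC : CurvOK B.toBase η B.lam0 δC CC) (hl : |lam - B.lam0| < r) (hl' : |lam - B.lam0| < δC)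
    {v : ℝ → V η} {w : V η} (hv : ∀ᶠ τ in 𝓝 (0 : ℝ), v τ ∈ RB η (min r δC) ∧ Clo B.toBase lam (v τ))
    (hd : HasDerivAt v w 0) {p q : ℝ} (hne : exp (I * p) ≠ exp (I * q))
    (ht : Fv B.toBase lam (v 0) (tv B.toBase (v 0) p) = Fv B.toBase lam (v 0) (tv B.toBase (v 0) q))
    (hw : 0 < (fderiv ℂ (fun z : V η × ℂ => chord (kapV B.toBase z) p q) (v 0, (lam : ℂ)) (w, 0) *
      exp (-(I * vth (kapV B.toBase (v 0, (lam : ℂ))) q))).im) :
    ∀ᶠ τ in 𝓝[>] (0 : ℝ), Ovl B.toBase lam (v τ) := by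
  obtain ⟨h0, c0⟩ := hv.self_of_nhds
  have n0 := h0.2.trans_le (min_le_right _ _)
  have h0' : v 0 ∈ RB η r := ⟨h0.1, h0.2.trans_le (min_le_left _ _)⟩
  have dom := pu1_dom n0 hl'
  have hv' := hv.filter_mono (nhdsWithin_le_nhds (s := Ioi 0))
  have d := ((((hC.dch p q).differentiableAt dom).hasFDerivAt.restrictScalars ℝ).comp_hasDerivAt
    (0 : ℝ) (hd.prodMk (hasDerivAt_const (0 : ℝ) (lam : ℂ)))).tendsto_slope_zero_right
  refine pu1_push hG hC n0 hl' hl h0' c0 (hd.continuousAt.tendsto.mono_left nhdsWithin_le_nhds)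
    (hv'.mono fun _ h => ⟨h.1.1, h.1.2.trans_le (min_le_left _ _)⟩) (hv'.mono fun _ h => h.2) hne
    tendsto_id (d.congr fun τ => ?_) ?_
  · simp only [Function.comp, zero_add, hG.chord _ h0' lam hl c0, ht, sub_self, mul_zero,
      sub_zero, real_smul, ofReal_inv, id, div_eq_inv_mul]
  · rw [← exp_conj, map_mul, conj_I, conj_eq_iff_im.2 (hC.real _ (mem_of_mem_nhds dom) h0.1
      (ofReal_im lam) q), neg_mul]
    exact hw

end StekIso
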