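import Pool.Agent.Lib.MP_fa022d_an.Defs4
import Pool.Agent.Lib.MP_fa022d_an.BaseK

open Set Filter Topology Metric BoundedContinuousFunction Complex

noncomputable section
namespace StekIso
variable {η1 η2 C κ ρ D Λ : ℝ} {S : Idx → Idx → ℂ} {ℓ : Bool → ℝ} {σ : ℂ} {j : Bool} {n : ℕ}

theorem scha_ng (b : Idx) : ng (ng b) = b := by simp [ng]

theorem scha_inP {b : Idx} : inP j n (ng b) ↔ inP j n b := by simp [inP, ng]

theorem scha_ne {b : Idx} {q : ℤ} (hb : ¬inP j n b) (hq : |q| = n) : b ≠ (j, q) :=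
  fun k => hb (k ▸ ⟨rfl, hq⟩)

theorem scha_dvs (b : Idx) : dvs ℓ σ (ng b) = dvs ℓ σ b := by simp [dvs, ng]

theorem scha_bas (c b : Idx) : bas c b = if b = c then 1 else 0 :=
  toB_apply (C := 1) (fun b => by split_ifs <;> simp) b

theorem scha_tsum (f : Idx → ℂ) : ∑' b, f (ng b) = ∑' b, f b :=
  (Function.Involutive.toPerm ng scha_ng).tsum_eq f

/-- a row that is dominated by the weight -/
theorem scha_row (s : Summable fun c : Idx => ex η1 c.2) {a : Idx → ℂ} {t : ℝ}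
    (h : ∀ c, ‖a c‖ ≤ t * ex η1 c.2) (x : X) :
    Summable (fun c => a c * x c) ∧ ‖∑' c, a c * x c‖ ≤ t * EE η1 * ‖x‖ := by
  have b : ∀ c, ‖a c * x c‖ ≤ t * ex η1 c.2 * ‖x‖ := fun c => by
    rw [norm_mul]
    exact mul_le_mul (h c) (x.norm_coe_le_norm c) (norm_nonneg _) ((norm_nonneg _).trans (h c))
  have k := (s.hasSum.mul_left t).mul_right ‖x‖
  exact ⟨.of_norm_bounded k.summable b, tsum_of_norm_bounded k b⟩

theorem scha_Sap (h0 : 0 < η1) (h : Crude η1 C S) (x : X) (b : Idx) :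
    Summable (fun c => S b c * x c) ∧ ‖Sap S x b‖ ≤ C * ex η1 b.2 * EE η1 * ‖x‖ :=
  scha_row (h.rowBdd h0).2.2.1 (fun c => (h b c).trans_eq (mul_assoc ..).symm) x

theorem scha_split (h0 : 0 < η1) (h : Crude η1 C S) (x : X) (c b : Idx) :
    Sap S x b = S b c + Sap S (x - bas c : X) b := by
  have e : ∀ d, S b d * x d = (if d = c then S b c else 0) + S b d * (x - bas c : X) d := fun d => by
    simp only [coe_sub, Pi.sub_apply, scha_bas]
    split_ifs with k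
    · rw [k]; ring
    · ring
  rw [Sap, tsum_congr e, (hasSum_ite_eq c _).summable.tsum_add (scha_Sap h0 h _ b).1, tsum_ite_eq]
  rfl

theorem SH0.dvs_ne (h : SH0 η1 C κ S ℓ σ j n) {b : Idx} (hb : ¬inP j n b) : dvs ℓ σ b ≠ 0 := by
  intro e
  have := h.div b hb
  rw [e, norm_zero, mul_zero] at this
  exact this.not_gt (ex_pos _ _)

theorem SH0.norm_K (h : SH0 η1 C κ S ℓ σ j n) : RowBdd (Kf S ℓ σ j n) (1 / 2) := by
  intro b
  obtain ⟨C0, -, s, -⟩ := h.crude.rowBdd h.η_pos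
  have k : ∀ c, ‖Kf S ℓ σ j n b c‖ ≤ C * κ * ex η1 c.2 := fun c => by
    have p := (ex_pos η1 c.2).le
    have q := h.κ_nonneg
    unfold Kf
    split_ifs with hb
    · rw [norm_zero]; positivity
    · rw [norm_div, div_le_iff₀ (norm_pos_iff.2 (h.dvs_ne hb))]
      refine (h.crude b c).trans ?_
      calc _ ≤ C * (κ * ‖dvs ℓ σ b‖ * ex η1 c.2) := by gcongr; exact h.div b hb
        _ = _ := by ring
  have t := s.hasSum.mul_left (C * κ)
  have u := Summable.of_nonneg_of_le (fun _ => norm_nonneg _) k t.summable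
  refine ⟨u, (hasSum_le k u.hasSum t).trans ?_⟩
  exact le_of_eq_of_le (by unfold EE; ring) h.small

theorem SH0.scha_K (h : SH0 η1 C κ S ℓ σ j n) (x : X) (b : Idx) :
    matOp (Kf S ℓ σ j n) x b = if inP j n b then 0 else Sap S x b / dvs ℓ σ b := by
  rw [matOp_apply (by norm_num) h.norm_K]
  unfold Kf
  split_ifs
  · simp
  · rw [Sap, ← tsum_div_const]
    exact tsum_congr fun c => by ring

theorem SH0.scha_unit (h : SH0 η1 C κ S ℓ σ j n) :
    IsUnit (1 - matOp (Kf S ℓ σ j n) : X →L[ℂ] X) :=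
  isUnit_one_sub_of_norm_lt_one (R := X →L[ℂ] X)
    ((norm_matOp_le (by norm_num) h.norm_K).trans_lt one_half_lt_one)

theorem SH0.scha_fix (h : SH0 η1 C κ S ℓ σ j n) (q : ℤ) :
    qv S ℓ σ j n q = bas (j, q) + matOp (Kf S ℓ σ j n) (qv S ℓ σ j n q) :=
  sub_eq_iff_eq_add.1 (congrArg (· (bas (j, q))) (Ring.mul_inverse_cancel _ h.scha_unit))

theorem SH0.scha_inv (h : SH0 η1 C κ S ℓ σ j n) {x y : X}
    (hx : ∀ b, ¬inP j n b → dvs ℓ σ b * x b = Sap S x b)
    (hy : ∀ b, y b = if inP j n b then x b else 0) :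
    x = Ring.inverse (1 - matOp (Kf S ℓ σ j n) : X →L[ℂ] X) y := by
  have e : x - matOp (Kf S ℓ σ j n) x = y := by
    ext b
    rw [coe_sub, Pi.sub_apply, h.scha_K, hy]
    split_ifs with hb
    · simp
    · rw [← hx b hb, mul_div_cancel_left₀ _ (h.dvs_ne hb), sub_self]
  rw [← e]
  exact (congrArg (· x) (Ring.inverse_mul_cancel _ h.scha_unit)).symm

/-- the defining equations of the quasi-eigenvector -/
theorem SH0.qv_spec (h : SH0 η1 C κ S ℓ σ j n) {q : ℤ} (hq : |q| = n) :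
    ‖qv S ℓ σ j n q‖ ≤ 2 ∧
    (∀ b, inP j n b → qv S ℓ σ j n q b = if b = (j, q) then 1 else 0) ∧
    (∀ b, ¬inP j n b → dvs ℓ σ b * qv S ℓ σ j n q b = Sap S (qv S ℓ σ j n q) b) ∧
    ∃ Cq, Dk η1 Cq (qv S ℓ σ j n q) := by
  have f := h.scha_fix q
  generalize qv S ℓ σ j n q = x at f ⊢
  have g : ∀ b, x b = (if b = (j, q) then 1 else 0) +
      if inP j n b then 0 else Sap S x b / dvs ℓ σ b := fun b => by
    rw [← h.scha_K, ← scha_bas]
    exact congrArg (· b) f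
  have nb : ‖bas (j, q)‖ ≤ 1 := (norm_le zero_le_one).2 fun b => by
    rw [scha_bas]; split_ifs <;> simp
  have nx : ‖x‖ ≤ 2 := by
    have a := (matOp (Kf S ℓ σ j n)).le_of_opNorm_le (norm_matOp_le (by norm_num) h.norm_K) x
    have b := norm_add_le (bas (j, q)) (matOp (Kf S ℓ σ j n) x)
    rw [← f] at b
    linarith
  have e : ∀ b, ¬inP j n b → dvs ℓ σ b * x b = Sap S x b := fun b hb => by
    rw [g b, if_neg (scha_ne hb hq), if_neg hb, zero_add, mul_div_cancel₀ _ (h.dvs_ne hb)]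
  refine ⟨nx, fun b hb => by rw [g b, if_pos hb, add_zero], e, ?_⟩
  obtain ⟨C0, E0, -⟩ := h.crude.rowBdd h.η_pos
  obtain ⟨R, hR⟩ : ∃ R, R = ‖σ * ℓ true‖ + ‖σ * ℓ false‖ + 1 + n := ⟨_, rfl⟩
  refine ⟨2 * Real.exp (η1 * R) + 2 * C * EE η1, fun b => ?_⟩
  have p := ex_pos η1 b.2
  have p1 : 0 ≤ 2 * Real.exp (η1 * R) * ex η1 b.2 := by positivity
  have p2 : 0 ≤ 2 * C * EE η1 * ex η1 b.2 := by positivity
  rw [add_mul]
  rcases le_total |(b.2 : ℝ)| R with k | k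
  · have : 1 ≤ Real.exp (η1 * R) * ex η1 b.2 := by
      rw [ex, ← Real.exp_add]
      exact Real.one_le_exp (by nlinarith [h.η_pos])
    linarith [x.norm_coe_le_norm b]
  · have n1 := norm_nonneg (σ * ℓ true)
    have n2 := norm_nonneg (σ * ℓ false)
    have n3 : (0 : ℝ) ≤ n := n.cast_nonneg
    have hb : ¬inP j n b := fun hb => by
      have : |(b.2 : ℝ)| = n := by exact_mod_cast hb.2
      linarith
    have d : 1 ≤ ‖dvs ℓ σ b‖ := by
      have a := norm_sub_norm_le ((|b.2| : ℤ) : ℂ) (σ * ℓ b.1)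
      rw [norm_sub_rev, Complex.norm_intCast, Int.cast_abs, abs_abs] at a
      have c : ‖σ * ℓ b.1‖ ≤ ‖σ * ℓ true‖ + ‖σ * ℓ false‖ := by
        cases b.1 <;> linarith
      unfold dvs
      linarith
    have a := (scha_Sap h.η_pos h.crude x b).2
    rw [← e b hb, norm_mul] at a
    have c : C * ex η1 b.2 * EE η1 * ‖x‖ ≤ C * ex η1 b.2 * EE η1 * 2 := by gcongr
    nlinarith [norm_nonneg (x b)]

theorem scha_cases {b : Idx} (hb : inP j n b) : b = (j, (n : ℤ)) ∨ b = (j, -(n : ℤ)) :=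
  (abs_eq (Int.natCast_nonneg n)).1 hb.2 |>.imp (Prod.ext hb.1) (Prod.ext hb.1)

theorem SH0.unique (h : SH0 η1 C κ S ℓ σ j n) (x : X)
    (hx : ∀ b, ¬inP j n b → dvs ℓ σ b * x b = Sap S x b) :
    x = x (j, n) • qv S ℓ σ j n n + x (j, -n) • qv S ℓ σ j n (-n) := by
  rw [qv, qv, ← map_smul, ← map_smul, ← map_add]
  refine h.scha_inv hx fun b => ?_
  have n0 : (n : ℤ) ≠ -n := by have := h.n_pos; omega
  simp only [coe_add, BoundedContinuousFunction.coe_smul, Pi.add_apply, scha_bas, smul_eq_mul]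
  by_cases hb : inP j n b
  · rw [if_pos hb]
    rcases scha_cases hb with rfl | rfl <;> simp [n0, n0.symm]
  · have k1 : b ≠ (j, (n : ℤ)) := scha_ne hb (by simp)
    have k2 : b ≠ (j, -(n : ℤ)) := scha_ne hb (by simp)
    simp [hb, k1, k2]

theorem SH0.bounds (h : SH0 η1 C κ S ℓ σ j n) (hρ : 0 ≤ ρ) (hr : RowP η1 ρ S j n) {q : ℤ}
    (hq : |q| = n) :
    (∀ b, ¬inP j n b → ‖dvs ℓ σ b‖ * ‖qv S ℓ σ j n q b‖ ≤ 2 * ρ * ex η1 b.2 ∧
      ‖qv S ℓ σ j n q b‖ ≤ 2 * ρ * κ) ∧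
    ∀ p : ℤ, |p| = n → ‖Mm S ℓ σ j n p q - S (j, p) (j, q)‖ ≤ 2 * ρ ^ 2 * κ * EE η1 := by
  obtain ⟨-, e1, e2, -⟩ := h.qv_spec hq
  obtain ⟨C0, E0, s, -⟩ := h.crude.rowBdd h.η_pos
  unfold Mm
  generalize qv S ℓ σ j n q = x at e1 e2 ⊢
  have k0 := h.κ_nonneg
  have sm := h.small
  have m0 := norm_nonneg (x - bas (j, q))
  have a : ∀ b, ¬inP j n b →
      ‖dvs ℓ σ b‖ * ‖x b‖ ≤ (ρ + C * EE η1 * ‖x - bas (j, q)‖) * ex η1 b.2 := fun b hb => by
    rw [← norm_mul, e2 b hb, scha_split h.η_pos h.crude x (j, q)]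
    refine (norm_add_le _ _).trans ?_
    linarith [(hr b (j, q) ⟨rfl, hq⟩).1, (scha_Sap h.η_pos h.crude (x - bas (j, q)) b).2]
  have c : ∀ b, ¬inP j n b → ‖x b‖ ≤ (ρ + C * EE η1 * ‖x - bas (j, q)‖) * κ := fun b hb =>
    le_of_mul_le_mul_left ((a b hb).trans ((mul_le_mul_of_nonneg_left (h.div b hb)
      (by positivity)).trans_eq (by ring))) (norm_pos_iff.2 (h.dvs_ne hb))
  have m : ‖x - bas (j, q)‖ ≤ (ρ + C * EE η1 * ‖x - bas (j, q)‖) * κ :=
    (norm_le (by positivity)).2 fun b => by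
      rw [coe_sub, Pi.sub_apply, scha_bas]
      by_cases hb : inP j n b
      · rw [e1 b hb, sub_self, norm_zero]; positivity
      · rw [if_neg (scha_ne hb hq), sub_zero]; exact c b hb
  have m1 : ‖x - bas (j, q)‖ ≤ 2 * ρ * κ := by nlinarith
  have m2 : ρ + C * EE η1 * ‖x - bas (j, q)‖ ≤ 2 * ρ := by
    have : C * EE η1 * ‖x - bas (j, q)‖ ≤ C * EE η1 * (2 * ρ * κ) := by gcongr
    nlinarith
  refine ⟨fun b hb => ⟨(a b hb).trans (mul_le_mul_of_nonneg_right m2 (ex_pos _ _).le),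
    (c b hb).trans (mul_le_mul_of_nonneg_right m2 k0)⟩, fun p hp => ?_⟩
  rw [scha_split h.η_pos h.crude x (j, q), add_sub_cancel_left]
  refine (scha_row s (fun c => (hr c (j, p) ⟨rfl, hp⟩).2) _).2.trans ?_
  calc _ ≤ ρ * EE η1 * (2 * ρ * κ) := by gcongr
    _ = _ := by ring

/-- symmetry of the pairing on bounded sequences -/
theorem scha_pair (h0 : 0 < η1) (h : Crude η1 C S) (hs : BSym S) (u w : X) :
    HasSum (fun b => w (ng b) * Sap S u b - u b * Sap S w (ng b)) 0 := by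
  obtain ⟨C0, -, s, -⟩ := h.rowBdd h0
  have F : Summable fun p : Idx × Idx => w (ng p.1) * (S p.1 p.2 * u p.2) := by
    refine .of_norm_bounded (((s.mul_of_nonneg s (fun _ => (ex_pos _ _).le)
      fun _ => (ex_pos _ _).le).mul_left C).mul_right (‖w‖ * ‖u‖)) fun p => ?_
    have := ex_pos η1 p.1.2
    have := ex_pos η1 p.2.2
    rw [norm_mul, norm_mul]
    calc _ ≤ ‖w‖ * (C * (ex η1 p.1.2 * ex η1 p.2.2) * ‖u‖) := by
          gcongr
          exacts [w.norm_coe_le_norm _, h _ _, u.norm_coe_le_norm _]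
      _ = _ := by ring
  have a := F.hasSum.prod_fiberwise (g := fun b => w (ng b) * Sap S u b) fun b =>
    (scha_Sap h0 h u b).1.hasSum.mul_left _
  have b := ((Equiv.prodComm Idx Idx).hasSum_iff.2 F.hasSum).prod_fiberwise
    (g := fun c => u c * Sap S w (ng c)) fun c => by
      have := ((Function.Involutive.toPerm ng scha_ng).hasSum_iff.2
        (scha_Sap h0 h w (ng c)).1.hasSum).mul_left (u c)
      refine this.congr_fun fun b => ?_
      change w (ng b) * (S b c * u c) = u c * (S (ng c) (ng b) * w (ng b))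
      rw [hs b c]; ring
  simpa using a.sub b

/-- `B (X_(-p), (T - σ ℓ) X_q)` is symmetric -/
theorem SH0.Mm_symm (h : SH0 η1 C κ S ℓ σ j n) (hs : BSym S) {p q : ℤ} (hp : |p| = n)
    (hq : |q| = n) : Mm S ℓ σ j n p q = Mm S ℓ σ j n (-q) (-p) := by
  obtain ⟨-, u1, u2, -⟩ := h.qv_spec hq
  obtain ⟨-, w1, w2, -⟩ := h.qv_spec (q := -p) (by rwa [abs_neg])
  have a := scha_pair h.η_pos h.crude hs (qv S ℓ σ j n q) (qv S ℓ σ j n (-p))
  have b := (hasSum_ite_eq (j, p) (Mm S ℓ σ j n p q)).sub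
    (hasSum_ite_eq (j, q) (Mm S ℓ σ j n (-q) (-p)))
  refine sub_eq_zero.1 (b.unique (a.congr_fun fun b => ?_))
  by_cases hb : inP j n b
  · have e : ng b = (j, -p) ↔ b = (j, p) := by simp [ng, Prod.ext_iff]
    rw [u1 b hb, w1 _ (scha_inP.2 hb)]
    simp only [e]
    congr 1 <;> split_ifs with k <;> simp [k, Mm, ng]
  · rw [if_neg (scha_ne hb hp), if_neg (scha_ne hb hq), ← u2 b hb,
      ← w2 _ fun k => hb (scha_inP.1 k), scha_dvs]
    ring

theorem scha_conj (hs : RSym S) {x y : Idx → ℂ} (e : ∀ b, y b = (starRingEnd ℂ) (x (ng b)))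
    (b : Idx) : Sap S y (ng b) = (starRingEnd ℂ) (Sap S x b) := by
  rw [Sap, Sap, conj_tsum, ← scha_tsum]
  exact tsum_congr fun c => by rw [hs, e, scha_ng, map_mul]

theorem SH0.Mm_conj (h : SH0 η1 C κ S ℓ σ j n) (hs : RSym S) (hσ : σ.im = 0) {p q : ℤ}
    (hp : |p| = n) (hq : |q| = n) :
    Mm S ℓ σ j n (-p) (-q) = (starRingEnd ℂ) (Mm S ℓ σ j n p q) := by
  obtain ⟨u0, u1, u2, -⟩ := h.qv_spec hq
  obtain ⟨y, e⟩ : ∃ y : X, ∀ b, y b = (starRingEnd ℂ) (qv S ℓ σ j n q (ng b)) :=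
    ⟨toB _, toB_apply (C := 2) fun b => by
      rw [norm_conj]; exact (norm_coe_le_norm _ _).trans u0⟩
  have k : y = qv S ℓ σ j n (-q) := by
    refine h.scha_inv (fun b hb => ?_) fun b => ?_
    · have d : (starRingEnd ℂ) (dvs ℓ σ b) = dvs ℓ σ b := by
        simp only [dvs, map_sub, map_mul, conj_ofReal, map_intCast, conj_eq_iff_im.2 hσ]
      have := scha_conj hs e (ng b)
      rw [scha_ng, ← u2 _ fun k => hb (scha_inP.1 k), scha_dvs, map_mul, d] at this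
      rw [this, e]
    · have i : ng b = (j, q) ↔ b = (j, -q) := by simp [ng, Prod.ext_iff, neg_eq_iff_eq_neg]
      rw [scha_bas]
      by_cases hb : inP j n b
      · rw [if_pos hb, e, u1 _ (scha_inP.2 hb)]
        simp only [i]
        split_ifs <;> simp
      · rw [if_neg hb, if_neg (scha_ne hb (by rwa [abs_neg]))]
  rw [Mm, Mm, ← k]
  exact scha_conj hs e (j, p)

end StekIso
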