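import Pool.Agent.Lib.MP_fa022d_an.Hol

/-! Curves that keep finitely many insensitive functions constant and leave an open set. -/

namespace Pool.Agent.Lib.MP_fa022d_an

open Set Metric Filter Topology
open scoped ContDiff

variable {X : Type*} [NormedAddCommGroup X] [NormedSpace ℝ X]

/-- at `p` the directions `V M` eventually push curves out of the closure of `O` -/
def Push (O : Set X) (V : ℕ → X) (p : X) : Prop :=
  ∃ l : X →L[ℝ] ℝ, ∃ c > 0, (∃ᶠ M in atTop, c ≤ |l (V M)|) ∧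
    ∀ (g : ℝ → X) (Y : X), g 0 = p → HasDerivAt g Y 0 → 0 < l Y →
      ∀ᶠ t in 𝓝[>] (0 : ℝ), g t ∈ interior Oᶜ

/-- a `C^1` curve in `B` that starts in `O` and reaches the frontier of `O` at time `T` -/
structure Exit (O B : Set X) (T : ℝ) (x y : ℝ → X) : Prop where
  pos : 0 < T
  der : ∀ t ∈ Icc 0 T, HasDerivAt x (y t) t
  cont : ContinuousOn y (Icc 0 T)
  mem : ∀ t ∈ Icc 0 T, x t ∈ B
  ins : ∀ t ∈ Ico 0 T, x t ∈ O
  out : x T ∈ frontier O

theorem soft_flow [CompleteSpace X] {O B : Set X} (hO : IsOpen O) (hB : IsOpen B) {Y : X → X}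
    (hY : ContDiffOn ℝ 1 Y B) {p : X} (hp : p ∈ B)
    (H : ∀ g : ℝ → X, g 0 = p → HasDerivAt g (Y p) 0 → ∀ᶠ t in 𝓝[>] (0 : ℝ), g t ∈ interior Oᶜ) :
    ∀ᶠ q in 𝓝 p, q ∈ O → ∃ T x, x 0 = q ∧ Exit O B T x fun t => Y (x t) := by
  obtain ⟨ε, hε, a, r, L, K, hr, hpl⟩ :=
    IsPicardLindelof.of_contDiffAt_one (hY.contDiffAt (hB.mem_nhds hp))
  obtain ⟨α, h1, h2⟩ := (hpl 0).exists_forall_mem_closedBall_eq_hasDerivWithinAt_continuousOn
  simp only [zero_sub, zero_add] at h1 h2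
  have nb : closedBall p r ∈ 𝓝 p := closedBall_mem_nhds p hr
  have ca : ∀ t ∈ Ioo (-ε) ε, ContinuousAt α (p, t) := fun t ht =>
    h2.continuousAt (prod_mem_nhds nb (Icc_mem_nhds ht.1 ht.2))
  have z : (0 : ℝ) ∈ Ioo (-ε) ε := ⟨by linarith, hε⟩
  have hd : ∀ q ∈ closedBall p r, ∀ t ∈ Ioo (-ε) ε, HasDerivAt (fun s => α (q, s)) (Y (α (q, t))) t :=
    fun q hq t ht => ((h1 q hq).2 t (Ioo_subset_Icc_self ht)).hasDerivAt (Icc_mem_nhds ht.1 ht.2)
  have e0 := (h1 p (mem_of_mem_nhds nb)).1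
  have hN : α ⁻¹' B ∈ 𝓝 (p, (0 : ℝ)) := ca 0 z (by rw [e0]; exact hB.mem_nhds hp)
  obtain ⟨u, hu, v, hv, huv⟩ := mem_nhds_prod_iff.1 hN
  obtain ⟨δ, hδ, hδv⟩ := Metric.mem_nhds_iff.1 (inter_mem hv (isOpen_Ioo.mem_nhds z))
  have h3 := H (fun s => α (p, s)) e0 (by simpa only [e0] using hd p (mem_of_mem_nhds nb) 0 z)
  obtain ⟨τ, h4, h5⟩ := (h3.and (Ioo_mem_nhdsGT hδ)).exists
  have sub : ∀ t ∈ Icc 0 τ, t ∈ v ∧ t ∈ Ioo (-ε) ε := fun t ht => hδv (by
    rw [mem_ball_zero_iff, Real.norm_of_nonneg ht.1]; exact ht.2.trans_lt h5.2)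
  have h6 : ContinuousAt (fun q => α (q, τ)) p :=
    ContinuousAt.comp (f := fun q => (q, τ)) (ca τ (sub τ ⟨h5.1.le, le_rfl⟩).2) (by fun_prop)
  filter_upwards [h6.eventually (isOpen_interior.mem_nhds h4), hu, nb] with q q1 q2 q3 hq
  have dq := fun t (ht : t ∈ Icc 0 τ) => hd q q3 t (sub t ht).2
  have cq : ContinuousOn (fun s => α (q, s)) (Icc 0 τ) := fun t ht =>
    (dq t ht).continuousAt.continuousWithinAt
  have cl : IsClosed (Icc 0 τ ∩ (fun s => α (q, s)) ⁻¹' Oᶜ) :=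
    cq.preimage_isClosed_of_isClosed isClosed_Icc hO.isClosed_compl
  obtain ⟨T, ⟨hT, hT'⟩, hm⟩ := (isCompact_Icc.of_isClosed_subset cl inter_subset_left).exists_isLeast
    ⟨τ, ⟨h5.1.le, le_rfl⟩, interior_subset (s := Oᶜ) q1⟩
  have e1 := (h1 q q3).1
  have T0 : 0 < T := hT.1.lt_of_ne fun e => hT' (by subst e; simpa only [e1] using hq)
  have sT : Icc 0 T ⊆ Icc 0 τ := Icc_subset_Icc_right hT.2
  have hin : ∀ t ∈ Ico 0 T, α (q, t) ∈ O := fun t ht => by
    by_contra h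
    exact (hm ⟨sT (Ico_subset_Icc_self ht), h⟩).not_gt ht.2
  have hm : ∀ t ∈ Icc 0 T, α (q, t) ∈ B := fun t ht => huv (mk_mem_prod q2 (sub t (sT ht)).1)
  refine ⟨T, fun s => α (q, s), e1, T0, fun t ht => dq t (sT ht),
    hY.continuousOn.comp (cq.mono sT) hm, hm, hin, ?_, ?_⟩
  · refine mem_closure_of_tendsto (b := 𝓝[<] T)
      ((dq T hT).continuousAt.tendsto.mono_left nhdsWithin_le_nhds) ?_
    filter_upwards [Ico_mem_nhdsLT T0] with t ht using hin t ht
  · rw [hO.interior_eq]; exact hT'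

theorem Exit.const {O B : Set X} {T : ℝ} {x y : ℝ → X} (h : Exit O B T x y) {f : X → ℝ}
    (hf : ∀ z ∈ B, DifferentiableAt ℝ f z) (h0 : ∀ t ∈ Icc 0 T, fderiv ℝ f (x t) (y t) = 0) :
    ∀ t ∈ Icc 0 T, f (x t) = f (x 0) := by
  have d : ∀ t ∈ Icc 0 T, HasDerivAt (fun s => f (x s)) 0 t := fun t ht =>
    h0 t ht ▸ (hf _ (h.mem t ht)).hasFDerivAt.comp_hasDerivAt t (h.der t ht)
  exact constant_of_has_deriv_right_zero (f := fun s => f (x s))
    (fun t ht => (d t ht).continuousAt.continuousWithinAt)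
    fun t ht => (d t (Ico_subset_Icc_self ht)).hasDerivWithinAt

/-- the matrix of directional derivatives -/
noncomputable def jac {n : ℕ} (f : Fin n → X → ℝ) (e : Fin n → X) (x : X) :
    Matrix (Fin n) (Fin n) ℝ := Matrix.of fun i l => fderiv ℝ (f l) x (e i)

theorem soft_det {n : ℕ} {A : X → Matrix (Fin n) (Fin n) ℝ} {B : Set X}
    (h : ∀ i l, ContDiffOn ℝ 1 (fun x => A x i l) B) : ContDiffOn ℝ 1 (fun x => (A x).det) B := by
  simp only [Matrix.det_apply']
  exact ContDiffOn.sum fun σ _ => contDiffOn_const.mul (contDiffOn_prod fun i _ => h _ _)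

theorem soft_step [CompleteSpace X] {O B : Set X} (hO : IsOpen O) (hB : IsOpen B) {V : ℕ → X}
    {n : ℕ} {f : Fin n → X → ℝ} (e : Fin n → X) (hf : ∀ l, ContDiffOn ℝ 2 (f l) B) {p : X}
    (hp : p ∈ B) (hP : Push O V p) (hV : ∀ l, Tendsto (fun M => fderiv ℝ (f l) p (V M)) atTop (𝓝 0))
    (hΔ : (jac f e p).det ≠ 0) :
    ∀ᶠ q in 𝓝 p, q ∈ O → ∃ T x y, x 0 = q ∧ Exit O B T x y ∧ ∀ t ∈ Icc 0 T,
      (jac f e (x t)).det ≠ 0 ∧ ∀ l, fderiv ℝ (f l) (x t) (y t) = 0 := by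
  obtain ⟨l, c, hc, h1, h2⟩ := hP
  have hD : ∀ k v, ContDiffOn ℝ 1 (fun x => fderiv ℝ (f k) x v) B := fun k v =>
    ((hf k).fderiv_of_isOpen hB (m := 1) (by norm_num)).clm_apply contDiffOn_const
  have hd : ContDiffOn ℝ 1 (fun x => (jac f e x).det) B := soft_det fun i k => hD k (e i)
  let b : X → X → Fin n → ℝ := fun v x k => fderiv ℝ (f k) x v
  let Y : X → X → X := fun v x =>
    (jac f e x).det • v - ∑ i, (jac f e x).transpose.cramer (b v x) i • e i
  have hY : ∀ v, ContDiffOn ℝ 1 (Y v) B := fun v => by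
    refine (hd.smul contDiffOn_const).sub (ContDiffOn.sum fun i _ => .smul ?_ contDiffOn_const)
    simp only [Matrix.cramer_transpose_apply]
    refine soft_det fun i' k => ?_
    simp only [Matrix.updateRow_apply]
    split_ifs
    exacts [hD k v, hD k (e i')]
  have hk : ∀ v x k, fderiv ℝ (f k) x (Y v x) = 0 := fun v x k => by
    have := congrFun (Matrix.mulVec_cramer (jac f e x).transpose (b v x)) k
    simp only [Matrix.mulVec, dotProduct, Matrix.transpose_apply, Matrix.det_transpose,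
      Pi.smul_apply] at this
    simp only [Y, map_sub, map_smul, map_sum]
    rw [sub_eq_zero]
    refine this.symm.trans (Finset.sum_congr rfl fun i _ => ?_)
    simp only [jac, Matrix.of_apply, smul_eq_mul, mul_comm]
  have hb : Tendsto (fun M => b (V M) p) atTop (𝓝 0) := tendsto_pi_nhds.2 hV
  have hs : Tendsto (fun M => l (∑ i, (jac f e p).transpose.cramer (b (V M) p) i • e i))
      atTop (𝓝 0) := by
    have c1 := (jac f e p).transpose.cramer.continuous_of_finiteDimensional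
    have c2 : Continuous fun w => l (∑ i, (jac f e p).transpose.cramer w i • e i) := by fun_prop
    simpa [Function.comp_def] using (c2.tendsto 0).comp hb
  obtain ⟨M, m1, m2⟩ := (h1.and_eventually (hs.abs.eventually
    (gt_mem_nhds (show |(0 : ℝ)| < |(jac f e p).det| * c by simpa using by positivity)))).exists
  have hne : l (Y (V M) p) ≠ 0 := fun h => by
    simp only [Y, map_sub, map_smul, smul_eq_mul] at h
    rw [← sub_eq_zero.1 h, abs_mul] at m2
    exact m2.not_ge (mul_le_mul_of_nonneg_left m1 (abs_nonneg _))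
  have hB' : IsOpen (B ∩ (fun x => (jac f e x).det) ⁻¹' {0}ᶜ) :=
    hd.continuousOn.isOpen_inter_preimage hB isOpen_compl_singleton
  refine (soft_flow hO hB' (Y := fun x => l (Y (V M) p) • Y (V M) x)
    (((hY _).const_smul _).mono inter_subset_left) ⟨hp, hΔ⟩ fun g g0 gd => h2 g _ g0 gd ?_).mono
    fun q hq hqO => ?_
  · rw [map_smul, smul_eq_mul]; exact mul_self_pos.2 hne
  · obtain ⟨T, x, x0, h⟩ := hq hqO
    exact ⟨T, x, _, x0, ⟨h.pos, h.der, h.cont, fun t ht => (h.mem t ht).1, h.ins, h.out⟩,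
      fun t ht => ⟨(h.mem t ht).2, fun k => by rw [map_smul, hk, smul_zero]⟩⟩

/-- a class of smooth, insensitive functions with the identity theorem on lines -/
structure Cls (B : Set X) (V : ℕ → X) (C : Set (X → ℝ)) : Prop where
  smooth : ∀ f ∈ C, ContDiffOn ℝ 2 f B
  dir : ∀ f ∈ C, ∀ e, (fun x => fderiv ℝ f x e) ∈ C
  const : ∀ c, (fun _ => c) ∈ C
  add : ∀ f ∈ C, ∀ g ∈ C, (fun x => f x + g x) ∈ C
  mul : ∀ f ∈ C, ∀ g ∈ C, (fun x => f x * g x) ∈ C
  ins : ∀ f ∈ C, ∀ x ∈ B, Tendsto (fun M => fderiv ℝ f x (V M)) atTop (𝓝 0)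
  ident : ∀ f ∈ C, ∀ q ∈ B, ∀ x ∈ B, f x ≠ 0 →
    ∃ m, (fun g y => fderiv ℝ g y (x - q))^[m] f q ≠ 0

variable {O B : Set X} {V : ℕ → X} {C : Set (X → ℝ)}

theorem Cls.det (h : Cls B V C) {n : ℕ} {A : X → Matrix (Fin n) (Fin n) ℝ}
    (hA : ∀ i l, (fun x => A x i l) ∈ C) : (fun x => (A x).det) ∈ C := by
  simp only [Matrix.det_apply']
  have hp : ∀ (σ : Equiv.Perm (Fin n)) (s : Finset (Fin n)), (fun x => ∏ i ∈ s, A x (σ i) i) ∈ C :=
    fun σ s => by
      induction s using Finset.induction_on with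
      | empty => simpa using h.const 1
      | insert a s ha ih => simpa only [Finset.prod_insert ha] using h.mul _ (hA _ _) _ ih
  generalize (Finset.univ : Finset (Equiv.Perm (Fin n))) = s
  induction s using Finset.induction_on with
  | empty => simpa using h.const 0
  | insert a s ha ih =>
    simpa only [Finset.sum_insert ha] using h.add _ (h.mul _ (h.const _) _ (hp a _)) _ ih

theorem soft_front (hO : IsOpen O) (hc : IsPreconnected B) (h1 : (B ∩ O).Nonempty)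
    (h2 : (B ∩ interior Oᶜ).Nonempty) : (B ∩ frontier O).Nonempty := by
  by_contra h
  obtain ⟨x, -, x1, x2⟩ := hc O (interior Oᶜ) hO isOpen_interior (fun x hx => by
    by_contra k
    rw [mem_union, not_or, interior_compl, mem_compl_iff, not_not] at k
    exact h ⟨x, hx, k.2, fun k' => k.1 (interior_subset k')⟩) h1 h2
  exact interior_subset x2 x1

/-- Lemma A: a function of the class that vanishes on the frontier vanishes -/
theorem Cls.zero [CompleteSpace X] (h : Cls B V C) (hO : IsOpen O) (hB : IsOpen B)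
    (hq : (B ∩ frontier O).Nonempty) (hP : ∀ p ∈ B ∩ frontier O, Push O V p) {f : X → ℝ}
    (hf : f ∈ C) (h0 : ∀ p ∈ B ∩ frontier O, f p = 0) : ∀ x ∈ B, f x = 0 := by
  classical
  intro x hx
  by_contra hne
  obtain ⟨q, hq⟩ := hq
  have ex : ∃ m, ∃ q ∈ B ∩ frontier O, ∃ e, (fun g y => fderiv ℝ g y e)^[m] f q ≠ 0 :=
    let ⟨m, hm⟩ := h.ident f hf q hq.1 x hx hne; ⟨m, q, hq, _, hm⟩
  obtain ⟨p, hp, e, he⟩ := Nat.find_spec ex
  have hmin := fun m => Nat.find_min ex (m := m)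
  generalize Nat.find ex = m at he hmin
  cases m with
  | zero => exact he (h0 p hp)
  | succ m =>
    rw [Function.iterate_succ_apply'] at he
    have hg : (fun g y => fderiv ℝ g y e)^[m] f ∈ C := by
      clear he hmin
      induction m with
      | zero => exact hf
      | succ m ih => rw [Function.iterate_succ_apply']; exact h.dir _ ih e
    have g0 : ∀ z ∈ B ∩ frontier O, (fun g y => fderiv ℝ g y e)^[m] f z = 0 := fun z hz => by
      by_contra k
      exact hmin m (Nat.lt_succ_self m) ⟨z, hz, e, k⟩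
    generalize (fun g y => fderiv ℝ g y e)^[m] f = g at he hg g0
    have s1 := soft_step hO hB (n := 1) (f := fun _ => g) (fun _ => e) (fun _ => h.smooth g hg)
      hp.1 (hP p hp) (fun _ => h.ins g hg p hp.1) (by simpa [jac] using he)
    have s2 := (((h.smooth _ (h.dir g hg e)).continuousOn.continuousAt
      (hB.mem_nhds hp.1)).eventually_ne he).and (hB.mem_nhds hp.1)
    obtain ⟨z, z1, z2⟩ := mem_closure_iff_nhds.1 hp.2.1 _ (s1.and s2).eventually_nhds
    have : ∃ᶠ w in 𝓝 z, g w ≠ 0 := fun k => (z1.self_of_nhds).2.1 (by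
      rw [Filter.EventuallyEq.fderiv_eq (f := fun _ => (0 : ℝ)) (k.mono fun w hw => not_not.1 hw)]
      simp)
    obtain ⟨w, w1, w2, w3⟩ := (this.and_eventually (z1.and (hO.mem_nhds z2))).exists
    obtain ⟨T, x, y, x0, hE, hk⟩ := w2.1 w3
    have := hE.const (fun z hz => ((h.smooth g hg).contDiffAt (hB.mem_nhds hz)).differentiableAt
      (by norm_num)) (fun t ht => (hk t ht).2 0) T ⟨hE.pos.le, le_rfl⟩
    rw [x0, g0 _ ⟨hE.mem T ⟨hE.pos.le, le_rfl⟩, hE.out⟩] at this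
    exact w1 this.symm

theorem Cls.exit [CompleteSpace X] (h : Cls B V C) (hO : IsOpen O) (hB : IsOpen B)
    (hq : (B ∩ frontier O).Nonempty) (hP : ∀ p ∈ B ∩ frontier O, Push O V p) {ι : Type*} [Finite ι]
    {ψ : ι → X → ℝ} (hψ : ∀ j, ψ j ∈ C) :
    ∃ T x y, Exit O B T x y ∧ ∀ j, ∀ t ∈ Icc 0 T, ψ j (x t) = ψ j (x 0) := by
  have := Fintype.ofFinite ι
  let R : Set ℕ := {n | ∃ (j : Fin n → ι) (e : Fin n → X), ∃ x ∈ B, (jac (fun l => ψ (j l)) e x).det ≠ 0}
  have R0 : R.Nonempty := let ⟨q, hq⟩ := hq; ⟨0, Fin.elim0, Fin.elim0, q, hq.1, by simp⟩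
  have Rb : BddAbove R := ⟨Fintype.card ι, fun n ⟨j, e, x, _, hx⟩ => by
    by_contra k
    obtain ⟨a, b, hab, e'⟩ := Fintype.exists_ne_map_eq_of_card_lt j (by simpa using k)
    exact hx (Matrix.det_zero_of_column_eq hab fun i => by simp [jac, e'])⟩
  obtain ⟨j, e, x, hx, hΔ⟩ := Nat.sSup_mem R0 Rb
  have Rm : sSup R + 1 ∉ R := fun k => (le_csSup Rb k).not_gt (Nat.lt_succ_self _)
  generalize sSup R = n at j e hΔ Rm
  have : ∃ p ∈ B ∩ frontier O, (jac (fun l => ψ (j l)) e p).det ≠ 0 := by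
    by_contra k
    push Not at k
    exact hΔ (h.zero hO hB hq hP (h.det fun i l => h.dir _ (hψ _) _) k x hx)
  obtain ⟨p, hp, hΔ⟩ := this
  obtain ⟨z, z1, z2⟩ := mem_closure_iff_nhds.1 hp.2.1 _ (soft_step hO hB e
    (fun l => h.smooth _ (hψ (j l))) hp.1 (hP p hp) (fun l => h.ins _ (hψ _) p hp.1) hΔ)
  obtain ⟨T, x, y, -, hE, hk⟩ := z1 z2
  refine ⟨T, x, y, hE, fun i => hE.const (fun z hz => ((h.smooth _ (hψ i)).contDiffAt
    (hB.mem_nhds hz)).differentiableAt (by norm_num)) fun t ht => ?_⟩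
  by_contra k
  refine Rm ⟨Fin.cons i j, Fin.cons (y t) e, x t, hE.mem t ht, ?_⟩
  rw [Matrix.det_succ_row_zero, Fin.sum_univ_succ, Finset.sum_eq_zero fun l _ => by
    simp [jac, (hk t ht).2 l]]
  have e' : (jac (fun l => ψ ((Fin.cons i j : Fin (n + 1) → ι) l)) (Fin.cons (y t) e) (x t)).submatrix
      Fin.succ (Fin.succAbove 0) = jac (fun l => ψ (j l)) e (x t) := by
    ext a b; simp [jac]
  rw [e']
  simpa [jac, k] using (hk t ht).1

end Pool.Agent.Lib.MP_fa022d_an
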