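import Pool.Agent.Lib.MP_fa022d_an.Defs6
import Pool.Agent.Lib.MP_fa022d_an.HiA
import Pool.Agent.Lib.MP_fa022d_an.Top2
import Pool.Agent.Lib.MP_fa022d_an.Touch

/-! `emb_open` and `ovl_openV` are in the file Touch. -/

open Set Filter Topology Metric BoundedContinuousFunction Complex

noncomputable section
namespace StekIso

theorem Emb.not_ovl {B : Base} {η : Pos} {lam : ℝ} {v : V η} (h : Emb B lam v) : ¬Ovl B lam v := by
  rintro ⟨a, ha, b, hb, n, e⟩
  have s : ∀ z ∈ ann (Hv B lam v) 0, z ∈ cann (Hv B lam v) := fun z hz =>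
    ⟨by simpa using hz.1.le, by simpa using hz.2.le⟩
  exact n (h (s a ha) (s b hb) e)

end StekIso
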