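import Pool.Agent.Lib.MP_fa022d_an.Push
import Pool.Agent.Lib.MP_fa022d_an.TouchO

open Set Filter Topology Metric BoundedContinuousFunction Complex

noncomputable section
namespace StekIso

theorem soft_data {B : GeoBase} {η : Pos} {r δ C δC CC μ Cs c0 ε lam ρ r' θ : ℝ}
    {Ai ϱ : Bool → ℤ → ℂ} (hG : GeoOK B η r δ C) (hC : CurvOK B.toBase η B.lam0 δC CC)
    (hS : SymOK B.toBase η.1 μ Cs c0 Ai ϱ) (hT : TouchOK B η μ r') (h1 : r' ≤ r) (h2 : r' ≤ δC)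
    (hl : |lam - B.lam0| < r') {x0 : X} {π : X → X} (hP : PiOK B.toBase η ε lam x0 ρ r' θ π)
    (hθ : θ ≤ c0 / 64) (hO : (Oset B.toBase η ε lam x0 ρ π).Nonempty)
    (hN : (Nset B.toBase η ε lam x0 ρ π).Nonempty) :
    SoftData (reB Idx) x0 ρ (Oset B.toBase η ε lam x0 ρ π) (Nset B.toBase η ε lam x0 ρ π)
      (WM B.toBase η.1) (tM η.1 ε) := by
  have mem : ∀ x ∈ (reB Idx : Set X) ∩ ball x0 ρ, ∀ s, r' ≤ s → toV η ε (π x) ∈ RB η s :=
    fun x hx s hs => ⟨toV_real η ε (hP.real x hx.2 hx.1), (hP.small x hx.2).trans_le hs⟩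
  have dπ : ∀ x ∈ ball x0 ρ, HasFDerivAt π (fderiv ℂ π x) x := fun x hx =>
    (hP.diff.differentiableAt (isOpen_ball.mem_nhds hx)).hasFDerivAt
  have near : ∀ x ∈ ball x0 ρ, ∀ k > 0, ∀ᶠ y in 𝓝 x, y ∈ ball x0 ρ ∧
      sn (toV η ε (π y) - toV η ε (π x)) + |lam - lam| ≤ k := fun x hx k hk => by
    obtain ⟨K, -, hK⟩ := weak_le η
    have c : ContinuousAt (fun y => K * ‖toV η ε (π y) - toV η ε (π x)‖) x :=
      continuousAt_const.mul
        (((toV η ε).continuous.continuousAt.comp (dπ x hx).continuousAt).sub continuousAt_const).norm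
    filter_upwards [isOpen_ball.mem_nhds hx, c.eventually_lt continuousAt_const
      (show _ < k by simpa using hk)] with y h1 h2
    exact ⟨h1, by rw [sub_self, abs_zero, add_zero]; exact (hK _).2.2.2.trans h2.le⟩
  have hr := hl.trans_le h1
  have oN : ∀ x ∈ Nset B.toBase η ε lam x0 ρ π, ∀ᶠ y in 𝓝 x, y ∈ reB Idx →
      y ∈ Nset B.toBase η ε lam x0 ρ π := fun x hx => by
    obtain ⟨k, hk, h⟩ := ovl_openV hG (mem x hx.1 r h1) hr (hP.clo x hx.1.2) hx.2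
    filter_upwards [near x hx.1.2 k hk] with y hy hy'
    exact ⟨⟨hy', hy.1⟩, h _ (mem y ⟨hy', hy.1⟩ r h1) lam hr hy.2⟩
  refine ⟨hP.x0_mem, fun x hx => hx.1, fun x hx => hx.1, fun x hx => ?_, oN,
    disjoint_left.2 fun x a b => a.2.not_ovl b.2, hO, hN, fun M => (Wpk_mem η.2 hS _).1,
    fun M => mul_pos hP.ε_pos (beta_pos _ _), fun x hx hc hn => ?_⟩
  · obtain ⟨k, hk, h⟩ := emb_open hG (mem x hx.1 r h1) hr (hP.clo x hx.1.2) hx.2
    filter_upwards [near x hx.1.2 k hk] with y hy hy'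
    exact ⟨⟨hy', hy.1⟩, h _ (mem y ⟨hy', hy.1⟩ r h1) lam hr hy.2⟩
  have nO : ¬Ovl B.toBase lam (toV η ε (π x)) := fun h => by
    obtain ⟨y, a, b⟩ := ((mem_closure_iff_frequently.1 hc).and_eventually (oN x ⟨hx, h⟩)).exists
    exact a.2.not_ovl (b a.1.1).2
  obtain ⟨p, q, hpq, hp, hq, hs, hne, ht⟩ :=
    hT _ (mem x hx r' le_rfl) lam hl (hP.clo x hx.2) nO fun h => hn ⟨hx, h⟩
  let L : X →L[ℂ] ℂ := (ContinuousLinearMap.mul ℂ ℂ).flip
    (exp (-(I * vth (kapV B.toBase (toV η ε (π x), (lam : ℂ))) q))) ∘L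
    fderiv ℂ (fun z : V η × ℂ => chord (kapV B.toBase z) p q) (toV η ε (π x), (lam : ℂ)) ∘L
    ContinuousLinearMap.inl ℂ (V η) ℂ ∘L toV η ε ∘L fderiv ℂ π x
  refine ⟨imCLM ∘L L.restrictScalars ℝ, ⟨c0 / 16, by linarith [hS.c0_pos],
    push_size hC hS (hl.trans_le h2) hP h2 hθ hx.2 hx.1 hpq hp hq hs hne
      (tan_opp hG hr (mem x hx r h1) (hP.clo x hx.2) nO hne ht)⟩, fun c w c0 ce cd hw => ?_⟩
  subst c0
  have cb : ∀ᶠ τ in 𝓝 (0 : ℝ), c τ ∈ (reB Idx : Set X) ∩ ball x0 ρ :=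
    ce.and (cd.continuousAt.eventually (isOpen_ball.mem_nhds hx.2))
  have hd : HasDerivAt (fun τ => toV η ε (π (c τ))) (toV η ε (fderiv ℂ π (c 0) w)) 0 :=
    (((toV η ε).hasFDerivAt.comp _ (dπ _ hx.2)).restrictScalars ℝ).comp_hasDerivAt 0 cd
  filter_upwards [push_v hG hC hr (hl.trans_le h2)
    (cb.mono fun τ h => ⟨mem _ h _ (le_min h1 h2), hP.clo _ h.2⟩) hd hne ht hw,
    nhdsWithin_le_nhds cb] with τ a b using ⟨b, a⟩

end StekIso
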