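import Pool.Agent.Lib.MP_fa022d_an.Defs4
import Pool.Agent.Lib.MP_fa022d_an.Sym1

/-! The symbols of the limit operator in terms of the base kernel. -/

open Set Filter Topology Metric Complex

noncomputable section
namespace StekIso

/-- `π` times the smooth base kernel -/
def SS (B : Base) (j : Bool) (s t : ℂ) : ℂ := Real.pi * fs2 (S0 B B.H0 j j) s t
/-- `π` times the full base kernel -/
def KK (B : Base) (j : Bool) (s t : ℂ) : ℂ := SS B j s t - csq (s - t)
def FF (B : Base) (j : Bool) (s t : ℂ) : ℂ := SS B j (s + Real.pi) t - SS B j s (t - Real.pi)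
def Cseq (B : Base) (η : ℝ) (j : Bool) (τ : ℝ) (a : ℤ) : ℂ :=
  ∑' a' : ℤ, qn B η j (a, a') * exp (I * a' * τ)

theorem sym2_A (B : Base) (η : ℝ) (j : Bool) : Aseq B η j = Cseq B η j 0 := by
  funext a; simp [Aseq, Cseq]

theorem sym2_B (B : Base) (η : ℝ) (j : Bool) : Bseq B η j = Cseq B η j Real.pi := by
  funext a; simp only [Bseq, Cseq, sym1_sg_exp]

theorem sym2_geo {x : ℝ} (hx : 0 < x) : Summable fun k : ℤ => ex x k := by
  simpa using summable_ex hx 0

variable {B : Base} {C0 : ℝ}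

theorem sym2_H0 (B : Base) : (B.H0 : ℂ) ∈ ball (B.H0 : ℂ) 1 := mem_ball_self one_pos

theorem sym2_term_le (hB : BaseOK B C0) (j : Bool) {y : ℝ} {s t : ℂ} (hs : |s.im| ≤ y)
    (ht : |t.im| ≤ y) (p : ℤ × ℤ) :
    ‖S0 B B.H0 j j p * (exp (I * p.1 * s) * exp (I * p.2 * t))‖ ≤
      C0 * (ex (B.η0 / 3 - y) p.1 * ex (B.η0 / 3 - y) p.2) := by
  have key : ∀ (k : ℤ) (s : ℂ), |s.im| ≤ y →
      ex (B.η0 / 3) k * ‖exp (I * k * s)‖ ≤ ex (B.η0 / 3 - y) k := fun k s hs => by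
    rw [sym1_norm_exp, ex, ex, ← Real.exp_add]
    apply Real.exp_le_exp.2
    have h1 : -(k * s.im) ≤ |(k : ℝ)| * |s.im| := by rw [← abs_mul]; exact neg_le_abs _
    nlinarith [abs_nonneg (k : ℝ)]
  have hC : 0 ≤ C0 := by linarith [hB.one_le]
  have e1 := ex_pos (B.η0 / 3) p.1
  have e2 := ex_pos (B.η0 / 3) p.2
  rw [norm_mul, norm_mul]
  calc _ ≤ C0 * (ex (B.η0 / 3) p.1 * ex (B.η0 / 3) p.2) *
        (‖exp (I * p.1 * s)‖ * ‖exp (I * p.2 * t)‖) := by
        gcongr; exact hB.bd _ (sym2_H0 B) j j p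
    _ = C0 * ((ex (B.η0 / 3) p.1 * ‖exp (I * p.1 * s)‖) *
        (ex (B.η0 / 3) p.2 * ‖exp (I * p.2 * t)‖)) := by ring
    _ ≤ _ := by
        have := ex_pos (B.η0 / 3 - y) p.1
        gcongr
        · exact key _ _ hs
        · exact key _ _ ht

theorem sym2_maj {x : ℝ} (hx : 0 < x) (C : ℝ) :
    Summable fun p : ℤ × ℤ => C * (ex x p.1 * ex x p.2) :=
  (Summable.mul_of_nonneg (sym2_geo hx) (sym2_geo hx) (fun k => (ex_pos x k).le)
    (fun k => (ex_pos x k).le)).mul_left C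

theorem sym2_summable (hB : BaseOK B C0) (j : Bool) {y : ℝ} (hy : y < B.η0 / 3) {s t : ℂ}
    (hs : |s.im| ≤ y) (ht : |t.im| ≤ y) :
    Summable fun p : ℤ × ℤ => ‖S0 B B.H0 j j p * (exp (I * p.1 * s) * exp (I * p.2 * t))‖ :=
  Summable.of_nonneg_of_le (fun _ => norm_nonneg _) (sym2_term_le hB j hs ht)
    (sym2_maj (by linarith) C0)

theorem sym2_contAt (hB : BaseOK B C0) (j : Bool) {z : ℂ × ℂ} (h1 : z.1.im = 0)
    (h2 : z.2.im = 0) : ContinuousAt (fun z : ℂ × ℂ => SS B j z.1 z.2) z := by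
  have h0 := B.η0_pos
  have hc : ContinuousOn (fun z : ℂ × ℂ => fs2 (S0 B B.H0 j j) z.1 z.2)
      {z | |z.1.im| < B.η0 / 6 ∧ |z.2.im| < B.η0 / 6} :=
    continuousOn_tsum (fun p => by fun_prop) (sym2_maj (x := B.η0 / 3 - B.η0 / 6) (by linarith) C0)
      fun p z hz => sym2_term_le hB j hz.1.le hz.2.le p
  have ho : IsOpen {z : ℂ × ℂ | |z.1.im| < B.η0 / 6 ∧ |z.2.im| < B.η0 / 6} :=
    IsOpen.inter (isOpen_lt (f := fun z : ℂ × ℂ => |z.1.im|) (by fun_prop) continuous_const)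
      (isOpen_lt (f := fun z : ℂ × ℂ => |z.2.im|) (by fun_prop) continuous_const)
  exact continuousAt_const.mul (hc.continuousAt (ho.mem_nhds (by
    show |z.1.im| < _ ∧ |z.2.im| < _
    simp only [h1, h2, abs_zero]; constructor <;> positivity)))

theorem sym2_per1 (B : Base) (j : Bool) (s t : ℂ) : SS B j (s + 2 * Real.pi) t = SS B j s t := by
  unfold SS fs2; congr 1
  refine tsum_congr fun p => ?_
  rw [mul_add, exp_add, show I * p.1 * (2 * Real.pi) = p.1 * (2 * Real.pi * I) by ring,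
    exp_int_mul_two_pi_mul_I, mul_one]

theorem sym2_per2 (B : Base) (j : Bool) (s t : ℂ) : SS B j s (t + 2 * Real.pi) = SS B j s t := by
  unfold SS fs2; congr 1
  refine tsum_congr fun p => ?_
  rw [mul_add, exp_add, show I * p.2 * (2 * Real.pi) = p.2 * (2 * Real.pi * I) by ring,
    exp_int_mul_two_pi_mul_I, mul_one]

theorem sym2_even (hB : BaseOK B C0) (j : Bool) (s t : ℂ) : SS B j (-s) (-t) = SS B j s t := by
  unfold SS fs2; congr 1
  rw [← (Equiv.neg (ℤ × ℤ)).tsum_eq]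
  refine tsum_congr fun p => ?_
  have := hB.refl _ (sym2_H0 B) j j p.1 p.2
  simp only [Equiv.neg_apply, Prod.fst_neg, Prod.snd_neg, Int.cast_neg]
  rw [show -p = (-p.1, -p.2) from rfl, this]
  congr 2 <;> ring_nf

theorem sym2_real (hB : BaseOK B C0) (j : Bool) (s t : ℝ) : (SS B j s t).im = 0 := by
  rw [← conj_eq_iff_im, ← sym2_even hB j s t]
  have : (starRingEnd ℂ) (SS B j (-s) (-t)) = SS B j s t := by
    unfold SS fs2
    rw [map_mul, conj_ofReal, conj_tsum]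
    congr 1
    refine tsum_congr fun p => ?_
    rw [map_mul, map_mul, conj_eq_iff_im.2 (hB.real _ (sym2_H0 B) (by simp) j j p), ← exp_conj,
      ← exp_conj]
    simp
  rw [this, sym2_even hB]

theorem sym2_csq {x : ℂ} (hx : 0 < x.im) :
    exp (I * x) / (1 - exp (I * x)) ^ 2 = -csq x ∧ sin (x / 2) ≠ 0 := by
  have h1 : sin (x / 2) ≠ 0 := by
    rw [Ne, Complex.sin_eq_zero_iff]
    rintro ⟨k, hk⟩
    have := congrArg Complex.im hk
    simp at this; linarith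
  refine ⟨?_, h1⟩
  have e : exp (I * x) = exp (x / 2 * I) ^ 2 := by rw [← exp_nat_mul]; congr 1; push_cast; ring
  have h2 : exp (x / 2 * I) ≠ 0 := exp_ne_zero _
  have h3 : 1 - exp (I * x) = -2 * I * sin (x / 2) * exp (x / 2 * I) := by
    have h4 : exp (-(x / 2) * I) * exp (x / 2 * I) = 1 := by rw [← exp_add]; simp
    rw [e, Complex.sin]
    linear_combination (-1 : ℂ) * h4 +
      (exp (-(x / 2) * I) - exp (x / 2 * I)) * exp (x / 2 * I) * I_mul_I
  rw [h3, e, csq]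
  field_simp
  simp
  norm_num

/-- the diagonal part -/
theorem sym2_diag {w : ℂ} (hw : ‖w‖ < 1) :
    HasSum (fun p : ℤ × ℤ => (if p.1 = p.2 ∧ 1 ≤ p.1 then (p.1 : ℂ) else 0) * w ^ p.1)
      (w / (1 - w) ^ 2) := by
  have hi : Function.Injective fun n : ℕ => ((n : ℤ), (n : ℤ)) := fun a b h => by simpa using h
  rw [← hi.hasSum_iff]
  · refine (hasSum_coe_mul_geometric_of_norm_lt_one hw).congr_fun fun n => ?_
    rcases Nat.eq_zero_or_pos n with rfl | hn
    · simp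
    · have : (1 : ℤ) ≤ n := by exact_mod_cast hn
      simp [this]
  · rintro ⟨a, b⟩ hp
    have : ¬(a = b ∧ 1 ≤ a) := by
      rintro ⟨rfl, h⟩
      exact hp ⟨a.toNat, by simp [Int.toNat_of_nonneg (by omega : 0 ≤ a)]⟩
    simp [this]

theorem sym2_hasSum (hB : BaseOK B C0) (j : Bool) {η : ℝ} (hη : 0 < η) (h : η ≤ B.η0 / 12)
    (τ : ℝ) {φ : ℂ} (hφ : φ.im ∈ Ioo (-(7 / 4 * η)) (5 / 4 * η)) :
    HasSum (fun p : ℤ × ℤ => qn B η j p * exp (I * p.2 * τ) * exp (I * p.1 * φ))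
      (KK B j (φ + I * η) (-τ - I * η)) := by
  have h0 := B.η0_pos
  have hx : 0 < (φ + I * η - (-τ - I * η)).im := by simp; linarith [hφ.1]
  have hw : ‖exp (I * (φ + I * η - (-τ - I * η)))‖ < 1 := by
    rw [norm_exp, Real.exp_lt_one_iff]
    simp; linarith [hφ.1]
  have d := sym2_diag hw
  rw [(sym2_csq hx).1] at d
  have s := (sym2_summable hB j (y := 9 / 4 * η) (by linarith) (s := φ + I * η) (t := -τ - I * η)
    (by simp only [add_im, mul_im, I_re, I_im, ofReal_re, ofReal_im]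
        rw [abs_le]; constructor <;> linarith [hφ.1, hφ.2])
    (by simp only [sub_im, neg_im, mul_im, I_re, I_im, ofReal_re, ofReal_im]
        rw [abs_le]; constructor <;> linarith)).of_norm.hasSum.mul_left (Real.pi : ℂ)
  have s' := ((Equiv.refl ℤ).prodCongr (Equiv.neg ℤ)).hasSum_iff.2 s
  rw [KK, sub_eq_neg_add]
  refine (d.add s').congr_fun fun p => ?_
  have r := hB.refl _ (sym2_H0 B) j j p.1 (-p.2)
  rw [neg_neg] at r
  simp only [Function.comp, Equiv.prodCongr_apply, Equiv.coe_refl, Equiv.neg_apply, Prod.map,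
    id, qn, Qc, r, Int.cast_neg, ofReal_exp]
  have e1 : exp (I * p.1 * (φ + I * η)) * exp (I * -(p.2 : ℂ) * (-τ - I * η)) =
      exp ((-η * (p.1 + p.2) : ℝ) : ℂ) * exp (I * p.2 * τ) * exp (I * p.1 * φ) := by
    rw [← exp_add, ← exp_add, ← exp_add]; congr 1; push_cast
    linear_combination (η * p.1 + η * p.2 : ℂ) * I_mul_I
  rw [e1]
  split_ifs with hp
  · have e2 : exp (I * (φ + I * η - (-τ - I * η))) ^ p.1 =
        exp ((-η * (p.1 + p.2) : ℝ) : ℂ) * exp (I * p.2 * τ) * exp (I * p.1 * φ) := by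
      rw [← exp_int_mul, ← exp_add, ← exp_add, ← hp.1]; congr 1; push_cast
      linear_combination (2 * η * p.1 : ℂ) * I_mul_I
    rw [e2]; ring
  · ring

theorem sym2_C (hB : BaseOK B C0) (j : Bool) {η : ℝ} (hη : 0 < η) (h : η ≤ B.η0 / 12) (τ : ℝ) :
    Hs (-(7 / 4 * η)) (5 / 4 * η) (Cseq B η j τ) ∧
      ∀ φ : ℂ, φ.im ∈ Ioo (-(7 / 4 * η)) (5 / 4 * η) →
        fs (Cseq B η j τ) φ = KK B j (φ + I * η) (-τ - I * η) := by
  have key : ∀ φ : ℂ, φ.im ∈ Ioo (-(7 / 4 * η)) (5 / 4 * η) →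
      HasSum (fun a : ℤ => Cseq B η j τ a * exp (I * a * φ))
        (KK B j (φ + I * η) (-τ - I * η)) := fun φ hφ => by
    have s := sym2_hasSum hB j hη h τ hφ
    refine s.prod_fiberwise fun a => ?_
    rw [Cseq, ← tsum_mul_right]
    exact (s.summable.prod_factor a).hasSum
  exact ⟨Hs.of_norm fun y hy => summable_norm_iff.2 (key _ (by simpa using hy)).summable,
    fun φ hφ => (key φ hφ).tsum_eq⟩

theorem sym2_qn_real (hB : BaseOK B C0) (η : ℝ) (j : Bool) (p : ℤ × ℤ) : (qn B η j p).im = 0 := by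
  have := hB.real _ (sym2_H0 B) (by simp) j j (-p.1, p.2)
  unfold qn Qc
  split_ifs <;> simp [this, -ofReal_exp]

theorem sym2_rA (hB : BaseOK B C0) (η : ℝ) (j : Bool) : Rl (Aseq B η j) := Rl.of_conj fun a => by
  simp only [Aseq, conj_tsum, conj_eq_iff_im.2 (sym2_qn_real hB η j _)]

theorem sym2_rB (hB : BaseOK B C0) (η : ℝ) (j : Bool) : Rl (Bseq B η j) := Rl.of_conj fun a => by
  simp only [Bseq, conj_tsum, map_mul, conj_eq_iff_im.2 (sym2_qn_real hB η j _),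
    conj_eq_iff_im.2 (sym1_sg_im _)]

theorem sym2_qsym (hB : BaseOK B C0) (η : ℝ) (j : Bool) (a a' : ℤ) :
    qn B η j (a, a') = qn B η j (a', a) := by
  have r := hB.refl _ (sym2_H0 B) j j a' (-a)
  rw [neg_neg] at r
  have s := hB.sym _ (sym2_H0 B) j j (-a) a'
  simp only [qn, Qc, r, s, add_comm (a' : ℝ)]
  congr 2
  by_cases h : a = a'
  · simp [h]
  · simp [h, Ne.symm h]

theorem sym2_qbd (hB : BaseOK B C0) {η : ℝ} (hη : 0 < η) (h : η ≤ B.η0 / 12) (j : Bool)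
    (p : ℤ × ℤ) : ‖qn B η j p‖ ≤
      (2 / η + Real.pi * C0) * (ex (3 / 4 * η) p.1 * ex (3 / 4 * η) p.2) := by
  have hC : 0 ≤ C0 := by linarith [hB.one_le]
  have h0 := B.η0_pos
  have e1 := ex_pos (3 / 4 * η) p.1
  have e2 := ex_pos (3 / 4 * η) p.2
  rw [qn, Qc, mul_add, add_mul]
  refine (norm_add_le _ _).trans (add_le_add ?_ ?_)
  · split_ifs with hp
    · have h1 : (1 : ℝ) ≤ p.1 := by exact_mod_cast hp.2
      rw [norm_mul, norm_real, norm_intCast, Real.norm_eq_abs, abs_of_pos (Real.exp_pos _), ex, ex,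
        ← hp.1, abs_of_pos (by linarith : (0 : ℝ) < p.1), ← Real.exp_add]
      have h2 : η / 2 * p.1 ≤ Real.exp (η / 2 * p.1) := by
        linarith [Real.add_one_le_exp (η / 2 * p.1)]
      have h3 : (p.1 : ℝ) ≤ 2 / η * Real.exp (η / 2 * p.1) := by
        rw [div_mul_eq_mul_div, le_div_iff₀ hη]; linarith
      calc _ ≤ Real.exp (-η * (p.1 + p.1)) * (2 / η * Real.exp (η / 2 * p.1)) := by gcongr
        _ = _ := by
          rw [mul_left_comm, ← Real.exp_add]; congr 2; ring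
    · simp only [mul_zero, norm_zero]; positivity
  · have b := hB.bd _ (sym2_H0 B) j j (-p.1, p.2)
    rw [norm_mul, norm_mul, norm_real, norm_real, Real.norm_eq_abs, Real.norm_eq_abs,
      abs_of_pos (Real.exp_pos _), abs_of_pos Real.pi_pos]
    have k : Real.exp (-η * (p.1 + p.2)) * (ex (B.η0 / 3) (-p.1) * ex (B.η0 / 3) p.2) ≤
        ex (3 / 4 * η) p.1 * ex (3 / 4 * η) p.2 := by
      simp only [ex, ← Real.exp_add, Int.cast_neg, abs_neg]
      apply Real.exp_le_exp.2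
      nlinarith [neg_abs_le (p.1 : ℝ), neg_abs_le (p.2 : ℝ), abs_nonneg (p.1 : ℝ),
        abs_nonneg (p.2 : ℝ)]
    calc _ ≤ Real.exp (-η * (p.1 + p.2)) *
          (Real.pi * (C0 * (ex (B.η0 / 3) (-p.1) * ex (B.η0 / 3) p.2))) := by gcongr
      _ = Real.pi * C0 * (Real.exp (-η * (p.1 + p.2)) *
          (ex (B.η0 / 3) (-p.1) * ex (B.η0 / 3) p.2)) := by ring
      _ ≤ _ := by gcongr

end StekIso
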