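import Pool.Agent.Lib.MP_fa022d_an.Top2
import Pool.Agent.Lib.MP_fa022d_an.Four2

/-! Helpers for the image of the annulus: openness, closure, inverse map. -/

open Set Filter Topology Metric BoundedContinuousFunction Complex

noncomputable section
namespace StekIso

theorem top3a_strict {F : ℂ → ℂ} {H δ : ℝ} (hd : DifferentiableOn ℂ F (ann H δ)) {z : ℂ}
    (hz : z ∈ ann H δ) : HasStrictDerivAt F (deriv F z) z :=
  (hd.analyticAt ((isOpen_ann H δ).mem_nhds hz)).hasStrictDerivAt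

theorem top3a_mono {H δ δ' : ℝ} (h : δ' ≤ δ) : ann H δ' ⊆ ann H δ := fun _ hz =>
  ⟨(Real.exp_le_exp.2 (by linarith)).trans_lt hz.1, hz.2.trans_le (Real.exp_le_exp.2 h)⟩

theorem top3a_cann_sub {H δ : ℝ} (hδ : 0 < δ) : cann H ⊆ ann H δ := fun _ hz =>
  ⟨(Real.exp_lt_exp.2 (by linarith)).trans_le hz.1,
    hz.2.trans_lt (Real.one_lt_exp_iff.2 hδ)⟩

theorem top3a_ann0 {H : ℝ} {z : ℂ} : z ∈ ann H 0 ↔ Real.exp (-H) < ‖z‖ ∧ ‖z‖ < 1 := by
  simp [ann]

theorem top3a_ann0_sub {H : ℝ} : ann H 0 ⊆ cann H := fun _ hz =>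
  ⟨(top3a_ann0.1 hz).1.le, (top3a_ann0.1 hz).2.le⟩

theorem top3a_open {F : ℂ → ℂ} {H δ δ' : ℝ} (hd : DifferentiableOn ℂ F (ann H δ))
    (h0 : ∀ z ∈ ann H δ, deriv F z ≠ 0) (h : δ' ≤ δ) : IsOpen (F '' ann H δ') := by
  rw [isOpen_iff_mem_nhds]
  rintro _ ⟨z, hz, rfl⟩
  have hz' := top3a_mono h hz
  rw [← (top3a_strict hd hz').map_nhds_eq (h0 z hz')]
  exact image_mem_map ((isOpen_ann H δ').mem_nhds hz)

theorem top3a_closure {H : ℝ} (hH : 0 < H) : closure (ann H 0) = cann H := by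
  refine Subset.antisymm (closure_minimal top3a_ann0_sub (isCompact_cann H).isClosed) ?_
  intro z hz
  have he : Real.exp (-H) < 1 := Real.exp_lt_one_iff.2 (by linarith)
  have hp : 0 < ‖z‖ := (Real.exp_pos _).trans_le hz.1
  set r : ℝ := (Real.exp (-H) + 1) / 2 with hr
  have hc : Continuous fun t : ℝ => (((1 - t) + t * (r / ‖z‖) : ℝ) : ℂ) * z := by fun_prop
  have ht : Tendsto (fun t : ℝ => (((1 - t) + t * (r / ‖z‖) : ℝ) : ℂ) * z) (𝓝[>] 0) (𝓝 z) := by
    have := (hc.tendsto 0).mono_left (nhdsWithin_le_nhds (s := Ioi 0))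
    simpa using this
  refine mem_closure_of_tendsto ht ?_
  filter_upwards [Ioo_mem_nhdsGT (show (0 : ℝ) < 1 by norm_num)] with t ht
  have hr0 : 0 < r := by have := Real.exp_pos (-H); linarith
  have h1 : 0 ≤ (1 - t) + t * (r / ‖z‖) := by
    have := ht.1; have := ht.2
    have : 0 ≤ t * (r / ‖z‖) := by positivity
    linarith
  have h2 : ‖(((1 - t) + t * (r / ‖z‖) : ℝ) : ℂ) * z‖ = (1 - t) * ‖z‖ + t * r := by
    rw [norm_mul, Complex.norm_real, Real.norm_of_nonneg h1]; field_simp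
  rw [top3a_ann0, h2]
  have h3 := hz.1; have h4 := hz.2; have h5 := ht.1; have h6 := ht.2
  constructor <;> nlinarith

theorem top3a_closure_image {F : ℂ → ℂ} {H δ : ℝ} (hH : 0 < H) (hδ : 0 < δ)
    (hd : DifferentiableOn ℂ F (ann H δ)) (h0 : ∀ z ∈ ann H δ, deriv F z ≠ 0)
    (hi : InjOn F (cann H)) :
    IsOpen (F '' ann H 0) ∧ closure (F '' ann H 0) = F '' cann H ∧
      frontier (F '' ann H 0) = F '' {z | ‖z‖ = 1 ∨ ‖z‖ = Real.exp (-H)} := by
  have ho := top3a_open hd h0 hδ.le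
  have hc : ContinuousOn F (cann H) := hd.continuousOn.mono (top3a_cann_sub hδ)
  have hcl : closure (F '' ann H 0) = F '' cann H := by
    refine Subset.antisymm (closure_minimal (image_mono top3a_ann0_sub)
      ((isCompact_cann H).image_of_continuousOn hc).isClosed) ?_
    rw [← top3a_closure hH]
    exact ContinuousOn.image_closure (by rw [top3a_closure hH]; exact hc)
  refine ⟨ho, hcl, ?_⟩
  have he : Real.exp (-H) < 1 := Real.exp_lt_one_iff.2 (by linarith)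
  rw [ho.frontier_eq, hcl]
  ext w
  constructor
  · rintro ⟨⟨z, hz, rfl⟩, hn⟩
    refine ⟨z, ?_, rfl⟩
    by_contra hc
    simp only [mem_ofPred_eq, not_or] at hc
    exact hn ⟨z, top3a_ann0.2 ⟨lt_of_le_of_ne hz.1 (Ne.symm hc.2), lt_of_le_of_ne hz.2 hc.1⟩, rfl⟩
  · rintro ⟨z, hz, rfl⟩
    have hzc : z ∈ cann H := by
      rcases hz with h | h
      · exact ⟨by rw [h]; exact he.le, h.le⟩
      · exact ⟨h.ge, by rw [h]; exact he.le⟩
    refine ⟨⟨z, hzc, rfl⟩, ?_⟩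
    rintro ⟨y, hy, hyz⟩
    have := hi (top3a_ann0_sub hy) hzc hyz
    subst this
    have := top3a_ann0.1 hy
    rcases hz with h | h <;> linarith [this.1, this.2]

theorem top3a_loc_inj {F : ℂ → ℂ} {H δ : ℝ} (hd : DifferentiableOn ℂ F (ann H δ))
    (h0 : ∀ z ∈ ann H δ, deriv F z ≠ 0) {z : ℂ} (hz : z ∈ ann H δ) : ∃ u ∈ 𝓝 z, InjOn F u := by
  have h := (top3a_strict hd hz).hasStrictFDerivAt_equiv (h0 z hz)
  exact ⟨_, (h.toOpenPartialHomeomorph F).open_source.mem_nhds h.mem_toOpenPartialHomeomorph_source,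
    (h.toOpenPartialHomeomorph F).injOn⟩

theorem top3a_thick {H ε : ℝ} (hH : 0 < H) (hε : 0 < ε) :
    ∃ δ' > 0, ann H δ' ⊆ thickening ε (cann H) := by
  have hc : Continuous fun d : ℝ => Real.exp d - 1 := by fun_prop
  have h1 : ∀ᶠ d : ℝ in 𝓝[>] 0, Real.exp d - 1 < ε :=
    nhdsWithin_le_nhds ((hc.tendsto 0).eventually (gt_mem_nhds (by simpa using hε)))
  have hc2 : Continuous fun d : ℝ => Real.exp (-H) - Real.exp (-H - d) := by fun_prop
  have h2 : ∀ᶠ d : ℝ in 𝓝[>] 0, Real.exp (-H) - Real.exp (-H - d) < ε :=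
    nhdsWithin_le_nhds ((hc2.tendsto 0).eventually (gt_mem_nhds (by simpa using hε)))
  obtain ⟨d, ⟨hd1, hd2⟩, hd0⟩ := ((h1.and h2).and self_mem_nhdsWithin).exists
  have he : Real.exp (-H) < 1 := Real.exp_lt_one_iff.2 (by linarith)
  refine ⟨d, hd0, fun z hz => ?_⟩
  have hp : 0 < ‖z‖ := (Real.exp_pos _).trans hz.1
  have key : ∀ r : ℝ, Real.exp (-H) ≤ r → r ≤ 1 → |‖z‖ - r| < ε → z ∈ thickening ε (cann H) := by
    intro r hr1 hr2 hr3
    have hr0 : 0 < r := (Real.exp_pos _).trans_le hr1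
    have hn : ‖((r / ‖z‖ : ℝ) : ℂ) * z‖ = r := by
      rw [norm_mul, Complex.norm_real, Real.norm_of_nonneg (by positivity)]; field_simp
    refine mem_thickening_iff.2 ⟨((r / ‖z‖ : ℝ) : ℂ) * z, ⟨by rw [hn]; exact hr1, by
      rw [hn]; exact hr2⟩, ?_⟩
    have : z - ((r / ‖z‖ : ℝ) : ℂ) * z = (((‖z‖ - r) / ‖z‖ : ℝ) : ℂ) * z := by
      have : ((‖z‖ : ℝ) : ℂ) ≠ 0 := by exact_mod_cast hp.ne'
      push_cast; field_simp
    rw [dist_eq_norm, this, norm_mul, Complex.norm_real, Real.norm_eq_abs, abs_div,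
      abs_of_pos hp, div_mul_cancel₀ _ hp.ne']
    exact hr3
  rcases le_total ‖z‖ (Real.exp (-H)) with h | h
  · exact key _ le_rfl he.le (by rw [abs_sub_comm, abs_of_nonneg (by linarith)]; linarith [hz.1])
  rcases le_total ‖z‖ 1 with h' | h'
  · exact key _ h h' (by simpa using hε)
  · exact key _ he.le le_rfl (by rw [abs_of_nonneg (by linarith)]; linarith [hz.2])

theorem top3a_inverse {F : ℂ → ℂ} {H δ : ℝ} (hH : 0 < H) (hδ : 0 < δ)
    (hd : DifferentiableOn ℂ F (ann H δ)) (h0 : ∀ z ∈ ann H δ, deriv F z ≠ 0)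
    (hi : InjOn F (cann H)) : ∃ δ' > 0, δ' ≤ δ ∧ InjOn F (ann H δ') ∧ IsOpen (F '' ann H δ') ∧
      ∃ Φ : ℂ → ℂ, (∀ z ∈ ann H δ', HasDerivAt Φ (deriv F z)⁻¹ (F z)) ∧
        ∀ z ∈ ann H δ', Φ (F z) = z := by
  obtain ⟨t, hto, hst, hti⟩ := hi.exists_isOpen_superset (isCompact_cann H)
    (fun z hz => (top3a_strict hd (top3a_cann_sub hδ hz)).hasDerivAt.continuousAt)
    (fun z hz => top3a_loc_inj hd h0 (top3a_cann_sub hδ hz))
  obtain ⟨ε, hε, hth⟩ := (isCompact_cann H).exists_thickening_subset_open hto hst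
  obtain ⟨d, hd0, hds⟩ := top3a_thick hH hε
  have hm : min d δ ≤ δ := min_le_right _ _
  have hinj : InjOn F (ann H (min d δ)) :=
    hti.mono ((top3a_mono (min_le_left _ _)).trans (hds.trans hth))
  refine ⟨min d δ, lt_min hd0 hδ, hm, hinj, top3a_open hd h0 hm,
    Function.invFunOn F (ann H (min d δ)), fun z hz => ?_, fun z hz => hinj.leftInvOn_invFunOn hz⟩
  have hz' := top3a_mono hm hz
  refine ((top3a_strict hd hz').to_local_left_inverse (h0 z hz') ?_).hasDerivAt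
  filter_upwards [(isOpen_ann H _).mem_nhds hz] with y hy
  exact hinj.leftInvOn_invFunOn hy

end StekIso
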