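import Mathlib

/-! Weighted convolution algebras: sequences `c` with `‖c g‖ ≤ C * w g`, `w * w ≤ w`. -/

open Set Filter Topology BoundedContinuousFunction

noncomputable section
namespace StekIso

/-- A positive subconvolutive weight on an abelian group. -/
structure Wt (G : Type) [AddCommGroup G] where
  w : G → ℝ
  pos : ∀ g, 0 < w g
  summ : ∀ g, Summable fun h => w h * w (g - h)
  conv_le : ∀ g, ∑' h, w h * w (g - h) ≤ w g

variable {G : Type} [AddCommGroup G] [TopologicalSpace G] [DiscreteTopology G]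

/-- The weighted algebra (stored in normalised coordinates). -/
def WAlg (_ω : Wt G) : Type := G →ᵇ ℂ

namespace WAlg
variable {ω : Wt G}

instance : NormedAddCommGroup (WAlg ω) := inferInstanceAs (NormedAddCommGroup (G →ᵇ ℂ))
instance : NormedSpace ℂ (WAlg ω) := inferInstanceAs (NormedSpace ℂ (G →ᵇ ℂ))
instance : CompleteSpace (WAlg ω) := inferInstanceAs (CompleteSpace (G →ᵇ ℂ))

/-- normalised coordinates -/
def raw (a : WAlg ω) : G →ᵇ ℂ := a

/-- the coefficient sequence -/
def coeff (a : WAlg ω) (g : G) : ℂ := (ω.w g : ℂ) * a.raw g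

/-- build an element from a bounded sequence -/
def mk (c : G → ℂ) (C : ℝ) (h : ∀ g, ‖c g‖ ≤ C * ω.w g) : WAlg ω :=
  BoundedContinuousFunction.ofNormedAddCommGroupDiscrete (fun g => c g / (ω.w g : ℂ)) C (fun g => by
    have := ω.pos g
    rw [norm_div, Complex.norm_real, Real.norm_of_nonneg this.le, div_le_iff₀ this]; exact h g)

@[simp] theorem coeff_mk (c : G → ℂ) (C : ℝ) (h : ∀ g, ‖c g‖ ≤ C * ω.w g) (g : G) :
    (mk c C h).coeff g = c g := by
  have : (ω.w g : ℂ) ≠ 0 := by exact_mod_cast (ω.pos g).ne'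
  show (ω.w g : ℂ) * (c g / (ω.w g : ℂ)) = c g
  field_simp

theorem norm_coeff_le (a : WAlg ω) (g : G) : ‖a.coeff g‖ ≤ ‖a‖ * ω.w g := by
  rw [coeff, norm_mul, Complex.norm_real, Real.norm_of_nonneg (ω.pos g).le, mul_comm]
  exact mul_le_mul_of_nonneg_right (a.raw.norm_coe_le_norm g) (ω.pos g).le

theorem norm_le_of_coeff (a : WAlg ω) {C : ℝ} (hC : 0 ≤ C) (h : ∀ g, ‖a.coeff g‖ ≤ C * ω.w g) :
    ‖a‖ ≤ C := by
  refine (BoundedContinuousFunction.norm_le (f := a.raw) hC).2 fun g => ?_
  have := h g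
  rw [coeff, norm_mul, Complex.norm_real, Real.norm_of_nonneg (ω.pos g).le, mul_comm] at this
  exact le_of_mul_le_mul_right this (ω.pos g)

@[ext] theorem ext {a b : WAlg ω} (h : ∀ g, a.coeff g = b.coeff g) : a = b := by
  refine BoundedContinuousFunction.ext (f := a.raw) (g := b.raw) fun g => ?_
  have hw : (ω.w g : ℂ) ≠ 0 := by exact_mod_cast (ω.pos g).ne'
  exact mul_left_cancel₀ hw (h g)

@[simp] theorem coeff_add (a b : WAlg ω) (g : G) : (a + b).coeff g = a.coeff g + b.coeff g :=
  mul_add _ _ _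
@[simp] theorem coeff_zero (g : G) : (0 : WAlg ω).coeff g = 0 := mul_zero _
@[simp] theorem coeff_smul (c : ℂ) (a : WAlg ω) (g : G) : (c • a).coeff g = c * a.coeff g :=
  mul_left_comm _ _ _
@[simp] theorem coeff_neg (a : WAlg ω) (g : G) : (-a).coeff g = -a.coeff g := mul_neg _ _
@[simp] theorem coeff_sub (a b : WAlg ω) (g : G) : (a - b).coeff g = a.coeff g - b.coeff g := by
  rw [sub_eq_add_neg, coeff_add, coeff_neg, sub_eq_add_neg]

/-- the coefficient as a continuous linear functional -/
def coeffL (g : G) : WAlg ω →L[ℂ] ℂ :=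
  LinearMap.mkContinuous ⟨⟨fun a => a.coeff g, fun a b => coeff_add a b g⟩,
    fun c a => coeff_smul c a g⟩ (ω.w g) fun a => by
      rw [mul_comm]; exact norm_coeff_le a g

@[simp] theorem coeffL_apply (g : G) (a : WAlg ω) : coeffL g a = a.coeff g := rfl

theorem norm_term_le (a b : WAlg ω) (g h : G) :
    ‖a.coeff h * b.coeff (g - h)‖ ≤ ‖a‖ * ‖b‖ * (ω.w h * ω.w (g - h)) := by
  rw [norm_mul]
  calc _ ≤ (‖a‖ * ω.w h) * (‖b‖ * ω.w (g - h)) :=
        mul_le_mul (norm_coeff_le a h) (norm_coeff_le b _) (norm_nonneg _)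
          (mul_nonneg (norm_nonneg _) (ω.pos h).le)
    _ = _ := by ring

theorem summable_conv (a b : WAlg ω) (g : G) : Summable fun h => a.coeff h * b.coeff (g - h) :=
  Summable.of_norm_bounded ((ω.summ g).mul_left (‖a‖ * ‖b‖)) (norm_term_le a b g)

theorem norm_conv_le (a b : WAlg ω) (g : G) :
    ‖∑' h, a.coeff h * b.coeff (g - h)‖ ≤ ‖a‖ * ‖b‖ * ω.w g := by
  refine (tsum_of_norm_bounded ((ω.summ g).mul_left (‖a‖ * ‖b‖)).hasSum
    (norm_term_le a b g)).trans ?_
  rw [tsum_mul_left]
  exact mul_le_mul_of_nonneg_left (ω.conv_le g) (by positivity)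

instance : Mul (WAlg ω) :=
  ⟨fun a b => mk (fun g => ∑' h, a.coeff h * b.coeff (g - h)) (‖a‖ * ‖b‖) (norm_conv_le a b)⟩

open Classical in
instance : One (WAlg ω) :=
  ⟨mk (fun g => if g = 0 then 1 else 0) (ω.w 0)⁻¹ fun g => by
    by_cases h : g = 0
    · subst h; simp [(ω.pos 0).ne']
    · have := ω.pos 0; have := ω.pos g
      simp only [h, if_false, norm_zero]; positivity⟩

theorem coeff_mul (a b : WAlg ω) (g : G) :
    (a * b).coeff g = ∑' h, a.coeff h * b.coeff (g - h) := coeff_mk _ _ _ _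

open Classical in
theorem coeff_one (g : G) : (1 : WAlg ω).coeff g = if g = 0 then 1 else 0 := coeff_mk _ _ _ _

theorem mul_comm' (a b : WAlg ω) : a * b = b * a := by
  ext g
  rw [coeff_mul, coeff_mul, ← (Equiv.subLeft g).tsum_eq]
  exact tsum_congr fun h => by simp [mul_comm]

theorem summable_triple (a b c : WAlg ω) (g : G) :
    Summable fun p : G × G => a.coeff p.2 * b.coeff (p.1 - p.2) * c.coeff (g - p.1) := by
  have hw : Summable fun p : G × G => ω.w p.2 * ω.w (p.1 - p.2) * ω.w (g - p.1) := by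
    refine (summable_prod_of_nonneg fun p => ?_).2 ⟨fun h => (ω.summ h).mul_right (ω.w (g - h)), ?_⟩
    · exact (mul_pos (mul_pos (ω.pos _) (ω.pos _)) (ω.pos _)).le
    · refine Summable.of_nonneg_of_le (fun h => tsum_nonneg fun k =>
        (mul_pos (mul_pos (ω.pos _) (ω.pos _)) (ω.pos _)).le) (fun h => ?_) (ω.summ g)
      simp only
      rw [tsum_mul_right]
      exact mul_le_mul_of_nonneg_right (ω.conv_le h) (ω.pos _).le
  refine Summable.of_norm_bounded (hw.mul_left (‖a‖ * ‖b‖ * ‖c‖)) fun p => ?_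
  rw [norm_mul]
  calc _ ≤ (‖a‖ * ‖b‖ * (ω.w p.2 * ω.w (p.1 - p.2))) * (‖c‖ * ω.w (g - p.1)) :=
        mul_le_mul (norm_term_le a b p.1 p.2) (norm_coeff_le c _) (norm_nonneg _)
          (mul_nonneg (by positivity) (mul_pos (ω.pos _) (ω.pos _)).le)
    _ = _ := by ring

theorem mul_assoc' (a b c : WAlg ω) : a * b * c = a * (b * c) := by
  ext g
  have hs := summable_triple a b c g
  let e : G × G ≃ G × G :=
    { toFun := fun p => (p.1 + p.2, p.1), invFun := fun p => (p.2, p.1 - p.2),
      left_inv := fun p => by simp, right_inv := fun p => by simp }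
  have hs2 := e.summable_iff.2 hs
  calc (a * b * c).coeff g
      = ∑' h, ∑' k, a.coeff k * b.coeff (h - k) * c.coeff (g - h) := by
        rw [coeff_mul]; exact tsum_congr fun h => by rw [coeff_mul, tsum_mul_right]
    _ = ∑' p : G × G, a.coeff p.2 * b.coeff (p.1 - p.2) * c.coeff (g - p.1) := hs.tsum_prod.symm
    _ = ∑' p : G × G, a.coeff (e p).2 * b.coeff ((e p).1 - (e p).2) * c.coeff (g - (e p).1) :=
        (e.tsum_eq _).symm
    _ = ∑' k, ∑' l, a.coeff (e (k, l)).2 * b.coeff ((e (k, l)).1 - (e (k, l)).2) *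
          c.coeff (g - (e (k, l)).1) := hs2.tsum_prod
    _ = _ := by
        rw [coeff_mul]
        refine tsum_congr fun k => ?_
        rw [coeff_mul, ← tsum_mul_left]
        exact tsum_congr fun l => by simp [e, mul_assoc, sub_sub]

theorem one_mul' (a : WAlg ω) : 1 * a = a := by
  classical
  ext g
  rw [coeff_mul, tsum_eq_single 0 fun h hh => by simp [coeff_one, hh]]
  simp [coeff_one]

theorem left_distrib' (a b c : WAlg ω) : a * (b + c) = a * b + a * c := by
  ext g
  simp only [coeff_add, coeff_mul, mul_add]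
  exact (summable_conv a b g).tsum_add (summable_conv a c g)

theorem zero_mul' (a : WAlg ω) : 0 * a = 0 := by
  ext g; simp [coeff_mul]

instance : CommRing (WAlg ω) :=
  { (inferInstance : AddCommGroup (WAlg ω)), (inferInstance : Mul (WAlg ω)),
    (inferInstance : One (WAlg ω)) with
    left_distrib := left_distrib'
    right_distrib := fun a b c => by rw [mul_comm', left_distrib', mul_comm' c, mul_comm' c]
    zero_mul := zero_mul'
    mul_zero := fun a => by rw [mul_comm', zero_mul']
    mul_assoc := mul_assoc'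
    one_mul := one_mul'
    mul_one := fun a => by rw [mul_comm', one_mul']
    mul_comm := mul_comm' }

instance : NormedCommRing (WAlg ω) :=
  { (inferInstance : CommRing (WAlg ω)), (inferInstance : NormedAddCommGroup (WAlg ω)) with
    norm_mul_le := fun a b => norm_le_of_coeff _ (by positivity) fun g => by
      rw [coeff_mul]; exact norm_conv_le a b g }

theorem smul_mul' (c : ℂ) (a b : WAlg ω) : (c • a) * b = c • (a * b) := by
  ext g
  simp only [coeff_smul, coeff_mul, mul_assoc, tsum_mul_left]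

instance : Algebra ℂ (WAlg ω) :=
  Algebra.ofModule smul_mul' fun c a b => by rw [mul_comm, smul_mul', mul_comm]

instance : NormedAlgebra ℂ (WAlg ω) :=
  { (inferInstance : Algebra ℂ (WAlg ω)) with norm_smul_le := fun c a => norm_smul_le c a }

instance : NormedAlgebra ℚ (WAlg ω) := NormedAlgebra.restrictScalars ℚ ℂ _

end WAlg
end StekIso
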