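import Mathlib

/-! The raw weights. -/

noncomputable section
namespace StekIso

/-- positive reals -/
abbrev Pos := {x : ℝ // 0 < x}

/-- `1 + |k|` -/
def br (k : ℤ) : ℝ := 1 + |(k : ℝ)|
/-- `exp (-η |k|)` -/
def ex (η : ℝ) (k : ℤ) : ℝ := Real.exp (-η * |(k : ℝ)|)
/-- the weight in one variable -/
def beta (η : ℝ) (k : ℤ) : ℝ := ex η k / br k ^ 4
/-- the weight in two variables -/
def W2 (η : ℝ) (p : ℤ × ℤ) : ℝ :=
  if 0 ≤ p.1 * p.2 then beta η (|p.1| + |p.2|) else beta η p.1 * beta η p.2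

theorem br_pos (k : ℤ) : 0 < br k := by unfold br; positivity
theorem one_le_br (k : ℤ) : 1 ≤ br k := by unfold br; linarith [abs_nonneg (k : ℝ)]
theorem ex_pos (η : ℝ) (k : ℤ) : 0 < ex η k := Real.exp_pos _
theorem beta_pos (η : ℝ) (k : ℤ) : 0 < beta η k := div_pos (ex_pos _ _) (pow_pos (br_pos k) 4)
theorem W2_pos (η : ℝ) (p : ℤ × ℤ) : 0 < W2 η p := by
  unfold W2; split_ifs
  · exact beta_pos _ _
  · exact mul_pos (beta_pos _ _) (beta_pos _ _)

end StekIso
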